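import Mathlib

set_option autoImplicit false

open MeasureTheory

namespace Pool.Agent.BP

/-- Rademacher function of period `2 L / 2^m` -/
noncomputable def rad (L : ℝ) (m : ℕ) (t : ℝ) : ℝ := (-1) ^ (⌊2 ^ m * t / L⌋)

theorem rad_sign (L : ℝ) (m : ℕ) (t : ℝ) : rad L m t = 1 ∨ rad L m t = -1 := by
  unfold rad
  rcases Int.even_or_odd ⌊2 ^ m * t / L⌋ with h | h
  · left; exact h.neg_one_zpow
  · right; exact h.neg_one_zpow

theorem rad_meas (L : ℝ) (m : ℕ) : Measurable (rad L m) := by
  have h1 : Measurable fun n : ℤ => ((-1 : ℝ) ^ n) := measurable_from_top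
  exact h1.comp (Int.measurable_floor.comp (by fun_prop))

theorem rad_flip {L : ℝ} (hL : 0 < L) (m : ℕ) (t : ℝ) : rad L m (t + L / 2 ^ m) = - rad L m t := by
  unfold rad
  have : 2 ^ m * (t + L / 2 ^ m) / L = 2 ^ m * t / L + 1 := by
    field_simp
  rw [this, Int.floor_add_one, zpow_add₀ (by norm_num)]
  simp

theorem rad_inv {L : ℝ} (hL : 0 < L) {m j : ℕ} (h : j < m) (t : ℝ) :
    rad L m (t + L / 2 ^ j) = rad L m t := by
  unfold rad
  obtain ⟨k, rfl⟩ := Nat.exists_eq_add_of_lt h
  have : 2 ^ (j + k + 1) * (t + L / 2 ^ j) / L = 2 ^ (j + k + 1) * t / L + ((2 ^ (k + 1) : ℕ) : ℝ) := by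
    push_cast
    field_simp
    ring
  rw [this, Int.floor_add_natCast, zpow_add₀ (by norm_num), zpow_natCast]
  have h2 : Even (2 ^ (k + 1)) := by
    rw [pow_succ]
    exact even_two.mul_left _
  rw [h2.neg_one_pow, mul_one]

theorem rad_per {L : ℝ} (hL : 0 < L) {m : ℕ} (h : 0 < m) (t : ℝ) : rad L m (t + L) = rad L m t := by
  have := rad_inv hL h t
  simpa using this

/-- a sign system on an interval of length `L`, with flips `h l` -/
structure Signs (L : ℝ) (K : ℕ) (e : ℕ → ℝ → ℝ) (h : ℕ → ℝ) : Prop where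
  sign : ∀ l t, e l t = 1 ∨ e l t = -1
  meas : ∀ l, Measurable (e l)
  per : ∀ l < K, ∀ t, e l (t + L) = e l t
  inv : ∀ l < K, ∀ j < l, ∀ t, e j (t + h l) = e j t
  flip : ∀ l < K, ∀ t, e l (t + h l) = - e l t

/-- the `n`-th sign system -/
noncomputable def sg (L : ℝ) (K n l : ℕ) : ℝ → ℝ := rad L ((n + 1) * K - l)

theorem signs_sg {L : ℝ} (hL : 0 < L) (K n : ℕ) :
    Signs L K (sg L K n) (fun l => L / 2 ^ ((n + 1) * K - l)) where
  sign := fun l t => rad_sign L _ t
  meas := fun l => rad_meas L _
  per := fun l hl t => rad_per hL (by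
    have : K ≤ (n + 1) * K := Nat.le_mul_of_pos_left K (Nat.succ_pos n)
    omega) t
  inv := fun l hl j hj t => rad_inv hL (by
    have : K ≤ (n + 1) * K := Nat.le_mul_of_pos_left K (Nat.succ_pos n)
    omega) t
  flip := fun l hl t => rad_flip hL _ t

/-- antiperiodic functions integrate to zero -/
theorem int_flip {L h : ℝ} (a : ℝ) {f : ℝ → ℝ} (hp : ∀ t, f (t + L) = f t) (hf : ∀ t, f (t + h) = - f t) :
    ∫ t in a..(a + L), f t = 0 := by
  have h1 : Function.Periodic f L := hp
  have h2 := h1.intervalIntegral_add_eq a (a + h)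
  have h3 : ∫ t in (a + h)..(a + h + L), f t = ∫ t in a..(a + L), f (t + h) := by
    rw [intervalIntegral.integral_comp_add_right]
    congr 1
    ring
  have h4 : ∫ t in a..(a + L), f (t + h) = - ∫ t in a..(a + L), f t := by
    simp only [hf]
    rw [intervalIntegral.integral_neg]
  linarith

variable {L : ℝ} {K : ℕ} {e : ℕ → ℝ → ℝ} {h : ℕ → ℝ}

/-- orthogonality of a sign to functions of the previous ones -/
theorem Signs.orth (S : Signs L K e h) (a : ℝ) {l : ℕ} (hl : l < K) {ψ : ℝ → ℝ}
    (hψ : ∀ t t', (∀ j < l, e j t' = e j t) → ψ t' = ψ t) :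
    ∫ t in a..(a + L), ψ t * e l t = 0 := by
  apply int_flip (h := h l) a
  · intro t
    rw [S.per l hl, hψ t (t + L) fun j hj => S.per j (hj.trans hl) t]
  · intro t
    rw [S.flip l hl, hψ t (t + h l) fun j hj => S.inv l hl j hj t]
    ring

/-- the index of the interval followed by `t` -/
noncomputable def idx (e : ℕ → ℝ → ℝ) : ℕ → ℝ → ℕ
  | 0, _ => 0
  | (l + 1), t => 2 * idx e l t + (if e l t = (-1) ^ l then 0 else 1)

theorem idx_lt (e : ℕ → ℝ → ℝ) (l : ℕ) (t : ℝ) : idx e l t < 2 ^ l := by
  induction l with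
  | zero => simp [idx]
  | succ l ih =>
    rw [idx, pow_succ]
    split_ifs <;> omega

theorem idx_meas (he : ∀ l, Measurable (e l)) (l : ℕ) : Measurable (idx e l) := by
  induction l with
  | zero => exact measurable_const
  | succ l ih =>
    have h1 : Measurable fun t => if e l t = (-1) ^ l then 0 else 1 := by
      refine Measurable.ite ?_ measurable_const measurable_const
      exact (he l) (measurableSet_singleton _)
    have h2 : Measurable fun t => 2 * idx e l t := (measurable_from_top (f := fun n : ℕ => 2 * n)).comp ih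
    exact h2.add h1

theorem idx_dep (l : ℕ) (t t' : ℝ) (ht : ∀ j < l, e j t' = e j t) : idx e l t' = idx e l t := by
  induction l with
  | zero => rfl
  | succ l ih =>
    rw [idx, idx, ih fun j hj => ht j (hj.trans (Nat.lt_succ_self l)), ht l (Nat.lt_succ_self l)]

/-- the measure of the sets where the index is fixed -/
theorem Signs.idx_int (S : Signs L K e h) (a : ℝ) {l : ℕ} (hl : l ≤ K) (i : ℕ) (hi : i < 2 ^ l) :
    ∫ t in a..(a + L), (if idx e l t = i then (1 : ℝ) else 0) = L / 2 ^ l := by
  induction l generalizing i with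
  | zero =>
    have : i = 0 := by simpa using hi
    subst this
    simp [idx]
  | succ l ih =>
    have hl' : l < K := hl
    -- i = 2 * i' + b
    have hi' : i / 2 < 2 ^ l := by
      rw [pow_succ] at hi
      omega
    have key : ∀ t, (if idx e (l + 1) t = i then (1 : ℝ) else 0) =
        (1 / 2) * (if idx e l t = i / 2 then (1 : ℝ) else 0) +
        (1 / 2) * ((if idx e l t = i / 2 then (1 : ℝ) else 0) * ((-1) ^ l * (-1) ^ i) * e l t) := by
      intro t
      have hs : ((-1 : ℝ)) ^ l = 1 ∨ ((-1 : ℝ)) ^ l = -1 := neg_one_pow_eq_or ℝ l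
      have hsi : (i % 2 = 0 ∧ ((-1 : ℝ)) ^ i = 1) ∨ (i % 2 = 1 ∧ ((-1 : ℝ)) ^ i = -1) := by
        rcases Nat.even_or_odd i with h | h
        · left; exact ⟨Nat.even_iff.1 h, h.neg_one_pow⟩
        · right; exact ⟨Nat.odd_iff.1 h, h.neg_one_pow⟩
      rw [idx]
      by_cases h1 : idx e l t = i / 2
      · rw [if_pos h1]
        rcases S.sign l t with h2 | h2 <;> rcases hs with h3 | h3 <;> rcases hsi with ⟨h4, h5⟩ | ⟨h4, h5⟩ <;>
          rw [h2, h3, h5] <;> norm_num <;> omega
      · rw [if_neg h1]
        have : ¬ (2 * idx e l t + (if e l t = (-1) ^ l then 0 else 1) = i) := by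
          split_ifs <;> omega
        rw [if_neg this]
        ring
    simp only [key]
    have hi1 : IntervalIntegrable (fun t => (1 / 2 : ℝ) * (if idx e l t = i / 2 then (1 : ℝ) else 0)) volume a (a + L) := by
      apply IntervalIntegrable.const_mul
      rw [intervalIntegrable_iff]
      refine Integrable.mono' (g := fun _ => (1 : ℝ)) (by
        rw [← IntegrableOn, ← intervalIntegrable_iff]; exact intervalIntegrable_const) ?_ ?_
      · exact (Measurable.ite ((idx_meas S.meas l) (measurableSet_singleton _)) measurable_const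
          measurable_const).aestronglyMeasurable
      · refine Filter.Eventually.of_forall fun t => ?_
        split_ifs <;> simp
    have hi2 : IntervalIntegrable (fun t => (1 / 2 : ℝ) * ((if idx e l t = i / 2 then (1 : ℝ) else 0) * ((-1) ^ l * (-1) ^ i) * e l t)) volume a (a + L) := by
      apply IntervalIntegrable.const_mul
      rw [intervalIntegrable_iff]
      refine Integrable.mono' (g := fun _ => (1 : ℝ)) (by
        rw [← IntegrableOn, ← intervalIntegrable_iff]; exact intervalIntegrable_const) ?_ ?_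
      · exact (((Measurable.ite ((idx_meas S.meas l) (measurableSet_singleton _)) measurable_const
          measurable_const).mul_const _).mul (S.meas l)).aestronglyMeasurable
      · refine Filter.Eventually.of_forall fun t => ?_
        have hs : |((-1 : ℝ)) ^ l| = 1 := by simp
        have hs2 : |((-1 : ℝ)) ^ i| = 1 := by simp
        have h2 : |e l t| = 1 := by rcases S.sign l t with h | h <;> rw [h] <;> norm_num
        rw [Real.norm_eq_abs, abs_mul, abs_mul, abs_mul, hs, hs2, h2]
        split_ifs <;> simp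
    rw [intervalIntegral.integral_add hi1 hi2, intervalIntegral.integral_const_mul,
      intervalIntegral.integral_const_mul, ih hl'.le (i / 2) hi',
      S.orth a hl' (ψ := fun t => (if idx e l t = i / 2 then (1 : ℝ) else 0) * ((-1) ^ l * (-1) ^ i)) ?_]
    · rw [pow_succ]
      field_simp
      ring
    · intro t t' ht
      rw [idx_dep l t t' ht]

end Pool.Agent.BP
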