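import Mathlib
import Pool.Agent.Helpers.BP1

set_option autoImplicit false

open MeasureTheory

namespace Pool.Agent.BP

variable {L : ℝ} {K : ℕ} {e : ℕ → ℝ → ℝ} {h : ℕ → ℝ}

/-- the walk -/
noncomputable def walk (c : ℕ → ℝ) (e : ℕ → ℝ → ℝ) (l : ℕ) (t : ℝ) : ℝ :=
  ∑ j ∈ Finset.range l, c j * e j t

/-- not yet exited -/
def alive (M : ℝ) (c : ℕ → ℝ) (e : ℕ → ℝ → ℝ) (l : ℕ) : Set ℝ := {t | ∀ j ≤ l, |walk c e j t| < M}

theorem walk_meas (c : ℕ → ℝ) (he : ∀ l, Measurable (e l)) (l : ℕ) : Measurable (walk c e l) := by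
  unfold walk
  exact Finset.measurable_sum _ fun j _ => (he j).const_mul _

theorem alive_meas (M : ℝ) (c : ℕ → ℝ) (he : ∀ l, Measurable (e l)) (l : ℕ) :
    MeasurableSet (alive M c e l) := by
  have : alive M c e l = ⋂ j ∈ Finset.range (l + 1), {t | |walk c e j t| < M} := by
    ext t
    simp only [alive, Set.mem_ofPred_eq, Set.mem_iInter, Finset.mem_range, Nat.lt_succ_iff]
  rw [this]
  refine Finset.measurableSet_biInter _ fun j _ => ?_
  have := (walk_meas c he j)
  exact measurableSet_lt (by fun_prop) measurable_const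

theorem walk_dep (c : ℕ → ℝ) (l : ℕ) (t t' : ℝ) (ht : ∀ j < l, e j t' = e j t) :
    walk c e l t' = walk c e l t := by
  unfold walk
  refine Finset.sum_congr rfl fun j hj => ?_
  rw [ht j (Finset.mem_range.1 hj)]

theorem alive_dep (M : ℝ) (c : ℕ → ℝ) (l : ℕ) (t t' : ℝ) (ht : ∀ j < l, e j t' = e j t) :
    t' ∈ alive M c e l ↔ t ∈ alive M c e l := by
  simp only [alive, Set.mem_ofPred_eq]
  constructor
  · intro h j hj
    rw [← walk_dep c j t t' fun i hi => ht i (lt_of_lt_of_le hi hj)]
    exact h j hj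
  · intro h j hj
    rw [walk_dep c j t t' fun i hi => ht i (lt_of_lt_of_le hi hj)]
    exact h j hj

open Classical in
/-- the stopped walk -/
noncomputable def stop (M : ℝ) (c : ℕ → ℝ) (e : ℕ → ℝ → ℝ) (l : ℕ) (t : ℝ) : ℝ :=
  ∑ j ∈ Finset.range l, (if t ∈ alive M c e j then c j * e j t else 0)

theorem alive_anti (M : ℝ) (c : ℕ → ℝ) {l l' : ℕ} (hl : l ≤ l') : alive M c e l' ⊆ alive M c e l :=
  fun _ ht j hj => ht j (hj.trans hl)

theorem stop_eq (M : ℝ) (c : ℕ → ℝ) (l : ℕ) (t : ℝ) (ht : t ∈ alive M c e l) :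
    stop M c e l t = walk c e l t := by
  unfold stop walk
  refine Finset.sum_congr rfl fun j hj => ?_
  rw [if_pos (alive_anti M c (Finset.mem_range.1 hj).le ht)]

theorem stop_bound {M : ℝ} (hM : 0 < M) {c : ℕ → ℝ} {b : ℝ} (hb : ∀ j, |c j| ≤ b)
    (hs : ∀ l t, e l t = 1 ∨ e l t = -1) (l : ℕ) (t : ℝ) : |stop M c e l t| ≤ M + b := by
  have hb0 : 0 ≤ b := (abs_nonneg _).trans (hb 0)
  induction l with
  | zero => simp [stop]; linarith
  | succ l ih =>
    by_cases ht : t ∈ alive M c e l
    · have h1 : stop M c e (l + 1) t = stop M c e l t + c l * e l t := by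
        unfold stop
        rw [Finset.sum_range_succ, if_pos ht]
      rw [h1, stop_eq M c l t ht]
      have h2 : |walk c e l t| < M := ht l le_rfl
      have h3 : |c l * e l t| ≤ b := by
        rw [abs_mul]
        have : |e l t| = 1 := by rcases hs l t with h | h <;> rw [h] <;> norm_num
        rw [this, mul_one]
        exact hb l
      calc |walk c e l t + c l * e l t| ≤ |walk c e l t| + |c l * e l t| := abs_add_le _ _
        _ ≤ M + b := by linarith
    · have h1 : stop M c e (l + 1) t = stop M c e l t := by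
        unfold stop
        rw [Finset.sum_range_succ, if_neg ht, add_zero]
      rw [h1]
      exact ih

theorem stop_meas (M : ℝ) (c : ℕ → ℝ) (he : ∀ l, Measurable (e l)) (l : ℕ) :
    Measurable (stop M c e l) := by
  unfold stop
  refine Finset.measurable_sum _ fun j _ => ?_
  exact Measurable.ite (alive_meas M c he j) ((he j).const_mul _) measurable_const

theorem stop_dep (M : ℝ) (c : ℕ → ℝ) (l : ℕ) (t t' : ℝ) (ht : ∀ j < l, e j t' = e j t) :
    stop M c e l t' = stop M c e l t := by
  unfold stop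
  refine Finset.sum_congr rfl fun j hj => ?_
  have hj' := Finset.mem_range.1 hj
  have h1 := alive_dep M c j t t' fun i hi => ht i (hi.trans hj')
  rw [ht j hj']
  by_cases h2 : t ∈ alive M c e j
  · rw [if_pos h2, if_pos (h1.2 h2)]
  · rw [if_neg h2, if_neg fun h3 => h2 (h1.1 h3)]

theorem bdd_int {f : ℝ → ℝ} (hf : Measurable f) {b : ℝ} (hb : ∀ t, |f t| ≤ b) (a a' : ℝ) :
    IntervalIntegrable f volume a a' := by
  rw [intervalIntegrable_iff]
  refine Integrable.mono' (g := fun _ => b) (by
    rw [← IntegrableOn, ← intervalIntegrable_iff]; exact intervalIntegrable_const) hf.aestronglyMeasurable ?_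
  exact Filter.Eventually.of_forall fun t => hb t

open Classical in
theorem stop_sq (S : Signs L K e h) (a : ℝ) {M : ℝ} (hM : 0 < M) {c : ℕ → ℝ} {b : ℝ}
    (hb : ∀ j, |c j| ≤ b) {l : ℕ} (hl : l < K) :
    ∫ t in a..(a + L), stop M c e (l + 1) t ^ 2 =
      (∫ t in a..(a + L), stop M c e l t ^ 2) +
        c l ^ 2 * ∫ t in a..(a + L), (if t ∈ alive M c e l then (1 : ℝ) else 0) := by
  have hb0 : 0 ≤ b := (abs_nonneg _).trans (hb 0)
  have key : ∀ t, stop M c e (l + 1) t ^ 2 = (stop M c e l t ^ 2 +
      c l ^ 2 * (if t ∈ alive M c e l then (1 : ℝ) else 0)) +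
      (2 * c l * (if t ∈ alive M c e l then (1 : ℝ) else 0) * stop M c e l t) * e l t := by
    intro t
    have h1 : stop M c e (l + 1) t = stop M c e l t + (if t ∈ alive M c e l then c l * e l t else 0) := by
      unfold stop
      rw [Finset.sum_range_succ]
    rw [h1]
    have h2 : e l t ^ 2 = 1 := by rcases S.sign l t with h | h <;> rw [h] <;> norm_num
    split_ifs
    · linear_combination c l ^ 2 * h2
    · ring
  simp only [key]
  have m1 : Measurable fun t => (if t ∈ alive M c e l then (1 : ℝ) else 0) :=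
    Measurable.ite (alive_meas M c S.meas l) measurable_const measurable_const
  have sb := stop_bound hM hb S.sign l
  have i1 : IntervalIntegrable (fun t => stop M c e l t ^ 2) volume a (a + L) := by
    refine bdd_int ((stop_meas M c S.meas l).pow_const 2) (b := (M + b) ^ 2) (fun t => ?_) _ _
    rw [abs_pow]
    exact pow_le_pow_left₀ (abs_nonneg _) (sb t) 2
  have i2 : IntervalIntegrable (fun t => c l ^ 2 * (if t ∈ alive M c e l then (1 : ℝ) else 0)) volume a (a + L) := by
    apply IntervalIntegrable.const_mul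
    refine bdd_int m1 (b := 1) (fun t => ?_) _ _
    split_ifs <;> simp
  have i3 : IntervalIntegrable (fun t => (2 * c l * (if t ∈ alive M c e l then (1 : ℝ) else 0) * stop M c e l t) * e l t)
      volume a (a + L) := by
    refine bdd_int (((m1.const_mul _).mul (stop_meas M c S.meas l)).mul (S.meas l))
      (b := 2 * b * 1 * (M + b)) (fun t => ?_) _ _
    have h2 : |e l t| = 1 := by rcases S.sign l t with h | h <;> rw [h] <;> norm_num
    rw [Pi.mul_apply, Pi.mul_apply, abs_mul, h2, mul_one, abs_mul, abs_mul, abs_mul]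
    have h3 : |(if t ∈ alive M c e l then (1 : ℝ) else 0)| ≤ 1 := by split_ifs <;> simp
    have h4 := hb l
    have h5 := sb t
    rw [abs_two]
    gcongr
  rw [intervalIntegral.integral_add (i1.add i2) i3, intervalIntegral.integral_add i1 i2,
    intervalIntegral.integral_const_mul]
  have := S.orth a hl (ψ := fun t => 2 * c l * (if t ∈ alive M c e l then (1 : ℝ) else 0) * stop M c e l t) (by
    intro t t' ht
    have h1 := alive_dep M c l t t' ht
    rw [stop_dep M c l t t' ht]
    by_cases h2 : t ∈ alive M c e l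
    · rw [if_pos h2, if_pos (h1.2 h2)]
    · rw [if_neg h2, if_neg fun h3 => h2 (h1.1 h3)])
  rw [this, add_zero]

open Classical in
/-- the probability of staying bounded is small -/
theorem alive_small (S : Signs L K e h) (hL : 0 ≤ L) (a : ℝ) {M : ℝ} (hM : 0 < M) {c : ℕ → ℝ} {b c0 : ℝ}
    (hb : ∀ j, |c j| ≤ b) (hc0 : 0 ≤ c0) (hc : ∀ j, c0 ≤ c j) :
    (K : ℝ) * c0 ^ 2 * ∫ t in a..(a + L), (if t ∈ alive M c e K then (1 : ℝ) else 0) ≤ L * (M + b) ^ 2 := by
  have hb0 : 0 ≤ b := (abs_nonneg _).trans (hb 0)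
  have m1 : ∀ l, Measurable fun t => (if t ∈ alive M c e l then (1 : ℝ) else 0) := fun l =>
    Measurable.ite (alive_meas M c S.meas l) measurable_const measurable_const
  have i1 : ∀ l, IntervalIntegrable (fun t => (if t ∈ alive M c e l then (1 : ℝ) else 0)) volume a (a + L) := by
    intro l
    refine bdd_int (m1 l) (b := 1) (fun t => ?_) _ _
    split_ifs <;> simp
  have haL : a ≤ a + L := by linarith
  have step : ∀ l ≤ K, (l : ℝ) * c0 ^ 2 * ∫ t in a..(a + L), (if t ∈ alive M c e K then (1 : ℝ) else 0) ≤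
      ∫ t in a..(a + L), stop M c e l t ^ 2 := by
    intro l
    induction l with
    | zero => intro _; simp [stop]
    | succ l ih =>
      intro hl
      rw [stop_sq S a hM hb hl]
      have h1 := ih (Nat.le_of_succ_le hl)
      have h2 : ∫ t in a..(a + L), (if t ∈ alive M c e K then (1 : ℝ) else 0) ≤
          ∫ t in a..(a + L), (if t ∈ alive M c e l then (1 : ℝ) else 0) := by
        apply intervalIntegral.integral_mono_on haL (i1 K) (i1 l)
        intro t _
        by_cases ht : t ∈ alive M c e K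
        · rw [if_pos ht, if_pos (alive_anti M c (Nat.le_of_succ_le hl) ht)]
        · rw [if_neg ht]
          split_ifs <;> norm_num
      have h3 : 0 ≤ ∫ t in a..(a + L), (if t ∈ alive M c e K then (1 : ℝ) else 0) := by
        apply intervalIntegral.integral_nonneg haL
        intro t _
        split_ifs <;> norm_num
      have h4 : c0 ^ 2 ≤ c l ^ 2 := pow_le_pow_left₀ hc0 (hc l) 2
      have h5 : c0 ^ 2 * (∫ t in a..(a + L), (if t ∈ alive M c e K then (1 : ℝ) else 0)) ≤
          c l ^ 2 * ∫ t in a..(a + L), (if t ∈ alive M c e l then (1 : ℝ) else 0) :=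
        mul_le_mul h4 h2 h3 (sq_nonneg _)
      push_cast
      linarith
  refine (step K le_rfl).trans ?_
  have sb := stop_bound hM hb S.sign K
  calc ∫ t in a..(a + L), stop M c e K t ^ 2 ≤ ∫ _ in a..(a + L), (M + b) ^ 2 := by
        apply intervalIntegral.integral_mono_on haL
        · refine bdd_int ((stop_meas M c S.meas K).pow_const 2) (b := (M + b) ^ 2) (fun t => ?_) _ _
          rw [abs_pow]
          exact pow_le_pow_left₀ (abs_nonneg _) (sb t) 2
        · exact intervalIntegrable_const
        · intro t _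
          rw [← sq_abs]
          exact pow_le_pow_left₀ (abs_nonneg _) (sb t) 2
    _ = L * (M + b) ^ 2 := by
        rw [intervalIntegral.integral_const, smul_eq_mul]
        ring

end Pool.Agent.BP
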