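import Mathlib
import Pool.Agent.Helpers.BP2

set_option autoImplicit false

open MeasureTheory

namespace Pool.Agent.BP

/-- the splitting recursion -/
noncomputable def VV {X : Type*} [AddCommGroup X] [Module ℝ X] (g : X) (Y : ℕ → ℕ → X) : ℕ → ℕ → X
  | 0, _ => g
  | (l + 1), i => (1 / 2 : ℝ) • (VV g Y l (i / 2) + ((-1 : ℝ) ^ i) • Y l (i / 2))

/-- partial sums -/
noncomputable def GG {X : Type*} [AddCommGroup X] [Module ℝ X] (g : X) (Y : ℕ → ℕ → X) (l N : ℕ) : X :=
  ∑ i ∈ Finset.range N, VV g Y l i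

section alg

variable {X : Type*} [AddCommGroup X] [Module ℝ X]

theorem VV_succ_even (g : X) (Y : ℕ → ℕ → X) (l i : ℕ) :
    VV g Y (l + 1) (2 * i) = (1 / 2 : ℝ) • (VV g Y l i + Y l i) := by
  rw [VV]
  have h1 : 2 * i / 2 = i := by omega
  rw [h1, (even_two_mul i).neg_one_pow, one_smul]

theorem VV_succ_odd (g : X) (Y : ℕ → ℕ → X) (l i : ℕ) :
    VV g Y (l + 1) (2 * i + 1) = (1 / 2 : ℝ) • (VV g Y l i - Y l i) := by
  rw [VV]
  have h1 : (2 * i + 1) / 2 = i := by omega
  rw [h1, (odd_two_mul_add_one i).neg_one_pow, neg_one_smul, sub_eq_add_neg]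

theorem GG_even (g : X) (Y : ℕ → ℕ → X) (l N : ℕ) : GG g Y (l + 1) (2 * N) = GG g Y l N := by
  induction N with
  | zero => simp [GG]
  | succ N ih =>
    have h1 : GG g Y (l + 1) (2 * (N + 1)) =
        GG g Y (l + 1) (2 * N) + VV g Y (l + 1) (2 * N) + VV g Y (l + 1) (2 * N + 1) := by
      unfold GG
      rw [show 2 * (N + 1) = (2 * N + 1) + 1 by ring, Finset.sum_range_succ, Finset.sum_range_succ]
    have h2 : GG g Y l (N + 1) = GG g Y l N + VV g Y l N := by
      unfold GG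
      rw [Finset.sum_range_succ]
    rw [h1, h2, ih, VV_succ_even, VV_succ_odd, add_assoc]
    congr 1
    rw [← smul_add]
    have : VV g Y l N + Y l N + (VV g Y l N - Y l N) = (2 : ℝ) • VV g Y l N := by
      rw [two_smul]
      abel
    rw [this, smul_smul]
    norm_num

theorem GG_odd (g : X) (Y : ℕ → ℕ → X) (l N : ℕ) :
    GG g Y (l + 1) (2 * N + 1) = GG g Y l N + (1 / 2 : ℝ) • (VV g Y l N + Y l N) := by
  have h1 : GG g Y (l + 1) (2 * N + 1) = GG g Y (l + 1) (2 * N) + VV g Y (l + 1) (2 * N) := by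
    unfold GG
    rw [Finset.sum_range_succ]
  rw [h1, GG_even, VV_succ_even]

theorem GG_pow (g : X) (Y : ℕ → ℕ → X) (l m N : ℕ) : GG g Y (l + m) (2 ^ m * N) = GG g Y l N := by
  induction m with
  | zero => simp
  | succ m ih =>
    rw [← add_assoc, pow_succ, show 2 ^ m * 2 * N = 2 * (2 ^ m * N) by ring, GG_even, ih]

theorem VV_add (g g' : X) (Y Y' : ℕ → ℕ → X) (l i : ℕ) :
    VV (g + g') (fun l i => Y l i + Y' l i) l i = VV g Y l i + VV g' Y' l i := by
  induction l generalizing i with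
  | zero => rfl
  | succ l ih =>
    rw [VV, VV, VV, ih]
    simp only [smul_add]
    abel

theorem GG_add (g g' : X) (Y Y' : ℕ → ℕ → X) (l N : ℕ) :
    GG (g + g') (fun l i => Y l i + Y' l i) l N = GG g Y l N + GG g' Y' l N := by
  unfold GG
  rw [← Finset.sum_add_distrib]
  exact Finset.sum_congr rfl fun i _ => VV_add _ _ _ _ _ _

theorem VV_map {X' : Type*} [AddCommGroup X'] [Module ℝ X'] (T : X →ₗ[ℝ] X') (g : X) (Y : ℕ → ℕ → X)
    (l i : ℕ) : T (VV g Y l i) = VV (T g) (fun l i => T (Y l i)) l i := by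
  induction l generalizing i with
  | zero => rfl
  | succ l ih => rw [VV, VV, map_smul, map_add, map_smul, ih]

end alg

/-- bound for the partial sums of the real recursion -/
theorem GG_bound {g : ℝ} {Y : ℕ → ℕ → ℝ} {b c : ℝ} (hg : |g| ≤ b) (hc : 0 ≤ c) {K : ℕ}
    (hY : ∀ l < K, ∀ i, |Y l i| ≤ c) (l : ℕ) (hlK : l ≤ K) :
    (∀ i, |VV g Y l i| ≤ b + c) ∧ ∀ N ≤ 2 ^ l, |GG g Y l N| ≤ b + (l : ℝ) * (b + c) := by
  have hb : 0 ≤ b := (abs_nonneg _).trans hg
  induction l with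
  | zero =>
    constructor
    · intro i
      show |g| ≤ b + c
      linarith
    · intro N hN
      have : N = 0 ∨ N = 1 := by
        simp at hN
        omega
      rcases this with rfl | rfl
      · simp [GG, hb]
      · simp [GG, VV, hg]
  | succ l ih =>
    have ih := ih (Nat.le_of_succ_le hlK)
    have h1 : ∀ i, |VV g Y (l + 1) i| ≤ b + c := by
      intro i
      rw [VV]
      simp only [smul_eq_mul]
      have h2 := ih.1 (i / 2)
      have h3 := hY l hlK (i / 2)
      have h4 : |(-1 : ℝ) ^ i * Y l (i / 2)| ≤ c := by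
        rw [abs_mul]
        simpa using h3
      rw [abs_mul]
      have h5 := abs_add_le (VV g Y l (i / 2)) ((-1 : ℝ) ^ i * Y l (i / 2))
      have h6 : |(1 / 2 : ℝ)| = 1 / 2 := by norm_num
      rw [h6]
      linarith
    refine ⟨h1, fun N hN => ?_⟩
    push_cast
    rcases Nat.even_or_odd' N with ⟨m, rfl | rfl⟩
    · rw [GG_even]
      have hm : m ≤ 2 ^ l := by
        rw [pow_succ] at hN
        omega
      have := ih.2 m hm
      linarith
    · have hm : m ≤ 2 ^ l := by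
        rw [pow_succ] at hN
        omega
      have h7 : GG g Y (l + 1) (2 * m + 1) = GG g Y (l + 1) (2 * m) + VV g Y (l + 1) (2 * m) := by
        unfold GG
        rw [Finset.sum_range_succ]
      rw [h7, GG_even]
      have h8 := ih.2 m hm
      have h9 := h1 (2 * m)
      have h10 := abs_add_le (GG g Y l m) (VV g Y (l + 1) (2 * m))
      linarith

theorem VV_zeroY {X : Type*} [AddCommGroup X] [Module ℝ X] (g : X) (l i : ℕ) :
    VV g (fun _ _ => (0 : X)) l i = ((1 / 2 : ℝ) ^ l) • g := by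
  induction l generalizing i with
  | zero => simp [VV]
  | succ l ih => rw [VV, ih, smul_zero, add_zero, smul_smul, pow_succ, mul_comm]

theorem GG_zeroY (g : ℝ) (l N : ℕ) (hN : N ≤ 2 ^ l) : |GG g (fun _ _ => (0 : ℝ)) l N| ≤ |g| := by
  unfold GG
  simp only [VV_zeroY]
  rw [Finset.sum_const, Finset.card_range, nsmul_eq_mul, smul_eq_mul, abs_mul, abs_mul]
  have h1 : |(N : ℝ)| * |(1 / 2 : ℝ) ^ l| ≤ 1 := by
    rw [Nat.abs_cast, abs_of_pos (by positivity), one_div, inv_pow]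
    have : (N : ℝ) ≤ 2 ^ l := by exact_mod_cast hN
    rw [← div_eq_mul_inv, div_le_one (by positivity)]
    exact this
  rw [← mul_assoc]
  exact mul_le_of_le_one_left (abs_nonneg g) h1

theorem VV_smulY {X : Type*} [AddCommGroup X] [Module ℝ X] (k : ℝ) (g : X) (Y : ℕ → ℕ → X) (l i : ℕ) :
    VV (k • g) (fun l i => k • Y l i) l i = k • VV g Y l i := by
  induction l generalizing i with
  | zero => rfl
  | succ l ih =>
    rw [VV, VV, ih, smul_comm k (1 / 2 : ℝ), smul_comm _ k, ← smul_add]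

theorem GG_smulY {X : Type*} [AddCommGroup X] [Module ℝ X] (k : ℝ) (g : X) (Y : ℕ → ℕ → X) (l N : ℕ) :
    GG (k • g) (fun l i => k • Y l i) l N = k • GG g Y l N := by
  unfold GG
  rw [Finset.smul_sum]
  exact Finset.sum_congr rfl fun i _ => VV_smulY _ _ _ _ _

theorem VV_congr {X : Type*} [AddCommGroup X] [Module ℝ X] (g : X) (Y Y' : ℕ → ℕ → X) (l : ℕ)
    (h : ∀ l' < l, ∀ i, Y l' i = Y' l' i) (i : ℕ) : VV g Y l i = VV g Y' l i := by
  induction l generalizing i with
  | zero => rfl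
  | succ l ih =>
    rw [VV, VV, ih (fun l' hl' => h l' (hl'.trans (Nat.lt_succ_self l))), h l (Nat.lt_succ_self l)]

/-- the deterministic difference sequence -/
noncomputable def dd : ℕ → ℝ
  | 0 => 0
  | (l + 1) => (dd l + (-1) ^ l) / 2

theorem dd_sign (l : ℕ) : -1 ≤ (-1) ^ l * dd l ∧ (-1) ^ l * dd l ≤ 0 := by
  induction l with
  | zero => simp [dd]
  | succ l ih =>
    have h1 : ((-1 : ℝ)) ^ l = 1 ∨ ((-1 : ℝ)) ^ l = -1 := neg_one_pow_eq_or ℝ l
    rw [dd, pow_succ]
    rcases h1 with h1 | h1 <;> rw [h1] at ih ⊢ <;> constructor <;> linarith [ih.1, ih.2]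

/-- the coefficients of the walk -/
noncomputable def cc (l : ℕ) : ℝ := (1 - (-1) ^ l * dd l) / 4

theorem cc_ge (l : ℕ) : 1 / 4 ≤ cc l := by
  have := (dd_sign l).2
  unfold cc
  linarith

theorem cc_le (l : ℕ) : |cc l| ≤ 1 / 2 := by
  have h1 := (dd_sign l).1
  have h2 := cc_ge l
  rw [abs_of_nonneg (by linarith)]
  unfold cc
  linarith

/-- the ideal increments at a point -/
noncomputable def YY (e : ℕ → ℝ → ℝ) (t : ℝ) (l i : ℕ) : ℝ := if idx e l t = i then e l t else 0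

theorem ideal_point {e : ℕ → ℝ → ℝ} (he : ∀ l t, e l t = 1 ∨ e l t = -1) (t : ℝ) (l : ℕ) :
    VV (0 : ℝ) (YY e t) l (idx e l t) = dd l ∧
    GG (0 : ℝ) (YY e t) l (idx e l t) + dd l / 2 = walk cc e l t := by
  induction l with
  | zero => simp [VV, GG, dd, walk, idx]
  | succ l ih =>
    obtain ⟨h1, h2⟩ := ih
    have hY : YY e t l (idx e l t) = e l t := by simp [YY]
    have hw : walk cc e (l + 1) t = walk cc e l t + cc l * e l t := by
      unfold walk
      rw [Finset.sum_range_succ]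
    have hdd : dd (l + 1) = (dd l + (-1) ^ l) / 2 := rfl
    have hcc : cc l = (1 - (-1) ^ l * dd l) / 4 := rfl
    rw [idx]
    by_cases h3 : e l t = (-1) ^ l
    · rw [if_pos h3, add_zero]
      constructor
      · rw [VV_succ_even, h1, hY, h3, hdd, smul_eq_mul]
        ring
      · rw [GG_even, hw, ← h2, hdd, hcc, h3]
        have h4 : ((-1 : ℝ) ^ l) * (-1) ^ l = 1 := by rw [← mul_pow]; simp
        linear_combination (dd l / 4) * h4
    · rw [if_neg h3]
      have h5 : (-1 : ℝ) ^ l = - e l t := by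
        have h1 : ((-1 : ℝ)) ^ l = 1 ∨ ((-1 : ℝ)) ^ l = -1 := neg_one_pow_eq_or ℝ l
        rcases he l t with h | h <;> rcases h1 with h' | h' <;> rw [h, h'] at h3 ⊢
        · exact absurd rfl h3
        · norm_num
        · exact absurd rfl h3
      constructor
      · rw [VV_succ_odd, h1, hY, hdd, h5, smul_eq_mul]
        ring
      · rw [GG_odd, h1, hY, hw, ← h2, hdd, hcc, h5, smul_eq_mul]
        have h4 : e l t * e l t = 1 := by rcases he l t with h | h <;> rw [h] <;> norm_num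
        linear_combination (- dd l / 4) * h4

/-- a large walk forces a large partial sum -/
theorem large_of_walk {e : ℕ → ℝ → ℝ} (he : ∀ l t, e l t = 1 ∨ e l t = -1) (t : ℝ) {K l : ℕ}
    (hl : l ≤ K) {M : ℝ} (hM : M ≤ |walk cc e l t|) :
    ∃ N ≤ 2 ^ K, M ≤ |GG (0 : ℝ) (YY e t) K N| := by
  obtain ⟨h1, h2⟩ := ideal_point he t l
  obtain ⟨m, rfl⟩ := Nat.exists_eq_add_of_le hl
  have h3 := idx_lt e l t
  have e1 := GG_pow (0 : ℝ) (YY e t) l m (idx e l t)
  have e2 := GG_pow (0 : ℝ) (YY e t) l m (idx e l t + 1)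
  have h4 : GG (0 : ℝ) (YY e t) l (idx e l t + 1) = GG (0 : ℝ) (YY e t) l (idx e l t) + dd l := by
    rw [← h1]
    unfold GG
    rw [Finset.sum_range_succ]
  have b1 : 2 ^ m * idx e l t ≤ 2 ^ (l + m) := by
    rw [pow_add, mul_comm]
    exact Nat.mul_le_mul_right _ h3.le
  have b2 : 2 ^ m * (idx e l t + 1) ≤ 2 ^ (l + m) := by
    rw [pow_add, mul_comm]
    exact Nat.mul_le_mul_right _ h3
  by_cases h5 : M ≤ |GG (0 : ℝ) (YY e t) l (idx e l t)|
  · exact ⟨_, b1, by rw [e1]; exact h5⟩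
  · refine ⟨_, b2, ?_⟩
    rw [e2]
    by_contra h6
    push Not at h5 h6
    rw [h4] at h6
    rw [← h2] at hM
    have h7 : GG (0 : ℝ) (YY e t) l (idx e l t) + dd l / 2 =
        (1 / 2) * GG (0 : ℝ) (YY e t) l (idx e l t) + (1 / 2) * (GG (0 : ℝ) (YY e t) l (idx e l t) + dd l) := by ring
    rw [h7] at hM
    have h8 := abs_add_le ((1 / 2) * GG (0 : ℝ) (YY e t) l (idx e l t)) ((1 / 2) * (GG (0 : ℝ) (YY e t) l (idx e l t) + dd l))
    rw [abs_mul, abs_mul] at h8
    have h9 : |(1 / 2 : ℝ)| = 1 / 2 := by norm_num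
    rw [h9] at h8
    linarith

end Pool.Agent.BP
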