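import Mathlib
import Pool.Agent.Helpers.BP3

set_option autoImplicit false

open MeasureTheory

namespace Pool.Agent.BP

section absH

variable {H : Type*} [NormedAddCommGroup H] [InnerProductSpace ℝ H]

open scoped RealInnerProductSpace

/-- many unit vectors of `V` orthogonal to a finite-dimensional space -/
theorem exists_orth (V : Submodule ℝ H)
    (hinf : ∀ G : Submodule ℝ H, FiniteDimensional ℝ G → ∃ z ∈ V, ‖z‖ = 1 ∧ ∀ x ∈ G, ⟪x, z⟫ = 0)
    (m : ℕ) (G : Submodule ℝ H) (hG : FiniteDimensional ℝ G) :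
    ∃ z : Fin m → H, (∀ i j, ⟪z i, z j⟫ = if i = j then 1 else 0) ∧ (∀ j, z j ∈ V) ∧
      ∀ j, ∀ x ∈ G, ⟪x, z j⟫ = 0 := by
  induction m generalizing G with
  | zero => exact ⟨Fin.elim0, fun i => i.elim0, fun i => i.elim0, fun i => i.elim0⟩
  | succ m ih =>
    obtain ⟨z0, hz0, hn, ho⟩ := hinf G hG
    have hfd : FiniteDimensional ℝ (G ⊔ Submodule.span ℝ {z0} : Submodule ℝ H) := by
      have : FiniteDimensional ℝ (Submodule.span ℝ ({z0} : Set H)) :=
        FiniteDimensional.span_singleton ℝ z0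
      exact Submodule.finiteDimensional_sup _ _
    obtain ⟨z, h1, h2, h3⟩ := ih (G ⊔ Submodule.span ℝ {z0}) hfd
    have h4 : ∀ j, ⟪z0, z j⟫ = 0 := fun j =>
      h3 j z0 (Submodule.mem_sup_right (Submodule.mem_span_singleton_self z0))
    refine ⟨Fin.cons z0 z, ?_, ?_, ?_⟩
    · intro i j
      refine Fin.cases ?_ (fun i => ?_) i <;> refine Fin.cases ?_ (fun j => ?_) j
      · simp only [Fin.cons_zero, if_true]
        rw [real_inner_self_eq_norm_sq, hn, one_pow]
      · simp only [Fin.cons_zero, Fin.cons_succ]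
        rw [h4 j, if_neg (Fin.succ_ne_zero j).symm]
      · simp only [Fin.cons_zero, Fin.cons_succ]
        rw [real_inner_comm, h4 i, if_neg (Fin.succ_ne_zero i)]
      · simp only [Fin.cons_succ, Fin.succ_inj]
        exact h1 i j
    · intro j
      refine Fin.cases ?_ (fun j => ?_) j
      · exact hz0
      · exact h2 j
    · intro j x hx
      refine Fin.cases ?_ (fun j => ?_) j
      · exact ho x hx
      · exact h3 j x (Submodule.mem_sup_left hx)

/-- the exact correction -/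
theorem correct {ι : Type*} (V : Submodule ℝ H)
    (hinf : ∀ G : Submodule ℝ H, FiniteDimensional ℝ G → ∃ z ∈ V, ‖z‖ = 1 ∧ ∀ x ∈ G, ⟪x, z⟫ = 0)
    {m : ℕ} (f : Fin m → H) (hf : ∀ i j, ⟪f i, f j⟫ = if i = j then 1 else 0) (hfV : ∀ j, f j ∈ V)
    (Y : ι → H) (s : Finset ι) (hY : ∀ i, Y i ∈ V) :
    ∃ z : Fin m → H, (∀ j, ‖z j‖ = 1) ∧
      (∀ i, Y i + ∑ j, ⟪f j, Y i⟫ • (z j - f j) ∈ V) ∧
      (∀ i ∈ s, ∀ j, ⟪f j, Y i + ∑ j, ⟪f j, Y i⟫ • (z j - f j)⟫ = 0) ∧
      (∀ i ∈ s, ∀ k ∈ s, ⟪Y i + ∑ j, ⟪f j, Y i⟫ • (z j - f j),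
        Y k + ∑ j, ⟪f j, Y k⟫ • (z j - f j)⟫ = ⟪Y i, Y k⟫) := by
  classical
  let G : Submodule ℝ H := Submodule.span ℝ (((s.image Y) ∪ (Finset.univ.image f) : Finset H) : Set H)
  have hG : FiniteDimensional ℝ G := FiniteDimensional.span_finset ℝ _
  obtain ⟨z, h1, h2, h3⟩ := exists_orth V hinf m G hG
  have hfG : ∀ j, f j ∈ G := fun j => Submodule.subset_span (by simp)
  have hYG : ∀ i ∈ s, Y i ∈ G := fun i hi => Submodule.subset_span (by
    simp only [Finset.coe_union, Set.mem_union, Finset.coe_image, Set.mem_image]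
    left
    exact ⟨i, hi, rfl⟩)
  have hfz : ∀ i j, ⟪f i, z j⟫ = 0 := fun i j => h3 j _ (hfG i)
  have hzf : ∀ i j, ⟪z j, f i⟫ = 0 := fun i j => by rw [real_inner_comm, hfz]
  have hYz : ∀ i ∈ s, ∀ j, ⟪Y i, z j⟫ = 0 := fun i hi j => h3 j _ (hYG i hi)
  have hzY : ∀ i ∈ s, ∀ j, ⟪z j, Y i⟫ = 0 := fun i hi j => by rw [real_inner_comm, hYz i hi]
  refine ⟨z, fun j => ?_, fun i => ?_, fun i hi k => ?_, fun i hi k hk => ?_⟩
  · have := h1 j j
    rw [if_pos rfl, real_inner_self_eq_norm_sq] at this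
    nlinarith [norm_nonneg (z j)]
  · exact V.add_mem (hY i) (V.sum_mem fun j _ => V.smul_mem _ (V.sub_mem (h2 j) (hfV j)))
  · rw [inner_add_right, inner_sum]
    simp only [inner_smul_right, inner_sub_right, hfz, hf]
    simp
  · have d1 : ∀ i ∈ s, ∀ j, ⟪Y i, z j - f j⟫ = - ⟪f j, Y i⟫ := by
      intro i hi j
      rw [inner_sub_right, hYz i hi, zero_sub, real_inner_comm]
    have d2 : ∀ i ∈ s, ∀ j, ⟪z j - f j, Y i⟫ = - ⟪f j, Y i⟫ := by
      intro i hi j
      rw [inner_sub_left, hzY i hi, zero_sub]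
    have d3 : ∀ j k, ⟪z j - f j, z k - f k⟫ = if j = k then 2 else 0 := by
      intro j k
      rw [inner_sub_right, inner_sub_left, inner_sub_left, h1, hfz, hzf, hf]
      split_ifs <;> norm_num
    have d4 : ⟪∑ j, ⟪f j, Y i⟫ • (z j - f j), ∑ j, ⟪f j, Y k⟫ • (z j - f j)⟫ =
        ∑ j, 2 * (⟪f j, Y i⟫ * ⟪f j, Y k⟫) := by
      rw [sum_inner]
      refine Finset.sum_congr rfl fun j _ => ?_
      rw [inner_sum, Finset.sum_eq_single j]
      · rw [inner_smul_left, inner_smul_right, d3, if_pos rfl, conj_trivial]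
        ring
      · intro b _ hb
        rw [inner_smul_left, inner_smul_right, d3, if_neg (Ne.symm hb)]
        ring
      · intro h; exact absurd (Finset.mem_univ _) h
    have d5 : ⟪Y i, ∑ j, ⟪f j, Y k⟫ • (z j - f j)⟫ = ∑ j, -(⟪f j, Y i⟫ * ⟪f j, Y k⟫) := by
      rw [inner_sum]
      refine Finset.sum_congr rfl fun j _ => ?_
      rw [inner_smul_right, d1 i hi]
      ring
    have d6 : ⟪∑ j, ⟪f j, Y i⟫ • (z j - f j), Y k⟫ = ∑ j, -(⟪f j, Y i⟫ * ⟪f j, Y k⟫) := by
      rw [sum_inner]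
      refine Finset.sum_congr rfl fun j _ => ?_
      rw [inner_smul_left, d2 k hk, conj_trivial]
      ring
    rw [inner_add_left, inner_add_right, inner_add_right, d4, d5, d6, ← Finset.mul_sum,
      Finset.sum_neg_distrib]
    ring

/-- orthogonality of the splitting recursion -/
theorem VV_orth {g : H} {Y : ℕ → ℕ → H} {K : ℕ} (hg : ⟪g, g⟫ = 1)
    (hgY : ∀ l < K, ∀ i < 2 ^ l, ⟪g, Y l i⟫ = 0)
    (hY : ∀ l < K, ∀ i < 2 ^ l, ∀ l' < K, ∀ i' < 2 ^ l', ⟪Y l i, Y l' i'⟫ =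
      if l = l' ∧ i = i' then (1 / 2 : ℝ) ^ l else 0) (l : ℕ) (hl : l ≤ K) :
    (∀ i < 2 ^ l, ∀ j < 2 ^ l, ⟪VV g Y l i, VV g Y l j⟫ = if i = j then (1 / 2 : ℝ) ^ l else 0) ∧
    (∀ i < 2 ^ l, ∀ l' < K, l ≤ l' → ∀ j < 2 ^ l', ⟪VV g Y l i, Y l' j⟫ = 0) := by
  induction l with
  | zero =>
    constructor
    · intro i hi j hj
      have hi : i = 0 := by simpa using hi
      have hj : j = 0 := by simpa using hj
      subst hi hj
      rw [VV, if_pos rfl, pow_zero]
      exact hg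
    · intro i hi l' hl' _ j hj
      exact hgY l' hl' j hj
  | succ l ih =>
    obtain ⟨h1, h2⟩ := ih (Nat.le_of_succ_le hl)
    have hlK : l < K := hl
    have hdiv : ∀ i < 2 ^ (l + 1), i / 2 < 2 ^ l := by
      intro i hi
      rw [pow_succ] at hi
      omega
    constructor
    · intro i hi j hj
      have hi' := hdiv i hi
      have hj' := hdiv j hj
      rw [VV, VV, inner_smul_left, inner_smul_right, inner_add_left, inner_add_right, inner_add_right,
        inner_smul_left, inner_smul_left, inner_smul_right, inner_smul_right, h1 _ hi' _ hj', h2 _ hi' l hlK le_rfl _ hj',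
        real_inner_comm, h2 _ hj' l hlK le_rfl _ hi', hY l hlK _ hi' l hlK _ hj']
      simp only [conj_trivial, true_and, mul_zero, add_zero, zero_add]
      by_cases h3 : i / 2 = j / 2
      · rw [if_pos h3]
        by_cases h4 : i = j
        · rw [if_pos h4, h4, pow_succ]
          have : ((-1 : ℝ) ^ j) * ((-1) ^ j * (1 / 2) ^ l) = (1 / 2) ^ l := by
            rw [← mul_assoc, ← mul_pow]
            simp
          rw [this]
          ring
        · rw [if_neg h4]
          have : ((-1 : ℝ) ^ i) * (-1) ^ j = -1 := by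
            rw [← pow_add]
            apply Odd.neg_one_pow
            rw [Nat.odd_iff]
            omega
          linear_combination (1 / 4 : ℝ) * (1 / 2) ^ l * this
      · rw [if_neg h3, if_neg (fun h => h3 (by rw [h]))]
        ring
    · intro i hi l' hl' hll j hj
      have hi' := hdiv i hi
      rw [VV, inner_smul_left, inner_add_left, inner_smul_left, h2 _ hi' l' hl' (by omega) j hj,
        hY l hlK _ hi' l' hl' j hj, if_neg (by omega)]
      simp

theorem VV_G {g : H} {Y : ℕ → ℕ → H} {K : ℕ} {x : H}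
    (hxY : ∀ l < K, ∀ i < 2 ^ l, ⟪x, Y l i⟫ = 0) (l : ℕ) (hl : l ≤ K) :
    ∀ i < 2 ^ l, ⟪x, VV g Y l i⟫ = (1 / 2 : ℝ) ^ l * ⟪x, g⟫ := by
  induction l with
  | zero =>
    intro i hi
    simp [VV]
  | succ l ih =>
    intro i hi
    have hi' : i / 2 < 2 ^ l := by
      rw [pow_succ] at hi
      omega
    rw [VV, inner_smul_right, inner_add_right, inner_smul_right, ih (Nat.le_of_succ_le hl) _ hi',
      hxY l hl _ hi', pow_succ]
    ring

theorem VV_mem (V : Submodule ℝ H) {g : H} {Y : ℕ → ℕ → H} (hg : g ∈ V) (hY : ∀ l i, Y l i ∈ V)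
    (l i : ℕ) : VV g Y l i ∈ V := by
  induction l generalizing i with
  | zero => exact hg
  | succ l ih => exact V.smul_mem _ (V.add_mem (ih _) (V.smul_mem _ (hY _ _)))

theorem GG_full (g : H) (Y : ℕ → ℕ → H) (l : ℕ) : GG g Y l (2 ^ l) = g := by
  have := GG_pow g Y 0 l 1
  rw [zero_add, mul_one] at this
  rw [this]
  simp [GG, VV]

end absH

end Pool.Agent.BP
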