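import Mathlib
import Pool.Agent.Helpers.BP4

set_option autoImplicit false

open MeasureTheory
open scoped ENNReal

namespace Pool.Agent.BP

/-- the measure space -/
noncomputable abbrev muI : Measure ℝ := volume.restrict (Set.Icc 0 1)

/-- the Hilbert space -/
noncomputable abbrev HH : Type := Lp ℝ 2 muI

open scoped RealInnerProductSpace

theorem inner_HH (x y : HH) : ⟪x, y⟫ = ∫ t, x t * y t ∂muI := by
  rw [L2.inner_def]
  refine integral_congr_ae (Filter.Eventually.of_forall fun t => ?_)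
  simp [mul_comm]

/-- functions vanishing on `[0,a]` -/
def LA (a : ℝ) : Submodule ℝ HH where
  carrier := {x | ∀ᵐ t ∂muI, t ≤ a → x t = 0}
  add_mem' := by
    intro x y hx hy
    filter_upwards [hx, hy, Lp.coeFn_add x y] with t h1 h2 h3 h4
    rw [h3, Pi.add_apply, h1 h4, h2 h4, add_zero]
  zero_mem' := by
    filter_upwards [Lp.coeFn_zero ℝ 2 muI] with t h1 _
    rw [h1]
    rfl
  smul_mem' := by
    intro c x hx
    filter_upwards [hx, Lp.coeFn_smul c x] with t h1 h3 h4
    rw [h3, Pi.smul_apply, h1 h4, smul_zero]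

open Classical in
/-- the truncation of a function -/
noncomputable def TA (a : ℝ) (f : ℝ → ℝ) : HH :=
  if h : MemLp ((Set.Ioc a 1).indicator f) 2 muI then h.toLp _ else 0

theorem memA (a : ℝ) {f : ℝ → ℝ} (hf : Measurable f) {b : ℝ} (hb : ∀ t, |f t| ≤ b) :
    MemLp ((Set.Ioc a 1).indicator f) 2 muI := by
  refine MemLp.of_bound (hf.indicator measurableSet_Ioc).aestronglyMeasurable b ?_
  refine Filter.Eventually.of_forall fun t => ?_
  by_cases ht : t ∈ Set.Ioc a 1
  · rw [Set.indicator_of_mem ht]; exact hb t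
  · rw [Set.indicator_of_notMem ht, norm_zero]; exact (abs_nonneg _).trans (hb t)

theorem TA_coe (a : ℝ) {f : ℝ → ℝ} (hf : Measurable f) {b : ℝ} (hb : ∀ t, |f t| ≤ b) :
    (TA a f : ℝ → ℝ) =ᵐ[muI] (Set.Ioc a 1).indicator f := by
  unfold TA
  rw [dif_pos (memA a hf hb)]
  exact MemLp.coeFn_toLp _

theorem TA_mem (a : ℝ) {f : ℝ → ℝ} (hf : Measurable f) {b : ℝ} (hb : ∀ t, |f t| ≤ b) :
    TA a f ∈ LA a := by
  show ∀ᵐ t ∂muI, t ≤ a → TA a f t = 0
  filter_upwards [TA_coe a hf hb] with t h1 h2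
  rw [h1, Set.indicator_of_notMem]
  exact fun h => absurd h.1 (not_lt.2 h2)

theorem int_muI {a : ℝ} (h0 : 0 ≤ a) (h1 : a ≤ 1) (f : ℝ → ℝ) :
    ∫ t, (Set.Ioc a 1).indicator f t ∂muI = ∫ t in a..1, f t := by
  rw [integral_indicator measurableSet_Ioc, intervalIntegral.integral_of_le h1, Measure.restrict_restrict measurableSet_Ioc]
  congr 2
  apply Set.inter_eq_left.2
  intro t ht
  exact ⟨h0.trans ht.1.le, ht.2⟩

theorem TA_inner {a : ℝ} (h0 : 0 ≤ a) (h1 : a ≤ 1) {f g : ℝ → ℝ} (hf : Measurable f) {b : ℝ}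
    (hb : ∀ t, |f t| ≤ b) (hg : Measurable g) {b' : ℝ} (hb' : ∀ t, |g t| ≤ b') :
    ⟪TA a f, TA a g⟫ = ∫ t in a..1, f t * g t := by
  rw [inner_HH, ← int_muI h0 h1]
  refine integral_congr_ae ?_
  filter_upwards [TA_coe a hf hb, TA_coe a hg hb'] with t h2 h3
  rw [h2, h3]
  by_cases ht : t ∈ Set.Ioc a 1
  · simp [Set.indicator_of_mem ht]
  · simp [Set.indicator_of_notMem ht]

/-- Chebyshev -/
theorem cheb (x : HH) {R : ℝ} (hR : 0 < R) :
    muI {t | R < |x t|} ≤ ENNReal.ofReal (‖x‖ ^ 2 / R ^ 2) := by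
  have h1 : ‖x‖ ^ 2 = ∫ t, x t ^ 2 ∂muI := by
    rw [← real_inner_self_eq_norm_sq, inner_HH]
    simp only [sq]
  have hint : Integrable (fun t => x t ^ 2) muI := (Lp.memLp x).integrable_sq
  have h2 := mul_meas_ge_le_integral_of_nonneg (μ := muI) (f := fun t => x t ^ 2)
    (Filter.Eventually.of_forall fun t => sq_nonneg _) hint (R ^ 2)
  rw [← h1] at h2
  have h3 : muI.real {t | R < |x t|} ≤ muI.real {t | R ^ 2 ≤ x t ^ 2} := by
    apply measureReal_mono
    · intro t ht
      have ht : R < |x t| := ht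
      show R ^ 2 ≤ x t ^ 2
      rw [← sq_abs (x t)]
      exact pow_le_pow_left₀ hR.le ht.le 2
    · exact measure_ne_top _ _
  rw [← ENNReal.ofReal_toReal (measure_ne_top muI {t | R < |x t|})]
  apply ENNReal.ofReal_le_ofReal
  rw [le_div_iff₀ (by positivity), mul_comm]
  calc R ^ 2 * (muI {t | R < |x t|}).toReal ≤ R ^ 2 * muI.real {t | R ^ 2 ≤ x t ^ 2} := by
        gcongr
        exact h3
    _ ≤ ‖x‖ ^ 2 := h2

/-- the increments of version `n` -/
noncomputable def Yn (a : ℝ) (K n l i : ℕ) : HH :=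
  TA a fun t => (1 / Real.sqrt (1 - a)) * YY (sg (1 - a) K n) t l i

theorem YY_meas {e : ℕ → ℝ → ℝ} (he : ∀ l, Measurable (e l)) (l i : ℕ) :
    Measurable fun t => YY e t l i := by
  unfold YY
  exact Measurable.ite ((idx_meas he l) (measurableSet_singleton _)) (he l) measurable_const

theorem YY_bound {e : ℕ → ℝ → ℝ} (he : ∀ l t, e l t = 1 ∨ e l t = -1) (t : ℝ) (l i : ℕ) :
    |YY e t l i| ≤ 1 := by
  unfold YY
  have h2 : |e l t| = 1 := by rcases he l t with h | h <;> rw [h] <;> norm_num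
  split_ifs
  · rw [h2]
  · simp

theorem Yn_meas (a : ℝ) (K n l i : ℕ) :
    Measurable fun t => (1 / Real.sqrt (1 - a)) * YY (sg (1 - a) K n) t l i :=
  (YY_meas (fun _ => rad_meas _ _) l i).const_mul _

theorem Yn_bound (a : ℝ) (K n l i : ℕ) (t : ℝ) :
    |(1 / Real.sqrt (1 - a)) * YY (sg (1 - a) K n) t l i| ≤ |1 / Real.sqrt (1 - a)| := by
  rw [abs_mul]
  exact mul_le_of_le_one_right (abs_nonneg _) (YY_bound (fun l t => rad_sign _ _ _) t l i)

theorem Yn_mem (a : ℝ) (K n l i : ℕ) : Yn a K n l i ∈ LA a :=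
  TA_mem a (Yn_meas a K n l i) (Yn_bound a K n l i)

theorem Yn_inner {a : ℝ} (h0 : 0 ≤ a) (h1 : a < 1) (K n n' l l' i i' : ℕ) :
    ⟪Yn a K n l i, Yn a K n' l' i'⟫ =
      (1 / (1 - a)) * ∫ t in a..(a + (1 - a)), YY (sg (1 - a) K n) t l i * YY (sg (1 - a) K n') t l' i' := by
  have hL : 0 < 1 - a := by linarith
  unfold Yn
  rw [TA_inner h0 h1.le (Yn_meas a K n l i) (Yn_bound a K n l i) (Yn_meas a K n' l' i')
    (Yn_bound a K n' l' i'), ← intervalIntegral.integral_const_mul]
  have e1 : a + (1 - a) = 1 := by ring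
  rw [e1]
  congr 1
  funext t
  have e2 : (1 / Real.sqrt (1 - a)) * (1 / Real.sqrt (1 - a)) = 1 / (1 - a) := by
    rw [div_mul_div_comm, Real.mul_self_sqrt hL.le, one_mul]
  rw [← e2]
  ring

theorem Yn_orth {a : ℝ} (h0 : 0 ≤ a) (h1 : a < 1) {K n l l' i i' : ℕ} (hl : l < K) (hl' : l' < K)
    (hi : i < 2 ^ l) (hi' : i' < 2 ^ l') :
    ⟪Yn a K n l i, Yn a K n l' i'⟫ = if l = l' ∧ i = i' then (1 / 2 : ℝ) ^ l else 0 := by
  have hL : 0 < 1 - a := by linarith
  have S := signs_sg hL K n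
  -- the case of different levels
  have key : ∀ l l' i i' : ℕ, l < l' → l' < K →
      ∫ t in a..(a + (1 - a)), YY (sg (1 - a) K n) t l i * YY (sg (1 - a) K n) t l' i' = 0 := by
    intro l l' i i' hll hl'
    have := S.orth a hl' (ψ := fun t => YY (sg (1 - a) K n) t l i *
      (if idx (sg (1 - a) K n) l' t = i' then (1 : ℝ) else 0)) (by
      intro t t' ht
      have e1 := idx_dep l' t t' ht
      have e2 := idx_dep (e := sg (1 - a) K n) l t t' fun j hj => ht j (hj.trans hll)
      simp only [YY]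
      rw [e1, e2, ht l hll])
    rw [← this]
    congr 1
    funext t
    simp only [YY]
    split_ifs <;> ring
  rw [Yn_inner h0 h1]
  rcases lt_trichotomy l l' with hll | hll | hll
  · rw [key l l' i i' hll hl', if_neg (by omega), mul_zero]
  · subst hll
    by_cases hii : i = i'
    · subst hii
      rw [if_pos ⟨rfl, rfl⟩]
      have h2 : ∀ t, YY (sg (1 - a) K n) t l i * YY (sg (1 - a) K n) t l i =
          if idx (sg (1 - a) K n) l t = i then (1 : ℝ) else 0 := by
        intro t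
        unfold YY
        split_ifs
        · rcases S.sign l t with h | h <;> rw [h] <;> norm_num
        · ring
      simp only [h2]
      rw [S.idx_int a hl.le i hi]
      have h3 : (1 / 2 : ℝ) ^ l = 1 / 2 ^ l := by rw [one_div_pow]
      rw [h3]
      field_simp
    · rw [if_neg (by tauto)]
      have h2 : ∀ t, YY (sg (1 - a) K n) t l i * YY (sg (1 - a) K n) t l i' = 0 := by
        intro t
        unfold YY
        split_ifs with h3 h4
        · exact absurd (h3.symm.trans h4) hii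
        · ring
        · ring
        · ring
      simp only [h2]
      simp
  · simp_rw [mul_comm (YY (sg (1 - a) K n) _ l i)]
    rw [key l' l i' i hll hl, if_neg (by omega), mul_zero]

/-- different versions are orthogonal -/
theorem Yn_orth' {a : ℝ} (h0 : 0 ≤ a) (h1 : a < 1) {K n n' l l' i i' : ℕ} (hl : l < K) (hl' : l' < K)
    (hn : n < n') : ⟪Yn a K n l i, Yn a K n' l' i'⟫ = 0 := by
  have hL : 0 < 1 - a := by linarith
  have S := signs_sg hL K n
  have S' := signs_sg hL K n'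
  rw [Yn_inner h0 h1, int_flip (h := (1 - a) / 2 ^ ((n + 1) * K - l)) a, mul_zero]
  · intro t
    have p1 : ∀ j < K, sg (1 - a) K n j (t + (1 - a)) = sg (1 - a) K n j t := fun j hj => S.per j hj t
    have p2 : ∀ j < K, sg (1 - a) K n' j (t + (1 - a)) = sg (1 - a) K n' j t := fun j hj => S'.per j hj t
    have e1 := idx_dep (e := sg (1 - a) K n) l t (t + (1 - a)) fun j hj => p1 j (hj.trans hl)
    have e2 := idx_dep (e := sg (1 - a) K n') l' t (t + (1 - a)) fun j hj => p2 j (hj.trans hl')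
    simp only [YY]
    rw [e1, e2, p1 l hl, p2 l' hl']
  · intro t
    have p1 : ∀ j < l, sg (1 - a) K n j (t + (1 - a) / 2 ^ ((n + 1) * K - l)) = sg (1 - a) K n j t :=
      fun j hj => S.inv l hl j hj t
    have p1' : sg (1 - a) K n l (t + (1 - a) / 2 ^ ((n + 1) * K - l)) = - sg (1 - a) K n l t := S.flip l hl t
    have p2 : ∀ j < K, sg (1 - a) K n' j (t + (1 - a) / 2 ^ ((n + 1) * K - l)) = sg (1 - a) K n' j t := by
      intro j hj
      apply rad_inv hL
      have h2 : (n + 1) * K + K ≤ (n' + 1) * K := by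
        have : (n + 1) * K + K = (n + 1 + 1) * K := by ring
        rw [this]
        exact Nat.mul_le_mul_right K (by omega)
      omega
    have e1 := idx_dep (e := sg (1 - a) K n) l t _ p1
    have e2 := idx_dep (e := sg (1 - a) K n') l' t (t + (1 - a) / 2 ^ ((n + 1) * K - l)) fun j hj => p2 j (hj.trans hl')
    simp only [YY]
    rw [e1, e2, p1', p2 l' hl']
    split_ifs <;> ring

end Pool.Agent.BP
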