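import Mathlib
import Pool.Agent.Helpers.BP5

set_option autoImplicit false

open MeasureTheory
open scoped ENNReal

namespace Pool.Agent.BP

open scoped RealInnerProductSpace

theorem Yn_zero (a : ℝ) (K n l i : ℕ) (hi : 2 ^ l ≤ i) : Yn a K n l i = 0 := by
  have hz : ∀ t, (1 / Real.sqrt (1 - a)) * YY (sg (1 - a) K n) t l i = 0 := by
    intro t
    unfold YY
    rw [if_neg, mul_zero]
    have := idx_lt (sg (1 - a) K n) l t
    omega
  have h1 := TA_coe a (Yn_meas a K n l i) (Yn_bound a K n l i)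
  apply Lp.ext
  unfold Yn
  filter_upwards [h1, Lp.coeFn_zero ℝ 2 muI] with t h2 h3
  rw [h2, h3]
  by_cases ht : t ∈ Set.Ioc a 1
  · rw [Set.indicator_of_mem ht, hz]; rfl
  · rw [Set.indicator_of_notMem ht]; rfl

theorem weak {a : ℝ} (h0 : 0 ≤ a) (h1 : a < 1) {K l i : ℕ} (hl : l < K) (hi : i < 2 ^ l) (x : HH) :
    Filter.Tendsto (fun n => ⟪x, Yn a K n l i⟫) Filter.atTop (nhds 0) := by
  have hw : Orthonormal ℝ fun n => Real.sqrt (2 ^ l) • Yn a K n l i := by
    rw [orthonormal_iff_ite]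
    intro n n'
    rw [inner_smul_left, inner_smul_right, conj_trivial]
    by_cases hn : n = n'
    · subst hn
      rw [if_pos rfl, Yn_orth h0 h1 hl hl hi hi, if_pos ⟨rfl, rfl⟩, ← mul_assoc,
        Real.mul_self_sqrt (by positivity), ← mul_pow]
      norm_num
    · rw [if_neg hn]
      have : ⟪Yn a K n l i, Yn a K n' l i⟫ = 0 := by
        rcases lt_or_gt_of_ne hn with h | h
        · exact Yn_orth' h0 h1 hl hl h
        · rw [real_inner_comm]
          exact Yn_orth' h0 h1 hl hl h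
      rw [this]
      ring
  have hs := hw.inner_products_summable x
  have ht := hs.tendsto_atTop_zero
  have h2 : Filter.Tendsto (fun n => ‖⟪Real.sqrt (2 ^ l) • Yn a K n l i, x⟫‖) Filter.atTop (nhds 0) := by
    have := ht.sqrt
    simpa [Real.sqrt_sq_eq_abs] using this
  have h3 := (tendsto_zero_iff_norm_tendsto_zero.2 h2).const_mul (Real.sqrt (2 ^ l))⁻¹
  rw [mul_zero] at h3
  refine h3.congr fun n => ?_
  rw [inner_smul_left, conj_trivial, real_inner_comm, ← mul_assoc, inv_mul_cancel₀ (by positivity), one_mul]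

theorem hinf {a : ℝ} (h0 : 0 ≤ a) (h1 : a < 1) (G : Submodule ℝ HH) (hG : FiniteDimensional ℝ G) :
    ∃ z ∈ LA a, ‖z‖ = 1 ∧ ∀ x ∈ G, ⟪x, z⟫ = 0 := by
  by_contra hcon
  push Not at hcon
  have hzero : ∀ z ∈ LA a, (∀ x ∈ G, ⟪x, z⟫ = 0) → z = 0 := by
    intro z hz ho
    by_contra hz0
    obtain ⟨x, hx, hx2⟩ := hcon (‖z‖⁻¹ • z) ((LA a).smul_mem _ hz) (by
      rw [norm_smul, norm_inv, norm_norm, inv_mul_cancel₀ (norm_ne_zero_iff.2 hz0)])
    apply hx2
    rw [inner_smul_right, ho x hx, mul_zero]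
  let P : LA a →ₗ[ℝ] G := (G.orthogonalProjectionOnto : HH →ₗ[ℝ] G).comp (LA a).subtype
  have hP : Function.Injective P := by
    rw [← LinearMap.ker_eq_bot, LinearMap.ker_eq_bot']
    intro z hz
    have hz' : G.orthogonalProjectionOnto (z : HH) = 0 := hz
    rw [Submodule.orthogonalProjectionOnto_eq_zero_iff] at hz'
    exact Subtype.ext (hzero z z.2 fun x hx => (Submodule.mem_orthogonal G _).1 hz' x hx)
  have : FiniteDimensional ℝ (LA a) := FiniteDimensional.of_injective P hP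
  let w : ℕ → LA a := fun n => ⟨Yn a 1 n 0 0, Yn_mem a 1 n 0 0⟩
  have hw : Orthonormal ℝ fun n => Yn a 1 n 0 0 := by
    rw [orthonormal_iff_ite]
    intro n n'
    by_cases hn : n = n'
    · subst hn
      rw [if_pos rfl, Yn_orth h0 h1 one_pos one_pos (by norm_num) (by norm_num)]
      simp
    · rw [if_neg hn]
      rcases lt_or_gt_of_ne hn with h | h
      · exact Yn_orth' h0 h1 one_pos one_pos h
      · rw [real_inner_comm]
        exact Yn_orth' h0 h1 one_pos one_pos h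
  have hli : LinearIndependent ℝ w := by
    have h2 : LinearIndependent ℝ fun n => ((LA a).subtype (w n)) := hw.linearIndependent
    exact LinearIndependent.of_comp _ h2
  have := hli.finite
  exact not_finite ℕ

theorem coe_VV (g : HH) (Y : ℕ → ℕ → HH) (l i : ℕ) :
    ∀ᵐ t ∂muI, (VV g Y l i : HH) t = VV (g t) (fun l i => Y l i t) l i := by
  induction l generalizing i with
  | zero => exact Filter.Eventually.of_forall fun t => rfl
  | succ l ih =>
    filter_upwards [ih (i / 2), Lp.coeFn_smul (1 / 2 : ℝ) (VV g Y l (i / 2) + ((-1 : ℝ) ^ i) • Y l (i / 2)),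
      Lp.coeFn_add (VV g Y l (i / 2)) (((-1 : ℝ) ^ i) • Y l (i / 2)),
      Lp.coeFn_smul ((-1 : ℝ) ^ i) (Y l (i / 2))] with t h1 h2 h3 h4
    rw [VV, VV, h2, Pi.smul_apply, h3, Pi.add_apply, h4, Pi.smul_apply, h1]

theorem norm_abs_sum {m : ℕ} (z f : Fin m → HH) (hz : ∀ j, ‖z j‖ = 1) (hf : ∀ j, ‖f j‖ = 1) :
    ∃ Z : HH, ‖Z‖ ≤ 2 * m ∧ ∀ᵐ t ∂muI, Z t = ∑ j, (|z j t| + |f j t|) := by
  refine ⟨∑ j, (|z j| + |f j|), ?_, ?_⟩
  · calc ‖∑ j, (|z j| + |f j|)‖ ≤ ∑ j, ‖|z j| + |f j|‖ := norm_sum_le _ _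
      _ ≤ ∑ _j : Fin m, (2 : ℝ) := by
          refine Finset.sum_le_sum fun j _ => ?_
          refine (norm_add_le _ _).trans ?_
          rw [norm_abs_eq_norm, norm_abs_eq_norm, hz, hf]
          norm_num
      _ = 2 * m := by simp [mul_comm]
  · have key : ∀ s : Finset (Fin m), ∀ᵐ t ∂muI, (∑ j ∈ s, (|z j| + |f j|) : HH) t = ∑ j ∈ s, (|z j t| + |f j t|) := by
      intro s
      classical
      induction s using Finset.induction_on with
      | empty =>
        filter_upwards [Lp.coeFn_zero ℝ 2 muI] with t h1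
        simp only [Finset.sum_empty]
        rw [h1]
        rfl
      | insert j s hj ih =>
        filter_upwards [ih, Lp.coeFn_add (|z j| + |f j|) (∑ j ∈ s, (|z j| + |f j|)),
          Lp.coeFn_add (|z j|) (|f j|), Lp.coeFn_abs (z j), Lp.coeFn_abs (f j)] with t h1 h2 h3 h4 h5
        rw [Finset.sum_insert hj, Finset.sum_insert hj, h2, Pi.add_apply, h3, Pi.add_apply, h4, h5, h1]
    exact key Finset.univ

end Pool.Agent.BP
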