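import Mathlib
import Pool.Agent.Helpers.BP7

set_option autoImplicit false

open MeasureTheory
open scoped ENNReal

namespace Pool.Agent.BP

open scoped RealInnerProductSpace

/-- orthonormal list -/
def ON (b : List HH) : Prop := b.Pairwise (fun x y => ⟪x, y⟫ = 0) ∧ ∀ x ∈ b, ‖x‖ = 1

/-- the part of the expansion of `p` given by the list `b` -/
noncomputable def ev (p : HH) (b : List HH) (t : ℝ) : ℝ := (b.map fun x => ⟪p, x⟫ * x t).sum

theorem ev_append (p : HH) (b b' : List HH) (t : ℝ) : ev p (b ++ b') t = ev p b t + ev p b' t := by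
  simp [ev]

theorem ev_range (p : HH) (v : ℕ → HH) (N : ℕ) (t : ℝ) :
    ev p ((List.range N).map v) t = ∑ i ∈ Finset.range N, ⟪p, v i⟫ * v i t := by
  induction N with
  | zero => simp [ev]
  | succ N ih =>
    rw [List.range_succ, List.map_append, ev_append, ih, Finset.sum_range_succ]
    simp [ev]

/-- the span of a list -/
noncomputable def sp (b : List HH) : Submodule ℝ HH := Submodule.span ℝ {x | x ∈ b}

instance (b : List HH) : FiniteDimensional ℝ (sp b) := by
  unfold sp
  exact FiniteDimensional.span_of_finite ℝ b.finite_toSet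

theorem sp_le {b : List HH} {V : Submodule ℝ HH} (h : ∀ x ∈ b, x ∈ V) : sp b ≤ V :=
  Submodule.span_le.2 fun x hx => h x hx

theorem mem_sp {b : List HH} {x : HH} (h : x ∈ b) : x ∈ sp b := Submodule.subset_span h

theorem sp_mono {b b' : List HH} (h : ∀ x ∈ b, x ∈ b') : sp b ≤ sp b' :=
  sp_le fun x hx => mem_sp (h x hx)

theorem multi {a : ℝ} (h0 : 0 ≤ a) (h1 : a < 1) {M ε : ℝ} (hM : 0 < M) (hε : 0 < ε) (gs : List HH) :
    ∀ (G : Submodule ℝ HH), FiniteDimensional ℝ G → G ≤ LA a → (∀ g ∈ gs, g ∈ G) → ON gs →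
    ∃ (b : List HH) (B : Set ℝ), muI B ≤ ENNReal.ofReal (gs.length * ε) ∧ ON b ∧
      (∀ x ∈ b, x ∈ LA a) ∧ (∀ x ∈ b, ∀ y ∈ G, (∀ g ∈ gs, ⟪g, y⟫ = 0) → ⟪x, y⟫ = 0) ∧
      (∀ g ∈ gs, g ∈ sp b) ∧
      ∀ᵐ t ∂muI, a < t → t ∉ B → ∀ g ∈ gs, ∀ p ∈ G, ∃ b2, b2 <:+: b ∧ M * |⟪p, g⟫| ≤ |ev p b2 t| := by
  induction gs with
  | nil =>
    intro G _ _ _ _
    refine ⟨[], ∅, by simp, ⟨List.Pairwise.nil, by simp⟩, by simp, by simp, by simp, ?_⟩
    exact Filter.Eventually.of_forall fun t _ _ g hg => absurd hg List.not_mem_nil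
  | cons g gs ih =>
    intro G hfd hG hgs hON
    have hg : g ∈ G := hgs g List.mem_cons_self
    have hgn : ‖g‖ = 1 := hON.2 g List.mem_cons_self
    have hpair := List.pairwise_cons.1 hON.1
    obtain ⟨D, v, B1, m1, o1, v1, i1, s1, e1⟩ := block h0 h1 G hG hg hgn hM hε
    have hb1 : ∀ x ∈ (List.range D).map v, ∃ i < D, v i = x := by
      intro x hx
      rw [List.mem_map] at hx
      obtain ⟨i, hi, rfl⟩ := hx
      exact ⟨i, List.mem_range.1 hi, rfl⟩
    have hb1L : ∀ x ∈ (List.range D).map v, x ∈ LA a := by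
      intro x hx
      obtain ⟨i, hi, rfl⟩ := hb1 x hx
      exact v1 i hi
    obtain ⟨b2, B2, m2, on2, l2, q2, sp2, e2⟩ := ih (G ⊔ sp ((List.range D).map v))
      (Submodule.finiteDimensional_sup _ _) (sup_le hG (sp_le hb1L))
      (fun g' hg' => Submodule.mem_sup_left (hgs g' (List.mem_cons_of_mem _ hg')))
      ⟨hpair.2, fun x hx => hON.2 x (List.mem_cons_of_mem _ hx)⟩
    refine ⟨(List.range D).map v ++ b2, B1 ∪ B2, ?_, ⟨?_, ?_⟩, ?_, ?_, ?_, ?_⟩
    · calc muI (B1 ∪ B2) ≤ muI B1 + muI B2 := measure_union_le _ _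
        _ ≤ ENNReal.ofReal ε + ENNReal.ofReal (gs.length * ε) := add_le_add m1 m2
        _ = ENNReal.ofReal ((g :: gs).length * ε) := by
            rw [← ENNReal.ofReal_add hε.le (by positivity)]
            congr 1
            rw [List.length_cons]
            push_cast
            ring
    · rw [List.pairwise_append]
      refine ⟨?_, on2.1, ?_⟩
      · rw [List.pairwise_map]
        refine (List.pairwise_lt_range (n := D)).imp_of_mem ?_
        intro i j hi hj hij
        rw [o1 i (List.mem_range.1 hi) j (List.mem_range.1 hj), if_neg hij.ne]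
      · intro x hx y hy
        rw [real_inner_comm]
        refine q2 y hy x (Submodule.mem_sup_right (mem_sp hx)) ?_
        intro g' hg'
        obtain ⟨i, hi, rfl⟩ := hb1 x hx
        rw [i1 i hi g' (hgs g' (List.mem_cons_of_mem _ hg')), real_inner_comm, hpair.1 g' hg', zero_mul]
    · intro x hx
      rcases List.mem_append.1 hx with hx | hx
      · obtain ⟨i, hi, rfl⟩ := hb1 x hx
        have := o1 i hi i hi
        rw [if_pos rfl, real_inner_self_eq_norm_sq] at this
        nlinarith [norm_nonneg (v i)]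
      · exact on2.2 x hx
    · intro x hx
      rcases List.mem_append.1 hx with hx | hx
      · exact hb1L x hx
      · exact l2 x hx
    · intro x hx y hy hyg
      rcases List.mem_append.1 hx with hx | hx
      · obtain ⟨i, hi, rfl⟩ := hb1 x hx
        rw [real_inner_comm, i1 i hi y hy, real_inner_comm, hyg g List.mem_cons_self, zero_mul]
      · exact q2 x hx y (Submodule.mem_sup_left hy) fun g' hg' => hyg g' (List.mem_cons_of_mem _ hg')
    · intro g' hg'
      rcases List.mem_cons.1 hg' with rfl | hg'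
      · rw [← s1]
        refine Submodule.sum_mem _ fun i hi => Submodule.smul_mem _ _ (mem_sp ?_)
        rw [List.mem_append, List.mem_map]
        left
        exact ⟨i, List.mem_range.2 (Finset.mem_range.1 hi), rfl⟩
      · exact sp_mono (fun x hx => List.mem_append.2 (Or.inr hx)) (sp2 g' hg')
    · filter_upwards [e1, e2] with t f1 f2 hat htB g' hg' p hp
      have htB1 : t ∉ B1 := fun h => htB (Or.inl h)
      have htB2 : t ∉ B2 := fun h => htB (Or.inr h)
      rcases List.mem_cons.1 hg' with rfl | hg'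
      · obtain ⟨N, hN, hNM⟩ := f1 hat htB1
        refine ⟨(List.range N).map v, ?_, ?_⟩
        · obtain ⟨k, rfl⟩ := Nat.exists_eq_add_of_le hN
          rw [List.range_add, List.map_append, List.append_assoc]
          exact List.infix_append' [] _ _
        · rw [ev_range]
          have h2 : ∑ i ∈ Finset.range N, ⟪p, v i⟫ * v i t = ⟪p, g'⟫ * ∑ i ∈ Finset.range N, ⟪g', v i⟫ * v i t := by
            rw [Finset.mul_sum]
            refine Finset.sum_congr rfl fun i hi => ?_
            rw [i1 i (lt_of_lt_of_le (Finset.mem_range.1 hi) hN) p hp, mul_assoc]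
          rw [h2, abs_mul, mul_comm]
          exact mul_le_mul_of_nonneg_left hNM (abs_nonneg _)
      · obtain ⟨b3, hb3, h3⟩ := f2 hat htB2 g' hg' p (Submodule.mem_sup_left hp)
        exact ⟨b3, hb3.trans (List.infix_append_right ..), h3⟩

end Pool.Agent.BP
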