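import Mathlib
import Pool.Agent.Helpers.BP8

set_option autoImplicit false

open MeasureTheory
open scoped ENNReal

namespace Pool.Agent.BP

open scoped RealInnerProductSpace

theorem memC (a : ℝ) {f : ℝ → ℝ} (hf : Continuous f) : MemLp ((Set.Ioc a 1).indicator f) 2 muI := by
  obtain ⟨C, hC⟩ := (isCompact_Icc (a := a) (b := 1)).exists_bound_of_continuousOn hf.continuousOn
  refine MemLp.of_bound (hf.measurable.indicator measurableSet_Ioc).aestronglyMeasurable (max C 0) ?_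
  refine Filter.Eventually.of_forall fun t => ?_
  by_cases ht : t ∈ Set.Ioc a 1
  · rw [Set.indicator_of_mem ht]; exact (hC t ⟨ht.1.le, ht.2⟩).trans (le_max_left _ _)
  · rw [Set.indicator_of_notMem ht, norm_zero]; exact le_max_right _ _

/-- polynomials cut at `a` -/
noncomputable def PL (a : ℝ) : Polynomial ℝ →ₗ[ℝ] HH where
  toFun p := (memC a (f := fun t => p.eval t) p.continuous).toLp _
  map_add' p q := by
    rw [← MemLp.toLp_add]
    congr 1
    funext t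
    simp [Set.indicator]
    split_ifs <;> simp
  map_smul' c p := by
    rw [RingHom.id_apply, ← MemLp.toLp_const_smul]
    congr 1
    funext t
    simp [Set.indicator]

theorem PL_coe (a : ℝ) (p : Polynomial ℝ) :
    (PL a p : ℝ → ℝ) =ᵐ[muI] (Set.Ioc a 1).indicator fun t => p.eval t :=
  MemLp.coeFn_toLp (memC a (f := fun t => p.eval t) p.continuous)

theorem PL_mem (a : ℝ) (p : Polynomial ℝ) : PL a p ∈ LA a := by
  show ∀ᵐ t ∂muI, t ≤ a → PL a p t = 0
  filter_upwards [PL_coe a p] with t h1 h2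
  rw [h1, Set.indicator_of_notMem]
  exact fun h => absurd h.1 (not_lt.2 h2)

theorem LA_mono {a a' : ℝ} (h : a' ≤ a) : LA a ≤ LA a' := by
  intro x hx
  have hx : ∀ᵐ t ∂muI, t ≤ a → x t = 0 := hx
  show ∀ᵐ t ∂muI, t ≤ a' → x t = 0
  filter_upwards [hx] with t h1 h2
  exact h1 (h2.trans h)

theorem PL_inner {a : ℝ} (h0 : 0 ≤ a) (p : Polynomial ℝ) {x : HH} (hx : x ∈ LA a) :
    ⟪PL a p, x⟫ = ⟪PL 0 p, x⟫ := by
  have hx : ∀ᵐ t ∂muI, t ≤ a → x t = 0 := hx
  rw [inner_HH, inner_HH]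
  refine integral_congr_ae ?_
  filter_upwards [PL_coe a p, PL_coe 0 p, hx] with t h1 h2 h3
  rw [h1, h2]
  by_cases ht : t ≤ a
  · rw [h3 ht, mul_zero, mul_zero]
  · by_cases ht1 : t ≤ 1
    · rw [Set.indicator_of_mem (show t ∈ Set.Ioc a 1 from ⟨not_le.1 ht, ht1⟩),
        Set.indicator_of_mem (show t ∈ Set.Ioc 0 1 from ⟨lt_of_le_of_lt h0 (not_le.1 ht), ht1⟩)]
    · rw [Set.indicator_of_notMem (fun h => ht1 h.2), Set.indicator_of_notMem (fun h => ht1 h.2)]

/-- a polynomial vanishing almost everywhere on an interval is zero -/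
theorem poly_zero {a a' : ℝ} (h0 : 0 ≤ a') (h1 : a' < a) (h2 : a ≤ 1) (p : Polynomial ℝ)
    (hp : ∀ᵐ t ∂muI, t ∈ Set.Ioc a' a → p.eval t = 0) : p = 0 := by
  by_contra hne
  have hfin : {t : ℝ | p.eval t = 0}.Finite := by
    have := p.rootSet_finite ℝ
    refine this.subset ?_
    intro t ht
    rw [Polynomial.mem_rootSet]
    refine ⟨hne, ?_⟩
    simpa using ht
  have hz : volume {t : ℝ | p.eval t = 0} = 0 := hfin.measure_zero _
  have h3 : muI {t : ℝ | ¬ (t ∈ Set.Ioc a' a → p.eval t = 0)} = 0 := hp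
  rw [Measure.restrict_apply₀'] at h3
  swap
  · exact measurableSet_Icc.nullMeasurableSet
  have h4 : Set.Ioc a' a ⊆ ({t : ℝ | ¬ (t ∈ Set.Ioc a' a → p.eval t = 0)} ∩ Set.Icc 0 1) ∪ {t : ℝ | p.eval t = 0} := by
    intro t ht
    by_cases h5 : p.eval t = 0
    · right; exact h5
    · left
      exact ⟨fun h => h5 (h ht), h0.trans ht.1.le, ht.2.trans h2⟩
  have h5 : volume (Set.Ioc a' a) = 0 := by
    refine le_antisymm ?_ zero_le
    refine (measure_mono h4).trans ((measure_union_le _ _).trans ?_)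
    rw [h3, hz, add_zero]
  rw [Real.volume_Ioc, ENNReal.ofReal_eq_zero] at h5
  linarith

theorem PL_inj {a a' : ℝ} (h0 : 0 ≤ a') (h1 : a' < a) (h2 : a ≤ 1) (p : Polynomial ℝ)
    (hp : PL a' p ∈ LA a) : p = 0 := by
  have hp : ∀ᵐ t ∂muI, t ≤ a → PL a' p t = 0 := hp
  apply poly_zero h0 h1 h2
  filter_upwards [hp, PL_coe a' p] with t h3 h4 ht
  rw [h3 ht.2, Set.indicator_of_mem (show t ∈ Set.Ioc a' 1 from ⟨ht.1, ht.2.trans h2⟩)] at h4
  exact h4.symm

theorem ev_congr {p p' : HH} {b : List HH} (h : ∀ x ∈ b, ⟪p, x⟫ = ⟪p', x⟫) (t : ℝ) :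
    ev p b t = ev p' b t := by
  unfold ev
  congr 1
  apply List.map_congr_left
  intro x hx
  rw [h x hx]

theorem stage {a a' : ℝ} (h0 : 0 < a') (h1 : a' < a) (h2 : a ≤ 1) (n : ℕ) (hn : 1 ≤ n)
    (W : Submodule ℝ HH) [FiniteDimensional ℝ W] (hW : W ≤ LA a) {ε : ℝ} (hε : 0 < ε) :
    ∃ (b : List HH) (B : Set ℝ), muI B ≤ ENNReal.ofReal ε ∧ ON b ∧ (∀ x ∈ b, x ∈ LA a') ∧
      (∀ x ∈ b, ∀ w ∈ W, ⟪x, w⟫ = 0) ∧ b ≠ [] ∧
      (∀ p ∈ Polynomial.degreeLT ℝ n, PL a' p ∈ W ⊔ sp b) ∧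
      ∀ᵐ t ∂muI, a' < t → t ∉ B → ∀ p ∈ Polynomial.degreeLT ℝ n,
        ∃ b2, b2 <:+: b ∧ ‖PL 0 p‖ ≤ |ev (PL 0 p) b2 t| := by
  classical
  have ha' : a' < 1 := lt_of_lt_of_le h1 h2
  haveI fdn : FiniteDimensional ℝ (Polynomial.degreeLT ℝ n) := by
    exact (Polynomial.degreeLTEquiv ℝ n).symm.finiteDimensional
  let Q : Submodule ℝ HH := (Polynomial.degreeLT ℝ n).map (PL a')
  have hQ : Q ≤ LA a' := by
    rintro _ ⟨p, _, rfl⟩
    exact PL_mem a' p
  have hWa : W ≤ LA a' := hW.trans (LA_mono h1.le)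
  let E : Submodule ℝ HH := Q.map ((Wᗮ).starProjection : HH →ₗ[ℝ] HH)
  have hproj : ∀ x : HH, (Wᗮ).starProjection x = x - W.starProjection x := by
    intro x
    rw [Submodule.starProjection_orthogonal]
    rfl
  have hEG : E ≤ W ⊔ Q := by
    rintro _ ⟨x, hx, rfl⟩
    show (Wᗮ).starProjection x ∈ W ⊔ Q
    rw [hproj]
    exact Submodule.sub_mem _ (Submodule.mem_sup_right hx)
      (Submodule.mem_sup_left (Submodule.starProjection_apply_mem W x))
  have hEW : ∀ x ∈ E, ∀ w ∈ W, ⟪x, w⟫ = 0 := by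
    rintro _ ⟨x, hx, rfl⟩ w hw
    have : (Wᗮ).starProjection x ∈ Wᗮ := Submodule.starProjection_apply_mem _ x
    rw [real_inner_comm]
    exact (Submodule.mem_orthogonal W _).1 this w hw
  haveI : FiniteDimensional ℝ E := inferInstance
  obtain ⟨b0, hb0⟩ : ∃ b0, b0 = stdOrthonormalBasis ℝ E := ⟨_, rfl⟩
  obtain ⟨g, hg⟩ : ∃ g : Fin (Module.finrank ℝ E) → HH, g = fun j => (b0 j : HH) := ⟨_, rfl⟩
  have hgE : ∀ j, g j ∈ E := fun j => by rw [hg]; exact (b0 j).2
  have hg1 : ∀ i j, ⟪g i, g j⟫ = if i = j then 1 else 0 := by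
    intro i j
    have := orthonormal_iff_ite.1 b0.orthonormal i j
    rw [Submodule.coe_inner] at this
    rw [hg]
    exact this
  have hspanE : ∀ x ∈ E, ∃ c : Fin (Module.finrank ℝ E) → ℝ, x = ∑ j, c j • g j := by
    intro x hx
    have h2 := congrArg (fun z : E => (z : HH)) (b0.sum_repr ⟨x, hx⟩)
    simp only [Submodule.coe_sum, Submodule.coe_smul] at h2
    exact ⟨fun j => (b0.repr ⟨x, hx⟩).ofLp j, by rw [hg]; exact h2.symm⟩
  have hgL : ∀ j, g j ∈ LA a' := fun j => (sup_le hWa hQ) (hEG (hgE j))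
  -- the key injectivity
  have hinj : ∀ p ∈ Polynomial.degreeLT ℝ n, (∀ j, ⟪g j, PL 0 p⟫ = 0) → p = 0 := by
    intro p hp hz
    have hz' : ∀ j, ⟪g j, PL a' p⟫ = 0 := by
      intro j
      rw [real_inner_comm, PL_inner h0.le p (hgL j), real_inner_comm, hz j]
    have he : (Wᗮ).starProjection (PL a' p) ∈ E := ⟨PL a' p, ⟨p, hp, rfl⟩, rfl⟩
    have h3 : ⟪(Wᗮ).starProjection (PL a' p), PL a' p⟫ = 0 := by
      obtain ⟨c, hc⟩ := hspanE _ he
      rw [hc, sum_inner]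
      refine Finset.sum_eq_zero fun j _ => ?_
      rw [inner_smul_left, hz' j, mul_zero]
    have h4 : ⟪(Wᗮ).starProjection (PL a' p), W.starProjection (PL a' p)⟫ = 0 :=
      hEW _ he _ (Submodule.starProjection_apply_mem W _)
    have h5 : (Wᗮ).starProjection (PL a' p) = 0 := by
      rw [← inner_self_eq_zero (𝕜 := ℝ)]
      calc ⟪(Wᗮ).starProjection (PL a' p), (Wᗮ).starProjection (PL a' p)⟫ =
          ⟪(Wᗮ).starProjection (PL a' p), PL a' p - W.starProjection (PL a' p)⟫ := by rw [← hproj]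
        _ = 0 := by rw [inner_sub_right, h3, h4, sub_zero]
    have h6 : PL a' p ∈ W := by
      rw [hproj, sub_eq_zero] at h5
      rw [h5]
      exact Submodule.starProjection_apply_mem W _
    exact PL_inj h0.le h1 h2 p (hW h6)
  -- quantitative version
  obtain ⟨C, hC0, hC⟩ : ∃ C : ℝ, 0 < C ∧ ∀ p ∈ Polynomial.degreeLT ℝ n, PL 0 p ≠ 0 →
      ∃ j, ‖PL 0 p‖ ≤ C * |⟪PL 0 p, g j⟫| := by
    let Q0 : Submodule ℝ HH := (Polynomial.degreeLT ℝ n).map (PL 0)
    let Λ : Q0 →ₗ[ℝ] (Fin (Module.finrank ℝ E) → ℝ) :=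
      LinearMap.pi fun j => ((innerSL ℝ (g j) : HH →L[ℝ] ℝ) : HH →ₗ[ℝ] ℝ).comp Q0.subtype
    have hΛ : ∀ (x : Q0) j, Λ x j = ⟪g j, (x : HH)⟫ := fun x j => rfl
    have hker : LinearMap.ker Λ = ⊥ := by
      rw [LinearMap.ker_eq_bot']
      rintro ⟨_, p, hp, rfl⟩ hx
      have hp0 := hinj p hp fun j => by
        have := congrFun hx j
        rw [hΛ] at this
        exact this
      apply Subtype.ext
      show PL 0 p = 0
      rw [hp0, map_zero]
    obtain ⟨C, hC0, hC⟩ := Λ.exists_antilipschitzWith hker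
    refine ⟨C, by exact_mod_cast hC0, fun p hp hne => ?_⟩
    by_contra hcon
    push Not at hcon
    let x : Q0 := ⟨PL 0 p, p, hp, rfl⟩
    have h3 : ‖x‖ ≤ C * ‖Λ x‖ := ZeroHomClass.bound_of_antilipschitz Λ hC x
    have hC0' : (0 : ℝ) < C := by exact_mod_cast hC0
    have hxn : ‖x‖ = ‖PL 0 p‖ := rfl
    have hx0 : 0 < ‖x‖ := by rw [hxn]; exact norm_pos_iff.2 hne
    have h4 : ‖Λ x‖ < ‖x‖ / C := by
      rw [pi_norm_lt_iff (by positivity)]
      intro j
      rw [hΛ, lt_div_iff₀ hC0', Real.norm_eq_abs, real_inner_comm, mul_comm]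
      exact hcon j
    rw [lt_div_iff₀ hC0'] at h4
    linarith
  have hON : ON (List.ofFn g) := by
    constructor
    · rw [List.pairwise_ofFn]
      intro i j hij
      rw [hg1, if_neg hij.ne]
    · intro x hx
      rw [List.mem_ofFn] at hx
      obtain ⟨j, rfl⟩ := hx
      have := hg1 j j
      rw [if_pos rfl, real_inner_self_eq_norm_sq] at this
      nlinarith [norm_nonneg (g j)]
  haveI : FiniteDimensional ℝ Q := inferInstance
  obtain ⟨b, B, m1, on1, l1, q1, s1, e1⟩ := multi h0.le ha' hC0 (ε := ε / (Module.finrank ℝ E + 1)) (by positivity)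
    (List.ofFn g) (W ⊔ Q) (Submodule.finiteDimensional_sup _ _) (sup_le hWa hQ) (by
      intro x hx
      rw [List.mem_ofFn] at hx
      obtain ⟨j, rfl⟩ := hx
      exact hEG (hgE j)) hON
  have hspan2 : ∀ p ∈ Polynomial.degreeLT ℝ n, PL a' p ∈ W ⊔ sp b := by
    intro p hp
    have h3 : PL a' p = W.starProjection (PL a' p) + (Wᗮ).starProjection (PL a' p) := by
      rw [hproj]; abel
    rw [h3]
    refine Submodule.add_mem _ (Submodule.mem_sup_left (Submodule.starProjection_apply_mem W _))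
      (Submodule.mem_sup_right ?_)
    obtain ⟨c, hc⟩ := hspanE _ (show (Wᗮ).starProjection (PL a' p) ∈ E from ⟨PL a' p, ⟨p, hp, rfl⟩, rfl⟩)
    rw [hc]
    refine Submodule.sum_mem _ fun j _ => Submodule.smul_mem _ _ (s1 _ ?_)
    rw [List.mem_ofFn]
    exact ⟨j, rfl⟩
  refine ⟨b, B, ?_, on1, l1, ?_, ?_, hspan2, ?_⟩
  · refine m1.trans (ENNReal.ofReal_le_ofReal ?_)
    rw [List.length_ofFn, mul_div_assoc', div_le_iff₀ (by positivity)]
    nlinarith
  · intro x hx w hw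
    refine q1 x hx w (Submodule.mem_sup_left hw) fun y hy => ?_
    rw [List.mem_ofFn] at hy
    obtain ⟨j, rfl⟩ := hy
    exact hEW _ (hgE j) w hw
  · intro hb
    have h3 := hspan2 1 (by
      rw [Polynomial.mem_degreeLT]
      refine lt_of_le_of_lt Polynomial.degree_one_le ?_
      exact_mod_cast hn)
    have h4 : sp b = ⊥ := by
      rw [hb]
      simp [sp]
    rw [h4, sup_bot_eq] at h3
    exact one_ne_zero (PL_inj h0.le h1 h2 1 (hW h3))
  · filter_upwards [e1] with t f1 hat htB p hp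
    by_cases hp0 : PL 0 p = 0
    · exact ⟨[], List.nil_infix, by rw [hp0]; simp [ev]⟩
    · obtain ⟨j, hj⟩ := hC p hp hp0
      obtain ⟨b2, hb2, h3⟩ := f1 hat htB (g j) (by rw [List.mem_ofFn]; exact ⟨j, rfl⟩) (PL a' p)
        (Submodule.mem_sup_right ⟨p, hp, rfl⟩)
      refine ⟨b2, hb2, hj.trans ?_⟩
      rw [PL_inner h0.le p (hgL j)] at h3
      rw [ev_congr (p := PL 0 p) (p' := PL a' p) (fun x hx =>
        (PL_inner h0.le p (l1 x (hb2.subset hx))).symm)]
      exact h3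

end Pool.Agent.BP
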