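import Mathlib
import Pool.Agent.Helpers.BP9

set_option autoImplicit false

open MeasureTheory
open scoped ENNReal

namespace Pool.Agent.BP

open scoped RealInnerProductSpace

/-- the cut points -/
noncomputable def aa (k : ℕ) : ℝ := 1 / ((k : ℝ) + 1)

theorem aa_pos (k : ℕ) : 0 < aa k := by unfold aa; positivity

theorem aa_le (k : ℕ) : aa k ≤ 1 := by
  unfold aa
  rw [div_le_one (by positivity)]
  have : (0 : ℝ) ≤ k := Nat.cast_nonneg k
  linarith

theorem aa_lt (k : ℕ) : aa (k + 1) < aa k := by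
  unfold aa
  apply one_div_lt_one_div_of_lt (by positivity)
  push_cast
  linarith

theorem aa_anti : Antitone aa := antitone_nat_of_succ_le fun k => (aa_lt k).le

theorem aa_lim : Filter.Tendsto aa Filter.atTop (nhds 0) := tendsto_one_div_add_atTop_nhds_zero_nat

/-- admissible lists -/
def PP (k : ℕ) (l : List HH) : Prop := ON l ∧ ∀ x ∈ l, x ∈ LA (aa k)

/-- one step -/
def Step (k : ℕ) (l l' : List HH) : Prop :=
  ∃ (b : List HH) (B : Set ℝ), l' = l ++ b ∧ b ≠ [] ∧ muI B ≤ ENNReal.ofReal ((1 / 2) ^ k) ∧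
    (∀ p ∈ Polynomial.degreeLT ℝ (k + 1), PL (aa (k + 1)) p ∈ sp l') ∧
    ∀ᵐ t ∂muI, aa (k + 1) < t → t ∉ B → ∀ p ∈ Polynomial.degreeLT ℝ (k + 1),
      ∃ b2, b2 <:+: b ∧ ‖PL 0 p‖ ≤ |ev (PL 0 p) b2 t|

theorem exists_step (k : ℕ) (l : List HH) (h : PP k l) : ∃ l', PP (k + 1) l' ∧ Step k l l' := by
  obtain ⟨b, B, m1, on1, l1, q1, hne, s1, e1⟩ := stage (aa_pos (k + 1)) (aa_lt k) (aa_le k) (k + 1)
    (by omega) (sp l) (sp_le h.2) (ε := (1 / 2) ^ k) (by positivity)
  refine ⟨l ++ b, ⟨⟨?_, ?_⟩, ?_⟩, b, B, rfl, hne, m1, ?_, e1⟩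
  · rw [List.pairwise_append]
    refine ⟨h.1.1, on1.1, fun x hx y hy => ?_⟩
    rw [real_inner_comm]
    exact q1 y hy x (mem_sp hx)
  · intro x hx
    rcases List.mem_append.1 hx with hx | hx
    · exact h.1.2 x hx
    · exact on1.2 x hx
  · intro x hx
    rcases List.mem_append.1 hx with hx | hx
    · exact LA_mono (aa_lt k).le (h.2 x hx)
    · exact l1 x hx
  · intro p hp
    have hle : sp l ⊔ sp b ≤ sp (l ++ b) := sup_le
      (sp_mono fun x hx => List.mem_append.2 (Or.inl hx))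
      (sp_mono fun x hx => List.mem_append.2 (Or.inr hx))
    exact hle (s1 p hp)

theorem exists_seq : ∃ l : ℕ → List HH, (∀ k, PP k (l k)) ∧ ∀ k, Step k (l k) (l (k + 1)) := by
  choose F hF1 hF2 using exists_step
  let s : (k : ℕ) → {l : List HH // PP k l} := fun k =>
    Nat.rec ⟨[], ⟨List.Pairwise.nil, by simp⟩, by simp⟩ (fun k x => ⟨F k x.1 x.2, hF1 k x.1 x.2⟩) k
  exact ⟨fun k => (s k).1, fun k => (s k).2, fun k => hF2 k (s k).1 (s k).2⟩

/-- lists that are initial segments -/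
theorem seg_of_append {φ : ℕ → HH} {u w : List HH} {n : ℕ} (h : u ++ w = (List.range n).map φ) :
    u = (List.range u.length).map φ := by
  have h1 : u = (u ++ w).take u.length := by simp
  have h2 : u.length ≤ n := by
    have := congrArg List.length h
    simp at this
    omega
  conv_lhs => rw [h1, h, ← List.map_take, List.take_range, min_eq_left h2]

theorem exists_phi : ∃ (l : ℕ → List HH) (φ : ℕ → HH), (∀ k, PP k (l k)) ∧
    (∀ k, Step k (l k) (l (k + 1))) ∧ (∀ k, k ≤ (l k).length) ∧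
    ∀ k, l k = (List.range (l k).length).map φ := by
  obtain ⟨l, h1, h2⟩ := exists_seq
  have hpre : ∀ k m, k ≤ m → l k <+: l m := by
    intro k m hkm
    induction m, hkm using Nat.le_induction with
    | base => exact List.prefix_rfl
    | succ m _ ih =>
      obtain ⟨b, B, hb, _⟩ := h2 m
      exact ih.trans ⟨b, hb.symm⟩
  have hlen : ∀ k, k ≤ (l k).length := by
    intro k
    induction k with
    | zero => omega
    | succ k ih =>
      obtain ⟨b, B, hb, hne, _⟩ := h2 k
      rw [hb, List.length_append]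
      have := List.length_pos_iff.2 hne
      omega
  refine ⟨l, fun n => (l (n + 1)).getD n 0, h1, h2, hlen, fun k => ?_⟩
  apply List.ext_getElem
  · simp
  · intro i hi _
    rw [List.getElem_map, List.getElem_range]
    have hi' : i < (l (i + 1)).length := hlen (i + 1)
    have e1 : (l (i + 1)).getD i 0 = (l (i + 1))[i] := List.getD_eq_getElem _ _ hi'
    rw [e1]
    have p1 := hpre k (max k (i + 1)) (le_max_left _ _)
    have p2 := hpre (i + 1) (max k (i + 1)) (le_max_right _ _)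
    rw [p1.getElem hi, p2.getElem hi']

theorem cont_zero {x : HH} (h : ∀ p : Polynomial ℝ, ⟪x, PL 0 p⟫ = 0) : x = 0 := by
  have hp0 : ∀ᵐ t ∂muI, t ∈ Set.Ioc (0 : ℝ) 1 := by
    have h1 : ∀ᵐ t ∂muI, t ∈ Set.Icc (0 : ℝ) 1 := ae_restrict_mem measurableSet_Icc
    have h2 : ∀ᵐ t ∂muI, t ≠ 0 := by
      apply ae_restrict_of_ae
      exact Measure.ae_ne volume 0
    filter_upwards [h1, h2] with t h3 h4
    exact ⟨lt_of_le_of_ne h3.1 (Ne.symm h4), h3.2⟩
  have hx : Integrable (x : ℝ → ℝ) muI := (Lp.memLp x).integrable (by norm_num)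
  have hpoly : ∀ p : Polynomial ℝ, ∫ t, p.eval t * x t ∂muI = 0 := by
    intro p
    rw [← h p, inner_HH]
    refine integral_congr_ae ?_
    filter_upwards [PL_coe 0 p, hp0] with t h1 h2
    rw [h1, Set.indicator_of_mem h2, mul_comm]
  have hcont : ∀ g : ℝ → ℝ, Continuous g → ∫ t, g t * x t ∂muI = 0 := by
    intro g hg
    have key : ∀ ε : ℝ, 0 < ε → |∫ t, g t * x t ∂muI| ≤ ε * ∫ t, |x t| ∂muI := by
      intro ε hε
      obtain ⟨p, hp⟩ := exists_polynomial_near_of_continuousOn 0 1 g hg.continuousOn ε hε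
      have i1 : Integrable (fun t => p.eval t * x t) muI := by
        have hx' : IntegrableOn (x : ℝ → ℝ) (Set.Icc 0 1) volume := hx
        exact hx'.continuousOn_mul (g := fun t => p.eval t) p.continuous.continuousOn isCompact_Icc
      have i2 : Integrable (fun t => g t * x t) muI := by
        have hx' : IntegrableOn (x : ℝ → ℝ) (Set.Icc 0 1) volume := hx
        exact hx'.continuousOn_mul (g := g) hg.continuousOn isCompact_Icc
      have e1 : ∫ t, g t * x t ∂muI = ∫ t, (g t * x t - p.eval t * x t) ∂muI := by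
        rw [integral_sub i2 i1, hpoly p, sub_zero]
      rw [e1, ← integral_const_mul]
      refine (abs_integral_le_integral_abs).trans ?_
      refine integral_mono_ae (i2.sub i1).abs (hx.abs.const_mul _) ?_
      have h1 : ∀ᵐ t ∂muI, t ∈ Set.Icc (0 : ℝ) 1 := ae_restrict_mem measurableSet_Icc
      filter_upwards [h1] with t ht
      have h2 := (hp t ht).le
      rw [← sub_mul, abs_mul, abs_sub_comm]
      exact mul_le_mul_of_nonneg_right h2 (abs_nonneg _)
    by_contra hne
    have hpos : 0 < |∫ t, g t * x t ∂muI| := abs_pos.2 hne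
    have hI : 0 ≤ ∫ t, |x t| ∂muI := integral_nonneg fun t => abs_nonneg _
    have h3 := key (|∫ t, g t * x t ∂muI| / (2 * ((∫ t, |x t| ∂muI) + 1))) (by positivity)
    have h4 : |∫ t, g t * x t ∂muI| / (2 * ((∫ t, |x t| ∂muI) + 1)) * (∫ t, |x t| ∂muI) ≤
        |∫ t, g t * x t ∂muI| / 2 := by
      rw [div_mul_eq_mul_div, div_le_div_iff₀ (by positivity) (by norm_num)]
      nlinarith
    linarith
  have hz := ae_eq_zero_of_integral_contDiff_smul_eq_zero (μ := muI) (f := (x : ℝ → ℝ)) hx.locallyIntegrable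
    (fun g hg _ => by
      simp only [smul_eq_mul]
      exact hcont g hg.continuous)
  apply Lp.ext
  filter_upwards [hz, Lp.coeFn_zero ℝ 2 muI] with t h1 h2
  rw [h1, h2]
  rfl

theorem complete_aux {x : HH} (p : Polynomial ℝ) (h : ∀ᶠ k in Filter.atTop, ⟪x, PL (aa (k + 1)) p⟫ = 0) :
    ⟪x, PL 0 p⟫ = 0 := by
  have hint : Integrable (fun t => x t * PL 0 p t) muI :=
    (Lp.memLp x).integrable_mul (Lp.memLp (PL 0 p))
  have hmono : Monotone fun k => Set.Ioc (aa (k + 1)) 1 := by
    intro k k' hk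
    exact Set.Ioc_subset_Ioc_left (aa_anti (by omega))
  have hU : ⋃ k, Set.Ioc (aa (k + 1)) 1 = Set.Ioc (0 : ℝ) 1 := by
    ext t
    simp only [Set.mem_iUnion, Set.mem_Ioc]
    constructor
    · rintro ⟨k, h1, h2⟩
      exact ⟨(aa_pos _).trans h1, h2⟩
    · rintro ⟨h1, h2⟩
      have := (aa_lim.comp (Filter.tendsto_add_atTop_nat 1)).eventually (gt_mem_nhds h1)
      obtain ⟨k, hk⟩ := this.exists
      exact ⟨k, hk, h2⟩
  have ht := tendsto_setIntegral_of_monotone (μ := muI) (f := fun t => x t * PL 0 p t)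
    (s := fun k => Set.Ioc (aa (k + 1)) 1) (fun k => measurableSet_Ioc) hmono (hint.integrableOn)
  rw [hU] at ht
  have e1 : ∀ k, ∫ t in Set.Ioc (aa (k + 1)) 1, x t * PL 0 p t ∂muI = ⟪x, PL (aa (k + 1)) p⟫ := by
    intro k
    rw [inner_HH, ← integral_indicator measurableSet_Ioc]
    refine integral_congr_ae ?_
    filter_upwards [PL_coe 0 p, PL_coe (aa (k + 1)) p] with t h1 h2
    rw [h2]
    by_cases h3 : t ∈ Set.Ioc (aa (k + 1)) 1
    · rw [Set.indicator_of_mem h3, Set.indicator_of_mem h3, h1,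
        Set.indicator_of_mem (show t ∈ Set.Ioc (0 : ℝ) 1 from ⟨(aa_pos _).trans h3.1, h3.2⟩)]
    · rw [Set.indicator_of_notMem h3, Set.indicator_of_notMem h3, mul_zero]
  have e2 : ∫ t in Set.Ioc (0 : ℝ) 1, x t * PL 0 p t ∂muI = ⟪x, PL 0 p⟫ := by
    rw [inner_HH, ← integral_indicator measurableSet_Ioc]
    refine integral_congr_ae ?_
    filter_upwards [PL_coe 0 p] with t h1
    by_cases h3 : t ∈ Set.Ioc (0 : ℝ) 1
    · rw [Set.indicator_of_mem h3]
    · rw [Set.indicator_of_notMem h3, h1, Set.indicator_of_notMem h3, mul_zero]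
  rw [e2] at ht
  have ht0 : Filter.Tendsto (fun k => ∫ t in Set.Ioc (aa (k + 1)) 1, x t * PL 0 p t ∂muI) Filter.atTop (nhds 0) := by
    refine tendsto_const_nhds.congr' ?_
    filter_upwards [h] with k hk
    rw [e1, hk]
  exact tendsto_nhds_unique ht ht0

theorem mem_deg (p : Polynomial ℝ) {k : ℕ} (hk : p.natDegree ≤ k) : p ∈ Polynomial.degreeLT ℝ (k + 1) := by
  rw [Polynomial.mem_degreeLT]
  refine lt_of_le_of_lt Polynomial.degree_le_natDegree ?_
  exact_mod_cast Nat.lt_succ_of_le hk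

theorem main : ∃ φ : ℕ → HH, (∀ i j, ⟪φ i, φ j⟫ = if i = j then 1 else 0) ∧
    (∀ x : HH, (∀ n, ⟪x, φ n⟫ = 0) → x = 0) ∧
    ∀ p : Polynomial ℝ, p ≠ 0 → ∀ᵐ t ∂muI, ¬ ∃ L : ℝ, Filter.Tendsto
      (fun N : ℕ => ∑ n ∈ Finset.range N, ⟪PL 0 p, φ n⟫ * φ n t) Filter.atTop (nhds L) := by
  obtain ⟨l, φ, h1, h2, hlen, hseg⟩ := exists_phi
  have horth : ∀ i j, i < j → ⟪φ i, φ j⟫ = 0 := by
    intro i j hij
    have h3 := (h1 (j + 1)).1.1
    rw [hseg (j + 1), List.pairwise_map] at h3
    have h4 := (List.pairwise_iff_getElem.1 h3) i j (by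
      rw [List.length_range]
      have := hlen (j + 1)
      omega) (by
      rw [List.length_range]
      have := hlen (j + 1)
      omega) hij
    simpa using h4
  have hmem : ∀ i, φ i ∈ l (i + 1) := by
    intro i
    rw [hseg (i + 1), List.mem_map]
    refine ⟨i, ?_, rfl⟩
    rw [List.mem_range]
    have := hlen (i + 1)
    omega
  refine ⟨φ, ?_, ?_, ?_⟩
  · intro i j
    rcases lt_trichotomy i j with h | h | h
    · rw [horth i j h, if_neg h.ne]
    · subst h
      rw [if_pos rfl, real_inner_self_eq_norm_sq, (h1 (i + 1)).1.2 _ (hmem i), one_pow]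
    · rw [real_inner_comm, horth j i h, if_neg h.ne']
  · intro x hx
    apply cont_zero
    intro p
    apply complete_aux
    filter_upwards [Filter.eventually_ge_atTop p.natDegree] with k hk
    obtain ⟨b, B, _, _, _, hs, _⟩ := h2 k
    have h3 := hs p (mem_deg p hk)
    have h4 : sp (l (k + 1)) ≤ (Submodule.span ℝ {x})ᗮ := by
      apply sp_le
      intro y hy
      rw [Submodule.mem_orthogonal_singleton_iff_inner_right]
      rw [hseg (k + 1), List.mem_map] at hy
      obtain ⟨i, _, rfl⟩ := hy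
      exact hx i
    have h5 := h4 h3
    rw [Submodule.mem_orthogonal_singleton_iff_inner_right] at h5
    exact h5
  · intro p hp
    choose b B hb hne hB hs hosc using h2
    have hsum : ∑' k, muI (B k) ≠ ∞ := by
      have h3 : ∑' k, muI (B k) ≤ ∑' k : ℕ, ENNReal.ofReal ((1 / 2) ^ k) := ENNReal.tsum_le_tsum hB
      refine ne_top_of_le_ne_top ?_ h3
      rw [← ENNReal.ofReal_tsum_of_nonneg (fun k => by positivity) summable_geometric_two]
      exact ENNReal.ofReal_ne_top
    have hbc := ae_eventually_notMem hsum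
    have hpos : ∀ᵐ t ∂muI, 0 < t := by
      have h1 : ∀ᵐ t ∂muI, t ∈ Set.Icc (0 : ℝ) 1 := ae_restrict_mem measurableSet_Icc
      have h2 : ∀ᵐ t ∂muI, t ≠ 0 := by
        apply ae_restrict_of_ae
        exact Measure.ae_ne volume 0
      filter_upwards [h1, h2] with t h3 h4
      exact lt_of_le_of_ne h3.1 (Ne.symm h4)
    have hc : 0 < ‖PL 0 p‖ := by
      rw [norm_pos_iff]
      intro h0
      apply hp
      apply PL_inj (a := 1) (a' := 0) le_rfl one_pos le_rfl p
      rw [h0]
      exact (LA 1).zero_mem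
    filter_upwards [hbc, hpos, ae_all_iff.2 hosc] with t f1 f2 f3
    rintro ⟨L, hL⟩
    have hcau := Metric.cauchySeq_iff.1 hL.cauchySeq ‖PL 0 p‖ hc
    obtain ⟨N0, hN0⟩ := hcau
    have hlim := (aa_lim.comp (Filter.tendsto_add_atTop_nat 1)).eventually (gt_mem_nhds f2)
    obtain ⟨k, hk1, hk2, hk3, hk4⟩ := (f1.and (hlim.and ((Filter.eventually_ge_atTop N0).and
      (Filter.eventually_ge_atTop p.natDegree)))).exists
    obtain ⟨b2, ⟨s, e, hse⟩, hosc2⟩ := f3 k hk2 hk1 p (mem_deg p hk4)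
    have e0 : l (k + 1) = (l k ++ s) ++ (b2 ++ e) := by
      rw [hb k, ← hse]
      simp only [List.append_assoc]
    have e0' : l (k + 1) = (l k ++ s ++ b2) ++ e := by
      rw [hb k, ← hse]
      simp only [List.append_assoc]
    have s1 := seg_of_append (φ := φ) (e0.symm.trans (hseg (k + 1)))
    have s2 := seg_of_append (φ := φ) (e0'.symm.trans (hseg (k + 1)))
    have v1 : ∑ n ∈ Finset.range (l k ++ s).length, ⟪PL 0 p, φ n⟫ * φ n t = ev (PL 0 p) (l k ++ s) t := by
      rw [← ev_range, ← s1]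
    have v2 : ∑ n ∈ Finset.range (l k ++ s ++ b2).length, ⟪PL 0 p, φ n⟫ * φ n t =
        ev (PL 0 p) (l k ++ s ++ b2) t := by
      rw [← ev_range, ← s2]
    have g1 : N0 ≤ (l k ++ s).length := by
      rw [List.length_append]
      have := hlen k
      omega
    have g2 : N0 ≤ (l k ++ s ++ b2).length := by
      rw [List.length_append]
      omega
    have := hN0 _ g2 _ g1
    rw [Real.dist_eq, v1, v2, ev_append, add_sub_cancel_left] at this
    linarith

end Pool.Agent.BP
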