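import Mathlib
import Pool.Agent.Helpers.BP10

set_option autoImplicit false

open MeasureTheory
open scoped ENNReal

namespace Pool.Agent.BP

open scoped RealInnerProductSpace

theorem block2 {a : ℝ} (h0 : 0 ≤ a) (h1 : a < 1) {M ε : ℝ} (hM : 0 < M) (hε : 0 < ε) :
    ∃ D : ℕ, ∀ (G : Submodule ℝ HH), FiniteDimensional ℝ G → G ≤ LA a → ∀ g ∈ G, ‖g‖ = 1 →
    ∃ (v : ℕ → HH) (B : Set ℝ), muI B ≤ ENNReal.ofReal ε ∧
      (∀ i < D, ∀ j < D, ⟪v i, v j⟫ = if i = j then 1 else 0) ∧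
      (∀ i < D, v i ∈ LA a) ∧
      (∀ i < D, ∀ x ∈ G, ⟪x, v i⟫ = ⟪x, g⟫ * ⟪g, v i⟫) ∧
      (∑ i ∈ Finset.range D, ⟪g, v i⟫ • v i = g) ∧
      ∀ᵐ t ∂muI, a < t → t ∉ B →
        ∃ N ≤ D, M ≤ |∑ i ∈ Finset.range N, ⟪g, v i⟫ * v i t| := by
  classical
  have hL : 0 < 1 - a := by linarith
  obtain ⟨κ, hκ⟩ : ∃ κ, κ = 1 / Real.sqrt (1 - a) := ⟨_, rfl⟩
  have hκ0 : 0 < κ := by rw [hκ]; positivity
  obtain ⟨R, hR⟩ : ∃ R, R = 3 / ε + 1 := ⟨_, rfl⟩
  have hR0 : 0 < R := by rw [hR]; positivity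
  have hR1 : 1 / R ^ 2 ≤ ε / 3 := by
    have h2 : 3 / ε ≤ R := by rw [hR]; linarith
    have h3 : 1 ≤ R := by rw [hR]; have : 0 < 3 / ε := by positivity
                          linarith
    have h4 : 3 / ε ≤ R ^ 2 := h2.trans (by nlinarith)
    rw [div_le_div_iff₀ (by positivity) (by norm_num)]
    rw [div_le_iff₀ hε] at h4
    linarith
  obtain ⟨M', hM'⟩ : ∃ M', M' = (M + R + 1) / κ := ⟨_, rfl⟩
  have hM'0 : 0 < M' := by rw [hM']; positivity
  have hκM : κ * M' = M + R + 1 := by rw [hM']; field_simp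
  obtain ⟨K, hK⟩ : ∃ K : ℕ, (1 - a) * (M' + 1 / 2) ^ 2 / ((1 / 4) ^ 2 * (ε / 3)) < K := exists_nat_gt _
  have hK1 : (1 - a) * (M' + 1 / 2) ^ 2 ≤ (K : ℝ) * (1 / 4) ^ 2 * (ε / 3) := by
    rw [div_lt_iff₀ (by positivity)] at hK
    linarith
  have hK0 : 0 < K := by
    have : (0 : ℝ) < K := lt_of_le_of_lt (by positivity) hK
    exact_mod_cast this
  refine ⟨2 ^ K, fun G _ hG g hg hg1 => ?_⟩
  obtain ⟨b, hb⟩ : ∃ b, b = stdOrthonormalBasis ℝ G := ⟨_, rfl⟩
  obtain ⟨m, hm⟩ : ∃ m, m = Module.finrank ℝ G := ⟨_, rfl⟩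
  obtain ⟨f, hf⟩ : ∃ f : Fin (Module.finrank ℝ G) → HH, f = fun j => (b j : HH) := ⟨_, rfl⟩
  have hf1 : ∀ i j, ⟪f i, f j⟫ = if i = j then 1 else 0 := by
    intro i j
    have := orthonormal_iff_ite.1 b.orthonormal i j
    rw [Submodule.coe_inner] at this
    rw [hf]
    exact this
  have hfn : ∀ j, ‖f j‖ = 1 := by
    intro j
    have := b.orthonormal.1 j
    rw [hf]
    exact this
  have hfG : ∀ j, f j ∈ G := fun j => by rw [hf]; exact (b j).2
  have hspan : ∀ x ∈ G, ∀ y : HH, (∀ j, ⟪f j, y⟫ = 0) → ⟪x, y⟫ = 0 := by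
    intro x hx y hy
    have h2 := congrArg (fun z : G => (z : HH)) (b.sum_repr ⟨x, hx⟩)
    simp only [Submodule.coe_sum, Submodule.coe_smul] at h2
    rw [← h2, sum_inner]
    refine Finset.sum_eq_zero fun j _ => ?_
    rw [inner_smul_left]
    have := hy j
    rw [hf] at this
    rw [this, mul_zero]
  obtain ⟨η, hη⟩ : ∃ η, η = min 1 (ε / 3) := ⟨_, rfl⟩
  have hη0 : 0 < η := by rw [hη]; exact lt_min one_pos (by positivity)
  have hη1 : η ≤ 1 := by rw [hη]; exact min_le_left _ _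
  have hη2 : η ≤ ε / 3 := by rw [hη]; exact min_le_right _ _
  obtain ⟨δ, hδ⟩ : ∃ δ, δ = η / (((K : ℝ) + 1) * (2 * (Module.finrank ℝ G : ℝ) + 1)) := ⟨_, rfl⟩
  have hδ0 : 0 < δ := by rw [hδ]; positivity
  have hδ1 : (K : ℝ) * δ * (2 * (Module.finrank ℝ G : ℝ)) ≤ η := by
    have h2 : δ * (((K : ℝ) + 1) * (2 * (Module.finrank ℝ G : ℝ) + 1)) = η := by
      rw [hδ]; field_simp
    rw [← h2]
    have h3 : (0 : ℝ) ≤ K := Nat.cast_nonneg K
    have h4 : (0 : ℝ) ≤ Module.finrank ℝ G := Nat.cast_nonneg _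
    nlinarith [mul_nonneg h3 h4, mul_nonneg hδ0.le h3, mul_nonneg hδ0.le h4,
      mul_nonneg (mul_nonneg hδ0.le h3) h4]
  -- choice of n
  have hev : ∀ᶠ n in Filter.atTop, ∀ j : Fin (Module.finrank ℝ G), ∀ l ∈ Finset.range K, ∀ i ∈ Finset.range (2 ^ l),
      |⟪f j, Yn a K n l i⟫| ≤ δ := by
    rw [Filter.eventually_all]
    intro j
    rw [Filter.eventually_all_finset]
    intro l hl
    rw [Filter.eventually_all_finset]
    intro i hi
    have h2 := weak h0 h1 (Finset.mem_range.1 hl) (Finset.mem_range.1 hi) (f j)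
    have h3 := (tendsto_zero_iff_norm_tendsto_zero.1 h2).eventually (gt_mem_nhds hδ0)
    filter_upwards [h3] with n hn
    exact hn.le
  obtain ⟨n, hn⟩ := hev.exists
  have hn' : ∀ j, ∀ l < K, ∀ i, |⟪f j, Yn a K n l i⟫| ≤ δ := by
    intro j l hl i
    by_cases hi : i < 2 ^ l
    · exact hn j l (Finset.mem_range.2 hl) i (Finset.mem_range.2 hi)
    · rw [Yn_zero a K n l i (not_lt.1 hi), inner_zero_right, abs_zero]
      exact hδ0.le
  obtain ⟨z, hz1, hz2, hz3, hz4⟩ := correct (LA a) (hinf h0 h1) f hf1 (fun j => hG (hfG j))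
    (fun p : ℕ × ℕ => Yn a K n p.1 p.2)
    ((Finset.range K ×ˢ Finset.range (2 ^ K)).filter fun p => p.2 < 2 ^ p.1) (fun p => Yn_mem a K n _ _)
  have hmem : ∀ l < K, ∀ i < 2 ^ l, ((l, i) : ℕ × ℕ) ∈
      (Finset.range K ×ˢ Finset.range (2 ^ K)).filter fun p => p.2 < 2 ^ p.1 := by
    intro l hl i hi
    rw [Finset.mem_filter, Finset.mem_product, Finset.mem_range, Finset.mem_range]
    exact ⟨⟨hl, hi.trans (Nat.pow_lt_pow_right (by norm_num) hl)⟩, hi⟩
  obtain ⟨Y, hY⟩ : ∃ Y : ℕ → ℕ → HH, Y = fun l i => Yn a K n l i + ∑ j, ⟪f j, Yn a K n l i⟫ • (z j - f j) := ⟨_, rfl⟩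
  have hxY : ∀ x ∈ G, ∀ l < K, ∀ i < 2 ^ l, ⟪x, Y l i⟫ = 0 := by
    intro x hx l hl i hi
    refine hspan x hx _ fun j => ?_
    rw [hY]
    exact hz3 (l, i) (hmem l hl i hi) j
  have hYo : ∀ l < K, ∀ i < 2 ^ l, ∀ l' < K, ∀ i' < 2 ^ l', ⟪Y l i, Y l' i'⟫ =
      if l = l' ∧ i = i' then (1 / 2 : ℝ) ^ l else 0 := by
    intro l hl i hi l' hl' i' hi'
    rw [← Yn_orth h0 h1 (n := n) hl hl' hi hi', hY]
    exact hz4 (l, i) (hmem l hl i hi) (l', i') (hmem l' hl' i' hi')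
  have hYV : ∀ l i, Y l i ∈ LA a := by
    intro l i
    rw [hY]
    exact hz2 (l, i)
  have hgg : ⟪g, g⟫ = 1 := by rw [real_inner_self_eq_norm_sq, hg1, one_pow]
  have hV := (VV_orth hgg (hxY g hg) hYo K le_rfl).1
  obtain ⟨c, hc⟩ : ∃ c, c = Real.sqrt (2 ^ K) := ⟨_, rfl⟩
  have hcc : c * c = 2 ^ K := by rw [hc]; exact Real.mul_self_sqrt (by positivity)
  have h2K : (2 : ℝ) ^ K * (1 / 2) ^ K = 1 := by rw [← mul_pow]; norm_num
  have hgV : ∀ x ∈ G, ∀ i < 2 ^ K, ⟪x, VV g Y K i⟫ = (1 / 2 : ℝ) ^ K * ⟪x, g⟫ :=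
    fun x hx => VV_G (hxY x hx) K le_rfl
  obtain ⟨Z, hZ1, hZ2⟩ := norm_abs_sum z f hz1 hfn
  refine ⟨fun i => c • VV g Y K i,
    (Set.Ioc a 1 ∩ alive M' cc (sg (1 - a) K n) K) ∪ {t | R < |g t|} ∪ {t | 1 < |(((K : ℝ) * δ) • Z : HH) t|},
    ?_, ?_, ?_, ?_, ?_, ?_⟩
  · have b1 := alive_vol h0 h1 (n := n) hM'0 hK1 hK0
    have b2 := cheb g hR0
    rw [hg1, one_pow] at b2
    have b3 := cheb (((K : ℝ) * δ) • Z) one_pos
    have b4 : ‖((K : ℝ) * δ) • Z‖ ≤ η := by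
      rw [norm_smul, Real.norm_eq_abs, abs_of_nonneg (by positivity)]
      refine le_trans ?_ hδ1
      gcongr
    have b5 : ‖((K : ℝ) * δ) • Z‖ ^ 2 / 1 ^ 2 ≤ ε / 3 := by
      rw [one_pow, div_one]
      calc ‖((K : ℝ) * δ) • Z‖ ^ 2 ≤ η ^ 2 := by gcongr
        _ ≤ η := by nlinarith
        _ ≤ ε / 3 := hη2
    calc muI _ ≤ muI (Set.Ioc a 1 ∩ alive M' cc (sg (1 - a) K n) K) + muI {t | R < |g t|} +
          muI {t | 1 < |(((K : ℝ) * δ) • Z : HH) t|} :=
          (measure_union_le _ _).trans (add_le_add (measure_union_le _ _) le_rfl)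
      _ ≤ ENNReal.ofReal (ε / 3) + ENNReal.ofReal (ε / 3) + ENNReal.ofReal (ε / 3) :=
          add_le_add (add_le_add b1 (b2.trans (ENNReal.ofReal_le_ofReal hR1)))
            (b3.trans (ENNReal.ofReal_le_ofReal b5))
      _ = ENNReal.ofReal ε := by
          rw [← ENNReal.ofReal_add (by positivity) (by positivity), ← ENNReal.ofReal_add (by positivity) (by positivity)]
          congr 1
          ring
  · intro i hi j hj
    rw [inner_smul_left, inner_smul_right, conj_trivial, hV i hi j hj, ← mul_assoc, hcc]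
    split_ifs
    · exact h2K
    · ring
  · intro i _
    exact (LA a).smul_mem _ (VV_mem (LA a) (hG hg) hYV K i)
  · intro i hi x hx
    simp only [inner_smul_right]
    rw [hgV x hx i hi, hgV g hg i hi, hgg]
    ring
  · have : ∀ i ∈ Finset.range (2 ^ K), ⟪g, c • VV g Y K i⟫ • (c • VV g Y K i) = VV g Y K i := by
      intro i hi
      rw [inner_smul_right, hgV g hg i (Finset.mem_range.1 hi), hgg, smul_smul]
      have : c * ((1 / 2) ^ K * 1) * c = 1 := by
        calc c * ((1 / 2) ^ K * 1) * c = (c * c) * (1 / 2) ^ K := by ring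
          _ = 1 := by rw [hcc, h2K]
      rw [this, one_smul]
    rw [Finset.sum_congr rfl this]
    exact GG_full g Y K
  · have ae1 : ∀ᵐ t ∂muI, ∀ i, (VV g Y K i : HH) t = VV (g t) (fun l i => Y l i t) K i :=
      ae_all_iff.2 fun i => coe_VV g Y K i
    have ae2 : ∀ᵐ t ∂muI, ∀ i, (c • VV g Y K i : HH) t = c * (VV g Y K i : HH) t :=
      ae_all_iff.2 fun i => by
        filter_upwards [Lp.coeFn_smul c (VV g Y K i)] with t ht
        rw [ht, Pi.smul_apply, smul_eq_mul]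
    have ae3 : ∀ᵐ t ∂muI, ∀ l i, Y l i t = Yn a K n l i t + ∑ j, ⟪f j, Yn a K n l i⟫ * (z j t - f j t) := by
      refine ae_all_iff.2 fun l => ae_all_iff.2 fun i => ?_
      rw [hY]
      filter_upwards [Lp.coeFn_add (Yn a K n l i) (∑ j, ⟪f j, Yn a K n l i⟫ • (z j - f j)),
        coe_comb (fun j => ⟪f j, Yn a K n l i⟫) z f] with t h2 h3
      rw [h2, Pi.add_apply, h3]
    have ae4 : ∀ᵐ t ∂muI, ∀ l i, Yn a K n l i t = (Set.Ioc a 1).indicator
        (fun t => κ * YY (sg (1 - a) K n) t l i) t := by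
      refine ae_all_iff.2 fun l => ae_all_iff.2 fun i => ?_
      rw [hκ]
      exact TA_coe a (Yn_meas a K n l i) (Yn_bound a K n l i)
    have ae5 : ∀ᵐ t ∂muI, t ∈ Set.Icc (0 : ℝ) 1 := ae_restrict_mem measurableSet_Icc
    filter_upwards [ae1, ae2, ae3, ae4, ae5, hZ2, Lp.coeFn_smul ((K : ℝ) * δ) Z] with t a1 a2 a3 a4 a5 a6 a7 hta htB
    have htA : t ∈ Set.Ioc a 1 := ⟨hta, a5.2⟩
    simp only [Set.mem_union, not_or, Set.mem_inter_iff, not_and, Set.mem_ofPred_eq, not_lt] at htB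
    obtain ⟨⟨htB1, htB2⟩, htB3⟩ := htB
    have htB1 := htB1 htA
    have hwalk : ∃ l ≤ K, M' ≤ |walk cc (sg (1 - a) K n) l t| := by
      simp only [alive, Set.mem_ofPred_eq, not_forall, not_lt] at htB1
      obtain ⟨l, hl, h2⟩ := htB1
      exact ⟨l, hl, h2⟩
    obtain ⟨l, hl, hw⟩ := hwalk
    obtain ⟨N, hN, hN2⟩ := large_of_walk (fun l t => rad_sign _ _ _) t hl hw
    refine ⟨N, hN, ?_⟩
    have hsum : ∑ i ∈ Finset.range N, ⟪g, c • VV g Y K i⟫ * (c • VV g Y K i : HH) t =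
        GG (g t) (fun l i => Y l i t) K N := by
      unfold GG
      refine Finset.sum_congr rfl fun i hi => ?_
      have hi' : i < 2 ^ K := lt_of_lt_of_le (Finset.mem_range.1 hi) hN
      rw [a2, a1, inner_smul_right, hgV g hg i hi', hgg]
      calc c * ((1 / 2) ^ K * 1) * (c * VV (g t) (fun l i => Y l i t) K i)
          = ((c * c) * (1 / 2) ^ K) * VV (g t) (fun l i => Y l i t) K i := by ring
        _ = VV (g t) (fun l i => Y l i t) K i := by rw [hcc, h2K, one_mul]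
    rw [hsum]
    -- decomposition
    have hdec : (fun l i => Y l i t) = fun l i => (0 + κ • YY (sg (1 - a) K n) t l i) +
        ∑ j, ⟪f j, Yn a K n l i⟫ * (z j t - f j t) := by
      funext l i
      rw [a3, a4, Set.indicator_of_mem htA, smul_eq_mul, zero_add]
    have hdec2 : GG (g t) (fun l i => Y l i t) K N = GG (g t) (fun _ _ => (0 : ℝ)) K N +
        κ * GG (0 : ℝ) (YY (sg (1 - a) K n) t) K N +
        GG (0 : ℝ) (fun l i => ∑ j, ⟪f j, Yn a K n l i⟫ * (z j t - f j t)) K N := by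
      have e1 := GG_add (g t) 0 (fun l i => (0 : ℝ) + κ • YY (sg (1 - a) K n) t l i)
        (fun l i => ∑ j, ⟪f j, Yn a K n l i⟫ * (z j t - f j t)) K N
      have e2 := GG_add (g t) 0 (fun _ _ => (0 : ℝ)) (fun l i => κ • YY (sg (1 - a) K n) t l i) K N
      have e3 := GG_smulY κ (0 : ℝ) (YY (sg (1 - a) K n) t) K N
      rw [smul_zero] at e3
      rw [add_zero] at e1 e2
      rw [hdec, e1, e2, e3, smul_eq_mul]
    have bE := (GG_bound (g := (0 : ℝ)) (Y := fun l i => ∑ j, ⟪f j, Yn a K n l i⟫ * (z j t - f j t))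
      (b := 0) (c := δ * Z t) (K := K) (by simp) (by
        rw [a6]
        exact mul_nonneg hδ0.le (Finset.sum_nonneg fun j _ => by positivity)) (by
        intro l hl i
        rw [a6, Finset.mul_sum]
        refine (Finset.abs_sum_le_sum_abs _ _).trans (Finset.sum_le_sum fun j _ => ?_)
        rw [abs_mul]
        exact mul_le_mul (hn' j l hl i) (abs_sub _ _) (abs_nonneg _) hδ0.le) K le_rfl).2 N hN
    have bg := GG_zeroY (g t) K N hN
    have hKZ : (K : ℝ) * (δ * Z t) ≤ 1 := by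
      have e1 : (((K : ℝ) * δ) • Z : HH) t = (K : ℝ) * (δ * Z t) := by
        rw [a7, Pi.smul_apply, smul_eq_mul, mul_assoc]
      rw [e1] at htB3
      exact (le_abs_self _).trans htB3
    have bmain : M + R + 1 ≤ |κ * GG (0 : ℝ) (YY (sg (1 - a) K n) t) K N| := by
      rw [abs_mul, abs_of_pos hκ0, ← hκM]
      exact mul_le_mul_of_nonneg_left hN2 hκ0.le
    rw [hdec2]
    have t1 := abs_sub_abs_le_abs_sub (κ * GG (0 : ℝ) (YY (sg (1 - a) K n) t) K N)
      (-(GG (g t) (fun _ _ => (0 : ℝ)) K N + GG (0 : ℝ) (fun l i => ∑ j, ⟪f j, Yn a K n l i⟫ * (z j t - f j t)) K N))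
    rw [abs_neg] at t1
    have t2 := abs_add_le (GG (g t) (fun _ _ => (0 : ℝ)) K N)
      (GG (0 : ℝ) (fun l i => ∑ j, ⟪f j, Yn a K n l i⟫ * (z j t - f j t)) K N)
    have t3 : κ * GG (0 : ℝ) (YY (sg (1 - a) K n) t) K N -
        -(GG (g t) (fun _ _ => (0 : ℝ)) K N + GG (0 : ℝ) (fun l i => ∑ j, ⟪f j, Yn a K n l i⟫ * (z j t - f j t)) K N) =
        GG (g t) (fun _ _ => (0 : ℝ)) K N + κ * GG (0 : ℝ) (YY (sg (1 - a) K n) t) K N +
        GG (0 : ℝ) (fun l i => ∑ j, ⟪f j, Yn a K n l i⟫ * (z j t - f j t)) K N := by ring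
    rw [t3] at t1
    linarith

theorem multi2 {a : ℝ} (h0 : 0 ≤ a) (h1 : a < 1) {M ε : ℝ} (hM : 0 < M) (hε : 0 < ε) :
    ∃ D : ℕ, ∀ (gs : List HH), ∀ (G : Submodule ℝ HH), FiniteDimensional ℝ G → G ≤ LA a → (∀ g ∈ gs, g ∈ G) → ON gs →
    ∃ (b : List HH) (B : Set ℝ), b.length = gs.length * D ∧ muI B ≤ ENNReal.ofReal (gs.length * ε) ∧ ON b ∧
      (∀ x ∈ b, x ∈ LA a) ∧ (∀ x ∈ b, ∀ y ∈ G, (∀ g ∈ gs, ⟪g, y⟫ = 0) → ⟪x, y⟫ = 0) ∧
      (∀ g ∈ gs, g ∈ sp b) ∧
      ∀ᵐ t ∂muI, a < t → t ∉ B → ∀ g ∈ gs, ∀ p ∈ G, ∃ b2, b2 <:+: b ∧ M * |⟪p, g⟫| ≤ |ev p b2 t| := by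
  obtain ⟨D, hD⟩ := block2 h0 h1 hM hε
  refine ⟨D, fun gs => ?_⟩
  induction gs with
  | nil =>
    intro G _ _ _ _
    refine ⟨[], ∅, by simp, by simp, ⟨List.Pairwise.nil, by simp⟩, by simp, by simp, by simp, ?_⟩
    exact Filter.Eventually.of_forall fun t _ _ g hg => absurd hg List.not_mem_nil
  | cons g gs ih =>
    intro G hfd hG hgs hON
    have hg : g ∈ G := hgs g List.mem_cons_self
    have hgn : ‖g‖ = 1 := hON.2 g List.mem_cons_self
    have hpair := List.pairwise_cons.1 hON.1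
    obtain ⟨v, B1, m1, o1, v1, i1, s1, e1⟩ := hD G hfd hG g hg hgn
    have hb1 : ∀ x ∈ (List.range D).map v, ∃ i < D, v i = x := by
      intro x hx
      rw [List.mem_map] at hx
      obtain ⟨i, hi, rfl⟩ := hx
      exact ⟨i, List.mem_range.1 hi, rfl⟩
    have hb1L : ∀ x ∈ (List.range D).map v, x ∈ LA a := by
      intro x hx
      obtain ⟨i, hi, rfl⟩ := hb1 x hx
      exact v1 i hi
    obtain ⟨b2, B2, len2, m2, on2, l2, q2, sp2, e2⟩ := ih (G ⊔ sp ((List.range D).map v))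
      (Submodule.finiteDimensional_sup _ _) (sup_le hG (sp_le hb1L))
      (fun g' hg' => Submodule.mem_sup_left (hgs g' (List.mem_cons_of_mem _ hg')))
      ⟨hpair.2, fun x hx => hON.2 x (List.mem_cons_of_mem _ hx)⟩
    refine ⟨(List.range D).map v ++ b2, B1 ∪ B2, ?_, ?_, ⟨?_, ?_⟩, ?_, ?_, ?_, ?_⟩
    · rw [List.length_append, len2, List.length_map, List.length_range, List.length_cons]
      ring
    · calc muI (B1 ∪ B2) ≤ muI B1 + muI B2 := measure_union_le _ _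
        _ ≤ ENNReal.ofReal ε + ENNReal.ofReal (gs.length * ε) := add_le_add m1 m2
        _ = ENNReal.ofReal ((g :: gs).length * ε) := by
            rw [← ENNReal.ofReal_add hε.le (by positivity)]
            congr 1
            rw [List.length_cons]
            push_cast
            ring
    · rw [List.pairwise_append]
      refine ⟨?_, on2.1, ?_⟩
      · rw [List.pairwise_map]
        refine (List.pairwise_lt_range (n := D)).imp_of_mem ?_
        intro i j hi hj hij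
        rw [o1 i (List.mem_range.1 hi) j (List.mem_range.1 hj), if_neg hij.ne]
      · intro x hx y hy
        rw [real_inner_comm]
        refine q2 y hy x (Submodule.mem_sup_right (mem_sp hx)) ?_
        intro g' hg'
        obtain ⟨i, hi, rfl⟩ := hb1 x hx
        rw [i1 i hi g' (hgs g' (List.mem_cons_of_mem _ hg')), real_inner_comm, hpair.1 g' hg', zero_mul]
    · intro x hx
      rcases List.mem_append.1 hx with hx | hx
      · obtain ⟨i, hi, rfl⟩ := hb1 x hx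
        have := o1 i hi i hi
        rw [if_pos rfl, real_inner_self_eq_norm_sq] at this
        nlinarith [norm_nonneg (v i)]
      · exact on2.2 x hx
    · intro x hx
      rcases List.mem_append.1 hx with hx | hx
      · exact hb1L x hx
      · exact l2 x hx
    · intro x hx y hy hyg
      rcases List.mem_append.1 hx with hx | hx
      · obtain ⟨i, hi, rfl⟩ := hb1 x hx
        rw [real_inner_comm, i1 i hi y hy, real_inner_comm, hyg g List.mem_cons_self, zero_mul]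
      · exact q2 x hx y (Submodule.mem_sup_left hy) fun g' hg' => hyg g' (List.mem_cons_of_mem _ hg')
    · intro g' hg'
      rcases List.mem_cons.1 hg' with rfl | hg'
      · rw [← s1]
        refine Submodule.sum_mem _ fun i hi => Submodule.smul_mem _ _ (mem_sp ?_)
        rw [List.mem_append, List.mem_map]
        left
        exact ⟨i, List.mem_range.2 (Finset.mem_range.1 hi), rfl⟩
      · exact sp_mono (fun x hx => List.mem_append.2 (Or.inr hx)) (sp2 g' hg')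
    · filter_upwards [e1, e2] with t f1 f2 hat htB g' hg' p hp
      have htB1 : t ∉ B1 := fun h => htB (Or.inl h)
      have htB2 : t ∉ B2 := fun h => htB (Or.inr h)
      rcases List.mem_cons.1 hg' with rfl | hg'
      · obtain ⟨N, hN, hNM⟩ := f1 hat htB1
        refine ⟨(List.range N).map v, ?_, ?_⟩
        · obtain ⟨k, rfl⟩ := Nat.exists_eq_add_of_le hN
          rw [List.range_add, List.map_append, List.append_assoc]
          exact List.infix_append' [] _ _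
        · rw [ev_range]
          have h2 : ∑ i ∈ Finset.range N, ⟪p, v i⟫ * v i t = ⟪p, g'⟫ * ∑ i ∈ Finset.range N, ⟪g', v i⟫ * v i t := by
            rw [Finset.mul_sum]
            refine Finset.sum_congr rfl fun i hi => ?_
            rw [i1 i (lt_of_lt_of_le (Finset.mem_range.1 hi) hN) p hp, mul_assoc]
          rw [h2, abs_mul, mul_comm]
          exact mul_le_mul_of_nonneg_left hNM (abs_nonneg _)
      · obtain ⟨b3, hb3, h3⟩ := f2 hat htB2 g' hg' p (Submodule.mem_sup_left hp)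
        exact ⟨b3, hb3.trans (List.infix_append_right ..), h3⟩

end Pool.Agent.BP
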