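import Mathlib
import Pool.Agent.Helpers.BQ1

set_option autoImplicit false

open MeasureTheory
open scoped ENNReal

namespace Pool.Agent.BP

open scoped RealInnerProductSpace

/-- truncation -/
noncomputable def tr (a : ℝ) (x : HH) : HH :=
  MemLp.toLp ((Set.Ioc a 1).indicator (x : ℝ → ℝ))
    ((Lp.memLp x).indicator (measurableSet_Ioc (a := a) (b := 1)))

theorem tr_coe (a : ℝ) (x : HH) : (tr a x : ℝ → ℝ) =ᵐ[muI] (Set.Ioc a 1).indicator (x : ℝ → ℝ) :=
  MemLp.coeFn_toLp _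

theorem tr_mem (a : ℝ) (x : HH) : tr a x ∈ LA a := by
  show ∀ᵐ t ∂muI, t ≤ a → tr a x t = 0
  filter_upwards [tr_coe a x] with t h1 h2
  rw [h1, Set.indicator_of_notMem]
  exact fun h => absurd h.1 (not_lt.2 h2)

theorem tr_inner {a : ℝ} (x : HH) {y : HH} (hy : y ∈ LA a) : ⟪tr a x, y⟫ = ⟪x, y⟫ := by
  have hy : ∀ᵐ t ∂muI, t ≤ a → y t = 0 := hy
  rw [inner_HH, inner_HH]
  refine integral_congr_ae ?_
  have h5 : ∀ᵐ t ∂muI, t ∈ Set.Icc (0 : ℝ) 1 := ae_restrict_mem measurableSet_Icc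
  filter_upwards [tr_coe a x, hy, h5] with t h1 h2 h3
  rw [h1]
  by_cases ht : t ≤ a
  · rw [h2 ht, mul_zero, mul_zero]
  · rw [Set.indicator_of_mem (show t ∈ Set.Ioc a 1 from ⟨not_le.1 ht, h3.2⟩)]

/-- the distance from the truncation to functions vanishing on `[0,a]` -/
theorem tr_dist {a a' : ℝ} (_h1 : a' < a) (h2 : a ≤ 1) (x : HH) {w : HH} (hw : w ∈ LA a) {δ : ℝ}
    (hδ : 0 ≤ δ) (hx : δ ^ 2 ≤ ∫ t in Set.Ioc a' a, x t ^ 2 ∂muI) : δ ≤ ‖tr a' x - w‖ := by
  have hw : ∀ᵐ t ∂muI, t ≤ a → w t = 0 := hw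
  have e1 : ‖tr a' x - w‖ ^ 2 = ∫ t, ((tr a' x - w : HH) t) ^ 2 ∂muI := by
    rw [← real_inner_self_eq_norm_sq, inner_HH]
    simp only [sq]
  have e2 : ∫ t in Set.Ioc a' a, x t ^ 2 ∂muI = ∫ t in Set.Ioc a' a, ((tr a' x - w : HH) t) ^ 2 ∂muI := by
    refine setIntegral_congr_ae measurableSet_Ioc ?_
    filter_upwards [Lp.coeFn_sub (tr a' x) w, tr_coe a' x, hw] with t h3 h4 h5 h6
    rw [h3, Pi.sub_apply, h4, h5 h6.2, sub_zero, Set.indicator_of_mem]
    exact ⟨h6.1, h6.2.trans h2⟩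
  have e3 : ∫ t in Set.Ioc a' a, ((tr a' x - w : HH) t) ^ 2 ∂muI ≤ ∫ t, ((tr a' x - w : HH) t) ^ 2 ∂muI :=
    setIntegral_le_integral (Lp.memLp (tr a' x - w)).integrable_sq
      (Filter.Eventually.of_forall fun t => sq_nonneg _)
  rw [e2] at hx
  rw [← e1] at e3
  exact (pow_le_pow_iff_left₀ hδ (norm_nonneg _) (by norm_num)).1 (hx.trans e3)

theorem ev_small {x : HH} {η : ℝ} (hx : ‖x‖ ≤ η) {b b2 : List HH} (hb : ∀ v ∈ b, ‖v‖ = 1)
    (hb2 : b2 <:+: b) (t : ℝ) : |ev x b2 t| ≤ η * (b.map fun v => |v t|).sum := by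
  have hη : 0 ≤ η := (norm_nonneg x).trans hx
  have h1 : ∀ b3 : List HH, (∀ v ∈ b3, ‖v‖ = 1) → |ev x b3 t| ≤ η * (b3.map fun v => |v t|).sum := by
    intro b3
    induction b3 with
    | nil => intro _; simp [ev]
    | cons v b3 ih =>
      intro hv
      have e1 : ev x (v :: b3) t = ⟪x, v⟫ * v t + ev x b3 t := by simp [ev]
      rw [e1, List.map_cons, List.sum_cons, mul_add]
      refine (abs_add_le _ _).trans (add_le_add ?_ (ih fun w hw => hv w (List.mem_cons_of_mem _ hw)))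
      rw [abs_mul]
      apply mul_le_mul_of_nonneg_right _ (abs_nonneg _)
      have := abs_real_inner_le_norm x v
      rw [hv v List.mem_cons_self, mul_one] at this
      exact this.trans hx
  refine (h1 b2 fun v hv => hb v (hb2.subset hv)).trans ?_
  apply mul_le_mul_of_nonneg_left _ hη
  apply List.Sublist.sum_le_sum (hb2.sublist.map _)
  intro z hz
  rw [List.mem_map] at hz
  obtain ⟨v, _, rfl⟩ := hz
  exact abs_nonneg _

theorem norm_list (b : List HH) (hb : ∀ v ∈ b, ‖v‖ = 1) :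
    ∃ S : HH, ‖S‖ ≤ b.length ∧ ∀ᵐ t ∂muI, S t = (b.map fun v => |v t|).sum := by
  induction b with
  | nil =>
    refine ⟨0, by simp, ?_⟩
    filter_upwards [Lp.coeFn_zero ℝ 2 muI] with t h1
    rw [h1]
    simp
  | cons v b ih =>
    obtain ⟨S, h1, h2⟩ := ih fun w hw => hb w (List.mem_cons_of_mem _ hw)
    refine ⟨|v| + S, ?_, ?_⟩
    · refine (norm_add_le _ _).trans ?_
      rw [norm_abs_eq_norm, hb v List.mem_cons_self, List.length_cons]
      push_cast
      linarith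
    · filter_upwards [h2, Lp.coeFn_add (|v|) S, Lp.coeFn_abs v] with t h3 h4 h5
      rw [h4, Pi.add_apply, h5, h3, List.map_cons, List.sum_cons]

theorem ev_sub (x y : HH) (b : List HH) (t : ℝ) : ev x b t = ev y b t + ev (x - y) b t := by
  induction b with
  | nil => simp [ev]
  | cons v b ih =>
    have e1 : ∀ z, ev z (v :: b) t = ⟪z, v⟫ * v t + ev z b t := fun z => by simp [ev]
    rw [e1, e1, e1, ih, inner_sub_left]
    ring

theorem stage2 {a a' : ℝ} (h0 : 0 < a') (h1 : a' < a) (h2 : a ≤ 1) (n : ℕ) (hn : 1 ≤ n)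
    (W : Submodule ℝ HH) [FiniteDimensional ℝ W] (hW : W ≤ LA a) {ε : ℝ} (hε : 0 < ε)
    (C : Set HH) (hC : TotallyBounded C) {δ : ℝ} (hδ : 0 < δ)
    (hCδ : ∀ x ∈ C, δ ^ 2 ≤ ∫ t in Set.Ioc a' a, x t ^ 2 ∂muI) :
    ∃ (b : List HH) (B : Set ℝ), muI B ≤ ENNReal.ofReal ε ∧ ON b ∧ (∀ x ∈ b, x ∈ LA a') ∧
      (∀ x ∈ b, ∀ w ∈ W, ⟪x, w⟫ = 0) ∧ b ≠ [] ∧
      (∀ p ∈ Polynomial.degreeLT ℝ n, PL a' p ∈ W ⊔ sp b) ∧
      ∀ᵐ t ∂muI, a' < t → t ∉ B → ∀ x ∈ C, ∃ b2, b2 <:+: b ∧ 1 ≤ |ev x b2 t| := by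
  classical
  have ha' : a' < 1 := lt_of_lt_of_le h1 h2
  have fdn : FiniteDimensional ℝ (Polynomial.degreeLT ℝ n) :=
    (Polynomial.degreeLTEquiv ℝ n).symm.finiteDimensional
  obtain ⟨net1, hnet1C, hnet1f, hnet1⟩ := Metric.finite_approx_of_totallyBounded hC (δ / 2) (by positivity)
  let Q1 : Submodule ℝ HH := (Polynomial.degreeLT ℝ n).map (PL a')
  let Q2 : Submodule ℝ HH := Submodule.span ℝ (tr a' '' net1)
  have fQ2 : FiniteDimensional ℝ Q2 := FiniteDimensional.span_of_finite ℝ (hnet1f.image _)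
  let Q : Submodule ℝ HH := Q1 ⊔ Q2
  have fQ : FiniteDimensional ℝ Q := Submodule.finiteDimensional_sup _ _
  have hQ : Q ≤ LA a' := by
    apply sup_le
    · rintro _ ⟨p, _, rfl⟩
      exact PL_mem a' p
    · apply Submodule.span_le.2
      rintro _ ⟨x, _, rfl⟩
      exact tr_mem a' x
  have hWa : W ≤ LA a' := hW.trans (LA_mono h1.le)
  let E : Submodule ℝ HH := Q.map ((Wᗮ).starProjection : HH →ₗ[ℝ] HH)
  have hproj : ∀ x : HH, (Wᗮ).starProjection x = x - W.starProjection x := by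
    intro x
    rw [Submodule.starProjection_orthogonal]
    rfl
  have hEG : E ≤ W ⊔ Q := by
    rintro _ ⟨x, hx, rfl⟩
    show (Wᗮ).starProjection x ∈ W ⊔ Q
    rw [hproj]
    exact Submodule.sub_mem _ (Submodule.mem_sup_right hx)
      (Submodule.mem_sup_left (Submodule.starProjection_apply_mem W x))
  have hEW : ∀ x ∈ E, ∀ w ∈ W, ⟪x, w⟫ = 0 := by
    rintro _ ⟨x, hx, rfl⟩ w hw
    have : (Wᗮ).starProjection x ∈ Wᗮ := Submodule.starProjection_apply_mem _ x
    rw [real_inner_comm]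
    exact (Submodule.mem_orthogonal W _).1 this w hw
  have hEL : E ≤ LA a' := hEG.trans (sup_le hWa hQ)
  have fE : FiniteDimensional ℝ E := inferInstance
  obtain ⟨b0, hb0⟩ : ∃ b0, b0 = stdOrthonormalBasis ℝ E := ⟨_, rfl⟩
  obtain ⟨m, hm⟩ : ∃ m, m = Module.finrank ℝ E := ⟨_, rfl⟩
  obtain ⟨g, hg⟩ : ∃ g : Fin (Module.finrank ℝ E) → HH, g = fun j => (b0 j : HH) := ⟨_, rfl⟩
  have hgE : ∀ j, g j ∈ E := fun j => by rw [hg]; exact (b0 j).2
  have hg1 : ∀ i j, ⟪g i, g j⟫ = if i = j then 1 else 0 := by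
    intro i j
    have := orthonormal_iff_ite.1 b0.orthonormal i j
    rw [Submodule.coe_inner] at this
    rw [hg]
    exact this
  have hgn : ∀ j, ‖g j‖ = 1 := by
    intro j
    have := hg1 j j
    rw [if_pos rfl, real_inner_self_eq_norm_sq] at this
    nlinarith [norm_nonneg (g j)]
  have hspanE : ∀ x ∈ E, x = ∑ j, ⟪g j, x⟫ • g j := by
    intro x hx
    have h2 := congrArg (fun z : E => (z : HH)) (b0.sum_repr' ⟨x, hx⟩)
    simp only [Submodule.coe_sum, Submodule.coe_smul, Submodule.coe_inner] at h2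
    rw [hg]
    exact h2.symm
  -- the key estimate
  have hkey : ∀ x ∈ C, ∃ j, δ / (2 * ((Module.finrank ℝ E : ℝ) + 1)) ≤ |⟪x, g j⟫| := by
    intro x hx
    obtain ⟨y, hy, hxy⟩ := Set.mem_iUnion₂.1 (hnet1 hx)
    rw [Metric.mem_ball, dist_eq_norm] at hxy
    obtain ⟨e, he⟩ : ∃ e, e = (Wᗮ).starProjection (tr a' y) := ⟨_, rfl⟩
    have heE : e ∈ E := by
      rw [he]
      exact ⟨tr a' y, Submodule.mem_sup_right (Submodule.subset_span ⟨y, hy, rfl⟩), rfl⟩
    have hen : δ ≤ ‖e‖ := by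
      rw [he, hproj]
      exact tr_dist h1 h2 y (hW (Submodule.starProjection_apply_mem W _)) hδ.le (hCδ y (hnet1C hy))
    have hey : ⟪y, e⟫ = ‖e‖ ^ 2 := by
      rw [← tr_inner y (hEL heE), ← real_inner_self_eq_norm_sq]
      have h3 : tr a' y = e + W.starProjection (tr a' y) := by rw [he, hproj]; abel
      conv_lhs => rw [h3]
      rw [inner_add_left, real_inner_comm e (W.starProjection _),
        hEW e heE _ (Submodule.starProjection_apply_mem W _), add_zero]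
    have hex : ‖e‖ ^ 2 / 2 ≤ ⟪x, e⟫ := by
      have h3 : ⟪x, e⟫ = ⟪y, e⟫ + ⟪x - y, e⟫ := by rw [inner_sub_left]; ring
      have h4 := abs_real_inner_le_norm (x - y) e
      have h5 := neg_abs_le ⟪x - y, e⟫
      have h6 : ‖x - y‖ * ‖e‖ ≤ ‖e‖ / 2 * ‖e‖ := by
        gcongr
        linarith
      rw [h3, hey]
      nlinarith
    by_contra hcon
    push Not at hcon
    have h7 : ⟪x, e⟫ = ∑ j, ⟪g j, e⟫ * ⟪x, g j⟫ := by
      conv_lhs => rw [hspanE e heE]
      rw [inner_sum]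
      refine Finset.sum_congr rfl fun j _ => ?_
      rw [inner_smul_right]
    have h8 : ⟪x, e⟫ ≤ ∑ _j : Fin (Module.finrank ℝ E), ‖e‖ * (δ / (2 * ((Module.finrank ℝ E : ℝ) + 1))) := by
      rw [h7]
      refine (le_abs_self _).trans ((Finset.abs_sum_le_sum_abs _ _).trans (Finset.sum_le_sum fun j _ => ?_))
      rw [abs_mul]
      have h9 := abs_real_inner_le_norm (g j) e
      rw [hgn, one_mul] at h9
      exact mul_le_mul h9 (hcon j).le (abs_nonneg _) (norm_nonneg _)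
    rw [Finset.sum_const, Finset.card_univ, Fintype.card_fin, nsmul_eq_mul] at h8
    have h10 : (Module.finrank ℝ E : ℝ) * (‖e‖ * (δ / (2 * ((Module.finrank ℝ E : ℝ) + 1)))) < ‖e‖ * δ / 2 := by
      have he0 : 0 < ‖e‖ := lt_of_lt_of_le hδ hen
      have h11 : (Module.finrank ℝ E : ℝ) * (‖e‖ * (δ / (2 * ((Module.finrank ℝ E : ℝ) + 1)))) =
          (‖e‖ * δ / 2) * ((Module.finrank ℝ E : ℝ) / ((Module.finrank ℝ E : ℝ) + 1)) := by
        field_simp
      rw [h11]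
      apply mul_lt_of_lt_one_right (by positivity)
      rw [div_lt_one (by positivity)]
      linarith
    nlinarith
  obtain ⟨δ', hδ'⟩ : ∃ δ', δ' = δ / (2 * ((Module.finrank ℝ E : ℝ) + 1)) := ⟨_, rfl⟩
  rw [← hδ'] at hkey
  have hδ'0 : 0 < δ' := by rw [hδ']; positivity
  obtain ⟨D, hD⟩ := multi2 h0.le ha' (M := 4 / δ') (ε := ε / (2 * ((Module.finrank ℝ E : ℝ) + 1)))
    (by positivity) (by positivity)
  obtain ⟨η, hη⟩ : ∃ η, η = min (δ' / 2) (min 1 (ε / 2) / ((Module.finrank ℝ E : ℝ) * D + 1)) := ⟨_, rfl⟩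
  have hη0 : 0 < η := by
    rw [hη]
    apply lt_min (by positivity)
    have : 0 < min 1 (ε / 2) := lt_min one_pos (by positivity)
    positivity
  have hη1 : η ≤ δ' / 2 := by rw [hη]; exact min_le_left _ _
  have hη2 : η * ((Module.finrank ℝ E : ℝ) * D) ≤ min 1 (ε / 2) := by
    have h3 : η ≤ min 1 (ε / 2) / ((Module.finrank ℝ E : ℝ) * D + 1) := by rw [hη]; exact min_le_right _ _
    rw [le_div_iff₀ (by positivity)] at h3
    nlinarith
  obtain ⟨net2, hnet2C, hnet2f, hnet2⟩ := Metric.finite_approx_of_totallyBounded hC η hη0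
  let Q3 : Submodule ℝ HH := Submodule.span ℝ (tr a' '' net2)
  have fQ3 : FiniteDimensional ℝ Q3 := FiniteDimensional.span_of_finite ℝ (hnet2f.image _)
  have hQ3 : Q3 ≤ LA a' := by
    apply Submodule.span_le.2
    rintro _ ⟨x, _, rfl⟩
    exact tr_mem a' x
  have hON : ON (List.ofFn g) := by
    constructor
    · rw [List.pairwise_ofFn]
      intro i j hij
      rw [hg1, if_neg hij.ne]
    · intro x hx
      rw [List.mem_ofFn] at hx
      obtain ⟨j, rfl⟩ := hx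
      exact hgn j
  have fWQ : FiniteDimensional ℝ (W ⊔ Q : Submodule ℝ HH) := Submodule.finiteDimensional_sup _ _
  have fG : FiniteDimensional ℝ ((W ⊔ Q) ⊔ Q3 : Submodule ℝ HH) := Submodule.finiteDimensional_sup _ _
  obtain ⟨b, B, len1, m1, on1, l1, q1, s1, e1⟩ := hD
    (List.ofFn g) ((W ⊔ Q) ⊔ Q3) fG (sup_le (sup_le hWa hQ) hQ3) (by
      intro x hx
      rw [List.mem_ofFn] at hx
      obtain ⟨j, rfl⟩ := hx
      exact Submodule.mem_sup_left (hEG (hgE j))) hON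
  rw [List.length_ofFn] at len1
  have hspan2 : ∀ p ∈ Polynomial.degreeLT ℝ n, PL a' p ∈ W ⊔ sp b := by
    intro p hp
    have h3 : PL a' p = W.starProjection (PL a' p) + (Wᗮ).starProjection (PL a' p) := by
      rw [hproj]; abel
    rw [h3]
    refine Submodule.add_mem _ (Submodule.mem_sup_left (Submodule.starProjection_apply_mem W _))
      (Submodule.mem_sup_right ?_)
    have h4 : (Wᗮ).starProjection (PL a' p) ∈ E := ⟨PL a' p, Submodule.mem_sup_left ⟨p, hp, rfl⟩, rfl⟩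
    rw [hspanE _ h4]
    refine Submodule.sum_mem _ fun j _ => Submodule.smul_mem _ _ (s1 _ ?_)
    rw [List.mem_ofFn]
    exact ⟨j, rfl⟩
  obtain ⟨S, hS1, hS2⟩ := norm_list b on1.2
  refine ⟨b, B ∪ {t | 1 < |(η • S : HH) t|}, ?_, on1, l1, ?_, ?_, hspan2, ?_⟩
  · have b3 := cheb (η • S) one_pos
    have hmin0 : 0 < min 1 (ε / 2) := lt_min one_pos (by positivity)
    have b4 : ‖η • S‖ ≤ min 1 (ε / 2) := by
      rw [norm_smul, Real.norm_eq_abs, abs_of_pos hη0]
      refine le_trans ?_ hη2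
      gcongr
      refine hS1.trans ?_
      rw [len1]
      push_cast
      exact le_rfl
    have b5 : ‖η • S‖ ^ 2 / 1 ^ 2 ≤ ε / 2 := by
      rw [one_pow, div_one]
      have c1 : min 1 (ε / 2) ≤ 1 := min_le_left _ _
      have c2 : min 1 (ε / 2) ≤ ε / 2 := min_le_right _ _
      calc ‖η • S‖ ^ 2 ≤ (min 1 (ε / 2)) ^ 2 := by gcongr
        _ ≤ min 1 (ε / 2) := by nlinarith
        _ ≤ ε / 2 := c2
    have b6 : (List.ofFn g).length * (ε / (2 * ((Module.finrank ℝ E : ℝ) + 1))) ≤ ε / 2 := by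
      rw [List.length_ofFn, mul_div_assoc', div_le_div_iff₀ (by positivity) (by norm_num)]
      nlinarith
    calc muI _ ≤ muI B + muI {t | 1 < |(η • S : HH) t|} := measure_union_le _ _
      _ ≤ ENNReal.ofReal (ε / 2) + ENNReal.ofReal (ε / 2) :=
          add_le_add (m1.trans (ENNReal.ofReal_le_ofReal b6)) (b3.trans (ENNReal.ofReal_le_ofReal b5))
      _ = ENNReal.ofReal ε := by
          rw [← ENNReal.ofReal_add (by positivity) (by positivity)]
          congr 1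
          ring
  · intro x hx w hw
    refine q1 x hx w (Submodule.mem_sup_left (Submodule.mem_sup_left hw)) fun y hy => ?_
    rw [List.mem_ofFn] at hy
    obtain ⟨j, rfl⟩ := hy
    exact hEW _ (hgE j) w hw
  · intro hb
    have h3 := hspan2 1 (by
      rw [Polynomial.mem_degreeLT]
      refine lt_of_le_of_lt Polynomial.degree_one_le ?_
      exact_mod_cast hn)
    have h4 : sp b = ⊥ := by
      rw [hb]
      simp [sp]
    rw [h4, sup_bot_eq] at h3
    exact one_ne_zero (PL_inj h0.le h1 h2 1 (hW h3))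
  · filter_upwards [e1, hS2, Lp.coeFn_smul η S] with t f1 f2 f3 hat htB x hx
    have htB1 : t ∉ B := fun h => htB (Or.inl h)
    have htB2 : |(η • S : HH) t| ≤ 1 := by
      by_contra h
      exact htB (Or.inr (not_le.1 h))
    obtain ⟨j, hj⟩ := hkey x hx
    obtain ⟨y, hy, hxy⟩ := Set.mem_iUnion₂.1 (hnet2 hx)
    rw [Metric.mem_ball, dist_eq_norm] at hxy
    have hyj : δ' / 2 ≤ |⟪y, g j⟫| := by
      have h3 : ⟪x, g j⟫ = ⟪y, g j⟫ + ⟪x - y, g j⟫ := by rw [inner_sub_left]; ring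
      have h4 := abs_real_inner_le_norm (x - y) (g j)
      rw [hgn, mul_one] at h4
      have h5 := abs_add_le ⟪y, g j⟫ ⟪x - y, g j⟫
      rw [← h3] at h5
      linarith
    obtain ⟨b2, hb2, h3⟩ := f1 hat htB1 (g j) (by rw [List.mem_ofFn]; exact ⟨j, rfl⟩) (tr a' y)
      (Submodule.mem_sup_right (Submodule.subset_span ⟨y, hy, rfl⟩))
    refine ⟨b2, hb2, ?_⟩
    rw [tr_inner y (hEL (hgE j))] at h3
    rw [ev_congr (p := tr a' y) (p' := y) (fun v hv => tr_inner y (l1 v (hb2.subset hv)))] at h3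
    have h4 : 2 ≤ 4 / δ' * |⟪y, g j⟫| := by
      rw [div_mul_eq_mul_div, le_div_iff₀ hδ'0]
      linarith
    have h5 := ev_small hxy.le on1.2 hb2 t
    have h6 : η * (b.map fun v => |v t|).sum ≤ 1 := by
      rw [← f2]
      have h7 : (η • S : HH) t = η * S t := by rw [f3, Pi.smul_apply, smul_eq_mul]
      rw [h7] at htB2
      exact (le_abs_self _).trans htB2
    rw [ev_sub x y b2 t]
    have h8 := abs_sub_abs_le_abs_sub (ev y b2 t) (-(ev (x - y) b2 t))
    rw [abs_neg, sub_neg_eq_add] at h8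
    linarith

end Pool.Agent.BP
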