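import Mathlib
import Pool.Agent.Helpers.BQ2

set_option autoImplicit false

open MeasureTheory
open scoped ENNReal

namespace Pool.Agent.BP

open scoped RealInnerProductSpace

theorem norm_bound {x : HH} {c : ℝ} (hc : 0 ≤ c) (h : ∀ᵐ t ∂muI, |x t| ≤ c) : ‖x‖ ≤ c := by
  have h1 := Lp.norm_le_of_ae_bound (f := x) hc h
  have h2 : (measureUnivNNReal muI : ℝ) = 1 := by
    have : muI Set.univ = 1 := by
      rw [Measure.restrict_apply_univ, Real.volume_Icc]
      norm_num
    have h3 : measureUnivNNReal muI = 1 := by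
      rw [measureUnivNNReal, this]
      rfl
    rw [h3]
    rfl
  rw [h2] at h1
  simpa using h1

/-- step functions -/
noncomputable def stepf (n : ℕ) (c : Fin n → ℝ) (t : ℝ) : ℝ :=
  if h : ⌊(n : ℝ) * t⌋₊ < n then c ⟨⌊(n : ℝ) * t⌋₊, h⟩ else 0

theorem stepf_meas (n : ℕ) (c : Fin n → ℝ) : Measurable (stepf n c) := by
  have h1 : Measurable fun k : ℕ => (if h : k < n then c ⟨k, h⟩ else (0 : ℝ)) := measurable_from_top
  have h2 : Measurable fun t : ℝ => ⌊(n : ℝ) * t⌋₊ := Nat.measurable_floor.comp (by fun_prop)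
  exact h1.comp h2

theorem stepf_bound (n : ℕ) (c : Fin n → ℝ) (t : ℝ) : |stepf n c t| ≤ ‖c‖ := by
  unfold stepf
  split_ifs with h
  · exact norm_le_pi_norm c _
  · simp

theorem stepf_mem (n : ℕ) (c : Fin n → ℝ) : MemLp (stepf n c) 2 muI :=
  MemLp.of_bound (stepf_meas n c).aestronglyMeasurable ‖c‖
    (Filter.Eventually.of_forall fun t => stepf_bound n c t)

/-- step functions in the Hilbert space -/
noncomputable def Phi (n : ℕ) (c : Fin n → ℝ) : HH := (stepf_mem n c).toLp _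

theorem Phi_coe (n : ℕ) (c : Fin n → ℝ) : (Phi n c : ℝ → ℝ) =ᵐ[muI] stepf n c :=
  MemLp.coeFn_toLp _

theorem Phi_cont (n : ℕ) : Continuous (Phi n) := by
  have : LipschitzWith 1 (Phi n) := by
    apply LipschitzWith.of_dist_le_mul
    intro c c'
    rw [NNReal.coe_one, one_mul, dist_eq_norm, dist_eq_norm]
    apply norm_bound (norm_nonneg _)
    filter_upwards [Lp.coeFn_sub (Phi n c) (Phi n c'), Phi_coe n c, Phi_coe n c'] with t h1 h2 h3
    rw [h1, Pi.sub_apply, h2, h3]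
    have : stepf n c t - stepf n c' t = stepf n (c - c') t := by
      unfold stepf
      split_ifs
      · rfl
      · simp
    rw [this]
    exact stepf_bound n _ t
  exact this.continuous

/-- the Lipschitz class -/
def CL (k : ℕ) : Set HH := {x | ∃ f : ℝ → ℝ, (x : ℝ → ℝ) =ᵐ[muI] f ∧
  (∀ s ∈ Set.Icc (0 : ℝ) 1, |f s| ≤ k) ∧
  ∀ s ∈ Set.Icc (0 : ℝ) 1, ∀ t ∈ Set.Icc (0 : ℝ) 1, |f s - f t| ≤ k * |s - t|}

theorem CL_tb (k : ℕ) : TotallyBounded (CL k) := by
  rw [Metric.totallyBounded_iff]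
  intro ε hε
  obtain ⟨n, hn⟩ := exists_nat_gt (2 * (k : ℝ) / ε)
  have hn0 : (0 : ℝ) < n := lt_of_le_of_lt (by positivity) hn
  have hn0' : 0 < n := by exact_mod_cast hn0
  have hkn : (k : ℝ) / n < ε / 2 := by
    rw [div_lt_iff₀ hε] at hn
    rw [div_lt_div_iff₀ hn0 (by norm_num)]
    linarith
  have hK : IsCompact (Phi n '' (Metric.closedBall (0 : Fin n → ℝ) k)) :=
    (isCompact_closedBall _ _).image (Phi_cont n)
  obtain ⟨T, hTf, hT⟩ := Metric.totallyBounded_iff.1 hK.totallyBounded (ε / 2) (by positivity)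
  refine ⟨T, hTf, ?_⟩
  rintro x ⟨f, hxf, hf1, hf2⟩
  let c : Fin n → ℝ := fun i => f ((i : ℕ) / (n : ℝ))
  have hin : ∀ i : Fin n, ((i : ℕ) : ℝ) / (n : ℝ) ∈ Set.Icc (0 : ℝ) 1 := by
    intro i
    constructor
    · positivity
    · rw [div_le_one hn0]
      exact_mod_cast i.2.le
  have hc : c ∈ Metric.closedBall (0 : Fin n → ℝ) k := by
    rw [mem_closedBall_zero_iff, pi_norm_le_iff_of_nonneg (Nat.cast_nonneg k)]
    intro i
    exact hf1 _ (hin i)
  obtain ⟨y, hy, hy2⟩ := Set.mem_iUnion₂.1 (hT ⟨c, hc, rfl⟩)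
  refine Set.mem_iUnion₂.2 ⟨y, hy, ?_⟩
  rw [Metric.mem_ball] at hy2 ⊢
  have hd : dist x (Phi n c) ≤ k / n := by
    rw [dist_eq_norm]
    apply norm_bound (by positivity)
    have h5 : ∀ᵐ t ∂muI, t ∈ Set.Icc (0 : ℝ) 1 := ae_restrict_mem measurableSet_Icc
    have h6 : ∀ᵐ t ∂muI, t ≠ 1 := by
      apply ae_restrict_of_ae
      exact Measure.ae_ne volume 1
    filter_upwards [Lp.coeFn_sub x (Phi n c), Phi_coe n c, hxf, h5, h6] with t h1 h2 h3 h4 h7
    rw [h1, Pi.sub_apply, h2, h3]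
    have ht1 : t < 1 := lt_of_le_of_ne h4.2 h7
    have hnt : 0 ≤ (n : ℝ) * t := mul_nonneg hn0.le h4.1
    have hfl : ⌊(n : ℝ) * t⌋₊ < n := by
      rw [Nat.floor_lt hnt]
      nlinarith
    unfold stepf
    rw [dif_pos hfl]
    have h8 := hf2 t h4 _ (hin ⟨⌊(n : ℝ) * t⌋₊, hfl⟩)
    refine h8.trans ?_
    have h9 := Nat.floor_le hnt
    have h10 := Nat.lt_floor_add_one ((n : ℝ) * t)
    have h11 : |t - ((⌊(n : ℝ) * t⌋₊ : ℕ) : ℝ) / n| ≤ 1 / n := by
      rw [abs_le]
      constructor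
      · have : ((⌊(n : ℝ) * t⌋₊ : ℕ) : ℝ) / n ≤ t := by rw [div_le_iff₀ hn0]; linarith
        have h12 : (0 : ℝ) ≤ 1 / n := by positivity
        linarith
      · rw [sub_le_iff_le_add, ← add_div, le_div_iff₀ hn0]
        linarith
    calc (k : ℝ) * |t - ((⌊(n : ℝ) * t⌋₊ : ℕ) : ℝ) / n| ≤ k * (1 / n) := by gcongr
      _ = k / n := by ring
  calc dist x y ≤ dist x (Phi n c) + dist (Phi n c) y := dist_triangle _ _ _
    _ < ε := by linarith

/-- the classes treated at the stages -/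
def CC (k : ℕ) : Set HH := CL k ∩ {x | ((1 / 2 : ℝ) ^ k) ^ 2 ≤ ∫ t in Set.Ioc (aa (k + 1)) (aa k), x t ^ 2 ∂muI}

/-- one step -/
def Step2 (k : ℕ) (l l' : List HH) : Prop :=
  ∃ (b : List HH) (B : Set ℝ), l' = l ++ b ∧ b ≠ [] ∧ muI B ≤ ENNReal.ofReal ((1 / 2) ^ k) ∧
    (∀ p ∈ Polynomial.degreeLT ℝ (k + 1), PL (aa (k + 1)) p ∈ sp l') ∧
    ∀ᵐ t ∂muI, aa (k + 1) < t → t ∉ B → ∀ x ∈ CC k,
      ∃ b2, b2 <:+: b ∧ 1 ≤ |ev x b2 t|

theorem exists_step2 (k : ℕ) (l : List HH) (h : PP k l) : ∃ l', PP (k + 1) l' ∧ Step2 k l l' := by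
  obtain ⟨b, B, m1, on1, l1, q1, hne, s1, e1⟩ := stage2 (aa_pos (k + 1)) (aa_lt k) (aa_le k) (k + 1)
    (by omega) (sp l) (sp_le h.2) (ε := (1 / 2) ^ k) (by positivity) (CC k)
    ((CL_tb k).subset Set.inter_subset_left) (δ := (1 / 2) ^ k) (by positivity) (fun x hx => hx.2)
  refine ⟨l ++ b, ⟨⟨?_, ?_⟩, ?_⟩, b, B, rfl, hne, m1, ?_, e1⟩
  · rw [List.pairwise_append]
    refine ⟨h.1.1, on1.1, fun x hx y hy => ?_⟩
    rw [real_inner_comm]
    exact q1 y hy x (mem_sp hx)
  · intro x hx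
    rcases List.mem_append.1 hx with hx | hx
    · exact h.1.2 x hx
    · exact on1.2 x hx
  · intro x hx
    rcases List.mem_append.1 hx with hx | hx
    · exact LA_mono (aa_lt k).le (h.2 x hx)
    · exact l1 x hx
  · intro p hp
    have hle : sp l ⊔ sp b ≤ sp (l ++ b) := sup_le
      (sp_mono fun x hx => List.mem_append.2 (Or.inl hx))
      (sp_mono fun x hx => List.mem_append.2 (Or.inr hx))
    exact hle (s1 p hp)

theorem exists_seq2 : ∃ l : ℕ → List HH, (∀ k, PP k (l k)) ∧ ∀ k, Step2 k (l k) (l (k + 1)) := by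
  choose F hF1 hF2 using exists_step2
  let s : (k : ℕ) → {l : List HH // PP k l} := fun k =>
    Nat.rec ⟨[], ⟨List.Pairwise.nil, by simp⟩, by simp⟩ (fun k x => ⟨F k x.1 x.2, hF1 k x.1 x.2⟩) k
  exact ⟨fun k => (s k).1, fun k => (s k).2, fun k => hF2 k (s k).1 (s k).2⟩

theorem exists_phi2 : ∃ (l : ℕ → List HH) (φ : ℕ → HH), (∀ k, PP k (l k)) ∧
    (∀ k, Step2 k (l k) (l (k + 1))) ∧ (∀ k, k ≤ (l k).length) ∧
    ∀ k, l k = (List.range (l k).length).map φ := by
  obtain ⟨l, h1, h2⟩ := exists_seq2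
  have hpre : ∀ k m, k ≤ m → l k <+: l m := by
    intro k m hkm
    induction m, hkm using Nat.le_induction with
    | base => exact List.prefix_rfl
    | succ m _ ih =>
      obtain ⟨b, B, hb, _⟩ := h2 m
      exact ih.trans ⟨b, hb.symm⟩
  have hlen : ∀ k, k ≤ (l k).length := by
    intro k
    induction k with
    | zero => omega
    | succ k ih =>
      obtain ⟨b, B, hb, hne, _⟩ := h2 k
      rw [hb, List.length_append]
      have := List.length_pos_iff.2 hne
      omega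
  refine ⟨l, fun n => (l (n + 1)).getD n 0, h1, h2, hlen, fun k => ?_⟩
  apply List.ext_getElem
  · simp
  · intro i hi _
    rw [List.getElem_map, List.getElem_range]
    have hi' : i < (l (i + 1)).length := hlen (i + 1)
    have e1 : (l (i + 1)).getD i 0 = (l (i + 1))[i] := List.getD_eq_getElem _ _ hi'
    rw [e1]
    have p1 := hpre k (max k (i + 1)) (le_max_left _ _)
    have p2 := hpre (i + 1) (max k (i + 1)) (le_max_right _ _)
    rw [p1.getElem hi, p2.getElem hi']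

theorem main2 : ∃ φ : ℕ → HH, (∀ i j, ⟪φ i, φ j⟫ = if i = j then 1 else 0) ∧
    (∀ x : HH, (∀ n, ⟪x, φ n⟫ = 0) → x = 0) ∧
    ∀ x : HH, (∀ᶠ k in Filter.atTop, x ∈ CC k) → ∀ᵐ t ∂muI, ¬ ∃ L : ℝ, Filter.Tendsto
      (fun N : ℕ => ∑ n ∈ Finset.range N, ⟪x, φ n⟫ * φ n t) Filter.atTop (nhds L) := by
  obtain ⟨l, φ, h1, h2, hlen, hseg⟩ := exists_phi2
  have horth : ∀ i j, i < j → ⟪φ i, φ j⟫ = 0 := by
    intro i j hij
    have h3 := (h1 (j + 1)).1.1
    rw [hseg (j + 1), List.pairwise_map] at h3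
    have h4 := (List.pairwise_iff_getElem.1 h3) i j (by
      rw [List.length_range]
      have := hlen (j + 1)
      omega) (by
      rw [List.length_range]
      have := hlen (j + 1)
      omega) hij
    simpa using h4
  have hmem : ∀ i, φ i ∈ l (i + 1) := by
    intro i
    rw [hseg (i + 1), List.mem_map]
    refine ⟨i, ?_, rfl⟩
    rw [List.mem_range]
    have := hlen (i + 1)
    omega
  refine ⟨φ, ?_, ?_, ?_⟩
  · intro i j
    rcases lt_trichotomy i j with h | h | h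
    · rw [horth i j h, if_neg h.ne]
    · subst h
      rw [if_pos rfl, real_inner_self_eq_norm_sq, (h1 (i + 1)).1.2 _ (hmem i), one_pow]
    · rw [real_inner_comm, horth j i h, if_neg h.ne']
  · intro x hx
    apply cont_zero
    intro p
    apply complete_aux
    filter_upwards [Filter.eventually_ge_atTop p.natDegree] with k hk
    obtain ⟨b, B, _, _, _, hs, _⟩ := h2 k
    have h3 := hs p (mem_deg p hk)
    have h4 : sp (l (k + 1)) ≤ (Submodule.span ℝ {x})ᗮ := by
      apply sp_le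
      intro y hy
      rw [Submodule.mem_orthogonal_singleton_iff_inner_right]
      rw [hseg (k + 1), List.mem_map] at hy
      obtain ⟨i, _, rfl⟩ := hy
      exact hx i
    have h5 := h4 h3
    rw [Submodule.mem_orthogonal_singleton_iff_inner_right] at h5
    exact h5
  · intro p hp
    choose b B hb hne hB hs hosc using h2
    have hsum : ∑' k, muI (B k) ≠ ∞ := by
      have h3 : ∑' k, muI (B k) ≤ ∑' k : ℕ, ENNReal.ofReal ((1 / 2) ^ k) := ENNReal.tsum_le_tsum hB
      refine ne_top_of_le_ne_top ?_ h3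
      rw [← ENNReal.ofReal_tsum_of_nonneg (fun k => by positivity) summable_geometric_two]
      exact ENNReal.ofReal_ne_top
    have hbc := ae_eventually_notMem hsum
    have hpos : ∀ᵐ t ∂muI, 0 < t := by
      have h1 : ∀ᵐ t ∂muI, t ∈ Set.Icc (0 : ℝ) 1 := ae_restrict_mem measurableSet_Icc
      have h2 : ∀ᵐ t ∂muI, t ≠ 0 := by
        apply ae_restrict_of_ae
        exact Measure.ae_ne volume 0
      filter_upwards [h1, h2] with t h3 h4
      exact lt_of_le_of_ne h3.1 (Ne.symm h4)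
    filter_upwards [hbc, hpos, ae_all_iff.2 hosc] with t f1 f2 f3
    rintro ⟨L, hL⟩
    have hcau := Metric.cauchySeq_iff.1 hL.cauchySeq 1 one_pos
    obtain ⟨N0, hN0⟩ := hcau
    have hlim := (aa_lim.comp (Filter.tendsto_add_atTop_nat 1)).eventually (gt_mem_nhds f2)
    obtain ⟨k, hk1, hk2, hk3, hk4⟩ := (f1.and (hlim.and ((Filter.eventually_ge_atTop N0).and hp))).exists
    obtain ⟨b2, ⟨s, e, hse⟩, hosc2⟩ := f3 k hk2 hk1 p hk4
    have e0 : l (k + 1) = (l k ++ s) ++ (b2 ++ e) := by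
      rw [hb k, ← hse]
      simp only [List.append_assoc]
    have e0' : l (k + 1) = (l k ++ s ++ b2) ++ e := by
      rw [hb k, ← hse]
      simp only [List.append_assoc]
    have s1 := seg_of_append (φ := φ) (e0.symm.trans (hseg (k + 1)))
    have s2 := seg_of_append (φ := φ) (e0'.symm.trans (hseg (k + 1)))
    have v1 : ∑ n ∈ Finset.range (l k ++ s).length, ⟪p, φ n⟫ * φ n t = ev p (l k ++ s) t := by
      rw [← ev_range, ← s1]
    have v2 : ∑ n ∈ Finset.range (l k ++ s ++ b2).length, ⟪p, φ n⟫ * φ n t =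
        ev p (l k ++ s ++ b2) t := by
      rw [← ev_range, ← s2]
    have g1 : N0 ≤ (l k ++ s).length := by
      rw [List.length_append]
      have := hlen k
      omega
    have g2 : N0 ≤ (l k ++ s ++ b2).length := by
      rw [List.length_append]
      omega
    have := hN0 _ g2 _ g1
    rw [Real.dist_eq, v1, v2, ev_append, add_sub_cancel_left] at this
    linarith

end Pool.Agent.BP
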