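import Mathlib
import Pool.Agent.Helpers.BQ3

set_option autoImplicit false

open MeasureTheory
open scoped ENNReal

namespace Pool.Agent.BP

open scoped RealInnerProductSpace

/-- a function with a power lower bound near zero is eventually in the classes -/
theorem mem_CC {x : HH} {f : ℝ → ℝ} (hxf : (x : ℝ → ℝ) =ᵐ[muI] f) {C : ℝ}
    (hb : ∀ s ∈ Set.Icc (0 : ℝ) 1, |f s| ≤ C)
    (hl : ∀ s ∈ Set.Icc (0 : ℝ) 1, ∀ t ∈ Set.Icc (0 : ℝ) 1, |f s - f t| ≤ C * |s - t|)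
    {c r : ℝ} (hc : 0 < c) (hr : 0 < r) {n : ℕ} (hlow : ∀ t, 0 < t → t < r → c * t ^ n ≤ |f t|) :
    ∀ᶠ k in Filter.atTop, x ∈ CC k := by
  have h1 : ∀ᶠ k : ℕ in Filter.atTop, C ≤ k := by
    obtain ⟨N, hN⟩ := exists_nat_ge C
    filter_upwards [Filter.eventually_ge_atTop N] with k hk
    exact hN.trans (by exact_mod_cast hk)
  have h2 : ∀ᶠ k : ℕ in Filter.atTop, aa k < r := aa_lim.eventually (gt_mem_nhds hr)
  have h3 : ∀ᶠ k : ℕ in Filter.atTop, ((k : ℝ) + 2) ^ (2 * n + 2) * ((1 / 2 : ℝ) ^ k) ^ 2 ≤ c ^ 2 := by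
    have t1 := tendsto_pow_const_mul_const_pow_of_abs_lt_one (2 * n + 2) (r := (1 / 4 : ℝ)) (by
      rw [abs_of_pos] <;> norm_num)
    have t2 := (t1.comp (Filter.tendsto_add_atTop_nat 2)).const_mul 16
    rw [mul_zero] at t2
    have t3 := t2.eventually (gt_mem_nhds (show 0 < c ^ 2 by positivity))
    filter_upwards [t3] with k hk
    simp only [Function.comp_apply] at hk
    have e1 : ((1 / 2 : ℝ) ^ k) ^ 2 = (1 / 4) ^ k := by
      rw [← pow_mul, mul_comm, pow_mul]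
      norm_num
    rw [e1]
    have e2 : (16 : ℝ) * (((k + 2 : ℕ) : ℝ) ^ (2 * n + 2) * (1 / 4) ^ (k + 2)) =
        ((k : ℝ) + 2) ^ (2 * n + 2) * (1 / 4) ^ k := by
      push_cast
      rw [pow_add (1 / 4 : ℝ) k 2]
      ring
    rw [e2] at hk
    exact hk.le
  filter_upwards [h1, h2, h3] with k g1 g2 g3
  refine ⟨⟨f, hxf, fun s hs => (hb s hs).trans g1, fun s hs t ht => (hl s hs t ht).trans ?_⟩, ?_⟩
  · exact mul_le_mul_of_nonneg_right g1 (abs_nonneg _)
  · show ((1 / 2 : ℝ) ^ k) ^ 2 ≤ ∫ t in Set.Ioc (aa (k + 1)) (aa k), x t ^ 2 ∂muI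
    have hpos := aa_pos (k + 1)
    have hlt := aa_lt k
    have hle := aa_le k
    have hsub : Set.Ioc (aa (k + 1)) (aa k) ⊆ Set.Icc (0 : ℝ) 1 := fun t ht =>
      ⟨hpos.le.trans ht.1.le, ht.2.trans hle⟩
    have hvol : muI.real (Set.Ioc (aa (k + 1)) (aa k)) = aa k - aa (k + 1) := by
      rw [measureReal_def, Measure.restrict_apply measurableSet_Ioc, Set.inter_eq_left.2 hsub,
        Real.volume_Ioc, ENNReal.toReal_ofReal (by linarith)]
    have hconst : ∫ _t in Set.Ioc (aa (k + 1)) (aa k), (c * aa (k + 1) ^ n) ^ 2 ∂muI ≤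
        ∫ t in Set.Ioc (aa (k + 1)) (aa k), x t ^ 2 ∂muI := by
      apply setIntegral_mono_on_ae
      · exact integrableOn_const (measure_ne_top _ _)
      · exact (Lp.memLp x).integrable_sq.integrableOn
      · exact measurableSet_Ioc
      · filter_upwards [hxf] with t ht ht2
        rw [ht, ← sq_abs (f t)]
        have h5 : c * aa (k + 1) ^ n ≤ |f t| := by
          refine le_trans ?_ (hlow t (hpos.trans ht2.1) (lt_of_le_of_lt ht2.2 g2))
          have := ht2.1.le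
          gcongr
        exact pow_le_pow_left₀ (by positivity) h5 2
    refine le_trans ?_ hconst
    rw [setIntegral_const, hvol, smul_eq_mul]
    have e3 : aa k - aa (k + 1) = 1 / (((k : ℝ) + 1) * ((k : ℝ) + 2)) := by
      unfold aa
      push_cast
      field_simp
      ring
    have e4 : aa (k + 1) = 1 / ((k : ℝ) + 2) := by
      unfold aa
      push_cast
      congr 1
      ring
    rw [e3, e4]
    have hk0 : (0 : ℝ) ≤ k := Nat.cast_nonneg k
    have e5 : 1 / (((k : ℝ) + 1) * ((k : ℝ) + 2)) * (c * (1 / ((k : ℝ) + 2)) ^ n) ^ 2 =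
        c ^ 2 / ((((k : ℝ) + 1) * ((k : ℝ) + 2)) * ((k : ℝ) + 2) ^ (2 * n)) := by
      rw [one_div_pow, mul_comm 2 n, pow_mul]
      field_simp
    rw [e5, le_div_iff₀ (by positivity)]
    refine le_trans ?_ g3
    have e6 : ((k : ℝ) + 2) ^ (2 * n + 2) = (((k : ℝ) + 2) * ((k : ℝ) + 2)) * ((k : ℝ) + 2) ^ (2 * n) := by ring
    rw [e6, mul_comm]
    gcongr
    linarith

theorem analytic_main {f : ℝ → ℝ} (hf : AnalyticOnNhd ℝ f (Set.Icc (0 : ℝ) 1))
    (hne : ∃ x ∈ Set.Icc (0 : ℝ) 1, f x ≠ 0) {x : HH} (hxf : (x : ℝ → ℝ) =ᵐ[muI] f) :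
    ∀ᶠ k in Filter.atTop, x ∈ CC k := by
  -- bounds
  obtain ⟨C1, hC1⟩ := isCompact_Icc.exists_bound_of_continuousOn hf.continuousOn
  obtain ⟨C2, hC2⟩ := isCompact_Icc.exists_bound_of_continuousOn hf.deriv.continuousOn
  have hC2' : 0 ≤ C2 := (norm_nonneg _).trans (hC2 0 (by norm_num))
  have hlip : ∀ s ∈ Set.Icc (0 : ℝ) 1, ∀ t ∈ Set.Icc (0 : ℝ) 1, |f s - f t| ≤ C2 * |s - t| := by
    intro s hs t ht
    have := (convex_Icc (0 : ℝ) 1).norm_image_sub_le_of_norm_deriv_le (f := f) (C := C2)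
      (fun y hy => (hf y hy).differentiableAt) hC2 ht hs
    simpa [Real.norm_eq_abs] using this
  -- lower bound near zero
  have h0 : (0 : ℝ) ∈ Set.Icc (0 : ℝ) 1 := by norm_num
  have hnz : ¬ ∀ᶠ z in nhds (0 : ℝ), f z = 0 := by
    intro h
    obtain ⟨y, hy, hy2⟩ := hne
    have := hf.eqOn_zero_of_preconnected_of_eventuallyEq_zero isPreconnected_Icc h0 h
    exact hy2 (this hy)
  obtain ⟨n, g, hg, hg0, hfg⟩ := (hf 0 h0).exists_eventuallyEq_pow_smul_nonzero_iff.2 hnz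
  have hgc : ∀ᶠ z in nhds (0 : ℝ), |g 0| / 2 < |g z| := by
    have h1 : Filter.Tendsto (fun z => |g z|) (nhds 0) (nhds |g 0|) := hg.continuousAt.abs
    exact h1.eventually (lt_mem_nhds (by have := abs_pos.2 hg0; linarith))
  obtain ⟨r, hr, hball⟩ := Metric.eventually_nhds_iff_ball.1 (hfg.and hgc)
  have hC : 0 < |g 0| / 2 := by have := abs_pos.2 hg0; linarith
  refine mem_CC hxf (C := max C1 C2) (fun s hs => (hC1 s hs).trans (le_max_left _ _))
    (fun s hs t ht => (hlip s hs t ht).trans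
      (mul_le_mul_of_nonneg_right (le_max_right _ _) (abs_nonneg _))) hC hr (n := n) ?_
  intro t ht1 ht2
  obtain ⟨e1, e2⟩ := hball t (by rw [Metric.mem_ball, dist_zero_right, Real.norm_eq_abs, abs_of_pos ht1]; exact ht2)
  rw [e1, sub_zero, smul_eq_mul, abs_mul, abs_pow, abs_of_pos ht1, mul_comm]
  exact mul_le_mul_of_nonneg_left e2.le (by positivity)

theorem analytic_memLp {f : ℝ → ℝ} (hf : ContinuousOn f (Set.Icc (0 : ℝ) 1)) : MemLp f 2 muI := by
  obtain ⟨C1, hC1⟩ := isCompact_Icc.exists_bound_of_continuousOn hf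
  refine MemLp.of_bound (hf.aestronglyMeasurable measurableSet_Icc) C1 ?_
  have h1 : ∀ᵐ t ∂muI, t ∈ Set.Icc (0 : ℝ) 1 := ae_restrict_mem measurableSet_Icc
  filter_upwards [h1] with t ht
  exact hC1 t ht

end Pool.Agent.BP
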