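import Mathlib

set_option autoImplicit false

namespace Pool.Agent.H12.Berge

/-- the orientation: bit `11 u + v` is set iff there is an arc from `u` to `v` -/
def DM : ℕ := 653212682416856884888200288404516

def Db (u v : ℕ) : Bool := Nat.testBit DM (11 * u + v)
def Ab (u v : ℕ) : Bool := Db u v || Db v u

def Gr : SimpleGraph (Fin 11) where
  Adj u v := Ab u.val v.val = true
  symm := ⟨by decide +kernel⟩
  loopless := ⟨by decide +kernel⟩

/-- is colour `x` allowed for vertex `v`, given the list of colours of `i-1, ..., 0` -/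
def okx (v x : ℕ) : ℕ → List ℕ → Bool
  | _, [] => true
  | 0, _ :: _ => true
  | i + 1, y :: l => (!(Ab i v) || !(Nat.beq y x)) && okx v x i l

def cands (v : ℕ) (l : List ℕ) : ℕ → List (List ℕ)
  | 0 => []
  | k + 1 => if okx v k v l then (k :: l) :: cands v l k else cands v l k

/-- all proper colourings of the vertices `0, ..., m-1` with colours `< k` (reversed lists) -/
def cols (k : ℕ) : ℕ → List (List ℕ)
  | 0 => [[]]
  | m + 1 => (cols k m).flatMap (fun l => cands m l k)

def revl (c : ℕ → ℕ) : ℕ → List ℕ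
  | 0 => []
  | m + 1 => c m :: revl c m

theorem okx_of (c : ℕ → ℕ) (v : ℕ) : ∀ i : ℕ, (∀ u < i, Ab u v = true → c u ≠ c v) →
    okx v (c v) i (revl c i) = true := by
  intro i
  induction i with
  | zero => intro _; rfl
  | succ i ih =>
    intro h
    have h1 := ih (fun u hu => h u (by omega))
    have h2 := h i (by omega)
    show ((!(Ab i v) || !(Nat.beq (c i) (c v))) && okx v (c v) i (revl c i)) = true
    rw [h1, Bool.and_true]
    cases hA : Ab i v with
    | false => rfl
    | true =>
      have h3 := h2 hA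
      have h4 : Nat.beq (c i) (c v) = false := by
        cases hb : Nat.beq (c i) (c v) with
        | false => rfl
        | true => exact absurd (Nat.eq_of_beq_eq_true hb) h3
      rw [h4]
      rfl

theorem cands_mem (v : ℕ) (l : List ℕ) (x : ℕ) (hok : okx v x v l = true) :
    ∀ k : ℕ, x < k → (x :: l) ∈ cands v l k := by
  intro k
  induction k with
  | zero => intro h; omega
  | succ k ih =>
    intro h
    unfold cands
    rcases Nat.lt_succ_iff_lt_or_eq.1 h with h1 | h1
    · split_ifs
      · exact List.mem_cons_of_mem _ (ih h1)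
      · exact ih h1
    · subst h1
      rw [if_pos hok]
      exact List.mem_cons_self

theorem cols_mem (k : ℕ) (c : ℕ → ℕ) (hk : ∀ i, c i < k)
    (hp : ∀ u v, u < v → v < 11 → Ab u v = true → c u ≠ c v) :
    ∀ m : ℕ, m ≤ 11 → revl c m ∈ cols k m := by
  intro m
  induction m with
  | zero => intro _; exact List.mem_singleton.2 rfl
  | succ m ih =>
    intro hm
    have h1 := ih (by omega)
    show c m :: revl c m ∈ (cols k m).flatMap (fun l => cands m l k)
    rw [List.mem_flatMap]
    refine ⟨revl c m, h1, ?_⟩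
    apply cands_mem
    · exact okx_of c m m (fun u hu => hp u m hu (by omega))
    · exact hk m

theorem no3 : (cols 3 11).length = 0 := by decide +kernel

def getc (l : List ℕ) (i : ℕ) : ℕ := l.getD (10 - i) 0

theorem getc_revl (c : ℕ → ℕ) (i : ℕ) (hi : i < 11) : getc (revl c 11) i = c i := by
  interval_cases i <;> rfl

/-- some two of the four colours agree -/
def rep (a b c d : ℕ) : Bool :=
  Nat.beq a b || Nat.beq a c || Nat.beq a d || Nat.beq b c || Nat.beq b d || Nat.beq c d

def allN (f : ℕ → Bool) : ℕ → Bool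
  | 0 => true
  | n + 1 => f n && allN f n

theorem allN_spec (f : ℕ → Bool) : ∀ n : ℕ, allN f n = true → ∀ i < n, f i = true := by
  intro n
  induction n with
  | zero => intro _ i hi; omega
  | succ n ih =>
    intro h i hi
    simp only [allN, Bool.and_eq_true] at h
    rcases Nat.lt_succ_iff_lt_or_eq.1 hi with h1 | h1
    · exact ih h.2 i h1
    · subst h1; exact h.1

def chk (l : List ℕ) : Bool :=
  allN (fun a => allN (fun b => !(Db a b) || allN (fun c => !(Db b c) ||
    allN (fun d => !(Db c d) || rep (getc l a) (getc l b) (getc l c) (getc l d)) 11) 11) 11) 11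

def chkAll : List (List ℕ) → Bool
  | [] => true
  | l :: L => chk l && chkAll L

theorem chkAll_spec (L : List (List ℕ)) (h : chkAll L = true) : ∀ l ∈ L, chk l = true := by
  induction L with
  | nil => intro l hl; simp at hl
  | cons l0 L ih =>
    simp only [chkAll, Bool.and_eq_true] at h
    intro l hl
    rcases List.mem_cons.1 hl with h1 | h1
    · rw [h1]; exact h.1
    · exact ih h.2 l h1

theorem chk4 : chkAll (cols 4 11) = true := by decide +kernel

theorem Db_lt : ∀ u v : Fin 11, Db u.val v.val = true → Ab u.val v.val = true := by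
  intro u v h
  unfold Ab
  rw [h]
  rfl

theorem orient : ∀ u v : Fin 11, Ab u.val v.val = true →
    (Db u.val v.val = true ↔ ¬ Db v.val u.val = true) := by decide +kernel

def ext {k : ℕ} (c : Fin 11 → Fin (k + 1)) (i : ℕ) : ℕ :=
  if h : i < 11 then (c ⟨i, h⟩).val else 0

theorem ext_lt {k : ℕ} (c : Fin 11 → Fin (k + 1)) (i : ℕ) : ext c i < k + 1 := by
  unfold ext
  split_ifs
  · exact (c _).isLt
  · omega

theorem ext_eq {k : ℕ} (c : Fin 11 → Fin (k + 1)) (i : Fin 11) : ext c i.val = (c i).val := by
  unfold ext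
  rw [dif_pos i.isLt]

theorem ext_proper {k : ℕ} (c : Gr.Coloring (Fin (k + 1))) (u v : ℕ) (huv : u < v) (hv : v < 11)
    (h : Ab u v = true) : ext c u ≠ ext c v := by
  have h1 : c ⟨u, by omega⟩ ≠ c ⟨v, hv⟩ := c.valid (show Gr.Adj ⟨u, by omega⟩ ⟨v, hv⟩ from h)
  intro h2
  apply h1
  apply Fin.ext
  have e1 := ext_eq c ⟨u, by omega⟩
  have e2 := ext_eq c ⟨v, hv⟩
  rw [← e1, ← e2]
  exact h2

theorem not3 : ¬ Gr.Colorable 3 := by
  rintro ⟨c⟩
  have h := cols_mem 3 (ext c) (ext_lt c) (ext_proper c) 11 (le_refl _)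
  have h3 := no3
  rw [List.length_eq_zero_iff] at h3
  rw [h3] at h
  simp at h

def colN (i : ℕ) : ℕ := (3734096 >>> (2 * i)) % 4

theorem col4 : Gr.Colorable 4 := by
  have h : ∀ u v : Fin 11, Ab u.val v.val = true →
      (⟨colN u.val, Nat.mod_lt _ (by norm_num)⟩ : Fin 4) ≠
        ⟨colN v.val, Nat.mod_lt _ (by norm_num)⟩ := by
    decide +kernel
  exact ⟨SimpleGraph.Coloring.mk (fun u => (⟨colN u.val, Nat.mod_lt _ (by norm_num)⟩ : Fin 4))
    (fun {u v} huv => h u v huv)⟩

theorem chrom : Gr.chromaticNumber = 4 := by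
  apply le_antisymm
  · exact_mod_cast col4.chromaticNumber_le
  · by_contra hlt
    push Not at hlt
    have h1 : Gr.chromaticNumber ≤ 3 := by
      have h2 : Gr.chromaticNumber < (3 : ℕ∞) + 1 := by
        have : (3 : ℕ∞) + 1 = 4 := by norm_num
        rw [this]
        exact hlt
      exact ENat.lt_add_one_iff (by simp) |>.1 h2
    exact not3 (SimpleGraph.chromaticNumber_le_iff_colorable.1 (by exact_mod_cast h1))

theorem no_path (p : Fin 4 → Fin 11) (c : Gr.Coloring (Fin 4))
    (h : ∀ i : Fin 3, Db (p i.castSucc).val (p i.succ).val = true)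
    (hinj : Function.Injective (fun i => c (p i))) : False := by
  have hmem := cols_mem 4 (ext c) (ext_lt c) (ext_proper c) 11 (le_refl _)
  have hchk := chkAll_spec _ chk4 _ hmem
  have h0 := h 0
  have h1 := h 1
  have h2 := h 2
  have g0 : Db (p 0).val (p 1).val = true := h0
  have g1 : Db (p 1).val (p 2).val = true := h1
  have g2 : Db (p 2).val (p 3).val = true := h2
  have k1 := allN_spec _ _ (allN_spec _ _ hchk (p 0).val (p 0).isLt) (p 1).val (p 1).isLt
  simp only [g0, Bool.not_true, Bool.false_or] at k1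
  have k2 := allN_spec _ _ k1 (p 2).val (p 2).isLt
  simp only [g1, Bool.not_true, Bool.false_or] at k2
  have k3 := allN_spec _ _ k2 (p 3).val (p 3).isLt
  simp only [g2, Bool.not_true, Bool.false_or] at k3
  have e : ∀ i : Fin 4, getc (revl (ext c) 11) (p i).val = (c (p i)).val := by
    intro i
    rw [getc_revl _ _ (p i).isLt, ext_eq]
  rw [e 0, e 1, e 2, e 3] at k3
  have hne : ∀ i j : Fin 4, i ≠ j → (c (p i)).val ≠ (c (p j)).val := by
    intro i j hij h'
    exact hij (hinj (Fin.ext h'))
  simp only [rep, Bool.or_eq_true, Nat.beq_eq] at k3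
  rcases k3 with ((((h' | h') | h') | h') | h') | h'
  · exact hne 0 1 (by decide) h'
  · exact hne 0 2 (by decide) h'
  · exact hne 0 3 (by decide) h'
  · exact hne 1 2 (by decide) h'
  · exact hne 1 3 (by decide) h'
  · exact hne 2 3 (by decide) h'

end Pool.Agent.H12.Berge
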