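import Mathlib

set_option autoImplicit false

open MeasureTheory
open scoped ENNReal

namespace Pool.Agent.CM

/-- average marginals suffice -/
theorem avg {ι Ω : Type} [Fintype ι] [MeasurableSpace Ω] (P : Measure Ω) [IsProbabilityMeasure P]
    (T : ι → Ω → ℝ) (hT : ∀ i, Measurable (T i)) (μ : Measure ℝ) (n : ℕ)
    (hn : Fintype.card ι = n) (hn0 : 0 < n)
    (hsum : ∑ i, P.map (T i) = (n : ℝ≥0∞) • μ) (c : ℝ) (hc : ∀ᵐ ω ∂P, ∑ i, T i ω = c) :
    ∃ ν : Measure (Fin n → ℝ), IsProbabilityMeasure ν ∧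
      (∀ i : Fin n, ν.map (fun x => x i) = μ) ∧ ∃ c : ℝ, ∀ᵐ x ∂ν, ∑ i, x i = c := by
  classical
  have : NeZero n := ⟨hn0.ne'⟩
  let e : Fin n ≃ ι := (Fintype.equivFinOfCardEq hn).symm
  let Ts : Fin n → Ω → (Fin n → ℝ) := fun s ω i => T (e (i + s)) ω
  have hTs : ∀ s, Measurable (Ts s) := fun s => measurable_pi_iff.2 fun i => hT _
  let ν : Measure (Fin n → ℝ) := (n : ℝ≥0∞)⁻¹ • ∑ s : Fin n, P.map (Ts s)
  have hn1 : (n : ℝ≥0∞) ≠ 0 := by exact_mod_cast hn0.ne'
  have hn2 : (n : ℝ≥0∞) ≠ ⊤ := ENNReal.natCast_ne_top n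
  have hνA : ∀ A : Set (Fin n → ℝ), MeasurableSet A → ν A = (n : ℝ≥0∞)⁻¹ * ∑ s : Fin n, P (Ts s ⁻¹' A) := by
    intro A hA
    simp only [ν, Measure.smul_apply, Measure.finsetSum_apply, smul_eq_mul]
    congr 1
    exact Finset.sum_congr rfl fun s _ => Measure.map_apply (hTs s) hA
  have hprob : IsProbabilityMeasure ν := by
    constructor
    rw [hνA _ MeasurableSet.univ]
    simp only [Set.preimage_univ, measure_univ, Finset.sum_const, Finset.card_univ, Fintype.card_fin,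
      nsmul_eq_mul, mul_one]
    exact ENNReal.inv_mul_cancel hn1 hn2
  refine ⟨ν, hprob, ?_, c, ?_⟩
  · intro i
    ext A hA
    have hm : Measurable (fun x : Fin n → ℝ => x i) := measurable_pi_apply i
    rw [Measure.map_apply hm hA, hνA _ (hm hA)]
    have h1 : ∑ s : Fin n, P (Ts s ⁻¹' ((fun x : Fin n → ℝ => x i) ⁻¹' A)) = ∑ j : ι, P.map (T j) A := by
      have h2 : ∀ s : Fin n, P (Ts s ⁻¹' ((fun x : Fin n → ℝ => x i) ⁻¹' A)) = P.map (T (e (i + s))) A := by
        intro s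
        rw [Measure.map_apply (hT _) hA]
        rfl
      rw [Finset.sum_congr rfl (fun s _ => h2 s)]
      exact Equiv.sum_comp ((Equiv.addLeft i).trans e) (fun j => P.map (T j) A)
    rw [h1, ← Measure.finsetSum_apply, hsum, Measure.smul_apply, smul_eq_mul, ← mul_assoc,
      ENNReal.inv_mul_cancel hn1 hn2, one_mul]
  · have hA : MeasurableSet {x : Fin n → ℝ | ∑ i, x i = c} :=
      measurableSet_eq_fun (Finset.measurable_sum _ fun i _ => measurable_pi_apply i) measurable_const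
    rw [ae_iff]
    have hA' : MeasurableSet {x : Fin n → ℝ | ¬ ∑ i, x i = c} := hA.compl
    rw [hνA _ hA']
    have h3 : ∀ s : Fin n, P (Ts s ⁻¹' {x : Fin n → ℝ | ¬ ∑ i, x i = c}) = 0 := by
      intro s
      have : ∀ ω, ∑ i, Ts s ω i = ∑ j, T j ω := by
        intro ω
        exact Equiv.sum_comp ((Equiv.addRight s).trans e) (fun j => T j ω)
      have h4 : ∀ᵐ ω ∂P, ∑ i, Ts s ω i = c := by
        filter_upwards [hc] with ω hω
        rw [this, hω]
      exact ae_iff.1 h4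
    rw [Finset.sum_eq_zero (fun s _ => h3 s), mul_zero]

end Pool.Agent.CM
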