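import Mathlib

set_option autoImplicit false

open MeasureTheory
open scoped ENNReal

namespace Pool.Agent.CM

/-- uniform law on [-1,1] -/
noncomputable def UU : Measure ℝ := (2 : ℝ≥0∞)⁻¹ • volume.restrict (Set.Icc (-1) 1)

/-- uniform law on [0,1] -/
noncomputable def UI : Measure ℝ := volume.restrict (Set.Icc 0 1)

instance : IsProbabilityMeasure UU := by
  constructor
  rw [UU, Measure.smul_apply, Measure.restrict_apply_univ, Real.volume_Icc]
  norm_num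
  exact ENNReal.inv_mul_cancel (by norm_num) (by norm_num)

instance : IsProbabilityMeasure UI := by
  constructor
  rw [UI, Measure.restrict_apply_univ, Real.volume_Icc]
  norm_num

theorem lint_UU (f : ℝ → ℝ≥0∞) : ∫⁻ y, f y ∂UU = (2 : ℝ≥0∞)⁻¹ * ∫⁻ y in Set.Icc (-1) 1, f y := by
  rw [UU, lintegral_smul_measure, smul_eq_mul]

/-- splitting an interval -/
theorem split (f : ℝ → ℝ≥0∞) {a b c : ℝ} (hab : a ≤ b) (hbc : b ≤ c) :
    ∫⁻ y in Set.Icc a c, f y = (∫⁻ y in Set.Ioo a b, f y) + ∫⁻ y in Set.Ioo b c, f y := by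
  have h1 : ∫⁻ y in Set.Ioo a b, f y = ∫⁻ y in Set.Icc a b, f y :=
    setLIntegral_congr Ioo_ae_eq_Icc
  have h2 : ∫⁻ y in Set.Ioo b c, f y = ∫⁻ y in Set.Ioc b c, f y :=
    setLIntegral_congr Ioo_ae_eq_Ioc
  rw [h1, h2, ← Set.Icc_union_Ioc_eq_Icc hab hbc]
  apply lintegral_union measurableSet_Ioc
  rw [Set.disjoint_left]
  intro x hx hx'
  exact absurd hx.2 (not_le.2 hx'.1)

/-- reflection of an interval -/
theorem refl_Ioo (f : ℝ → ℝ≥0∞) (a b : ℝ) :
    ∫⁻ y in Set.Ioo a b, f (a + b - y) = ∫⁻ y in Set.Ioo a b, f y := by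
  rw [← lintegral_indicator measurableSet_Ioo, ← lintegral_indicator measurableSet_Ioo,
    ← lintegral_sub_left_eq_self (fun y => (Set.Ioo a b).indicator f y) (a + b)]
  refine lintegral_congr fun y => ?_
  by_cases hy : y ∈ Set.Ioo a b
  · have hy' : a + b - y ∈ Set.Ioo a b := ⟨by linarith [hy.2], by linarith [hy.1]⟩
    rw [Set.indicator_of_mem hy, Set.indicator_of_mem hy']
  · have hy' : a + b - y ∉ Set.Ioo a b := by
      intro h; apply hy; exact ⟨by linarith [h.2], by linarith [h.1]⟩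
    rw [Set.indicator_of_notMem hy, Set.indicator_of_notMem hy']

/-- second variable -/
noncomputable def s2 (v y : ℝ) : ℝ := if y ≤ -v then -1 - v - y else 1 - v - y

/-- sign -/
noncomputable def sg (v y : ℝ) : ℝ := if y ≤ -v then 1 else -1

theorem sg_eq (v y : ℝ) : v + y + s2 v y = - sg v y := by
  unfold s2 sg
  split_ifs <;> ring

theorem s2_law (f : ℝ → ℝ≥0∞) {v : ℝ} (h1 : -1 ≤ v) (h2 : v ≤ 1) :
    ∫⁻ y, f (s2 v y) ∂UU = ∫⁻ y, f y ∂UU := by
  rw [lint_UU, lint_UU, split _ (show -1 ≤ -v by linarith) (show -v ≤ 1 by linarith),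
    split f (show -1 ≤ -v by linarith) (show -v ≤ 1 by linarith)]
  congr 2
  · rw [← refl_Ioo f (-1) (-v)]
    refine setLIntegral_congr_fun measurableSet_Ioo fun y hy => ?_
    show f (s2 v y) = _
    rw [s2, if_pos hy.2.le]
    congr 1
  · rw [← refl_Ioo f (-v) 1]
    refine setLIntegral_congr_fun measurableSet_Ioo fun y hy => ?_
    show f (s2 v y) = _
    rw [s2, if_neg (not_le.2 hy.1)]
    congr 1
    ring

/-- law of the sign given v -/
theorem sg_law (g : ℝ → ℝ≥0∞) {v : ℝ} (h1 : -1 ≤ v) (h2 : v ≤ 1) :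
    ∫⁻ y, g (sg v y) ∂UU = ENNReal.ofReal ((1 - v) / 2) * g 1 + ENNReal.ofReal ((1 + v) / 2) * g (-1) := by
  rw [lint_UU, split _ (show -1 ≤ -v by linarith) (show -v ≤ 1 by linarith)]
  have e1 : ∫⁻ y in Set.Ioo (-1) (-v), g (sg v y) = ∫⁻ y in Set.Ioo (-1) (-v), g 1 := by
    refine setLIntegral_congr_fun measurableSet_Ioo fun y hy => ?_
    show g (sg v y) = _
    rw [sg, if_pos hy.2.le]
  have e2 : ∫⁻ y in Set.Ioo (-v) 1, g (sg v y) = ∫⁻ y in Set.Ioo (-v) 1, g (-1) := by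
    refine setLIntegral_congr_fun measurableSet_Ioo fun y hy => ?_
    show g (sg v y) = _
    rw [sg, if_neg (not_le.2 hy.1)]
  rw [e1, e2, setLIntegral_const, setLIntegral_const, Real.volume_Ioo, Real.volume_Ioo, mul_add]
  have hh : ∀ t : ℝ, ENNReal.ofReal (t / 2) = (2 : ℝ≥0∞)⁻¹ * ENNReal.ofReal t := by
    intro t
    rw [ENNReal.ofReal_div_of_pos (by norm_num), ENNReal.div_eq_inv_mul]
    norm_num
  have e3 : -v - -1 = 1 - v := by ring
  have e4 : 1 - -v = 1 + v := by ring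
  rw [e3, e4, hh, hh]
  ring

/-- the interval [0,1] and its reflection make up [-1,1] -/
theorem UI_UU (f : ℝ → ℝ≥0∞) (hf : Measurable f) :
    (2 : ℝ≥0∞)⁻¹ * ∫⁻ y, f y ∂UI + (2 : ℝ≥0∞)⁻¹ * ∫⁻ y, f (-y) ∂UI = ∫⁻ y, f y ∂UU := by
  rw [lint_UU, split f (show (-1 : ℝ) ≤ 0 by norm_num) (show (0 : ℝ) ≤ 1 by norm_num), UI]
  have e1 : ∫⁻ y in Set.Icc 0 1, f y = ∫⁻ y in Set.Ioo 0 1, f y := (setLIntegral_congr Ioo_ae_eq_Icc).symm
  have e2 : ∫⁻ y in Set.Icc 0 1, f (-y) = ∫⁻ y in Set.Ioo (-1) 0, f y := by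
    rw [← setLIntegral_congr Ioo_ae_eq_Icc, ← lintegral_indicator measurableSet_Ioo,
      ← lintegral_indicator measurableSet_Ioo, ← lintegral_neg_eq_self]
    refine lintegral_congr fun y => ?_
    by_cases hy : y ∈ Set.Ioo (-1 : ℝ) 0
    · have hy' : -y ∈ Set.Ioo (0 : ℝ) 1 := ⟨by linarith [hy.2], by linarith [hy.1]⟩
      rw [Set.indicator_of_mem hy, Set.indicator_of_mem hy', neg_neg]
    · have hy' : -y ∉ Set.Ioo (0 : ℝ) 1 := by
        intro h; apply hy; exact ⟨by linarith [h.2], by linarith [h.1]⟩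
      rw [Set.indicator_of_notMem hy, Set.indicator_of_notMem hy']
  rw [e1, e2]
  ring

theorem UI_refl (f : ℝ → ℝ≥0∞) : ∫⁻ y, f (1 - y) ∂UI = ∫⁻ y, f y ∂UI := by
  rw [UI, ← setLIntegral_congr Ioo_ae_eq_Icc, ← setLIntegral_congr (μ := volume) Ioo_ae_eq_Icc]
  have := refl_Ioo f 0 1
  rw [zero_add] at this
  exact this

end Pool.Agent.CM
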