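import Pool.Agent.Helpers.CM2

set_option autoImplicit false

open MeasureTheory
open scoped ENNReal

namespace Pool.Agent.CM

theorem meas_s2 : Measurable (fun p : ℝ × ℝ => s2 p.1 p.2) := by
  unfold s2
  apply Measurable.ite
  · exact measurableSet_le measurable_snd measurable_fst.neg
  · fun_prop
  · fun_prop

theorem meas_sg : Measurable (fun p : ℝ × ℝ => sg p.1 p.2) := by
  unfold sg
  apply Measurable.ite
  · exact measurableSet_le measurable_snd measurable_fst.neg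
  · fun_prop
  · fun_prop

/-- the four uniform variables -/
noncomputable def SS {Ω0 : Type} (v : Ω0 → ℝ) : Fin 4 → (Ω0 × ℝ × ℝ) → ℝ :=
  ![fun w => w.2.1, fun w => s2 (v w.1) w.2.1, fun w => sg (v w.1) w.2.1 * w.2.2,
    fun w => sg (v w.1) w.2.1 * (1 - w.2.2)]

theorem SS_sum {Ω0 : Type} (v : Ω0 → ℝ) (w : Ω0 × ℝ × ℝ) : v w.1 + ∑ g, SS v g w = 0 := by
  have h := sg_eq (v w.1) w.2.1
  simp only [SS, Fin.sum_univ_four, Matrix.cons_val_zero, Matrix.cons_val_one, Matrix.cons_val]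
  linarith

theorem four_unif {Ω0 : Type} [MeasurableSpace Ω0] (P0 : Measure Ω0) [IsProbabilityMeasure P0]
    (v : Ω0 → ℝ) (hv : Measurable v) (h1 : ∀ ω, -1 ≤ v ω) (h2 : ∀ ω, v ω ≤ 1)
    (h0 : ∫ ω, v ω ∂P0 = 0) :
    ∀ g, Measurable (SS v g) ∧ (P0.prod (UU.prod UI)).map (SS v g) = UU := by
  have hint : Integrable v P0 := by
    refine Integrable.mono' (integrable_const (1 : ℝ)) hv.aestronglyMeasurable ?_
    exact Filter.Eventually.of_forall fun ω => by
      rw [Real.norm_eq_abs, abs_le]; exact ⟨h1 ω, h2 ω⟩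
  have m0 : Measurable (fun w : Ω0 × ℝ × ℝ => w.2.1) := by fun_prop
  have mv : Measurable (fun w : Ω0 × ℝ × ℝ => (v w.1, w.2.1)) := (hv.comp measurable_fst).prodMk m0
  have m1 : Measurable (fun w : Ω0 × ℝ × ℝ => s2 (v w.1) w.2.1) := meas_s2.comp mv
  have m2 : Measurable (fun w : Ω0 × ℝ × ℝ => sg (v w.1) w.2.1) := meas_sg.comp mv
  have m3 : Measurable (fun w : Ω0 × ℝ × ℝ => sg (v w.1) w.2.1 * w.2.2) := m2.mul (by fun_prop)
  have m4 : Measurable (fun w : Ω0 × ℝ × ℝ => sg (v w.1) w.2.1 * (1 - w.2.2)) := m2.mul (by fun_prop)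
  -- triple integrals
  have tri : ∀ F : Ω0 × ℝ × ℝ → ℝ≥0∞, Measurable F →
      ∫⁻ w, F w ∂(P0.prod (UU.prod UI)) = ∫⁻ ω, ∫⁻ y, ∫⁻ t, F (ω, y, t) ∂UI ∂UU ∂P0 := by
    intro F hF
    rw [lintegral_prod _ hF.aemeasurable]
    refine lintegral_congr fun ω => ?_
    exact lintegral_prod (μ := UU) (ν := UI) (fun z => F (ω, z)) (hF.comp (by fun_prop)).aemeasurable
  have half1 : ∫⁻ ω, ENNReal.ofReal ((1 - v ω) / 2) ∂P0 = (2 : ℝ≥0∞)⁻¹ := by
    rw [← ofReal_integral_eq_lintegral_ofReal]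
    · have : ∫ ω, (1 - v ω) / 2 ∂P0 = 1 / 2 := by
        rw [integral_div, integral_sub (integrable_const _) hint, h0]
        simp
      rw [this, ENNReal.ofReal_div_of_pos (by norm_num)]
      norm_num
    · exact ((integrable_const _).sub hint).div_const _
    · exact Filter.Eventually.of_forall fun ω => by
        show 0 ≤ (1 - v ω) / 2
        linarith [h2 ω]
  have half2 : ∫⁻ ω, ENNReal.ofReal ((1 + v ω) / 2) ∂P0 = (2 : ℝ≥0∞)⁻¹ := by
    rw [← ofReal_integral_eq_lintegral_ofReal]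
    · have : ∫ ω, (1 + v ω) / 2 ∂P0 = 1 / 2 := by
        rw [integral_div, integral_add (integrable_const _) hint, h0]
        simp
      rw [this, ENNReal.ofReal_div_of_pos (by norm_num)]
      norm_num
    · exact ((integrable_const _).add hint).div_const _
    · exact Filter.Eventually.of_forall fun ω => by
        show 0 ≤ (1 + v ω) / 2
        linarith [h1 ω]
  have signed : ∀ f : ℝ → ℝ≥0∞, Measurable f →
      ∫⁻ ω, ∫⁻ y, ∫⁻ t, f (sg (v ω) y * t) ∂UI ∂UU ∂P0 = ∫⁻ y, f y ∂UU := by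
    intro f hf
    have e1 : ∀ ω, ∫⁻ y, ∫⁻ t, f (sg (v ω) y * t) ∂UI ∂UU =
        ENNReal.ofReal ((1 - v ω) / 2) * ∫⁻ t, f (1 * t) ∂UI +
        ENNReal.ofReal ((1 + v ω) / 2) * ∫⁻ t, f (-1 * t) ∂UI := fun ω =>
      sg_law (fun s => ∫⁻ t, f (s * t) ∂UI) (h1 ω) (h2 ω)
    rw [lintegral_congr e1, lintegral_add_left, lintegral_mul_const, lintegral_mul_const, half1, half2,
      ← UI_UU f hf]
    · simp only [one_mul, neg_mul]
    · exact ((measurable_const.add hv).div_const _).ennreal_ofReal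
    · exact ((measurable_const.sub hv).div_const _).ennreal_ofReal
    · exact (((measurable_const.sub hv).div_const _).ennreal_ofReal).mul_const _
  have law : ∀ X : Ω0 × ℝ × ℝ → ℝ, Measurable X →
      (∀ f : ℝ → ℝ≥0∞, Measurable f → ∫⁻ ω, ∫⁻ y, ∫⁻ t, f (X (ω, y, t)) ∂UI ∂UU ∂P0 = ∫⁻ y, f y ∂UU) →
      Measurable X ∧ (P0.prod (UU.prod UI)).map X = UU := by
    intro X hX h
    refine ⟨hX, Measure.ext_of_lintegral _ fun f hf => ?_⟩
    rw [lintegral_map hf hX]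
    exact (tri (fun w => f (X w)) (hf.comp hX)).trans (h f hf)
  intro g
  fin_cases g
  · refine law _ m0 fun f hf => ?_
    show ∫⁻ ω, ∫⁻ y, ∫⁻ t, f y ∂UI ∂UU ∂P0 = _
    have : ∀ y, ∫⁻ t, f y ∂UI = f y := fun y => by
      rw [lintegral_const, measure_univ, mul_one]
    simp only [this]
    rw [lintegral_const, measure_univ, mul_one]
  · refine law _ m1 fun f hf => ?_
    show ∫⁻ ω, ∫⁻ y, ∫⁻ t, f (s2 (v ω) y) ∂UI ∂UU ∂P0 = _
    have : ∀ ω, ∫⁻ y, ∫⁻ t, f (s2 (v ω) y) ∂UI ∂UU = ∫⁻ y, f y ∂UU := by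
      intro ω
      rw [← s2_law f (h1 ω) (h2 ω)]
      simp
    simp only [this]
    simp
  · exact law _ m3 fun f hf => signed f hf
  · refine law _ m4 fun f hf => ?_
    rw [← signed f hf]
    refine lintegral_congr fun ω => lintegral_congr fun y => ?_
    exact UI_refl (fun t => f (sg (v ω) y * t))

end Pool.Agent.CM
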