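import Pool.Agent.Helpers.CM3

set_option autoImplicit false

open MeasureTheory
open scoped ENNReal

namespace Pool.Agent.CM

/-- clamp to [-1,1] -/
noncomputable def cl (t : ℝ) : ℝ := max (-1) (min 1 t)

theorem cl_le (t : ℝ) : cl t ≤ 1 := max_le (by norm_num) (min_le_left _ _)
theorem le_cl (t : ℝ) : -1 ≤ cl t := le_max_left _ _
theorem cl_eq {t : ℝ} (h1 : -1 ≤ t) (h2 : t ≤ 1) : cl t = t := by
  rw [cl, min_eq_right h2, max_eq_right h1]
theorem cl_meas : Measurable cl := by unfold cl; fun_prop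

/-- the data: a set of large density in an interval -/
structure Dat where
  B : Set ℝ
  p : ℝ
  h : ℝ
  hB : MeasurableSet B
  hh : 0 < h
  hsub : B ⊆ Set.Icc (p - h) (p + h)
  hvol : ENNReal.ofReal (3 * h / 2) ≤ volume B

variable (D : Dat)

noncomputable def Dat.st (t : ℝ) : ℝ := 2 * D.p + D.h / 2 * cl t

theorem Dat.st_meas : Measurable D.st := by
  unfold Dat.st
  exact measurable_const.add (measurable_const.mul cl_meas)

def Dat.E : Set (ℝ × ℝ) := {z | z.2 ∈ D.B ∧ D.st z.1 - z.2 ∈ D.B}

theorem Dat.E_meas : MeasurableSet D.E := by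
  have h1 : MeasurableSet {z : ℝ × ℝ | z.2 ∈ D.B} := measurable_snd D.hB
  have h2 : MeasurableSet {z : ℝ × ℝ | D.st z.1 - z.2 ∈ D.B} :=
    ((D.st_meas.comp measurable_fst).sub measurable_snd) D.hB
  exact h1.inter h2

noncomputable def Dat.w (t : ℝ) : ℝ≥0∞ := volume (Prod.mk t ⁻¹' D.E)

theorem Dat.w_meas : Measurable D.w := measurable_measure_prodMk_left D.E_meas

theorem Dat.w_lower (t : ℝ) : ENNReal.ofReal (D.h / 2) ≤ D.w t := by
  have hC : volume ((fun x => D.st t - x) ⁻¹' D.B) = volume D.B :=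
    (Measure.measurePreserving_sub_left volume (D.st t)).measure_preimage D.hB.nullMeasurableSet
  have hE : Prod.mk t ⁻¹' D.E = D.B ∩ ((fun x => D.st t - x) ⁻¹' D.B) := by
    ext x; rfl
  have hmC : MeasurableSet ((fun x => D.st t - x) ⁻¹' D.B) :=
    (measurable_const.sub measurable_id : Measurable (fun x => D.st t - x)) D.hB
  have hadd := measure_union_add_inter (μ := volume) D.B hmC
  have hU : volume (D.B ∪ ((fun x => D.st t - x) ⁻¹' D.B)) ≤ ENNReal.ofReal (5 * D.h / 2) := by
    let τ := D.h / 2 * cl t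
    have hτ1 : τ ≤ D.h / 2 := by
      have := cl_le t; have := D.hh; simp only [τ]; nlinarith
    have hτ2 : -(D.h / 2) ≤ τ := by
      have := le_cl t; have := D.hh; simp only [τ]; nlinarith
    rcases le_total 0 τ with h0 | h0
    · have hs : D.B ∪ ((fun x => D.st t - x) ⁻¹' D.B) ⊆ Set.Icc (D.p - D.h) (D.p + D.h + τ) := by
        rintro x (hx | hx)
        · have := D.hsub hx
          exact ⟨this.1, by linarith [this.2]⟩
        · have := D.hsub hx
          have e : D.st t = 2 * D.p + τ := rfl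
          rw [e] at this
          exact ⟨by linarith [this.2], by linarith [this.1]⟩
      refine le_trans (measure_mono hs) ?_
      rw [Real.volume_Icc]
      exact ENNReal.ofReal_le_ofReal (by linarith)
    · have hs : D.B ∪ ((fun x => D.st t - x) ⁻¹' D.B) ⊆ Set.Icc (D.p - D.h + τ) (D.p + D.h) := by
        rintro x (hx | hx)
        · have := D.hsub hx
          exact ⟨by linarith [this.1], this.2⟩
        · have := D.hsub hx
          have e : D.st t = 2 * D.p + τ := rfl
          rw [e] at this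
          exact ⟨by linarith [this.2], by linarith [this.1]⟩
      refine le_trans (measure_mono hs) ?_
      rw [Real.volume_Icc]
      exact ENNReal.ofReal_le_ofReal (by linarith)
  rw [Dat.w, hE]
  rw [hC] at hadd
  have hh := D.hh
  have h3 : ENNReal.ofReal (5 * D.h / 2) + ENNReal.ofReal (D.h / 2) ≤
      ENNReal.ofReal (5 * D.h / 2) + volume (D.B ∩ ((fun x => D.st t - x) ⁻¹' D.B)) := by
    calc ENNReal.ofReal (5 * D.h / 2) + ENNReal.ofReal (D.h / 2)
        = ENNReal.ofReal (3 * D.h / 2) + ENNReal.ofReal (3 * D.h / 2) := by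
          rw [← ENNReal.ofReal_add (by positivity) (by positivity),
            ← ENNReal.ofReal_add (by positivity) (by positivity)]
          congr 1; ring
      _ ≤ volume D.B + volume D.B := add_le_add D.hvol D.hvol
      _ = _ := hadd.symm
      _ ≤ _ := add_le_add hU le_rfl
  exact (ENNReal.add_le_add_iff_left ENNReal.ofReal_ne_top).1 h3

theorem Dat.w_pos (t : ℝ) : D.w t ≠ 0 := by
  intro h
  have := D.w_lower t
  rw [h] at this
  have h2 : 0 < ENNReal.ofReal (D.h / 2) := ENNReal.ofReal_pos.2 (by have := D.hh; linarith)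
  exact absurd this (not_le.2 h2)

theorem Dat.w_top (t : ℝ) : D.w t ≠ ∞ := by
  have h1 : D.w t ≤ volume (Set.Icc (D.p - D.h) (D.p + D.h)) :=
    measure_mono (fun x hx => D.hsub hx.1)
  rw [Real.volume_Icc] at h1
  exact ne_top_of_le_ne_top ENNReal.ofReal_ne_top h1

/-- density -/
noncomputable def Dat.r (z : ℝ × ℝ) : ℝ≥0∞ := D.E.indicator (fun z => (D.w z.1)⁻¹) z

theorem Dat.r_meas : Measurable D.r :=
  ((D.w_meas.comp measurable_fst).inv).indicator D.E_meas

theorem Dat.r_int (t : ℝ) : ∫⁻ x, D.r (t, x) = 1 := by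
  have h1 : ∀ x, D.r (t, x) = (Prod.mk t ⁻¹' D.E).indicator (fun _ => (D.w t)⁻¹) x := by
    intro x
    unfold Dat.r
    by_cases hx : (t, x) ∈ D.E
    · rw [Set.indicator_of_mem hx, Set.indicator_of_mem (s := Prod.mk t ⁻¹' D.E) hx]
    · rw [Set.indicator_of_notMem hx, Set.indicator_of_notMem (s := Prod.mk t ⁻¹' D.E) hx]
  simp only [h1]
  rw [lintegral_indicator_const (measurable_prodMk_left D.E_meas)]
  exact ENNReal.inv_mul_cancel (D.w_pos t) (D.w_top t)

theorem Dat.r_refl (t x : ℝ) : D.r (t, D.st t - x) = D.r (t, x) := by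
  unfold Dat.r
  by_cases hx : (t, x) ∈ D.E
  · have hx' : (t, D.st t - x) ∈ D.E := ⟨hx.2, by
      show D.st t - (D.st t - x) ∈ D.B
      rw [sub_sub_cancel]; exact hx.1⟩
    rw [Set.indicator_of_mem hx, Set.indicator_of_mem hx']
  · have hx' : (t, D.st t - x) ∉ D.E := by
      intro h
      apply hx
      have h2 : D.st t - (D.st t - x) ∈ D.B := h.2
      rw [sub_sub_cancel] at h2
      exact ⟨h2, h.1⟩
    rw [Set.indicator_of_notMem hx, Set.indicator_of_notMem hx']

theorem Dat.r_le (t x : ℝ) : D.r (t, x) ≤ D.B.indicator (fun _ => (ENNReal.ofReal (D.h / 2))⁻¹) x := by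
  unfold Dat.r
  by_cases hx : (t, x) ∈ D.E
  · rw [Set.indicator_of_mem hx, Set.indicator_of_mem hx.1]
    exact ENNReal.inv_le_inv.2 (D.w_lower t)
  · rw [Set.indicator_of_notMem hx]
    exact bot_le

/-- the law of each member of a pair -/
noncomputable def Dat.G : Measure ℝ := ((UU.prod volume).withDensity D.r).map Prod.snd

theorem Dat.lint_G (f : ℝ → ℝ≥0∞) (hf : Measurable f) :
    ∫⁻ x, f x ∂D.G = ∫⁻ t, (∫⁻ x, D.r (t, x) * f x) ∂UU := by
  rw [Dat.G, lintegral_map hf measurable_snd]
  refine (lintegral_withDensity_eq_lintegral_mul _ D.r_meas (hf.comp measurable_snd)).trans ?_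
  exact lintegral_prod _ (D.r_meas.mul (hf.comp measurable_snd)).aemeasurable

instance : IsProbabilityMeasure D.G := by
  constructor
  rw [← lintegral_one, D.lint_G _ measurable_const]
  simp [D.r_int]

theorem Dat.G_le : D.G ≤ (ENNReal.ofReal (D.h / 2))⁻¹ • volume.restrict D.B := by
  refine Measure.le_iff.2 fun A hA => ?_
  rw [← lintegral_indicator_one hA, D.lint_G _ (measurable_one.indicator hA)]
  have h1 : ∀ t, ∫⁻ x, D.r (t, x) * A.indicator 1 x ≤ (ENNReal.ofReal (D.h / 2))⁻¹ * volume.restrict D.B A := by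
    intro t
    calc ∫⁻ x, D.r (t, x) * A.indicator 1 x ≤
          ∫⁻ x, (A ∩ D.B).indicator (fun _ => (ENNReal.ofReal (D.h / 2))⁻¹) x := by
          refine lintegral_mono fun x => ?_
          have := D.r_le t x
          by_cases hx : x ∈ A
          · by_cases hx' : x ∈ D.B
            · rw [Set.indicator_of_mem hx, Set.indicator_of_mem (show x ∈ A ∩ D.B from ⟨hx, hx'⟩)]
              rw [Set.indicator_of_mem hx'] at this
              simpa using this
            · rw [Set.indicator_of_notMem hx'] at this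
              have h0 : D.r (t, x) = 0 := le_antisymm this bot_le
              rw [h0, zero_mul]; exact bot_le
          · rw [Set.indicator_of_notMem hx, mul_zero]; exact bot_le
      _ = _ := by
          rw [lintegral_indicator_const (hA.inter D.hB), Measure.restrict_apply hA]
  calc ∫⁻ t, (∫⁻ x, D.r (t, x) * A.indicator 1 x) ∂UU
      ≤ ∫⁻ t, (ENNReal.ofReal (D.h / 2))⁻¹ * volume.restrict D.B A ∂UU := lintegral_mono h1
    _ = _ := by
      rw [lintegral_const, measure_univ, mul_one, Measure.smul_apply, smul_eq_mul]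

/-- extension by one pair -/
theorem Dat.ext1 {Ω : Type} [MeasurableSpace Ω] (P : Measure Ω) [IsProbabilityMeasure P]
    (S : Ω → ℝ) (hS : Measurable S) (hlaw : P.map S = UU) :
    ∃ P' : Measure (Ω × ℝ), IsProbabilityMeasure P' ∧ P'.map Prod.fst = P ∧ P'.map Prod.snd = D.G ∧
      P'.map (fun z => D.st (S z.1) - z.2) = D.G := by
  have hrm : Measurable (fun z : Ω × ℝ => D.r (S z.1, z.2)) :=
    D.r_meas.comp ((hS.comp measurable_fst).prodMk measurable_snd)
  let P' : Measure (Ω × ℝ) := (P.prod volume).withDensity (fun z => D.r (S z.1, z.2))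
  have hP' : ∀ F : Ω × ℝ → ℝ≥0∞, Measurable F →
      ∫⁻ z, F z ∂P' = ∫⁻ ω, (∫⁻ x : ℝ, D.r (S ω, x) * F (ω, x)) ∂P := by
    intro F hF
    rw [lintegral_withDensity_eq_lintegral_mul _ hrm hF]
    exact lintegral_prod _ (hrm.mul hF).aemeasurable
  have hfst : P'.map Prod.fst = P := by
    refine Measure.ext_of_lintegral _ fun f hf => ?_
    rw [lintegral_map hf measurable_fst]
    refine (hP' (fun z => f z.1) (hf.comp measurable_fst)).trans ?_
    refine lintegral_congr fun ω => ?_
    show ∫⁻ x, D.r (S ω, x) * f ω = f ω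
    have hm : Measurable (fun x : ℝ => D.r (S ω, x)) := D.r_meas.comp measurable_prodMk_left
    rw [lintegral_mul_const _ hm, D.r_int, one_mul]
  have hmeas : ∀ f : ℝ → ℝ≥0∞, Measurable f → Measurable (fun t => ∫⁻ x, D.r (t, x) * f x) := by
    intro f hf
    exact Measurable.lintegral_prod_right' (D.r_meas.mul (hf.comp measurable_snd))
  have hG : ∀ f : ℝ → ℝ≥0∞, Measurable f → ∫⁻ ω, (∫⁻ x : ℝ, D.r (S ω, x) * f x) ∂P = ∫⁻ x, f x ∂D.G := by
    intro f hf
    rw [D.lint_G f hf, ← hlaw, lintegral_map (hmeas f hf) hS]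
  refine ⟨P', ?_, hfst, ?_, ?_⟩
  · constructor
    rw [← lintegral_one]
    refine (hP' (fun _ => 1) measurable_const).trans ?_
    simp [D.r_int]
  · refine Measure.ext_of_lintegral _ fun f hf => ?_
    rw [lintegral_map hf measurable_snd]
    exact (hP' (fun z => f z.2) (hf.comp measurable_snd)).trans (hG f hf)
  · refine Measure.ext_of_lintegral _ fun f hf => ?_
    have hm : Measurable (fun z : Ω × ℝ => D.st (S z.1) - z.2) :=
      (D.st_meas.comp (hS.comp measurable_fst)).sub measurable_snd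
    rw [lintegral_map hf hm]
    refine (hP' (fun z => f (D.st (S z.1) - z.2)) (hf.comp hm)).trans ?_
    rw [← hG f hf]
    refine lintegral_congr fun ω => ?_
    rw [← lintegral_sub_left_eq_self (fun x => D.r (S ω, x) * f x) (D.st (S ω))]
    refine lintegral_congr fun x => ?_
    rw [D.r_refl]

/-- extension by k pairs -/
theorem Dat.extk : ∀ (k : ℕ) {Ω : Type} [MeasurableSpace Ω] (P : Measure Ω) [IsProbabilityMeasure P]
    (S : Fin k → Ω → ℝ) (_ : ∀ g, Measurable (S g)) (_ : ∀ g, P.map (S g) = UU),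
    ∃ (Ω' : Type) (_ : MeasurableSpace Ω') (P' : Measure Ω') (π : Ω' → Ω) (X : Fin k → Ω' → ℝ),
      IsProbabilityMeasure P' ∧ Measurable π ∧ P'.map π = P ∧ (∀ g, Measurable (X g)) ∧
      (∀ g, P'.map (X g) = D.G) ∧ (∀ g, P'.map (fun ω => D.st (S g (π ω)) - X g ω) = D.G) := by
  intro k
  induction k with
  | zero =>
    intro Ω _ P _ S hS hlaw
    exact ⟨Ω, inferInstance, P, id, fun g => g.elim0, inferInstance, measurable_id, Measure.map_id,
      fun g => g.elim0, fun g => g.elim0, fun g => g.elim0⟩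
  | succ k ih =>
    intro Ω _ P _ S hS hlaw
    obtain ⟨Ω1, _, P1, π1, X1, hP1, hπ1, hmap1, hX1, hG1, hG1'⟩ :=
      ih P (fun g => S g.succ) (fun g => hS _) (fun g => hlaw _)
    have hS0 : Measurable (fun ω => S 0 (π1 ω)) := (hS 0).comp hπ1
    have hlaw0 : P1.map (fun ω => S 0 (π1 ω)) = UU := by
      rw [← hlaw 0, ← hmap1, Measure.map_map (hS 0) hπ1]; rfl
    obtain ⟨P2, hP2, hf, hs, hs'⟩ := D.ext1 P1 (fun ω => S 0 (π1 ω)) hS0 hlaw0
    refine ⟨Ω1 × ℝ, inferInstance, P2, fun z => π1 z.1,
      Fin.cons (fun z => z.2) (fun g z => X1 g z.1), hP2, hπ1.comp measurable_fst, ?_, ?_, ?_, ?_⟩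
    · rw [← hmap1, ← hf, Measure.map_map hπ1 measurable_fst]; rfl
    · intro g
      refine Fin.cases ?_ (fun g => ?_) g
      · exact measurable_snd
      · exact (hX1 g).comp measurable_fst
    · intro g
      refine Fin.cases ?_ (fun g => ?_) g
      · exact hs
      · rw [← hG1 g]
        simp only [Fin.cons_succ]
        rw [← hf, Measure.map_map (hX1 g) measurable_fst]; rfl
    · intro g
      refine Fin.cases ?_ (fun g => ?_) g
      · exact hs'
      · rw [← hG1' g]
        simp only [Fin.cons_succ]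
        have hm : Measurable (fun ω => D.st (S g.succ (π1 ω)) - X1 g ω) :=
          (D.st_meas.comp ((hS _).comp hπ1)).sub (hX1 g)
        rw [← hf, Measure.map_map hm measurable_fst]; rfl

end Pool.Agent.CM
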