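import Mathlib

set_option autoImplicit false

open MeasureTheory Filter Topology
open scoped ENNReal

namespace Pool.Agent.CM

/-- cutting a finite measure without atoms at integer quantiles -/
theorem blocks (L : Measure ℝ) [IsFiniteMeasure L] (hL : L ≪ volume) {a b : ℝ} (hab : a ≤ b)
    (hsupp : L (Set.Icc a b)ᶜ = 0) (N : ℕ) (hN : L Set.univ = N) :
    ∃ q : ℕ → ℝ, (∀ i, q i ≤ q (i + 1)) ∧ (∀ i, q i ∈ Set.Icc a b) ∧
      (∀ i < N, L (Set.Ioc (q i) (q (i + 1))) = 1) ∧
      L = ∑ i ∈ Finset.range N, L.restrict (Set.Ioc (q i) (q (i + 1))) := by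
  have hna : ∀ x, L {x} = 0 := fun x => hL (by simp)
  have : NullSingletonClass L := ⟨hna⟩
  let F : ℝ → ℝ := fun x => (L (Set.Iic x)).toReal
  have hmono : Monotone F := by
    intro x y hxy
    exact ENNReal.toReal_mono (measure_ne_top _ _) (measure_mono (Set.Iic_subset_Iic.2 hxy))
  have hcont : Continuous F := by
    rw [continuous_iff_continuousAt]
    intro x
    have h1 : ContinuousOn (fun b ↦ ∫ _ in Set.Iic b, (1 : ℝ) ∂L) (Set.Iic (x + 1)) :=
      (integrable_const (1 : ℝ)).integrableOn.continuousOn_Iic_primitive_Iic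
    have h2 : ContinuousAt (fun b ↦ ∫ _ in Set.Iic b, (1 : ℝ) ∂L) x :=
      h1.continuousAt (Iic_mem_nhds (by linarith))
    have h3 : (fun b ↦ ∫ _ in Set.Iic b, (1 : ℝ) ∂L) = F := by
      ext b
      simp [F, measureReal_def]
    rwa [h3] at h2
  have hFa : F a = 0 := by
    have : L (Set.Iic a) = 0 := by
      have h1 : Set.Iic a ⊆ (Set.Icc a b)ᶜ ∪ {a} := by
        intro x hx
        rcases eq_or_lt_of_le (show x ≤ a from hx) with h | h
        · right; exact h
        · left; intro h'; exact absurd h'.1 (not_le.2 h)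
      exact measure_mono_null h1 (measure_union_null hsupp (hna a))
    simp [F, this]
  have hFb : F b = N := by
    have : L (Set.Iic b) = N := by
      rw [← hN]
      apply le_antisymm (measure_mono (Set.subset_univ _))
      calc L Set.univ ≤ L (Set.Iic b ∪ (Set.Icc a b)ᶜ) := by
            apply measure_mono
            intro x _
            by_cases hx : x ≤ b
            · left; exact hx
            · right; intro h; exact hx h.2
        _ ≤ L (Set.Iic b) + L (Set.Icc a b)ᶜ := measure_union_le _ _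
        _ = L (Set.Iic b) := by rw [hsupp, add_zero]
    simp [F, this]
  have hiv : ∀ i : ℕ, i ≤ N → ∃ x ∈ Set.Icc a b, F x = i := by
    intro i hi
    have h1 := intermediate_value_Icc hab hcont.continuousOn
    rw [hFa, hFb] at h1
    have h2 : (i : ℝ) ∈ Set.Icc (0 : ℝ) N := ⟨by positivity, by exact_mod_cast hi⟩
    obtain ⟨x, hx, hx'⟩ := h1 h2
    exact ⟨x, hx, hx'⟩
  choose! q0 hq0 hq1 using hiv
  let q : ℕ → ℝ := fun i => if i ≤ N then q0 i else b
  have hqI : ∀ i, q i ∈ Set.Icc a b := by
    intro i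
    simp only [q]
    split_ifs with h
    · exact hq0 i h
    · exact Set.right_mem_Icc.2 hab
  have hqm : ∀ i, q i ≤ q (i + 1) := by
    intro i
    by_cases h : i + 1 ≤ N
    · by_contra hlt
      have h1 := hmono (le_of_not_ge hlt)
      have e1 : q i = q0 i := if_pos (by omega)
      have e2 : q (i + 1) = q0 (i + 1) := if_pos h
      rw [e1, e2, hq1 i (by omega), hq1 (i + 1) h] at h1
      push_cast at h1
      linarith
    · have e2 : q (i + 1) = b := if_neg h
      rw [e2]; exact (hqI i).2
  have hFq : ∀ i, i ≤ N → L (Set.Iic (q i)) = i := by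
    intro i hi
    have e1 : q i = q0 i := if_pos hi
    have h1 : (L (Set.Iic (q i))).toReal = i := by rw [e1]; exact hq1 i hi
    rw [← ENNReal.ofReal_toReal (measure_ne_top L (Set.Iic (q i))), h1, ENNReal.ofReal_natCast]
  have hblock : ∀ i < N, L (Set.Ioc (q i) (q (i + 1))) = 1 := by
    intro i hi
    have h1 : Set.Ioc (q i) (q (i + 1)) = Set.Iic (q (i + 1)) \ Set.Iic (q i) := by
      ext x; simp [and_comm]
    rw [h1, measure_sdiff (Set.Iic_subset_Iic.2 (hqm i)) measurableSet_Iic.nullMeasurableSet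
      (measure_ne_top _ _), hFq _ (by omega), hFq _ (by omega)]
    push_cast
    rw [ENNReal.add_sub_cancel_left (ENNReal.natCast_ne_top i)]
  refine ⟨q, hqm, hqI, hblock, ?_⟩
  have hsum : ∀ k ≤ N, L.restrict (Set.Iic (q k)) = L.restrict (Set.Iic (q 0)) +
      ∑ i ∈ Finset.range k, L.restrict (Set.Ioc (q i) (q (i + 1))) := by
    intro k
    induction k with
    | zero => intro _; simp
    | succ k ih =>
      intro hk
      rw [Finset.sum_range_succ, ← add_assoc, ← ih (by omega), ← Measure.restrict_union _ measurableSet_Ioc,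
        Set.Iic_union_Ioc_eq_Iic (hqm k)]
      rw [Set.disjoint_left]
      intro x hx hx'
      exact absurd hx (not_le.2 hx'.1)
  have h0 : L.restrict (Set.Iic (q 0)) = 0 := by
    rw [Measure.restrict_eq_zero, hFq 0 (Nat.zero_le _)]; simp
  have h1 := hsum N le_rfl
  rw [h0, zero_add] at h1
  rw [← h1]
  have h2 : L (Set.Iic (q N))ᶜ = 0 := by
    rw [measure_compl measurableSet_Iic (measure_ne_top _ _), hN, hFq N le_rfl, tsub_self]
  rw [Measure.restrict_eq_self_of_ae_mem]
  rw [ae_iff]
  exact h2

end Pool.Agent.CM
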