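import Pool.Agent.Helpers.CM1
import Pool.Agent.Helpers.CM4
import Pool.Agent.Helpers.CM5

set_option autoImplicit false

open MeasureTheory Filter Topology
open scoped ENNReal

namespace Pool.Agent.CM

theorem exists_dat (μ : Measure ℝ) [IsProbabilityMeasure μ] (hμ : μ ≪ volume) :
    ∃ (D : Dat) (C : ℝ≥0∞), C ≠ ∞ ∧ D.G ≤ C • μ := by
  let f := μ.rnDeriv volume
  have hfm : Measurable f := Measure.measurable_rnDeriv _ _
  have hμf : volume.withDensity f = μ := Measure.withDensity_rnDeriv_eq μ volume hμ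
  obtain ⟨j, hj⟩ : ∃ j : ℕ, volume {x | ((j : ℝ≥0∞) + 1)⁻¹ ≤ f x} ≠ 0 := by
    by_contra hcon
    push Not at hcon
    have h1 : volume {x | f x ≠ 0} = 0 := by
      have h2 : {x | f x ≠ 0} ⊆ ⋃ j : ℕ, {x | ((j : ℝ≥0∞) + 1)⁻¹ ≤ f x} := by
        intro x hx
        obtain ⟨j, hj⟩ := ENNReal.exists_inv_nat_lt hx
        refine Set.mem_iUnion.2 ⟨j, ?_⟩
        show ((j : ℝ≥0∞) + 1)⁻¹ ≤ f x
        exact le_trans (ENNReal.inv_le_inv.2 le_self_add) hj.le
      exact measure_mono_null h2 (measure_iUnion_null hcon)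
    have h2 : f =ᵐ[volume] 0 := by
      rw [Filter.EventuallyEq, ae_iff]
      exact h1
    have h3 : μ = 0 := by
      rw [← hμf, withDensity_congr_ae h2, withDensity_zero]
    exact (IsProbabilityMeasure.ne_zero μ) h3
  set c : ℝ≥0∞ := ((j : ℝ≥0∞) + 1)⁻¹ with hc
  have hc0 : c ≠ 0 := by rw [hc]; exact ENNReal.inv_ne_zero.2 (by finiteness)
  have hctop : c ≠ ∞ := by rw [hc]; exact ENNReal.inv_ne_top.2 (by simp)
  let B0 : Set ℝ := {x | c ≤ f x}
  have hB0 : MeasurableSet B0 := measurableSet_le measurable_const hfm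
  obtain ⟨p, hp⟩ : ∃ p, Tendsto (fun r => volume (B0 ∩ Metric.closedBall p r) / volume (Metric.closedBall p r))
      (𝓝[>] 0) (𝓝 1) := by
    have h1 := Besicovitch.ae_tendsto_measure_inter_div (volume : Measure ℝ) B0
    have h2 : (ae (volume.restrict B0)).NeBot := by
      rw [ae_neBot]
      intro h
      rw [Measure.restrict_eq_zero] at h
      exact hj h
    exact h1.exists
  obtain ⟨h, hh0, hh⟩ : ∃ h : ℝ, 0 < h ∧ ENNReal.ofReal (3 * h / 2) ≤ volume (B0 ∩ Metric.closedBall p h) := by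
    have h1 : ∀ᶠ r in 𝓝[>] (0 : ℝ), (3/4 : ℝ≥0∞) < volume (B0 ∩ Metric.closedBall p r) / volume (Metric.closedBall p r) := by
      refine hp.eventually (lt_mem_nhds ?_)
      rw [ENNReal.div_lt_iff (by simp) (by simp)]
      norm_num
    have h2 : ∀ᶠ r in 𝓝[>] (0 : ℝ), 0 < r := self_mem_nhdsWithin
    obtain ⟨r, hr1, hr2⟩ := (h1.and h2).exists
    refine ⟨r, hr2, ?_⟩
    rw [Real.volume_closedBall] at hr1
    have h3 : ENNReal.ofReal (2 * r) ≠ 0 := by
      rw [Ne, ENNReal.ofReal_eq_zero, not_le]; linarith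
    have h4 := (ENNReal.lt_div_iff_mul_lt (Or.inl h3) (Or.inl ENNReal.ofReal_ne_top)).1 hr1
    refine le_trans (le_of_eq ?_) h4.le
    have h5 : (3/4 : ℝ≥0∞) = ENNReal.ofReal (3/4) := by
      rw [ENNReal.ofReal_div_of_pos (by norm_num)]
      norm_num
    rw [h5, ← ENNReal.ofReal_mul (by norm_num)]
    congr 1
    ring
  rw [Real.closedBall_eq_Icc] at hh
  let D : Dat :=
    { B := B0 ∩ Set.Icc (p - h) (p + h)
      p := p
      h := h
      hB := hB0.inter measurableSet_Icc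
      hh := hh0
      hsub := Set.inter_subset_right
      hvol := hh }
  refine ⟨D, (ENNReal.ofReal (h / 2))⁻¹ * c⁻¹, ?_, ?_⟩
  · apply ENNReal.mul_ne_top
    · exact ENNReal.inv_ne_top.2 (by rw [Ne, ENNReal.ofReal_eq_zero, not_le]; linarith)
    · exact ENNReal.inv_ne_top.2 hc0
  · refine le_trans D.G_le ?_
    rw [mul_smul]
    refine Measure.le_iff.2 fun A hA => ?_
    simp only [Measure.smul_apply, smul_eq_mul]
    apply mul_le_mul_right
    rw [Measure.restrict_apply hA]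
    have h1 : c * volume (A ∩ D.B) ≤ μ A := by
      calc c * volume (A ∩ D.B) = ∫⁻ _ in A ∩ D.B, c := by rw [setLIntegral_const]
        _ ≤ ∫⁻ x in A ∩ D.B, f x := setLIntegral_mono hfm (fun x hx => hx.2.1)
        _ ≤ ∫⁻ x in A, f x := lintegral_mono_set Set.inter_subset_left
        _ = μ A := by rw [← withDensity_apply _ hA, hμf]
    rw [← ENNReal.div_eq_inv_mul, ENNReal.le_div_iff_mul_le (Or.inl hc0) (Or.inl hctop), mul_comm]
    exact h1

end Pool.Agent.CM
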