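import Pool.Agent.Helpers.CM6

set_option autoImplicit false

open MeasureTheory Filter Topology
open scoped ENNReal

namespace Pool.Agent.CM

theorem UU_compl : UU (Set.Icc (-1) 1)ᶜ = 0 := by
  rw [UU, Measure.smul_apply, Measure.restrict_apply measurableSet_Icc.compl]
  simp

theorem main (μ : Measure ℝ) (hprob : IsProbabilityMeasure μ) (hμ : μ ≪ volume)
    (hb : ∃ a b : ℝ, μ (Set.Icc a b)ᶜ = 0) :
    ∃ N : ℕ, ∀ n : ℕ, N ≤ n →
        ∃ ν : Measure (Fin n → ℝ), IsProbabilityMeasure ν ∧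
          (∀ i : Fin n, ν.map (fun x => x i) = μ) ∧
          ∃ c : ℝ, ∀ᵐ x ∂ν, ∑ i, x i = c := by
  obtain ⟨a, b, hab'⟩ := hb
  have hab : a ≤ b := by
    by_contra h
    rw [Set.Icc_eq_empty h, Set.compl_empty, measure_univ] at hab'
    exact one_ne_zero hab'
  obtain ⟨D, C, hC, hG⟩ := exists_dat μ hμ
  obtain ⟨m, hm⟩ := exists_nat_gt (2 * (b - a) / D.h)
  have hm0 : 0 < m := by
    have h1 : 0 ≤ 2 * (b - a) / D.h := div_nonneg (by linarith) D.hh.le
    have : (0 : ℝ) < m := lt_of_le_of_lt h1 hm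
    exact_mod_cast this
  let R : ℝ := m * (D.h / 2)
  have hR : 0 < R := by have := D.hh; positivity
  have hRΔ : b - a ≤ R := by
    have h1 := (div_lt_iff₀ D.hh).1 hm
    simp only [R]; linarith
  obtain ⟨N0, hN0⟩ := exists_nat_gt ((8 * m : ℕ) * C).toReal
  have hCN : ((8 * m : ℕ) : ℝ≥0∞) * C ≤ N0 := by
    have h1 : ((8 * m : ℕ) : ℝ≥0∞) * C ≠ ∞ := ENNReal.mul_ne_top (ENNReal.natCast_ne_top _) hC
    rw [← ENNReal.ofReal_toReal h1]
    calc ENNReal.ofReal (((8 * m : ℕ) : ℝ≥0∞) * C).toReal ≤ ENNReal.ofReal N0 := ENNReal.ofReal_le_ofReal hN0.le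
      _ = N0 := ENNReal.ofReal_natCast N0
  refine ⟨N0 + 8 * m + 1, fun n hn => ?_⟩
  let n0 : ℕ := n - 8 * m
  have hn0 : n = n0 + 8 * m := by omega
  have hle : ((8 * m : ℕ) : ℝ≥0∞) • D.G ≤ (n : ℝ≥0∞) • μ := by
    refine Measure.le_iff.2 fun A _ => ?_
    simp only [Measure.smul_apply, smul_eq_mul]
    calc ((8 * m : ℕ) : ℝ≥0∞) * D.G A ≤ ((8 * m : ℕ) : ℝ≥0∞) * (C * μ A) := by
          apply mul_le_mul_right
          exact hG A
      _ = (((8 * m : ℕ) : ℝ≥0∞) * C) * μ A := by rw [mul_assoc]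
      _ ≤ (n : ℝ≥0∞) * μ A := by
          apply mul_le_mul_left
          refine le_trans hCN ?_
          exact_mod_cast (by omega : N0 ≤ n)
  have hfinG : IsFiniteMeasure (((8 * m : ℕ) : ℝ≥0∞) • D.G) := by
    constructor
    rw [Measure.smul_apply, measure_univ, smul_eq_mul, mul_one]
    exact (ENNReal.natCast_ne_top _).lt_top
  have hfinμ : IsFiniteMeasure ((n : ℝ≥0∞) • μ) := by
    constructor
    rw [Measure.smul_apply, measure_univ, smul_eq_mul, mul_one]
    exact (ENNReal.natCast_ne_top _).lt_top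
  let L : Measure ℝ := (n : ℝ≥0∞) • μ - ((8 * m : ℕ) : ℝ≥0∞) • D.G
  have hLadd : L + ((8 * m : ℕ) : ℝ≥0∞) • D.G = (n : ℝ≥0∞) • μ := Measure.sub_add_cancel_of_le hle
  have hLle : L ≤ (n : ℝ≥0∞) • μ := Measure.sub_le
  have hLfin : IsFiniteMeasure L := isFiniteMeasure_of_le _ hLle
  have hLac : L ≪ volume :=
    (Measure.absolutelyContinuous_of_le hLle).trans (hμ.smul_left _)
  have hLsupp : L (Set.Icc a b)ᶜ = 0 := by
    refine le_antisymm (le_trans (hLle _) ?_) bot_le
    rw [Measure.smul_apply, hab', smul_zero]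
  have hLuniv : L Set.univ = n0 := by
    have h1 := congrArg (fun ρ : Measure ℝ => ρ Set.univ) hLadd
    simp only [Measure.add_apply, Measure.smul_apply, measure_univ, smul_eq_mul, mul_one] at h1
    have h2 : (n : ℝ≥0∞) = n0 + (8 * m : ℕ) := by exact_mod_cast hn0
    rw [h2] at h1
    exact (ENNReal.add_left_inj (ENNReal.natCast_ne_top _)).1 h1
  obtain ⟨q, hqm, hqI, hblock, hLsum⟩ := blocks L hLac hab hLsupp n0 hLuniv
  let Λ : Fin n0 → Measure ℝ := fun i => L.restrict (Set.Ioc (q i) (q (i + 1)))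
  have hΛp : ∀ i, IsProbabilityMeasure (Λ i) := by
    intro i
    constructor
    rw [Measure.restrict_apply_univ, hblock i i.2]
  let P0 : Measure (Fin n0 → ℝ) := Measure.pi Λ
  have hP0 : IsProbabilityMeasure P0 := inferInstance
  let Z : (Fin n0 → ℝ) → ℝ := fun z => ∑ i, z i
  have hZm : Measurable Z := Finset.measurable_sum _ fun i _ => measurable_pi_apply i
  have heval : ∀ i, P0.map (fun z => z i) = Λ i := fun i => (measurePreserving_eval Λ i).map_eq
  have hzi : ∀ i : Fin n0, ∀ᵐ z ∂P0, z i ∈ Set.Ioc (q i) (q (i + 1)) := by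
    intro i
    have h1 : ∀ᵐ x ∂(P0.map (fun z => z i)), x ∈ Set.Ioc (q i) (q (i + 1)) := by
      rw [heval i]
      exact ae_restrict_mem measurableSet_Ioc
    exact ae_of_ae_map (measurable_pi_apply i).aemeasurable h1
  have hzall : ∀ᵐ z ∂P0, ∀ i : Fin n0, z i ∈ Set.Ioc (q i) (q (i + 1)) := ae_all_iff.2 hzi
  let A1 : ℝ := ∑ i : Fin n0, q i
  let A2 : ℝ := ∑ i : Fin n0, q (i + 1)
  have hA : A2 - A1 ≤ b - a := by
    have h1 : A2 - A1 = q n0 - q 0 := by
      simp only [A1, A2]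
      rw [Finset.sum_range (fun i => q i) |>.symm, Finset.sum_range (fun i => q (i + 1)) |>.symm,
        ← Finset.sum_sub_distrib, Finset.sum_range_sub]
    rw [h1]
    linarith [(hqI n0).2, (hqI 0).1]
  have hZb : ∀ᵐ z ∂P0, A1 ≤ Z z ∧ Z z ≤ A2 := by
    filter_upwards [hzall] with z hz
    exact ⟨Finset.sum_le_sum fun i _ => (hz i).1.le, Finset.sum_le_sum fun i _ => (hz i).2⟩
  have hZint : Integrable Z P0 := by
    refine Integrable.mono' (integrable_const (|A1| + |A2|)) hZm.aestronglyMeasurable ?_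
    filter_upwards [hZb] with z hz
    rw [Real.norm_eq_abs, abs_le]
    constructor
    · linarith [neg_abs_le A1, abs_nonneg A2]
    · linarith [le_abs_self A2, abs_nonneg A1]
  let E0 : ℝ := ∫ z, Z z ∂P0
  have hE1 : A1 ≤ E0 := by
    have h1 : ∫ _, A1 ∂P0 ≤ ∫ z, Z z ∂P0 := integral_mono_ae (integrable_const _) hZint
      (by filter_upwards [hZb] with z hz; exact hz.1)
    simpa using h1
  have hE2 : E0 ≤ A2 := by
    have h1 : ∫ z, Z z ∂P0 ≤ ∫ _, A2 ∂P0 := integral_mono_ae hZint (integrable_const _)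
      (by filter_upwards [hZb] with z hz; exact hz.2)
    simpa using h1
  let v : (Fin n0 → ℝ) → ℝ := fun z => cl ((Z z - E0) / R)
  have hvm : Measurable v := cl_meas.comp ((hZm.sub_const _).div_const _)
  have hv : ∀ᵐ z ∂P0, v z = (Z z - E0) / R := by
    filter_upwards [hZb] with z hz
    apply cl_eq
    · rw [le_div_iff₀ hR]; linarith [hz.1]
    · rw [div_le_iff₀ hR]; linarith [hz.2]
  have hv0 : ∫ z, v z ∂P0 = 0 := by
    rw [integral_congr_ae hv, integral_div, integral_sub hZint (integrable_const _)]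
    simp [E0]
  have hfour := four_unif P0 v hvm (fun z => le_cl _) (fun z => cl_le _) hv0
  obtain ⟨Ω', _, P', π, X, hP', hπ, hmap, hX, hXG, hXG'⟩ :=
    D.extk 4 (P0.prod (UU.prod UI)) (SS v) (fun g => (hfour g).1) (fun g => (hfour g).2)
  have hπ1 : Measurable (fun ω => (π ω).1) := measurable_fst.comp hπ
  have hmap1 : P'.map (fun ω => (π ω).1) = P0 := by
    have h1 : P'.map (fun ω => (π ω).1) = (P'.map π).map Prod.fst := by
      rw [Measure.map_map measurable_fst hπ]; rfl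
    rw [h1, hmap]
    exact measurePreserving_fst.map_eq
  let T : (Fin n0 ⊕ (Fin 4 × Fin m × Bool)) → Ω' → ℝ := fun i =>
    match i with
    | Sum.inl i => fun ω => (π ω).1 i
    | Sum.inr (g, _, true) => X g
    | Sum.inr (g, _, false) => fun ω => D.st (SS v g (π ω)) - X g ω
  have hTm : ∀ i, Measurable (T i) := by
    rintro (i | ⟨g, j, (_ | _)⟩)
    · exact (measurable_pi_apply i).comp hπ1
    · exact (D.st_meas.comp ((hfour g).1.comp hπ)).sub (hX g)
    · exact hX g
  have hTl : ∀ i : Fin n0, P'.map (T (Sum.inl i)) = Λ i := by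
    intro i
    rw [← heval i, ← hmap1, Measure.map_map (measurable_pi_apply i) hπ1]
    rfl
  have hTr : ∀ g j c, P'.map (T (Sum.inr (g, j, c))) = D.G := by
    intro g j c
    cases c
    · exact hXG' g
    · exact hXG g
  have hsumlaw : ∑ i, P'.map (T i) = (n : ℝ≥0∞) • μ := by
    rw [Fintype.sum_sum_type, Finset.sum_congr rfl (fun i _ => hTl i)]
    have h1 : ∑ x : Fin 4 × Fin m × Bool, P'.map (T (Sum.inr x)) = ((8 * m : ℕ) : ℝ≥0∞) • D.G := by
      rw [Finset.sum_congr rfl (fun (x : Fin 4 × Fin m × Bool) _ => hTr x.1 x.2.1 x.2.2), Finset.sum_const]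
      rw [Finset.card_univ, Fintype.card_prod, Fintype.card_prod, Fintype.card_fin, Fintype.card_fin,
        Fintype.card_bool]
      have : 4 * (m * 2) = 8 * m := by ring
      rw [this]
      ext A _
      rw [Measure.smul_apply, Measure.smul_apply, nsmul_eq_mul, smul_eq_mul]
    have h2 : ∑ i : Fin n0, Λ i = L := by
      rw [hLsum]
      exact (Finset.sum_range (fun i => L.restrict (Set.Ioc (q i) (q (i + 1))))).symm
    rw [h1, h2, hLadd]
  have hSS : ∀ g, ∀ᵐ ω ∂P', SS v g (π ω) ∈ Set.Icc (-1 : ℝ) 1 := by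
    intro g
    have h1 : ∀ᵐ w ∂(P0.prod (UU.prod UI)), SS v g w ∈ Set.Icc (-1 : ℝ) 1 := by
      have h2 : ∀ᵐ x ∂((P0.prod (UU.prod UI)).map (SS v g)), x ∈ Set.Icc (-1 : ℝ) 1 := by
        rw [(hfour g).2, ae_iff]
        exact UU_compl
      exact ae_of_ae_map (hfour g).1.aemeasurable h2
    rw [← hmap] at h1
    exact ae_of_ae_map hπ.aemeasurable h1
  have hvπ : ∀ᵐ ω ∂P', v (π ω).1 = (Z (π ω).1 - E0) / R := by
    rw [← hmap1] at hv
    exact ae_of_ae_map hπ1.aemeasurable hv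
  refine avg P' T hTm μ n ?_ (by omega) hsumlaw (8 * m * D.p + E0) ?_
  · rw [Fintype.card_sum, Fintype.card_prod, Fintype.card_prod, Fintype.card_fin, Fintype.card_fin,
      Fintype.card_fin, Fintype.card_bool]
    omega
  · filter_upwards [ae_all_iff.2 hSS, hvπ] with ω h1 h2
    rw [Fintype.sum_sum_type]
    have e1 : ∑ i : Fin n0, T (Sum.inl i) ω = Z (π ω).1 := rfl
    have e2 : ∑ x : Fin 4 × Fin m × Bool, T (Sum.inr x) ω = m * ∑ g, D.st (SS v g (π ω)) := by
      rw [Fintype.sum_prod_type, Finset.mul_sum]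
      refine Finset.sum_congr rfl fun g _ => ?_
      rw [Fintype.sum_prod_type]
      have e3 : ∀ j : Fin m, ∑ c : Bool, T (Sum.inr (g, j, c)) ω = D.st (SS v g (π ω)) := by
        intro j
        rw [Fintype.sum_bool]
        show X g ω + (D.st (SS v g (π ω)) - X g ω) = _
        ring
      rw [Finset.sum_congr rfl (fun j _ => e3 j), Finset.sum_const, Finset.card_univ, Fintype.card_fin,
        nsmul_eq_mul]
    have e4 : ∀ g, D.st (SS v g (π ω)) = 2 * D.p + D.h / 2 * SS v g (π ω) := by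
      intro g
      rw [Dat.st, cl_eq (h1 g).1 (h1 g).2]
    have e5 : ∑ g, D.st (SS v g (π ω)) = 8 * D.p + D.h / 2 * ∑ g, SS v g (π ω) := by
      rw [Finset.sum_congr rfl (fun g _ => e4 g), Finset.sum_add_distrib,
        Finset.sum_const, Finset.card_univ, Fintype.card_fin, nsmul_eq_mul, Finset.mul_sum]
      push_cast
      ring
    have e6 := SS_sum v (π ω)
    have e7 : ∑ g, SS v g (π ω) = -((Z (π ω).1 - E0) / R) := by rw [← h2]; linarith
    rw [e1, e2, e5, e7]
    have e8 : (m : ℝ) * (D.h / 2) * ((Z (π ω).1 - E0) / R) = Z (π ω).1 - E0 := by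
      show R * ((Z (π ω).1 - E0) / R) = Z (π ω).1 - E0
      field_simp
    linarith

end Pool.Agent.CM
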