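import Mathlib

set_option autoImplicit false

namespace Pool.Agent.H12.Crys

open Module

/-- Noetherian finiteness principle: points which can be separated one at a time from all the
others by polynomials are finite in number. -/
theorem finite_of_sep {T J : Type} [Finite J] (x : T → (J → ℝ))
    (h : ∀ a : T, ∃ p : MvPolynomial J ℝ, MvPolynomial.eval (x a) p ≠ 0 ∧
      ∀ b : T, b ≠ a → MvPolynomial.eval (x b) p = 0) : Finite T := by
  classical
  by_contra hinf
  rw [not_finite_iff_infinite] at hinf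
  let I : Set T → Ideal (MvPolynomial J ℝ) := fun S =>
    { carrier := {p | ∀ a ∈ S, MvPolynomial.eval (x a) p = 0}
      add_mem' := by
        intro p q hp hq a ha
        rw [map_add, hp a ha, hq a ha, add_zero]
      zero_mem' := by
        intro a _
        exact map_zero _
      smul_mem' := by
        intro c p hp a ha
        rw [smul_eq_mul, map_mul, hp a ha, mul_zero] }
  have hI : ∀ (S : Set T) (p : MvPolynomial J ℝ),
      p ∈ I S ↔ ∀ a ∈ S, MvPolynomial.eval (x a) p = 0 := fun S p => Iff.rfl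
  have hne : {K : Submodule (MvPolynomial J ℝ) (MvPolynomial J ℝ) |
      ∃ S : Set T, S.Infinite ∧ K = I S}.Nonempty :=
    ⟨I Set.univ, Set.univ, Set.infinite_univ, rfl⟩
  obtain ⟨K, ⟨S, hS, hK⟩, hmax⟩ :=
    set_has_maximal_iff_noetherian.2 (inferInstance : IsNoetherian (MvPolynomial J ℝ)
      (MvPolynomial J ℝ)) _ hne
  obtain ⟨a, ha⟩ := hS.nonempty
  obtain ⟨p, hp1, hp2⟩ := h a
  have hS' : (S \ {a}).Infinite := hS.sdiff (Set.finite_singleton a)
  apply hmax (I (S \ {a})) ⟨_, hS', rfl⟩
  rw [hK]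
  refine lt_of_le_of_ne ?_ ?_
  · intro q hq
    rw [hI] at hq ⊢
    intro b hb
    exact hq b hb.1
  · intro heq
    have h1 : p ∈ I (S \ {a}) := by
      rw [hI]
      intro b hb
      exact hp2 b (fun hba => hb.2 (Set.mem_singleton_iff.2 hba))
    rw [← heq, hI] at h1
    exact hp1 (h1 a ha)

section lin

variable {V E : Type} [AddCommGroup V] [Module ℝ V] [FiniteDimensional ℝ V]
  [AddCommGroup E] [Module ℝ E] [FiniteDimensional ℝ E]

/-- The rigidity lemma: a tangent vector `χ` at the abelian subspace `range σ` is trivial. -/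
theorem rigid (br : E →ₗ[ℝ] E →ₗ[ℝ] E) (hbr : ∀ x y, br x y = - br y x)
    (B : V →ₗ[ℝ] V →ₗ[ℝ] ℝ) (hB : ∀ u v, B u v = B v u) (hB0 : ∀ u, (∀ v, B u v = 0) → u = 0)
    (N : Submodule ℝ E) (σ : V →ₗ[ℝ] E) (h2 : Function.Injective σ)
    (h4 : ∀ X ∈ N, ∃ A : V →ₗ[ℝ] V, (∀ v, br X (σ v) = σ (A v)) ∧
      ∀ u v, B (A u) v = - B u (A v))
    (h5 : ∀ X ∈ N, (∀ v, br X (σ v) = 0) → X ∈ LinearMap.range σ)
    (χ : V →ₗ[ℝ] E) (hχ : ∀ v, χ v ∈ N)
    (hD : ∀ u v, br (σ u) (χ v) + br (χ u) (σ v) = 0) (v : V) : χ v ∈ LinearMap.range σ := by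
  choose A hA1 hA2 using fun u : V => h4 (χ u) (hχ u)
  have hsymm : ∀ u v, A u v = A v u := by
    intro u v
    apply h2
    rw [← hA1, ← hA1, hbr (χ v) (σ u)]
    have := hD u v
    exact eq_neg_of_add_eq_zero_right this
  have hskew : ∀ u v w, B (A u v) w = - B (A u w) v := by
    intro u v w
    rw [hA2 u v w, hB v (A u w)]
  have hzero : ∀ u v w, B (A u v) w = 0 := by
    intro u v w
    have e1 : B (A u v) w = B (A v u) w := by rw [hsymm]
    have e2 : B (A v u) w = - B (A v w) u := hskew v u w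
    have e3 : B (A v w) u = B (A w v) u := by rw [hsymm]
    have e4 : B (A w v) u = - B (A w u) v := hskew w v u
    have e5 : B (A w u) v = B (A u w) v := by rw [hsymm]
    have e6 : B (A u w) v = - B (A u v) w := hskew u w v
    linarith
  apply h5 (χ v) (hχ v)
  intro w
  rw [hA1, hB0 (A v w) (hzero v w), map_zero]

/-- Finiteness of a family of rigid abelian subspaces. -/
theorem finite_family {T ι : Type} [Fintype ι] [DecidableEq ι] (e : Basis ι ℝ V)
    (br : E →ₗ[ℝ] E →ₗ[ℝ] E) (hbr : ∀ x y, br x y = - br y x)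
    (B : V →ₗ[ℝ] V →ₗ[ℝ] ℝ) (hB : ∀ u v, B u v = B v u) (hB0 : ∀ u, (∀ v, B u v = 0) → u = 0)
    (N : Submodule ℝ E) (σ : T → (V →ₗ[ℝ] E)) (h1 : ∀ a v, σ a v ∈ N)
    (h2 : ∀ a, Function.Injective (σ a))
    (h3 : ∀ a u v, br (σ a u) (σ a v) = 0)
    (h4 : ∀ a, ∀ X ∈ N, ∃ A : V →ₗ[ℝ] V, (∀ v, br X (σ a v) = σ a (A v)) ∧
      ∀ u v, B (A u) v = - B u (A v))
    (h5 : ∀ a, ∀ X ∈ N, (∀ v, br X (σ a v) = 0) → X ∈ LinearMap.range (σ a))
    (hdist : ∀ a b, LinearMap.range (σ a) = LinearMap.range (σ b) → a = b) : Finite T := by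
  classical
  let bE := Module.finBasis ℝ E
  let x : T → (ι × Fin (finrank ℝ E) → ℝ) := fun a ik => bE.repr (σ a (e ik.1)) ik.2
  apply finite_of_sep x
  intro a
  obtain ⟨p, hp⟩ := (σ a).exists_leftInverse_of_injective (LinearMap.ker_eq_bot.2 (h2 a))
  have hpa : ∀ v, p (σ a v) = v := fun v => by
    have := LinearMap.congr_fun hp v
    simpa using this
  let C : Submodule ℝ E := N ⊓ LinearMap.ker p
  let m : E →ₗ[ℝ] E := (1 / 2 : ℝ) • (LinearMap.id + (σ a).comp p)
  have hm : ∀ y, m y = (1 / 2 : ℝ) • (y + σ a (p y)) := fun y => rfl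
  let G : (ι → E) →ₗ[ℝ] (ι → C) →ₗ[ℝ] (ι → ι → E) :=
    LinearMap.mk₂ ℝ (fun β χ i j => br (m (β i)) (χ j : E) + br (χ i : E) (m (β j)))
      (by
        intro β β' χ
        funext i j
        simp only [Pi.add_apply, map_add, LinearMap.add_apply]
        abel)
      (by
        intro c β χ
        funext i j
        simp only [Pi.smul_apply, map_smul, LinearMap.smul_apply, smul_add])
      (by
        intro β χ χ'
        funext i j
        simp only [Pi.add_apply, map_add, LinearMap.add_apply, Submodule.coe_add]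
        abel)
      (by
        intro c β χ
        funext i j
        simp only [Pi.smul_apply, map_smul, LinearMap.smul_apply, smul_add, Submodule.coe_smul])
  have hG : ∀ β χ i j, G β χ i j = br (m (β i)) (χ j : E) + br (χ i : E) (m (β j)) :=
    fun β χ i j => rfl
  let s : T → (ι → E) := fun b i => σ b (e i)
  -- injectivity at `a`
  have hinj : LinearMap.ker (G (s a)) = ⊥ := by
    rw [LinearMap.ker_eq_bot']
    intro χ hχ
    have hma : ∀ i, m (s a i) = σ a (e i) := by
      intro i
      rw [hm]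
      show (1 / 2 : ℝ) • (σ a (e i) + σ a (p (σ a (e i)))) = σ a (e i)
      rw [hpa, ← two_smul ℝ (σ a (e i)), smul_smul]
      norm_num
    let χ' : V →ₗ[ℝ] E := e.constr ℝ (fun i => (χ i : E))
    have hχ' : ∀ i, χ' (e i) = (χ i : E) := fun i => e.constr_basis ℝ _ i
    have hmem : ∀ v, χ' v ∈ N := by
      intro v
      rw [← e.sum_repr v, map_sum]
      apply Submodule.sum_mem
      intro i _
      rw [map_smul, hχ']
      exact Submodule.smul_mem _ _ (χ i).2.1
    have hD : ∀ u v, br (σ a u) (χ' v) + br (χ' u) (σ a v) = 0 := by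
      let D : V →ₗ[ℝ] V →ₗ[ℝ] E := (br.compl₁₂ (σ a) χ') + (br.compl₁₂ χ' (σ a))
      have hD0 : D = 0 := by
        apply e.ext
        intro i
        apply e.ext
        intro j
        show br (σ a (e i)) (χ' (e j)) + br (χ' (e i)) (σ a (e j)) = 0
        rw [hχ', hχ']
        have h := congrFun (congrFun hχ i) j
        rw [hG, hma, hma] at h
        exact h
      intro u v
      have := LinearMap.congr_fun (LinearMap.congr_fun hD0 u) v
      exact this
    have hr := rigid br hbr B hB hB0 N (σ a) (h2 a) (h4 a) (h5 a) χ' hmem hD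
    funext i
    apply Subtype.ext
    obtain ⟨v, hv⟩ := hr (e i)
    rw [hχ'] at hv
    have h0 : p (χ i : E) = 0 := (χ i).2.2
    rw [← hv, hpa] at h0
    rw [← hv, h0]
    simp
  obtain ⟨R, hR⟩ := (G (s a)).exists_leftInverse_of_injective hinj
  let bX := Module.finBasis ℝ (ι → C)
  let P : Matrix (Fin (finrank ℝ (ι → C))) (Fin (finrank ℝ (ι → C)))
      (MvPolynomial (ι × Fin (finrank ℝ E)) ℝ) := fun t u =>
    ∑ ik : ι × Fin (finrank ℝ E),
      MvPolynomial.C (bX.repr (R (G (Pi.single ik.1 (bE ik.2)) (bX u))) t) * MvPolynomial.X ik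
  have hexp : ∀ b, s b = ∑ ik : ι × Fin (finrank ℝ E), x b ik • Pi.single ik.1 (bE ik.2) := by
    intro b
    funext i
    rw [Finset.sum_apply, Fintype.sum_prod_type]
    rw [Finset.sum_eq_single i]
    · show σ b (e i) = _
      conv_lhs => rw [← bE.sum_repr (σ b (e i))]
      apply Finset.sum_congr rfl
      intro k _
      show _ = x b (i, k) • (Pi.single i (bE k) : ι → E) i
      rw [Pi.single_eq_same]
    · intro j _ hji
      apply Finset.sum_eq_zero
      intro k _
      show x b (j, k) • (Pi.single j (bE k) : ι → E) i = 0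
      rw [Pi.single_eq_of_ne hji.symm, smul_zero]
    · intro h
      exact absurd (Finset.mem_univ i) h
  have hev : ∀ b, MvPolynomial.eval (x b) P.det = LinearMap.det (R ∘ₗ G (s b)) := by
    intro b
    rw [← LinearMap.det_toMatrix bX, RingHom.map_det]
    congr 1
    ext t u
    rw [RingHom.mapMatrix_apply, Matrix.map_apply, LinearMap.toMatrix_apply]
    show MvPolynomial.eval (x b) (∑ ik : ι × Fin (finrank ℝ E),
      MvPolynomial.C (bX.repr (R (G (Pi.single ik.1 (bE ik.2)) (bX u))) t) * MvPolynomial.X ik) = _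
    rw [map_sum, LinearMap.comp_apply, hexp b, map_sum, LinearMap.sum_apply, map_sum, map_sum,
      Finsupp.finsetSum_apply]
    apply Finset.sum_congr rfl
    intro ik _
    rw [map_mul, MvPolynomial.eval_C, MvPolynomial.eval_X, map_smul, LinearMap.smul_apply,
      map_smul, map_smul, Finsupp.smul_apply, smul_eq_mul, mul_comm]
  refine ⟨P.det, ?_, ?_⟩
  · rw [hev, hR, LinearMap.det_id]
    exact one_ne_zero
  · intro b hb
    rw [hev]
    rw [LinearMap.det_eq_zero_iff_ker_ne_bot]
    -- the kernel vector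
    let c : ι → C := fun i => ⟨s b i - σ a (p (s b i)), by
      refine ⟨Submodule.sub_mem _ (h1 b _) (h1 a _), ?_⟩
      rw [SetLike.mem_coe, LinearMap.mem_ker, map_sub, hpa, sub_self]⟩
    have hc : ∀ i, (c i : E) = s b i - σ a (p (s b i)) := fun i => rfl
    have hc0 : G (s b) c = 0 := by
      funext i j
      rw [hG, hc, hc, hm, hm]
      have e1 : br (s b i) (s b j) = 0 := h3 b _ _
      have e2 : br (σ a (p (s b i))) (σ a (p (s b j))) = 0 := h3 a _ _
      simp only [map_add, map_sub, map_smul, LinearMap.add_apply, LinearMap.sub_apply,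
        LinearMap.smul_apply, e1, e2, Pi.zero_apply, smul_add, smul_sub, sub_zero, zero_sub,
        add_zero, zero_add, smul_zero]
      module
    intro hker
    have hcz : c = 0 := by
      have : c ∈ LinearMap.ker (R ∘ₗ G (s b)) := by
        rw [LinearMap.mem_ker, LinearMap.comp_apply, hc0, map_zero]
      rw [hker] at this
      exact (Submodule.mem_bot ℝ).1 this
    apply hb
    apply hdist
    have hle : LinearMap.range (σ b) ≤ LinearMap.range (σ a) := by
      rintro _ ⟨v, rfl⟩
      rw [← e.sum_repr v, map_sum]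
      apply Submodule.sum_mem
      intro i _
      rw [map_smul]
      apply Submodule.smul_mem
      have h := congrArg (fun f => ((f i : C) : E)) hcz
      have h' : s b i - σ a (p (s b i)) = 0 := h
      rw [sub_eq_zero] at h'
      exact ⟨_, h'.symm⟩
    apply Submodule.eq_of_le_of_finrank_eq hle
    rw [LinearMap.finrank_range_of_inj (h2 a), LinearMap.finrank_range_of_inj (h2 b)]

end lin

end Pool.Agent.H12.Crys
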