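import Mathlib
import Pool.Agent.Helpers.CrysLin

set_option autoImplicit false

namespace Pool.Agent.H12.Crys

open Module

/-- A realisation of the group `G` as a crystallographic group of motions. -/
structure Rzn (G : Type) [Group G] (ι : Type) [Fintype ι]
    (B : (ι → ℝ) →ₗ[ℝ] (ι → ℝ) →ₗ[ℝ] ℝ) where
  φ : G →* ((ι → ℝ) ≃ᵃ[ℝ] (ι → ℝ))
  inj : Function.Injective φ
  iso : ∀ g v w, B ((φ g).linear v) ((φ g).linear w) = B v w
  b : Basis ι ℝ (ι → ℝ)
  lat : {w | ∃ g, (φ g).linear = LinearEquiv.refl ℝ (ι → ℝ) ∧ φ g 0 = w} =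
    (Submodule.span ℤ (Set.range b) : Set (ι → ℝ))

section

variable {G : Type} [Group G] {ι : Type} [Fintype ι]
  {B : (ι → ℝ) →ₗ[ℝ] (ι → ℝ) →ₗ[ℝ] ℝ}

/-- translation part -/
def tr (R : Rzn G ι B) (g : G) : ι → ℝ := R.φ g 0

/-- linear part minus identity -/
def A (R : Rzn G ι B) (g : G) : (ι → ℝ) →ₗ[ℝ] (ι → ℝ) :=
  ((R.φ g).linear : (ι → ℝ) →ₗ[ℝ] (ι → ℝ)) - LinearMap.id

theorem lin_eq (R : Rzn G ι B) (g : G) (v : ι → ℝ) : (R.φ g).linear v = v + A R g v := by
  simp [A]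

theorem app_eq (R : Rzn G ι B) (g : G) (v : ι → ℝ) : R.φ g v = v + A R g v + tr R g := by
  have h := (R.φ g).map_vadd 0 v
  simp only [vadd_eq_add, add_zero] at h
  rw [h, lin_eq]
  rfl

theorem tr_mul (R : Rzn G ι B) (g h : G) : tr R (g * h) = tr R g + tr R h + A R g (tr R h) := by
  have h1 : tr R (g * h) = R.φ g (tr R h) := by
    simp only [tr, map_mul]
    rfl
  rw [h1, app_eq]
  abel

theorem A_mul (R : Rzn G ι B) (g h : G) : A R (g * h) = A R g + A R h + A R g ∘ₗ A R h := by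
  have key : ∀ v, (R.φ (g * h)).linear v = (R.φ g).linear ((R.φ h).linear v) := by
    intro v
    rw [map_mul]
    rfl
  apply LinearMap.ext
  intro v
  have h1 := key v
  rw [lin_eq, lin_eq, lin_eq, map_add] at h1
  simp only [LinearMap.add_apply, LinearMap.comp_apply]
  have h2 : A R (g * h) v = (v + A R (g * h) v) - v := by abel
  rw [h2, h1]
  abel

theorem tr_one (R : Rzn G ι B) : tr R 1 = 0 := by
  simp [tr]

theorem A_one (R : Rzn G ι B) : A R 1 = 0 := by
  apply LinearMap.ext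
  intro v
  simp only [A, map_one, LinearMap.sub_apply, LinearMap.zero_apply]
  show v - v = 0
  abel

theorem eq_one (R : Rzn G ι B) (g : G) (h1 : A R g = 0) (h2 : tr R g = 0) : g = 1 := by
  apply R.inj
  rw [map_one]
  apply AffineEquiv.ext
  intro v
  rw [app_eq, h1, h2]
  simp

theorem A_zero_iff (R : Rzn G ι B) (g : G) :
    A R g = 0 ↔ (R.φ g).linear = LinearEquiv.refl ℝ (ι → ℝ) := by
  constructor
  · intro h
    apply LinearEquiv.ext
    intro v
    rw [lin_eq, h]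
    simp
  · intro h
    apply LinearMap.ext
    intro v
    have := lin_eq R g v
    rw [h] at this
    simp only [LinearEquiv.refl_apply] at this
    simpa using this.symm

theorem eq_of (R : Rzn G ι B) (g h : G) (h1 : A R g = A R h) (h2 : tr R g = tr R h) : g = h := by
  apply R.inj
  apply AffineEquiv.ext
  intro v
  rw [app_eq, app_eq, h1, h2]

theorem comm_of (R : Rzn G ι B) (g h : G) (hg : A R g = 0) (hh : A R h = 0) : g * h = h * g := by
  apply eq_of R
  · rw [A_mul, A_mul, hg, hh]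
  · rw [tr_mul, tr_mul, hg, hh]
    simp only [LinearMap.zero_apply]
    abel

theorem brk_mul (g c : G) : g * c = (g * c * g⁻¹ * c⁻¹) * (c * g) := by group

theorem A_brk_zero (R : Rzn G ι B) (g c : G) (h : A R (g * c) = A R (c * g)) :
    A R (g * c * g⁻¹ * c⁻¹) = 0 := by
  set k := g * c * g⁻¹ * c⁻¹ with hk
  have h1 : A R (g * c) = A R k + A R (c * g) + A R k ∘ₗ A R (c * g) := by
    rw [← A_mul, ← brk_mul]
  rw [h] at h1
  apply LinearMap.ext
  intro v
  -- v = lin (c*g) w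
  obtain ⟨w, rfl⟩ := (R.φ (c * g)).linear.surjective v
  rw [lin_eq]
  have h2 := LinearMap.congr_fun h1 w
  simp only [LinearMap.add_apply, LinearMap.comp_apply] at h2
  rw [map_add, LinearMap.zero_apply]
  have h3 : A R k w + A R (c * g) w + A R k (A R (c * g) w) - A R (c * g) w = 0 := by
    rw [← h2]; abel
  rw [← h3]
  abel

theorem A_brk_left (R : Rzn G ι B) (g c : G) (h : A R g = 0) : A R (g * c * g⁻¹ * c⁻¹) = 0 := by
  apply A_brk_zero
  rw [A_mul, A_mul, h]
  simp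

theorem A_brk_right (R : Rzn G ι B) (g c : G) (h : A R c = 0) : A R (g * c * g⁻¹ * c⁻¹) = 0 := by
  apply A_brk_zero
  rw [A_mul, A_mul, h]
  simp

theorem tr_brk (R : Rzn G ι B) (g c : G) (h : A R c = 0) :
    tr R (g * c * g⁻¹ * c⁻¹) = A R g (tr R c) := by
  have hk := A_brk_right R g c h
  set k := g * c * g⁻¹ * c⁻¹ with hk'
  have h1 : tr R (g * c) = tr R (k * (c * g)) := by rw [← brk_mul]
  rw [tr_mul, tr_mul R k, tr_mul R c, hk, h] at h1
  simp only [LinearMap.zero_apply, add_zero] at h1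
  have h2 : tr R k = (tr R k + (tr R c + tr R g)) - (tr R c + tr R g) := by abel
  rw [h2, ← h1]
  abel

theorem exists_gen (R : Rzn G ι B) (i : ι) : ∃ c : G, A R c = 0 ∧ tr R c = R.b i := by
  have h : R.b i ∈ (Submodule.span ℤ (Set.range R.b) : Set (ι → ℝ)) :=
    Submodule.subset_span ⟨i, rfl⟩
  rw [← R.lat] at h
  obtain ⟨g, h1, h2⟩ := h
  exact ⟨g, (A_zero_iff R g).2 h1, h2⟩

theorem AA_zero (R R' : Rzn G ι B) (g g' : G) (h : A R' g = 0) (h' : A R' g' = 0) :
    A R g ∘ₗ A R g' = 0 := by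
  apply R.b.ext
  intro i
  obtain ⟨c, hc1, hc2⟩ := exists_gen R i
  rw [LinearMap.comp_apply, ← hc2, ← tr_brk R g' c hc1]
  have hk1 := A_brk_right R g' c hc1
  have hk2 := A_brk_left R' g' c h'
  rw [← tr_brk R g _ hk1]
  have hcomm := comm_of R' g (g' * c * g'⁻¹ * c⁻¹) h hk2
  rw [hcomm]
  simp [tr_one]

theorem A_sq (R R' : Rzn G ι B) (g : G) (h : A R' g = 0) (v : ι → ℝ) : A R g (A R g v) = 0 :=
  LinearMap.congr_fun (AA_zero R R' g g h h) v

theorem A_add (R R' : Rzn G ι B) (g g' : G) (h : A R' g = 0) (h' : A R' g' = 0) :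
    A R (g * g') = A R g + A R g' := by
  rw [A_mul, AA_zero R R' g g' h h', add_zero]

theorem skew (R R' : Rzn G ι B) (g : G) (h : A R' g = 0) (u v : ι → ℝ) :
    B (A R g u) v = - B u (A R g v) := by
  have h1 := R.iso g u v
  rw [lin_eq, lin_eq] at h1
  have h2 := R.iso (g * g) u v
  rw [lin_eq, lin_eq, A_add R R' g g h h] at h2
  simp only [map_add, LinearMap.add_apply] at h1 h2
  linarith

end

end Pool.Agent.H12.Crys
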