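import Mathlib
import Pool.Agent.Helpers.CrysGrp

set_option autoImplicit false

namespace Pool.Agent.H12.Crys

open Module

variable {G : Type} [Group G] {ι : Type} [Fintype ι]
  {B : (ι → ℝ) →ₗ[ℝ] (ι → ℝ) →ₗ[ℝ] ℝ}

/-- the affine Lie algebra -/
abbrev AffLie (ι : Type) [Fintype ι] := ((ι → ℝ) →ₗ[ℝ] (ι → ℝ)) × (ι → ℝ)

/-- the Lie bracket of the affine Lie algebra -/
def br (ι : Type) [Fintype ι] : AffLie ι →ₗ[ℝ] AffLie ι →ₗ[ℝ] AffLie ι :=
  LinearMap.mk₂ ℝ (fun x y => (x.1 ∘ₗ y.1 - y.1 ∘ₗ x.1, x.1 y.2 - y.1 x.2))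
    (by
      intro x x' y
      apply Prod.ext
      · apply LinearMap.ext; intro v
        simp only [Prod.fst_add, LinearMap.sub_apply, LinearMap.comp_apply, LinearMap.add_apply,
          map_add]
        abel
      · simp only [Prod.fst_add, Prod.snd_add, LinearMap.add_apply, map_add]
        abel)
    (by
      intro c x y
      apply Prod.ext
      · apply LinearMap.ext; intro v
        simp only [Prod.smul_fst, LinearMap.sub_apply, LinearMap.comp_apply, LinearMap.smul_apply,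
          map_smul, smul_sub]
      · simp only [Prod.smul_fst, Prod.smul_snd, LinearMap.smul_apply, map_smul, smul_sub])
    (by
      intro x y y'
      apply Prod.ext
      · apply LinearMap.ext; intro v
        simp only [Prod.fst_add, LinearMap.sub_apply, LinearMap.comp_apply, LinearMap.add_apply,
          map_add]
        abel
      · simp only [Prod.fst_add, Prod.snd_add, LinearMap.add_apply, map_add]
        abel)
    (by
      intro c x y
      apply Prod.ext
      · apply LinearMap.ext; intro v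
        simp only [Prod.smul_fst, LinearMap.sub_apply, LinearMap.comp_apply, LinearMap.smul_apply,
          map_smul, smul_sub]
      · simp only [Prod.smul_fst, Prod.smul_snd, LinearMap.smul_apply, map_smul, smul_sub])

theorem br_apply (x y : AffLie ι) :
    br ι x y = (x.1 ∘ₗ y.1 - y.1 ∘ₗ x.1, x.1 y.2 - y.1 x.2) := rfl

theorem br_skew (x y : AffLie ι) : br ι x y = - br ι y x := by
  rw [br_apply, br_apply]
  apply Prod.ext
  · simp
  · simp

/-- logarithm -/
noncomputable def lg (R : Rzn G ι B) (g : G) : AffLie ι :=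
  (A R g, tr R g - (1 / 2 : ℝ) • A R g (tr R g))

theorem lg_mul (R R' : Rzn G ι B) (g g' : G) (h : A R' g = 0) (h' : A R' g' = 0) :
    lg R (g * g') = lg R g + lg R g' := by
  have hAA := LinearMap.congr_fun (AA_zero R R' g g' h h')
  have hAA' := LinearMap.congr_fun (AA_zero R R' g' g h' h)
  have hA1 := A_sq R R' g h
  have hA2 := A_sq R R' g' h'
  have hc : tr R (g * g') = tr R (g' * g) := by rw [comm_of R' g g' h h']
  rw [tr_mul, tr_mul] at hc
  have hc' : A R g (tr R g') = A R g' (tr R g) := by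
    have h1 : A R g (tr R g') = (tr R g + tr R g' + A R g (tr R g')) - (tr R g + tr R g') := by
      abel
    rw [h1, hc]
    abel
  simp only [LinearMap.comp_apply, LinearMap.zero_apply] at hAA hAA'
  apply Prod.ext
  · exact A_add R R' g g' h h'
  · show tr R (g * g') - (1 / 2 : ℝ) • A R (g * g') (tr R (g * g')) =
      (tr R g - (1 / 2 : ℝ) • A R g (tr R g)) + (tr R g' - (1 / 2 : ℝ) • A R g' (tr R g'))
    rw [A_add R R' g g' h h', tr_mul]
    simp only [LinearMap.add_apply, map_add, hA1, hAA', hAA, hc', hA2]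
    module

theorem lg_brk (R0 R R' : Rzn G ι B) (g c : G) (h : A R' g = 0) (h' : A R c = 0) :
    lg R0 (g * c * g⁻¹ * c⁻¹) = br ι (lg R0 g) (lg R0 c) := by
  have hk1 : A R' (g * c * g⁻¹ * c⁻¹) = 0 := A_brk_left R' g c h
  have hk2 : A R (g * c * g⁻¹ * c⁻¹) = 0 := A_brk_right R g c h'
  have hgc : g * c = (g * c * g⁻¹ * c⁻¹) * (c * g) := brk_mul g c
  set k := g * c * g⁻¹ * c⁻¹ with hk
  -- products vanish
  have gg := LinearMap.congr_fun (AA_zero R0 R' g g h h)
  have cc := LinearMap.congr_fun (AA_zero R0 R c c h' h')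
  have kk := LinearMap.congr_fun (AA_zero R0 R k k hk2 hk2)
  have kg := LinearMap.congr_fun (AA_zero R0 R' k g hk1 h)
  have gk := LinearMap.congr_fun (AA_zero R0 R' g k h hk1)
  have kc := LinearMap.congr_fun (AA_zero R0 R k c hk2 h')
  have ck := LinearMap.congr_fun (AA_zero R0 R c k h' hk2)
  simp only [LinearMap.comp_apply, LinearMap.zero_apply] at gg cc kk kg gk kc ck
  -- linear parts
  have e1 : ∀ v, A R0 k v = A R0 g (A R0 c v) - A R0 c (A R0 g v) := by
    intro v
    have h1 := LinearMap.congr_fun (congrArg (A R0) hgc) v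
    rw [A_mul, A_mul R0 k, A_mul R0 c] at h1
    simp only [LinearMap.add_apply, LinearMap.comp_apply, map_add, kg, kc, add_zero] at h1
    have h2 : A R0 k v = (A R0 k v + (A R0 c v + A R0 g v + A R0 c (A R0 g v))) -
      (A R0 c v + A R0 g v + A R0 c (A R0 g v)) := by abel
    rw [h2, ← h1]
    abel
  -- commutations
  have e2 : A R0 k (tr R0 g) = A R0 g (tr R0 k) := by
    have h1 : tr R0 (k * g) = tr R0 (g * k) := by rw [comm_of R' k g hk1 h]
    rw [tr_mul R0 k g, tr_mul R0 g k] at h1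
    have h2 : A R0 k (tr R0 g) = (tr R0 k + tr R0 g + A R0 k (tr R0 g)) -
      (tr R0 k + tr R0 g) := by abel
    rw [h2, h1]
    abel
  have e3 : A R0 k (tr R0 c) = A R0 c (tr R0 k) := by
    have h1 : tr R0 (k * c) = tr R0 (c * k) := by rw [comm_of R k c hk2 h']
    rw [tr_mul R0 k c, tr_mul R0 c k] at h1
    have h2 : A R0 k (tr R0 c) = (tr R0 k + tr R0 c + A R0 k (tr R0 c)) -
      (tr R0 k + tr R0 c) := by abel
    rw [h2, h1]
    abel
  -- translation part
  have e4 : tr R0 k = A R0 g (tr R0 c) - A R0 c (tr R0 g) - A R0 k (tr R0 c) -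
      A R0 k (tr R0 g) := by
    have h1 := congrArg (tr R0) hgc
    rw [tr_mul, tr_mul R0 k, tr_mul R0 c] at h1
    simp only [map_add, kc] at h1
    have h2 : tr R0 k = (tr R0 k + (tr R0 c + tr R0 g + A R0 c (tr R0 g)) +
      (A R0 k (tr R0 c) + A R0 k (tr R0 g) + 0)) - (tr R0 c + tr R0 g + A R0 c (tr R0 g)) -
      (A R0 k (tr R0 c) + A R0 k (tr R0 g)) := by abel
    rw [h2, ← h1]
    abel
  have e5 : A R0 k (tr R0 k) = 0 := by
    rw [e4]
    simp only [map_sub, kg, kc, kk, sub_zero]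
  -- A g (tr k) = - A g A c (tr g)
  have e6 : A R0 g (tr R0 k) = - A R0 g (A R0 c (tr R0 g)) := by
    rw [e4]
    simp only [map_sub, gg, gk, sub_zero, zero_sub]
  have e7 : A R0 c (tr R0 k) = A R0 c (A R0 g (tr R0 c)) := by
    rw [e4]
    simp only [map_sub, cc, ck, sub_zero]
  have e8 : A R0 c (A R0 g (tr R0 g)) = (2 : ℝ) • A R0 g (A R0 c (tr R0 g)) := by
    have h1 := e2
    rw [e6, e1] at h1
    have h2 : A R0 c (A R0 g (tr R0 g)) = A R0 g (A R0 c (tr R0 g)) -
      (A R0 g (A R0 c (tr R0 g)) - A R0 c (A R0 g (tr R0 g))) := by abel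
    rw [h2, h1, two_smul]
    abel
  have e9 : A R0 g (A R0 c (tr R0 c)) = (2 : ℝ) • A R0 c (A R0 g (tr R0 c)) := by
    have h1 := e3
    rw [e7, e1] at h1
    have h2 : A R0 g (A R0 c (tr R0 c)) = (A R0 g (A R0 c (tr R0 c)) -
      A R0 c (A R0 g (tr R0 c))) + A R0 c (A R0 g (tr R0 c)) := by abel
    rw [h2, h1, two_smul]
  rw [br_apply]
  apply Prod.ext
  · apply LinearMap.ext
    intro v
    show A R0 k v = A R0 g (A R0 c v) - A R0 c (A R0 g v)
    exact e1 v
  · show tr R0 k - (1 / 2 : ℝ) • A R0 k (tr R0 k) =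
      A R0 g (tr R0 c - (1 / 2 : ℝ) • A R0 c (tr R0 c)) -
      A R0 c (tr R0 g - (1 / 2 : ℝ) • A R0 g (tr R0 g))
    rw [e5, smul_zero, sub_zero, map_sub, map_sub, map_smul, map_smul, e8, e9, e4, e2, e3, e6, e7]
    module

theorem lg_one (R : Rzn G ι B) : lg R 1 = 0 := by
  simp [lg, A_one, tr_one]

theorem lg_eq_zero (R : Rzn G ι B) (g : G) (h : lg R g = 0) : g = 1 := by
  have h1 : A R g = 0 := congrArg Prod.fst h
  have h2 : tr R g - (1 / 2 : ℝ) • A R g (tr R g) = 0 := congrArg Prod.snd h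
  rw [h1] at h2
  simp at h2
  exact eq_one R g h1 h2

theorem lg_self (R : Rzn G ι B) (g : G) (h : A R g = 0) : lg R g = (0, tr R g) := by
  apply Prod.ext
  · exact h
  · show tr R g - (1 / 2 : ℝ) • A R g (tr R g) = tr R g
    rw [h]
    simp

/-- chosen generators of the lattice -/
noncomputable def gen (R : Rzn G ι B) (i : ι) : G := (exists_gen R i).choose

theorem gen_A (R : Rzn G ι B) (i : ι) : A R (gen R i) = 0 := (exists_gen R i).choose_spec.1
theorem gen_tr (R : Rzn G ι B) (i : ι) : tr R (gen R i) = R.b i := (exists_gen R i).choose_spec.2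

/-- the parametrisation of the abelian subalgebra attached to the realisation `R` -/
noncomputable def sg (R0 R : Rzn G ι B) : (ι → ℝ) →ₗ[ℝ] AffLie ι :=
  R.b.constr ℝ (fun i => lg R0 (gen R i))

theorem sg_b (R0 R : Rzn G ι B) (i : ι) : sg R0 R (R.b i) = lg R0 (gen R i) :=
  R.b.constr_basis ℝ _ i

theorem lat_mem (R : Rzn G ι B) (c : G) (h : A R c = 0) :
    tr R c ∈ Submodule.span ℤ (Set.range R.b) := by
  have : tr R c ∈ (Submodule.span ℤ (Set.range R.b) : Set (ι → ℝ)) := by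
    rw [← R.lat]
    exact ⟨c, (A_zero_iff R c).1 h, rfl⟩
  exact this

theorem inv_A (R : Rzn G ι B) (g : G) (h : A R g = 0) : A R g⁻¹ = 0 ∧ tr R g⁻¹ = - tr R g := by
  have h1 : A R g⁻¹ = 0 := by
    have := A_mul R g⁻¹ g
    rw [inv_mul_cancel, A_one, h] at this
    simpa using this.symm
  refine ⟨h1, ?_⟩
  have h2 := tr_mul R g⁻¹ g
  rw [inv_mul_cancel, tr_one, h1] at h2
  simp only [LinearMap.zero_apply, add_zero] at h2
  exact (eq_neg_of_add_eq_zero_left h2.symm)

theorem sg_lat (R0 R : Rzn G ι B) (w : ι → ℝ) (hw : w ∈ Submodule.span ℤ (Set.range R.b)) :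
    ∃ c : G, A R c = 0 ∧ tr R c = w ∧ lg R0 c = sg R0 R w := by
  induction hw using Submodule.span_induction with
  | mem x hx =>
    obtain ⟨i, rfl⟩ := hx
    exact ⟨gen R i, gen_A R i, gen_tr R i, (sg_b R0 R i).symm⟩
  | zero => exact ⟨1, A_one R, tr_one R, by rw [lg_one, map_zero]⟩
  | add x y _ _ hx hy =>
    obtain ⟨c, h1, h2, h3⟩ := hx
    obtain ⟨d, k1, k2, k3⟩ := hy
    refine ⟨c * d, ?_, ?_, ?_⟩
    · rw [A_mul, h1, k1]; simp
    · rw [tr_mul, h1, h2, k2]; simp
    · rw [lg_mul R0 R c d h1 k1, h3, k3, map_add]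
  | smul n x _ hx =>
    obtain ⟨c, h1, h2, h3⟩ := hx
    -- powers
    have hpow : ∀ m : ℕ, A R (c ^ m) = 0 ∧ tr R (c ^ m) = (m : ℤ) • x ∧
        lg R0 (c ^ m) = sg R0 R ((m : ℤ) • x) := by
      intro m
      induction m with
      | zero => simp [A_one, tr_one, lg_one]
      | succ m ih =>
        obtain ⟨i1, i2, i3⟩ := ih
        rw [pow_succ]
        refine ⟨?_, ?_, ?_⟩
        · rw [A_mul, i1, h1]; simp
        · rw [tr_mul, i1, i2, h2]
          simp [add_smul]
        · have hx' : ((m + 1 : ℕ) : ℤ) • x = (m : ℤ) • x + x := by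
            push_cast
            rw [add_smul, one_smul]
          rw [lg_mul R0 R _ _ i1 h1, i3, h3, hx', map_add]
    rcases Int.eq_nat_or_neg n with ⟨m, rfl | rfl⟩
    · obtain ⟨i1, i2, i3⟩ := hpow m
      exact ⟨c ^ m, i1, i2, i3⟩
    · obtain ⟨i1, i2, i3⟩ := hpow m
      obtain ⟨j1, j2⟩ := inv_A R _ i1
      refine ⟨(c ^ m)⁻¹, j1, ?_, ?_⟩
      · rw [j2, i2, neg_smul]
      · have h5 := lg_mul R0 R (c ^ m)⁻¹ (c ^ m) j1 i1
        rw [inv_mul_cancel, lg_one, i3] at h5
        rw [neg_smul, map_neg]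
        exact eq_neg_of_add_eq_zero_left h5.symm

theorem sg_tr (R0 R : Rzn G ι B) (c : G) (h : A R c = 0) : sg R0 R (tr R c) = lg R0 c := by
  obtain ⟨d, h1, h2, h3⟩ := sg_lat R0 R (tr R c) (lat_mem R c h)
  have : d = c := eq_of R d c (by rw [h1, h]) h2
  rw [← h3, this]

/-- the action of lattice elements on the abelian subalgebras -/
theorem br_sg (R0 R R' : Rzn G ι B) (g : G) (h : A R' g = 0) (v : ι → ℝ) :
    br ι (lg R0 g) (sg R0 R v) = sg R0 R (A R g v) := by
  have h1 : (br ι (lg R0 g)) ∘ₗ (sg R0 R) = (sg R0 R) ∘ₗ (A R g) := by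
    apply R.b.ext
    intro i
    rw [LinearMap.comp_apply, LinearMap.comp_apply, sg_b,
      ← lg_brk R0 R R' g (gen R i) h (gen_A R i), ← gen_tr R i, ← tr_brk R g _ (gen_A R i),
      sg_tr]
    exact A_brk_right R g _ (gen_A R i)
  exact LinearMap.congr_fun h1 v

end Pool.Agent.H12.Crys
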