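import Mathlib
import Pool.Agent.Helpers.CrysLog

set_option autoImplicit false

namespace Pool.Agent.H12.Crys

open Module

variable {G : Type} [Group G] {ι : Type} [Fintype ι]
  {B : (ι → ℝ) →ₗ[ℝ] (ι → ℝ) →ₗ[ℝ] ℝ}

/-- evaluation of the linear part on the base lattice -/
noncomputable def ev (R0 : Rzn G ι B) : AffLie ι →ₗ[ℝ] (ι → ι → ℝ) × (ι → ℝ) :=
  LinearMap.prodMap (LinearMap.pi fun k => LinearMap.applyₗ (R0.b k)) LinearMap.id

theorem ev_apply (R0 : Rzn G ι B) (x : AffLie ι) :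
    ev R0 x = (fun k => x.1 (R0.b k), x.2) := rfl

theorem ev_inj (R0 : Rzn G ι B) (x : AffLie ι) (h : ev R0 x = 0) : x = 0 := by
  rw [ev_apply] at h
  have h1 := congrArg Prod.fst h
  have h2 := congrArg Prod.snd h
  apply Prod.ext
  · apply R0.b.ext
    intro k
    exact congrFun h1 k
  · exact h2

theorem sg_inj (R0 R : Rzn G ι B) : Function.Injective (sg R0 R) := by
  classical
  let f : (ι → ℝ) →ₗ[ℝ] ((ι → ι → ℝ) × (ι → ℝ)) := ev R0 ∘ₗ sg R0 R
  let s : ι → ((ι → ι → ℝ) × (ι → ℝ)) := fun i => f (R.b i)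
  have hmem : ∀ y ∈ Submodule.span ℤ (Set.range s), ∃ c, A R c = 0 ∧ ev R0 (lg R0 c) = y := by
    have h1 : Submodule.span ℤ (Set.range s) =
        (Submodule.span ℤ (Set.range R.b)).map (f.restrictScalars ℤ) := by
      rw [Submodule.map_span, ← Set.range_comp]
      rfl
    intro y hy
    rw [h1] at hy
    obtain ⟨w, hw, rfl⟩ := hy
    obtain ⟨c, h1, h2, h3⟩ := sg_lat R0 R w hw
    exact ⟨c, h1, by rw [h3]; rfl⟩
  obtain ⟨ε, hε, hball⟩ : ∃ ε > 0, ∀ w ∈ Submodule.span ℤ (Set.range R0.b), ‖w‖ < ε → w = 0 := by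
    have h1 : IsOpen ({0} : Set (Submodule.span ℤ (Set.range R0.b))) := isOpen_discrete _
    obtain ⟨ε, hε, h2⟩ := Metric.isOpen_singleton_iff.1 h1
    refine ⟨ε, hε, ?_⟩
    intro w hw hn
    have h3 := h2 ⟨w, hw⟩ (by
      rw [dist_eq_norm, sub_zero]
      exact hn)
    exact congrArg Subtype.val h3
  have hdisc : DiscreteTopology (Submodule.span ℤ (Set.range s)) := by
    apply discreteTopology_of_isOpen_singleton_zero
    rw [Metric.isOpen_singleton_iff]
    refine ⟨ε, hε, ?_⟩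
    rintro ⟨y, hy⟩ hdist
    rw [dist_eq_norm, sub_zero] at hdist
    have hn : ‖y‖ < ε := hdist
    obtain ⟨c, hc, rfl⟩ := hmem y hy
    rw [ev_apply, Prod.norm_def, max_lt_iff] at hn
    obtain ⟨hn1, hn2⟩ := hn
    -- the linear part vanishes
    have hA0 : A R0 c = 0 := by
      apply R0.b.ext
      intro k
      have hk : ‖(lg R0 c).1 (R0.b k)‖ < ε :=
        lt_of_le_of_lt (norm_le_pi_norm (fun k => (lg R0 c).1 (R0.b k)) k) hn1
      have hlat : A R0 c (R0.b k) ∈ Submodule.span ℤ (Set.range R0.b) := by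
        rw [← gen_tr R0 k, ← tr_brk R0 c _ (gen_A R0 k)]
        exact lat_mem R0 _ (A_brk_right R0 c _ (gen_A R0 k))
      exact hball _ hlat hk
    have hl := lg_self R0 c hA0
    rw [hl] at hn2
    have ht : tr R0 c = 0 := hball _ (lat_mem R0 c hA0) hn2
    have hc1 : c = 1 := eq_one R0 c hA0 ht
    apply Subtype.ext
    show ev R0 (lg R0 c) = 0
    rw [hc1, lg_one, map_zero]
  have hZ : LinearIndependent ℤ s := by
    rw [Fintype.linearIndependent_iff]
    intro m hm
    have hw : (∑ i, m i • R.b i) ∈ Submodule.span ℤ (Set.range R.b) :=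
      Submodule.sum_mem _ (fun i _ => Submodule.smul_mem _ _ (Submodule.subset_span ⟨i, rfl⟩))
    obtain ⟨c, h1, h2, h3⟩ := sg_lat R0 R _ hw
    have h4 : ev R0 (lg R0 c) = 0 := by
      rw [h3]
      show f (∑ i, m i • R.b i) = 0
      rw [map_sum, ← hm]
      apply Finset.sum_congr rfl
      intro i _
      exact map_zsmul f (m i) (R.b i)
    have h5 : c = 1 := lg_eq_zero R0 c (ev_inj R0 _ h4)
    rw [h5, tr_one] at h2
    have h6 : ∑ i, ((m i : ℝ)) • R.b i = 0 := by
      rw [h2]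
      apply Finset.sum_congr rfl
      intro i _
      exact Int.cast_smul_eq_zsmul ℝ (m i) (R.b i)
    have h7 := (Fintype.linearIndependent_iff.1 R.b.linearIndependent) _ h6
    intro i
    exact_mod_cast h7 i
  have h1 := Real.finrank_eq_int_finrank_of_discrete hdisc
  have h2 : (Set.range s).finrank ℤ = Fintype.card ι := finrank_span_eq_card hZ
  have h3 : LinearIndependent ℝ s := linearIndependent_iff_card_eq_finrank_span.2 (by rw [h1, h2])
  rw [injective_iff_map_eq_zero]
  intro v hv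
  have h4 : ∑ i, R.b.repr v i • s i = 0 := by
    have h5 : f v = 0 := by
      show ev R0 (sg R0 R v) = 0
      rw [hv, map_zero]
    rw [← h5]
    conv_rhs => rw [← R.b.sum_repr v, map_sum]
    apply Finset.sum_congr rfl
    intro i _
    rw [map_smul]
  have h6 := (Fintype.linearIndependent_iff.1 h3) _ h4
  apply R.b.repr.injective
  ext i
  simp [h6 i]

theorem sg_abel (R0 R : Rzn G ι B) (u v : ι → ℝ) : br ι (sg R0 R u) (sg R0 R v) = 0 := by
  have h : (br ι).compl₁₂ (sg R0 R) (sg R0 R) = 0 := by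
    apply R.b.ext
    intro i
    apply R.b.ext
    intro j
    show br ι (sg R0 R (R.b i)) (sg R0 R (R.b j)) = 0
    rw [sg_b, sg_b, ← lg_brk R0 R R _ _ (gen_A R i) (gen_A R j), comm_of R _ _ (gen_A R i)
      (gen_A R j)]
    simp [lg_one]
  exact LinearMap.congr_fun (LinearMap.congr_fun h u) v

theorem le_of_range (R0 R R' : Rzn G ι B)
    (h : LinearMap.range (sg R0 R) ≤ LinearMap.range (sg R0 R')) (g : G) (hg : A R g = 0) :
    A R' g = 0 := by
  obtain ⟨u, hu⟩ := h ⟨tr R g, sg_tr R0 R g hg⟩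
  apply R'.b.ext
  intro i
  rw [← gen_tr R' i, ← tr_brk R' g _ (gen_A R' i)]
  have h1 : g * gen R' i * g⁻¹ * (gen R' i)⁻¹ = 1 := by
    apply lg_eq_zero R0
    rw [lg_brk R0 R' R g _ hg (gen_A R' i), ← hu, ← sg_b R0 R' i, sg_abel]
  rw [h1, tr_one]
  rfl

/-- dimension formula -/
theorem finrank_map_add {E F : Type} [AddCommGroup E] [Module ℝ E] [FiniteDimensional ℝ E]
    [AddCommGroup F] [Module ℝ F] (f : E →ₗ[ℝ] F) (N : Submodule ℝ E) :
    finrank ℝ (N.map f) + finrank ℝ (N ⊓ LinearMap.ker f : Submodule ℝ E) = finrank ℝ N := by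
  have h := (f.domRestrict N).finrank_range_add_finrank_ker
  rw [LinearMap.range_domRestrict] at h
  have h2 : finrank ℝ (LinearMap.ker (f.domRestrict N)) =
      finrank ℝ (N ⊓ LinearMap.ker f : Submodule ℝ E) := by
    have h3 : (LinearMap.ker (f.domRestrict N)).map N.subtype = N ⊓ LinearMap.ker f := by
      ext x
      simp only [Submodule.mem_map, LinearMap.mem_ker, LinearMap.domRestrict_apply,
        Submodule.mem_inf, Submodule.subtype_apply]
      constructor
      · rintro ⟨y, hy, rfl⟩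
        exact ⟨y.2, hy⟩
      · rintro ⟨h1, h2⟩
        exact ⟨⟨x, h1⟩, h2, rfl⟩
    rw [← h3]
    exact (Submodule.equivMapOfInjective N.subtype N.injective_subtype _).finrank_eq
  rw [h2] at h
  exact h

theorem main (hB : ∀ u v, B u v = B v u) (hB0 : ∀ u, (∀ v, B u v = 0) → u = 0) :
    {L : Subgroup G | ∃ R : Rzn G ι B, ∀ g, g ∈ L ↔ A R g = 0}.Finite := by
  classical
  by_cases hne : Nonempty (Rzn G ι B)
  swap
  · have : {L : Subgroup G | ∃ R : Rzn G ι B, ∀ g, g ∈ L ↔ A R g = 0} = ∅ := by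
      ext L
      simp only [Set.mem_ofPred_eq, Set.mem_empty_iff_false, iff_false]
      rintro ⟨R, _⟩
      exact hne ⟨R⟩
    rw [this]
    exact Set.finite_empty
  let U : Set G := {g | ∃ R' : Rzn G ι B, A R' g = 0}
  let pd : Rzn G ι B → ℕ := fun R => finrank ℝ (Submodule.span ℝ (A R '' U))
  obtain ⟨R0, hmin⟩ : ∃ R0, ∀ R, pd R0 ≤ pd R := by
    obtain ⟨R1⟩ := hne
    obtain ⟨R0, _, h⟩ := WellFounded.has_min (measure pd).wf Set.univ ⟨R1, trivial⟩
    exact ⟨R0, fun R => not_lt.1 (h R trivial)⟩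
  let N : Submodule ℝ (AffLie ι) := Submodule.span ℝ (lg R0 '' U)
  -- the basic facts
  have f1 : ∀ (R : Rzn G ι B) v, sg R0 R v ∈ N := by
    intro R v
    rw [← R.b.sum_repr v, map_sum]
    apply Submodule.sum_mem
    intro i _
    rw [map_smul, sg_b]
    apply Submodule.smul_mem
    exact Submodule.subset_span ⟨gen R i, ⟨R, gen_A R i⟩, rfl⟩
  have f4 : ∀ (R : Rzn G ι B), ∀ X ∈ N, ∃ S : (ι → ℝ) →ₗ[ℝ] (ι → ℝ),
      (∀ v, br ι X (sg R0 R v) = sg R0 R (S v)) ∧ ∀ u v, B (S u) v = - B u (S v) := by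
    intro R X hX
    induction hX using Submodule.span_induction with
    | mem x hx =>
      obtain ⟨g, ⟨R', hg⟩, rfl⟩ := hx
      exact ⟨A R g, br_sg R0 R R' g hg, skew R R' g hg⟩
    | zero => exact ⟨0, by simp, by simp⟩
    | add x y _ _ hx hy =>
      obtain ⟨S, h1, h2⟩ := hx
      obtain ⟨S', h1', h2'⟩ := hy
      refine ⟨S + S', ?_, ?_⟩
      · intro v
        rw [map_add, LinearMap.add_apply, h1, h1', LinearMap.add_apply, map_add]
      · intro u v
        simp only [LinearMap.add_apply, map_add, h2, h2']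
        ring
    | smul c x _ hx =>
      obtain ⟨S, h1, h2⟩ := hx
      refine ⟨c • S, ?_, ?_⟩
      · intro v
        rw [map_smul, LinearMap.smul_apply, h1, LinearMap.smul_apply, map_smul]
      · intro u v
        simp only [LinearMap.smul_apply, map_smul, h2, smul_eq_mul]
        ring
  have f5 : ∀ (R : Rzn G ι B), ∀ X ∈ N, (∀ v, br ι X (sg R0 R v) = 0) →
      X ∈ LinearMap.range (sg R0 R) := by
    intro R
    obtain ⟨p, hp⟩ := (sg R0 R).exists_leftInverse_of_injective
      (LinearMap.ker_eq_bot.2 (sg_inj R0 R))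
    have hpa : ∀ v, p (sg R0 R v) = v := fun v => by
      have := LinearMap.congr_fun hp v
      simpa using this
    let α : AffLie ι →ₗ[ℝ] ((ι → ℝ) →ₗ[ℝ] (ι → ℝ)) :=
      { toFun := fun X => p ∘ₗ (br ι X) ∘ₗ (sg R0 R)
        map_add' := by
          intro X Y
          apply LinearMap.ext
          intro v
          simp only [LinearMap.comp_apply, map_add, LinearMap.add_apply]
        map_smul' := by
          intro c X
          apply LinearMap.ext
          intro v
          simp only [LinearMap.comp_apply, map_smul, LinearMap.smul_apply, RingHom.id_apply] }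
    have hα : ∀ X v, α X v = p (br ι X (sg R0 R v)) := fun X v => rfl
    have e1 : N.map α = Submodule.span ℝ (A R '' U) := by
      show (Submodule.span ℝ (lg R0 '' U)).map α = _
      rw [Submodule.map_span, ← Set.image_comp]
      congr 1
      apply Set.image_congr
      rintro g ⟨R', hg⟩
      apply LinearMap.ext
      intro v
      show α (lg R0 g) v = A R g v
      rw [hα, br_sg R0 R R' g hg, hpa]
    have e0 : N.map (LinearMap.fst ℝ ((ι → ℝ) →ₗ[ℝ] (ι → ℝ)) (ι → ℝ)) =
        Submodule.span ℝ (A R0 '' U) := by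
      show (Submodule.span ℝ (lg R0 '' U)).map _ = _
      rw [Submodule.map_span, ← Set.image_comp]
      rfl
    have d1 := finrank_map_add α N
    have d0 := finrank_map_add (LinearMap.fst ℝ ((ι → ℝ) →ₗ[ℝ] (ι → ℝ)) (ι → ℝ)) N
    rw [e1] at d1
    rw [e0] at d0
    have hm : finrank ℝ (Submodule.span ℝ (A R0 '' U)) ≤ finrank ℝ (Submodule.span ℝ (A R '' U)) :=
      hmin R
    have hker : finrank ℝ (N ⊓ LinearMap.ker (LinearMap.fst ℝ ((ι → ℝ) →ₗ[ℝ] (ι → ℝ)) (ι → ℝ)) :
        Submodule ℝ (AffLie ι)) ≤ finrank ℝ (ι → ℝ) := by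
      have h1 : (N ⊓ LinearMap.ker (LinearMap.fst ℝ ((ι → ℝ) →ₗ[ℝ] (ι → ℝ)) (ι → ℝ)) :
        Submodule ℝ (AffLie ι)) ≤
          LinearMap.range (LinearMap.inr ℝ ((ι → ℝ) →ₗ[ℝ] (ι → ℝ)) (ι → ℝ)) := by
        rintro ⟨x, y⟩ ⟨_, hx⟩
        have hx' : x = 0 := hx
        exact ⟨y, by rw [hx']; rfl⟩
      have h2 := Submodule.finrank_mono h1
      rw [LinearMap.finrank_range_of_inj LinearMap.inr_injective] at h2
      exact h2
    have hle : LinearMap.range (sg R0 R) ≤ N ⊓ LinearMap.ker α := by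
      rintro _ ⟨v, rfl⟩
      refine ⟨f1 R v, ?_⟩
      rw [SetLike.mem_coe, LinearMap.mem_ker]
      apply LinearMap.ext
      intro w
      rw [hα, sg_abel, map_zero]
      rfl
    have heq : LinearMap.range (sg R0 R) = N ⊓ LinearMap.ker α := by
      apply Submodule.eq_of_le_of_finrank_le hle
      rw [LinearMap.finrank_range_of_inj (sg_inj R0 R)]
      have d0' : finrank ℝ (Submodule.span ℝ (A R0 '' U)) +
          finrank ℝ (N ⊓ LinearMap.ker (LinearMap.fst ℝ ((ι → ℝ) →ₗ[ℝ] (ι → ℝ)) (ι → ℝ)) :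
            Submodule ℝ (AffLie ι)) = finrank ℝ N := d0
      have d1' : finrank ℝ (Submodule.span ℝ (A R '' U)) +
          finrank ℝ (N ⊓ LinearMap.ker α : Submodule ℝ (AffLie ι)) = finrank ℝ N := d1
      clear d0 d1
      generalize finrank ℝ (N ⊓ LinearMap.ker (LinearMap.fst ℝ ((ι → ℝ) →ₗ[ℝ] (ι → ℝ)) (ι → ℝ)) :
            Submodule ℝ (AffLie ι)) = k0 at d0' hker
      generalize finrank ℝ (N ⊓ LinearMap.ker α : Submodule ℝ (AffLie ι)) = k1 at d1' ⊢
      generalize finrank ℝ N = n at d0' d1'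
      omega
    intro X hX hX0
    rw [heq]
    refine ⟨hX, ?_⟩
    rw [SetLike.mem_coe, LinearMap.mem_ker]
    apply LinearMap.ext
    intro v
    rw [hα, hX0, map_zero]
    rfl
  -- the family of subspaces
  let T := Set.range (fun R : Rzn G ι B => LinearMap.range (sg R0 R))
  have hT : Finite T := by
    let ch : T → Rzn G ι B := fun t => t.2.choose
    have hch : ∀ t : T, LinearMap.range (sg R0 (ch t)) = t.1 := fun t => t.2.choose_spec
    refine finite_family (Pi.basisFun ℝ ι) (br ι) br_skew B hB hB0 N (fun t => sg R0 (ch t))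
      (fun t => f1 (ch t)) (fun t => sg_inj R0 (ch t)) (fun t => sg_abel R0 (ch t))
      (fun t => f4 (ch t)) (fun t => f5 (ch t)) ?_
    intro a b hab
    apply Subtype.ext
    rw [← hch a, ← hch b]
    exact hab
  let F : {L : Subgroup G | ∃ R : Rzn G ι B, ∀ g, g ∈ L ↔ A R g = 0} → T :=
    fun L => ⟨LinearMap.range (sg R0 L.2.choose), ⟨L.2.choose, rfl⟩⟩
  have hF : Function.Injective F := by
    intro L L' h
    have h1 : LinearMap.range (sg R0 L.2.choose) = LinearMap.range (sg R0 L'.2.choose) :=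
      congrArg Subtype.val h
    apply Subtype.ext
    apply Subgroup.ext
    intro g
    rw [L.2.choose_spec g, L'.2.choose_spec g]
    exact ⟨le_of_range R0 _ _ h1.le g, le_of_range R0 _ _ h1.ge g⟩
  have hfin := Finite.of_injective F hF
  exact Set.toFinite _

end Pool.Agent.H12.Crys
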