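import Mathlib
import Pool.Agent.Helpers.CrysFin

set_option autoImplicit false

namespace Pool.Agent.H12.Crys

open Module

/-- the pseudo-Euclidean bilinear form -/
def pq (p q : ℕ) : (Fin p ⊕ Fin q → ℝ) →ₗ[ℝ] (Fin p ⊕ Fin q → ℝ) →ₗ[ℝ] ℝ :=
  LinearMap.mk₂ ℝ (fun v w => (∑ i : Fin p, v (Sum.inl i) * w (Sum.inl i)) -
      (∑ j : Fin q, v (Sum.inr j) * w (Sum.inr j)))
    (by
      intro v v' w
      simp only [Pi.add_apply, add_mul, Finset.sum_add_distrib]
      ring)
    (by
      intro c v w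
      simp only [Pi.smul_apply, smul_eq_mul, mul_assoc, ← Finset.mul_sum]
      ring)
    (by
      intro v w w'
      simp only [Pi.add_apply, mul_add, Finset.sum_add_distrib]
      ring)
    (by
      intro c v w
      simp only [Pi.smul_apply, smul_eq_mul, mul_left_comm _ c, ← Finset.mul_sum]
      ring)

theorem pq_apply (p q : ℕ) (v w : Fin p ⊕ Fin q → ℝ) :
    pq p q v w = (∑ i : Fin p, v (Sum.inl i) * w (Sum.inl i)) -
      (∑ j : Fin q, v (Sum.inr j) * w (Sum.inr j)) := rfl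

theorem pq_self (p q : ℕ) (v : Fin p ⊕ Fin q → ℝ) :
    pq p q v v = (∑ i : Fin p, v (Sum.inl i) ^ 2) - (∑ j : Fin q, v (Sum.inr j) ^ 2) := by
  rw [pq_apply]
  simp only [sq]

theorem pq_symm (p q : ℕ) (v w : Fin p ⊕ Fin q → ℝ) : pq p q v w = pq p q w v := by
  rw [pq_apply, pq_apply]
  congr 1
  · exact Finset.sum_congr rfl (fun i _ => mul_comm _ _)
  · exact Finset.sum_congr rfl (fun i _ => mul_comm _ _)

theorem pq_nondeg (p q : ℕ) (v : Fin p ⊕ Fin q → ℝ) (h : ∀ w, pq p q v w = 0) : v = 0 := by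
  funext k
  have hk := h (Pi.single k 1)
  rw [pq_apply] at hk
  rcases k with i | j
  · rw [Finset.sum_eq_single i, Finset.sum_eq_zero] at hk
    · simpa using hk
    · intro j _
      rw [Pi.single_eq_of_ne (by simp)]
      ring
    · intro i' _ hi'
      rw [Pi.single_eq_of_ne (by simpa using hi')]
      ring
    · intro hh
      exact absurd (Finset.mem_univ i) hh
  · rw [Finset.sum_eq_zero, Finset.sum_eq_single j] at hk
    · simpa using hk
    · intro j' _ hj'
      rw [Pi.single_eq_of_ne (by simpa using hj')]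
      ring
    · intro hh
      exact absurd (Finset.mem_univ j) hh
    · intro i _
      rw [Pi.single_eq_of_ne (by simp)]
      ring

theorem pq_polar (p q : ℕ) (f : (Fin p ⊕ Fin q → ℝ) ≃ₗ[ℝ] (Fin p ⊕ Fin q → ℝ))
    (h : ∀ v : Fin p ⊕ Fin q → ℝ,
      (∑ i : Fin p, (f v (Sum.inl i)) ^ 2) - (∑ j : Fin q, (f v (Sum.inr j)) ^ 2)
        = (∑ i : Fin p, (v (Sum.inl i)) ^ 2) - (∑ j : Fin q, (v (Sum.inr j)) ^ 2))
    (v w : Fin p ⊕ Fin q → ℝ) : pq p q (f v) (f w) = pq p q v w := by
  have h' : ∀ v, pq p q (f v) (f v) = pq p q v v := by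
    intro v
    rw [pq_self, pq_self]
    exact h v
  have h1 := h' (v + w)
  rw [map_add] at h1
  simp only [map_add, LinearMap.add_apply] at h1
  have h2 := h' v
  have h3 := h' w
  have h4 := pq_symm p q (f v) (f w)
  have h5 := pq_symm p q v w
  linarith

end Pool.Agent.H12.Crys
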