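import Mathlib

set_option autoImplicit false

open MeasureTheory ProbabilityTheory Set Filter Topology
open scoped ENNReal NNReal unitInterval

namespace Pool.Agent.Helpers.DInf

/-- Lebesgue measure on the unit interval. -/
noncomputable abbrev lam : Measure unitInterval := volume

theorem exists_iid : ∃ Y : ℕ → unitInterval → ℕ, (∀ n, Measurable (Y n)) ∧
    iIndepFun Y lam ∧
    ∀ n j, lam.real (Y n ⁻¹' {j}) = (1/2:ℝ)^(j+1) := by
  let p : unitInterval := ⟨1/2, by norm_num, by norm_num⟩
  have hp : p ≠ 0 := by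
    intro h
    have := congrArg Subtype.val h
    norm_num [p] at this
  let ν : Measure ℕ := geometricMeasure p
  let P : Measure (ℕ → ℕ) := Measure.infinitePi (fun _ : ℕ => ν)
  obtain ⟨f, hf, hmap⟩ := MeasureTheory.Measure.exists_measurable_map_eq P
  have h2 : ∀ n, (lam.map fun t => f t n) = ν := by
    intro n
    have h3 : (fun t => f t n) = (fun ω : ℕ → ℕ => ω n) ∘ f := rfl
    rw [h3, ← Measure.map_map (by fun_prop) hf]
    have h4 : lam.map f = P := hmap
    rw [h4]
    exact Measure.infinitePi_map_eval (fun _ : ℕ => ν) n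
  refine ⟨fun n t => f t n, fun n => by fun_prop, ?_, ?_⟩
  · rw [iIndepFun_iff_map_fun_eq_infinitePi_map (by fun_prop)]
    have h1 : (lam.map fun t i => f t i) = P := hmap
    rw [h1]
    simp_rw [h2]
    rfl
  · intro n j
    have h5 : lam.real ((fun t => f t n) ⁻¹' {j}) = (lam.map fun t => f t n).real {j} := by
      rw [measureReal_def, measureReal_def, Measure.map_apply (by fun_prop) (by measurability)]
    rw [h5, h2, geometricMeasure_real_singleton hp]
    have h6 : ((p : unitInterval) : ℝ) = 1/2 := rfl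
    rw [h6, pow_succ]
    norm_num

/-- The data used throughout. -/
structure Data where
  Y : ℕ → unitInterval → ℕ
  meas : ∀ n, Measurable (Y n)
  indep : iIndepFun Y lam
  law : ∀ n j, lam.real (Y n ⁻¹' {j}) = (1/2:ℝ)^(j+1)

variable (D : Data)

/-- tail sets -/
def Data.T (n m : ℕ) : Set unitInterval := D.Y n ⁻¹' (Set.Ici m)

/-- singleton sets -/
def Data.E (n m : ℕ) : Set unitInterval := D.Y n ⁻¹' {m}

theorem Data.mT (n m : ℕ) : MeasurableSet (D.T n m) := D.meas n (by measurability)

theorem Data.mE (n m : ℕ) : MeasurableSet (D.E n m) := D.meas n (by measurability)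

theorem Data.T_split (n m : ℕ) : D.T n m = D.E n m ∪ D.T n (m+1) := by
  ext s
  simp only [Data.T, Data.E, mem_preimage, mem_Ici, mem_union, mem_singleton_iff]
  omega

theorem Data.disj (n m : ℕ) : Disjoint (D.E n m) (D.T n (m+1)) := by
  rw [Set.disjoint_left]
  intro s h1 h2
  simp only [Data.T, Data.E, mem_preimage, mem_Ici, mem_singleton_iff] at h1 h2
  omega

theorem Data.real_E (n m : ℕ) : lam.real (D.E n m) = (1/2:ℝ)^(m+1) := D.law n m

theorem Data.real_T (n m : ℕ) : lam.real (D.T n m) = (1/2:ℝ)^m := by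
  induction m with
  | zero =>
    have : D.T n 0 = Set.univ := by
      ext s; simp [Data.T]
    rw [this]; simp
  | succ m ih =>
    have h := D.T_split n m
    have h2 : lam.real (D.T n m) = lam.real (D.E n m) + lam.real (D.T n (m+1)) := by
      rw [h, measureReal_union (D.disj n m) (D.mT n (m+1))]
    rw [ih, D.real_E] at h2
    rw [pow_succ] at h2 ⊢
    linarith

theorem Data.inter {n m : ℕ} (h : n ≠ m) (A B : Set ℕ) :
    lam.real (D.Y n ⁻¹' A ∩ D.Y m ⁻¹' B) = lam.real (D.Y n ⁻¹' A) * lam.real (D.Y m ⁻¹' B) := by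
  have h1 := (D.indep.indepFun h).measure_inter_preimage_eq_mul A B
    (MeasurableSet.of_discrete) (MeasurableSet.of_discrete)
  rw [measureReal_def, h1, ENNReal.toReal_mul]
  rfl

/-- Inclusion of `L²` into `L¹`. -/
noncomputable def incl : Lp ℝ 2 lam →L[ℝ] Lp ℝ 1 lam :=
  LinearMap.mkContinuous
    { toFun := fun u => ((Lp.memLp u).mono_exponent (p := 1) (by norm_num)).toLp u
      map_add' := by
        intro u v
        rw [← MemLp.toLp_add]
        exact MemLp.toLp_congr _ _ (Lp.coeFn_add u v)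
      map_smul' := by
        intro c u
        rw [RingHom.id_apply, ← MemLp.toLp_const_smul]
        exact MemLp.toLp_congr _ _ (Lp.coeFn_smul c u) } 1
    (by
      intro u
      rw [one_mul]
      change ‖((Lp.memLp u).mono_exponent (p := 1) (by norm_num)).toLp u‖ ≤ ‖u‖
      rw [Lp.norm_toLp, Lp.norm_def]
      exact ENNReal.toReal_mono (Lp.eLpNorm_ne_top u)
        (eLpNorm_le_eLpNorm_of_exponent_le (by norm_num) (Lp.aestronglyMeasurable u)))

theorem incl_indicator (s : Set unitInterval) (hs : MeasurableSet s) (c : ℝ) :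
    incl (indicatorConstLp 2 hs (measure_ne_top lam s) c) =
      indicatorConstLp 1 hs (measure_ne_top lam s) c := by
  change ((Lp.memLp (indicatorConstLp 2 hs (measure_ne_top lam s) c)).mono_exponent (p := 1)
    (by norm_num : (1:ℝ≥0∞) ≤ 2)).toLp _ = MemLp.toLp _ _
  exact MemLp.toLp_congr _ _ indicatorConstLp_coeFn

theorem smul_ind (p : ℝ≥0∞) (s : Set unitInterval) (hs : MeasurableSet s) (a c : ℝ) :
    a • indicatorConstLp p hs (measure_ne_top lam s) c =
      indicatorConstLp p hs (measure_ne_top lam s) (a * c) := by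
  rw [indicatorConstLp, indicatorConstLp, ← MemLp.toLp_const_smul]
  refine MemLp.toLp_congr _ _ (Filter.Eventually.of_forall fun t => ?_)
  by_cases ht : t ∈ s <;> simp [ht]

/-- the `L^p` function `c (1_{E n m} - 1_{T n (m+1)})`. -/
noncomputable def Data.W (p : ℝ≥0∞) (n m : ℕ) (c : ℝ) : Lp ℝ p lam :=
  indicatorConstLp p (D.mE n m) (measure_ne_top lam _) c -
    indicatorConstLp p (D.mT n (m+1)) (measure_ne_top lam _) c

theorem Data.incl_W (n m : ℕ) (c : ℝ) : incl (D.W 2 n m c) = D.W 1 n m c := by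
  rw [Data.W, map_sub, incl_indicator, incl_indicator]
  rfl

theorem Data.norm_W (n m : ℕ) (c : ℝ) (hc : 0 ≤ c) : ‖D.W 1 n m c‖ ≤ c * (1/2:ℝ)^m := by
  rw [Data.W]
  refine (norm_sub_le _ _).trans ?_
  rw [norm_indicatorConstLp one_ne_zero ENNReal.one_ne_top,
    norm_indicatorConstLp one_ne_zero ENNReal.one_ne_top]
  rw [D.real_E, D.real_T, Real.norm_of_nonneg hc]
  simp only [ENNReal.toReal_one, div_one, Real.rpow_one]
  apply le_of_eq
  ring

theorem Data.inner_W (n n' m : ℕ) (c : ℝ) :
    inner ℝ (D.W 2 n m c) (D.W 2 n' m c) = if n = n' then c^2 * (1/2:ℝ)^m else 0 := by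
  rw [Data.W, Data.W]
  simp only [inner_sub_left, inner_sub_right]
  rw [L2.inner_indicatorConstLp_indicatorConstLp, L2.inner_indicatorConstLp_indicatorConstLp,
    L2.inner_indicatorConstLp_indicatorConstLp, L2.inner_indicatorConstLp_indicatorConstLp]
  simp only [smul_eq_mul, RCLike.inner_apply, conj_trivial]
  split_ifs with h
  · subst h
    have e1 : D.E n m ∩ D.T n (m+1) = ∅ := (D.disj n m).inter_eq
    have e2 : D.T n (m+1) ∩ D.E n m = ∅ := by rw [Set.inter_comm]; exact e1
    rw [Set.inter_self, Set.inter_self, e1, e2, D.real_E, D.real_T]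
    simp only [measureReal_empty]
    ring
  · have h1 : lam.real (D.E n m ∩ D.E n' m) = (1/2:ℝ)^(m+1) * (1/2:ℝ)^(m+1) := by
      rw [Data.E, Data.E, D.inter h]; rw [← Data.E, ← Data.E, D.real_E, D.real_E]
    have h2 : lam.real (D.E n m ∩ D.T n' (m+1)) = (1/2:ℝ)^(m+1) * (1/2:ℝ)^(m+1) := by
      rw [Data.E, Data.T, D.inter h]; rw [← Data.E, ← Data.T, D.real_E, D.real_T]
    have h3 : lam.real (D.T n (m+1) ∩ D.E n' m) = (1/2:ℝ)^(m+1) * (1/2:ℝ)^(m+1) := by
      rw [Data.E, Data.T, D.inter h]; rw [← Data.E, ← Data.T, D.real_E, D.real_T]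
    have h4 : lam.real (D.T n (m+1) ∩ D.T n' (m+1)) = (1/2:ℝ)^(m+1) * (1/2:ℝ)^(m+1) := by
      rw [Data.T, Data.T, D.inter h]; rw [← Data.T, ← Data.T, D.real_T, D.real_T]
    rw [h1, h2, h3, h4]
    ring

/-- Every continuous functional on `L¹` sends `W n m c` to zero as `n → ∞`. -/
theorem Data.weak (m : ℕ) (c : ℝ) (x : StrongDual ℝ (Lp ℝ 1 lam)) :
    Tendsto (fun n => x (D.W 1 n m c)) atTop (𝓝 0) := by
  -- first for the orthonormal normalisation
  let c0 : ℝ := Real.sqrt (2^m)
  have hc0 : c0^2 = 2^m := Real.sq_sqrt (by positivity)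
  have hc0' : c0 ≠ 0 := by
    intro h; rw [h] at hc0
    have : (0:ℝ) < 2^m := by positivity
    rw [← hc0] at this; norm_num at this
  let v : ℕ → Lp ℝ 2 lam := fun n => D.W 2 n m c0
  have hv : Orthonormal ℝ v := by
    rw [orthonormal_iff_ite]
    intro i j
    change inner ℝ (D.W 2 i m c0) (D.W 2 j m c0) = _
    rw [D.inner_W, hc0]
    have : (2:ℝ)^m * (1/2)^m = 1 := by rw [← mul_pow]; norm_num
    rw [this]
  let y : StrongDual ℝ (Lp ℝ 2 lam) := x.comp incl
  let h : Lp ℝ 2 lam := (InnerProductSpace.toDual ℝ _).symm y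
  have hh : ∀ u, y u = inner ℝ h u := by
    intro u
    rw [InnerProductSpace.toDual_symm_apply]
  have hs := hv.inner_products_summable (x := h)
  have ht := hs.tendsto_atTop_zero
  have h1 : Tendsto (fun n => y (v n)) atTop (𝓝 0) := by
    have h2 : Tendsto (fun n => ‖inner ℝ (v n) h‖) atTop (𝓝 0) := by
      have h3 := ht.sqrt
      simpa [Real.sqrt_sq_eq_abs] using h3
    have h3 : Tendsto (fun n => inner ℝ (v n) h) atTop (𝓝 (0:ℝ)) :=
      tendsto_zero_iff_norm_tendsto_zero.2 h2
    refine h3.congr (fun n => ?_)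
    rw [hh, real_inner_comm]
  have h2 : ∀ n, x (D.W 1 n m c) = (c / c0) * y (v n) := by
    intro n
    have h3 : D.W 1 n m c = (c / c0) • incl (v n) := by
      change _ = (c / c0) • incl (D.W 2 n m c0)
      rw [D.incl_W, Data.W, Data.W, smul_sub, smul_ind, smul_ind,
        div_mul_cancel₀ _ hc0']
    rw [h3, map_smul]
    rfl
  simp_rw [h2]
  simpa using h1.const_mul (c / c0)

end Pool.Agent.Helpers.DInf
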