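import Pool.Agent.Helpers.DInfA

set_option autoImplicit false

open MeasureTheory ProbabilityTheory Set Filter Topology
open scoped ENNReal NNReal unitInterval

namespace Pool.Agent.Helpers.DInf

theorem levels : ∃ l : ℕ → ℕ, (¬ Summable fun k => (1/2:ℝ)^(l k + 1)) ∧
    Summable (fun k => (1/4:ℝ)^(l k)) ∧ ∑' k, (1/4:ℝ)^(l k) ≤ 1/4 := by
  have hs0 : Summable (fun k : ℕ => (1/4:ℝ)^(Nat.log 2 (k+1))) := by
    have h1 : Summable (fun k : ℕ => 4 * (1 / ((k:ℝ)+1)^2)) := by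
      have := (summable_nat_add_iff 1).2 (Real.summable_one_div_nat_pow.2 (by norm_num : 1 < 2))
      refine Summable.mul_left 4 ?_
      simpa using this
    refine Summable.of_nonneg_of_le (fun k => by positivity) (fun k => ?_) h1
    have h2 : k + 1 < 2 ^ (Nat.log 2 (k+1) + 1) := Nat.lt_pow_succ_log_self (by norm_num) _
    have h3 : ((k:ℝ)+1) < 2 ^ (Nat.log 2 (k+1)) * 2 := by
      have h3' : (((k+1 : ℕ)):ℝ) < ((2 ^ (Nat.log 2 (k+1) + 1) : ℕ) : ℝ) := by exact_mod_cast h2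
      push_cast at h3'
      rw [pow_succ] at h3'
      exact h3'
    have h4 : (0:ℝ) < 2 ^ (Nat.log 2 (k+1)) := by positivity
    have h5 : ((k:ℝ)+1)^2 ≤ 4 * (2 ^ (Nat.log 2 (k+1)))^2 := by
      have h6 : (0:ℝ) < (k:ℝ)+1 := by positivity
      nlinarith
    have h7 : (1/4:ℝ)^(Nat.log 2 (k+1)) = 1 / (2 ^ (Nat.log 2 (k+1)))^2 := by
      rw [← pow_mul, mul_comm, pow_mul, one_div_pow]
      norm_num
    rw [h7]
    rw [mul_one_div, div_le_div_iff₀ (by positivity) (by positivity)]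
    linarith
  obtain ⟨c, hc⟩ := pow_unbounded_of_one_lt (4 * ∑' k : ℕ, (1/4:ℝ)^(Nat.log 2 (k+1)))
    (by norm_num : (1:ℝ) < 4)
  refine ⟨fun k => Nat.log 2 (k+1) + c, ?_, ?_, ?_⟩
  · intro hsum
    have h1 : Summable (fun k : ℕ => (1/2:ℝ)^(c+1) * (1 / ((k:ℝ)+1))) := by
      refine Summable.of_nonneg_of_le (fun k => by positivity) (fun k => ?_) hsum
      have h2 : 2 ^ (Nat.log 2 (k+1)) ≤ k+1 := Nat.pow_log_le_self 2 (by omega)
      have h3 : (2:ℝ) ^ (Nat.log 2 (k+1)) ≤ (k:ℝ)+1 := by exact_mod_cast h2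
      have h4 : (1:ℝ) / ((k:ℝ)+1) ≤ (1/2:ℝ)^(Nat.log 2 (k+1)) := by
        rw [one_div_pow]
        exact one_div_le_one_div_of_le (by positivity) h3
      calc (1/2:ℝ)^(c+1) * (1 / ((k:ℝ)+1)) ≤ (1/2:ℝ)^(c+1) * (1/2:ℝ)^(Nat.log 2 (k+1)) := by
            gcongr
        _ = _ := by rw [← pow_add]; congr 1; ring
    have h2 : Summable (fun k : ℕ => 1 / ((k:ℝ)+1)) := by
      have := h1.mul_left (((1/2:ℝ)^(c+1))⁻¹)
      refine this.congr (fun k => ?_)
      rw [← mul_assoc, inv_mul_cancel₀ (by positivity), one_mul]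
    have h3 : Summable (fun k : ℕ => 1 / (k:ℝ)) := by
      rw [← summable_nat_add_iff 1]
      simpa using h2
    exact Real.not_summable_one_div_natCast h3
  · simp_rw [pow_add]
    exact hs0.mul_right _
  · simp_rw [pow_add]
    rw [tsum_mul_right, one_div_pow]
    rw [mul_one_div, div_le_iff₀ (by positivity)]
    linarith

variable (D : Data)

theorem Data.lam_T (n m : ℕ) : lam (D.T n m) = ENNReal.ofReal ((1/2:ℝ)^m) := by
  rw [← D.real_T n m, ofReal_measureReal]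

theorem Data.lam_E (n m : ℕ) : lam (D.E n m) = ENNReal.ofReal ((1/2:ℝ)^(m+1)) := by
  rw [← D.real_E n m, ofReal_measureReal]

/-- the sequence of functions -/
noncomputable def Data.f (n : ℕ) (t : unitInterval) : Lp ℝ 1 lam :=
  D.W 1 n (2 * D.Y n t) ((4:ℝ)^(D.Y n t))

theorem Data.f_meas (n : ℕ) : StronglyMeasurable (D.f n) := by
  have h : StronglyMeasurable (fun L : ℕ => D.W 1 n (2 * L) ((4:ℝ)^L)) :=
    StronglyMeasurable.of_discrete
  exact h.comp_measurable (D.meas n)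

theorem Data.f_norm (n : ℕ) (t : unitInterval) : ‖D.f n t‖ ≤ 1 := by
  refine (D.norm_W n _ _ (by positivity)).trans ?_
  rw [pow_mul, ← mul_pow]
  norm_num

theorem Data.f_bdd (n : ℕ) : eLpNorm (D.f n) ∞ lam ≤ 1 := by
  rw [eLpNorm_exponent_top]
  have := eLpNormEssSup_le_of_ae_bound (μ := lam) (f := D.f n) (C := 1)
    (Filter.Eventually.of_forall (D.f_norm n))
  simpa using this

theorem Data.f_inMeasure (x : StrongDual ℝ (Lp ℝ 1 lam)) :
    TendstoInMeasure lam (fun n t => x (D.f n t)) atTop (fun _ => 0) := by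
  intro ε hε
  rw [ENNReal.tendsto_atTop_zero]
  intro δ hδ
  obtain ⟨L0, hL0⟩ : ∃ L0 : ℕ, ENNReal.ofReal ((1/2:ℝ)^L0) ≤ δ := by
    have h1 : Tendsto (fun L0 : ℕ => ENNReal.ofReal ((1/2:ℝ)^L0)) atTop (𝓝 0) := by
      have := ENNReal.tendsto_ofReal
        (tendsto_pow_atTop_nhds_zero_of_lt_one (by norm_num : (0:ℝ) ≤ 1/2) (by norm_num))
      simpa using this
    exact ((h1.eventually (Iic_mem_nhds hδ)).exists)
  have h2 : ∀ᶠ n in atTop, ∀ L ∈ Finset.range L0,
      edist (x (D.W 1 n (2 * L) ((4:ℝ)^L))) 0 < ε := by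
    rw [Filter.eventually_all_finset]
    intro L _
    have h3 := D.weak (2 * L) ((4:ℝ)^L) x
    exact (tendsto_iff_edist_tendsto_0.1 h3).eventually (Iio_mem_nhds hε)
  obtain ⟨N, hN⟩ := eventually_atTop.1 h2
  refine ⟨N, fun n hn => ?_⟩
  refine le_trans (measure_mono ?_) ((D.lam_T n L0).le.trans hL0)
  intro t ht
  by_contra hcon
  have h4 : D.Y n t < L0 := by
    simp only [Data.T, mem_preimage, mem_Ici, not_le] at hcon
    exact hcon
  have h5 := hN n hn (D.Y n t) (Finset.mem_range.2 h4)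
  exact absurd ht (not_le.2 h5)

/-- integration over a set as a functional on `L¹`. -/
noncomputable def setI (P : Set unitInterval) : StrongDual ℝ (Lp ℝ 1 lam) :=
  (L1.integralCLM (μ := lam.restrict P) (E := ℝ)).comp (LpToLpRestrictCLM _ ℝ ℝ lam 1 P)

theorem setI_apply (P : Set unitInterval) (h : Lp ℝ 1 lam) : setI P h = ∫ s in P, h s ∂lam := by
  change L1.integralCLM (LpToLpRestrictCLM _ ℝ ℝ lam 1 P h) = _
  rw [← L1.integral_eq, L1.integral_eq_integral]
  exact integral_congr_ae (LpToLpRestrictCLM_coeFn _ _ _)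

theorem setI_W (P : Set unitInterval) (hP : MeasurableSet P) (n m : ℕ) (c : ℝ) :
    setI P (D.W 1 n m c) = c * (lam.real (D.E n m ∩ P) - lam.real (D.T n (m+1) ∩ P)) := by
  rw [Data.W, map_sub, setI_apply, setI_apply, setIntegral_indicatorConstLp hP,
    setIntegral_indicatorConstLp hP]
  simp only [smul_eq_mul]
  ring

end Pool.Agent.Helpers.DInf
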