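import Pool.Agent.Helpers.DInfB

set_option autoImplicit false

open MeasureTheory ProbabilityTheory Set Filter Topology
open scoped ENNReal NNReal unitInterval

namespace Pool.Agent.Helpers.DInf

variable (D : Data)

/-- overlaps are small -/
theorem Data.overlap (ns l : ℕ → ℕ) (hns : StrictMono ns)
    (hs : Summable (fun k => (1/4:ℝ)^(l k))) (hs1 : ∑' k, (1/4:ℝ)^(l k) ≤ 1/4) (k : ℕ) :
    (3/4) * (1/4:ℝ)^(l k) ≤
      lam.real (D.T (ns k) (2 * l k) \ ⋃ j ∈ {j | j ≠ k}, D.T (ns j) (2 * l j)) := by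
  set A : ℕ → Set unitInterval := fun j => D.T (ns j) (2 * l j) with hA
  have hAm : ∀ j, MeasurableSet (A j) := fun j => D.mT _ _
  have hAr : ∀ j, lam.real (A j) = (1/4:ℝ)^(l j) := by
    intro j
    rw [hA]
    simp only
    rw [D.real_T, pow_mul]
    norm_num
  have hAl : ∀ j, lam (A j) = ENNReal.ofReal ((1/4:ℝ)^(l j)) := by
    intro j; rw [← hAr j, ofReal_measureReal]
  have hind : ∀ j, j ≠ k → lam (A k ∩ A j) = lam (A k) * lam (A j) := by
    intro j hj
    exact (D.indep.indepFun (fun h => hj (hns.injective h).symm)).measure_inter_preimage_eq_mul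
      (Set.Ici (2 * l k)) (Set.Ici (2 * l j)) MeasurableSet.of_discrete MeasurableSet.of_discrete
  have hU : MeasurableSet (⋃ j ∈ {j | j ≠ k}, A j) :=
    MeasurableSet.biUnion (Set.to_countable _) (fun j _ => hAm j)
  have h1 : lam (A k ∩ ⋃ j ∈ {j | j ≠ k}, A j) ≤ lam (A k) * ENNReal.ofReal (1/4) := by
    have h2 : A k ∩ ⋃ j ∈ {j | j ≠ k}, A j ⊆ ⋃ j, (if j ≠ k then A k ∩ A j else ∅) := by
      intro s hs'
      obtain ⟨h3, h4⟩ := hs'
      simp only [mem_iUnion, exists_prop] at h4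
      obtain ⟨j, hj, hsj⟩ := h4
      have hj' : j ≠ k := hj
      simp only [mem_iUnion]
      refine ⟨j, ?_⟩
      rw [if_pos hj']
      exact ⟨h3, hsj⟩
    refine (measure_mono h2).trans ((measure_iUnion_le _).trans ?_)
    have h5 : ∀ j, lam (if j ≠ k then A k ∩ A j else ∅) ≤ lam (A k) * ENNReal.ofReal ((1/4:ℝ)^(l j)) := by
      intro j
      split_ifs with hj
      · rw [hind j hj, hAl j]
      · simp
    refine (ENNReal.tsum_le_tsum h5).trans ?_
    rw [ENNReal.tsum_mul_left]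
    gcongr
    rw [← ENNReal.ofReal_tsum_of_nonneg (fun j => by positivity) hs]
    exact ENNReal.ofReal_le_ofReal hs1
  have h3 : lam.real (A k ∩ ⋃ j ∈ {j | j ≠ k}, A j) ≤ (1/4:ℝ)^(l k) * (1/4) := by
    rw [measureReal_def]
    refine ENNReal.toReal_le_of_le_ofReal (by positivity) (h1.trans ?_)
    rw [hAl k, ENNReal.ofReal_mul (by positivity)]
  have h4 : lam.real (A k ∩ ⋃ j ∈ {j | j ≠ k}, A j) + lam.real (A k \ ⋃ j ∈ {j | j ≠ k}, A j)
      = lam.real (A k) := measureReal_inter_add_diff hU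
  rw [hAr k] at h4
  linarith

/-- the bad functional -/
theorem Data.bad (ns l : ℕ → ℕ) (hns : StrictMono ns)
    (hs : Summable (fun k => (1/4:ℝ)^(l k))) (hs1 : ∑' k, (1/4:ℝ)^(l k) ≤ 1/4) :
    ∃ x : StrongDual ℝ (Lp ℝ 1 lam), ∀ k, 3/4 ≤ x (D.W 1 (ns k) (2 * l k) ((4:ℝ)^(l k))) := by
  set A : ℕ → Set unitInterval := fun j => D.T (ns j) (2 * l j) with hA
  set U : ℕ → Set unitInterval := fun k => A k \ ⋃ j ∈ {j | j ≠ k}, A j with hU
  set E : ℕ → Set unitInterval := fun k => D.E (ns k) (2 * l k) with hE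
  set T : ℕ → Set unitInterval := fun k => D.T (ns k) (2 * l k + 1) with hT
  have hAm : ∀ j, MeasurableSet (A j) := fun j => D.mT _ _
  have hUm : ∀ j, MeasurableSet (U j) := fun j =>
    (hAm j).diff (MeasurableSet.biUnion (Set.to_countable _) (fun j _ => hAm j))
  have hEm : ∀ j, MeasurableSet (E j) := fun j => D.mE _ _
  have hTm : ∀ j, MeasurableSet (T j) := fun j => D.mT _ _
  have hsplit : ∀ k, A k = E k ∪ T k := fun k => D.T_split _ _
  have hdisj : ∀ k, Disjoint (E k) (T k) := fun k => D.disj _ _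
  set P : Set unitInterval := ⋃ k, U k ∩ E k with hP
  set N : Set unitInterval := ⋃ k, U k ∩ T k with hN
  have hPm : MeasurableSet P := MeasurableSet.iUnion (fun k => (hUm k).inter (hEm k))
  have hNm : MeasurableSet N := MeasurableSet.iUnion (fun k => (hUm k).inter (hTm k))
  have hUA : ∀ j k s, s ∈ U j → s ∈ A k → j = k := by
    intro j k s h1 h2
    by_contra h
    apply h1.2
    simp only [mem_iUnion]
    exact ⟨k, fun h' => h h'.symm, h2⟩
  have e1 : ∀ k, E k ∩ P = U k ∩ E k := by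
    intro k
    ext s
    constructor
    · rintro ⟨h1, h2⟩
      obtain ⟨j, hj1, hj2⟩ := mem_iUnion.1 h2
      have : j = k := hUA j k s hj1 (by rw [hsplit]; exact Or.inl h1)
      subst this
      exact ⟨hj1, h1⟩
    · rintro ⟨h1, h2⟩
      exact ⟨h2, mem_iUnion.2 ⟨k, h1, h2⟩⟩
  have e2 : ∀ k, T k ∩ P = ∅ := by
    intro k
    rw [Set.eq_empty_iff_forall_notMem]
    rintro s ⟨h1, h2⟩
    obtain ⟨j, hj1, hj2⟩ := mem_iUnion.1 h2
    have : j = k := hUA j k s hj1 (by rw [hsplit]; exact Or.inr h1)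
    subst this
    exact Set.disjoint_left.1 (hdisj j) hj2 h1
  have e3 : ∀ k, E k ∩ N = ∅ := by
    intro k
    rw [Set.eq_empty_iff_forall_notMem]
    rintro s ⟨h1, h2⟩
    obtain ⟨j, hj1, hj2⟩ := mem_iUnion.1 h2
    have : j = k := hUA j k s hj1 (by rw [hsplit]; exact Or.inl h1)
    subst this
    exact Set.disjoint_left.1 (hdisj j) h1 hj2
  have e4 : ∀ k, T k ∩ N = U k ∩ T k := by
    intro k
    ext s
    constructor
    · rintro ⟨h1, h2⟩
      obtain ⟨j, hj1, hj2⟩ := mem_iUnion.1 h2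
      have : j = k := hUA j k s hj1 (by rw [hsplit]; exact Or.inr h1)
      subst this
      exact ⟨hj1, h1⟩
    · rintro ⟨h1, h2⟩
      exact ⟨h2, mem_iUnion.2 ⟨k, h1, h2⟩⟩
  have e5 : ∀ k, lam.real (U k ∩ E k) + lam.real (U k ∩ T k) = lam.real (U k) := by
    intro k
    have h1 : U k = (U k ∩ E k) ∪ (U k ∩ T k) := by
      rw [← Set.inter_union_distrib_left, ← hsplit]
      exact (Set.inter_eq_left.2 (fun s hs' => hs'.1)).symm
    conv_rhs => rw [h1]
    rw [measureReal_union _ ((hUm k).inter (hTm k))]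
    exact (hdisj k).mono Set.inter_subset_right Set.inter_subset_right
  refine ⟨setI P - setI N, fun k => ?_⟩
  have h1 : (setI P - setI N) (D.W 1 (ns k) (2 * l k) ((4:ℝ)^(l k))) =
      (4:ℝ)^(l k) * lam.real (U k) := by
    change setI P _ - setI N _ = _
    rw [setI_W D P hPm, setI_W D N hNm]
    change (4:ℝ)^(l k) * (lam.real (E k ∩ P) - lam.real (T k ∩ P)) -
      (4:ℝ)^(l k) * (lam.real (E k ∩ N) - lam.real (T k ∩ N)) = _
    rw [e1, e2, e3, e4, ← e5 k]
    simp only [measureReal_empty]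
    ring
  rw [h1]
  have h2 := D.overlap ns l hns hs hs1 k
  have h3 : (4:ℝ)^(l k) * (1/4:ℝ)^(l k) = 1 := by rw [← mul_pow]; norm_num
  have h4 : (0:ℝ) < (4:ℝ)^(l k) := by positivity
  calc (3/4:ℝ) = (4:ℝ)^(l k) * ((3/4) * (1/4:ℝ)^(l k)) := by
        rw [mul_left_comm, h3, mul_one]
    _ ≤ _ := by
        gcongr

theorem Data.often (ns l : ℕ → ℕ) (hns : StrictMono ns)
    (hd : ¬ Summable fun k => (1/2:ℝ)^(l k + 1)) :
    ∀ᵐ t ∂lam, ∃ᶠ k in atTop, D.Y (ns k) t = l k := by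
  set B : ℕ → Set unitInterval := fun k => D.E (ns k) (l k) with hB
  have hBm : ∀ k, MeasurableSet (B k) := fun k => D.mE _ _
  have hind : iIndepSet B lam := by
    rw [iIndepSet_iff_meas_biInter hBm]
    intro s
    have h1 := (D.indep.precomp hns.injective).measure_inter_preimage_eq_mul s
      (sets := fun k => {l k}) (fun i _ => MeasurableSet.of_discrete)
    exact h1
  have hsum : (∑' k, lam (B k)) = ∞ := by
    by_contra hne
    apply hd
    have h1 := ENNReal.summable_toReal hne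
    refine h1.congr (fun k => ?_)
    change lam.real (D.E (ns k) (l k)) = _
    exact D.real_E _ _
  have h1 := measure_limsup_eq_one hBm hind hsum
  have hlm : MeasurableSet (limsup B atTop) := MeasurableSet.measurableSet_limsup hBm
  have h2 : ∀ᵐ t ∂lam, t ∈ limsup B atTop := (mem_ae_iff_prob_eq_one hlm).2 h1
  filter_upwards [h2] with t ht
  rw [Filter.mem_limsup_iff_frequently_mem] at ht
  exact ht

theorem Data.fail (ns : ℕ → ℕ) (hns : StrictMono ns) :
    ∃ x : StrongDual ℝ (Lp ℝ 1 lam), ¬ ∀ᵐ t ∂lam, Tendsto (fun k => x (D.f (ns k) t)) atTop (𝓝 0) := by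
  obtain ⟨l, hd, hs, hs1⟩ := levels
  obtain ⟨x, hx⟩ := D.bad ns l hns hs hs1
  refine ⟨x, fun hall => ?_⟩
  have h1 := D.often ns l hns hd
  have h2 : ∀ᵐ t ∂lam, False := by
    filter_upwards [hall, h1] with t ht1 ht2
    have h3 : ∀ᶠ k in atTop, x (D.f (ns k) t) < 3/4 :=
      ht1.eventually (Iio_mem_nhds (by norm_num))
    obtain ⟨k, hk1, hk2⟩ := (ht2.and_eventually h3).exists
    have h4 : D.f (ns k) t = D.W 1 (ns k) (2 * l k) ((4:ℝ)^(l k)) := by
      rw [Data.f, hk1]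
    rw [h4] at hk2
    exact absurd (hx k) (not_le.2 hk2)
  have h3 : lam ≠ 0 := NeZero.ne lam
  apply h3
  simpa using h2

end Pool.Agent.Helpers.DInf
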