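import Pool.Agent.Helpers.FatPointMain

set_option autoImplicit false

open MvPolynomial

namespace Pool.Agent.FatPt

universe u

theorem map_Il {B R : Type u} [CommRing B] [CommRing R] (φ : B →+* R) (l : B) :
    (Il l).map (MvPolynomial.map φ) = Il (φ l) := by
  rw [Il, Ideal.map_span, Set.image_insert_eq, Set.image_insert_eq, Set.image_insert_eq,
    Set.image_insert_eq, Set.image_singleton]
  rw [Il]
  simp only [g1, g2, g3, g4, g5, map_add, MvPolynomial.map_monomial, map_one]

theorem main (k : Type u) [Field k] :
    IsArtinianRing (DualNumber k) ∧ IsLocalRing (DualNumber k) ∧ ¬ IsField (DualNumber k) ∧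
    Module.Finite k (DualNumber k) ∧
    IsPt (Il (DualNumber.eps : DualNumber k)) ∧
    ∀ (R : Type u) [CommRing R] [Algebra k R],
      (∀ φ : DualNumber k →ₐ[k] R, IsPt ((Il (DualNumber.eps : DualNumber k)).map
        (MvPolynomial.map (φ : DualNumber k →+* R)))) ∧
      ∀ I : Ideal (MvPolynomial (Fin 3) R), IsPt I → ∃! φ : DualNumber k →ₐ[k] R,
        (Il (DualNumber.eps : DualNumber k)).map (MvPolynomial.map (φ : DualNumber k →+* R)) = I := by
  have hfin : Module.Finite k (DualNumber k) := by
    have : Module.Finite k (k × k) := inferInstance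
    exact this
  refine ⟨IsArtinianRing.of_finite k _, inferInstance, ?_, hfin,
    isPt_Il DualNumber.eps_mul_eps, ?_⟩
  · intro h
    have h0 : (DualNumber.eps : DualNumber k) ≠ 0 := by
      intro h
      have := congrArg TrivSqZeroExt.snd h
      simp at this
    obtain ⟨b, hb⟩ := h.mul_inv_cancel h0
    have h2 : (DualNumber.eps : DualNumber k) * (DualNumber.eps * b) = 0 := by
      rw [← mul_assoc, DualNumber.eps_mul_eps, zero_mul]
    rw [hb, mul_one] at h2
    exact h0 h2
  · intro R _ _
    constructor
    · intro φ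
      rw [map_Il]
      apply isPt_Il
      rw [AlgHom.coe_toRingHom, ← map_mul, DualNumber.eps_mul_eps, map_zero]
    · intro I hI
      obtain ⟨l, hl, rfl⟩ := eq_Il hI
      refine ⟨DualNumber.lift ⟨(Algebra.ofId k R, l), hl, fun a => mul_comm _ _⟩, ?_, ?_⟩
      · show (Il (DualNumber.eps : DualNumber k)).map _ = _
        rw [map_Il, AlgHom.coe_toRingHom, DualNumber.lift_apply_eps]
      · intro φ hφ
        have hφ' : (Il (DualNumber.eps : DualNumber k)).map
          (MvPolynomial.map (φ : DualNumber k →+* R)) = Il l := hφ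
        rw [map_Il, AlgHom.coe_toRingHom] at hφ'
        apply DualNumber.algHom_ext
        rw [DualNumber.lift_apply_eps]
        exact Il_inj (by rw [← map_mul, DualNumber.eps_mul_eps, map_zero]) hl hφ'

end Pool.Agent.FatPt
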