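import Mathlib

set_option autoImplicit false

namespace Pool.Agent.FatPt

universe u v

/-- A module is locally free of rank r: finitely generated projective of constant rank r. -/
def LFree (R : Type u) (M : Type v) [CommRing R] [AddCommGroup M] [Module R M] (r : ℕ) : Prop :=
  Module.Finite R M ∧ Module.Projective R M ∧ ∀ p : PrimeSpectrum R, Module.rankAtStalk M p = r

variable {R : Type u} [CommRing R] {M N Q : Type v} [AddCommGroup M] [Module R M]
  [AddCommGroup N] [Module R N] [AddCommGroup Q] [Module R Q]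

theorem LFree.subsingleton (h : LFree R M 0) : Subsingleton M := by
  obtain ⟨h1, h2, h3⟩ := h
  rw [← Module.rankAtStalk_eq_zero_iff_subsingleton (R := R)]
  funext p
  exact h3 p

theorem LFree.injective {M : Type*} {N : Type*} [AddCommGroup M] [Module R M]
    [AddCommGroup N] [Module R N] {r : ℕ} (hM : LFree R M r) (hN : LFree R N r) (f : M →ₗ[R] N)
    (hf : Function.Surjective f) : Function.Injective f := by
  obtain ⟨h1, h2, h3⟩ := hM
  obtain ⟨g1, g2, g3⟩ := hN
  exact (Module.bijective_of_surjective_of_rankAtStalk_eq hf (fun m _ => by rw [h3, g3])).1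

theorem lfree_pi {ι : Type} [Finite ι] : LFree R (ι → R) (Nat.card ι) := by
  refine ⟨inferInstance, inferInstance, fun p => ?_⟩
  have : Nontrivial R := p.nontrivial
  have := Fintype.ofFinite ι
  rw [Module.rankAtStalk_eq_finrank_of_free]
  simp

theorem LFree.of_equiv {r : ℕ} (e : M ≃ₗ[R] N) (h : LFree R M r) : LFree R N r := by
  obtain ⟨h1, h2, h3⟩ := h
  refine ⟨Module.Finite.equiv e, Module.Projective.of_equiv e, fun p => ?_⟩
  rw [← Module.rankAtStalk_eq_of_equiv e, h3]

theorem lfree_self : LFree R R 1 := by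
  refine ⟨inferInstance, inferInstance, fun p => ?_⟩
  have : Nontrivial R := p.nontrivial
  rw [Module.rankAtStalk_self]; rfl

/-- nilpotent shift on a rank one module -/
theorem span_of_shift (h : LFree R Q 1) (q1 q2 : Q) (hs : ∀ q : Q, ∃ a b : R, q = a • q1 + b • q2)
    (T : Q →ₗ[R] Q) (h1 : T q1 = 0) (h2 : T q2 = q1) : ∃ c : R, q1 = c • q2 := by
  classical
  obtain ⟨hf, hp, hr⟩ := h
  by_contra hne
  push Not at hne
  let a : Ideal R := 
    { carrier := {r | ∃ c : R, r • q1 = c • q2}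
      add_mem' := by
        rintro x y ⟨c, hc⟩ ⟨d, hd⟩
        exact ⟨c + d, by rw [add_smul, add_smul, hc, hd]⟩
      zero_mem' := ⟨0, by simp⟩
      smul_mem' := by
        rintro t x ⟨c, hc⟩
        exact ⟨t * c, by rw [smul_eq_mul, mul_smul, hc, mul_smul]⟩ }
  have ha : a ≠ ⊤ := by
    intro h
    have : (1 : R) ∈ a := by rw [h]; trivial
    obtain ⟨c, hc⟩ := this
    exact hne c (by simpa using hc)
  obtain ⟨m, hm, ham⟩ := Ideal.exists_le_maximal a ha
  have := hm.isPrime
  let S := m.primeCompl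
  let Rm := Localization S
  have hfree : Module.Free Rm (LocalizedModule S Q) :=
    Module.free_of_flat_of_isLocalRing
  have hrk : Module.finrank Rm (LocalizedModule S Q) = 1 := hr ⟨m, inferInstance⟩
  let b : Module.Basis Unit Rm (LocalizedModule S Q) := Module.basisUnique Unit hrk
  let e : LocalizedModule S Q := b ()
  have hco : ∀ x : LocalizedModule S Q, ∃ α : Rm, x = α • e := by
    intro x
    refine ⟨b.repr x (), ?_⟩
    have := b.sum_repr x
    simpa using this.symm
  have hinj : ∀ α β : Rm, α • e = β • e → α = β := by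
    intro α β h
    have := congrArg (fun x => b.repr x ()) h
    simpa [e] using this
  let Tm : LocalizedModule S Q →ₗ[Rm] LocalizedModule S Q := LocalizedModule.map S T
  have hTm : ∀ q : Q, Tm (LocalizedModule.mk q 1) = LocalizedModule.mk (T q) 1 := by
    intro q
    exact LocalizedModule.map_mk _ _ _ _
  obtain ⟨α, hα⟩ := hco (LocalizedModule.mk q1 1)
  obtain ⟨β, hβ⟩ := hco (LocalizedModule.mk q2 1)
  obtain ⟨ν, hν⟩ := hco (Tm e)
  have e1 : α * ν = 0 := by
    apply hinj
    have := hTm q1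
    rw [hα, map_smul, hν, h1, LocalizedModule.zero_mk, smul_smul] at this
    rw [this, zero_smul]
  have e2 : β * ν = α := by
    apply hinj
    have := hTm q2
    rw [hβ, map_smul, hν, h2, smul_smul, hα] at this
    exact this
  have e3 : ∃ x y : Rm, x * α + y * β = 1 := by
    obtain ⟨⟨q, s⟩, hq⟩ : ∃ z : Q × S, LocalizedModule.mk z.1 z.2 = e := by
      induction e using LocalizedModule.induction_on with
      | h q s => exact ⟨(q, s), rfl⟩
    obtain ⟨x, y, hxy⟩ := hs q
    refine ⟨Localization.mk x s, Localization.mk y s, ?_⟩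
    apply hinj
    rw [add_smul, mul_smul, mul_smul, ← hα, ← hβ, one_smul, LocalizedModule.mk_smul_mk,
      LocalizedModule.mk_smul_mk, mul_one, ← hq]
    simp only [hxy]
    rw [LocalizedModule.mk_add_mk, ← smul_add, LocalizedModule.mk_cancel_common_left]
  have hloc : IsLocalRing Rm := inferInstance
  obtain ⟨x, y, hxy⟩ := e3
  have hβu : IsUnit β := by
    rcases IsLocalRing.isUnit_or_isUnit_of_add_one hxy with h | h
    · have hα : IsUnit α := isUnit_of_mul_isUnit_right h
      exfalso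
      have : ν = 0 := by
        rw [← hα.mul_right_eq_zero]; exact e1
      rw [this, mul_zero] at e2
      rw [← e2] at hα
      exact not_isUnit_zero hα
    · exact isUnit_of_mul_isUnit_right h
  obtain ⟨u, hu⟩ := hβu
  have e4 : (LocalizedModule.mk q1 1 : LocalizedModule S Q) = (α * (↑u⁻¹ : Rm)) • LocalizedModule.mk q2 1 := by
    rw [hα, hβ, smul_smul, mul_assoc, ← hu, Units.inv_mul, mul_one]
  obtain ⟨⟨c, s⟩, hcs⟩ : ∃ z : R × S, Localization.mk z.1 z.2 = α * (↑u⁻¹ : Rm) := by
    induction (α * (↑u⁻¹ : Rm)) using Localization.induction_on with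
    | H z => exact ⟨z, rfl⟩
  rw [← hcs, LocalizedModule.mk_smul_mk, LocalizedModule.mk_eq] at e4
  obtain ⟨t, ht⟩ := e4
  have : ((t : R) * (s : R)) ∈ a := by
    refine ⟨t * c, ?_⟩
    simp only [mul_one, one_smul] at ht
    rw [mul_smul, mul_smul]
    exact ht
  exact (t * s : S).2 (ham this)

/-- main linear algebra lemma -/
theorem main_LA {Q1 Q2 Q3 : Type v} [AddCommGroup Q1] [Module R Q1] [AddCommGroup Q2] [Module R Q2]
    [AddCommGroup Q3] [Module R Q3] (h1 : LFree R Q1 1) (h2 : LFree R Q2 1) (h3 : LFree R Q3 1)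
    (f1 : R × R →ₗ[R] Q1) (f2 : R × R →ₗ[R] Q2) (f3 : R × R →ₗ[R] Q3)
    (s1 : Function.Surjective f1) (s2 : Function.Surjective f2) (s3 : Function.Surjective f3)
    (k13 : ∀ x, f1 x = 0 → f3 x = 0) (k23 : ∀ x, f2 x = 0 → f3 x = 0)
    (k12 : ∀ x : R × R, f1 x = 0 → f2 (x.2, 0) = 0) :
    ∃ l : R, l * l = 0 ∧ f1 (1, l) = 0 ∧ f2 (1, l) = 0 := by
  -- kernels coincide
  have key : ∀ {Q : Type v} [AddCommGroup Q] [Module R Q] (h : LFree R Q 1) (f : R × R →ₗ[R] Q)
      (s : Function.Surjective f) (k : ∀ x, f x = 0 → f3 x = 0), ∀ x, f3 x = 0 → f x = 0 := by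
    intro Q _ _ h f s k x hx
    let e : ((R × R) ⧸ LinearMap.ker f) ≃ₗ[R] Q := f.quotKerEquivOfSurjective s
    let g : Q →ₗ[R] Q3 := ((LinearMap.ker f).liftQ f3 (fun y hy => by
      rw [LinearMap.mem_ker] at hy ⊢; exact k y hy)).comp e.symm.toLinearMap
    have hg : ∀ y, g (f y) = f3 y := by
      intro y
      have : e.symm (f y) = Submodule.Quotient.mk y := by
        rw [LinearEquiv.symm_apply_eq]; rfl
      simp [g, this]
    have hgs : Function.Surjective g := by
      intro z
      obtain ⟨y, rfl⟩ := s3 z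
      exact ⟨f y, hg y⟩
    have hgi := LFree.injective h h3 g hgs
    apply hgi
    rw [hg, hx, map_zero]
  have k31 := key h1 f1 s1 k13
  have k32 := key h2 f2 s2 k23
  have k21 : ∀ x, f2 x = 0 → f1 x = 0 := fun x hx => k31 x (k23 x hx)
  have k12' : ∀ x, f1 x = 0 → f2 x = 0 := fun x hx => k32 x (k13 x hx)
  let e : ((R × R) ⧸ LinearMap.ker f1) ≃ₗ[R] Q1 := f1.quotKerEquivOfSurjective s1
  let sh : R × R →ₗ[R] R × R := LinearMap.prod (LinearMap.snd R R R) 0
  let T : Q1 →ₗ[R] Q1 := ((LinearMap.ker f1).liftQ (f1.comp sh) (fun y hy => by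
      rw [LinearMap.mem_ker] at hy ⊢
      exact k21 _ (k12 y hy))).comp e.symm.toLinearMap
  have hT : ∀ y, T (f1 y) = f1 (y.2, 0) := by
      intro y
      have : e.symm (f1 y) = Submodule.Quotient.mk y := by
        rw [LinearEquiv.symm_apply_eq]; rfl
      simp [T, this, sh]
  have hsp : ∀ q : Q1, ∃ a b : R, q = a • f1 (1, 0) + b • f1 (0, 1) := by
    intro q
    obtain ⟨⟨a, b⟩, rfl⟩ := s1 q
    refine ⟨a, b, ?_⟩
    rw [← map_smul, ← map_smul, ← map_add]
    congr 1
    ext <;> simp
  obtain ⟨c, hc⟩ := span_of_shift h1 (f1 (1, 0)) (f1 (0, 1)) hsp T (by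
    rw [hT]; exact map_zero f1) (by rw [hT])
  have hsur : Function.Surjective (LinearMap.toSpanSingleton R Q1 (f1 (0, 1))) := by
    intro q
    obtain ⟨a, b, rfl⟩ := hsp q
    refine ⟨a * c + b, ?_⟩
    rw [LinearMap.toSpanSingleton_apply, hc, add_smul, mul_smul]
  have hin := LFree.injective lfree_self h1 _ hsur
  have hl : f1 (1, -c) = 0 := by
    have : ((1 : R), -c) = (1, 0) - c • ((0 : R), (1 : R)) := by ext <;> simp
    rw [this, map_sub, map_smul, hc, sub_self]
  refine ⟨-c, ?_, hl, k12' _ hl⟩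
  have h4 : f1 (-c, 0) = 0 := k21 _ (k12 _ hl)
  have h5 : (c * c) • f1 (0, 1) = 0 := by
    have : ((-c : R), (0 : R)) = (-c) • ((1 : R), (0 : R)) := by ext <;> simp
    rw [this, map_smul, hc, smul_smul] at h4
    rw [← neg_eq_zero, ← neg_smul, ← neg_mul]
    exact h4
  have h6 : c * c = 0 := by
    apply hin
    rw [LinearMap.toSpanSingleton_apply, h5, map_zero]
  rw [neg_mul_neg, h6]

end Pool.Agent.FatPt
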