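import Pool.Agent.Helpers.FatPointNF

set_option autoImplicit false

open MvPolynomial

namespace Pool.Agent.FatPt

universe u

variable {R : Type u} [CommRing R]

/-- R-points of the Hilbert scheme -/
def IsPt (I : Ideal (MvPolynomial (Fin 3) R)) : Prop :=
  (∀ f ∈ I, ∀ a, weightedHomogeneousComponent dg a f ∈ I) ∧ ∀ a, LFree R (Piece I a) (hf a)

theorem isPt_Il {l : R} (hl : l * l = 0) : IsPt (Il l) :=
  ⟨fun f hf a => Il_homog hl f hf a, Il_piece hl⟩

theorem mem_of_hf_zero {I : Ideal (MvPolynomial (Fin 3) R)} (hI : IsPt I) {a : ℤ × ℤ} (ha : hf a = 0)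
    (x : MvPolynomial (Fin 3) R) (hx : IsWeightedHomogeneous dg x a) : x ∈ I := by
  have h := hI.2 a
  rw [ha] at h
  have := h.subsingleton
  have h0 : (Submodule.Quotient.mk ⟨x, hx⟩ : Piece I a) = 0 := Subsingleton.elim _ _
  rw [Submodule.Quotient.mk_eq_zero] at h0
  exact h0

noncomputable def phi0 (a : ℤ × ℤ) (s t : Fin 3 →₀ ℕ)
    (hs : Finsupp.weight dg s = a) (ht : Finsupp.weight dg t = a) :
    R × R →ₗ[R] weightedHomogeneousSubmodule R dg a where
  toFun := fun x => ⟨monomial s x.1 + monomial t x.2,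
        add_mem (isWeightedHomogeneous_monomial _ _ _ hs) (isWeightedHomogeneous_monomial _ _ _ ht)⟩
  map_add' := by
        intro x y
        apply Subtype.ext
        simp only [Prod.fst_add, Prod.snd_add, map_add, Submodule.coe_add]
        ring
  map_smul' := by
        intro c x
        apply Subtype.ext
        show monomial s (c * x.1) + monomial t (c * x.2) = c • (monomial s x.1 + monomial t x.2)
        rw [smul_add, smul_monomial, smul_monomial, smul_eq_mul, smul_eq_mul]

/-- the map (B, L) ↦ B m1 + L m2 to the graded piece -/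
noncomputable def phi (I : Ideal (MvPolynomial (Fin 3) R)) (a : ℤ × ℤ) (s t : Fin 3 →₀ ℕ)
    (hs : Finsupp.weight dg s = a) (ht : Finsupp.weight dg t = a) : R × R →ₗ[R] Piece I a :=
  (Submodule.mkQ _).comp (phi0 a s t hs ht)

theorem phi_eq_zero {I : Ideal (MvPolynomial (Fin 3) R)} {a : ℤ × ℤ} {s t : Fin 3 →₀ ℕ}
    {hs : Finsupp.weight dg s = a} {ht : Finsupp.weight dg t = a} (x : R × R) :
    phi I a s t hs ht x = 0 ↔ monomial s x.1 + monomial t x.2 ∈ I := by
  rw [phi, LinearMap.comp_apply, Submodule.mkQ_apply, Submodule.Quotient.mk_eq_zero]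
  rfl

theorem phi_surj {I : Ideal (MvPolynomial (Fin 3) R)} {a : ℤ × ℤ} {s t : Fin 3 →₀ ℕ}
    {hs : Finsupp.weight dg s = a} {ht : Finsupp.weight dg t = a} (hst : s ≠ t)
    (hI : ∀ u : Fin 3 →₀ ℕ, Finsupp.weight dg u = a → u ≠ s → u ≠ t → ∀ c, monomial u c ∈ I) :
    Function.Surjective (phi I a s t hs ht) := by
  classical
  intro y
  obtain ⟨⟨x, hx⟩, rfl⟩ := Submodule.Quotient.mk_surjective _ y
  refine ⟨(coeff s x, coeff t x), ?_⟩
  rw [phi, LinearMap.comp_apply, Submodule.mkQ_apply, Submodule.Quotient.eq]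
  show (monomial s (coeff s x) + monomial t (coeff t x)) - x ∈ I
  have : (monomial s (coeff s x) + monomial t (coeff t x)) - x =
      - ∑ u ∈ (x.support.erase s).erase t, monomial u (coeff u x) := by
    have h1 : x = ∑ u ∈ x.support, monomial u (coeff u x) := x.as_sum
    have h2 : ∑ u ∈ x.support, monomial u (coeff u x) = monomial s (coeff s x) +
        ∑ u ∈ x.support.erase s, monomial u (coeff u x) := by
      by_cases h : s ∈ x.support
      · exact (Finset.add_sum_erase _ (fun u => monomial u (coeff u x)) h).symm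
      · rw [Finset.erase_eq_of_notMem h, notMem_support_iff.mp h, map_zero, zero_add]
    have h3 : ∑ u ∈ x.support.erase s, monomial u (coeff u x) = monomial t (coeff t x) +
        ∑ u ∈ (x.support.erase s).erase t, monomial u (coeff u x) := by
      by_cases h : t ∈ x.support
      · exact (Finset.add_sum_erase _ (fun u => monomial u (coeff u x))
          (Finset.mem_erase.2 ⟨hst.symm, h⟩)).symm
      · have h' : t ∉ x.support.erase s := fun h' => h (Finset.mem_of_mem_erase h')
        rw [Finset.erase_eq_of_notMem h', notMem_support_iff.mp h, map_zero, zero_add]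
    rw [h3] at h2
    rw [← h1] at h2
    nth_rewrite 3 [h2]
    ring
  rw [this]
  apply neg_mem
  apply sum_mem
  intro u hu
  rw [Finset.mem_erase, Finset.mem_erase, mem_support_iff] at hu
  exact hI u (hx hu.2.2) hu.2.1 hu.1 _

theorem eq_Il {I : Ideal (MvPolynomial (Fin 3) R)} (hI : IsPt I) : ∃ l : R, l * l = 0 ∧ I = Il l := by
  have h02 : (monomial (mo 0 2 0) 1 : MvPolynomial (Fin 3) R) ∈ I :=
    mem_of_hf_zero hI (a := (0, 2)) (hf_eq_zero (by
      intro p q r h; rw [std_mo] at h; intro h'; rw [Prod.mk.injEq] at h'; omega)) _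
      (isWeightedHomogeneous_monomial _ _ _ (by rw [weight_mo]; norm_num))
  have h23 : (monomial (mo 0 1 2) 1 : MvPolynomial (Fin 3) R) ∈ I :=
    mem_of_hf_zero hI (a := (2, 3)) (hf_eq_zero (by
      intro p q r h; rw [std_mo] at h; intro h'; rw [Prod.mk.injEq] at h'; omega)) _
      (isWeightedHomogeneous_monomial _ _ _ (by rw [weight_mo]; norm_num))
  have h33 : (monomial (mo 0 0 3) 1 : MvPolynomial (Fin 3) R) ∈ I :=
    mem_of_hf_zero hI (a := (3, 3)) (hf_eq_zero (by
      intro p q r h; rw [std_mo] at h; intro h'; rw [Prod.mk.injEq] at h'; omega)) _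
      (isWeightedHomogeneous_monomial _ _ _ (by rw [weight_mo]; norm_num))
  have w1 : Finsupp.weight dg (mo 2 1 0) = (2, 1) := by rw [weight_mo]; norm_num
  have w1' : Finsupp.weight dg (mo 1 0 1) = (2, 1) := by rw [weight_mo]; norm_num
  have w2 : Finsupp.weight dg (mo 1 1 1) = (2, 2) := by rw [weight_mo]; norm_num
  have w2' : Finsupp.weight dg (mo 0 0 2) = (2, 2) := by rw [weight_mo]; norm_num
  have w3 : Finsupp.weight dg (mo 2 1 1) = (3, 2) := by rw [weight_mo]; norm_num
  have w3' : Finsupp.weight dg (mo 1 0 2) = (3, 2) := by rw [weight_mo]; norm_num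
  have hf1 : hf (2, 1) = 1 := hf_eq_one (mo 1 0 1) (by rw [std_mo]; omega) w1' (by
      intro p q r h; rw [std_mo] at h; intro h'; rw [Prod.mk.injEq] at h'; rw [mo_inj]; omega)
  have hf2 : hf (2, 2) = 1 := hf_eq_one (mo 0 0 2) (by rw [std_mo]; omega) w2' (by
      intro p q r h; rw [std_mo] at h; intro h'; rw [Prod.mk.injEq] at h'; rw [mo_inj]; omega)
  have hf3 : hf (3, 2) = 1 := hf_eq_one (mo 1 0 2) (by rw [std_mo]; omega) w3' (by
      intro p q r h; rw [std_mo] at h; intro h'; rw [Prod.mk.injEq] at h'; rw [mo_inj]; omega)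
  have q1 := hI.2 (2, 1)
  have q2 := hI.2 (2, 2)
  have q3 := hI.2 (3, 2)
  rw [hf1] at q1
  rw [hf2] at q2
  rw [hf3] at q3
  have b2 : ∀ p r c, (monomial (mo p 2 r) c : MvPolynomial (Fin 3) R) ∈ I := by
    intro p r c
    have : (monomial (mo p 2 r) c : MvPolynomial (Fin 3) R) = monomial (mo p 0 r) c * monomial (mo 0 2 0) 1 := by
      rw [monomial_mul, mo_add, mul_one]
      rfl
    rw [this]
    exact Ideal.mul_mem_left _ _ h02
  obtain ⟨l, hl, hl1, hl2⟩ := main_LA q1 q2 q3
    (phi I (2, 1) (mo 2 1 0) (mo 1 0 1) w1 w1') (phi I (2, 2) (mo 1 1 1) (mo 0 0 2) w2 w2')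
    (phi I (3, 2) (mo 2 1 1) (mo 1 0 2) w3 w3')
    (phi_surj (by rw [Ne, mo_inj]; omega) (by
      intro u hu h1 h2 c
      obtain ⟨p, q, r, rfl⟩ := exists_mo u
      rw [weight_mo, Prod.mk.injEq] at hu
      rw [Ne, mo_inj] at h1 h2
      exfalso
      omega))
    (phi_surj (by rw [Ne, mo_inj]; omega) (by
      intro u hu h1 h2 c
      obtain ⟨p, q, r, rfl⟩ := exists_mo u
      rw [weight_mo, Prod.mk.injEq] at hu
      rw [Ne, mo_inj] at h1 h2
      obtain rfl : q = 2 := by omega
      exact b2 _ _ _))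
    (phi_surj (by rw [Ne, mo_inj]; omega) (by
      intro u hu h1 h2 c
      obtain ⟨p, q, r, rfl⟩ := exists_mo u
      rw [weight_mo, Prod.mk.injEq] at hu
      rw [Ne, mo_inj] at h1 h2
      obtain rfl : q = 2 := by omega
      exact b2 _ _ _))
    (by
      intro x hx
      rw [phi_eq_zero] at hx ⊢
      have := Ideal.mul_mem_left I (monomial (mo 0 0 1) 1) hx
      rw [mul_add, monomial_mul, monomial_mul, mo_add, mo_add, one_mul, one_mul] at this
      exact this)
    (by
      intro x hx
      rw [phi_eq_zero] at hx ⊢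
      have := Ideal.mul_mem_left I (monomial (mo 1 0 0) 1) hx
      rw [mul_add, monomial_mul, monomial_mul, mo_add, mo_add, one_mul, one_mul] at this
      exact this)
    (by
      intro x hx
      rw [phi_eq_zero] at hx ⊢
      have := Ideal.mul_mem_left I (monomial (mo 0 1 0) 1) hx
      rw [mul_add, monomial_mul, monomial_mul, mo_add, mo_add, one_mul, one_mul] at this
      have h2 := sub_mem this (b2 2 0 x.1)
      simp only [map_zero, add_zero]
      convert h2 using 1
      simp)
  rw [phi_eq_zero] at hl1 hl2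
  have hle : Il l ≤ I := by
    rw [Il, Ideal.span_le]
    intro g hg
    simp only [Set.mem_insert_iff, Set.mem_singleton_iff] at hg
    rcases hg with rfl | rfl | rfl | rfl | rfl
    · exact hl1
    · exact h02
    · exact hl2
    · exact h23
    · exact h33
  refine ⟨l, hl, le_antisymm ?_ hle⟩
  -- graded pieces
  have hpiece : ∀ a, ∀ x, IsWeightedHomogeneous dg x a → x ∈ I → x ∈ Il l := by
    intro a x hx hxI
    have hle' : ((Il l).restrictScalars R).comap (weightedHomogeneousSubmodule R dg a).subtype ≤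
        (I.restrictScalars R).comap (weightedHomogeneousSubmodule R dg a).subtype :=
      fun y hy => hle hy
    let f : Piece (Il l) a →ₗ[R] Piece I a := Submodule.factor hle'
    have hfs : Function.Surjective f := Submodule.factor_surjective hle'
    have hin := LFree.injective (Il_piece hl a) (hI.2 a) f hfs
    have h0 : f (Submodule.Quotient.mk ⟨x, hx⟩) = 0 := by
      show Submodule.Quotient.mk _ = _
      rw [Submodule.Quotient.mk_eq_zero]
      exact hxI
    have h1 := hin (h0.trans (map_zero f).symm)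
    rw [Submodule.Quotient.mk_eq_zero] at h1
    exact h1
  intro x hx
  classical
  rw [← sum_weightedHomogeneousComponent dg x, finsum_eq_sum _ (weightedHomogeneousComponent_finsupp x)]
  apply sum_mem
  intro a _
  exact hpiece a _ (weightedHomogeneousComponent_isWeightedHomogeneous _ _) (hI.1 x hx a)

theorem Il_inj {l l' : R} (hl : l * l = 0) (hl' : l' * l' = 0) (h : Il l = Il l') : l = l' := by
  have h1 : g1 l ∈ Il l' := by rw [← h]; exact Ideal.subset_span (by simp)
  rw [mem_Il_iff hl', g1, map_add, NF_monomial, NF_monomial, nfm_mid l' (by rw [std_mo]; omega) (by omega),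
    nfm_std l' (by rw [std_mo]; omega)] at h1
  have h2 := congrArg (coeff (mo 1 0 1)) h1
  simp only [one_smul, coeff_add, coeff_smul, coeff_monomial, coeff_zero, smul_eq_mul] at h2
  rw [if_pos trivial, if_pos trivial, mul_one] at h2
  rw [← sub_eq_zero, sub_eq_neg_add]
  exact h2

end Pool.Agent.FatPt
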