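import Pool.Agent.Helpers.FatPointLA

set_option autoImplicit false

open MvPolynomial

namespace Pool.Agent.FatPt

universe u

/-- exponent vector -/
noncomputable def mo (p q r : ℕ) : Fin 3 →₀ ℕ := Finsupp.equivFunOnFinite.symm ![p, q, r]

@[simp] theorem mo_zero (p q r : ℕ) : mo p q r 0 = p := rfl
@[simp] theorem mo_one (p q r : ℕ) : mo p q r 1 = q := rfl
@[simp] theorem mo_two (p q r : ℕ) : mo p q r 2 = r := rfl

theorem eq_mo (s : Fin 3 →₀ ℕ) : s = mo (s 0) (s 1) (s 2) := by
  ext i
  fin_cases i <;> rfl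

theorem exists_mo (s : Fin 3 →₀ ℕ) : ∃ p q r, s = mo p q r := ⟨_, _, _, eq_mo s⟩

theorem mo_add (p q r p' q' r' : ℕ) : mo p q r + mo p' q' r' = mo (p + p') (q + q') (r + r') := by
  ext i
  fin_cases i <;> rfl

theorem mo_inj {p q r p' q' r' : ℕ} : mo p q r = mo p' q' r' ↔ p = p' ∧ q = q' ∧ r = r' := by
  constructor
  · intro h
    exact ⟨congrArg (fun s => s 0) h, congrArg (fun s => s 1) h, congrArg (fun s => s 2) h⟩
  · rintro ⟨rfl, rfl, rfl⟩; rfl

/-- degrees of the three variables in the group ℤ × ℤ -/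
def dg : Fin 3 → ℤ × ℤ := ![(1, 0), (0, 1), (1, 1)]

theorem weight_mo (p q r : ℕ) : Finsupp.weight dg (mo p q r) = ((p : ℤ) + r, (q : ℤ) + r) := by
  rw [Finsupp.weight_apply, Finsupp.sum_fintype _ _ (by intro i; simp)]
  ext <;> simp [Fin.sum_univ_three, dg]

/-- standard monomials -/
def Std (s : Fin 3 →₀ ℕ) : Prop :=
  (s 1 = 0 ∧ s 2 ≤ 2) ∨ (s 1 = 1 ∧ s 2 = 0 ∧ s 0 ≤ 1) ∨ (s 1 = 1 ∧ s 2 = 1 ∧ s 0 = 0)

instance (s : Fin 3 →₀ ℕ) : Decidable (Std s) := by unfold Std; infer_instance

theorem std_mo (p q r : ℕ) : Std (mo p q r) ↔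
    ((q = 0 ∧ r ≤ 2) ∨ (q = 1 ∧ r = 0 ∧ p ≤ 1) ∨ (q = 1 ∧ r = 1 ∧ p = 0)) := Iff.rfl

variable {R : Type u} [CommRing R]

/-- normal form of a monomial -/
noncomputable def nfm (l : R) (s : Fin 3 →₀ ℕ) : MvPolynomial (Fin 3) R :=
  if Std s then monomial s 1 else if s 1 = 1 ∧ s 2 ≤ 1 then
    monomial (mo (s 0 - 1) 0 (s 2 + 1)) (-l) else 0

/-- normal form map -/
noncomputable def NF (l : R) : MvPolynomial (Fin 3) R →ₗ[R] MvPolynomial (Fin 3) R :=
  (MvPolynomial.basisMonomials (Fin 3) R).constr R (nfm l)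

theorem NF_monomial (l : R) (s : Fin 3 →₀ ℕ) (c : R) : NF l (monomial s c) = c • nfm l s := by
  have h : monomial s c = c • (MvPolynomial.basisMonomials (Fin 3) R s) := by
    rw [MvPolynomial.coe_basisMonomials, MvPolynomial.smul_monomial, smul_eq_mul, mul_one]
  rw [h, map_smul, NF, Module.Basis.constr_basis]

theorem nfm_std (l : R) {s : Fin 3 →₀ ℕ} (h : Std s) : nfm l s = monomial s 1 := if_pos h

theorem nfm_mid (l : R) {p r : ℕ} (h : ¬ Std (mo p 1 r)) (hr : r ≤ 1) :
    nfm l (mo p 1 r) = monomial (mo (p - 1) 0 (r + 1)) (-l) := by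
  rw [nfm, if_neg h, if_pos ⟨rfl, hr⟩]
  rfl

theorem nfm_zero (l : R) {p q r : ℕ} (h : ¬ Std (mo p q r)) (hr : ¬ (q = 1 ∧ r ≤ 1)) :
    nfm l (mo p q r) = 0 := by
  rw [nfm, if_neg h]
  exact if_neg hr

noncomputable def g1 (l : R) : MvPolynomial (Fin 3) R := monomial (mo 2 1 0) 1 + monomial (mo 1 0 1) l
noncomputable def g2 : MvPolynomial (Fin 3) R := monomial (mo 0 2 0) 1
noncomputable def g3 (l : R) : MvPolynomial (Fin 3) R := monomial (mo 1 1 1) 1 + monomial (mo 0 0 2) l
noncomputable def g4 : MvPolynomial (Fin 3) R := monomial (mo 0 1 2) 1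
noncomputable def g5 : MvPolynomial (Fin 3) R := monomial (mo 0 0 3) 1

/-- the ideal -/
noncomputable def Il (l : R) : Ideal (MvPolynomial (Fin 3) R) := Ideal.span {g1 l, g2, g3 l, g4, g5}

theorem NF_g1 {l : R} (hl : l * l = 0) (s : Fin 3 →₀ ℕ) (c : R) : NF l (monomial s c * g1 l) = 0 := by
  obtain ⟨p, q, r, rfl⟩ := exists_mo s
  rw [g1, mul_add, monomial_mul, monomial_mul, mo_add, mo_add, map_add, NF_monomial, NF_monomial]
  simp only [Nat.add_zero, mul_one]
  rcases Nat.lt_trichotomy q 1 with h | h | h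
  · obtain rfl : q = 0 := by omega
    rcases Nat.lt_or_ge r 2 with hr | hr
    · rw [nfm_mid l (by rw [std_mo]; omega) (by omega), nfm_std l (by rw [std_mo]; omega)]
      rw [smul_monomial, smul_monomial]
      have : p + 2 - 1 = p + 1 := by omega
      rw [this]
      simp only [smul_eq_mul, mul_one, mul_neg, map_neg, neg_add_cancel]
    · rw [nfm_zero l (by rw [std_mo]; omega) (by omega), nfm_zero l (by rw [std_mo]; omega) (by omega)]
      simp
  · subst h
    rw [nfm_zero l (by rw [std_mo]; omega) (by omega)]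
    rcases Nat.lt_or_ge r 1 with hr | hr
    · rw [nfm_mid l (by rw [std_mo]; omega) (by omega)]
      rw [smul_monomial]
      have : c * l * (-l) = 0 := by
        rw [mul_assoc, mul_neg, hl]; simp
      simp [this]
    · rw [nfm_zero l (by rw [std_mo]; omega) (by omega)]
      simp
  · rw [nfm_zero l (by rw [std_mo]; omega) (by omega), nfm_zero l (by rw [std_mo]; omega) (by omega)]
    simp

theorem NF_g3 {l : R} (hl : l * l = 0) (s : Fin 3 →₀ ℕ) (c : R) : NF l (monomial s c * g3 l) = 0 := by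
  obtain ⟨p, q, r, rfl⟩ := exists_mo s
  rw [g3, mul_add, monomial_mul, monomial_mul, mo_add, mo_add, map_add, NF_monomial, NF_monomial]
  simp only [Nat.add_zero, mul_one]
  rcases Nat.lt_trichotomy q 0 with h | h | h
  · omega
  · subst h
    rcases Nat.lt_or_ge r 1 with hr | hr
    · rw [nfm_mid l (by rw [std_mo]; omega) (by omega), nfm_std l (by rw [std_mo]; omega)]
      rw [smul_monomial, smul_monomial]
      have h1 : p + 1 - 1 = p := by omega
      rw [h1]
      simp only [smul_eq_mul, mul_one, mul_neg, map_neg, neg_add_cancel]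
    · rw [nfm_zero l (by rw [std_mo]; omega) (by omega), nfm_zero l (by rw [std_mo]; omega) (by omega)]
      simp
  · rw [nfm_zero l (by rw [std_mo]; omega) (by omega), nfm_zero l (by rw [std_mo]; omega) (by omega)]
    simp

theorem NF_g245 {l : R} (s : Fin 3 →₀ ℕ) (c : R) (q' r' : ℕ) (h : 2 ≤ q' ∨ (1 ≤ q' ∧ 2 ≤ r') ∨ 3 ≤ r') :
    NF l (monomial s c * monomial (mo 0 q' r') 1) = 0 := by
  obtain ⟨p, q, r, rfl⟩ := exists_mo s
  rw [monomial_mul, mo_add, NF_monomial]
  rw [nfm_zero l (by rw [std_mo]; omega) (by omega), smul_zero]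

theorem NF_gen {l : R} (hl : l * l = 0) (g : MvPolynomial (Fin 3) R)
    (hg : g ∈ ({g1 l, g2, g3 l, g4, g5} : Set (MvPolynomial (Fin 3) R))) (a : MvPolynomial (Fin 3) R) :
    NF l (a * g) = 0 := by
  induction a using MvPolynomial.induction_on' with
  | monomial s c =>
    simp only [Set.mem_insert_iff, Set.mem_singleton_iff] at hg
    rcases hg with rfl | rfl | rfl | rfl | rfl
    · exact NF_g1 hl s c
    · exact NF_g245 s c _ _ (by omega)
    · exact NF_g3 hl s c
    · exact NF_g245 s c _ _ (by omega)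
    · exact NF_g245 s c _ _ (by omega)
  | add p q hp hq => rw [add_mul, map_add, hp, hq, add_zero]

theorem NF_of_mem {l : R} (hl : l * l = 0) {x : MvPolynomial (Fin 3) R} (hx : x ∈ Il l) : NF l x = 0 := by
  have : ∀ a, NF l (a * x) = 0 := by
    induction hx using Submodule.span_induction with
    | mem g hg => exact NF_gen hl g hg
    | zero => intro a; simp
    | add x y _ _ hx hy => intro a; rw [mul_add, map_add, hx, hy, add_zero]
    | smul b x _ hx => intro a; rw [smul_eq_mul, ← mul_assoc]; exact hx _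
  simpa using this 1

theorem mem_Il_of_div {l : R} {s t : Fin 3 →₀ ℕ} (c : R)
    (h : monomial t 1 ∈ Il l) (u : Fin 3 →₀ ℕ) (hu : s = u + t) : monomial s c ∈ Il l := by
  have : monomial s c = monomial u c * monomial t 1 := by
    rw [monomial_mul, mul_one, hu]
  rw [this]
  exact Ideal.mul_mem_left _ _ h

theorem sub_NF_mem (l : R) (x : MvPolynomial (Fin 3) R) : x - NF l x ∈ Il l := by
  induction x using MvPolynomial.induction_on' with
  | add p q hp hq =>
    have : p + q - NF l (p + q) = (p - NF l p) + (q - NF l q) := by rw [map_add]; ring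
    rw [this]
    exact add_mem hp hq
  | monomial s c =>
    obtain ⟨p, q, r, rfl⟩ := exists_mo s
    have m1 : g1 l ∈ Il l := Ideal.subset_span (by simp)
    have m2 : (g2 : MvPolynomial (Fin 3) R) ∈ Il l := Ideal.subset_span (by simp)
    have m3 : g3 l ∈ Il l := Ideal.subset_span (by simp)
    have m4 : (g4 : MvPolynomial (Fin 3) R) ∈ Il l := Ideal.subset_span (by simp)
    have m5 : (g5 : MvPolynomial (Fin 3) R) ∈ Il l := Ideal.subset_span (by simp)
    rw [NF_monomial]
    by_cases hs : Std (mo p q r)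
    · rw [nfm_std l hs, smul_monomial, smul_eq_mul, mul_one, sub_self]
      exact zero_mem _
    by_cases hm : q = 1 ∧ r ≤ 1
    · obtain ⟨rfl, hr⟩ := hm
      rw [nfm_mid l hs hr, smul_monomial]
      rw [std_mo] at hs
      rcases Nat.lt_or_ge r 1 with h | h
      · obtain rfl : r = 0 := by omega
        have : monomial (mo p 1 0) c - monomial (mo (p - 1) 0 (0 + 1)) (c • (-l)) =
            monomial (mo (p - 2) 0 0) c * g1 l := by
          rw [g1, mul_add, monomial_mul, monomial_mul, mo_add, mo_add]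
          have e1 : p - 2 + 2 = p := by omega
          have e2 : p - 2 + 1 = p - 1 := by omega
          rw [e1, e2, smul_eq_mul, mul_neg, map_neg, sub_neg_eq_add, mul_one]
        rw [this]
        exact Ideal.mul_mem_left _ _ m1
      · obtain rfl : r = 1 := by omega
        have : monomial (mo p 1 1) c - monomial (mo (p - 1) 0 (1 + 1)) (c • (-l)) =
            monomial (mo (p - 1) 0 0) c * g3 l := by
          rw [g3, mul_add, monomial_mul, monomial_mul, mo_add, mo_add]
          have e1 : p - 1 + 1 = p := by omega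
          rw [e1, smul_eq_mul, mul_neg, map_neg, sub_neg_eq_add, mul_one]
          simp only [Nat.add_zero, Nat.zero_add]
        rw [this]
        exact Ideal.mul_mem_left _ _ m3
    · rw [nfm_zero l hs hm, smul_zero, sub_zero]
      rw [std_mo] at hs
      rcases Nat.lt_or_ge q 2 with h | h
      · rcases Nat.lt_or_ge q 1 with h' | h'
        · refine mem_Il_of_div c m5 (mo p q (r - 3)) ?_
          rw [mo_add, mo_inj]; omega
        · refine mem_Il_of_div c m4 (mo p (q - 1) (r - 2)) ?_
          rw [mo_add, mo_inj]; omega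
      · refine mem_Il_of_div c m2 (mo p (q - 2) r) ?_
        rw [mo_add, mo_inj]; omega

theorem mem_Il_iff {l : R} (hl : l * l = 0) (x : MvPolynomial (Fin 3) R) : x ∈ Il l ↔ NF l x = 0 := by
  constructor
  · exact NF_of_mem hl
  · intro h
    have := sub_NF_mem l x
    rwa [h, sub_zero] at this

theorem nfm_homog (l : R) (s : Fin 3 →₀ ℕ) : IsWeightedHomogeneous dg (nfm l s) (Finsupp.weight dg s) := by
  obtain ⟨p, q, r, rfl⟩ := exists_mo s
  by_cases hs : Std (mo p q r)
  · rw [nfm_std l hs]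
    exact isWeightedHomogeneous_monomial _ _ _ rfl
  by_cases hm : q = 1 ∧ r ≤ 1
  · obtain ⟨rfl, hr⟩ := hm
    rw [nfm_mid l hs hr]
    apply isWeightedHomogeneous_monomial
    rw [std_mo] at hs
    rw [weight_mo, weight_mo]
    ext
    · simp only; omega
    · simp only; omega
  · rw [nfm_zero l hs hm]
    exact isWeightedHomogeneous_zero _ _ _

theorem NF_whc (l : R) (a : ℤ × ℤ) (x : MvPolynomial (Fin 3) R) :
    NF l (weightedHomogeneousComponent dg a x) = weightedHomogeneousComponent dg a (NF l x) := by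
  classical
  induction x using MvPolynomial.induction_on' with
  | add p q hp hq => simp only [map_add, hp, hq]
  | monomial s c =>
    rw [NF_monomial, map_smul]
    by_cases h : Finsupp.weight dg s = a
    · rw [(isWeightedHomogeneous_monomial dg s c h).weightedHomogeneousComponent_same,
        (h ▸ nfm_homog l s : IsWeightedHomogeneous dg (nfm l s) a).weightedHomogeneousComponent_same,
        NF_monomial]
    · rw [(isWeightedHomogeneous_monomial dg s c rfl).weightedHomogeneousComponent_ne a (Ne.symm h),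
        (nfm_homog l s).weightedHomogeneousComponent_ne a (Ne.symm h)]
      simp

theorem coeff_nfm_of_not_std (l : R) (s m : Fin 3 →₀ ℕ) (hm : ¬ Std m) : coeff m (nfm l s) = 0 := by
  obtain ⟨p, q, r, rfl⟩ := exists_mo s
  by_cases hs : Std (mo p q r)
  · rw [nfm_std l hs, coeff_monomial, if_neg]
    rintro rfl; exact hm hs
  by_cases h : q = 1 ∧ r ≤ 1
  · obtain ⟨rfl, hr⟩ := h
    rw [nfm_mid l hs hr, coeff_monomial, if_neg]
    rintro rfl
    apply hm
    rw [std_mo]; omega
  · rw [nfm_zero l hs h, coeff_zero]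

theorem coeff_NF_of_not_std (l : R) (x : MvPolynomial (Fin 3) R) (m : Fin 3 →₀ ℕ) (hm : ¬ Std m) :
    coeff m (NF l x) = 0 := by
  induction x using MvPolynomial.induction_on' with
  | add p q hp hq => rw [map_add, coeff_add, hp, hq, add_zero]
  | monomial s c => rw [NF_monomial, coeff_smul, coeff_nfm_of_not_std l s m hm, smul_zero]

/-- standard monomials of given degree -/
abbrev Idx (a : ℤ × ℤ) : Type := {s : Fin 3 →₀ ℕ // Std s ∧ Finsupp.weight dg s = a}

instance (a : ℤ × ℤ) : Finite (Idx a) := by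
  have : Set.Finite {s : Fin 3 →₀ ℕ | Std s ∧ Finsupp.weight dg s = a} := by
    let N := (a.1).toNat + (a.2).toNat
    refine Set.Finite.subset (s := (fun t : Fin (N+1) × Fin (N+1) × Fin (N+1) => mo t.1 t.2.1 t.2.2) '' Set.univ)
      (Set.toFinite _) ?_
    rintro s ⟨-, hs⟩
    obtain ⟨p, q, r, rfl⟩ := exists_mo s
    rw [weight_mo] at hs
    have h1 : (p : ℤ) + r = a.1 := congrArg Prod.fst hs
    have h2 : (q : ℤ) + r = a.2 := congrArg Prod.snd hs
    exact ⟨(⟨p, by omega⟩, ⟨q, by omega⟩, ⟨r, by omega⟩), trivial, rfl⟩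
  exact this

/-- Hilbert function -/
noncomputable def hf (a : ℤ × ℤ) : ℕ := Nat.card (Idx a)

theorem hf_eq_zero {a : ℤ × ℤ} (h : ∀ p q r : ℕ, Std (mo p q r) → ((p : ℤ) + r, (q : ℤ) + r) ≠ a) : hf a = 0 := by
  rw [hf, Nat.card_eq_zero]
  left
  constructor
  rintro ⟨s, hs, hw⟩
  obtain ⟨p, q, r, rfl⟩ := exists_mo s
  rw [weight_mo] at hw
  exact h p q r hs hw

theorem hf_eq_one {a : ℤ × ℤ} (s0 : Fin 3 →₀ ℕ) (hs0 : Std s0) (hw0 : Finsupp.weight dg s0 = a)
    (h : ∀ p q r : ℕ, Std (mo p q r) → ((p : ℤ) + r, (q : ℤ) + r) = a → mo p q r = s0) : hf a = 1 := by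
  rw [hf, Nat.card_eq_one_iff_unique]
  refine ⟨⟨?_⟩, ⟨s0, hs0, hw0⟩⟩
  rintro ⟨s, hs, hw⟩ ⟨s', hs', hw'⟩
  obtain ⟨p, q, r, rfl⟩ := exists_mo s
  obtain ⟨p', q', r', rfl⟩ := exists_mo s'
  rw [weight_mo] at hw hw'
  rw [Subtype.mk.injEq, h _ _ _ hs hw, h _ _ _ hs' hw']

/-- degree a piece of the quotient -/
abbrev Piece (I : Ideal (MvPolynomial (Fin 3) R)) (a : ℤ × ℤ) : Type u :=
  weightedHomogeneousSubmodule R dg a ⧸
    (I.restrictScalars R).comap (weightedHomogeneousSubmodule R dg a).subtype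

/-- coordinates -/
noncomputable def theta (l : R) (a : ℤ × ℤ) : weightedHomogeneousSubmodule R dg a →ₗ[R] (Idx a → R) where
  toFun x := fun s => coeff s.1 (NF l x.1)
  map_add' x y := by ext s; simp
  map_smul' c x := by ext s; simp

theorem theta_surj (l : R) (a : ℤ × ℤ) : Function.Surjective (theta l a) := by
  classical
  intro g
  have := Fintype.ofFinite (Idx a)
  refine ⟨⟨∑ s : Idx a, monomial s.1 (g s), ?_⟩, ?_⟩
  · apply Submodule.sum_mem
    intro s _
    exact isWeightedHomogeneous_monomial _ _ _ s.2.2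
  · ext s
    simp only [theta, LinearMap.coe_mk, AddHom.coe_mk, map_sum, NF_monomial]
    rw [coeff_sum, Finset.sum_eq_single s]
    · rw [nfm_std l s.2.1, coeff_smul, coeff_monomial, if_pos rfl, smul_eq_mul, mul_one]
    · intro t _ hts
      rw [nfm_std l t.2.1, coeff_smul, coeff_monomial, if_neg, smul_zero]
      intro h; exact hts (Subtype.ext h)
    · simp

theorem ker_theta {l : R} (hl : l * l = 0) (a : ℤ × ℤ) :
    LinearMap.ker (theta l a) =
      ((Il l).restrictScalars R).comap (weightedHomogeneousSubmodule R dg a).subtype := by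
  classical
  ext ⟨x, hx⟩
  simp only [LinearMap.mem_ker, Submodule.mem_comap, Submodule.subtype_apply,
    Submodule.restrictScalars_mem, mem_Il_iff hl]
  constructor
  · intro h
    ext m
    rw [coeff_zero]
    by_cases hm : Std m
    · by_cases hw : Finsupp.weight dg m = a
      · exact congrFun h ⟨m, hm, hw⟩
      · have h2 : NF l x = weightedHomogeneousComponent dg a (NF l x) := by
          rw [← NF_whc, IsWeightedHomogeneous.weightedHomogeneousComponent_same hx]
        rw [h2, coeff_weightedHomogeneousComponent, if_neg hw]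
    · exact coeff_NF_of_not_std l x m hm
  · intro h
    ext s
    simp [theta, h]

theorem Il_piece {l : R} (hl : l * l = 0) (a : ℤ × ℤ) : LFree R (Piece (Il l) a) (hf a) := by
  have e := (theta l a).quotKerEquivOfSurjective (theta_surj l a)
  rw [ker_theta hl a] at e
  exact LFree.of_equiv e.symm (lfree_pi (ι := Idx a))

theorem Il_homog {l : R} (hl : l * l = 0) (f : MvPolynomial (Fin 3) R) (hf : f ∈ Il l) (a : ℤ × ℤ) :
    weightedHomogeneousComponent dg a f ∈ Il l := by
  rw [mem_Il_iff hl] at hf ⊢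
  rw [NF_whc, hf, map_zero]

end Pool.Agent.FatPt
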