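import Mathlib

set_option autoImplicit false

open MeasureTheory
open scoped ENNReal

namespace Pool.Agent.FourFun

theorem ennreal_four {a b c d : ℝ≥0∞} (h1 : a ≤ c) (h2 : b ≤ c) (h3 : a * b ≤ c * d) :
    a + b ≤ c + d := by
  rcases eq_or_ne c ∞ with hc | hc
  · rw [hc]; simp
  rcases eq_or_ne d ∞ with hd | hd
  · rw [hd]; simp
  have ha : a ≠ ∞ := ne_top_of_le_ne_top hc h1
  have hb : b ≠ ∞ := ne_top_of_le_ne_top hc h2
  lift a to NNReal using ha
  lift b to NNReal using hb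
  lift c to NNReal using hc
  lift d to NNReal using hd
  norm_cast at *
  rcases eq_or_ne c 0 with h0 | h0
  · subst h0
    have ha : a = 0 := le_antisymm h1 bot_le
    have hb : b = 0 := le_antisymm h2 bot_le
    rw [ha, hb]; simp
  · have h1' : (a : ℝ) ≤ c := h1
    have h2' : (b : ℝ) ≤ c := h2
    have h3' : (a : ℝ) * b ≤ c * d := h3
    have h0' : (0 : ℝ) < c := lt_of_le_of_ne c.2 (by
      intro h; exact h0 (NNReal.coe_injective h.symm))
    show (a : ℝ) + b ≤ c + d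
    have h4 : (c : ℝ) * (a + b) ≤ c * (c + d) := by nlinarith
    exact le_of_mul_le_mul_left h4 h0'

theorem four_one (F1 F2 F3 F4 : ℝ → ℝ≥0∞) (m1 : Measurable F1) (m2 : Measurable F2)
    (m3 : Measurable F3) (m4 : Measurable F4)
    (h : ∀ s t, F1 s * F2 t ≤ F3 (s ⊔ t) * F4 (s ⊓ t)) :
    (∫⁻ x, F1 x) * (∫⁻ x, F2 x) ≤ (∫⁻ x, F3 x) * (∫⁻ x, F4 x) := by
  have key : ∀ s t : ℝ, t ≤ s → F1 s * F2 t + F1 t * F2 s ≤ F3 s * F4 t + F3 t * F4 s := by
    intro s t hst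
    apply ennreal_four
    · have := h s t
      rwa [sup_eq_left.2 hst, inf_eq_right.2 hst] at this
    · have := h t s
      rwa [sup_eq_right.2 hst, inf_eq_left.2 hst] at this
    · have e1 := h s s
      have e2 := h t t
      rw [sup_idem, inf_idem] at e1 e2
      calc F1 s * F2 t * (F1 t * F2 s) = (F1 s * F2 s) * (F1 t * F2 t) := by ring
        _ ≤ (F3 s * F4 s) * (F3 t * F4 t) := mul_le_mul' e1 e2
        _ = _ := by ring
  have key2 : ∀ p : ℝ × ℝ, F1 p.1 * F2 p.2 + F2 p.1 * F1 p.2 ≤ F3 p.1 * F4 p.2 + F4 p.1 * F3 p.2 := by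
    rintro ⟨s, t⟩
    rcases le_total t s with hst | hst
    · have := key s t hst
      rw [mul_comm (F1 t), mul_comm (F3 t)] at this
      exact this
    · have := key t s hst
      rw [mul_comm (F1 t), mul_comm (F3 t)] at this
      rw [add_comm, add_comm (F3 _ * _)]
      exact this
  have h1 : ∀ (A B : ℝ → ℝ≥0∞), Measurable A → Measurable B →
      ∫⁻ p : ℝ × ℝ, A p.1 * B p.2 = (∫⁻ x, A x) * (∫⁻ x, B x) := by
    intro A B hA hB
    exact lintegral_prod_mul hA.aemeasurable hB.aemeasurable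
  have h2 : ∫⁻ p : ℝ × ℝ, (F1 p.1 * F2 p.2 + F2 p.1 * F1 p.2) ≤
      ∫⁻ p : ℝ × ℝ, (F3 p.1 * F4 p.2 + F4 p.1 * F3 p.2) := lintegral_mono key2
  rw [lintegral_add_left (by fun_prop), lintegral_add_left (by fun_prop), h1 _ _ m1 m2,
    h1 _ _ m2 m1, h1 _ _ m3 m4, h1 _ _ m4 m3, mul_comm (∫⁻ x, F2 x), mul_comm (∫⁻ x, F4 x),
    ← two_mul, ← two_mul] at h2
  exact (ENNReal.mul_le_mul_iff_right (by norm_num) (by norm_num)).1 h2

theorem meas_cons (n : ℕ) :
    Measurable (fun p : ℝ × (Fin n → ℝ) => (Fin.cons p.1 p.2 : Fin (n + 1) → ℝ)) := by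
  rw [measurable_pi_iff]
  intro i
  refine Fin.cases ?_ ?_ i
  · exact measurable_fst
  · intro j
    exact (measurable_pi_apply j).comp measurable_snd

theorem lint_cons {n : ℕ} (f : (Fin (n + 1) → ℝ) → ℝ≥0∞) (hf : Measurable f) :
    ∫⁻ x, f x = ∫⁻ s : ℝ, ∫⁻ z : Fin n → ℝ, f (Fin.cons s z) := by
  have e := (volume_preserving_piFinSuccAbove (fun _ : Fin (n + 1) => ℝ) 0).symm
  have h1 : ∫⁻ x, f x = ∫⁻ p : ℝ × (Fin n → ℝ), f (Fin.cons p.1 p.2) := by
    rw [← e.lintegral_comp_emb (MeasurableEquiv.measurableEmbedding _)]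
    refine lintegral_congr fun p => ?_
    congr 1
    exact Fin.insertNth_zero (α := fun _ => ℝ) p.1 p.2
  rw [h1]
  exact lintegral_prod _ (hf.comp (meas_cons n)).aemeasurable

theorem cons_sup {n : ℕ} (s t : ℝ) (z w : Fin n → ℝ) :
    (Fin.cons s z ⊔ Fin.cons t w : Fin (n + 1) → ℝ) = Fin.cons (s ⊔ t) (z ⊔ w) := by
  ext i
  refine Fin.cases ?_ ?_ i
  · rfl
  · intro j; rfl

theorem cons_inf {n : ℕ} (s t : ℝ) (z w : Fin n → ℝ) :
    (Fin.cons s z ⊓ Fin.cons t w : Fin (n + 1) → ℝ) = Fin.cons (s ⊓ t) (z ⊓ w) := by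
  ext i
  refine Fin.cases ?_ ?_ i
  · rfl
  · intro j; rfl

theorem four_fun : ∀ (n : ℕ) (f1 f2 f3 f4 : (Fin n → ℝ) → ℝ≥0∞), Measurable f1 → Measurable f2 →
    Measurable f3 → Measurable f4 → (∀ x y, f1 x * f2 y ≤ f3 (x ⊔ y) * f4 (x ⊓ y)) →
    (∫⁻ x, f1 x) * (∫⁻ x, f2 x) ≤ (∫⁻ x, f3 x) * (∫⁻ x, f4 x) := by
  intro n
  induction n with
  | zero =>
    intro f1 f2 f3 f4 m1 m2 m3 m4 h
    have h1 : ∀ f : (Fin 0 → ℝ) → ℝ≥0∞, ∫⁻ x, f x = f default := by
      intro f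
      rw [lintegral_unique]
      have : (volume : Measure (Fin 0 → ℝ)) Set.univ = 1 := by
        rw [volume_pi, Measure.pi_univ]; simp
      rw [this, mul_one]
      exact congrArg f (Subsingleton.elim _ _)
    rw [h1, h1, h1, h1]
    have := h default default
    rwa [sup_idem, inf_idem] at this
  | succ n ih =>
    intro f1 f2 f3 f4 m1 m2 m3 m4 h
    have hm : ∀ f : (Fin (n+1) → ℝ) → ℝ≥0∞, Measurable f →
        Measurable (fun s : ℝ => ∫⁻ z : Fin n → ℝ, f (Fin.cons s z)) := by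
      intro f hf
      have h1 : Measurable (fun p : ℝ × (Fin n → ℝ) => f (Fin.cons p.1 p.2)) := by
        exact hf.comp (meas_cons n)
      exact h1.lintegral_prod_right'
    rw [lint_cons f1 m1, lint_cons f2 m2, lint_cons f3 m3, lint_cons f4 m4]
    have hc : ∀ (f : (Fin (n+1) → ℝ) → ℝ≥0∞) (s : ℝ), Measurable f →
        Measurable (fun z : Fin n → ℝ => f (Fin.cons s z)) := by
      intro f s hf
      apply hf.comp
      exact (meas_cons n).comp (measurable_const.prodMk measurable_id)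
    apply four_one _ _ _ _ (hm _ m1) (hm _ m2) (hm _ m3) (hm _ m4)
    intro s t
    apply ih _ _ _ _ (hc _ _ m1) (hc _ _ m2) (hc _ _ m3) (hc _ _ m4)
    intro z w
    have := h (Fin.cons s z) (Fin.cons t w)
    rwa [cons_sup, cons_inf] at this

end Pool.Agent.FourFun
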