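import Mathlib

set_option autoImplicit false

namespace Pool.Agent.SimplePowers

open scoped TensorProduct

/-- twisting data -/
structure Tw where
  n : ℕ
  [hn : NeZero n]
  F : Type
  [grp : Group F]
  [fin : Finite F]
  tw : ZMod n → F →* F
  tw_zero : ∀ s, tw 0 s = s
  tw_add : ∀ x y s, tw (x + y) s = tw y (tw x s)

attribute [instance] Tw.hn Tw.grp Tw.fin

variable (T : Tw)

/-- the group -/
abbrev Tw.G : Type := T.F × Multiplicative (ZMod T.n)

variable {T}

/-- the twisted element -/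
def twg (x : ZMod T.n) (g : T.G) : T.G := (T.tw x g.1, g.2)

lemma twg_mul (x : ZMod T.n) (g h : T.G) : twg x (g * h) = twg x g * twg x h := by
  simp [twg]

lemma twg_one (x : ZMod T.n) : twg x (1 : T.G) = 1 := by
  simp [twg]

lemma twg_inv (x : ZMod T.n) (g : T.G) : twg x g⁻¹ = (twg x g)⁻¹ := by
  simp [twg]

lemma twg_zero (g : T.G) : twg 0 g = g := by simp [twg, T.tw_zero]

lemma twg_add (x y : ZMod T.n) (g : T.G) : twg (x + y) g = twg y (twg x g) := by
  simp [twg, T.tw_add]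

lemma twg_neg (x : ZMod T.n) (g : T.G) : twg (-x) (twg x g) = g := by
  rw [← twg_add, add_neg_cancel, twg_zero]

lemma twg_neg' (x : ZMod T.n) (g : T.G) : twg x (twg (-x) g) = g := by
  rw [← twg_add, neg_add_cancel, twg_zero]

/-- grading elements -/
def cc (j : ZMod T.n) : T.G := (1, Multiplicative.ofAdd j)

lemma cc_comm (j : ZMod T.n) (g : T.G) : cc j * g = g * cc j := by
  simp [cc, Prod.ext_iff, mul_comm]

lemma cc_add (i j : ZMod T.n) : cc (T := T) (i + j) = cc i * cc j := by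
  simp [cc]

lemma cc_neg (j : ZMod T.n) : cc (T := T) (-j) = (cc j)⁻¹ := by
  simp [cc]

lemma twg_cc (x j : ZMod T.n) : twg x (cc (T := T) j) = cc j := by
  simp [cc, twg]

noncomputable def ps (x : ZMod T.n) : ℂ := ZMod.stdAddChar x

lemma ps_add (x y : ZMod T.n) : ps (T := T) (x + y) = ps (T := T) x * ps (T := T) y := by
  simp [ps, AddChar.map_add_eq_mul]

lemma ps_zero : ps (T := T) 0 = 1 := by simp [ps]

lemma ps_sum (b : ZMod T.n) : ∑ x : ZMod T.n, ps (T := T) (x * b) = if b = 0 then (T.n : ℂ) else 0 := by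
  have := AddChar.sum_mulShift (R := ZMod T.n) b (ZMod.isPrimitive_stdAddChar T.n)
  simp only [ZMod.card] at this
  simp only [ps]
  rw [this]
  split_ifs <;> simp

lemma n_ne : (T.n : ℂ) ≠ 0 := by exact_mod_cast NeZero.ne T.n

section rep

variable {V W U : Type} [AddCommGroup V] [Module ℂ V] [AddCommGroup W] [Module ℂ W]
  [AddCommGroup U] [Module ℂ U]
variable (ρ : T.G →* (V →ₗ[ℂ] V)) (σ : T.G →* (W →ₗ[ℂ] W)) (τ : T.G →* (U →ₗ[ℂ] U))

/-- `v` is homogeneous of degree `x` -/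
def IsDeg (x : ZMod T.n) (v : V) : Prop := ∀ j, ρ (cc j) v = ps (T := T) (j * x) • v

/-- projection to the degree `x` part -/
noncomputable def PP (x : ZMod T.n) : V →ₗ[ℂ] V :=
  ∑ j, ((T.n : ℂ)⁻¹ * ps (T := T) (j * -x)) • ρ (cc j)

lemma PP_apply (x : ZMod T.n) (v : V) :
    PP ρ x v = ∑ j, ((T.n : ℂ)⁻¹ * ps (T := T) (j * -x)) • ρ (cc j) v := by
  simp [PP, LinearMap.sum_apply]

lemma PP_deg (x : ZMod T.n) (v : V) : IsDeg ρ x (PP ρ x v) := by
  intro k
  rw [PP_apply, map_sum, Finset.smul_sum]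
  rw [← Equiv.sum_comp (Equiv.addLeft k)
    (fun j => ps (T := T) (k * x) • ((T.n : ℂ)⁻¹ * ps (T := T) (j * -x)) • ρ (cc j) v)]
  apply Finset.sum_congr rfl
  intro j _
  rw [map_smul, ← Module.End.mul_apply, ← map_mul, ← cc_add, smul_smul]
  simp only [Equiv.coe_addLeft]
  congr 1
  rw [mul_left_comm, ← ps_add]
  congr 2
  ring

lemma PP_sum (v : V) : ∑ x, PP ρ x v = v := by
  simp only [PP_apply]
  rw [Finset.sum_comm]
  rw [Finset.sum_eq_single 0]
  · simp only [zero_mul, ps_zero, mul_one]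
    have : cc (T := T) 0 = 1 := rfl
    rw [this, map_one, Module.End.one_apply, Finset.sum_const, Finset.card_univ, ZMod.card,
      ← Nat.cast_smul_eq_nsmul ℂ, smul_smul, mul_inv_cancel₀ n_ne, one_smul]
  · intro j _ hj
    rw [← Finset.sum_smul, ← Finset.mul_sum]
    have : ∑ i : ZMod T.n, ps (T := T) (j * -i) = 0 := by
      rw [← Equiv.sum_comp (Equiv.neg (ZMod T.n))]
      have h1 : ∀ i : ZMod T.n, j * -(Equiv.neg (ZMod T.n) i) = i * j := by
        intro i; simp [mul_comm]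
      simp only [h1]
      rw [ps_sum, if_neg hj]
    rw [this, mul_zero, zero_smul]
  · simp

lemma PP_of_deg {x y : ZMod T.n} {v : V} (h : IsDeg ρ y v) :
    PP ρ x v = if x = y then v else 0 := by
  rw [PP_apply]
  have h1 : ∀ j : ZMod T.n, ((T.n : ℂ)⁻¹ * ps (T := T) (j * -x)) • ρ (cc j) v =
      ((T.n : ℂ)⁻¹ * ps (T := T) (j * (y - x))) • v := by
    intro j
    rw [h j, smul_smul, mul_assoc, ← ps_add]
    congr 3; ring
  simp only [h1]
  rw [← Finset.sum_smul, ← Finset.mul_sum, ps_sum]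
  by_cases hxy : x = y
  · subst hxy
    simp
  · rw [if_neg (by rw [sub_eq_zero]; exact fun h => hxy h.symm), if_neg hxy, mul_zero, zero_smul]

lemma IsDeg.rho {x : ZMod T.n} {v : V} (h : IsDeg ρ x v) (g : T.G) : IsDeg ρ x (ρ g v) := by
  intro j
  rw [← Module.End.mul_apply, ← map_mul, cc_comm, map_mul, Module.End.mul_apply, h j, map_smul]

lemma ext_deg {Z : Type} [AddCommGroup Z] [Module ℂ Z] (f g : V →ₗ[ℂ] Z)
    (h : ∀ x v, IsDeg ρ x v → f v = g v) : f = g := by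
  apply LinearMap.ext
  intro v
  rw [← PP_sum ρ v, map_sum, map_sum]
  exact Finset.sum_congr rfl fun x _ => h x _ (PP_deg ρ x v)

/-- twisted tensor product action -/
noncomputable def ten (g : T.G) : V ⊗[ℂ] W →ₗ[ℂ] V ⊗[ℂ] W :=
  ∑ x, TensorProduct.map (ρ g ∘ₗ PP ρ x) (σ (twg x g))

lemma ten_apply {x : ZMod T.n} {v : V} (h : IsDeg ρ x v) (w : W) (g : T.G) :
    ten ρ σ g (v ⊗ₜ w) = ρ g v ⊗ₜ σ (twg x g) w := by
  rw [ten, LinearMap.sum_apply, Finset.sum_eq_single x]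
  · rw [TensorProduct.map_tmul, LinearMap.comp_apply, PP_of_deg ρ h, if_pos rfl]
  · intro y _ hy
    rw [TensorProduct.map_tmul, LinearMap.comp_apply, PP_of_deg ρ h, if_neg hy, map_zero,
      TensorProduct.zero_tmul]
  · simp

lemma ext_ten {Z : Type} [AddCommGroup Z] [Module ℂ Z] (f g : V ⊗[ℂ] W →ₗ[ℂ] Z)
    (h : ∀ x v w, IsDeg ρ x v → f (v ⊗ₜ w) = g (v ⊗ₜ w)) : f = g := by
  apply TensorProduct.ext
  apply ext_deg ρ
  intro x v hv
  apply LinearMap.ext
  intro w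
  exact h x v w hv

noncomputable def tenRep : T.G →* (V ⊗[ℂ] W →ₗ[ℂ] V ⊗[ℂ] W) where
  toFun := ten ρ σ
  map_one' := by
    apply ext_ten ρ
    intro x v w hv
    rw [ten_apply ρ σ hv, twg_one, map_one, map_one]
    rfl
  map_mul' g h := by
    apply ext_ten ρ
    intro x v w hv
    rw [Module.End.mul_apply, ten_apply ρ σ hv, ten_apply ρ σ hv, ten_apply ρ σ (hv.rho ρ h), twg_mul,
      map_mul, map_mul]
    rfl

lemma tenRep_apply {x : ZMod T.n} {v : V} (h : IsDeg ρ x v) (w : W) (g : T.G) :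
    tenRep ρ σ g (v ⊗ₜ w) = ρ g v ⊗ₜ σ (twg x g) w := ten_apply ρ σ h w g

lemma IsDeg.ten {x y : ZMod T.n} {v : V} {w : W} (hv : IsDeg ρ x v) (hw : IsDeg σ y w) :
    IsDeg (tenRep ρ σ) (x + y) (v ⊗ₜ w) := by
  intro j
  rw [tenRep_apply ρ σ hv, twg_cc, hv j, hw j, mul_add, ps_add, TensorProduct.smul_tmul_smul]

/-- the trivial representation -/
def triv : T.G →* (ℂ →ₗ[ℂ] ℂ) := 1

lemma triv_deg (z : ℂ) : IsDeg (triv (T := T)) 0 z := by
  intro j
  simp [triv, ps_zero]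

lemma assoc_comm (g : T.G) :
    (TensorProduct.assoc ℂ V W U).toLinearMap ∘ₗ tenRep (tenRep ρ σ) τ g =
      tenRep ρ (tenRep σ τ) g ∘ₗ (TensorProduct.assoc ℂ V W U).toLinearMap := by
  apply TensorProduct.ext
  apply ext_ten ρ
  intro x v w hv
  rw [← PP_sum σ w, TensorProduct.tmul_sum, map_sum, map_sum]
  apply Finset.sum_congr rfl
  intro y _
  have hw := PP_deg σ y w
  generalize PP σ y w = w at *
  apply LinearMap.ext
  intro u
  show TensorProduct.assoc ℂ V W U (tenRep (tenRep ρ σ) τ g ((v ⊗ₜ w) ⊗ₜ u)) =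
      tenRep ρ (tenRep σ τ) g (TensorProduct.assoc ℂ V W U ((v ⊗ₜ w) ⊗ₜ u))
  rw [tenRep_apply (tenRep ρ σ) τ (hv.ten ρ σ hw), tenRep_apply ρ σ hv,
    TensorProduct.assoc_tmul, TensorProduct.assoc_tmul, tenRep_apply ρ (tenRep σ τ) hv,
    tenRep_apply σ τ hw, twg_add]

lemma lid_comm (g : T.G) :
    (TensorProduct.lid ℂ V).toLinearMap ∘ₗ tenRep triv ρ g =
      ρ g ∘ₗ (TensorProduct.lid ℂ V).toLinearMap := by
  apply TensorProduct.ext'
  intro z v
  rw [LinearMap.comp_apply, LinearMap.comp_apply, tenRep_apply _ _ (triv_deg z), twg_zero]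
  simp [triv]

lemma rid_comm (g : T.G) :
    (TensorProduct.rid ℂ V).toLinearMap ∘ₗ tenRep ρ triv g =
      ρ g ∘ₗ (TensorProduct.rid ℂ V).toLinearMap := by
  apply ext_ten ρ
  intro x v z hv
  rw [LinearMap.comp_apply, LinearMap.comp_apply, tenRep_apply _ _ hv]
  simp [triv]

variable {V' W' : Type} [AddCommGroup V'] [Module ℂ V'] [AddCommGroup W'] [Module ℂ W']
variable (ρ' : T.G →* (V' →ₗ[ℂ] V')) (σ' : T.G →* (W' →ₗ[ℂ] W'))

lemma IsDeg.map {x : ZMod T.n} {v : V} (h : IsDeg ρ x v) (f : V →ₗ[ℂ] V')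
    (hf : ∀ g, f ∘ₗ ρ g = ρ' g ∘ₗ f) : IsDeg ρ' x (f v) := by
  intro j
  have := LinearMap.congr_fun (hf (cc j)) v
  rw [LinearMap.comp_apply, LinearMap.comp_apply, h j, map_smul] at this
  exact this.symm

lemma map_comm (f : V →ₗ[ℂ] V') (f' : W →ₗ[ℂ] W') (hf : ∀ g, f ∘ₗ ρ g = ρ' g ∘ₗ f)
    (hf' : ∀ g, f' ∘ₗ σ g = σ' g ∘ₗ f') (g : T.G) :
    TensorProduct.map f f' ∘ₗ tenRep ρ σ g = tenRep ρ' σ' g ∘ₗ TensorProduct.map f f' := by
  apply ext_ten ρ
  intro x v w hv
  have hv' := hv.map ρ ρ' f hf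
  rw [LinearMap.comp_apply, LinearMap.comp_apply, tenRep_apply _ _ hv, TensorProduct.map_tmul,
    TensorProduct.map_tmul, tenRep_apply _ _ hv']
  have h1 := LinearMap.congr_fun (hf g) v
  have h2 := LinearMap.congr_fun (hf' (twg x g)) w
  rw [LinearMap.comp_apply, LinearMap.comp_apply] at h1 h2
  rw [h1, h2]

end rep

section dual

variable {V : Type} [AddCommGroup V] [Module ℂ V]
variable (ρ : T.G →* (V →ₗ[ℂ] V))

noncomputable def dualOp (g : T.G) : V →ₗ[ℂ] V := ∑ x, PP ρ (-x) ∘ₗ ρ (twg x g⁻¹)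

lemma dualOp_apply {y : ZMod T.n} {v : V} (h : IsDeg ρ y v) (g : T.G) :
    dualOp ρ g v = ρ (twg (-y) g⁻¹) v := by
  rw [dualOp, LinearMap.sum_apply, Finset.sum_eq_single (-y)]
  · rw [LinearMap.comp_apply, PP_of_deg ρ (h.rho ρ _), if_pos (neg_neg y)]
  · intro x _ hx
    rw [LinearMap.comp_apply, PP_of_deg ρ (h.rho ρ _), if_neg]
    intro h2
    apply hx
    rw [← h2, neg_neg]
  · simp

noncomputable def dualRep : T.G →* (Module.Dual ℂ V →ₗ[ℂ] Module.Dual ℂ V) where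
  toFun g := (dualOp ρ g).dualMap
  map_one' := by
    have : dualOp ρ (1 : T.G) = LinearMap.id := by
      apply ext_deg ρ
      intro x v hv
      rw [dualOp_apply ρ hv, inv_one, twg_one, map_one]
      rfl
    rw [this]
    rfl
  map_mul' g h := by
    have : dualOp ρ (g * h) = dualOp ρ h ∘ₗ dualOp ρ g := by
      apply ext_deg ρ
      intro x v hv
      rw [LinearMap.comp_apply, dualOp_apply ρ hv, dualOp_apply ρ hv, dualOp_apply ρ (hv.rho ρ _),
        mul_inv_rev, twg_mul, map_mul]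
      rfl
    rw [this]
    rfl

lemma dualRep_apply {y : ZMod T.n} {v : V} (h : IsDeg ρ y v) (g : T.G) (φ : Module.Dual ℂ V) :
    dualRep ρ g φ v = φ (ρ (twg (-y) g⁻¹) v) := by
  show φ (dualOp ρ g v) = _
  rw [dualOp_apply ρ h]

lemma dual_deg {x y : ZMod T.n} {φ : Module.Dual ℂ V} {v : V} (hφ : IsDeg (dualRep ρ) x φ)
    (hv : IsDeg ρ y v) (hxy : x + y ≠ 0) : φ v = 0 := by
  by_contra hne
  have h1 : ∀ j : ZMod T.n, ps (T := T) (j * (x + y)) = 1 := by
    intro j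
    have h2 := dualRep_apply ρ hv (cc j) φ
    rw [hφ j, ← cc_neg, twg_cc, hv (-j), map_smul, LinearMap.smul_apply, smul_eq_mul,
      smul_eq_mul] at h2
    have h3 := mul_right_cancel₀ hne h2
    rw [mul_add, ps_add, h3, ← ps_add, neg_mul, neg_add_cancel, ps_zero]
  have h4 := ps_sum (T := T) (x + y)
  rw [if_neg hxy] at h4
  simp only [h1, Finset.sum_const, Finset.card_univ, ZMod.card] at h4
  simp only [nsmul_eq_mul, mul_one] at h4
  exact n_ne h4

lemma dual_PP {x y : ZMod T.n} {v : V} (hv : IsDeg ρ y v) (φ : Module.Dual ℂ V) :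
    PP (dualRep ρ) x φ v = if x + y = 0 then φ v else 0 := by
  split_ifs with h
  · have h1 : (∑ z, PP (dualRep ρ) z φ) v = φ v := by rw [PP_sum]
    rw [LinearMap.sum_apply, Finset.sum_eq_single x] at h1
    · exact h1
    · intro z _ hz
      apply dual_deg ρ (PP_deg _ z φ) hv
      intro h2
      apply hz
      rw [← sub_eq_zero]
      have : z - x = (z + y) - (x + y) := by ring
      rw [this, h2, h, sub_zero]
    · simp
  · exact dual_deg ρ (PP_deg _ x φ) hv h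

lemma ev_comm (g : T.G) : contractLeft ℂ V ∘ₗ tenRep (dualRep ρ) ρ g =
    triv g ∘ₗ contractLeft ℂ V := by
  apply ext_ten (dualRep ρ)
  intro x φ v hφ
  rw [← PP_sum ρ v, TensorProduct.tmul_sum, map_sum, map_sum]
  apply Finset.sum_congr rfl
  intro y _
  have hv := PP_deg ρ y v
  generalize PP ρ y v = v at *
  rw [LinearMap.comp_apply, LinearMap.comp_apply, tenRep_apply _ _ hφ, contractLeft_apply,
    contractLeft_apply, dualRep_apply ρ (hv.rho ρ _)]
  show _ = φ v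
  by_cases hxy : x + y = 0
  · have : -y = x := by rw [neg_eq_iff_add_eq_zero, add_comm]; exact hxy
    rw [this, ← Module.End.mul_apply, ← map_mul, ← twg_mul, inv_mul_cancel, twg_one, map_one]
    rfl
  · rw [dual_deg ρ hφ ((hv.rho ρ _).rho ρ _) hxy, dual_deg ρ hφ hv hxy]

lemma ev_comm' (g : T.G) :
    (contractLeft ℂ V ∘ₗ (TensorProduct.comm ℂ V (Module.Dual ℂ V)).toLinearMap) ∘ₗ
      tenRep ρ (dualRep ρ) g =
    triv g ∘ₗ (contractLeft ℂ V ∘ₗ (TensorProduct.comm ℂ V (Module.Dual ℂ V)).toLinearMap) := by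
  apply ext_ten ρ
  intro x v φ hv
  rw [LinearMap.comp_apply, LinearMap.comp_apply, tenRep_apply _ _ hv]
  show dualRep ρ (twg x g) φ (ρ g v) = φ v
  rw [dualRep_apply ρ (hv.rho ρ _), ← Module.End.mul_apply, ← map_mul, ← twg_inv, twg_neg,
    inv_mul_cancel, map_one]
  rfl

variable [FiniteDimensional ℂ V]

/-- `v ⊗ φ ↦ (u ↦ φ u • v)` -/
noncomputable def Th : V ⊗[ℂ] Module.Dual ℂ V →ₗ[ℂ] (V →ₗ[ℂ] V) :=
  dualTensorHom ℂ V V ∘ₗ (TensorProduct.comm ℂ V (Module.Dual ℂ V)).toLinearMap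

lemma dth_inj : Function.Injective (dualTensorHom ℂ V V) := by
  have := (dualTensorHomEquiv ℂ V V).injective
  exact this

lemma Th_inj : Function.Injective (Th (V := V)) := by
  unfold Th
  rw [LinearMap.coe_comp]
  exact (dth_inj).comp (TensorProduct.comm ℂ V (Module.Dual ℂ V)).injective

lemma Th_tmul (v u : V) (φ : Module.Dual ℂ V) : Th (v ⊗ₜ φ) u = φ u • v := rfl

lemma Th_coev : Th (coevaluation ℂ V 1) = LinearMap.id := by
  rw [coevaluation_apply_one, map_sum]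
  apply LinearMap.ext
  intro u
  rw [LinearMap.sum_apply]
  simp only [Th_tmul]
  exact (Module.Basis.ofVectorSpace ℂ V).sum_repr u

lemma Th_ten (g : T.G) {y : ZMod T.n} {u : V} (hu : IsDeg ρ y u) (z : V ⊗[ℂ] Module.Dual ℂ V) :
    Th (tenRep ρ (dualRep ρ) g z) u =
      ∑ x, ρ g (PP ρ x (Th z (ρ (twg (-y) (twg x g)⁻¹) u))) := by
  induction z with
  | zero => simp
  | add a b ha hb =>
    simp only [map_add, LinearMap.add_apply, ha, hb, Finset.sum_add_distrib]
  | tmul v φ =>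
    conv_lhs => rw [← PP_sum ρ v]
    rw [TensorProduct.sum_tmul, map_sum, map_sum, LinearMap.sum_apply]
    apply Finset.sum_congr rfl
    intro x _
    rw [tenRep_apply _ _ (PP_deg ρ x v), Th_tmul, Th_tmul, dualRep_apply ρ hu, map_smul, map_smul]

lemma coev_comm (g : T.G) : tenRep ρ (dualRep ρ) g (coevaluation ℂ V 1) = coevaluation ℂ V 1 := by
  apply Th_inj
  rw [Th_coev]
  apply ext_deg ρ
  intro y u hu
  rw [Th_ten ρ g hu, Th_coev, Finset.sum_eq_single y]
  · rw [LinearMap.id_apply, LinearMap.id_apply, PP_of_deg ρ (hu.rho ρ _), if_pos rfl, ← Module.End.mul_apply,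
      ← map_mul, ← twg_inv, twg_neg, mul_inv_cancel, map_one]
    rfl
  · intro x _ hx
    rw [LinearMap.id_apply, PP_of_deg ρ (hu.rho ρ _), if_neg hx, map_zero]
  · simp

lemma dth_ten (g : T.G) {y : ZMod T.n} {u : V} (hu : IsDeg ρ y u) (z : Module.Dual ℂ V ⊗[ℂ] V) :
    dualTensorHom ℂ V V (tenRep (dualRep ρ) ρ g z) u =
      ρ (twg (-y) g) (dualTensorHom ℂ V V z (ρ (twg (-y) g⁻¹) u)) := by
  induction z with
  | zero => simp
  | add a b ha hb =>
    simp only [map_add, LinearMap.add_apply, ha, hb]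
  | tmul φ v =>
    conv_lhs => rw [← PP_sum (dualRep ρ) φ]
    rw [TensorProduct.sum_tmul, map_sum, map_sum, LinearMap.sum_apply, Finset.sum_eq_single (-y)]
    · rw [tenRep_apply _ _ (PP_deg _ (-y) φ), dualTensorHom_apply, dualTensorHom_apply,
        dualRep_apply ρ hu, dual_PP ρ (hu.rho ρ _), if_pos (neg_add_cancel y), map_smul]
    · intro x _ hx
      rw [tenRep_apply _ _ (PP_deg _ x φ), dualTensorHom_apply,
        dualRep_apply ρ hu, dual_PP ρ (hu.rho ρ _), if_neg, zero_smul]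
      intro h
      exact hx (eq_neg_of_add_eq_zero_left h)
    · simp

lemma coev_comm' (g : T.G) :
    tenRep (dualRep ρ) ρ g (TensorProduct.comm ℂ V (Module.Dual ℂ V) (coevaluation ℂ V 1)) =
      TensorProduct.comm ℂ V (Module.Dual ℂ V) (coevaluation ℂ V 1) := by
  have h0 : dualTensorHom ℂ V V (TensorProduct.comm ℂ V (Module.Dual ℂ V) (coevaluation ℂ V 1)) =
    LinearMap.id := Th_coev
  apply dth_inj
  rw [h0]
  apply ext_deg ρ
  intro y u hu
  rw [dth_ten ρ g hu, h0, LinearMap.id_apply, LinearMap.id_apply, ← Module.End.mul_apply,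
    ← map_mul, ← twg_mul, mul_inv_cancel, twg_one, map_one]
  rfl

end dual

end Pool.Agent.SimplePowers
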