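import Mathlib

set_option autoImplicit false

namespace Pool.Agent.SimplePowers

open CategoryTheory CategoryTheory.Limits

attribute [local instance] Abelian.hasFiniteBiproducts

section general

variable {C : Type 1} [Category.{0} C] [Abelian C]

/-- decomposition into simple objects, explicit form -/
def SS (X : C) : Prop :=
  ∃ (J : Type) (_ : Fintype J) (_ : DecidableEq J) (S : J → C) (i : ∀ j, S j ⟶ X)
    (p : ∀ j, X ⟶ S j), (∀ j, Simple (S j)) ∧ (∀ j, i j ≫ p j = 𝟙 _) ∧
      (∀ j k, j ≠ k → i j ≫ p k = 0) ∧ ∑ j, p j ≫ i j = 𝟙 X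

lemma SS_simple (X : C) (h : Simple X) : SS X :=
  ⟨Unit, inferInstance, inferInstance, fun _ => X, fun _ => 𝟙 X, fun _ => 𝟙 X, fun _ => h,
    fun _ => by simp, fun j k h => (h (Subsingleton.elim _ _)).elim, by simp⟩

lemma SS_zero (X : C) (h : IsZero X) : SS X :=
  ⟨Empty, inferInstance, inferInstance, fun e => e.elim, fun e => e.elim, fun e => e.elim,
    fun e => e.elim, fun e => e.elim, fun e => e.elim, h.eq_of_src _ _⟩

lemma SS_add {X A B : C} (hA : SS A) (hB : SS B) (f : A ⟶ X) (r : X ⟶ A) (g : B ⟶ X) (s : X ⟶ B)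
    (h1 : f ≫ r = 𝟙 A) (h2 : g ≫ s = 𝟙 B) (h3 : f ≫ s = 0) (h4 : g ≫ r = 0)
    (h5 : r ≫ f + s ≫ g = 𝟙 X) : SS X := by
  obtain ⟨J, _, _, S, i, p, hS, a1, a2, a3⟩ := hA
  obtain ⟨J', _, _, S', i', p', hS', b1, b2, b3⟩ := hB
  refine ⟨J ⊕ J', inferInstance, inferInstance, Sum.elim S S', ?_, ?_, ?_, ?_, ?_, ?_⟩
  · rintro (j | j)
    · exact i j ≫ f
    · exact i' j ≫ g
  · rintro (j | j)
    · exact r ≫ p j
    · exact s ≫ p' j
  · rintro (j | j)
    · exact hS j
    · exact hS' j
  · rintro (j | j)
    · show (i j ≫ f) ≫ (r ≫ p j) = 𝟙 _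
      rw [Category.assoc, reassoc_of% h1, a1]
    · show (i' j ≫ g) ≫ (s ≫ p' j) = 𝟙 _
      rw [Category.assoc, reassoc_of% h2, b1]
  · rintro (j | j) (k | k) hjk
    · show (i j ≫ f) ≫ (r ≫ p k) = 0
      rw [Category.assoc, reassoc_of% h1, a2 j k (fun h => hjk (by rw [h]))]
    · show (i j ≫ f) ≫ (s ≫ p' k) = 0
      rw [Category.assoc, reassoc_of% h3]; simp
    · show (i' j ≫ g) ≫ (r ≫ p k) = 0
      rw [Category.assoc, reassoc_of% h4]; simp
    · show (i' j ≫ g) ≫ (s ≫ p' k) = 0
      rw [Category.assoc, reassoc_of% h2, b2 j k (fun h => hjk (by rw [h]))]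
  · rw [Fintype.sum_sum_type]
    show ∑ j, (r ≫ p j) ≫ (i j ≫ f) + ∑ j, (s ≫ p' j) ≫ (i' j ≫ g) = 𝟙 X
    have e1 : ∑ j, (r ≫ p j) ≫ (i j ≫ f) = r ≫ f := by
      have : ∀ j, (r ≫ p j) ≫ (i j ≫ f) = r ≫ (p j ≫ i j) ≫ f := by intro j; simp
      simp only [this]
      rw [← Preadditive.comp_sum, ← Preadditive.sum_comp, a3, Category.id_comp]
    have e2 : ∑ j, (s ≫ p' j) ≫ (i' j ≫ g) = s ≫ g := by
      have : ∀ j, (s ≫ p' j) ≫ (i' j ≫ g) = s ≫ (p' j ≫ i' j) ≫ g := by intro j; simp
      simp only [this]
      rw [← Preadditive.comp_sum, ← Preadditive.sum_comp, b3, Category.id_comp]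
    rw [e1, e2, h5]

lemma SS_fin {X : C} (h : SS X) : ∃ (k : ℕ) (S : Fin k → C), (∀ i, Simple (S i)) ∧
    Nonempty (X ≅ ⨁ S) := by
  classical
  obtain ⟨J, _, _, S, i, p, hS, a1, a2, a3⟩ := h
  let e := Fintype.equivFin J
  refine ⟨Fintype.card J, fun k => S (e.symm k), fun k => hS _, ⟨?_⟩⟩
  refine ⟨biproduct.lift (fun k => p (e.symm k)), biproduct.desc (fun k => i (e.symm k)), ?_, ?_⟩
  · rw [biproduct.lift_desc]
    rw [← a3]
    exact Equiv.sum_comp e.symm (fun j => p j ≫ i j)
  · apply biproduct.hom_ext'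
    intro j
    apply biproduct.hom_ext
    intro k
    simp only [biproduct.ι_desc_assoc, Category.assoc, biproduct.lift_π, Category.comp_id]
    by_cases hjk : j = k
    · subst hjk
      rw [a1, biproduct.ι_π_self]
    · rw [a2 _ _ (fun h => hjk (e.symm.injective h)), biproduct.ι_π_ne _ hjk]

/-- simplicity, with the zero morphisms of the abelian structure -/
def Sim (X : C) : Prop := Simple X

end general

/-- finitely many simple objects -/
def FS (C : Type 1) [Category.{0} C] [Abelian C] : Prop :=
  ∃ (k : ℕ) (S : Fin k → C), ∀ X : C, Simple X → ∃ i, Nonempty (X ≅ S i)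

lemma simple_zm {D : Type 1} [Category.{0} D] (i1 i2 : HasZeroMorphisms D) (X : D)
    (h : @Simple D _ i1 X) : @Simple D _ i2 X := by
  have := Subsingleton.elim i1 i2
  subst this
  exact h

section fdrep

variable {G : Type} [Group G] [Finite G]

omit [Finite G] in
lemma hom_eq_zero_of_finrank {V W : FDRep ℂ G} (h : Module.finrank ℂ V = 0) (f : V ⟶ W) :
    f = 0 := by
  have := Module.finrank_zero_iff.1 h
  ext x
  have hx : x = 0 := Subsingleton.elim _ _
  rw [hx]
  simp

lemma fd_ss : ∀ (m : ℕ) (V : FDRep ℂ G), Module.finrank ℂ V ≤ m → SS V := by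
  intro m
  induction m with
  | zero =>
    intro V hV
    apply SS_zero
    rw [IsZero.iff_id_eq_zero]
    exact hom_eq_zero_of_finrank (by omega) _
  | succ m ih =>
    intro V hV
    by_cases hs : Simple V
    · exact SS_simple V hs
    · by_cases hz : IsZero V
      · exact SS_zero V hz
      · have : ∃ (W : FDRep ℂ G) (f : W ⟶ V), Mono f ∧ f ≠ 0 ∧ ¬ IsIso f := by
          by_contra hcon
          push Not at hcon
          apply hs
          constructor
          intro W f hf
          constructor
          · intro hiso h0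
            apply hz
            rw [IsZero.iff_id_eq_zero, ← IsIso.inv_hom_id f]
            have : inv f ≫ f = inv f ≫ 0 := congrArg (fun t => inv f ≫ t) h0
            rw [this, comp_zero]
          · intro h0
            exact hcon W f hf h0
        obtain ⟨W, f, hf, hf0, hfi⟩ := this
        let r : V ⟶ W := Injective.factorThru (𝟙 W) f
        have hr : f ≫ r = 𝟙 W := Injective.comp_factorThru _ _
        let K := kernel r
        let g : K ⟶ V := kernel.ι r
        have hgr : g ≫ r = 0 := kernel.condition r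
        let s : V ⟶ K := kernel.lift r (𝟙 V - r ≫ f) (by
          rw [Preadditive.sub_comp, Category.id_comp, Category.assoc, hr, Category.comp_id, sub_self])
        have hsg : s ≫ g = 𝟙 V - r ≫ f := kernel.lift_ι _ _ _
        have hgs : g ≫ s = 𝟙 K := by
          rw [← cancel_mono g, Category.assoc, hsg, Preadditive.comp_sub, Category.comp_id,
            reassoc_of% hgr]
          simp
        have hfs : f ≫ s = 0 := by
          rw [← cancel_mono g, Category.assoc, hsg, Preadditive.comp_sub, Category.comp_id,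
            reassoc_of% hr]
          simp
        have h5 : r ≫ f + s ≫ g = 𝟙 V := by rw [hsg]; abel
        -- dimensions
        have hinj : Function.Injective ((LinearMap.coprod f.hom.hom.hom g.hom.hom.hom) :
            (W × K) →ₗ[ℂ] V) := by
          have e1 : ∀ w : W, r.hom.hom.hom (f.hom.hom.hom w) = w := by
            intro w
            have := congrArg (fun t => t.hom.hom.hom w) hr
            exact this
          have e2 : ∀ w : K, s.hom.hom.hom (g.hom.hom.hom w) = w := by
            intro w
            have := congrArg (fun t => t.hom.hom.hom w) hgs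
            exact this
          have e3 : ∀ w : W, s.hom.hom.hom (f.hom.hom.hom w) = 0 := by
            intro w
            have := congrArg (fun t => t.hom.hom.hom w) hfs
            exact this
          have e4 : ∀ w : K, r.hom.hom.hom (g.hom.hom.hom w) = 0 := by
            intro w
            have := congrArg (fun t => t.hom.hom.hom w) hgr
            exact this
          rw [injective_iff_map_eq_zero]
          rintro ⟨w, k⟩ h
          rw [LinearMap.coprod_apply] at h
          have h6 := congrArg r.hom.hom.hom h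
          have h7 := congrArg s.hom.hom.hom h
          rw [map_add, e1, e4, add_zero, map_zero] at h6
          rw [map_add, e2, e3, zero_add, map_zero] at h7
          rw [Prod.mk_eq_zero]
          exact ⟨h6, h7⟩
        have hdim := LinearMap.finrank_le_finrank_of_injective hinj
        rw [Module.finrank_prod] at hdim
        have hW : Module.finrank ℂ W ≠ 0 := fun h => hf0 (hom_eq_zero_of_finrank h f)
        have hK : Module.finrank ℂ K ≠ 0 := by
          intro h
          apply hfi
          have hg0 : g = 0 := hom_eq_zero_of_finrank h g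
          rw [hg0, comp_zero, add_zero] at h5
          exact ⟨r, hr, h5⟩
        exact SS_add (ih W (by omega)) (ih K (by omega)) f r g s hr hgs hfs hgr h5

lemma fd_semisimple (V : FDRep ℂ G) : ∃ (k : ℕ) (S : Fin k → FDRep ℂ G), (∀ i, Simple (S i)) ∧
    Nonempty (V ≅ ⨁ S) := SS_fin (fd_ss _ V le_rfl)

/-- the regular representation on functions -/
noncomputable def regRep (G : Type) [Group G] : Representation ℂ G (G → ℂ) where
  toFun g := LinearMap.funLeft ℂ ℂ (fun h => g⁻¹ * h)
  map_one' := by ext f h; simp [LinearMap.funLeft]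
  map_mul' a b := by
    ext f h
    simp [LinearMap.funLeft, mul_assoc]

lemma fd_finite : ∃ (k : ℕ) (S : Fin k → FDRep ℂ G), ∀ X : FDRep ℂ G, Simple X →
    ∃ i, Nonempty (X ≅ S i) := by
  classical
  have := Fintype.ofFinite G
  obtain ⟨J, _, _, S, i, p, hS, a1, a2, a3⟩ := fd_ss _ (FDRep.of (regRep G)) le_rfl
  let e := Fintype.equivFin J
  refine ⟨Fintype.card J, fun k => S (e.symm k), ?_⟩
  intro X hX
  have hnz : ∃ v : X, v ≠ 0 := by
    by_contra hcon
    push Not at hcon
    apply id_nonzero X
    ext v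
    have := hcon v
    rw [this]
    simp
  obtain ⟨v, hv⟩ := hnz
  let L : (G → ℂ) →ₗ[ℂ] X := Fintype.linearCombination ℂ (fun h => X.ρ h v)
  have hL : ∀ f, L f = ∑ h, f h • X.ρ h v := fun f => Fintype.linearCombination_apply _ _ _
  let φ : FDRep.of (regRep G) ⟶ X := ⟨FGModuleCat.ofHom L, by
    intro g
    refine FGModuleCat.hom_ext (LinearMap.ext fun f => ?_)
    show L (regRep G g f) = X.ρ g (L f)
    rw [hL, hL, map_sum]
    rw [← Equiv.sum_comp (Equiv.mulLeft g)]
    apply Finset.sum_congr rfl
    intro h _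
    simp [regRep, LinearMap.funLeft]⟩
  have hφ : φ ≠ 0 := by
    intro h
    have h1 : L (Pi.single 1 1) = 0 := by
      have := congrArg (fun t => t.hom.hom.hom (Pi.single 1 1)) h
      exact this
    rw [hL, Finset.sum_eq_single 1] at h1
    · simp at h1; exact hv h1
    · intro b _ hb
      simp [hb]
    · simp
  have : ∃ j, i j ≫ φ ≠ 0 := by
    by_contra hcon
    push Not at hcon
    apply hφ
    rw [← Category.id_comp φ, ← a3, Preadditive.sum_comp]
    apply Finset.sum_eq_zero
    intro j _
    rw [Category.assoc, hcon j, comp_zero]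
  obtain ⟨j, hj⟩ := this
  have := hS j
  have := isIso_of_hom_simple hj
  refine ⟨e j, ⟨?_⟩⟩
  simp only [Equiv.symm_apply_apply]
  exact (asIso (i j ≫ φ)).symm

lemma fd_FS : FS (FDRep ℂ G) := by
  obtain ⟨k, S, h⟩ := fd_finite (G := G)
  exact ⟨k, S, fun X hX => h X (simple_zm _ _ X hX)⟩

omit [Finite G] in
lemma fd_hom (X Y : FDRep ℂ G) : FiniteDimensional ℂ (X ⟶ Y) := inferInstance

omit [Finite G] in
lemma fd_Sim (X : FDRep ℂ G) (h : Simple X) : Sim X := simple_zm _ _ X h

end fdrep

end Pool.Agent.SimplePowers
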