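import Mathlib
import Pool.Agent.Helpers.FusionLin
import Pool.Agent.Helpers.FusionSS

set_option autoImplicit false

namespace Pool.Agent.SimplePowers

open CategoryTheory CategoryTheory.Limits
open scoped TensorProduct

/-- the twisted category, as a plain category the representations of `T.G` -/
def TRep (T : Tw) : Type 1 := FDRep ℂ T.G

variable {T : Tw}

noncomputable instance : Category.{0} (TRep T) := inferInstanceAs (Category (FDRep ℂ T.G))
noncomputable instance : Abelian (TRep T) := inferInstanceAs (Abelian (FDRep ℂ T.G))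
noncomputable instance : Linear ℂ (TRep T) := inferInstanceAs (Linear ℂ (FDRep ℂ T.G))

namespace TRep

/-- underlying f.d. space -/
abbrev sp (V : TRep T) : FGModuleCat ℂ := Action.V (V : FDRep ℂ T.G)

/-- the representation -/
noncomputable abbrev r (V : TRep T) : T.G →* (V.sp →ₗ[ℂ] V.sp) := FDRep.ρ (V : FDRep ℂ T.G)

/-- object from a representation -/
noncomputable def mk {V : Type} [AddCommGroup V] [Module ℂ V] [Module.Finite ℂ V]
    (ρ : T.G →* (V →ₗ[ℂ] V)) : TRep T := (FDRep.of (V := V) ρ : FDRep ℂ T.G)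

/-- the forgetful functor -/
noncomputable def F (T : Tw) : TRep T ⥤ FGModuleCat ℂ := Action.forget (FGModuleCat ℂ) T.G

instance : (F T).Faithful := inferInstanceAs (Action.forget (FGModuleCat ℂ) T.G).Faithful

instance : (F T).Additive := inferInstanceAs (Action.forget (FGModuleCat ℂ) T.G).Additive

instance : (F T).Linear ℂ := inferInstanceAs ((Action.forget (FGModuleCat ℂ) T.G).Linear ℂ)

/-- underlying linear map -/
noncomputable def lin {V W : TRep T} (f : V ⟶ W) : V.sp →ₗ[ℂ] W.sp := ((F T).map f).hom.hom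

lemma lin_comm {V W : TRep T} (f : V ⟶ W) (g : T.G) : lin f ∘ₗ V.r g = W.r g ∘ₗ lin f := by
  have h := Action.Hom.comm (M := V) (N := W) f g
  exact congrArg (fun t => t.hom.hom) h

/-- morphism from an equivariant linear map -/
noncomputable def mkHom {V W : TRep T} (f : V.sp →ₗ[ℂ] W.sp)
    (h : ∀ g, f ∘ₗ V.r g = W.r g ∘ₗ f) : V ⟶ W :=
  (⟨FGModuleCat.ofHom f, fun g => FGModuleCat.hom_ext (h g)⟩ : Action.Hom (V : FDRep ℂ T.G) W)

lemma lin_mkHom {V W : TRep T} (f : V.sp →ₗ[ℂ] W.sp)
    (h : ∀ g, f ∘ₗ V.r g = W.r g ∘ₗ f) : lin (mkHom f h) = f := rfl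

lemma hom_ext {V W : TRep T} {f g : V ⟶ W} (h : lin f = lin g) : f = g :=
  (F T).map_injective (FGModuleCat.hom_ext h)

lemma lin_comp {V W U : TRep T} (f : V ⟶ W) (g : W ⟶ U) : lin (f ≫ g) = lin g ∘ₗ lin f := rfl

lemma lin_id (V : TRep T) : lin (𝟙 V) = LinearMap.id := rfl

noncomputable def mkIso {V W : TRep T} (e : V.sp ≃ₗ[ℂ] W.sp)
    (h : ∀ g, e.toLinearMap ∘ₗ V.r g = W.r g ∘ₗ e.toLinearMap) : V ≅ W where
  hom := mkHom e.toLinearMap h
  inv := mkHom e.symm.toLinearMap (by
    intro g
    apply LinearMap.ext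
    intro w
    obtain ⟨v, rfl⟩ := e.surjective w
    have := LinearMap.congr_fun (h g) v
    simp only [LinearMap.comp_apply, LinearEquiv.coe_coe] at this ⊢
    rw [← this, e.symm_apply_apply, e.symm_apply_apply])
  hom_inv_id := hom_ext (by
    rw [lin_comp, lin_mkHom, lin_mkHom, lin_id]
    exact LinearMap.ext fun x => e.symm_apply_apply x)
  inv_hom_id := hom_ext (by
    rw [lin_comp, lin_mkHom, lin_mkHom, lin_id]
    exact LinearMap.ext fun x => e.apply_symm_apply x)

noncomputable instance : MonoidalCategoryStruct (TRep T) where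
  tensorObj V W := mk (tenRep V.r W.r)
  whiskerLeft X Y₁ Y₂ f := mkHom (V := mk (tenRep X.r Y₁.r)) (W := mk (tenRep X.r Y₂.r))
    (TensorProduct.map LinearMap.id (lin f))
    (fun g => map_comm _ _ _ _ _ _ (fun _ => rfl) (lin_comm f) g)
  whiskerRight {X₁ X₂} f Y := mkHom (V := mk (tenRep X₁.r Y.r)) (W := mk (tenRep X₂.r Y.r))
    (TensorProduct.map (lin f) LinearMap.id)
    (fun g => map_comm _ _ _ _ _ _ (lin_comm f) (fun _ => rfl) g)
  tensorHom {X₁ Y₁ X₂ Y₂} f g := mkHom (V := mk (tenRep X₁.r X₂.r)) (W := mk (tenRep Y₁.r Y₂.r))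
    (TensorProduct.map (lin f) (lin g))
    (fun x => map_comm _ _ _ _ _ _ (lin_comm f) (lin_comm g) x)
  tensorUnit := mk triv
  associator X Y Z := mkIso (V := mk (tenRep (mk (tenRep X.r Y.r) : TRep T).r Z.r))
    (W := mk (tenRep X.r (mk (tenRep Y.r Z.r) : TRep T).r))
    (TensorProduct.assoc ℂ X.sp Y.sp Z.sp) (fun g => assoc_comm X.r Y.r Z.r g)
  leftUnitor X := mkIso (V := mk (tenRep (mk triv : TRep T).r X.r)) (W := X)
    (TensorProduct.lid ℂ X.sp) (fun g => lid_comm X.r g)
  rightUnitor X := mkIso (V := mk (tenRep X.r (mk triv : TRep T).r)) (W := X)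
    (TensorProduct.rid ℂ X.sp) (fun g => rid_comm X.r g)

open MonoidalCategory

noncomputable def fData : Monoidal.InducingFunctorData (F T) where
  μIso X Y := Iso.refl _
  εIso := Iso.refl _
  whiskerLeft_eq X Y₁ Y₂ f := by
    rfl
  whiskerRight_eq f Y := by
    rfl
  tensorHom_eq f g := by
    rfl
  associator_eq X Y Z := by
    apply FGModuleCat.hom_ext
    apply TensorProduct.ext_threefold
    intro x y z
    rfl
  leftUnitor_eq X := by
    apply FGModuleCat.hom_ext
    apply TensorProduct.ext'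
    intro x y
    rfl
  rightUnitor_eq X := by
    apply FGModuleCat.hom_ext
    apply TensorProduct.ext'
    intro x y
    rfl

noncomputable instance instMon : MonoidalCategory (TRep T) := Monoidal.induced (F T) fData

noncomputable instance instFMon : (F T).Monoidal := Monoidal.fromInducedMonoidal (F T) fData

instance : MonoidalPreadditive (TRep T) := monoidalPreadditive_of_faithful (F T)

instance : MonoidalLinear ℂ (TRep T) := MonoidalLinear.ofFaithful ℂ (F T)

/-- dual object -/
noncomputable def dual (V : TRep T) : TRep T := mk (dualRep V.r)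

noncomputable def ev (V : TRep T) : dual V ⊗ V ⟶ 𝟙_ (TRep T) :=
  mkHom (V := mk (tenRep (dualRep V.r) V.r)) (W := mk triv) (contractLeft ℂ V.sp) (ev_comm V.r)

noncomputable def ev' (V : TRep T) : V ⊗ dual V ⟶ 𝟙_ (TRep T) :=
  mkHom (V := mk (tenRep V.r (dualRep V.r))) (W := mk triv)
    (contractLeft ℂ V.sp ∘ₗ (TensorProduct.comm ℂ V.sp (Module.Dual ℂ V.sp)).toLinearMap)
    (ev_comm' V.r)

noncomputable def coev (V : TRep T) : 𝟙_ (TRep T) ⟶ V ⊗ dual V :=
  mkHom (V := mk triv) (W := mk (tenRep V.r (dualRep V.r))) (coevaluation ℂ V.sp) (by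
    intro g
    apply LinearMap.ext_ring
    exact (coev_comm V.r g).symm)

noncomputable def coev' (V : TRep T) : 𝟙_ (TRep T) ⟶ dual V ⊗ V :=
  mkHom (V := mk triv) (W := mk (tenRep (dualRep V.r) V.r))
    ((TensorProduct.comm ℂ V.sp (Module.Dual ℂ V.sp)).toLinearMap ∘ₗ coevaluation ℂ V.sp) (by
    intro g
    apply LinearMap.ext_ring
    exact (coev_comm' V.r g).symm)

noncomputable instance exF (V : TRep T) : ExactPairing ((F T).obj V) ((F T).obj (dual V)) :=
  FGModuleCat.exactPairing ℂ V.sp

noncomputable instance exV (V : TRep T) : ExactPairing V (dual V) :=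
  ExactPairing.ofFaithful (F T) (ev V) (coev V) (by
    apply FGModuleCat.hom_ext
    apply TensorProduct.ext'
    intro x y
    rfl) (by
    apply FGModuleCat.hom_ext
    apply LinearMap.ext_ring
    rfl)

noncomputable instance exF' (V : TRep T) : ExactPairing ((F T).obj (dual V)) ((F T).obj V) :=
  BraidedCategory.exactPairing_swap ((F T).obj V) ((F T).obj (dual V))

noncomputable instance exV' (V : TRep T) : ExactPairing (dual V) V :=
  ExactPairing.ofFaithful (F T) (ev' V) (coev' V) (by
    apply FGModuleCat.hom_ext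
    apply TensorProduct.ext'
    intro x y
    rfl) (by
    apply FGModuleCat.hom_ext
    apply LinearMap.ext_ring
    rfl)

noncomputable instance instLeft : LeftRigidCategory (TRep T) where
  leftDual V := ⟨dual V⟩

noncomputable instance instRight : RightRigidCategory (TRep T) where
  rightDual V := ⟨dual V⟩

noncomputable instance instRigid : RigidCategory (TRep T) where

end TRep

end Pool.Agent.SimplePowers
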