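import Mathlib

set_option autoImplicit false

namespace Pool.Agent.SimplePowers

open CategoryTheory CategoryTheory.Limits MonoidalCategory

attribute [local instance] Abelian.hasFiniteBiproducts

/-- A fusion category over `ℂ`: a `ℂ`-linear abelian rigid monoidal category (with `ℂ`-bilinear
tensor product) with finite-dimensional Hom spaces, in which every object is a finite direct sum
of simple objects, with finitely many simple objects up to isomorphism and simple unit object. -/
structure FusionCategory where
  C : Type 1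
  [cat : Category.{0} C]
  [abelian : Abelian C]
  [linear : Linear ℂ C]
  [monoidal : MonoidalCategory C]
  [monoidalPreadditive : MonoidalPreadditive C]
  [monoidalLinear : MonoidalLinear ℂ C]
  [rigid : RigidCategory C]
  finiteDimensional_hom : ∀ X Y : C, FiniteDimensional ℂ (X ⟶ Y)
  semisimple : ∀ X : C, ∃ (k : ℕ) (S : Fin k → C), (∀ i, Simple (S i)) ∧ Nonempty (X ≅ ⨁ S)
  finite_simples : ∃ (k : ℕ) (S : Fin k → C), ∀ X : C, Simple X → ∃ i, Nonempty (X ≅ S i)
  simple_unit : Simple (𝟙_ C)

attribute [instance] FusionCategory.cat FusionCategory.abelian FusionCategory.linear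
  FusionCategory.monoidal FusionCategory.monoidalPreadditive FusionCategory.monoidalLinear
  FusionCategory.rigid

/-- the tensor power `X ⊗ (X ⊗ (⋯ ⊗ 𝟙_))` -/
def tensorPow {C : Type 1} [Category.{0} C] [MonoidalCategory C] (X : C) : ℕ → C
  | 0 => 𝟙_ C
  | (k + 1) => X ⊗ tensorPow X k

/-- `X` is invertible -/
def Invertible' {C : Type 1} [Category.{0} C] [MonoidalCategory C] (X : C) : Prop :=
  ∃ Y : C, Nonempty (X ⊗ Y ≅ 𝟙_ C) ∧ Nonempty (Y ⊗ X ≅ 𝟙_ C)

end Pool.Agent.SimplePowers
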