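import Mathlib
import Pool.Agent.Helpers.FusionDefs
import Pool.Agent.Helpers.FusionCat

set_option autoImplicit false

namespace Pool.Agent.SimplePowers

open CategoryTheory CategoryTheory.Limits MonoidalCategory
open scoped TensorProduct

/-! ### the two-dimensional representation of the dihedral group of order 8 -/

def cL : List ℤ := [1, 0, -1, 0]
def sL : List ℤ := [0, 1, 0, -1]

def MM : DihedralGroup 4 → Matrix (Fin 2) (Fin 2) ℤ
  | .r i => !![cL.getD i.val 0, - sL.getD i.val 0; sL.getD i.val 0, cL.getD i.val 0]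
  | .sr i => !![cL.getD i.val 0, - sL.getD i.val 0; - sL.getD i.val 0, - cL.getD i.val 0]

lemma MM_one : MM 1 = 1 := by decide

lemma MM_mul (a b : DihedralGroup 4) : MM (a * b) = MM a * MM b := by
  revert a b; decide

noncomputable def tau : DihedralGroup 4 →* ((Fin 2 → ℂ) →ₗ[ℂ] (Fin 2 → ℂ)) where
  toFun g := Matrix.toLin' ((MM g).map (Int.castRingHom ℂ))
  map_one' := by
    rw [MM_one, Matrix.map_one _ (map_zero _) (map_one _), Matrix.toLin'_one]
    rfl
  map_mul' a b := by
    rw [MM_mul, Matrix.map_mul, Matrix.toLin'_mul]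
    rfl

noncomputable def e0 : Fin 2 → ℂ := ![1, 0]
noncomputable def e1 : Fin 2 → ℂ := ![0, 1]

lemma tau_S (v : Fin 2 → ℂ) : tau (.sr 0) v = ![v 0, - v 1] := by
  funext i
  fin_cases i <;>
  simp [tau, MM, cL, sL, Matrix.toLin'_apply, Matrix.mulVec, dotProduct, Fin.sum_univ_two]

lemma tau_J (v : Fin 2 → ℂ) : tau (.r 1) v = ![- v 1, v 0] := by
  have h1 : (1 : ZMod 4).val = 1 := rfl
  funext i
  fin_cases i <;>
  simp [tau, MM, cL, sL, Matrix.toLin'_apply, Matrix.mulVec, dotProduct, Fin.sum_univ_two, h1]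

/-- a linear map commuting with `tau g ⊗ 1` for all `g` has the form `1 ⊗ Ψ` -/
lemma schur {Z : Type} [AddCommGroup Z] [Module ℂ Z]
    (Φ : (Fin 2 → ℂ) ⊗[ℂ] Z →ₗ[ℂ] (Fin 2 → ℂ) ⊗[ℂ] Z)
    (h : ∀ g, Φ ∘ₗ TensorProduct.map (tau g) LinearMap.id =
      TensorProduct.map (tau g) LinearMap.id ∘ₗ Φ) :
    ∃ Ψ : Z →ₗ[ℂ] Z, Φ = TensorProduct.map LinearMap.id Ψ := by
  let p0 : (Fin 2 → ℂ) ⊗[ℂ] Z →ₗ[ℂ] Z :=
    (TensorProduct.lid ℂ Z).toLinearMap ∘ₗ TensorProduct.map (LinearMap.proj 0) LinearMap.id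
  have hp0 : ∀ v z, p0 (v ⊗ₜ z) = v 0 • z := fun v z => rfl
  -- `(E00 ⊗ 1) t = e0 ⊗ p0 t`
  have hE : ∀ t, (2 : ℂ) • (e0 ⊗ₜ[ℂ] p0 t) = t + TensorProduct.map (tau (.sr 0)) LinearMap.id t := by
    intro t
    induction t with
    | zero => simp
    | add a b ha hb =>
      rw [map_add, TensorProduct.tmul_add, smul_add, ha, hb, map_add]
      abel
    | tmul v z =>
      rw [hp0, TensorProduct.map_tmul, LinearMap.id_apply, ← TensorProduct.add_tmul,
        TensorProduct.tmul_smul, TensorProduct.smul_tmul', TensorProduct.smul_tmul']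
      congr 1
      rw [tau_S]
      funext i
      fin_cases i
      · simp [e0]; ring
      · simp [e0]
  let Ψ : Z →ₗ[ℂ] Z := p0 ∘ₗ Φ ∘ₗ TensorProduct.mk ℂ (Fin 2 → ℂ) Z e0
  have hΨ : ∀ z, Ψ z = p0 (Φ (e0 ⊗ₜ z)) := fun z => rfl
  have hS : ∀ z, TensorProduct.map (tau (.sr 0)) LinearMap.id (Φ (e0 ⊗ₜ z)) = Φ (e0 ⊗ₜ z) := by
    intro z
    have := LinearMap.congr_fun (h (.sr 0)) (e0 ⊗ₜ z)
    rw [LinearMap.comp_apply, LinearMap.comp_apply, TensorProduct.map_tmul, tau_S] at this
    rw [← this]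
    congr 2
    funext i
    fin_cases i <;> simp [e0]
  have h0 : ∀ z, Φ (e0 ⊗ₜ z) = e0 ⊗ₜ Ψ z := by
    intro z
    have h1 := hE (Φ (e0 ⊗ₜ z))
    rw [hS, ← two_smul ℂ, ← hΨ] at h1
    exact (smul_right_injective _ (two_ne_zero (α := ℂ)) h1).symm
  have hJ : tau (.r 1) e0 = e1 := by
    rw [tau_J]
    funext i
    fin_cases i <;> simp [e0, e1]
  have h1 : ∀ z, Φ (e1 ⊗ₜ z) = e1 ⊗ₜ Ψ z := by
    intro z
    have := LinearMap.congr_fun (h (.r 1)) (e0 ⊗ₜ z)
    rw [LinearMap.comp_apply, LinearMap.comp_apply, TensorProduct.map_tmul, hJ, h0,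
      TensorProduct.map_tmul, hJ] at this
    exact this
  refine ⟨Ψ, ?_⟩
  apply TensorProduct.ext'
  intro v z
  have hv : v = v 0 • e0 + v 1 • e1 := by
    funext i
    fin_cases i <;> simp [e0, e1]
  rw [hv, TensorProduct.add_tmul, map_add, map_add, ← TensorProduct.smul_tmul',
    ← TensorProduct.smul_tmul', map_smul, map_smul, map_smul, map_smul, h0, h1]
  rfl

/-! ### the twisted data -/

/-- the data: `n` copies of the dihedral group, cyclically permuted -/
def TT (n : ℕ) [NeZero n] : Tw where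
  n := n
  F := ZMod n → DihedralGroup 4
  tw x :=
    { toFun := fun s i => s (i + x)
      map_one' := rfl
      map_mul' := fun _ _ => rfl }
  tw_zero s := by funext i; simp
  tw_add x y s := by
    funext i
    show s (i + (x + y)) = s (i + y + x)
    congr 1; ring

variable {n : ℕ} [NeZero n]

noncomputable def rhoX (n : ℕ) [NeZero n] : (TT n).G →* ((Fin 2 → ℂ) →ₗ[ℂ] (Fin 2 → ℂ)) where
  toFun g := ps (T := TT n) (Multiplicative.toAdd g.2) • tau (g.1 0)
  map_one' := by
    show ps (T := TT n) 0 • tau 1 = 1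
    rw [ps_zero, one_smul, map_one]
  map_mul' a b := by
    show ps (T := TT n) (Multiplicative.toAdd a.2 + Multiplicative.toAdd b.2) •
      tau (a.1 0 * b.1 0) = _
    rw [ps_add, map_mul, smul_mul_smul_comm]

lemma rhoX_deg (v : Fin 2 → ℂ) : IsDeg (rhoX n) (1 : ZMod n) v := by
  intro j
  have h : ∀ j : ZMod n, j * 1 = j := fun j => mul_one j
  have h2 : ∀ j : ZMod n, rhoX n (cc (T := TT n) j) v = ps (T := TT n) (j * 1 : ZMod n) • v := by
    intro j
    rw [h]
    show (ps (T := TT n) j • tau 1) v = ps (T := TT n) j • v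
    rw [map_one]
    rfl
  exact h2 j

/-- the object -/
noncomputable def XX (n : ℕ) [NeZero n] : TRep (TT n) := TRep.mk (rhoX n)

/-- element of the group supported away from the cyclic part -/
def inj (s : ZMod n → DihedralGroup 4) : (TT n).G := (s, 1)

noncomputable def powX (n : ℕ) [NeZero n] (k : ℕ) : TRep (TT n) := tensorPow (XX n) k

lemma powX_succ (k : ℕ) : powX n (k + 1) = TRep.mk (tenRep (rhoX n) (powX n k).r) := rfl

lemma pow_act (k : ℕ) (s : ZMod n → DihedralGroup 4) (v : Fin 2 → ℂ) (z : (powX n k).sp) :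
    tenRep (rhoX n) (powX n k).r (inj s) (v ⊗ₜ z) =
      tau (s 0) v ⊗ₜ (powX n k).r (inj (fun i => s (i + 1))) z := by
  rw [tenRep_apply _ _ (rhoX_deg v)]
  have : rhoX n (inj s) v = tau (s 0) v := by
    show (ps (T := TT n) 0 • tau (s 0)) v = _
    rw [ps_zero, one_smul]
  rw [this]
  rfl

lemma pow_dep (k : ℕ) : ∀ s s' : ZMod n → DihedralGroup 4,
    (∀ i : ℕ, i < k → s (i : ZMod n) = s' (i : ZMod n)) →
    (powX n k).r (inj s) = (powX n k).r (inj s') := by
  induction k with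
  | zero => intro s s' _; rfl
  | succ k ih =>
    intro s s' h
    show tenRep (rhoX n) (powX n k).r (inj s) = tenRep (rhoX n) (powX n k).r (inj s')
    apply TensorProduct.ext'
    intro v z
    rw [pow_act, pow_act]
    have h0 := h 0 (by omega)
    rw [Nat.cast_zero] at h0
    rw [h0, ih (fun i => s (i + 1)) (fun i => s' (i + 1)) (by
      intro i hi
      have := h (i + 1) (by omega)
      push_cast at this
      exact this)]

omit [NeZero n] in
lemma cast_succ_ne (k i : ℕ) (hk : k + 1 ≤ n) (hi : i < k) : ((i : ZMod n) + 1) ≠ 0 := by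
  intro h
  have : ((i + 1 : ℕ) : ZMod n) = 0 := by push_cast; exact h
  rw [ZMod.natCast_eq_zero_iff] at this
  have := Nat.le_of_dvd (by omega) this
  omega

lemma pow_scalar (k : ℕ) (hk : k ≤ n) : ∀ Φ : (powX n k).sp →ₗ[ℂ] (powX n k).sp,
    (∀ s, Φ ∘ₗ (powX n k).r (inj s) = (powX n k).r (inj s) ∘ₗ Φ) →
    ∃ c : ℂ, Φ = c • LinearMap.id := by
  induction k with
  | zero =>
    intro Φ _
    let Φ' : ℂ →ₗ[ℂ] ℂ := Φ
    have : Φ' = Φ' 1 • LinearMap.id := by
      apply LinearMap.ext_ring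
      simp
    exact ⟨Φ' 1, this⟩
  | succ k ih =>
    intro Φ0 hΦ0
    let Φ : (Fin 2 → ℂ) ⊗[ℂ] (powX n k).sp →ₗ[ℂ] (Fin 2 → ℂ) ⊗[ℂ] (powX n k).sp := Φ0
    have hΦ : ∀ s, Φ ∘ₗ tenRep (rhoX n) (powX n k).r (inj s) =
      tenRep (rhoX n) (powX n k).r (inj s) ∘ₗ Φ := hΦ0
    -- action of the elements supported at `0`
    have hg : ∀ g : DihedralGroup 4, tenRep (rhoX n) (powX n k).r (inj (Pi.mulSingle 0 g)) =
        TensorProduct.map (tau g) LinearMap.id := by
      intro g
      apply TensorProduct.ext'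
      intro v z
      rw [pow_act, Pi.mulSingle_eq_same]
      rw [pow_dep k (fun i => (Pi.mulSingle 0 g : ZMod n → DihedralGroup 4) (i + 1)) 1 (by
        intro i hi
        exact Pi.mulSingle_eq_of_ne (M := fun _ : ZMod n => DihedralGroup 4)
          (cast_succ_ne k i hk hi) g)]
      have : inj (1 : ZMod n → DihedralGroup 4) = (1 : (TT n).G) := rfl
      rw [this, map_one]
      rfl
    have hs : ∀ s : ZMod n → DihedralGroup 4, tenRep (rhoX n) (powX n k).r
        (inj (fun i => if i = 0 then 1 else s (i - 1))) =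
        TensorProduct.map LinearMap.id ((powX n k).r (inj s)) := by
      intro s
      apply TensorProduct.ext'
      intro v z
      rw [pow_act, if_pos rfl, map_one]
      rw [pow_dep k (fun i => if i + 1 = 0 then 1 else s (i + 1 - 1)) s (by
        intro i hi
        rw [if_neg (cast_succ_ne k i hk hi), add_sub_cancel_right])]
      rfl
    obtain ⟨Ψ, hΨ⟩ := schur Φ (by
      intro g
      rw [← hg]
      exact hΦ _)
    have hΨc : ∀ s, Ψ ∘ₗ (powX n k).r (inj s) = (powX n k).r (inj s) ∘ₗ Ψ := by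
      intro s
      have h1 := hΦ (fun i => if i = 0 then 1 else s (i - 1))
      rw [hs, hΨ] at h1
      apply LinearMap.ext
      intro z
      have h2 := LinearMap.congr_fun h1 (e0 ⊗ₜ z)
      simp only [LinearMap.comp_apply, TensorProduct.map_tmul, LinearMap.id_apply] at h2
      have h3 := congrArg ((TensorProduct.lid ℂ (powX n k).sp).toLinearMap ∘ₗ
        TensorProduct.map (LinearMap.proj 0) LinearMap.id) h2
      simp only [LinearMap.comp_apply, TensorProduct.map_tmul, LinearMap.id_apply,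
        LinearEquiv.coe_coe, TensorProduct.lid_tmul, LinearMap.proj_apply] at h3
      simpa [e0] using h3
    obtain ⟨c, hc⟩ := ih (by omega) Ψ hΨc
    refine ⟨c, ?_⟩
    show Φ = c • LinearMap.id
    rw [hΨ, hc, TensorProduct.map_smul_right, TensorProduct.map_id]
    rfl

lemma pow_finrank (k : ℕ) : Module.finrank ℂ (powX n k).sp = 2 ^ k := by
  induction k with
  | zero => exact Module.finrank_self ℂ
  | succ k ih =>
    have : Module.finrank ℂ (powX n (k + 1)).sp =
      Module.finrank ℂ ((Fin 2 → ℂ) ⊗[ℂ] (powX n k).sp) := rfl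
    rw [this, Module.finrank_tensorProduct, ih, Module.finrank_fin_fun, pow_succ, mul_comm]

lemma pow_simple (k : ℕ) (hk : k ≤ n) : Simple (powX n k) := by
  have key : ∀ V : FDRep ℂ (TT n).G, V = (powX n k : TRep (TT n)) → Simple V := by
    intro V hV
    refine (FDRep.simple_iff_end_is_rank_one (k := ℂ) (G := (TT n).G) V).2 ?_
    rw [finrank_eq_one_iff']
    subst hV
    refine ⟨𝟙 _, ?_, ?_⟩
    · intro h
      have h1 : (LinearMap.id : (powX n k).sp →ₗ[ℂ] (powX n k).sp) = 0 :=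
        congrArg (fun t => t.hom.hom.hom) h
      have h2 : Module.finrank ℂ (powX n k).sp = 0 := by
        rw [Module.finrank_zero_iff]
        constructor
        intro a b
        have ha := LinearMap.congr_fun h1 a
        have hb := LinearMap.congr_fun h1 b
        simp only [LinearMap.id_apply, LinearMap.zero_apply] at ha hb
        rw [ha, hb]
      rw [pow_finrank] at h2
      exact absurd h2 (by positivity)
    · intro f
      obtain ⟨c, hc⟩ := pow_scalar k hk (TRep.lin (T := TT n) (V := powX n k) (W := powX n k) f)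
        (fun s => TRep.lin_comm (T := TT n) (V := powX n k) (W := powX n k) f (inj s))
      refine ⟨c, ?_⟩
      apply Action.hom_ext
      apply FGModuleCat.hom_ext
      exact hc.symm
  exact fd_Sim (G := (TT n).G) (powX n k) (key _ rfl)

attribute [local instance] Abelian.hasFiniteBiproducts

lemma fhom {T : Tw} (X Y : TRep T) : FiniteDimensional ℂ (X ⟶ Y) := fd_hom (G := T.G) X Y

lemma fss {T : Tw} (X : TRep T) : ∃ (k : ℕ) (S : Fin k → TRep T), (∀ i, Simple (S i)) ∧
    Nonempty (X ≅ ⨁ S) := SS_fin (C := TRep T) (fd_ss (G := T.G) _ X le_rfl)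

lemma ffs {T : Tw} : ∃ (k : ℕ) (S : Fin k → TRep T), ∀ X : TRep T, Simple X →
    ∃ i, Nonempty (X ≅ S i) := fd_FS (G := T.G)

/-- the fusion category -/
noncomputable def fus (n : ℕ) [NeZero n] : FusionCategory where
  C := TRep (TT n)
  finiteDimensional_hom := fhom
  semisimple := fss
  finite_simples := ffs
  simple_unit := pow_simple 0 (Nat.zero_le _)

lemma not_inv (n : ℕ) [NeZero n] : ¬ Invertible' (XX n) := by
  rintro ⟨Y, ⟨e⟩, _⟩
  have h1 : Module.finrank ℂ (XX n ⊗ Y : TRep (TT n)).sp =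
      Module.finrank ℂ (𝟙_ (TRep (TT n)) : TRep (TT n)).sp :=
    LinearEquiv.finrank_eq (FGModuleCat.isoToLinearEquiv ((TRep.F (TT n)).mapIso e))
  have h2 : Module.finrank ℂ (XX n ⊗ Y : TRep (TT n)).sp =
      Module.finrank ℂ ((Fin 2 → ℂ) ⊗[ℂ] Y.sp) := rfl
  have h3 : Module.finrank ℂ (𝟙_ (TRep (TT n)) : TRep (TT n)).sp = Module.finrank ℂ ℂ := rfl
  rw [h2, h3, Module.finrank_tensorProduct, Module.finrank_fin_fun, Module.finrank_self] at h1
  omega

lemma X_simple (n : ℕ) [NeZero n] : Simple (XX n) := by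
  have h1 : Simple (powX n 1) := pow_simple 1 (Nat.one_le_iff_ne_zero.2 (NeZero.ne n))
  have h2 : Simple (XX n ⊗ 𝟙_ (TRep (TT n))) := h1
  exact Simple.of_iso (ρ_ (XX n)).symm

theorem main : ∀ N : ℕ, ∃ (𝒞 : FusionCategory) (X : 𝒞.C),
    Simple X ∧ ¬ Invertible' X ∧ Simple (tensorPow X N) := by
  intro N
  exact ⟨fus (N + 1), XX (N + 1), X_simple (N + 1), not_inv (N + 1), pow_simple N (by omega)⟩

end Pool.Agent.SimplePowers
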