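import Pool.Agent.Helpers.H19AsdDefs

/-!
A torsion group does not split over any subgroup.
-/

namespace Pool.Agent.Helpers.H19Asd

open Monoid

universe u

theorem not_hnn {G : Type u} [Group G] (htor : ∀ g : G, ∃ n : ℕ, 0 < n ∧ g ^ n = 1)
    (C : Subgroup G) : ¬ SplitsAsHNN C := by
  rintro ⟨K, A, B, φ, t, ht, -, hinj, -⟩
  obtain ⟨n, hn, htn⟩ := htor t
  have h1 : (HNNExtension.t : HNNExtension K A B φ) ^ n = 1 := by
    apply hinj
    rw [map_pow, HNNExtension.lift_t, htn, map_one]
  have h2 := congrArg (HNNExtension.lift (φ := φ) (1 : K →* Multiplicative ℤ)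
    (Multiplicative.ofAdd 1) (by intro a; simp)) h1
  rw [map_pow, HNNExtension.lift_t] at h2
  have h2' : (Multiplicative.ofAdd (1 : ℤ)) ^ n = 1 := h2.trans (map_one _)
  have h3 : (n : ℤ) = 0 := by
    rw [← ofAdd_nsmul] at h2'
    have := congrArg Multiplicative.toAdd h2'
    simpa using this
  omega

theorem not_amalgam {G : Type u} [Group G] (htor : ∀ g : G, ∃ n : ℕ, 0 < n ∧ g ^ n = 1)
    (C : Subgroup G) : ¬ SplitsAsAmalgam C := by
  rintro ⟨A, h, hinj, -⟩
  obtain ⟨a, ha, haC⟩ := SetLike.exists_of_lt (h true)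
  obtain ⟨b, hb, hbC⟩ := SetLike.exists_of_lt (h false)
  let x : Σ i, A i := ⟨true, ⟨a, ha⟩⟩
  let y : Σ i, A i := ⟨false, ⟨b, hb⟩⟩
  let L : ℕ → List (Σ i, A i) := fun n => Nat.rec [] (fun _ l => x :: y :: l) n
  have hL0 : L 0 = [] := rfl
  have hLs : ∀ n, L (n + 1) = x :: y :: L n := fun n => rfl
  have hmem : ∀ n, ∀ l ∈ L n, l = x ∨ l = y := by
    intro n
    induction n with
    | zero => intro l hl; rw [hL0] at hl; simp at hl
    | succ n ih =>
      intro l hl
      rw [hLs] at hl
      simp only [List.mem_cons] at hl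
      rcases hl with h | h | h
      · exact Or.inl h
      · exact Or.inr h
      · exact ih l h
  have hx1 : x.2 ≠ 1 := by
    intro h1
    apply haC
    have : a = 1 := congrArg Subtype.val h1
    rw [this]; exact C.one_mem
  have hy1 : y.2 ≠ 1 := by
    intro h1
    apply hbC
    have : b = 1 := congrArg Subtype.val h1
    rw [this]; exact C.one_mem
  have hchain : ∀ n, List.IsChain (fun l l' : Σ i, A i => l.1 ≠ l'.1) (L n) := by
    intro n
    induction n with
    | zero => rw [hL0]; exact List.IsChain.nil
    | succ n ih =>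
      rw [hLs, List.isChain_cons_cons]
      refine ⟨by simp [x, y], ?_⟩
      cases n with
      | zero => rw [hL0]; exact List.IsChain.singleton _
      | succ m =>
        rw [hLs] at ih ⊢
        rw [List.isChain_cons_cons]
        exact ⟨by simp [x, y], ih⟩
  let w : ℕ → CoprodI.Word (fun i => A i) := fun n =>
    { toList := L n
      ne_one := by
        intro l hl
        rcases hmem n l hl with h | h
        · rw [h]; exact hx1
        · rw [h]; exact hy1
      chain_ne := hchain n }
  have hprod : ∀ n, (PushoutI.ofCoprodI (w n).prod :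
      PushoutI (fun i => Subgroup.inclusion (h i).le)) =
      (PushoutI.of (φ := fun i => Subgroup.inclusion (h i).le) true ⟨a, ha⟩ *
        PushoutI.of (φ := fun i => Subgroup.inclusion (h i).le) false ⟨b, hb⟩) ^ n := by
    intro n
    induction n with
    | zero => simp [w, CoprodI.Word.prod, hL0]
    | succ n ih =>
      have e : (w (n + 1)).prod = CoprodI.of (M := fun i => A i) x.2 *
          (CoprodI.of (M := fun i => A i) y.2 * (w n).prod) := by
        simp [w, CoprodI.Word.prod, hLs]
      rw [e, map_mul, map_mul, ih, PushoutI.ofCoprodI_of, PushoutI.ofCoprodI_of, pow_succ',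
        mul_assoc]
  obtain ⟨n, hn, habn⟩ := htor (a * b)
  have h1 : (PushoutI.of (φ := fun i => Subgroup.inclusion (h i).le) true ⟨a, ha⟩ *
        PushoutI.of (φ := fun i => Subgroup.inclusion (h i).le) false ⟨b, hb⟩) ^ n = 1 := by
    apply hinj
    have ea : PushoutI.lift (φ := fun i => Subgroup.inclusion (h i).le) (fun i => (A i).subtype)
        C.subtype (fun _ => rfl) (PushoutI.of true ⟨a, ha⟩) = a := PushoutI.lift_of _ _ _ _
    have eb : PushoutI.lift (φ := fun i => Subgroup.inclusion (h i).le) (fun i => (A i).subtype)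
        C.subtype (fun _ => rfl) (PushoutI.of false ⟨b, hb⟩) = b := PushoutI.lift_of _ _ _ _
    rw [map_pow, map_mul, ea, eb, habn]
    exact (map_one _).symm
  have hred : PushoutI.Reduced (fun i => Subgroup.inclusion (h i).le) (w n) := by
    intro l hl hrange
    rcases hmem n l hl with h' | h'
    · rw [h'] at hrange
      obtain ⟨c, hc⟩ := hrange
      apply haC
      have : (c : G) = a := congrArg Subtype.val hc
      rw [← this]; exact c.2
    · rw [h'] at hrange
      obtain ⟨c, hc⟩ := hrange
      apply hbC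
      have : (c : G) = b := congrArg Subtype.val hc
      rw [← this]; exact c.2
  have hemp := hred.eq_empty_of_mem_range (fun i => Subgroup.inclusion_injective (h i).le)
    (by rw [hprod, h1]; exact Subgroup.one_mem _)
  have hl : L n = [] := congrArg CoprodI.Word.toList hemp
  obtain ⟨m, rfl⟩ : ∃ m, n = m + 1 := ⟨n - 1, by omega⟩
  rw [hLs] at hl
  simp at hl

theorem not_splitsOver {G : Type u} [Group G] (htor : ∀ g : G, ∃ n : ℕ, 0 < n ∧ g ^ n = 1)
    (C : Subgroup G) : ¬ SplitsOver C := by
  rintro (h | h)
  · exact not_amalgam htor C h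
  · exact not_hnn htor C h

end Pool.Agent.Helpers.H19Asd
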