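import Mathlib

/-!
Sperner type lemma for labellings of a triangular grid by sets of bounded diameter.
-/

namespace Pool.Agent.Helpers.H19AsdB

/-- `e u v = 1` if the colours of `u`, `v` are `1` and `2` in some order. -/
def ed (p q : Fin 3) : ZMod 2 := if (p = 1 ∧ q = 2) ∨ (p = 2 ∧ q = 1) then 1 else 0

theorem ed_tri (p q r : Fin 3) (h : ¬ (p ≠ q ∧ q ≠ r ∧ p ≠ r)) : ed p q + ed p r + ed q r = 0 := by
  revert p q r
  decide

theorem l1 : ∀ p q r : Fin 3, p ≠ 0 → q ≠ 0 → r ≠ 0 → ed p q + ed q r = ed p r := by decide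

theorem l2 : ∀ p : Fin 3, p ≠ 0 → p ≠ 1 → p = 2 := by decide

theorem l3 : ∀ p : Fin 3, p ≠ 0 → p ≠ 2 → p = 1 := by decide

/-- Sperner's lemma for the triangle `i + j ≤ L`. -/
theorem sperner (L : ℕ) (c : ℕ → ℕ → Fin 3) (hA : ∀ j ≤ L, c 0 j ≠ 0) (hB : ∀ i ≤ L, c i 0 ≠ 1)
    (hC : ∀ i j, i + j = L → c i j ≠ 2) (hL : 0 < L) :
    ∃ i j, i + j < L ∧ ((c i j ≠ c (i + 1) j ∧ c (i + 1) j ≠ c i (j + 1) ∧ c i j ≠ c i (j + 1)) ∨
      (i + j + 1 < L ∧ c (i + 1) (j + 1) ≠ c (i + 1) j ∧ c (i + 1) j ≠ c i (j + 1) ∧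
        c (i + 1) (j + 1) ≠ c i (j + 1))) := by
  by_contra hcon
  push Not at hcon
  have up : ∀ i j, i + j < L →
      ed (c i j) (c (i + 1) j) + ed (c i j) (c i (j + 1)) + ed (c (i + 1) j) (c i (j + 1)) = 0 := by
    intro i j hij
    apply ed_tri
    rintro ⟨h1, h2, h3⟩
    exact h3 ((hcon i j hij).1 h1 h2)
  have down : ∀ i j, i + j + 1 < L →
      ed (c (i + 1) (j + 1)) (c (i + 1) j) + ed (c (i + 1) (j + 1)) (c i (j + 1)) +
        ed (c (i + 1) j) (c i (j + 1)) = 0 := by
    intro i j hij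
    apply ed_tri
    rintro ⟨h1, h2, h3⟩
    exact h3 ((hcon i j (by omega)).2 hij h1 h2)
  have edsymm : ∀ p q, ed p q = ed q p := by decide
  have two : ∀ x : ZMod 2, x + x = 0 := by decide
  -- row sums
  let H : ℕ → ZMod 2 := fun j => ∑ i ∈ Finset.range (L - j), ed (c i j) (c (i + 1) j)
  have row : ∀ j, j < L → H j + H (j + 1) + ed (c 0 j) (c 0 (j + 1)) +
      ed (c (L - j) j) (c (L - j - 1) (j + 1)) = 0 := by
    intro j hj
    obtain ⟨m, hm⟩ : ∃ m, L - j = m + 1 := ⟨L - j - 1, by omega⟩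
    have hm' : L - (j + 1) = m := by omega
    have s1 : ∑ i ∈ Finset.range (m + 1), (ed (c i j) (c (i + 1) j) + ed (c i j) (c i (j + 1)) +
        ed (c (i + 1) j) (c i (j + 1))) = 0 := by
      apply Finset.sum_eq_zero
      intro i hi
      rw [Finset.mem_range] at hi
      exact up i j (by omega)
    have s2 : ∑ i ∈ Finset.range m, (ed (c (i + 1) (j + 1)) (c (i + 1) j) +
        ed (c (i + 1) (j + 1)) (c i (j + 1)) + ed (c (i + 1) j) (c i (j + 1))) = 0 := by
      apply Finset.sum_eq_zero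
      intro i hi
      rw [Finset.mem_range] at hi
      exact down i j (by omega)
    rw [Finset.sum_add_distrib, Finset.sum_add_distrib] at s1 s2
    have hH1 : H j = ∑ i ∈ Finset.range (m + 1), ed (c i j) (c (i + 1) j) := by
      simp only [H, hm]
    have hH2 : H (j + 1) = ∑ i ∈ Finset.range m, ed (c (i + 1) (j + 1)) (c i (j + 1)) := by
      simp only [H, hm']
      exact Finset.sum_congr rfl (fun i _ => edsymm _ _)
    have hV : ∑ i ∈ Finset.range (m + 1), ed (c i j) (c i (j + 1)) =
        ∑ i ∈ Finset.range m, ed (c (i + 1) (j + 1)) (c (i + 1) j) +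
          ed (c 0 j) (c 0 (j + 1)) := by
      rw [Finset.sum_range_succ']
      congr 1
      exact Finset.sum_congr rfl (fun i _ => edsymm _ _)
    have hD : ∑ i ∈ Finset.range (m + 1), ed (c (i + 1) j) (c i (j + 1)) =
        ∑ i ∈ Finset.range m, ed (c (i + 1) j) (c i (j + 1)) +
          ed (c (m + 1) j) (c m (j + 1)) := by
      rw [Finset.sum_range_succ]
    rw [← hH1, hV, hD] at s1
    rw [← hH2] at s2
    have hm1 : L - j - 1 = m := by omega
    rw [hm1, hm]
    linear_combination s1 + s2 - two (∑ i ∈ Finset.range m, ed (c (i + 1) (j + 1)) (c (i + 1) j)) -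
      two (∑ i ∈ Finset.range m, ed (c (i + 1) j) (c i (j + 1)))
  -- boundary edges
  have hB0 : H 0 = 0 := by
    apply Finset.sum_eq_zero
    intro i hi
    rw [Finset.mem_range] at hi
    have h1 := hB i (by omega)
    have h2 := hB (i + 1) (by omega)
    generalize c i 0 = p at *
    generalize c (i + 1) 0 = q at *
    revert p q
    decide
  have hHL : H L = 0 := by simp [H]
  have hC0 : ∀ j, j < L → ed (c (L - j) j) (c (L - j - 1) (j + 1)) = 0 := by
    intro j hj
    have h1 := hC (L - j) j (by omega)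
    have h2 := hC (L - j - 1) (j + 1) (by omega)
    generalize c (L - j) j = p at *
    generalize c (L - j - 1) (j + 1) = q at *
    revert p q
    decide
  have tot : ∀ n, n ≤ L → H 0 + H n + ∑ j ∈ Finset.range n, ed (c 0 j) (c 0 (j + 1)) = 0 := by
    intro n
    induction n with
    | zero => intro _; simp [two]
    | succ n ih =>
      intro hn
      have h1 := ih (by omega)
      have h2 := row n (by omega)
      rw [hC0 n (by omega)] at h2
      rw [Finset.sum_range_succ]
      linear_combination h1 + h2 - two (H n)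
  have hfin := tot L le_rfl
  rw [hB0, hHL] at hfin
  -- the changes along the side `i = 0`
  have side : ∀ n, n ≤ L → ∑ j ∈ Finset.range n, ed (c 0 j) (c 0 (j + 1)) = ed (c 0 0) (c 0 n) := by
    intro n
    induction n with
    | zero =>
      intro _
      simp only [Finset.range_zero, Finset.sum_empty]
      generalize c 0 0 = p
      revert p
      decide
    | succ n ih =>
      intro hn
      rw [Finset.sum_range_succ, ih (by omega)]
      have h0 := hA 0 (by omega)
      have h1 := hA n (by omega)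
      have h2 := hA (n + 1) hn
      exact l1 _ _ _ h0 h1 h2
  rw [side L le_rfl] at hfin
  have h00 : c 0 0 = 2 := by
    have h1 := hA 0 (by omega)
    have h2 := hB 0 (by omega)
    exact l2 _ h1 h2
  have h0L : c 0 L = 1 := by
    have h1 := hA L le_rfl
    have h2 := hC 0 L (by omega)
    exact l3 _ h1 h2
  rw [h00, h0L] at hfin
  revert hfin
  decide

/-- A labelling of the triangle `i + j ≤ L` whose classes are small has a unit triangle with three
different labels. -/
theorem three_labels {ι : Type*} (D : ℕ) (lab : ℕ → ℕ → ι)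
    (h : ∀ i j i' j', i + j ≤ 3 * D + 1 → i' + j' ≤ 3 * D + 1 → lab i j = lab i' j' →
      i ≤ i' + D ∧ j ≤ j' + D) :
    ∃ i j, i + j < 3 * D + 1 ∧
      ((lab i j ≠ lab (i + 1) j ∧ lab (i + 1) j ≠ lab i (j + 1) ∧ lab i j ≠ lab i (j + 1)) ∨
      (i + j + 1 < 3 * D + 1 ∧ lab (i + 1) (j + 1) ≠ lab (i + 1) j ∧
        lab (i + 1) j ≠ lab i (j + 1) ∧ lab (i + 1) (j + 1) ≠ lab i (j + 1))) := by
  classical
  let L := 3 * D + 1
  let col : ι → Fin 3 := fun x => if ∀ j ≤ L, lab 0 j ≠ x then 0 else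
    if ∀ i ≤ L, lab i 0 ≠ x then 1 else 2
  have col0 : ∀ x, col x = 0 → ∀ j ≤ L, lab 0 j ≠ x := by
    intro x hx
    by_contra hcon
    have : col x = if ∀ i ≤ L, lab i 0 ≠ x then 1 else 2 := if_neg hcon
    rw [this] at hx
    split_ifs at hx
    · exact absurd hx (by decide)
    · exact absurd hx (by decide)
  have col1 : ∀ x, col x = 1 → ∀ i ≤ L, lab i 0 ≠ x := by
    intro x hx
    by_contra hcon
    have h1 : col x = if ∀ j ≤ L, lab 0 j ≠ x then 0 else 2 := by
      simp only [col, if_neg hcon]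
    rw [h1] at hx
    split_ifs at hx
    · exact absurd hx (by decide)
    · exact absurd hx (by decide)
  have col2 : ∀ x, col x = 2 → (∃ j ≤ L, lab 0 j = x) ∧ ∃ i ≤ L, lab i 0 = x := by
    intro x hx
    by_cases h1 : ∀ j ≤ L, lab 0 j ≠ x
    · have : col x = 0 := if_pos h1
      rw [this] at hx
      exact absurd hx (by decide)
    · by_cases h2 : ∀ i ≤ L, lab i 0 ≠ x
      · have : col x = 1 := by
          simp only [col, if_neg h1, if_pos h2]
        rw [this] at hx
        exact absurd hx (by decide)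
      · push Not at h1 h2
        exact ⟨h1, h2⟩
  obtain ⟨i, j, hij, hor⟩ := sperner L (fun i j => col (lab i j))
    (fun j hj h0 => col0 _ h0 j hj rfl) (fun i hi h1 => col1 _ h1 i hi rfl)
    (by
      intro i j hij h2
      obtain ⟨⟨y, hy, h3⟩, ⟨x, hx, h4⟩⟩ := col2 _ h2
      have e1 := h x 0 0 y (by omega) (by omega) (h4.trans h3.symm)
      have e2 := h 0 y x 0 (by omega) (by omega) (h3.trans h4.symm)
      have e3 := h i j 0 y (by omega) (by omega) h3.symm
      omega) (by omega)
  refine ⟨i, j, hij, ?_⟩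
  rcases hor with ⟨h1, h2, h3⟩ | ⟨h0, h1, h2, h3⟩
  · exact Or.inl ⟨fun e => h1 (congrArg col e), fun e => h2 (congrArg col e),
      fun e => h3 (congrArg col e)⟩
  · exact Or.inr ⟨h0, fun e => h1 (congrArg col e), fun e => h2 (congrArg col e),
      fun e => h3 (congrArg col e)⟩

end Pool.Agent.Helpers.H19AsdB
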