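import Pool.Agent.Helpers.H19AsdDefs
import Pool.Agent.Helpers.H19AsdB

/-!
Metric facts about Cayley graphs; asymptotic dimension of locally finite subgroups and of groups
containing large grids.
-/

namespace Pool.Agent.Helpers.H19Asd

universe u v

section Graph

variable {V : Type u} {W : Type v} {Γ : SimpleGraph V} {Δ : SimpleGraph W}

theorem lipschitz (hΓ : Γ.Connected) (hΔ : Δ.Connected) (f : V → W)
    (hf : ∀ u v, Γ.Adj u v → f u = f v ∨ Δ.Adj (f u) (f v)) (u v : V) :
    Δ.dist (f u) (f v) ≤ Γ.dist u v := by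
  have key : ∀ (u v : V) (p : Γ.Walk u v), Δ.dist (f u) (f v) ≤ p.length := by
    intro u v p
    induction p with
    | nil => simp
    | @cons u w v h p ih =>
      rw [SimpleGraph.Walk.length_cons]
      have h1 : Δ.dist (f u) (f w) ≤ 1 := by
        rcases hf u w h with h | h
        · rw [h]; simp
        · exact (SimpleGraph.dist_eq_one_iff_adj.2 h).le
      have h2 := hΔ.dist_triangle (u := f u) (v := f w) (w := f v)
      omega
  obtain ⟨p, hp⟩ := hΓ.exists_walk_length_eq_dist u v
  rw [← hp]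
  exact key u v p

end Graph

section Cayley

variable {G : Type u} [Group G] {S : Set G}

theorem adj_or_eq {g s : G} (hs : s ∈ S) : g = g * s ∨ (cayley S).Adj g (g * s) := by
  by_cases h : g = g * s
  · exact Or.inl h
  · exact Or.inr ⟨h, Or.inl (by simpa using hs)⟩

theorem cayley_connected (hS : Subgroup.closure S = ⊤) : (cayley S).Connected := by
  have key : ∀ g : G, ∀ h : G, (cayley S).Reachable h (h * g) := by
    intro g
    have hg : g ∈ Subgroup.closure S := by rw [hS]; exact Subgroup.mem_top g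
    induction hg using Subgroup.closure_induction with
    | mem x hx =>
      intro h
      rcases adj_or_eq (g := h) hx with h1 | h1
      · rw [← h1]
      · exact h1.reachable
    | one => intro h; rw [mul_one]
    | mul x y _ _ ihx ihy =>
      intro h
      have := (ihx h).trans (ihy (h * x))
      rwa [mul_assoc] at this
    | inv x _ ih =>
      intro h
      have := (ih (h * x⁻¹)).symm
      rwa [inv_mul_cancel_right] at this
  haveI : Nonempty G := ⟨1⟩
  refine ⟨fun g h => ?_⟩
  have := key (g⁻¹ * h) g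
  rwa [mul_inv_cancel_left] at this

theorem dist_mul_left (hS : Subgroup.closure S = ⊤) (k g h : G) :
    (cayley S).dist (k * g) (k * h) = (cayley S).dist g h := by
  have hc := cayley_connected hS
  have key : ∀ k g h : G, (cayley S).dist (k * g) (k * h) ≤ (cayley S).dist g h := by
    intro k g h
    apply lipschitz hc hc (fun x => k * x)
    intro u v huv
    refine Or.inr ⟨fun e => huv.1 (mul_left_cancel e), ?_⟩
    rcases huv.2 with h1 | h1
    · left; simpa [mul_assoc] using h1
    · right; simpa [mul_assoc] using h1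
  apply le_antisymm (key k g h)
  have := key k⁻¹ (k * g) (k * h)
  simpa using this

theorem dist_one (hS : Subgroup.closure S = ⊤) (g h : G) :
    (cayley S).dist g h = (cayley S).dist 1 (g⁻¹ * h) := by
  rw [← dist_mul_left hS g 1 (g⁻¹ * h)]
  simp

theorem ball_finite (hfin : S.Finite) (hS : Subgroup.closure S = ⊤) (n : ℕ) :
    {g : G | (cayley S).dist 1 g ≤ n}.Finite := by
  have hc := cayley_connected hS
  induction n with
  | zero =>
    apply (Set.finite_singleton (1 : G)).subset
    intro g hg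
    simp only [Set.mem_setOf_eq, nonpos_iff_eq_zero] at hg
    have := (hc.dist_eq_zero_iff).1 hg
    exact this.symm
  | succ n ih =>
    apply ((Set.finite_singleton (1 : G)).union
      (Set.Finite.mul (hfin.union hfin.inv) ih)).subset
    intro g hg
    obtain ⟨p, hp⟩ := hc.exists_walk_length_eq_dist 1 g
    have hg' : p.length ≤ n + 1 := by rw [hp]; exact hg
    cases p with
    | nil => exact Or.inl rfl
    | @cons _ w _ h p =>
      right
      refine Set.mem_mul.2 ⟨w, ?_, w⁻¹ * g, ?_, by simp⟩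
      · rcases h.2 with h1 | h1
        · left; simpa using h1
        · right; simpa using h1
      · change (cayley S).dist 1 (w⁻¹ * g) ≤ n
        rw [← dist_one hS]
        have h1 := SimpleGraph.dist_le p
        rw [SimpleGraph.Walk.length_cons] at hg'
        omega

theorem exists_far (hfin : S.Finite) (hS : Subgroup.closure S = ⊤) [Infinite G] (n : ℕ) :
    ∃ g : G, n < (cayley S).dist 1 g := by
  by_contra hcon
  push Not at hcon
  have : (Set.univ : Set G) ⊆ {g : G | (cayley S).dist 1 g ≤ n} := fun g _ => hcon g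
  exact Set.infinite_univ ((ball_finite hfin hS n).subset this)

theorem hom_lipschitz {H : Type v} [Group H] {T : Set H} (hS : Subgroup.closure S = ⊤)
    (hT : Subgroup.closure T = ⊤) (φ : G →* H) (hφ : ∀ s ∈ S, φ s = 1 ∨ φ s ∈ T) (g h : G) :
    (cayley T).dist (φ g) (φ h) ≤ (cayley S).dist g h := by
  apply lipschitz (cayley_connected hS) (cayley_connected hT)
  intro u v huv
  by_cases he : φ u = φ v
  · exact Or.inl he
  · right
    refine ⟨he, ?_⟩
    rcases huv.2 with h1 | h1
    · rcases hφ _ h1 with h2 | h2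
      · exfalso
        apply he
        rw [map_mul, map_inv, inv_mul_eq_one] at h2
        exact h2
      · left; rwa [map_mul, map_inv] at h2
    · rcases hφ _ h1 with h2 | h2
      · exfalso
        apply he
        rw [map_mul, map_inv, inv_mul_eq_one] at h2
        exact h2.symm
      · right; rwa [map_mul, map_inv] at h2

theorem asdim_zero (hfin : S.Finite) (hS : Subgroup.closure S = ⊤) (L : Subgroup G)
    (hL : ∀ F : Set G, F.Finite → F ⊆ L → (Subgroup.closure F : Set G).Finite) :
    AsdimLE (cayley S) (L : Set G) 0 := by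
  intro R
  obtain ⟨F, hF⟩ : ∃ F : Set G, F = {g : G | g ∈ L ∧ (cayley S).dist 1 g ≤ R} := ⟨_, rfl⟩
  have hFfin : F.Finite := by
    rw [hF]
    exact (ball_finite hfin hS R).subset (fun g hg => hg.2)
  have hFL : F ⊆ L := by rw [hF]; exact fun g hg => hg.1
  obtain ⟨K, hK⟩ : ∃ K : Subgroup G, K = Subgroup.closure F := ⟨_, rfl⟩
  have hKfin : (K : Set G).Finite := hK ▸ hL F hFfin hFL
  have hKL : K ≤ L := by rw [hK, Subgroup.closure_le]; exact hFL
  obtain ⟨D, hD⟩ : ∃ D : ℕ, ∀ k ∈ K, (cayley S).dist 1 k ≤ D := by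
    obtain ⟨D, hD⟩ := (hKfin.image (fun k => (cayley S).dist 1 k)).bddAbove
    exact ⟨D, fun k hk => hD ⟨k, hk, rfl⟩⟩
  refine ⟨D, {U | ∃ x ∈ L, U = {y | x⁻¹ * y ∈ K}}, ?_, ?_, ?_, ?_⟩
  · rintro U ⟨x, hx, rfl⟩ y hy
    have := L.mul_mem hx (hKL hy)
    simpa using this
  · intro x hx
    refine Set.mem_sUnion.2 ⟨{y | x⁻¹ * y ∈ K}, ⟨x, hx, rfl⟩, ?_⟩
    change x⁻¹ * x ∈ K
    simp
  · rintro U ⟨x, hx, rfl⟩ y hy z hz
    rw [dist_one hS]
    apply hD
    have := K.mul_mem (K.inv_mem hy) hz
    have e : (x⁻¹ * y)⁻¹ * (x⁻¹ * z) = y⁻¹ * z := by group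
    rwa [e] at this
  · intro x hx
    have hsub : {U ∈ {U : Set G | ∃ x ∈ L, U = {y | x⁻¹ * y ∈ K}} |
        ∃ y ∈ U, (cayley S).dist x y ≤ R} ⊆ {{y | x⁻¹ * y ∈ K}} := by
      rintro U ⟨⟨z, hz, rfl⟩, y, hy, hxy⟩
      rw [Set.mem_singleton_iff]
      have hyL : y ∈ L := by
        have := L.mul_mem hz (hKL hy)
        simpa using this
      have h1 : x⁻¹ * y ∈ K := by
        rw [hK]
        apply Subgroup.subset_closure
        rw [hF]
        refine ⟨L.mul_mem (L.inv_mem hx) hyL, ?_⟩
        rw [← dist_one hS]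
        exact hxy
      have h2 : x⁻¹ * z ∈ K := by
        have := K.mul_mem h1 (K.inv_mem hy)
        have e : x⁻¹ * y * (z⁻¹ * y)⁻¹ = x⁻¹ * z := by group
        rwa [e] at this
      ext w
      constructor
      · intro hw
        have := K.mul_mem h2 hw
        have e : x⁻¹ * z * (z⁻¹ * w) = x⁻¹ * w := by group
        rwa [e] at this
      · intro hw
        have := K.mul_mem (K.inv_mem h2) hw
        have e : (x⁻¹ * z)⁻¹ * (x⁻¹ * w) = z⁻¹ * w := by group
        rwa [e] at this
    refine (Set.encard_le_encard hsub).trans ?_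
    rw [Set.encard_singleton]
    simp

/-- A path realising distances: for every `L` there is a map `q` with `q i`, `q (i+1)` at distance
at most `1` and `i ≤ i' + dist (q i) (q i')` for `i, i' ≤ L`. -/
theorem exists_geodesic (hfin : S.Finite) (hS : Subgroup.closure S = ⊤) [Infinite G] (L : ℕ) :
    ∃ q : ℕ → G, (∀ i, q i = q (i + 1) ∨ (cayley S).Adj (q i) (q (i + 1))) ∧
      ∀ i i', i ≤ L → i' ≤ L → i ≤ i' + (cayley S).dist (q i) (q i') := by
  have hc := cayley_connected hS
  obtain ⟨g, hg⟩ := exists_far hfin hS L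
  obtain ⟨p, hp⟩ := hc.exists_walk_length_eq_dist 1 g
  refine ⟨fun i => p.getVert i, ?_, ?_⟩
  · intro i
    by_cases hi : i < p.length
    · exact Or.inr (p.adj_getVert_succ hi)
    · left
      change p.getVert i = p.getVert (i + 1)
      rw [p.getVert_of_length_le (by omega), p.getVert_of_length_le (by omega)]
  · intro i i' hi hi'
    change i ≤ i' + (cayley S).dist (p.getVert i) (p.getVert i')
    have h1 : (cayley S).dist 1 (p.getVert i') ≤ i' := by
      refine (SimpleGraph.dist_le (p.take i')).trans ?_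
      rw [SimpleGraph.Walk.take_length]
      exact min_le_left _ _
    have h2 : (cayley S).dist (p.getVert i) g ≤ p.length - i := by
      refine (SimpleGraph.dist_le (p.drop i)).trans ?_
      rw [SimpleGraph.Walk.drop_length]
    have h3 := hc.dist_triangle (u := 1) (v := p.getVert i') (w := g)
    have h4 := hc.dist_triangle (u := p.getVert i') (v := p.getVert i) (w := g)
    have h5 : (cayley S).dist (p.getVert i') (p.getVert i) =
      (cayley S).dist (p.getVert i) (p.getVert i') := SimpleGraph.dist_comm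
    omega

end Cayley

theorem not_asdim_one {V : Type u} {Γ : SimpleGraph V}
    (h : ∀ L : ℕ, ∃ P : ℕ → ℕ → V, (∀ i j, i + j < L → Γ.dist (P i j) (P (i + 1) j) ≤ 1) ∧
      (∀ i j, i + j < L → Γ.dist (P i j) (P i (j + 1)) ≤ 1) ∧
      (∀ i j i' j', i + j ≤ L → i' + j' ≤ L → i ≤ i' + Γ.dist (P i j) (P i' j') ∧
        j ≤ j' + Γ.dist (P i j) (P i' j'))) : ¬ AsdimLE Γ Set.univ 1 := by
  intro has
  obtain ⟨D, 𝒰, -, hcov, hdiam, hmult⟩ := has 1
  obtain ⟨P, hP1, hP2, hP3⟩ := h (3 * D + 1)
  have hlab : ∀ x : V, ∃ U ∈ 𝒰, x ∈ U := fun x => Set.mem_sUnion.1 (hcov (Set.mem_univ x))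
  choose lab hlab1 hlab2 using hlab
  obtain ⟨i, j, hij, hor⟩ := H19AsdB.three_labels D (fun i j => lab (P i j)) (by
    intro i j i' j' hij hij' he
    have h1 := hdiam (lab (P i j)) (hlab1 _) (P i j) (hlab2 _) (P i' j')
      (by
        have he' : lab (P i j) = lab (P i' j') := he
        rw [he']; exact hlab2 _)
    have h2 := hP3 i j i' j' hij hij'
    omega)
  have three : ∀ x y z w : V, lab x ≠ lab y → lab y ≠ lab z → lab x ≠ lab z →
      Γ.dist w x ≤ 1 → Γ.dist w y ≤ 1 → Γ.dist w z ≤ 1 → False := by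
    intro x y z w hxy hyz hxz hx hy hz
    have hm := hmult w (Set.mem_univ w)
    have hsub : ({lab x, lab y, lab z} : Set (Set V)) ⊆ {U ∈ 𝒰 | ∃ y ∈ U, Γ.dist w y ≤ 1} := by
      rintro U (h | h | h)
      · rw [h]; exact ⟨hlab1 x, x, hlab2 x, hx⟩
      · rw [h]; exact ⟨hlab1 y, y, hlab2 y, hy⟩
      · rw [Set.mem_singleton_iff.1 h]; exact ⟨hlab1 z, z, hlab2 z, hz⟩
    have h3 : ({lab x, lab y, lab z} : Set (Set V)).encard = 3 := by
      rw [Set.encard_eq_three]
      exact ⟨_, _, _, hxy, hxz, hyz, rfl⟩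
    have h4 := (Set.encard_le_encard hsub).trans hm
    rw [h3] at h4
    norm_cast at h4
  rcases hor with ⟨h1, h2, h3⟩ | ⟨h0, h1, h2, h3⟩
  · exact three _ _ _ (P i j) h1 h2 h3 (by simp) (hP1 i j hij) (hP2 i j hij)
  · refine three _ _ _ (P (i + 1) (j + 1)) h1 h2 h3 (by simp) ?_ ?_
    · rw [SimpleGraph.dist_comm]
      exact hP2 (i + 1) j (by omega)
    · rw [SimpleGraph.dist_comm]
      exact hP1 i (j + 1) (by omega)

end Pool.Agent.Helpers.H19Asd
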