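import Pool.Agent.Helpers.H19AsdC

/-!
The lamplighter group over `H × H`: torsion, the lamp subgroup has asymptotic dimension zero and
coarsely separates the Cayley graph, the whole group has asymptotic dimension at least two.
-/

namespace Pool.Agent.Helpers.H19Asd

universe u

/-- The lamplighter group `Z/2 ≀ K`: pairs of a finitely supported map `l : K → Z/2` and `p ∈ K`. -/
@[ext] structure Lamp (K : Type u) where
  /-- the lamps -/
  l : K →₀ ZMod 2
  /-- the position -/
  p : K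

namespace Lamp

variable {K : Type u} [Group K]

noncomputable instance : Mul (Lamp K) := ⟨fun a b => ⟨a.l + b.l.mapDomain (fun k => a.p * k), a.p * b.p⟩⟩
noncomputable instance : One (Lamp K) := ⟨⟨0, 1⟩⟩
noncomputable instance : Inv (Lamp K) := ⟨fun a => ⟨-(a.l.mapDomain (fun k => a.p⁻¹ * k)), a.p⁻¹⟩⟩

theorem mul_l (a b : Lamp K) : (a * b).l = a.l + b.l.mapDomain (fun k => a.p * k) := rfl
theorem mul_p (a b : Lamp K) : (a * b).p = a.p * b.p := rfl
theorem one_l : (1 : Lamp K).l = 0 := rfl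
theorem one_p : (1 : Lamp K).p = 1 := rfl
theorem inv_l (a : Lamp K) : (a⁻¹).l = -(a.l.mapDomain (fun k => a.p⁻¹ * k)) := rfl
theorem inv_p (a : Lamp K) : (a⁻¹).p = a.p⁻¹ := rfl

noncomputable instance : Group (Lamp K) := Group.ofLeftAxioms
  (by
    intro a b c
    ext1
    · simp only [mul_l, mul_p, Finsupp.mapDomain_add, add_assoc]
      rw [← Finsupp.mapDomain_comp]
      congr 3
      funext k
      simp [mul_assoc]
    · simp only [mul_p, mul_assoc])
  (by
    intro a
    ext1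
    · simp only [mul_l, one_l, one_p, one_mul, zero_add]
      exact Finsupp.mapDomain_id
    · simp only [mul_p, one_p, one_mul])
  (by
    intro a
    ext1
    · simp only [mul_l, inv_l, inv_p, one_l]
      exact neg_add_cancel _
    · simp only [mul_p, inv_p, one_p, inv_mul_cancel])

/-- The position homomorphism. -/
noncomputable def pHom : Lamp K →* K where
  toFun a := a.p
  map_one' := rfl
  map_mul' _ _ := rfl

/-- The embedding of positions. -/
noncomputable def pos : K →* Lamp K where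
  toFun k := ⟨0, k⟩
  map_one' := rfl
  map_mul' a b := by
    ext1
    · simp [mul_l]
    · rfl

/-- The toggle of the lamp at the identity. -/
noncomputable def tog : Lamp K := ⟨Finsupp.single 1 1, 1⟩

theorem pHom_apply (a : Lamp K) : pHom a = a.p := rfl
theorem pos_l (k : K) : (pos k).l = 0 := rfl
theorem pos_p (k : K) : (pos k).p = k := rfl

theorem mk_eq (l : K →₀ ZMod 2) (k : K) : (⟨l, k⟩ : Lamp K) = ⟨l, 1⟩ * pos k := by
  ext1
  · simp [mul_l, pos_l]
  · simp [mul_p, pos_p]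

theorem mk_inv_mul (l : K →₀ ZMod 2) (k k' : K) :
    (⟨l, k⟩ : Lamp K)⁻¹ * ⟨l, k'⟩ = pos (k⁻¹ * k') := by
  rw [mk_eq l k, mk_eq l k', map_mul, map_inv]
  group

theorem torsion (hK : ∀ k : K, ∃ n : ℕ, 0 < n ∧ k ^ n = 1) (g : Lamp K) :
    ∃ n : ℕ, 0 < n ∧ g ^ n = 1 := by
  obtain ⟨n, hn, h⟩ := hK g.p
  refine ⟨n * 2, by omega, ?_⟩
  have hp : (g ^ n).p = 1 := by
    have : pHom (g ^ n) = 1 := by rw [map_pow, pHom_apply, h]
    exact this
  rw [pow_mul, pow_two]
  ext1
  · rw [mul_l, hp]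
    simp only [one_mul]
    have h1 : Finsupp.mapDomain (fun k : K => k) (g ^ n).l = (g ^ n).l := Finsupp.mapDomain_id
    rw [h1, one_l]
    ext k
    exact CharTwo.add_self_eq_zero _
  · rw [mul_p, hp, one_p, one_mul]

/-- Finitely many elements of the lamp subgroup generate a finite subgroup. -/
theorem ker_locally_finite (F : Set (Lamp K)) (hF : F.Finite)
    (hFL : F ⊆ ((pHom : Lamp K →* K).ker : Set (Lamp K))) :
    (Subgroup.closure F : Set (Lamp K)).Finite := by
  classical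
  obtain ⟨s, hs⟩ : ∃ s : Finset K, ∀ g ∈ F, g.l.support ⊆ s := by
    refine ⟨hF.toFinset.biUnion (fun g => g.l.support), fun g hg => ?_⟩
    exact Finset.subset_biUnion_of_mem (fun g : Lamp K => g.l.support) (hF.mem_toFinset.2 hg)
  have hid : ∀ l : K →₀ ZMod 2, Finsupp.mapDomain (fun k : K => 1 * k) l = l := by
    intro l
    have : (fun k : K => 1 * k) = id := by funext k; simp
    rw [this]
    exact Finsupp.mapDomain_id
  have key : ∀ g ∈ Subgroup.closure F, g.p = 1 ∧ g.l.support ⊆ s := by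
    intro g hg
    induction hg using Subgroup.closure_induction with
    | mem x hx => exact ⟨hFL hx, hs x hx⟩
    | one => exact ⟨rfl, by simp [one_l]⟩
    | mul x y _ _ ihx ihy =>
      refine ⟨by rw [mul_p, ihx.1, ihy.1, one_mul], ?_⟩
      rw [mul_l, ihx.1, hid]
      exact Finsupp.support_add.trans (Finset.union_subset ihx.2 ihy.2)
    | inv x _ ih =>
      refine ⟨by rw [inv_p, ih.1, inv_one], ?_⟩
      rw [inv_l, ih.1, inv_one, hid, Finsupp.support_neg]
      exact ih.2
  refine Set.Finite.of_injOn (f := fun g : Lamp K => (fun x : s => g.l x))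
    (t := Set.univ) (fun _ _ => Set.mem_univ _) ?_ Set.finite_univ
  intro a ha b hb hab
  obtain ⟨ha1, ha2⟩ := key a ha
  obtain ⟨hb1, hb2⟩ := key b hb
  ext1
  · ext k
    by_cases hk : k ∈ s
    · exact congrFun hab ⟨k, hk⟩
    · rw [Finsupp.notMem_support_iff.1 (fun h => hk (ha2 h)),
        Finsupp.notMem_support_iff.1 (fun h => hk (hb2 h))]
  · rw [ha1, hb1]

end Lamp

section Main

open Lamp

variable {H : Type u} [Group H] {S : Set H}

/-- Generators of the lamplighter group over `H × H`. -/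
def gens (S : Set H) : Set (Lamp (H × H)) :=
  {tog} ∪ ((fun s => pos (s, 1)) '' S ∪ (fun s => pos (1, s)) '' S)

theorem gens_finite (hS : S.Finite) : (gens S).Finite :=
  (Set.finite_singleton _).union ((hS.image _).union (hS.image _))

theorem gens_closure (hS : Subgroup.closure S = ⊤) : Subgroup.closure (gens S) = ⊤ := by
  obtain ⟨L, hL⟩ : ∃ L, L = Subgroup.closure (gens S) := ⟨_, rfl⟩
  rw [← hL]
  have hsub : gens S ⊆ L := hL ▸ Subgroup.subset_closure
  have hfst : ∀ h : H, pos (h, 1) ∈ L := by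
    intro h
    have hh : h ∈ Subgroup.closure S := by rw [hS]; exact Subgroup.mem_top h
    induction hh using Subgroup.closure_induction with
    | mem x hx => exact hsub (Or.inr (Or.inl ⟨x, hx, rfl⟩))
    | one =>
      have : pos ((1, 1) : H × H) = 1 := map_one pos
      rw [this]; exact L.one_mem
    | mul x y _ _ ihx ihy =>
      have : pos ((x * y, 1) : H × H) = pos (x, 1) * pos (y, 1) := by
        rw [← map_mul]; simp
      rw [this]; exact L.mul_mem ihx ihy
    | inv x _ ih =>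
      have : pos ((x⁻¹, 1) : H × H) = (pos (x, 1))⁻¹ := by
        rw [← map_inv]; simp
      rw [this]; exact L.inv_mem ih
  have hsnd : ∀ h : H, pos (1, h) ∈ L := by
    intro h
    have hh : h ∈ Subgroup.closure S := by rw [hS]; exact Subgroup.mem_top h
    induction hh using Subgroup.closure_induction with
    | mem x hx => exact hsub (Or.inr (Or.inr ⟨x, hx, rfl⟩))
    | one =>
      have : pos ((1, 1) : H × H) = 1 := map_one pos
      rw [this]; exact L.one_mem
    | mul x y _ _ ihx ihy =>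
      have : pos ((1, x * y) : H × H) = pos (1, x) * pos (1, y) := by
        rw [← map_mul]; simp
      rw [this]; exact L.mul_mem ihx ihy
    | inv x _ ih =>
      have : pos ((1, x⁻¹) : H × H) = (pos (1, x))⁻¹ := by
        rw [← map_inv]; simp
      rw [this]; exact L.inv_mem ih
  have hpos : ∀ k : H × H, pos k ∈ L := by
    rintro ⟨a, b⟩
    have : pos ((a, b) : H × H) = pos (a, 1) * pos (1, b) := by
      rw [← map_mul]; simp
    rw [this]
    exact L.mul_mem (hfst a) (hsnd b)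
  have htog : tog ∈ L := hsub (Or.inl rfl)
  have hlamp : ∀ l : (H × H) →₀ ZMod 2, (⟨l, 1⟩ : Lamp (H × H)) ∈ L := by
    intro l
    induction l using Finsupp.induction_linear with
    | zero => exact L.one_mem
    | add f g hf hg =>
      have : (⟨f + g, 1⟩ : Lamp (H × H)) = ⟨f, 1⟩ * ⟨g, 1⟩ := by
        ext1
        · rw [mul_l]
          simp only [one_mul]
          congr 1
          exact Finsupp.mapDomain_id.symm
        · rw [mul_p]; simp
      rw [this]
      exact L.mul_mem hf hg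
    | single k c =>
      have hc : c = 0 ∨ c = 1 := by
        revert c; decide
      rcases hc with hc | hc
      · rw [hc, Finsupp.single_zero]; exact L.one_mem
      · have : (⟨Finsupp.single k 1, 1⟩ : Lamp (H × H)) = pos k * tog * pos k⁻¹ := by
          ext1
          · rw [mul_l, mul_l, pos_l, pos_l, pos_p, Finsupp.mapDomain_zero]
            simp [tog, Finsupp.mapDomain_single]
          · rw [mul_p, mul_p, pos_p, pos_p]
            simp [tog]
        rw [hc, this]
        exact L.mul_mem (L.mul_mem (hpos k) htog) (hpos k⁻¹)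
  rw [eq_top_iff]
  rintro ⟨l, k⟩ -
  rw [mk_eq]
  exact L.mul_mem (hlamp l) (hpos k)

/-- First coordinate of the position. -/
noncomputable def pr1 : Lamp (H × H) →* H := (MonoidHom.fst H H).comp pHom

/-- Second coordinate of the position. -/
noncomputable def pr2 : Lamp (H × H) →* H := (MonoidHom.snd H H).comp pHom

theorem pr1_dist (hS : Subgroup.closure S = ⊤) (g h : Lamp (H × H)) :
    (cayley S).dist g.p.1 h.p.1 ≤ (cayley (gens S)).dist g h := by
  apply hom_lipschitz (gens_closure hS) hS pr1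
  rintro s (hs | ⟨t, ht, rfl⟩ | ⟨t, ht, rfl⟩)
  · left
    rw [Set.mem_singleton_iff.1 hs]
    rfl
  · exact Or.inr ht
  · exact Or.inl rfl

theorem pr2_dist (hS : Subgroup.closure S = ⊤) (g h : Lamp (H × H)) :
    (cayley S).dist g.p.2 h.p.2 ≤ (cayley (gens S)).dist g h := by
  apply hom_lipschitz (gens_closure hS) hS pr2
  rintro s (hs | ⟨t, ht, rfl⟩ | ⟨t, ht, rfl⟩)
  · left
    rw [Set.mem_singleton_iff.1 hs]
    rfl
  · exact Or.inl rfl
  · exact Or.inr ht

theorem adj_fst (l : (H × H) →₀ ZMod 2) {a a' : H} (b : H) (h : (cayley S).Adj a a') :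
    (cayley (gens S)).Adj ⟨l, (a, b)⟩ ⟨l, (a', b)⟩ := by
  refine ⟨fun e => h.1 (congrArg (fun g : Lamp (H × H) => g.p.1) e), ?_⟩
  rw [mk_inv_mul, mk_inv_mul]
  have e1 : ((a, b) : H × H)⁻¹ * (a', b) = (a⁻¹ * a', 1) := by simp
  have e2 : ((a', b) : H × H)⁻¹ * (a, b) = (a'⁻¹ * a, 1) := by simp
  rw [e1, e2]
  rcases h.2 with h | h
  · exact Or.inl (Or.inr (Or.inl ⟨_, h, rfl⟩))
  · exact Or.inr (Or.inr (Or.inl ⟨_, h, rfl⟩))

theorem adj_snd (l : (H × H) →₀ ZMod 2) (a : H) {b b' : H} (h : (cayley S).Adj b b') :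
    (cayley (gens S)).Adj ⟨l, (a, b)⟩ ⟨l, (a, b')⟩ := by
  refine ⟨fun e => h.1 (congrArg (fun g : Lamp (H × H) => g.p.2) e), ?_⟩
  rw [mk_inv_mul, mk_inv_mul]
  have e1 : ((a, b) : H × H)⁻¹ * (a, b') = (1, b⁻¹ * b') := by simp
  have e2 : ((a, b') : H × H)⁻¹ * (a, b) = (1, b'⁻¹ * b) := by simp
  rw [e1, e2]
  rcases h.2 with h | h
  · exact Or.inl (Or.inr (Or.inr ⟨_, h, rfl⟩))
  · exact Or.inr (Or.inr (Or.inr ⟨_, h, rfl⟩))

theorem not_asdim_gens (hfin : S.Finite) (hS : Subgroup.closure S = ⊤) [Infinite H] :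
    ¬ AsdimLE (cayley (gens S)) Set.univ 1 := by
  apply not_asdim_one
  intro L
  obtain ⟨q, hq1, hq2⟩ := exists_geodesic hfin hS L
  refine ⟨fun i j => ⟨0, (q i, q j)⟩, ?_, ?_, ?_⟩
  · intro i j _
    change (cayley (gens S)).dist (⟨0, (q i, q j)⟩ : Lamp (H × H)) ⟨0, (q (i + 1), q j)⟩ ≤ 1
    rcases hq1 i with h | h
    · rw [← h]; simp
    · exact (SimpleGraph.dist_eq_one_iff_adj.2 (adj_fst 0 (q j) h)).le
  · intro i j _
    change (cayley (gens S)).dist (⟨0, (q i, q j)⟩ : Lamp (H × H)) ⟨0, (q i, q (j + 1))⟩ ≤ 1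
    rcases hq1 j with h | h
    · rw [← h]; simp
    · exact (SimpleGraph.dist_eq_one_iff_adj.2 (adj_snd 0 (q i) h)).le
  · intro i j i' j' hij hij'
    have h1 := pr1_dist hS (⟨0, (q i, q j)⟩ : Lamp (H × H)) ⟨0, (q i', q j')⟩
    have h2 := pr2_dist hS (⟨0, (q i, q j)⟩ : Lamp (H × H)) ⟨0, (q i', q j')⟩
    have h3 := hq2 i i' (by omega) (by omega)
    have h4 := hq2 j j' (by omega) (by omega)
    exact ⟨h3.trans (Nat.add_le_add_left h1 _), h4.trans (Nat.add_le_add_left h2 _)⟩

theorem asdim_ker (hfin : S.Finite) (hS : Subgroup.closure S = ⊤) :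
    AsdimLE (cayley (gens S)) ((pHom : Lamp (H × H) →* H × H).ker : Set (Lamp (H × H))) 0 :=
  asdim_zero (gens_finite hfin) (gens_closure hS) _ ker_locally_finite

theorem separates (hfin : S.Finite) (hS : Subgroup.closure S = ⊤) [Infinite H] :
    CoarselySeparates (cayley (gens S))
      ((pHom : Lamp (H × H) →* H × H).ker : Set (Lamp (H × H))) := by
  classical
  obtain ⟨X, hX⟩ : ∃ X : Set (Lamp (H × H)), X = {v | v.p = 1} := ⟨_, rfl⟩
  have hXker : ((pHom : Lamp (H × H) →* H × H).ker : Set (Lamp (H × H))) = X := by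
    rw [hX]; rfl
  rw [hXker]
  obtain ⟨Γ, hΓ⟩ : ∃ Γ, Γ = cayley (gens S) := ⟨_, rfl⟩
  rw [← hΓ]
  obtain ⟨x0, hx0⟩ := exists_far hfin hS 1
  have far1 : ∀ (N : ℕ) (v : Lamp (H × H)), N < (cayley S).dist 1 v.p.1 →
      ∀ x ∈ X, N < Γ.dist v x := by
    intro N v hv x hx
    rw [hX] at hx
    have h1 := pr1_dist hS v x
    have h2 : x.p = 1 := hx
    rw [h2, SimpleGraph.dist_comm] at h1
    rw [hΓ]
    exact lt_of_lt_of_le hv h1
  have far2 : ∀ (N : ℕ) (v : Lamp (H × H)), N < (cayley S).dist 1 v.p.2 →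
      ∀ x ∈ X, N < Γ.dist v x := by
    intro N v hv x hx
    rw [hX] at hx
    have h1 := pr2_dist hS v x
    have h2 : x.p = 1 := hx
    rw [h2, SimpleGraph.dist_comm] at h1
    rw [hΓ]
    exact lt_of_lt_of_le hv h1
  have hout : ∀ v ∈ outside Γ X 1, v.p ≠ 1 := by
    intro v hv hp
    have h1 := hv v (by rw [hX]; exact hp)
    simp at h1
  have hadj : ∀ u v : Lamp (H × H), u.p ≠ 1 → u⁻¹ * v ∈ gens S → u.l 1 = v.l 1 := by
    intro u v hu huv
    have hv : v = u * (u⁻¹ * v) := by simp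
    rw [hv, mul_l, Finsupp.add_apply]
    rcases huv with h | ⟨t, ht, h⟩ | ⟨t, ht, h⟩
    · rw [Set.mem_singleton_iff.1 h, tog, Finsupp.mapDomain_single, mul_one,
        Finsupp.single_apply, if_neg hu, add_zero]
    · rw [← h, pos_l, Finsupp.mapDomain_zero]; simp
    · rw [← h, pos_l, Finsupp.mapDomain_zero]; simp
  have hG1 : ∀ u v, Γ.Adj u v → (u⁻¹ * v ∈ gens S ∨ v⁻¹ * u ∈ gens S) := by
    intro u v h
    rw [hΓ] at h
    exact h.2
  have hG2 : ∀ (l : (H × H) →₀ ZMod 2) (a b : H), (cayley S).Adj a b →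
      Γ.Adj ⟨l, (x0, a)⟩ ⟨l, (x0, b)⟩ := by
    intro l a b h
    rw [hΓ]
    exact adj_snd l x0 h
  have hinv : ∀ u v : outside Γ X 1, (Γ.induce (outside Γ X 1)).Reachable u v →
      u.1.l 1 = v.1.l 1 := by
    rintro u v ⟨w⟩
    induction w with
    | nil => rfl
    | @cons a b c h w ih =>
      rw [← ih]
      rcases hG1 a.1 b.1 h with h1 | h1
      · exact hadj _ _ (hout _ a.2) h1
      · exact (hadj _ _ (hout _ b.2) h1).symm
  have hmem : ∀ (l : (H × H) →₀ ZMod 2) (y : H), (⟨l, (x0, y)⟩ : Lamp (H × H)) ∈ outside Γ X 1 :=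
    fun l y => far1 1 _ hx0
  have hreach : ∀ (l : (H × H) →₀ ZMod 2) (y y' : H),
      (Γ.induce (outside Γ X 1)).Reachable ⟨⟨l, (x0, y)⟩, hmem l y⟩ ⟨⟨l, (x0, y')⟩, hmem l y'⟩ := by
    intro l y y'
    obtain ⟨w⟩ := (cayley_connected hS).preconnected y y'
    induction w with
    | nil => exact SimpleGraph.Reachable.refl _
    | @cons a b c h w ih =>
      refine SimpleGraph.Reachable.trans (SimpleGraph.Adj.reachable ?_) ih
      exact hG2 l a b h
  refine ⟨1, one_pos, (Γ.induce (outside Γ X 1)).connectedComponentMk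
    ⟨⟨0, (x0, 1)⟩, hmem 0 1⟩, (Γ.induce (outside Γ X 1)).connectedComponentMk
    ⟨⟨Finsupp.single 1 1, (x0, 1)⟩, hmem (Finsupp.single 1 1) 1⟩, ?_, ?_, ?_⟩
  · intro he
    have h1 := hinv _ _ (SimpleGraph.ConnectedComponent.exact he)
    simp at h1
  · intro N
    obtain ⟨y, hy⟩ := exists_far hfin hS N
    exact ⟨⟨⟨0, (x0, y)⟩, hmem 0 y⟩,
      SimpleGraph.ConnectedComponent.sound (hreach 0 y 1), far2 N _ hy⟩
  · intro N
    obtain ⟨y, hy⟩ := exists_far hfin hS N
    exact ⟨⟨⟨Finsupp.single 1 1, (x0, y)⟩, hmem (Finsupp.single 1 1) y⟩,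
      SimpleGraph.ConnectedComponent.sound (hreach (Finsupp.single 1 1) y 1), far2 N _ hy⟩

end Main

end Pool.Agent.Helpers.H19Asd
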