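import Mathlib

/-!
Definitions for coarse separation and splittings: Cayley graph, asymptotic dimension of a set of
vertices, coarse separation, splittings over a subgroup.
-/

namespace Pool.Agent.Helpers.H19Asd

universe u

/-- The Cayley graph of `G` with respect to `S`; its vertices are the elements of `G` and `g`, `h`
are joined by an edge when `h = g * s` or `g = h * s` for some `s` in `S` (and `g ≠ h`). -/
def cayley {G : Type u} [Group G] (S : Set G) : SimpleGraph G where
  Adj g h := g ≠ h ∧ (g⁻¹ * h ∈ S ∨ h⁻¹ * g ∈ S)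
  symm := ⟨fun _ _ h => ⟨h.1.symm, h.2.symm⟩⟩
  loopless := ⟨fun _ h => h.1 rfl⟩

/-- `asdim Y ≤ k` for a set `Y` of vertices of a graph with its path metric: for every `R` there is
a cover of `Y` by sets of uniformly bounded diameter such that every ball of radius `R` about a
point of `Y` meets at most `k + 1` of them. -/
def AsdimLE {V : Type u} (Γ : SimpleGraph V) (Y : Set V) (k : ℕ) : Prop :=
  ∀ R : ℕ, ∃ (D : ℕ) (𝒰 : Set (Set V)), (∀ U ∈ 𝒰, U ⊆ Y) ∧ Y ⊆ ⋃₀ 𝒰 ∧
    (∀ U ∈ 𝒰, ∀ x ∈ U, ∀ y ∈ U, Γ.dist x y ≤ D) ∧
    ∀ x ∈ Y, {U ∈ 𝒰 | ∃ y ∈ U, Γ.dist x y ≤ R}.encard ≤ k + 1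

/-- The vertices outside the closed `r`-neighbourhood of `X`. -/
def outside {V : Type u} (Γ : SimpleGraph V) (X : Set V) (r : ℕ) : Set V :=
  {v | ∀ x ∈ X, r < Γ.dist v x}

/-- `X` coarsely separates the graph: for some `r > 0` the complement of the closed
`r`-neighbourhood of `X` has two different connected components, each of which contains points at
arbitrarily large distance from `X`. -/
def CoarselySeparates {V : Type u} (Γ : SimpleGraph V) (X : Set V) : Prop :=
  ∃ r : ℕ, 0 < r ∧ ∃ C₁ C₂ : (Γ.induce (outside Γ X r)).ConnectedComponent, C₁ ≠ C₂ ∧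
    (∀ N : ℕ, ∃ v : outside Γ X r, (Γ.induce (outside Γ X r)).connectedComponentMk v = C₁ ∧
      ∀ x ∈ X, N < Γ.dist v.1 x) ∧
    (∀ N : ℕ, ∃ v : outside Γ X r, (Γ.induce (outside Γ X r)).connectedComponentMk v = C₂ ∧
      ∀ x ∈ X, N < Γ.dist v.1 x)

/-- `G` is a nontrivial amalgamated free product over `C`: there are subgroups `A₀`, `A₁` of `G`,
both different from `C` and containing `C`, such that the natural map from the amalgamated free
product of `A₀` and `A₁` over `C` to `G` is an isomorphism. -/
def SplitsAsAmalgam {G : Type u} [Group G] (C : Subgroup G) : Prop :=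
  ∃ (A : Bool → Subgroup G) (h : ∀ i, C < A i), Function.Bijective
    (Monoid.PushoutI.lift (φ := fun i => Subgroup.inclusion (h i).le) (fun i => (A i).subtype)
      C.subtype (fun _ => rfl))

/-- `G` is an HNN extension with associated subgroup `C`: there are a subgroup `K` of `G`, an
isomorphism `φ` between two subgroups `A`, `B` of `K` with `A = C`, and `t` in `G` with
`t * a = φ a * t` for all `a` in `A`, such that the natural map from the HNN extension of `K` with
respect to `φ` to `G` is an isomorphism. -/
def SplitsAsHNN {G : Type u} [Group G] (C : Subgroup G) : Prop :=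
  ∃ (K : Subgroup G) (A B : Subgroup K) (φ : A ≃* B) (t : G)
    (ht : ∀ a : A, t * K.subtype (a : K) = K.subtype (φ a : K) * t),
    A.map K.subtype = C ∧ Function.Bijective (HNNExtension.lift K.subtype t ht)

/-- `G` splits over its subgroup `C`. -/
def SplitsOver {G : Type u} [Group G] (C : Subgroup G) : Prop :=
  SplitsAsAmalgam C ∨ SplitsAsHNN C

end Pool.Agent.Helpers.H19Asd
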