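import Mathlib

/-!
Pair lemma: a finite non-commutative group has an abelian subgroup `A`, an element `t` that
normalises it and an element `a` of `A` that does not commute with `t`.
-/

namespace Pool.Agent.Helpers.H19ChainA

universe u

/-- Every abelian subgroup is centralised by every element that normalises it. -/
def NC (G : Type u) [Group G] : Prop :=
  ∀ A : Subgroup G, (∀ x ∈ A, ∀ y ∈ A, x * y = y * x) →
    ∀ t : G, (∀ x ∈ A, t * x * t⁻¹ ∈ A) → ∀ a ∈ A, a * t = t * a

theorem NC.subgroup {G : Type u} [Group G] (h : NC G) (H : Subgroup G) : NC H := by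
  intro A hA t ht a ha
  have hA' : ∀ x ∈ A.map H.subtype, ∀ y ∈ A.map H.subtype, x * y = y * x := by
    rintro _ ⟨x, hx, rfl⟩ _ ⟨y, hy, rfl⟩
    rw [← map_mul, hA x hx y hy, map_mul]
  have := h (A.map H.subtype) hA' t ?_ a (Subgroup.mem_map_of_mem _ ha)
  · exact Subtype.ext this
  · rintro _ ⟨x, hx, rfl⟩
    exact ⟨t * x * t⁻¹, ht x hx, by simp⟩

theorem pgroup_comm {G : Type u} [Group G] [Finite G] {p : ℕ} [Fact p.Prime]
    (hG : IsPGroup p G) (h : NC G) : ∀ x y : G, x * y = y * x := by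
  intro x y
  by_contra hxy
  have hx : x ∉ Subgroup.center G := fun hx => hxy (Subgroup.mem_center_iff.1 hx y).symm
  have : Nontrivial (G ⧸ Subgroup.center G) :=
    ⟨⟨(x : G ⧸ Subgroup.center G), 1, fun h => hx ((QuotientGroup.eq_one_iff x).1 h)⟩⟩
  have hQ : IsPGroup p (G ⧸ Subgroup.center G) := hG.to_quotient _
  have := hQ.center_nontrivial
  obtain ⟨⟨c, hc⟩, hc1⟩ := exists_ne (1 : Subgroup.center (G ⧸ Subgroup.center G))
  obtain ⟨g, rfl⟩ := QuotientGroup.mk_surjective c
  have hg : g ∉ Subgroup.center G := by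
    intro hg
    apply hc1
    apply Subtype.ext
    exact (QuotientGroup.eq_one_iff g).2 hg
  have hA1 : ∀ z ∈ (Subgroup.zpowers (g : G ⧸ Subgroup.center G)).comap
      (QuotientGroup.mk' (Subgroup.center G)), ∃ k : ℤ, ∃ w ∈ Subgroup.center G, z = g ^ k * w := by
    intro z hz
    obtain ⟨k, hk⟩ := Subgroup.mem_zpowers_iff.1 (Subgroup.mem_comap.1 hz)
    refine ⟨k, (g ^ k)⁻¹ * z, ?_, by group⟩
    rw [← QuotientGroup.eq_one_iff]
    have h1 : ((g ^ k : G) : G ⧸ Subgroup.center G) = (z : G ⧸ Subgroup.center G) := by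
      rw [QuotientGroup.mk_zpow]; exact hk
    rw [QuotientGroup.mk_mul, QuotientGroup.mk_inv, h1]
    simp
  apply hg
  rw [Subgroup.mem_center_iff]
  intro t
  symm
  refine h ((Subgroup.zpowers (g : G ⧸ Subgroup.center G)).comap
      (QuotientGroup.mk' (Subgroup.center G))) ?_ t ?_ g ?_
  · intro z hz z' hz'
    obtain ⟨k, w, hw, rfl⟩ := hA1 z hz
    obtain ⟨k', w', hw', rfl⟩ := hA1 z' hz'
    have e1 := Subgroup.mem_center_iff.1 hw
    have e2 := Subgroup.mem_center_iff.1 hw'
    calc g ^ k * w * (g ^ k' * w') = g ^ k * (w * (g ^ k' * w')) := by group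
      _ = g ^ k * ((g ^ k' * w') * w) := by rw [e1]
      _ = g ^ k' * (g ^ k * w') * w := by
          rw [← mul_assoc, ← mul_assoc, ← mul_assoc, ← zpow_add, ← zpow_add, add_comm]
      _ = g ^ k' * (w' * g ^ k) * w := by rw [e2]
      _ = g ^ k' * w' * (g ^ k * w) := by group
  · intro z hz
    rw [Subgroup.mem_comap] at hz ⊢
    rw [map_mul, map_mul]
    obtain ⟨k, hk⟩ := Subgroup.mem_zpowers_iff.1 hz
    rw [← hk]
    have hck : ∀ q : G ⧸ Subgroup.center G,
        q * (g : G ⧸ Subgroup.center G) ^ k = (g : G ⧸ Subgroup.center G) ^ k * q := by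
      intro q
      exact (Subgroup.mem_center_iff.1 (Subgroup.zpow_mem _ hc k)) q
    rw [hck]
    rw [mul_assoc, ← map_mul, mul_inv_cancel, map_one, mul_one]
    exact Subgroup.zpow_mem _ (Subgroup.mem_zpowers _) k
  · rw [Subgroup.mem_comap]
    exact Subgroup.mem_zpowers _

theorem comm_of_NC (n : ℕ) : ∀ (G : Type u) [Group G] [Finite G], Nat.card G = n → NC G →
    ∀ x y : G, x * y = y * x := by
  induction n using Nat.strong_induction_on with
  | _ n ih =>
  intro G _ _ hn h
  by_cases hn1 : n = 1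
  · rw [hn1] at hn
    have := (Nat.card_eq_one_iff_unique.1 hn).1
    intro x y
    exact Subsingleton.elim _ _
  obtain ⟨p, hp, hpn⟩ := Nat.exists_prime_and_dvd hn1
  have := Fact.mk hp
  let P : Sylow p G := default
  have hPc : ∀ x y : P, x * y = y * x := pgroup_comm P.isPGroup' (h.subgroup P)
  have hPc' : ∀ x ∈ (P : Subgroup G), ∀ y ∈ (P : Subgroup G), x * y = y * x := by
    intro x hx y hy
    exact congrArg Subtype.val (hPc ⟨x, hx⟩ ⟨y, hy⟩)
  have hP : Subgroup.normalizer (P : Set G) ≤ Subgroup.centralizer (P : Set G) := by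
    intro t ht
    rw [Subgroup.mem_centralizer_iff]
    intro a ha
    refine h (P : Subgroup G) hPc' t ?_ a ha
    intro x hx
    exact ((Subgroup.mem_normalizer_iff (H := (P : Subgroup G))).1 ht x).1 hx
  have hK := MonoidHom.ker_transferSylow_isComplement' P hP
  have hcard := hK.card_mul_card
  have hPcard : 1 < Nat.card (P : Subgroup G) := by
    have : p ∣ Nat.card (P : Subgroup G) := by
      rw [P.card_eq_multiplicity]
      exact dvd_pow_self p (Nat.Prime.factorization_pos_of_dvd hp Nat.card_pos.ne'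
        (hn ▸ hpn)).ne'
    exact lt_of_lt_of_le hp.one_lt (Nat.le_of_dvd Nat.card_pos this)
  have hKcard : Nat.card (MonoidHom.transferSylow P hP).ker < n := by
    rw [← hn, ← hcard]
    have : 0 < Nat.card (MonoidHom.transferSylow P hP).ker := Nat.card_pos
    nlinarith
  have hKc := ih _ hKcard (MonoidHom.transferSylow P hP).ker rfl (h.subgroup _)
  have hKc' : ∀ k ∈ (MonoidHom.transferSylow P hP).ker, ∀ t, k * t = t * k := by
    intro k hk t
    refine h (MonoidHom.transferSylow P hP).ker ?_ t ?_ k hk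
    · intro x hx y hy
      exact congrArg Subtype.val (hKc ⟨x, hx⟩ ⟨y, hy⟩)
    · intro x hx
      exact Subgroup.Normal.conj_mem inferInstance x hx t
  have hsup : ∀ x : G, ∃ k ∈ (MonoidHom.transferSylow P hP).ker, ∃ q ∈ (P : Subgroup G),
      k * q = x := by
    intro x
    have hx : x ∈ (MonoidHom.transferSylow P hP).ker ⊔ (P : Subgroup G) := by
      rw [hK.sup_eq_top]; exact Subgroup.mem_top x
    exact Subgroup.mem_sup_of_normal_left.1 hx
  intro x y
  obtain ⟨k, hk, q, hq, rfl⟩ := hsup x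
  obtain ⟨k', hk', q', hq', rfl⟩ := hsup y
  calc k * q * (k' * q') = k * (q * k') * q' := by group
    _ = k * (k' * q) * q' := by rw [hKc' k' hk' q]
    _ = k * k' * (q * q') := by group
    _ = (k' * k) * (q' * q) := by rw [hPc' q hq q' hq', hKc' k hk k']
    _ = k' * (k * q') * q := by group
    _ = k' * (q' * k) * q := by rw [hKc' k hk q']
    _ = k' * q' * (k * q) := by group

theorem exists_pair {G : Type u} [Group G] [Finite G] (h : ¬ ∀ x y : G, x * y = y * x) :
    ∃ A : Subgroup G, (∀ x ∈ A, ∀ y ∈ A, x * y = y * x) ∧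
      ∃ t : G, (∀ x ∈ A, t * x * t⁻¹ ∈ A) ∧ ∃ a ∈ A, a * t ≠ t * a := by
  by_contra hcon
  apply h
  apply comm_of_NC (Nat.card G) G rfl
  intro A hA t ht a ha
  by_contra hat
  exact hcon ⟨A, hA, t, ht, a, ha, hat⟩

end Pool.Agent.Helpers.H19ChainA
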