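import Mathlib

/-!
Abstract construction of a permutation `θ` of a group `M` (in which `x ^ (2 * m) = x` for all `x`)
such that `x * θ x` takes every value but one.
-/

namespace Pool.Agent.Helpers.H19ChainB

universe u

theorem sq_inj {H : Type*} [Group H] {m : ℕ} (h : ∀ x : H, x ^ (2 * m) = x) {x y : H}
    (hxy : x * x = y * y) : x = y := by
  rw [← h x, ← h y, pow_mul, pow_mul, sq, sq, hxy]

theorem sq_surj {H : Type*} [Group H] {m : ℕ} (h : ∀ x : H, x ^ (2 * m) = x) (x : H) :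
    x ^ m * x ^ m = x := by
  rw [← pow_add, ← two_mul, h]

theorem abstract_chain {M : Type u} [Group M] [Finite M] (A : Subgroup M) [A.Normal] {m : ℕ}
    (hm : ∀ x : M, x ^ (2 * m) = x) (p r : M ⧸ A → M) (hp : ∀ i, (p i : M ⧸ A) = i)
    (hr : ∀ i, (r i : M ⧸ A) = i) (f g : M ⧸ A → M ⧸ A) (hf : Function.Injective f)
    (hgi : Function.Injective g) (hgs : Function.Surjective g) (i₀ : M ⧸ A)
    (h1 : ∀ i, i ≠ i₀ → p i * r (f i) = p (g i) * r (g i))
    (h2 : p i₀ * r (f i₀) ≠ p (g i₀) * r (g i₀)) :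
    ∃ θ : Equiv.Perm M, ∃ z : M, ∀ y : M, (∃ x, x * θ x = y) ↔ y ≠ z := by
  classical
  have hmQ : ∀ x : M ⧸ A, x ^ (2 * m) = x := by
    intro x
    obtain ⟨x, rfl⟩ := QuotientGroup.mk_surjective x
    rw [← QuotientGroup.mk_pow, hm]
  let θ₀ : M → M := fun x => if x = p (x : M ⧸ A) then r (f (x : M ⧸ A))
    else (p (x : M ⧸ A))⁻¹ * x * r (x : M ⧸ A)
  have hθ1 : ∀ x : M, x = p (x : M ⧸ A) → θ₀ x = r (f (x : M ⧸ A)) := fun x hx => if_pos hx
  have hθ2 : ∀ x : M, x ≠ p (x : M ⧸ A) → θ₀ x = (p (x : M ⧸ A))⁻¹ * x * r (x : M ⧸ A) :=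
    fun x hx => if_neg hx
  have hθ3 : ∀ x : M, x ≠ p (x : M ⧸ A) → (θ₀ x : M ⧸ A) = (x : M ⧸ A) := by
    intro x hx
    rw [hθ2 x hx, QuotientGroup.mk_mul, QuotientGroup.mk_mul, QuotientGroup.mk_inv, hp, hr]
    group
  have hθ4 : ∀ x : M, x ≠ p (x : M ⧸ A) → θ₀ x ≠ r (x : M ⧸ A) := by
    intro x hx h
    rw [hθ2 x hx] at h
    apply hx
    have h' : (p (x : M ⧸ A))⁻¹ * x = 1 := by
      have := congrArg (fun t => t * (r (x : M ⧸ A))⁻¹) h
      simpa using this
    exact (inv_mul_eq_one.1 h').symm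
  have hinj : Function.Injective θ₀ := by
    intro x y hxy
    by_cases hx : x = p (x : M ⧸ A)
    · by_cases hy : y = p (y : M ⧸ A)
      · have h := hxy
        rw [hθ1 x hx, hθ1 y hy] at h
        have h' := congrArg (fun t : M => (t : M ⧸ A)) h
        simp only [hr] at h'
        have h'' := hf h'
        rw [hx, hy, h'']
      · exfalso
        have h := hθ3 y hy
        rw [← hxy, hθ1 x hx, hr] at h
        apply hθ4 y hy
        rw [← hxy, hθ1 x hx, h]
    · by_cases hy : y = p (y : M ⧸ A)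
      · exfalso
        have h := hθ3 x hx
        rw [hxy, hθ1 y hy, hr] at h
        apply hθ4 x hx
        rw [hxy, hθ1 y hy, h]
      · have h3 := hθ3 x hx
        have h4 := hθ3 y hy
        rw [hxy, h4] at h3
        have h := hxy
        rw [hθ2 x hx, hθ2 y hy, h3] at h
        exact mul_left_cancel (mul_right_cancel h)
  let θ : Equiv.Perm M := Equiv.ofBijective θ₀ (Finite.injective_iff_bijective.1 hinj)
  have hθ : ∀ x, θ x = θ₀ x := fun x => rfl
  refine ⟨θ, p (g i₀) * r (g i₀), ?_⟩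
  intro y
  constructor
  · rintro ⟨x, hx⟩ hy
    rw [hy, hθ] at hx
    by_cases hxp : x = p (x : M ⧸ A)
    · rw [hθ1 x hxp] at hx
      by_cases hx0 : (x : M ⧸ A) = i₀
      · rw [hxp, hp, hx0] at hx
        exact h2 hx
      · rw [hxp, hp, h1 _ hx0] at hx
        have h := congrArg (fun t : M => (t : M ⧸ A)) hx
        simp only [QuotientGroup.mk_mul, hp, hr] at h
        exact hx0 (hgi (sq_inj hmQ h))
    · have h3 := hθ3 x hxp
      rw [hθ2 x hxp] at hx
      have h := congrArg (fun t : M => (t : M ⧸ A)) hx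
      simp only [QuotientGroup.mk_mul, QuotientGroup.mk_inv, hp, hr] at h
      have h' : (x : M ⧸ A) = g i₀ := by
        apply sq_inj hmQ
        rw [← h]
        group
      rw [← h'] at hx
      have h5 : (x * (p (x : M ⧸ A))⁻¹) * (x * (p (x : M ⧸ A))⁻¹) = 1 * 1 := by
        have h6 : x * (p (x : M ⧸ A))⁻¹ * x = p (x : M ⧸ A) := by
          apply mul_right_cancel (b := r (x : M ⧸ A))
          rw [← hx]; group
        rw [← mul_assoc, h6]; group
      have h7 := sq_inj hm h5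
      exact hxp (mul_inv_eq_one.1 h7)
  · intro hy
    obtain ⟨j, hj⟩ : ∃ j : M ⧸ A, j * j = (y : M ⧸ A) := ⟨_, sq_surj hmQ _⟩
    by_cases hw : y = p j * r j
    · obtain ⟨i, rfl⟩ := hgs j
      have hi : i ≠ i₀ := by
        rintro rfl
        exact hy hw
      refine ⟨p i, ?_⟩
      rw [hθ, hθ1 _ (by rw [hp]), hp, h1 i hi, hw]
    · set w : M := y * (p j * r j)⁻¹ with hwdef
      have hw1 : w ≠ 1 := by
        intro h
        exact hw (mul_inv_eq_one.1 h)
      have hwA : (w : M ⧸ A) = 1 := by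
        rw [hwdef, QuotientGroup.mk_mul, QuotientGroup.mk_inv, QuotientGroup.mk_mul, hp, hr, ← hj]
        group
      have hu : (w ^ m) * (w ^ m) = w := sq_surj hm w
      have hu1 : w ^ m ≠ 1 := by
        intro h
        rw [h] at hu
        exact hw1 (by rw [← hu, one_mul])
      have huA : ((w ^ m : M) : M ⧸ A) = 1 := by
        rw [QuotientGroup.mk_pow, hwA, one_pow]
      have hx : ((w ^ m * p j : M) : M ⧸ A) = j := by
        rw [QuotientGroup.mk_mul, huA, hp, one_mul]
      refine ⟨w ^ m * p j, ?_⟩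
      have hne : w ^ m * p j ≠ p ((w ^ m * p j : M) : M ⧸ A) := by
        rw [hx]
        intro h
        exact hu1 (mul_eq_right.1 h)
      rw [hθ, hθ2 _ hne, hx]
      calc w ^ m * p j * ((p j)⁻¹ * (w ^ m * p j) * r j) = (w ^ m * w ^ m) * (p j * r j) := by group
        _ = y := by rw [hu, hwdef]; group

end Pool.Agent.Helpers.H19ChainB
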