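import Pool.Agent.Helpers.H19ChainB

/-!
Explicit data for the abstract construction: `M / A` cyclic generated by the class of `s`, `A`
abelian, and `a` in `A` not commuting with `s`.
-/

namespace Pool.Agent.Helpers.H19ChainC

open Pool.Agent.Helpers.H19ChainB

universe u

theorem explicit_chain {M : Type u} [Group M] [Finite M] (A : Subgroup M) [A.Normal] {m : ℕ}
    (hm : ∀ x : M, x ^ (2 * m) = x) (hA : ∀ x ∈ A, ∀ y ∈ A, x * y = y * x) (s a : M) (ha : a ∈ A)
    (has : a * s ≠ s * a) (hgen : ∀ i : M ⧸ A, ∃ k : ℕ, (s : M ⧸ A) ^ k = i) :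
    ∃ θ : Equiv.Perm M, ∃ z : M, ∀ y : M, (∃ x, x * θ x = y) ↔ y ≠ z := by
  classical
  have hmQ : ∀ x : M ⧸ A, x ^ (2 * m) = x := by
    intro x
    obtain ⟨x, rfl⟩ := QuotientGroup.mk_surjective x
    rw [← QuotientGroup.mk_pow, hm]
  obtain ⟨σ, hσ⟩ : ∃ σ : M ⧸ A, σ = (s : M ⧸ A) := ⟨_, rfl⟩
  rw [← hσ] at hgen
  obtain ⟨q, hq⟩ : ∃ q, q = orderOf σ := ⟨_, rfl⟩
  have hσ1 : σ ≠ 1 := by
    intro h
    rw [hσ] at h
    exact has (hA a ha s ((QuotientGroup.eq_one_iff s).1 h))
  have hm0 : m ≠ 0 := by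
    rintro rfl
    have := hm s
    rw [mul_zero, pow_zero] at this
    apply has
    rw [← this]; simp
  have hqpos : 0 < q := by rw [hq]; exact orderOf_pos σ
  have hq1 : q ≠ 1 := by
    intro h
    rw [hq, orderOf_eq_one_iff] at h
    exact hσ1 h
  have hqodd : ¬ 2 ∣ q := by
    intro h2
    have h1 : σ ^ (2 * m - 1) = 1 := by
      have h := hmQ σ
      have h' : 2 * m = (2 * m - 1) + 1 := by omega
      rw [h', pow_succ] at h
      exact mul_eq_right.1 h
    have h3 := orderOf_dvd_of_pow_eq_one h1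
    rw [← hq] at h3
    have h4 := h2.trans h3
    omega
  have hq3 : 3 ≤ q := by
    rcases Nat.lt_or_ge q 3 with h | h
    · exfalso
      interval_cases q
      · exact hq1 rfl
      · exact hqodd (dvd_refl 2)
    · exact h
  have hσq : σ ^ q = 1 := by rw [hq]; exact pow_orderOf_eq_one σ
  have hk : ∀ i : M ⧸ A, ∃ k : ℕ, k < q ∧ σ ^ k = i := by
    intro i
    obtain ⟨k, hk⟩ := hgen i
    refine ⟨k % q, Nat.mod_lt _ hqpos, ?_⟩
    rw [hq, pow_mod_orderOf, hk]
  choose k hkq hkσ using hk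
  have huniq : ∀ j : ℕ, j < q → ∀ i : M ⧸ A, σ ^ j = i → k i = j := by
    intro j hj i hi
    have h1 : σ ^ (k i) = σ ^ j := by rw [hkσ, hi]
    have h2 := pow_inj_mod.1 h1
    rw [← hq, Nat.mod_eq_of_lt (hkq i), Nat.mod_eq_of_lt hj] at h2
    exact h2
  have hak : (a : M ⧸ A) = 1 := (QuotientGroup.eq_one_iff a).2 ha
  let r : M ⧸ A → M := fun i => if k i = 0 then a else s ^ (k i)
  let p : M ⧸ A → M := fun i => if k i = q - 1 then s ^ (q - 2) * a * (s ^ (q - 1))⁻¹ else s ^ (k i)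
  have hr1 : ∀ i, k i = 0 → r i = a := fun i hi => if_pos hi
  have hr2 : ∀ i, k i ≠ 0 → r i = s ^ (k i) := fun i hi => if_neg hi
  have hp1 : ∀ i, k i = q - 1 → p i = s ^ (q - 2) * a * (s ^ (q - 1))⁻¹ := fun i hi => if_pos hi
  have hp2 : ∀ i, k i ≠ q - 1 → p i = s ^ (k i) := fun i hi => if_neg hi
  have hr : ∀ i, (r i : M ⧸ A) = i := by
    intro i
    by_cases h : k i = 0
    · rw [hr1 i h, hak, ← hkσ i, h, pow_zero]
    · rw [hr2 i h, QuotientGroup.mk_pow, ← hσ, hkσ]
  have hp : ∀ i, (p i : M ⧸ A) = i := by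
    intro i
    by_cases h : k i = q - 1
    · rw [hp1 i h, QuotientGroup.mk_mul, QuotientGroup.mk_mul, QuotientGroup.mk_inv, hak,
        QuotientGroup.mk_pow, QuotientGroup.mk_pow, ← hσ, mul_one, ← hkσ i, h,
        mul_inv_eq_iff_eq_mul, ← pow_add]
      have : q - 1 + (q - 1) = q + (q - 2) := by omega
      rw [this, pow_add, hσq, one_mul]
    · rw [hp2 i h, QuotientGroup.mk_pow, ← hσ, hkσ]
  refine abstract_chain A hm p r hp hr (fun i => i * σ ^ 2) (fun i => i * σ) ?_ ?_ ?_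
    (σ ^ (q - 1)) ?_ ?_
  · intro i j h
    exact mul_right_cancel h
  · intro i j h
    exact mul_right_cancel h
  · intro i
    exact ⟨i * σ⁻¹, by simp⟩
  · intro i hi
    have hki : k i ≠ q - 1 := by
      intro h
      exact hi (by rw [← hkσ i, h])
    have hki' : k i < q - 1 := by have := hkq i; omega
    have hkg : k (i * σ) = k i + 1 := by
      apply huniq _ (by omega)
      rw [pow_succ, hkσ]
    change p i * r (i * σ ^ 2) = p (i * σ) * r (i * σ)
    have hrg : r (i * σ) = s ^ (k i + 1) := by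
      rw [hr2 _ (by omega), hkg]
    rw [hp2 i hki, hrg]
    by_cases h2 : k i + 2 < q
    · have hkf : k (i * σ ^ 2) = k i + 2 := by
        apply huniq _ h2
        rw [pow_add, hkσ]
      rw [hr2 _ (by omega), hkf, hp2 _ (by omega), hkg, ← pow_add, ← pow_add]
      congr 1
      omega
    · have h3 : k i = q - 2 := by omega
      have hkf : k (i * σ ^ 2) = 0 := by
        apply huniq _ hqpos
        rw [pow_zero, ← hkσ i, h3, ← pow_add]
        have : q - 2 + 2 = q := by omega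
        rw [this, hσq]
      rw [hr1 _ hkf, hp1 _ (by omega), h3]
      have : q - 2 + 1 = q - 1 := by omega
      rw [this]
      group
  · change p (σ ^ (q - 1)) * r (σ ^ (q - 1) * σ ^ 2) ≠ p (σ ^ (q - 1) * σ) * r (σ ^ (q - 1) * σ)
    have e1 : σ ^ (q - 1) * σ = 1 := by
      rw [← pow_succ]
      have : q - 1 + 1 = q := by omega
      rw [this, hσq]
    have e2 : σ ^ (q - 1) * σ ^ 2 = σ := by
      rw [sq, ← mul_assoc, e1, one_mul]
    have k0 : k 1 = 0 := huniq 0 hqpos 1 (pow_zero σ)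
    have k1 : k σ = 1 := huniq 1 (by omega) σ (pow_one σ)
    have k2 : k (σ ^ (q - 1)) = q - 1 := huniq (q - 1) (by omega) _ rfl
    rw [e1, e2, hp1 _ k2, hr2 σ (by omega), k1, hp2 1 (by omega), k0, hr1 1 k0, pow_one, pow_zero,
      one_mul]
    intro h
    have hsqA : s ^ q ∈ A := by
      rw [← QuotientGroup.eq_one_iff, QuotientGroup.mk_pow, ← hσ, hσq]
    have c1 : Commute a (s ^ q) := hA a ha _ hsqA
    have c2 : Commute a (s ^ (q - 2)) := by
      have e3 : s ^ (q - 1) = s * s ^ (q - 2) := by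
        rw [← pow_succ']
        congr 1
        omega
      rw [e3] at h
      have h' : s ^ (q - 2) * a = a * s ^ (q - 2) := by
        calc s ^ (q - 2) * a = (s ^ (q - 2) * a * (s * s ^ (q - 2))⁻¹ * s) * s ^ (q - 2) := by group
          _ = a * s ^ (q - 2) := by rw [h]
      exact h'.symm
    have c3 : Commute a (s ^ 2) := by
      have e4 : s ^ 2 = (s ^ (q - 2))⁻¹ * s ^ q := by
        rw [eq_inv_mul_iff_mul_eq, ← pow_add]
        congr 1
        omega
      rw [e4]
      exact c2.inv_right.mul_right c1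
    have c4 : Commute a ((s ^ 2) ^ m) := c3.pow_right m
    rw [← pow_mul, hm] at c4
    exact has c4

end Pool.Agent.Helpers.H19ChainC
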