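import Pool.Agent.Helpers.H19ChainA
import Pool.Agent.Helpers.H19ChainC

/-!
A finite group of odd order has a permutation `θ` for which `x * θ x` takes all values but one if
and only if it is not commutative.
-/

namespace Pool.Agent.Helpers.H19ChainD

open Pool.Agent.Helpers.H19ChainA Pool.Agent.Helpers.H19ChainB Pool.Agent.Helpers.H19ChainC

universe u

theorem pow_odd {G : Type u} [Group G] [Finite G] (hodd : Odd (Nat.card G)) :
    ∃ m : ℕ, ∀ x : G, x ^ (2 * m) = x := by
  obtain ⟨k, hk⟩ := hodd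
  refine ⟨k + 1, fun x => ?_⟩
  have h : 2 * (k + 1) = Nat.card G + 1 := by omega
  rw [h, pow_succ, pow_card_eq_one', one_mul]

theorem exists_chain {G : Type u} [Group G] [Finite G] (hodd : Odd (Nat.card G))
    (h : ¬ ∀ x y : G, x * y = y * x) :
    ∃ θ : Equiv.Perm G, ∃ z : G, ∀ y : G, (∃ x, x * θ x = y) ↔ y ≠ z := by
  classical
  obtain ⟨m, hm⟩ := pow_odd hodd
  obtain ⟨A, hA, t, ht, a, ha, hat⟩ := exists_pair h
  have htN : t ∈ Subgroup.normalizer (A : Set G) := by
    rw [Subgroup.mem_normalizer_iff]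
    intro x
    refine ⟨ht x, fun hx => ?_⟩
    have hpow : ∀ k : ℕ, ∀ y ∈ A, t ^ k * y * (t ^ k)⁻¹ ∈ A := by
      intro k
      induction k with
      | zero => intro y hy; simpa using hy
      | succ k ih =>
        intro y hy
        have := ih _ (ht y hy)
        rw [pow_succ]
        have e : t ^ k * t * y * (t ^ k * t)⁻¹ = t ^ k * (t * y * t⁻¹) * (t ^ k)⁻¹ := by group
        rw [e]; exact this
    have h1 := hpow (orderOf t - 1) _ hx
    have h2 : t ^ (orderOf t - 1) = t⁻¹ := by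
      rw [eq_inv_iff_mul_eq_one, ← pow_succ]
      have : orderOf t - 1 + 1 = orderOf t := by
        have := orderOf_pos t
        omega
      rw [this, pow_orderOf_eq_one]
    rw [h2] at h1
    have e : t⁻¹ * (t * x * t⁻¹) * (t⁻¹)⁻¹ = x := by group
    rwa [e] at h1
  obtain ⟨M, hM⟩ : ∃ M : Subgroup G, M = A ⊔ Subgroup.zpowers t := ⟨_, rfl⟩
  have hAM : A ≤ M := hM ▸ le_sup_left
  have htM : t ∈ M := hM ▸ (le_sup_right : Subgroup.zpowers t ≤ A ⊔ Subgroup.zpowers t)
    (Subgroup.mem_zpowers t)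
  have hMN : M ≤ Subgroup.normalizer (A : Set G) := by
    rw [hM]
    exact sup_le Subgroup.le_normalizer (Subgroup.zpowers_le.2 htN)
  have hnormal : (A.subgroupOf M).Normal := Subgroup.normal_subgroupOf_of_le_normalizer hMN
  have hgen : ∀ i : M ⧸ A.subgroupOf M, ∃ k : ℕ,
      (((⟨t, htM⟩ : M) : M ⧸ A.subgroupOf M)) ^ k = i := by
    intro i
    obtain ⟨x, rfl⟩ := QuotientGroup.mk_surjective i
    have hle : M ≤ ((Subgroup.zpowers ((⟨t, htM⟩ : M) : M ⧸ A.subgroupOf M)).comap
        (QuotientGroup.mk' (A.subgroupOf M))).map M.subtype := by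
      conv_lhs => rw [hM]
      refine sup_le ?_ ?_
      · intro y hy
        refine ⟨⟨y, hAM hy⟩, ?_, rfl⟩
        rw [SetLike.mem_coe, Subgroup.mem_comap]
        have : QuotientGroup.mk' (A.subgroupOf M) ⟨y, hAM hy⟩ = 1 :=
          (QuotientGroup.eq_one_iff _).2 (Subgroup.mem_subgroupOf.2 hy)
        rw [this]
        exact Subgroup.one_mem _
      · rw [Subgroup.zpowers_le]
        refine ⟨⟨t, htM⟩, ?_, rfl⟩
        rw [SetLike.mem_coe, Subgroup.mem_comap]
        exact Subgroup.mem_zpowers _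
    obtain ⟨y, hy, hyx⟩ := hle x.2
    have hyx' : y = x := Subtype.ext hyx
    rw [hyx', SetLike.mem_coe, Subgroup.mem_comap, ← mem_powers_iff_mem_zpowers] at hy
    obtain ⟨k, hk⟩ := hy
    exact ⟨k, hk⟩
  obtain ⟨θ, z, hθ⟩ := explicit_chain (A.subgroupOf M) (m := m)
    (fun x => Subtype.ext (by rw [SubmonoidClass.coe_pow]; exact hm x))
    (fun x hx y hy => Subtype.ext (hA x hx y hy)) ⟨t, htM⟩ ⟨a, hAM ha⟩ ha
    (fun h => hat (congrArg Subtype.val h)) hgen
  refine ⟨Equiv.Perm.ofSubtype θ, z, fun y => ?_⟩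
  have hin : ∀ x (hx : x ∈ M), Equiv.Perm.ofSubtype θ x = (θ ⟨x, hx⟩ : G) := fun x hx =>
    Equiv.Perm.ofSubtype_apply_coe θ ⟨x, hx⟩
  have hout : ∀ x, x ∉ M → Equiv.Perm.ofSubtype θ x = x := fun x hx =>
    Equiv.Perm.ofSubtype_apply_of_not_mem θ hx
  have hsqM : ∀ x : G, x * x ∈ M → x ∈ M := by
    intro x hx
    have := M.pow_mem hx m
    rwa [← sq, ← pow_mul, hm] at this
  constructor
  · rintro ⟨x, hx⟩ hy
    by_cases hxM : x ∈ M
    · rw [hin x hxM] at hx
      apply (hθ (⟨x, hxM⟩ * θ ⟨x, hxM⟩)).1 ⟨_, rfl⟩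
      apply Subtype.ext
      rw [← hy, ← hx]
      rfl
    · rw [hout x hxM] at hx
      apply hxM
      apply hsqM
      rw [hx, hy]
      exact z.2
  · intro hy
    by_cases hyM : y ∈ M
    · obtain ⟨x, hx⟩ := (hθ ⟨y, hyM⟩).2 (fun h => hy (congrArg Subtype.val h))
      refine ⟨x, ?_⟩
      rw [hin x x.2]
      exact congrArg Subtype.val hx
    · have hyy : y ^ m * y ^ m = y := sq_surj hm y
      have hnot : y ^ m ∉ M := by
        intro h
        apply hyM
        rw [← hyy]
        exact M.mul_mem h h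
      refine ⟨y ^ m, ?_⟩
      rw [hout _ hnot, hyy]

theorem no_chain {G : Type u} [CommGroup G] [Finite G] (hodd : Odd (Nat.card G))
    (θ : Equiv.Perm G) (h : (Set.range fun x => x * θ x).ncard = Nat.card G - 1) : False := by
  classical
  have := Fintype.ofFinite G
  obtain ⟨m, hm⟩ := pow_odd hodd
  have hcard : 0 < Nat.card G := Nat.card_pos
  obtain ⟨S, hS⟩ : ∃ S : Finset G, S = Finset.univ.image (fun x => x * θ x) := ⟨_, rfl⟩
  have hScoe : (S : Set G) = Set.range fun x => x * θ x := by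
    rw [hS]; simp
  have hScard : S.card = Nat.card G - 1 := by
    rw [← hScoe, Set.ncard_coe_finset] at h
    exact h
  rw [Nat.card_eq_fintype_card] at hScard hcard
  -- missing element
  obtain ⟨z, hz⟩ : ∃ z, z ∉ S := by
    by_contra hcon
    push Not at hcon
    have : S = Finset.univ := Finset.eq_univ_iff_forall.2 hcon
    rw [this, Finset.card_univ] at hScard
    omega
  have hSz : S = Finset.univ.erase z := by
    apply Finset.eq_of_subset_of_card_le
    · intro x hx
      exact Finset.mem_erase.2 ⟨fun h => hz (h ▸ hx), Finset.mem_univ x⟩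
    · rw [Finset.card_erase_of_mem (Finset.mem_univ z), Finset.card_univ, hScard]
  -- a repeated value
  have hninj : ¬ Function.Injective (fun x => x * θ x) := by
    intro hinj
    have : S.card = Fintype.card G := by
      rw [hS, Finset.card_image_of_injective _ hinj, Finset.card_univ]
    omega
  obtain ⟨x₁, x₂, h12, hne⟩ : ∃ x₁ x₂, x₁ * θ x₁ = x₂ * θ x₂ ∧ x₁ ≠ x₂ := by
    simpa [Function.Injective] using hninj
  have himg : (Finset.univ.erase x₂).image (fun x => x * θ x) = S := by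
    rw [hS]
    apply Finset.Subset.antisymm
    · exact Finset.image_subset_image (Finset.erase_subset _ _)
    · intro y hy
      obtain ⟨x, -, rfl⟩ := Finset.mem_image.1 hy
      by_cases hx : x = x₂
      · refine Finset.mem_image.2 ⟨x₁, Finset.mem_erase.2 ⟨hne, Finset.mem_univ _⟩, ?_⟩
        rw [hx]; exact h12
      · exact Finset.mem_image.2 ⟨x, Finset.mem_erase.2 ⟨hx, Finset.mem_univ _⟩, rfl⟩
  have hinj : Set.InjOn (fun x => x * θ x) (Finset.univ.erase x₂ : Finset G) := by
    rw [← Finset.card_image_iff, himg, hScard, Finset.card_erase_of_mem (Finset.mem_univ _),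
      Finset.card_univ]
  have e1 : ∏ x ∈ Finset.univ.erase x₂, (x * θ x) = ∏ y ∈ Finset.univ.erase z, y := by
    rw [← hSz, ← himg, Finset.prod_image hinj]
  have e2 : (x₂ * θ x₂) * ∏ x ∈ Finset.univ.erase x₂, (x * θ x) = ∏ x, (x * θ x) :=
    Finset.mul_prod_erase _ (fun x => x * θ x) (Finset.mem_univ x₂)
  have e3 : z * ∏ y ∈ Finset.univ.erase z, y = ∏ y : G, y :=
    Finset.mul_prod_erase _ (fun y => y) (Finset.mem_univ z)
  have e4 : ∏ x, (x * θ x) = (∏ x : G, x) * ∏ x : G, x := by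
    rw [Finset.prod_mul_distrib, Equiv.prod_comp θ (fun x => x)]
  have e5 : (∏ x : G, x) = 1 := by
    apply sq_inj hm
    rw [one_mul]
    have : (∏ x : G, x) = ∏ x : G, x⁻¹ := (Equiv.prod_comp (Equiv.inv G) (fun x => x)).symm
    nth_rewrite 2 [this]
    rw [← Finset.prod_mul_distrib]
    simp
  rw [e4, e5, one_mul, e1] at e2
  rw [e5, ← e2] at e3
  have : z = x₂ * θ x₂ := mul_right_cancel e3
  apply hz
  rw [this, hS]
  exact Finset.mem_image.2 ⟨x₂, Finset.mem_univ _, rfl⟩

theorem no_chain' {G : Type u} [inst : Group G] [Finite G] (hodd : Odd (Nat.card G))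
    (hc : ∀ x y : G, x * y = y * x) (θ : Equiv.Perm G)
    (h : (Set.range fun x => x * θ x).ncard = Nat.card G - 1) : False := by
  letI : CommGroup G := { inst with mul_comm := hc }
  exact no_chain (G := G) hodd θ h

theorem main {G : Type u} [Group G] [Finite G] (hodd : Odd (Nat.card G)) :
    (∃ θ : Equiv.Perm G, (Set.range fun x => x * θ x).ncard = Nat.card G - 1) ↔
      ∃ x y : G, x * y ≠ y * x := by
  constructor
  · rintro ⟨θ, hθ⟩
    by_contra hcon
    push Not at hcon
    exact no_chain' hodd hcon θ hθ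
  · rintro ⟨x, y, hxy⟩
    obtain ⟨θ, z, hθ⟩ := exists_chain hodd (fun h => hxy (h x y))
    refine ⟨θ, ?_⟩
    have : (Set.range fun x => x * θ x) = {z}ᶜ := by
      ext w
      rw [Set.mem_range, hθ w]
      rfl
    rw [this, Set.ncard_compl, Set.ncard_singleton]

end Pool.Agent.Helpers.H19ChainD
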