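import Mathlib

/-! Discrete renewal theory with power series (for Davidson's constant). -/

open PowerSeries Finset

namespace H19Dav

abbrev PS := PowerSeries ℝ

/-- nonnegative coefficients -/
def NN (a : PS) : Prop := ∀ n, 0 ≤ coeff n a

/-- the series `1/(1-X)` -/
noncomputable def S : PS := PowerSeries.mk fun _ => 1

lemma cmul (a b : PS) (n : ℕ) :
    coeff n (a * b) = ∑ j ∈ range (n + 1), coeff j a * coeff (n - j) b := by
  rw [coeff_mul, Finset.Nat.sum_antidiagonal_eq_sum_range_succ_mk]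

lemma coeff_S (n : ℕ) : coeff n S = 1 := by simp [S]

lemma cS (a : PS) (n : ℕ) : coeff n (a * S) = ∑ j ∈ range (n + 1), coeff j a := by
  rw [cmul]
  apply sum_congr rfl
  intro j _
  rw [coeff_S, mul_one]

lemma NN.mul {a b : PS} (ha : NN a) (hb : NN b) : NN (a * b) := by
  intro n
  rw [cmul]
  exact sum_nonneg fun j _ => mul_nonneg (ha j) (hb _)

lemma NN.add {a b : PS} (ha : NN a) (hb : NN b) : NN (a + b) := by
  intro n
  rw [map_add]
  exact add_nonneg (ha n) (hb n)

lemma NN_one : NN 1 := by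
  intro n
  rw [coeff_one]
  split_ifs <;> norm_num

lemma NN.pow {a : PS} (ha : NN a) (k : ℕ) : NN (a ^ k) := by
  induction k with
  | zero => rw [pow_zero]; exact NN_one
  | succ k ih => rw [pow_succ]; exact ih.mul ha

lemma NN_S : NN S := fun n => by rw [coeff_S]; norm_num

lemma NN.sum {ι : Type*} (s : Finset ι) (a : ι → PS) (h : ∀ i ∈ s, NN (a i)) :
    NN (∑ i ∈ s, a i) := by
  intro n
  rw [map_sum]
  exact sum_nonneg fun i hi => h i hi n

/-- sub-probability series -/
def SP (a : PS) : Prop := NN a ∧ ∀ n, coeff n (a * S) ≤ 1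

lemma cS_mono {a : PS} (ha : NN a) {m n : ℕ} (h : m ≤ n) : coeff m (a * S) ≤ coeff n (a * S) := by
  rw [cS, cS]
  apply sum_le_sum_of_subset_of_nonneg
  · intro j hj
    rw [mem_range] at *
    omega
  · intro j _ _
    exact ha j

lemma coeff_le_cS {a : PS} (ha : NN a) (n : ℕ) : coeff n a ≤ coeff n (a * S) := by
  rw [cS]
  exact single_le_sum (f := fun j => coeff j a) (fun j _ => ha j) (self_mem_range_succ n)

/-- multiplying by a sub-probability decreases partial sums -/
lemma SP_mul_le {a b : PS} (ha : SP a) (hb : NN b) (n : ℕ) :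
    coeff n (a * b * S) ≤ coeff n (b * S) := by
  rw [mul_assoc, cmul]
  calc ∑ j ∈ range (n + 1), coeff j a * coeff (n - j) (b * S)
      ≤ ∑ j ∈ range (n + 1), coeff j a * coeff n (b * S) := by
        apply sum_le_sum
        intro j _
        exact mul_le_mul_of_nonneg_left (cS_mono hb (Nat.sub_le _ _)) (ha.1 j)
    _ = coeff n (a * S) * coeff n (b * S) := by rw [← sum_mul, cS a]
    _ ≤ 1 * coeff n (b * S) := by
        apply mul_le_mul_of_nonneg_right (ha.2 n)
        exact (hb.mul NN_S) n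
    _ = _ := one_mul _

lemma SP.mul {a b : PS} (ha : SP a) (hb : SP b) : SP (a * b) :=
  ⟨ha.1.mul hb.1, fun n => (SP_mul_le ha hb.1 n).trans (hb.2 n)⟩

lemma SP_one : SP 1 := ⟨NN_one, fun n => by rw [one_mul, coeff_S]⟩

lemma SP.pow {a : PS} (ha : SP a) (k : ℕ) : SP (a ^ k) := by
  induction k with
  | zero => rw [pow_zero]; exact SP_one
  | succ k ih => rw [pow_succ]; exact ih.mul ha

/-- if `u` has coefficients in `[0,1]` and `a` is sub-probability then `a*u` too -/
lemma SP_mul_coeff_le {a u : PS} (ha : SP a) (hu : ∀ n, coeff n u ≤ 1) (n : ℕ) :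
    coeff n (a * u) ≤ 1 := by
  rw [cmul]
  calc ∑ j ∈ range (n + 1), coeff j a * coeff (n - j) u
      ≤ ∑ j ∈ range (n + 1), coeff j a := by
        apply sum_le_sum
        intro j _
        have := mul_le_mul_of_nonneg_left (hu (n - j)) (ha.1 j)
        linarith
    _ = coeff n (a * S) := (cS a n).symm
    _ ≤ 1 := ha.2 n

/-- tail series -/
noncomputable def T (a : PS) : PS := (1 - a) * S

lemma coeff_T (a : PS) (n : ℕ) : coeff n (T a) = 1 - coeff n (a * S) := by
  unfold T
  rw [sub_mul, one_mul, map_sub, coeff_S]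

lemma NN_T {a : PS} (ha : SP a) : NN (T a) := fun n => by
  rw [coeff_T]; linarith [ha.2 n]

lemma T_anti {a : PS} (ha : NN a) {m n : ℕ} (h : m ≤ n) : coeff n (T a) ≤ coeff m (T a) := by
  rw [coeff_T, coeff_T]; linarith [cS_mono ha h]

noncomputable def D (a : PS) (N : ℕ) : ℝ := ∑ n ∈ range N, coeff n (T a)

lemma D_nonneg {a : PS} (ha : SP a) (N : ℕ) : 0 ≤ D a N := sum_nonneg fun n _ => NN_T ha n

lemma D_mono {a : PS} (ha : SP a) {m n : ℕ} (h : m ≤ n) : D a m ≤ D a n := by
  unfold D
  apply sum_le_sum_of_subset_of_nonneg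
  · intro j hj; rw [mem_range] at *; omega
  · intro j _ _; exact NN_T ha j

lemma T_mul (a b : PS) : T (a * b) = T a + a * T b := by
  unfold T; ring

lemma D_mul {a b : PS} (ha : SP a) (hb : SP b) (N : ℕ) : D (a * b) N ≤ D a N + D b N := by
  unfold D
  rcases N with _ | N
  · simp
  rw [T_mul]
  have h1 : ∑ n ∈ range (N + 1), coeff n (T a + a * T b) =
      ∑ n ∈ range (N + 1), coeff n (T a) + coeff N (a * T b * S) := by
    rw [cS, ← sum_add_distrib]
    apply sum_congr rfl
    intro n _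
    rw [map_add]
  rw [h1]
  have h2 := SP_mul_le ha (NN_T hb) N
  rw [cS (T b) N] at h2
  linarith

lemma D_one (N : ℕ) : D 1 N = 0 := by
  unfold D
  apply sum_eq_zero
  intro n _
  rw [coeff_T, one_mul, coeff_S, sub_self]

lemma D_pow {a : PS} (ha : SP a) (N k : ℕ) : D (a ^ k) N ≤ k * D a N := by
  induction k with
  | zero => rw [pow_zero, D_one]; simp
  | succ k ih =>
    rw [pow_succ]
    have := D_mul (ha.pow k) ha N
    push_cast
    linarith

lemma tail_le {a : PS} (ha : SP a) (N : ℕ) : N * coeff N (T a) ≤ D a N := by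
  unfold D
  calc (N : ℝ) * coeff N (T a) = ∑ _n ∈ range N, coeff N (T a) := by
        rw [sum_const, card_range, nsmul_eq_mul]
    _ ≤ _ := by
        apply sum_le_sum
        intro n hn
        exact T_anti ha.1 (mem_range.1 hn).le

/-- geometric sum -/
noncomputable def geo (a : PS) (n : ℕ) : PS := ∑ j ∈ range n, a ^ j

lemma geo_mul (a : PS) (n : ℕ) : geo a n * (1 - a) = 1 - a ^ n := by
  unfold geo
  have := geom_sum_mul a n
  have h : (∑ j ∈ range n, a ^ j) * (1 - a) = -((∑ j ∈ range n, a ^ j) * (a - 1)) := by ring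
  rw [h, this]; ring

lemma NN_geo {a : PS} (ha : NN a) (n : ℕ) : NN (geo a n) :=
  NN.sum _ _ fun j _ => ha.pow j

/-- hitting exactly `N` within `n` steps implies that the `n`-th position is beyond `N` -/
lemma hit_le_tail {P F : PS} (hP : SP P) (hF : SP F) (hF0 : coeff 0 F = 0) (n N : ℕ) :
    coeff N (P * geo F n) ≤ coeff N (T (P * F ^ n)) := by
  have h1 : P * geo F n * T F = P * S - P * F ^ n * S := by
    unfold T
    have := geo_mul F n
    calc P * geo F n * ((1 - F) * S) = P * (geo F n * (1 - F)) * S := by ring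
      _ = _ := by rw [this]; ring
  have h2 : coeff N (P * geo F n) ≤ coeff N (P * geo F n * T F) := by
    rw [cmul (P * geo F n) (T F) N]
    have h3 : coeff (N - N) (T F) = 1 := by
      rw [Nat.sub_self, coeff_T, cS]
      simp [hF0]
    have h4 := single_le_sum (s := range (N + 1))
      (f := fun j => coeff j (P * geo F n) * coeff (N - j) (T F))
      (fun j _ => mul_nonneg ((hP.1.mul (NN_geo hF.1 n)) j) (NN_T hF _)) (self_mem_range_succ N)
    simp only [h3, mul_one] at h4
    exact h4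
  refine h2.trans ?_
  rw [h1, map_sub, coeff_T]
  linarith [hP.2 N]

/-! ### the norm -/

noncomputable def nrm (N : ℕ) (a : PS) : ℝ := ∑ j ∈ range (N + 1), |coeff j a|

noncomputable def absS (a : PS) : PS := PowerSeries.mk fun j => |coeff j a|

lemma NN_absS (a : PS) : NN (absS a) := fun n => by simp [absS]

lemma nrm_eq (N : ℕ) (a : PS) : nrm N a = coeff N (absS a * S) := by
  rw [cS]; simp [nrm, absS]

lemma nrm_nonneg (N : ℕ) (a : PS) : 0 ≤ nrm N a := sum_nonneg fun _ _ => abs_nonneg _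

lemma nrm_mul (N : ℕ) (a b : PS) : nrm N (a * b) ≤ nrm N a * nrm N b := by
  have h1 : nrm N (a * b) ≤ coeff N (absS a * absS b * S) := by
    rw [cS]
    unfold nrm
    apply sum_le_sum
    intro n _
    rw [cmul, cmul]
    refine (abs_sum_le_sum_abs _ _).trans ?_
    apply sum_le_sum
    intro j _
    rw [abs_mul]
    simp [absS]
  refine h1.trans ?_
  rw [mul_assoc, cmul, nrm_eq N a, nrm_eq N b, cS (absS a), sum_mul]
  apply sum_le_sum
  intro j _
  exact mul_le_mul_of_nonneg_left (cS_mono (NN_absS b) (Nat.sub_le _ _)) (NN_absS a j)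

lemma nrm_add (N : ℕ) (a b : PS) : nrm N (a + b) ≤ nrm N a + nrm N b := by
  unfold nrm
  rw [← sum_add_distrib]
  apply sum_le_sum
  intro j _
  rw [map_add]
  exact abs_add_le _ _

lemma nrm_sub (N : ℕ) (a b : PS) : nrm N (a - b) ≤ nrm N a + nrm N b := by
  unfold nrm
  rw [← sum_add_distrib]
  apply sum_le_sum
  intro j _
  rw [map_sub]
  exact abs_sub _ _

lemma nrm_sum {ι : Type*} (N : ℕ) (s : Finset ι) (a : ι → PS) :
    nrm N (∑ i ∈ s, a i) ≤ ∑ i ∈ s, nrm N (a i) := by
  unfold nrm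
  rw [sum_comm]
  apply sum_le_sum
  intro j _
  rw [map_sum]
  exact abs_sum_le_sum_abs _ _

lemma nrm_C_mul (N : ℕ) (c : ℝ) (a : PS) : nrm N (C c * a) = |c| * nrm N a := by
  unfold nrm
  rw [mul_sum]
  apply sum_congr rfl
  intro j _
  rw [coeff_C_mul, abs_mul]

lemma nrm_SP {a : PS} (ha : SP a) (N : ℕ) : nrm N a ≤ 1 := by
  have : nrm N a = coeff N (a * S) := by
    rw [cS]
    unfold nrm
    apply sum_congr rfl
    intro j _
    exact abs_of_nonneg (ha.1 j)
  rw [this]; exact ha.2 N

lemma nrm_one (N : ℕ) : nrm N 1 ≤ 1 := nrm_SP SP_one N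

lemma nrm_pow_le (N : ℕ) {a : PS} (ha : nrm N a ≤ 1) (k : ℕ) : nrm N (a ^ k) ≤ 1 := by
  induction k with
  | zero => rw [pow_zero]; exact nrm_one N
  | succ k ih =>
    rw [pow_succ]
    refine (nrm_mul N _ _).trans ?_
    exact mul_le_one₀ ih (nrm_nonneg _ _) ha

lemma coeff_mul_le_nrm (N : ℕ) (a b : PS) (hb : ∀ n, |coeff n b| ≤ 1) :
    |coeff N (a * b)| ≤ nrm N a := by
  rw [cmul]
  refine (abs_sum_le_sum_abs _ _).trans ?_
  unfold nrm
  apply sum_le_sum
  intro j _
  rw [abs_mul]
  have := mul_le_mul_of_nonneg_left (hb (N - j)) (abs_nonneg (coeff j a))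
  linarith

/-! ### renewal series -/

noncomputable def ren (F : PS) : PS := (1 - F)⁻¹

lemma cc_one_sub {F : PS} (hF0 : coeff 0 F = 0) : constantCoeff (1 - F) ≠ 0 := by
  rw [← coeff_zero_eq_constantCoeff_apply, map_sub, hF0]
  simp

lemma ren_mul {F : PS} (hF0 : coeff 0 F = 0) : ren F * (1 - F) = 1 := by
  unfold ren
  rw [mul_comm]
  exact PowerSeries.mul_inv_cancel _ (cc_one_sub hF0)

lemma ren_eq {F : PS} (hF0 : coeff 0 F = 0) : ren F = 1 + F * ren F := by
  have := ren_mul hF0
  calc ren F = ren F * (1 - F) + F * ren F := by ring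
    _ = _ := by rw [this]

lemma ren_zero {F : PS} (hF0 : coeff 0 F = 0) : coeff 0 (ren F) = 1 := by
  rw [ren_eq hF0, map_add, cmul]
  simp [hF0]

lemma NN_ren {F : PS} (hF : NN F) (hF0 : coeff 0 F = 0) : NN (ren F) := by
  intro n
  induction n using Nat.strong_induction_on with
  | _ n ih =>
    rw [ren_eq hF0, map_add, cmul]
    apply add_nonneg (NN_one n)
    apply sum_nonneg
    intro j hj
    rcases Nat.eq_zero_or_pos j with rfl | hj0
    · rw [hF0, zero_mul]
    · have := mem_range.1 hj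
      exact mul_nonneg (hF j) (ih (n - j) (by omega))

lemma ren_mul_T {F : PS} (hF0 : coeff 0 F = 0) : ren F * T F = S := by
  unfold T
  rw [← mul_assoc, ren_mul hF0, one_mul]

lemma T_zero {F : PS} (hF0 : coeff 0 F = 0) : coeff 0 (T F) = 1 := by
  rw [coeff_T, cS]; simp [hF0]

lemma ren_le_one {F : PS} (hF : SP F) (hF0 : coeff 0 F = 0) (n : ℕ) : coeff n (ren F) ≤ 1 := by
  have h1 : coeff n (ren F * T F) = 1 := by rw [ren_mul_T hF0, coeff_S]
  rw [cmul] at h1
  have h4 := single_le_sum (s := range (n + 1))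
    (f := fun j => coeff j (ren F) * coeff (n - j) (T F))
    (fun j _ => mul_nonneg ((NN_ren hF.1 hF0) j) (NN_T hF _)) (self_mem_range_succ n)
  simp only [Nat.sub_self, T_zero hF0, mul_one] at h4
  linarith

lemma ren_abs_le {F : PS} (hF : SP F) (hF0 : coeff 0 F = 0) (n : ℕ) : |coeff n (ren F)| ≤ 1 := by
  rw [abs_of_nonneg (NN_ren hF.1 hF0 n)]; exact ren_le_one hF hF0 n

lemma ren_geo {F : PS} (hF0 : coeff 0 F = 0) (n : ℕ) : ren F = geo F n + F ^ n * ren F := by
  have h1 := ren_mul hF0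
  have h2 := geo_mul F n
  calc ren F = (1 - F ^ n) * ren F + F ^ n * ren F := by ring
    _ = geo F n * (1 - F) * ren F + F ^ n * ren F := by rw [h2]
    _ = geo F n * (ren F * (1 - F)) + F ^ n * ren F := by ring
    _ = _ := by rw [h1, mul_one]

/-- near invariance -/
lemma near_inv {P F F' : PS} (hP : SP P) (hF : SP F) (hF0 : coeff 0 F = 0) (hF' : SP F')
    (hF'0 : coeff 0 F' = 0) (n l N : ℕ) (κ : ℝ) (hκ : nrm N ((F - F') * F ^ n) ≤ κ) :
    coeff N ((1 - F' ^ l) * (P * ren F)) ≤
      coeff N (T (P * F ^ n)) + coeff N (T (P * F ^ n * F' ^ l)) + l * κ := by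
  have hren := ren_geo hF0 n
  have h1 : (1 - F') * ren F = 1 + (F - F') * ren F := by
    have := ren_mul hF0
    calc (1 - F') * ren F = ren F * (1 - F) + (F - F') * ren F := by ring
      _ = _ := by rw [this]
  have hg := geo_mul F' l
  have key : (1 - F' ^ l) * (P * ren F) = (1 - F' ^ l) * (P * geo F n) +
      P * F ^ n * geo F' l + geo F' l * ((F - F') * F ^ n * (P * ren F)) := by
    calc (1 - F' ^ l) * (P * ren F) = (1 - F' ^ l) * (P * (geo F n + F ^ n * ren F)) := by
          rw [← hren]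
      _ = (1 - F' ^ l) * (P * geo F n) + (1 - F' ^ l) * (P * F ^ n * ren F) := by ring
      _ = (1 - F' ^ l) * (P * geo F n) + geo F' l * (1 - F') * (P * F ^ n * ren F) := by rw [hg]
      _ = (1 - F' ^ l) * (P * geo F n) + geo F' l * (P * F ^ n) * ((1 - F') * ren F) := by ring
      _ = (1 - F' ^ l) * (P * geo F n) + geo F' l * (P * F ^ n) * (1 + (F - F') * ren F) := by
          rw [h1]
      _ = _ := by ring
  rw [key, map_add, map_add]
  have hNNa : NN (P * geo F n) := hP.1.mul (NN_geo hF.1 n)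
  have t1 : coeff N ((1 - F' ^ l) * (P * geo F n)) ≤ coeff N (T (P * F ^ n)) := by
    rw [sub_mul, one_mul, map_sub]
    have := hit_le_tail hP hF hF0 n N
    have h2 := ((hF'.1.pow l).mul hNNa) N
    linarith
  have t2 : coeff N (P * F ^ n * geo F' l) ≤ coeff N (T (P * F ^ n * F' ^ l)) :=
    hit_le_tail (hP.mul (hF.pow n)) hF' hF'0 l N
  have t3 : coeff N (geo F' l * ((F - F') * F ^ n * (P * ren F))) ≤ l * κ := by
    have e : geo F' l * ((F - F') * F ^ n * (P * ren F)) =
        ∑ i ∈ range l, ((F - F') * F ^ n) * (F' ^ i * P * ren F) := by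
      unfold geo
      rw [sum_mul]
      apply sum_congr rfl
      intro i _
      ring
    rw [e, map_sum]
    calc ∑ i ∈ range l, coeff N (((F - F') * F ^ n) * (F' ^ i * P * ren F))
        ≤ ∑ i ∈ range l, κ := by
          apply sum_le_sum
          intro i _
          refine (le_abs_self _).trans ((coeff_mul_le_nrm N _ _ ?_).trans hκ)
          intro k
          rw [abs_of_nonneg]
          · exact SP_mul_coeff_le ((hF'.pow i).mul hP) (ren_le_one hF hF0) k
          · exact (((hF'.1.pow i).mul hP.1).mul (NN_ren hF.1 hF0)) k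
      _ = l * κ := by rw [sum_const, card_range, nsmul_eq_mul]
  linarith

end H19Dav
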