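import Mathlib
import Pool.Agent.Helpers.H19DavA

/-! Binomial smoothing and first passage polynomials. -/

open PowerSeries Finset

namespace H19Dav

lemma weighted_binom {R : Type*} [CommRing R] (x y : R) (m : ℕ) :
    ∑ k ∈ range (m + 2), (k : R) * ((m + 1).choose k : R) * x ^ k * y ^ (m + 1 - k) =
      (m + 1 : R) * x * (x + y) ^ m := by
  rw [sum_range_succ', add_pow, mul_sum]
  simp only [Nat.cast_zero, zero_mul, add_zero]
  apply sum_congr rfl
  intro j _
  have h1 : ((m + 1).choose (j + 1) : R) * ((j + 1 : ℕ) : R) = ((m + 1 : ℕ) : R) * (m.choose j : R) := by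
    rw [← Nat.cast_mul, ← Nat.cast_mul]
    congr 1
    exact (Nat.add_one_mul_choose_eq m j).symm
  have h2 : m + 1 - (j + 1) = m - j := by omega
  rw [h2, pow_succ]
  push_cast at h1 ⊢
  linear_combination (x ^ j * x * y ^ (m - j)) * h1

lemma binom_var (m : ℕ) (q : ℝ) :
    ∑ k ∈ range (m + 1), ((m : ℝ) * q - k) ^ 2 * ((m.choose k : ℝ) * q ^ k * (1 - q) ^ (m - k)) =
      m * q * (1 - q) := by
  have h := congrArg (Polynomial.eval q) (bernsteinPolynomial.variance (R := ℝ) m)
  simp only [Polynomial.eval_finsetSum, Polynomial.eval_mul, Polynomial.eval_pow,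
    Polynomial.eval_sub, bernsteinPolynomial, Polynomial.eval_X, Polynomial.eval_one,
    Polynomial.eval_natCast, nsmul_eq_mul] at h
  exact h

lemma binom_one (m : ℕ) (q : ℝ) :
    ∑ k ∈ range (m + 1), ((m.choose k : ℝ) * q ^ k * (1 - q) ^ (m - k)) = 1 := by
  have h : ∑ k ∈ range (m + 1), ((m.choose k : ℝ) * q ^ k * (1 - q) ^ (m - k)) =
      (q + (1 - q)) ^ m := by
    rw [add_pow]
    apply sum_congr rfl
    intro k _
    ring
  rw [h, add_sub_cancel, one_pow]

lemma binom_abs (m : ℕ) (q : ℝ) (h0 : 0 ≤ q) (h1 : q ≤ 1) :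
    ∑ k ∈ range (m + 1), |(k : ℝ) - m * q| * ((m.choose k : ℝ) * q ^ k * (1 - q) ^ (m - k)) ≤
      Real.sqrt (m * q * (1 - q)) := by
  apply Real.le_sqrt_of_sq_le
  have hb : ∀ k, 0 ≤ ((m.choose k : ℝ) * q ^ k * (1 - q) ^ (m - k)) := by
    intro k
    have : 0 ≤ 1 - q := by linarith
    positivity
  have hcs := sum_mul_sq_le_sq_mul_sq (range (m + 1))
    (fun k => |(k : ℝ) - m * q| * Real.sqrt ((m.choose k : ℝ) * q ^ k * (1 - q) ^ (m - k)))
    (fun k => Real.sqrt ((m.choose k : ℝ) * q ^ k * (1 - q) ^ (m - k)))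
  have e1 : ∑ k ∈ range (m + 1), |(k : ℝ) - m * q| * Real.sqrt ((m.choose k : ℝ) * q ^ k *
      (1 - q) ^ (m - k)) * Real.sqrt ((m.choose k : ℝ) * q ^ k * (1 - q) ^ (m - k)) =
      ∑ k ∈ range (m + 1), |(k : ℝ) - m * q| * ((m.choose k : ℝ) * q ^ k * (1 - q) ^ (m - k)) := by
    apply sum_congr rfl
    intro k _
    rw [mul_assoc, Real.mul_self_sqrt (hb k)]
  have e2 : ∑ k ∈ range (m + 1), (|(k : ℝ) - m * q| * Real.sqrt ((m.choose k : ℝ) * q ^ k *
      (1 - q) ^ (m - k))) ^ 2 = m * q * (1 - q) := by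
    rw [← binom_var m q]
    apply sum_congr rfl
    intro k _
    rw [mul_pow, Real.sq_sqrt (hb k), sq_abs]
    ring
  have e3 : ∑ k ∈ range (m + 1), (Real.sqrt ((m.choose k : ℝ) * q ^ k *
      (1 - q) ^ (m - k))) ^ 2 = 1 := by
    refine Eq.trans (sum_congr rfl ?_) (binom_one m q)
    intro k _
    rw [Real.sq_sqrt (hb k)]
  rw [e1, e2, e3, mul_one] at hcs
  exact hcs

/-- smoothing: the difference `(A-B) (qA+(1-q)B)^n` is small -/
lemma binom_nrm (N n : ℕ) (A B : PS) (hA : nrm N A ≤ 1) (hB : nrm N B ≤ 1) (q : ℝ)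
    (h0 : 0 < q) (h1 : q < 1) :
    nrm N (C q * (A - B) * (C q * A + C (1 - q) * B) ^ n) ≤ Real.sqrt (q / ((n + 1) * (1 - q))) := by
  have h1' : 0 < 1 - q := by linarith
  have hn : (0 : ℝ) < (n : ℝ) + 1 := by positivity
  -- identity
  have hid : C (((n : ℝ) + 1) * q * (1 - q)) * ((A - B) * (C q * A + C (1 - q) * B) ^ n) =
      ∑ k ∈ range (n + 2), C (((k : ℝ) - ((n + 1 : ℕ) : ℝ) * q) *
        (((n + 1).choose k : ℝ) * q ^ k * (1 - q) ^ (n + 1 - k))) * (A ^ k * B ^ (n + 1 - k)) := by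
    have e1 := weighted_binom (C q * A) (C (1 - q) * B) n
    have e2 := add_pow (C q * A) (C (1 - q) * B) (n + 1)
    have e3 : ∀ k : ℕ, C (((k : ℝ) - ((n + 1 : ℕ) : ℝ) * q) *
        (((n + 1).choose k : ℝ) * q ^ k * (1 - q) ^ (n + 1 - k))) * (A ^ k * B ^ (n + 1 - k)) =
        (k : PS) * ((n + 1).choose k : PS) * (C q * A) ^ k * (C (1 - q) * B) ^ (n + 1 - k) -
        C (((n + 1 : ℕ) : ℝ) * q) * ((C q * A) ^ k * (C (1 - q) * B) ^ (n + 1 - k) *
          ((n + 1).choose k : PS)) := by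
      intro k
      simp only [map_mul, map_sub, map_pow, map_natCast, mul_pow]
      ring
    rw [sum_congr rfl (fun k _ => e3 k), sum_sub_distrib, ← mul_sum, ← e2, e1]
    have e4 : C (1 - q) = (1 : PS) - C q := by rw [map_sub, map_one]
    have e5 : C (((n + 1 : ℕ) : ℝ)) = ((n : PS) + 1) := by
      rw [map_natCast]; push_cast; ring
    have e6 : C (((n : ℝ) + 1) * q * (1 - q)) = ((n : PS) + 1) * C q * (1 - C q) := by
      have : ((n : ℝ) + 1) = ((n + 1 : ℕ) : ℝ) := by push_cast; ring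
      rw [this, map_mul, map_mul, e5, e4]
    rw [e6, map_mul, e5, e4]
    ring
  have hbd : nrm N (C (((n : ℝ) + 1) * q * (1 - q)) * ((A - B) * (C q * A + C (1 - q) * B) ^ n)) ≤
      Real.sqrt (((n : ℝ) + 1) * q * (1 - q)) := by
    rw [hid]
    refine (nrm_sum N _ _).trans ?_
    have hb := binom_abs (n + 1) q h0.le h1.le
    have e7 : ((n + 1 : ℕ) : ℝ) = (n : ℝ) + 1 := by push_cast; ring
    rw [e7] at hb
    refine le_trans ?_ hb
    apply sum_le_sum
    intro k _
    rw [nrm_C_mul, abs_mul, e7]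
    have e8 : 0 ≤ (((n + 1).choose k : ℝ) * q ^ k * (1 - q) ^ (n + 1 - k)) := by positivity
    rw [abs_of_nonneg e8]
    have e9 : nrm N (A ^ k * B ^ (n + 1 - k)) ≤ 1 :=
      (nrm_mul N _ _).trans (mul_le_one₀ (nrm_pow_le N hA k) (nrm_nonneg _ _) (nrm_pow_le N hB _))
    have e10 : 0 ≤ |(k : ℝ) - (n + 1) * q| * (((n + 1).choose k : ℝ) * q ^ k * (1 - q) ^ (n + 1 - k)) := by
      positivity
    calc _ ≤ |(k : ℝ) - (n + 1) * q| * (((n + 1).choose k : ℝ) * q ^ k * (1 - q) ^ (n + 1 - k)) * 1 :=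
          mul_le_mul_of_nonneg_left e9 e10
      _ = _ := mul_one _
  rw [nrm_C_mul, abs_of_pos (by positivity)] at hbd
  rw [mul_assoc, nrm_C_mul, abs_of_pos h0]
  set Y := nrm N ((A - B) * (C q * A + C (1 - q) * B) ^ n) with hY
  have hY0 : 0 ≤ Y := nrm_nonneg _ _
  apply Real.le_sqrt_of_sq_le
  have hZ : 0 < ((n : ℝ) + 1) * q * (1 - q) := by positivity
  have h2 : (((n : ℝ) + 1) * q * (1 - q) * Y) ^ 2 ≤ ((n : ℝ) + 1) * q * (1 - q) := by
    have := pow_le_pow_left₀ (by positivity) hbd 2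
    rwa [Real.sq_sqrt hZ.le] at this
  rw [le_div_iff₀ (by positivity)]
  have h3 : ((n : ℝ) + 1) * q * (1 - q) * Y ^ 2 ≤ 1 := by
    have e : (((n : ℝ) + 1) * q * (1 - q) * Y) ^ 2 =
        (((n : ℝ) + 1) * q * (1 - q)) * (((n : ℝ) + 1) * q * (1 - q) * Y ^ 2) := by ring
    rw [e] at h2
    have := le_of_mul_le_mul_left (h2.trans (le_of_eq (mul_one _).symm)) hZ
    exact this
  calc (q * Y) ^ 2 * ((n + 1) * (1 - q)) = q * (((n : ℝ) + 1) * q * (1 - q) * Y ^ 2) := by ring
    _ ≤ q * 1 := mul_le_mul_of_nonneg_left h3 h0.le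
    _ = q := mul_one _

/-! ### first passage -/

/-- truncated renewal series -/
noncomputable def Tr (F : PS) (x : ℕ) : PS := ∑ y ∈ range x, C (coeff y (ren F)) * X ^ y

lemma coeff_Tr (F : PS) (x j : ℕ) : coeff j (Tr F x) = if j < x then coeff j (ren F) else 0 := by
  unfold Tr
  rw [map_sum]
  have : ∀ y ∈ range x, coeff j (C (coeff y (ren F)) * X ^ y) =
      if y = j then coeff j (ren F) else 0 := by
    intro y _
    rw [coeff_C_mul, coeff_X_pow]
    by_cases h : j = y
    · subst h; simp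
    · rw [if_neg h, if_neg (fun h' => h h'.symm), mul_zero]
  rw [sum_congr rfl this, sum_ite_eq']
  simp

lemma NN_Tr {F : PS} (hF : NN F) (hF0 : coeff 0 F = 0) (x : ℕ) : NN (Tr F x) := by
  intro j
  rw [coeff_Tr]
  split_ifs
  · exact NN_ren hF hF0 j
  · exact le_rfl

/-- first passage series over `x` -/
noncomputable def Bx (F : PS) (x : ℕ) : PS := 1 - (1 - F) * Tr F x

variable {F : PS} (hF : SP F) (hF0 : coeff 0 F = 0) (w : ℕ) (hw : 1 ≤ w)
  (hsupp : ∀ j, w < j → coeff j F = 0) (htot : coeff w (F * S) = 1)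

include hF hF0

lemma coeff_Bx_lt (x j : ℕ) (hj : j < x) : coeff j (Bx F x) = 0 := by
  have h1 : coeff j ((1 - F) * Tr F x) = coeff j ((1 - F) * ren F) := by
    rw [cmul, cmul]
    apply sum_congr rfl
    intro i _
    rw [coeff_Tr, if_pos (by omega)]
  unfold Bx
  rw [map_sub, h1, mul_comm, ren_mul hF0, sub_self]

lemma coeff_Bx_ge (x j : ℕ) (hj : x ≤ j) (hx : 1 ≤ x) : coeff j (Bx F x) = coeff j (F * Tr F x) := by
  have : Bx F x = (1 - Tr F x) + F * Tr F x := by unfold Bx; ring
  rw [this, map_add, map_sub, coeff_Tr, if_neg (by omega), coeff_one, if_neg (by omega)]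
  ring

lemma NN_Bx (x : ℕ) : NN (Bx F x) := by
  intro j
  rcases Nat.eq_zero_or_pos x with rfl | hx
  · have : Bx F 0 = 1 := by unfold Bx Tr; simp
    rw [this]; exact NN_one j
  rcases Nat.lt_or_ge j x with h | h
  · rw [coeff_Bx_lt hF hF0 x j h]
  · rw [coeff_Bx_ge hF hF0 x j h hx]
    exact (hF.1.mul (NN_Tr hF.1 hF0 x)) j

include hw hsupp

lemma coeff_Bx_far (x j : ℕ) (hj : x + w ≤ j) : coeff j (Bx F x) = 0 := by
  rcases Nat.eq_zero_or_pos x with rfl | hx
  · have : Bx F 0 = 1 := by unfold Bx Tr; simp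
    rw [this, coeff_one, if_neg (by omega)]
  rw [coeff_Bx_ge hF hF0 x j (by omega) hx, cmul]
  apply sum_eq_zero
  intro i _
  rw [coeff_Tr]
  by_cases h : j - i < x
  · rw [hsupp i (by omega), zero_mul]
  · rw [if_neg h, mul_zero]

include htot

omit hF hF0 hw in
lemma T_far (n : ℕ) (hn : w ≤ n) : coeff n (T F) = 0 := by
  rw [coeff_T, sub_eq_zero, ← htot, cS, cS]
  rw [← sum_range_add_sum_Ico _ (show w + 1 ≤ n + 1 by omega)]
  have : ∑ k ∈ Ico (w + 1) (n + 1), coeff k F = 0 := by
    apply sum_eq_zero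
    intro k hk
    exact hsupp k (by have := mem_Ico.1 hk; omega)
  rw [this, add_zero]

lemma T_Bx (x : ℕ) : T (Bx F x) = Tr F x * T F := by
  unfold T Bx
  ring

lemma T_Bx_far (x n : ℕ) (hn : x + w ≤ n + 1) : coeff n (T (Bx F x)) = 0 := by
  rw [T_Bx hF hF0 w hw hsupp htot, cmul]
  apply sum_eq_zero
  intro j hj
  rw [coeff_Tr]
  by_cases h : j < x
  · rw [T_far w hsupp htot (n - j) (by omega), mul_zero]
  · rw [if_neg h, zero_mul]

lemma Bx_total (x : ℕ) : coeff (x + w) (Bx F x * S) = 1 := by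
  have := T_Bx_far hF hF0 w hw hsupp htot x (x + w) (by omega)
  rw [coeff_T] at this
  linarith

/-- the mean step `m' = D F w` controls the expected number of steps to pass `x` -/
lemma Tr_total (x : ℕ) : D F w * nrm (x + w) (Tr F x) ≤ x + w := by
  have hTr : nrm (x + w) (Tr F x) = coeff (x + w) (Tr F x * S) := by
    rw [cS]
    unfold nrm
    apply sum_congr rfl
    intro j _
    exact abs_of_nonneg (NN_Tr hF.1 hF0 x j)
  -- D (Bx) (x+w) computed in two ways
  have h1 : D (Bx F x) (x + w) ≤ x + w := by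
    unfold D
    calc ∑ n ∈ range (x + w), coeff n (T (Bx F x)) ≤ ∑ n ∈ range (x + w), (1 : ℝ) := by
          apply sum_le_sum
          intro n _
          rw [coeff_T]
          have := ((NN_Bx hF hF0 x).mul NN_S) n
          linarith
      _ = x + w := by simp
  have h2 : D (Bx F x) (x + w) = coeff (x + w) (Tr F x * T F * S) := by
    unfold D
    rw [cS, sum_range_succ, T_Bx hF hF0 w hw hsupp htot]
    have := T_Bx_far hF hF0 w hw hsupp htot x (x + w) (by omega)
    rw [T_Bx hF hF0 w hw hsupp htot] at this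
    rw [this, add_zero]
  have h3 : coeff (x + w) (Tr F x * T F * S) = D F w * coeff (x + w) (Tr F x * S) := by
    rw [mul_assoc, cmul, cS (Tr F x), mul_sum]
    apply sum_congr rfl
    intro j hj
    rw [coeff_Tr]
    by_cases h : j < x
    · have h4 : coeff (x + w - j) (T F * S) = D F w := by
        rw [cS]
        unfold D
        rw [← sum_range_add_sum_Ico _ (show w ≤ x + w - j + 1 by omega)]
        have : ∑ k ∈ Ico w (x + w - j + 1), coeff k (T F) = 0 := by
          apply sum_eq_zero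
          intro k hk
          exact T_far w hsupp htot k (mem_Ico.1 hk).1
        rw [this, add_zero]
      rw [h4]; ring
    · rw [if_neg h]; ring
  rw [hTr, ← h3, ← h2]
  exact h1

/-- replacing the first passage series by a deterministic shift -/
lemma Bx_shift (x N : ℕ) (P : PS) (e : ℝ)
    (hP : ∀ o, o < w → nrm N ((1 - X ^ o) * P) ≤ e) :
    nrm N ((Bx F x - X ^ x) * P) ≤ e := by
  have hdec : Bx F x = ∑ o ∈ range w, C (coeff (x + o) (Bx F x)) * X ^ (x + o) := by
    ext j
    rw [map_sum]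
    rcases Nat.lt_or_ge j x with h | h
    · rw [coeff_Bx_lt hF hF0 x j h]
      symm
      apply sum_eq_zero
      intro o _
      rw [coeff_C_mul, coeff_X_pow, if_neg (by omega), mul_zero]
    · rcases Nat.lt_or_ge j (x + w) with h' | h'
      · rw [sum_eq_single (j - x)]
        · rw [coeff_C_mul, coeff_X_pow, if_pos (by omega), mul_one]
          congr 1
          congr 1
          omega
        · intro o _ ho
          rw [coeff_C_mul, coeff_X_pow, if_neg (by omega), mul_zero]
        · intro hcon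
          exfalso
          apply hcon
          rw [mem_range]; omega
      · rw [coeff_Bx_far hF hF0 w hw hsupp x j h']
        symm
        apply sum_eq_zero
        intro o ho
        have := mem_range.1 ho
        rw [coeff_C_mul, coeff_X_pow, if_neg (by omega), mul_zero]
  have hsum : ∑ o ∈ range w, coeff (x + o) (Bx F x) = 1 := by
    have h1 := Bx_total hF hF0 w hw hsupp htot x
    rw [cS, sum_range_succ, coeff_Bx_far hF hF0 w hw hsupp x (x + w) le_rfl, add_zero,
      sum_range_add] at h1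
    have h2 : ∑ j ∈ range x, coeff j (Bx F x) = 0 := by
      apply sum_eq_zero
      intro j hj
      exact coeff_Bx_lt hF hF0 x j (mem_range.1 hj)
    rw [h2, zero_add] at h1
    exact h1
  have hX : X ^ x * P = ∑ o ∈ range w, C (coeff (x + o) (Bx F x)) * (X ^ x * P) := by
    rw [← sum_mul, ← map_sum, hsum, map_one, one_mul]
  have key : (Bx F x - X ^ x) * P =
      ∑ o ∈ range w, C (coeff (x + o) (Bx F x)) * (C (-1) * (X ^ x * ((1 - X ^ o) * P))) := by
    rw [sub_mul, hX, ]
    conv_lhs => rw [hdec]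
    rw [sum_mul, ← sum_sub_distrib]
    apply sum_congr rfl
    intro o _
    have e1 : C (-1 : ℝ) = (-1 : PS) := by rw [map_neg, map_one]
    have e2 : coeff (x + o) (∑ o ∈ range w, C (coeff (x + o) (Bx F x)) * X ^ (x + o)) =
        coeff (x + o) (Bx F x) := by rw [← hdec]
    rw [e1, pow_add]
    simp only [← hdec]
    ring
  rw [key]
  refine (nrm_sum N _ _).trans ?_
  calc ∑ o ∈ range w, nrm N (C (coeff (x + o) (Bx F x)) * (C (-1) * (X ^ x * ((1 - X ^ o) * P))))
      ≤ ∑ o ∈ range w, coeff (x + o) (Bx F x) * e := by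
        apply sum_le_sum
        intro o ho
        rw [nrm_C_mul, nrm_C_mul, abs_of_nonneg (NN_Bx hF hF0 x _)]
        apply mul_le_mul_of_nonneg_left _ (NN_Bx hF hF0 x _)
        rw [abs_neg, abs_one, one_mul]
        have hXn : nrm N ((X : PS) ^ x) ≤ 1 := by
          unfold nrm
          calc ∑ j ∈ range (N + 1), |coeff j ((X : PS) ^ x)|
              = ∑ j ∈ range (N + 1), (if j = x then (1 : ℝ) else 0) := by
                apply sum_congr rfl
                intro j _
                rw [coeff_X_pow]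
                split_ifs <;> simp
            _ ≤ 1 := by
                rw [sum_ite_eq']
                split_ifs <;> norm_num
        refine (nrm_mul N _ _).trans ?_
        have h3 := hP o (mem_range.1 ho)
        have h4 := nrm_nonneg N ((1 - X ^ o) * P)
        calc nrm N ((X : PS) ^ x) * nrm N ((1 - X ^ o) * P) ≤ 1 * nrm N ((1 - X ^ o) * P) :=
              mul_le_mul_of_nonneg_right hXn h4
          _ ≤ e := by rw [one_mul]; exact h3
    _ = e := by rw [← sum_mul, hsum, one_mul]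

end H19Dav
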