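import Mathlib
import Pool.Agent.Helpers.H19DavA
import Pool.Agent.Helpers.H19DavB

/-! The chain argument (second regime). -/

open PowerSeries Finset

namespace H19Dav

/-- truncation to degrees `≤ w` -/
noncomputable def Fs (F : PS) (w : ℕ) : PS := PowerSeries.mk fun j => if j ≤ w then coeff j F else 0

lemma coeff_Fs (F : PS) (w j : ℕ) : coeff j (Fs F w) = if j ≤ w then coeff j F else 0 := by
  simp [Fs]

lemma NN_Fs {F : PS} (hF : NN F) (w : ℕ) : NN (Fs F w) := by
  intro j
  rw [coeff_Fs]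
  split_ifs
  · exact hF j
  · exact le_rfl

lemma Fs_S_le {F : PS} (hF : NN F) (w n : ℕ) : coeff n (Fs F w * S) ≤ coeff w (F * S) := by
  rw [cS, cS]
  calc ∑ j ∈ range (n + 1), coeff j (Fs F w) ≤ ∑ j ∈ range (n + w + 1), coeff j (Fs F w) := by
        apply sum_le_sum_of_subset_of_nonneg
        · intro j hj; rw [mem_range] at *; omega
        · intro j _ _; exact NN_Fs hF w j
    _ = ∑ j ∈ range (w + 1), coeff j F := by
        rw [← sum_range_add_sum_Ico _ (show w + 1 ≤ n + w + 1 by omega)]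
        have h1 : ∑ k ∈ Ico (w + 1) (n + w + 1), coeff k (Fs F w) = 0 := by
          apply sum_eq_zero
          intro k hk
          have := mem_Ico.1 hk
          rw [coeff_Fs, if_neg (by omega)]
        rw [h1, add_zero]
        apply sum_congr rfl
        intro j hj
        have := mem_range.1 hj
        rw [coeff_Fs, if_pos (by omega)]

lemma Fs_S_small (F : PS) (w n : ℕ) (hn : n ≤ w) : coeff n (Fs F w * S) = coeff n (F * S) := by
  rw [cS, cS]
  apply sum_congr rfl
  intro j hj
  have := mem_range.1 hj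
  rw [coeff_Fs, if_pos (by omega)]

/-- total mass of steps at most `w` -/
noncomputable def sw (F : PS) (w : ℕ) : ℝ := coeff w (F * S)

/-- mass of steps larger than `w` -/
noncomputable def qw (F : PS) (w : ℕ) : ℝ := coeff w (T F)

/-- mean of the steps at most `w` -/
noncomputable def mw (F : PS) (w : ℕ) : ℝ := D F w - w * qw F w

lemma sw_add_qw (F : PS) (w : ℕ) : sw F w = 1 - qw F w := by
  unfold sw qw; rw [coeff_T]; ring

/-- normalised small step law -/
noncomputable def F1 (F : PS) (w : ℕ) : PS := C (sw F w)⁻¹ * Fs F w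

section small

variable {F : PS} (hF : SP F) (hF0 : coeff 0 F = 0) (hF1 : 1 / 2 ≤ coeff 1 F) (w : ℕ) (hw : 1 ≤ w)

include hF hF1 hw in
lemma sw_half : 1 / 2 ≤ sw F w := by
  unfold sw
  rw [cS]
  have := single_le_sum (s := range (w + 1)) (f := fun j => coeff j F) (fun j _ => hF.1 j)
    (mem_range.2 (show 1 < w + 1 by omega))
  linarith

include hF in
lemma sw_le_one : sw F w ≤ 1 := hF.2 w

include hF in
lemma qw_nonneg : 0 ≤ qw F w := NN_T hF w

include hF hF1 hw in
lemma qw_half : qw F w ≤ 1 / 2 := by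
  have := sw_half hF hF1 w hw
  have := sw_add_qw F w
  linarith

include hF hF1 hw in
lemma SP_F1 : SP (F1 F w) := by
  have hs := sw_half hF hF1 w hw
  have hs' : 0 < sw F w := by linarith
  refine ⟨fun n => ?_, fun n => ?_⟩
  · unfold F1
    rw [coeff_C_mul]
    exact mul_nonneg (inv_nonneg.2 hs'.le) (NN_Fs hF.1 w n)
  · unfold F1
    rw [mul_assoc, coeff_C_mul]
    have := Fs_S_le hF.1 w n
    calc (sw F w)⁻¹ * coeff n (Fs F w * S) ≤ (sw F w)⁻¹ * sw F w :=
          mul_le_mul_of_nonneg_left this (inv_nonneg.2 hs'.le)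
      _ = 1 := inv_mul_cancel₀ hs'.ne'

include hF0 in
lemma F1_zero : coeff 0 (F1 F w) = 0 := by
  unfold F1
  rw [coeff_C_mul, coeff_Fs, if_pos (Nat.zero_le _), hF0, mul_zero]

lemma F1_supp : ∀ j, w < j → coeff j (F1 F w) = 0 := by
  intro j hj
  unfold F1
  rw [coeff_C_mul, coeff_Fs, if_neg (by omega), mul_zero]

include hF hF1 hw in
lemma F1_total : coeff w (F1 F w * S) = 1 := by
  have hs := sw_half hF hF1 w hw
  have hs' : 0 < sw F w := by linarith
  unfold F1
  rw [mul_assoc, coeff_C_mul, Fs_S_small F w w le_rfl]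
  exact inv_mul_cancel₀ hs'.ne'

include hF hF1 hw in
lemma D_F1_w : sw F w * D (F1 F w) w = mw F w := by
  have hs := sw_half hF hF1 w hw
  have hs' : 0 < sw F w := by linarith
  unfold mw D
  rw [mul_sum]
  have : ∀ n ∈ range w, sw F w * coeff n (T (F1 F w)) = coeff n (T F) - qw F w := by
    intro n hn
    have := mem_range.1 hn
    rw [coeff_T, coeff_T]
    unfold F1
    rw [mul_assoc, coeff_C_mul, Fs_S_small F w n (by omega), mul_sub, mul_one, ← mul_assoc,
      mul_inv_cancel₀ hs'.ne', one_mul, sw_add_qw]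
    ring
  rw [sum_congr rfl this, sum_sub_distrib]
  simp

include hF hF1 hw in
lemma D_F1_N (N : ℕ) : D (F1 F w) N ≤ D (F1 F w) w := by
  rcases le_total N w with h | h
  · exact D_mono (SP_F1 hF hF1 w hw) h
  · unfold D
    rw [← sum_range_add_sum_Ico _ h]
    have : ∑ k ∈ Ico w N, coeff k (T (F1 F w)) = 0 := by
      apply sum_eq_zero
      intro k hk
      exact T_far w (F1_supp w) (F1_total hF hF1 w hw) k (mem_Ico.1 hk).1
    rw [this, add_zero]

include hF hF1 hw in
lemma mw_pos : 1 / 2 ≤ mw F w := by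
  unfold mw D
  have h0 : coeff 0 (T F) = 1 - coeff 0 F := by rw [coeff_T, cS]; simp
  obtain ⟨v, rfl⟩ : ∃ v, w = v + 1 := ⟨w - 1, by omega⟩
  have hq := qw_half hF hF1 (v + 1) hw
  have h00 : coeff 0 F + coeff 1 F ≤ 1 := by
    have := hF.2 1
    rw [cS, sum_range_succ, sum_range_one] at this
    exact this
  -- sum_{n<v+1} (r_n - q)
  have e : ∑ n ∈ range (v + 1), coeff n (T F) - ((v + 1 : ℕ) : ℝ) * qw F (v + 1) =
      ∑ n ∈ range (v + 1), (coeff n (T F) - qw F (v + 1)) := by
    rw [sum_sub_distrib]; simp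
  rw [e, sum_range_succ']
  have h1 : 0 ≤ ∑ k ∈ range v, (coeff (k + 1) (T F) - qw F (v + 1)) := by
    apply sum_nonneg
    intro k hk
    have := mem_range.1 hk
    have := T_anti hF.1 (show k + 1 ≤ v + 1 by omega)
    unfold qw
    linarith
  have h2 : coeff 1 F ≤ coeff 0 (T F) - qw F (v + 1) := by
    have h3 : qw F (v + 1) ≤ coeff 1 (T F) := T_anti hF.1 (by omega)
    rw [coeff_T, cS, sum_range_succ, sum_range_one] at h3
    rw [h0]
    linarith
  linarith

include hF in
lemma mw_le_w : mw F w ≤ w := by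
  unfold mw D
  have h1 : ∑ n ∈ range w, coeff n (T F) ≤ ∑ n ∈ range w, (1 : ℝ) := by
    apply sum_le_sum
    intro n _
    rw [coeff_T]
    have := (hF.1.mul NN_S) n
    linarith
  simp at h1
  have := mul_nonneg (Nat.cast_nonneg (α := ℝ) w) (qw_nonneg hF w)
  linarith

include hF hF1 hw in
lemma smooth (N n : ℕ) : nrm N ((F - F1 F w) * F ^ n) ≤
    Real.sqrt (qw F w / ((n + 1) * sw F w)) := by
  have hs := sw_half hF hF1 w hw
  have hs' : 0 < sw F w := by linarith
  have hsq := sw_add_qw F w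
  rcases eq_or_lt_of_le (qw_nonneg hF w) with h0 | h0
  · -- q = 0
    have hs1 : sw F w = 1 := by linarith
    have hFF : F = F1 F w := by
      ext j
      unfold F1
      rw [hs1, inv_one, map_one, one_mul, coeff_Fs]
      split_ifs with h
      · rfl
      · push Not at h
        have h1 : coeff w (F * S) = 1 := hs1
        have h2 := hF.2 j
        rw [cS] at h1 h2
        rw [← sum_range_add_sum_Ico _ (show w + 1 ≤ j + 1 by omega), h1] at h2
        have h3 := single_le_sum (s := Ico (w + 1) (j + 1)) (f := fun k => coeff k F)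
          (fun k _ => hF.1 k) (mem_Ico.2 ⟨by omega, by omega⟩ : j ∈ _)
        have := hF.1 j
        linarith
    have : F - F1 F w = 0 := by rw [← hFF, sub_self]
    rw [this, zero_mul]
    have h4 : nrm N (0 : PS) = 0 := by simp [nrm]
    rw [h4]
    exact Real.sqrt_nonneg _
  · have hq1 : qw F w < 1 := by linarith
    obtain ⟨q, hq⟩ : ∃ q, q = qw F w := ⟨_, rfl⟩
    rw [← hq] at h0 hq1 hsq ⊢
    have hA : nrm N (C q⁻¹ * (F - Fs F w)) ≤ 1 := by
      rw [nrm_C_mul, abs_of_pos (inv_pos.2 h0)]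
      have h1 : nrm N (F - Fs F w) ≤ q := by
        have h2 : nrm N (F - Fs F w) ≤ nrm (N + w) (F - Fs F w) := by
          unfold nrm
          apply sum_le_sum_of_subset_of_nonneg
          · intro j hj; rw [mem_range] at *; omega
          · intro j _ _; exact abs_nonneg _
        refine h2.trans ?_
        unfold nrm
        rw [← sum_range_add_sum_Ico _ (show w + 1 ≤ N + w + 1 by omega)]
        have h3 : ∑ k ∈ range (w + 1), |coeff k (F - Fs F w)| = 0 := by
          apply sum_eq_zero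
          intro k hk
          have := mem_range.1 hk
          rw [map_sub, coeff_Fs, if_pos (by omega), sub_self, abs_zero]
        have h4 : ∑ k ∈ Ico (w + 1) (N + w + 1), |coeff k (F - Fs F w)| =
            ∑ k ∈ Ico (w + 1) (N + w + 1), coeff k F := by
          apply sum_congr rfl
          intro k hk
          have := mem_Ico.1 hk
          rw [map_sub, coeff_Fs, if_neg (by omega), sub_zero, abs_of_nonneg (hF.1 k)]
        rw [h3, h4, zero_add]
        have h5 := hF.2 (N + w)
        rw [cS, ← sum_range_add_sum_Ico _ (show w + 1 ≤ N + w + 1 by omega), ← cS] at h5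
        have h6 : coeff w (F * S) = sw F w := rfl
        rw [h6] at h5
        linarith
      calc q⁻¹ * nrm N (F - Fs F w) ≤ q⁻¹ * q :=
            mul_le_mul_of_nonneg_left h1 (inv_pos.2 h0).le
        _ = 1 := inv_mul_cancel₀ h0.ne'
    have hB : nrm N (F1 F w) ≤ 1 := nrm_SP (SP_F1 hF hF1 w hw) N
    have key := binom_nrm N n (C q⁻¹ * (F - Fs F w)) (F1 F w) hA hB q h0 hq1
    have e1 : C q * (C q⁻¹ * (F - Fs F w)) = F - Fs F w := by
      rw [← mul_assoc, ← map_mul, mul_inv_cancel₀ h0.ne', map_one, one_mul]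
    have e2 : C (1 - q) * F1 F w = Fs F w := by
      unfold F1
      rw [← hsq, ← mul_assoc, ← map_mul, mul_inv_cancel₀ hs'.ne', map_one, one_mul]
    have e3 : C q * (C q⁻¹ * (F - Fs F w)) + C (1 - q) * F1 F w = F := by
      rw [e1, e2]; ring
    have e4 : C q * (C q⁻¹ * (F - Fs F w) - F1 F w) = F - F1 F w := by
      rw [mul_sub, e1]
      have : C (1 - q) = (1 : PS) - C q := by rw [map_sub, map_one]
      rw [this, sub_mul, one_mul] at e2
      rw [← e2]; ring
    rw [e3, e4, ← hsq] at key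
    exact key

end small

/-! ### one doubling step -/

lemma SP_avg {a : PS} (ha : SP a) (L : ℕ) (hL : 1 ≤ L) : SP (C (L : ℝ)⁻¹ * geo a L) := by
  have hL' : (0 : ℝ) < L := by exact_mod_cast hL
  refine ⟨fun n => ?_, fun n => ?_⟩
  · rw [coeff_C_mul]
    exact mul_nonneg (inv_pos.2 hL').le (NN_geo ha.1 L n)
  · rw [mul_assoc, coeff_C_mul]
    have h1 : coeff n (geo a L * S) ≤ L := by
      unfold geo
      rw [sum_mul, map_sum]
      calc ∑ i ∈ range L, coeff n (a ^ i * S) ≤ ∑ i ∈ range L, (1 : ℝ) := by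
            apply sum_le_sum
            intro i _
            exact (ha.pow i).2 n
        _ = L := by simp
    calc (L : ℝ)⁻¹ * coeff n (geo a L * S) ≤ (L : ℝ)⁻¹ * L :=
          mul_le_mul_of_nonneg_left h1 (inv_pos.2 hL').le
      _ = 1 := inv_mul_cancel₀ hL'.ne'

lemma D_avg {a : PS} (ha : SP a) (L N : ℕ) (hL : 1 ≤ L) :
    D (C (L : ℝ)⁻¹ * geo a L) N ≤ L * D a N := by
  have hL' : (0 : ℝ) < L := by exact_mod_cast hL
  have h1 : D (C (L : ℝ)⁻¹ * geo a L) N = (L : ℝ)⁻¹ * ∑ i ∈ range L, D (a ^ i) N := by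
    unfold D
    rw [sum_comm, mul_sum]
    apply sum_congr rfl
    intro n _
    have : T (C (L : ℝ)⁻¹ * geo a L) = C (L : ℝ)⁻¹ * ∑ i ∈ range L, T (a ^ i) := by
      unfold T geo
      rw [← sum_mul, sum_sub_distrib]
      simp only [sum_const, card_range, nsmul_eq_mul, mul_one]
      have : C (L : ℝ)⁻¹ * (L : PS) = 1 := by
        have e : (L : PS) = C (L : ℝ) := by rw [map_natCast]
        rw [e, ← map_mul, inv_mul_cancel₀ hL'.ne', map_one]
      rw [sub_mul, sub_mul, mul_sub, ← mul_assoc (C (L : ℝ)⁻¹) (L : PS), this]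
      ring
    rw [this, coeff_C_mul, map_sum]
  rw [h1]
  have h2 : ∑ i ∈ range L, D (a ^ i) N ≤ L * (L * D a N) := by
    calc ∑ i ∈ range L, D (a ^ i) N ≤ ∑ i ∈ range L, (L * D a N) := by
          apply sum_le_sum
          intro i hi
          refine (D_pow ha N i).trans ?_
          apply mul_le_mul_of_nonneg_right _ (D_nonneg ha N)
          exact_mod_cast (mem_range.1 hi).le
      _ = L * (L * D a N) := by rw [sum_const, card_range, nsmul_eq_mul]
  calc (L : ℝ)⁻¹ * ∑ i ∈ range L, D (a ^ i) N ≤ (L : ℝ)⁻¹ * (L * (L * D a N)) :=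
        mul_le_mul_of_nonneg_left h2 (inv_pos.2 hL').le
    _ = L * D a N := by rw [← mul_assoc, inv_mul_cancel₀ hL'.ne', one_mul]

lemma nrm_X_pow (N x : ℕ) : nrm N ((X : PS) ^ x) ≤ 1 := by
  unfold nrm
  calc ∑ j ∈ range (N + 1), |coeff j ((X : PS) ^ x)|
      = ∑ j ∈ range (N + 1), (if j = x then (1 : ℝ) else 0) := by
        apply sum_congr rfl
        intro j _
        rw [coeff_X_pow]
        split_ifs <;> simp
    _ ≤ 1 := by
        rw [sum_ite_eq']
        split_ifs <;> norm_num

lemma nrm_Tr_le {F : PS} (x N K : ℕ) (hK : x ≤ K) : nrm N (Tr F x) ≤ nrm K (Tr F x) := by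
  rcases le_total N K with h | h
  · unfold nrm
    apply sum_le_sum_of_subset_of_nonneg
    · intro j hj; rw [mem_range] at *; omega
    · intro j _ _; exact abs_nonneg _
  · unfold nrm
    rw [← sum_range_add_sum_Ico _ (show K + 1 ≤ N + 1 by omega)]
    have : ∑ k ∈ Ico (K + 1) (N + 1), |coeff k (Tr F x)| = 0 := by
      apply sum_eq_zero
      intro k hk
      have := mem_Ico.1 hk
      rw [coeff_Tr, if_neg (by omega), abs_zero]
    rw [this, add_zero]

theorem step {F P : PS} (hF : SP F) (hF0 : coeff 0 F = 0) (hF1 : 1 / 2 ≤ coeff 1 F)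
    (hP : SP P) (w N n L : ℕ) (hw : 1 ≤ w) (hN : 1 ≤ N) (hL : 1 ≤ L) (e d g δ : ℝ)
    (hα : ∀ o, o < w → nrm N ((1 - X ^ o) * P) ≤ e)
    (hβ : coeff N (ren F) - coeff N (P * ren F) ≤ g)
    (hγ : D P N ≤ d * N)
    (c1 : 6 * (w : ℝ) ≤ δ * (L * mw F w)) (c2 : L * mw F w ≤ δ * N)
    (c3 : n * D F N ≤ δ * N) (c4 : L * Real.sqrt (qw F w / ((n + 1) * sw F w)) ≤ δ) :
    ∃ P' : PS, SP P' ∧ (∀ x, x < 2 * w → nrm N ((1 - X ^ x) * P') ≤ e + δ) ∧
      coeff N (ren F) - coeff N (P' * ren F) ≤ g + (2 * d + 7 * δ) ∧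
      D P' N ≤ (d + 2 * δ) * N := by
  have hL' : (0 : ℝ) < L := by exact_mod_cast hL
  have hN' : (0 : ℝ) < N := by exact_mod_cast hN
  have hs := sw_half hF hF1 w hw
  have hs' : 0 < sw F w := by linarith
  have hs1 := sw_le_one hF w
  have hSP1 := SP_F1 hF hF1 w hw
  have hF10 := F1_zero (F := F) hF0 w
  have hm := mw_pos hF hF1 w hw
  have hDw := D_F1_w hF hF1 w hw
  have hDw0 : 0 ≤ D (F1 F w) w := D_nonneg hSP1 w
  have hδ : 0 ≤ δ := by
    have : 0 ≤ L * mw F w := by positivity
    by_contra hcon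
    push Not at hcon
    nlinarith
  have hDw2 : D (F1 F w) w ≤ 2 * mw F w := by nlinarith
  have hDN : D (F1 F w) N ≤ 2 * mw F w := (D_F1_N hF hF1 w hw N).trans hDw2
  have hLD : L * D (F1 F w) N ≤ 2 * δ * N := by
    have := mul_le_mul_of_nonneg_left hDN hL'.le
    nlinarith
  set V : PS := C (L : ℝ)⁻¹ * geo (F1 F w) L with hV
  have hSPV : SP V := SP_avg hSP1 L hL
  refine ⟨P * V, hP.mul hSPV, ?_, ?_, ?_⟩
  · intro x hx
    have hdec : (1 - X ^ x) * (P * V) = C (L : ℝ)⁻¹ * (Tr (F1 F w) x * (P * (1 - F1 F w ^ L))) +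
        (Bx (F1 F w) x - X ^ x) * P * V := by
      have h1 : geo (F1 F w) L * (1 - F1 F w) = 1 - F1 F w ^ L := geo_mul _ _
      rw [← h1, hV]
      unfold Bx
      ring
    rw [hdec]
    refine (nrm_add N _ _).trans ?_
    have t2 : nrm N ((Bx (F1 F w) x - X ^ x) * P * V) ≤ e := by
      refine (nrm_mul N _ _).trans ?_
      have h1 := Bx_shift hSP1 hF10 w hw (F1_supp w) (F1_total hF hF1 w hw) x N P e hα
      have h2 := nrm_SP hSPV N
      have h3 := nrm_nonneg N ((Bx (F1 F w) x - X ^ x) * P)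
      calc nrm N ((Bx (F1 F w) x - X ^ x) * P) * nrm N V
          ≤ nrm N ((Bx (F1 F w) x - X ^ x) * P) * 1 := mul_le_mul_of_nonneg_left h2 h3
        _ ≤ e := by rw [mul_one]; exact h1
    have t1 : nrm N (C (L : ℝ)⁻¹ * (Tr (F1 F w) x * (P * (1 - F1 F w ^ L)))) ≤ δ := by
      rw [nrm_C_mul, abs_of_pos (inv_pos.2 hL')]
      have h1 : nrm N (Tr (F1 F w) x * (P * (1 - F1 F w ^ L))) ≤ nrm N (Tr (F1 F w) x) * 2 := by
        refine (nrm_mul N _ _).trans ?_
        apply mul_le_mul_of_nonneg_left _ (nrm_nonneg _ _)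
        refine (nrm_mul N _ _).trans ?_
        have h2 := nrm_SP hP N
        have h3 : nrm N (1 - F1 F w ^ L) ≤ 2 := by
          refine (nrm_sub N _ _).trans ?_
          have := nrm_one N
          have := nrm_SP (hSP1.pow L) N
          linarith
        calc nrm N P * nrm N (1 - F1 F w ^ L) ≤ 1 * 2 :=
              mul_le_mul h2 h3 (nrm_nonneg _ _) (by norm_num)
          _ = 2 := by norm_num
      have h4 := Tr_total hSP1 hF10 w hw (F1_supp w) (F1_total hF hF1 w hw) x
      have h5 := nrm_Tr_le (F := F1 F w) x N (x + w) (by omega)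
      have h6 : (x : ℝ) + w ≤ 3 * w := by
        have : (x : ℝ) ≤ 2 * w := by exact_mod_cast hx.le
        linarith
      -- mw * nrm Tr ≤ 3 w
      have h7 : mw F w * nrm N (Tr (F1 F w) x) ≤ 3 * w := by
        calc mw F w * nrm N (Tr (F1 F w) x) ≤ mw F w * nrm (x + w) (Tr (F1 F w) x) :=
              mul_le_mul_of_nonneg_left h5 (by linarith)
          _ = sw F w * (D (F1 F w) w * nrm (x + w) (Tr (F1 F w) x)) := by rw [← hDw]; ring
          _ ≤ 1 * (D (F1 F w) w * nrm (x + w) (Tr (F1 F w) x)) := by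
              apply mul_le_mul_of_nonneg_right hs1
              exact mul_nonneg hDw0 (nrm_nonneg _ _)
          _ ≤ 3 * w := by rw [one_mul]; exact h4.trans h6
      have h8 : L * mw F w * ((L : ℝ)⁻¹ * (nrm N (Tr (F1 F w) x) * 2)) ≤ L * mw F w * δ := by
        calc L * mw F w * ((L : ℝ)⁻¹ * (nrm N (Tr (F1 F w) x) * 2))
            = (L * (L : ℝ)⁻¹) * (2 * (mw F w * nrm N (Tr (F1 F w) x))) := by ring
          _ = 2 * (mw F w * nrm N (Tr (F1 F w) x)) := by rw [mul_inv_cancel₀ hL'.ne', one_mul]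
          _ ≤ L * mw F w * δ := by linarith
      have h9 : (L : ℝ)⁻¹ * (nrm N (Tr (F1 F w) x) * 2) ≤ δ :=
        le_of_mul_le_mul_left h8 (by positivity)
      exact (mul_le_mul_of_nonneg_left h1 (inv_pos.2 hL').le).trans h9
    linarith
  · -- beta
    have hdiff : coeff N (P * ren F) - coeff N (P * V * ren F) ≤ 2 * d + 7 * δ := by
      have e1 : P * ren F - P * V * ren F =
          C (L : ℝ)⁻¹ * ∑ l ∈ range L, (1 - F1 F w ^ l) * (P * ren F) := by
        rw [hV]
        unfold geo
        rw [← sum_mul, sum_sub_distrib]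
        simp only [sum_const, card_range, nsmul_eq_mul, mul_one]
        have : C (L : ℝ)⁻¹ * (L : PS) = 1 := by
          have e : (L : PS) = C (L : ℝ) := by rw [map_natCast]
          rw [e, ← map_mul, inv_mul_cancel₀ hL'.ne', map_one]
        calc P * ren F - P * (C (L : ℝ)⁻¹ * ∑ j ∈ range L, F1 F w ^ j) * ren F
            = (1 : PS) * (P * ren F) - C (L : ℝ)⁻¹ * (∑ j ∈ range L, F1 F w ^ j) * (P * ren F) := by
              ring
          _ = (C (L : ℝ)⁻¹ * (L : PS)) * (P * ren F) -
              C (L : ℝ)⁻¹ * (∑ j ∈ range L, F1 F w ^ j) * (P * ren F) := by rw [this]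
          _ = _ := by ring
      rw [← map_sub, e1, coeff_C_mul, map_sum]
      have hκ := smooth hF hF1 w hw N n
      set κ := Real.sqrt (qw F w / ((n + 1) * sw F w)) with hκdef
      have hκ0 : 0 ≤ κ := Real.sqrt_nonneg _
      have hT1 : coeff N (T (P * F ^ n)) ≤ d + δ := by
        have h1 := tail_le (hP.mul (hF.pow n)) N
        have h2 := D_mul hP (hF.pow n) N
        have h3 := D_pow hF N n
        have h4 : (N : ℝ) * coeff N (T (P * F ^ n)) ≤ N * (d + δ) := by nlinarith
        exact le_of_mul_le_mul_left h4 hN'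
      have hT2 : ∀ l ∈ range L, coeff N (T (P * F ^ n * F1 F w ^ l)) ≤ d + 3 * δ := by
        intro l hl
        have h1 := tail_le ((hP.mul (hF.pow n)).mul (hSP1.pow l)) N
        have h2 := D_mul hP (hF.pow n) N
        have h3 := D_pow hF N n
        have h5 := D_mul (hP.mul (hF.pow n)) (hSP1.pow l) N
        have h6 := D_pow hSP1 N l
        have h7 : (l : ℝ) * D (F1 F w) N ≤ L * D (F1 F w) N := by
          apply mul_le_mul_of_nonneg_right _ (D_nonneg hSP1 N)
          exact_mod_cast (mem_range.1 hl).le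
        have h4 : (N : ℝ) * coeff N (T (P * F ^ n * F1 F w ^ l)) ≤ N * (d + 3 * δ) := by
          nlinarith
        exact le_of_mul_le_mul_left h4 hN'
      have hsum : ∑ l ∈ range L, coeff N ((1 - F1 F w ^ l) * (P * ren F)) ≤
          L * (2 * d + 7 * δ) := by
        calc ∑ l ∈ range L, coeff N ((1 - F1 F w ^ l) * (P * ren F))
            ≤ ∑ l ∈ range L, (2 * d + 7 * δ) := by
              apply sum_le_sum
              intro l hl
              have h1 := near_inv hP hF hF0 hSP1 hF10 n l N κ hκ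
              have h2 := hT2 l hl
              have h3 : (l : ℝ) * κ ≤ δ := by
                refine le_trans ?_ c4
                apply mul_le_mul_of_nonneg_right _ hκ0
                exact_mod_cast (mem_range.1 hl).le
              linarith
          _ = L * (2 * d + 7 * δ) := by rw [sum_const, card_range, nsmul_eq_mul]
      calc (L : ℝ)⁻¹ * ∑ l ∈ range L, coeff N ((1 - F1 F w ^ l) * (P * ren F))
          ≤ (L : ℝ)⁻¹ * (L * (2 * d + 7 * δ)) :=
            mul_le_mul_of_nonneg_left hsum (inv_pos.2 hL').le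
        _ = 2 * d + 7 * δ := by rw [← mul_assoc, inv_mul_cancel₀ hL'.ne', one_mul]
    linarith
  · have h1 := D_mul hP hSPV N
    have h2 := D_avg hSP1 L N hL
    linarith

end H19Dav
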