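import Mathlib
import Pool.Agent.Helpers.H19DavA
import Pool.Agent.Helpers.H19DavB
import Pool.Agent.Helpers.H19DavC

/-! The chain (second regime): conclusion. -/

open PowerSeries Finset

namespace H19Dav

/-- doubling estimate of `D` -/
lemma D_double {F : PS} (hF : SP F) (w : ℕ) : D F (2 * w) ≤ D F w + w * qw F w := by
  unfold D
  rw [← sum_range_add_sum_Ico _ (show w ≤ 2 * w by omega)]
  have : ∑ k ∈ Ico w (2 * w), coeff k (T F) ≤ ∑ k ∈ Ico w (2 * w), qw F w := by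
    apply sum_le_sum
    intro k hk
    exact T_anti hF.1 (mem_Ico.1 hk).1
  rw [sum_const, Nat.card_Ico, nsmul_eq_mul] at this
  have e : ((2 * w - w : ℕ) : ℝ) = w := by
    congr 1; omega
  rw [e] at this
  linarith

/-- final estimate at a level -/
lemma final_level {F P : PS} (hF : SP F) (hF0 : coeff 0 F = 0) (hP : SP P) (W N : ℕ)
    (hD : 0 < D F W) (e : ℝ) (hα : ∀ o, o < W → nrm N ((1 - X ^ o) * P) ≤ e) :
    coeff N (P * ren F) ≤ e + 1 / D F W := by
  have hNN : NN (P * ren F) := hP.1.mul (NN_ren hF.1 hF0)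
  have h1 : ∀ x, x < W → coeff N (P * ren F) ≤ coeff N (X ^ x * (P * ren F)) + e := by
    intro x hx
    have h2 : P * ren F = X ^ x * (P * ren F) + (1 - X ^ x) * P * ren F := by ring
    have h3 := coeff_mul_le_nrm N ((1 - X ^ x) * P) (ren F) (ren_abs_le hF hF0)
    have h4 := le_abs_self (coeff N ((1 - X ^ x) * P * ren F))
    have h5 := hα x hx
    calc coeff N (P * ren F) = coeff N (X ^ x * (P * ren F)) +
          coeff N ((1 - X ^ x) * P * ren F) := by rw [← map_add, ← h2]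
      _ ≤ _ := by linarith
  have h2 : ∑ x ∈ range W, coeff x (T F) * coeff N (X ^ x * (P * ren F)) ≤ 1 := by
    have h3 : ∑ x ∈ range W, coeff x (T F) * coeff N (X ^ x * (P * ren F)) ≤
        coeff N (T F * (P * ren F)) := by
      rw [cmul]
      have h4 : ∀ x, coeff x (T F) * coeff N (X ^ x * (P * ren F)) =
          if x ≤ N then coeff x (T F) * coeff (N - x) (P * ren F) else 0 := by
        intro x
        rw [coeff_X_pow_mul']
        split_ifs <;> simp
      rw [sum_congr rfl (fun x _ => h4 x), ← sum_filter]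
      apply sum_le_sum_of_subset_of_nonneg
      · intro j hj
        simp only [mem_filter, mem_range] at *
        omega
      · intro j _ _
        exact mul_nonneg (NN_T hF j) (hNN _)
    have h5 : T F * (P * ren F) = P * S := by
      have := ren_mul_T hF0
      calc T F * (P * ren F) = P * (ren F * T F) := by ring
        _ = _ := by rw [this]
    rw [h5] at h3
    exact h3.trans (hP.2 N)
  have h3 : D F W * coeff N (P * ren F) ≤ 1 + D F W * e := by
    unfold D
    rw [sum_mul, sum_mul]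
    calc ∑ x ∈ range W, coeff x (T F) * coeff N (P * ren F)
        ≤ ∑ x ∈ range W, (coeff x (T F) * coeff N (X ^ x * (P * ren F)) + coeff x (T F) * e) := by
          apply sum_le_sum
          intro x hx
          have := mul_le_mul_of_nonneg_left (h1 x (mem_range.1 hx)) (NN_T hF x)
          linarith
      _ = ∑ x ∈ range W, coeff x (T F) * coeff N (X ^ x * (P * ren F)) +
          ∑ x ∈ range W, coeff x (T F) * e := sum_add_distrib
      _ ≤ _ := by linarith
  have h4 : D F W * coeff N (P * ren F) ≤ D F W * (e + 1 / D F W) := by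
    have : D F W * (e + 1 / D F W) = 1 + D F W * e := by field_simp; ring
    rw [this]; exact h3
  exact le_of_mul_le_mul_left h4 hD

/-- The chain. `Q` bounds `w q_w / m_w` on dyadic scales. -/
theorem chain {F : PS} (hF : SP F) (hF0 : coeff 0 F = 0) (hF1 : 1 / 2 ≤ coeff 1 F)
    (Q ρ c : ℝ) (hQ : 1 ≤ Q) (hρ0 : 0 < ρ) (hρ1 : ρ < 1)
    (hρ5 : (1 + 2 * Q) / (1 + Q) / 2 ≤ ρ ^ 5) (hc : 98 * Q * (1 + Q) ≤ c ^ 5) (hc3 : 3 ≤ c)
    (r : ℕ) (hcase : ∀ i, i ≤ r → (2 ^ i : ℕ) * qw F (2 ^ i) ≤ Q * mw F (2 ^ i))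
    (T0 : ℕ) (hT0 : c * ρ ^ T0 ≤ 1) (hT0r : T0 ≤ r) :
    ∀ i, i + T0 ≤ r → ∃ P : PS, SP P ∧
      (∀ x, x < 2 ^ i → nrm (2 ^ r) ((1 - X ^ x) * P) ≤ (1 - ρ)⁻¹ * (c * ρ ^ (r - i))) ∧
      coeff (2 ^ r) (ren F) - coeff (2 ^ r) (P * ren F) ≤
        (4 * (1 - ρ)⁻¹ + 7) * (1 - ρ)⁻¹ * (c * ρ ^ (r - i)) ∧
      D P (2 ^ r) ≤ (2 * (1 - ρ)⁻¹ * (c * ρ ^ (r - i))) * ((2 ^ r : ℕ) : ℝ) := by
  have h1ρ : 0 < 1 - ρ := by linarith
  obtain ⟨K, hK⟩ : ∃ K, K = (1 - ρ)⁻¹ := ⟨_, rfl⟩
  have hK0 : 0 < K := by rw [hK]; exact inv_pos.2 h1ρ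
  have hKρ : K * (1 - ρ) = 1 := by rw [hK]; exact inv_mul_cancel₀ h1ρ.ne'
  have hKρ2 : K * ρ = K - 1 := by
    rw [mul_sub, mul_one] at hKρ; linarith
  rw [← hK]
  have hc0 : 0 < c := by linarith
  intro i
  induction i with
  | zero =>
    intro _
    refine ⟨1, SP_one, ?_, ?_, ?_⟩
    · intro x hx
      have : x = 0 := by simpa using hx
      subst this
      have h0 : nrm (2 ^ r) ((1 - X ^ 0) * 1 : PS) = 0 := by simp [nrm]
      rw [h0]; positivity
    · rw [one_mul, sub_self]; positivity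
    · rw [D_one]; positivity
  | succ i ih =>
    intro hi
    obtain ⟨P, hP, hα, hβ, hγ⟩ := ih (by omega)
    obtain ⟨w, hw⟩ : ∃ w : ℕ, w = 2 ^ i := ⟨_, rfl⟩
    obtain ⟨N, hN⟩ : ∃ N : ℕ, N = 2 ^ r := ⟨_, rfl⟩
    obtain ⟨δ, hδ⟩ : ∃ δ : ℝ, δ = c * ρ ^ (r - i) := ⟨_, rfl⟩
    rw [← hN] at hα hβ hγ ⊢
    rw [← hw] at hα
    rw [← hδ] at hα hβ hγ
    have hw1 : 1 ≤ w := by rw [hw]; exact Nat.one_le_two_pow
    have hN1 : 1 ≤ N := by rw [hN]; exact Nat.one_le_two_pow
    have hwr : (1:ℝ) ≤ w := by exact_mod_cast hw1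
    have hNr : (1:ℝ) ≤ N := by exact_mod_cast hN1
    have hδ0 : 0 < δ := by rw [hδ]; positivity
    have hδ1 : δ ≤ 1 := by
      rw [hδ]
      refine le_trans ?_ hT0
      apply mul_le_mul_of_nonneg_left _ hc0.le
      exact pow_le_pow_of_le_one hρ0.le hρ1.le (by omega)
    have hm := mw_pos hF hF1 w hw1
    have hmw := mw_le_w hF w
    have hm0 : 0 < mw F w := by linarith
    have hq0 := qw_nonneg hF w
    have hs := sw_half hF hF1 w hw1
    have hcw : (w : ℝ) * qw F w ≤ Q * mw F w := by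
      have := hcase i (by omega)
      rw [hw]; exact this
    -- D F N ≤ lam^t (1+Q) m
    obtain ⟨lam, hlam⟩ : ∃ lam, lam = (1 + 2 * Q) / (1 + Q) := ⟨_, rfl⟩
    have hlam0 : 0 < lam := by rw [hlam]; positivity
    have hlam2 : lam ≤ 2 := by rw [hlam, div_le_iff₀ (by positivity)]; linarith
    have hlam1 : 1 ≤ lam := by rw [hlam, le_div_iff₀ (by positivity)]; linarith
    have hgrow : ∀ t, i + t ≤ r → D F (2 ^ (i + t)) ≤ lam ^ t * ((1 + Q) * mw F w) := by
      intro t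
      induction t with
      | zero =>
        intro _
        rw [pow_zero, one_mul, add_zero, ← hw]
        have : D F w = mw F w + w * qw F w := by unfold mw; ring
        rw [this]; linarith
      | succ t iht =>
        intro ht
        have h1 := iht (by omega)
        have h2 := D_double hF (2 ^ (i + t))
        have h3 := hcase (i + t) (by omega)
        have h4 : D F (2 ^ (i + t)) = mw F (2 ^ (i + t)) + (2 ^ (i + t) : ℕ) * qw F (2 ^ (i + t)) := by
          unfold mw; ring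
        have e : 2 * 2 ^ (i + t) = 2 ^ (i + (t + 1)) := by ring
        rw [e] at h2
        have h5 : D F (2 ^ (i + (t + 1))) ≤ lam * D F (2 ^ (i + t)) := by
          rw [hlam, div_mul_eq_mul_div, le_div_iff₀ (by positivity)]
          nlinarith
        calc D F (2 ^ (i + (t + 1))) ≤ lam * D F (2 ^ (i + t)) := h5
          _ ≤ lam * (lam ^ t * ((1 + Q) * mw F w)) := mul_le_mul_of_nonneg_left h1 hlam0.le
          _ = lam ^ (t + 1) * ((1 + Q) * mw F w) := by rw [pow_succ]; ring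
    have hDN : D F N ≤ lam ^ (r - i) * ((1 + Q) * mw F w) := by
      have := hgrow (r - i) (by omega)
      rw [show i + (r - i) = r by omega] at this
      rw [hN]; exact this
    have hNw : (N : ℝ) = 2 ^ (r - i) * w := by
      rw [hN, hw]
      push_cast
      rw [← pow_add]
      congr 1
      omega
    have hDN0 : 0 < D F N := by
      have h1 : D F 1 ≤ D F N := D_mono hF hN1
      have h2 : D F 1 = 1 := by
        unfold D
        rw [sum_range_one, T_zero hF0]
      linarith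
    -- delta^5 bound
    have hδ5 : 98 * Q * (1 + Q) * (lam / 2) ^ (r - i) ≤ δ ^ 5 := by
      rw [hδ, mul_pow, ← pow_mul, mul_comm (r - i) 5, pow_mul]
      apply mul_le_mul hc _ (by positivity) (by positivity)
      apply pow_le_pow_left₀ (by positivity)
      rw [hlam]; exact hρ5
    have hδ2 : 7 * (w : ℝ) ≤ δ ^ 2 * N := by
      have h1 : (1 / 2 : ℝ) ≤ ρ ^ 2 := by
        have h2 : (1:ℝ) / 2 ≤ ρ ^ 5 := by
          refine le_trans ?_ hρ5
          rw [← hlam]; linarith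
        exact h2.trans (pow_le_pow_of_le_one hρ0.le hρ1.le (by norm_num))
      have h3 : (1 / 2 : ℝ) ^ (r - i) ≤ (ρ ^ 2) ^ (r - i) := pow_le_pow_left₀ (by norm_num) h1 _
      have h4 : δ ^ 2 = c ^ 2 * (ρ ^ 2) ^ (r - i) := by
        rw [hδ, mul_pow, ← pow_mul, ← pow_mul, mul_comm (r - i) 2]
      have h5 : (9:ℝ) ≤ c ^ 2 := by nlinarith
      have h6 : 9 * (1 / 2 : ℝ) ^ (r - i) ≤ δ ^ 2 := by
        rw [h4]
        exact mul_le_mul h5 h3 (by positivity) (by positivity)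
      have h7 : (1 / 2 : ℝ) ^ (r - i) * 2 ^ (r - i) = 1 := by
        rw [← mul_pow]; norm_num
      calc 7 * (w : ℝ) ≤ 9 * w := by linarith
        _ = 9 * ((1 / 2 : ℝ) ^ (r - i) * 2 ^ (r - i)) * w := by rw [h7]; ring
        _ = (9 * (1 / 2 : ℝ) ^ (r - i)) * N := by rw [hNw]; ring
        _ ≤ δ ^ 2 * N := mul_le_mul_of_nonneg_right h6 (by positivity)
    -- choice of L and n
    obtain ⟨L, hLdef⟩ : ∃ L : ℕ, L = ⌈6 * (w : ℝ) / (δ * mw F w)⌉₊ := ⟨_, rfl⟩
    obtain ⟨n, hndef⟩ : ∃ n : ℕ, n = ⌊δ * N / D F N⌋₊ := ⟨_, rfl⟩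
    have hpos1 : 0 < 6 * (w : ℝ) / (δ * mw F w) := by positivity
    have hL1 : 1 ≤ L := by rw [hLdef]; exact Nat.one_le_iff_ne_zero.2 (Nat.ceil_pos.2 hpos1).ne'
    have hLlow : 6 * (w : ℝ) / (δ * mw F w) ≤ L := by rw [hLdef]; exact Nat.le_ceil _
    have hLup : (L : ℝ) ≤ 6 * (w : ℝ) / (δ * mw F w) + 1 := by
      rw [hLdef]; exact (Nat.ceil_lt_add_one hpos1.le).le
    have hLm : (L : ℝ) * mw F w * δ ≤ 7 * w := by
      have h1 : (L : ℝ) * (δ * mw F w) ≤ (6 * (w : ℝ) / (δ * mw F w) + 1) * (δ * mw F w) :=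
        mul_le_mul_of_nonneg_right hLup (by positivity)
      rw [add_mul, div_mul_cancel₀ _ (by positivity), one_mul] at h1
      have h2 : δ * mw F w ≤ w := (mul_le_of_le_one_left hm0.le hδ1).trans hmw
      have h3 : (L : ℝ) * mw F w * δ = L * (δ * mw F w) := by ring
      rw [h3]
      linarith
    have c1 : 6 * (w : ℝ) ≤ δ * (L * mw F w) := by
      rw [div_le_iff₀ (by positivity)] at hLlow
      linarith
    have c2 : (L : ℝ) * mw F w ≤ δ * N := by
      have h1 : (L : ℝ) * mw F w * δ ≤ (δ * N) * δ := by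
        have e : (δ * N) * δ = δ ^ 2 * N := by ring
        rw [e]
        exact hLm.trans hδ2
      exact le_of_mul_le_mul_right h1 hδ0
    have c3 : (n : ℝ) * D F N ≤ δ * N := by
      have h1 : (n : ℝ) ≤ δ * N / D F N := by
        rw [hndef]; exact Nat.floor_le (by positivity)
      rwa [le_div_iff₀ hDN0] at h1
    have hn1 : δ * N ≤ ((n : ℝ) + 1) * D F N := by
      have h1 : δ * N / D F N < (n : ℝ) + 1 := by
        rw [hndef]; exact Nat.lt_floor_add_one _
      rw [div_lt_iff₀ hDN0] at h1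
      exact h1.le
    have c4 : (L : ℝ) * Real.sqrt (qw F w / ((n + 1) * sw F w)) ≤ δ := by
      have hsq : ((L : ℝ) ^ 2) * (qw F w / ((n + 1) * sw F w)) ≤ δ ^ 2 := by
        rw [← mul_div_assoc, div_le_iff₀ (by positivity)]
        -- (L m δ)^2 ≤ 49 w^2
        have a1 : ((L : ℝ) * mw F w * δ) ^ 2 ≤ (7 * w) ^ 2 := pow_le_pow_left₀ (by positivity) hLm 2
        -- it suffices to multiply by m^2 δ^2 w
        have a2 : (L : ℝ) ^ 2 * qw F w * ((mw F w) ^ 2 * δ ^ 2 * w) ≤ 49 * w ^ 2 * (Q * mw F w) := by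
          calc (L : ℝ) ^ 2 * qw F w * ((mw F w) ^ 2 * δ ^ 2 * w)
              = ((L : ℝ) * mw F w * δ) ^ 2 * (w * qw F w) := by ring
            _ ≤ (7 * w) ^ 2 * (Q * mw F w) := mul_le_mul a1 hcw (by positivity) (by positivity)
            _ = _ := by ring
        -- lower bound of RHS: δ^2 (n+1) s * m^2 δ^2 w
        have a3 : δ * N ≤ ((n : ℝ) + 1) * (lam ^ (r - i) * ((1 + Q) * mw F w)) :=
          hn1.trans (mul_le_mul_of_nonneg_left hDN (by positivity))
        have a4 : 49 * (w : ℝ) ^ 2 * (Q * mw F w) ≤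
            δ ^ 2 * ((n + 1) * sw F w) * ((mw F w) ^ 2 * δ ^ 2 * w) := by
          have b1 : δ ^ 2 * ((n + 1) * (1 / 2)) * ((mw F w) ^ 2 * δ ^ 2 * w) ≤
              δ ^ 2 * ((n + 1) * sw F w) * ((mw F w) ^ 2 * δ ^ 2 * w) := by
            apply mul_le_mul_of_nonneg_right _ (by positivity)
            apply mul_le_mul_of_nonneg_left _ (by positivity)
            exact mul_le_mul_of_nonneg_left hs (by positivity)
          refine le_trans ?_ b1
          -- multiply both sides by lam^(r-i) (1+Q)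
          have hpp : 0 < lam ^ (r - i) * (1 + Q) := by positivity
          have b2 : lam ^ (r - i) * (1 + Q) * (49 * (w : ℝ) ^ 2 * (Q * mw F w)) ≤
              lam ^ (r - i) * (1 + Q) * (δ ^ 2 * ((n + 1) * (1 / 2)) * ((mw F w) ^ 2 * δ ^ 2 * w)) := by
            calc lam ^ (r - i) * (1 + Q) * (49 * (w : ℝ) ^ 2 * (Q * mw F w))
                = (98 * Q * (1 + Q) * (lam / 2) ^ (r - i)) * (2 ^ (r - i) * w) *
                    (w * mw F w) / 2 := by
                  rw [div_pow]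
                  field_simp
                  ring
              _ ≤ δ ^ 5 * (2 ^ (r - i) * w) * (w * mw F w) / 2 := by
                  have b3 := mul_le_mul_of_nonneg_right hδ5
                    (show 0 ≤ (2 ^ (r - i) * (w:ℝ)) * (w * mw F w) / 2 by positivity)
                  calc _ = 98 * Q * (1 + Q) * (lam / 2) ^ (r - i) *
                        ((2 ^ (r - i) * (w:ℝ)) * (w * mw F w) / 2) := by ring
                    _ ≤ δ ^ 5 * ((2 ^ (r - i) * (w:ℝ)) * (w * mw F w) / 2) := b3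
                    _ = _ := by ring
              _ = δ ^ 4 * (w * mw F w) / 2 * (δ * N) := by rw [hNw]; ring
              _ ≤ δ ^ 4 * (w * mw F w) / 2 *
                    (((n : ℝ) + 1) * (lam ^ (r - i) * ((1 + Q) * mw F w))) :=
                  mul_le_mul_of_nonneg_left a3 (by positivity)
              _ = _ := by ring
          exact le_of_mul_le_mul_left b2 hpp
        have a5 : (L : ℝ) ^ 2 * qw F w * ((mw F w) ^ 2 * δ ^ 2 * w) ≤
            δ ^ 2 * ((n + 1) * sw F w) * ((mw F w) ^ 2 * δ ^ 2 * w) := a2.trans a4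
        exact le_of_mul_le_mul_right a5 (by positivity)
      have h1 : (L : ℝ) * Real.sqrt (qw F w / ((n + 1) * sw F w)) =
          Real.sqrt ((L : ℝ) ^ 2 * (qw F w / ((n + 1) * sw F w))) := by
        rw [Real.sqrt_mul (by positivity), Real.sqrt_sq (by positivity)]
      rw [h1]
      exact Real.sqrt_le_iff.2 ⟨hδ0.le, hsq⟩
    obtain ⟨P', hP', hα', hβ', hγ'⟩ := step hF hF0 hF1 hP w N n L hw1 hN1 hL1
      (K * δ) (2 * K * δ) ((4 * K + 7) * K * δ) δ hα hβ hγ c1 c2 c3 c4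
    have hδ' : δ = ρ * (c * ρ ^ (r - (i + 1))) := by
      rw [hδ]
      have : r - i = (r - (i + 1)) + 1 := by omega
      rw [this, pow_succ]; ring
    obtain ⟨δ', hδ'def⟩ : ∃ δ' : ℝ, δ' = c * ρ ^ (r - (i + 1)) := ⟨_, rfl⟩
    rw [← hδ'def] at hδ' ⊢
    have hδ'0 : 0 < δ' := by rw [hδ'def]; positivity
    refine ⟨P', hP', ?_, ?_, ?_⟩
    · intro x hx
      refine (hα' x (by rw [hw]; rw [pow_succ] at hx; omega)).trans ?_
      rw [hδ']
      have : K * (ρ * δ') + ρ * δ' = δ' * (K - 1 + ρ) := by linear_combination (-δ') * hKρ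
      rw [this]
      have h9 := mul_le_mul_of_nonneg_left (show K - 1 + ρ ≤ K by linarith) hδ'0.le
      linarith
    · refine hβ'.trans ?_
      rw [hδ']
      have e1 : (4 * K + 7) * K * (ρ * δ') + (2 * (2 * K * (ρ * δ')) + 7 * (ρ * δ')) =
          δ' * ((4 * K + 7) * (K * ρ + ρ)) := by ring
      rw [e1]
      have e2 : K * ρ + ρ ≤ K := by linarith
      have e3 : (4 * K + 7) * (K * ρ + ρ) ≤ (4 * K + 7) * K :=
        mul_le_mul_of_nonneg_left e2 (by positivity)
      have := mul_le_mul_of_nonneg_left e3 hδ'0.le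
      linarith
    · refine hγ'.trans ?_
      apply mul_le_mul_of_nonneg_right _ (by positivity)
      rw [hδ']
      have e2 : K * ρ + ρ ≤ K := by linarith
      have := mul_le_mul_of_nonneg_left e2 hδ'0.le
      linarith

theorem regime2 {F : PS} (hF : SP F) (hF0 : coeff 0 F = 0) (hF1 : 1 / 2 ≤ coeff 1 F)
    (Q ρ c : ℝ) (hQ : 1 ≤ Q) (hρ0 : 0 < ρ) (hρ1 : ρ < 1)
    (hρ5 : (1 + 2 * Q) / (1 + Q) / 2 ≤ ρ ^ 5) (hc : 98 * Q * (1 + Q) ≤ c ^ 5) (hc3 : 3 ≤ c)
    (r : ℕ) (hcase : ∀ i, i ≤ r → (2 ^ i : ℕ) * qw F (2 ^ i) ≤ Q * mw F (2 ^ i))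
    (T0 : ℕ) (hT0 : c * ρ ^ T0 ≤ 1) (hT0r : T0 ≤ r) :
    coeff (2 ^ r) (ren F) ≤ ((4 * (1 - ρ)⁻¹ + 7) * (1 - ρ)⁻¹ + (1 - ρ)⁻¹) * (c * ρ ^ T0) +
      2 ^ T0 / D F (2 ^ r) := by
  obtain ⟨P, hP, hα, hβ, -⟩ := chain hF hF0 hF1 Q ρ c hQ hρ0 hρ1 hρ5 hc hc3 r hcase T0 hT0 hT0r
    (r - T0) (by omega)
  rw [show r - (r - T0) = T0 by omega] at hα hβ
  have hDpos : ∀ i, 0 < D F (2 ^ i) := by
    intro i
    have h1 : D F 1 ≤ D F (2 ^ i) := D_mono hF Nat.one_le_two_pow
    have h2 : D F 1 = 1 := by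
      unfold D
      rw [sum_range_one, T_zero hF0]
    linarith
  have hfin := final_level hF hF0 hP (2 ^ (r - T0)) (2 ^ r) (hDpos _) _ hα
  have hgrow : ∀ t, D F (2 ^ (r - T0 + t)) ≤ 2 ^ t * D F (2 ^ (r - T0)) := by
    intro t
    induction t with
    | zero => simp
    | succ t iht =>
      have h2 := D_double hF (2 ^ (r - T0 + t))
      have e : 2 * 2 ^ (r - T0 + t) = 2 ^ (r - T0 + (t + 1)) := by ring
      rw [e] at h2
      have h3 : ((2 ^ (r - T0 + t) : ℕ) : ℝ) * qw F (2 ^ (r - T0 + t)) ≤ D F (2 ^ (r - T0 + t)) :=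
        tail_le hF _
      rw [pow_succ]
      linarith
  have h1 := hgrow T0
  rw [show r - T0 + T0 = r by omega] at h1
  have h2 : 1 / D F (2 ^ (r - T0)) ≤ 2 ^ T0 / D F (2 ^ r) := by
    rw [div_le_div_iff₀ (hDpos _) (hDpos _)]
    linarith
  linarith

end H19Dav
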