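import Mathlib

open MeasureTheory Filter Topology
open scoped NNReal

namespace H19PF

/-- `p` is a p-function on `[0,∞)`: it takes values in `[0,1]`, `p 0 = 1`, and there are a
probability space and events `E t` (`t ≥ 0`) in it such that for all `0 ≤ t₀ ≤ t₁ ≤ ... ≤ tₙ`
`P(E t₀ ∩ ... ∩ E tₙ) = p(t₀) * P(E (t₁ - t₀) ∩ ... ∩ E (tₙ - t₀))`. -/
def IsPFunction (p : ℝ≥0 → ℝ) : Prop :=
  (∀ t, 0 ≤ p t ∧ p t ≤ 1) ∧ p 0 = 1 ∧
  ∃ (Ω : Type) (_ : MeasurableSpace Ω) (P : Measure Ω) (E : ℝ≥0 → Set Ω),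
    IsProbabilityMeasure P ∧ (∀ t, MeasurableSet (E t)) ∧
    ∀ (n : ℕ) (t : Fin (n + 1) → ℝ≥0), Monotone t →
      P.real (⋂ i, E (t i)) = p (t 0) * P.real (⋂ i : Fin n, E (t i.succ - t 0))

/-- Standard p-functions: p-functions with `p t → 1` as `t → 0`. -/
def IsStandard (p : ℝ≥0 → ℝ) : Prop :=
  IsPFunction p ∧ Tendsto p (𝓝 0) (𝓝 1)

/-- `q` is a factor of `p` in the semigroup of standard p-functions under pointwise product. -/
def IsFactor (q p : ℝ≥0 → ℝ) : Prop :=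
  IsStandard q ∧ ∃ r : ℝ≥0 → ℝ, IsStandard r ∧ ∀ t, p t = q t * r t

/-- Infinitely divisible elements of the semigroup of standard p-functions. -/
def InfDiv (p : ℝ≥0 → ℝ) : Prop :=
  ∀ n : ℕ, 1 ≤ n → ∃ q : ℝ≥0 → ℝ, IsStandard q ∧ ∀ t, p t = q t ^ n

/-- The class `I₀`: standard p-functions all of whose factors are infinitely divisible. -/
def InI0 (p : ℝ≥0 → ℝ) : Prop :=
  IsStandard p ∧ ∀ q : ℝ≥0 → ℝ, IsFactor q p → InfDiv q

/-- The truncated exponential `p_{l,τ}(t) = exp(-l * min(τ,t))`. -/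
noncomputable def pTrunc (l τ : ℝ≥0) (t : ℝ≥0) : ℝ :=
  Real.exp (-((l : ℝ) * min (τ : ℝ) (t : ℝ)))

end H19PF
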