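import Mathlib
import Pool.Agent.Helpers.H19PFunDefs

set_option autoImplicit false
open scoped NNReal

namespace H19Dav

/-- The set of the values `m(M;p) = inf {p(t) : 0 ≤ t ≤ 1}`, over the standard p-functions `p`
with `p(1) = M`. -/
def mins (M : ℝ) : Set ℝ :=
  {m | ∃ p : ℝ≥0 → ℝ, H19PF.IsStandard p ∧ p 1 = M ∧ m = sInf (p '' Set.Icc 0 1)}

/-- The function `I(M)`, the infimum of `m(M;p)` over the standard p-functions with `p(1) = M`. -/
noncomputable def IM (M : ℝ) : ℝ := sInf (mins M)

end H19Dav
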