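import Mathlib
import Pool.Agent.Helpers.H19DavA
import Pool.Agent.Helpers.H19DavC
import Pool.Agent.Helpers.H19DavD

/-! First regime and the upper bound theorem. -/

open PowerSeries Finset

namespace H19Dav

lemma mean_eq {F : PS} (hF0 : coeff 0 F = 0) (w : ℕ) :
    ∑ j ∈ range (w + 1), (j : ℝ) * coeff j F = mw F w := by
  unfold mw
  induction w with
  | zero => simp [D]
  | succ w ih =>
    rw [sum_range_succ, ih]
    unfold D qw
    rw [sum_range_succ, coeff_T F (w + 1), coeff_T F w, cS F (w + 1), cS F w,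
      sum_range_succ _ (w + 1)]
    push_cast
    ring

lemma coeff_pow_mul_lt {A B : PS} (hA : coeff 0 A = 0) (k n : ℕ) (h : n < k) :
    coeff n (A ^ k * B) = 0 := by
  have h1 : (X : PS) ∣ A := by
    rw [X_dvd_iff, ← coeff_zero_eq_constantCoeff_apply]; exact hA
  obtain ⟨A', rfl⟩ := h1
  rw [mul_pow, mul_assoc, coeff_X_pow_mul', if_neg (by omega)]

lemma sq_series (A : PS) (K : ℕ) : (1 - A) ^ 2 * ∑ k ∈ range K, ((k : PS) + 1) * A ^ k =
    1 - ((K : PS) + 1) * A ^ K + (K : PS) * A ^ (K + 1) := by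
  induction K with
  | zero => simp
  | succ K ih =>
    rw [sum_range_succ, mul_add, ih]
    push_cast
    ring

lemma coeff_ren_sq {A : PS} (hA : coeff 0 A = 0) (n : ℕ) :
    coeff n (ren A * ren A) = ∑ k ∈ range (n + 1), ((k : ℝ) + 1) * coeff n (A ^ k) := by
  have h1 := ren_mul hA
  have h2 := sq_series A (n + 1)
  have h3 : ren A * ren A = ∑ k ∈ range (n + 1), ((k : PS) + 1) * A ^ k +
      A ^ (n + 1) * (ren A * ren A * (((n + 1 : ℕ) : PS) + 1 - ((n + 1 : ℕ) : PS) * A)) := by
    have h4 : (ren A * (1 - A)) ^ 2 * ∑ k ∈ range (n + 1), ((k : PS) + 1) * A ^ k =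
        (ren A * ren A) * ((1 - A) ^ 2 * ∑ k ∈ range (n + 1), ((k : PS) + 1) * A ^ k) := by ring
    rw [h1, one_pow, one_mul, h2] at h4
    rw [h4]
    ring
  rw [h3, map_add, coeff_pow_mul_lt hA (n + 1) n (by omega), add_zero, map_sum]
  apply sum_congr rfl
  intro k _
  have : ((k : PS) + 1) = C ((k : ℝ) + 1) := by rw [map_add, map_natCast, map_one]
  rw [this, coeff_C_mul]

lemma coeff_ren_sum {A : PS} (hA : coeff 0 A = 0) (n : ℕ) :
    coeff n (ren A) = ∑ k ∈ range (n + 1), coeff n (A ^ k) := by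
  rw [ren_geo hA (n + 1), map_add, coeff_pow_mul_lt hA (n + 1) n (by omega), add_zero]
  unfold geo
  rw [map_sum]

section regime1

variable {F : PS} (hF : SP F) (hF0 : coeff 0 F = 0) (hF1 : 1 / 2 ≤ coeff 1 F) (w : ℕ) (hw : 1 ≤ w)

include hF0 in
lemma Fs_zero : coeff 0 (Fs F w) = 0 := by
  rw [coeff_Fs, if_pos (Nat.zero_le _), hF0]

include hF hF0 hw in
/-- exponential decay of the Green function of the killed small walk -/
lemma G_decay (Q : ℝ) (hQ : 0 < Q) (hQm : Q * mw F w ≤ w * qw F w) (n : ℕ) :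
    coeff n (ren (Fs F w)) * ((1 + Q) ^ ((1 : ℝ) / w)) ^ n ≤ 1 := by
  obtain ⟨b, hb⟩ : ∃ b : ℝ, b = (1 + Q) ^ ((1 : ℝ) / w) := ⟨_, rfl⟩
  rw [← hb]
  have hb0 : 0 < b := by rw [hb]; positivity
  have hwr : (0:ℝ) < w := by exact_mod_cast hw
  have hbj : ∀ j : ℕ, j ≤ w → b ^ j ≤ 1 + (j / w) * Q := by
    intro j hj
    rw [hb, ← Real.rpow_natCast, ← Real.rpow_mul (by positivity)]
    have e : (1 : ℝ) / w * j = j / w := by ring
    rw [e]
    apply rpow_one_add_le_one_add_mul_self (by linarith) (by positivity)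
    rw [div_le_one hwr]
    exact_mod_cast hj
  have hsum : ∑ j ∈ range (w + 1), coeff j F * b ^ j ≤ 1 := by
    calc ∑ j ∈ range (w + 1), coeff j F * b ^ j
        ≤ ∑ j ∈ range (w + 1), (coeff j F + (Q / w) * (j * coeff j F)) := by
          apply sum_le_sum
          intro j hj
          have h1 := hbj j (by have := mem_range.1 hj; omega)
          have h2 := mul_le_mul_of_nonneg_left h1 (hF.1 j)
          refine h2.trans (le_of_eq ?_)
          ring
      _ = sw F w + (Q / w) * mw F w := by
          rw [sum_add_distrib, ← mul_sum, mean_eq hF0]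
          unfold sw
          rw [cS]
      _ ≤ sw F w + qw F w := by
          have : (Q / w) * mw F w ≤ qw F w := by
            rw [div_mul_eq_mul_div, div_le_iff₀ hwr]
            linarith
          linarith
      _ = 1 := by rw [sw_add_qw]; ring
  induction n using Nat.strong_induction_on with
  | _ n ih =>
    rw [ren_eq (Fs_zero hF0 w), map_add, add_mul, cmul, sum_mul]
    rcases Nat.eq_zero_or_pos n with rfl | hn
    · simp [Fs_zero hF0 w]
    · rw [coeff_one, if_neg (by omega), zero_mul, zero_add]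
      have hterm : ∀ j ∈ range (n + 1), coeff j (Fs F w) * coeff (n - j) (ren (Fs F w)) * b ^ n ≤
          coeff j (Fs F w) * b ^ j := by
        intro j hj
        have hj' := mem_range.1 hj
        rcases Nat.eq_zero_or_pos j with rfl | hj0
        · rw [Fs_zero hF0 w]; simp
        · have h1 := ih (n - j) (by omega)
          have h2 : b ^ n = b ^ j * b ^ (n - j) := by rw [← pow_add]; congr 1; omega
          rw [h2]
          calc coeff j (Fs F w) * coeff (n - j) (ren (Fs F w)) * (b ^ j * b ^ (n - j))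
              = coeff j (Fs F w) * b ^ j * (coeff (n - j) (ren (Fs F w)) * b ^ (n - j)) := by ring
            _ ≤ coeff j (Fs F w) * b ^ j * 1 := by
                apply mul_le_mul_of_nonneg_left h1
                exact mul_nonneg (NN_Fs hF.1 w j) (by positivity)
            _ = _ := mul_one _
      refine (sum_le_sum hterm).trans ?_
      refine le_trans ?_ hsum
      calc ∑ j ∈ range (n + 1), coeff j (Fs F w) * b ^ j
          ≤ ∑ j ∈ range (n + w + 1), coeff j (Fs F w) * b ^ j := by
            apply sum_le_sum_of_subset_of_nonneg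
            · intro j hj; rw [mem_range] at *; omega
            · intro j _ _
              exact mul_nonneg (NN_Fs hF.1 w j) (by positivity)
        _ = ∑ j ∈ range (w + 1), coeff j F * b ^ j := by
            rw [← sum_range_add_sum_Ico _ (show w + 1 ≤ n + w + 1 by omega)]
            have h1 : ∑ k ∈ Ico (w + 1) (n + w + 1), coeff k (Fs F w) * b ^ k = 0 := by
              apply sum_eq_zero
              intro k hk
              have := mem_Ico.1 hk
              rw [coeff_Fs, if_neg (by omega), zero_mul]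
            rw [h1, add_zero]
            apply sum_congr rfl
            intro j hj
            have := mem_range.1 hj
            rw [coeff_Fs, if_pos (by omega)]

include hF hF0 in
/-- total mass of the Green function -/
lemma G_total (n : ℕ) : qw F w * coeff n (ren (Fs F w) * S) ≤ 1 := by
  have h1 : ren (Fs F w) * T (Fs F w) = S := ren_mul_T (Fs_zero hF0 w)
  have h2 : coeff n (ren (Fs F w) * T (Fs F w)) = 1 := by rw [h1, coeff_S]
  rw [← h2, cS, cmul, mul_sum]
  apply sum_le_sum
  intro j _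
  rw [mul_comm]
  apply mul_le_mul_of_nonneg_left _ (NN_ren (NN_Fs hF.1 w) (Fs_zero hF0 w) j)
  rw [coeff_T]
  have := Fs_S_le hF.1 w (n - j)
  have h3 := sw_add_qw F w
  unfold sw at h3
  linarith

include hF hF0 hw in
lemma GG_decay (Q : ℝ) (hQ : 0 < Q) (hQm : Q * mw F w ≤ w * qw F w) (n i : ℕ)
    (hi : i * w ≤ n) (hq : 0 < qw F w) :
    qw F w * coeff n (ren (Fs F w) * ren (Fs F w)) ≤ 2 * ((Real.sqrt (1 + Q))⁻¹) ^ i := by
  obtain ⟨b, hb⟩ : ∃ b : ℝ, b = (1 + Q) ^ ((1 : ℝ) / w) := ⟨_, rfl⟩
  have hb1 : 1 ≤ b := by rw [hb]; exact Real.one_le_rpow (by linarith) (by positivity)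
  have hb0 : 0 < b := by linarith
  have hdec := G_decay hF hF0 w hw Q hQ hQm
  simp only [← hb] at hdec
  have hNNG := NN_ren (NN_Fs hF.1 w) (Fs_zero hF0 w)
  obtain ⟨x, hx⟩ : ∃ x : ℝ, x = ((Real.sqrt (1 + Q))⁻¹) ^ i := ⟨_, rfl⟩
  have hsq1 : 1 ≤ Real.sqrt (1 + Q) := by
    rw [show (1:ℝ) = Real.sqrt 1 by simp]; exact Real.sqrt_le_sqrt (by simp; linarith)
  have hx0 : 0 < x := by rw [hx]; positivity
  -- x ^ 2 = (1+Q)^{-i} and b ^ (i w) = (1+Q)^i
  have hbw : b ^ w = 1 + Q := by
    rw [hb, ← Real.rpow_natCast, ← Real.rpow_mul (by positivity)]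
    have : (w:ℝ) ≠ 0 := by
      have : (0:ℝ) < w := by exact_mod_cast hw
      exact this.ne'
    rw [one_div, inv_mul_cancel₀ this, Real.rpow_one]
  have hx2 : x ^ 2 * b ^ (i * w) = 1 := by
    rw [hx, mul_comm i w, pow_mul b, hbw, ← pow_mul, mul_comm i 2, pow_mul, inv_pow,
      Real.sq_sqrt (by positivity), ← mul_pow, inv_mul_cancel₀ (by positivity), one_pow]
  -- one of the two factors is at most x
  have hmin : ∀ j, j ≤ n → coeff j (ren (Fs F w)) ≤ x ∨ coeff (n - j) (ren (Fs F w)) ≤ x := by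
    intro j hj
    by_contra hcon
    push Not at hcon
    have h1 : x * x < coeff j (ren (Fs F w)) * coeff (n - j) (ren (Fs F w)) :=
      mul_lt_mul'' hcon.1 hcon.2 hx0.le hx0.le
    have h2 : coeff j (ren (Fs F w)) * coeff (n - j) (ren (Fs F w)) * b ^ n ≤ 1 := by
      have e : b ^ n = b ^ j * b ^ (n - j) := by rw [← pow_add]; congr 1; omega
      rw [e]
      calc coeff j (ren (Fs F w)) * coeff (n - j) (ren (Fs F w)) * (b ^ j * b ^ (n - j))
          = (coeff j (ren (Fs F w)) * b ^ j) * (coeff (n - j) (ren (Fs F w)) * b ^ (n - j)) := by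
            ring
        _ ≤ 1 := mul_le_one₀ (hdec j) (mul_nonneg (hNNG _) (by positivity)) (hdec (n - j))
    have h3 : b ^ (i * w) ≤ b ^ n := pow_le_pow_right₀ hb1 hi
    have h4 : x * x * b ^ n < 1 := by
      calc x * x * b ^ n < coeff j (ren (Fs F w)) * coeff (n - j) (ren (Fs F w)) * b ^ n :=
            mul_lt_mul_of_pos_right h1 (by positivity)
        _ ≤ 1 := h2
    have h5 : 1 ≤ x * x * b ^ n := by
      calc (1:ℝ) = x ^ 2 * b ^ (i * w) := hx2.symm
        _ ≤ x ^ 2 * b ^ n := mul_le_mul_of_nonneg_left h3 (by positivity)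
        _ = x * x * b ^ n := by ring
    linarith
  have h1 : coeff n (ren (Fs F w) * ren (Fs F w)) ≤
      x * coeff n (ren (Fs F w) * S) + x * coeff n (ren (Fs F w) * S) := by
    have e2 : coeff n (ren (Fs F w) * S) = ∑ j ∈ range (n + 1), coeff (n - j) (ren (Fs F w)) := by
      rw [cS, ← sum_range_reflect]
      apply sum_congr rfl
      intro j hj
      congr 1
    conv_rhs => rw [e2]
    nth_rewrite 2 [← e2]
    rw [cS]
    rw [cmul, mul_sum, mul_sum, ← sum_add_distrib]
    apply sum_le_sum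
    intro j hj
    have hj' := mem_range.1 hj
    have a1 := hNNG j
    have a2 := hNNG (n - j)
    rcases hmin j (by omega) with h | h
    · have := mul_le_mul_of_nonneg_right h a2
      have := mul_nonneg hx0.le a1
      linarith
    · have := mul_le_mul_of_nonneg_left h a1
      have := mul_nonneg hx0.le a2
      linarith
  have h2 := G_total hF hF0 w n
  rw [← hx]
  calc qw F w * coeff n (ren (Fs F w) * ren (Fs F w))
      ≤ qw F w * (x * coeff n (ren (Fs F w) * S) + x * coeff n (ren (Fs F w) * S)) :=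
        mul_le_mul_of_nonneg_left h1 hq.le
    _ = 2 * x * (qw F w * coeff n (ren (Fs F w) * S)) := by ring
    _ ≤ 2 * x * 1 := mul_le_mul_of_nonneg_left h2 (by positivity)
    _ = 2 * x := mul_one _

include hF hF0 hF1 hw in
/-- the one-jump bound -/
lemma GG_bound (n : ℕ) :
    qw F w * coeff n (ren (Fs F w) * ren (Fs F w)) ≤ Real.exp (qw F w - 1) := by
  have hs := sw_half hF hF1 w hw
  have hs' : 0 < sw F w := by linarith
  have hq := qw_nonneg hF w
  have hsq := sw_add_qw F w
  rw [coeff_ren_sq (Fs_zero hF0 w), mul_sum]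
  have hF1eq : ∀ k, coeff n (Fs F w ^ k) = sw F w ^ k * coeff n (F1 F w ^ k) := by
    intro k
    have : Fs F w = C (sw F w) * F1 F w := by
      unfold F1
      rw [← mul_assoc, ← map_mul, mul_inv_cancel₀ hs'.ne', map_one, one_mul]
    rw [this, mul_pow, ← map_pow, coeff_C_mul]
  have hterm : ∀ k ∈ range (n + 1), qw F w * (((k : ℝ) + 1) * coeff n (Fs F w ^ k)) ≤
      Real.exp (qw F w - 1) * coeff n (F1 F w ^ k) := by
    intro k _
    rw [hF1eq k]
    have h1 : qw F w * (k + 1) * sw F w ^ k ≤ Real.exp (qw F w - 1) := by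
      have a1 : sw F w ≤ Real.exp (-qw F w) := by
        have := Real.add_one_le_exp (-qw F w)
        linarith
      have a2 : sw F w ^ k ≤ Real.exp (-qw F w) ^ k := pow_le_pow_left₀ hs'.le a1 k
      rw [← Real.exp_nat_mul] at a2
      have a3 : qw F w * (k + 1) ≤ Real.exp (qw F w * (k + 1) - 1) := by
        have := Real.add_one_le_exp (qw F w * (k + 1) - 1)
        linarith
      calc qw F w * (k + 1) * sw F w ^ k
          ≤ Real.exp (qw F w * (k + 1) - 1) * Real.exp (k * -qw F w) :=
            mul_le_mul a3 a2 (by positivity) (Real.exp_pos _).le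
        _ = Real.exp (qw F w - 1) := by
            rw [← Real.exp_add]; congr 1; ring
    have h2 := ((SP_F1 hF hF1 w hw).1.pow k) n
    calc qw F w * (((k : ℝ) + 1) * (sw F w ^ k * coeff n (F1 F w ^ k)))
        = (qw F w * (k + 1) * sw F w ^ k) * coeff n (F1 F w ^ k) := by ring
      _ ≤ _ := mul_le_mul_of_nonneg_right h1 h2
  refine (sum_le_sum hterm).trans ?_
  rw [← mul_sum, ← coeff_ren_sum (F1_zero hF0 w)]
  have := ren_le_one (SP_F1 hF hF1 w hw) (F1_zero hF0 w) n
  calc Real.exp (qw F w - 1) * coeff n (ren (F1 F w)) ≤ Real.exp (qw F w - 1) * 1 :=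
        mul_le_mul_of_nonneg_left this (Real.exp_pos _).le
    _ = _ := mul_one _

/-- the big jump renewal measure -/
noncomputable def eta (F : PS) (w : ℕ) : PS := (F - Fs F w) * (1 + (F - Fs F w) * ren F)

include hF in
lemma NN_Fb : NN (F - Fs F w) := by
  intro j
  rw [map_sub, coeff_Fs]
  split_ifs
  · rw [sub_self]
  · rw [sub_zero]; exact hF.1 j

include hF hF0 in
lemma NN_eta : NN (eta F w) :=
  (NN_Fb hF w).mul (NN_one.add ((NN_Fb hF w).mul (NN_ren hF.1 hF0)))

include hF in
lemma Fb_total (n : ℕ) : coeff n ((F - Fs F w) * S) ≤ qw F w := by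
  have h1 : coeff n ((F - Fs F w) * S) ≤ coeff (n + w) ((F - Fs F w) * S) :=
    cS_mono (NN_Fb hF w) (by omega)
  refine h1.trans ?_
  rw [cS, ← sum_range_add_sum_Ico _ (show w + 1 ≤ n + w + 1 by omega)]
  have h3 : ∑ k ∈ range (w + 1), coeff k (F - Fs F w) = 0 := by
    apply sum_eq_zero
    intro k hk
    have := mem_range.1 hk
    rw [map_sub, coeff_Fs, if_pos (by omega), sub_self]
  have h4 : ∑ k ∈ Ico (w + 1) (n + w + 1), coeff k (F - Fs F w) =
      ∑ k ∈ Ico (w + 1) (n + w + 1), coeff k F := by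
    apply sum_congr rfl
    intro k hk
    have := mem_Ico.1 hk
    rw [map_sub, coeff_Fs, if_neg (by omega), sub_zero]
  have h5 := hF.2 (n + w)
  rw [cS, ← sum_range_add_sum_Ico _ (show w + 1 ≤ n + w + 1 by omega), ← cS] at h5
  have h6 : coeff w (F * S) = sw F w := rfl
  rw [h6, sw_add_qw] at h5
  rw [h3, h4, zero_add]
  linarith

include hF hF0 in
lemma ren_decomp : ren F = ren (Fs F w) + ren (Fs F w) * ren (Fs F w) * eta F w := by
  have h1 := ren_mul hF0
  have h2 := ren_mul (Fs_zero hF0 w)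
  -- ren F = G + G Fb U
  have h3 : ren F = ren (Fs F w) + ren (Fs F w) * ((F - Fs F w) * ren F) := by
    calc ren F = (ren (Fs F w) * (1 - Fs F w)) * ren F := by rw [h2, one_mul]
      _ = ren (Fs F w) * (ren F * (1 - F)) + ren (Fs F w) * ((F - Fs F w) * ren F) := by ring
      _ = _ := by rw [h1, mul_one]
  -- (1 - Fs) Fb U = eta
  have h4 : (1 - Fs F w) * ((F - Fs F w) * ren F) = eta F w := by
    unfold eta
    calc (1 - Fs F w) * ((F - Fs F w) * ren F)
        = (F - Fs F w) * (ren F * (1 - F) + (F - Fs F w) * ren F) := by ring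
      _ = _ := by rw [h1]
  rw [← h4]
  calc ren F = ren (Fs F w) + ren (Fs F w) * ((F - Fs F w) * ren F) := h3
    _ = ren (Fs F w) + (ren (Fs F w) * (1 - Fs F w)) * (ren (Fs F w) * ((F - Fs F w) * ren F)) := by
        rw [h2, one_mul]
    _ = _ := by ring

include hF hF0 in
/-- mass of `eta` in windows -/
lemma window (hq : 0 < qw F w) (n : ℕ) :
    ∑ k ∈ range (w + 1), (if k ≤ n then coeff (n - k) (eta F w) else 0) ≤ qw F w := by
  have h1 := ren_mul hF0
  have h2 := ren_mul (Fs_zero hF0 w)
  obtain ⟨H, hH⟩ : ∃ H, H = (F - Fs F w) * ren (Fs F w) := ⟨_, rfl⟩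
  have hNNH : NN H := by rw [hH]; exact (NN_Fb hF w).mul (NN_ren (NN_Fs hF.1 w) (Fs_zero hF0 w))
  have hSPH : SP H := by
    refine ⟨hNNH, fun m => ?_⟩
    rw [hH, mul_assoc, cmul]
    have h3 : ∀ j ∈ range (m + 1), coeff j (F - Fs F w) * coeff (m - j) (ren (Fs F w) * S) ≤
        coeff j (F - Fs F w) * (qw F w)⁻¹ := by
      intro j _
      apply mul_le_mul_of_nonneg_left _ (NN_Fb hF w j)
      have := G_total hF hF0 w (m - j)
      rw [← one_div, le_div_iff₀ hq]
      linarith
    refine (sum_le_sum h3).trans ?_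
    rw [← sum_mul, ← cS]
    have := Fb_total hF w m
    calc coeff m ((F - Fs F w) * S) * (qw F w)⁻¹ ≤ qw F w * (qw F w)⁻¹ :=
          mul_le_mul_of_nonneg_right this (inv_pos.2 hq).le
      _ = 1 := mul_inv_cancel₀ hq.ne'
  have hid : eta F w * T H = (F - Fs F w) * S := by
    unfold T eta
    rw [hH]
    calc (F - Fs F w) * (1 + (F - Fs F w) * ren F) * ((1 - (F - Fs F w) * ren (Fs F w)) * S)
        = (F - Fs F w) * (ren F * (1 - F) + (F - Fs F w) * ren F) *
            ((1 - (F - Fs F w) * ren (Fs F w)) * S) := by rw [h1]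
      _ = (F - Fs F w) * ren F * ((1 - Fs F w) - (F - Fs F w) * (ren (Fs F w) * (1 - Fs F w))) * S := by
          ring
      _ = (F - Fs F w) * (ren F * (1 - F)) * S := by rw [h2]; ring
      _ = _ := by rw [h1, mul_one]
  have hT1 : ∀ m, m ≤ w → coeff m (T H) = 1 := by
    intro m hm
    rw [coeff_T, cS]
    have : ∑ j ∈ range (m + 1), coeff j H = 0 := by
      apply sum_eq_zero
      intro j hj
      have hj' := mem_range.1 hj
      rw [hH, cmul]
      apply sum_eq_zero
      intro k hk
      have hk' := mem_range.1 hk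
      rw [map_sub, coeff_Fs, if_pos (by omega), sub_self, zero_mul]
    rw [this, sub_zero]
  have h3 : coeff n (eta F w * T H) ≤ qw F w := by rw [hid]; exact Fb_total hF w n
  refine le_trans ?_ h3
  rw [mul_comm (eta F w), cmul, ← sum_filter]
  calc ∑ k ∈ (range (w + 1)).filter (fun k => k ≤ n), coeff (n - k) (eta F w)
      = ∑ k ∈ (range (w + 1)).filter (fun k => k ≤ n), coeff k (T H) * coeff (n - k) (eta F w) := by
        apply sum_congr rfl
        intro k hk
        simp only [mem_filter, mem_range] at hk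
        rw [hT1 k (by omega), one_mul]
    _ ≤ ∑ k ∈ range (n + 1), coeff k (T H) * coeff (n - k) (eta F w) := by
        apply sum_le_sum_of_subset_of_nonneg
        · intro k hk
          simp only [mem_filter, mem_range] at *
          omega
        · intro k _ _
          exact mul_nonneg (NN_T hSPH k) (NN_eta hF hF0 w _)

include hF hF0 hF1 hw in
theorem regime1 (Q : ℝ) (hQ : 0 < Q) (hQm : Q * mw F w ≤ w * qw F w) (N : ℕ) (hwN : w ≤ N) :
    coeff N (ren F) ≤ (1 + Q)⁻¹ + Real.exp (qw F w - 1) + 2 / (Real.sqrt (1 + Q) - 1) := by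
  have hm := mw_pos hF hF1 w hw
  have hwr : (0:ℝ) < w := by exact_mod_cast hw
  have hq : 0 < qw F w := by
    by_contra hcon
    push Not at hcon
    have : 0 < Q * mw F w := by positivity
    nlinarith
  have hNNG := NN_ren (NN_Fs hF.1 w) (Fs_zero hF0 w)
  rw [ren_decomp hF hF0 w, map_add]
  -- first term
  have t1 : coeff N (ren (Fs F w)) ≤ (1 + Q)⁻¹ := by
    have hdec := G_decay hF hF0 w hw Q hQ hQm N
    obtain ⟨b, hb⟩ : ∃ b : ℝ, b = (1 + Q) ^ ((1 : ℝ) / w) := ⟨_, rfl⟩
    rw [← hb] at hdec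
    have hb1 : 1 ≤ b := by rw [hb]; exact Real.one_le_rpow (by linarith) (by positivity)
    have hbw : b ^ w = 1 + Q := by
      rw [hb, ← Real.rpow_natCast, ← Real.rpow_mul (by positivity)]
      rw [one_div, inv_mul_cancel₀ hwr.ne', Real.rpow_one]
    have h2 : 1 + Q ≤ b ^ N := by rw [← hbw]; exact pow_le_pow_right₀ hb1 hwN
    rw [← one_div, le_div_iff₀ (by positivity)]
    have := mul_le_mul_of_nonneg_left h2 (hNNG N)
    linarith
  -- second term
  obtain ⟨x, hx⟩ : ∃ x : ℝ, x = (Real.sqrt (1 + Q))⁻¹ := ⟨_, rfl⟩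
  have hsq1 : 1 < Real.sqrt (1 + Q) := by
    rw [show (1:ℝ) = Real.sqrt 1 by simp]; exact Real.sqrt_lt_sqrt (by norm_num) (by simp; linarith)
  have hx0 : 0 < x := by rw [hx]; positivity
  have hx1 : x < 1 := by rw [hx]; exact inv_lt_one_of_one_lt₀ hsq1
  obtain ⟨φ, hφ⟩ : ∃ φ : ℕ → ℝ, ∀ i, φ i = if i = 0 then Real.exp (qw F w - 1) else 2 * x ^ i :=
    ⟨_, fun _ => rfl⟩
  have hφ0 : ∀ i, 0 ≤ φ i := by
    intro i; rw [hφ]; split_ifs <;> positivity
  have hGG : ∀ i n, i * (w + 1) ≤ n → qw F w * coeff n (ren (Fs F w) * ren (Fs F w)) ≤ φ i := by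
    intro i n hn
    rw [hφ]
    split_ifs with h
    · exact GG_bound hF hF0 hF1 w hw n
    · rw [hx]
      exact GG_decay hF hF0 w hw Q hQ hQm n i (by nlinarith) hq
  have hblock : ∀ M : ℕ, ∑ n ∈ range (M * (w + 1)), (if n ≤ N then
      coeff n (ren (Fs F w) * ren (Fs F w)) * coeff (N - n) (eta F w) else 0) ≤
      ∑ i ∈ range M, φ i := by
    intro M
    induction M with
    | zero => simp
    | succ M ih =>
      rw [sum_range_succ, add_mul, one_mul, sum_range_add]
      apply add_le_add ih
      rcases Nat.lt_or_ge N (M * (w + 1)) with h | h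
      · have : ∑ k ∈ range (w + 1), (if M * (w + 1) + k ≤ N then
            coeff (M * (w + 1) + k) (ren (Fs F w) * ren (Fs F w)) *
              coeff (N - (M * (w + 1) + k)) (eta F w) else 0) = 0 := by
          apply sum_eq_zero
          intro k _
          rw [if_neg (by omega)]
        rw [this]; exact hφ0 M
      · have hwin := window hF hF0 w hq (N - M * (w + 1))
        have h1 : ∀ k ∈ range (w + 1), (if M * (w + 1) + k ≤ N then
            coeff (M * (w + 1) + k) (ren (Fs F w) * ren (Fs F w)) *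
              coeff (N - (M * (w + 1) + k)) (eta F w) else 0) ≤
            (φ M * (qw F w)⁻¹) * (if k ≤ N - M * (w + 1) then
              coeff (N - M * (w + 1) - k) (eta F w) else 0) := by
          intro k _
          by_cases hk : M * (w + 1) + k ≤ N
          · rw [if_pos hk, if_pos (by omega)]
            have e : N - M * (w + 1) - k = N - (M * (w + 1) + k) := by omega
            rw [e]
            apply mul_le_mul_of_nonneg_right _ (NN_eta hF hF0 w _)
            have := hGG M (M * (w + 1) + k) (by omega)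
            rw [← div_eq_mul_inv, le_div_iff₀ hq]
            linarith
          · rw [if_neg hk, if_neg (by omega), mul_zero]
        refine (sum_le_sum h1).trans ?_
        rw [← mul_sum]
        calc φ M * (qw F w)⁻¹ * _ ≤ φ M * (qw F w)⁻¹ * qw F w := by
              apply mul_le_mul_of_nonneg_left hwin
              exact mul_nonneg (hφ0 M) (inv_pos.2 hq).le
          _ = φ M := by rw [mul_assoc, inv_mul_cancel₀ hq.ne', mul_one]
  have t2 : coeff N (ren (Fs F w) * ren (Fs F w) * eta F w) ≤
      Real.exp (qw F w - 1) + 2 / (Real.sqrt (1 + Q) - 1) := by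
    have h1 := hblock (N + 1)
    have h2 : coeff N (ren (Fs F w) * ren (Fs F w) * eta F w) ≤
        ∑ n ∈ range ((N + 1) * (w + 1)), (if n ≤ N then
      coeff n (ren (Fs F w) * ren (Fs F w)) * coeff (N - n) (eta F w) else 0) := by
      rw [cmul, ← sum_filter]
      apply sum_le_sum_of_subset_of_nonneg
      · intro k hk
        simp only [mem_filter, mem_range] at *
        constructor
        · nlinarith
        · omega
      · intro k _ _
        exact mul_nonneg ((hNNG.mul hNNG) _) (NN_eta hF hF0 w _)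
    have h3 : ∑ i ∈ range (N + 1), φ i ≤ Real.exp (qw F w - 1) + 2 / (Real.sqrt (1 + Q) - 1) := by
      rw [sum_range_succ', hφ 0, if_pos rfl, add_comm]
      apply add_le_add le_rfl
      have h4 : ∀ i ∈ range N, φ (i + 1) = (2 * x) * x ^ i := by
        intro i _
        rw [hφ, if_neg (by omega), pow_succ]; ring
      rw [sum_congr rfl h4, ← mul_sum]
      have h5 : ∑ i ∈ range N, x ^ i ≤ (1 - x)⁻¹ := by
        have h6 := geom_sum_mul_neg x N
        rw [← one_div, le_div_iff₀ (by linarith), h6]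
        have : 0 ≤ x ^ N := by positivity
        linarith
      calc 2 * x * ∑ i ∈ range N, x ^ i ≤ 2 * x * (1 - x)⁻¹ :=
            mul_le_mul_of_nonneg_left h5 (by positivity)
        _ = 2 / (Real.sqrt (1 + Q) - 1) := by
            rw [hx]
            have : Real.sqrt (1 + Q) - 1 ≠ 0 := by linarith
            have h7 : Real.sqrt (1 + Q) ≠ 0 := by positivity
            have h8 : 1 - (Real.sqrt (1 + Q))⁻¹ ≠ 0 := by
              rw [← hx]; linarith
            field_simp
    linarith
  linarith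

end regime1

end H19Dav
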