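import Mathlib
import Pool.Agent.Helpers.H19DavA
import Pool.Agent.Helpers.H19DavC
import Pool.Agent.Helpers.H19DavD
import Pool.Agent.Helpers.H19DavE

/-! Upper bound theorem and lower bound theorem for renewal sequences. -/

open PowerSeries Finset

namespace H19Dav

lemma D_le {F : PS} (hF : NN F) (N : ℕ) : D F N ≤ N := by
  unfold D
  calc ∑ n ∈ range N, coeff n (T F) ≤ ∑ n ∈ range N, (1 : ℝ) := by
        apply sum_le_sum
        intro n _
        rw [coeff_T]
        have := (hF.mul NN_S) n
        linarith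
    _ = N := by simp

theorem upper (ε : ℝ) (hε : 0 < ε) : ∃ C β : ℝ, 0 < β ∧ β ≤ 1 / 2 ∧ ∀ F : PS, SP F →
    coeff 0 F = 0 → 1 - β ≤ coeff 1 F → ∀ r : ℕ, C ≤ D F (2 ^ r) →
    coeff (2 ^ r) (ren F) ≤ Real.exp (-1) + ε := by
  obtain ⟨Q, hQdef⟩ : ∃ Q : ℝ, Q = (2 + 8 / ε) ^ 2 - 1 := ⟨_, rfl⟩
  have h8 : 0 < 8 / ε := by positivity
  have hQ1 : 1 ≤ Q := by rw [hQdef]; nlinarith
  have hsqrt : Real.sqrt (1 + Q) = 2 + 8 / ε := by
    rw [hQdef]
    have : 1 + ((2 + 8 / ε) ^ 2 - 1) = (2 + 8 / ε) ^ 2 := by ring
    rw [this, Real.sqrt_sq (by positivity)]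
  have hA1 : (1 + Q)⁻¹ ≤ ε / 4 := by
    have h1 : 4 / ε ≤ 1 + Q := by
      have e : 8 / ε = 2 * (4 / ε) := by ring
      have h4 : 0 < 4 / ε := by positivity
      rw [hQdef, e]
      nlinarith
    calc (1 + Q)⁻¹ ≤ (4 / ε)⁻¹ := inv_anti₀ (by positivity) h1
      _ = ε / 4 := by rw [inv_div]
  have hA2 : 2 / (Real.sqrt (1 + Q) - 1) ≤ ε / 4 := by
    rw [hsqrt]
    have h1 : 8 / ε ≤ 2 + 8 / ε - 1 := by linarith
    calc 2 / (2 + 8 / ε - 1) ≤ 2 / (8 / ε) := div_le_div_of_nonneg_left (by norm_num) h8 h1
      _ = ε / 4 := by field_simp; norm_num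
  obtain ⟨ρ, hρdef⟩ : ∃ ρ : ℝ, ρ = 1 - 1 / (10 * (1 + Q)) := ⟨_, rfl⟩
  have hQQ : 0 < 1 / (10 * (1 + Q)) := by positivity
  have hQQ1 : 1 / (10 * (1 + Q)) ≤ 1 / 20 := by
    apply div_le_div_of_nonneg_left (by norm_num) (by norm_num)
    linarith
  have hρ1 : ρ < 1 := by rw [hρdef]; linarith
  have hρ0 : 0 < ρ := by rw [hρdef]; linarith
  have hρ5 : (1 + 2 * Q) / (1 + Q) / 2 ≤ ρ ^ 5 := by
    have h1 := one_add_mul_le_pow (a := -(1 / (10 * (1 + Q)))) (by linarith) 5
    have h2 : 1 + -(1 / (10 * (1 + Q))) = ρ := by rw [hρdef]; ring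
    rw [h2] at h1
    refine le_trans (le_of_eq ?_) h1
    have : (1 + Q) ≠ 0 := by positivity
    field_simp
    push_cast
    ring
  obtain ⟨c, hcdef⟩ : ∃ c : ℝ, c = 98 * Q * (1 + Q) + 3 := ⟨_, rfl⟩
  have hc3 : 3 ≤ c := by
    rw [hcdef]
    have : 0 ≤ 98 * Q * (1 + Q) := by positivity
    linarith
  have hc : 98 * Q * (1 + Q) ≤ c ^ 5 := by
    have h1 : c ≤ c ^ 5 := le_self_pow₀ (by linarith) (by norm_num)
    have h2 : 98 * Q * (1 + Q) ≤ c := by rw [hcdef]; linarith
    linarith
  obtain ⟨B, hB⟩ : ∃ B : ℝ, B = (4 * (1 - ρ)⁻¹ + 7) * (1 - ρ)⁻¹ + (1 - ρ)⁻¹ := ⟨_, rfl⟩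
  have h1ρ : 0 < 1 - ρ := by linarith
  have hB0 : 0 < B := by rw [hB]; positivity
  obtain ⟨T0, hT0⟩ := exists_pow_lt_of_lt_one (show 0 < min (1 / c) (ε / 2 / (B * c)) by positivity) hρ1
  have hT1 : c * ρ ^ T0 ≤ 1 := by
    have h1 : ρ ^ T0 ≤ 1 / c := hT0.le.trans (min_le_left _ _)
    rw [le_div_iff₀ (by linarith)] at h1
    linarith
  have hT2 : B * (c * ρ ^ T0) ≤ ε / 2 := by
    have h1 : ρ ^ T0 ≤ ε / 2 / (B * c) := hT0.le.trans (min_le_right _ _)
    rw [le_div_iff₀ (by positivity)] at h1
    linarith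
  refine ⟨max (2 ^ T0 * (2 / ε)) (2 ^ T0 + 1), min (1 / 2) (ε / 2), by positivity,
    min_le_left _ _, ?_⟩
  intro F hF hF0 hF1 r hC
  have hβ1 : min (1 / 2 : ℝ) (ε / 2) ≤ 1 / 2 := min_le_left _ _
  have hβ2 : min (1 / 2 : ℝ) (ε / 2) ≤ ε / 2 := min_le_right _ _
  have hF1' : 1 / 2 ≤ coeff 1 F := by linarith
  have hexp1 : 0 < Real.exp (-1) := Real.exp_pos _
  by_cases hcase : ∀ i, i ≤ r → (2 ^ i : ℕ) * qw F (2 ^ i) ≤ Q * mw F (2 ^ i)
  · have hr : T0 ≤ r := by
      by_contra hcon
      push Not at hcon
      have h1 := D_le hF.1 (2 ^ r)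
      have h2 : ((2 ^ r : ℕ) : ℝ) ≤ 2 ^ T0 := by
        push_cast
        exact pow_le_pow_right₀ (by norm_num) hcon.le
      have h3 : (2 : ℝ) ^ T0 + 1 ≤ D F (2 ^ r) := (le_max_right _ _).trans hC
      linarith
    have h1 := regime2 hF hF0 hF1' Q ρ c hQ1 hρ0 hρ1 hρ5 hc hc3 r hcase T0 hT1 hr
    rw [← hB] at h1
    have h2 : 2 ^ T0 / D F (2 ^ r) ≤ ε / 2 := by
      have h3 : (2 : ℝ) ^ T0 * (2 / ε) ≤ D F (2 ^ r) := (le_max_left _ _).trans hC
      have h4 : (0:ℝ) < 2 ^ T0 * (2 / ε) := by positivity
      rw [div_le_iff₀ (by linarith)]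
      calc (2 : ℝ) ^ T0 = ε / 2 * (2 ^ T0 * (2 / ε)) := by field_simp
        _ ≤ ε / 2 * D F (2 ^ r) := mul_le_mul_of_nonneg_left h3 (by positivity)
    linarith
  · push Not at hcase
    obtain ⟨i, hi, hcase⟩ := hcase
    have h1 := regime1 hF hF0 hF1' (2 ^ i) Nat.one_le_two_pow Q (by linarith) hcase.le (2 ^ r)
      (Nat.pow_le_pow_right (by norm_num) hi)
    have h2 : qw F (2 ^ i) ≤ min (1 / 2) (ε / 2) := by
      have h3 : qw F (2 ^ i) ≤ coeff 1 (T F) := T_anti hF.1 Nat.one_le_two_pow
      rw [coeff_T, cS, sum_range_succ, sum_range_one, hF0] at h3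
      linarith
    have hq0 := qw_nonneg hF (2 ^ i)
    have h3 : Real.exp (qw F (2 ^ i) - 1) ≤ Real.exp (-1) + ε / 2 := by
      obtain ⟨q, hq⟩ : ∃ q, q = qw F (2 ^ i) := ⟨_, rfl⟩
      rw [← hq] at h2 hq0 ⊢
      have a1 : Real.exp (q - 1) = Real.exp (-1) * Real.exp q := by
        rw [← Real.exp_add]; congr 1; ring
      have a2 : Real.exp q ≤ 1 + 2 * q := by
        have b1 := Real.add_one_le_exp (-q)
        have b2 : Real.exp q * Real.exp (-q) = 1 := by rw [← Real.exp_add]; simp
        have b3 : Real.exp q * (1 - q) ≤ 1 := by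
          rw [← b2]
          exact mul_le_mul_of_nonneg_left (by linarith) (Real.exp_pos _).le
        have b4 : 1 ≤ (1 + 2 * q) * (1 - q) := by nlinarith
        have b5 : Real.exp q * (1 - q) ≤ (1 + 2 * q) * (1 - q) := b3.trans b4
        exact le_of_mul_le_mul_right b5 (by linarith)
      have a3 : Real.exp (-1) ≤ 1 / 2 := by
        have b1 := Real.add_one_le_exp (1 : ℝ)
        rw [Real.exp_neg, one_div]
        exact inv_anti₀ (by norm_num) (by linarith)
      rw [a1]
      calc Real.exp (-1) * Real.exp q ≤ Real.exp (-1) * (1 + 2 * q) :=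
            mul_le_mul_of_nonneg_left a2 hexp1.le
        _ = Real.exp (-1) + Real.exp (-1) * (2 * q) := by ring
        _ ≤ Real.exp (-1) + 1 / 2 * (2 * q) := by
            have := mul_le_mul_of_nonneg_right a3 (show 0 ≤ 2 * q by linarith)
            linarith
        _ ≤ Real.exp (-1) + ε / 2 := by linarith
    linarith

/-! ### Schnirelmann -/

open Classical in
/-- counting function -/
noncomputable def cnt (A : Set ℕ) (n : ℕ) : ℕ := ((Icc 1 n).filter (fun j => j ∈ A)).card

open Classical in
lemma schnirelmann (A B C : Set ℕ) (N : ℕ) (hA0 : 0 ∈ A) (hB0 : 0 ∈ B)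
    (hAB : ∀ a ∈ A, ∀ b ∈ B, a + b ≤ N → a + b ∈ C) (β : ℝ) (hβ0 : 0 ≤ β)
    (hB : ∀ n, n ≤ N → β * n ≤ cnt B n) :
    ∀ n, n ≤ N → (1 - β) * cnt A n + β * n ≤ cnt C n := by
  intro n
  induction n using Nat.strong_induction_on with
  | _ n ih =>
    intro hn
    obtain ⟨a, ha⟩ : ∃ a, a = Nat.findGreatest (fun j => j ∈ A) n := ⟨_, rfl⟩
    have haA : a ∈ A := by
      rw [ha]; exact Nat.findGreatest_spec (P := fun j => j ∈ A) (Nat.zero_le n) hA0
    have han : a ≤ n := by rw [ha]; exact Nat.findGreatest_le n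
    have hgap : ∀ j, a < j → j ≤ n → j ∉ A := by
      intro j h1 h2 h3
      have := Nat.le_findGreatest (P := fun j => j ∈ A) h2 h3
      omega
    rcases Nat.eq_zero_or_pos a with h0 | hpos
    · have h1 : cnt A n = 0 := by
        unfold cnt
        rw [card_eq_zero, filter_eq_empty_iff]
        intro j hj
        have := mem_Icc.1 hj
        exact hgap j (by omega) this.2
      have h2 : cnt B n ≤ cnt C n := by
        unfold cnt
        apply card_le_card
        intro j hj
        rw [mem_filter, mem_Icc] at *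
        refine ⟨hj.1, ?_⟩
        have := hAB 0 hA0 j hj.2 (by omega)
        rwa [zero_add] at this
      have h3 := hB n hn
      have h4 : (cnt B n : ℝ) ≤ cnt C n := by exact_mod_cast h2
      rw [h1]
      simp only [Nat.cast_zero, mul_zero, zero_add]
      linarith
    · have hA : cnt A n = cnt A (a - 1) + 1 := by
        unfold cnt
        have : (Icc 1 n).filter (fun j => j ∈ A) =
            insert a ((Icc 1 (a - 1)).filter (fun j => j ∈ A)) := by
          ext j
          rw [mem_insert, mem_filter, mem_filter, mem_Icc, mem_Icc]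
          constructor
          · rintro ⟨h1, h2⟩
            by_cases h : j = a
            · exact Or.inl h
            · right
              refine ⟨⟨h1.1, ?_⟩, h2⟩
              by_contra hcon
              exact hgap j (by omega) h1.2 h2
          · rintro (h | h)
            · subst h; exact ⟨⟨hpos, han⟩, haA⟩
            · exact ⟨⟨h.1.1, by omega⟩, h.2⟩
        rw [this, card_insert_of_notMem]
        rw [mem_filter, mem_Icc]
        rintro ⟨h1, _⟩
        omega
      have hC : cnt C (a - 1) + (1 + cnt B (n - a)) ≤ cnt C n := by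
        unfold cnt
        have h1 : ((Icc 1 (a - 1)).filter (fun j => j ∈ C)) ∪
            (insert a (((Icc 1 (n - a)).filter (fun j => j ∈ B)).image (fun j => a + j))) ⊆
            (Icc 1 n).filter (fun j => j ∈ C) := by
          intro j hj
          rw [mem_union, mem_filter, mem_insert, mem_image] at hj
          rw [mem_filter, mem_Icc]
          rcases hj with h | h | ⟨b, hb, rfl⟩
          · rw [mem_Icc] at h
            exact ⟨⟨h.1.1, by omega⟩, h.2⟩
          · subst h
            have := hAB j haA 0 hB0 (by omega)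
            exact ⟨⟨hpos, han⟩, by simpa using this⟩
          · rw [mem_filter, mem_Icc] at hb
            exact ⟨⟨by omega, by omega⟩, hAB a haA b hb.2 (by omega)⟩
        have h2 := card_le_card h1
        rw [card_union_of_disjoint, card_insert_of_notMem, card_image_of_injective] at h2
        · omega
        · intro x y hxy
          simpa using hxy
        · rw [mem_image]
          rintro ⟨b, hb, hb2⟩
          rw [mem_filter, mem_Icc] at hb
          omega
        · rw [disjoint_left]
          intro j hj hj2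
          rw [mem_filter, mem_Icc] at hj
          rw [mem_insert, mem_image] at hj2
          rcases hj2 with h | ⟨b, hb, h⟩
          · omega
          · omega
      have h1 := ih (a - 1) (by omega) (by omega)
      have h2 := hB (n - a) (by omega)
      have h3 : ((cnt C (a - 1) + (1 + cnt B (n - a)) : ℕ) : ℝ) ≤ cnt C n := by exact_mod_cast hC
      rw [hA]
      have h4 : ((a - 1 : ℕ) : ℝ) = a - 1 := by rw [Nat.cast_sub (by omega), Nat.cast_one]
      have h5 : ((n - a : ℕ) : ℝ) = n - a := by rw [Nat.cast_sub han]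
      rw [h4] at h1
      rw [h5] at h2
      push_cast at h3 ⊢
      linarith

lemma supermult {F : PS} (hF : NN F) (hF0 : coeff 0 F = 0) (i j : ℕ) :
    coeff i (ren F) * coeff j (ren F) ≤ coeff (i + j) (ren F) := by
  have hU := NN_ren hF hF0
  induction i using Nat.strong_induction_on with
  | _ i ih =>
    rcases Nat.eq_zero_or_pos i with rfl | hi
    · rw [ren_zero hF0, one_mul, zero_add]
    · have h1 : coeff i (ren F) = ∑ k ∈ range (i + 1), coeff k F * coeff (i - k) (ren F) := by
        conv_lhs => rw [ren_eq hF0]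
        rw [map_add, coeff_one, if_neg (by omega), zero_add, cmul]
      have h2 : coeff (i + j) (ren F) =
          ∑ k ∈ range (i + j + 1), coeff k F * coeff (i + j - k) (ren F) := by
        conv_lhs => rw [ren_eq hF0]
        rw [map_add, coeff_one, if_neg (by omega), zero_add, cmul]
      rw [h1, h2, sum_mul]
      calc ∑ k ∈ range (i + 1), coeff k F * coeff (i - k) (ren F) * coeff j (ren F)
          ≤ ∑ k ∈ range (i + 1), coeff k F * coeff (i + j - k) (ren F) := by
            apply sum_le_sum
            intro k hk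
            have hk' := mem_range.1 hk
            rcases Nat.eq_zero_or_pos k with rfl | hk0
            · rw [hF0]; simp
            · rw [mul_assoc]
              apply mul_le_mul_of_nonneg_left _ (hF k)
              have := ih (i - k) (by omega)
              rw [show i - k + j = i + j - k by omega] at this
              exact this
        _ ≤ _ := by
            apply sum_le_sum_of_subset_of_nonneg
            · intro k hk; rw [mem_range] at *; omega
            · intro k _ _
              exact mul_nonneg (hF k) (hU _)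

lemma UM {F : PS} (hF : SP F) (hF0 : coeff 0 F = 0) (n : ℕ) :
    (n : ℝ) ≤ (∑ j ∈ range n, coeff j (ren F)) * D F n := by
  rcases Nat.eq_zero_or_pos n with rfl | hn
  · simp
  obtain ⟨m, rfl⟩ : ∃ m, n = m + 1 := ⟨n - 1, by omega⟩
  have h1 : coeff m (ren F * T F * S) = (m + 1 : ℕ) := by
    rw [cS]
    have : ∀ j ∈ range (m + 1), coeff j (ren F * T F) = 1 := by
      intro j _
      rw [ren_mul_T hF0, coeff_S]
    rw [sum_congr rfl this]
    simp
  rw [← h1, mul_assoc, cmul, sum_mul]
  apply sum_le_sum
  intro j _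
  apply mul_le_mul_of_nonneg_left _ (NN_ren hF.1 hF0 j)
  have h2 := cS_mono (NN_T hF) (Nat.sub_le m j)
  refine h2.trans (le_of_eq ?_)
  rw [cS]; rfl

open Classical in
theorem lower (C : ℝ) (hC : 1 ≤ C) : ∃ κ β : ℝ, 0 < κ ∧ 0 < β ∧ ∀ F : PS, SP F →
    coeff 0 F = 0 → 1 - β ≤ coeff 1 F → ∀ N : ℕ, D F N ≤ C → ∀ n, n ≤ N → κ ≤ coeff n (ren F) := by
  obtain ⟨α, hα⟩ : ∃ α : ℝ, α = 1 / (2 * C) := ⟨_, rfl⟩
  have hα0 : 0 < α := by rw [hα]; positivity
  have hα1 : α ≤ 1 / 2 := by
    rw [hα]
    apply div_le_div_of_nonneg_left (by norm_num) (by norm_num)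
    linarith
  obtain ⟨h, hh⟩ := exists_pow_lt_of_lt_one (show (0:ℝ) < 1 / 2 by norm_num)
    (show 1 - α / 2 < 1 by linarith)
  refine ⟨α ^ (2 * h), α / 4, by positivity, by positivity, ?_⟩
  intro F hF hF0 hF1 N hN n hn
  have hU := NN_ren hF.1 hF0
  have hU1 : coeff 1 (ren F) = coeff 1 F := by
    rw [ren_eq hF0, map_add, coeff_one, if_neg (by norm_num), zero_add, cmul, sum_range_succ,
      sum_range_one, hF0]
    simp [ren_zero hF0]
  have hpow : ∀ j : ℕ, (1 - α / 4) ^ j ≤ coeff j (ren F) := by
    intro j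
    induction j with
    | zero => rw [pow_zero, ren_zero hF0]
    | succ j ihj =>
      rw [pow_succ]
      refine le_trans ?_ (supermult hF.1 hF0 j 1)
      rw [hU1]
      exact mul_le_mul ihj hF1 (by linarith) (hU j)
  obtain ⟨A, hA⟩ : ∃ A : ℕ → Set ℕ, ∀ k, A k = {j | α ^ k ≤ coeff j (ren F)} := ⟨_, fun _ => rfl⟩
  have hA0 : ∀ k, 0 ∈ A k := by
    intro k
    rw [hA]
    show α ^ k ≤ coeff 0 (ren F)
    rw [ren_zero hF0]
    exact pow_le_one₀ hα0.le (by linarith)
  -- density of A 1
  have hdens1 : ∀ m, m ≤ N → (α / 2) * m ≤ cnt (A 1) m := by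
    intro m hm
    by_cases hsmall : (m : ℝ) < 2 / α
    · have hall : cnt (A 1) m = m := by
        unfold cnt
        rw [filter_true_of_mem, Nat.card_Icc]
        · simp
        · intro j hj
          have hj' := mem_Icc.1 hj
          rw [hA]
          show α ^ 1 ≤ coeff j (ren F)
          rw [pow_one]
          refine le_trans ?_ (hpow j)
          have h1 := one_add_mul_le_pow (a := -(α / 4)) (by linarith) j
          have h2 : (1 : ℝ) + -(α / 4) = 1 - α / 4 := by ring
          rw [h2] at h1
          refine le_trans ?_ h1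
          have h3 : (j : ℝ) ≤ m := by exact_mod_cast hj'.2
          have h4 : (j : ℝ) * α < 2 := by
            rw [lt_div_iff₀ hα0] at hsmall
            nlinarith
          linarith
      rw [hall]
      have : (0:ℝ) ≤ m := Nat.cast_nonneg _
      nlinarith
    · push Not at hsmall
      rw [div_le_iff₀ hα0] at hsmall
      have hm1 : 1 ≤ m := by
        by_contra hcon
        have : m = 0 := by omega
        rw [this] at hsmall
        norm_num at hsmall
      have h1 := UM hF hF0 m
      have h2 : D F m ≤ C := (D_mono hF hm).trans hN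
      have hsum0 : 0 ≤ ∑ j ∈ range m, coeff j (ren F) := sum_nonneg fun j _ => hU j
      have h3 : (m : ℝ) ≤ (∑ j ∈ range m, coeff j (ren F)) * C :=
        h1.trans (mul_le_mul_of_nonneg_left h2 hsum0)
      -- the sum is at most (#A in [0,m)) + α m
      have h4 : ∑ j ∈ range m, coeff j (ren F) ≤
          ((range m).filter (fun j => j ∈ A 1)).card + α * m := by
        calc ∑ j ∈ range m, coeff j (ren F)
            ≤ ∑ j ∈ range m, ((if j ∈ A 1 then (1:ℝ) else 0) + α) := by
              apply sum_le_sum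
              intro j _
              split_ifs with hj
              · have := ren_le_one hF hF0 j
                linarith
              · rw [hA] at hj
                have : ¬ α ^ 1 ≤ coeff j (ren F) := hj
                rw [pow_one] at this
                push Not at this
                linarith
          _ = _ := by
              rw [sum_add_distrib, sum_boole, sum_const, card_range, nsmul_eq_mul]
              ring
      have h5 : (((range m).filter (fun j => j ∈ A 1)).card : ℝ) ≤ cnt (A 1) m + 1 := by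
        have : ((range m).filter (fun j => j ∈ A 1)).card ≤ cnt (A 1) m + 1 := by
          unfold cnt
          have hsub : (range m).filter (fun j => j ∈ A 1) ⊆
              insert 0 ((Icc 1 m).filter (fun j => j ∈ A 1)) := by
            intro j hj
            rw [mem_filter, mem_range] at hj
            rw [mem_insert, mem_filter, mem_Icc]
            rcases Nat.eq_zero_or_pos j with h | h
            · exact Or.inl h
            · exact Or.inr ⟨⟨h, hj.1.le⟩, hj.2⟩
          exact (card_le_card hsub).trans (card_insert_le _ _)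
        exact_mod_cast this
      have hCα : C * α = 1 / 2 := by rw [hα]; field_simp
      -- m/C <= sum
      have h6 : 2 * α * m ≤ ∑ j ∈ range m, coeff j (ren F) := by
        have h7 : C * (2 * α * m) ≤ C * ∑ j ∈ range m, coeff j (ren F) := by
          calc C * (2 * α * m) = (C * α) * 2 * m := by ring
            _ = m := by rw [hCα]; ring
            _ ≤ _ := by linarith
        exact le_of_mul_le_mul_left h7 (by linarith)
      linarith
  have hdens : ∀ k, ∀ m, m ≤ N → (1 - (1 - α / 2) ^ k) * m ≤ cnt (A k) m := by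
    intro k
    induction k with
    | zero =>
      intro m _
      simp
    | succ k ihk =>
      intro m hm
      have hβ0 : 0 ≤ 1 - (1 - α / 2) ^ k := by
        have : (1 - α / 2) ^ k ≤ 1 := pow_le_one₀ (by linarith) (by linarith)
        linarith
      have h1 := schnirelmann (A 1) (A k) (A (k + 1)) N (hA0 1) (hA0 k) (by
        intro a ha b hb _
        rw [hA] at ha hb ⊢
        show α ^ (k + 1) ≤ coeff (a + b) (ren F)
        refine le_trans ?_ (supermult hF.1 hF0 a b)
        rw [pow_succ, mul_comm]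
        have ha' : α ^ 1 ≤ coeff a (ren F) := ha
        rw [pow_one] at ha'
        exact mul_le_mul ha' hb (by positivity) (hU a)) _ hβ0 ihk m hm
      refine le_trans ?_ h1
      have h2 := hdens1 m hm
      have h3 : 0 ≤ (1 - α / 2) ^ k := pow_nonneg (by linarith) k
      have h4 := mul_le_mul_of_nonneg_left h2 h3
      have e : 1 - (1 - (1 - α / 2) ^ k) = (1 - α / 2) ^ k := by ring
      rw [e, pow_succ]
      linarith
  -- conclusion
  have hd := hdens h n hn
  have hd2 : (1:ℝ) / 2 * n ≤ cnt (A h) n := by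
    refine le_trans ?_ hd
    apply mul_le_mul_of_nonneg_right _ (Nat.cast_nonneg _)
    linarith
  have hex : ∃ j, j ≤ n ∧ j ∈ A h ∧ n - j ∈ A h := by
    by_contra hcon
    push Not at hcon
    -- two disjoint subsets of [0,n]
    have h1 : Disjoint ((range (n + 1)).filter (fun j => j ∈ A h))
        ((range (n + 1)).filter (fun j => n - j ∈ A h)) := by
      rw [disjoint_left]
      intro j hj hj2
      rw [mem_filter, mem_range] at hj hj2
      exact hcon j (by omega) hj.2 hj2.2
    have h2 : ((range (n + 1)).filter (fun j => n - j ∈ A h)).card =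
        ((range (n + 1)).filter (fun j => j ∈ A h)).card := by
      apply card_bij (fun j _ => n - j)
      · intro j hj
        rw [mem_filter, mem_range] at *
        exact ⟨by omega, hj.2⟩
      · intro j hj j' hj' h
        rw [mem_filter, mem_range] at *
        omega
      · intro j hj
        rw [mem_filter, mem_range] at hj
        refine ⟨n - j, ?_, by omega⟩
        rw [mem_filter, mem_range]
        refine ⟨by omega, ?_⟩
        rw [show n - (n - j) = j by omega]
        exact hj.2
    have h3 : ((range (n + 1)).filter (fun j => j ∈ A h)).card +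
        ((range (n + 1)).filter (fun j => n - j ∈ A h)).card ≤ n + 1 := by
      rw [← card_union_of_disjoint h1]
      calc _ ≤ (range (n + 1)).card := by
            apply card_le_card
            apply union_subset <;> exact filter_subset _ _
        _ = n + 1 := card_range _
    have h4 : cnt (A h) n + 1 ≤ ((range (n + 1)).filter (fun j => j ∈ A h)).card := by
      unfold cnt
      have : insert 0 ((Icc 1 n).filter (fun j => j ∈ A h)) ⊆
          (range (n + 1)).filter (fun j => j ∈ A h) := by
        intro j hj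
        rw [mem_insert, mem_filter, mem_Icc] at hj
        rw [mem_filter, mem_range]
        rcases hj with h | h
        · subst h; exact ⟨by omega, hA0 _⟩
        · exact ⟨by omega, h.2⟩
      have h5 := card_le_card this
      rw [card_insert_of_notMem] at h5
      · exact h5
      · rw [mem_filter, mem_Icc]; rintro ⟨h, _⟩; omega
    rw [h2] at h3
    have h6 : 2 * (cnt (A h) n + 1) ≤ n + 1 := by omega
    have h7 : (2:ℝ) * (cnt (A h) n + 1) ≤ n + 1 := by exact_mod_cast h6
    linarith
  obtain ⟨j, hj, hj1, hj2⟩ := hex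
  rw [hA] at hj1 hj2
  have h1 : α ^ h ≤ coeff j (ren F) := hj1
  have h2 : α ^ h ≤ coeff (n - j) (ren F) := hj2
  have h3 := supermult hF.1 hF0 j (n - j)
  rw [show j + (n - j) = n by omega] at h3
  refine le_trans ?_ h3
  rw [two_mul, pow_add]
  exact mul_le_mul h1 h2 (by positivity) (hU j)

end H19Dav
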