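import Mathlib

set_option autoImplicit false
open MeasureTheory Set Filter Topology ProbabilityTheory

namespace H19Dav

/-- Uniqueness of Laplace transforms on the half line. -/
theorem laplace_unique (g : ℝ → ℝ)
    (hint : ∀ s : ℝ, 0 < s → IntegrableOn (fun t => Real.exp (-(s*t)) * g t) (Ioi 0))
    (h0 : ∀ s : ℝ, 0 < s → ∫ t in Ioi (0:ℝ), Real.exp (-(s*t)) * g t = 0) :
    ∀ᵐ t ∂(volume.restrict (Ioi (0:ℝ))), g t = 0 := by
  set ν : Measure ℝ := volume.restrict (Ioi (0:ℝ)) with hν
  set φ : ℝ → ℝ := fun t => Real.exp (-t) * g t with hφ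
  have hφi : Integrable φ ν := by
    have := hint 1 one_pos
    simpa [IntegrableOn] using this
  have hφs : ∀ s : ℝ, s < 1 → Integrable (fun t => Real.exp (s*t) * φ t) ν := by
    intro s hs
    have := hint (1 - s) (by linarith)
    refine this.congr (ae_of_all _ fun t => ?_)
    simp only [hφ]
    rw [← mul_assoc, ← Real.exp_add]
    congr 2; ring
  have hφ0 : ∀ s : ℝ, s < 1 → ∫ t, Real.exp (s*t) * φ t ∂ν = 0 := by
    intro s hs
    rw [← h0 (1 - s) (by linarith)]
    refine integral_congr_ae (ae_of_all _ fun t => ?_)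
    simp only [hφ]
    rw [← mul_assoc, ← Real.exp_add]
    congr 2; ring
  -- the general facts about a density
  have key : ∀ ψ : ℝ → ℝ, AEMeasurable ψ ν →
      (∀ s : ℝ, s < 1 → Integrable (fun t => Real.exp (s*t) * ψ t) ν) →
      ∀ s : ℝ, s < 1 → s ∈ integrableExpSet id (ν.withDensity (fun t => ENNReal.ofReal (ψ t))) := by
    intro ψ hψ hi s hs
    simp only [integrableExpSet, Set.mem_ofPred_eq, id]
    rw [integrable_withDensity_iff_integrable_smul₀' hψ.ennreal_ofReal
      (ae_of_all _ fun _ => ENNReal.ofReal_lt_top)]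
    refine (hi s hs).mono ?_ (ae_of_all _ fun t => ?_)
    · exact ((hψ.ennreal_ofReal.ennreal_toReal).aestronglyMeasurable).mul
        (by fun_prop : Continuous fun x : ℝ => Real.exp (s * x)).aestronglyMeasurable
    · simp only [smul_eq_mul, norm_mul, ENNReal.toReal_ofReal', Real.norm_eq_abs]
      rw [mul_comm]
      refine mul_le_mul_of_nonneg_left ?_ (abs_nonneg _)
      rcases le_total (ψ t) 0 with h | h
      · simp [max_eq_right h]
      · simp [max_eq_left h]
  have keyz : ∀ ψ : ℝ → ℝ, AEMeasurable ψ ν → ∀ z : ℂ,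
      complexMGF id (ν.withDensity (fun t => ENNReal.ofReal (ψ t))) z =
        ∫ t, (max (ψ t) 0) • Complex.exp (z * t) ∂ν := by
    intro ψ hψ z
    rw [complexMGF, integral_withDensity_eq_integral_toReal_smul₀ hψ.ennreal_ofReal
      (ae_of_all _ fun _ => ENNReal.ofReal_lt_top)]
    refine integral_congr_ae (ae_of_all _ fun t => ?_)
    simp [ENNReal.toReal_ofReal']
  set μ1 := ν.withDensity (fun t => ENNReal.ofReal (φ t)) with hμ1
  set μ2 := ν.withDensity (fun t => ENNReal.ofReal (-φ t)) with hμ2
  have i1 : IsFiniteMeasure μ1 := isFiniteMeasure_withDensity_ofReal hφi.2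
  have i2 : IsFiniteMeasure μ2 := isFiniteMeasure_withDensity_ofReal hφi.neg.2
  have hm : AEMeasurable φ ν := hφi.aestronglyMeasurable.aemeasurable
  have hmn : AEMeasurable (fun t => -φ t) ν := hm.neg
  have e1 : Iio (1:ℝ) ⊆ interior (integrableExpSet id μ1) := by
    refine interior_maximal (fun s hs => key φ hm hφs s hs) isOpen_Iio
  have e2 : Iio (1:ℝ) ⊆ interior (integrableExpSet id μ2) := by
    refine interior_maximal (fun s hs => key (fun t => -φ t) hmn (fun s hs => ?_) s hs) isOpen_Iio
    have := (hφs s hs).neg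
    refine this.congr (ae_of_all _ fun t => ?_)
    simp
  have a1 : AnalyticOnNhd ℂ (complexMGF id μ1) {z : ℂ | z.re < 1} :=
    analyticOnNhd_complexMGF.mono (fun z hz => e1 hz)
  have a2 : AnalyticOnNhd ℂ (complexMGF id μ2) {z : ℂ | z.re < 1} :=
    analyticOnNhd_complexMGF.mono (fun z hz => e2 hz)
  have hreal : ∀ s : ℝ, s < 1 → complexMGF id μ1 s = complexMGF id μ2 s := by
    intro s hs
    rw [complexMGF_ofReal, complexMGF_ofReal]
    congr 1
    rw [mgf, mgf, hμ1, hμ2, integral_withDensity_eq_integral_toReal_smul₀ hm.ennreal_ofReal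
      (ae_of_all _ fun _ => ENNReal.ofReal_lt_top),
      integral_withDensity_eq_integral_toReal_smul₀ hmn.ennreal_ofReal
      (ae_of_all _ fun _ => ENNReal.ofReal_lt_top)]
    rw [← sub_eq_zero, ← integral_sub]
    · rw [← hφ0 s hs]
      refine integral_congr_ae (ae_of_all _ fun t => ?_)
      simp only [ENNReal.toReal_ofReal', smul_eq_mul, id, Pi.neg_apply]
      rw [← sub_mul, mul_comm]
      congr 1
      rcases le_total (φ t) 0 with h | h
      · rw [max_eq_right h, max_eq_left (by linarith)]; ring
      · rw [max_eq_left h, max_eq_right (by linarith)]; ring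
    · have := key φ hm hφs s hs
      simp only [integrableExpSet, Set.mem_ofPred_eq, id] at this
      rw [integrable_withDensity_iff_integrable_smul₀' hm.ennreal_ofReal
        (ae_of_all _ fun _ => ENNReal.ofReal_lt_top)] at this
      exact this
    · have := key (fun t => -φ t) hmn (fun s hs => (by
        have := (hφs s hs).neg
        refine this.congr (ae_of_all _ fun t => ?_)
        simp)) s hs
      simp only [integrableExpSet, Set.mem_ofPred_eq, id] at this
      rw [integrable_withDensity_iff_integrable_smul₀' hmn.ennreal_ofReal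
        (ae_of_all _ fun _ => ENNReal.ofReal_lt_top)] at this
      exact this
  have hconv : Convex ℝ {z : ℂ | z.re < 1} := convex_halfSpace_re_lt 1
  have hE : Set.EqOn (complexMGF id μ1) (complexMGF id μ2) {z : ℂ | z.re < 1} := by
    refine AnalyticOnNhd.eqOn_of_preconnected_of_frequently_eq a1 a2 hconv.isPreconnected
      (z₀ := (0:ℂ)) (by simp) ?_
    have hT : Tendsto (fun n : ℕ => ((-(1/((n:ℝ)+1)) : ℝ) : ℂ)) atTop (𝓝[≠] (0:ℂ)) := by
      rw [tendsto_nhdsWithin_iff]
      constructor
      · have : Tendsto (fun n : ℕ => (-(1/((n:ℝ)+1)) : ℝ)) atTop (𝓝 (-0)) :=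
          tendsto_one_div_add_atTop_nhds_zero_nat.neg
        rw [neg_zero] at this
        exact_mod_cast (Complex.continuous_ofReal.tendsto 0).comp this
      · refine Eventually.of_forall fun n => ?_
        simp only [Set.mem_compl_iff, Set.mem_singleton_iff, Complex.ofReal_eq_zero, neg_eq_zero]
        positivity
    refine hT.frequently (Eventually.of_forall fun n => ?_).frequently
    apply hreal
    have : (0:ℝ) < 1/((n:ℝ)+1) := by positivity
    linarith
  have hμ : μ1 = μ2 := by
    refine Measure.ext_of_charFun ?_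
    ext t
    rw [← complexMGF_id_mul_I, ← complexMGF_id_mul_I]
    apply hE
    simp
  have hae := (withDensity_eq_iff hm.ennreal_ofReal hmn.ennreal_ofReal
    (by
      have := hφi.2
      have h2 : ∫⁻ t, ENNReal.ofReal (φ t) ∂ν ≤ ∫⁻ t, ‖φ t‖ₑ ∂ν := by
        refine lintegral_mono fun t => ?_
        exact Real.ofReal_le_enorm (φ t)
      exact (h2.trans_lt this).ne)).1 hμ
  filter_upwards [hae] with t ht
  have h3 : φ t = 0 := by
    rcases lt_trichotomy (φ t) 0 with h | h | h
    · exfalso
      have h4 : ENNReal.ofReal (φ t) = 0 := ENNReal.ofReal_of_nonpos h.le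
      rw [h4] at ht
      have h5 : 0 < ENNReal.ofReal (-φ t) := ENNReal.ofReal_pos.2 (by linarith)
      have h6 : ENNReal.ofReal (-φ t) = 0 := ht.symm
      exact absurd h6 h5.ne'
    · exact h
    · exfalso
      have h4 : ENNReal.ofReal (-φ t) = 0 := ENNReal.ofReal_of_nonpos (by linarith)
      have h5 : 0 < ENNReal.ofReal (φ t) := ENNReal.ofReal_pos.2 h
      have h6 : ENNReal.ofReal (φ t) = ENNReal.ofReal (-φ t) := ht
      rw [h4] at h6
      exact absurd h6 h5.ne'
  have h7 : Real.exp (-t) * g t = 0 := h3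
  rcases mul_eq_zero.1 h7 with h | h
  · exact absurd h (Real.exp_pos _).ne'
  · exact h

end H19Dav
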