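import Mathlib
import Pool.Agent.Helpers.H19DavG

set_option autoImplicit false
open MeasureTheory Set Filter Topology

namespace H19Dav

lemma integrable_one_sub_exp (μ : Measure ℝ) (h0 : μ (Iic 0) = 0)
    (hμ : Integrable (fun x : ℝ => 1 - Real.exp (-x)) μ) (s : ℝ) (hs : 0 < s) :
    Integrable (fun x : ℝ => 1 - Real.exp (-(s * x))) μ := by
  obtain ⟨n, hn⟩ := exists_nat_ge s
  have hn0 : 0 < (n:ℝ) := lt_of_lt_of_le hs hn
  have hpos : ∀ᵐ x ∂μ, 0 < x := by
    have : μ {x | ¬ 0 < x} = 0 := by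
      have e : {x : ℝ | ¬ 0 < x} = Iic 0 := by ext x; simp
      rw [e]; exact h0
    exact this
  refine (hμ.const_mul (n:ℝ)).mono ?_ ?_
  · exact (by fun_prop : Continuous fun x : ℝ => 1 - Real.exp (-(s * x))).aestronglyMeasurable
  · filter_upwards [hpos] with x hx
    have h1 : Real.exp (-(s*x)) ≤ 1 := Real.exp_le_one_iff.2 (by nlinarith)
    have h2 : Real.exp (-x) ≤ 1 := Real.exp_le_one_iff.2 (by linarith)
    rw [Real.norm_eq_abs, Real.norm_eq_abs, abs_of_nonneg (by linarith),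
      abs_of_nonneg (mul_nonneg hn0.le (by linarith))]
    have h3 : Real.exp (-x) ^ n ≤ Real.exp (-(s*x)) := by
      rw [← Real.exp_nat_mul]
      apply Real.exp_le_exp.2
      nlinarith
    have h4 : 1 + (n:ℝ) * (Real.exp (-x) - 1) ≤ (1 + (Real.exp (-x) - 1))^n :=
      one_add_mul_le_pow (by linarith [Real.exp_pos (-x)]) n
    have h5 : (1 + (Real.exp (-x) - 1)) = Real.exp (-x) := by ring
    rw [h5] at h4
    linarith

lemma tail_lt_top (μ : Measure ℝ)
    (hμ : Integrable (fun x : ℝ => 1 - Real.exp (-x)) μ) (x : ℝ) (hx : 0 < x) :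
    μ (Ioi x) < ⊤ := by
  have hc : 0 < 1 - Real.exp (-x) := by
    have : Real.exp (-x) < Real.exp 0 := Real.exp_lt_exp.2 (by linarith)
    rw [Real.exp_zero] at this
    linarith
  refine lt_of_le_of_lt (measure_mono ?_) (hμ.measure_norm_ge_lt_top hc)
  intro y hy
  simp only [mem_Ioi] at hy
  have : Real.exp (-y) ≤ Real.exp (-x) := Real.exp_le_exp.2 (by linarith)
  show 1 - Real.exp (-x) ≤ ‖1 - Real.exp (-y)‖
  rw [Real.norm_eq_abs]
  exact le_trans (by linarith) (le_abs_self _)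

lemma tail_laplace (μ : Measure ℝ) (h0 : μ (Iic 0) = 0)
    (hμ : Integrable (fun x : ℝ => 1 - Real.exp (-x)) μ) (s : ℝ) (hs : 0 < s) :
    IntegrableOn (fun t => Real.exp (-(s*t)) * μ.real (Ioi t)) (Ioi 0) ∧
    ∫ t in Ioi (0:ℝ), Real.exp (-(s*t)) * μ.real (Ioi t) =
      (∫ x, (1 - Real.exp (-(s * x))) ∂μ) / s := by
  have hpos : ∀ᵐ x ∂μ, 0 < x := by
    have : μ {x | ¬ 0 < x} = 0 := by
      have e : {x : ℝ | ¬ 0 < x} = Iic 0 := by ext x; simp
      rw [e]; exact h0
    exact this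
  have hi := integrable_one_sub_exp μ h0 hμ s hs
  have hint : ∀ x : ℝ, ∫ t in (0:ℝ)..x, s * Real.exp (-(s*t)) = 1 - Real.exp (-(s*x)) := by
    intro x
    have hd : ∀ t ∈ uIcc 0 x, HasDerivAt (fun t => - Real.exp (-(s*t))) (s * Real.exp (-(s*t))) t := by
      intro t _
      have h1 : HasDerivAt (fun t : ℝ => -(s*t)) (-(s*1)) t := ((hasDerivAt_id t).const_mul s).neg
      have h2 : HasDerivAt (fun t => - Real.exp (-(s*t))) (-(Real.exp (-(s*t)) * (-(s*1)))) t :=
        h1.exp.neg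
      convert h2 using 1
      ring
    rw [intervalIntegral.integral_eq_sub_of_hasDerivAt hd]
    · simp only [mul_zero, neg_zero, Real.exp_zero]; ring
    · exact (by fun_prop : Continuous fun t : ℝ => s * Real.exp (-(s*t))).intervalIntegrable _ _
  have hlc := lintegral_comp_eq_lintegral_meas_lt_mul (f := fun x : ℝ => x)
    (g := fun t => s * Real.exp (-(s*t))) μ (by filter_upwards [hpos] with x hx using hx.le)
    aemeasurable_id
    (fun t _ => (by fun_prop : Continuous fun t : ℝ => s * Real.exp (-(s*t))).intervalIntegrable _ _)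
    (ae_of_all _ fun t => by positivity)
  simp only [hint] at hlc
  have hnn : 0 ≤ᵐ[μ] fun x : ℝ => 1 - Real.exp (-(s*x)) := by
    filter_upwards [hpos] with x hx
    have h1 : Real.exp (-(s*x)) ≤ 1 := Real.exp_le_one_iff.2 (by nlinarith)
    show 0 ≤ 1 - Real.exp (-(s*x))
    linarith
  rw [← ofReal_integral_eq_lintegral_ofReal hi hnn] at hlc
  -- measurability
  have hmeas : Measurable (fun t : ℝ => μ.real (Ioi t)) := by
    have : Antitone (fun t : ℝ => μ (Ioi t)) := fun a b hab => measure_mono (Ioi_subset_Ioi hab)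
    exact this.measurable.ennreal_toReal
  have hfun : ∀ᵐ t ∂(volume.restrict (Ioi (0:ℝ))), μ {a : ℝ | t < a} * ENNReal.ofReal (s * Real.exp (-(s*t)))
      = ENNReal.ofReal (s * (Real.exp (-(s*t)) * μ.real (Ioi t))) := by
    rw [ae_restrict_iff' measurableSet_Ioi]
    refine ae_of_all _ fun t ht => ?_
    have h1 := tail_lt_top μ hμ t ht
    have h2 : μ {a : ℝ | t < a} = ENNReal.ofReal (μ.real (Ioi t)) := by
      rw [Measure.real, ENNReal.ofReal_toReal h1.ne]; rfl
    rw [h2, ← ENNReal.ofReal_mul measureReal_nonneg]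
    congr 1; ring
  rw [lintegral_congr_ae hfun] at hlc
  have hi2 : Integrable (fun t => s * (Real.exp (-(s*t)) * μ.real (Ioi t))) (volume.restrict (Ioi (0:ℝ))) := by
    refine ⟨((by fun_prop : Measurable fun t : ℝ => Real.exp (-(s*t))).mul hmeas).const_mul s |>.aestronglyMeasurable, ?_⟩
    rw [hasFiniteIntegral_iff_ofReal (ae_of_all _ fun t => by positivity), ← hlc]
    exact ENNReal.ofReal_lt_top
  have hi3 : Integrable (fun t => Real.exp (-(s*t)) * μ.real (Ioi t)) (volume.restrict (Ioi (0:ℝ))) := by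
    have := hi2.const_mul s⁻¹
    refine this.congr (ae_of_all _ fun t => ?_)
    field_simp
  refine ⟨hi3, ?_⟩
  rw [← ofReal_integral_eq_lintegral_ofReal hi2 (ae_of_all _ fun t => by positivity)] at hlc
  have h5 := (ENNReal.ofReal_eq_ofReal_iff (integral_nonneg_of_ae hnn)
    (integral_nonneg fun t => by positivity)).1 hlc
  rw [integral_const_mul] at h5
  rw [h5]
  field_simp

/-- the kernel -/
noncomputable def Kf (μ : Measure ℝ) (a : ℝ) (x : ℝ) : ℝ := a + μ.real (Ioi x)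

lemma Kf_nonneg (μ : Measure ℝ) (a : ℝ) (ha : 0 ≤ a) (x : ℝ) : 0 ≤ Kf μ a x :=
  add_nonneg ha measureReal_nonneg

lemma Kf_anti (μ : Measure ℝ) (hμ : Integrable (fun x : ℝ => 1 - Real.exp (-x)) μ) (a : ℝ) :
    AntitoneOn (Kf μ a) (Ioi 0) := by
  intro x hx y hy hxy
  unfold Kf
  have := measureReal_mono (μ := μ) (Ioi_subset_Ioi hxy) (tail_lt_top μ hμ x hx).ne
  linarith

lemma exp_neg_mul_integrable (s : ℝ) (hs : 0 < s) :
    IntegrableOn (fun t : ℝ => Real.exp (-(s*t))) (Ioi 0) ∧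
    ∫ t in Ioi (0:ℝ), Real.exp (-(s*t)) = 1 / s := by
  constructor
  · have := exp_neg_integrableOn_Ioi 0 hs
    simpa [neg_mul] using this
  · have := integral_exp_neg_mul_rpow (p := 1) one_pos hs
    have h2 := integral_exp_mul_Ioi (a := -s) (by linarith) 0
    simp only [neg_mul] at h2
    rw [h2]
    simp

lemma Kf_laplace (μ : Measure ℝ) (h0 : μ (Iic 0) = 0)
    (hμ : Integrable (fun x : ℝ => 1 - Real.exp (-x)) μ) (a : ℝ) (s : ℝ) (hs : 0 < s) :
    IntegrableOn (fun t => Real.exp (-(s*t)) * Kf μ a t) (Ioi 0) ∧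
    ∫ t in Ioi (0:ℝ), Real.exp (-(s*t)) * Kf μ a t =
      (a + ∫ x, (1 - Real.exp (-(s * x))) ∂μ) / s := by
  obtain ⟨h1, h2⟩ := tail_laplace μ h0 hμ s hs
  obtain ⟨h3, h4⟩ := exp_neg_mul_integrable s hs
  have e : ∀ t, Real.exp (-(s*t)) * Kf μ a t =
      a * Real.exp (-(s*t)) + Real.exp (-(s*t)) * μ.real (Ioi t) := by
    intro t; unfold Kf; ring
  constructor
  · refine ((h3.const_mul a).add h1).congr (ae_of_all _ fun t => ?_)
    simp [e]
  · simp only [e]
    rw [integral_add (h3.const_mul a) h1, h2, integral_const_mul, h4]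
    ring

end H19Dav
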