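import Mathlib
import Pool.Agent.Helpers.H19DavH

set_option autoImplicit false
open MeasureTheory Set Filter Topology

namespace H19Dav

/-- the kernel, set to zero off `(0,∞)`. -/
noncomputable def Kk (μ : Measure ℝ) (a : ℝ) : ℝ → ℝ := (Ioi (0:ℝ)).indicator (Kf μ a)

lemma Kk_nonneg (μ : Measure ℝ) (a : ℝ) (ha : 0 ≤ a) (x : ℝ) : 0 ≤ Kk μ a x :=
  Set.indicator_nonneg (fun x _ => Kf_nonneg μ a ha x) x

lemma Kk_anti (μ : Measure ℝ) (hμ : Integrable (fun x : ℝ => 1 - Real.exp (-x)) μ) (a : ℝ) :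
    AntitoneOn (Kk μ a) (Ioi 0) := by
  intro x hx y hy hxy
  have := Kf_anti μ hμ a hx hy hxy
  unfold Kk
  rwa [indicator_of_mem hx, indicator_of_mem hy]

lemma Kf_meas (μ : Measure ℝ) (a : ℝ) : Measurable (Kf μ a) := by
  have : Antitone (fun t : ℝ => μ (Ioi t)) := fun a b hab => measure_mono (Ioi_subset_Ioi hab)
  exact this.measurable.ennreal_toReal.const_add a

lemma Kk_meas (μ : Measure ℝ) (a : ℝ) : Measurable (Kk μ a) :=
  (Kf_meas μ a).indicator measurableSet_Ioi

lemma Kk_intervalIntegrable (μ : Measure ℝ) (h0 : μ (Iic 0) = 0)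
    (hμ : Integrable (fun x : ℝ => 1 - Real.exp (-x)) μ) (a : ℝ) (ha : 0 ≤ a) (A B : ℝ) :
    IntervalIntegrable (Kk μ a) volume A B := by
  set T := max A B with hT
  have h1 := (Kf_laplace μ h0 hμ a 1 one_pos).1
  have h2 : Integrable ((Ioi (0:ℝ)).indicator (fun t => Real.exp (-(1*t)) * Kf μ a t)) volume := by
    rw [integrable_indicator_iff measurableSet_Ioi]; exact h1
  have h3 : IntegrableOn (Kk μ a) (Iic T) volume := by
    refine Integrable.mono' ((h2.const_mul (Real.exp T)).integrableOn (s := Iic T))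
      (Kk_meas μ a).aestronglyMeasurable ?_
    rw [ae_restrict_iff' measurableSet_Iic]
    refine ae_of_all _ fun t ht => ?_
    rw [Real.norm_eq_abs, abs_of_nonneg (Kk_nonneg μ a ha t)]
    unfold Kk
    by_cases h : t ∈ Ioi (0:ℝ)
    · rw [indicator_of_mem h, indicator_of_mem h, ← mul_assoc, ← Real.exp_add]
      have h5 : 1 ≤ Real.exp (T + -(1*t)) := Real.one_le_exp (by simp only [mem_Iic] at ht; linarith)
      have := Kf_nonneg μ a ha t
      nlinarith
    · rw [indicator_of_notMem h, indicator_of_notMem h]; simp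
  rw [intervalIntegrable_iff]
  refine h3.mono_set ?_
  intro x hx
  rw [uIoc, mem_Ioc] at hx
  exact hx.2

/-- continuity of the forward convolution -/
lemma conv_continuousAt (P : ℝ → ℝ) (hP : Continuous P) (k : ℝ → ℝ) (hk : Measurable k)
    (hki : ∀ A B : ℝ, IntervalIntegrable k volume A B) (x0 : ℝ) (hx0 : 0 ≤ x0) :
    ContinuousAt (fun x => ∫ z in (0:ℝ)..x, P (x - z) * k z) x0 := by
  obtain ⟨B, hB⟩ := (isCompact_Icc (a := x0 - 1 - (x0+1)) (b := x0 + 1 + 1)).exists_bound_of_continuousOn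
    hP.continuousOn
  have h := intervalIntegral.continuousAt_parametric_primitive_of_dominated (μ := volume)
    (F := fun x z => P (x - z) * k z) (fun z => B * |k z|) (-1) (x0+1) (a₀ := 0) (b₀ := x0) (x₀ := x0)
    (fun x => ((by fun_prop : Continuous fun z => P (x - z)).measurable.mul hk).aestronglyMeasurable)
    (by
      have : Ioo (x0 - 1) (x0 + 1) ∈ 𝓝 x0 := Ioo_mem_nhds (by linarith) (by linarith)
      filter_upwards [this] with x hx
      rw [uIoc_of_le (by linarith), ae_restrict_iff' measurableSet_Ioc]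
      refine ae_of_all _ fun z hz => ?_
      rw [norm_mul]
      rw [Real.norm_eq_abs (k z)]
      refine mul_le_mul_of_nonneg_right (hB _ ⟨?_, ?_⟩) (abs_nonneg _)
      · have := hx.1; have := hz.2; linarith
      · have := hx.2; have := hz.1; linarith)
    ((hki _ _).abs.const_mul B)
    (ae_of_all _ fun z => by fun_prop)
    ⟨by norm_num, by linarith⟩ ⟨by linarith, by linarith⟩ (by simp)
  have h2 : ContinuousAt (fun x : ℝ => (x, x)) x0 := by fun_prop
  exact ContinuousAt.comp (g := fun p : ℝ × ℝ => ∫ t in (0:ℝ)..p.2, P (p.1 - t) * k t) (f := fun x : ℝ => (x,x)) h h2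

theorem volterra (p : ℝ → ℝ) (hp : ContinuousOn p (Ici 0)) (μ : Measure ℝ) (h0 : μ (Iic 0) = 0)
    (hμ : Integrable (fun x : ℝ => 1 - Real.exp (-x)) μ) (a : ℝ) (ha : 0 ≤ a)
    (hL : ∀ s : ℝ, 0 < s → (∫ t in Ioi (0:ℝ), Real.exp (-(s * t)) * p t) *
            (s + a + ∫ x, (1 - Real.exp (-(s * x))) ∂μ) = 1) :
    ∀ t : ℝ, 0 ≤ t → p t + ∫ z in (0:ℝ)..t, p (t - z) * Kk μ a z = 1 := by
  set k := Kk μ a with hk
  have hkm : Measurable k := Kk_meas μ a
  have hki : ∀ A B : ℝ, IntervalIntegrable k volume A B := Kk_intervalIntegrable μ h0 hμ a ha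
  have hkL : ∀ s : ℝ, 0 < s → IntegrableOn (fun t => Real.exp (-(s*t)) * k t) (Ioi 0) ∧
      ∫ t in Ioi (0:ℝ), Real.exp (-(s*t)) * k t = (a + ∫ x, (1 - Real.exp (-(s * x))) ∂μ) / s := by
    intro s hs
    obtain ⟨h1, h2⟩ := Kf_laplace μ h0 hμ a s hs
    have e : ∀ t ∈ Ioi (0:ℝ), Real.exp (-(s*t)) * k t = Real.exp (-(s*t)) * Kf μ a t := by
      intro t ht
      rw [hk, Kk, indicator_of_mem ht]
    constructor
    · exact (integrableOn_congr_fun e measurableSet_Ioi).2 h1
    · rw [setIntegral_congr_fun measurableSet_Ioi e, h2]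
  have hPi : ∀ s : ℝ, 0 < s → IntegrableOn (fun t => Real.exp (-(s*t)) * p t) (Ioi 0) := by
    intro s hs
    by_contra hc
    have := hL s hs
    rw [integral_undef hc, zero_mul] at this
    exact zero_ne_one this
  -- the convolution
  set q : ℝ → ℝ := fun x => ∫ t in (0:ℝ)..x, p t * k (x - t) with hq
  have hconv : ∀ s x : ℝ, ∫ t in (0:ℝ)..x, (ContinuousLinearMap.mul ℝ ℝ) (Real.exp (-(s*t)) * p t)
      (Real.exp (-(s*(x-t))) * k (x-t)) = Real.exp (-(s*x)) * q x := by
    intro s x
    rw [hq, ← intervalIntegral.integral_const_mul]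
    refine intervalIntegral.integral_congr fun t _ => ?_
    simp only [ContinuousLinearMap.mul_apply']
    have : Real.exp (-(s*x)) = Real.exp (-(s*t)) * Real.exp (-(s*(x-t))) := by
      rw [← Real.exp_add]; congr 1; ring
    rw [this]; ring
  have hqi : ∀ s : ℝ, 0 < s → IntegrableOn (fun t => Real.exp (-(s*t)) * q t) (Ioi 0) := by
    intro s hs
    have h1 := integrable_posConvolution (hPi s hs) (hkL s hs).1 (ContinuousLinearMap.mul ℝ ℝ)
    unfold posConvolution at h1
    rw [integrable_indicator_iff measurableSet_Ioi] at h1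
    simpa only [hconv] using h1
  have hqL : ∀ s : ℝ, 0 < s → ∫ t in Ioi (0:ℝ), Real.exp (-(s*t)) * q t =
      (∫ t in Ioi (0:ℝ), Real.exp (-(s*t)) * p t) * (∫ t in Ioi (0:ℝ), Real.exp (-(s*t)) * k t) := by
    intro s hs
    have h1 := integral_posConvolution (hPi s hs) (hkL s hs).1 (ContinuousLinearMap.mul ℝ ℝ)
    simp only [hconv] at h1
    exact h1
  have hae := laplace_unique (fun t => p t + q t - 1) (by
    intro s hs
    have h1 := ((hPi s hs).add (hqi s hs)).sub (exp_neg_mul_integrable s hs).1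
    refine h1.congr (ae_of_all _ fun t => ?_)
    simp only [Pi.sub_apply, Pi.add_apply]
    ring) (by
    intro s hs
    have e : ∀ t, Real.exp (-(s*t)) * (p t + q t - 1) =
      (Real.exp (-(s*t)) * p t + Real.exp (-(s*t)) * q t) - Real.exp (-(s*t)) := by
      intro t; ring
    simp only [e]
    have i1 : Integrable (fun t => Real.exp (-(s*t)) * p t + Real.exp (-(s*t)) * q t)
        (volume.restrict (Ioi (0:ℝ))) := (hPi s hs).add (hqi s hs)
    rw [integral_sub i1 (exp_neg_mul_integrable s hs).1,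
      integral_add (hPi s hs) (hqi s hs), hqL s hs, (exp_neg_mul_integrable s hs).2, (hkL s hs).2]
    have := hL s hs
    field_simp
    linarith)
  -- continuity
  set P : ℝ → ℝ := fun x => p (max x 0) with hP
  have hPc : Continuous P := by
    have : Continuous (fun x : ℝ => max x 0) := by fun_prop
    exact hp.comp_continuous this (fun x => le_max_right x 0)
  have hq2 : ∀ x : ℝ, 0 ≤ x → q x = ∫ z in (0:ℝ)..x, p (x - z) * k z := by
    intro x hx
    have := intervalIntegral.integral_comp_sub_left (a := 0) (b := x) (fun t => p t * k (x - t)) x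
    simp only [sub_zero, sub_self, sub_sub_cancel] at this
    simp only [hq]
    rw [this]
  have hq3 : ∀ x : ℝ, 0 ≤ x → q x = ∫ z in (0:ℝ)..x, P (x - z) * k z := by
    intro x hx
    rw [hq2 x hx]
    refine intervalIntegral.integral_congr fun z hz => ?_
    rw [uIcc_of_le hx] at hz
    simp only [hP]
    rw [max_eq_left (by linarith [hz.2])]
  have hqc : ContinuousOn q (Ici 0) := by
    intro x hx
    have h1 := (conv_continuousAt P hPc k hkm hki x hx).continuousWithinAt (s := Ici 0)
    refine h1.congr (fun y hy => hq3 y hy) (hq3 x hx)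
  have hgc : ContinuousOn (fun t => p t + q t - 1) (Ici 0) := (hp.add hqc).sub continuousOn_const
  have hz : EqOn (fun t => p t + q t - 1) (fun _ => 0) (Ici 0) := by
    refine Measure.eqOn_of_ae_eq (μ := volume) ?_ hgc continuousOn_const ?_
    · rw [← restrict_Ioi_eq_restrict_Ici]
      exact hae
    · rw [interior_Ici, closure_Ioi]
  intro t ht
  have h1 := hz ht
  simp only at h1
  rw [← hq2 t ht]
  linarith

end H19Dav
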