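import Mathlib
import Pool.Agent.Helpers.H19DavA

set_option autoImplicit false
open MeasureTheory Set Filter Topology

namespace H19Dav

lemma disc_kernel (r : ℕ → ℝ) (h0 : r 0 = 1) (anti : Antitone r) (nn : ∀ n, 0 ≤ r n) :
    ∃ F : PS, SP F ∧ PowerSeries.coeff 0 F = 0 ∧ PowerSeries.coeff 1 F = 1 - r 1 ∧
      ∀ n, PowerSeries.coeff n (ren F) +
        ∑ j ∈ Finset.range n, r (j+1) * PowerSeries.coeff (n - 1 - j) (ren F) = 1 := by
  set f : ℕ → ℝ := fun j => if j = 0 then 0 else r (j-1) - r j with hf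
  set F : PS := PowerSeries.mk f with hF
  have hc : ∀ j, PowerSeries.coeff j F = f j := fun j => by rw [hF, PowerSeries.coeff_mk]
  have hf0 : PowerSeries.coeff 0 F = 0 := by rw [hc]; simp [hf]
  have hFS : ∀ n, PowerSeries.coeff n (F * S) = 1 - r n := by
    intro n
    rw [cS]
    induction n with
    | zero => simp [hc, hf, h0]
    | succ n ih =>
      rw [Finset.sum_range_succ, ih, hc]
      simp [hf]
  have hNN : NN F := by
    intro n
    rw [hc]
    rcases Nat.eq_zero_or_pos n with h | h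
    · simp [hf, h]
    · simp only [hf, h.ne', if_false]
      have := anti (Nat.sub_le n 1)
      linarith
  have hSP : SP F := ⟨hNN, fun n => by rw [hFS]; linarith [nn n]⟩
  refine ⟨F, hSP, hf0, ?_, ?_⟩
  · rw [hc]; simp [hf, h0]
  · intro n
    have h1 : PowerSeries.coeff n (T F * ren F) = 1 := by
      rw [mul_comm, ren_mul_T hf0, coeff_S]
    rw [cmul, Finset.sum_range_succ'] at h1
    simp only [coeff_T, hFS] at h1
    rw [h0] at h1
    rw [← h1]
    simp only [sub_sub_cancel, Nat.sub_zero, one_mul]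
    rw [add_comm]
    congr 1
    refine Finset.sum_congr rfl fun j _ => ?_
    rw [Nat.sub_sub, add_comm 1 j]

lemma gronwall (e r : ℕ → ℝ) (θ : ℝ) (hθ : 0 < θ) (hθ1 : θ ≤ 1) (N : ℕ) (τ : ℝ) (hτ : 0 ≤ τ)
    (hr : ∀ j, 0 ≤ r (j+1))
    (hs : ∀ n ≤ N, ∑ j ∈ Finset.range n, r (j+1) * θ^(j+1) ≤ 1/2)
    (he : ∀ n ≤ N, |e n + ∑ j ∈ Finset.range n, r (j+1) * e (n-1-j)| ≤ τ) :
    ∀ n ≤ N, |e n| * θ^n ≤ 2 * τ := by
  intro n
  induction n using Nat.strong_induction_on with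
  | _ n ih =>
    intro hn
    have h1 : |e n| ≤ τ + ∑ j ∈ Finset.range n, r (j+1) * |e (n-1-j)| := by
      have h2 : e n = (e n + ∑ j ∈ Finset.range n, r (j+1) * e (n-1-j)) -
        ∑ j ∈ Finset.range n, r (j+1) * e (n-1-j) := by ring
      have h3 : |∑ j ∈ Finset.range n, r (j+1) * e (n-1-j)| ≤
          ∑ j ∈ Finset.range n, r (j+1) * |e (n-1-j)| := by
        refine (Finset.abs_sum_le_sum_abs _ _).trans (Finset.sum_le_sum fun j _ => ?_)
        rw [abs_mul, abs_of_nonneg (hr j)]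
      calc |e n| = |(e n + ∑ j ∈ Finset.range n, r (j+1) * e (n-1-j)) -
        ∑ j ∈ Finset.range n, r (j+1) * e (n-1-j)| := by rw [← h2]
        _ ≤ |e n + ∑ j ∈ Finset.range n, r (j+1) * e (n-1-j)| +
          |∑ j ∈ Finset.range n, r (j+1) * e (n-1-j)| := abs_sub _ _
        _ ≤ _ := add_le_add (he n hn) h3
    have hθn : θ ^ n ≤ 1 := pow_le_one₀ hθ.le hθ1
    have hθn0 : 0 < θ ^ n := pow_pos hθ n
    calc |e n| * θ^n ≤ (τ + ∑ j ∈ Finset.range n, r (j+1) * |e (n-1-j)|) * θ^n :=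
          mul_le_mul_of_nonneg_right h1 hθn0.le
      _ = τ * θ^n + ∑ j ∈ Finset.range n, (r (j+1) * θ^(j+1)) * (|e (n-1-j)| * θ^(n-1-j)) := by
          rw [add_mul, Finset.sum_mul]
          congr 1
          refine Finset.sum_congr rfl fun j hj => ?_
          have hj' := Finset.mem_range.1 hj
          have : θ^n = θ^(j+1) * θ^(n-1-j) := by
            rw [← pow_add]; congr 1; omega
          rw [this]; ring
      _ ≤ τ * 1 + ∑ j ∈ Finset.range n, (r (j+1) * θ^(j+1)) * (2 * τ) := by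
          refine add_le_add (mul_le_mul_of_nonneg_left hθn hτ) (Finset.sum_le_sum fun j hj => ?_)
          have hj' := Finset.mem_range.1 hj
          refine mul_le_mul_of_nonneg_left (ih _ (by omega) (by omega)) ?_
          exact mul_nonneg (hr j) (pow_pos hθ _).le
      _ = τ + (∑ j ∈ Finset.range n, r (j+1) * θ^(j+1)) * (2 * τ) := by
          rw [Finset.sum_mul, mul_one]
      _ ≤ τ + (1/2) * (2 * τ) := by
          have := mul_le_mul_of_nonneg_right (hs n hn) (by linarith : (0:ℝ) ≤ 2 * τ)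
          linarith
      _ = 2 * τ := by ring

section cells
variable {k : ℝ → ℝ} (hk0 : ∀ x, 0 ≤ k x) (hanti : AntitoneOn k (Ioi 0))
  (hki : ∀ A B : ℝ, IntervalIntegrable k volume A B)
include hk0 hanti hki

omit hk0 in
lemma cell_lower (h : ℝ) (hh : 0 < h) (j : ℕ) :
    h * k (((j:ℝ)+1)*h) ≤ ∫ z in ((j:ℝ)*h)..(((j:ℝ)+1)*h), k z := by
  have hj : (0:ℝ) ≤ j := Nat.cast_nonneg j
  have hab : (j:ℝ)*h ≤ ((j:ℝ)+1)*h := by nlinarith
  have h1 := intervalIntegral.integral_mono_on_of_le_Ioo (μ := volume) (f := fun _ => k (((j:ℝ)+1)*h)) (g := k) hab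
    (by simp) (hki _ _) (by
      intro x hx
      refine hanti ?_ ?_ hx.2.le
      · simp only [mem_Ioi]; have := hx.1; nlinarith
      · simp only [mem_Ioi]; positivity)
  rw [intervalIntegral.integral_const, smul_eq_mul] at h1
  have : ((j:ℝ)+1)*h - (j:ℝ)*h = h := by ring
  rwa [this] at h1

omit hk0 in
lemma cell_upper (h : ℝ) (hh : 0 < h) (j : ℕ) :
    ∫ z in (((j:ℝ)+1)*h)..(((j:ℝ)+1+1)*h), k z ≤ h * k (((j:ℝ)+1)*h) := by
  have hj : (0:ℝ) ≤ j := Nat.cast_nonneg j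
  have hab : ((j:ℝ)+1)*h ≤ ((j:ℝ)+1+1)*h := by nlinarith
  have h1 := intervalIntegral.integral_mono_on_of_le_Ioo (μ := volume) (f := k) (g := fun _ => k (((j:ℝ)+1)*h)) hab
    (hki _ _) (by simp) (by
      intro x hx
      refine hanti ?_ ?_ hx.1.le
      · simp only [mem_Ioi]; positivity
      · simp only [mem_Ioi]; have := hx.1; nlinarith)
  rw [intervalIntegral.integral_const, smul_eq_mul] at h1
  have : ((j:ℝ)+1+1)*h - ((j:ℝ)+1)*h = h := by ring
  rwa [this] at h1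

omit hk0 in
lemma sum_upper (h : ℝ) (hh : 0 < h) (n : ℕ) :
    ∑ j ∈ Finset.range n, h * k (((j:ℝ)+1)*h) ≤ ∫ z in (0:ℝ)..((n:ℝ)*h), k z := by
  induction n with
  | zero => simp
  | succ n ih =>
    rw [Finset.sum_range_succ]
    have h1 := cell_lower hanti hki h hh n
    have h2 := intervalIntegral.integral_add_adjacent_intervals (hki 0 ((n:ℝ)*h))
      (hki ((n:ℝ)*h) (((n:ℝ)+1)*h))
    push_cast
    linarith

lemma sum_lower (h : ℝ) (hh : 0 < h) (n : ℕ) :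
    ∫ z in (0:ℝ)..((n:ℝ)*h), k z ≤ ∑ j ∈ Finset.range n, h * k (((j:ℝ)+1)*h) +
      ∫ z in (0:ℝ)..h, k z := by
  have h1 : ∫ z in h..(((n:ℝ)+1)*h), k z ≤ ∑ j ∈ Finset.range n, h * k (((j:ℝ)+1)*h) := by
    induction n with
    | zero => simp
    | succ n ih =>
      rw [Finset.sum_range_succ]
      have h1 := cell_upper hanti hki h hh n
      have h2 := intervalIntegral.integral_add_adjacent_intervals (hki h (((n:ℝ)+1)*h))
        (hki (((n:ℝ)+1)*h) (((n:ℝ)+1+1)*h))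
      push_cast
      linarith
  have h2 := intervalIntegral.integral_add_adjacent_intervals (hki 0 h) (hki h (((n:ℝ)+1)*h))
  have h3 := intervalIntegral.integral_add_adjacent_intervals (hki 0 ((n:ℝ)*h))
    (hki ((n:ℝ)*h) (((n:ℝ)+1)*h))
  have h4 : 0 ≤ ∫ z in ((n:ℝ)*h)..(((n:ℝ)+1)*h), k z :=
    intervalIntegral.integral_nonneg (by nlinarith) fun z _ => hk0 z
  linarith

lemma int_mono {x y : ℝ} (hx : 0 ≤ x) (hxy : x ≤ y) : ∫ z in (0:ℝ)..x, k z ≤ ∫ z in (0:ℝ)..y, k z := by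
  have h2 := intervalIntegral.integral_add_adjacent_intervals (hki 0 x) (hki x y)
  have h4 : 0 ≤ ∫ z in x..y, k z := intervalIntegral.integral_nonneg hxy fun z _ => hk0 z
  linarith

lemma consist (p : ℝ → ℝ) (hp : ContinuousOn p (Ici 0))
    (hV : ∀ t : ℝ, 0 ≤ t → p t + ∫ z in (0:ℝ)..t, p (t - z) * k z = 1)
    (h : ℝ) (hh : 0 < h) (n : ℕ) (hn : (n:ℝ) * h ≤ 1) (ω B : ℝ) (hω0 : 0 ≤ ω) (hB0 : 0 ≤ B)
    (hω : ∀ x ∈ Icc (0:ℝ) 1, ∀ y ∈ Icc (0:ℝ) 1, |x - y| ≤ h → |p x - p y| ≤ ω)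
    (hB : ∀ x ∈ Icc (0:ℝ) 1, |p x| ≤ B) :
    |p (n*h) + ∑ j ∈ Finset.range n, h * k (((j:ℝ)+1)*h) * p ((n:ℝ)*h - ((j:ℝ)+1)*h) - 1| ≤
      ω * (∫ z in (0:ℝ)..1, k z) + B * ∫ z in (0:ℝ)..h, k z := by
  have hn0 : (0:ℝ) ≤ n := Nat.cast_nonneg n
  have hpi : ∀ A B : ℝ, 0 ≤ A → A ≤ B → B ≤ n * h →
      IntervalIntegrable (fun z => p ((n:ℝ)*h - z) * k z) volume A B := by
    intro A B hA hAB hB
    refine (hki A B).continuousOn_mul ?_
    refine hp.comp (by fun_prop) ?_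
    intro z hz
    rw [uIcc_of_le hAB] at hz
    simp only [mem_Ici]
    linarith [hz.2]
  have cell : ∀ j : ℕ, j < n →
      |h * k (((j:ℝ)+1)*h) * p ((n:ℝ)*h - ((j:ℝ)+1)*h) -
        ∫ z in ((j:ℝ)*h)..(((j:ℝ)+1)*h), p ((n:ℝ)*h - z) * k z| ≤
      ω * (∫ z in ((j:ℝ)*h)..(((j:ℝ)+1)*h), k z) +
        B * ((∫ z in ((j:ℝ)*h)..(((j:ℝ)+1)*h), k z) - h * k (((j:ℝ)+1)*h)) := by
    intro j hj
    have hj0 : (0:ℝ) ≤ j := Nat.cast_nonneg j
    have hjn : (j:ℝ) + 1 ≤ n := by exact_mod_cast hj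
    have hab : (j:ℝ)*h ≤ ((j:ℝ)+1)*h := by nlinarith
    have hbn : ((j:ℝ)+1)*h ≤ n*h := by nlinarith
    set k1 := k (((j:ℝ)+1)*h) with hk1
    set p1 := p ((n:ℝ)*h - ((j:ℝ)+1)*h) with hp1
    have e1 : h * k1 * p1 = ∫ z in ((j:ℝ)*h)..(((j:ℝ)+1)*h), k1 * p1 := by
      rw [intervalIntegral.integral_const, smul_eq_mul]; ring
    have hi1 := hpi ((j:ℝ)*h) (((j:ℝ)+1)*h) (by positivity) hab hbn
    rw [e1, ← intervalIntegral.integral_sub (by simp) hi1]
    have hb : ∀ z ∈ Ioc ((j:ℝ)*h) (((j:ℝ)+1)*h), ‖k1 * p1 - p ((n:ℝ)*h - z) * k z‖ ≤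
        ω * k z + B * (k z - k1) := by
      intro z hz
      have hz0 : 0 < z := lt_of_le_of_lt (by positivity) hz.1
      have hkz : k1 ≤ k z := hanti hz0 (by simp only [mem_Ioi]; positivity) hz.2
      have hk10 : 0 ≤ k1 := hk0 _
      have hx1 : (n:ℝ)*h - ((j:ℝ)+1)*h ∈ Icc (0:ℝ) 1 := ⟨by linarith, by nlinarith⟩
      have hx2 : (n:ℝ)*h - z ∈ Icc (0:ℝ) 1 := ⟨by linarith [hz.2], by linarith⟩
      have h1 : |p1 - p ((n:ℝ)*h - z)| ≤ ω := by
        refine hω _ hx1 _ hx2 ?_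
        have e : (n:ℝ)*h - ((j:ℝ)+1)*h - ((n:ℝ)*h - z) = -(((j:ℝ)+1)*h - z) := by ring
        rw [e, abs_neg, abs_of_nonneg (by linarith [hz.2])]
        have := hz.1
        nlinarith
      have h2 := hB _ hx2
      have e2 : k1 * p1 - p ((n:ℝ)*h - z) * k z = k1 * (p1 - p ((n:ℝ)*h - z)) -
        p ((n:ℝ)*h - z) * (k z - k1) := by ring
      rw [e2, Real.norm_eq_abs]
      calc |k1 * (p1 - p ((n:ℝ)*h - z)) - p ((n:ℝ)*h - z) * (k z - k1)|
          ≤ |k1 * (p1 - p ((n:ℝ)*h - z))| + |p ((n:ℝ)*h - z) * (k z - k1)| := abs_sub _ _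
        _ = k1 * |p1 - p ((n:ℝ)*h - z)| + |p ((n:ℝ)*h - z)| * (k z - k1) := by
            rw [abs_mul, abs_mul, abs_of_nonneg hk10, abs_of_nonneg (by linarith : 0 ≤ k z - k1)]
        _ ≤ k z * ω + B * (k z - k1) := by
            refine add_le_add (mul_le_mul hkz h1 (abs_nonneg _) (hk0 z)) ?_
            exact mul_le_mul_of_nonneg_right h2 (by linarith)
        _ = _ := by ring
    have hbi : IntervalIntegrable (fun z => ω * k z + B * (k z - k1)) volume ((j:ℝ)*h) (((j:ℝ)+1)*h) :=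
      ((hki _ _).const_mul ω).add (((hki _ _).sub (by simp)).const_mul B)
    have h3 := intervalIntegral.norm_integral_le_of_norm_le hab (ae_of_all _ hb) hbi
    rw [Real.norm_eq_abs] at h3
    refine h3.trans (le_of_eq ?_)
    rw [intervalIntegral.integral_add ((hki _ _).const_mul ω) (((hki _ _).sub (by simp)).const_mul B),
      intervalIntegral.integral_const_mul, intervalIntegral.integral_const_mul,
      intervalIntegral.integral_sub (hki _ _) (by simp), intervalIntegral.integral_const, smul_eq_mul]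
    ring
  have ind : ∀ m : ℕ, m ≤ n →
      |∑ j ∈ Finset.range m, h * k (((j:ℝ)+1)*h) * p ((n:ℝ)*h - ((j:ℝ)+1)*h) -
        ∫ z in (0:ℝ)..((m:ℝ)*h), p ((n:ℝ)*h - z) * k z| ≤
      ω * (∫ z in (0:ℝ)..((m:ℝ)*h), k z) +
        B * ((∫ z in (0:ℝ)..((m:ℝ)*h), k z) - ∑ j ∈ Finset.range m, h * k (((j:ℝ)+1)*h)) := by
    intro m
    induction m with
    | zero => intro _; simp
    | succ m ih =>
      intro hm
      have h1 := ih (by omega)
      have h2 := cell m (by omega)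
      have hm0 : (0:ℝ) ≤ m := Nat.cast_nonneg m
      have hmn : (m:ℝ) + 1 ≤ n := by exact_mod_cast hm
      have e1 := intervalIntegral.integral_add_adjacent_intervals (hki 0 ((m:ℝ)*h))
        (hki ((m:ℝ)*h) (((m:ℝ)+1)*h))
      have e2 := intervalIntegral.integral_add_adjacent_intervals
        (hpi 0 ((m:ℝ)*h) le_rfl (by positivity) (by nlinarith))
        (hpi ((m:ℝ)*h) (((m:ℝ)+1)*h) (by positivity) (by nlinarith) (by nlinarith))
      rw [Finset.sum_range_succ, Finset.sum_range_succ]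
      push_cast
      rw [← e1, ← e2]
      have e3 : ∀ a b c d : ℝ, a + b - (c + d) = (a - c) + (b - d) := by intros; ring
      rw [e3]
      refine (abs_add_le _ _).trans ?_
      refine (add_le_add h1 h2).trans (le_of_eq ?_)
      ring
  have h1 := ind n le_rfl
  have h2 := hV (n*h) (by positivity)
  have h3 : p (n*h) + ∑ j ∈ Finset.range n, h * k (((j:ℝ)+1)*h) * p ((n:ℝ)*h - ((j:ℝ)+1)*h) - 1 =
      ∑ j ∈ Finset.range n, h * k (((j:ℝ)+1)*h) * p ((n:ℝ)*h - ((j:ℝ)+1)*h) -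
        ∫ z in (0:ℝ)..((n:ℝ)*h), p ((n:ℝ)*h - z) * k z := by linarith
  rw [h3]
  refine h1.trans (add_le_add ?_ ?_)
  · exact mul_le_mul_of_nonneg_left (int_mono hk0 hanti hki (by positivity) hn) hω0
  · refine mul_le_mul_of_nonneg_left ?_ hB0
    have := sum_lower hk0 hanti hki h hh n
    linarith

end cells

end H19Dav
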