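import Mathlib
import Pool.Agent.Helpers.H19DavJ

set_option autoImplicit false
open MeasureTheory Set Filter Topology

namespace H19Dav

lemma weight_exists (k : ℝ → ℝ) (hki : ∀ A B : ℝ, IntervalIntegrable k volume A B) :
    ∃ L : ℕ, ∫ z in (0:ℝ)..1, k z * Real.exp (-(L * z)) ≤ 1/2 := by
  have h := intervalIntegral.tendsto_integral_filter_of_dominated_convergence (μ := volume)
    (a := 0) (b := 1) (l := atTop) (F := fun (n : ℕ) z => k z * Real.exp (-(n * z))) (f := fun _ => 0)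
    (fun z => |k z|) (Eventually.of_forall fun n => by
      have := (hki 0 1)
      rw [intervalIntegrable_iff] at this
      exact this.aestronglyMeasurable.mul
        (by fun_prop : Continuous fun z : ℝ => Real.exp (-((n:ℝ) * z))).aestronglyMeasurable)
    (Eventually.of_forall fun n => ae_of_all _ fun z hz => by
      rw [uIoc_of_le zero_le_one] at hz
      rw [norm_mul, Real.norm_eq_abs, Real.norm_eq_abs, abs_of_pos (Real.exp_pos _)]
      have : Real.exp (-((n:ℝ) * z)) ≤ 1 := Real.exp_le_one_iff.2 (by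
        have := mul_nonneg (Nat.cast_nonneg (α := ℝ) n) hz.1.le
        linarith)
      exact mul_le_of_le_one_right (abs_nonneg _) this)
    ((hki 0 1).abs)
    (ae_of_all _ fun z hz => by
      rw [uIoc_of_le zero_le_one] at hz
      have h1 : Tendsto (fun n : ℕ => (n:ℝ) * z) atTop atTop :=
        tendsto_natCast_atTop_atTop.atTop_mul_const hz.1
      have h2 := (Real.tendsto_exp_neg_atTop_nhds_zero.comp h1).const_mul (k z)
      simpa using h2)
  simp only [intervalIntegral.integral_zero] at h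
  have h2 := (h.eventually (gt_mem_nhds (by norm_num : (0:ℝ) < 1/2))).exists
  obtain ⟨L, hL⟩ := h2
  exact ⟨L, hL.le⟩

theorem discretize (k p : ℝ → ℝ) (hk0 : ∀ x, 0 ≤ k x) (hanti : AntitoneOn k (Ioi 0))
    (hki : ∀ A B : ℝ, IntervalIntegrable k volume A B) (hp : ContinuousOn p (Ici 0))
    (hV : ∀ t : ℝ, 0 ≤ t → p t + ∫ z in (0:ℝ)..t, p (t - z) * k z = 1)
    (ε β : ℝ) (hε : 0 < ε) (hβ : 0 < β) :
    ∃ N0 : ℕ, ∀ N : ℕ, N0 ≤ N → 0 < N → ∃ F : PS, SP F ∧ PowerSeries.coeff 0 F = 0 ∧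
      1 - β ≤ PowerSeries.coeff 1 F ∧
      ∀ n ≤ N, |PowerSeries.coeff n (ren F) - p ((n:ℝ)/N)| ≤ ε := by
  obtain ⟨L, hL⟩ := weight_exists k hki
  set I := ∫ z in (0:ℝ)..1, k z with hI
  have hI0 : 0 ≤ I := intervalIntegral.integral_nonneg zero_le_one fun z _ => hk0 z
  obtain ⟨B, hB⟩ := (isCompact_Icc (a := (0:ℝ)) (b := 1)).exists_bound_of_continuousOn
    (hp.mono Icc_subset_Ici_self)
  set B' := max B 0 with hB'
  have hB0 : 0 ≤ B' := le_max_right _ _
  have hB2 : ∀ x ∈ Icc (0:ℝ) 1, |p x| ≤ B' := fun x hx =>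
    (by simpa [Real.norm_eq_abs] using hB x hx : |p x| ≤ B).trans (le_max_left _ _)
  set E := Real.exp L with hE
  have hE0 : 0 < E := Real.exp_pos _
  set ω := ε / (4 * E * (I + 1)) with hω
  have hω0 : 0 < ω := by positivity
  have hU : UniformContinuousOn p (Icc 0 1) :=
    isCompact_Icc.uniformContinuousOn_of_continuous (hp.mono Icc_subset_Ici_self)
  rw [Metric.uniformContinuousOn_iff] at hU
  obtain ⟨δ1, hδ1, hU⟩ := hU ω hω0
  set c := min (ε / (4 * E * (B' + 1))) (min β 1) with hc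
  have hc0 : 0 < c := by
    refine lt_min (by positivity) (lt_min hβ one_pos)
  have hcont : Continuous fun b : ℝ => ∫ x in (0:ℝ)..b, k x :=
    intervalIntegral.continuous_primitive (fun a b => hki a b) 0
  have hev : ∀ᶠ b : ℝ in 𝓝 0, ∫ x in (0:ℝ)..b, k x < c := by
    have := hcont.tendsto 0
    simp only [intervalIntegral.integral_same] at this
    exact this.eventually (gt_mem_nhds hc0)
  have hT : Tendsto (fun N : ℕ => (1:ℝ)/N) atTop (𝓝 0) := tendsto_one_div_atTop_nhds_zero_nat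
  have hev2 : ∀ᶠ N : ℕ in atTop, (∫ x in (0:ℝ)..(1/(N:ℝ)), k x < c) ∧ (1:ℝ)/N < δ1 :=
    (hT.eventually hev).and (hT.eventually (gt_mem_nhds hδ1))
  obtain ⟨N0, hN0⟩ := eventually_atTop.1 hev2
  refine ⟨N0, fun N hN hNpos => ?_⟩
  obtain ⟨hh1, hh2⟩ := hN0 N hN
  have hNr : (0:ℝ) < N := by exact_mod_cast hNpos
  set h : ℝ := 1/(N:ℝ) with hh
  have hh0 : 0 < h := by positivity
  have hNh : (N:ℝ) * h = 1 := by rw [hh]; field_simp
  -- the kernel sequence
  set r : ℕ → ℝ := fun j => if j = 0 then 1 else h * k ((j:ℝ)*h) with hr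
  have hrs : ∀ j : ℕ, r (j+1) = h * k (((j:ℝ)+1)*h) := by
    intro j
    simp only [hr, Nat.succ_ne_zero, if_false]
    push_cast
    rfl
  have hr0 : r 0 = 1 := by simp [hr]
  have hr1 : h * k h ≤ c := by
    have := sum_upper hanti hki h hh0 1
    simp only [Finset.range_one, Finset.sum_singleton, Nat.cast_zero, zero_add, one_mul, Nat.cast_one] at this
    linarith
  have hcβ : c ≤ β := (min_le_right _ _).trans (min_le_left _ _)
  have hc1 : c ≤ 1 := (min_le_right _ _).trans (min_le_right _ _)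
  have hc2 : c ≤ ε / (4 * E * (B' + 1)) := min_le_left _ _
  have hanti_r : Antitone r := by
    refine antitone_nat_of_succ_le fun n => ?_
    rcases Nat.eq_zero_or_pos n with hn | hn
    · subst hn
      rw [hrs, hr0]
      simp only [Nat.cast_zero, zero_add, one_mul]
      linarith
    · obtain ⟨m, rfl⟩ : ∃ m, n = m + 1 := ⟨n - 1, by omega⟩
      rw [hrs, hrs]
      refine mul_le_mul_of_nonneg_left ?_ hh0.le
      refine hanti ?_ ?_ ?_
      · simp only [mem_Ioi]; positivity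
      · simp only [mem_Ioi]; positivity
      · push_cast; nlinarith
  have hrnn : ∀ n, 0 ≤ r n := by
    intro n
    rcases Nat.eq_zero_or_pos n with hn | hn
    · subst hn; rw [hr0]; norm_num
    · obtain ⟨m, rfl⟩ : ∃ m, n = m + 1 := ⟨n - 1, by omega⟩
      rw [hrs]
      exact mul_nonneg hh0.le (hk0 _)
  obtain ⟨F, hF, hF0, hF1, hFr⟩ := disc_kernel r hr0 hanti_r hrnn
  refine ⟨F, hF, hF0, ?_, ?_⟩
  · rw [hF1]
    have : r 1 = h * k h := by
      have := hrs 0
      simpa using this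
    rw [this]
    linarith
  -- the stability estimate
  set e : ℕ → ℝ := fun n => PowerSeries.coeff n (ren F) - p ((n:ℝ) * h) with he
  set τ := ω * I + B' * ∫ z in (0:ℝ)..h, k z with hτ
  have hIh0 : 0 ≤ ∫ z in (0:ℝ)..h, k z := intervalIntegral.integral_nonneg hh0.le fun z _ => hk0 z
  have hτ0 : 0 ≤ τ := by positivity
  set θ := Real.exp (-(L * h)) with hθ
  have hθ0 : 0 < θ := Real.exp_pos _
  have hθ1 : θ ≤ 1 := Real.exp_le_one_iff.2 (by
    have := mul_nonneg (Nat.cast_nonneg (α := ℝ) L) hh0.le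
    linarith)
  -- weighted kernel
  set k2 : ℝ → ℝ := fun z => k z * Real.exp (-(L * z)) with hk2
  have hk20 : ∀ z, 0 ≤ k2 z := fun z => mul_nonneg (hk0 z) (Real.exp_pos _).le
  have hk2a : AntitoneOn k2 (Ioi 0) := by
    intro x hx y hy hxy
    simp only [hk2]
    refine mul_le_mul (hanti hx hy hxy) (Real.exp_le_exp.2 ?_) (Real.exp_pos _).le (hk0 _)
    have := mul_le_mul_of_nonneg_left hxy (Nat.cast_nonneg (α := ℝ) L)
    linarith
  have hk2i : ∀ A B : ℝ, IntervalIntegrable k2 volume A B := fun A B =>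
    (hki A B).mul_continuousOn (by fun_prop)
  have hsum : ∀ n ≤ N, ∑ j ∈ Finset.range n, r (j+1) * θ^(j+1) ≤ 1/2 := by
    intro n hn
    have h1 := sum_upper hk2a hk2i h hh0 n
    have h2 : ∫ z in (0:ℝ)..((n:ℝ)*h), k2 z ≤ ∫ z in (0:ℝ)..1, k2 z := by
      refine int_mono hk20 hk2a hk2i (by positivity) ?_
      rw [← hNh]
      exact mul_le_mul_of_nonneg_right (by exact_mod_cast hn) hh0.le
    have h3 : ∑ j ∈ Finset.range n, r (j+1) * θ^(j+1) = ∑ j ∈ Finset.range n, h * k2 (((j:ℝ)+1)*h) := by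
      refine Finset.sum_congr rfl fun j _ => ?_
      rw [hrs, hk2, hθ, ← Real.exp_nat_mul]
      simp only
      have : ((j+1 : ℕ):ℝ) * -((L:ℝ)*h) = -((L:ℝ) * (((j:ℝ)+1)*h)) := by push_cast; ring
      rw [this]; ring
    rw [h3]
    linarith
  have hcons : ∀ n ≤ N, |e n + ∑ j ∈ Finset.range n, r (j+1) * e (n-1-j)| ≤ τ := by
    intro n hn
    have hnh : (n:ℝ) * h ≤ 1 := by
      rw [← hNh]
      exact mul_le_mul_of_nonneg_right (by exact_mod_cast hn) hh0.le
    have h1 := consist hk0 hanti hki p hp hV h hh0 n hnh ω B' hω0.le hB0 (by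
      intro x hx y hy hxy
      have := hU x hx y hy (by rw [Real.dist_eq]; linarith)
      rw [Real.dist_eq] at this
      exact this.le) hB2
    have h2 := hFr n
    have h3 : e n + ∑ j ∈ Finset.range n, r (j+1) * e (n-1-j) =
        -(p (n*h) + ∑ j ∈ Finset.range n, h * k (((j:ℝ)+1)*h) * p ((n:ℝ)*h - ((j:ℝ)+1)*h) - 1) := by
      have h4 : ∑ j ∈ Finset.range n, r (j+1) * e (n-1-j) =
          ∑ j ∈ Finset.range n, r (j+1) * PowerSeries.coeff (n-1-j) (ren F) -
          ∑ j ∈ Finset.range n, h * k (((j:ℝ)+1)*h) * p ((n:ℝ)*h - ((j:ℝ)+1)*h) := by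
        rw [← Finset.sum_sub_distrib]
        refine Finset.sum_congr rfl fun j hj => ?_
        have hj' := Finset.mem_range.1 hj
        have h5 : ((n-1-j : ℕ):ℝ) * h = (n:ℝ)*h - ((j:ℝ)+1)*h := by
          rw [Nat.sub_sub, Nat.cast_sub (by omega)]
          push_cast
          ring
        simp only [he]
        rw [h5, hrs]
        ring
      rw [h4]
      simp only [he]
      linarith
    rw [h3, abs_neg]
    exact h1
  have hg := gronwall e r θ hθ0 hθ1 N τ hτ0 (fun j => hrnn _) hsum hcons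
  intro n hn
  have h1 := hg n hn
  have hnh : (n:ℝ) * h ≤ 1 := by
    rw [← hNh]
    exact mul_le_mul_of_nonneg_right (by exact_mod_cast hn) hh0.le
  have h2 : (n:ℝ)/N = (n:ℝ) * h := by rw [hh]; ring
  rw [h2]
  have h3 : 1 ≤ θ^n * E := by
    rw [hθ, hE, ← Real.exp_nat_mul, ← Real.exp_add]
    refine Real.one_le_exp ?_
    have : (n:ℝ) * -((L:ℝ)*h) + L = L * (1 - n * h) := by ring
    rw [this]
    exact mul_nonneg (Nat.cast_nonneg _) (by linarith)
  have h4 : |e n| ≤ 2 * τ * E := by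
    calc |e n| = |e n| * 1 := (mul_one _).symm
      _ ≤ |e n| * (θ^n * E) := mul_le_mul_of_nonneg_left h3 (abs_nonneg _)
      _ = |e n| * θ^n * E := by ring
      _ ≤ 2 * τ * E := mul_le_mul_of_nonneg_right h1 hE0.le
  have h5 : |e n| = |PowerSeries.coeff n (ren F) - p ((n:ℝ) * h)| := rfl
  rw [← h5]
  refine h4.trans ?_
  -- numeric
  have h6 : ω * I * E ≤ ε / 4 := by
    have h7 : ω * E * (I + 1) = ε / 4 := by rw [hω]; field_simp
    nlinarith [mul_pos hω0 hE0]
  have h8 : B' * (∫ z in (0:ℝ)..h, k z) * E ≤ ε / 4 := by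
    have h9 : (ε / (4 * E * (B' + 1))) * E * (B' + 1) = ε / 4 := by field_simp
    have h10 : (∫ z in (0:ℝ)..h, k z) ≤ ε / (4 * E * (B' + 1)) := by linarith
    calc B' * (∫ z in (0:ℝ)..h, k z) * E ≤ (B' + 1) * (ε / (4 * E * (B' + 1))) * E := by
          refine mul_le_mul_of_nonneg_right ?_ hE0.le
          exact mul_le_mul (by linarith) h10 hIh0 (by linarith)
      _ = ε / 4 := by rw [← h9]; ring
  have : 2 * τ * E = 2 * (ω * I * E) + 2 * (B' * (∫ z in (0:ℝ)..h, k z) * E) := by rw [hτ]; ring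
  rw [this]
  linarith

end H19Dav
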