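import Mathlib
import Pool.Agent.Helpers.H19DavF
import Pool.Agent.Helpers.H19DavK
import Pool.Agent.Helpers.H19DavI

set_option autoImplicit false
open MeasureTheory Set Filter Topology

namespace H19Dav

/-- `p` is approximated on `[0,1]` by renewal sequences along the grids of mesh `1/N`. -/
def Approx (p : ℝ → ℝ) : Prop := ∀ ε β : ℝ, 0 < ε → 0 < β →
    ∃ N0 : ℕ, ∀ N : ℕ, N0 ≤ N → 0 < N → ∃ F : PS, SP F ∧ PowerSeries.coeff 0 F = 0 ∧
      1 - β ≤ PowerSeries.coeff 1 F ∧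
      ∀ n ≤ N, |PowerSeries.coeff n (ren F) - p ((n:ℝ)/N)| ≤ ε

theorem approx_lower (M : ℝ) (hM : Real.exp (-1) < M) : ∃ δ : ℝ, 0 < δ ∧ ∀ p : ℝ → ℝ,
    ContinuousOn p (Icc 0 1) → Approx p → p 1 = M → ∀ t ∈ Icc (0:ℝ) 1, δ ≤ p t := by
  set ε := (M - Real.exp (-1)) / 3 with hε
  have hε0 : 0 < ε := by rw [hε]; linarith
  obtain ⟨C, β1, hβ1, _, hup⟩ := upper ε hε0
  obtain ⟨κ, β2, hκ, hβ2, hlow⟩ := lower (max C 1) (le_max_right _ _)
  refine ⟨κ/2, by positivity, fun p hp hA hp1 t ht => ?_⟩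
  obtain ⟨N0, hN0⟩ := hA (min ε (κ/2)) (min β1 β2) (lt_min hε0 (by positivity)) (lt_min hβ1 hβ2)
  -- all dyadic points of high level
  have key : ∀ r : ℕ, N0 ≤ 2^r → ∀ n : ℕ, n ≤ 2^r → κ/2 ≤ p ((n:ℝ)/((2^r : ℕ):ℝ)) := by
    intro r hr n hn
    obtain ⟨F, hF, hF0, hF1, hFn⟩ := hN0 (2^r) hr (by positivity)
    have hb1 : 1 - β1 ≤ PowerSeries.coeff 1 F := by
      have := min_le_left β1 β2
      linarith
    have hb2 : 1 - β2 ≤ PowerSeries.coeff 1 F := by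
      have := min_le_right β1 β2
      linarith
    have h1 := hFn (2^r) le_rfl
    have h2 : ((2^r : ℕ):ℝ)/((2^r : ℕ):ℝ) = 1 := by
      apply div_self
      positivity
    rw [h2, hp1] at h1
    have h3 : ¬ (C ≤ D F (2^r)) := by
      intro hc
      have h4 := hup F hF hF0 hb1 r hc
      have h5 := (abs_le.1 h1).1
      have h6 := min_le_left ε (κ/2)
      have : M = Real.exp (-1) + 3 * ε := by rw [hε]; ring
      linarith
    push Not at h3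
    have h7 := hlow F hF hF0 hb2 (2^r) (h3.le.trans (le_max_left _ _)) n hn
    have h8 := hFn n hn
    have h9 := (abs_le.1 h8).2
    have h10 := min_le_right ε (κ/2)
    linarith
  -- density
  set a : ℕ → ℝ := fun r => (⌊t * ((2^r : ℕ):ℝ)⌋₊ : ℝ) / ((2^r : ℕ):ℝ) with ha
  have h2r : Tendsto (fun r : ℕ => ((2^r : ℕ):ℝ)) atTop atTop := by
    have : Tendsto (fun r : ℕ => (2^r : ℕ)) atTop atTop :=
      tendsto_pow_atTop_atTop_of_one_lt (by norm_num)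
    exact tendsto_natCast_atTop_atTop.comp this
  have hat : Tendsto a atTop (𝓝 t) := (tendsto_nat_floor_mul_div_atTop ht.1).comp h2r
  have hfl : ∀ r : ℕ, ⌊t * ((2^r : ℕ):ℝ)⌋₊ ≤ 2^r := by
    intro r
    have h1 : t * ((2^r : ℕ):ℝ) ≤ ((2^r : ℕ):ℝ) := mul_le_of_le_one_left (Nat.cast_nonneg _) ht.2
    exact Nat.floor_le_of_le h1
  have haI : ∀ r, a r ∈ Icc (0:ℝ) 1 := by
    intro r
    refine ⟨by positivity, ?_⟩
    have h1 : (⌊t * ((2^r : ℕ):ℝ)⌋₊ : ℝ) ≤ ((2^r : ℕ):ℝ) := by exact_mod_cast hfl r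
    have h2 : (0:ℝ) < ((2^r : ℕ):ℝ) := by positivity
    simp only [ha]
    rw [div_le_one h2]
    exact h1
  have hlim : Tendsto (fun r => p (a r)) atTop (𝓝 (p t)) := by
    have h1 : ContinuousWithinAt p (Icc 0 1) t := hp t ht
    exact h1.tendsto.comp (tendsto_nhdsWithin_iff.2 ⟨hat, Eventually.of_forall haI⟩)
  refine ge_of_tendsto hlim ?_
  have hev : ∀ᶠ r : ℕ in atTop, N0 ≤ 2^r := by
    have : Tendsto (fun r : ℕ => (2^r : ℕ)) atTop atTop :=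
      tendsto_pow_atTop_atTop_of_one_lt (by norm_num)
    exact this.eventually_ge_atTop N0
  filter_upwards [hev] with r hr
  exact key r hr _ (hfl r)

/-- Kingman's canonical form. -/
def Canon (p : ℝ → ℝ) : Prop :=
  ContinuousOn p (Ici 0) ∧ ∃ μ : Measure ℝ, μ (Iic 0) = 0 ∧
        Integrable (fun x : ℝ => 1 - Real.exp (-x)) μ ∧ ∃ a : ℝ, 0 ≤ a ∧
        ∀ s : ℝ, 0 < s →
          (∫ t in Ioi (0:ℝ), Real.exp (-(s * t)) * p t) *
            (s + a + ∫ x, (1 - Real.exp (-(s * x))) ∂μ) = 1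

lemma Canon.approx {p : ℝ → ℝ} (h : Canon p) : Approx p := by
  obtain ⟨hp, μ, h0, hμ, a, ha, hL⟩ := h
  intro ε β hε hβ
  exact discretize (Kk μ a) p (Kk_nonneg μ a ha) (Kk_anti μ hμ a)
    (Kk_intervalIntegrable μ h0 hμ a ha) hp (volterra p hp μ h0 hμ a ha hL) ε β hε hβ

theorem canon_lower (M : ℝ) (hM : Real.exp (-1) < M) : ∃ δ : ℝ, 0 < δ ∧ ∀ p : ℝ → ℝ,
    Canon p → p 1 = M → ∀ t ∈ Icc (0:ℝ) 1, δ ≤ p t := by
  obtain ⟨δ, hδ, h⟩ := approx_lower M hM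
  exact ⟨δ, hδ, fun p hp => h p (hp.1.mono Icc_subset_Ici_self) hp.approx⟩

end H19Dav
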