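import Mathlib
import Pool.Agent.Helpers.H19DavL

set_option autoImplicit false
open MeasureTheory Set Filter Topology

namespace H19Dav

/-- terms of the example -/
noncomputable def gk (b ℓ : ℝ) (k : ℕ) (t : ℝ) : ℝ :=
  Real.exp (-(b * max (t - k * ℓ) 0)) * (b * max (t - k * ℓ) 0) ^ k / (k.factorial : ℝ)

/-- the example -/
noncomputable def pex (b ℓ : ℝ) (t : ℝ) : ℝ := ∑' k : ℕ, gk b ℓ k t

lemma gk_cont (b ℓ : ℝ) (k : ℕ) : Continuous (gk b ℓ k) := by
  unfold gk
  fun_prop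

lemma gk_nonneg (b ℓ : ℝ) (hb : 0 < b) (k : ℕ) (t : ℝ) : 0 ≤ gk b ℓ k t := by
  unfold gk
  have : 0 ≤ b * max (t - k * ℓ) 0 := mul_nonneg hb.le (le_max_right _ _)
  positivity

lemma gk_zero (b ℓ : ℝ) (k : ℕ) (hk : k ≠ 0) (t : ℝ) (ht : t ≤ k * ℓ) : gk b ℓ k t = 0 := by
  unfold gk
  rw [max_eq_right (by linarith), mul_zero, zero_pow hk]
  simp

lemma pex_eq (b ℓ : ℝ) (hℓ : 0 < ℓ) (n : ℕ) (hn : 0 < n) (t : ℝ) (ht : t ≤ n * ℓ) :
    pex b ℓ t = ∑ k ∈ Finset.range n, gk b ℓ k t := by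
  unfold pex
  refine tsum_eq_sum fun k hk => ?_
  rw [Finset.mem_range, not_lt] at hk
  refine gk_zero b ℓ k (by omega) t (ht.trans ?_)
  have : (n:ℝ) ≤ k := by exact_mod_cast hk
  exact mul_le_mul_of_nonneg_right this hℓ.le

lemma pex_cont (b ℓ : ℝ) (hℓ : 0 < ℓ) : Continuous (pex b ℓ) := by
  rw [continuous_iff_continuousAt]
  intro t0
  obtain ⟨n, hn⟩ := exists_nat_gt ((t0 + 1)/ℓ)
  have hn' : t0 + 1 < (n + 1 : ℕ) * ℓ := by
    have h1 : t0 + 1 < n * ℓ := by rwa [div_lt_iff₀ hℓ] at hn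
    push_cast
    linarith
  have hc : ContinuousAt (fun t => ∑ k ∈ Finset.range (n+1), gk b ℓ k t) t0 := by
    exact (continuous_finsetSum _ fun k _ => gk_cont b ℓ k).continuousAt
  refine hc.congr ?_
  have : Iio (t0+1) ∈ 𝓝 t0 := Iio_mem_nhds (by linarith)
  filter_upwards [this] with t ht
  have ht' : t < t0 + 1 := ht
  exact (pex_eq b ℓ hℓ (n+1) (by omega) t (by linarith)).symm

/-- shifted kernels -/
noncomputable def Gk (b s : ℝ) (k : ℕ) : ℝ → ℝ :=
  (Ioi (0:ℝ)).indicator fun u => Real.exp (-((s+b)*u)) * (b*u)^k / (k.factorial : ℝ)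

lemma Gk_int (b s : ℝ) (hb : 0 < b) (hs : 0 < s) (k : ℕ) :
    Integrable (Gk b s k) ∧ ∫ u, Gk b s k u = b^k / (s+b)^(k+1) := by
  have hsb : 0 < s + b := by linarith
  have e : ∀ u ∈ Ioi (0:ℝ), Real.exp (-((s+b)*u)) * (b*u)^k / (k.factorial : ℝ) =
      (b^k / (k.factorial : ℝ)) * (u^((k:ℝ)+1-1) * Real.exp (-((s+b)*u))) := by
    intro u hu
    rw [add_sub_cancel_right, Real.rpow_natCast, mul_pow]
    ring
  have h1 := Real.integral_rpow_mul_exp_neg_mul_Ioi (a := (k:ℝ)+1) (r := s+b) (by positivity) hsb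
  have h2 : IntegrableOn (fun u : ℝ => u^((k:ℝ)+1-1) * Real.exp (-((s+b)*u))) (Ioi 0) := by
    have := integrableOn_rpow_mul_exp_neg_mul_rpow (p := 1) (s := (k:ℝ)) (b := s+b)
      (by have := Nat.cast_nonneg (α := ℝ) k; linarith) one_pos hsb
    refine (integrableOn_congr_fun (fun u hu => ?_) measurableSet_Ioi).1 this
    rw [add_sub_cancel_right, Real.rpow_one, neg_mul]
  constructor
  · unfold Gk
    rw [integrable_indicator_iff measurableSet_Ioi]
    exact (integrableOn_congr_fun e measurableSet_Ioi).2 (h2.const_mul _)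
  · unfold Gk
    rw [integral_indicator measurableSet_Ioi, setIntegral_congr_fun measurableSet_Ioi e,
      integral_const_mul, h1]
    rw [Real.Gamma_nat_eq_factorial, ← Nat.cast_add_one, Real.rpow_natCast, one_div, inv_pow]
    have : (k.factorial : ℝ) ≠ 0 := by positivity
    field_simp

lemma gk_lap (b ℓ s : ℝ) (hb : 0 < b) (hℓ : 0 < ℓ) (hs : 0 < s) (k : ℕ) :
    IntegrableOn (fun t => Real.exp (-(s*t)) * gk b ℓ k t) (Ioi 0) ∧
    ∫ t in Ioi (0:ℝ), Real.exp (-(s*t)) * gk b ℓ k t =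
      (1/(s+b)) * (b * Real.exp (-(s*ℓ)) / (s+b))^k := by
  obtain ⟨h1, h2⟩ := Gk_int b s hb hs k
  have e : (Ioi (0:ℝ)).indicator (fun t => Real.exp (-(s*t)) * gk b ℓ k t) =
      fun t => Real.exp (-(s*(k*ℓ))) * Gk b s k (t - k*ℓ) := by
    ext t
    have hk0 : (0:ℝ) ≤ k * ℓ := by positivity
    by_cases ht : 0 < t
    · rw [indicator_of_mem (show t ∈ Ioi (0:ℝ) from ht)]
      by_cases ht2 : k*ℓ < t
      · unfold Gk
        rw [indicator_of_mem (show t - k*ℓ ∈ Ioi (0:ℝ) by simp only [mem_Ioi]; linarith)]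
        unfold gk
        rw [max_eq_left (by linarith)]
        have e1 : Real.exp (-(s*t)) * Real.exp (-(b*(t-k*ℓ))) =
            Real.exp (-(s*(k*ℓ))) * Real.exp (-((s+b)*(t-k*ℓ))) := by
          rw [← Real.exp_add, ← Real.exp_add]; congr 1; ring
        calc Real.exp (-(s*t)) * (Real.exp (-(b*(t-k*ℓ))) * (b*(t-k*ℓ))^k / (k.factorial:ℝ))
            = (Real.exp (-(s*t)) * Real.exp (-(b*(t-k*ℓ)))) * (b*(t-k*ℓ))^k / (k.factorial:ℝ) := by ring
          _ = _ := by rw [e1]; ring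
      · have hk : k ≠ 0 := by
          rintro rfl
          simp at ht2
          linarith
        rw [gk_zero b ℓ k hk t (by linarith), mul_zero]
        unfold Gk
        rw [indicator_of_notMem (by simp only [mem_Ioi]; linarith), mul_zero]
    · rw [indicator_of_notMem (by simpa using ht)]
      unfold Gk
      rw [indicator_of_notMem (by simp only [mem_Ioi]; linarith), mul_zero]
  have hi : Integrable (fun t => Real.exp (-(s*(k*ℓ))) * Gk b s k (t - k*ℓ)) :=
    (h1.comp_sub_right (k*ℓ)).const_mul _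
  constructor
  · rw [← integrable_indicator_iff measurableSet_Ioi, e]
    exact hi
  · rw [← integral_indicator measurableSet_Ioi, e, integral_const_mul,
      integral_sub_right_eq_self (Gk b s k) (k*ℓ), h2]
    have hsb : s + b ≠ 0 := by positivity
    rw [div_pow, mul_pow, ← Real.exp_nat_mul]
    have : (k:ℝ) * -(s*ℓ) = -(s*(k*ℓ)) := by ring
    rw [this, pow_succ]
    field_simp

lemma pex_lap (b ℓ s : ℝ) (hb : 0 < b) (hℓ : 0 < ℓ) (hs : 0 < s) :
    (∫ t in Ioi (0:ℝ), Real.exp (-(s*t)) * pex b ℓ t) * (s + b * (1 - Real.exp (-(s*ℓ)))) = 1 := by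
  set q := b * Real.exp (-(s*ℓ)) / (s+b) with hq
  have hsb : 0 < s + b := by linarith
  have hE : 0 < Real.exp (-(s*ℓ)) := Real.exp_pos _
  have hE1 : Real.exp (-(s*ℓ)) ≤ 1 := Real.exp_le_one_iff.2 (by
    have := mul_pos hs hℓ
    linarith)
  have hq0 : 0 ≤ q := by positivity
  have hq1 : q < 1 := by
    rw [hq, div_lt_one hsb]
    nlinarith
  have hL : ∀ k : ℕ, ∫ t in Ioi (0:ℝ), Real.exp (-(s*t)) * gk b ℓ k t = (1/(s+b)) * q^k :=
    fun k => (gk_lap b ℓ s hb hℓ hs k).2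
  have hsum : HasSum (fun k : ℕ => (1/(s+b)) * q^k) ((1/(s+b)) * (1-q)⁻¹) :=
    (hasSum_geometric_of_lt_one hq0 hq1).mul_left _
  have h1 := hasSum_integral_of_summable_integral_norm (μ := volume.restrict (Ioi (0:ℝ)))
    (F := fun (k:ℕ) t => Real.exp (-(s*t)) * gk b ℓ k t)
    (fun k => (gk_lap b ℓ s hb hℓ hs k).1) (by
      have e : ∀ k : ℕ, ∫ t in Ioi (0:ℝ), ‖Real.exp (-(s*t)) * gk b ℓ k t‖ = (1/(s+b)) * q^k := by
        intro k
        rw [← hL k]
        refine integral_congr_ae (ae_of_all _ fun t => ?_)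
        simp only
        rw [Real.norm_eq_abs, abs_of_nonneg (mul_nonneg (Real.exp_pos _).le (gk_nonneg b ℓ hb k t))]
      simp only [e]
      exact hsum.summable)
  simp only [hL] at h1
  have h2 := h1.unique hsum
  have e2 : ∫ t in Ioi (0:ℝ), Real.exp (-(s*t)) * pex b ℓ t =
      ∫ t in Ioi (0:ℝ), ∑' k : ℕ, Real.exp (-(s*t)) * gk b ℓ k t := by
    refine integral_congr_ae (ae_of_all _ fun t => ?_)
    simp only [pex]
    rw [tsum_mul_left]
  rw [e2, h2]
  have h3 : 1 - q = (s + b * (1 - Real.exp (-(s*ℓ)))) / (s+b) := by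
    rw [hq]; field_simp; ring
  have h4 : 0 < s + b * (1 - Real.exp (-(s*ℓ))) := by
    have := mul_nonneg hb.le (by linarith : 0 ≤ 1 - Real.exp (-(s*ℓ)))
    linarith
  rw [h3]
  field_simp

lemma pex_canon (b ℓ : ℝ) (hb : 0 < b) (hℓ : 0 < ℓ) : Canon (pex b ℓ) := by
  refine ⟨(pex_cont b ℓ hℓ).continuousOn, ENNReal.ofReal b • Measure.dirac ℓ, ?_, ?_, 0, le_rfl, ?_⟩
  · rw [Measure.smul_apply, Measure.dirac_apply' _ measurableSet_Iic,
      indicator_of_notMem (by simpa using hℓ)]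
    simp
  · refine Integrable.smul_measure ?_ ENNReal.ofReal_ne_top
    exact integrable_dirac (by simp)
  · intro s hs
    rw [integral_smul_measure, integral_dirac, ENNReal.toReal_ofReal hb.le, smul_eq_mul, add_zero]
    exact pex_lap b ℓ s hb hℓ hs

theorem canon_upper (M δ : ℝ) (hM0 : 0 < M) (hM : M < Real.exp (-1)) (hδ : 0 < δ) :
    ∃ p : ℝ → ℝ, Canon p ∧ p 1 = M ∧ p (1/2) < δ := by
  -- choose b
  have hT : Tendsto (fun b : ℝ => Real.exp (-(b/2))) atTop (𝓝 0) := by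
    have : Tendsto (fun b : ℝ => b/2) atTop atTop := tendsto_id.atTop_div_const (by norm_num)
    exact Real.tendsto_exp_neg_atTop_nhds_zero.comp this
  have hev := (hT.eventually (gt_mem_nhds (lt_min hM0 hδ))).and (eventually_gt_atTop (2:ℝ))
  obtain ⟨b, hb1, hb2⟩ := hev.exists
  have hb : 0 < b := by linarith
  have hbM : Real.exp (-(b/2)) < M := hb1.trans_le (min_le_left _ _)
  have hbδ : Real.exp (-(b/2)) < δ := hb1.trans_le (min_le_right _ _)
  have hbM' : Real.exp (-b) < M := lt_of_le_of_lt (Real.exp_le_exp.2 (by linarith)) hbM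
  -- IVT
  have hc : ContinuousOn (fun y : ℝ => Real.exp (-b) + y * Real.exp (-y)) (Icc 0 1) := by fun_prop
  have hivt := intermediate_value_Icc (zero_le_one (α := ℝ)) hc
  obtain ⟨y, hy, hyM⟩ := hivt (show M ∈ Icc _ _ from ⟨by simpa using hbM'.le, by
    simp only [one_mul]
    have := Real.exp_pos (-b)
    linarith⟩)
  simp only at hyM
  set ℓ := 1 - y / b with hℓ
  have hyb : y / b < 1/2 := by
    rw [div_lt_iff₀ hb]
    linarith [hy.2]
  have hyb0 : 0 ≤ y / b := div_nonneg hy.1 hb.le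
  have hℓ1 : 1/2 < ℓ := by rw [hℓ]; linarith
  have hℓ2 : ℓ ≤ 1 := by rw [hℓ]; linarith
  have hℓ0 : 0 < ℓ := by linarith
  refine ⟨pex b ℓ, pex_canon b ℓ hb hℓ0, ?_, ?_⟩
  · rw [pex_eq b ℓ hℓ0 2 (by norm_num) 1 (by push_cast; linarith)]
    rw [Finset.sum_range_succ, Finset.sum_range_one]
    unfold gk
    simp only [Nat.cast_zero, zero_mul, sub_zero, pow_zero, mul_one, Nat.factorial_zero, Nat.cast_one,
      div_one, one_mul, pow_one, Nat.factorial_one]
    rw [max_eq_left (by norm_num : (0:ℝ) ≤ 1), max_eq_left (by linarith : 0 ≤ 1 - ℓ)]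
    have : b * (1 - ℓ) = y := by rw [hℓ]; field_simp; ring
    rw [this, mul_one, mul_comm (Real.exp (-y)) y]
    exact hyM
  · rw [pex_eq b ℓ hℓ0 1 (by norm_num) (1/2) (by push_cast; linarith)]
    rw [Finset.sum_range_one]
    unfold gk
    simp only [Nat.cast_zero, zero_mul, sub_zero, pow_zero, mul_one, Nat.factorial_zero, Nat.cast_one,
      div_one]
    rw [max_eq_left (by norm_num : (0:ℝ) ≤ 1/2)]
    have : b * (1/2) = b/2 := by ring
    rw [this]
    exact hbδ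

end H19Dav
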