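import Mathlib
import Pool.Agent.Helpers.H19DavL
import Pool.Agent.Helpers.H19PFunDefs

set_option autoImplicit false
open MeasureTheory Set Filter Topology
open scoped NNReal

namespace H19Dav

section events
variable {p : ℝ≥0 → ℝ} {Ω : Type} [MeasurableSpace Ω] {P : Measure Ω} [IsProbabilityMeasure P]
  {E : ℝ≥0 → Set Ω}

/-- one-step Markov property at the last time -/
lemma markov_fin
    (h : ∀ (n : ℕ) (t : Fin (n + 1) → ℝ≥0), Monotone t →
      P.real (⋂ i, E (t i)) = p (t 0) * P.real (⋂ i : Fin n, E (t i.succ - t 0)))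
    (m : ℕ) : ∀ t : Fin (m + 2) → ℝ≥0, Monotone t →
    P.real (⋂ i, E (t i)) = P.real (⋂ i : Fin (m + 1), E (t i.castSucc)) *
      p (t (Fin.last (m + 1)) - t (Fin.last m).castSucc) := by
  have hE : ∀ s, P.real (E s) = p s := by
    intro s
    have := h 0 (fun _ => s) (fun _ _ _ => le_rfl)
    rw [iInter_const] at this
    simpa using this
  induction m with
  | zero =>
    intro t ht
    rw [h 1 t ht]
    have e1 : (⋂ i : Fin 1, E (t i.succ - t 0)) = E (t 1 - t 0) := by
      ext x; simp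
    have e2 : (⋂ i : Fin 1, E (t i.castSucc)) = E (t 0) := by
      ext x; simp
    rw [e1, e2, hE, hE]
    rfl
  | succ m ih =>
    intro t ht
    have ht0 : ∀ i, t 0 ≤ t i := fun i => ht (Fin.zero_le i)
    rw [h (m + 2) t ht]
    rw [ih (fun i => t i.succ - t 0) (fun i j hij => tsub_le_tsub_right (ht (Fin.succ_le_succ_iff.2 hij)) _)]
    rw [h (m + 1) (fun i => t i.castSucc) (fun i j hij => ht (Fin.castSucc_le_castSucc_iff.2 hij))]
    simp only [Fin.castSucc_zero, Fin.succ_castSucc, Fin.succ_last]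
    rw [tsub_tsub_tsub_cancel_right (ht0 _), mul_assoc]

lemma markov_finset
    (h : ∀ (n : ℕ) (t : Fin (n + 1) → ℝ≥0), Monotone t →
      P.real (⋂ i, E (t i)) = p (t 0) * P.real (⋂ i : Fin n, E (t i.succ - t 0)))
    (A : ℕ → ℝ≥0) (hA : Monotone A) (I : Finset ℕ) (j n : ℕ) (hI : ∀ i ∈ I, i ≤ j) (hjn : j ≤ n) :
    P.real ((⋂ i ∈ I, E (A i)) ∩ E (A j) ∩ E (A n)) =
      P.real ((⋂ i ∈ I, E (A i)) ∩ E (A j)) * p (A n - A j) := by
  set I' := insert j I with hI'
  have hne : I'.Nonempty := ⟨j, Finset.mem_insert_self _ _⟩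
  have hI'j : ∀ i ∈ I', i ≤ j := by
    intro i hi
    rw [hI', Finset.mem_insert] at hi
    rcases hi with rfl | hi
    · exact le_rfl
    · exact hI i hi
  obtain ⟨m, hm⟩ : ∃ m, I'.card = m + 1 := ⟨I'.card - 1, by have := hne.card_pos; omega⟩
  set e := I'.orderEmbOfFin hm with he
  have hlast : e (Fin.last m) = j := by
    have h1 := Finset.orderEmbOfFin_last hm (by omega)
    have h2 : I'.max' hne = j := by
      apply le_antisymm
      · exact Finset.max'_le _ _ _ hI'j
      · exact Finset.le_max' _ _ (Finset.mem_insert_self _ _)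
    rw [he, ← h2]
    exact h1
  set t : Fin (m + 2) → ℝ≥0 := Fin.snoc (α := fun _ => ℝ≥0) (fun i : Fin (m+1) => A (e i)) (A n) with ht
  have htc : ∀ i : Fin (m+1), t i.castSucc = A (e i) := fun i => by
    rw [ht]; exact Fin.snoc_castSucc (α := fun _ => ℝ≥0) _ _ _
  have htl : t (Fin.last (m+1)) = A n := by
    rw [ht]; exact Fin.snoc_last (α := fun _ => ℝ≥0) _ _
  have htm : Monotone t := by
    intro a b hab
    induction a using Fin.lastCases with
    | last =>
      have : b = Fin.last (m+1) := le_antisymm (Fin.le_last _) hab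
      rw [this]
    | cast a =>
      induction b using Fin.lastCases with
      | last =>
        rw [htc, htl]
        apply hA
        exact (hI'j _ (Finset.orderEmbOfFin_mem _ _ _)).trans hjn
      | cast b =>
        rw [htc, htc]
        apply hA
        exact e.monotone (Fin.castSucc_le_castSucc_iff.1 hab)
  have h1 := markov_fin h m t htm
  have e1 : (⋂ i : Fin (m+1), E (t i.castSucc)) = (⋂ i ∈ I, E (A i)) ∩ E (A j) := by
    ext x
    simp only [mem_iInter, mem_inter_iff, htc]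
    constructor
    · intro hx
      have hx' : ∀ i ∈ I', x ∈ E (A i) := by
        intro i hi
        have : i ∈ Set.range e := by
          rw [he, Finset.range_orderEmbOfFin]; exact hi
        obtain ⟨a, rfl⟩ := this
        exact hx a
      exact ⟨fun i hi => hx' i (Finset.mem_insert_of_mem hi), hx' j (Finset.mem_insert_self _ _)⟩
    · rintro ⟨hx1, hx2⟩ i
      have : e i ∈ I' := Finset.orderEmbOfFin_mem _ _ _
      rw [hI', Finset.mem_insert] at this
      rcases this with h | h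
      · rw [h]; exact hx2
      · exact hx1 _ h
  have e2 : (⋂ i : Fin (m+2), E (t i)) = (⋂ i ∈ I, E (A i)) ∩ E (A j) ∩ E (A n) := by
    rw [← e1]
    ext x
    simp only [mem_iInter, mem_inter_iff]
    constructor
    · intro hx
      refine ⟨fun i => hx _, ?_⟩
      rw [← htl]; exact hx _
    · rintro ⟨hx1, hx2⟩ i
      induction i using Fin.lastCases with
      | last => rw [htl]; exact hx2
      | cast i => exact hx1 i
  rw [e1, e2, htl, htc, hlast] at h1
  exact h1

lemma markov_sets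
    (h : ∀ (n : ℕ) (t : Fin (n + 1) → ℝ≥0), Monotone t →
      P.real (⋂ i, E (t i)) = p (t 0) * P.real (⋂ i : Fin n, E (t i.succ - t 0)))
    (hm : ∀ t, MeasurableSet (E t))
    (A : ℕ → ℝ≥0) (hA : Monotone A) (j n : ℕ) (hjn : j ≤ n) (J : Finset ℕ) :
    ∀ I : Finset ℕ, (∀ i ∈ I, i ≤ j) → (∀ i ∈ J, i ≤ j) →
    P.real ((⋂ i ∈ I, E (A i)) ∩ (⋂ i ∈ J, (E (A i))ᶜ) ∩ E (A j) ∩ E (A n)) =
      P.real ((⋂ i ∈ I, E (A i)) ∩ (⋂ i ∈ J, (E (A i))ᶜ) ∩ E (A j)) * p (A n - A j) := by
  induction J using Finset.induction_on with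
  | empty =>
    intro I hI _
    simp only [Finset.notMem_empty, iInter_of_empty, iInter_univ, inter_univ]
    exact markov_finset h A hA I j n hI hjn
  | insert b J hb ih =>
    intro I hI hJ
    have hJ' : ∀ i ∈ J, i ≤ j := fun i hi => hJ i (Finset.mem_insert_of_mem hi)
    have hbj : b ≤ j := hJ b (Finset.mem_insert_self _ _)
    have hIb : ∀ i ∈ insert b I, i ≤ j := by
      intro i hi
      rw [Finset.mem_insert] at hi
      rcases hi with rfl | hi
      · exact hbj
      · exact hI i hi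
    have h1 := ih I hI hJ'
    have h2 := ih (insert b I) hIb hJ'
    have key : ∀ Y : Set Ω, P.real ((⋂ i ∈ I, E (A i)) ∩ (⋂ i ∈ insert b J, (E (A i))ᶜ) ∩ Y) =
        P.real ((⋂ i ∈ I, E (A i)) ∩ (⋂ i ∈ J, (E (A i))ᶜ) ∩ Y) -
        P.real ((⋂ i ∈ insert b I, E (A i)) ∩ (⋂ i ∈ J, (E (A i))ᶜ) ∩ Y) := by
      intro Y
      have e1 := measureReal_sdiff_add_inter (μ := P)
        (s := (⋂ i ∈ I, E (A i)) ∩ (⋂ i ∈ J, (E (A i))ᶜ) ∩ Y) (hm (A b))
      have e2 : ((⋂ i ∈ I, E (A i)) ∩ (⋂ i ∈ J, (E (A i))ᶜ) ∩ Y) \ E (A b) =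
          (⋂ i ∈ I, E (A i)) ∩ (⋂ i ∈ insert b J, (E (A i))ᶜ) ∩ Y := by
        ext x
        simp only [Set.mem_sdiff, mem_inter_iff, mem_iInter, mem_compl_iff, Finset.mem_insert]
        constructor
        · rintro ⟨⟨⟨h1, h2⟩, h3⟩, h4⟩
          refine ⟨⟨h1, ?_⟩, h3⟩
          rintro i (rfl | hi)
          · exact h4
          · exact h2 i hi
        · rintro ⟨⟨h1, h2⟩, h3⟩
          exact ⟨⟨⟨h1, fun i hi => h2 i (Or.inr hi)⟩, h3⟩, h2 b (Or.inl rfl)⟩
      have e3 : ((⋂ i ∈ I, E (A i)) ∩ (⋂ i ∈ J, (E (A i))ᶜ) ∩ Y) ∩ E (A b) =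
          (⋂ i ∈ insert b I, E (A i)) ∩ (⋂ i ∈ J, (E (A i))ᶜ) ∩ Y := by
        ext x
        simp only [mem_inter_iff, mem_iInter, mem_compl_iff, Finset.mem_insert]
        constructor
        · rintro ⟨⟨⟨h1, h2⟩, h3⟩, h4⟩
          refine ⟨⟨?_, h2⟩, h3⟩
          rintro i (rfl | hi)
          · exact h4
          · exact h1 i hi
        · rintro ⟨⟨h1, h2⟩, h3⟩
          exact ⟨⟨⟨fun i hi => h1 i (Or.inr hi), h2⟩, h3⟩, h1 b (Or.inl rfl)⟩
      rw [e2, e3] at e1
      linarith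
    rw [inter_assoc _ (E (A j)) (E (A n)), key, key, ← inter_assoc, ← inter_assoc, h1, h2]
    ring

/-- no event at the grid times `1..n` -/
def Zn (E : ℝ≥0 → Set Ω) (A : ℕ → ℝ≥0) (n : ℕ) : Set Ω := ⋂ i ∈ Finset.Icc 1 n, (E (A i))ᶜ

omit [MeasurableSpace Ω] in
lemma Zn_zero (A : ℕ → ℝ≥0) : Zn E A 0 = univ := by simp [Zn]

omit [MeasurableSpace Ω] in
lemma Zn_succ (A : ℕ → ℝ≥0) (n : ℕ) : Zn E A (n+1) = Zn E A n \ E (A (n+1)) := by
  ext x
  simp only [Zn, mem_iInter, mem_compl_iff, Set.mem_sdiff, Finset.mem_Icc]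
  constructor
  · intro hx
    exact ⟨fun i hi => hx i ⟨hi.1, by omega⟩, hx (n+1) ⟨by omega, le_rfl⟩⟩
  · rintro ⟨h1, h2⟩ i hi
    rcases Nat.lt_or_ge i (n+1) with h | h
    · exact h1 i ⟨hi.1, by omega⟩
    · have : i = n+1 := by omega
      rw [this]; exact h2

lemma first_passage (hm : ∀ t, MeasurableSet (E t)) (A : ℕ → ℝ≥0) (Y : Set Ω) (n : ℕ) :
    P.real Y = ∑ j ∈ Finset.range n, P.real (Y ∩ Zn E A j ∩ E (A (j+1))) + P.real (Y ∩ Zn E A n) := by
  induction n with
  | zero => simp [Zn_zero]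
  | succ n ih =>
    rw [Finset.sum_range_succ, ih, add_assoc]
    congr 1
    have e1 := measureReal_sdiff_add_inter (μ := P) (s := Y ∩ Zn E A n) (hm (A (n+1)))
    rw [Zn_succ, ← inter_sdiff_assoc]
    linarith

theorem skeleton
    (hp0 : p 0 = 1)
    (h : ∀ (n : ℕ) (t : Fin (n + 1) → ℝ≥0), Monotone t →
      P.real (⋂ i, E (t i)) = p (t 0) * P.real (⋂ i : Fin n, E (t i.succ - t 0)))
    (hm : ∀ t, MeasurableSet (E t)) (η : ℝ≥0) :
    ∃ F : PS, SP F ∧ PowerSeries.coeff 0 F = 0 ∧ PowerSeries.coeff 1 F = p η ∧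
      ∀ n : ℕ, PowerSeries.coeff n (ren F) = p (n * η) := by
  have hE : ∀ s, P.real (E s) = p s := by
    intro s
    have := h 0 (fun _ => s) (fun _ _ _ => le_rfl)
    rw [iInter_const] at this
    simpa using this
  set A : ℕ → ℝ≥0 := fun n => n * η with hA
  have hAm : Monotone A := fun a b hab => by
    simp only [hA]
    gcongr
  set f : ℕ → ℝ := fun j => if j = 0 then 0 else P.real (Zn E A (j-1) ∩ E (A j)) with hf
  have hf0 : f 0 = 0 := by simp [hf]
  have hfs : ∀ j, f (j+1) = P.real (Zn E A j ∩ E (A (j+1))) := by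
    intro j; simp [hf]
  have hfnn : ∀ j, 0 ≤ f j := by
    intro j
    simp only [hf]
    split_ifs
    · exact le_rfl
    · exact measureReal_nonneg
  set F : PS := PowerSeries.mk f with hF
  have hc : ∀ j, PowerSeries.coeff j F = f j := fun j => by rw [hF, PowerSeries.coeff_mk]
  have hF0 : PowerSeries.coeff 0 F = 0 := by rw [hc, hf0]
  have hNN : NN F := fun n => by rw [hc]; exact hfnn n
  have hSP : SP F := by
    refine ⟨hNN, fun n => ?_⟩
    rw [cS, Finset.sum_range_succ']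
    simp only [hc, hf0, add_zero, hfs]
    have h1 := first_passage (P := P) hm A univ n
    simp only [univ_inter] at h1
    have h2 : 0 ≤ P.real (Zn E A n) := measureReal_nonneg
    have h3 : P.real (univ : Set Ω) = 1 := by simp
    linarith
  have hrec : ∀ n, 1 ≤ n → p (A n) = ∑ j ∈ Finset.range n, f (j+1) * p (A (n - (j+1))) := by
    intro n hn
    have h1 := first_passage (P := P) hm A (E (A n)) n
    have h2 : E (A n) ∩ Zn E A n = ∅ := by
      ext x
      simp only [mem_inter_iff, Zn, mem_iInter, mem_compl_iff, Finset.mem_Icc, mem_empty_iff_false,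
        iff_false, not_and]
      intro hx hx2
      exact hx2 n ⟨hn, le_rfl⟩ hx
    rw [h2, measureReal_empty, add_zero, hE] at h1
    rw [h1]
    refine Finset.sum_congr rfl fun j hj => ?_
    have hj' := Finset.mem_range.1 hj
    have h3 := markov_sets h hm A hAm (j+1) n (by omega) (Finset.Icc 1 j) ∅ (by simp)
      (fun i hi => by rw [Finset.mem_Icc] at hi; omega)
    simp only [Finset.notMem_empty, iInter_of_empty, iInter_univ, univ_inter] at h3
    have h4 : A n - A (j+1) = A (n - (j+1)) := by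
      simp only [hA]
      rw [← tsub_mul, Nat.cast_tsub]
    rw [h4] at h3
    rw [hfs]
    have h5 : E (A n) ∩ Zn E A j ∩ E (A (j+1)) = (⋂ i ∈ Finset.Icc 1 j, (E (A i))ᶜ) ∩ E (A (j+1)) ∩ E (A n) := by
      rw [Zn, inter_comm (E (A n)), inter_assoc, inter_comm (E (A n)), ← inter_assoc]
    rw [h5, h3]
    rfl
  set U : PS := PowerSeries.mk fun n => p (A n) with hU
  have hcU : ∀ n, PowerSeries.coeff n U = p (A n) := fun n => by rw [hU, PowerSeries.coeff_mk]
  have hA0 : A 0 = 0 := by simp [hA]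
  have hUF : U = 1 + F * U := by
    ext n
    rw [map_add, PowerSeries.coeff_one, cmul, Finset.sum_range_succ']
    simp only [hc, hcU, hf0, zero_mul, add_zero]
    rcases Nat.eq_zero_or_pos n with hn | hn
    · subst hn
      simp [hA0, hp0]
    · rw [if_neg hn.ne', zero_add]
      exact hrec n hn
  have hUeq : ren F = U := by
    have h1 : U * (1 - F) = 1 := by
      have : U * (1 - F) = U - F * U := by ring
      rw [this]
      nth_rewrite 1 [hUF]
      ring
    have h2 := ren_mul hF0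
    calc ren F = ren F * 1 := (mul_one _).symm
      _ = ren F * (U * (1 - F)) := by rw [h1]
      _ = U * (ren F * (1 - F)) := by ring
      _ = U := by rw [h2, mul_one]
  refine ⟨F, hSP, hF0, ?_, ?_⟩
  · rw [hc, hfs 0, Zn_zero, univ_inter, hE]
    simp [hA]
  · intro n
    rw [hUeq, hcU]

end events

lemma std_near {p : ℝ≥0 → ℝ} (hp : H19PF.IsPFunction p) (t h : ℝ≥0) :
    |p (t + h) - p t| ≤ 1 - p h := by
  obtain ⟨h01, hp0, Ω, mΩ, P, E, hP, hm, hprod⟩ := hp
  have hE : ∀ s, P.real (E s) = p s := by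
    intro s
    have := hprod 0 (fun _ => s) (fun _ _ _ => le_rfl)
    rw [iInter_const] at this
    simpa using this
  have h2 : ∀ s u : ℝ≥0, P.real (E s ∩ E (s + u)) = p s * p u := by
    intro s u
    have := hprod 1 ![s, s+u] (by
      intro i j hij
      fin_cases i <;> fin_cases j <;> simp_all)
    have e1 : (⋂ i : Fin 2, E (![s, s+u] i)) = E s ∩ E (s+u) := by
      ext x; simp [Fin.forall_fin_two]
    have e2 : (⋂ i : Fin 1, E (![s, s+u] i.succ - ![s, s+u] 0)) = E u := by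
      ext x; simp
    rw [e1, e2, hE] at this
    simpa using this
  have a1 := h2 t h
  have a2 := h2 h t
  have b1 : P.real (E t ∩ E (t + h)) ≤ P.real (E (t+h)) := measureReal_mono inter_subset_right
  rw [a1, hE] at b1
  have b2 : P.real (E (t + h)) = P.real (E (t+h) \ E h) + P.real (E (t+h) ∩ E h) :=
    (measureReal_sdiff_add_inter (hm h)).symm
  have b3 : P.real (E (t+h) \ E h) ≤ P.real ((E h)ᶜ) := measureReal_mono (fun x hx => hx.2)
  have b4 : P.real ((E h)ᶜ) = 1 - p h := by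
    rw [measureReal_compl (hm h), hE]; simp
  rw [inter_comm, add_comm t h, a2, hE] at b2
  rw [add_comm t h] at b1 b3 ⊢
  have c1 := h01 t
  have c2 := h01 h
  rw [b4] at b3
  rw [abs_le]
  constructor
  · nlinarith [c1.1, c1.2, c2.1, c2.2]
  · nlinarith [c1.1, c1.2, c2.1, c2.2]

lemma std_continuous {p : ℝ≥0 → ℝ} (hp : H19PF.IsStandard p) : Continuous p := by
  obtain ⟨hp1, hp2⟩ := hp
  rw [Metric.continuous_iff]
  intro x ε hε
  rw [Metric.tendsto_nhds_nhds] at hp2
  obtain ⟨δ, hδ, h⟩ := hp2 ε hε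
  refine ⟨δ, hδ, fun y hy => ?_⟩
  rcases le_total x y with hxy | hxy
  · have h1 := std_near hp1 x (y - x)
    rw [add_tsub_cancel_of_le hxy] at h1
    have h2 := @h (y - x) (by
      rw [NNReal.dist_eq] at hy ⊢
      rw [NNReal.coe_sub hxy]
      simpa using hy)
    rw [Real.dist_eq] at h2 ⊢
    have := abs_lt.1 h2
    linarith
  · have h1 := std_near hp1 y (x - y)
    rw [add_tsub_cancel_of_le hxy] at h1
    have h2 := @h (x - y) (by
      rw [NNReal.dist_eq] at hy ⊢
      rw [NNReal.coe_sub hxy]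
      rw [abs_sub_comm] at hy
      simpa using hy)
    rw [Real.dist_eq] at h2 ⊢
    rw [abs_sub_comm] at h1
    have := abs_lt.1 h2
    linarith

lemma std_approx {p : ℝ≥0 → ℝ} (hp : H19PF.IsStandard p) : Approx (fun t : ℝ => p t.toNNReal) := by
  intro ε β hε hβ
  obtain ⟨⟨h01, hp0, Ω, mΩ, P, E, hP, hm, hprod⟩, hlim⟩ := hp
  have hT : Tendsto (fun N : ℕ => (1:ℝ≥0)/N) atTop (𝓝 0) := by
    rw [← NNReal.tendsto_coe]
    simpa using tendsto_one_div_atTop_nhds_zero_nat (𝕜 := ℝ)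
  have h1 := (hlim.comp hT).eventually (lt_mem_nhds (show 1 - β < 1 by linarith))
  obtain ⟨N0, hN0⟩ := eventually_atTop.1 h1
  refine ⟨N0, fun N hN hpos => ?_⟩
  obtain ⟨F, hF, hF0, hF1, hFn⟩ := skeleton hp0 hprod hm ((1:ℝ≥0)/N)
  refine ⟨F, hF, hF0, ?_, ?_⟩
  · rw [hF1]; exact (hN0 N hN).le
  · intro n _
    rw [hFn]
    show |p (n * (1/N)) - p ((n:ℝ)/N).toNNReal| ≤ ε
    have : ((n:ℝ)/N).toNNReal = (n:ℝ≥0) * (1/N) := by
      rw [← NNReal.coe_inj, Real.coe_toNNReal _ (by positivity)]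
      push_cast
      ring
    rw [this, sub_self, abs_zero]
    exact hε.le

theorem std_lower (M : ℝ) (hM : Real.exp (-1) < M) : ∃ δ : ℝ, 0 < δ ∧ ∀ p : ℝ≥0 → ℝ,
    H19PF.IsStandard p → p 1 = M → ∀ t : ℝ≥0, t ≤ 1 → δ ≤ p t := by
  obtain ⟨δ, hδ, h⟩ := approx_lower M hM
  refine ⟨δ, hδ, fun p hp hp1 t ht => ?_⟩
  have h1 := h (fun t : ℝ => p t.toNNReal)
    ((std_continuous hp).comp continuous_real_toNNReal).continuousOn (std_approx hp)
    (by simpa using hp1) t ⟨t.2, by exact_mod_cast ht⟩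
  simpa using h1

end H19Dav
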