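import Mathlib
import Pool.Agent.Helpers.H19PFunDefs

open MeasureTheory Filter Topology
open scoped NNReal
open scoped CompactlySupported

namespace H19PF

/-! ### measure from a positive functional -/

lemma exists_measure {X : Type} [TopologicalSpace X] [CompactSpace X] [T2Space X]
    (L : C(X, ℝ) → ℝ) (hadd : ∀ f g, L (f + g) = L f + L g)
    (hsmul : ∀ (c : ℝ) f, L (c • f) = c * L f)
    (hpos : ∀ f : C(X, ℝ), (∀ x, 0 ≤ f x) → 0 ≤ L f) (h1 : L 1 = 1) :
    ∃ (_ : MeasurableSpace X) (P : Measure X), IsProbabilityMeasure P ∧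
      ∀ (s : Set X) (f : C(X, ℝ)), IsClopen s → (∀ x, f x = s.indicator 1 x) →
        MeasurableSet s ∧ P.real s = L f := by
  letI : MeasurableSpace X := borel X
  haveI : BorelSpace X := ⟨rfl⟩
  let e : C(X, ℝ) ≃ C_c(X, ℝ) := CompactlySupportedContinuousMap.continuousMapEquiv
  let M0 : C_c(X, ℝ) →ₗ[ℝ] ℝ :=
    { toFun := fun f => L (e.symm f)
      map_add' := fun f g => by
        have : e.symm (f + g) = e.symm f + e.symm g := rfl
        rw [this, hadd]
      map_smul' := fun c f => by
        have : e.symm (c • f) = c • e.symm f := rfl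
        rw [this, hsmul]; rfl }
  let M : C_c(X, ℝ) →ₚ[ℝ] ℝ := PositiveLinearMap.mk₀ M0 (fun f hf => hpos _ (fun x => hf x))
  let μ := RealRMK.rieszMeasure M
  have hint : ∀ f : C(X, ℝ), ∫ x, f x ∂μ = L f := by
    intro f
    have := RealRMK.integral_rieszMeasure M (e f)
    exact this
  haveI : IsFiniteMeasure μ := by
    haveI : μ.Regular := RealRMK.regular_rieszMeasure M
    infer_instance
  have hone : μ.real Set.univ = 1 := by
    have := hint 1
    rw [h1] at this
    simpa using this
  have hprob : IsProbabilityMeasure μ := by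
    constructor
    have := hone
    rw [Measure.real] at this
    have h2 : μ Set.univ = ENNReal.ofReal 1 := by
      rw [← this, ENNReal.ofReal_toReal (measure_ne_top _ _)]
    simpa using h2
  refine ⟨borel X, μ, hprob, ?_⟩
  intro s f hs hf
  have hm : MeasurableSet s := hs.isOpen.measurableSet
  refine ⟨hm, ?_⟩
  rw [← hint f]
  have : (fun x => f x) = s.indicator 1 := funext hf
  rw [this]
  rw [integral_indicator_one hm]

/-! ### discrete renewal sequences -/

/-- `f` associated with `u`: `f 0 = 0`, `u n = ∑_{k=1}^n f k u (n-k)`. -/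
noncomputable def ren (u : ℕ → ℝ) : ℕ → ℝ
  | 0 => 0
  | (n + 1) => u (n + 1) - ∑ k : Fin (n + 1), ren u k * u (n + 1 - k)

lemma ren_zero (u : ℕ → ℝ) : ren u 0 = 0 := by rw [ren]

lemma ren_succ (u : ℕ → ℝ) (n : ℕ) :
    ren u (n + 1) = u (n + 1) - ∑ k ∈ Finset.range (n + 1), ren u k * u (n + 1 - k) := by
  rw [ren, ← Fin.sum_univ_eq_sum_range (fun k => ren u k * u (n + 1 - k))]

lemma ren_eq (u : ℕ → ℝ) (h0 : u 0 = 1) (n : ℕ) (hn : 1 ≤ n) :
    u n = ∑ k ∈ Finset.range (n + 1), ren u k * u (n - k) := by
  obtain ⟨m, rfl⟩ : ∃ m, n = m + 1 := ⟨n - 1, by omega⟩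
  rw [Finset.sum_range_succ, ren_succ]
  simp [h0]

/-- glue: the configuration with a `true` at 0, `false` at `1..k-1` and `y` from `k` on. -/
def glue (k : ℕ) (y : ℕ → Bool) : ℕ → Bool := fun i =>
  if i = 0 then true else if i < k then false else y (i - k)

def z0 : ℕ → Bool := fun i => decide (i = 0)

noncomputable def EE (f : ℕ → ℝ) (N : ℕ) (g : (ℕ → Bool) → ℝ) : ℝ :=
  (1 - ∑ k ∈ Finset.range (N + 1), f k) * g z0 +
    ∑ k : Fin N, f (k + 1) * EE f (N - (k + 1)) (fun y => g (glue (k + 1) y))
termination_by N
decreasing_by omega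

lemma EE_eq (f : ℕ → ℝ) (N : ℕ) (g : (ℕ → Bool) → ℝ) :
    EE f N g = (1 - ∑ k ∈ Finset.range (N + 1), f k) * g z0 +
      ∑ k ∈ Finset.range N, f (k + 1) * EE f (N - (k + 1)) (fun y => g (glue (k + 1) y)) := by
  rw [EE, ← Fin.sum_univ_eq_sum_range
    (fun k => f (k + 1) * EE f (N - (k + 1)) (fun y => g (glue (k + 1) y)))]

lemma EE_add (f : ℕ → ℝ) (N : ℕ) : ∀ (g h : (ℕ → Bool) → ℝ),
    EE f N (fun x => g x + h x) = EE f N g + EE f N h := by
  induction N using Nat.strong_induction_on with
  | _ N ih =>
    intro g h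
    rw [EE_eq, EE_eq f N g, EE_eq f N h]
    have : ∀ k ∈ Finset.range N, f (k + 1) * EE f (N - (k + 1))
        (fun y => g (glue (k + 1) y) + h (glue (k + 1) y)) =
        f (k + 1) * EE f (N - (k + 1)) (fun y => g (glue (k + 1) y)) +
        f (k + 1) * EE f (N - (k + 1)) (fun y => h (glue (k + 1) y)) := by
      intro k hk
      rw [ih (N - (k + 1)) (by have := Finset.mem_range.1 hk; omega)]
      ring
    rw [Finset.sum_congr rfl this, Finset.sum_add_distrib]
    ring

lemma EE_smul (f : ℕ → ℝ) (c : ℝ) (N : ℕ) : ∀ (g : (ℕ → Bool) → ℝ),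
    EE f N (fun x => c * g x) = c * EE f N g := by
  induction N using Nat.strong_induction_on with
  | _ N ih =>
    intro g
    rw [EE_eq, EE_eq f N g]
    have : ∀ k ∈ Finset.range N, f (k + 1) * EE f (N - (k + 1))
        (fun y => c * g (glue (k + 1) y)) =
        c * (f (k + 1) * EE f (N - (k + 1)) (fun y => g (glue (k + 1) y))) := by
      intro k hk
      rw [ih (N - (k + 1)) (by have := Finset.mem_range.1 hk; omega)]
      ring
    rw [Finset.sum_congr rfl this, ← Finset.mul_sum]
    ring

lemma EE_nonneg (f : ℕ → ℝ) (hf : ∀ n, 0 ≤ f n)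
    (ht : ∀ N, ∑ k ∈ Finset.range (N + 1), f k ≤ 1) (N : ℕ) :
    ∀ (g : (ℕ → Bool) → ℝ), (∀ x, 0 ≤ g x) → 0 ≤ EE f N g := by
  induction N using Nat.strong_induction_on with
  | _ N ih =>
    intro g hg
    rw [EE_eq]
    apply add_nonneg
    · exact mul_nonneg (by linarith [ht N]) (hg _)
    · apply Finset.sum_nonneg
      intro k hk
      exact mul_nonneg (hf _) (ih (N - (k + 1)) (by have := Finset.mem_range.1 hk; omega) _
        (fun x => hg _))

lemma EE_one (f : ℕ → ℝ) (h0 : f 0 = 0) (N : ℕ) : EE f N (fun _ => 1) = 1 := by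
  induction N using Nat.strong_induction_on with
  | _ N ih =>
    rw [EE_eq]
    have : ∀ k ∈ Finset.range N, f (k + 1) * EE f (N - (k + 1)) (fun _ => 1) = f (k + 1) := by
      intro k hk
      rw [ih (N - (k + 1)) (by have := Finset.mem_range.1 hk; omega)]
      ring
    rw [Finset.sum_congr rfl this, Finset.sum_range_succ', h0]
    ring

lemma EE_congr (f : ℕ → ℝ) (N : ℕ) : ∀ (g h : (ℕ → Bool) → ℝ),
    (∀ x, x 0 = true → g x = h x) → EE f N g = EE f N h := by
  intro g h hgh
  rw [EE_eq, EE_eq f N h]
  rw [hgh z0 (by simp [z0])]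
  congr 1
  apply Finset.sum_congr rfl
  intro k hk
  congr 2
  funext y
  exact hgh _ (by simp [glue])

lemma EE_mono (f : ℕ → ℝ) (hf : ∀ n, 0 ≤ f n)
    (ht : ∀ N, ∑ k ∈ Finset.range (N + 1), f k ≤ 1) (N : ℕ)
    (g h : (ℕ → Bool) → ℝ) (hgh : ∀ x, g x ≤ h x) : EE f N g ≤ EE f N h := by
  have h1 := EE_nonneg f hf ht N (fun x => h x + (-1) * g x) (fun x => by linarith [hgh x])
  rw [EE_add, EE_smul] at h1
  linarith

/-- regenerative identity -/
lemma EE_regen (u : ℕ → ℝ) (hu : u 0 = 1) (N : ℕ) :
    ∀ (s : ℕ) (_ : s ≤ N) (h : (ℕ → Bool) → ℝ),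
    EE (ren u) N (fun x => (if x s = true then 1 else 0) * h (fun i => x (s + i))) =
      u s * EE (ren u) (N - s) h := by
  induction N using Nat.strong_induction_on with
  | _ N ih =>
    intro s hs h
    rcases Nat.eq_zero_or_pos s with rfl | hpos
    · rw [hu, one_mul, Nat.sub_zero]
      apply EE_congr
      intro x hx
      simp [hx]
    · rw [EE_eq]
      have hz : z0 s = false := by simp [z0]; omega
      rw [hz]
      simp only [Bool.false_eq_true, if_false, zero_mul, mul_zero, zero_add]
      have hterm : ∀ k ∈ Finset.range N, ren u (k + 1) * EE (ren u) (N - (k + 1))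
          (fun y => (if glue (k + 1) y s = true then 1 else 0) *
            h (fun i => glue (k + 1) y (s + i))) =
          if k < s then (ren u (k + 1) * u (s - (k + 1))) * EE (ren u) (N - s) h else 0 := by
        intro k hk
        have hk' := Finset.mem_range.1 hk
        split_ifs with hks
        · have e1 : (fun y : ℕ → Bool => (if glue (k + 1) y s = true then (1:ℝ) else 0) *
            h (fun i => glue (k + 1) y (s + i))) =
            (fun y => (if y (s - (k + 1)) = true then 1 else 0) *
              h (fun i => y (s - (k + 1) + i))) := by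
            funext y
            have g1 : glue (k + 1) y s = y (s - (k + 1)) := by
              unfold glue
              rw [if_neg (by omega), if_neg (by omega)]
            have g2 : (fun i => glue (k + 1) y (s + i)) = fun i => y (s - (k + 1) + i) := by
              funext i
              unfold glue
              rw [if_neg (by omega), if_neg (by omega)]
              congr 1
              omega
            rw [g1, g2]
          rw [e1, ih (N - (k + 1)) (by omega) (s - (k + 1)) (by omega) h]
          rw [show N - (k + 1) - (s - (k + 1)) = N - s by omega]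
          ring
        · have e1 : (fun y : ℕ → Bool => (if glue (k + 1) y s = true then (1:ℝ) else 0) *
            h (fun i => glue (k + 1) y (s + i))) = (fun y => 0 * (1:ℝ)) := by
            funext y
            have g1 : glue (k + 1) y s = false := by
              unfold glue
              rw [if_neg (by omega), if_pos (by omega)]
            rw [g1]
            simp
          rw [e1, EE_smul]
          ring
      rw [Finset.sum_congr rfl hterm]
      rw [← Finset.sum_filter]
      have hfil : (Finset.range N).filter (fun k => k < s) = Finset.range s := by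
        ext k
        simp only [Finset.mem_filter, Finset.mem_range]
        omega
      rw [hfil, ← Finset.sum_mul]
      congr 1
      rw [ren_eq u hu s hpos, Finset.sum_range_succ', ren_zero, zero_mul, add_zero]

/-- product of `p` over the successive gaps -/
def gp {α : Type} [Sub α] (p : α → ℝ) : (n : ℕ) → (Fin n → α) → α → ℝ
  | 0, _, _ => 1
  | (n + 1), t, s => p (t 0 - s) * gp p n (fun i => t i.succ) (t 0)

lemma EE_prod (u : ℕ → ℝ) (hu : u 0 = 1) (n : ℕ) : ∀ (m : Fin n → ℕ) (s N : ℕ),
    Monotone m → (∀ i, s ≤ m i) → (∀ i, m i - s ≤ N) →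
    EE (ren u) N (fun x => ∏ i, (if x (m i - s) = true then (1:ℝ) else 0)) = gp u n m s := by
  induction n with
  | zero =>
    intro m s N _ _ _
    simp only [Finset.univ_eq_empty, Finset.prod_empty, gp]
    exact EE_one _ (ren_zero u) N
  | succ n ih =>
    intro m s N hm hs hN
    rw [gp]
    have hm0 : ∀ i, m 0 ≤ m i := fun i => hm (Fin.zero_le i)
    have e1 : (fun x : ℕ → Bool => ∏ i, (if x (m i - s) = true then (1:ℝ) else 0)) =
        (fun x => (if x (m 0 - s) = true then (1:ℝ) else 0) *
          (fun y : ℕ → Bool => ∏ i : Fin n, (if y (m i.succ - m 0) = true then (1:ℝ) else 0))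
            (fun i => x (m 0 - s + i))) := by
      funext x
      rw [Fin.prod_univ_succ]
      congr 1
      apply Finset.prod_congr rfl
      intro i _
      have : m 0 - s + (m i.succ - m 0) = m i.succ - s := by
        have := hm0 i.succ
        have := hs 0
        omega
      simp only [this]
    rw [e1, EE_regen u hu N (m 0 - s) (hN 0)
      (fun y : ℕ → Bool => ∏ i : Fin n, (if y (m i.succ - m 0) = true then (1:ℝ) else 0))]
    congr 1
    apply ih (fun i => m i.succ) (m 0)
    · intro i j hij
      exact hm (Fin.succ_le_succ_iff.2 hij)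
    · intro i; exact hm0 _
    · intro i
      have := hN i.succ
      have := hN 0
      have := hm0 i.succ
      have := hs 0
      omega

end H19PF
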