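import Mathlib
import Pool.Agent.Helpers.H19PFunDefs
import Pool.Agent.Helpers.H19PFun1

open MeasureTheory Filter Topology
open scoped NNReal

namespace H19PF

lemma tail_le (u : ℕ → ℝ) (h0 : u 0 = 1) (hf : ∀ n, 0 ≤ ren u n) (hu : ∀ n, 0 ≤ u n)
    (c : ℝ) (hc : 0 < c) (T : ℕ) (hT : ∀ n, T ≤ n → u n = c) (N : ℕ) :
    ∑ k ∈ Finset.range (N + 1), ren u k ≤ 1 := by
  have h1 := ren_eq u h0 (N + T + 1) (by omega)
  rw [hT (N + T + 1) (by omega)] at h1
  have h2 : ∑ k ∈ Finset.range (N + 1), ren u k * u (N + T + 1 - k) ≤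
      ∑ k ∈ Finset.range (N + T + 1 + 1), ren u k * u (N + T + 1 - k) := by
    apply Finset.sum_le_sum_of_subset_of_nonneg
    · intro k hk
      simp only [Finset.mem_range] at hk ⊢
      omega
    · intro k _ _
      exact mul_nonneg (hf k) (hu _)
  have h3 : ∑ k ∈ Finset.range (N + 1), ren u k * u (N + T + 1 - k) =
      (∑ k ∈ Finset.range (N + 1), ren u k) * c := by
    rw [Finset.sum_mul]
    apply Finset.sum_congr rfl
    intro k hk
    have := Finset.mem_range.1 hk
    rw [hT _ (by omega)]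
  rw [h3, ← h1] at h2
  by_contra hcon
  push Not at hcon
  nlinarith

lemma floor_tendsto (a : ℝ) (ha : 0 ≤ a) :
    Tendsto (fun M : ℕ => ((⌊a * (2 * M)⌋₊ : ℕ) : ℝ) / (2 * M)) atTop (𝓝 a) := by
  have h1 := tendsto_nat_floor_mul_div_atTop (R := ℝ) ha
  have h2 : Tendsto (fun M : ℕ => (2 : ℝ) * M) atTop atTop :=
    Tendsto.const_mul_atTop (by norm_num) tendsto_natCast_atTop_atTop
  exact h1.comp h2

lemma gp_tendsto (p : ℝ → ℝ) (hcont : Continuous p) (n : ℕ) : ∀ (t : Fin n → ℝ≥0) (s : ℝ≥0),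
    Monotone t → (∀ i, s ≤ t i) →
    Tendsto (fun M : ℕ => gp (fun j : ℕ => p (j / (2 * M))) n
      (fun i => ⌊(t i : ℝ) * (2 * M)⌋₊) ⌊(s : ℝ) * (2 * M)⌋₊) atTop
      (𝓝 (gp (fun t : ℝ≥0 => p t) n t s)) := by
  induction n with
  | zero =>
    intro t s _ _
    simp only [gp]
    exact tendsto_const_nhds
  | succ n ih =>
    intro t s ht hs
    simp only [gp]
    apply Tendsto.mul
    · have h1 := (floor_tendsto (t 0) (t 0).2).sub (floor_tendsto s s.2)
      have h2 : (((t 0 - s : ℝ≥0)) : ℝ) = (t 0 : ℝ) - s := NNReal.coe_sub (hs 0)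
      rw [h2]
      apply (hcont.tendsto _).comp
      refine h1.congr ?_
      intro M
      have hle : ⌊(s : ℝ) * (2 * M)⌋₊ ≤ ⌊(t 0 : ℝ) * (2 * M)⌋₊ := by
        apply Nat.floor_le_floor
        apply mul_le_mul_of_nonneg_right
        · exact_mod_cast hs 0
        · positivity
      rw [Nat.cast_sub hle]
      ring
    · exact ih (fun i => t i.succ) (t 0) (fun i j hij => ht (Fin.succ_le_succ_iff.2 hij))
        (fun i => ht (Fin.zero_le _))

lemma gp_shift (p : ℝ≥0 → ℝ) (a : ℝ≥0) (n : ℕ) : ∀ (t : Fin n → ℝ≥0) (s : ℝ≥0),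
    Monotone t → (∀ i, s ≤ t i) → a ≤ s →
    gp p n (fun i => t i - a) (s - a) = gp p n t s := by
  induction n with
  | zero => intro t s _ _ _; simp only [gp]
  | succ n ih =>
    intro t s ht hs ha
    simp only [gp]
    rw [tsub_tsub_tsub_cancel_right ha]
    rw [ih (fun i => t i.succ) (t 0) (fun i j hij => ht (Fin.succ_le_succ_iff.2 hij))
        (fun i => ht (Fin.zero_le _)) (ha.trans (hs 0))]

/-- the indicator of `⋂ i, {x | x (t i)}` as a continuous function -/
noncomputable def WW {n : ℕ} (t : Fin n → ℝ≥0) : C((ℝ≥0 → Bool), ℝ) where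
  toFun := fun x => ∏ i, (if x (t i) = true then (1:ℝ) else 0)
  continuous_toFun := by
    apply continuous_finsetProd
    intro i _
    exact (continuous_of_discreteTopology (f := fun b : Bool => if b = true then (1:ℝ) else 0)).comp
      (continuous_apply (t i))

lemma WW_ind {n : ℕ} (t : Fin n → ℝ≥0) (x : ℝ≥0 → Bool) :
    WW t x = (⋂ i, {x : ℝ≥0 → Bool | x (t i) = true}).indicator 1 x := by
  by_cases h : ∀ i, x (t i) = true
  · rw [Set.indicator_of_mem]
    · simp [WW, h]
    · rw [Set.mem_iInter]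
      exact h
  · rw [Set.indicator_of_notMem]
    · push Not at h
      obtain ⟨i, hi⟩ := h
      simp only [WW, ContinuousMap.coe_mk]
      apply Finset.prod_eq_zero (Finset.mem_univ i)
      simp [hi]
    · rw [Set.mem_iInter]
      exact h

noncomputable def Lam (p : ℝ → ℝ) (M : ℕ) (g : C((ℝ≥0 → Bool), ℝ)) : ℝ :=
  EE (ren (fun j : ℕ => p (j / (2 * M)))) (2 * M * M)
    (fun x => g (fun t : ℝ≥0 => x ⌊(t : ℝ) * (2 * M)⌋₊))

theorem criterion (p : ℝ → ℝ) (hcont : Continuous p) (h0 : p 0 = 1)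
    (h01 : ∀ t, 0 ≤ t → 0 ≤ p t ∧ p t ≤ 1) (c T : ℝ) (hc : 0 < c) (hT : ∀ t, T ≤ t → p t = c)
    (hf : ∀ᶠ M : ℕ in atTop, ∀ n, 0 ≤ ren (fun j : ℕ => p (j / (2 * M))) n) :
    IsStandard (fun t : ℝ≥0 => p t) := by
  -- preliminaries
  have hu0 : ∀ M : ℕ, (fun j : ℕ => p (j / (2 * M))) 0 = 1 := by
    intro M; simp [h0]
  have htail : ∀ᶠ M : ℕ in atTop, (∀ n, 0 ≤ ren (fun j : ℕ => p (j / (2 * M))) n) ∧
      ∀ N, ∑ k ∈ Finset.range (N + 1), ren (fun j : ℕ => p (j / (2 * M))) k ≤ 1 := by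
    filter_upwards [hf, eventually_ge_atTop 1] with M hM hM1
    refine ⟨hM, fun N => ?_⟩
    have hMpos : (0:ℝ) < 2 * M := by
      have : (1:ℝ) ≤ M := by exact_mod_cast hM1
      linarith
    refine tail_le _ (hu0 M) hM (fun n => (h01 _ (by positivity)).1) c hc ⌈T * (2 * M)⌉₊ ?_ N
    intro n hn
    apply hT
    rw [le_div_iff₀ hMpos]
    exact (Nat.le_ceil _).trans (by exact_mod_cast hn)
  -- ultralimit
  let U : Ultrafilter ℕ := hyperfilter ℕ
  have hU : (U : Filter ℕ) ≤ atTop := Nat.hyperfilter_le_atTop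
  have hex : ∀ g : C((ℝ≥0 → Bool), ℝ), ∃ l : ℝ, Tendsto (fun M => Lam p M g) U (𝓝 l) := by
    intro g
    have hb : ∀ᶠ M : ℕ in (U : Filter ℕ), Lam p M g ∈ Set.Icc (-‖g‖) ‖g‖ := by
      filter_upwards [hU htail] with M hM
      obtain ⟨hM1, hM2⟩ := hM
      have hup : Lam p M g ≤ ‖g‖ := by
        have := EE_mono _ hM1 hM2 (2 * M * M)
          (fun x => g (fun t : ℝ≥0 => x ⌊(t : ℝ) * (2 * M)⌋₊)) (fun _ => ‖g‖ * 1)
          (fun x => by
            have := ContinuousMap.norm_coe_le_norm g (fun t : ℝ≥0 => x ⌊(t : ℝ) * (2 * M)⌋₊)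
            rw [Real.norm_eq_abs] at this
            linarith [(abs_le.1 this).2])
        rw [EE_smul, EE_one _ (ren_zero _)] at this
        unfold Lam
        linarith
      have hlo : -‖g‖ ≤ Lam p M g := by
        have := EE_mono _ hM1 hM2 (2 * M * M) (fun _ => (-‖g‖) * 1)
          (fun x => g (fun t : ℝ≥0 => x ⌊(t : ℝ) * (2 * M)⌋₊))
          (fun x => by
            have := ContinuousMap.norm_coe_le_norm g (fun t : ℝ≥0 => x ⌊(t : ℝ) * (2 * M)⌋₊)
            rw [Real.norm_eq_abs] at this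
            linarith [(abs_le.1 this).1])
        rw [EE_smul, EE_one _ (ren_zero _)] at this
        unfold Lam
        linarith
      exact ⟨hlo, hup⟩
    obtain ⟨l, _, hl⟩ := (isCompact_Icc (a := -‖g‖) (b := ‖g‖)).ultrafilter_le_nhds
      (U.map (fun M => Lam p M g)) (by
        rw [le_principal_iff]
        exact hb)
    exact ⟨l, hl⟩
  choose L hL using hex
  have hadd : ∀ f g, L (f + g) = L f + L g := by
    intro f g
    refine tendsto_nhds_unique (hL (f + g)) ?_
    refine ((hL f).add (hL g)).congr ?_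
    intro M
    unfold Lam
    rw [← EE_add]
    rfl
  have hsmul : ∀ (c : ℝ) f, L (c • f) = c * L f := by
    intro c f
    refine tendsto_nhds_unique (hL (c • f)) ?_
    refine ((hL f).const_mul c).congr ?_
    intro M
    unfold Lam
    rw [← EE_smul]
    rfl
  have hpos : ∀ f : C((ℝ≥0 → Bool), ℝ), (∀ x, 0 ≤ f x) → 0 ≤ L f := by
    intro f hf0
    refine ge_of_tendsto (hL f) ?_
    filter_upwards [hU htail] with M hM
    exact EE_nonneg _ hM.1 hM.2 _ _ (fun x => hf0 _)
  have h1 : L 1 = 1 := by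
    refine tendsto_nhds_unique (hL 1) ?_
    refine tendsto_const_nhds.congr ?_
    intro M
    unfold Lam
    exact (EE_one _ (ren_zero _) _).symm
  obtain ⟨mΩ, P, hP, hmeas⟩ := exists_measure L hadd hsmul hpos h1
  -- the joint probabilities
  have hcl : ∀ {n : ℕ} (t : Fin n → ℝ≥0), IsClopen (⋂ i, {x : ℝ≥0 → Bool | x (t i) = true}) := by
    intro n t
    apply isClopen_iInter_of_finite
    intro i
    have : {x : ℝ≥0 → Bool | x (t i) = true} = (fun x : ℝ≥0 → Bool => x (t i)) ⁻¹' {true} := by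
      ext x; simp
    rw [this]
    exact (isClopen_discrete _).preimage (continuous_apply (t i))
  have hjoint : ∀ (n : ℕ) (t : Fin n → ℝ≥0), Monotone t →
      P.real (⋂ i, {x : ℝ≥0 → Bool | x (t i) = true}) = gp (fun t : ℝ≥0 => p t) n t 0 := by
    intro n t ht
    rw [(hmeas _ (WW t) (hcl t) ?_).2]
    · refine tendsto_nhds_unique (hL (WW t)) ?_
      refine ((gp_tendsto p hcont n t 0 ht (fun i => (t i).2)).mono_left hU).congr' ?_
      have hbig : ∀ᶠ M : ℕ in (U : Filter ℕ), ∀ i, (t i : ℝ) ≤ M := by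
        rw [eventually_all]
        intro i
        exact hU ((tendsto_natCast_atTop_atTop (R := ℝ)).eventually_ge_atTop (t i : ℝ))
      filter_upwards [hbig] with M hM
      have hz : ⌊((0 : ℝ≥0) : ℝ) * (2 * M)⌋₊ = 0 := by simp
      rw [hz]
      have hmono : Monotone (fun i => ⌊(t i : ℝ) * (2 * M)⌋₊) := by
        intro i j hij
        apply Nat.floor_le_floor
        apply mul_le_mul_of_nonneg_right
        · exact_mod_cast ht hij
        · positivity
      rw [← EE_prod (fun j : ℕ => p (j / (2 * M))) (hu0 M) n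
        (fun i => ⌊(t i : ℝ) * (2 * M)⌋₊) 0 (2 * M * M) hmono (fun i => Nat.zero_le _) ?_]
      · rfl
      · intro i
        have : ⌊(t i : ℝ) * (2 * M)⌋₊ ≤ ⌊(M : ℝ) * (2 * M)⌋₊ := by
          apply Nat.floor_le_floor
          apply mul_le_mul_of_nonneg_right (hM i)
          positivity
        have h2 : ⌊(M : ℝ) * (2 * M)⌋₊ = 2 * M * M := by
          have : (M : ℝ) * (2 * M) = ((2 * M * M : ℕ) : ℝ) := by push_cast; ring
          rw [this, Nat.floor_natCast]
        omega
    · intro x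
      exact WW_ind t x
  refine ⟨⟨fun t => h01 _ t.2, by simpa using h0, ℝ≥0 → Bool, mΩ, P,
    fun t => {x | x t = true}, hP, ?_, ?_⟩, ?_⟩
  · intro t
    have := (hmeas _ (WW (fun _ : Fin 1 => t)) (hcl (fun _ : Fin 1 => t))
      (fun x => WW_ind (fun _ : Fin 1 => t) x)).1
    have h2 : (⋂ i : Fin 1, {x : ℝ≥0 → Bool | x ((fun _ : Fin 1 => t) i) = true}) =
        {x | x t = true} := by
      ext x
      simp
    rw [h2] at this
    exact this
  · intro n t ht
    rw [hjoint (n + 1) t ht, hjoint n (fun i => t i.succ - t 0) ?_]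
    · simp only [gp]
      rw [tsub_zero]
      congr 1
      have := gp_shift (fun t : ℝ≥0 => p t) (t 0) n (fun i => t i.succ) (t 0)
        (fun i j hij => ht (Fin.succ_le_succ_iff.2 hij)) (fun i => ht (Fin.zero_le _)) le_rfl
      rw [tsub_self] at this
      exact this.symm
    · intro i j hij
      exact tsub_le_tsub_right (ht (Fin.succ_le_succ_iff.2 hij)) _
  · have h := (hcont.comp NNReal.continuous_coe).tendsto 0
    simp only [Function.comp_apply, NNReal.coe_zero, h0] at h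
    exact h

end H19PF
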