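import Mathlib
import Pool.Agent.Helpers.H19DavN
import Pool.Agent.Helpers.H19DavM
import Pool.Agent.Helpers.H19PFun2

set_option autoImplicit false
open MeasureTheory Set Filter Topology
open scoped NNReal

namespace H19Dav

lemma floor_tendsto2 (h : ℕ → ℝ) (hh : ∀ M, 0 < h M) (hh0 : Tendsto h atTop (𝓝 0)) (a : ℝ)
    (ha : 0 ≤ a) : Tendsto (fun M : ℕ => ((⌊a / h M⌋₊ : ℕ) : ℝ) * h M) atTop (𝓝 a) := by
  have h1 : Tendsto (fun M => a - h M) atTop (𝓝 a) := by
    simpa using (tendsto_const_nhds (x := a)).sub hh0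
  refine tendsto_of_tendsto_of_tendsto_of_le_of_le h1 tendsto_const_nhds ?_ ?_
  · intro M
    have := Nat.lt_floor_add_one (a / h M)
    rw [div_lt_iff₀ (hh M)] at this
    simp only
    linarith
  · intro M
    have := Nat.floor_le (div_nonneg ha (hh M).le)
    rw [le_div_iff₀ (hh M)] at this
    exact this

lemma gp_tendsto2 (p : ℝ → ℝ) (hcont : Continuous p) (u : ℕ → ℕ → ℝ) (h ε : ℕ → ℝ) (N : ℕ → ℕ)
    (hh : ∀ M, 0 < h M) (hh0 : Tendsto h atTop (𝓝 0)) (hε : Tendsto ε atTop (𝓝 0))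
    (hN : ∀ M : ℕ, (M:ℝ) ≤ N M * h M) (happ : ∀ M, ∀ n ≤ N M, |u M n - p (n * h M)| ≤ ε M)
    (n : ℕ) : ∀ (t : Fin n → ℝ≥0) (s : ℝ≥0),
    Monotone t → (∀ i, s ≤ t i) →
    Tendsto (fun M : ℕ => H19PF.gp (u M) n
      (fun i => ⌊(t i : ℝ) / h M⌋₊) ⌊(s : ℝ) / h M⌋₊) atTop
      (𝓝 (H19PF.gp (fun t : ℝ≥0 => p t) n t s)) := by
  induction n with
  | zero =>
    intro t s _ _
    simp only [H19PF.gp]
    exact tendsto_const_nhds
  | succ n ih =>
    intro t s ht hs
    simp only [H19PF.gp]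
    apply Tendsto.mul
    · have h1 := (floor_tendsto2 h hh hh0 (t 0) (t 0).2).sub (floor_tendsto2 h hh hh0 s s.2)
      have h2 : (((t 0 - s : ℝ≥0)) : ℝ) = (t 0 : ℝ) - s := NNReal.coe_sub (hs 0)
      rw [h2]
      have h3 : Tendsto (fun M => p (((⌊(t 0 : ℝ) / h M⌋₊ - ⌊(s : ℝ) / h M⌋₊ : ℕ):ℝ) * h M)) atTop
          (𝓝 (p ((t 0 : ℝ) - s))) := by
        apply (hcont.tendsto _).comp
        refine h1.congr ?_
        intro M
        have hle : ⌊(s : ℝ) / h M⌋₊ ≤ ⌊(t 0 : ℝ) / h M⌋₊ := by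
          apply Nat.floor_le_floor
          apply div_le_div_of_nonneg_right
          · exact_mod_cast hs 0
          · exact (hh M).le
        rw [Nat.cast_sub hle]
        ring
      have h4 : Tendsto (fun M => u M (⌊(t 0 : ℝ) / h M⌋₊ - ⌊(s : ℝ) / h M⌋₊) -
          p (((⌊(t 0 : ℝ) / h M⌋₊ - ⌊(s : ℝ) / h M⌋₊ : ℕ):ℝ) * h M)) atTop (𝓝 0) := by
        rw [tendsto_zero_iff_abs_tendsto_zero]
        refine squeeze_zero' (Eventually.of_forall fun M => abs_nonneg _) ?_ hε
        filter_upwards [(tendsto_natCast_atTop_atTop (R := ℝ)).eventually_ge_atTop (t 0 : ℝ)] with M hM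
        apply happ
        have h5 : ⌊(t 0 : ℝ) / h M⌋₊ ≤ N M := by
          apply Nat.floor_le_of_le
          rw [div_le_iff₀ (hh M)]
          exact hM.trans (hN M)
        omega
      have h6 := h4.add h3
      simp only [sub_add_cancel, zero_add] at h6
      exact h6
    · exact ih (fun i => t i.succ) (t 0) (fun i j hij => ht (Fin.succ_le_succ_iff.2 hij))
        (fun i => ht (Fin.zero_le _))

noncomputable def Lam2 (u : ℕ → ℕ → ℝ) (h : ℕ → ℝ) (N : ℕ → ℕ) (M : ℕ) (g : C((ℝ≥0 → Bool), ℝ)) : ℝ :=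
  H19PF.EE (H19PF.ren (u M)) (N M) (fun x => g (fun t : ℝ≥0 => x ⌊(t : ℝ) / h M⌋₊))

theorem criterion2 (p : ℝ → ℝ) (hcont : Continuous p) (h0 : p 0 = 1)
    (h01 : ∀ t, 0 ≤ t → 0 ≤ p t ∧ p t ≤ 1) (u : ℕ → ℕ → ℝ) (h ε : ℕ → ℝ) (N : ℕ → ℕ)
    (hh : ∀ M, 0 < h M) (hh0 : Tendsto h atTop (𝓝 0)) (hε : Tendsto ε atTop (𝓝 0))
    (hN : ∀ M : ℕ, (M:ℝ) ≤ N M * h M) (happ : ∀ M, ∀ n ≤ N M, |u M n - p (n * h M)| ≤ ε M)
    (hu0 : ∀ M, u M 0 = 1) (hf : ∀ M n, 0 ≤ H19PF.ren (u M) n)
    (ht : ∀ M N, ∑ k ∈ Finset.range (N + 1), H19PF.ren (u M) k ≤ 1) :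
    H19PF.IsStandard (fun t : ℝ≥0 => p t) := by
  let U : Ultrafilter ℕ := hyperfilter ℕ
  have hU : (U : Filter ℕ) ≤ atTop := Nat.hyperfilter_le_atTop
  have hex : ∀ g : C((ℝ≥0 → Bool), ℝ), ∃ l : ℝ, Tendsto (fun M => Lam2 u h N M g) U (𝓝 l) := by
    intro g
    have hb : ∀ᶠ M : ℕ in (U : Filter ℕ), Lam2 u h N M g ∈ Set.Icc (-‖g‖) ‖g‖ := by
      refine Eventually.of_forall fun M => ?_
      have hM1 := hf M
      have hM2 := ht M
      have hup : Lam2 u h N M g ≤ ‖g‖ := by
        have := H19PF.EE_mono _ hM1 hM2 (N M)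
          (fun x => g (fun t : ℝ≥0 => x ⌊(t : ℝ) / h M⌋₊)) (fun _ => ‖g‖ * 1)
          (fun x => by
            have := ContinuousMap.norm_coe_le_norm g (fun t : ℝ≥0 => x ⌊(t : ℝ) / h M⌋₊)
            rw [Real.norm_eq_abs] at this
            linarith [(abs_le.1 this).2])
        rw [H19PF.EE_smul, H19PF.EE_one _ (H19PF.ren_zero _)] at this
        unfold Lam2
        linarith
      have hlo : -‖g‖ ≤ Lam2 u h N M g := by
        have := H19PF.EE_mono _ hM1 hM2 (N M) (fun _ => (-‖g‖) * 1)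
          (fun x => g (fun t : ℝ≥0 => x ⌊(t : ℝ) / h M⌋₊))
          (fun x => by
            have := ContinuousMap.norm_coe_le_norm g (fun t : ℝ≥0 => x ⌊(t : ℝ) / h M⌋₊)
            rw [Real.norm_eq_abs] at this
            linarith [(abs_le.1 this).1])
        rw [H19PF.EE_smul, H19PF.EE_one _ (H19PF.ren_zero _)] at this
        unfold Lam2
        linarith
      exact ⟨hlo, hup⟩
    obtain ⟨l, _, hl⟩ := (isCompact_Icc (a := -‖g‖) (b := ‖g‖)).ultrafilter_le_nhds
      (U.map (fun M => Lam2 u h N M g)) (by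
        rw [le_principal_iff]
        exact hb)
    exact ⟨l, hl⟩
  choose L hL using hex
  have hadd : ∀ f g, L (f + g) = L f + L g := by
    intro f g
    refine tendsto_nhds_unique (hL (f + g)) ?_
    refine ((hL f).add (hL g)).congr ?_
    intro M
    unfold Lam2
    rw [← H19PF.EE_add]
    rfl
  have hsmul : ∀ (c : ℝ) f, L (c • f) = c * L f := by
    intro c f
    refine tendsto_nhds_unique (hL (c • f)) ?_
    refine ((hL f).const_mul c).congr ?_
    intro M
    unfold Lam2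
    rw [← H19PF.EE_smul]
    rfl
  have hpos : ∀ f : C((ℝ≥0 → Bool), ℝ), (∀ x, 0 ≤ f x) → 0 ≤ L f := by
    intro f hf0
    refine ge_of_tendsto (hL f) ?_
    exact Eventually.of_forall fun M => H19PF.EE_nonneg _ (hf M) (ht M) _ _ (fun x => hf0 _)
  have h1 : L 1 = 1 := by
    refine tendsto_nhds_unique (hL 1) ?_
    refine tendsto_const_nhds.congr ?_
    intro M
    unfold Lam2
    exact (H19PF.EE_one _ (H19PF.ren_zero _) _).symm
  obtain ⟨mΩ, P, hP, hmeas⟩ := H19PF.exists_measure L hadd hsmul hpos h1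
  have hcl : ∀ {n : ℕ} (t : Fin n → ℝ≥0), IsClopen (⋂ i, {x : ℝ≥0 → Bool | x (t i) = true}) := by
    intro n t
    apply isClopen_iInter_of_finite
    intro i
    have : {x : ℝ≥0 → Bool | x (t i) = true} = (fun x : ℝ≥0 → Bool => x (t i)) ⁻¹' {true} := by
      ext x; simp
    rw [this]
    exact (isClopen_discrete _).preimage (continuous_apply (t i))
  have hjoint : ∀ (n : ℕ) (t : Fin n → ℝ≥0), Monotone t →
      P.real (⋂ i, {x : ℝ≥0 → Bool | x (t i) = true}) = H19PF.gp (fun t : ℝ≥0 => p t) n t 0 := by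
    intro n t ht'
    rw [(hmeas _ (H19PF.WW t) (hcl t) ?_).2]
    · refine tendsto_nhds_unique (hL (H19PF.WW t)) ?_
      refine ((gp_tendsto2 p hcont u h ε N hh hh0 hε hN happ n t 0 ht' (fun i => (t i).2)).mono_left hU).congr' ?_
      have hbig : ∀ᶠ M : ℕ in (U : Filter ℕ), ∀ i, (t i : ℝ) ≤ M := by
        rw [eventually_all]
        intro i
        exact hU ((tendsto_natCast_atTop_atTop (R := ℝ)).eventually_ge_atTop (t i : ℝ))
      filter_upwards [hbig] with M hM
      have hz : ⌊((0 : ℝ≥0) : ℝ) / h M⌋₊ = 0 := by simp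
      rw [hz]
      have hmono : Monotone (fun i => ⌊(t i : ℝ) / h M⌋₊) := by
        intro i j hij
        apply Nat.floor_le_floor
        apply div_le_div_of_nonneg_right
        · exact_mod_cast ht' hij
        · exact (hh M).le
      rw [← H19PF.EE_prod (u M) (hu0 M) n
        (fun i => ⌊(t i : ℝ) / h M⌋₊) 0 (N M) hmono (fun i => Nat.zero_le _) ?_]
      · rfl
      · intro i
        have : ⌊(t i : ℝ) / h M⌋₊ ≤ N M := by
          apply Nat.floor_le_of_le
          rw [div_le_iff₀ (hh M)]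
          exact (hM i).trans (hN M)
        omega
    · intro x
      exact H19PF.WW_ind t x
  refine ⟨⟨fun t => h01 _ t.2, by simpa using h0, ℝ≥0 → Bool, mΩ, P,
    fun t => {x | x t = true}, hP, ?_, ?_⟩, ?_⟩
  · intro t
    have := (hmeas _ (H19PF.WW (fun _ : Fin 1 => t)) (hcl (fun _ : Fin 1 => t))
      (fun x => H19PF.WW_ind (fun _ : Fin 1 => t) x)).1
    have h2 : (⋂ i : Fin 1, {x : ℝ≥0 → Bool | x ((fun _ : Fin 1 => t) i) = true}) =
        {x | x t = true} := by
      ext x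
      simp
    rw [h2] at this
    exact this
  · intro n t ht'
    rw [hjoint (n + 1) t ht', hjoint n (fun i => t i.succ - t 0) ?_]
    · simp only [H19PF.gp]
      rw [tsub_zero]
      congr 1
      have := H19PF.gp_shift (fun t : ℝ≥0 => p t) (t 0) n (fun i => t i.succ) (t 0)
        (fun i j hij => ht' (Fin.succ_le_succ_iff.2 hij)) (fun i => ht' (Fin.zero_le _)) le_rfl
      rw [tsub_self] at this
      exact this.symm
    · intro i j hij
      exact tsub_le_tsub_right (ht' (Fin.succ_le_succ_iff.2 hij)) _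
  · have h := (hcont.comp NNReal.continuous_coe).tendsto 0
    simp only [Function.comp_apply, NNReal.coe_zero, h0] at h
    exact h

lemma pfren_eq (F : PS) (hF0 : PowerSeries.coeff 0 F = 0) (n : ℕ) :
    H19PF.ren (fun n => PowerSeries.coeff n (ren F)) n = PowerSeries.coeff n F := by
  induction n using Nat.strong_induction_on with
  | _ n ih =>
    rcases Nat.eq_zero_or_pos n with hn | hn
    · subst hn
      rw [H19PF.ren_zero, hF0]
    · obtain ⟨m, rfl⟩ : ∃ m, n = m + 1 := ⟨n - 1, by omega⟩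
      rw [H19PF.ren_succ]
      have h1 : PowerSeries.coeff (m+1) (ren F) = PowerSeries.coeff (m+1) (1 + F * ren F) := by
        rw [← ren_eq hF0]
      rw [map_add, PowerSeries.coeff_one, if_neg (by omega), zero_add, cmul,
        Finset.sum_range_succ] at h1
      rw [Nat.sub_self, H19Dav.ren_zero hF0, mul_one] at h1
      rw [h1]
      have h2 : ∑ k ∈ Finset.range (m+1), H19PF.ren (fun n => PowerSeries.coeff n (ren F)) k *
          PowerSeries.coeff (m+1-k) (ren F) = ∑ k ∈ Finset.range (m+1), PowerSeries.coeff k F *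
          PowerSeries.coeff (m+1-k) (ren F) := by
        refine Finset.sum_congr rfl fun k hk => ?_
        rw [ih k (Finset.mem_range.1 hk)]
      rw [h2]
      ring

/-- Kingman: the canonical form gives a standard p-function. -/
theorem canon_standard (p : ℝ → ℝ) (hp : Canon p) (hpc : Continuous p) :
    H19PF.IsStandard (fun t : ℝ≥0 => p t) := by
  obtain ⟨hpo, μ, h0, hμ, a, ha, hL⟩ := hp
  set k := Kk μ a with hk
  have hk0 : ∀ x, 0 ≤ k x := Kk_nonneg μ a ha
  have hka := Kk_anti μ hμ a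
  have hki := Kk_intervalIntegrable μ h0 hμ a ha
  have hV := volterra p hpo μ h0 hμ a ha hL
  have hp0 : p 0 = 1 := by
    have := hV 0 le_rfl
    simpa using this
  -- scaled versions
  have key : ∀ M : ℕ, ∃ (N : ℕ) (F : PS), (M+1) * (M+1) ≤ N ∧ SP F ∧ PowerSeries.coeff 0 F = 0 ∧
      ∀ n ≤ N, |PowerSeries.coeff n (ren F) - p ((M+1) * ((n:ℝ)/N))| ≤ 1/((M:ℝ)+1) := by
    intro M
    set c : ℝ := (M:ℝ) + 1 with hc
    have hc0 : 0 < c := by positivity
    have := discretize (fun z => c * k (c * z)) (fun t => p (c * t))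
      (fun x => mul_nonneg hc0.le (hk0 _))
      (by
        intro x hx y hy hxy
        simp only [mem_Ioi] at hx hy
        exact mul_le_mul_of_nonneg_left (hka (by simp only [mem_Ioi]; positivity)
          (by simp only [mem_Ioi]; positivity) (mul_le_mul_of_nonneg_left hxy hc0.le)) hc0.le)
      (by
        intro A B
        have h1 := (hki (c * A) (c * B)).comp_mul_left (c := c)
        rw [mul_div_cancel_left₀ _ hc0.ne', mul_div_cancel_left₀ _ hc0.ne'] at h1
        exact h1.const_mul c)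
      (by fun_prop)
      (by
        intro t ht
        have h1 := hV (c * t) (by positivity)
        have h2 := intervalIntegral.mul_integral_comp_mul_left (a := 0) (b := t)
          (f := fun z => p (c * t - z) * k z) c
        rw [mul_zero, ← intervalIntegral.integral_const_mul] at h2
        rw [← h2] at h1
        have h3 : ∀ z, p (c * (t - z)) * (c * k (c * z)) = c * (p (c * t - c * z) * k (c * z)) := by
          intro z; rw [mul_sub]; ring
        simp only [h3]
        exact h1)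
      (1/c) 1 (by positivity) one_pos
    obtain ⟨N0, hN0⟩ := this
    obtain ⟨F, hF, hF0, _, hFn⟩ := hN0 (max N0 ((M+1)*(M+1))) (le_max_left _ _)
      (lt_of_lt_of_le (by positivity) (le_max_right _ _))
    exact ⟨_, F, le_max_right _ _, hF, hF0, hFn⟩
  choose N F hNM hF hF0 hFn using key
  have hNpos : ∀ M, (0:ℝ) < N M := by
    intro M
    have : 0 < N M := lt_of_lt_of_le (by positivity) (hNM M)
    exact_mod_cast this
  set h : ℕ → ℝ := fun M => ((M:ℝ)+1) / N M with hh
  have hh0 : ∀ M, 0 < h M := fun M => div_pos (by positivity) (hNpos M)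
  have hhle : ∀ M, h M ≤ 1/((M:ℝ)+1) := by
    intro M
    have h1 : ((M:ℝ)+1) * ((M:ℝ)+1) ≤ N M := by exact_mod_cast hNM M
    simp only [hh]
    rw [div_le_div_iff₀ (hNpos M) (by positivity)]
    linarith
  have hT1 : Tendsto (fun M : ℕ => 1/((M:ℝ)+1)) atTop (𝓝 0) := tendsto_one_div_add_atTop_nhds_zero_nat
  have hhT : Tendsto h atTop (𝓝 0) := squeeze_zero (fun M => (hh0 M).le) hhle hT1
  have hNh : ∀ M, (N M : ℝ) * h M = (M:ℝ) + 1 := by
    intro M
    have := (hNpos M).ne'
    simp only [hh]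
    field_simp
  have happ : ∀ M, ∀ n ≤ N M, |PowerSeries.coeff n (ren (F M)) - p (n * h M)| ≤ 1/((M:ℝ)+1) := by
    intro M n hn
    have h1 := hFn M n hn
    have h2 : ((M:ℝ)+1) * ((n:ℝ)/N M) = n * h M := by simp only [hh]; ring
    rw [h2] at h1
    exact h1
  -- values in [0,1]
  have h01 : ∀ t, 0 ≤ t → 0 ≤ p t ∧ p t ≤ 1 := by
    intro t ht
    have h1 := floor_tendsto2 h hh0 hhT t ht
    have h3 : Tendsto (fun M => p (((⌊t / h M⌋₊ : ℕ):ℝ) * h M)) atTop (𝓝 (p t)) :=
      (hpc.tendsto _).comp h1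
    have h4 : Tendsto (fun M => PowerSeries.coeff ⌊t / h M⌋₊ (ren (F M)) -
          p (((⌊t / h M⌋₊ : ℕ):ℝ) * h M)) atTop (𝓝 0) := by
      rw [tendsto_zero_iff_abs_tendsto_zero]
      refine squeeze_zero' (Eventually.of_forall fun M => abs_nonneg _) ?_ hT1
      filter_upwards [(tendsto_natCast_atTop_atTop (R := ℝ)).eventually_ge_atTop t] with M hM
      apply happ
      apply Nat.floor_le_of_le
      rw [div_le_iff₀ (hh0 M), hNh]
      linarith
    have h6 := h4.add h3
    simp only [sub_add_cancel, zero_add] at h6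
    constructor
    · exact ge_of_tendsto' h6 (fun M => NN_ren (hF M).1 (hF0 M) _)
    · exact le_of_tendsto' h6 (fun M => ren_le_one (hF M) (hF0 M) _)
  refine criterion2 p hpc hp0 h01 (fun M n => PowerSeries.coeff n (ren (F M))) h
    (fun M => 1/((M:ℝ)+1)) N hh0 hhT hT1 (fun M => by rw [hNh]; linarith) happ
    (fun M => H19Dav.ren_zero (hF0 M)) ?_ ?_
  · intro M n
    rw [pfren_eq (F M) (hF0 M)]
    exact (hF M).1 n
  · intro M n
    have h1 := (hF M).2 n
    rw [cS] at h1
    refine le_trans (le_of_eq ?_) h1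
    exact Finset.sum_congr rfl fun k _ => pfren_eq (F M) (hF0 M) k

end H19Dav
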