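import Mathlib
import Pool.Agent.Helpers.H19DavO
import Pool.Agent.Helpers.H19DavDefs

set_option autoImplicit false
open MeasureTheory Set Filter Topology
open scoped NNReal

namespace H19Dav

theorem std_upper (M δ : ℝ) (hM0 : 0 < M) (hM : M ≤ Real.exp (-1)) (hδ : 0 < δ) :
    ∃ p : ℝ≥0 → ℝ, H19PF.IsStandard p ∧ p 1 = M ∧ p (1/2) < δ := by
  -- choose b
  have hT : Tendsto (fun b : ℝ => Real.exp (-(b/2))) atTop (𝓝 0) := by
    have : Tendsto (fun b : ℝ => b/2) atTop atTop := tendsto_id.atTop_div_const (by norm_num)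
    exact Real.tendsto_exp_neg_atTop_nhds_zero.comp this
  have hev := (hT.eventually (gt_mem_nhds (lt_min hM0 hδ))).and (eventually_gt_atTop (2:ℝ))
  obtain ⟨b, hb1, hb2⟩ := hev.exists
  have hb : 0 < b := by linarith
  have hbM : Real.exp (-(b/2)) < M := hb1.trans_le (min_le_left _ _)
  have hbδ : Real.exp (-(b/2)) < δ := hb1.trans_le (min_le_right _ _)
  have hbM' : Real.exp (-b) < M := lt_of_le_of_lt (Real.exp_le_exp.2 (by linarith)) hbM
  have hc : ContinuousOn (fun y : ℝ => Real.exp (-b) + y * Real.exp (-y)) (Icc 0 1) := by fun_prop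
  have hivt := intermediate_value_Icc (zero_le_one (α := ℝ)) hc
  obtain ⟨y, hy, hyM⟩ := hivt (show M ∈ Icc _ _ from ⟨by simpa using hbM'.le, by
    simp only [one_mul]
    have := Real.exp_pos (-b)
    linarith⟩)
  simp only at hyM
  set ℓ := 1 - y / b with hℓ
  have hyb : y / b < 1/2 := by
    rw [div_lt_iff₀ hb]
    linarith [hy.2]
  have hyb0 : 0 ≤ y / b := div_nonneg hy.1 hb.le
  have hℓ1 : 1/2 < ℓ := by rw [hℓ]; linarith
  have hℓ2 : ℓ ≤ 1 := by rw [hℓ]; linarith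
  have hℓ0 : 0 < ℓ := by linarith
  refine ⟨fun t : ℝ≥0 => pex b ℓ t, canon_standard _ (pex_canon b ℓ hb hℓ0) (pex_cont b ℓ hℓ0), ?_, ?_⟩
  · show pex b ℓ ((1:ℝ≥0):ℝ) = M
    rw [NNReal.coe_one, pex_eq b ℓ hℓ0 2 (by norm_num) 1 (by push_cast; linarith)]
    rw [Finset.sum_range_succ, Finset.sum_range_one]
    unfold gk
    simp only [Nat.cast_zero, zero_mul, sub_zero, pow_zero, mul_one, Nat.factorial_zero, Nat.cast_one,
      div_one, one_mul, pow_one, Nat.factorial_one]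
    rw [max_eq_left (by norm_num : (0:ℝ) ≤ 1), max_eq_left (by linarith : 0 ≤ 1 - ℓ)]
    have : b * (1 - ℓ) = y := by rw [hℓ]; field_simp; ring
    rw [this, mul_one, mul_comm (Real.exp (-y)) y]
    exact hyM
  · show pex b ℓ ((1/2:ℝ≥0):ℝ) < δ
    rw [NNReal.coe_div, NNReal.coe_one, NNReal.coe_ofNat]
    rw [pex_eq b ℓ hℓ0 1 (by norm_num) (1/2) (by push_cast; linarith)]
    rw [Finset.sum_range_one]
    unfold gk
    simp only [Nat.cast_zero, zero_mul, sub_zero, pow_zero, mul_one, Nat.factorial_zero, Nat.cast_one,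
      div_one]
    rw [max_eq_left (by norm_num : (0:ℝ) ≤ 1/2)]
    have : b * (1/2) = b/2 := by ring
    rw [this]
    exact hbδ

/-- the extremal family: `p 1 = exp (m - 1)` and `p` takes the value `m` in `[0,1]`. -/
theorem std_family (m : ℝ) (hm0 : 0 < m) (hm1 : m < 1) :
    ∃ p : ℝ≥0 → ℝ, H19PF.IsStandard p ∧ p 1 = Real.exp (m - 1) ∧ ∃ t : ℝ≥0, t ≤ 1 ∧ p t = m := by
  have hlog : Real.log m < 0 := Real.log_neg hm0 hm1
  have hlog2 : Real.log m ≤ m - 1 := Real.log_le_sub_one_of_pos hm0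
  set b := 1 - m - Real.log m with hb
  have hb0 : 0 < b := by rw [hb]; linarith
  set ℓ := -Real.log m / b with hℓ
  have hℓ0 : 0 < ℓ := div_pos (by linarith) hb0
  have hbℓ : b * ℓ = -Real.log m := by rw [hℓ]; field_simp
  have hℓ1 : ℓ ≤ 1 := by rw [hℓ, div_le_one hb0]; linarith
  have hℓ2 : 1/2 ≤ ℓ := by rw [hℓ, le_div_iff₀ hb0]; linarith
  refine ⟨fun t : ℝ≥0 => pex b ℓ t, canon_standard _ (pex_canon b ℓ hb0 hℓ0) (pex_cont b ℓ hℓ0), ?_,
    ⟨ℓ, hℓ0.le⟩, by exact_mod_cast hℓ1, ?_⟩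
  · show pex b ℓ ((1:ℝ≥0):ℝ) = _
    rw [NNReal.coe_one, pex_eq b ℓ hℓ0 2 (by norm_num) 1 (by push_cast; linarith)]
    rw [Finset.sum_range_succ, Finset.sum_range_one]
    unfold gk
    simp only [Nat.cast_zero, zero_mul, sub_zero, pow_zero, mul_one, Nat.factorial_zero, Nat.cast_one,
      div_one, one_mul, pow_one, Nat.factorial_one]
    rw [max_eq_left (by norm_num : (0:ℝ) ≤ 1), max_eq_left (by linarith : 0 ≤ 1 - ℓ)]
    have h1 : b * (1 - ℓ) = 1 - m := by rw [mul_sub, hbℓ, hb]; ring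
    rw [h1, mul_one]
    have h2 : Real.exp (-b) = m * Real.exp (-(1-m)) := by
      have : -b = Real.log m + -(1-m) := by rw [hb]; ring
      rw [this, Real.exp_add, Real.exp_log hm0]
    rw [h2]
    have h3 : -(1-m) = m - 1 := by ring
    rw [h3]
    ring
  · show pex b ℓ ℓ = m
    rw [pex_eq b ℓ hℓ0 1 (by norm_num) ℓ (by push_cast; linarith)]
    rw [Finset.sum_range_one]
    unfold gk
    simp only [Nat.cast_zero, zero_mul, sub_zero, pow_zero, mul_one, Nat.factorial_zero, Nat.cast_one,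
      div_one]
    rw [max_eq_left hℓ0.le, hbℓ, neg_neg, Real.exp_log hm0]

lemma std_one : H19PF.IsStandard (fun _ : ℝ≥0 => (1:ℝ)) := by
  refine ⟨⟨fun t => ⟨zero_le_one, le_rfl⟩, rfl, Unit, ⊤, Measure.dirac (), fun _ => univ, ?_, ?_, ?_⟩,
    tendsto_const_nhds⟩
  · infer_instance
  · intro t; exact MeasurableSet.univ
  · intro n t _
    simp

lemma img_bdd {p : ℝ≥0 → ℝ} (hp : H19PF.IsStandard p) : BddBelow (p '' Set.Icc 0 1) :=
  ⟨0, by rintro _ ⟨t, _, rfl⟩; exact (hp.1.1 t).1⟩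

lemma img_ne {p : ℝ≥0 → ℝ} : (p '' Set.Icc 0 1).Nonempty := ⟨p 0, 0, ⟨le_rfl, zero_le_one⟩, rfl⟩

lemma mins_nonneg {M m : ℝ} (h : m ∈ mins M) : 0 ≤ m := by
  obtain ⟨p, hp, _, rfl⟩ := h
  exact le_csInf img_ne (by rintro _ ⟨t, _, rfl⟩; exact (hp.1.1 t).1)

lemma mins_bdd (M : ℝ) : BddBelow (mins M) := ⟨0, fun _ h => mins_nonneg h⟩

theorem IM_zero (M : ℝ) (h0 : 0 < M) (hM : M ≤ Real.exp (-1)) : (mins M).Nonempty ∧ IM M = 0 := by
  constructor
  · obtain ⟨p, hp, hp1, _⟩ := std_upper M 1 h0 hM one_pos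
    exact ⟨_, p, hp, hp1, rfl⟩
  · apply le_antisymm
    · refine le_of_forall_pos_le_add fun δ hδ => ?_
      obtain ⟨p, hp, hp1, hp2⟩ := std_upper M δ h0 hM hδ
      have h1 : IM M ≤ sInf (p '' Set.Icc 0 1) := csInf_le (mins_bdd M) ⟨p, hp, hp1, rfl⟩
      have h2 : sInf (p '' Set.Icc 0 1) ≤ p (1/2) := csInf_le (img_bdd hp)
        ⟨1/2, ⟨zero_le, by rw [← NNReal.coe_le_coe]; norm_num⟩, rfl⟩
      linarith
    · obtain ⟨p, hp, hp1, _⟩ := std_upper M 1 h0 hM one_pos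
      exact le_csInf ⟨_, p, hp, hp1, rfl⟩ (fun _ h => mins_nonneg h)

theorem IM_le (M : ℝ) (hM : Real.exp (-1) < M) (hM1 : M ≤ 1) :
    (mins M).Nonempty ∧ IM M ≤ 1 + Real.log M := by
  have hM0 : 0 < M := (Real.exp_pos _).trans hM
  rcases hM1.eq_or_lt with h | h
  · subst h
    have h1 : (1:ℝ) ∈ mins 1 := by
      refine ⟨_, std_one, rfl, ?_⟩
      rw [(show (fun _ : ℝ≥0 => (1:ℝ)) '' Set.Icc 0 1 = {1} from by
        ext x
        constructor
        · rintro ⟨t, _, rfl⟩; rfl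
        · rintro rfl; exact ⟨0, ⟨le_rfl, zero_le_one⟩, rfl⟩)]
      exact (csInf_singleton 1).symm
    refine ⟨⟨1, h1⟩, ?_⟩
    rw [Real.log_one, add_zero]
    exact csInf_le (mins_bdd 1) h1
  · have hl : -1 < Real.log M := by
      rw [Real.lt_log_iff_exp_lt hM0]; exact hM
    have hl2 : Real.log M < 0 := Real.log_neg hM0 h
    obtain ⟨p, hp, hp1, t, ht, hpt⟩ := std_family (1 + Real.log M) (by linarith) (by linarith)
    rw [add_sub_cancel_left, Real.exp_log hM0] at hp1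
    refine ⟨⟨_, p, hp, hp1, rfl⟩, ?_⟩
    have h1 : IM M ≤ sInf (p '' Set.Icc 0 1) := csInf_le (mins_bdd M) ⟨p, hp, hp1, rfl⟩
    have h2 : sInf (p '' Set.Icc 0 1) ≤ p t := csInf_le (img_bdd hp) ⟨t, ⟨zero_le, ht⟩, rfl⟩
    linarith

theorem IM_pos (M : ℝ) (hM : Real.exp (-1) < M) (hM1 : M ≤ 1) : 0 < IM M := by
  obtain ⟨δ, hδ, h⟩ := std_lower M hM
  refine lt_of_lt_of_le hδ (le_csInf (IM_le M hM hM1).1 ?_)
  rintro _ ⟨p, hp, hp1, rfl⟩
  refine le_csInf img_ne ?_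
  rintro _ ⟨t, ht, rfl⟩
  exact h p hp hp1 t ht.2

theorem crit : sInf {M : ℝ | 0 < M ∧ M ≤ 1 ∧ 0 < IM M} = Real.exp (-1) := by
  have he1 : Real.exp (-1) < 1 := by
    have : Real.exp (-1) < Real.exp 0 := Real.exp_lt_exp.2 (by norm_num)
    rwa [Real.exp_zero] at this
  have hlb : ∀ M ∈ {M : ℝ | 0 < M ∧ M ≤ 1 ∧ 0 < IM M}, Real.exp (-1) ≤ M := by
    rintro M ⟨h1, _, h3⟩
    by_contra hc
    rw [not_le] at hc
    rw [(IM_zero M h1 hc.le).2] at h3
    exact lt_irrefl _ h3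
  apply le_antisymm
  · refine le_of_forall_gt_imp_ge_of_dense fun M hM => ?_
    have hmem : min M 1 ∈ {M : ℝ | 0 < M ∧ M ≤ 1 ∧ 0 < IM M} := by
      have h1 : Real.exp (-1) < min M 1 := lt_min hM he1
      exact ⟨(Real.exp_pos _).trans h1, min_le_right _ _, IM_pos _ h1 (min_le_right _ _)⟩
    exact (csInf_le ⟨_, hlb⟩ hmem).trans (min_le_left _ _)
  · exact le_csInf ⟨1, one_pos, le_rfl, IM_pos 1 he1 le_rfl⟩ hlb

end H19Dav
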