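import Mathlib
import Pool.Agent.Helpers.H19DavB

/-! Entropy and shift inequalities for discrete renewal sequences. -/

open PowerSeries Finset

namespace H19Dav

variable {F : PS} (hF : SP F) (hF0 : coeff 0 F = 0)

include hF0 in
/-- recursion for the renewal sequence -/
lemma ren_rec (n : ℕ) : coeff (n+1) (ren F) =
    ∑ j ∈ range (n+1), coeff (j+1) F * coeff (n - j) (ren F) := by
  conv_lhs => rw [ren_eq hF0]
  rw [map_add, coeff_one, if_neg (by omega), zero_add, cmul, sum_range_succ', hF0, zero_mul, add_zero]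
  apply sum_congr rfl
  intro j _
  rw [show n + 1 - (j+1) = n - j by omega]

include hF hF0 in
lemma ren_step (n : ℕ) : coeff 1 F * coeff n (ren F) ≤ coeff (n+1) (ren F) := by
  rw [ren_rec hF0]
  have := single_le_sum (s := range (n+1)) (f := fun j => coeff (j+1) F * coeff (n - j) (ren F))
    (fun j _ => mul_nonneg (hF.1 _) (NN_ren hF.1 hF0 _)) (mem_range.2 (Nat.succ_pos n))
  simpa using this

include hF hF0 in
lemma ren_pos (h1 : 0 < coeff 1 F) (n : ℕ) : 0 < coeff n (ren F) := by
  induction n with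
  | zero => rw [ren_zero hF0]; exact one_pos
  | succ n ih => exact (mul_pos h1 ih).trans_le (ren_step hF hF0 n)

/-- sum of the first coefficients -/
lemma sum_F (hF0 : coeff 0 F = 0) (n : ℕ) : ∑ j ∈ range n, coeff (j+1) F = 1 - coeff n (T F) := by
  rw [coeff_T, cS, sum_range_succ', hF0]
  ring

lemma T_one (hF0 : coeff 0 F = 0) : coeff 1 (T F) = 1 - coeff 1 F := by
  have := sum_F hF0 1
  simp at this
  linarith

include hF hF0 in
/-- the entropy inequality at one time -/
lemma ent_one (h1 : 0 < coeff 1 F) (n : ℕ) :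
    coeff (n+1) (ren F) * coeff (n+1) (T F) ≤
      -(coeff (n+1) (ren F) * Real.log (coeff (n+1) (ren F))) +
      ∑ j ∈ range (n+1), coeff (j+1) F * (coeff (n-j) (ren F) * Real.log (coeff (n-j) (ren F))) := by
  have hpos := ren_pos hF hF0 h1
  set U := coeff (n+1) (ren F) with hU
  set r := coeff (n+1) (T F) with hr
  have hU0 : 0 < U := hpos _
  have key : ∀ x : ℝ, 0 < x → x * (Real.log U + r) + x - U * Real.exp r ≤ x * Real.log x := by
    intro x hx
    have h := Real.log_le_sub_one_of_pos (show 0 < U * Real.exp r / x by positivity)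
    rw [Real.log_div (by positivity) hx.ne', Real.log_mul hU0.ne' (Real.exp_pos r).ne',
      Real.log_exp] at h
    have h2 := mul_le_mul_of_nonneg_left h hx.le
    have h3 : x * (U * Real.exp r / x - 1) = U * Real.exp r - x := by field_simp
    rw [h3] at h2
    linarith
  have hsum : ∑ j ∈ range (n+1), coeff (j+1) F * (coeff (n-j) (ren F) * (Real.log U + r) +
      coeff (n-j) (ren F) - U * Real.exp r) ≤
      ∑ j ∈ range (n+1), coeff (j+1) F * (coeff (n-j) (ren F) * Real.log (coeff (n-j) (ren F))) := by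
    apply sum_le_sum
    intro j _
    exact mul_le_mul_of_nonneg_left (key _ (hpos _)) (hF.1 _)
  have e1 : ∑ j ∈ range (n+1), coeff (j+1) F * (coeff (n-j) (ren F) * (Real.log U + r) +
      coeff (n-j) (ren F) - U * Real.exp r) =
      (∑ j ∈ range (n+1), coeff (j+1) F * coeff (n-j) (ren F)) * (Real.log U + r + 1) -
      (∑ j ∈ range (n+1), coeff (j+1) F) * (U * Real.exp r) := by
    rw [sum_mul, sum_mul, ← sum_sub_distrib]
    apply sum_congr rfl
    intro j _
    ring
  rw [e1, ← ren_rec hF0, sum_F hF0, ← hU, ← hr] at hsum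
  have h4 : (1 - r) * Real.exp r ≤ 1 := by
    have := Real.add_one_le_exp (-r)
    have h5 : Real.exp (-r) * Real.exp r = 1 := by rw [← Real.exp_add]; simp
    have h6 := mul_le_mul_of_nonneg_right this (Real.exp_pos r).le
    linarith
  have h7 := mul_le_mul_of_nonneg_left h4 hU0.le
  nlinarith

include hF hF0 in
/-- the entropy inequality -/
lemma ent (h1 : 0 < coeff 1 F) (n : ℕ) :
    ∑ z ∈ range n, coeff z (ren F) * (coeff (n-z) (ren F) * coeff (n-z) (T F)) ≤
      -(coeff n (ren F) * Real.log (coeff n (ren F))) := by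
  set G : PS := PowerSeries.mk fun k => coeff k (ren F) * Real.log (coeff k (ren F)) with hG
  have hGc : ∀ k, coeff k G = coeff k (ren F) * Real.log (coeff k (ren F)) := fun k => by
    rw [hG, coeff_mk]
  have hH0 : coeff 0 ((1 - F) * G) = 0 := by
    rw [cmul]
    simp [hGc, ren_zero hF0]
  have hH : ∀ k, coeff (k+1) ((1 - F) * G) ≤ -(coeff (k+1) (ren F) * coeff (k+1) (T F)) := by
    intro k
    have h := ent_one hF hF0 h1 k
    have e : coeff (k+1) ((1 - F) * G) = coeff (k+1) G - ∑ j ∈ range (k+1), coeff (j+1) F *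
        coeff (k-j) G := by
      rw [sub_mul, one_mul, map_sub, cmul, sum_range_succ', hF0, zero_mul, add_zero]
      congr 1
      apply sum_congr rfl
      intro j _
      rw [show k + 1 - (j+1) = k - j by omega]
    rw [e]
    simp only [hGc]
    linarith
  have e2 : G = ren F * ((1 - F) * G) := by
    rw [← mul_assoc, ren_mul hF0, one_mul]
  have e3 : coeff n G = ∑ z ∈ range n, coeff z (ren F) * coeff (n - z) ((1 - F) * G) := by
    conv_lhs => rw [e2]
    rw [cmul, sum_range_succ, Nat.sub_self, hH0, mul_zero, add_zero]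
  rw [← hGc, e3, ← sum_neg_distrib]
  apply sum_le_sum
  intro z hz
  have hz' := mem_range.1 hz
  obtain ⟨k, hk⟩ : ∃ k, n - z = k + 1 := ⟨n - z - 1, by omega⟩
  rw [hk, ← mul_neg]
  exact mul_le_mul_of_nonneg_left (by linarith [hH k]) (NN_ren hF.1 hF0 z)

/-! ### the truncated autocorrelation -/

/-- truncated autocorrelation -/
noncomputable def Bs (F : PS) (α : ℕ) : PS := (ren F - Tr F α) * ren F

lemma coeff_sTr (α z : ℕ) : coeff z (ren F - Tr F α) = if α ≤ z then coeff z (ren F) else 0 := by
  rw [map_sub, coeff_Tr]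
  by_cases h : α ≤ z
  · rw [if_neg (by omega), if_pos h, sub_zero]
  · rw [if_pos (by omega), if_neg h, sub_self]

lemma coeff_Bs (α x : ℕ) : coeff x (Bs F α) =
    ∑ z ∈ range (x+1), (if α ≤ z then coeff z (ren F) * coeff (x - z) (ren F) else 0) := by
  unfold Bs
  rw [cmul]
  apply sum_congr rfl
  intro z _
  rw [coeff_sTr]
  split_ifs
  · rfl
  · rw [zero_mul]

/-- the shifted renewal sequence -/
noncomputable def Sh (F : PS) (d : ℕ) : PS := PowerSeries.mk fun n => coeff (d+n) (ren F)

/-- the overshoot law -/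
noncomputable def Qd (F : PS) (d : ℕ) : PS := PowerSeries.mk fun n => coeff (d+n) (Bx F d)

include hF hF0 in
lemma Sh_eq (d : ℕ) : Sh F d = Qd F d * ren F := by
  ext n
  have h1 : Bx F d * ren F = ren F - Tr F d := by
    unfold Bx
    have := ren_mul hF0
    calc (1 - (1 - F) * Tr F d) * ren F = ren F - (ren F * (1 - F)) * Tr F d := by ring
      _ = _ := by rw [this, one_mul]
  have h2 : coeff (d+n) (ren F) = coeff (d+n) (Bx F d * ren F) := by
    rw [h1, coeff_sTr, if_pos (by omega)]
  unfold Sh Qd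
  rw [coeff_mk, h2, cmul, cmul, show d + n + 1 = d + (n+1) by ring, sum_range_add]
  rw [sum_eq_zero (s := range d), zero_add]
  · apply sum_congr rfl
    intro j _
    rw [coeff_mk, show d + n - (d + j) = n - j by omega]
  · intro j hj
    rw [coeff_Bx_lt hF hF0 d j (mem_range.1 hj), zero_mul]

include hF hF0 in
lemma Qd_SP (d : ℕ) : SP (Qd F d) := by
  refine ⟨fun n => ?_, fun n => ?_⟩
  · unfold Qd
    rw [coeff_mk]
    exact NN_Bx hF hF0 d _
  · have h1 : coeff (d+n) (Bx F d * S) = 1 - coeff (d+n) (Tr F d * T F) := by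
      have : T (Bx F d) = Tr F d * T F := by unfold T Bx; ring
      have h := coeff_T (Bx F d) (d+n)
      rw [this] at h
      linarith
    have h2 : 0 ≤ coeff (d+n) (Tr F d * T F) := ((NN_Tr hF.1 hF0 d).mul (NN_T hF)) _
    have h3 : coeff n (Qd F d * S) ≤ coeff (d+n) (Bx F d * S) := by
      rw [cS, cS, show d + n + 1 = d + (n+1) by ring, sum_range_add _ d (n+1)]
      have : 0 ≤ ∑ j ∈ range d, coeff j (Bx F d) := sum_nonneg fun j _ => NN_Bx hF hF0 d j
      unfold Qd
      simp only [coeff_mk]
      linarith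
    linarith

include hF hF0 in
lemma NN_Bs (α : ℕ) : NN (Bs F α) := by
  intro x
  rw [coeff_Bs]
  apply sum_nonneg
  intro z _
  split_ifs
  · exact mul_nonneg (NN_ren hF.1 hF0 _) (NN_ren hF.1 hF0 _)
  · exact le_rfl

include hF hF0 in
/-- the shift inequality -/
lemma shift_le (α d y : ℕ) (hm : ∀ x ≤ y, coeff x (Bs F α) ≤ coeff y (Bs F α)) :
    ∑ z ∈ range (y+1), (if α ≤ z then coeff z (ren F) * coeff (d + (y - z)) (ren F) else 0) ≤
      coeff y (Bs F α) := by
  have e : ∑ z ∈ range (y+1), (if α ≤ z then coeff z (ren F) * coeff (d + (y - z)) (ren F) else 0)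
      = coeff y (Qd F d * Bs F α) := by
    have h1 : Qd F d * Bs F α = (ren F - Tr F α) * Sh F d := by
      rw [Sh_eq hF hF0]; unfold Bs; ring
    rw [h1, cmul]
    apply sum_congr rfl
    intro z _
    rw [coeff_sTr]
    unfold Sh
    rw [coeff_mk]
    split_ifs
    · rfl
    · rw [zero_mul]
  rw [e, cmul]
  calc ∑ j ∈ range (y+1), coeff j (Qd F d) * coeff (y - j) (Bs F α)
      ≤ ∑ j ∈ range (y+1), coeff j (Qd F d) * coeff y (Bs F α) := by
        apply sum_le_sum
        intro j _
        exact mul_le_mul_of_nonneg_left (hm _ (Nat.sub_le _ _)) ((Qd_SP hF hF0 d).1 j)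
    _ = coeff y (Qd F d * S) * coeff y (Bs F α) := by rw [← sum_mul, cS]
    _ ≤ 1 * coeff y (Bs F α) :=
        mul_le_mul_of_nonneg_right ((Qd_SP hF hF0 d).2 y) (NN_Bs hF hF0 α y)
    _ = _ := one_mul _

include hF0 in
lemma Bs_rec (α x : ℕ) (hx : α ≤ x) : coeff x (Bs F α) = coeff x (ren F) +
    ∑ j ∈ range x, coeff (j+1) F * coeff (x - (j+1)) (Bs F α) := by
  have h1 : Bs F α = (ren F - Tr F α) + F * Bs F α := by
    unfold Bs
    have := ren_mul hF0
    calc (ren F - Tr F α) * ren F
        = (ren F - Tr F α) * (ren F * (1 - F)) + F * ((ren F - Tr F α) * ren F) := by ring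
      _ = _ := by rw [this, mul_one]
  conv_lhs => rw [h1]
  rw [map_add, coeff_sTr, if_pos hx, cmul, sum_range_succ', hF0, zero_mul, add_zero]

/-- the remainder term -/
noncomputable def Kr (F : PS) (y : ℕ) : ℝ :=
  ∑ z ∈ range (y+1), coeff z (ren F) * coeff (y - z) (ren F) * coeff (y + 1 - z) (T F)

include hF hF0 in
lemma Kr_le (h1 : 0 < coeff 1 F) (y : ℕ) :
    Kr F y ≤ coeff y (ren F) * (coeff 1 (T F) - Real.log (coeff y (ren F))) := by
  unfold Kr
  rw [sum_range_succ, Nat.sub_self, ren_zero hF0, mul_one, Nat.add_sub_cancel_left]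
  have h2 := ent hF hF0 h1 y
  have h3 : ∑ z ∈ range y, coeff z (ren F) * coeff (y - z) (ren F) * coeff (y + 1 - z) (T F) ≤
      ∑ z ∈ range y, coeff z (ren F) * (coeff (y-z) (ren F) * coeff (y-z) (T F)) := by
    apply sum_le_sum
    intro z _
    rw [mul_assoc]
    apply mul_le_mul_of_nonneg_left _ (NN_ren hF.1 hF0 z)
    exact mul_le_mul_of_nonneg_left (T_anti hF.1 (by omega)) (NN_ren hF.1 hF0 _)
  linarith

include hF hF0 in
/-- splitting according to the next renewal -/
lemma Kr_split (y : ℕ) (g : ℕ → ℝ) (hg2 : ∀ z, g z ≤ coeff z (ren F) * coeff (y - z) (ren F)) :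
    ∑ z ∈ range (y+1), g z ≤ Kr F y +
      ∑ j ∈ range (y+1), coeff (j+1) F * ∑ z ∈ range (y + 1), (if z + j + 1 ≤ y + 1 then g z else 0) := by
  have e1 : ∀ z ∈ range (y+1), g z = g z * coeff (y+1-z) (T F) +
      ∑ j ∈ range (y+1), coeff (j+1) F * (if z + j + 1 ≤ y + 1 then g z else 0) := by
    intro z hz
    have hz' := mem_range.1 hz
    have e2 : ∑ j ∈ range (y+1), coeff (j+1) F * (if z + j + 1 ≤ y + 1 then g z else 0) =
        (∑ j ∈ range (y+1-z), coeff (j+1) F) * g z := by
      rw [sum_mul]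
      have hsub : range (y+1-z) ⊆ range (y+1) := by
        intro j hj; rw [mem_range] at *; omega
      rw [← sum_subset hsub]
      · apply sum_congr rfl
        intro j hj
        rw [mem_range] at hj
        rw [if_pos (by omega)]
      · intro j hj hj2
        rw [mem_range] at hj hj2
        rw [if_neg (by omega), mul_zero]
    rw [e2, sum_F hF0]
    ring
  rw [sum_congr rfl e1, sum_add_distrib, sum_comm]
  apply add_le_add
  · unfold Kr
    apply sum_le_sum
    intro z _
    exact mul_le_mul_of_nonneg_right (hg2 z) (NN_T hF _)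
  · apply le_of_eq
    apply sum_congr rfl
    intro j _
    rw [mul_sum]

include hF hF0 in
/-- monotonicity of the truncated autocorrelation -/
lemma Bs_mono (h1 : 0 < coeff 1 F) (X : ℕ)
    (hu : ∀ y, y + 1 ≤ X → Real.exp (-1 + 2 * coeff 1 (T F)) ≤ coeff y (ren F)) (α : ℕ) :
    ∀ x, x ≤ X → ∀ y ≤ x, coeff y (Bs F α) ≤ coeff x (Bs F α) := by
  intro x
  induction x using Nat.strong_induction_on with
  | _ x ih =>
  intro hx
  rcases Nat.eq_zero_or_pos x with rfl | hx0
  · intro y hy
    rw [Nat.le_zero.1 hy]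
  obtain ⟨y, rfl⟩ : ∃ y, x = y + 1 := ⟨x - 1, by omega⟩
  -- it suffices to treat one step
  suffices hstep : coeff y (Bs F α) ≤ coeff (y+1) (Bs F α) by
    intro a ha
    rcases Nat.lt_or_ge a (y+1) with h | h
    · exact (ih y (by omega) (by omega) a (by omega)).trans hstep
    · rw [show a = y + 1 by omega]
  rcases Nat.lt_or_ge y α with hα | hα
  · have : coeff y (Bs F α) = 0 := by
      rw [coeff_Bs]
      apply sum_eq_zero
      intro z hz
      rw [mem_range] at hz
      rw [if_neg (by omega)]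
    rw [this]
    exact NN_Bs hF hF0 α _
  have hsp := Kr_split hF hF0 y (fun z => if α ≤ z then coeff z (ren F) * coeff (y - z) (ren F) else 0)
    (by
      intro z
      split_ifs
      · exact le_rfl
      · exact mul_nonneg (NN_ren hF.1 hF0 _) (NN_ren hF.1 hF0 _))
  rw [← coeff_Bs] at hsp
  have h2 : ∀ j ∈ range (y+1), coeff (j+1) F * ∑ z ∈ range (y + 1), (if z + j + 1 ≤ y + 1 then
      (if α ≤ z then coeff z (ren F) * coeff (y - z) (ren F) else 0) else 0) ≤
      coeff (j+1) F * coeff (y + 1 - (j+1)) (Bs F α) := by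
    intro j hj
    rw [mem_range] at hj
    apply mul_le_mul_of_nonneg_left _ (hF.1 _)
    have hs := shift_le hF hF0 α j (y - j) (fun x hx => ih (y-j) (by omega) (by omega) x hx)
    have e3 : ∑ z ∈ range (y + 1), (if z + j + 1 ≤ y + 1 then
        (if α ≤ z then coeff z (ren F) * coeff (y - z) (ren F) else 0) else 0) =
        ∑ z ∈ range (y - j + 1), (if α ≤ z then coeff z (ren F) * coeff (j + (y - j - z)) (ren F) else 0) := by
      have hsub : range (y-j+1) ⊆ range (y+1) := by
        intro j hj; rw [mem_range] at *; omega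
      rw [← sum_subset hsub]
      · apply sum_congr rfl
        intro z hz
        rw [mem_range] at hz
        rw [if_pos (by omega), show j + (y - j - z) = y - z by omega]
      · intro z hz hz2
        rw [mem_range] at hz hz2
        rw [if_neg (by omega)]
    rw [e3, show y + 1 - (j+1) = y - j by omega]
    exact hs
  have h3 := sum_le_sum h2
  have h4 := Bs_rec hF0 α (y+1) (by omega)
  have h5 := Kr_le hF hF0 h1 y
  have h6 := ren_step hF hF0 y
  have h7 := hu y (by omega)
  have hpos := ren_pos hF hF0 h1 y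
  have h8 : -1 + 2 * coeff 1 (T F) ≤ Real.log (coeff y (ren F)) := by
    rw [Real.le_log_iff_exp_le hpos]; exact h7
  have h9 := T_one hF0
  have h10 : coeff y (ren F) * (coeff 1 (T F) - Real.log (coeff y (ren F))) ≤
      coeff 1 F * coeff y (ren F) := by
    rw [mul_comm (coeff 1 F)]
    apply mul_le_mul_of_nonneg_left _ hpos.le
    linarith
  linarith

include hF hF0 in
/-- the discrete theorem -/
theorem disc_thm (h1 : 0 < coeff 1 F) (m : ℕ)
    (hu : ∀ y, y ≤ m → Real.exp (-1 + 2 * coeff 1 (T F)) ≤ coeff y (ren F)) (s : ℕ) :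
    coeff (m + 1 + s) (ren F) ≤ coeff (m+1) (ren F) * coeff s (ren F) +
      coeff m (ren F) * (coeff 1 (T F) - Real.log (coeff m (ren F))) := by
  refine le_trans ?_ (add_le_add_right (Kr_le hF hF0 h1 m) _)
  have hmono := fun α => Bs_mono hF hF0 h1 (m+1) (fun y hy => hu y (by omega)) α m (by omega)
  have hnn := NN_ren hF.1 hF0
  -- decomposition
  have e1 : coeff (m+1+s) (ren F) = ∑ v ∈ range (s+1), coeff (m+1+v) (Bx F (m+1)) * coeff (s-v) (ren F) := by
    have h := congrArg (coeff s) (Sh_eq hF hF0 (m+1))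
    unfold Sh at h
    rw [coeff_mk, cmul] at h
    rw [h]
    apply sum_congr rfl
    intro v _
    unfold Qd
    rw [coeff_mk]
  have e2 : ∀ v, coeff (m+1+v) (Bx F (m+1)) = ∑ z ∈ range (m+1), coeff z (ren F) * coeff (m+1+v-z) F := by
    intro v
    rw [coeff_Bx_ge hF hF0 (m+1) _ (by omega) (by omega), mul_comm, cmul]
    have hsub : range (m+1) ⊆ range (m+1+v+1) := by
      intro j hj; rw [mem_range] at *; omega
    rw [← sum_subset hsub]
    · apply sum_congr rfl
      intro z hz
      rw [mem_range] at hz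
      rw [coeff_Tr, if_pos hz]
    · intro z _ hz2
      rw [mem_range] at hz2
      rw [coeff_Tr, if_neg hz2, zero_mul]
  have e3 : coeff (m+1+0) (Bx F (m+1)) = coeff (m+1) (ren F) := by
    rw [e2, ren_rec hF0, add_zero, ← sum_range_reflect]
    apply sum_congr rfl
    intro j hj
    rw [mem_range] at hj
    rw [mul_comm, show m + 1 - 1 - j = m - j by omega, show m + 1 - (m - j) = j + 1 by omega]
  rw [e1, sum_range_succ', e3, Nat.sub_zero, add_comm]
  apply add_le_add_right
  -- the double sum
  have e4 : ∀ v ∈ range s, coeff (m+1+(v+1)) (Bx F (m+1)) * coeff (s-(v+1)) (ren F) =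
      ∑ z ∈ range (m+1), ∑ j ∈ range (m+1+s), (if j + z = m + 1 + v then
        coeff (j+1) F * (coeff z (ren F) * coeff (m+1+s-(j+1)-z) (ren F)) else 0) := by
    intro v hv
    rw [mem_range] at hv
    rw [e2, sum_mul]
    apply sum_congr rfl
    intro z hz
    rw [mem_range] at hz
    rw [sum_eq_single (m+1+v-z)]
    · rw [if_pos (by omega), show m+1+(v+1)-z = m+1+v-z+1 by omega,
        show m+1+s-(m+1+v-z+1)-z = s-(v+1) by omega]
      ring
    · intro j _ hj
      rw [if_neg (by omega)]
    · intro h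
      rw [mem_range] at h
      omega
  rw [sum_congr rfl e4, sum_comm]
  have e5 : ∀ z ∈ range (m+1), ∑ v ∈ range s, ∑ j ∈ range (m+1+s), (if j + z = m + 1 + v then
        coeff (j+1) F * (coeff z (ren F) * coeff (m+1+s-(j+1)-z) (ren F)) else 0) =
      ∑ j ∈ range (m+1+s), coeff (j+1) F * (if m + 1 ≤ j + z ∧ j + z < m + 1 + s then
        (coeff z (ren F) * coeff (m+1+s-(j+1)-z) (ren F)) else 0) := by
    intro z _
    rw [sum_comm]
    apply sum_congr rfl
    intro j _
    by_cases h : m + 1 ≤ j + z ∧ j + z < m + 1 + s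
    · rw [if_pos h, sum_eq_single (j + z - (m+1))]
      · rw [if_pos (by omega)]
      · intro v _ hv
        rw [if_neg (by omega)]
      · intro hh
        rw [mem_range] at hh
        omega
    · rw [if_neg h, mul_zero]
      apply sum_eq_zero
      intro v hv
      rw [mem_range] at hv
      rw [if_neg (by omega)]
  rw [sum_congr rfl e5, sum_comm]
  -- termwise bound
  have e6 : ∀ j ∈ range (m+1+s), ∑ z ∈ range (m+1), coeff (j+1) F * (if m + 1 ≤ j + z ∧ j + z < m + 1 + s then
        (coeff z (ren F) * coeff (m+1+s-(j+1)-z) (ren F)) else 0) ≤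
      ∑ z ∈ range (m+1), coeff (j+1) F * (if m + 1 ≤ j + z then
        (coeff z (ren F) * coeff (m-z) (ren F)) else 0) := by
    intro j hj
    rw [mem_range] at hj
    rw [← mul_sum, ← mul_sum]
    apply mul_le_mul_of_nonneg_left _ (hF.1 _)
    have eB : ∑ z ∈ range (m+1), (if m + 1 ≤ j + z then
        (coeff z (ren F) * coeff (m-z) (ren F)) else 0) = coeff m (Bs F (m+1-j)) := by
      rw [coeff_Bs]
      apply sum_congr rfl
      intro z _
      by_cases h : m + 1 ≤ j + z
      · rw [if_pos h, if_pos (by omega)]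
      · rw [if_neg h, if_neg (by omega)]
    rw [eB]
    rcases Nat.lt_or_ge s j with hsj | hsj
    · -- the case of a long jump
      have hx : m + 1 + s - (j+1) ≤ m := by omega
      refine le_trans (le_of_eq ?_) (hmono (m+1-j) (m+1+s-(j+1)) hx)
      rw [coeff_Bs]
      have hsub : range (m+1+s-(j+1)+1) ⊆ range (m+1) := by
        intro j hj; rw [mem_range] at *; omega
      rw [← sum_subset hsub]
      · apply sum_congr rfl
        intro z hz
        rw [mem_range] at hz
        by_cases h : m + 1 - j ≤ z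
        · rw [if_pos (by omega), if_pos h]
        · rw [if_neg (by omega), if_neg h]
      · intro z _ hz2
        rw [mem_range] at hz2
        rw [if_neg (by omega)]
    · refine le_trans (le_of_eq ?_) (shift_le hF hF0 (m+1-j) (s-j) m (hmono _))
      apply sum_congr rfl
      intro z hz
      rw [mem_range] at hz
      by_cases h : m + 1 - j ≤ z
      · rw [if_pos (by omega), if_pos h, show m+1+s-(j+1)-z = s - j + (m - z) by omega]
      · rw [if_neg (by omega), if_neg h]
  refine (sum_le_sum e6).trans ?_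
  rw [sum_comm]
  unfold Kr
  apply sum_le_sum
  intro z hz
  rw [mem_range] at hz
  have e7 : ∑ j ∈ range (m+1+s), coeff (j+1) F * (if m + 1 ≤ j + z then
        (coeff z (ren F) * coeff (m-z) (ren F)) else 0) =
      (∑ j ∈ Ico (m+1-z) (m+1+s), coeff (j+1) F) * (coeff z (ren F) * coeff (m-z) (ren F)) := by
    rw [sum_mul]
    have hsub : Ico (m+1-z) (m+1+s) ⊆ range (m+1+s) := by
      intro j hj; rw [mem_range]; exact (mem_Ico.1 hj).2
    rw [← sum_subset hsub]
    · apply sum_congr rfl
      intro j hj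
      rw [mem_Ico] at hj
      rw [if_pos (by omega)]
    · intro j hj hj2
      rw [mem_range] at hj
      rw [mem_Ico] at hj2
      rw [if_neg (by omega), mul_zero]
  rw [e7, mul_comm]
  apply mul_le_mul_of_nonneg_left _ (mul_nonneg (hnn _) (hnn _))
  rw [sum_Ico_eq_sub _ (by omega), sum_F hF0, sum_F hF0]
  linarith [NN_T hF (m+1+s)]

end H19Dav
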