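import Mathlib
import Pool.Agent.Helpers.H19DavQ
import Pool.Agent.Helpers.H19DavP

set_option autoImplicit false
open MeasureTheory Set Filter Topology
open scoped NNReal

namespace H19Dav

/-- the basic inequality for standard p-functions exceeding `1/e` on `[0,T]` -/
theorem std_ineq {p : ℝ≥0 → ℝ} (hp : H19PF.IsStandard p) (T : ℝ≥0) (hT : 0 < T)
    (h : ∀ t ≤ T, Real.exp (-1) < p t) (s : ℝ≥0) :
    p (T + s) ≤ p T * p s + p T * (0 - Real.log (p T)) := by
  have hc := std_continuous hp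
  obtain ⟨t0, ht0, hmin⟩ := (isCompact_Icc (a := (0:ℝ≥0)) (b := T)).exists_isMinOn ⟨0, le_rfl, zero_le⟩ hc.continuousOn
  have hp0 : 0 < p t0 := (Real.exp_pos _).trans (h t0 ht0.2)
  have hlog : -1 < Real.log (p t0) := by
    rw [Real.lt_log_iff_exp_lt hp0]; exact h t0 ht0.2
  set δ := (Real.log (p t0) + 1) / 2 with hδ
  have hδ0 : 0 < δ := by rw [hδ]; linarith
  have hlow : ∀ t ≤ T, Real.exp (-1 + 2 * δ) ≤ p t := by
    intro t ht
    have e : -1 + 2 * δ = Real.log (p t0) := by rw [hδ]; ring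
    rw [e, Real.exp_log hp0]
    exact hmin ⟨zero_le, ht⟩
  have hst := hp
  obtain ⟨⟨h01, hpz, Ω, mΩ, P, E, hP, hm, hprod⟩, hlim⟩ := hp
  -- the mesh
  set η : ℕ → ℝ≥0 := fun m => T / (m + 1) with hη
  have hη0 : ∀ m, 0 < η m := fun m => by simp only [hη]; positivity
  have hηT : ∀ m : ℕ, ((m : ℝ≥0) + 1) * η m = T := fun m => by
    simp only [hη]; field_simp
  have hηlim : Tendsto η atTop (𝓝 0) := by
    have h1 : Tendsto (fun m : ℕ => (T:ℝ) * (1 / ((m:ℝ)+1))) atTop (𝓝 ((T:ℝ) * 0)) :=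
      tendsto_one_div_add_atTop_nhds_zero_nat.const_mul _
    rw [mul_zero] at h1
    rw [← NNReal.tendsto_coe]
    refine h1.congr fun m => ?_
    simp only [hη]
    push_cast
    ring
  have hplim : Tendsto (fun m => p (η m)) atTop (𝓝 1) := by
    have := (hc.tendsto 0).comp hηlim
    rwa [hpz] at this
  have ha : Tendsto (fun m => (⌊s / η m⌋₊ : ℝ≥0) * η m) atTop (𝓝 s) := by
    have h1 : Tendsto (fun m => s - η m) atTop (𝓝 (s - 0)) := tendsto_const_nhds.sub hηlim
    rw [tsub_zero] at h1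
    refine tendsto_of_tendsto_of_tendsto_of_le_of_le h1 tendsto_const_nhds (fun m => ?_) (fun m => ?_)
    · show s - η m ≤ _
      rw [tsub_le_iff_right]
      have := (Nat.lt_floor_add_one (s / η m)).le
      rw [div_le_iff₀ (hη0 m)] at this
      linarith
    · show _ ≤ s
      have := Nat.floor_le (zero_le (a := s / η m))
      rwa [le_div_iff₀ (hη0 m)] at this
  have hb : Tendsto (fun m : ℕ => (m : ℝ≥0) * η m) atTop (𝓝 T) := by
    have h1 : Tendsto (fun m => T - η m) atTop (𝓝 (T - 0)) := tendsto_const_nhds.sub hηlim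
    rw [tsub_zero] at h1
    refine h1.congr fun m => ?_
    rw [tsub_eq_iff_eq_add_of_le]
    · rw [← hηT m]; ring
    · rw [← hηT m, add_mul, one_mul]; exact le_add_self
  have hpT : 0 < p T := (Real.exp_pos _).trans (h T le_rfl)
  -- limits
  have hL : Tendsto (fun m => p (T + (⌊s / η m⌋₊ : ℝ≥0) * η m)) atTop (𝓝 (p (T + s))) :=
    (hc.tendsto _).comp (tendsto_const_nhds.add ha)
  have hR : Tendsto (fun m : ℕ => p T * p ((⌊s / η m⌋₊ : ℝ≥0) * η m) +
      p ((m : ℝ≥0) * η m) * ((1 - p (η m)) - Real.log (p ((m : ℝ≥0) * η m)))) atTop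
      (𝓝 (p T * p s + p T * ((1 - 1) - Real.log (p T)))) := by
    have h1 := (hc.tendsto _).comp ha
    have h2 := (hc.tendsto _).comp hb
    exact (tendsto_const_nhds.mul h1).add (h2.mul ((tendsto_const_nhds.sub hplim).sub
      (h2.log hpT.ne')))
  rw [sub_self] at hR
  refine le_of_tendsto_of_tendsto hL hR ?_
  have hev := hplim.eventually (lt_mem_nhds (show max (1 - δ) 0 < 1 by
    rw [max_lt_iff]; constructor <;> linarith))
  filter_upwards [hev] with m hm2
  obtain ⟨F, hF, hF0, hF1, hFn⟩ := skeleton hpz hprod hm (η m)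
  have hpη : 0 < p (η m) := (le_max_right _ _).trans_lt hm2
  have hpη2 : 1 - δ < p (η m) := (le_max_left _ _).trans_lt hm2
  have key := disc_thm hF hF0 (by rw [hF1]; exact hpη) m (by
    intro y hy
    rw [T_one hF0, hF1, hFn]
    refine le_trans (Real.exp_le_exp.2 (by linarith)) (hlow _ ?_)
    rw [← hηT m]
    have : (y:ℝ≥0) ≤ m + 1 := by
      have : (y:ℝ≥0) ≤ m := by exact_mod_cast hy
      exact this.trans (le_add_of_nonneg_right zero_le_one)
    gcongr) ⌊s / η m⌋₊
  rw [hFn, hFn, hFn, hFn, T_one hF0, hF1] at key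
  have e1 : ((m + 1 + ⌊s / η m⌋₊ : ℕ) : ℝ≥0) * η m = T + (⌊s / η m⌋₊ : ℝ≥0) * η m := by
    push_cast
    rw [add_mul, hηT]
  have e2 : ((m + 1 : ℕ) : ℝ≥0) * η m = T := by
    push_cast
    exact hηT m
  rw [e1, e2] at key
  exact key

lemma phi_le (x c : ℝ) (hx : 0 < x) : x * c + x * (0 - Real.log x) ≤ Real.exp (c - 1) := by
  have h := Real.log_le_sub_one_of_pos (show 0 < Real.exp (c - 1) / x by positivity)
  rw [Real.log_div (Real.exp_pos _).ne' hx.ne', Real.log_exp] at h
  have h2 := mul_le_mul_of_nonneg_left h hx.le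
  have h3 : x * (Real.exp (c-1) / x - 1) = Real.exp (c-1) - x := by field_simp
  rw [h3] at h2
  linarith

theorem std_exp {p : ℝ≥0 → ℝ} (hp : H19PF.IsStandard p) (T : ℝ≥0)
    (h : ∀ t ≤ T, Real.exp (-1) < p t) (s : ℝ≥0) :
    p (T + s) ≤ Real.exp (p s - 1) := by
  rcases (zero_le (a := T)).eq_or_lt with hT | hT
  · rw [← hT, zero_add]
    have := Real.add_one_le_exp (p s - 1)
    linarith
  · exact (std_ineq hp T hT h s).trans (phi_le _ _ ((Real.exp_pos _).trans (h T le_rfl)))

lemma e_bound : Real.exp (Real.exp (-1) - 1) < 1 / (Real.exp 1 - 1) := by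
  have he : Real.exp 1 * Real.exp (-1) = 1 := by rw [← Real.exp_add]; simp
  have he1 : 1 < Real.exp 1 := by
    have := Real.add_one_lt_exp (one_ne_zero)
    linarith
  have h1 := Real.add_one_lt_exp (x := -Real.exp (-1)) (neg_ne_zero.2 (Real.exp_pos _).ne')
  rw [lt_div_iff₀ (by linarith)]
  have h2 : Real.exp (Real.exp (-1) - 1) = Real.exp (Real.exp (-1)) * Real.exp (-1) := by
    rw [← Real.exp_add]; ring_nf
  have h3 : Real.exp (Real.exp (-1)) * Real.exp (-Real.exp (-1)) = 1 := by rw [← Real.exp_add]; simp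
  have h4 : Real.exp (Real.exp (-1)) * (-Real.exp (-1) + 1) < 1 := by
    exact (mul_lt_mul_of_pos_left h1 (Real.exp_pos _)).trans_eq h3
  rw [h2]
  have h5 : Real.exp (Real.exp (-1)) * Real.exp (-1) * (Real.exp 1 - 1) =
      Real.exp (Real.exp (-1)) * (-Real.exp (-1) + 1) := by
    have : Real.exp (Real.exp (-1)) * Real.exp (-1) * (Real.exp 1 - 1) =
      Real.exp (Real.exp (-1)) * (-Real.exp (-1) + Real.exp 1 * Real.exp (-1)) := by ring
    rw [this, he]
  rw [h5]
  exact h4

/-- once the level `1/e` has been reached, the function stays below `1/(e-1)` -/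
theorem std_hit {p : ℝ≥0 → ℝ} (hp : H19PF.IsStandard p) (t0 : ℝ≥0) (ht0 : p t0 ≤ Real.exp (-1))
    (u : ℝ≥0) (hu : t0 ≤ u) : p u < 1 / (Real.exp 1 - 1) := by
  have hc := std_continuous hp
  have he1 : Real.exp (-1) < 1 := by
    have : Real.exp (-1) < Real.exp 0 := Real.exp_lt_exp.2 (by norm_num)
    rwa [Real.exp_zero] at this
  set A : Set ℝ≥0 := {t | p t ≤ Real.exp (-1)} with hA
  have hAc : IsClosed A := isClosed_le hc continuous_const
  have hAne : A.Nonempty := ⟨t0, ht0⟩
  set τ := sInf A with hτ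
  have hτA : p τ ≤ Real.exp (-1) := hAc.csInf_mem hAne (OrderBot.bddBelow _)
  have hlt : ∀ t < τ, Real.exp (-1) < p t := by
    intro t ht
    have := notMem_of_lt_csInf ht (OrderBot.bddBelow _)
    rw [hA, Set.mem_ofPred_eq, not_le] at this
    exact this
  have hτ0 : 0 < τ := by
    rw [pos_iff_ne_zero]
    intro h0
    rw [h0, hp.1.2.1] at hτA
    linarith
  have hτt : τ ≤ t0 := csInf_le (OrderBot.bddBelow A) (show t0 ∈ A from ht0)
  have hτu : τ ≤ u := hτt.trans hu
  have : (𝓝[<] τ).NeBot := nhdsLT_neBot_of_exists_lt ⟨0, hτ0⟩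
  have hcτ : Tendsto p (𝓝[<] τ) (𝓝 (p τ)) := (hc.tendsto τ).mono_left nhdsWithin_le_nhds
  have hτge : Real.exp (-1) ≤ p τ := by
    refine ge_of_tendsto hcτ ?_
    filter_upwards [self_mem_nhdsWithin] with t ht
    exact (hlt t ht).le
  have hτeq : p τ = Real.exp (-1) := le_antisymm hτA hτge
  have hI : ∀ s, p (τ + s) ≤ Real.exp (-1) * (p s + 1) := by
    intro s
    have h1 : Tendsto (fun T => p (T + s)) (𝓝[<] τ) (𝓝 (p (τ + s))) :=
      ((hc.comp (continuous_id.add continuous_const)).tendsto τ).mono_left nhdsWithin_le_nhds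
    have h2 : Tendsto (fun T => p T * p s + p T * (0 - Real.log (p T))) (𝓝[<] τ)
        (𝓝 (p τ * p s + p τ * (0 - Real.log (p τ)))) :=
      (hcτ.mul tendsto_const_nhds).add (hcτ.mul (tendsto_const_nhds.sub
        (hcτ.log (by rw [hτeq]; exact (Real.exp_pos _).ne'))))
    rw [hτeq, Real.log_exp] at h2
    have h3 := le_of_tendsto_of_tendsto h1 h2 (by
      filter_upwards [Ioo_mem_nhdsLT hτ0] with T hT
      exact std_ineq hp T hT.1 (fun t ht => hlt t (ht.trans_lt hT.2)) s)
    linarith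
  have hII : ∀ T ≤ τ, ∀ s, p (T + s) ≤ Real.exp (p s - 1) := by
    intro T hT s
    rcases hT.eq_or_lt with h | h
    · rw [h]
      refine (hI s).trans ?_
      have h1 : Real.exp (p s - 1) = Real.exp (-1) * Real.exp (p s) := by
        rw [← Real.exp_add]; ring_nf
      rw [h1]
      exact mul_le_mul_of_nonneg_left (Real.add_one_le_exp _) (Real.exp_pos _).le
    · exact std_exp hp T (fun t ht => hlt t (ht.trans_lt h)) s
  have he : Real.exp 1 * Real.exp (-1) = 1 := by rw [← Real.exp_add]; simp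
  have hee : 1 < Real.exp 1 := by
    have := Real.add_one_lt_exp (one_ne_zero)
    linarith
  have main : ∀ n : ℕ, ∀ u, τ ≤ u → u ≤ ((n:ℝ≥0) + 2) * τ → p u < 1 / (Real.exp 1 - 1) := by
    intro n
    induction n with
    | zero =>
      intro u h1 h2
      have h3 : u = (u - τ) + τ := (tsub_add_cancel_of_le h1).symm
      rw [h3]
      have h4 : u - τ ≤ τ := by
        rw [tsub_le_iff_right]
        simp only [Nat.cast_zero, zero_add, two_mul] at h2
        exact h2
      refine (hII _ h4 τ).trans_lt ?_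
      rw [hτeq]
      exact e_bound
    | succ n ih =>
      intro u h1 h2
      rcases le_or_gt u (2 * τ) with h3 | h3
      · have h5 : u = (u - τ) + τ := (tsub_add_cancel_of_le h1).symm
        rw [h5]
        have h4 : u - τ ≤ τ := by
          rw [tsub_le_iff_right, ← two_mul]
          exact h3
        refine (hII _ h4 τ).trans_lt ?_
        rw [hτeq]
        exact e_bound
      · have h4 : τ ≤ u - τ := by
          rw [le_tsub_iff_right h1, ← two_mul]
          exact h3.le
        have h5 : u - τ ≤ ((n:ℝ≥0) + 2) * τ := by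
          rw [tsub_le_iff_right]
          refine h2.trans (le_of_eq ?_)
          push_cast
          ring
        have h6 := ih _ h4 h5
        have h7 : u = τ + (u - τ) := (add_tsub_cancel_of_le h1).symm
        rw [h7]
        refine (hI _).trans_lt ?_
        have h8 : Real.exp (-1) * (p (u - τ) + 1) < Real.exp (-1) * (1 / (Real.exp 1 - 1) + 1) := by
          apply mul_lt_mul_of_pos_left _ (Real.exp_pos _)
          linarith
        refine h8.trans_le (le_of_eq ?_)
        have h9 : Real.exp 1 - 1 ≠ 0 := by linarith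
        field_simp
        linarith
  obtain ⟨n, hn⟩ := exists_nat_ge (u / τ)
  refine main n u hτu ?_
  rw [div_le_iff₀ hτ0] at hn
  refine hn.trans ?_
  gcongr
  exact le_add_of_nonneg_right zero_le

theorem IM_ge (M : ℝ) (hM : 1 / (Real.exp 1 - 1) ≤ M) (hM1 : M ≤ 1) :
    1 + Real.log M ≤ IM M := by
  have hee : 1 < Real.exp 1 := by
    have := Real.add_one_lt_exp (one_ne_zero)
    linarith
  have he : Real.exp 1 * Real.exp (-1) = 1 := by rw [← Real.exp_add]; simp
  have hM0 : 0 < M := lt_of_lt_of_le (by apply div_pos one_pos; linarith) hM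
  have hMe : Real.exp (-1) < M := by
    refine lt_of_lt_of_le ?_ hM
    rw [lt_div_iff₀ (by linarith)]
    nlinarith [Real.exp_pos (-1)]
  refine le_csInf (IM_le M hMe hM1).1 ?_
  rintro _ ⟨p, hp, hp1, rfl⟩
  have habove : ∀ t ≤ 1, Real.exp (-1) < p t := by
    intro t ht
    by_contra hcon
    rw [not_lt] at hcon
    have := std_hit hp t hcon 1 ht
    rw [hp1] at this
    linarith
  refine le_csInf img_ne ?_
  rintro _ ⟨t, ht, rfl⟩
  have h1 := std_exp hp (1 - t) (fun x hx => habove x (hx.trans tsub_le_self)) t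
  rw [tsub_add_cancel_of_le ht.2, hp1] at h1
  have h2 : Real.log M ≤ p t - 1 := by
    rw [Real.log_le_iff_le_exp hM0]; exact h1
  linarith

theorem IM_eq (M : ℝ) (hM : 1 / (Real.exp 1 - 1) ≤ M) (hM1 : M ≤ 1) :
    IM M = 1 + Real.log M := by
  have hee : 1 < Real.exp 1 := by
    have := Real.add_one_lt_exp (one_ne_zero)
    linarith
  have he : Real.exp 1 * Real.exp (-1) = 1 := by rw [← Real.exp_add]; simp
  have hMe : Real.exp (-1) < M := by
    refine lt_of_lt_of_le ?_ hM
    rw [lt_div_iff₀ (by linarith)]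
    nlinarith [Real.exp_pos (-1)]
  exact le_antisymm (IM_le M hMe hM1).2 (IM_ge M hM hM1)

end H19Dav
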