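import Mathlib
import Pool.Agent.Helpers.H19PFunDefs
import Pool.Agent.Helpers.H19PFun1

open MeasureTheory Filter Topology
open scoped NNReal

namespace H19PF

/-! ### time scaling -/

lemma std_scale (p : ℝ≥0 → ℝ) (hp : IsStandard p) (c : ℝ≥0) : IsStandard (fun t => p (c * t)) := by
  obtain ⟨⟨h01, h0, Ω, mΩ, P, E, hP, hE, hreg⟩, hlim⟩ := hp
  refine ⟨⟨fun t => h01 _, by simpa using h0, Ω, mΩ, P, fun t => E (c * t), hP,
    fun t => hE _, ?_⟩, ?_⟩
  · intro n t ht
    have := hreg n (fun i => c * t i) (fun i j hij => mul_le_mul_right (ht hij) c)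
    rw [this]
    congr 3
    funext i
    show E (c * t i.succ - c * t 0) = E (c * (t i.succ - t 0))
    rw [mul_tsub]
  · have h1 : Tendsto (fun t : ℝ≥0 => c * t) (𝓝 0) (𝓝 (c * 0)) := by
      exact (continuous_const.mul continuous_id).tendsto 0
    rw [mul_zero] at h1
    exact hlim.comp h1

/-! ### Consequences of infinite divisibility -/

lemma std_event (p : ℝ≥0 → ℝ) (hp : IsStandard p) (s t : ℝ≥0) :
    0 ≤ 1 - p s - p (s + t) + p s * p t := by
  obtain ⟨⟨h01, h0, Ω, mΩ, P, E, hP, hE, hreg⟩, hlim⟩ := hp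
  have h1 : ∀ s, P.real (E s) = p s := by
    intro s
    have := hreg 0 (fun _ => s) (fun _ _ _ => le_rfl)
    have e1 : (⋂ i : Fin 1, E ((fun _ : Fin 1 => s) i)) = E s := by
      ext x
      simp
    rw [e1] at this
    simpa using this
  have h2 : P.real (E s ∩ E (s + t)) = p s * p t := by
    have := hreg 1 ![s, s + t] (by
      intro i j hij
      fin_cases i <;> fin_cases j <;> simp_all)
    have e1 : (⋂ i, E ((![s, s + t] : Fin 2 → ℝ≥0) i)) = E s ∩ E (s + t) := by
      ext x
      simp [Fin.forall_fin_two]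
    have e2 : (⋂ i : Fin 1, E ((![s, s + t] : Fin 2 → ℝ≥0) i.succ -
        (![s, s + t] : Fin 2 → ℝ≥0) 0)) = E t := by
      ext x
      simp
    rw [e1, e2, h1] at this
    simpa using this
  have h3 := measureReal_union_add_inter (μ := P) (s := E s) (t := E (s + t)) (hE (s + t))
  have h4 : P.real (E s ∪ E (s + t)) ≤ 1 := measureReal_le_one
  rw [h1, h1, h2] at h3
  linarith

lemma not_infDiv (q : ℝ≥0 → ℝ) (s : ℝ≥0) (a b : ℝ) (ha : 0 < a) (hb : 0 < b)
    (h1 : q s = Real.exp (-a)) (h2 : q (s + s) = Real.exp (-a + b)) : ¬ InfDiv q := by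
  intro h
  obtain ⟨n, hn⟩ := exists_nat_gt (a ^ 2 * Real.exp a / b)
  have hn0 : 0 < n := by
    have h0 : (0:ℝ) < n := lt_of_le_of_lt (by positivity) hn
    exact_mod_cast h0
  have hnr : (0:ℝ) < n := by exact_mod_cast hn0
  obtain ⟨u, hu, hqu⟩ := h n hn0
  have hpos := hu.1.1
  have hx : u s = Real.exp (-a / n) := by
    have e1 : u s ^ n = Real.exp (-a / n) ^ n := by
      rw [← hqu, h1, ← Real.exp_nat_mul]
      congr 1
      field_simp
    exact (pow_left_inj₀ (hpos s).1 (Real.exp_pos _).le hn0.ne').1 e1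
  have hy : u (s + s) = Real.exp (-a / n) * Real.exp (b / n) := by
    rw [← Real.exp_add]
    have e1 : u (s + s) ^ n = Real.exp (-a / n + b / n) ^ n := by
      rw [← hqu, h2, ← Real.exp_nat_mul]
      congr 1
      field_simp
    exact (pow_left_inj₀ (hpos (s + s)).1 (Real.exp_pos _).le hn0.ne').1 e1
  have hineq := std_event u hu s s
  rw [hx, hy] at hineq
  set x := Real.exp (-a / n) with hxdef
  have hx1 : x ≤ 1 := by
    rw [hxdef, Real.exp_le_one_iff]
    have : 0 ≤ a / n := by positivity
    rw [neg_div]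
    linarith
  have hx2 : 1 - x ≤ a / n := by
    have := Real.add_one_le_exp (-a / n)
    rw [neg_div] at this
    rw [hxdef, neg_div]
    linarith
  have hx3 : Real.exp (-a) ≤ x := by
    rw [hxdef]
    apply Real.exp_le_exp.2
    rw [neg_div]
    have : a / n ≤ a := div_le_self ha.le (by exact_mod_cast hn0)
    linarith
  have hz : b / n ≤ Real.exp (b / n) - 1 := by
    have := Real.add_one_le_exp (b / n)
    linarith
  have hbn : 0 < b / n := by positivity
  have h5 : x * (Real.exp (b / n) - 1) ≤ (1 - x) ^ 2 := by nlinarith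
  have h6 : (1 - x) ^ 2 ≤ (a / n) ^ 2 := by
    apply pow_le_pow_left₀ (by linarith) hx2
  have h7 : Real.exp (-a) * (b / n) ≤ x * (Real.exp (b / n) - 1) :=
    mul_le_mul hx3 hz hbn.le (Real.exp_pos _).le
  have h8 : Real.exp (-a) * (b / n) ≤ (a / n) ^ 2 := by linarith
  have h9 : Real.exp (-a) * b * n ≤ a ^ 2 := by
    have e : (a / n) ^ 2 * n ^ 2 = a ^ 2 := by field_simp
    have e2 : Real.exp (-a) * (b / n) * n ^ 2 = Real.exp (-a) * b * n := by field_simp
    rw [← e, ← e2]
    exact mul_le_mul_of_nonneg_right h8 (by positivity)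
  have h10 : a ^ 2 * Real.exp a < n * b := by
    rwa [div_lt_iff₀ hb] at hn
  have h11 : Real.exp (-a) * Real.exp a = 1 := by rw [← Real.exp_add]; simp
  have h12 : b * n ≤ a ^ 2 * Real.exp a := by
    have := mul_le_mul_of_nonneg_right h9 (Real.exp_pos a).le
    have e : Real.exp (-a) * b * n * Real.exp a = b * n * (Real.exp (-a) * Real.exp a) := by ring
    rw [e, h11, mul_one] at this
    exact this
  linarith [mul_comm b (n:ℝ)]

/-! ### Kaluza's lemma -/

lemma ratio_mono (u : ℕ → ℝ) (hpos : ∀ n, 0 < u n)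
    (hlc : ∀ n, u (n + 1) ^ 2 ≤ u n * u (n + 2)) (i d : ℕ) :
    u (i + d) * u (i + 1) ≤ u (i + d + 1) * u i := by
  induction d with
  | zero => simp [mul_comm]
  | succ d ih =>
    have h1 := hlc (i + d)
    have h2 := hpos (i + d)
    have h3 := hpos (i + d + 1)
    have h4 := hpos i
    have h5 : u (i + d) * (u (i + (d + 1)) * u (i + 1)) ≤
        u (i + d) * (u (i + (d + 1) + 1) * u i) := by
      have e1 : i + (d + 1) = i + d + 1 := rfl
      have e2 : i + (d + 1) + 1 = i + d + 2 := rfl
      rw [e2, e1]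
      calc u (i + d) * (u (i + d + 1) * u (i + 1)) = u (i + d + 1) * (u (i + d) * u (i + 1)) := by
            ring
        _ ≤ u (i + d + 1) * (u (i + d + 1) * u i) := mul_le_mul_of_nonneg_left ih h3.le
        _ = u (i + d + 1) ^ 2 * u i := by ring
        _ ≤ (u (i + d) * u (i + d + 2)) * u i := mul_le_mul_of_nonneg_right h1 h4.le
        _ = u (i + d) * (u (i + d + 2) * u i) := by ring
    exact le_of_mul_le_mul_left h5 h2

lemma kaluza (u : ℕ → ℝ) (h0 : u 0 = 1) (hpos : ∀ n, 0 < u n)
    (hlc : ∀ n, u (n + 1) ^ 2 ≤ u n * u (n + 2)) : ∀ n, 0 ≤ ren u n := by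
  intro n
  induction n using Nat.strong_induction_on with
  | _ n ih =>
    rcases n with _ | n
    · rw [ren_zero]
    rcases n with _ | m
    · rw [ren_succ]
      simp [ren_zero, (hpos 1).le]
    · have h1 := ren_eq u h0 (m + 1) (by omega)
      have h2 : 0 ≤ u (m + 1) * ren u (m + 1 + 1) := by
        rw [ren_succ, mul_sub, Finset.mul_sum]
        have h3 : u (m + 1) * u (m + 1 + 1) =
            ∑ k ∈ Finset.range (m + 1 + 1), ren u k * (u (m + 1 + 1) * u (m + 1 - k)) := by
          conv_lhs => rw [h1]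
          rw [Finset.sum_mul]
          apply Finset.sum_congr rfl
          intro k _
          ring
        rw [h3, ← Finset.sum_sub_distrib]
        apply Finset.sum_nonneg
        intro k hk
        have hk' := Finset.mem_range.1 hk
        have h4 := ratio_mono u hpos hlc (m + 1 - k) k
        rw [show m + 1 - k + k = m + 1 by omega, show m + 1 - k + 1 = m + 1 + 1 - k by omega] at h4
        have h5 := ih k (by omega)
        have e : ren u k * (u (m + 1 + 1) * u (m + 1 - k)) -
            u (m + 1) * (ren u k * u (m + 1 + 1 - k)) =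
            ren u k * (u (m + 1 + 1) * u (m + 1 - k) - u (m + 1) * u (m + 1 + 1 - k)) := by ring
        rw [e]
        exact mul_nonneg h5 (by linarith)
      exact nonneg_of_mul_nonneg_right h2 (hpos (m + 1))

end H19PF
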