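import Mathlib
import Pool.Agent.Helpers.H19PFunDefs
import Pool.Agent.Helpers.H19PFun1

open MeasureTheory Filter Topology
open scoped NNReal

namespace H19PF

lemma sum_lower (g : ℕ → ℝ) (a M : ℕ) (v : ℝ) (h : ∀ j, a ≤ j → j < a + M → v ≤ g j) :
    M * v ≤ ∑ k ∈ Finset.range (a + M), g k - ∑ k ∈ Finset.range a, g k := by
  induction M with
  | zero => simp
  | succ M ih =>
    have h1 := ih (fun j h1 h2 => h j h1 (by omega))
    rw [← add_assoc, Finset.sum_range_succ]
    have h2 := h (a + M) (by omega) (by omega)
    push_cast
    linarith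

/-- The main positivity lemma. -/
lemma posC (u : ℕ → ℝ) (K M : ℕ) (hK : K = 2 * M) (hM : 1 ≤ M) (φ : ℝ) (hφ0 : 0 < φ) (hφ1 : φ < 1)
    (hu1 : ∀ j, j ≤ K → u j = φ ^ j) (σ δ ω β : ℝ) (hσ0 : 0 ≤ σ) (hω0 : 0 < ω)
    (hβ : β = (1 - φ) * φ ^ (K - 1))
    (hs1 : ∀ j, K < j → 0 ≤ u j - u (j - 1) ∧ u j - u (j - 1) ≤ σ)
    (hs2 : ∀ j, 2 * K < j → u j - u (j - 1) = 0)
    (hs3 : ∀ j, K + 2 ≤ j → -δ ≤ (u j - u (j - 1)) - (u (j - 1) - u (j - 1 - 1)))
    (hδ : δ ≤ (β / 2) * ((1 - φ) * φ ^ K))
    (hωβ : ω ≤ M * (β / 2)) (hσω : σ * (1 + ω) ≤ (β / 2) * ω ^ 2) :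
    ∀ n, 0 ≤ ren u n := by
  have h0 : u 0 = 1 := by rw [hu1 0 (by omega)]; simp
  have hβ0 : 0 < β := by rw [hβ]; exact mul_pos (by linarith) (pow_pos hφ0 _)
  -- the initial values of f
  have hf1 : ren u 1 = φ := by
    rw [ren_succ]
    simp [ren_zero, hu1 1 (by omega)]
  have hf2 : ∀ n, 2 ≤ n → n ≤ K → ren u n = 0 := by
    intro n
    induction n using Nat.strong_induction_on with
    | _ n ih =>
      intro h2 hn
      obtain ⟨m, rfl⟩ : ∃ m, n = m + 1 := ⟨n - 1, by omega⟩
      rw [ren_succ]
      rw [Finset.sum_eq_single 1]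
      · rw [hf1, hu1 _ hn, hu1 _ (by omega)]
        have : φ ^ (m + 1) = φ * φ ^ (m + 1 - 1) := by
          rw [← pow_succ']
          congr 1
        rw [this]; ring
      · intro k hk hk1
        have hk' := Finset.mem_range.1 hk
        rcases Nat.eq_zero_or_pos k with rfl | hkpos
        · rw [ren_zero]; ring
        · rw [ih k (by omega) (by omega) (by omega)]; ring
      · intro hcon
        exfalso
        apply hcon
        rw [Finset.mem_range]; omega
  -- g and its partial sums
  obtain ⟨g, hg⟩ : ∃ g : ℕ → ℝ, ∀ k, g k = if k ≤ K then 0 else ren u k := ⟨_, fun _ => rfl⟩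
  have hgf : ∀ k, ren u k = g k + if k = 1 then φ else 0 := by
    intro k
    rw [hg]
    by_cases hk : k ≤ K
    · rw [if_pos hk]
      by_cases hk1 : k = 1
      · rw [if_pos hk1, hk1, hf1]; ring
      · rw [if_neg hk1]
        rcases Nat.eq_zero_or_pos k with rfl | hkpos
        · rw [ren_zero]; ring
        · rw [hf2 k (by omega) hk]; ring
    · rw [if_neg hk, if_neg (by omega)]; ring
  obtain ⟨G, hG⟩ : ∃ G : ℕ → ℝ, ∀ n, G n = ∑ k ∈ Finset.range n, g k := ⟨_, fun _ => rfl⟩
  have hGsucc : ∀ n, G (n + 1) = G n + g n := by
    intro n; rw [hG, hG, Finset.sum_range_succ]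
  have hG0 : ∀ n, n ≤ K + 1 → G n = 0 := by
    intro n hn
    rw [hG]
    apply Finset.sum_eq_zero
    intro k hk
    have := Finset.mem_range.1 hk
    rw [hg, if_pos (by omega)]
  -- recursion for n ≥ K + 2
  have hrec : ∀ n, K + 2 ≤ n → ren u n = (u n - u (n - 1)) - φ * (u (n - 1) - u (n - 1 - 1)) -
      ∑ k ∈ Finset.range n, g k * (u (n - k) - u (n - 1 - k)) := by
    intro n hn
    obtain ⟨m, rfl⟩ : ∃ m, n = m + 1 := ⟨n - 1, by omega⟩
    have e1 := ren_eq u h0 m (by omega)
    have e2 := ren_succ u m
    have e3 : ∑ k ∈ Finset.range (m + 1), ren u k * (u (m + 1 - k) - u (m + 1 - 1 - k)) =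
        φ * (u (m + 1 - 1) - u (m + 1 - 1 - 1)) +
        ∑ k ∈ Finset.range (m + 1), g k * (u (m + 1 - k) - u (m + 1 - 1 - k)) := by
      have : ∀ k ∈ Finset.range (m + 1), ren u k * (u (m + 1 - k) - u (m + 1 - 1 - k)) =
          (if k = 1 then φ * (u (m + 1 - k) - u (m + 1 - 1 - k)) else 0) +
          g k * (u (m + 1 - k) - u (m + 1 - 1 - k)) := by
        intro k _
        rw [hgf k]
        split_ifs <;> ring
      rw [Finset.sum_congr rfl this, Finset.sum_add_distrib, Finset.sum_ite_eq']
      rw [if_pos (by rw [Finset.mem_range]; omega)]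
    have e4 : ∑ k ∈ Finset.range (m + 1), ren u k * (u (m + 1 - k) - u (m + 1 - 1 - k)) =
        ∑ k ∈ Finset.range (m + 1), ren u k * u (m + 1 - k) -
        ∑ k ∈ Finset.range (m + 1), ren u k * u (m - k) := by
      rw [← Finset.sum_sub_distrib]
      apply Finset.sum_congr rfl
      intro k _
      rw [Nat.add_sub_cancel]
      ring
    rw [Nat.add_sub_cancel] at *
    linarith
  -- f (K+1)
  have hfK : (1 - φ) * φ ^ K ≤ ren u (K + 1) := by
    rw [ren_succ, Finset.sum_eq_single 1]
    · rw [hf1, Nat.add_sub_cancel, hu1 K le_rfl]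
      have := (hs1 (K + 1) (by omega)).1
      rw [Nat.add_sub_cancel, hu1 K le_rfl] at this
      linarith
    · intro k hk hk1
      have hk' := Finset.mem_range.1 hk
      rcases Nat.eq_zero_or_pos k with rfl | hkpos
      · rw [ren_zero]; ring
      · rw [hf2 k (by omega) (by omega)]; ring
    · intro hcon
      exfalso
      apply hcon
      rw [Finset.mem_range]; omega
  have hfK0 : 0 ≤ (1 - φ) * φ ^ K := mul_nonneg (by linarith) (pow_pos hφ0 _).le
  -- lower bound
  have hlow : ∀ n, K + 2 ≤ n → (∀ k, k < n → 0 ≤ g k) →
      (u n - u (n - 1)) - φ * (u (n - 1) - u (n - 1 - 1)) + β * (G n - G (n - K))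
        - σ * (G (n - K) - G (n - 2 * K)) ≤ ren u n := by
    intro n hn hgn
    rw [hrec n hn]
    have e1 : ∑ k ∈ Finset.range n, g k * (u (n - k) - u (n - 1 - k)) ≤
        σ * (G (n - K) - G (n - 2 * K)) - β * (G n - G (n - K)) := by
      have e2 : ∑ k ∈ Finset.range n, g k * (u (n - k) - u (n - 1 - k)) ≤
          ∑ k ∈ Finset.range n, (σ * (if n - 2 * K ≤ k ∧ k < n - K then g k else 0) -
            β * (if n - K ≤ k then g k else 0)) := by
        apply Finset.sum_le_sum
        intro k hk
        have hk' := Finset.mem_range.1 hk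
        have hgk := hgn k hk'
        have hidx : n - 1 - k = (n - k) - 1 := by omega
        by_cases c1 : n - K ≤ k
        · rw [if_neg (by omega), if_pos c1]
          rw [hidx, hu1 (n - k) (by omega), hu1 (n - k - 1) (by omega)]
          have e3 : φ ^ (n - k) = φ ^ (n - k - 1) * φ := by
            rw [← pow_succ]; congr 1; omega
          have e4 : φ ^ (K - 1) ≤ φ ^ (n - k - 1) :=
            pow_le_pow_of_le_one hφ0.le hφ1.le (by omega)
          rw [e3]
          have e5 : β ≤ φ ^ (n - k - 1) * (1 - φ) := by
            rw [hβ, mul_comm]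
            exact mul_le_mul_of_nonneg_right e4 (by linarith)
          have e6 := mul_le_mul_of_nonneg_left e5 hgk
          nlinarith
        · by_cases c2 : n - 2 * K ≤ k
          · rw [if_pos ⟨c2, by omega⟩, if_neg c1, hidx]
            have := (hs1 (n - k) (by omega)).2
            have := mul_le_mul_of_nonneg_left this hgk
            linarith
          · rw [if_neg (by omega), if_neg c1, hidx, hs2 (n - k) (by omega)]
            simp
      refine e2.trans (le_of_eq ?_)
      rw [Finset.sum_sub_distrib, ← Finset.mul_sum, ← Finset.mul_sum]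
      have s1 : ∑ k ∈ Finset.range n, (if n - K ≤ k then g k else 0) = G n - G (n - K) := by
        rw [hG, hG, ← Finset.sum_range_add_sum_Ico g (show n - K ≤ n by omega),
          ← Finset.sum_filter]
        have : (Finset.range n).filter (fun k => n - K ≤ k) = Finset.Ico (n - K) n := by
          ext k; simp only [Finset.mem_filter, Finset.mem_range, Finset.mem_Ico]; omega
        rw [this]; ring
      have s2 : ∑ k ∈ Finset.range n, (if n - 2 * K ≤ k ∧ k < n - K then g k else 0) =
          G (n - K) - G (n - 2 * K) := by
        rw [hG, hG, ← Finset.sum_range_add_sum_Ico g (show n - 2 * K ≤ n - K by omega),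
          ← Finset.sum_filter]
        have : (Finset.range n).filter (fun k => n - 2 * K ≤ k ∧ k < n - K) =
            Finset.Ico (n - 2 * K) (n - K) := by
          ext k; simp only [Finset.mem_filter, Finset.mem_range, Finset.mem_Ico]; omega
        rw [this]; ring
      rw [s1, s2]
    linarith
  -- main induction
  have hmain : ∀ n, 0 ≤ g n ∧ (β / 2) * (G n - G (n - K)) ≤ g n := by
    intro n
    induction n using Nat.strong_induction_on with
    | _ n ih =>
      have hgn : ∀ k, k < n → 0 ≤ g k := fun k hk => (ih k hk).1
      have hmono : ∀ i j, i ≤ j → j ≤ n → G i ≤ G j := by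
        intro i j hij
        induction hij with
        | refl => intro _; exact le_rfl
        | step hij ihj =>
          rename_i j
          intro hjn
          have h1 := ihj (by omega)
          have h2 := hgn j (by omega)
          rw [hGsucc]
          linarith
      rcases Nat.lt_or_ge n (K + 1) with c | c
      · rw [hG0 n (by omega), hG0 (n - K) (by omega), hg, if_pos (by omega)]
        simp
      rcases Nat.eq_or_lt_of_le c with c | c
      · rw [← c, hG0 (K + 1) le_rfl, hG0 _ (by omega), hg, if_neg (by omega)]
        constructor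
        · linarith
        · rw [sub_self, mul_zero]; linarith
      · have hn2 : K + 2 ≤ n := c
        have hgren : g n = ren u n := by rw [hg, if_neg (by omega)]
        have hA : 0 ≤ G n - G (n - K) := by
          have := hmono (n - K) n (by omega) le_rfl
          linarith
        have hl := hlow n hn2 hgn
        suffices hsuff : (β / 2) * (G n - G (n - K)) ≤ g n from
          ⟨le_trans (by positivity) hsuff, hsuff⟩
        rw [hgren]
        refine le_trans ?_ hl
        have hs1' := (hs1 (n - 1) (by omega)).1
        have hs1'' : φ * (u (n - 1) - u (n - 1 - 1)) ≤ (u (n - 1) - u (n - 1 - 1)) := by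
          nlinarith
        rcases Nat.lt_or_ge n (2 * K + 2) with d | d
        · rw [hG0 (n - K) (by omega), hG0 (n - 2 * K) (by omega)]
          have h3 := hs3 n hn2
          have h4 : (1 - φ) * φ ^ K ≤ G n := by
            have := hmono (K + 2) n hn2 le_rfl
            rw [hGsucc, hG0 (K + 1) le_rfl, hg, if_neg (by omega)] at this
            linarith
          have h5 : δ ≤ (β / 2) * G n :=
            hδ.trans (mul_le_mul_of_nonneg_left h4 (by positivity))
          linarith
        · rw [hs2 n (by omega), hs2 (n - 1) (by omega)]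
          have hX : G (n - 2 * K) ≤ G (n - 2 * K + M) := hmono _ _ (by omega) (by omega)
          have hY : G (n - 2 * K + M) ≤ G (n - K) := hmono _ _ (by omega) (by omega)
          have w1 : ω * (G (n - 2 * K + M) - G (n - 2 * K)) ≤
              G (n - K) - G (n - 2 * K + M) := by
            have := sum_lower g (n - 2 * K + M) M
              ((β / 2) * (G (n - 2 * K + M) - G (n - 2 * K))) (by
                intro j hj1 hj2
                refine le_trans ?_ (ih j (by omega)).2
                apply mul_le_mul_of_nonneg_left _ (by positivity)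
                have a1 := hmono (n - 2 * K + M) j hj1 (by omega)
                have a2 := hmono (j - K) (n - 2 * K) (by omega) (by omega)
                linarith)
            rw [← hG, ← hG] at this
            rw [show n - 2 * K + M + M = n - K by omega] at this
            refine le_trans ?_ this
            rw [← mul_assoc]
            exact mul_le_mul_of_nonneg_right hωβ (by linarith)
          have w2 : ω * (G (n - K) - G (n - 2 * K + M)) ≤ G n - G (n - K) := by
            have := sum_lower g (n - K) M
              ((β / 2) * (G (n - K) - G (n - 2 * K + M))) (by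
                intro j hj1 hj2
                refine le_trans ?_ (ih j (by omega)).2
                apply mul_le_mul_of_nonneg_left _ (by positivity)
                have a1 := hmono (n - K) j hj1 (by omega)
                have a2 := hmono (j - K) (n - 2 * K + M) (by omega) (by omega)
                linarith)
            rw [← hG, ← hG] at this
            have a3 := hmono (n - K + M) n (by omega) le_rfl
            have a4 : ω * (G (n - K) - G (n - 2 * K + M)) ≤
                M * ((β / 2) * (G (n - K) - G (n - 2 * K + M))) := by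
              rw [← mul_assoc]
              exact mul_le_mul_of_nonneg_right hωβ (by linarith)
            linarith
          -- combine
          generalize G (n - 2 * K) = X at *
          generalize G (n - 2 * K + M) = Y at *
          generalize G (n - K) = Z at *
          generalize G n = W at *
          have k1 : ω ^ 2 * (Z - X) ≤ (1 + ω) * (W - Z) := by nlinarith
          have k2 : ω ^ 2 * (σ * (Z - X)) ≤ ω ^ 2 * ((β / 2) * (W - Z)) := by
            calc ω ^ 2 * (σ * (Z - X)) = σ * (ω ^ 2 * (Z - X)) := by ring
              _ ≤ σ * ((1 + ω) * (W - Z)) := mul_le_mul_of_nonneg_left k1 hσ0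
              _ = (σ * (1 + ω)) * (W - Z) := by ring
              _ ≤ ((β / 2) * ω ^ 2) * (W - Z) := mul_le_mul_of_nonneg_right hσω hA
              _ = ω ^ 2 * ((β / 2) * (W - Z)) := by ring
          have k3 := le_of_mul_le_mul_left k2 (by positivity)
          linarith
  intro n
  rw [hgf n]
  have := (hmain n).1
  split_ifs <;> linarith

end H19PF
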