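import Mathlib
import Pool.Agent.Helpers.H19PFunDefs
import Pool.Agent.Helpers.H19PFun1
import Pool.Agent.Helpers.H19PFun2
import Pool.Agent.Helpers.H19PFun3
import Pool.Agent.Helpers.H19PFun4

open MeasureTheory Filter Topology
open scoped NNReal

namespace H19PF

noncomputable def epsf (γ t : ℝ) : ℝ := γ * (1 - (max 0 (min 1 (2 - t))) ^ 2)

noncomputable def qf (a γ t : ℝ) : ℝ := Real.exp (-(a * min t 1)) * (1 + epsf γ t)

noncomputable def rf (l γ t : ℝ) : ℝ := Real.exp (-(l * min t 1)) / (1 + epsf γ t)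

lemma epsf_nonneg (γ t : ℝ) (hγ : 0 ≤ γ) : 0 ≤ epsf γ t := by
  unfold epsf
  apply mul_nonneg hγ
  have h1 : 0 ≤ max 0 (min 1 (2 - t)) := le_max_left _ _
  have h2 : max 0 (min 1 (2 - t)) ≤ 1 := max_le (by norm_num) (min_le_left _ _)
  nlinarith

lemma epsf_le (γ t : ℝ) (hγ : 0 ≤ γ) : epsf γ t ≤ γ := by
  unfold epsf
  have h1 : 0 ≤ (max 0 (min 1 (2 - t))) ^ 2 := by positivity
  nlinarith

lemma epsf_left (γ t : ℝ) (ht : t ≤ 1) : epsf γ t = 0 := by
  unfold epsf
  rw [min_eq_left (by linarith), max_eq_right (by norm_num)]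
  ring

lemma epsf_right (γ t : ℝ) (ht : 1 ≤ t) : epsf γ t = γ * (1 - (max 0 (2 - t)) ^ 2) := by
  unfold epsf
  rw [min_eq_right (by linarith)]

lemma epsf_far (γ t : ℝ) (ht : 2 ≤ t) : epsf γ t = γ := by
  rw [epsf_right γ t (by linarith), max_eq_left (by linarith)]
  ring

lemma epsf_cont (γ : ℝ) : Continuous (epsf γ) := by
  unfold epsf
  fun_prop

/-- second difference of the squared positive part -/
lemma sq_pos_diff (y h : ℝ) (hh : 0 ≤ h) :
    0 ≤ (max 0 (y - h)) ^ 2 + (max 0 (y + h)) ^ 2 - 2 * (max 0 y) ^ 2 ∧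
    (max 0 (y - h)) ^ 2 + (max 0 (y + h)) ^ 2 - 2 * (max 0 y) ^ 2 ≤ 2 * h ^ 2 := by
  rcases le_total 0 y with h1 | h1
  · rw [max_eq_right h1, max_eq_right (show (0:ℝ) ≤ y + h by linarith)]
    rcases le_total 0 (y - h) with h2 | h2
    · rw [max_eq_right h2]
      constructor <;> nlinarith
    · rw [max_eq_left h2]
      constructor <;> nlinarith
  · rw [max_eq_left h1, max_eq_left (show y - h ≤ 0 by linarith)]
    rcases le_total 0 (y + h) with h2 | h2
    · rw [max_eq_right h2]
      constructor <;> nlinarith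
    · rw [max_eq_left h2]
      constructor <;> nlinarith

lemma sq_pos_diff1 (x h : ℝ) (hh : 0 ≤ h) (hx : x + h ≤ 1) :
    0 ≤ (max 0 (x + h)) ^ 2 - (max 0 x) ^ 2 ∧
    (max 0 (x + h)) ^ 2 - (max 0 x) ^ 2 ≤ 2 * h := by
  rcases le_total 0 x with h1 | h1
  · rw [max_eq_right h1, max_eq_right (show (0:ℝ) ≤ x + h by linarith)]
    constructor <;> nlinarith
  · rw [max_eq_left h1]
    rcases le_total 0 (x + h) with h2 | h2
    · rw [max_eq_right h2]
      constructor <;> nlinarith
    · rw [max_eq_left h2]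
      constructor <;> nlinarith

lemma r_std (l γ : ℝ) (hγ : 0 ≤ γ) (hl : 2 * γ ≤ l) : IsStandard (fun t : ℝ≥0 => rf l γ t) := by
  have hl0 : 0 ≤ l := by linarith
  have hden : ∀ t, 0 < 1 + epsf γ t := fun t => by linarith [epsf_nonneg γ t hγ]
  have hpos : ∀ t, 0 < rf l γ t := fun t => div_pos (Real.exp_pos _) (hden t)
  refine criterion (rf l γ) ?_ ?_ ?_ (Real.exp (-l) / (1 + γ)) 2 (by positivity) ?_ ?_
  · unfold rf
    refine Continuous.div (by fun_prop) (continuous_const.add (epsf_cont γ))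
      (fun t => (hden t).ne')
  · unfold rf
    rw [epsf_left γ 0 (by norm_num)]
    simp
  · intro t ht
    refine ⟨(hpos t).le, ?_⟩
    unfold rf
    rw [div_le_one (hden t)]
    have h1 : Real.exp (-(l * min t 1)) ≤ 1 := by
      rw [Real.exp_le_one_iff]
      have : 0 ≤ l * min t 1 := mul_nonneg hl0 (le_min ht (by norm_num))
      linarith
    linarith [epsf_nonneg γ t hγ]
  · intro t ht
    unfold rf
    rw [epsf_far γ t ht, min_eq_right (by linarith), mul_one]
  · filter_upwards [eventually_ge_atTop 1] with M hM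
    have hM1 : (1:ℝ) ≤ M := by exact_mod_cast hM
    have hKpos : (0:ℝ) < 2 * M := by linarith
    apply kaluza
    · show rf l γ (((0:ℕ):ℝ) / (2 * M)) = 1
      unfold rf
      rw [Nat.cast_zero, zero_div, epsf_left γ 0 (by norm_num)]
      simp
    · intro n
      exact hpos _
    · intro n
      show rf l γ (((n + 1 : ℕ) : ℝ) / (2 * M)) ^ 2 ≤
        rf l γ ((n : ℝ) / (2 * M)) * rf l γ (((n + 2 : ℕ) : ℝ) / (2 * M))
      obtain ⟨h, hh⟩ : ∃ h : ℝ, h = 1 / (2 * M) := ⟨_, rfl⟩
      have hh0 : 0 < h := by rw [hh]; positivity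
      have hh1 : h ≤ 1 := by
        rw [hh, div_le_one hKpos]; linarith
      have hKh : 2 * M * h = 1 := by rw [hh]; field_simp
      obtain ⟨t, ht⟩ : ∃ t : ℝ, t = (n : ℝ) / (2 * M) := ⟨_, rfl⟩
      have e1 : ((n + 1 : ℕ) : ℝ) / (2 * M) = t + h := by
        rw [ht, hh]; push_cast; ring
      have e2 : ((n + 2 : ℕ) : ℝ) / (2 * M) = t + 2 * h := by
        rw [ht, hh]; push_cast; ring
      have e3 : t = n * h := by rw [ht, hh]; ring
      rw [e1, e2, ← ht]
      unfold rf
      rcases Nat.lt_or_ge n (2 * M) with c | c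
      · -- t + h ≤ 1
        have hth : t + h ≤ 1 := by
          rw [e3, ← hKh]
          have : (n : ℝ) + 1 ≤ 2 * M := by exact_mod_cast c
          nlinarith
        rw [min_eq_left hth, min_eq_left (show t ≤ 1 by linarith), epsf_left γ _ hth,
          epsf_left γ t (by linarith)]
        rcases Nat.lt_or_ge (n + 1) (2 * M) with d | d
        · have hth2 : t + 2 * h ≤ 1 := by
            rw [e3, ← hKh]
            have : (n : ℝ) + 2 ≤ 2 * M := by exact_mod_cast d
            nlinarith
          rw [min_eq_left hth2, epsf_left γ _ hth2]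
          simp only [add_zero, div_one]
          rw [← Real.exp_add, ← Real.exp_nat_mul]
          apply le_of_eq
          congr 1
          push_cast
          ring
        · have hn : n + 1 = 2 * M := by omega
          have ht1 : t + h = 1 := by
            rw [e3, ← hKh]
            have : (n : ℝ) + 1 = 2 * M := by exact_mod_cast hn
            rw [← this]; ring
          have ht2 : t + 2 * h = 1 + h := by linarith
          rw [ht2, min_eq_right (show (1:ℝ) ≤ 1 + h by linarith), ht1]
          have ht3 : t = 1 - h := by linarith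
          rw [ht3]
          simp only [add_zero, div_one, mul_one]
          have k1 : epsf γ (1 + h) ≤ l * h := by
            rw [epsf_right γ _ (by linarith)]
            have : max 0 (2 - (1 + h)) = 1 - h := by
              rw [max_eq_right (by linarith)]; ring
            rw [this]
            have q1 := mul_le_mul_of_nonneg_right hl hh0.le
            have q2 := mul_nonneg hγ (sq_nonneg h)
            have q3 : γ * (1 - (1 - h) ^ 2) = 2 * γ * h - γ * h ^ 2 := by ring
            rw [q3]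
            linarith
          have k2 : 1 + epsf γ (1 + h) ≤ Real.exp (l * h) := by
            have := Real.add_one_le_exp (l * h)
            linarith
          rw [← mul_div_assoc, le_div_iff₀ (hden _)]
          calc Real.exp (-l) ^ 2 * (1 + epsf γ (1 + h)) ≤ Real.exp (-l) ^ 2 * Real.exp (l * h) :=
                mul_le_mul_of_nonneg_left k2 (by positivity)
            _ = Real.exp (-(l * (1 - h))) * Real.exp (-l) := by
                rw [← Real.exp_nat_mul, ← Real.exp_add, ← Real.exp_add]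
                congr 1
                push_cast
                ring
      · -- 1 ≤ t
        have ht1 : 1 ≤ t := by
          rw [e3, ← hKh]
          have : (2:ℝ) * M ≤ n := by exact_mod_cast c
          nlinarith
        rw [min_eq_right (show (1:ℝ) ≤ t + h by linarith), min_eq_right ht1,
          min_eq_right (show (1:ℝ) ≤ t + 2 * h by linarith)]
        have k1 : epsf γ t + epsf γ (t + 2 * h) ≤ 2 * epsf γ (t + h) := by
          rw [epsf_right γ _ ht1, epsf_right γ (t + h) (by linarith),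
            epsf_right γ (t + 2 * h) (by linarith)]
          have := (sq_pos_diff (2 - (t + h)) h hh0.le).1
          rw [show 2 - (t + h) - h = 2 - (t + 2 * h) by ring,
            show 2 - (t + h) + h = 2 - t by ring] at this
          nlinarith
        have k2 : (1 + epsf γ t) * (1 + epsf γ (t + 2 * h)) ≤ (1 + epsf γ (t + h)) ^ 2 := by
          have p1 := epsf_nonneg γ t hγ
          have p2 := epsf_nonneg γ (t + h) hγ
          have p3 := epsf_nonneg γ (t + 2 * h) hγ
          generalize epsf γ t = x at *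
          generalize epsf γ (t + h) = y at *
          generalize epsf γ (t + 2 * h) = z at *
          nlinarith [sq_nonneg (x - z)]
        rw [div_pow, div_mul_div_comm, ← sq]
        exact div_le_div_of_nonneg_left (by positivity)
          (mul_pos (hden _) (hden _)) k2

lemma q_std (a γ ω : ℝ) (ha : 0 < a) (hγ : 0 ≤ γ) (hγa : γ ≤ a)
    (hω : ω = a * Real.exp (-a) / 4)
    (h1 : 4 * γ * (1 + ω) ≤ a * ω ^ 2) (h2 : 4 * γ ≤ a ^ 2 * Real.exp (-a) ^ 2) :
    IsStandard (fun t : ℝ≥0 => qf a γ t) := by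
  have hden : ∀ t, 0 < 1 + epsf γ t := fun t => by linarith [epsf_nonneg γ t hγ]
  have hpos : ∀ t, 0 < qf a γ t := fun t => mul_pos (Real.exp_pos _) (hden t)
  refine criterion (qf a γ) ?_ ?_ ?_ (Real.exp (-a) * (1 + γ)) 2 (by positivity) ?_ ?_
  · unfold qf
    exact Continuous.mul (by fun_prop) (continuous_const.add (epsf_cont γ))
  · unfold qf
    rw [epsf_left γ 0 (by norm_num)]
    simp
  · intro t ht
    refine ⟨(hpos t).le, ?_⟩
    unfold qf
    rcases le_total t 1 with c | c
    · rw [epsf_left γ t c, add_zero, mul_one, Real.exp_le_one_iff]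
      have : 0 ≤ a * min t 1 := mul_nonneg ha.le (le_min ht (by norm_num))
      linarith
    · rw [min_eq_right c, mul_one]
      have k1 : 1 + epsf γ t ≤ Real.exp a := by
        have := Real.add_one_le_exp a
        have := epsf_le γ t hγ
        linarith
      calc Real.exp (-a) * (1 + epsf γ t) ≤ Real.exp (-a) * Real.exp a :=
            mul_le_mul_of_nonneg_left k1 (Real.exp_pos _).le
        _ = 1 := by rw [← Real.exp_add]; simp
  · intro t ht
    unfold qf
    rw [epsf_far γ t ht, min_eq_right (by linarith), mul_one]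
  · filter_upwards [eventually_ge_atTop 1] with M hM
    have hM1 : (1:ℝ) ≤ M := by exact_mod_cast hM
    have hKpos : (0:ℝ) < 2 * M := by linarith
    obtain ⟨c, hc⟩ : ∃ c, c = Real.exp (-a) := ⟨_, rfl⟩
    have hc0 : 0 < c := by rw [hc]; exact Real.exp_pos _
    obtain ⟨h, hh⟩ : ∃ h : ℝ, h = 1 / (2 * M) := ⟨_, rfl⟩
    have hh0 : 0 < h := by rw [hh]; positivity
    have hh1 : h ≤ 1 := by
      rw [hh, div_le_one hKpos]; linarith
    have hKh : 2 * M * h = 1 := by rw [hh]; field_simp
    obtain ⟨φ, hφ⟩ : ∃ φ, φ = Real.exp (-(a * h)) := ⟨_, rfl⟩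
    have hφ0 : 0 < φ := by rw [hφ]; exact Real.exp_pos _
    have hah : 0 < a * h := mul_pos ha hh0
    have hφ1 : φ < 1 := by
      rw [hφ, Real.exp_lt_one_iff]; linarith
    have hφK : φ ^ (2 * M) = c := by
      rw [hφ, hc, ← Real.exp_nat_mul]
      congr 1
      push_cast
      have : 2 * (M:ℝ) * -(a * h) = -(a * (2 * M * h)) := by ring
      rw [this, hKh, mul_one]
    have hφφ : a * h * φ ≤ 1 - φ := by
      have h3 := Real.add_one_le_exp (a * h)
      have h4 : Real.exp (a * h) * φ = 1 := by rw [hφ, ← Real.exp_add]; simp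
      have h5 : (a * h + 1) * φ ≤ Real.exp (a * h) * φ := mul_le_mul_of_nonneg_right h3 hφ0.le
      rw [h4] at h5
      linarith
    have hcφ : c ≤ φ := by
      rw [← hφK]
      exact pow_le_of_le_one hφ0.le hφ1.le (by omega)
    obtain ⟨β, hβ⟩ : ∃ β, β = (1 - φ) * φ ^ (2 * M - 1) := ⟨_, rfl⟩
    have hβlow : a * h * c ≤ β := by
      rw [hβ, ← hφK]
      have e : φ ^ (2 * M) = φ * φ ^ (2 * M - 1) := by
        rw [← pow_succ']; congr 1; omega
      rw [e, ← mul_assoc]
      exact mul_le_mul_of_nonneg_right hφφ (pow_pos hφ0 _).le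
    have hcast : ∀ j : ℕ, (j : ℝ) / (2 * M) = j * h := by
      intro j; rw [hh]; ring
    have hright : ∀ j : ℕ, 2 * M ≤ j → qf a γ ((j : ℝ) / (2 * M)) =
        c * (1 + γ * (1 - (max 0 (2 - j * h)) ^ 2)) := by
      intro j hj
      rw [hcast]
      have : 1 ≤ (j : ℝ) * h := by
        rw [← hKh]
        have : (2:ℝ) * M ≤ j := by exact_mod_cast hj
        nlinarith
      unfold qf
      rw [epsf_right γ _ this, min_eq_right this, mul_one, hc]
    have hω0 : 0 < ω := by rw [hω]; positivity
    refine posC (fun j : ℕ => qf a γ ((j : ℝ) / (2 * M))) (2 * M) M rfl hM φ hφ0 hφ1 ?_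
      (2 * c * γ * h) (2 * c * γ * h ^ 2) ω β (by positivity) hω0 hβ ?_ ?_ ?_ ?_ ?_ ?_
    · intro j hj
      show qf a γ ((j : ℝ) / (2 * M)) = φ ^ j
      rw [hcast]
      have : (j : ℝ) * h ≤ 1 := by
        rw [← hKh]
        have : (j:ℝ) ≤ 2 * M := by exact_mod_cast hj
        nlinarith
      unfold qf
      rw [epsf_left γ _ this, min_eq_left this, hφ, ← Real.exp_nat_mul, add_zero, mul_one]
      congr 1
      ring
    · intro j hj
      show 0 ≤ qf a γ ((j : ℝ) / (2 * M)) - qf a γ (((j - 1 : ℕ) : ℝ) / (2 * M)) ∧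
        qf a γ ((j : ℝ) / (2 * M)) - qf a γ (((j - 1 : ℕ) : ℝ) / (2 * M)) ≤ 2 * c * γ * h
      rw [hright j (by omega), hright (j - 1) (by omega), Nat.cast_sub (by omega), Nat.cast_one]
      have k := sq_pos_diff1 (2 - j * h) h hh0.le (by
        have : (2:ℝ) * M + 1 ≤ j := by exact_mod_cast hj
        nlinarith)
      rw [show 2 - (j:ℝ) * h + h = 2 - (j - 1) * h by ring] at k
      have hcγ : 0 ≤ c * γ := by positivity
      constructor
      · have := mul_nonneg hcγ k.1
        nlinarith
      · have := mul_le_mul_of_nonneg_left k.2 hcγ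
        nlinarith
    · intro j hj
      show qf a γ ((j : ℝ) / (2 * M)) - qf a γ (((j - 1 : ℕ) : ℝ) / (2 * M)) = 0
      rw [hright j (by omega), hright (j - 1) (by omega), Nat.cast_sub (by omega), Nat.cast_one]
      have k : (2:ℝ) * (2 * M) + 1 ≤ j := by exact_mod_cast hj
      rw [max_eq_left, max_eq_left]
      · ring
      · have : 2 = 2 * (2 * M) * h := by rw [mul_assoc, hKh]; ring
        nlinarith
      · have : 2 = 2 * (2 * M) * h := by rw [mul_assoc, hKh]; ring
        nlinarith
    · intro j hj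
      show -(2 * c * γ * h ^ 2) ≤ (qf a γ ((j : ℝ) / (2 * M)) -
        qf a γ (((j - 1 : ℕ) : ℝ) / (2 * M))) - (qf a γ (((j - 1 : ℕ) : ℝ) / (2 * M)) -
        qf a γ (((j - 1 - 1 : ℕ) : ℝ) / (2 * M)))
      have c1 : ((j - 1 : ℕ) : ℝ) = j - 1 := by rw [Nat.cast_sub (by omega), Nat.cast_one]
      have c2 : ((j - 1 - 1 : ℕ) : ℝ) = j - 1 - 1 := by
        rw [Nat.cast_sub (by omega), c1, Nat.cast_one]
      rw [hright j (by omega), hright (j - 1) (by omega), hright (j - 1 - 1) (by omega), c1, c2]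
      have k := (sq_pos_diff (2 - (j - 1) * h) h hh0.le).2
      rw [show 2 - ((j:ℝ) - 1) * h - h = 2 - j * h by ring,
        show 2 - ((j:ℝ) - 1) * h + h = 2 - (j - 1 - 1) * h by ring] at k
      have hcγ : 0 ≤ c * γ := by positivity
      have := mul_le_mul_of_nonneg_left k hcγ
      nlinarith
    · rw [hφK]
      have k1 : a * h * c ≤ 1 - φ := by
        have := mul_le_mul_of_nonneg_left hcφ hah.le
        linarith
      have k2 : (a * h * c / 2) * (a * h * c * c) ≤ β / 2 * ((1 - φ) * c) := by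
        apply mul_le_mul
        · linarith
        · exact mul_le_mul_of_nonneg_right k1 hc0.le
        · positivity
        · have : 0 < a * h * c := by positivity
          linarith
      refine le_trans ?_ k2
      rw [← hc] at h2
      have k3 : 0 ≤ c * h ^ 2 / 2 := by positivity
      calc 2 * c * γ * h ^ 2 = (c * h ^ 2 / 2) * (4 * γ) := by ring
        _ ≤ (c * h ^ 2 / 2) * (a ^ 2 * c ^ 2) := mul_le_mul_of_nonneg_left h2 k3
        _ = (a * h * c / 2) * (a * h * c * c) := by ring
    · rw [hω, ← hc]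
      have e : a * c / 4 = M * ((a * h * c) / 2) := by
        have : M * ((a * h * c) / 2) = (a * c / 4) * (2 * M * h) := by ring
        rw [this, hKh, mul_one]
      rw [e]
      exact mul_le_mul_of_nonneg_left (by linarith) (by positivity)
    · have k1 : (a * h * c / 2) * ω ^ 2 ≤ β / 2 * ω ^ 2 :=
        mul_le_mul_of_nonneg_right (by linarith) (by positivity)
      refine le_trans ?_ k1
      have k3 : 0 ≤ c * h / 2 := by positivity
      calc 2 * c * γ * h * (1 + ω) = (c * h / 2) * (4 * γ * (1 + ω)) := by ring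
        _ ≤ (c * h / 2) * (a * ω ^ 2) := mul_le_mul_of_nonneg_left h1 k3
        _ = (a * h * c / 2) * ω ^ 2 := by ring

/-- For every `Λ > 0` there is a non-infinitely-divisible factor of `exp(-Λ min(1,t))`. -/
lemma exists_factor (L : ℝ) (hL : 0 < L) : ∃ a γ : ℝ, 0 < a ∧ 0 < γ ∧
    IsStandard (fun t : ℝ≥0 => qf a γ t) ∧ IsStandard (fun t : ℝ≥0 => rf (L - a) γ t) := by
  obtain ⟨a, ha⟩ : ∃ a, a = L / 2 := ⟨_, rfl⟩
  have ha0 : 0 < a := by rw [ha]; positivity
  obtain ⟨ω, hω⟩ : ∃ ω, ω = a * Real.exp (-a) / 4 := ⟨_, rfl⟩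
  have hω0 : 0 < ω := by rw [hω]; positivity
  obtain ⟨γ, hγ⟩ : ∃ γ, γ = min (min (a / 2) (a * ω ^ 2 / (4 * (1 + ω))))
    (a ^ 2 * Real.exp (-a) ^ 2 / 4) := ⟨_, rfl⟩
  have hγ0 : 0 < γ := by
    rw [hγ]
    refine lt_min (lt_min ?_ ?_) ?_ <;> positivity
  have g1 : γ ≤ a / 2 := by rw [hγ]; exact (min_le_left _ _).trans (min_le_left _ _)
  have g2 : γ ≤ a * ω ^ 2 / (4 * (1 + ω)) := by
    rw [hγ]; exact (min_le_left _ _).trans (min_le_right _ _)
  have g3 : γ ≤ a ^ 2 * Real.exp (-a) ^ 2 / 4 := by rw [hγ]; exact min_le_right _ _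
  refine ⟨a, γ, ha0, hγ0, q_std a γ ω ha0 hγ0.le (by linarith) hω ?_ (by linarith),
    r_std _ _ hγ0.le (by rw [ha] at *; linarith)⟩
  rw [le_div_iff₀ (by positivity)] at g2
  linarith

lemma qr_mul (L a γ t : ℝ) (hγ : 0 ≤ γ) :
    Real.exp (-(L * min t 1)) = qf a γ t * rf (L - a) γ t := by
  unfold qf rf
  have : 1 + epsf γ t ≠ 0 := by
    have := epsf_nonneg γ t hγ
    positivity
  field_simp
  rw [← Real.exp_add]
  congr 1
  ring

end H19PF
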