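import Mathlib
import Pool.Agent.Helpers.H19PFunDefs
import Pool.Agent.Helpers.H19PFun1
import Pool.Agent.Helpers.H19PFun3
import Pool.Agent.Helpers.H19PFun5

open MeasureTheory Filter Topology
open scoped NNReal

namespace H19PF

lemma pTrunc_eq (l τ t : ℝ≥0) (hτ : 0 < τ) :
    pTrunc l τ t = Real.exp (-(((l * τ : ℝ≥0) : ℝ) * min ((τ⁻¹ * t : ℝ≥0) : ℝ) 1)) := by
  unfold pTrunc
  congr 2
  have h1 : (0:ℝ) < τ := by exact_mod_cast hτ
  push_cast
  rw [mul_assoc]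
  congr 1
  rw [mul_min_of_nonneg _ _ h1.le, mul_one, ← mul_assoc, mul_inv_cancel₀ h1.ne', one_mul, min_comm]

lemma one_std : IsStandard (fun _ : ℝ≥0 => (1:ℝ)) := by
  have := r_std 0 0 le_rfl (by norm_num)
  have h : (fun t : ℝ≥0 => rf 0 0 t) = fun _ : ℝ≥0 => (1:ℝ) := by
    funext t
    simp [rf, epsf]
  rwa [h] at this

lemma pTrunc_std (l τ : ℝ≥0) : IsStandard (pTrunc l τ) := by
  rcases eq_or_lt_of_le (zero_le : 0 ≤ τ) with h | h
  · have : pTrunc l τ = fun _ : ℝ≥0 => (1:ℝ) := by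
      funext t
      rw [← h]
      unfold pTrunc
      simp
    rw [this]
    exact one_std
  · have h1 := std_scale _ (r_std ((l * τ : ℝ≥0) : ℝ) 0 le_rfl (by
      rw [mul_zero]; exact NNReal.coe_nonneg _)) τ⁻¹
    have h2 : pTrunc l τ = fun t : ℝ≥0 => (fun t : ℝ≥0 => rf ((l * τ : ℝ≥0) : ℝ) 0 t) (τ⁻¹ * t) := by
      funext t
      rw [pTrunc_eq l τ t h]
      simp [rf, epsf]
    rw [h2]
    exact h1

lemma pTrunc_factor (l τ : ℝ≥0) (hl : 0 < l) (hτ : 0 < τ) :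
    ∃ q : ℝ≥0 → ℝ, IsFactor q (pTrunc l τ) ∧ ¬ InfDiv q := by
  have hL : (0:ℝ) < ((l * τ : ℝ≥0) : ℝ) := by
    exact_mod_cast mul_pos hl hτ
  obtain ⟨a, γ, ha, hγ, hq, hr⟩ := exists_factor _ hL
  refine ⟨fun t => qf a γ ((τ⁻¹ * t : ℝ≥0) : ℝ), ⟨std_scale _ hq τ⁻¹,
    fun t => rf (((l * τ : ℝ≥0) : ℝ) - a) γ ((τ⁻¹ * t : ℝ≥0) : ℝ), std_scale _ hr τ⁻¹, ?_⟩, ?_⟩
  · intro t
    rw [pTrunc_eq l τ t hτ]
    exact qr_mul _ _ _ _ hγ.le
  · refine not_infDiv _ τ a (Real.log (1 + γ)) ha (Real.log_pos (by linarith)) ?_ ?_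
    · show qf a γ ((τ⁻¹ * τ : ℝ≥0) : ℝ) = _
      rw [inv_mul_cancel₀ hτ.ne']
      unfold qf
      rw [NNReal.coe_one, epsf_left γ 1 le_rfl, min_self, mul_one, add_zero, mul_one]
    · show qf a γ ((τ⁻¹ * (τ + τ) : ℝ≥0) : ℝ) = _
      have : τ⁻¹ * (τ + τ) = 2 := by
        rw [mul_add, inv_mul_cancel₀ hτ.ne']
        norm_num
      rw [this]
      unfold qf
      rw [NNReal.coe_ofNat, epsf_far γ 2 le_rfl, min_eq_right (by norm_num), mul_one,
        Real.exp_add, Real.exp_log (by linarith)]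

theorem main :
    (∀ l τ : ℝ≥0, IsStandard (pTrunc l τ)) ∧
    (∀ l τ : ℝ≥0, 0 < l → 0 < τ → ∃ q : ℝ≥0 → ℝ, IsFactor q (pTrunc l τ) ∧ ¬ InfDiv q) ∧
    (∀ l τ : ℝ≥0, InI0 (pTrunc l τ) ↔ l * τ = 0) := by
  refine ⟨pTrunc_std, pTrunc_factor, ?_⟩
  intro l τ
  constructor
  · intro h
    by_contra hne
    have h1 : 0 < l := by
      rcases eq_or_lt_of_le (zero_le : 0 ≤ l) with h | h
      · exact absurd (by rw [← h, zero_mul]) hne
      · exact h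
    have h2 : 0 < τ := by
      rcases eq_or_lt_of_le (zero_le : 0 ≤ τ) with h | h
      · exact absurd (by rw [← h, mul_zero]) hne
      · exact h
    obtain ⟨q, hq, hq2⟩ := pTrunc_factor l τ h1 h2
    exact hq2 (h.2 q hq)
  · intro h
    refine ⟨pTrunc_std l τ, ?_⟩
    rintro q ⟨hq, r, hr, hqr⟩ n hn
    refine ⟨fun _ => 1, one_std, ?_⟩
    intro t
    have hp1 : pTrunc l τ t = 1 := by
      rcases mul_eq_zero.1 h with h | h
      · rw [h]; unfold pTrunc; simp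
      · rw [h]; unfold pTrunc; simp
    have h3 := hqr t
    rw [hp1] at h3
    have h4 := hq.1.1 t
    have h5 := hr.1.1 t
    have h6 : q t = 1 := by
      apply le_antisymm h4.2
      calc (1:ℝ) = q t * r t := h3
        _ ≤ q t * 1 := mul_le_mul_of_nonneg_left h5.2 h4.1
        _ = q t := mul_one _
    rw [h6, one_pow]

end H19PF
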