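import Pool.Agent.Helpers.H19AsdC

/-!
The group `FreeGroup A ⋊ A` (the free product of `A` with `ℤ`) and its Cayley graph; the group
of maps from `Fin 5` to `H`.
-/

namespace Pool.Agent.Helpers.H19Asd

open SemidirectProduct

section Free

variable {A : Type} [Group A]

/-- `A` acts on the free group with basis `A` by left translation of the basis. -/
noncomputable def phi (A : Type) [Group A] : A →* MulAut (FreeGroup A) where
  toFun a := FreeGroup.freeGroupCongr (Equiv.mulLeft a)
  map_one' := by
    ext w
    have : (Equiv.mulLeft (1 : A)) = Equiv.refl A := by ext x; simp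
    rw [this]
    simp
  map_mul' a b := by
    have : (Equiv.mulLeft (a * b)) = (Equiv.mulLeft b).trans (Equiv.mulLeft a) := by
      ext x; simp [mul_assoc]
    rw [this, ← FreeGroup.freeGroupCongr_trans]
    rfl

theorem phi_of (a x : A) : phi A a (FreeGroup.of x) = FreeGroup.of (a * x) := by
  simp [phi]

/-- The group. -/
abbrev GG (A : Type) [Group A] : Type := FreeGroup A ⋊[phi A] A

/-- The stable letter. -/
noncomputable def st (A : Type) [Group A] : GG A := inl (FreeGroup.of 1)

/-- Generators. -/
def gensG (S : Set A) : Set (GG A) := {st A} ∪ (inr '' S)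

theorem gensG_closure {S : Set A} (hS : Subgroup.closure S = ⊤) :
    Subgroup.closure (gensG S) = ⊤ := by
  obtain ⟨L, hL⟩ : ∃ L, L = Subgroup.closure (gensG S) := ⟨_, rfl⟩
  rw [← hL]
  have hsub : gensG S ⊆ L := hL ▸ Subgroup.subset_closure
  have h1 : ∀ a : A, (inr a : GG A) ∈ L := by
    intro a
    have h2 : (⊤ : Subgroup A).map (inr : A →* GG A) ≤ L := by
      rw [← hS, MonoidHom.map_closure, Subgroup.closure_le]
      exact fun g hg => hsub (Or.inr hg)
    exact h2 ⟨a, Subgroup.mem_top a, rfl⟩
  have h3 : ∀ a : A, (inl (FreeGroup.of a) : GG A) ∈ L := by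
    intro a
    have h4 := inl_aut (φ := phi A) a (FreeGroup.of 1)
    rw [phi_of, mul_one] at h4
    rw [h4]
    exact L.mul_mem (L.mul_mem (h1 a) (hsub (Or.inl rfl))) (h1 a⁻¹)
  have h5 : ∀ w : FreeGroup A, (inl w : GG A) ∈ L := by
    intro w
    have h6 : (⊤ : Subgroup (FreeGroup A)).map (inl : FreeGroup A →* GG A) ≤ L := by
      rw [← FreeGroup.closure_range_of, MonoidHom.map_closure, Subgroup.closure_le]
      rintro _ ⟨_, ⟨a, rfl⟩, rfl⟩
      exact h3 a
    exact h6 ⟨w, Subgroup.mem_top w, rfl⟩
  rw [eq_top_iff]
  intro g _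
  rw [← inl_left_mul_inr_right g]
  exact L.mul_mem (h5 _) (h1 _)

theorem right_dist {S : Set A} (hS : Subgroup.closure S = ⊤) (g h : GG A) :
    (cayley S).dist g.right h.right ≤ (cayley (gensG S)).dist g h := by
  apply hom_lipschitz (gensG_closure hS) hS rightHom
  rintro s (hs | ⟨t, ht, rfl⟩)
  · left
    rw [Set.mem_singleton_iff.1 hs]
    exact rightHom_inl _
  · right
    rw [rightHom_inr]
    exact ht

theorem inr_dist {S : Set A} (hS : Subgroup.closure S = ⊤) (a b : A) :
    (cayley (gensG S)).dist (inr a : GG A) (inr b) ≤ (cayley S).dist a b := by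
  apply hom_lipschitz hS (gensG_closure hS) inr
  intro s hs
  exact Or.inr (Or.inr ⟨s, hs, rfl⟩)

/-- Exponent sum of the free part. -/
noncomputable def expo (g : GG A) : ℤ :=
  Multiplicative.toAdd (FreeGroup.lift (fun _ : A => Multiplicative.ofAdd (1 : ℤ)) g.left)

theorem expo_mul_st (g : GG A) : expo (g * st A) = expo g + 1 := by
  simp [expo, st, phi_of]

theorem expo_mul_inr (g : GG A) (a : A) : expo (g * inr a) = expo g := by
  simp [expo]

theorem expo_dist {S : Set A} (hS : Subgroup.closure S = ⊤) (g h : GG A) :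
    |expo g - expo h| ≤ (cayley (gensG S)).dist g h := by
  have step : ∀ u v : GG A, u⁻¹ * v ∈ gensG S → |expo u - expo v| ≤ 1 := by
    intro u v huv
    have hv : v = u * (u⁻¹ * v) := by simp
    rcases huv with h1 | ⟨t, ht, h1⟩
    · rw [Set.mem_singleton_iff.1 h1] at hv
      rw [hv, expo_mul_st]; simp
    · rw [← h1] at hv
      rw [hv, expo_mul_inr]; simp
  have key : ∀ (u v : GG A) (p : (cayley (gensG S)).Walk u v), |expo u - expo v| ≤ p.length := by
    intro u v p
    induction p with
    | nil => simp
    | @cons u w v hadj p ih =>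
      have h1 : |expo u - expo w| ≤ 1 := by
        rcases hadj.2 with h | h
        · exact step _ _ h
        · rw [abs_sub_comm]; exact step _ _ h
      rw [SimpleGraph.Walk.length_cons]
      have h2 := abs_sub_le (expo u) (expo w) (expo v)
      push_cast
      omega
  obtain ⟨p, hp⟩ := (cayley_connected (gensG_closure hS)).exists_walk_length_eq_dist g h
  rw [← hp]
  exact key g h p

open Classical in
/-- The elements whose free part starts with the stable letter. -/
def Branch (g : GG A) : Prop := ((g.left)⁻¹).toWord.getLast? = some ((1 : A), false)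

open Classical in
theorem getLast_step (x : A × Bool) (u : FreeGroup A) (hu : u ≠ 1)
    (hu' : FreeGroup.mk [x] * u ≠ 1) :
    (FreeGroup.mk [x] * u).toWord.getLast? = u.toWord.getLast? := by
  have h1 : FreeGroup.mk [x] * u = FreeGroup.mk (x :: u.toWord) := by
    conv_lhs => rw [← FreeGroup.mk_toWord (x := u)]
    rfl
  rw [h1] at hu' ⊢
  rw [FreeGroup.toWord_mk, FreeGroup.reduce.cons, FreeGroup.reduce_toWord]
  have hne : u.toWord ≠ [] := fun h => hu (FreeGroup.toWord_eq_nil_iff.1 h)
  have hne' : FreeGroup.reduce (x :: u.toWord) ≠ [] := by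
    intro h
    apply hu'
    rw [← FreeGroup.toWord_eq_nil_iff, FreeGroup.toWord_mk]
    exact h
  rw [FreeGroup.reduce.cons, FreeGroup.reduce_toWord] at hne'
  cases hw : u.toWord with
  | nil => exact absurd hw hne
  | cons hd tl =>
    rw [hw] at hne'
    simp only at hne' ⊢
    split_ifs with hc
    · rw [if_pos hc] at hne'
      cases tl with
      | nil => exact absurd rfl hne'
      | cons z tl => simp
    · simp

open Classical in
theorem branch_mul_st (g : GG A) (hg : g ≠ 1) : Branch (g * st A) ↔ Branch g := by
  have e1 : (g * st A).left = g.left * FreeGroup.of g.right := by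
    simp [st, phi_of]
  have e2 : ((g * st A).left)⁻¹ = FreeGroup.mk [(g.right, false)] * (g.left)⁻¹ := by
    rw [e1, mul_inv_rev]
    rfl
  unfold Branch
  rw [e2]
  by_cases h1 : (g.left)⁻¹ = 1
  · rw [h1, mul_one, FreeGroup.toWord_one]
    have hr : g.right ≠ 1 := by
      intro hr
      apply hg
      ext1
      · rw [inv_eq_one] at h1; exact h1
      · exact hr
    have e3 : (FreeGroup.mk [(g.right, false)]).toWord = [(g.right, false)] := by
      rw [FreeGroup.toWord_mk]; rfl
    rw [e3]
    simp [hr]
  · by_cases h2 : FreeGroup.mk [(g.right, false)] * (g.left)⁻¹ = 1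
    · rw [h2, FreeGroup.toWord_one]
      have e4 : (g.left)⁻¹ = FreeGroup.of g.right := by
        have : FreeGroup.mk [(g.right, false)] = (FreeGroup.of g.right)⁻¹ := rfl
        rw [this, inv_mul_eq_one] at h2
        exact h2.symm
      rw [e4, FreeGroup.toWord_of]
      simp
    · rw [getLast_step _ _ h1 h2]

theorem branch_mul_inr (g : GG A) (a : A) : Branch (g * inr a) ↔ Branch g := by
  unfold Branch
  simp

theorem branch_walk {S : Set A} {x y : GG A} (p : (cayley (gensG S)).Walk x y)
    (hp : ∀ v ∈ p.support, v ≠ 1) : Branch x ↔ Branch y := by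
  have step : ∀ u v : GG A, u ≠ 1 → u⁻¹ * v ∈ gensG S → (Branch u ↔ Branch v) := by
    intro u v hu huv
    have hv : v = u * (u⁻¹ * v) := by simp
    rcases huv with h1 | ⟨t, ht, h1⟩
    · rw [Set.mem_singleton_iff.1 h1] at hv
      rw [hv, branch_mul_st u hu]
    · rw [← h1] at hv
      rw [hv, branch_mul_inr]
  induction p with
  | nil => exact Iff.rfl
  | @cons u w v hadj p ih =>
    have h1 := ih (fun v hv => hp v (by simp [hv]))
    have hu : u ≠ 1 := hp u (by simp)
    have hw : w ≠ 1 := hp w (by simp)
    rcases hadj.2 with h | h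
    · exact (step _ _ hu h).trans h1
    · exact (step _ _ hw h).symm.trans h1

theorem not_branch_inr (a : A) : ¬ Branch (inr a : GG A) := by
  unfold Branch
  simp

theorem branch_pow (n : ℕ) (hn : 0 < n) : Branch ((st A) ^ n) := by
  classical
  have e1 : ((st A) ^ n).left = FreeGroup.of 1 ^ n := by
    have : (st A) ^ n = inl (FreeGroup.of 1 ^ n) := by rw [map_pow]; rfl
    rw [this]
    rfl
  unfold Branch
  rw [e1, FreeGroup.toWord_inv, FreeGroup.toWord_of_pow]
  obtain ⟨k, rfl⟩ : ∃ k, n = k + 1 := ⟨n - 1, by omega⟩
  simp [FreeGroup.invRev, List.getLast?_replicate]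

theorem expo_pow (n : ℕ) : expo ((st A) ^ n) = n := by
  induction n with
  | zero => simp [expo]
  | succ n ih => rw [pow_succ, expo_mul_st, ih]; push_cast; ring

theorem expo_inr (a : A) : expo (inr a : GG A) = 0 := by simp [expo]

end Free

section Pi

variable {H : Type} [Group H] {S : Set H}

/-- Generators of the group of maps `Fin 5 → H`. -/
def gensP (S : Set H) : Set (Fin 5 → H) := ⋃ i, (Pi.mulSingle i) '' S

theorem gensP_finite (hS : S.Finite) : (gensP S).Finite :=
  Set.finite_iUnion fun i => hS.image (Pi.mulSingle i)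

theorem gensP_closure (hS : Subgroup.closure S = ⊤) : Subgroup.closure (gensP S) = ⊤ := by
  rw [eq_top_iff]
  have h1 : Subgroup.pi Set.univ (fun _ : Fin 5 => (⊤ : Subgroup H)) ≤
      Subgroup.closure (gensP S) := by
    rw [Subgroup.pi_le_iff]
    intro i
    rw [← hS, MonoidHom.map_closure, Subgroup.closure_le]
    rintro _ ⟨s, hs, rfl⟩
    exact Subgroup.subset_closure (Set.mem_iUnion.2 ⟨i, s, hs, rfl⟩)
  intro a _
  exact h1 (by simp [Subgroup.mem_pi])

theorem coord_dist (hS : Subgroup.closure S = ⊤) (i : Fin 5) (a b : Fin 5 → H) :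
    (cayley S).dist (a i) (b i) ≤ (cayley (gensP S)).dist a b := by
  apply hom_lipschitz (gensP_closure hS) hS (Pi.evalMonoidHom _ i)
  intro s hs
  obtain ⟨j, t, ht, rfl⟩ := Set.mem_iUnion.1 hs
  by_cases hij : i = j
  · subst hij
    right
    simpa using ht
  · left
    simp [Pi.mulSingle_eq_of_ne hij]

theorem update_dist (hS : Subgroup.closure S = ⊤) (i : Fin 5) (a : Fin 5 → H) (h h' : H) :
    (cayley (gensP S)).dist (Function.update a i h) (Function.update a i h') ≤
      (cayley S).dist h h' := by
  apply lipschitz (cayley_connected hS) (cayley_connected (gensP_closure hS))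
    (fun h => Function.update a i h)
  intro u v huv
  have key : ∀ u v : H, (Function.update a i u)⁻¹ * Function.update a i v =
      Pi.mulSingle i (u⁻¹ * v) := by
    intro u v
    funext j
    by_cases hj : j = i
    · subst hj; simp
    · simp [hj]
  refine Or.inr ⟨?_, ?_⟩
  · intro he
    have := congrFun he i
    simp only [Function.update_self] at this
    exact huv.1 this
  · rw [key, key]
    rcases huv.2 with h | h
    · exact Or.inl (Set.mem_iUnion.2 ⟨i, _, h, rfl⟩)
    · exact Or.inr (Set.mem_iUnion.2 ⟨i, _, h, rfl⟩)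

theorem pi_dist_le (hS : Subgroup.closure S = ⊤) (a b : Fin 5 → H) :
    (cayley (gensP S)).dist a b ≤ ∑ i, (cayley S).dist (a i) (b i) := by
  have key : ∀ s : Finset (Fin 5), (cayley (gensP S)).dist a (s.piecewise b a) ≤
      ∑ i ∈ s, (cayley S).dist (a i) (b i) := by
    intro s
    induction s using Finset.induction_on with
    | empty => simp
    | @insert i s his ih =>
      rw [Finset.sum_insert his, Finset.piecewise_insert]
      have h1 := (cayley_connected (gensP_closure hS)).dist_triangle (u := a)
        (v := s.piecewise b a) (w := Function.update (s.piecewise b a) i (b i))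
      have h2 := update_dist hS i (s.piecewise b a) (a i) (b i)
      have h3 : Function.update (s.piecewise b a) i (a i) = s.piecewise b a := by
        funext j
        by_cases hj : j = i
        · subst hj; simp [his]
        · simp [hj]
      rw [h3] at h2
      omega
  have := key Finset.univ
  simpa using this

end Pi

end Pool.Agent.Helpers.H19Asd
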