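import Mathlib

/-!
`FreeGroup A ⋊ A` has no free abelian subgroup of rank two when `A` is a torsion group.
-/

namespace Pool.Agent.Helpers.H19Asd

theorem of_ne_comm {X : Type} {s t : X} (h : s ≠ t) :
    FreeGroup.of s * FreeGroup.of t ≠ FreeGroup.of t * FreeGroup.of s := by
  classical
  intro he
  let f : X → Equiv.Perm (Fin 3) := fun z => if z = s then Equiv.swap 0 1 else Equiv.swap 1 2
  have h1 := congrArg (FreeGroup.lift f) he
  rw [map_mul, map_mul, FreeGroup.lift_apply_of, FreeGroup.lift_apply_of] at h1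
  have hs : f s = Equiv.swap 0 1 := if_pos rfl
  have ht : f t = Equiv.swap 1 2 := if_neg (Ne.symm h)
  rw [hs, ht] at h1
  exact absurd h1 (by decide)

theorem comm_free {A : Type} {u v : FreeGroup A} (huv : u * v = v * u) :
    ∃ (w : FreeGroup A) (a b : ℤ), u = w ^ a ∧ v = w ^ b := by
  classical
  let H : Subgroup (FreeGroup A) := Subgroup.closure {u, v}
  have hu : u ∈ H := Subgroup.subset_closure (Or.inl rfl)
  have hv : v ∈ H := Subgroup.subset_closure (Or.inr rfl)
  have hcomm : ∀ x ∈ H, ∀ y ∈ H, x * y = y * x := by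
    have hc : ∀ x ∈ ({u, v} : Set (FreeGroup A)), ∀ y ∈ ({u, v} : Set (FreeGroup A)),
        x * y = y * x := by
      rintro x (rfl | hx) y (rfl | hy)
      · rfl
      · rw [Set.mem_singleton_iff] at hy; subst hy; exact huv
      · rw [Set.mem_singleton_iff] at hx; subst hx; exact huv.symm
      · rw [Set.mem_singleton_iff] at hx hy; subst hx; subst hy; rfl
    intro x hx y hy
    have := (Subgroup.closureCommGroupOfComm hc).mul_comm (⟨x, hx⟩ : H) ⟨y, hy⟩
    exact congrArg Subtype.val this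
  let e : H ≃* FreeGroup (IsFreeGroup.Generators H) := IsFreeGroup.toFreeGroup H
  have hcomm' : ∀ x y : FreeGroup (IsFreeGroup.Generators H), x * y = y * x := by
    intro x y
    obtain ⟨x, rfl⟩ := e.surjective x
    obtain ⟨y, rfl⟩ := e.surjective y
    rw [← map_mul, ← map_mul]
    congr 1
    exact Subtype.ext (hcomm x.1 x.2 y.1 y.2)
  have hsub : ∀ s t : IsFreeGroup.Generators H, s = t := by
    intro s t
    by_contra h
    exact of_ne_comm h (hcomm' _ _)
  have hcyc : ∃ w : FreeGroup (IsFreeGroup.Generators H), ∀ x, x ∈ Subgroup.zpowers w := by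
    rcases isEmpty_or_nonempty (IsFreeGroup.Generators H) with hE | ⟨⟨s⟩⟩
    · refine ⟨1, fun x => ?_⟩
      have : x = 1 := by
        have hx : x ∈ Subgroup.closure (Set.range (FreeGroup.of : IsFreeGroup.Generators H → _)) := by
          rw [FreeGroup.closure_range_of]; exact Subgroup.mem_top _
        rw [Set.range_eq_empty, Subgroup.closure_empty] at hx
        exact Subgroup.mem_bot.1 hx
      rw [this]
      exact one_mem _
    · refine ⟨FreeGroup.of s, fun x => ?_⟩
      have hx : x ∈ Subgroup.closure (Set.range (FreeGroup.of : IsFreeGroup.Generators H → _)) := by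
        rw [FreeGroup.closure_range_of]; exact Subgroup.mem_top _
      have hr : Set.range (FreeGroup.of : IsFreeGroup.Generators H → _) ⊆
          (Subgroup.zpowers (FreeGroup.of s) : Set _) := by
        rintro _ ⟨t, rfl⟩
        rw [hsub t s]
        exact Subgroup.mem_zpowers _
      exact (Subgroup.closure_le _).2 hr hx
  obtain ⟨w, hw⟩ := hcyc
  obtain ⟨a, ha⟩ := Subgroup.mem_zpowers_iff.1 (hw (e ⟨u, hu⟩))
  obtain ⟨b, hb⟩ := Subgroup.mem_zpowers_iff.1 (hw (e ⟨v, hv⟩))
  refine ⟨(e.symm w : H), a, b, ?_, ?_⟩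
  · have h1 : e.symm (w ^ a) = ⟨u, hu⟩ := by rw [ha]; exact e.symm_apply_apply _
    rw [map_zpow] at h1
    have := congrArg Subtype.val h1
    simpa using this.symm
  · have h1 : e.symm (w ^ b) = ⟨v, hv⟩ := by rw [hb]; exact e.symm_apply_apply _
    rw [map_zpow] at h1
    have := congrArg Subtype.val h1
    simpa using this.symm

theorem no_rank_two {A : Type} [Group A] (hA : ∀ a : A, ∃ n : ℕ, 0 < n ∧ a ^ n = 1)
    (φ : A →* MulAut (FreeGroup A)) (x y : FreeGroup A ⋊[φ] A) (hxy : x * y = y * x) :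
    ∃ m n : ℤ, (m ≠ 0 ∨ n ≠ 0) ∧ x ^ m * y ^ n = 1 := by
  have key : ∀ z : FreeGroup A ⋊[φ] A, ∃ p : ℕ, 0 < p ∧ ∃ u : FreeGroup A,
      z ^ p = SemidirectProduct.inl u := by
    intro z
    obtain ⟨p, hp, h⟩ := hA z.right
    refine ⟨p, hp, (z ^ p).left, ?_⟩
    have h1 : (z ^ p).right = 1 := by
      have : SemidirectProduct.rightHom (z ^ p) = 1 := by
        rw [map_pow]; exact h
      exact this
    ext1
    · simp
    · rw [h1]; simp
  obtain ⟨p, hp, u, hu⟩ := key x
  obtain ⟨q, hq, v, hv⟩ := key y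
  have hcomm : (x ^ p) * (y ^ q) = (y ^ q) * (x ^ p) := by
    have : Commute x y := hxy
    exact (this.pow_pow p q)
  have huv : u * v = v * u := by
    rw [hu, hv, ← map_mul, ← map_mul] at hcomm
    exact SemidirectProduct.inl_injective hcomm
  obtain ⟨w, a, b, h1, h2⟩ := comm_free huv
  by_cases hab : a = 0 ∧ b = 0
  · refine ⟨p, 0, Or.inl (by exact_mod_cast hp.ne'), ?_⟩
    rw [zpow_zero, mul_one, zpow_natCast, hu, h1, hab.1, zpow_zero, map_one]
  · refine ⟨p * b, -(q * a), ?_, ?_⟩
    · by_cases hb : b = 0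
      · right
        have ha : a ≠ 0 := fun h => hab ⟨h, hb⟩
        have : (q : ℤ) ≠ 0 := by exact_mod_cast hq.ne'
        exact neg_ne_zero.2 (mul_ne_zero this ha)
      · left
        have : (p : ℤ) ≠ 0 := by exact_mod_cast hp.ne'
        exact mul_ne_zero this hb
    · rw [zpow_neg, zpow_mul, zpow_mul, zpow_natCast, zpow_natCast, hu, hv, h1, h2,
        ← map_zpow, ← map_zpow, ← zpow_mul, ← zpow_mul, mul_comm b a]
      exact mul_inv_cancel _

end Pool.Agent.Helpers.H19Asd
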