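import Pool.Agent.Helpers.H19AsdC

/-!
Geodesic rays in infinite Cayley graphs.
-/

namespace Pool.Agent.Helpers.H19Asd

theorem exists_ray {G : Type*} [Group G] {S : Set G} (hfin : S.Finite)
    (hS : Subgroup.closure S = ⊤) [Infinite G] :
    ∃ r : ℕ → G, r 0 = 1 ∧ ∀ i j, i ≤ j → (cayley S).dist (r i) (r j) = j - i := by
  classical
  have hc := cayley_connected hS
  -- extendable elements
  let Ext : G → Prop := fun g =>
    {h : G | (cayley S).dist 1 h = (cayley S).dist 1 g + (cayley S).dist g h}.Infinite
  have hone : Ext 1 := by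
    have : {h : G | (cayley S).dist 1 h = (cayley S).dist 1 1 + (cayley S).dist 1 h} = Set.univ := by
      ext h; simp
    change Set.Infinite _
    rw [this]
    exact Set.infinite_univ
  have step : ∀ g : {g : G // Ext g}, ∃ g' : {g : G // Ext g}, (cayley S).Adj g.1 g'.1 ∧
      (cayley S).dist 1 g'.1 = (cayley S).dist 1 g.1 + 1 := by
    rintro ⟨g, hg⟩
    have hnb : {g' : G | (cayley S).Adj g g'}.Finite := by
      apply ((hfin.union hfin.inv).image (fun s => g * s)).subset
      intro g' hg'
      refine ⟨g⁻¹ * g', ?_, by simp⟩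
      rcases hg'.2 with h1 | h1
      · exact Or.inl h1
      · right
        rw [Set.mem_inv]
        simpa using h1
    have hcov : {h : G | (cayley S).dist 1 h = (cayley S).dist 1 g + (cayley S).dist g h} ⊆
        {g} ∪ ⋃ g' ∈ {g' : G | (cayley S).Adj g g'},
          {h : G | (cayley S).dist 1 g' = (cayley S).dist 1 g + 1 ∧
            (cayley S).dist 1 h = (cayley S).dist 1 g' + (cayley S).dist g' h} := by
      intro h hh
      by_cases hgh : h = g
      · left; exact hgh
      · right
        obtain ⟨p, hp⟩ := hc.exists_walk_length_eq_dist g h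
        cases p with
        | nil => exact absurd rfl hgh
        | @cons _ w _ hadj p =>
          rw [SimpleGraph.Walk.length_cons] at hp
          refine Set.mem_biUnion (show w ∈ {g' : G | (cayley S).Adj g g'} from hadj) ?_
          have h1 := SimpleGraph.dist_le p
          have h2 : (cayley S).dist g w ≤ 1 := (SimpleGraph.dist_eq_one_iff_adj.2 hadj).le
          have h3 := hc.dist_triangle (u := 1) (v := g) (w := w)
          have h4 := hc.dist_triangle (u := 1) (v := w) (w := h)
          have h5 : (cayley S).dist 1 h = (cayley S).dist 1 g + (cayley S).dist g h := hh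
          constructor <;> omega
    by_contra hcon
    push Not at hcon
    apply hg
    refine Set.Finite.subset ((Set.finite_singleton g).union (hnb.biUnion ?_)) hcov
    intro g' hg'
    by_cases hd : (cayley S).dist 1 g' = (cayley S).dist 1 g + 1
    · by_contra hinf
      have hE : Ext g' := by
        change Set.Infinite _
        apply Set.Infinite.mono _ hinf
        intro h hh
        exact hh.2
      exact hcon ⟨g', hE⟩ hg' hd
    · convert Set.finite_empty
      ext h
      simp [hd]
  choose nxt hn1 hn2 using step
  let r' : ℕ → {g : G // Ext g} := fun n => Nat.rec ⟨1, hone⟩ (fun _ g => nxt g) n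
  have hr0 : (r' 0).1 = 1 := rfl
  have hrs : ∀ n, r' (n + 1) = nxt (r' n) := fun n => rfl
  have hd : ∀ n, (cayley S).dist 1 (r' n).1 = n := by
    intro n
    induction n with
    | zero => rw [hr0]; simp
    | succ n ih => rw [hrs, hn2, ih]
  have hup : ∀ i k, (cayley S).dist (r' i).1 (r' (i + k)).1 ≤ k := by
    intro i k
    induction k with
    | zero => simp
    | succ k ih =>
      have h1 : (cayley S).dist (r' (i + k)).1 (r' (i + (k + 1))).1 ≤ 1 := by
        rw [show i + (k + 1) = (i + k) + 1 by ring, hrs]
        exact (SimpleGraph.dist_eq_one_iff_adj.2 (hn1 _)).le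
      have h2 := hc.dist_triangle (u := (r' i).1) (v := (r' (i + k)).1) (w := (r' (i + (k + 1))).1)
      omega
  refine ⟨fun n => (r' n).1, rfl, ?_⟩
  intro i j hij
  obtain ⟨k, rfl⟩ := Nat.exists_eq_add_of_le hij
  have h1 := hup i k
  have h2 := hc.dist_triangle (u := 1) (v := (r' i).1) (w := (r' (i + k)).1)
  rw [hd, hd] at h2
  change (cayley S).dist (r' i).1 (r' (i + k)).1 = i + k - i
  omega

end Pool.Agent.Helpers.H19Asd
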