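import Mathlib

/-!
Sperner's lemma in all dimensions for the standard triangulation of a cubical grid, with
simplices written as lists and all counts in `ZMod 2`.
-/

namespace Pool.Agent.Helpers.H19bS

open Classical

section Chain

variable {X Y : Type}

/-- Sum of `φ` over the lists obtained by deleting one entry. -/
def bd : (List X → ZMod 2) → List X → ZMod 2
  | _, [] => 0
  | φ, v :: L => φ L + bd (fun M => φ (v :: M)) L

/-- Sum of `φ` over the simplices of the prism. -/
def pr (f g : X → Y) : (List Y → ZMod 2) → List X → ZMod 2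
  | _, [] => 0
  | φ, v :: L => φ (f v :: g v :: L.map g) + pr f g (fun M => φ (f v :: M)) L

theorem bd_add (φ χ : List X → ZMod 2) (L : List X) :
    bd (fun M => φ M + χ M) L = bd φ L + bd χ L := by
  induction L generalizing φ χ with
  | nil => simp [bd]
  | cons v L ih =>
    simp only [bd]
    rw [ih]
    ring

theorem pr_add (f g : X → Y) (φ χ : List Y → ZMod 2) (L : List X) :
    pr f g (fun M => φ M + χ M) L = pr f g φ L + pr f g χ L := by
  induction L generalizing φ χ with
  | nil => simp [pr]
  | cons v L ih =>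
    simp only [pr]
    rw [ih]
    ring

theorem bd_map (g : X → Y) (φ : List Y → ZMod 2) (L : List X) :
    bd φ (L.map g) = bd (fun M => φ (M.map g)) L := by
  induction L generalizing φ with
  | nil => simp [bd]
  | cons v L ih =>
    simp only [bd, List.map_cons]
    rw [ih]

theorem two (a : ZMod 2) : a + a = 0 := CharTwo.add_self_eq_zero a

theorem pr_bd (f g : X → Y) (ψ : List Y → ZMod 2) (L : List X) :
    pr f g (bd ψ) L = bd (pr f g ψ) L + ψ (L.map g) + ψ (L.map f) := by
  induction L generalizing ψ with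
  | nil => simp [pr, bd, two]
  | cons v L ih =>
    have e1 : pr f g (bd ψ) (v :: L) = bd ψ (f v :: g v :: L.map g) +
        pr f g (fun M => bd ψ (f v :: M)) L := rfl
    have e2 : bd ψ (f v :: g v :: L.map g) = ψ (g v :: L.map g) + (ψ (f v :: L.map g) +
        bd (fun M => ψ (f v :: g v :: M)) (L.map g)) := rfl
    have e3 : pr f g (fun M => bd ψ (f v :: M)) L =
        pr f g (fun M => ψ M + bd (fun M' => ψ (f v :: M')) M) L := rfl
    have e4 : bd (pr f g ψ) (v :: L) = pr f g ψ L +
        bd (fun M => ψ (f v :: g v :: M.map g) + pr f g (fun M' => ψ (f v :: M')) M) L := rfl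
    rw [e1, e2, e3, e4, pr_add, bd_add, bd_map]
    have e5 := ih (fun M' => ψ (f v :: M'))
    have e6 : pr f g (bd fun M' => ψ (f v :: M')) L =
      pr f g (fun M => bd (fun M' => ψ (f v :: M')) M) L := rfl
    rw [e6] at e5
    rw [e5]
    have e7 := two (ψ (f v :: L.map g))
    simp only [List.map_cons]
    linear_combination e7

theorem bd_ind (r : List ℕ) (p L : List ℕ) :
    bd (fun M => if (p ++ M).Perm r then (1 : ZMod 2) else 0) L =
      (L.map (fun y => if (p ++ L).Perm (y :: r) then (1 : ZMod 2) else 0)).sum := by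
  induction L generalizing p with
  | nil => simp [bd]
  | cons v L ih =>
    have e1 : bd (fun M => if (p ++ M).Perm r then (1 : ZMod 2) else 0) (v :: L) =
      (if (p ++ L).Perm r then (1 : ZMod 2) else 0) +
      bd (fun M => if (p ++ v :: M).Perm r then (1 : ZMod 2) else 0) L := rfl
    have e2 : (fun M : List ℕ => if (p ++ v :: M).Perm r then (1 : ZMod 2) else 0) =
      (fun M => if ((p ++ [v]) ++ M).Perm r then (1 : ZMod 2) else 0) := by
      funext M; simp
    have e3 : (p ++ L).Perm r ↔ (p ++ v :: L).Perm (v :: r) := by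
      constructor
      · intro h
        exact List.perm_middle.trans (h.cons v)
      · intro h
        exact List.perm_cons v |>.1 (List.perm_middle.symm.trans h)
    rw [e1, e2, ih, List.map_cons, List.sum_cons]
    simp only [e3, List.append_assoc, List.singleton_append, List.cons_append, List.nil_append]

theorem local_identity (n : ℕ) (a : List ℕ) (ha : ∀ x ∈ a, x ≤ n + 1) :
    bd (fun M => if M.Perm (List.range (n + 1)) then (1 : ZMod 2) else 0) a =
      if a.Perm (List.range (n + 2)) then 1 else 0 := by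
  have h0 := bd_ind (List.range (n + 1)) [] a
  simp only [List.nil_append] at h0
  rw [h0]
  have hperm : List.Perm (List.range (n + 2)) ((n + 1) :: List.range (n + 1)) := by
    rw [List.range_succ]
    exact List.perm_append_singleton (n + 1) (List.range (n + 1))
  by_cases hx : ∃ x ∈ a, a.Perm (x :: List.range (n + 1))
  · obtain ⟨x, hxa, hx⟩ := hx
    have h1 : ∀ y, a.Perm (y :: List.range (n + 1)) ↔ y = x := by
      intro y
      constructor
      · intro h
        have h2 := (h.symm.trans hx).sum_eq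
        simpa using h2
      · intro h; rw [h]; exact hx
    have h2 : (a.map (fun y => if a.Perm (y :: List.range (n + 1)) then (1 : ZMod 2) else 0)).sum =
        (a.count x : ZMod 2) := by
      have : ∀ b : List ℕ, (b.map (fun y => if a.Perm (y :: List.range (n + 1)) then
          (1 : ZMod 2) else 0)).sum = (b.count x : ZMod 2) := by
        intro b
        induction b with
        | nil => simp
        | cons z b ih =>
          rw [List.map_cons, List.sum_cons, ih, List.count_cons]
          simp only [h1]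
          by_cases hz : z = x <;> simp [hz, add_comm]
      exact this a
    have h3 : a.count x = 1 + (if x < n + 1 then 1 else 0) := by
      rw [hx.count_eq, List.count_cons_self, List.count_range]
      ring
    rw [h2, h3]
    have hxn := ha x hxa
    by_cases hlt : x < n + 1
    · rw [if_pos hlt, if_neg]
      · push_cast; exact two 1
      · intro h
        have := (h1 (n + 1)).1 (h.trans hperm)
        omega
    · rw [if_neg hlt, if_pos]
      · simp
      · have : x = n + 1 := by omega
        rw [this] at hx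
        exact hx.trans hperm.symm
  · rw [if_neg]
    · have : ∀ b : List ℕ, (∀ y ∈ b, y ∈ a) → (b.map (fun y =>
          if a.Perm (y :: List.range (n + 1)) then (1 : ZMod 2) else 0)).sum = 0 := by
        intro b hb
        apply List.sum_eq_zero
        intro z hz
        obtain ⟨y, hy, rfl⟩ := List.mem_map.1 hz
        rw [if_neg]
        intro h
        exact hx ⟨y, hb y hy, h⟩
      exact this a (fun y hy => hy)
    · intro h
      apply hx
      refine ⟨n + 1, ?_, h.trans hperm⟩
      exact (h.trans hperm).symm.subset List.mem_cons_self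

end Chain

/-- Put the value `j` in coordinate `n`. -/
def upd (n j : ℕ) (v : ℕ → ℕ) : ℕ → ℕ := Function.update v n j

/-- Sum of `φ` over the simplices of the standard triangulation of `[0, m]^n`. -/
noncomputable def T (m : ℕ) : ℕ → (List (ℕ → ℕ) → ZMod 2) → ZMod 2
  | 0, φ => φ [fun _ => 0]
  | n + 1, φ => ∑ j ∈ Finset.range m, T m n (pr (upd n j) (upd n (j + 1)) φ)

/-- Vertices of the grid `[0, m]^n`. -/
def InGrid (m n : ℕ) (v : ℕ → ℕ) : Prop := (∀ i < n, v i ≤ m) ∧ ∀ i, n ≤ i → v i = 0

/-- Lists with `n + 1` entries inside a unit cube of the grid. -/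
def Good (m n : ℕ) (L : List (ℕ → ℕ)) : Prop :=
  L.length = n + 1 ∧ ∃ b : ℕ → ℕ, (∀ i < n, b i < m) ∧
    ∀ v ∈ L, (∀ i < n, v i = b i ∨ v i = b i + 1) ∧ ∀ i, n ≤ i → v i = 0

theorem Good.inGrid {m n : ℕ} {L : List (ℕ → ℕ)} (h : Good m n L) : ∀ v ∈ L, InGrid m n v := by
  obtain ⟨-, b, hb, hv⟩ := h
  intro v hvL
  refine ⟨fun i hi => ?_, (hv v hvL).2⟩
  have := hb i hi
  rcases (hv v hvL).1 i hi with h | h <;> omega

/-- The lists occurring in a prism over `L`. -/
theorem pr_ne_zero {X Y : Type} (f g : X → Y) (φ : List Y → ZMod 2) (L : List X)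
    (h : pr f g φ L ≠ 0) : ∃ M : List Y, φ M ≠ 0 ∧ M.length = L.length + 1 ∧
      ∀ y ∈ M, ∃ x ∈ L, y = f x ∨ y = g x := by
  induction L generalizing φ with
  | nil => exact absurd rfl h
  | cons v L ih =>
    by_cases h1 : φ (f v :: g v :: L.map g) = 0
    · have h2 : pr f g (fun M => φ (f v :: M)) L ≠ 0 := by
        intro h3
        apply h
        change φ (f v :: g v :: L.map g) + pr f g (fun M => φ (f v :: M)) L = 0
        rw [h1, h3, add_zero]
      obtain ⟨M, hM1, hM2, hM3⟩ := ih _ h2
      refine ⟨f v :: M, hM1, by simp [hM2], ?_⟩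
      intro y hy
      rcases List.mem_cons.1 hy with hy | hy
      · exact ⟨v, List.mem_cons_self, Or.inl hy⟩
      · obtain ⟨x, hx, h'⟩ := hM3 y hy
        exact ⟨x, List.mem_cons_of_mem _ hx, h'⟩
    · refine ⟨_, h1, by simp, ?_⟩
      intro y hy
      rcases List.mem_cons.1 hy with hy | hy
      · exact ⟨v, List.mem_cons_self, Or.inl hy⟩
      rcases List.mem_cons.1 hy with hy | hy
      · exact ⟨v, List.mem_cons_self, Or.inr hy⟩
      obtain ⟨x, hx, rfl⟩ := List.mem_map.1 hy
      exact ⟨x, List.mem_cons_of_mem _ hx, Or.inr rfl⟩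

theorem upd_same (n j : ℕ) (v : ℕ → ℕ) : upd n j v n = j := by simp [upd]
theorem upd_ne {n j i : ℕ} (h : i ≠ n) (v : ℕ → ℕ) : upd n j v i = v i := by simp [upd, h]

theorem T_ne_zero (m n : ℕ) (φ : List (ℕ → ℕ) → ZMod 2) (h : T m n φ ≠ 0) :
    ∃ L, Good m n L ∧ φ L ≠ 0 := by
  induction n generalizing φ with
  | zero => exact ⟨[fun _ => 0], ⟨rfl, fun _ => 0, by simp, by simp⟩, h⟩
  | succ n ih =>
    obtain ⟨j, hj, hT⟩ := Finset.exists_ne_zero_of_sum_ne_zero (h : (∑ j ∈ Finset.range m,
      T m n (pr (upd n j) (upd n (j + 1)) φ)) ≠ 0)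
    obtain ⟨L, ⟨hlen, b, hb, hv⟩, hL⟩ := ih _ hT
    obtain ⟨M, hM1, hM2, hM3⟩ := pr_ne_zero _ _ _ _ hL
    refine ⟨M, ⟨by omega, upd n j b, ?_, ?_⟩, hM1⟩
    · intro i hi
      by_cases hin : i = n
      · subst hin; rw [upd_same]; exact Finset.mem_range.1 hj
      · rw [upd_ne hin]; exact hb i (by omega)
    · intro v hvM
      obtain ⟨x, hx, h'⟩ := hM3 v hvM
      obtain ⟨h1, h2⟩ := hv x hx
      refine ⟨fun i hi => ?_, fun i hi => ?_⟩
      · by_cases hin : i = n
        · subst hin
          rw [upd_same]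
          rcases h' with h' | h' <;> rw [h', upd_same] <;> simp
        · rw [upd_ne hin]
          rcases h' with h' | h' <;> rw [h', upd_ne hin] <;> exact h1 i (by omega)
      · rcases h' with h' | h' <;> rw [h', upd_ne (by omega)] <;> exact h2 i (by omega)

theorem T_add (m n : ℕ) (φ χ : List (ℕ → ℕ) → ZMod 2) :
    T m n (fun L => φ L + χ L) = T m n φ + T m n χ := by
  induction n generalizing φ χ with
  | zero => rfl
  | succ n ih =>
    change (∑ j ∈ Finset.range m, T m n (pr (upd n j) (upd n (j + 1)) fun L => φ L + χ L)) =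
      (∑ j ∈ Finset.range m, T m n (pr (upd n j) (upd n (j + 1)) φ)) +
      ∑ j ∈ Finset.range m, T m n (pr (upd n j) (upd n (j + 1)) χ)
    rw [← Finset.sum_add_distrib]
    apply Finset.sum_congr rfl
    intro j _
    rw [← ih]
    congr 1
    funext L
    exact pr_add _ _ _ _ _

theorem T_eq_zero (m n : ℕ) (φ : List (ℕ → ℕ) → ZMod 2) (h : ∀ L, Good m n L → φ L = 0) :
    T m n φ = 0 := by
  by_contra hne
  obtain ⟨L, hL, h'⟩ := T_ne_zero m n φ hne
  exact h' (h L hL)

theorem T_congr (m n : ℕ) (φ χ : List (ℕ → ℕ) → ZMod 2) (h : ∀ L, Good m n L → φ L = χ L) :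
    T m n φ = T m n χ := by
  have h1 : T m n (fun L => φ L + χ L) = 0 := by
    apply T_eq_zero
    intro L hL
    rw [h L hL]
    exact two _
  rw [T_add] at h1
  have h2 := two (T m n χ)
  linear_combination h1 - h2

theorem telescope (m : ℕ) (a : ℕ → ZMod 2) :
    ∑ j ∈ Finset.range m, (a (j + 1) + a j) = a m + a 0 := by
  induction m with
  | zero => simp [two]
  | succ m ih =>
    rw [Finset.sum_range_succ, ih]
    linear_combination two (a m)

theorem T_bd (m n : ℕ) (ψ : List (ℕ → ℕ) → ZMod 2) :
    T m (n + 1) (bd ψ) = (∑ j ∈ Finset.range m, T m n (bd (pr (upd n j) (upd n (j + 1)) ψ))) +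
      (T m n (fun L => ψ (L.map (upd n m))) + T m n (fun L => ψ (L.map (upd n 0)))) := by
  rw [← telescope m (fun j => T m n (fun L => ψ (L.map (upd n j)))), ← Finset.sum_add_distrib]
  change (∑ j ∈ Finset.range m, T m n (pr (upd n j) (upd n (j + 1)) (bd ψ))) = _
  apply Finset.sum_congr rfl
  intro j _
  rw [← T_add, ← T_add]
  congr 1
  funext L
  rw [pr_bd]
  ring

/-- The lists in one of the coordinate faces. -/
def InFace (m n : ℕ) (L : List (ℕ → ℕ)) : Prop :=
  (∀ v ∈ L, InGrid m n v) ∧ ∃ i < n, (∀ v ∈ L, v i = 0) ∨ (∀ v ∈ L, v i = m)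

theorem inGrid_upd {m n j : ℕ} (hj : j ≤ m) {v : ℕ → ℕ} (hv : InGrid m n v) :
    InGrid m (n + 1) (upd n j v) := by
  refine ⟨fun i hi => ?_, fun i hi => ?_⟩
  · by_cases hin : i = n
    · subst hin; rw [upd_same]; exact hj
    · rw [upd_ne hin]; exact hv.1 i (by omega)
  · rw [upd_ne (by omega)]; exact hv.2 i (by omega)

theorem pr_inFace {m n j : ℕ} (hj : j < m) {ψ : List (ℕ → ℕ) → ZMod 2}
    (h : ∀ L, InFace m (n + 1) L → ψ L = 0) (L : List (ℕ → ℕ)) (hL : InFace m n L) :
    pr (upd n j) (upd n (j + 1)) ψ L = 0 := by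
  by_contra hne
  obtain ⟨M, hM1, hM2, hM3⟩ := pr_ne_zero _ _ _ _ hne
  apply hM1
  apply h
  obtain ⟨hg, i, hi, hor⟩ := hL
  refine ⟨?_, i, by omega, ?_⟩
  · intro v hv
    obtain ⟨x, hx, h'⟩ := hM3 v hv
    rcases h' with h' | h' <;> rw [h'] <;> exact inGrid_upd (by omega) (hg x hx)
  · rcases hor with hor | hor
    · left
      intro v hv
      obtain ⟨x, hx, h'⟩ := hM3 v hv
      rcases h' with h' | h' <;> rw [h', upd_ne (by omega)] <;> exact hor x hx
    · right
      intro v hv
      obtain ⟨x, hx, h'⟩ := hM3 v hv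
      rcases h' with h' | h' <;> rw [h', upd_ne (by omega)] <;> exact hor x hx

theorem T_bd_zero (m n : ℕ) (χ : List (ℕ → ℕ) → ZMod 2) (h0 : χ [] = 0)
    (h : ∀ L, InFace m n L → χ L = 0) : T m n (bd χ) = 0 := by
  induction n generalizing χ with
  | zero =>
    change χ [] + 0 = 0
    rw [h0, add_zero]
  | succ n ih =>
    rw [T_bd]
    have h1 : ∀ j ∈ Finset.range m, T m n (bd (pr (upd n j) (upd n (j + 1)) χ)) = 0 := by
      intro j hj
      exact ih _ rfl (pr_inFace (Finset.mem_range.1 hj) h)
    rw [Finset.sum_eq_zero h1, T_eq_zero m n (fun L => χ (L.map (upd n m))),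
      T_eq_zero m n (fun L => χ (L.map (upd n 0)))]
    · simp
    · intro L hL
      apply h
      refine ⟨?_, n, by omega, Or.inl ?_⟩
      · intro v hv
        obtain ⟨x, hx, rfl⟩ := List.mem_map.1 hv
        exact inGrid_upd (by omega) (hL.inGrid x hx)
      · intro v hv
        obtain ⟨x, hx, rfl⟩ := List.mem_map.1 hv
        exact upd_same _ _ _
    · intro L hL
      apply h
      refine ⟨?_, n, by omega, Or.inr ?_⟩
      · intro v hv
        obtain ⟨x, hx, rfl⟩ := List.mem_map.1 hv
        exact inGrid_upd le_rfl (hL.inGrid x hx)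
      · intro v hv
        obtain ⟨x, hx, rfl⟩ := List.mem_map.1 hv
        exact upd_same _ _ _

/-- Indicator of the lists whose labels are exactly `0, …, n`. -/
noncomputable def R (n : ℕ) (l : (ℕ → ℕ) → ℕ) (L : List (ℕ → ℕ)) : ZMod 2 :=
  if (L.map l).Perm (List.range (n + 1)) then 1 else 0

theorem sperner (m n : ℕ) (l : (ℕ → ℕ) → ℕ) (h1 : ∀ v, InGrid m n v → l v ≤ n)
    (h2 : ∀ v, InGrid m n v → ∀ i < n, v i = 0 → l v ≠ i)
    (h3 : ∀ v, InGrid m n v → ∀ i < n, v i = m → l v ≤ i) : T m n (R n l) = 1 := by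
  induction n generalizing l with
  | zero =>
    change R 0 l [fun _ => 0] = 1
    have : l (fun _ => 0) = 0 := by
      have := h1 (fun _ => 0) ⟨by simp, by simp⟩
      omega
    simp [R, this]
  | succ n ih =>
    have hc : T m (n + 1) (R (n + 1) l) = T m (n + 1) (bd (R n l)) := by
      apply T_congr
      intro L hL
      have h4 := local_identity n (L.map l) (by
        intro x hx
        obtain ⟨v, hv, rfl⟩ := List.mem_map.1 hx
        exact h1 v (hL.inGrid v hv))
      rw [bd_map] at h4
      exact h4.symm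
    have hface : ∀ L : List (ℕ → ℕ), (∀ v ∈ L, InGrid m (n + 1) v) → ((∃ i < n + 1, ∀ v ∈ L, v i = 0) ∨
        (∃ i < n, ∀ v ∈ L, v i = m)) → R n l L = 0 := by
      intro L hg hor
      rw [R, if_neg]
      intro hp
      rcases hor with ⟨i, hi, h0⟩ | ⟨i, hi, hm⟩
      · have : i ∈ L.map l := hp.symm.subset (List.mem_range.2 hi)
        obtain ⟨v, hv, hvi⟩ := List.mem_map.1 this
        exact h2 v (hg v hv) i hi (h0 v hv) hvi
      · have : n ∈ L.map l := hp.symm.subset (List.mem_range.2 (by omega))
        obtain ⟨v, hv, hvi⟩ := List.mem_map.1 this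
        have := h3 v (hg v hv) i (by omega) (hm v hv)
        omega
    rw [hc, T_bd]
    have e1 : ∀ j ∈ Finset.range m, T m n (bd (pr (upd n j) (upd n (j + 1)) (R n l))) = 0 := by
      intro j hj
      apply T_bd_zero _ _ _ rfl
      intro L hL
      by_contra hne
      obtain ⟨M, hM1, hM2, hM3⟩ := pr_ne_zero _ _ _ _ hne
      apply hM1
      obtain ⟨hg, i, hi, hor⟩ := hL
      have hjm := Finset.mem_range.1 hj
      apply hface
      · intro v hv
        obtain ⟨x, hx, h'⟩ := hM3 v hv
        rcases h' with h' | h' <;> rw [h'] <;> exact inGrid_upd (by omega) (hg x hx)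
      · rcases hor with hor | hor
        · left
          refine ⟨i, by omega, ?_⟩
          intro v hv
          obtain ⟨x, hx, h'⟩ := hM3 v hv
          rcases h' with h' | h' <;> rw [h', upd_ne (by omega)] <;> exact hor x hx
        · right
          refine ⟨i, hi, ?_⟩
          intro v hv
          obtain ⟨x, hx, h'⟩ := hM3 v hv
          rcases h' with h' | h' <;> rw [h', upd_ne (by omega)] <;> exact hor x hx
    have e2 : T m n (fun L => R n l (L.map (upd n 0))) = 0 := by
      apply T_eq_zero
      intro L hL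
      apply hface
      · intro v hv
        obtain ⟨x, hx, rfl⟩ := List.mem_map.1 hv
        exact inGrid_upd (by omega) (hL.inGrid x hx)
      · left
        refine ⟨n, by omega, ?_⟩
        intro v hv
        obtain ⟨x, hx, rfl⟩ := List.mem_map.1 hv
        exact upd_same _ _ _
    have e3 : T m n (fun L => R n l (L.map (upd n m))) = 1 := by
      have e4 : (fun L : List (ℕ → ℕ) => R n l (L.map (upd n m))) = R n (l ∘ upd n m) := by
        funext L
        simp [R, List.map_map]
      rw [e4]
      apply ih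
      · intro v hv
        exact h3 _ (inGrid_upd le_rfl hv) n (by omega) (upd_same _ _ _)
      · intro v hv i hi h0
        exact h2 _ (inGrid_upd le_rfl hv) i (by omega) (by rw [upd_ne (by omega)]; exact h0)
      · intro v hv i hi h0
        exact h3 _ (inGrid_upd le_rfl hv) i (by omega) (by rw [upd_ne (by omega)]; exact h0)
    rw [Finset.sum_eq_zero e1, e2, e3]
    simp

/-- Lebesgue's covering theorem for grids: if points of the grid `[0, D + 1]^n` with the same
label differ by at most `D` in every coordinate, then some unit cube has `n + 1` vertices with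
different labels. -/
theorem lebesgue {α : Type*} (n D : ℕ) (lab : (ℕ → ℕ) → α)
    (h : ∀ x y, InGrid (D + 1) n x → InGrid (D + 1) n y → lab x = lab y →
      ∀ i < n, x i ≤ y i + D) :
    ∃ (b : ℕ → ℕ) (L : List (ℕ → ℕ)), (∀ i < n, b i < D + 1) ∧ L.length = n + 1 ∧
      (∀ v ∈ L, (∀ i < n, v i = b i ∨ v i = b i + 1) ∧ ∀ i, n ≤ i → v i = 0) ∧
      (L.map lab).Nodup := by
  obtain ⟨hit, hhit⟩ : ∃ hit : α → ℕ → Prop, ∀ c i, hit c i ↔
      ∃ x, InGrid (D + 1) n x ∧ lab x = c ∧ x i = 0 := ⟨_, fun _ _ => Iff.rfl⟩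
  obtain ⟨lc, hlc⟩ : ∃ lc : α → ℕ, ∀ c, lc c ≤ n ∧ (∀ i < lc c, hit c i) ∧
      (lc c < n → ¬ hit c (lc c)) := by
    have : ∀ c, ∃ k, k ≤ n ∧ (∀ i < k, hit c i) ∧ (k < n → ¬ hit c k) := by
      intro c
      by_cases hc : ∃ k, k < n ∧ ¬ hit c k
      · refine ⟨Nat.find hc, (Nat.find_spec hc).1.le, ?_, fun _ => (Nat.find_spec hc).2⟩
        intro i hi
        by_contra hn
        exact Nat.find_min hc hi ⟨lt_trans hi (Nat.find_spec hc).1, hn⟩
      · push Not at hc
        exact ⟨n, le_rfl, hc, fun h => absurd h (lt_irrefl n)⟩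
    choose f hf using this
    exact ⟨f, hf⟩
  have hsp := sperner (D + 1) n (fun v => lc (lab v)) (fun v _ => (hlc (lab v)).1)
    (by
      intro v hv i hi h0 he
      have he' : lc (lab v) = i := he
      have h1 := (hlc (lab v)).2.2 (by omega)
      apply h1
      rw [he', hhit]
      exact ⟨v, hv, rfl, h0⟩)
    (by
      intro v hv i hi hm
      by_contra hcon
      push Not at hcon
      have h1 := (hlc (lab v)).2.1 i hcon
      rw [hhit] at h1
      obtain ⟨x, hx, hxl, hx0⟩ := h1
      have := h v x hv hx hxl.symm i hi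
      omega)
  obtain ⟨L, ⟨hlen, b, hb, hv⟩, hR⟩ := T_ne_zero (D + 1) n _ (by rw [hsp]; exact one_ne_zero)
  refine ⟨b, L, hb, hlen, hv, ?_⟩
  have hp : (L.map (fun v => lc (lab v))).Perm (List.range (n + 1)) := by
    by_contra hn
    apply hR
    rw [R, if_neg hn]
  have hnd : (L.map (fun v => lc (lab v))).Nodup := hp.symm.nodup List.nodup_range
  have : L.map (fun v => lc (lab v)) = (L.map lab).map lc := by simp [List.map_map]
  rw [this] at hnd
  exact List.Nodup.of_map _ hnd

end Pool.Agent.Helpers.H19bS
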