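import Pool.Agent.Helpers.H19bGroup
import Pool.Agent.Helpers.H19bSperner
import Pool.Agent.Helpers.H19bRay
import Pool.Agent.Helpers.H19bNoZ2

/-!
The group `FreeGroup A ⋊ A` with `A = H^5` for an infinite finitely generated torsion group `H`:
asymptotic dimension at least four, a coarsely embedded plane through the vertex `1`, separation.
-/

namespace Pool.Agent.Helpers.H19Asd

open SemidirectProduct Filter

variable {H : Type} [Group H] {S : Set H}

/-- The plane in `H^5`. -/
def plane (r : ℕ → H) (z : Fin 2 → ℤ) : Fin 5 → H :=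
  ![r (z 0).toNat, r (-z 0).toNat, r (z 1).toNat, r (-z 1).toNat, 1]

theorem ray_dist {r : ℕ → H} (hr : ∀ i j, i ≤ j → (cayley S).dist (r i) (r j) = j - i)
    (i j : ℕ) : (((cayley S).dist (r i) (r j) : ℕ) : ℤ) = |(i : ℤ) - j| := by
  rcases le_total i j with h | h
  · rw [hr i j h, Nat.cast_sub h, abs_sub_comm, abs_of_nonneg (by omega)]
  · rw [SimpleGraph.dist_comm, hr j i h, Nat.cast_sub h, abs_of_nonneg (by omega)]

theorem sum_two (a b : Fin 2 → ℤ) : ∑ i, |a i - b i| = |a 0 - b 0| + |a 1 - b 1| := by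
  simp [Fin.sum_univ_two]

theorem plane_upper (hS : Subgroup.closure S = ⊤) {r : ℕ → H}
    (hr : ∀ i j, i ≤ j → (cayley S).dist (r i) (r j) = j - i) (a b : Fin 2 → ℤ) :
    (cayley (gensG (gensP S))).dist (inr (plane r a) : GG (Fin 5 → H)) (inr (plane r b)) ≤
      2 * (∑ i, |a i - b i|).toNat := by
  refine (inr_dist (gensP_closure hS) _ _).trans ((pi_dist_le hS _ _).trans ?_)
  have h0 := ray_dist hr (a 0).toNat (b 0).toNat
  have h1 := ray_dist hr (-a 0).toNat (-b 0).toNat
  have h2 := ray_dist hr (a 1).toNat (b 1).toNat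
  have h3 := ray_dist hr (-a 1).toNat (-b 1).toNat
  rw [sum_two, Fin.sum_univ_five]
  simp only [plane, Matrix.cons_val_zero, Matrix.cons_val_one, Matrix.cons_val]
  rw [SimpleGraph.dist_self]
  have e1 : (0 : ℤ) ≤ |a 0 - b 0| := abs_nonneg _
  have e2 : (0 : ℤ) ≤ |a 1 - b 1| := abs_nonneg _
  have e3 : (((|a 0 - b 0| + |a 1 - b 1|).toNat : ℕ) : ℤ) = |a 0 - b 0| + |a 1 - b 1| :=
    Int.toNat_of_nonneg (by omega)
  zify
  rw [h0, h1, h2, h3, e3]
  simp only [Int.toNat_eq_max]
  grind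

theorem plane_lower (hS : Subgroup.closure S = ⊤) {r : ℕ → H}
    (hr : ∀ i j, i ≤ j → (cayley S).dist (r i) (r j) = j - i) (a b : Fin 2 → ℤ) :
    (∑ i, |a i - b i|).toNat / 4 ≤
      (cayley (gensG (gensP S))).dist (inr (plane r a) : GG (Fin 5 → H)) (inr (plane r b)) := by
  have hA := right_dist (gensP_closure hS) (inr (plane r a) : GG (Fin 5 → H)) (inr (plane r b))
  rw [right_inr, right_inr] at hA
  obtain ⟨D, hD⟩ : ∃ D, D = (cayley (gensG (gensP S))).dist (inr (plane r a) : GG (Fin 5 → H))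
    (inr (plane r b)) := ⟨_, rfl⟩
  rw [← hD] at hA ⊢
  have c0 := (coord_dist hS 0 (plane r a) (plane r b)).trans hA
  have c1 := (coord_dist hS 1 (plane r a) (plane r b)).trans hA
  have c2 := (coord_dist hS 2 (plane r a) (plane r b)).trans hA
  have c3 := (coord_dist hS 3 (plane r a) (plane r b)).trans hA
  simp only [plane, Matrix.cons_val_zero, Matrix.cons_val_one, Matrix.cons_val] at c0 c1 c2 c3
  have h0 := ray_dist hr (a 0).toNat (b 0).toNat
  have h1 := ray_dist hr (-a 0).toNat (-b 0).toNat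
  have h2 := ray_dist hr (a 1).toNat (b 1).toNat
  have h3 := ray_dist hr (-a 1).toNat (-b 1).toNat
  zify at c0 c1 c2 c3
  rw [h0] at c0
  rw [h1] at c1
  rw [h2] at c2
  rw [h3] at c3
  rw [sum_two]
  have e1 : |a 0 - b 0| + |a 1 - b 1| ≤ 4 * D := by
    simp only [Int.toNat_eq_max] at c0 c1 c2 c3
    grind
  omega

/-- Asymptotic dimension at least four, in the form of the frozen statement. -/
theorem not_asdim_three (hS : Subgroup.closure S = ⊤) {r : ℕ → H}
    (hr : ∀ i j, i ≤ j → (cayley S).dist (r i) (r j) = j - i) :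
    ¬ ∀ R : ℕ, ∃ (ι : Type) (U : ι → Set (GG (Fin 5 → H))) (D : ℕ),
      (∀ x : GG (Fin 5 → H), ∃ i, x ∈ U i) ∧
      (∀ i, ∀ x ∈ U i, ∀ y ∈ U i, (cayley (gensG (gensP S))).dist x y ≤ D) ∧
      ∀ x : GG (Fin 5 → H),
        {i : ι | ∃ y ∈ U i, (cayley (gensG (gensP S))).dist x y ≤ R}.encard ≤ ((4 : ℕ) : ℕ∞) := by
  classical
  intro hall
  obtain ⟨ι, U, D, hcov, hdiam, hmult⟩ := hall 4
  choose lab hlab using hcov
  obtain ⟨P, hP⟩ : ∃ P : (ℕ → ℕ) → (Fin 5 → H), P = fun v => fun i => r (v i) := ⟨_, rfl⟩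
  obtain ⟨b, L, hb, hlen, hv, hnd⟩ := H19bS.lebesgue 4 D (fun v => lab (inr (P v))) (by
    intro x y _ _ hxy i hi
    have h1 := hdiam (lab (inr (P x))) (inr (P x)) (hlab _) (inr (P y)) (by
      have hxy' : lab (inr (P x)) = lab (inr (P y)) := hxy
      rw [hxy']; exact hlab _)
    have h2 := right_dist (gensP_closure hS) (inr (P x) : GG (Fin 5 → H)) (inr (P y))
    rw [right_inr, right_inr] at h2
    have h3 := ((coord_dist hS ⟨i, by omega⟩ (P x) (P y)).trans h2).trans h1
    have h4 := ray_dist hr (x i) (y i)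
    rw [hP] at h3
    simp only at h3
    have h5 : |((x i : ℕ) : ℤ) - (y i : ℕ)| ≤ D := by
      rw [← h4]; exact_mod_cast h3
    have h6 := le_abs_self (((x i : ℕ) : ℤ) - (y i : ℕ))
    omega)
  have hdist : ∀ v ∈ L, ∀ w ∈ L,
      (cayley (gensG (gensP S))).dist (inr (P v) : GG (Fin 5 → H)) (inr (P w)) ≤ 4 := by
    intro v hvL w hwL
    refine (inr_dist (gensP_closure hS) _ _).trans ((pi_dist_le hS _ _).trans ?_)
    obtain ⟨v1, v2⟩ := hv v hvL
    obtain ⟨w1, w2⟩ := hv w hwL
    have hone : ∀ i < 4, (cayley S).dist (r (v i)) (r (w i)) ≤ 1 := by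
      intro i hi
      have h4 := ray_dist hr (v i) (w i)
      have h5 : |((v i : ℕ) : ℤ) - (w i : ℕ)| ≤ 1 := by
        rw [abs_le]
        rcases v1 i hi with h | h <;> rcases w1 i hi with h' | h' <;> omega
      rw [← h4] at h5
      exact_mod_cast h5
    have h4 : (cayley S).dist (r (v 4)) (r (w 4)) = 0 := by
      rw [v2 4 le_rfl, w2 4 le_rfl]; simp
    have a0 := hone 0 (by omega)
    have a1 := hone 1 (by omega)
    have a2 := hone 2 (by omega)
    have a3 := hone 3 (by omega)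
    have goal : (cayley S).dist (r (v 0)) (r (w 0)) + (cayley S).dist (r (v 1)) (r (w 1)) +
        (cayley S).dist (r (v 2)) (r (w 2)) + (cayley S).dist (r (v 3)) (r (w 3)) +
        (cayley S).dist (r (v 4)) (r (w 4)) ≤ 4 := by omega
    rw [hP, Fin.sum_univ_five]
    exact goal
  obtain ⟨v0, L', hL'⟩ : ∃ v0 L', L = v0 :: L' := by
    cases L with
    | nil => simp at hlen
    | cons v L => exact ⟨v, L, rfl⟩
  have h1 := hmult (inr (P v0))
  have hsub : (((L.map (fun v => lab (inr (P v)))).toFinset : Finset ι) : Set ι) ⊆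
      {i : ι | ∃ y ∈ U i, (cayley (gensG (gensP S))).dist (inr (P v0)) y ≤ 4} := by
    intro i hi
    rw [Finset.mem_coe, List.mem_toFinset] at hi
    obtain ⟨v, hvL, rfl⟩ := List.mem_map.1 hi
    exact ⟨inr (P v), hlab _, hdist v0 (by rw [hL']; simp) v hvL⟩
  have h2 := (Set.encard_le_encard hsub).trans h1
  rw [Set.encard_coe_eq_coe_finsetCard, List.toFinset_card_of_nodup hnd, List.length_map,
    hlen] at h2
  norm_cast at h2

/-- Coarse separation by the plane. -/
theorem plane_separates (hfin : S.Finite) (hS : Subgroup.closure S = ⊤) [Infinite H] {r : ℕ → H}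
    (hr0 : r 0 = 1) (D : ℕ) :
    ∃ x y : GG (Fin 5 → H),
      (∀ z, 0 + D < (cayley (gensG (gensP S))).dist x (inr (plane r z))) ∧
      (∀ z, 0 + D < (cayley (gensG (gensP S))).dist y (inr (plane r z))) ∧
      ¬ ∃ p : (cayley (gensG (gensP S))).Walk x y, ∀ v ∈ p.support, ∀ z,
        0 < (cayley (gensG (gensP S))).dist v (inr (plane r z)) := by
  obtain ⟨h, hh⟩ := exists_far hfin hS D
  refine ⟨inr (Pi.mulSingle 4 h), (st (Fin 5 → H)) ^ (D + 1), ?_, ?_, ?_⟩
  · intro z
    have h1 := right_dist (gensP_closure hS) (inr (Pi.mulSingle 4 h) : GG (Fin 5 → H))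
      (inr (plane r z))
    rw [right_inr, right_inr] at h1
    have h2 := (coord_dist hS 4 (Pi.mulSingle 4 h) (plane r z)).trans h1
    have e4 : plane r z 4 = 1 := rfl
    have e5 : (cayley S).dist h 1 = (cayley S).dist 1 h := SimpleGraph.dist_comm
    rw [Pi.mulSingle_eq_same, e4, e5] at h2
    omega
  · intro z
    have h1 := expo_dist (gensP_closure hS) ((st (Fin 5 → H)) ^ (D + 1)) (inr (plane r z))
    rw [expo_pow, expo_inr, sub_zero, abs_of_nonneg (by positivity)] at h1
    push_cast at h1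
    omega
  · rintro ⟨p, hp⟩
    have hone : (inr (plane r 0) : GG (Fin 5 → H)) = 1 := by
      have : plane r 0 = 1 := by
        funext i
        fin_cases i <;> simp [plane, hr0]
      rw [this, map_one]
    have h1 := branch_walk p (by
      intro v hv he
      have := hp v hv 0
      rw [hone, he] at this
      simp at this)
    exact not_branch_inr _ (h1.2 (branch_pow _ (by omega)))

/-- A group in which commuting elements are dependent has no subgroup isomorphic to `ℤ²`. -/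
theorem no_Z2 {G : Type} [Group G]
    (h : ∀ x y : G, x * y = y * x → ∃ m n : ℤ, (m ≠ 0 ∨ n ≠ 0) ∧ x ^ m * y ^ n = 1)
    (K : Subgroup G) : ¬ Nonempty (K ≃* Multiplicative (Fin 2 → ℤ)) := by
  rintro ⟨e⟩
  obtain ⟨x, hx⟩ : ∃ x : K, x = e.symm (Multiplicative.ofAdd (Pi.single 0 1)) := ⟨_, rfl⟩
  obtain ⟨y, hy⟩ : ∃ y : K, y = e.symm (Multiplicative.ofAdd (Pi.single 1 1)) := ⟨_, rfl⟩
  have hcomm : x * y = y * x := e.injective (by rw [map_mul, map_mul, mul_comm])
  obtain ⟨m, n, hmn, hxy⟩ := h x y (by exact_mod_cast congrArg (Subtype.val) hcomm)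
  have h1 : x ^ m * y ^ n = 1 := by
    ext1
    push_cast
    exact hxy
  have h2 := congrArg e h1
  rw [map_mul, map_zpow, map_zpow, hx, hy, MulEquiv.apply_symm_apply, MulEquiv.apply_symm_apply,
    map_one, ← ofAdd_zsmul, ← ofAdd_zsmul, ← ofAdd_add] at h2
  have h3 : m • (Pi.single 0 1 : Fin 2 → ℤ) + n • (Pi.single 1 1 : Fin 2 → ℤ) = 0 :=
    Multiplicative.ofAdd.injective h2
  have h4 := congrFun h3 0
  have h5 := congrFun h3 1
  simp at h4 h5
  omega

end Pool.Agent.Helpers.H19Asd
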