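import Mathlib

/-!
Connected boundaries of graphs (definitions).
-/

namespace Pool.Agent.Helpers.H19c

universe u v

variable {V : Type u} {W : Type v}

/-- A ray: an infinite path. -/
def IsRay (Γ : SimpleGraph V) (p : ℕ → V) : Prop :=
  Function.Injective p ∧ ∀ n, Γ.Adj (p n) (p (n + 1))

/-- Two rays belong to the same end: no finite set of vertices separates tails of the two rays. -/
def SameEnd (Γ : SimpleGraph V) (p q : ℕ → V) : Prop :=
  ∀ K : Set V, K.Finite → ∃ N, ∀ m n, N ≤ m → N ≤ n →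
    ∃ w : Γ.Walk (p m) (q n), ∀ x ∈ w.support, x ∉ K

/-- `F` and its complement induce connected subgraphs and no end can be reached both from `F` and
from its complement. -/
def CConnected (Γ : SimpleGraph V) (F : Set V) : Prop :=
  (Γ.induce F).Connected ∧ (Γ.induce Fᶜ).Connected ∧
    ¬ ∃ p q : ℕ → V, IsRay Γ p ∧ IsRay Γ q ∧ SameEnd Γ p q ∧ (∀ n, p n ∈ F) ∧ ∀ n, q n ∈ Fᶜ

/-- `N_r(K)`, the vertices at distance at most `r` from `K`. -/
def nbhd (Γ : SimpleGraph V) (K : Set V) (r : ℕ) : Set V := {x | ∃ y ∈ K, Γ.dist x y ≤ r}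

/-- The property `CB_r`. -/
def CB (Γ : SimpleGraph V) (r : ℕ) : Prop :=
  ∀ F : Set V, CConnected Γ F → (Γ.induce (nbhd Γ F (r + 1) \ F)).Connected

/-- `Γ` has connected boundaries. -/
def ConnectedBoundaries (Γ : SimpleGraph V) : Prop := ∃ r, CB Γ r

/-- `f` is a quasi-isometry between the vertex sets. -/
def IsQI (Γ : SimpleGraph V) (Δ : SimpleGraph W) (f : V → W) : Prop :=
  ∃ A B : ℕ, (∀ x y, Δ.dist (f x) (f y) ≤ A * Γ.dist x y + B) ∧
    (∀ x y, Γ.dist x y ≤ A * Δ.dist (f x) (f y) + B) ∧ ∀ w, ∃ x, Δ.dist (f x) w ≤ B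

/-- The vertices incident with an edge between `D` and its complement. -/
def bd (Γ : SimpleGraph V) (D : Set V) : Set V := {x | ∃ y, Γ.Adj x y ∧ ¬ (x ∈ D ↔ y ∈ D)}

/-- The boundary of a bond with finite boundary cannot be divided into two parts at distance
larger than `l`. -/
def BondsClose (Γ : SimpleGraph V) (l : ℕ) : Prop :=
  ∀ F : Set V, (Γ.induce F).Connected → (Γ.induce Fᶜ).Connected → (bd Γ F).Finite →
    ∀ B₁ B₂ : Set V, bd Γ F ⊆ B₁ ∪ B₂ → (∀ x ∈ B₁, ∀ y ∈ B₂, l < Γ.dist x y) →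
      bd Γ F ⊆ B₁ ∨ bd Γ F ⊆ B₂

/-- A walk from `D` to its complement meets the boundary. -/
theorem exists_bd {Γ : SimpleGraph V} {D : Set V} {x y : V} (w : Γ.Walk x y)
    (h : ¬ (x ∈ D ↔ y ∈ D)) : ∃ z ∈ w.support, z ∈ bd Γ D ∧ (z ∈ D ↔ x ∈ D) ∧
      Γ.dist x z + 1 ≤ w.length := by
  classical
  induction w with
  | nil => exact absurd Iff.rfl h
  | @cons a b c hab w ih =>
    by_cases hb : (a ∈ D ↔ b ∈ D)
    · obtain ⟨z, hz, hz1, hz2, hz3⟩ := ih (by tauto)
      refine ⟨z, by simp [hz], hz1, by tauto, ?_⟩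
      have h1 := SimpleGraph.dist_le (SimpleGraph.Walk.cons hab SimpleGraph.Walk.nil)
      have h2 : Γ.Reachable b z := ⟨w.takeUntil z hz⟩
      have h3 : Γ.dist a z ≤ 1 + Γ.dist b z := by
        obtain ⟨q, hq⟩ := h2.exists_walk_length_eq_dist
        rw [← hq]
        have := SimpleGraph.dist_le (SimpleGraph.Walk.cons hab q)
        rw [SimpleGraph.Walk.length_cons] at this
        omega
      rw [SimpleGraph.Walk.length_cons]
      omega
    · refine ⟨a, by simp, ⟨b, hab, hb⟩, Iff.rfl, ?_⟩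
      simp

end Pool.Agent.Helpers.H19c
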