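import Pool.Agent.Helpers.H19cDefs

/-!
The boundary of a coarsely connected set is finite.
-/

namespace Pool.Agent.Helpers.H19c

universe u

/-- Balls of a locally finite graph are finite. -/
theorem ball_finite {X : Type u} (G : SimpleGraph X) (hlf : ∀ v, (G.neighborSet v).Finite) (o : X)
    (n : ℕ) : {v | ∃ w : G.Walk v o, w.length ≤ n}.Finite := by
  induction n with
  | zero =>
    refine (Set.finite_singleton o).subset ?_
    rintro v ⟨w, hw⟩
    cases w with
    | nil => simp
    | cons h w => simp at hw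
  | succ n ih =>
    have h1 : ({o} ∪ ⋃ u ∈ {v | ∃ w : G.Walk v o, w.length ≤ n}, G.neighborSet u).Finite :=
      (Set.finite_singleton o).union (ih.biUnion fun u _ => hlf u)
    refine h1.subset ?_
    rintro v ⟨w, hw⟩
    cases w with
    | nil => simp
    | @cons _ u _ h w =>
      right
      simp only [Set.mem_iUnion]
      refine ⟨u, ⟨w, ?_⟩, h.symm⟩
      rw [SimpleGraph.Walk.length_cons] at hw
      omega

/-- In a geodesic walk the distances are the indices. -/
theorem dist_getVert {X : Type u} {G : SimpleGraph X} (hc : G.Connected) {o x : X}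
    (g : G.Walk o x) (hg : g.length = G.dist o x) {k : ℕ} (hk : k ≤ g.length) :
    G.dist o (g.getVert k) = k := by
  have h1 := SimpleGraph.dist_le (g.take k)
  have h2 := SimpleGraph.dist_le (g.drop k)
  have h3 := hc.dist_triangle (u := o) (v := g.getVert k) (w := x)
  rw [SimpleGraph.Walk.take_length] at h1
  rw [SimpleGraph.Walk.drop_length] at h2
  omega

/-- An ultrafilter choice from a finite set. -/
theorem ultra_choice {X : Type u} (U : Ultrafilter ℕ) (h : ℕ → X) (S : Set X) (hS : S.Finite)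
    (hh : ∀ e, h e ∈ S) : ∃ s, ∀ᶠ e in (U : Filter ℕ), h e = s := by
  have h1 : (⋃ s ∈ S, {e | h e = s}) ∈ U := by
    have : (⋃ s ∈ S, {e | h e = s}) = Set.univ := by
      ext e
      simp [hh e]
    rw [this]
    exact Filter.univ_mem
  obtain ⟨s, _, hs⟩ := (Ultrafilter.finite_biUnion_mem_iff hS).1 h1
  exact ⟨s, hs⟩

/-- A walk of an induced subgraph is a walk of the graph. -/
theorem map_walk {V : Type u} {Γ : SimpleGraph V} {A : Set V} {x y : A}
    (w : (Γ.induce A).Walk x y) :
    ∃ w' : Γ.Walk x.1 y.1, ∀ z ∈ w'.support, ∃ v ∈ w.support, v.1 = z := by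
  induction w with
  | @nil a =>
    refine ⟨SimpleGraph.Walk.nil, fun z hz => ⟨a, by simp, ?_⟩⟩
    rw [SimpleGraph.Walk.support_nil, List.mem_singleton] at hz
    exact hz.symm
  | @cons a b c h w ih =>
    obtain ⟨w', hw'⟩ := ih
    have h' : Γ.Adj a.1 b.1 := h
    refine ⟨SimpleGraph.Walk.cons h' w', fun z hz => ?_⟩
    rw [SimpleGraph.Walk.support_cons, List.mem_cons] at hz
    rcases hz with rfl | hz
    · exact ⟨a, by simp, rfl⟩
    · obtain ⟨v, hv, hvz⟩ := hw' z hz
      exact ⟨v, by simp [hv], hvz⟩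

/-- The ray lemma. -/
theorem ray_exists {V : Type u} {Γ : SimpleGraph V} (hlf : ∀ v, (Γ.neighborSet v).Finite)
    {A : Set V} (hA : (Γ.induce A).Connected) (f : ℕ → V) (hf : ∀ e, f e ∈ A)
    (hfin : ∀ S : Set V, S.Finite → {e | f e ∈ S}.Finite) :
    ∃ p : ℕ → V, IsRay Γ p ∧ (∀ n, p n ∈ A) ∧ ∀ K : Set V, K.Finite → ∃ N, ∀ m, N ≤ m →
      ∀ᶠ e in (Filter.hyperfilter ℕ : Filter ℕ), ∃ w : Γ.Walk (p m) (f e), ∀ x ∈ w.support, x ∉ K := by
  classical
  set G := Γ.induce A with hG
  have hlfG : ∀ v, (G.neighborSet v).Finite := by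
    intro v
    refine Set.Finite.of_finite_image (f := Subtype.val) ((hlf v.1).subset ?_)
      Subtype.val_injective.injOn
    rintro _ ⟨u, hu, rfl⟩
    exact hu
  let F : ℕ → A := fun e => ⟨f e, hf e⟩
  let o : A := F 0
  have hex : ∀ e, ∃ g : G.Walk o (F e), g.length = G.dist o (F e) := fun e =>
    (hA.preconnected o (F e)).exists_walk_length_eq_dist
  choose g hg using hex
  have hball : ∀ n e, (g e).getVert n ∈ {v | ∃ w : G.Walk v o, w.length ≤ n} := by
    intro n e
    refine ⟨((g e).take n).reverse, ?_⟩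
    rw [SimpleGraph.Walk.length_reverse, SimpleGraph.Walk.take_length]
    omega
  have hch : ∀ n, ∃ s, ∀ᶠ e in (Filter.hyperfilter ℕ : Filter ℕ), (g e).getVert n = s := fun n =>
    ultra_choice _ (fun e => (g e).getVert n) _ (ball_finite G hlfG o n) (hball n)
  choose p hp using hch
  -- the lengths tend to infinity
  have hlen : ∀ n, ∀ᶠ e in (Filter.hyperfilter ℕ : Filter ℕ), n < (g e).length := by
    intro n
    have h1 : {e | (g e).length ≤ n}.Finite := by
      refine (hfin _ ((ball_finite G hlfG o n).image Subtype.val)).subset ?_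
      intro e he
      exact ⟨F e, ⟨(g e).reverse, by rw [SimpleGraph.Walk.length_reverse]; exact he⟩, rfl⟩
    have h2 := Set.Finite.compl_mem_hyperfilter h1
    refine Filter.mem_of_superset h2 ?_
    intro e he
    simpa using he
  have hne : (Filter.hyperfilter ℕ : Filter ℕ).NeBot := inferInstance
  have hadj : ∀ n, G.Adj (p n) (p (n + 1)) := by
    intro n
    obtain ⟨e, h1, h2, h3⟩ := ((hp n).and ((hp (n + 1)).and (hlen n))).exists
    rw [← h1, ← h2]
    exact (g e).adj_getVert_succ h3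
  have hdist : ∀ n, G.dist o (p n) = n := by
    intro n
    obtain ⟨e, h1, h3⟩ := ((hp n).and (hlen n)).exists
    rw [← h1]
    exact dist_getVert hA (g e) (hg e) h3.le
  refine ⟨fun n => (p n).1, ⟨?_, fun n => hadj n⟩, fun n => (p n).2, ?_⟩
  · intro m n hmn
    have : p m = p n := Subtype.ext hmn
    rw [← hdist m, ← hdist n, this]
  · intro K hK
    have hKA : ((fun v : A => G.dist o v) '' (Subtype.val ⁻¹' K)).Finite :=
      (hK.preimage Subtype.val_injective.injOn).image _
    obtain ⟨N, hN⟩ := hKA.bddAbove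
    refine ⟨N + 1, fun m hm => ?_⟩
    filter_upwards [hp m, hlen m] with e he hl
    rw [← he]
    obtain ⟨w', hw'⟩ := map_walk ((g e).drop m)
    refine ⟨w', ?_⟩
    intro x hx hxK
    obtain ⟨v, hv, rfl⟩ := hw' x hx
    obtain ⟨k, hk, hkl⟩ := SimpleGraph.Walk.mem_support_iff_exists_getVert.1 hv
    rw [SimpleGraph.Walk.drop_getVert] at hk
    rw [SimpleGraph.Walk.drop_length] at hkl
    have h1 : G.dist o v = m + k := by
      rw [← hk]
      exact dist_getVert hA (g e) (hg e) (by omega)
    have h2 : G.dist o v ≤ N := hN ⟨v, hxK, rfl⟩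
    omega

/-- The boundary of a set as in `CConnected` is finite. -/
theorem bd_finite {V : Type u} {Γ : SimpleGraph V} (_hc : Γ.Connected)
    (hlf : ∀ v, (Γ.neighborSet v).Finite)
    {F : Set V} (hF : CConnected Γ F) : (bd Γ F).Finite := by
  classical
  obtain ⟨h1, h2, h3⟩ := hF
  set X : Set V := {x | x ∈ F ∧ ∃ y, Γ.Adj x y ∧ y ∉ F} with hX
  by_cases hfin : X.Finite
  · have h4 : (X ∪ ⋃ x ∈ X, Γ.neighborSet x).Finite := hfin.union (hfin.biUnion fun x _ => hlf x)
    refine h4.subset ?_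
    rintro x ⟨y, hxy, hne⟩
    by_cases hx : x ∈ F
    · left
      exact ⟨hx, y, hxy, fun hy => hne (by tauto)⟩
    · right
      have hy : y ∈ F := by tauto
      simp only [Set.mem_iUnion]
      exact ⟨y, ⟨hy, x, hxy.symm, hx⟩, hxy.symm⟩
  · exfalso
    have hinf : X.Infinite := hfin
    let f : ℕ ↪ X := hinf.natEmbedding
    have hfy : ∀ e, ∃ y, Γ.Adj (f e).1 y ∧ y ∉ F := fun e => (f e).2.2
    choose y hy hyF using hfy
    have hxfin : ∀ S : Set V, S.Finite → {e | (f e).1 ∈ S}.Finite := by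
      intro S hS
      exact hS.preimage (Function.Injective.injOn (Subtype.val_injective.comp f.injective))
    have hyfin : ∀ S : Set V, S.Finite → {e | y e ∈ S}.Finite := by
      intro S hS
      refine (hxfin (⋃ s ∈ S, Γ.neighborSet s) (hS.biUnion fun x _ => hlf x)).subset ?_
      intro e he
      simp only [Set.mem_ofPred_eq, Set.mem_iUnion]
      exact ⟨y e, he, (hy e).symm⟩
    obtain ⟨p, hp, hpF, hpK⟩ := ray_exists hlf h1 (fun e => (f e).1) (fun e => (f e).2.1) hxfin
    obtain ⟨q, hq, hqF, hqK⟩ := ray_exists hlf h2 y hyF hyfin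
    refine h3 ⟨p, q, hp, hq, ?_, hpF, hqF⟩
    intro K hK
    obtain ⟨N₁, hN₁⟩ := hpK K hK
    obtain ⟨N₂, hN₂⟩ := hqK K hK
    refine ⟨max N₁ N₂, fun m n hm hn => ?_⟩
    obtain ⟨e, ⟨w₁, hw₁⟩, ⟨w₂, hw₂⟩⟩ :=
      ((hN₁ m (le_trans (le_max_left _ _) hm)).and (hN₂ n (le_trans (le_max_right _ _) hn))).exists
    refine ⟨w₁.append (SimpleGraph.Walk.cons (hy e) w₂.reverse), ?_⟩
    intro x hx
    rw [SimpleGraph.Walk.mem_support_append_iff] at hx
    rcases hx with hx | hx
    · exact hw₁ x hx
    · rw [SimpleGraph.Walk.support_cons, List.mem_cons] at hx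
      rcases hx with rfl | hx
      · exact hw₁ _ w₁.end_mem_support
      · rw [SimpleGraph.Walk.support_reverse, List.mem_reverse] at hx
        exact hw₂ x hx

end Pool.Agent.Helpers.H19c
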