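import Mathlib
import Pool.Agent.Helpers.H19cDefs

namespace Pool.Agent.Helpers.H19c

variable {V : Type*} {Γ : SimpleGraph V}

theorem cConnected_of_finite (_hc : Γ.Connected) {F : Set V} (h1 : (Γ.induce F).Connected)
    (h2 : (Γ.induce Fᶜ).Connected) (h3 : (bd Γ F).Finite) : CConnected Γ F := by
  refine ⟨h1, h2, ?_⟩
  rintro ⟨p, q, _, _, hpq, hp, hq⟩
  obtain ⟨N, hN⟩ := hpq _ h3
  obtain ⟨w, hw⟩ := hN N N le_rfl le_rfl
  have hne : ¬ (p N ∈ F ↔ q N ∈ F) := by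
    have a := hp N
    have b := hq N
    simp only [Set.mem_compl_iff] at b
    tauto
  obtain ⟨z, hz, hz1, _⟩ := exists_bd w hne
  exact hw z hz hz1

theorem bondsClose_of_CB (hc : Γ.Connected) {r : ℕ} (h : CB Γ r) : BondsClose Γ (2 * r + 1) := by
  intro F h1 h2 h3 B₁ B₂ hsub hfar
  have hY := h F (cConnected_of_finite hc h1 h2 h3)
  by_contra hcon
  push Not at hcon
  obtain ⟨hc1, hc2⟩ := hcon
  have mem2 : ∀ z ∈ bd Γ F, z ∈ B₁ ∨ z ∈ B₂ := fun z hz => hsub hz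
  -- outer representatives
  have rep : ∀ z ∈ bd Γ F, ∃ y ∈ nbhd Γ F (r + 1) \ F, y ∈ bd Γ F ∧ Γ.dist z y ≤ 1 := by
    intro z hz
    obtain ⟨y, hzy, hne⟩ := hz
    by_cases hzF : z ∈ F
    · have hyF : y ∉ F := by tauto
      refine ⟨y, ⟨⟨z, hzF, ?_⟩, hyF⟩, ⟨z, hzy.symm, by tauto⟩, ?_⟩
      · have := SimpleGraph.dist_eq_one_iff_adj.2 hzy.symm
        omega
      · have := SimpleGraph.dist_eq_one_iff_adj.2 hzy
        omega
    · have hyF : y ∈ F := by tauto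
      refine ⟨z, ⟨⟨y, hyF, ?_⟩, hzF⟩, ⟨y, hzy, hne⟩, by simp⟩
      have := SimpleGraph.dist_eq_one_iff_adj.2 hzy
      omega
  have close : ∀ y ∈ nbhd Γ F (r + 1) \ F, ∃ z ∈ bd Γ F, Γ.dist y z ≤ r := by
    rintro y ⟨⟨f, hf, hd⟩, hyF⟩
    obtain ⟨w, hw⟩ := (hc.preconnected y f).exists_walk_length_eq_dist
    obtain ⟨z, hz, hz1, hz2, hz3⟩ := exists_bd (D := F) w (by tauto)
    exact ⟨z, hz1, by omega⟩
  rw [Set.not_subset] at hc1 hc2
  obtain ⟨a, ha, ha1⟩ := hc1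
  obtain ⟨b, hb, hb2⟩ := hc2
  have ha2 : a ∈ B₂ := (mem2 a ha).resolve_left ha1
  have hb1 : b ∈ B₁ := (mem2 b hb).resolve_right hb2
  obtain ⟨a', ha'Y, ha'bd, had⟩ := rep a ha
  obtain ⟨b', hb'Y, hb'bd, hbd⟩ := rep b hb
  have ha'2 : a' ∈ B₂ := by
    rcases mem2 a' ha'bd with h | h
    · have := hfar a' h a ha2
      rw [SimpleGraph.dist_comm] at this
      omega
    · exact h
  have hb'1 : b' ∈ B₁ := by
    rcases mem2 b' hb'bd with h | h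
    · exact h
    · have := hfar b hb1 b' h
      omega
  obtain ⟨w⟩ := hY.preconnected ⟨b', hb'Y⟩ ⟨a', ha'Y⟩
  let D : Set ↑(nbhd Γ F (r + 1) \ F) := {y | ∃ z ∈ B₁, Γ.dist y.1 z ≤ r}
  have hbD : (⟨b', hb'Y⟩ : ↑(nbhd Γ F (r + 1) \ F)) ∈ D := ⟨b', hb'1, by simp⟩
  have haD : (⟨a', ha'Y⟩ : ↑(nbhd Γ F (r + 1) \ F)) ∉ D := by
    rintro ⟨z, hz, hdz⟩
    have := hfar z hz a' ha'2
    rw [SimpleGraph.dist_comm] at this
    simp only at hdz
    omega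
  obtain ⟨u, _, ⟨v, huv, hne⟩, _⟩ := exists_bd (D := D) w (by tauto)
  have key : ∀ u v : ↑(nbhd Γ F (r + 1) \ F), (Γ.induce (nbhd Γ F (r + 1) \ F)).Adj u v →
      u ∈ D → v ∉ D → False := by
    intro u v huv hu hv
    obtain ⟨z, hz, hdz⟩ := hu
    obtain ⟨z', hz', hdz'⟩ := close v.1 v.2
    have hz'2 : z' ∈ B₂ := by
      rcases mem2 z' hz' with h | h
      · exact absurd ⟨z', h, hdz'⟩ hv
      · exact h
    have := hfar z hz z' hz'2
    have e1 : Γ.dist u.1 v.1 = 1 := SimpleGraph.dist_eq_one_iff_adj.2 huv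
    have t1 := hc.dist_triangle (u := z) (v := u.1) (w := z')
    have t2 := hc.dist_triangle (u := u.1) (v := v.1) (w := z')
    rw [SimpleGraph.dist_comm (u := z) (v := u.1)] at t1
    omega
  by_cases hu : u ∈ D
  · exact key u v huv hu (by tauto)
  · exact key v u huv.symm (by tauto) hu

end Pool.Agent.Helpers.H19c
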