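import Pool.Agent.Helpers.H19cDefs

/-!
Quasi-isometry invariance of `BondsClose`.
-/

namespace Pool.Agent.Helpers.H19c

universe u v

section

variable {V : Type u} {Γ : SimpleGraph V}

theorem ball_fin (hc : Γ.Connected) (hlf : ∀ v, (Γ.neighborSet v).Finite) (x₀ : V) (n : ℕ) :
    {x | Γ.dist x₀ x ≤ n}.Finite := by
  induction n with
  | zero =>
    apply (Set.finite_singleton x₀).subset
    intro x hx
    have hx' : Γ.dist x₀ x ≤ 0 := hx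
    have := hc.dist_eq_zero_iff.1 (Nat.le_zero.1 hx')
    exact this.symm
  | succ n ih =>
    apply (ih.union (ih.biUnion fun v _ => hlf v)).subset
    intro x hx
    have hx' : Γ.dist x₀ x ≤ n + 1 := hx
    obtain ⟨p, hp⟩ := hc.exists_walk_length_eq_dist x x₀
    cases p with
    | nil => left; change Γ.dist x₀ x₀ ≤ n; simp
    | @cons _ w _ h p =>
      right
      rw [SimpleGraph.Walk.length_cons, SimpleGraph.dist_comm] at hp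
      have h1 := SimpleGraph.dist_le p
      refine Set.mem_biUnion (x := w) ?_ h.symm
      change Γ.dist x₀ w ≤ n
      rw [SimpleGraph.dist_comm]
      omega

/-- A set which no edge inside the connected set `K` crosses is constant on `K`. -/
theorem const_on {K P : Set V} (hK : (Γ.induce K).Connected)
    (h : ∀ x ∈ K, ∀ y ∈ K, Γ.Adj x y → (x ∈ P ↔ y ∈ P)) :
    ∀ x ∈ K, ∀ y ∈ K, (x ∈ P ↔ y ∈ P) := by
  intro x hx y hy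
  obtain ⟨w⟩ := hK.preconnected ⟨x, hx⟩ ⟨y, hy⟩
  have key : ∀ (a b : K) (w : (Γ.induce K).Walk a b), (a.1 ∈ P ↔ b.1 ∈ P) := by
    intro a b w
    induction w with
    | nil => exact Iff.rfl
    | @cons a b c hab w ih => exact (h a.1 a.2 b.1 b.2 hab).trans ih
  exact key _ _ w

end

theorem prop_a (w fg a1 a2 z1 z2 p1 p2 : Prop) (e1 : fg ↔ ¬ (a1 ↔ a2)) (e4 : p1 ↔ ¬ (a1 ↔ z1))
    (e5 : p2 ↔ ¬ (a2 ↔ z2))
    (e : (¬ z2 ∧ (z1 ↔ ¬ (w ↔ fg))) ∨ (¬ z1 ∧ (z2 ↔ ¬ (w ↔ fg)))) : w ↔ ¬ (p1 ↔ p2) := by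
  by_cases h1 : a1 <;> by_cases h2 : a2 <;> by_cases h3 : w <;> by_cases h4 : z1 <;>
    by_cases h5 : z2 <;> simp_all

theorem prop_b (p p' a a' z z' : Prop) (e1 : p ↔ ¬ (a ↔ z)) (e2 : p' ↔ ¬ (a' ↔ z'))
    (e3 : a ↔ a') (e4 : ¬ (p ↔ p')) : z ∨ z' := by
  by_cases h1 : a <;> by_cases h2 : z <;> by_cases h3 : z' <;> simp_all

theorem prop_c (x y p q p' q' : Prop) (e1 : x ↔ ¬ (p ↔ q)) (e2 : y ↔ ¬ (p' ↔ q'))
    (e3 : x ↔ y) (e4 : ¬ (p ↔ p')) : ¬ (q ↔ q') := by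
  by_cases h1 : p <;> by_cases h2 : q <;> by_cases h3 : p' <;> by_cases h4 : q' <;> simp_all

theorem prop_d (x y p q p' q' : Prop) (e1 : x ↔ ¬ (p ↔ q)) (e2 : y ↔ ¬ (p' ↔ q'))
    (e3 : ¬ (x ↔ y)) (e4 : p ↔ p') : ¬ (q ↔ q') := by
  by_cases h1 : p <;> by_cases h2 : q <;> by_cases h3 : p' <;> by_cases h4 : q' <;> simp_all

variable {V : Type u} {W : Type v} {Γ : SimpleGraph V} {Δ : SimpleGraph W}

theorem qi_bondsClose (hΓ : Γ.Connected) (hΔ : Δ.Connected)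
    (hlf : ∀ v, (Γ.neighborSet v).Finite) {f : V → W} (hf : IsQI Γ Δ f) {l : ℕ}
    (hsplit : ∀ D : Set V, (bd Γ D).Finite → ∀ B₁ B₂ : Set V, bd Γ D ⊆ B₁ ∪ B₂ →
      (∀ x ∈ B₁, ∀ y ∈ B₂, l < Γ.dist x y) → ∃ D₁ D₂ : Set V,
        (∀ x, x ∈ D ↔ ¬ (x ∈ D₁ ↔ x ∈ D₂)) ∧ bd Γ D₁ ⊆ B₁ ∧ bd Γ D₂ ⊆ B₂) :
    ∃ L, BondsClose Δ L := by
  obtain ⟨A, B, h1, h2, h3⟩ := hf
  choose g hg using h3
  obtain ⟨M, hM⟩ : ∃ M, M = A * (1 + 2 * B) + B := ⟨_, rfl⟩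
  obtain ⟨R, hR⟩ : ∃ R, R = B + (A * M + B) + (A + B) + B + 1 := ⟨_, rfl⟩
  refine ⟨2 * (A + B) + A * l + B + 2 * R + 2, fun F hF hFc hfin B₁ B₂ hsub hfar => ?_⟩
  have hgadj : ∀ w w', Δ.Adj w w' → Γ.dist (g w) (g w') ≤ M := by
    intro w w' hww
    have e1 := h2 (g w) (g w')
    have e2 := hΔ.dist_triangle (u := f (g w)) (v := w) (w := f (g w'))
    have e3 := hΔ.dist_triangle (u := w) (v := w') (w := f (g w'))
    have e4 : Δ.dist w w' = 1 := SimpleGraph.dist_eq_one_iff_adj.2 hww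
    have e5 : Δ.dist w' (f (g w')) ≤ B := by rw [SimpleGraph.dist_comm]; exact hg w'
    have e6 := hg w
    have e7 : Δ.dist (f (g w)) (f (g w')) ≤ 1 + 2 * B := by omega
    have e8 := Nat.mul_le_mul_left A e7
    omega
  have hbdD : ∀ x ∈ bd Γ {x | f x ∈ F}, ∃ z ∈ bd Δ F, Δ.dist (f x) z ≤ A + B := by
    rintro x ⟨y, hxy, hne⟩
    obtain ⟨w, hw⟩ := hΔ.exists_walk_length_eq_dist (f x) (f y)
    obtain ⟨z, -, hz, -, hz2⟩ := exists_bd (D := F) w hne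
    refine ⟨z, hz, ?_⟩
    have e1 := h1 x y
    have e4 : Γ.dist x y = 1 := SimpleGraph.dist_eq_one_iff_adj.2 hxy
    rw [e4] at e1
    omega
  have hDfin : (bd Γ {x | f x ∈ F}).Finite := by
    have e1 : ∀ z, {x | Δ.dist (f x) z ≤ A + B}.Finite := by
      intro z
      rcases Set.eq_empty_or_nonempty {x | Δ.dist (f x) z ≤ A + B} with h | ⟨x₀, hx₀⟩
      · rw [h]; exact Set.finite_empty
      · apply (ball_fin hΓ hlf x₀ (A * (2 * (A + B)) + B)).subset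
        intro x hx
        have hx' : Δ.dist (f x) z ≤ A + B := hx
        have hx₀' : Δ.dist (f x₀) z ≤ A + B := hx₀
        change Γ.dist x₀ x ≤ _
        have e2 := h2 x₀ x
        have e3 := hΔ.dist_triangle (u := f x₀) (v := z) (w := f x)
        have e4 : Δ.dist z (f x) ≤ A + B := by rw [SimpleGraph.dist_comm]; exact hx'
        have e5 : Δ.dist (f x₀) (f x) ≤ 2 * (A + B) := by omega
        have e6 := Nat.mul_le_mul_left A e5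
        omega
    apply (hfin.biUnion fun z _ => e1 z).subset
    intro x hx
    obtain ⟨z, hz, hz2⟩ := hbdD x hx
    exact Set.mem_biUnion hz hz2
  obtain ⟨C, hC⟩ : ∃ C : Set W → Set V, ∀ (B' : Set W) x, x ∈ C B' ↔ ∃ z ∈ B', Δ.dist (f x) z ≤ A + B :=
    ⟨fun B' => {x | ∃ z ∈ B', Δ.dist (f x) z ≤ A + B}, fun _ _ => Iff.rfl⟩
  obtain ⟨D₁, D₂, hD, hD₁, hD₂⟩ := hsplit {x | f x ∈ F} hDfin (C B₁) (C B₂) (by
    intro x hx
    obtain ⟨z, hz, hz2⟩ := hbdD x hx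
    rcases hsub hz with h | h
    · exact Or.inl ((hC _ _).2 ⟨z, h, hz2⟩)
    · exact Or.inr ((hC _ _).2 ⟨z, h, hz2⟩)) (by
    intro x hx y hy
    obtain ⟨z, hz, hz2⟩ := (hC _ _).1 hx
    obtain ⟨z', hz', hz2'⟩ := (hC _ _).1 hy
    have e1 := hfar z hz z' hz'
    have e2 := h1 x y
    have e3 := hΔ.dist_triangle (u := z) (v := f x) (w := z')
    have e4 := hΔ.dist_triangle (u := f x) (v := f y) (w := z')
    have e5 : Δ.dist z (f x) ≤ A + B := by rw [SimpleGraph.dist_comm]; exact hz2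
    by_contra hcon
    push Not at hcon
    have e6 := Nat.mul_le_mul_left A hcon
    omega)
  have hnear : ∀ (B' : Set W) (D' : Set V), bd Γ D' ⊆ C B' → ∀ w w', Δ.Adj w w' →
      ¬ (g w ∈ D' ↔ g w' ∈ D') → ∃ b ∈ B', Δ.dist w b ≤ R := by
    intro B' D' hD' w w' hww hne
    obtain ⟨p, hp⟩ := hΓ.exists_walk_length_eq_dist (g w) (g w')
    obtain ⟨z, -, hz, -, hz2⟩ := exists_bd (D := D') p hne
    obtain ⟨b, hb, hb2⟩ := (hC _ _).1 (hD' hz)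
    refine ⟨b, hb, ?_⟩
    have e1 := hgadj w w' hww
    have e2 := h1 (g w) z
    have e3 : Γ.dist (g w) z ≤ M := by omega
    have e4 := Nat.mul_le_mul_left A e3
    have e5 := hΔ.dist_triangle (u := w) (v := f (g w)) (w := b)
    have e6 := hΔ.dist_triangle (u := f (g w)) (v := f z) (w := b)
    have e7 : Δ.dist w (f (g w)) ≤ B := by rw [SimpleGraph.dist_comm]; exact hg w
    omega
  have hZ : ∀ w, ¬ (w ∈ F ↔ f (g w) ∈ F) → ∃ b ∈ bd Δ F, Δ.dist w b ≤ B := by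
    intro w hne
    obtain ⟨p, hp⟩ := hΔ.exists_walk_length_eq_dist w (f (g w))
    obtain ⟨z, -, hz, -, hz2⟩ := exists_bd (D := F) p hne
    refine ⟨z, hz, ?_⟩
    have e7 : Δ.dist w (f (g w)) ≤ B := by rw [SimpleGraph.dist_comm]; exact hg w
    omega
  obtain ⟨Z₁, hZ₁⟩ : ∃ Z₁ : Set W, ∀ w, w ∈ Z₁ ↔ (¬ (w ∈ F ↔ f (g w) ∈ F)) ∧
      ∃ b ∈ B₁, Δ.dist w b ≤ B := ⟨{w | _}, fun _ => Iff.rfl⟩
  obtain ⟨Z₂, hZ₂⟩ : ∃ Z₂ : Set W, ∀ w, w ∈ Z₂ ↔ (¬ (w ∈ F ↔ f (g w) ∈ F)) ∧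
      ¬ ∃ b ∈ B₁, Δ.dist w b ≤ B := ⟨{w | _}, fun _ => Iff.rfl⟩
  have hZ₂' : ∀ w ∈ Z₂, ∃ b ∈ B₂, Δ.dist w b ≤ B := by
    intro w hw
    obtain ⟨hw1, hw2⟩ := (hZ₂ w).1 hw
    obtain ⟨b, hb, hb2⟩ := hZ w hw1
    rcases hsub hb with h | h
    · exact absurd ⟨b, h, hb2⟩ hw2
    · exact ⟨b, h, hb2⟩
  obtain ⟨P₁, hP₁⟩ : ∃ P₁ : Set W, ∀ w, w ∈ P₁ ↔ ¬ (g w ∈ D₁ ↔ w ∈ Z₁) :=
    ⟨{w | _}, fun _ => Iff.rfl⟩
  obtain ⟨P₂, hP₂⟩ : ∃ P₂ : Set W, ∀ w, w ∈ P₂ ↔ ¬ (g w ∈ D₂ ↔ w ∈ Z₂) :=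
    ⟨{w | _}, fun _ => Iff.rfl⟩
  have hFP : ∀ w, w ∈ F ↔ ¬ (w ∈ P₁ ↔ w ∈ P₂) := by
    intro w
    have e1 : f (g w) ∈ F ↔ ¬ (g w ∈ D₁ ↔ g w ∈ D₂) := hD (g w)
    have e2 := hZ₁ w
    have e3 := hZ₂ w
    have e4 := hP₁ w
    have e5 := hP₂ w
    refine prop_a _ _ _ _ _ _ _ _ e1 e4 e5 ?_
    by_cases c1 : ∃ b ∈ B₁, Δ.dist w b ≤ B
    · left
      refine ⟨fun h => (e3.1 h).2 c1, ?_⟩
      rw [e2]
      exact ⟨fun h => h.1, fun h => ⟨h, c1⟩⟩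
    · right
      refine ⟨fun h => c1 (e2.1 h).2, ?_⟩
      rw [e3]
      exact ⟨fun h => h.1, fun h => ⟨h, c1⟩⟩
  have hP₁' : ∀ w w', Δ.Adj w w' → ¬ (w ∈ P₁ ↔ w' ∈ P₁) → ∃ b ∈ B₁, Δ.dist w b ≤ R := by
    intro w w' hww hne
    by_cases c1 : (g w ∈ D₁ ↔ g w' ∈ D₁)
    · have e3 : w ∈ Z₁ ∨ w' ∈ Z₁ := prop_b _ _ _ _ _ _ (hP₁ w) (hP₁ w') c1 hne
      rcases e3 with h | h
      · obtain ⟨b, hb, hb2⟩ := ((hZ₁ _).1 h).2
        exact ⟨b, hb, by omega⟩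
      · obtain ⟨b, hb, hb2⟩ := ((hZ₁ _).1 h).2
        have e4 := hΔ.dist_triangle (u := w) (v := w') (w := b)
        have e5 : Δ.dist w w' = 1 := SimpleGraph.dist_eq_one_iff_adj.2 hww
        exact ⟨b, hb, by omega⟩
    · exact hnear B₁ D₁ hD₁ w w' hww c1
  have hP₂' : ∀ w w', Δ.Adj w w' → ¬ (w ∈ P₂ ↔ w' ∈ P₂) → ∃ b ∈ B₂, Δ.dist w b ≤ R := by
    intro w w' hww hne
    by_cases c1 : (g w ∈ D₂ ↔ g w' ∈ D₂)
    · have e3 : w ∈ Z₂ ∨ w' ∈ Z₂ := prop_b _ _ _ _ _ _ (hP₂ w) (hP₂ w') c1 hne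
      rcases e3 with h | h
      · obtain ⟨b, hb, hb2⟩ := hZ₂' w h
        exact ⟨b, hb, by omega⟩
      · obtain ⟨b, hb, hb2⟩ := hZ₂' w' h
        have e4 := hΔ.dist_triangle (u := w) (v := w') (w := b)
        have e5 : Δ.dist w w' = 1 := SimpleGraph.dist_eq_one_iff_adj.2 hww
        exact ⟨b, hb, by omega⟩
    · exact hnear B₂ D₂ hD₂ w w' hww c1
  have hnot : ∀ w, (∃ b ∈ B₁, Δ.dist w b ≤ R) → (∃ b ∈ B₂, Δ.dist w b ≤ R) → False := by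
    rintro w ⟨b, hb, hb2⟩ ⟨b', hb', hb2'⟩
    have e1 := hfar b hb b' hb'
    have e2 := hΔ.dist_triangle (u := b) (v := w) (w := b')
    have e3 : Δ.dist b w ≤ R := by rw [SimpleGraph.dist_comm]; exact hb2
    omega
  have hcross : ∀ x y, Δ.Adj x y → (x ∈ F ↔ y ∈ F) → (x ∈ P₁ ↔ y ∈ P₁) := by
    intro x y hxy hF'
    by_contra hne
    have e3 : ¬ (x ∈ P₂ ↔ y ∈ P₂) := prop_c _ _ _ _ _ _ (hFP x) (hFP y) hF' hne
    exact hnot x (hP₁' x y hxy hne) (hP₂' x y hxy e3)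
  have c1 := const_on (P := P₁) hF (fun x hx y hy hxy => hcross x y hxy
    ⟨fun _ => hy, fun _ => hx⟩)
  have c2 := const_on (P := P₁) hFc (fun x hx y hy hxy => hcross x y hxy
    ⟨fun h => absurd h hx, fun h => absurd h hy⟩)
  obtain ⟨⟨x₀, hx₀⟩⟩ := hF.nonempty
  obtain ⟨⟨y₀, hy₀⟩⟩ := hFc.nonempty
  by_cases hsame : (x₀ ∈ P₁ ↔ y₀ ∈ P₁)
  · right
    have hall : ∀ x y : W, (x ∈ P₁ ↔ y ∈ P₁) := by
      have e : ∀ x : W, (x ∈ P₁ ↔ x₀ ∈ P₁) := by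
        intro x
        by_cases hx : x ∈ F
        · exact c1 x hx x₀ hx₀
        · exact (c2 x hx y₀ hy₀).trans hsame.symm
      intro x y
      exact (e x).trans (e y).symm
    rintro x ⟨y, hxy, hne⟩
    have e4 : ¬ (x ∈ P₂ ↔ y ∈ P₂) := prop_d _ _ _ _ _ _ (hFP x) (hFP y) hne (hall x y)
    obtain ⟨b, hb, hb2⟩ := hP₂' x y hxy e4
    rcases hsub ⟨y, hxy, hne⟩ with h | h
    · exfalso
      exact hnot x ⟨x, h, by simp⟩ ⟨b, hb, hb2⟩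
    · exact h
  · left
    rintro x ⟨y, hxy, hne⟩
    have e4 : ¬ (x ∈ P₁ ↔ y ∈ P₁) := by
      by_cases hx : x ∈ F
      · have hy : y ∉ F := fun hy => hne ⟨fun _ => hy, fun _ => hx⟩
        rw [c1 x hx x₀ hx₀, c2 y hy y₀ hy₀]
        exact hsame
      · have hy : y ∈ F := by
          by_contra hy
          exact hne ⟨fun h => absurd h hx, fun h => absurd h hy⟩
        rw [c1 y hy x₀ hx₀, c2 x hx y₀ hy₀]
        exact fun h => hsame h.symm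
    obtain ⟨b, hb, hb2⟩ := hP₁' x y hxy e4
    rcases hsub ⟨y, hxy, hne⟩ with h | h
    · exact h
    · exfalso
      exact hnot x ⟨b, hb, hb2⟩ ⟨x, h, by simp⟩

end Pool.Agent.Helpers.H19c
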