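import Pool.Agent.Helpers.H19cE4
import Pool.Agent.Helpers.H19cE5

/-!
`BondsClose` implies connected boundaries.
-/

namespace Pool.Agent.Helpers.H19c

universe u

variable {V : Type u} {Γ : SimpleGraph V}

theorem comp_symm {K : Set V} {a b : V} (h : b ∈ comp Γ K a) : a ∈ comp Γ K b := by
  obtain ⟨w, hw⟩ := h
  refine ⟨w.reverse, fun v hv => ?_⟩
  rw [SimpleGraph.Walk.support_reverse, List.mem_reverse] at hv
  exact hw v hv

theorem comp_trans {K : Set V} {a b c : V} (h : b ∈ comp Γ K a) (h' : c ∈ comp Γ K b) :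
    c ∈ comp Γ K a := by
  obtain ⟨w, hw⟩ := h
  obtain ⟨w', hw'⟩ := h'
  refine ⟨w.append w', fun v hv => ?_⟩
  rw [SimpleGraph.Walk.mem_support_append_iff] at hv
  rcases hv with hv | hv
  · exact hw v hv
  · exact hw' v hv

theorem comp_eq {K : Set V} {a b : V} (h : b ∈ comp Γ K a) : comp Γ K a = comp Γ K b := by
  ext c
  exact ⟨fun hc => comp_trans (comp_symm h) hc, fun hc => comp_trans h hc⟩

theorem nbhd_add (hc : Γ.Connected) {F : Set V} {j k : ℕ} {x z : V} (hx : x ∈ nbhd Γ F k)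
    (hz : Γ.dist x z ≤ j) : z ∈ nbhd Γ F (k + j) := by
  obtain ⟨y, hy, hxy⟩ := hx
  refine ⟨y, hy, ?_⟩
  have h1 := hc.dist_triangle (u := z) (v := x) (w := y)
  have h2 : Γ.dist z x ≤ j := by rw [SimpleGraph.dist_comm]; exact hz
  omega

theorem nbhd_mono {F : Set V} {j k : ℕ} (h : j ≤ k) : nbhd Γ F j ⊆ nbhd Γ F k := by
  rintro x ⟨y, hy, hxy⟩
  exact ⟨y, hy, hxy.trans h⟩

theorem sub_nbhd {F : Set V} (k : ℕ) : F ⊆ nbhd Γ F k := fun x hx => ⟨x, hx, by simp⟩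

theorem dist_adj {x y : V} (h : Γ.Adj x y) : Γ.dist x y = 1 :=
  SimpleGraph.dist_eq_one_iff_adj.2 h

/-- All vertices of a geodesic are close to its starting point. -/
theorem dist_le_of_mem (hc : Γ.Connected) {x y v : V} (w : Γ.Walk x y) (hv : v ∈ w.support) :
    Γ.dist x v ≤ w.length ∧ Γ.dist v y ≤ w.length := by
  classical
  constructor
  · exact (SimpleGraph.dist_le (w.takeUntil v hv)).trans (w.length_takeUntil_le hv)
  · exact (SimpleGraph.dist_le (w.dropUntil v hv)).trans (w.length_dropUntil_le hv)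

theorem CB_of_bondsClose (hc : Γ.Connected) (hlf : ∀ v, (Γ.neighborSet v).Finite)
    (hfin : ∀ F : Set V, CConnected Γ F → (bd Γ F).Finite) {l : ℕ} (h : BondsClose Γ l) :
    CB Γ (2 * l + 2) := by
  intro F hF
  have hbF := hfin F hF
  obtain ⟨hF1, hF2, -⟩ := hF
  obtain ⟨⟨x₀, hx₀⟩⟩ := hF1.nonempty
  obtain ⟨⟨y₀, hy₀⟩⟩ := hF2.nonempty
  obtain ⟨N, hN⟩ : ∃ N, N = nbhd Γ F (l + 1) := ⟨_, rfl⟩
  obtain ⟨Y, hY⟩ : ∃ Y, Y = nbhd Γ F (2 * l + 2 + 1) \ F := ⟨_, rfl⟩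
  rw [← hY]
  have hFN : F ⊆ N := hN ▸ sub_nbhd _
  -- walks inside N to x₀
  have hNw : ∀ z ∈ N, ∃ w : Γ.Walk z x₀, ∀ v ∈ w.support, v ∈ N := by
    intro z hz
    rw [hN] at hz
    obtain ⟨y, hy, hzy⟩ := hz
    obtain ⟨w, hw⟩ := hc.exists_walk_length_eq_dist z y
    have h1 : y ∈ comp Γ N z := by
      refine ⟨w, fun v hv => ?_⟩
      rw [hN]
      exact ⟨y, hy, (dist_le_of_mem hc w hv).2.trans (by omega)⟩
    have h2 : x₀ ∈ comp Γ N y := by
      obtain ⟨p⟩ := hF1.preconnected ⟨y, hy⟩ ⟨x₀, hx₀⟩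
      have key : ∀ (a b : F) (p : (Γ.induce F).Walk a b), b.1 ∈ comp Γ N a.1 := by
        intro a b p
        induction p with
        | nil => exact mem_comp_self (hFN (Subtype.property _))
        | @cons a b c hab p ih =>
          exact comp_trans (comp_adj (mem_comp_self (hFN a.2)) hab (hFN b.2)) ih
      exact key _ _ p
    exact comp_trans h1 h2
  -- boundary vertices of components
  have hbW : ∀ z ∈ Nᶜ, ∀ v ∈ bd Γ (comp Γ Nᶜ z), v ∈ nbhd Γ F (l + 2) ∧ v ∉ nbhd Γ F l := by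
    rintro z hz v ⟨v', hvv', hne⟩
    by_cases hv : v ∈ comp Γ Nᶜ z
    · have hv' : v' ∉ comp Γ Nᶜ z := fun h' => hne ⟨fun _ => h', fun _ => hv⟩
      have hv'N : v' ∈ N := by
        by_contra hn
        exact hv' (comp_adj hv hvv' hn)
      have hvN : v ∉ N := comp_sub hv
      rw [hN] at hv'N hvN
      exact ⟨nbhd_add (k := l + 1) (j := 1) hc hv'N (dist_adj hvv'.symm).le,
        fun h' => hvN (nbhd_mono (by omega) h')⟩
    · have hv' : v' ∈ comp Γ Nᶜ z := by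
        by_contra hn
        exact hne ⟨fun h' => absurd h' hv, fun h' => absurd h' hn⟩
      have hvN : v ∈ N := by
        by_contra hn
        exact hv (comp_adj hv' hvv'.symm hn)
      have hv'N : v' ∉ N := comp_sub hv'
      rw [hN] at hv'N hvN
      exact ⟨nbhd_mono (by omega) hvN, fun h' => hv'N (nbhd_add hc h' (dist_adj hvv').le)⟩
  have hnotF : ∀ v, v ∉ nbhd Γ F l → v ∉ F := fun v hv hvF => hv (sub_nbhd l hvF)
  have hbWY : ∀ z ∈ Nᶜ, ∀ v ∈ bd Γ (comp Γ Nᶜ z), v ∈ Y := by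
    intro z hz v hv
    obtain ⟨h1, h2⟩ := hbW z hz v hv
    rw [hY]
    exact ⟨nbhd_mono (by omega) h1, hnotF v h2⟩
  have hbWfin : ∀ z ∈ Nᶜ, (bd Γ (comp Γ Nᶜ z)).Finite := by
    intro z hz
    apply (hbF.biUnion fun b _ => ball_fin hc hlf b (l + 2)).subset
    intro v hv
    obtain ⟨⟨y, hy, hvy⟩, h2⟩ := hbW z hz v hv
    obtain ⟨w, hw⟩ := hc.exists_walk_length_eq_dist v y
    have hvF := hnotF v h2
    obtain ⟨b, -, hb, -, hb2⟩ := exists_bd (D := F) w (fun h' => hvF (h'.2 hy))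
    refine Set.mem_biUnion hb ?_
    change Γ.dist b v ≤ l + 2
    rw [SimpleGraph.dist_comm]
    omega
  have hlink : ∀ z ∈ Nᶜ, ∀ a ∈ bd Γ (comp Γ Nᶜ z), ∀ b ∈ bd Γ (comp Γ Nᶜ z), b ∈ comp Γ Y a := by
    intro z hz a ha b hb
    have h1 := h (comp Γ Nᶜ z) (comp_connected hz) (compl_comp_connected hc (hFN hx₀) hNw)
      (hbWfin z hz) {v | v ∈ bd Γ (comp Γ Nᶜ z) ∧ v ∈ comp Γ Y a}
      {v | v ∈ bd Γ (comp Γ Nᶜ z) ∧ v ∉ comp Γ Y a} (by
        intro v hv
        by_cases hv' : v ∈ comp Γ Y a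
        · exact Or.inl ⟨hv, hv'⟩
        · exact Or.inr ⟨hv, hv'⟩) (by
        rintro v ⟨hv1, hv2⟩ v' ⟨hv1', hv2'⟩
        by_contra hcon
        push Not at hcon
        obtain ⟨w, hw⟩ := hc.exists_walk_length_eq_dist v v'
        apply hv2'
        refine comp_trans hv2 ⟨w, fun u hu => ?_⟩
        obtain ⟨e1, e2⟩ := hbW z hz v hv1
        have e3 := (dist_le_of_mem hc w hu).1
        have e4 : Γ.dist v u ≤ l := by omega
        rw [hY]
        refine ⟨nbhd_mono (by omega) (nbhd_add hc e1 e4), fun huF => e2 ⟨u, huF, e4⟩⟩)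
    rcases h1 with h1 | h1
    · exact (h1 hb).2
    · exact absurd (mem_comp_self (hbWY z hz a ha)) (h1 ha).2
  -- representatives
  obtain ⟨Rep, hRep⟩ : ∃ Rep : V → V → Prop, ∀ z r, Rep z r ↔
      ((z ∈ N ∧ r = z) ∨ (z ∉ N ∧ r ∈ bd Γ (comp Γ Nᶜ z))) := ⟨_, fun _ _ => Iff.rfl⟩
  have hNY : ∀ z ∈ N, z ∉ F → z ∈ Y := by
    intro z hz hzF
    rw [hN] at hz
    rw [hY]
    exact ⟨nbhd_mono (by omega) hz, hzF⟩
  have hRepEx : ∀ z, ∃ r, Rep z r := by
    intro z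
    by_cases hz : z ∈ N
    · exact ⟨z, (hRep _ _).2 (Or.inl ⟨hz, rfl⟩)⟩
    · obtain ⟨w⟩ := hc.preconnected z x₀
      obtain ⟨b, -, hb, -, -⟩ := exists_bd (D := comp Γ Nᶜ z) w (fun h' =>
        (comp_sub (h'.1 (mem_comp_self hz))) (hFN hx₀))
      exact ⟨b, (hRep _ _).2 (Or.inr ⟨hz, hb⟩)⟩
  have hadj : ∀ a c, Γ.Adj a c → a ∉ F → c ∉ F → ∀ r r', Rep a r → Rep c r' →
      r' ∈ comp Γ Y r := by
    intro a c hac haF hcF r r' hr hr'
    rw [hRep] at hr hr'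
    rcases hr with ⟨haN, hr⟩ | ⟨haN, hr⟩ <;> rcases hr' with ⟨hcN, hr'⟩ | ⟨hcN, hr'⟩
    · rw [hr, hr']
      exact comp_adj (mem_comp_self (hNY a haN haF)) hac (hNY c hcN hcF)
    · rw [hr]
      refine hlink c hcN a ⟨c, hac, fun h' => ?_⟩ r' hr'
      exact (comp_sub (h'.2 (mem_comp_self hcN))) haN
    · rw [hr']
      refine hlink a haN r hr c ⟨a, hac.symm, fun h' => ?_⟩
      exact (comp_sub (h'.2 (mem_comp_self haN))) hcN
    · have he : comp Γ Nᶜ a = comp Γ Nᶜ c := comp_eq (comp_adj (mem_comp_self haN) hac hcN)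
      rw [← he] at hr'
      exact hlink a haN r hr r' hr'
  have hwalk : ∀ (a b : (Fᶜ : Set V)) (p : (Γ.induce Fᶜ).Walk a b), ∀ r r', Rep a r → Rep b r' →
      r' ∈ comp Γ Y r := by
    intro a b p
    induction p with
    | @nil a =>
      intro r r' hr hr'
      rw [hRep] at hr hr'
      rcases hr with ⟨haN, hr⟩ | ⟨haN, hr⟩ <;> rcases hr' with ⟨hcN, hr'⟩ | ⟨hcN, hr'⟩
      · rw [hr, hr']; exact mem_comp_self (hNY _ haN a.2)
      · exact absurd haN hcN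
      · exact absurd hcN haN
      · exact hlink a haN r hr r' hr'
    | @cons a c b hac p ih =>
      intro r r' hr hr'
      obtain ⟨s, hs⟩ := hRepEx c
      exact comp_trans (hadj a c hac a.2 c.2 r s hr hs) (ih s r' hs hr')
  have hdown : ∀ n, ∀ z, z ∉ F → z ∈ nbhd Γ F n → n ≤ 2 * l + 2 + 1 →
      ∃ r, Rep z r ∧ r ∈ comp Γ Y z := by
    intro n
    induction n with
    | zero =>
      intro z hz hz0 _
      have hzN : z ∈ N := by rw [hN]; exact nbhd_mono (by omega) hz0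
      exact ⟨z, (hRep _ _).2 (Or.inl ⟨hzN, rfl⟩), mem_comp_self (hNY z hzN hz)⟩
    | succ n ih =>
      intro z hz hz0 hn
      by_cases hzN : z ∈ N
      · exact ⟨z, (hRep _ _).2 (Or.inl ⟨hzN, rfl⟩), mem_comp_self (hNY z hzN hz)⟩
      · have hzY : z ∈ Y := by rw [hY]; exact ⟨nbhd_mono hn hz0, hz⟩
        obtain ⟨y, hy, hzy⟩ := hz0
        obtain ⟨w, hw⟩ := hc.exists_walk_length_eq_dist z y
        cases w with
        | nil => exact absurd hy hz
        | @cons _ z' _ hadj' w =>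
          rw [SimpleGraph.Walk.length_cons] at hw
          have h1 := SimpleGraph.dist_le w
          have hz'n : z' ∈ nbhd Γ F n := ⟨y, hy, by omega⟩
          have hz'F : z' ∉ F := by
            intro h'
            apply hzN
            rw [hN]
            exact ⟨z', h', by rw [dist_adj hadj']; omega⟩
          by_cases hz'N : z' ∈ N
          · refine ⟨z, (hRep _ _).2 (Or.inr ⟨hzN, z', hadj', fun h' => ?_⟩), mem_comp_self hzY⟩
            exact (comp_sub (h'.1 (mem_comp_self hzN))) hz'N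
          · obtain ⟨r, hr1, hr2⟩ := ih z' hz'F hz'n (by omega)
            have hz'Y : z' ∈ Y := by rw [hY]; exact ⟨nbhd_mono (by omega) hz'n, hz'F⟩
            have he : comp Γ Nᶜ z = comp Γ Nᶜ z' :=
              comp_eq (comp_adj (mem_comp_self hzN) hadj' hz'N)
            refine ⟨r, (hRep _ _).2 (Or.inr ⟨hzN, ?_⟩), ?_⟩
            · rcases (hRep _ _).1 hr1 with h' | h'
              · exact absurd h'.1 hz'N
              · rw [he]; exact h'.2
            · exact comp_trans (comp_adj (mem_comp_self hzY) hadj' hz'Y) hr2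
  -- a base point
  obtain ⟨b, hbY⟩ : ∃ b, b ∈ Y := by
    obtain ⟨w⟩ := hc.preconnected y₀ x₀
    obtain ⟨b, -, ⟨b', hbb', hne⟩, hb2, -⟩ := exists_bd (D := F) w (fun h' => hy₀ (h'.2 hx₀))
    have hbF' : b ∉ F := fun h' => hy₀ (hb2.1 h')
    have hb'F : b' ∈ F := by
      by_contra hn
      exact hne ⟨fun h' => absurd h' hbF', fun h' => absurd h' hn⟩
    refine ⟨b, ?_⟩
    rw [hY]
    exact ⟨⟨b', hb'F, by rw [dist_adj hbb']; omega⟩, hbF'⟩
  have hYF : ∀ z ∈ Y, z ∉ F ∧ z ∈ nbhd Γ F (2 * l + 2 + 1) := by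
    intro z hz
    rw [hY] at hz
    exact ⟨hz.2, hz.1⟩
  apply connected_of_walks hbY
  intro z hz
  obtain ⟨r, hr1, hr2⟩ := hdown _ z (hYF z hz).1 (hYF z hz).2 le_rfl
  obtain ⟨r', hr1', hr2'⟩ := hdown _ b (hYF b hbY).1 (hYF b hbY).2 le_rfl
  obtain ⟨p⟩ := hF2.preconnected ⟨z, (hYF z hz).1⟩ ⟨b, (hYF b hbY).1⟩
  exact comp_trans hr2 (comp_trans (hwalk _ _ p r r' hr1 hr1') (comp_symm hr2'))

end Pool.Agent.Helpers.H19c
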