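import Pool.Agent.Helpers.H19cDefs

/-!
Components inside a set of vertices, bonds inside cuts, splitting of finite cuts.
-/

namespace Pool.Agent.Helpers.H19c

universe u

variable {V : Type u} {Γ : SimpleGraph V}

/-- The vertices that can be reached from `x` by a walk inside `K`. -/
def comp (Γ : SimpleGraph V) (K : Set V) (x : V) : Set V :=
  {a | ∃ w : Γ.Walk x a, ∀ v ∈ w.support, v ∈ K}

theorem mem_comp_self {K : Set V} {x : V} (hx : x ∈ K) : x ∈ comp Γ K x :=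
  ⟨SimpleGraph.Walk.nil, by simpa using hx⟩

theorem comp_sub {K : Set V} {x : V} : comp Γ K x ⊆ K := by
  rintro a ⟨w, hw⟩
  exact hw a w.end_mem_support

theorem comp_adj {K : Set V} {x a b : V} (ha : a ∈ comp Γ K x) (hab : Γ.Adj a b) (hb : b ∈ K) :
    b ∈ comp Γ K x := by
  obtain ⟨w, hw⟩ := ha
  refine ⟨w.concat hab, ?_⟩
  intro v hv
  rw [SimpleGraph.Walk.support_concat] at hv
  simp only [List.concat_eq_append, List.mem_append, List.mem_singleton] at hv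
  rcases hv with hv | hv
  · exact hw v hv
  · rw [hv]; exact hb

theorem walk_in_comp {K : Set V} {x a : V} (w : Γ.Walk x a) (hw : ∀ v ∈ w.support, v ∈ K) :
    ∀ v ∈ w.support, v ∈ comp Γ K x := by
  classical
  intro v hv
  refine ⟨w.takeUntil v hv, fun z hz => hw z ?_⟩
  exact w.support_takeUntil_subset hv hz

theorem reachable_of_walk {K : Set V} {a b : V} (w : Γ.Walk a b) (hw : ∀ v ∈ w.support, v ∈ K)
    (ha : a ∈ K) (hb : b ∈ K) : (Γ.induce K).Reachable ⟨a, ha⟩ ⟨b, hb⟩ := by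
  induction w with
  | nil => exact SimpleGraph.Reachable.refl _
  | @cons a b c hab w ih =>
    have hb' : b ∈ K := hw b (by simp)
    have h1 : (Γ.induce K).Adj ⟨a, ha⟩ ⟨b, hb'⟩ := hab
    exact h1.reachable.trans (ih (fun v hv => hw v (by simp [hv])) hb' hb)

theorem connected_of_walks {K : Set V} {x : V} (hx : x ∈ K)
    (h : ∀ z ∈ K, ∃ w : Γ.Walk z x, ∀ v ∈ w.support, v ∈ K) : (Γ.induce K).Connected := by
  have : Nonempty K := ⟨⟨x, hx⟩⟩
  refine ⟨fun a b => ?_⟩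
  obtain ⟨w, hw⟩ := h a.1 a.2
  obtain ⟨w', hw'⟩ := h b.1 b.2
  exact (reachable_of_walk w hw a.2 hx).trans (reachable_of_walk w' hw' b.2 hx).symm

theorem comp_connected {K : Set V} {x : V} (hx : x ∈ K) : (Γ.induce (comp Γ K x)).Connected := by
  apply connected_of_walks (mem_comp_self hx)
  rintro z ⟨w, hw⟩
  refine ⟨w.reverse, fun v hv => ?_⟩
  rw [SimpleGraph.Walk.support_reverse, List.mem_reverse] at hv
  exact walk_in_comp w hw v hv

/-- If the walks inside `K` from `x` reach a connected set `M`, the complement of a component of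
the complement of `M` is connected. -/
theorem compl_comp_connected (hc : Γ.Connected) {M : Set V} {x y : V} (hx : x ∈ M)
    (hM : ∀ z ∈ M, ∃ w : Γ.Walk z x, ∀ v ∈ w.support, v ∈ M) :
    (Γ.induce (comp Γ Mᶜ y)ᶜ).Connected := by
  have hxE : x ∈ (comp Γ Mᶜ y)ᶜ := fun h => (comp_sub h) hx
  apply connected_of_walks hxE
  have key : ∀ (z t : V) (w : Γ.Walk z t), t = x → z ∈ (comp Γ Mᶜ y)ᶜ →
      ∃ w : Γ.Walk z x, ∀ v ∈ w.support, v ∈ (comp Γ Mᶜ y)ᶜ := by
    intro z t w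
    induction w with
    | nil =>
      intro h hz
      subst h
      exact ⟨SimpleGraph.Walk.nil, by simpa using hz⟩
    | @cons a b c hab w ih =>
      intro h ha
      by_cases hb : b ∈ (comp Γ Mᶜ y)ᶜ
      · obtain ⟨w', hw'⟩ := ih h hb
        refine ⟨SimpleGraph.Walk.cons hab w', fun v hv => ?_⟩
        rw [SimpleGraph.Walk.support_cons, List.mem_cons] at hv
        rcases hv with hv | hv
        · rw [hv]; exact ha
        · exact hw' v hv
      · have hb' : b ∈ comp Γ Mᶜ y := by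
          by_contra hn; exact hb hn
        have haM : a ∈ M := by
          by_contra hn
          exact ha (comp_adj hb' hab.symm hn)
        obtain ⟨w', hw'⟩ := hM a haM
        exact ⟨w', fun v hv h' => (comp_sub h') (hw' v hv)⟩
  intro z hz
  obtain ⟨w⟩ := hc.preconnected z x
  exact key z x w rfl hz

theorem exists_bond (hc : Γ.Connected) {D : Set V} {x y : V} (hx : x ∈ D) (hy : y ∉ D)
    (hxy : Γ.Adj x y) : ∃ E : Set V, (Γ.induce E).Connected ∧ (Γ.induce Eᶜ).Connected ∧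
      y ∈ E ∧ x ∉ E ∧ ∀ a b, Γ.Adj a b → ¬ (a ∈ E ↔ b ∈ E) → ¬ (a ∈ D ↔ b ∈ D) := by
  obtain ⟨M, hM⟩ : ∃ M, M = comp Γ D x := ⟨_, rfl⟩
  have hxM : x ∈ M := hM ▸ mem_comp_self hx
  have hyM : y ∈ Mᶜ := by
    intro h
    rw [hM] at h
    exact hy (comp_sub h)
  have hMw : ∀ z ∈ M, ∃ w : Γ.Walk z x, ∀ v ∈ w.support, v ∈ M := by
    intro z hz
    rw [hM] at hz
    obtain ⟨w, hw⟩ := hz
    refine ⟨w.reverse, fun v hv => ?_⟩
    rw [SimpleGraph.Walk.support_reverse, List.mem_reverse] at hv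
    rw [hM]
    exact walk_in_comp w hw v hv
  have hcut : ∀ a b, Γ.Adj a b → a ∈ comp Γ Mᶜ y → b ∉ comp Γ Mᶜ y → a ∉ D ∧ b ∈ D := by
    intro a b hab ha hb
    have hbM : b ∈ M := by
      by_contra hn
      exact hb (comp_adj ha hab hn)
    have haM : a ∉ M := comp_sub ha
    refine ⟨fun haD => haM ?_, ?_⟩
    · rw [hM] at hbM ⊢
      exact comp_adj hbM hab.symm haD
    · rw [hM] at hbM
      exact comp_sub hbM
  refine ⟨comp Γ Mᶜ y, comp_connected hyM, compl_comp_connected hc hxM hMw, mem_comp_self hyM,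
    fun h => (comp_sub h) hxM, ?_⟩
  intro a b hab hne hD
  by_cases ha : a ∈ comp Γ Mᶜ y
  · have hb : b ∉ comp Γ Mᶜ y := fun hb => hne ⟨fun _ => hb, fun _ => ha⟩
    obtain ⟨h1, h2⟩ := hcut a b hab ha hb
    exact h1 (hD.2 h2)
  · have hb : b ∈ comp Γ Mᶜ y := by
      by_contra hb
      exact hne ⟨fun h => absurd h ha, fun h => absurd h hb⟩
    obtain ⟨h1, h2⟩ := hcut b a hab.symm hb ha
    exact h1 (hD.1 h2)

/-- Ordered pairs of adjacent vertices separated by `D`. -/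
def cp (Γ : SimpleGraph V) (D : Set V) : Set (V × V) :=
  {e | Γ.Adj e.1 e.2 ∧ ¬ (e.1 ∈ D ↔ e.2 ∈ D)}

theorem cp_finite {D : Set V} (h : (bd Γ D).Finite) : (cp Γ D).Finite := by
  apply (h.prod h).subset
  rintro ⟨a, b⟩ ⟨hab, hne⟩
  exact ⟨⟨b, hab, hne⟩, ⟨a, hab.symm, fun h => hne h.symm⟩⟩

theorem prop_e (a b c d : Prop) (h : ¬ ((¬ (a ↔ b)) ↔ ¬ (c ↔ d))) : ¬ (a ↔ c) ∨ ¬ (b ↔ d) := by
  by_cases ha : a <;> by_cases hb : b <;> by_cases hc : c <;> by_cases hd : d <;> simp_all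

theorem prop_f (d e d1 d2 : Prop) (h : (¬ (d ↔ e)) ↔ ¬ (d1 ↔ d2)) :
    (d ↔ ¬ ((¬ (d1 ↔ e)) ↔ d2)) ∧ (d ↔ ¬ (d1 ↔ ¬ (d2 ↔ e))) := by
  by_cases ha : d <;> by_cases hb : e <;> by_cases hc : d1 <;> by_cases hd : d2 <;> simp_all

theorem bd_symmDiff (D E : Set V) : bd Γ {z | ¬ (z ∈ D ↔ z ∈ E)} ⊆ bd Γ D ∪ bd Γ E := by
  rintro x ⟨y, hxy, hne⟩
  rcases prop_e _ _ _ _ hne with h | h
  · exact Or.inl ⟨y, hxy, h⟩
  · exact Or.inr ⟨y, hxy, h⟩

theorem split (hc : Γ.Connected) {l : ℕ} (h : BondsClose Γ l) (D : Set V)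
    (hfin : (bd Γ D).Finite) (B₁ B₂ : Set V) (hsub : bd Γ D ⊆ B₁ ∪ B₂)
    (hfar : ∀ x ∈ B₁, ∀ y ∈ B₂, l < Γ.dist x y) :
    ∃ D₁ D₂ : Set V, (∀ x, x ∈ D ↔ ¬ (x ∈ D₁ ↔ x ∈ D₂)) ∧ bd Γ D₁ ⊆ B₁ ∧ bd Γ D₂ ⊆ B₂ := by
  obtain ⟨n, hn⟩ : ∃ n, n = (cp Γ D).ncard := ⟨_, rfl⟩
  induction n using Nat.strong_induction_on generalizing D with
  | _ n ih =>
    rcases Set.eq_empty_or_nonempty (bd Γ D) with hempty | ⟨x', y', hxy', hne'⟩
    · refine ⟨D, ∅, by simp, by rw [hempty]; exact Set.empty_subset _, ?_⟩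
      rintro x ⟨y, -, hne⟩
      exact absurd (by simp) hne
    · obtain ⟨x, y, hxy, hx, hy⟩ : ∃ x y, Γ.Adj x y ∧ x ∈ D ∧ y ∉ D := by
        by_cases hx : x' ∈ D
        · exact ⟨x', y', hxy', hx, fun hy => hne' ⟨fun _ => hy, fun _ => hx⟩⟩
        · refine ⟨y', x', hxy'.symm, ?_, hx⟩
          by_contra hy
          exact hne' ⟨fun h => absurd h hx, fun h => absurd h hy⟩
      obtain ⟨E, hE, hEc, hyE, hxE, hcut⟩ := exists_bond hc hx hy hxy
      have hbdE : bd Γ E ⊆ bd Γ D := by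
        rintro a ⟨b, hab, hne⟩
        exact ⟨b, hab, hcut a b hab hne⟩
      obtain ⟨D', hD'⟩ : ∃ D' : Set V, D' = {z | ¬ (z ∈ D ↔ z ∈ E)} := ⟨_, rfl⟩
      have hbdD' : bd Γ D' ⊆ bd Γ D := by
        rw [hD']
        intro z hz
        rcases bd_symmDiff D E hz with h1 | h1
        · exact h1
        · exact hbdE h1
      have hcpsub : cp Γ D' ⊂ cp Γ D := by
        rw [Set.ssubset_iff_of_subset]
        · refine ⟨(x, y), ⟨hxy, fun h => hy (h.1 hx)⟩, ?_⟩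
          rintro ⟨-, h1⟩
          apply h1
          rw [hD']
          simp only [Set.mem_setOf_eq]
          constructor
          · intro _ h2
            exact hy (h2.2 hyE)
          · intro _ h2
            exact hxE (h2.1 hx)
        · rintro ⟨a, b⟩ ⟨hab, hne⟩
          refine ⟨hab, ?_⟩
          rw [hD'] at hne
          rcases prop_e _ _ _ _ hne with h1 | h1
          · exact h1
          · exact hcut a b hab h1
      have hlt : (cp Γ D').ncard < n := by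
        rw [hn]
        exact Set.ncard_lt_ncard hcpsub (cp_finite hfin)
      obtain ⟨D₁, D₂, h1, h2, h3⟩ := ih _ hlt D' (hfin.subset hbdD') (hbdD'.trans hsub) rfl
      have h4 : ∀ z, (¬ (z ∈ D ↔ z ∈ E)) ↔ ¬ (z ∈ D₁ ↔ z ∈ D₂) := by
        intro z
        have := h1 z
        rw [hD'] at this
        exact this
      rcases h E hE hEc (hfin.subset hbdE) B₁ B₂ (hbdE.trans hsub) hfar with h5 | h5
      · refine ⟨{z | ¬ (z ∈ D₁ ↔ z ∈ E)}, D₂, fun z => (prop_f _ _ _ _ (h4 z)).1, ?_, h3⟩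
        exact (bd_symmDiff D₁ E).trans (Set.union_subset h2 h5)
      · refine ⟨D₁, {z | ¬ (z ∈ D₂ ↔ z ∈ E)}, fun z => (prop_f _ _ _ _ (h4 z)).2, h2, ?_⟩
        exact (bd_symmDiff D₂ E).trans (Set.union_subset h3 h5)

end Pool.Agent.Helpers.H19c
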