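import Pool.Agent.Helpers.H19cE1
import Pool.Agent.Helpers.H19cE2
import Pool.Agent.Helpers.H19cE3
import Pool.Agent.Helpers.H19AsdC

/-!
Having connected boundaries is invariant under quasi-isometries.
-/

namespace Pool.Agent.Helpers.H19c

universe u v

open Pool.Agent.Helpers.H19Asd

theorem main {V : Type u} {W : Type v} {Γ : SimpleGraph V} {Δ : SimpleGraph W}
    (hΓ : Γ.Connected) (hΔ : Δ.Connected) (hlf : ∀ v, (Γ.neighborSet v).Finite)
    (hlf' : ∀ v, (Δ.neighborSet v).Finite) {f : V → W} (hf : IsQI Γ Δ f)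
    (h : ConnectedBoundaries Γ) : ConnectedBoundaries Δ := by
  obtain ⟨r, hr⟩ := h
  have h1 := bondsClose_of_CB hΓ hr
  obtain ⟨L, hL⟩ := qi_bondsClose hΓ hΔ hlf hf (fun D hfin B₁ B₂ hsub hfar =>
    split hΓ h1 D hfin B₁ B₂ hsub hfar)
  exact ⟨_, CB_of_bondsClose hΔ hlf' (fun F hF => bd_finite hΔ hlf' hF) hL⟩

theorem cayley_finite {G : Type u} [Group G] {S : Set G} (hS : S.Finite) (v : G) :
    ((cayley S).neighborSet v).Finite := by
  apply ((hS.union hS.inv).image (fun s => v * s)).subset
  intro w hw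
  have hw' : (cayley S).Adj v w := hw
  refine ⟨v⁻¹ * w, ?_, by simp⟩
  rcases hw'.2 with h | h
  · exact Or.inl h
  · right
    rw [Set.mem_inv]
    simpa using h

theorem cayley_lipschitz {G : Type u} [Group G] {S T : Set G} (hS : S.Finite)
    (hSc : Subgroup.closure S = ⊤) (hTc : Subgroup.closure T = ⊤) :
    ∃ A : ℕ, ∀ x y, (cayley T).dist x y ≤ A * (cayley S).dist x y := by
  obtain ⟨A, hA⟩ := (hS.image (fun s => (cayley T).dist 1 s)).bddAbove
  refine ⟨A, ?_⟩
  have hT := cayley_connected hTc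
  have step : ∀ x y, x⁻¹ * y ∈ S → (cayley T).dist x y ≤ A := by
    intro x y h
    rw [dist_one hTc]
    exact hA ⟨_, h, rfl⟩
  have key : ∀ (x y : G) (p : (cayley S).Walk x y), (cayley T).dist x y ≤ A * p.length := by
    intro x y p
    induction p with
    | nil => simp
    | @cons x z y hxz p ih =>
      rw [SimpleGraph.Walk.length_cons]
      have h1 : (cayley T).dist x z ≤ A := by
        rcases hxz.2 with h | h
        · exact step _ _ h
        · rw [SimpleGraph.dist_comm]; exact step _ _ h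
      have h2 := hT.dist_triangle (u := x) (v := z) (w := y)
      rw [mul_add, mul_one]
      omega
  intro x y
  obtain ⟨p, hp⟩ := (cayley_connected hSc).exists_walk_length_eq_dist x y
  rw [← hp]
  exact key x y p

theorem cayley_qi {G : Type u} [Group G] {S T : Set G} (hS : S.Finite) (hT : T.Finite)
    (hSc : Subgroup.closure S = ⊤) (hTc : Subgroup.closure T = ⊤) :
    IsQI (cayley S) (cayley T) (id : G → G) := by
  obtain ⟨A, hA⟩ := cayley_lipschitz hS hSc hTc
  obtain ⟨A', hA'⟩ := cayley_lipschitz hT hTc hSc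
  refine ⟨A + A', 0, fun x y => ?_, fun x y => ?_, fun w => ⟨w, by simp⟩⟩
  · refine (hA x y).trans ?_
    rw [add_zero]
    exact Nat.mul_le_mul_right _ (by omega)
  · refine (hA' x y).trans ?_
    rw [add_zero]
    exact Nat.mul_le_mul_right _ (by omega)

end Pool.Agent.Helpers.H19c
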