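import Mathlib

/-!
Palindromic width of the free group of rank two: finite for the generating set `a, b, ab`,
infinite for the generating set `a, b`.
-/

namespace Pool.Agent.Helpers.H19d

open FreeGroup

abbrev G : Type := FreeGroup (Fin 2)
abbrev T : Type := Fin 2 × Bool

/-! ### The counting function -/

/-- Weight of two consecutive letters. -/
def c (x y : T) : ℤ :=
  if x.2 = y.2 then (if x.1 = 0 ∧ y.1 = 1 then 1 else if x.1 = 1 ∧ y.1 = 0 then -1 else 0) else 0

/-- Sum of the weights of consecutive letters. -/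
def s : List T → ℤ
  | [] => 0
  | [_] => 0
  | x :: y :: L => c x y + s (y :: L)

theorem c_swap : ∀ x y : T, c y x = - c x y := by decide
theorem c_inv : ∀ x y : T, c (x.1, !x.2) (y.1, !y.2) = c x y := by decide
theorem c_abs : ∀ x y : T, |c x y| ≤ 1 := by decide

theorem s_append_cons (A B : List T) (x y : T) :
    s (A ++ x :: y :: B) = s (A ++ [x]) + c x y + s (y :: B) := by
  induction A with
  | nil => simp [s]
  | cons z A ih =>
    cases A with
    | nil => simp [s]; ring
    | cons z' A =>
      have h1 : s (z :: z' :: A ++ x :: y :: B) = c z z' + s (z' :: A ++ x :: y :: B) := rfl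
      have h2 : s (z :: z' :: A ++ [x]) = c z z' + s (z' :: A ++ [x]) := rfl
      rw [h1, h2, ih]
      ring

theorem s_append (A B : List T) : |s (A ++ B) - s A - s B| ≤ 1 := by
  rcases List.eq_nil_or_concat A with h | ⟨A', x, h⟩
  · subst h; simp [s]
  · cases B with
    | nil => simp [s]
    | cons y B =>
      rw [h]
      simp only [List.concat_eq_append, List.append_assoc, List.singleton_append]
      rw [s_append_cons]
      have := c_abs x y
      have e : s (A' ++ [x]) + c x y + s (y :: B) - s (A' ++ [x]) - s (y :: B) = c x y := by ring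
      rw [e]
      exact this

theorem s_reverse (L : List T) : s L.reverse = - s L := by
  induction L with
  | nil => simp [s]
  | cons x L ih =>
    cases L with
    | nil => simp [s]
    | cons y L =>
      have h1 : (x :: y :: L).reverse = L.reverse ++ y :: x :: [] := by simp
      have h2 : (y :: L).reverse = L.reverse ++ [y] := by simp
      rw [h1, s_append_cons, ← h2, ih, c_swap]
      simp [s]

theorem s_map_inv (L : List T) : s (L.map fun g => (g.1, !g.2)) = s L := by
  induction L with
  | nil => rfl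
  | cons x L ih =>
    cases L with
    | nil => rfl
    | cons y L =>
      have h1 : s ((x :: y :: L).map fun g => (g.1, !g.2)) = c (x.1, !x.2) (y.1, !y.2) +
        s ((y :: L).map fun g => (g.1, !g.2)) := rfl
      rw [h1, ih, c_inv]
      rfl

theorem s_invRev (L : List T) : s (invRev L) = - s L := by
  unfold invRev
  rw [s_reverse, s_map_inv]

theorem decomp (U : List T) : ∀ V : List T, IsReduced U → IsReduced V →
    ∃ A Z B, U = A ++ Z ∧ V = invRev Z ++ B ∧ reduce (U ++ V) = A ++ B := by
  induction U using List.reverseRecOn with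
  | nil =>
    intro V _ hV
    exact ⟨[], [], V, rfl, by simp [invRev], by simpa using hV.reduce_eq⟩
  | append_singleton U x ih =>
    intro V hU hV
    cases V with
    | nil => exact ⟨U ++ [x], [], [], by simp, by simp [invRev], by simpa using hU.reduce_eq⟩
    | cons y V =>
      by_cases hxy : x.1 = y.1 → x.2 = y.2
      · have hred : IsReduced (U ++ [x] ++ y :: V) := by
          unfold FreeGroup.IsReduced at hU hV ⊢
          rw [List.isChain_append]
          refine ⟨hU, hV, ?_⟩
          intro a ha b hb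
          simp only [List.getLast?_append, List.getLast?_singleton, Option.some_or,
            Option.mem_def, Option.some.injEq] at ha
          simp only [List.head?_cons, Option.mem_def, Option.some.injEq] at hb
          rw [← ha, ← hb]
          exact hxy
        exact ⟨U ++ [x], [], y :: V, by simp, by simp [invRev], hred.reduce_eq⟩
      · obtain ⟨h1, h2⟩ := Classical.not_imp.1 hxy
        have hU' : IsReduced U := by
          unfold FreeGroup.IsReduced at hU ⊢
          exact (List.isChain_append.1 hU).1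
        have hV' : IsReduced V := by
          unfold FreeGroup.IsReduced at hV ⊢
          exact hV.tail
        obtain ⟨A, Z, B, e1, e2, e3⟩ := ih V hU' hV'
        have hy : y = (x.1, !x.2) := by
          ext1
          · exact h1.symm
          · cases hx2 : x.2 <;> cases hy2 : y.2 <;> simp_all
        refine ⟨A, Z ++ [x], B, by rw [e1]; simp, ?_, ?_⟩
        · rw [e2, hy]; simp [invRev]
        · rw [← e3]
          apply reduce.Step.eq
          have e4 : U ++ [x] ++ y :: V = U ++ (x.1, x.2) :: (x.1, !x.2) :: V := by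
            rw [hy]; simp
          rw [e4]
          exact Red.Step.not

/-- The counting quasimorphism. -/
def F (u : G) : ℤ := s u.toWord

theorem F_mul (u v : G) : |F (u * v) - F u - F v| ≤ 3 := by
  obtain ⟨A, Z, B, e1, e2, e3⟩ := decomp u.toWord v.toWord isReduced_toWord isReduced_toWord
  unfold F
  rw [toWord_mul, e3, e1, e2]
  have h1 := s_append A B
  have h2 := s_append A Z
  have h3 := s_append (invRev Z) B
  rw [s_invRev] at h3
  rw [abs_le] at *
  constructor <;> linarith [h1.1, h1.2, h2.1, h2.2, h3.1, h3.2]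

theorem red_reverse {L M : List T} (h : Red L M) : Red L.reverse M.reverse := by
  have step : ∀ a b : List T, Red.Step a b → Red.Step a.reverse b.reverse := by
    intro a b hab
    cases hab with
    | @not L₁ L₂ x b =>
      simp only [List.reverse_append, List.reverse_cons, List.append_assoc,
        List.cons_append, List.nil_append]
      exact Red.Step.not_rev
  induction h with
  | refl => exact Red.refl
  | tail _ hab ih => exact ih.tail (step _ _ hab)

theorem reduce_reverse (L : List T) : reduce L.reverse = (reduce L).reverse := by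
  have h1 : Red L.reverse (reduce L).reverse := red_reverse reduce.red
  have h2 : IsReduced (reduce L).reverse := by
    have h3 : IsReduced (reduce L) := by
      rw [isReduced_iff_reduce_eq]; exact reduce.idem
    unfold FreeGroup.IsReduced at h3 ⊢
    rw [List.isChain_reverse]
    apply h3.imp
    intro a b hab h
    exact (hab h.symm).symm
  rw [reduce.eq_of_red h1]
  exact h2.reduce_eq

/-- Value of a palindrome in `a`, `b`. -/
theorem F_pal (w : List G) (hw : ∀ x ∈ w, x ∈ ({of 0, of 1} : Set G) ∨ x⁻¹ ∈ ({of 0, of 1} : Set G))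
    (hr : w.reverse = w) : F w.prod = 0 := by
  have hex : ∀ w : List G, (∀ x ∈ w, x ∈ ({of 0, of 1} : Set G) ∨ x⁻¹ ∈ ({of 0, of 1} : Set G)) →
      ∃ L : List T, w = L.map (fun t => (FreeGroup.mk [t] : G)) := by
    intro w
    induction w with
    | nil => intro _; exact ⟨[], rfl⟩
    | cons x w ih =>
      intro hw
      obtain ⟨L, hL⟩ := ih (fun y hy => hw y (List.mem_cons_of_mem _ hy))
      have hx := hw x List.mem_cons_self
      have : ∃ t : T, x = FreeGroup.mk [t] := by
        rcases hx with (h | h) | (h | h)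
        · exact ⟨(0, true), h⟩
        · exact ⟨(1, true), h⟩
        · refine ⟨(0, false), ?_⟩
          rw [← inv_inv x, h]; rfl
        · refine ⟨(1, false), ?_⟩
          rw [← inv_inv x, Set.mem_singleton_iff.1 h]; rfl
      obtain ⟨t, ht⟩ := this
      exact ⟨t :: L, by rw [hL, ht]; rfl⟩
  obtain ⟨L, hL⟩ := hex w hw
  have hinj : Function.Injective (fun t : T => (FreeGroup.mk [t] : G)) := by
    intro t t' h
    have := congrArg toWord h
    simp only [toWord_mk, reduce_singleton] at this
    simpa using this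
  have hLr : L.reverse = L := by
    apply List.map_injective_iff.2 hinj
    rw [List.map_reverse, ← hL, hr]
  have hprod : ∀ L : List T, (L.map (fun t => (FreeGroup.mk [t] : G))).prod = FreeGroup.mk L := by
    intro L
    induction L with
    | nil => rfl
    | cons t L ih => rw [List.map_cons, List.prod_cons, ih]; rfl
  rw [hL, hprod]
  unfold F
  rw [toWord_mk]
  have h1 : s (reduce L) = - s (reduce L) := by
    rw [← s_reverse, ← reduce_reverse, hLr]
  omega

/-- Commutator words. -/
def W : ℕ → List T
  | 0 => []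
  | n + 1 => (0, true) :: (1, true) :: (0, false) :: (1, false) :: W n

theorem W_red (n : ℕ) : IsReduced (W n) ∧ (W n = [] ∨ ∃ L, W n = (0, true) :: L) := by
  induction n with
  | zero => exact ⟨IsReduced.nil, Or.inl rfl⟩
  | succ n ih =>
    refine ⟨?_, Or.inr ⟨_, rfl⟩⟩
    obtain ⟨h1, h2⟩ := ih
    have e : W (n + 1) = (0, true) :: (1, true) :: (0, false) :: (1, false) :: W n := rfl
    rw [e]
    unfold FreeGroup.IsReduced at h1 ⊢
    rcases h2 with h2 | ⟨L, h2⟩
    · rw [h2]; simp
    · rw [h2] at h1 ⊢
      simp [h1]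

theorem s_W (n : ℕ) : s (W n) = 2 * n := by
  induction n with
  | zero => rfl
  | succ n ih =>
    have e : W (n + 1) = (0, true) :: (1, true) :: (0, false) :: (1, false) :: W n := rfl
    rw [e]
    rcases (W_red n).2 with h2 | ⟨L, h2⟩
    · rw [h2] at ih ⊢
      have e1 : s ([(0, true), (1, true), (0, false), (1, false)] : List T) = 2 := by decide
      rw [e1]
      have e2 : s ([] : List T) = 0 := rfl
      rw [e2] at ih
      push_cast
      linarith
    · rw [h2] at ih ⊢
      have e1 : s ((0, true) :: (1, true) :: (0, false) :: (1, false) :: (0, true) :: L) =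
        c (0, true) (1, true) + (c (1, true) (0, false) + (c (0, false) (1, false) +
          (c (1, false) (0, true) + s ((0, true) :: L)))) := rfl
      have e2 : c (0, true) (1, true) = 1 := by decide
      have e3 : c (1, true) (0, false) = 0 := by decide
      have e4 : c (0, false) (1, false) = 1 := by decide
      have e5 : c (1, false) (0, true) = 0 := by decide
      rw [e1, e2, e3, e4, e5, ih]
      push_cast
      ring

theorem infinite_width : ¬ (∃ N : ℕ, ∀ g : G, ∃ ps : List G, ps.length ≤ N ∧ ps.prod = g ∧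
    ∀ p ∈ ps, ∃ w : List G, (∀ x ∈ w, x ∈ ({of 0, of 1} : Finset G) ∨
      x⁻¹ ∈ ({of 0, of 1} : Finset G)) ∧ w.reverse = w ∧ w.prod = p) := by
  rintro ⟨N, hN⟩
  obtain ⟨ps, h1, h2, h3⟩ := hN (FreeGroup.mk (W (3 * N + 1)))
  have key : ∀ ps : List G, (∀ p ∈ ps, F p = 0) → |F ps.prod| ≤ 3 * ps.length := by
    intro ps
    induction ps with
    | nil =>
      intro _
      have : F (1 : G) = 0 := rfl
      simp [this]
    | cons p ps ih =>
      intro hp
      rw [List.prod_cons, List.length_cons]
      have e1 := F_mul p ps.prod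
      have e2 := hp p List.mem_cons_self
      have e3 := ih (fun q hq => hp q (List.mem_cons_of_mem _ hq))
      rw [abs_le] at *
      push_cast
      constructor <;> linarith [e1.1, e1.2, e3.1, e3.2]
  have h4 := key ps (by
    intro p hp
    obtain ⟨w, hw1, hw2, hw3⟩ := h3 p hp
    rw [← hw3]
    apply F_pal w _ hw2
    intro x hx
    simpa using hw1 x hx)
  rw [h2] at h4
  have h5 : F (FreeGroup.mk (W (3 * N + 1))) = 2 * ((3 * N + 1 : ℕ) : ℤ) := by
    unfold F
    rw [toWord_mk, (W_red _).1.reduce_eq, s_W]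
  rw [h5, abs_of_nonneg (by positivity)] at h4
  have h6 : (ps.length : ℤ) ≤ N := by exact_mod_cast h1
  push_cast at h4
  linarith

/-! ### Finite width for `a, b, ab` -/

/-- There is a word in `X` with value `g` whose reversal has value `h`. -/
def Q (X : Set G) (g h : G) : Prop :=
  ∃ w : List G, (∀ x ∈ w, x ∈ X ∨ x⁻¹ ∈ X) ∧ w.prod = g ∧ w.reverse.prod = h

theorem Q_mul {X : Set G} {g h g' h' : G} (hq : Q X g h) (hq' : Q X g' h') :
    Q X (g * g') (h' * h) := by
  obtain ⟨w, hw, e1, e2⟩ := hq
  obtain ⟨w', hw', e1', e2'⟩ := hq'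
  refine ⟨w ++ w', ?_, by rw [List.prod_append, e1, e1'], by
    rw [List.reverse_append, List.prod_append, e2, e2']⟩
  intro x hx
  rcases List.mem_append.1 hx with hx | hx
  · exact hw x hx
  · exact hw' x hx

theorem Q_inv {X : Set G} {g h : G} (hq : Q X g h) : Q X g⁻¹ h⁻¹ := by
  obtain ⟨w, hw, e1, e2⟩ := hq
  refine ⟨(w.map (fun x => x⁻¹)).reverse, ?_, ?_, ?_⟩
  · intro x hx
    rw [List.mem_reverse, List.mem_map] at hx
    obtain ⟨y, hy, rfl⟩ := hx
    rcases hw y hy with h | h
    · right; simpa using h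
    · left; exact h
  · rw [← e1, List.prod_inv_reverse]
  · rw [List.reverse_reverse, ← e2, List.prod_inv_reverse, List.map_reverse, List.reverse_reverse]

theorem Q_one {X : Set G} : Q X 1 1 := ⟨[], by simp, rfl, rfl⟩

theorem Q_mem {X : Set G} {x : G} (hx : x ∈ X) : Q X x x :=
  ⟨[x], by intro y hy; left; rw [List.mem_singleton.1 hy]; exact hx, by simp, by simp⟩

/-- The generating set. -/
def X3 : Set G := {of 0, of 1, of 0 * of 1}

theorem Q_ex (h : G) : ∃ g, Q X3 g h := by
  induction h using FreeGroup.induction_on with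
  | C1 => exact ⟨1, Q_one⟩
  | of i =>
    refine ⟨of i, Q_mem ?_⟩
    fin_cases i
    · exact Or.inl rfl
    · exact Or.inr (Or.inl rfl)
  | inv_of i hi =>
    obtain ⟨g, hg⟩ := hi
    exact ⟨g⁻¹, Q_inv hg⟩
  | mul x y hx hy =>
    obtain ⟨g, hg⟩ := hx
    obtain ⟨g', hg'⟩ := hy
    exact ⟨g' * g, Q_mul hg' hg⟩

/-- The values of reversals of words with value `1`. -/
def Nn : Subgroup G where
  carrier := {n | Q X3 1 n}
  mul_mem' {a b} ha hb := by
    have := Q_mul hb ha
    rw [mul_one] at this
    exact this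
  one_mem' := Q_one
  inv_mem' {a} ha := by
    have := Q_inv ha
    rw [inv_one] at this
    exact this

theorem Nn_normal : Nn.Normal := by
  refine ⟨fun n hn h => ?_⟩
  obtain ⟨g, hg⟩ := Q_ex h⁻¹
  have h1 := Q_mul (Q_mul hg hn) (Q_inv hg)
  rw [mul_one, mul_inv_cancel, inv_inv] at h1
  change Q X3 1 (h * n * h⁻¹)
  rw [mul_assoc]
  exact h1

theorem comm_mem : of 1 * of 0 * (of 0 * of 1)⁻¹ ∈ Nn := by
  have h1 := Q_mul (Q_inv (Q_mem (X := X3) (x := of 0 * of 1) (Or.inr (Or.inr rfl))))
    (Q_mul (Q_mem (X := X3) (x := of 0) (Or.inl rfl)) (Q_mem (X := X3) (x := of 1)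
      (Or.inr (Or.inl rfl))))
  rw [inv_mul_cancel] at h1
  exact h1

theorem finite_width (g : G) : ∃ (m n : ℤ) (k : G), k ∈ Nn ∧ g = of 0 ^ m * of 1 ^ n * k := by
  have := Nn_normal
  obtain ⟨A, hA⟩ : ∃ A : G ⧸ Nn, A = QuotientGroup.mk (of 0) := ⟨_, rfl⟩
  obtain ⟨B, hB⟩ : ∃ B : G ⧸ Nn, B = QuotientGroup.mk (of 1) := ⟨_, rfl⟩
  have hcomm : Commute A B := by
    change A * B = B * A
    rw [hA, hB, ← QuotientGroup.mk_mul, ← QuotientGroup.mk_mul]
    symm
    rw [QuotientGroup.eq]
    have h1 := Nn_normal.conj_mem _ (Nn.inv_mem comm_mem) (of 1 * of 0)⁻¹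
    have e : (of 1 * of 0 : G)⁻¹ * (of 1 * of 0 * (of 0 * of 1)⁻¹)⁻¹ * ((of 1 * of 0)⁻¹)⁻¹ =
      (of 1 * of 0)⁻¹ * (of 0 * of 1) := by group
    rw [e] at h1
    exact h1
  have key : ∀ g : G, ∃ m n : ℤ, (QuotientGroup.mk g : G ⧸ Nn) = A ^ m * B ^ n := by
    intro g
    induction g using FreeGroup.induction_on with
    | C1 => exact ⟨0, 0, by simp⟩
    | of i =>
      fin_cases i
      · exact ⟨1, 0, by rw [hA]; simp⟩
      · exact ⟨0, 1, by rw [hB]; simp⟩
    | inv_of i hi =>
      obtain ⟨m, n, h⟩ := hi
      refine ⟨-m, -n, ?_⟩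
      rw [QuotientGroup.mk_inv, h, mul_inv_rev, zpow_neg, zpow_neg]
      exact ((hcomm.zpow_zpow m n).symm.inv_inv).eq
    | mul x y hx hy =>
      obtain ⟨m, n, h⟩ := hx
      obtain ⟨m', n', h'⟩ := hy
      refine ⟨m + m', n + n', ?_⟩
      rw [QuotientGroup.mk_mul, h, h', zpow_add, zpow_add]
      have := (hcomm.zpow_zpow m' n).eq
      calc A ^ m * B ^ n * (A ^ m' * B ^ n') = A ^ m * (B ^ n * A ^ m') * B ^ n' := by group
        _ = A ^ m * (A ^ m' * B ^ n) * B ^ n' := by rw [this]
        _ = A ^ m * A ^ m' * (B ^ n * B ^ n') := by group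
  obtain ⟨m, n, h⟩ := key g
  refine ⟨m, n, (of 0 ^ m * of 1 ^ n)⁻¹ * g, ?_, by group⟩
  rw [← QuotientGroup.eq, QuotientGroup.mk_mul, QuotientGroup.mk_zpow, QuotientGroup.mk_zpow, ← hA,
    ← hB, h]

theorem pal_of_mem {k : G} (hk : k ∈ Nn) : ∃ w : List G, (∀ x ∈ w, x ∈ X3 ∨ x⁻¹ ∈ X3) ∧
    w.reverse = w ∧ w.prod = k := by
  obtain ⟨w, hw, e1, e2⟩ := hk
  refine ⟨w ++ w.reverse, ?_, by simp, by rw [List.prod_append, e1, e2, one_mul]⟩
  intro x hx
  rcases List.mem_append.1 hx with hx | hx
  · exact hw x hx
  · exact hw x (List.mem_reverse.1 hx)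

theorem pal_zpow {x : G} (hx : x ∈ X3) (m : ℤ) : ∃ w : List G, (∀ x ∈ w, x ∈ X3 ∨ x⁻¹ ∈ X3) ∧
    w.reverse = w ∧ w.prod = x ^ m := by
  rcases le_total 0 m with h | h
  · refine ⟨List.replicate m.toNat x, ?_, by simp, ?_⟩
    · intro y hy
      left
      rw [List.eq_of_mem_replicate hy]
      exact hx
    · rw [List.prod_replicate, ← zpow_natCast, Int.toNat_of_nonneg h]
  · refine ⟨List.replicate (-m).toNat x⁻¹, ?_, by simp, ?_⟩
    · intro y hy
      right
      rw [List.eq_of_mem_replicate hy, inv_inv]
      exact hx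
    · rw [List.prod_replicate, ← zpow_natCast, Int.toNat_of_nonneg (by omega)]
      simp

end Pool.Agent.Helpers.H19d
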