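import Mathlib

/-!
Leading terms of units of `M_2(ℤ)[t]` and a free group of rank two.
-/

set_option autoImplicit false
set_option linter.unusedSimpArgs false

namespace Pool.Agent.Helpers.H19e

open Polynomial
open scoped commutatorElement

abbrev A := Matrix (Fin 2) (Fin 2) ℤ
abbrev S := Polynomial A
abbrev F := FreeGroup (Fin 2)

def Em : A := !![0, 1; 0, 0]
def Fm : A := !![0, 0; 1, 0]
def Hm : A := !![1, 0; 0, -1]

theorem EE : Em * Em = 0 := by decide
theorem FF : Fm * Fm = 0 := by decide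
theorem HE : Hm * Em - Em * Hm = 2 • Em := by decide
theorem HF : Hm * Fm - Fm * Hm = (-2 : ℤ) • Fm := by decide
theorem HE' (e c : ℤ) : (e • Hm) * (c • Em) - (c • Em) * (e • Hm) = (2 * (e * c)) • Em := by
  ext i j
  fin_cases i <;> fin_cases j <;>
    simp [Hm, Em, Matrix.mul_apply, Fin.sum_univ_two, Matrix.smul_apply]
  ring
theorem HF' (e c : ℤ) : (e • Hm) * (c • Fm) - (c • Fm) * (e • Hm) = (-2 * (e * c)) • Fm := by
  ext i j
  fin_cases i <;> fin_cases j <;>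
    simp [Hm, Fm, Matrix.mul_apply, Fin.sum_univ_two, Matrix.smul_apply]
  ring
theorem EF : Em * Fm - Fm * Em = Hm := by decide

/-- Leading term. -/
def Lead (d : ℕ) (a : A) (u : Sˣ) : Prop :=
  ∃ α : S, (u : S) - 1 = X ^ d * α ∧ constantCoeff α = a

theorem xcomm (d : ℕ) (α : S) : α * X ^ d = X ^ d * α := (X_pow_mul (p := α) (n := d)).symm

theorem comm_eq (u v : Sˣ) : ((⁅u, v⁆ : Sˣ) : S) - 1 =
    (((u : S) - 1) * ((v : S) - 1) - ((v : S) - 1) * ((u : S) - 1)) *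
      (((u⁻¹ : Sˣ) : S) * ((v⁻¹ : Sˣ) : S)) := by
  have h : ((v : S) * (u : S)) * (((u⁻¹ : Sˣ) : S) * ((v⁻¹ : Sˣ) : S)) = 1 := by
    rw [← Units.val_mul, ← Units.val_mul, ← Units.val_mul]
    have : v * u * (u⁻¹ * v⁻¹) = 1 := by group
    rw [this, Units.val_one]
  rw [commutatorElement_def]
  push_cast
  have e : ((u : S) - 1) * ((v : S) - 1) - ((v : S) - 1) * ((u : S) - 1) =
      (u : S) * v - (v : S) * u := by simp only [sub_mul, mul_sub, mul_add, add_mul, mul_one, one_mul, mul_assoc]; abel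
  rw [e, sub_mul, h]
  simp only [mul_assoc]

theorem comm_gen {d e : ℕ} {u v : Sˣ} {α β : S} (hu : (u : S) - 1 = X ^ d * α)
    (hv : (v : S) - 1 = X ^ e * β) : ((⁅u, v⁆ : Sˣ) : S) - 1 =
    X ^ (d + e) * ((α * β - β * α) * (((u⁻¹ : Sˣ) : S) * ((v⁻¹ : Sˣ) : S))) := by
  rw [comm_eq, hu, hv]
  have h1 : X ^ d * α * (X ^ e * β) = X ^ (d + e) * (α * β) := by
    rw [mul_assoc, ← mul_assoc α, xcomm, pow_add]
    simp only [mul_assoc]
  have h2 : X ^ e * β * (X ^ d * α) = X ^ (d + e) * (β * α) := by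
    rw [mul_assoc, ← mul_assoc β, xcomm, add_comm, pow_add]
    simp only [mul_assoc]
  rw [h1, h2, ← mul_sub, mul_assoc]

/-- The congruence subgroups. -/
def K (d : ℕ) : Subgroup Sˣ where
  carrier := {u | ∃ α : S, (u : S) - 1 = X ^ d * α}
  one_mem' := ⟨0, by simp⟩
  mul_mem' := by
    rintro u v ⟨α, hα⟩ ⟨β, hβ⟩
    refine ⟨α * v + β, ?_⟩
    have : ((u * v : Sˣ) : S) - 1 = ((u : S) - 1) * v + ((v : S) - 1) := by
      push_cast; simp only [sub_mul, mul_sub, mul_add, add_mul, mul_one, one_mul, mul_assoc]; abel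
    rw [this, hα, hβ, mul_add, mul_assoc]
  inv_mem' := by
    rintro u ⟨α, hα⟩
    refine ⟨-(α * ((u⁻¹ : Sˣ) : S)), ?_⟩
    have : ((u⁻¹ : Sˣ) : S) - 1 = -(((u : S) - 1) * ((u⁻¹ : Sˣ) : S)) := by
      rw [sub_mul, Units.mul_inv]
      simp only [sub_mul, mul_sub, mul_add, add_mul, mul_one, one_mul, mul_assoc]; abel
    rw [this, hα, mul_neg (X ^ d : S) (α * ((u⁻¹ : Sˣ) : S)), mul_assoc]

theorem K_const {u : Sˣ} (hu : u ∈ K 1) : constantCoeff (u : S) = 1 := by
  obtain ⟨α, hα⟩ := hu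
  have : (u : S) = 1 + X ^ 1 * α := by rw [← hα]; abel
  rw [this, map_add, map_mul, map_pow]
  simp

theorem K_comm {d e : ℕ} {u v : Sˣ} (hu : u ∈ K d) (hv : v ∈ K e) : ⁅u, v⁆ ∈ K (d + e) := by
  obtain ⟨α, hα⟩ := hu
  obtain ⟨β, hβ⟩ := hv
  exact ⟨_, comm_gen hα hβ⟩

theorem K_le {d e : ℕ} (h : d ≤ e) : K e ≤ K d := by
  rintro u ⟨α, hα⟩
  refine ⟨X ^ (e - d) * α, ?_⟩
  rw [hα, ← mul_assoc, ← pow_add]
  congr 2
  omega

theorem Lead.mem {d : ℕ} {a : A} {u : Sˣ} (h : Lead d a u) : u ∈ K d := ⟨h.choose, h.choose_spec.1⟩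

theorem lead_comm {d e : ℕ} {a b : A} {u v : Sˣ} (hu : Lead d a u) (hv : Lead e b v)
    (hd : 1 ≤ d) (he : 1 ≤ e) : Lead (d + e) (a * b - b * a) ⁅u, v⁆ := by
  have h1 := K_const ((K 1).inv_mem (K_le hd hu.mem))
  have h2 := K_const ((K 1).inv_mem (K_le he hv.mem))
  obtain ⟨α, hα, ha⟩ := hu
  obtain ⟨β, hβ, hb⟩ := hv
  refine ⟨_, comm_gen hα hβ, ?_⟩
  rw [map_mul, map_mul, map_sub, map_mul, map_mul, h1, h2, ha, hb, mul_one, mul_one]

theorem lead_conj {d : ℕ} {a : A} {x y : Sˣ} (hx : Lead d a x) (hy : y ∈ K 1) :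
    Lead d a (y * x * y⁻¹) := by
  have h1 := K_const hy
  have h2 := K_const ((K 1).inv_mem hy)
  obtain ⟨α, hα, ha⟩ := hx
  refine ⟨(y : S) * α * ((y⁻¹ : Sˣ) : S), ?_, ?_⟩
  · have : ((y * x * y⁻¹ : Sˣ) : S) - 1 = (y : S) * ((x : S) - 1) * ((y⁻¹ : Sˣ) : S) := by
      push_cast
      rw [mul_sub, sub_mul, mul_one, Units.mul_inv]
    rw [this, hα, ← mul_assoc (y : S), xcomm]
    simp only [mul_assoc]
  · rw [map_mul, map_mul, h1, h2, ha, one_mul, mul_one]

theorem lead_mul {d D : ℕ} {a : A} {x u v : Sˣ} (hx : Lead d a x) (hD : d < D)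
    (hu : u ∈ K D) (hv : v ∈ K D) : Lead d a (u * x * v) := by
  have h1 := K_const (K_le (by omega : 1 ≤ D) hv)
  obtain ⟨α, hα, ha⟩ := hx
  obtain ⟨β, hβ⟩ := hu
  obtain ⟨γ, hγ⟩ := hv
  obtain ⟨n, rfl⟩ : ∃ n, D = d + (n + 1) := ⟨D - d - 1, by omega⟩
  refine ⟨X ^ (n + 1) * (β * (x : S) * (v : S)) + α * (v : S) + X ^ (n + 1) * γ, ?_, ?_⟩
  · have : ((u * x * v : Sˣ) : S) - 1 = ((u : S) - 1) * x * v + ((x : S) - 1) * v + ((v : S) - 1) := by
      push_cast; simp only [sub_mul, mul_sub, mul_add, add_mul, mul_one, one_mul, mul_assoc]; abel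
    rw [this, hα, hβ, hγ, pow_add]
    simp only [mul_add, mul_assoc]
  · simp only [map_add, map_mul, map_pow, h1, ha, mul_one]
    simp

theorem lead_not {d D : ℕ} {a : A} {x : Sˣ} (hx : Lead d a x) (hD : d < D) (h : x ∈ K D) :
    a = 0 := by
  obtain ⟨α, hα, ha⟩ := hx
  obtain ⟨β, hβ⟩ := h
  have h1 : (X ^ d * α : S).coeff d = (X ^ D * β : S).coeff d := by rw [← hα, ← hβ]
  rw [coeff_X_pow_mul', coeff_X_pow_mul', if_pos le_rfl, if_neg (by omega), Nat.sub_self] at h1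
  rw [← ha]
  exact h1

/-- The two generators. -/
noncomputable def xU : Sˣ where
  val := 1 + X * C Em
  inv := 1 - X * C Em
  val_inv := by
    have : (X * C Em : S) * (X * C Em) = 0 := by
      rw [mul_assoc, ← mul_assoc (C Em), ← X_mul, mul_assoc X, ← C_mul, EE, C_0]
      simp
    have e : (1 + X * C Em : S) * (1 - X * C Em) = 1 - (X * C Em) * (X * C Em) := by simp only [sub_mul, mul_sub, mul_add, add_mul, mul_one, one_mul, mul_assoc]; abel
    rw [e, this, sub_zero]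
  inv_val := by
    have : (X * C Em : S) * (X * C Em) = 0 := by
      rw [mul_assoc, ← mul_assoc (C Em), ← X_mul, mul_assoc X, ← C_mul, EE, C_0]
      simp
    have e : (1 - X * C Em : S) * (1 + X * C Em) = 1 - (X * C Em) * (X * C Em) := by simp only [sub_mul, mul_sub, mul_add, add_mul, mul_one, one_mul, mul_assoc]; abel
    rw [e, this, sub_zero]

noncomputable def yU : Sˣ where
  val := 1 + X * C Fm
  inv := 1 - X * C Fm
  val_inv := by
    have : (X * C Fm : S) * (X * C Fm) = 0 := by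
      rw [mul_assoc, ← mul_assoc (C Fm), ← X_mul, mul_assoc X, ← C_mul, FF, C_0]
      simp
    have e : (1 + X * C Fm : S) * (1 - X * C Fm) = 1 - (X * C Fm) * (X * C Fm) := by simp only [sub_mul, mul_sub, mul_add, add_mul, mul_one, one_mul, mul_assoc]; abel
    rw [e, this, sub_zero]
  inv_val := by
    have : (X * C Fm : S) * (X * C Fm) = 0 := by
      rw [mul_assoc, ← mul_assoc (C Fm), ← X_mul, mul_assoc X, ← C_mul, FF, C_0]
      simp
    have e : (1 - X * C Fm : S) * (1 + X * C Fm) = 1 - (X * C Fm) * (X * C Fm) := by simp only [sub_mul, mul_sub, mul_add, add_mul, mul_one, one_mul, mul_assoc]; abel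
    rw [e, this, sub_zero]

theorem lead_x : Lead 1 Em xU := ⟨C Em, by simp [xU], by simp⟩
theorem lead_y : Lead 1 Fm yU := ⟨C Fm, by simp [yU], by simp⟩

noncomputable def mu : F →* Sˣ := FreeGroup.lift ![xU, yU]

theorem mu_x : mu (FreeGroup.of 0) = xU := by simp [mu]
theorem mu_y : mu (FreeGroup.of 1) = yU := by simp [mu]

theorem mu_mem (w : F) : mu w ∈ K 1 := by
  induction w using FreeGroup.induction_on with
  | C1 => rw [map_one]; exact (K 1).one_mem
  | of i =>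
    fin_cases i
    · show mu (FreeGroup.of 0) ∈ _
      rw [mu_x]; exact lead_x.mem
    · show mu (FreeGroup.of 1) ∈ _
      rw [mu_y]; exact lead_y.mem
  | inv_of i h => rw [map_inv]; exact (K 1).inv_mem h
  | mul x y hx hy => rw [map_mul]; exact (K 1).mul_mem hx hy

theorem mu_derived (j : ℕ) : derivedSeries F j ≤ (K (2 ^ j)).comap mu := by
  induction j with
  | zero =>
    intro w _
    exact mu_mem w
  | succ j ih =>
    rw [derivedSeries_succ, Subgroup.commutator_le]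
    intro g hg h hh
    rw [Subgroup.mem_comap, map_commutatorElement, pow_succ, mul_two]
    exact K_comm (ih hg) (ih hh)

/-- The sequences `E_k, Y_k, H_k`. -/
def sq : ℕ → F × F × F
  | 0 => (FreeGroup.of 0, FreeGroup.of 1, ⁅(FreeGroup.of 0 : F), (FreeGroup.of 1 : F)⁆)
  | k + 1 => (⁅(sq k).2.2, (sq k).1⁆, ⁅(sq k).2.2, (sq k).2.1⁆, ⁅(sq k).1, (sq k).2.1⁆)

theorem sq_mem (k : ℕ) : (sq k).1 ∈ derivedSeries F k ∧ (sq k).2.1 ∈ derivedSeries F k ∧
    (sq k).2.2 ∈ derivedSeries F k := by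
  induction k with
  | zero => simp
  | succ k ih =>
    obtain ⟨h1, h2, h3⟩ := ih
    rw [derivedSeries_succ, sq]
    exact ⟨Subgroup.commutator_mem_commutator h3 h1, Subgroup.commutator_mem_commutator h3 h2,
      Subgroup.commutator_mem_commutator h1 h2⟩

theorem lead_h0 : Lead 2 Hm (mu ⁅(FreeGroup.of 0 : F), (FreeGroup.of 1 : F)⁆) := by
  have h := lead_comm lead_x lead_y le_rfl le_rfl
  rw [EF, one_add_one_eq_two, ← mu_x, ← mu_y, ← map_commutatorElement] at h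
  exact h

theorem sq_lead (k : ℕ) : ∃ (p q : ℕ) (c c' e : ℤ), 1 ≤ p ∧ 1 ≤ q ∧ p < 2 ^ (k + 1) ∧
    q ≤ 2 ^ (k + 1) ∧ c ≠ 0 ∧ c' ≠ 0 ∧ e ≠ 0 ∧ Lead p (c • Em) (mu (sq k).1) ∧
    Lead p (c' • Fm) (mu (sq k).2.1) ∧ Lead q (e • Hm) (mu (sq k).2.2) := by
  induction k with
  | zero =>
    have h1 : Lead 1 ((1 : ℤ) • Em) (mu (sq 0).1) := by
      rw [one_smul, sq, mu_x]; exact lead_x
    have h2 : Lead 1 ((1 : ℤ) • Fm) (mu (sq 0).2.1) := by
      rw [one_smul, sq, mu_y]; exact lead_y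
    have h3 : Lead 2 ((1 : ℤ) • Hm) (mu (sq 0).2.2) := by
      rw [one_smul, sq]; exact lead_h0
    exact ⟨1, 2, 1, 1, 1, le_rfl, by norm_num, by norm_num, by norm_num, one_ne_zero,
      one_ne_zero, one_ne_zero, h1, h2, h3⟩
  | succ k ih =>
    obtain ⟨p, q, c, c', e, hp, hq, hp2, hq2, hc, hc', he, h1, h2, h3⟩ := ih
    have g1 : Lead (q + p) ((2 * (e * c)) • Em) (mu (sq (k + 1)).1) := by
      have h := lead_comm h3 h1 hq hp
      have e1 : (e • Hm) * (c • Em) - (c • Em) * (e • Hm) = (2 * (e * c)) • Em := by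
        exact HE' e c
      rw [e1, ← map_commutatorElement] at h
      rw [sq]
      exact h
    have g2 : Lead (q + p) ((-2 * (e * c')) • Fm) (mu (sq (k + 1)).2.1) := by
      have h := lead_comm h3 h2 hq hp
      have e1 : (e • Hm) * (c' • Fm) - (c' • Fm) * (e • Hm) = (-2 * (e * c')) • Fm := by
        exact HF' e c'
      rw [e1, ← map_commutatorElement] at h
      rw [sq]
      exact h
    have g3 : Lead (p + p) ((c * c') • Hm) (mu (sq (k + 1)).2.2) := by
      have h := lead_comm h1 h2 hp hp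
      have e1 : (c • Em) * (c' • Fm) - (c' • Fm) * (c • Em) = (c * c') • Hm := by
        rw [smul_mul_smul_comm, smul_mul_smul_comm, mul_comm c' c, ← smul_sub, EF]
      rw [e1, ← map_commutatorElement] at h
      rw [sq]
      exact h
    exact ⟨q + p, p + p, 2 * (e * c), -2 * (e * c'), c * c', by omega, by omega,
      by rw [pow_succ]; omega, by rw [pow_succ]; omega, by simp [hc, he], by simp [hc', he],
      by simp [hc, hc'], g1, g2, g3⟩

end Pool.Agent.Helpers.H19e
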