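import Mathlib
import Pool.Agent.Helpers.H19eLead

/-!
Combs in the product of the derived quotients of a free group of rank two.
-/

set_option autoImplicit false

namespace Pool.Agent.Helpers.H19e

open scoped commutatorElement

/-- `f_k = E_k` or `1`. -/
def fe (ε : ℕ → Bool) (k : ℕ) : F := if ε k then (sq k).1 else 1

/-- `H_k`. -/
def hh (k : ℕ) : F := (sq k).2.2

theorem fe_mem (ε : ℕ → Bool) (k : ℕ) : fe ε k ∈ derivedSeries F k := by
  unfold fe
  split_ifs
  · exact (sq_mem k).1
  · exact Subgroup.one_mem _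

theorem hh_mem (k : ℕ) : hh k ∈ derivedSeries F k := (sq_mem k).2.2

/-- Truncated values. -/
def v (ε : ℕ → Bool) : ℕ → ℕ → F
  | _, 0 => 1
  | k, m + 1 => fe ε k * ⁅hh k, v ε (k + 1) m⁆

theorem v_succ (ε : ℕ → Bool) (k m : ℕ) : v ε k (m + 1) = fe ε k * ⁅hh k, v ε (k + 1) m⁆ := by
  rw [v]

theorem ds_anti {j k : ℕ} (h : j ≤ k) : derivedSeries F k ≤ derivedSeries F j :=
  derivedSeries_antitone F h

theorem comm_mem_right {N : Subgroup F} [N.Normal] (a : F) {y : F} (hy : y ∈ N) : ⁅a, y⁆ ∈ N := by
  rw [commutatorElement_def]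
  exact N.mul_mem (Subgroup.Normal.conj_mem inferInstance y hy a) (N.inv_mem hy)

theorem v_mem (ε : ℕ → Bool) : ∀ m k : ℕ, v ε k m ∈ derivedSeries F k := by
  intro m
  induction m with
  | zero => intro k; rw [v]; exact Subgroup.one_mem _
  | succ m ih =>
    intro k
    rw [v_succ]
    exact Subgroup.mul_mem _ (fe_mem ε k)
      (comm_mem_right _ (ds_anti (Nat.le_succ k) (ih (k + 1))))

theorem key {G : Type*} [Group G] (f a y y' : G) :
    (f * ⁅a, y⁆)⁻¹ * (f * ⁅a, y'⁆) = y * ⁅a, y⁻¹ * y'⁆ * y⁻¹ := by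
  simp only [commutatorElement_def]
  group

theorem v_step (ε : ℕ → Bool) : ∀ m k : ℕ, (v ε k m)⁻¹ * v ε k (m + 1) ∈ derivedSeries F (k + m) := by
  intro m
  induction m with
  | zero =>
    intro k
    have e1 : v ε k 0 = 1 := by rw [v]
    have e2 : v ε (k + 1) 0 = 1 := by rw [v]
    rw [v_succ, e1, e2, commutatorElement_one_right, mul_one, inv_one, one_mul]
    exact fe_mem ε k
  | succ m ih =>
    intro k
    rw [v_succ ε k (m + 1), v_succ ε k m, key]
    have h := ih (k + 1)
    have e : k + 1 + m = k + (m + 1) := by omega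
    rw [e] at h
    exact Subgroup.Normal.conj_mem inferInstance _ (comm_mem_right _ h) _

/-- The product of the derived quotients. -/
abbrev PP := (j : ℕ) → F ⧸ derivedSeries F j

/-- The diagonal map. -/
def io : F →* PP := MonoidHom.pi fun j => QuotientGroup.mk' (derivedSeries F j)

/-- The comb elements. -/
def z (ε : ℕ → Bool) (k : ℕ) : PP := fun j => QuotientGroup.mk (v ε k j)

theorem z_rec (ε : ℕ → Bool) (k : ℕ) : z ε k = io (fe ε k) * ⁅io (hh k), z ε (k + 1)⁆ := by
  funext j
  have h1 : (QuotientGroup.mk (v ε k j) : F ⧸ derivedSeries F j) = QuotientGroup.mk (v ε k (j + 1)) := by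
    rw [QuotientGroup.eq]
    exact ds_anti (by omega) (v_step ε j k)
  show (QuotientGroup.mk (v ε k j) : F ⧸ derivedSeries F j) = _
  rw [h1, v_succ]
  rfl

theorem z_inj : Function.Injective fun ε : ℕ → Bool => z ε 0 := by
  classical
  -- the basic case
  have main : ∀ ε ε' : ℕ → Bool, ∀ k, (∀ i < k, ε i = ε' i) → ε k = false → ε' k = true →
      z ε 0 ≠ z ε' 0 := by
    intro ε ε' k hlt hk hk' hz
    have Q : ∀ n i, i + n = k → ∃ (d : ℕ) (c : ℤ), 1 ≤ d ∧ c ≠ 0 ∧ ∀ m,
        Lead d (c • Em) (mu ((v ε i (n + 1 + m))⁻¹ * v ε' i (n + 1 + m))) := by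
      intro n
      induction n with
      | zero =>
        intro i hi
        obtain rfl : i = k := by omega
        obtain ⟨p, q, c, c', e, hp, hq, hp2, hq2, hc, hc', he, h1, h2, h3⟩ := sq_lead i
        refine ⟨p, c, hp, hc, fun m => ?_⟩
        have e0 : 0 + 1 + m = m + 1 := by omega
        have e1 : fe ε i = 1 := by simp [fe, hk]
        have e2 : fe ε' i = (sq i).1 := by simp [fe, hk']
        rw [e0, v_succ, v_succ, e1, e2, one_mul, ← mul_assoc, map_mul, map_mul]
        apply lead_mul h1 hp2
        · rw [map_inv]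
          exact Subgroup.inv_mem _ (mu_derived (i + 1) (comm_mem_right _ (v_mem ε m (i + 1))))
        · exact mu_derived (i + 1) (comm_mem_right _ (v_mem ε' m (i + 1)))
      | succ n ih =>
        intro i hi
        obtain ⟨d, c, hd, hc, hl⟩ := ih (i + 1) (by omega)
        obtain ⟨p, q, c1, c', e, hp, hq, hp2, hq2, hc1, hc', he, h1, h2, h3⟩ := sq_lead i
        refine ⟨q + d, 2 * (e * c), by omega, by simp [he, hc], fun m => ?_⟩
        have e0 : n + 1 + 1 + m = (n + 1 + m) + 1 := by omega
        have e1 : fe ε i = fe ε' i := by simp [fe, hlt i (by omega)]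
        rw [e0, v_succ, v_succ, e1, key, map_mul, map_mul, map_inv]
        apply lead_conj _ (mu_mem _)
        rw [map_commutatorElement]
        have h := lead_comm h3 (hl m) hq hd
        rw [HE' e c] at h
        exact h
    obtain ⟨d, c, hd, hc, hl⟩ := Q k 0 (by omega)
    have h1 := hl d
    have h2 : (v ε 0 (k + 1 + d))⁻¹ * v ε' 0 (k + 1 + d) ∈ derivedSeries F (k + 1 + d) := by
      rw [← QuotientGroup.eq]
      exact congrFun hz (k + 1 + d)
    have h3 := mu_derived _ h2
    have h4 : d < 2 ^ (k + 1 + d) := lt_of_lt_of_le (Nat.lt_two_pow_self)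
      (Nat.pow_le_pow_right (by norm_num) (by omega))
    have h5 := lead_not h1 h4 h3
    have h6 := congrFun (congrFun h5 0) 1
    simp [Em] at h6
    exact hc h6
  intro ε ε' hz
  by_contra hne
  have hex : ∃ k, ε k ≠ ε' k := by
    by_contra h
    push Not at h
    exact hne (funext h)
  have hspec := Nat.find_spec hex
  have hmin : ∀ i < Nat.find hex, ε i = ε' i := fun i hi => by
    have := Nat.find_min hex hi
    push Not at this
    exact this
  rcases hb : ε (Nat.find hex) with _ | _
  · have hb' : ε' (Nat.find hex) = true := by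
      rw [hb] at hspec
      cases h : ε' (Nat.find hex)
      · exact absurd h.symm hspec
      · rfl
    exact main ε ε' _ hmin hb hb' hz
  · have hb' : ε' (Nat.find hex) = false := by
      rw [hb] at hspec
      cases h : ε' (Nat.find hex)
      · rfl
      · exact absurd h.symm hspec
    exact main ε' ε _ (fun i hi => (hmin i hi).symm) hb' hb hz.symm

end Pool.Agent.Helpers.H19e
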