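import Mathlib
import Pool.Agent.Helpers.H19eComb

/-!
The group generated by the free group and all comb elements.
-/

set_option autoImplicit false

namespace Pool.Agent.Helpers.H19e

open scoped commutatorElement

/-- The group `Γ`. -/
def Gam : Subgroup PP := Subgroup.closure (Set.range io ∪ {p | ∃ ε k, p = z ε k})

def psi : F →* Gam := io.codRestrict Gam fun x => Subgroup.subset_closure (Or.inl ⟨x, rfl⟩)

def zz (ε : ℕ → Bool) (k : ℕ) : Gam := ⟨z ε k, Subgroup.subset_closure (Or.inr ⟨ε, k, rfl⟩)⟩

theorem zz_rec (ε : ℕ → Bool) (k : ℕ) :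
    zz ε k = psi (fe ε k) * ⁅psi (hh k), zz ε (k + 1)⁆ := by
  apply Subtype.ext
  show z ε k = _
  rw [z_rec]
  rfl

theorem psi_mem {x : F} {j : ℕ} (hx : x ∈ derivedSeries F j) : psi x ∈ derivedSeries Gam j :=
  map_derivedSeries_le_derivedSeries psi j ⟨x, hx, rfl⟩

theorem zz_mem (ε : ℕ → Bool) : ∀ j k, j ≤ k → zz ε k ∈ derivedSeries Gam j := by
  intro j
  induction j with
  | zero => intro k _; simp
  | succ j ih =>
    intro k hk
    rw [zz_rec]
    refine Subgroup.mul_mem _ (psi_mem (ds_anti hk (fe_mem ε k))) ?_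
    rw [derivedSeries_succ]
    exact Subgroup.commutator_mem_commutator (psi_mem (ds_anti (by omega) (hh_mem k)))
      (ih (k + 1) (by omega))

theorem surj (j : ℕ) (γ : Gam) : ∃ x : F, (psi x)⁻¹ * γ ∈ derivedSeries Gam j := by
  set N := derivedSeries Gam j with hN
  let M : Subgroup Gam := ((QuotientGroup.mk' N).comp psi).range.comap (QuotientGroup.mk' N)
  have hpsi : ∀ x, psi x ∈ M := fun x => ⟨x, rfl⟩
  have hNM : ∀ g ∈ N, g ∈ M := by
    intro g hg
    refine ⟨1, ?_⟩
    rw [map_one]
    exact ((QuotientGroup.eq_one_iff g).2 hg).symm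
  have hz : ∀ (ε : ℕ → Bool) (n k : ℕ), k + n = j → zz ε k ∈ M := by
    intro ε n
    induction n with
    | zero =>
      intro k hk
      exact hNM _ (zz_mem ε j k (by omega))
    | succ n ih =>
      intro k hk
      rw [zz_rec]
      have h1 := ih (k + 1) (by omega)
      refine M.mul_mem (hpsi _) ?_
      rw [commutatorElement_def]
      exact M.mul_mem (M.mul_mem (M.mul_mem (hpsi _) h1) (M.inv_mem (hpsi _))) (M.inv_mem h1)
  have hall : ∀ (ε : ℕ → Bool) (k : ℕ), zz ε k ∈ M := by
    intro ε k
    rcases le_or_gt j k with h | h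
    · exact hNM _ (zz_mem ε j k h)
    · exact hz ε (j - k) k (by omega)
  have htop : ∀ (g : PP) (hg : g ∈ Gam), (⟨g, hg⟩ : Gam) ∈ M := by
    intro g hg
    induction hg using Subgroup.closure_induction with
    | mem x hx =>
      rcases hx with ⟨y, rfl⟩ | ⟨ε, k, rfl⟩
      · exact hpsi y
      · exact hall ε k
    | one => exact M.one_mem
    | mul x y hx hy h1 h2 => exact M.mul_mem h1 h2
    | inv x hx h1 => exact M.inv_mem h1
  obtain ⟨x, hx⟩ := htop γ.1 γ.2
  refine ⟨x, ?_⟩
  rw [← QuotientGroup.eq]
  exact hx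

theorem ds_quot (j : ℕ) : derivedSeries (F ⧸ derivedSeries F j) j = ⊥ := by
  rw [← map_derivedSeries_eq (QuotientGroup.mk'_surjective (derivedSeries F j)) j, eq_bot_iff]
  rintro _ ⟨x, hx, rfl⟩
  rw [Subgroup.mem_bot]
  exact (QuotientGroup.eq_one_iff x).2 hx

def pr (j : ℕ) : Gam →* F ⧸ derivedSeries F j := (Pi.evalMonoidHom _ j).comp Gam.subtype

theorem pr_psi (j : ℕ) (x : F) : pr j (psi x) = QuotientGroup.mk x := rfl

theorem comap_eq (j : ℕ) : (derivedSeries Gam j).comap psi = derivedSeries F j := by
  apply le_antisymm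
  · intro x hx
    have h1 : pr j (psi x) ∈ derivedSeries (F ⧸ derivedSeries F j) j :=
      map_derivedSeries_le_derivedSeries (pr j) j ⟨psi x, hx, rfl⟩
    rw [ds_quot, Subgroup.mem_bot, pr_psi, QuotientGroup.eq_one_iff] at h1
    exact h1
  · intro x hx
    exact psi_mem hx

theorem res_sol (g : Gam) (hg : g ≠ 1) :
    ∃ (S : Type) (_ : Group S) (_ : Group.IsSolvable S) (f : Gam →* S), f g ≠ 1 := by
  have : ∃ j, g.1 j ≠ 1 := by
    by_contra h
    push Not at h
    exact hg (Subtype.ext (funext h))
  obtain ⟨j, hj⟩ := this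
  exact ⟨F ⧸ derivedSeries F j, inferInstance, ⟨⟨j, ds_quot j⟩⟩, pr j, hj⟩

theorem not_free : ¬ IsFreeGroup Gam := by
  intro hfree
  let X := IsFreeGroup.Generators Gam
  let e : FreeGroup X ≃* Gam := IsFreeGroup.toFreeGroup Gam |>.symm
  -- homomorphisms to the group of order two are determined by their restriction to `F`
  let T := Multiplicative (ZMod 2)
  have hinj : Function.Injective (fun φ : Gam →* T => φ.comp psi) := by
    intro φ φ' h
    ext γ
    obtain ⟨x, hx⟩ := surj 1 γ
    have hk : ∀ χ : Gam →* T, χ ((psi x)⁻¹ * γ) = 1 := by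
      intro χ
      have h1 : χ ((psi x)⁻¹ * γ) ∈ derivedSeries T 1 :=
        map_derivedSeries_le_derivedSeries χ 1 ⟨_, hx, rfl⟩
      have h2 : derivedSeries T 1 ≤ ⊥ := by
        rw [derivedSeries_succ, Subgroup.commutator_le]
        intro a _ b _
        rw [Subgroup.mem_bot, commutatorElement_eq_one_iff_mul_comm]
        exact mul_comm _ _
      exact Subgroup.mem_bot.mp (h2 h1)
    have h2 : ∀ χ : Gam →* T, χ γ = χ (psi x) := by
      intro χ
      have := hk χ
      rw [map_mul, map_inv, inv_mul_eq_one] at this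
      exact this.symm
    have h3 : φ (psi x) = φ' (psi x) := DFunLike.congr_fun h x
    rw [h2 φ, h2 φ', h3]
  have hfinF : Finite (F →* T) := by
    apply Finite.of_injective (fun φ : F →* T => fun i : Fin 2 => φ (FreeGroup.of i))
    intro φ φ' h
    exact FreeGroup.ext_hom _ _ (fun i => congrFun h i)
  have hfinG : Finite (Gam →* T) := Finite.of_injective _ hinj
  have hfinX : Finite (X → T) := by
    apply Finite.of_injective (fun f : X → T => (FreeGroup.lift f).comp e.symm.toMonoidHom)
    intro f f' h
    funext x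
    have := DFunLike.congr_fun h (e (FreeGroup.of x))
    simpa using this
  have hX : Finite X := by
    by_contra hinf
    rw [not_finite_iff_infinite] at hinf
    have : Infinite (X → T) := by
      have : Nontrivial T := inferInstance
      exact Pi.infinite_of_left
    exact not_finite (X → T)
  have hc : Countable (FreeGroup X) := inferInstance
  have hG : Countable Gam := e.symm.injective.countable
  have hcount : Countable (ℕ → Bool) := by
    apply Function.Injective.countable (f := fun ε : ℕ → Bool => zz ε 0)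
    intro ε ε' h
    exact z_inj (congrArg Subtype.val h)
  classical
  obtain ⟨g, hg⟩ := exists_injective_nat (ℕ → Bool)
  refine Function.cantor_injective (fun s : Set ℕ => g (fun n => decide (n ∈ s))) ?_
  intro s t h
  have h1 := hg h
  ext n
  have h2 := congrFun h1 n
  simpa using h2

end Pool.Agent.Helpers.H19e
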