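import Pool.Agent.Helpers.H4_ColDefs

set_option autoImplicit false

namespace Pool.Agent.H4Col

open Matrix

variable {K : Type} [Field K]

theorem m0 (x y : Col K) : c (x * y) 0 = c x 0 * c y 0 - 2 * (c x 1 * c y 4 + c x 2 * c y 5 +
    c x 3 * c y 6 + c x 4 * c y 1 + c x 5 * c y 2 + c x 6 * c y 3) := cm0 x y
theorem m1 (x y : Col K) : c (x * y) 1 =
    c x 0 * c y 1 + c y 0 * c x 1 + 2 * (c x 5 * c y 6 - c x 6 * c y 5) := cm1 x y
theorem m2 (x y : Col K) : c (x * y) 2 =
    c x 0 * c y 2 + c y 0 * c x 2 + 2 * (c x 6 * c y 4 - c x 4 * c y 6) := cm2 x y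
theorem m3 (x y : Col K) : c (x * y) 3 =
    c x 0 * c y 3 + c y 0 * c x 3 + 2 * (c x 4 * c y 5 - c x 5 * c y 4) := cm3 x y
theorem m4 (x y : Col K) : c (x * y) 4 =
    c x 0 * c y 4 + c y 0 * c x 4 + 2 * (c x 2 * c y 3 - c x 3 * c y 2) := cm4 x y
theorem m5 (x y : Col K) : c (x * y) 5 =
    c x 0 * c y 5 + c y 0 * c x 5 + 2 * (c x 3 * c y 1 - c x 1 * c y 3) := cm5 x y
theorem m6 (x y : Col K) : c (x * y) 6 =
    c x 0 * c y 6 + c y 0 * c x 6 + 2 * (c x 1 * c y 2 - c x 2 * c y 1) := cm6 x y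

theorem tower_aux {F : Type} [Field F] [Algebra F K] (a : F) (x y : Col K) :
    (a • x) * y = a • (x * y) := by
  apply Col.ext' <;>
    simp only [m0, m1, m2, m3, m4, m5, m6, smul_app, Algebra.smul_def] <;> ring

theorem comm_aux {F : Type} [Field F] [Algebra F K] (a : F) (x y : Col K) :
    a • (x * y) = x * (a • y) := by
  apply Col.ext' <;>
    simp only [m0, m1, m2, m3, m4, m5, m6, smul_app, Algebra.smul_def] <;> ring

instance {F : Type} [Field F] [Algebra F K] : IsScalarTower F (Col K) (Col K) := ⟨tower_aux⟩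

instance {F : Type} [Field F] [Algebra F K] : SMulCommClass F (Col K) (Col K) := ⟨comm_aux⟩

theorem ncj : IsNCJordan (Col K) := by
  constructor
  · intro x y
    unfold asc
    apply Col.ext' <;> simp only [m0, m1, m2, m3, m4, m5, m6, sub_app, zero_app] <;> ring
  · intro x y
    unfold asc
    apply Col.ext' <;> simp only [m0, m1, m2, m3, m4, m5, m6, sub_app, zero_app] <;> ring

theorem ci : CommutatorIdentity (Col K) := by
  intro x y
  unfold asc
  apply Col.ext' <;> simp only [m0, m1, m2, m3, m4, m5, m6, sub_app, zero_app] <;> ring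

/-- basis vectors -/
def bv (i : Fin 7) : Col K := mk (fun j => if j = i then 1 else 0)

theorem bv_app (i j : Fin 7) : c (bv i : Col K) j = if j = i then 1 else 0 := c_mk _ _

theorem not_alt (h2 : (2 : K) ≠ 0) : ¬ IsAlternative (Col K) := by
  intro h
  have h1 := (h (bv 1) (bv 4)).1
  have h3 := congrArg (fun z : Col K => c z 1) h1
  simp only [asc, m0, m1, m5, m6, sub_app, zero_app, bv_app] at h3
  norm_num [Fin.ext_iff] at h3
  exact h2 h3

theorem not_jordan (h2 : (2 : K) ≠ 0) : ¬ IsJordanAlg (Col K) := by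
  intro h
  have h1 := h.1 (bv 1) (bv 2)
  have h3 := congrArg (fun z : Col K => c z 6) h1
  simp only [m6, bv_app] at h3
  norm_num [Fin.ext_iff] at h3
  have h4 : (2:K) * 2 = 0 := by linear_combination h3
  rcases mul_eq_zero.1 h4 with h5 | h5 <;> exact h2 h5

/-- the unit element times a scalar -/
def sc (a : K) : Col K := mk (fun j => if j = 0 then a else 0)

theorem sc_app (a : K) (j : Fin 7) : c (sc a) j = if j = 0 then a else 0 := c_mk _ _

/-- multiplication by a scalar of `K` -/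
def scm (a : K) (x : Col K) : Col K := mk (fun j => a * c x j)

theorem scm_app (a : K) (x : Col K) (j : Fin 7) : c (scm a x) j = a * c x j := c_mk _ _

theorem sc_mul (a : K) (x : Col K) : sc a * x = scm a x := by
  apply Col.ext' <;> simp only [m0, m1, m2, m3, m4, m5, m6, sc_app, scm_app] <;>
    norm_num [Fin.ext_iff]

theorem simple {F : Type} [Field F] [Algebra F K] (h2 : (2 : K) ≠ 0) : IsSimpleAlg F (Col K) := by
  refine ⟨⟨sc 1, sc 1, ?_⟩, ?_⟩
  · intro h
    have h3 := congrArg (fun z : Col K => c z 0) h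
    simp only [m0, sc_app, zero_app] at h3
    norm_num [Fin.ext_iff] at h3
  intro I hI
  by_cases h0 : ∀ z ∈ I, z = 0
  · left
    rw [Submodule.eq_bot_iff]
    exact h0
  right
  push Not at h0
  obtain ⟨z, hz, hz0⟩ := h0
  -- it is enough to find a nonzero scalar
  have hscal : ∀ a : K, a ≠ 0 → sc a ∈ I → I = ⊤ := by
    intro a ha haI
    rw [Submodule.eq_top_iff']
    intro x
    have h3 := (hI (scm a⁻¹ x) (sc a) haI).1
    have h4 : scm a⁻¹ x * sc a = x := by
      apply Col.ext' <;> simp only [m0, m1, m2, m3, m4, m5, m6, sc_app, scm_app] <;>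
        norm_num [Fin.ext_iff] <;> field_simp
    rw [h4] at h3
    exact h3
  -- the basis vectors: (z b_i) b_i = - 2 z_{i'} b_i and b_i b_{i'} = -2
  have hbi : ∀ i j : Fin 7, (∀ z : Col K, (z * bv i) * bv i = scm (-2 * c z j) (bv i)) →
      (bv i * bv j = (sc (-2) : Col K)) → c z j ≠ 0 → I = ⊤ := by
    intro i j h3 h4 h5
    have h6 := (hI (bv i) _ (hI (bv i) z hz).2).2
    rw [h3] at h6
    have h7 := (hI (sc ((-2 * c z j)⁻¹)) _ h6).1
    rw [sc_mul] at h7
    have hne : (-2 * c z j) ≠ 0 := mul_ne_zero (neg_ne_zero.2 h2) h5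
    have h8 : scm (-2 * c z j)⁻¹ (scm (-2 * c z j) (bv i)) = bv i := by
      apply Col.ext
      intro k
      rw [scm_app, scm_app, ← mul_assoc, inv_mul_cancel₀ hne, one_mul]
    rw [h8] at h7
    have h9 := (hI (bv j) _ h7).2
    rw [h4] at h9
    exact hscal _ (neg_ne_zero.2 h2) h9
  have key : ∀ i j : Fin 7, ((i, j) = (1, 4) ∨ (i, j) = (2, 5) ∨ (i, j) = (3, 6) ∨ (i, j) = (4, 1) ∨
      (i, j) = (5, 2) ∨ (i, j) = (6, 3)) → c z j ≠ 0 → I = ⊤ := by
    intro i j hij hzj
    apply hbi i j _ _ hzj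
    · intro w
      rcases hij with h | h | h | h | h | h <;>
      · rw [Prod.mk.injEq] at h
        obtain ⟨rfl, rfl⟩ := h
        apply Col.ext' <;> simp only [m0, m1, m2, m3, m4, m5, m6, bv_app, scm_app] <;>
          norm_num [Fin.ext_iff]
    · rcases hij with h | h | h | h | h | h <;>
      · rw [Prod.mk.injEq] at h
        obtain ⟨rfl, rfl⟩ := h
        apply Col.ext' <;> simp only [m0, m1, m2, m3, m4, m5, m6, bv_app, sc_app] <;>
          norm_num [Fin.ext_iff]
  by_cases h4 : c z 4 ≠ 0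
  · exact key 1 4 (by simp) h4
  by_cases h5 : c z 5 ≠ 0
  · exact key 2 5 (by simp) h5
  by_cases h6 : c z 6 ≠ 0
  · exact key 3 6 (by simp) h6
  by_cases h1 : c z 1 ≠ 0
  · exact key 4 1 (by simp) h1
  by_cases h2' : c z 2 ≠ 0
  · exact key 5 2 (by simp) h2'
  by_cases h3 : c z 3 ≠ 0
  · exact key 6 3 (by simp) h3
  push Not at h1 h2' h3 h4 h5 h6
  have hz1 : z = sc (c z 0) := by
    apply Col.ext' <;> simp only [sc_app] <;> norm_num [Fin.ext_iff, *]
  have hne : c z 0 ≠ 0 := by
    intro h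
    apply hz0
    apply Col.ext' <;> simp only [zero_app] <;> assumption
  rw [hz1] at hz
  exact hscal _ hne hz

theorem not_finite {F : Type} [Field F] [Algebra F K] (h : ¬ Module.Finite F K) :
    ¬ Module.Finite F (Col K) := by
  intro hfin
  apply h
  have hfin' : Module.Finite F (K × (Fin 3 → K) × (Fin 3 → K)) := hfin
  exact Module.Finite.of_surjective (LinearMap.fst F K ((Fin 3 → K) × (Fin 3 → K)))
    (fun a => ⟨(a, 0), rfl⟩)

theorem real_not_finite : ¬ Module.Finite ℚ ℝ := by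
  intro h
  have h2 : Cardinal.mk ℝ ≤ Cardinal.aleph0 := by
    have := Module.Finite.finite_basis (Module.Free.chooseBasis ℚ ℝ)
    have hc : Countable ℝ := (Module.Free.chooseBasis ℚ ℝ).equivFun.toEquiv.countable_iff.2 inferInstance
    exact Cardinal.mk_le_aleph0_iff.2 hc
  exact absurd h2 (not_le.2 (by rw [Cardinal.mk_real]; exact Cardinal.aleph0_lt_continuum))

end Pool.Agent.H4Col
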