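import Mathlib

set_option autoImplicit false

namespace Pool.Agent.H4Col

/-- the associator `(x,y,z) = (xy)z - x(yz)` -/
def asc {A : Type} [NonUnitalNonAssocRing A] (x y z : A) : A := (x * y) * z - x * (y * z)

/-- noncommutative Jordan algebra: flexible and `(x²,y,x) = 0` -/
def IsNCJordan (A : Type) [NonUnitalNonAssocRing A] : Prop :=
  (∀ x y : A, asc x y x = 0) ∧ ∀ x y : A, asc (x * x) y x = 0

/-- the identity `([x,y],y,y) = 0` -/
def CommutatorIdentity (A : Type) [NonUnitalNonAssocRing A] : Prop :=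
  ∀ x y : A, asc (x * y - y * x) y y = 0

/-- alternative algebra -/
def IsAlternative (A : Type) [NonUnitalNonAssocRing A] : Prop :=
  ∀ x y : A, asc x x y = 0 ∧ asc y x x = 0

/-- Jordan algebra: commutative with `(x²,y,x) = 0` -/
def IsJordanAlg (A : Type) [NonUnitalNonAssocRing A] : Prop :=
  (∀ x y : A, x * y = y * x) ∧ ∀ x y : A, asc (x * x) y x = 0

/-- simple algebra over `F`: `A² ≠ 0` and the only two-sided ideals are `0` and `A` -/
def IsSimpleAlg (F A : Type) [Field F] [NonUnitalNonAssocRing A] [Module F A] : Prop :=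
  (∃ x y : A, x * y ≠ 0) ∧
    ∀ I : Submodule F A, (∀ a : A, ∀ x ∈ I, a * x ∈ I ∧ x * a ∈ I) → I = ⊥ ∨ I = ⊤

end Pool.Agent.H4Col
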