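import Pool.Agent.Helpers.H4_ColBase

set_option autoImplicit false

namespace Pool.Agent.H4Col

open Matrix

/-- the underlying space of the split color algebra: `K ⊕ K³ ⊕ K³` -/
def Col (K : Type) : Type := K × (Fin 3 → K) × (Fin 3 → K)

variable {K : Type} [Field K]

/-- addition is componentwise -/
instance : AddCommGroup (Col K) := (inferInstance : AddCommGroup (K × (Fin 3 → K) × (Fin 3 → K)))

/-- scalar multiplication is componentwise -/
instance {F : Type} [Field F] [Algebra F K] : Module F (Col K) :=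
  (inferInstance : Module F (K × (Fin 3 → K) × (Fin 3 → K)))

/-- the product: for `(a,u,φ)` and `(b,v,ψ)` it is
`(ab - 2(u·ψ + φ·v), av + bu + 2 φ×ψ, aψ + bφ + 2 u×v)` -/
def Col.mul (x y : Col K) : Col K :=
  (x.1 * y.1 - 2 * (x.2.1 ⬝ᵥ y.2.2 + x.2.2 ⬝ᵥ y.2.1),
    x.1 • y.2.1 + y.1 • x.2.1 + (2 : K) • crossProduct x.2.2 y.2.2,
    x.1 • y.2.2 + y.1 • x.2.2 + (2 : K) • crossProduct x.2.1 y.2.1)

/-- coordinates -/
def c (x : Col K) : Fin 7 → K :=
  ![x.1, x.2.1 0, x.2.1 1, x.2.1 2, x.2.2 0, x.2.2 1, x.2.2 2]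

/-- element with given coordinates -/
def mk (f : Fin 7 → K) : Col K := (f 0, ![f 1, f 2, f 3], ![f 4, f 5, f 6])

theorem c_mk (f : Fin 7 → K) (i : Fin 7) : c (mk f) i = f i := by
  fin_cases i <;> rfl

theorem Col.ext {x y : Col K} (h : ∀ i, c x i = c y i) : x = y := by
  refine Prod.ext (h 0) (Prod.ext ?_ ?_)
  · funext i
    fin_cases i
    · exact h 1
    · exact h 2
    · exact h 3
  · funext i
    fin_cases i
    · exact h 4
    · exact h 5
    · exact h 6

theorem Col.ext' {x y : Col K} (h0 : c x 0 = c y 0) (h1 : c x 1 = c y 1) (h2 : c x 2 = c y 2)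
    (h3 : c x 3 = c y 3) (h4 : c x 4 = c y 4) (h5 : c x 5 = c y 5) (h6 : c x 6 = c y 6) :
    x = y := by
  apply Col.ext
  intro i
  fin_cases i
  · exact h0
  · exact h1
  · exact h2
  · exact h3
  · exact h4
  · exact h5
  · exact h6

theorem add_app (x y : Col K) (i : Fin 7) : c (x + y) i = c x i + c y i := by
  fin_cases i <;> rfl
theorem sub_app (x y : Col K) (i : Fin 7) : c (x - y) i = c x i - c y i := by
  fin_cases i <;> rfl
theorem zero_app (i : Fin 7) : c (0 : Col K) i = 0 := by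
  fin_cases i <;> rfl
theorem smul_app {F : Type} [Field F] [Algebra F K] (a : F) (x : Col K) (i : Fin 7) :
    c (a • x) i = a • c x i := by
  fin_cases i <;> rfl

theorem cm0 (x y : Col K) : c (Col.mul x y) 0 = c x 0 * c y 0 - 2 * (c x 1 * c y 4 + c x 2 * c y 5 +
    c x 3 * c y 6 + c x 4 * c y 1 + c x 5 * c y 2 + c x 6 * c y 3) := by
  change x.1 * y.1 - 2 * (x.2.1 ⬝ᵥ y.2.2 + x.2.2 ⬝ᵥ y.2.1) = x.1 * y.1 -
    2 * (x.2.1 0 * y.2.2 0 + x.2.1 1 * y.2.2 1 + x.2.1 2 * y.2.2 2 + x.2.2 0 * y.2.1 0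
      + x.2.2 1 * y.2.1 1 + x.2.2 2 * y.2.1 2)
  simp only [dotProduct, Fin.sum_univ_three]
  ring
theorem cm1 (x y : Col K) : c (Col.mul x y) 1 =
    c x 0 * c y 1 + c y 0 * c x 1 + 2 * (c x 5 * c y 6 - c x 6 * c y 5) := rfl
theorem cm2 (x y : Col K) : c (Col.mul x y) 2 =
    c x 0 * c y 2 + c y 0 * c x 2 + 2 * (c x 6 * c y 4 - c x 4 * c y 6) := rfl
theorem cm3 (x y : Col K) : c (Col.mul x y) 3 =
    c x 0 * c y 3 + c y 0 * c x 3 + 2 * (c x 4 * c y 5 - c x 5 * c y 4) := rfl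
theorem cm4 (x y : Col K) : c (Col.mul x y) 4 =
    c x 0 * c y 4 + c y 0 * c x 4 + 2 * (c x 2 * c y 3 - c x 3 * c y 2) := rfl
theorem cm5 (x y : Col K) : c (Col.mul x y) 5 =
    c x 0 * c y 5 + c y 0 * c x 5 + 2 * (c x 3 * c y 1 - c x 1 * c y 3) := rfl
theorem cm6 (x y : Col K) : c (Col.mul x y) 6 =
    c x 0 * c y 6 + c y 0 * c x 6 + 2 * (c x 1 * c y 2 - c x 2 * c y 1) := rfl

theorem left_d (x y z : Col K) : Col.mul x (y + z) = Col.mul x y + Col.mul x z := by
  apply Col.ext' <;> simp only [cm0, cm1, cm2, cm3, cm4, cm5, cm6, add_app] <;> ring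

theorem right_d (x y z : Col K) : Col.mul (x + y) z = Col.mul x z + Col.mul y z := by
  apply Col.ext' <;> simp only [cm0, cm1, cm2, cm3, cm4, cm5, cm6, add_app] <;> ring

theorem zero_m (x : Col K) : Col.mul 0 x = 0 := by
  apply Col.ext' <;> simp only [cm0, cm1, cm2, cm3, cm4, cm5, cm6, zero_app] <;> ring

theorem m_zero (x : Col K) : Col.mul x 0 = 0 := by
  apply Col.ext' <;> simp only [cm0, cm1, cm2, cm3, cm4, cm5, cm6, zero_app] <;> ring

instance : NonUnitalNonAssocRing (Col K) :=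
  { toAddCommGroup := inferInstance
    mul := Col.mul
    left_distrib := left_d
    right_distrib := right_d
    zero_mul := zero_m
    mul_zero := m_zero }

end Pool.Agent.H4Col
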