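import Mathlib

set_option autoImplicit false

namespace Pool.Agent.H4Cyc

open Finset

variable {V : Type*} [Fintype V] [DecidableEq V]

/-- covering all pairs with few triples covers each pair exactly once -/
theorem unique_of_count (F : Finset (Finset V)) (h3 : ∀ b ∈ F, b.card = 3)
    (hcov : ∀ x y : V, x ≠ y → ∃ b ∈ F, x ∈ b ∧ y ∈ b)
    (hc : 6 * F.card ≤ Fintype.card V * Fintype.card V - Fintype.card V) :
    ∀ x y : V, x ≠ y → ∃! b : Finset V, b ∈ F ∧ x ∈ b ∧ y ∈ b := by
  classical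
  have h1 : ∑ p ∈ (univ : Finset V).offDiag, (F.filter (fun b => p.1 ∈ b ∧ p.2 ∈ b)).card
      = ∑ b ∈ F, 6 := by
    simp only [Finset.card_filter]
    rw [Finset.sum_comm]
    refine Finset.sum_congr rfl fun b hb => ?_
    rw [← Finset.card_filter]
    have : (univ : Finset V).offDiag.filter (fun p => p.1 ∈ b ∧ p.2 ∈ b) = b.offDiag := by
      ext p
      simp only [mem_filter, mem_offDiag, mem_univ, true_and]
      tauto
    rw [this, Finset.offDiag_card, h3 b hb]
  have h2 : ∑ p ∈ (univ : Finset V).offDiag, 1 = Fintype.card V * Fintype.card V - Fintype.card V := by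
    simp [Finset.offDiag_card]
  have hle : ∀ p ∈ (univ : Finset V).offDiag,
      1 ≤ (F.filter (fun b => p.1 ∈ b ∧ p.2 ∈ b)).card := by
    intro p hp
    obtain ⟨b, hb, hx, hy⟩ := hcov p.1 p.2 (by simpa using (mem_offDiag.1 hp).2.2)
    exact Finset.card_pos.2 ⟨b, by simp [hb, hx, hy]⟩
  have heq : ∑ p ∈ (univ : Finset V).offDiag, 1
      = ∑ p ∈ (univ : Finset V).offDiag, (F.filter (fun b => p.1 ∈ b ∧ p.2 ∈ b)).card := by
    apply le_antisymm (Finset.sum_le_sum hle)
    rw [h1, h2]
    simp only [sum_const, smul_eq_mul]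
    omega
  have h4 := (Finset.sum_eq_sum_iff_of_le hle).1 heq
  intro x y hxy
  have h5 := h4 (x, y) (by simp [hxy])
  obtain ⟨b, hb⟩ := Finset.card_eq_one.1 h5.symm
  have hb' : ∀ c, c ∈ F ∧ x ∈ c ∧ y ∈ c ↔ c = b := by
    intro c
    have : c ∈ F.filter (fun b => x ∈ b ∧ y ∈ b) ↔ c ∈ ({b} : Finset (Finset V)) := by
      rw [← hb]
    simpa using this
  exact ⟨b, (hb' b).2 rfl, fun c hc => (hb' c).1 hc⟩

/-- the action of permutations on families of sets -/
def act (σ : Equiv.Perm V) (X : Finset (Finset V)) : Finset (Finset V) :=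
  X.map (Finset.mapEmbedding σ.toEmbedding).toEmbedding

theorem mem_act (σ : Equiv.Perm V) (X : Finset (Finset V)) (b : Finset V) :
    b.map σ.toEmbedding ∈ act σ X ↔ b ∈ X := by
  unfold act
  exact Finset.mem_map' (Finset.mapEmbedding σ.toEmbedding).toEmbedding

theorem act_mul (σ ρ : Equiv.Perm V) (X : Finset (Finset V)) :
    act (σ * ρ) X = act σ (act ρ X) := by
  unfold act
  rw [Finset.map_map]
  congr 1
  ext b
  simp [Finset.mapEmbedding]
  rfl

theorem act_one (X : Finset (Finset V)) : act (1 : Equiv.Perm V) X = X := by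
  unfold act
  ext b
  simp only [mem_map]
  constructor
  · rintro ⟨c, hc, rfl⟩
    have : (Finset.mapEmbedding (1 : Equiv.Perm V).toEmbedding).toEmbedding c = c := by
      ext x; simp [Finset.mapEmbedding]; rfl
    rw [this]; exact hc
  · intro hb
    refine ⟨b, hb, ?_⟩
    ext x; simp [Finset.mapEmbedding]; rfl

theorem act_inv {σ : Equiv.Perm V} {X Y : Finset (Finset V)} (h : act σ X = Y) :
    act σ⁻¹ Y = X := by
  rw [← h, ← act_mul, inv_mul_cancel, act_one]

theorem act_eq_iff (σ : Equiv.Perm V) (X Y : Finset (Finset V)) :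
    (∀ b : Finset V, b ∈ X ↔ b.map σ.toEmbedding ∈ Y) ↔ act σ X = Y := by
  constructor
  · intro h
    ext c
    have hc : c = (c.map (σ⁻¹).toEmbedding).map σ.toEmbedding := by
      ext x
      simp only [Finset.mem_map_equiv]
      have : (Equiv.symm σ⁻¹) ((Equiv.symm σ) x) = x := σ.apply_symm_apply x
      rw [this]
    rw [hc, mem_act, h]
  · intro h b
    rw [← h, mem_act]

section cyc
variable {n : ℕ} [NeZero n]

def tau (n : ℕ) : Equiv.Perm (ZMod n) := Equiv.addRight 1

theorem eq_of_conj (π π' : Equiv.Perm (ZMod n)) (h0 : π 0 = π' 0)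
    (h : π * tau n * π⁻¹ = π' * tau n * π'⁻¹) : π = π' := by
  have step : ∀ k : ZMod n, π k = π' k → π (k + 1) = π' (k + 1) := by
    intro k hk
    have e1 : π (k + 1) = (π * tau n * π⁻¹) (π k) := by simp [tau]
    have e2 : π' (k + 1) = (π' * tau n * π'⁻¹) (π' k) := by simp [tau]
    rw [e1, e2, h, hk]
  have key : ∀ m : ℕ, π (m : ZMod n) = π' (m : ZMod n) := by
    intro m
    induction m with
    | zero => simpa using h0
    | succ m ih => push_cast; exact step _ ih
  ext k
  have := key k.val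
  rw [ZMod.natCast_zmod_val] at this
  rw [this]

/-- at most `n` cyclic families are isomorphic to a given one -/
theorem class_bound (X : Finset (Finset (ZMod n))) (T : Finset (Finset (Finset (ZMod n))))
    (hT : ∀ Y ∈ T, act (tau n) Y = Y) (hX : ∀ Y ∈ T, ∃ σ, act σ X = Y) :
    T.card ≤ n := by
  classical
  choose! s hs using hX
  let A : Finset (Equiv.Perm (ZMod n)) := univ.filter (fun α => act α X = X)
  have hA : ∀ α, α ∈ A ↔ act α X = X := by intro α; simp [A]
  have h1 : (1 : Equiv.Perm (ZMod n)) ∈ A := (hA _).2 (act_one X)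
  have hcard : (T ×ˢ A).card ≤ (A ×ˢ (univ : Finset (ZMod n))).card := by
    apply Finset.card_le_card_of_injOn
      (fun p => ((s p.1 * p.2)⁻¹ * tau n * ((s p.1 * p.2)⁻¹)⁻¹, (s p.1 * p.2)⁻¹ 0))
    · intro p hp
      have hp' := mem_product.1 (Finset.mem_coe.1 hp)
      have e1 : act (s p.1 * p.2) X = p.1 := by
        rw [act_mul, (hA _).1 hp'.2, hs p.1 hp'.1]
      simp only [coe_product, coe_univ, Set.mem_prod, mem_coe, Set.mem_univ, and_true]
      rw [hA, inv_inv, act_mul, act_mul, e1, hT p.1 hp'.1]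
      exact act_inv e1
    · intro p hp q hq hpq
      have hp' := mem_product.1 (Finset.mem_coe.1 hp)
      have hq' := mem_product.1 (Finset.mem_coe.1 hq)
      simp only [Prod.mk.injEq] at hpq
      have e := eq_of_conj _ _ hpq.2 hpq.1
      have e' : s p.1 * p.2 = s q.1 * q.2 := inv_injective e
      have e1 : act (s p.1 * p.2) X = p.1 := by
        rw [act_mul, (hA _).1 hp'.2, hs p.1 hp'.1]
      have e2 : act (s q.1 * q.2) X = q.1 := by
        rw [act_mul, (hA _).1 hq'.2, hs q.1 hq'.1]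
      have e3 : p.1 = q.1 := by rw [← e1, ← e2, e']
      rw [e3] at e'
      exact Prod.ext e3 (mul_left_cancel e')
  rw [card_product, card_product, card_univ, ZMod.card] at hcard
  have hpos : 0 < A.card := Finset.card_pos.2 ⟨1, h1⟩
  rw [mul_comm] at hcard
  exact Nat.le_of_mul_le_mul_left hcard hpos

/-- many labelled cyclic families give many isomorphism classes -/
theorem many_classes (M : ℕ) (L : Finset (Finset (Finset (ZMod n))))
    (hL : ∀ Y ∈ L, act (tau n) Y = Y) (hM : n * M ≤ L.card) :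
    ∃ B : Fin M → Finset (Finset (ZMod n)), (∀ i, B i ∈ L) ∧
      ∀ i j, i ≠ j → ∀ σ, act σ (B i) ≠ B j := by
  classical
  let f : Finset (Finset (ZMod n)) → Finset (Finset (Finset (ZMod n))) :=
    fun X => univ.filter (fun Y => ∃ σ, act σ X = Y)
  have hf : ∀ X Y, Y ∈ f X ↔ ∃ σ, act σ X = Y := by intro X Y; simp [f]
  have hself : ∀ X, X ∈ f X := fun X => (hf X X).2 ⟨1, act_one X⟩
  have hiso : ∀ X Y, (∃ σ, act σ X = Y) → f X = f Y := by
    rintro X Y ⟨σ, hσ⟩
    ext Z
    rw [hf, hf]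
    constructor
    · rintro ⟨ρ, hρ⟩
      exact ⟨ρ * σ⁻¹, by rw [act_mul, act_inv hσ, hρ]⟩
    · rintro ⟨ρ, hρ⟩
      exact ⟨ρ * σ, by rw [act_mul, hσ, hρ]⟩
  have hfib : ∀ c ∈ L.image f, (L.filter (fun X => f X = c)).card ≤ n := by
    intro c hc
    obtain ⟨X, hX, rfl⟩ := mem_image.1 hc
    apply class_bound X
    · intro Y hY; exact hL Y (mem_filter.1 hY).1
    · intro Y hY
      have h2 := (mem_filter.1 hY).2
      have h3 := hself Y
      rw [h2] at h3
      exact (hf _ _).1 h3
  have hcard := Finset.card_le_mul_card_image L n hfib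
  have hpos : 0 < n := Nat.pos_of_ne_zero (NeZero.ne n)
  have hle : M ≤ (L.image f).card := Nat.le_of_mul_le_mul_left (hM.trans hcard) hpos
  obtain ⟨S, hS, hSc⟩ := Finset.exists_subset_card_eq hle
  let e : Fin M ≃ S := (finCongr hSc.symm).trans S.equivFin.symm
  have hrep : ∀ i : Fin M, ∃ X ∈ L, f X = (e i : Finset (Finset (Finset (ZMod n)))) :=
    fun i => mem_image.1 (hS (e i).2)
  choose B hB1 hB2 using hrep
  refine ⟨B, hB1, fun i j hij σ h => hij ?_⟩
  have := hiso _ _ ⟨σ, h⟩
  rw [hB2, hB2] at this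
  exact e.injective (Subtype.ext this)

end cyc

end Pool.Agent.H4Cyc
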