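import Mathlib

set_option autoImplicit false

namespace Pool.Agent.H4Sk

theorem sk0 (s : ℕ) (hs : 4 ≤ s) : ∃ a : ℕ → ℕ, (∀ i, 1 ≤ i → i ≤ (4*s) → 1 ≤ a i ∧ a i + i ≤ 2*(4*s)+2) ∧ ∀ x, 1 ≤ x → x ≤ 2*(4*s) → ∃ i, 1 ≤ i ∧ i ≤ (4*s) ∧ (x = a i ∨ x = a i + i) := by
  refine ⟨fun i => if i = (2*s+1) then (s-1) else if i = 1 then s else if i = (2*s-1) then (2*s) else if i = (4*s-1) then (2*s+1) else if i % 2 = 0 ∧ 2 ≤ i ∧ i ≤ (4*s) then (4*s-1)+((4*s+2)-i)/2 else if i % 2 = 1 ∧ (2*s+3) ≤ i ∧ i ≤ (4*s-3) then 0+((4*s-1)-i)/2 else if i % 2 = 1 ∧ 3 ≤ i ∧ i ≤ (2*s-3) then (s+1)+((2*s-1)-i)/2 else 1, ?_, ?_⟩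
  · intro i h1 h2; dsimp only; split_ifs <;> omega
  · intro x h1 h2
    have h : ((4*s) ≤ x ∧ x ≤ (6*s-1)) ∨ ((6*s+1) ≤ x ∧ x ≤ (8*s)) ∨ (1 ≤ x ∧ x ≤ (s-2)) ∨ ((3*s+1) ≤ x ∧ x ≤ (4*s-2)) ∨ ((s+2) ≤ x ∧ x ≤ (2*s-1)) ∨ ((2*s+2) ≤ x ∧ x ≤ (3*s-1)) ∨ (x = (s-1)) ∨ (x = (3*s)) ∨ (x = s) ∨ (x = (s+1)) ∨ (x = (2*s)) ∨ (x = (4*s-1)) ∨ (x = (2*s+1)) ∨ (x = (6*s)) := by omega
    rcases h with h|h|h|h|h|h|h|h|h|h|h|h|h|h
    · refine ⟨(4*s+2)-2*(x+1-(4*s)), by omega, by omega, ?_⟩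
      dsimp only; split_ifs <;> omega
    · refine ⟨(4*s+2)-2*((8*s+1)-x), by omega, by omega, ?_⟩
      dsimp only; split_ifs <;> omega
    · refine ⟨(4*s-1)-2*(x-0), by omega, by omega, ?_⟩
      dsimp only; split_ifs <;> omega
    · refine ⟨(4*s-1)-2*((4*s-1)-x), by omega, by omega, ?_⟩
      dsimp only; split_ifs <;> omega
    · refine ⟨(2*s-1)-2*(x-(s+1)), by omega, by omega, ?_⟩
      dsimp only; split_ifs <;> omega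
    · refine ⟨(2*s-1)-2*((3*s)-x), by omega, by omega, ?_⟩
      dsimp only; split_ifs <;> omega
    · refine ⟨(2*s+1), by omega, by omega, ?_⟩
      dsimp only; split_ifs <;> omega
    · refine ⟨(2*s+1), by omega, by omega, ?_⟩
      dsimp only; split_ifs <;> omega
    · refine ⟨1, by omega, by omega, ?_⟩
      dsimp only; split_ifs <;> omega
    · refine ⟨1, by omega, by omega, ?_⟩
      dsimp only; split_ifs <;> omega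
    · refine ⟨(2*s-1), by omega, by omega, ?_⟩
      dsimp only; split_ifs <;> omega
    · refine ⟨(2*s-1), by omega, by omega, ?_⟩
      dsimp only; split_ifs <;> omega
    · refine ⟨(4*s-1), by omega, by omega, ?_⟩
      dsimp only; split_ifs <;> omega
    · refine ⟨(4*s-1), by omega, by omega, ?_⟩
      dsimp only; split_ifs <;> omega

theorem sk1 (s : ℕ) (hs : 4 ≤ s) : ∃ a : ℕ → ℕ, (∀ i, 1 ≤ i → i ≤ (4*s+1) → 1 ≤ a i ∧ a i + i ≤ 2*(4*s+1)+2) ∧ ∀ x, 1 ≤ x → x ≤ 2*(4*s+1) → ∃ i, 1 ≤ i ∧ i ≤ (4*s+1) ∧ (x = a i ∨ x = a i + i) := by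
  refine ⟨fun i => if i = 1 then (s+1) else if i = (4*s+1) then (2*s+1) else if i = (2*s-1) then (2*s+2) else if i % 2 = 0 ∧ 2 ≤ i ∧ i ≤ (4*s) then (4*s+1)+((4*s+2)-i)/2 else if i % 2 = 1 ∧ (2*s+1) ≤ i ∧ i ≤ (4*s-1) then 0+((4*s+1)-i)/2 else if i % 2 = 1 ∧ 3 ≤ i ∧ i ≤ (2*s-3) then (s+2)+((2*s-1)-i)/2 else 1, ?_, ?_⟩
  · intro i h1 h2; dsimp only; split_ifs <;> omega
  · intro x h1 h2
    have h : ((4*s+2) ≤ x ∧ x ≤ (6*s+1)) ∨ ((6*s+3) ≤ x ∧ x ≤ (8*s+2)) ∨ (1 ≤ x ∧ x ≤ s) ∨ ((3*s+1) ≤ x ∧ x ≤ (4*s)) ∨ ((s+3) ≤ x ∧ x ≤ (2*s)) ∨ ((2*s+3) ≤ x ∧ x ≤ (3*s)) ∨ (x = (s+1)) ∨ (x = (s+2)) ∨ (x = (2*s+1)) ∨ (x = (6*s+2)) ∨ (x = (2*s+2)) ∨ (x = (4*s+1)) := by omega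
    rcases h with h|h|h|h|h|h|h|h|h|h|h|h
    · refine ⟨(4*s+2)-2*(x-(4*s+1)), by omega, by omega, ?_⟩
      dsimp only; split_ifs <;> omega
    · refine ⟨(4*s+2)-2*((8*s+3)-x), by omega, by omega, ?_⟩
      dsimp only; split_ifs <;> omega
    · refine ⟨(4*s+1)-2*(x-0), by omega, by omega, ?_⟩
      dsimp only; split_ifs <;> omega
    · refine ⟨(4*s+1)-2*((4*s+1)-x), by omega, by omega, ?_⟩
      dsimp only; split_ifs <;> omega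
    · refine ⟨(2*s-1)-2*(x-(s+2)), by omega, by omega, ?_⟩
      dsimp only; split_ifs <;> omega
    · refine ⟨(2*s-1)-2*((3*s+1)-x), by omega, by omega, ?_⟩
      dsimp only; split_ifs <;> omega
    · refine ⟨1, by omega, by omega, ?_⟩
      dsimp only; split_ifs <;> omega
    · refine ⟨1, by omega, by omega, ?_⟩
      dsimp only; split_ifs <;> omega
    · refine ⟨(4*s+1), by omega, by omega, ?_⟩
      dsimp only; split_ifs <;> omega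
    · refine ⟨(4*s+1), by omega, by omega, ?_⟩
      dsimp only; split_ifs <;> omega
    · refine ⟨(2*s-1), by omega, by omega, ?_⟩
      dsimp only; split_ifs <;> omega
    · refine ⟨(2*s-1), by omega, by omega, ?_⟩
      dsimp only; split_ifs <;> omega

theorem sk2 (s : ℕ) (hs : 4 ≤ s) : ∃ a : ℕ → ℕ, (∀ i, 1 ≤ i → i ≤ (4*s+2) → 1 ≤ a i ∧ a i + i ≤ 2*(4*s+2)+2) ∧ ∀ x, 1 ≤ x → x ≤ 2*(4*s+2)+1 → x ≠ 2*(4*s+2) → ∃ i, 1 ≤ i ∧ i ≤ (4*s+2) ∧ (x = a i ∨ x = a i + i) := by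
  refine ⟨fun i => if i = (4*s+1) then (2*s+1) else if i = (2*s+1) then (4*s+2) else if i = (4*s+2) then (4*s+3) else if i = 1 then (7*s+3) else if i % 2 = 0 ∧ 2 ≤ i ∧ i ≤ (4*s) then 0+((4*s+2)-i)/2 else if i % 2 = 1 ∧ (2*s+3) ≤ i ∧ i ≤ (4*s-1) then (4*s+3)+((4*s+1)-i)/2 else if i % 2 = 1 ∧ 3 ≤ i ∧ i ≤ (2*s-1) then (5*s+2)+((2*s+1)-i)/2 else 1, ?_, ?_⟩
  · intro i h1 h2; dsimp only; split_ifs <;> omega
  · intro x h1 h2 h3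
    have h : (1 ≤ x ∧ x ≤ (2*s)) ∨ ((2*s+2) ≤ x ∧ x ≤ (4*s+1)) ∨ ((4*s+4) ≤ x ∧ x ≤ (5*s+2)) ∨ ((7*s+5) ≤ x ∧ x ≤ (8*s+3)) ∨ ((5*s+3) ≤ x ∧ x ≤ (6*s+1)) ∨ ((6*s+4) ≤ x ∧ x ≤ (7*s+2)) ∨ (x = (2*s+1)) ∨ (x = (6*s+2)) ∨ (x = (4*s+2)) ∨ (x = (6*s+3)) ∨ (x = (4*s+3)) ∨ (x = (8*s+5)) ∨ (x = (7*s+3)) ∨ (x = (7*s+4)) := by omega
    rcases h with h|h|h|h|h|h|h|h|h|h|h|h|h|h
    · refine ⟨(4*s+2)-2*(x-0), by omega, by omega, ?_⟩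
      dsimp only; split_ifs <;> omega
    · refine ⟨(4*s+2)-2*((4*s+2)-x), by omega, by omega, ?_⟩
      dsimp only; split_ifs <;> omega
    · refine ⟨(4*s+1)-2*(x-(4*s+3)), by omega, by omega, ?_⟩
      dsimp only; split_ifs <;> omega
    · refine ⟨(4*s+1)-2*((8*s+4)-x), by omega, by omega, ?_⟩
      dsimp only; split_ifs <;> omega
    · refine ⟨(2*s+1)-2*(x-(5*s+2)), by omega, by omega, ?_⟩
      dsimp only; split_ifs <;> omega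
    · refine ⟨(2*s+1)-2*((7*s+3)-x), by omega, by omega, ?_⟩
      dsimp only; split_ifs <;> omega
    · refine ⟨(4*s+1), by omega, by omega, ?_⟩
      dsimp only; split_ifs <;> omega
    · refine ⟨(4*s+1), by omega, by omega, ?_⟩
      dsimp only; split_ifs <;> omega
    · refine ⟨(2*s+1), by omega, by omega, ?_⟩
      dsimp only; split_ifs <;> omega
    · refine ⟨(2*s+1), by omega, by omega, ?_⟩
      dsimp only; split_ifs <;> omega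
    · refine ⟨(4*s+2), by omega, by omega, ?_⟩
      dsimp only; split_ifs <;> omega
    · refine ⟨(4*s+2), by omega, by omega, ?_⟩
      dsimp only; split_ifs <;> omega
    · refine ⟨1, by omega, by omega, ?_⟩
      dsimp only; split_ifs <;> omega
    · refine ⟨1, by omega, by omega, ?_⟩
      dsimp only; split_ifs <;> omega

theorem sk3 (s : ℕ) (hs : 4 ≤ s) : ∃ a : ℕ → ℕ, (∀ i, 1 ≤ i → i ≤ (4*s-1) → 1 ≤ a i ∧ a i + i ≤ 2*(4*s-1)+2) ∧ ∀ x, 1 ≤ x → x ≤ 2*(4*s-1)+1 → x ≠ 2*(4*s-1) → ∃ i, 1 ≤ i ∧ i ≤ (4*s-1) ∧ (x = a i ∨ x = a i + i) := by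
  refine ⟨fun i => if i = (2*s+1) then (s-1) else if i = 1 then s else if i = (2*s-1) then (2*s) else if i = (4*s-2) then (2*s+1) else if i = (4*s-1) then (4*s) else if i % 2 = 0 ∧ 2 ≤ i ∧ i ≤ (4*s-4) then (4*s)+((4*s-2)-i)/2 else if i % 2 = 1 ∧ (2*s+3) ≤ i ∧ i ≤ (4*s-3) then 0+((4*s-1)-i)/2 else if i % 2 = 1 ∧ 3 ≤ i ∧ i ≤ (2*s-3) then (s+1)+((2*s-1)-i)/2 else 1, ?_, ?_⟩
  · intro i h1 h2; dsimp only; split_ifs <;> omega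
  · intro x h1 h2 h3
    have h : ((4*s+1) ≤ x ∧ x ≤ (6*s-2)) ∨ ((6*s) ≤ x ∧ x ≤ (8*s-3)) ∨ (1 ≤ x ∧ x ≤ (s-2)) ∨ ((3*s+1) ≤ x ∧ x ≤ (4*s-2)) ∨ ((s+2) ≤ x ∧ x ≤ (2*s-1)) ∨ ((2*s+2) ≤ x ∧ x ≤ (3*s-1)) ∨ (x = (s-1)) ∨ (x = (3*s)) ∨ (x = s) ∨ (x = (s+1)) ∨ (x = (2*s)) ∨ (x = (4*s-1)) ∨ (x = (2*s+1)) ∨ (x = (6*s-1)) ∨ (x = (4*s)) ∨ (x = (8*s-1)) := by omega
    rcases h with h|h|h|h|h|h|h|h|h|h|h|h|h|h|h|h
    · refine ⟨(4*s-2)-2*(x-(4*s)), by omega, by omega, ?_⟩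
      dsimp only; split_ifs <;> omega
    · refine ⟨(4*s-2)-2*((8*s-2)-x), by omega, by omega, ?_⟩
      dsimp only; split_ifs <;> omega
    · refine ⟨(4*s-1)-2*(x-0), by omega, by omega, ?_⟩
      dsimp only; split_ifs <;> omega
    · refine ⟨(4*s-1)-2*((4*s-1)-x), by omega, by omega, ?_⟩
      dsimp only; split_ifs <;> omega
    · refine ⟨(2*s-1)-2*(x-(s+1)), by omega, by omega, ?_⟩
      dsimp only; split_ifs <;> omega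
    · refine ⟨(2*s-1)-2*((3*s)-x), by omega, by omega, ?_⟩
      dsimp only; split_ifs <;> omega
    · refine ⟨(2*s+1), by omega, by omega, ?_⟩
      dsimp only; split_ifs <;> omega
    · refine ⟨(2*s+1), by omega, by omega, ?_⟩
      dsimp only; split_ifs <;> omega
    · refine ⟨1, by omega, by omega, ?_⟩
      dsimp only; split_ifs <;> omega
    · refine ⟨1, by omega, by omega, ?_⟩
      dsimp only; split_ifs <;> omega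
    · refine ⟨(2*s-1), by omega, by omega, ?_⟩
      dsimp only; split_ifs <;> omega
    · refine ⟨(2*s-1), by omega, by omega, ?_⟩
      dsimp only; split_ifs <;> omega
    · refine ⟨(4*s-2), by omega, by omega, ?_⟩
      dsimp only; split_ifs <;> omega
    · refine ⟨(4*s-2), by omega, by omega, ?_⟩
      dsimp only; split_ifs <;> omega
    · refine ⟨(4*s-1), by omega, by omega, ?_⟩
      dsimp only; split_ifs <;> omega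
    · refine ⟨(4*s-1), by omega, by omega, ?_⟩
      dsimp only; split_ifs <;> omega

theorem ro0 (s : ℕ) (hs : 4 ≤ s) : ∃ a : ℕ → ℕ, (∀ i, 1 ≤ i → i ≤ (4*s) → 1 ≤ a i ∧ a i + i ≤ 2*(4*s)+2) ∧ ∀ x, 1 ≤ x → x ≤ 2*(4*s)+1 → x ≠ (4*s)+1 → ∃ i, 1 ≤ i ∧ i ≤ (4*s) ∧ (x = a i ∨ x = a i + i) := by
  refine ⟨fun i => if i = 1 then (2*s-1) else if i = (2*s+1) then (3*s) else if i = (4*s) then (3*s+1) else if i = (2*s) then (6*s+1) else if i % 2 = 1 ∧ (2*s+3) ≤ i ∧ i ≤ (4*s-1) then 0+((4*s+1)-i)/2 else if i % 2 = 1 ∧ 3 ≤ i ∧ i ≤ (2*s-1) then (s-1)+((2*s+1)-i)/2 else if i % 2 = 0 ∧ (2*s+2) ≤ i ∧ i ≤ (4*s-2) then (4*s+1)+((4*s)-i)/2 else if i % 2 = 0 ∧ 2 ≤ i ∧ i ≤ (2*s-2) then (5*s+1)+((2*s)-i)/2 else 1, ?_, ?_⟩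
  · intro i h1 h2; dsimp only; split_ifs <;> omega
  · intro x h1 h2 h3
    have h : (1 ≤ x ∧ x ≤ (s-1)) ∨ ((3*s+2) ≤ x ∧ x ≤ (4*s)) ∨ (s ≤ x ∧ x ≤ (2*s-2)) ∨ ((2*s+1) ≤ x ∧ x ≤ (3*s-1)) ∨ ((4*s+2) ≤ x ∧ x ≤ (5*s)) ∨ ((7*s+2) ≤ x ∧ x ≤ (8*s)) ∨ ((5*s+2) ≤ x ∧ x ≤ (6*s)) ∨ ((6*s+2) ≤ x ∧ x ≤ (7*s)) ∨ (x = (2*s-1)) ∨ (x = (2*s)) ∨ (x = (3*s)) ∨ (x = (5*s+1)) ∨ (x = (3*s+1)) ∨ (x = (7*s+1)) ∨ (x = (6*s+1)) ∨ (x = (8*s+1)) := by omega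
    rcases h with h|h|h|h|h|h|h|h|h|h|h|h|h|h|h|h
    · refine ⟨(4*s+1)-2*(x-0), by omega, by omega, ?_⟩
      dsimp only; split_ifs <;> omega
    · refine ⟨(4*s+1)-2*((4*s+1)-x), by omega, by omega, ?_⟩
      dsimp only; split_ifs <;> omega
    · refine ⟨(2*s+1)-2*(x+1-s), by omega, by omega, ?_⟩
      dsimp only; split_ifs <;> omega
    · refine ⟨(2*s+1)-2*((3*s)-x), by omega, by omega, ?_⟩
      dsimp only; split_ifs <;> omega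
    · refine ⟨(4*s)-2*(x-(4*s+1)), by omega, by omega, ?_⟩
      dsimp only; split_ifs <;> omega
    · refine ⟨(4*s)-2*((8*s+1)-x), by omega, by omega, ?_⟩
      dsimp only; split_ifs <;> omega
    · refine ⟨(2*s)-2*(x-(5*s+1)), by omega, by omega, ?_⟩
      dsimp only; split_ifs <;> omega
    · refine ⟨(2*s)-2*((7*s+1)-x), by omega, by omega, ?_⟩
      dsimp only; split_ifs <;> omega
    · refine ⟨1, by omega, by omega, ?_⟩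
      dsimp only; split_ifs <;> omega
    · refine ⟨1, by omega, by omega, ?_⟩
      dsimp only; split_ifs <;> omega
    · refine ⟨(2*s+1), by omega, by omega, ?_⟩
      dsimp only; split_ifs <;> omega
    · refine ⟨(2*s+1), by omega, by omega, ?_⟩
      dsimp only; split_ifs <;> omega
    · refine ⟨(4*s), by omega, by omega, ?_⟩
      dsimp only; split_ifs <;> omega
    · refine ⟨(4*s), by omega, by omega, ?_⟩
      dsimp only; split_ifs <;> omega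
    · refine ⟨(2*s), by omega, by omega, ?_⟩
      dsimp only; split_ifs <;> omega
    · refine ⟨(2*s), by omega, by omega, ?_⟩
      dsimp only; split_ifs <;> omega

theorem ro3 (s : ℕ) (hs : 4 ≤ s) : ∃ a : ℕ → ℕ, (∀ i, 1 ≤ i → i ≤ (4*s-1) → 1 ≤ a i ∧ a i + i ≤ 2*(4*s-1)+2) ∧ ∀ x, 1 ≤ x → x ≤ 2*(4*s-1)+1 → x ≠ (4*s-1)+1 → ∃ i, 1 ≤ i ∧ i ≤ (4*s-1) ∧ (x = a i ∨ x = a i + i) := by
  refine ⟨fun i => if i = (4*s-1) then (2*s) else if i = (2*s+1) then (5*s) else if i = (2*s-1) then (4*s+1) else if i = 1 then (7*s-1) else if i % 2 = 0 ∧ 2 ≤ i ∧ i ≤ (4*s-2) then 0+((4*s)-i)/2 else if i % 2 = 1 ∧ (2*s+3) ≤ i ∧ i ≤ (4*s-3) then (4*s+1)+((4*s-1)-i)/2 else if i % 2 = 1 ∧ 3 ≤ i ∧ i ≤ (2*s-3) then (5*s)+((2*s-1)-i)/2 else 1, ?_, ?_⟩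
  · intro i h1 h2; dsimp only; split_ifs <;> omega
  · intro x h1 h2 h3
    have h : (1 ≤ x ∧ x ≤ (2*s-1)) ∨ ((2*s+1) ≤ x ∧ x ≤ (4*s-1)) ∨ ((4*s+2) ≤ x ∧ x ≤ (5*s-1)) ∨ ((7*s+2) ≤ x ∧ x ≤ (8*s-1)) ∨ ((5*s+1) ≤ x ∧ x ≤ (6*s-2)) ∨ ((6*s+1) ≤ x ∧ x ≤ (7*s-2)) ∨ (x = (2*s)) ∨ (x = (6*s-1)) ∨ (x = (5*s)) ∨ (x = (7*s+1)) ∨ (x = (4*s+1)) ∨ (x = (6*s)) ∨ (x = (7*s-1)) ∨ (x = (7*s)) := by omega
    rcases h with h|h|h|h|h|h|h|h|h|h|h|h|h|h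
    · refine ⟨(4*s)-2*(x-0), by omega, by omega, ?_⟩
      dsimp only; split_ifs <;> omega
    · refine ⟨(4*s)-2*((4*s)-x), by omega, by omega, ?_⟩
      dsimp only; split_ifs <;> omega
    · refine ⟨(4*s-1)-2*(x-(4*s+1)), by omega, by omega, ?_⟩
      dsimp only; split_ifs <;> omega
    · refine ⟨(4*s-1)-2*((8*s)-x), by omega, by omega, ?_⟩
      dsimp only; split_ifs <;> omega
    · refine ⟨(2*s-1)-2*(x-(5*s)), by omega, by omega, ?_⟩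
      dsimp only; split_ifs <;> omega
    · refine ⟨(2*s-1)-2*((7*s-1)-x), by omega, by omega, ?_⟩
      dsimp only; split_ifs <;> omega
    · refine ⟨(4*s-1), by omega, by omega, ?_⟩
      dsimp only; split_ifs <;> omega
    · refine ⟨(4*s-1), by omega, by omega, ?_⟩
      dsimp only; split_ifs <;> omega
    · refine ⟨(2*s+1), by omega, by omega, ?_⟩
      dsimp only; split_ifs <;> omega
    · refine ⟨(2*s+1), by omega, by omega, ?_⟩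
      dsimp only; split_ifs <;> omega
    · refine ⟨(2*s-1), by omega, by omega, ?_⟩
      dsimp only; split_ifs <;> omega
    · refine ⟨(2*s-1), by omega, by omega, ?_⟩
      dsimp only; split_ifs <;> omega
    · refine ⟨1, by omega, by omega, ?_⟩
      dsimp only; split_ifs <;> omega
    · refine ⟨1, by omega, by omega, ?_⟩
      dsimp only; split_ifs <;> omega

theorem ro1 (s : ℕ) (hs : 4 ≤ s) : ∃ a : ℕ → ℕ, (∀ i, 1 ≤ i → i ≤ (4*s+1) → 1 ≤ a i ∧ a i + i ≤ 2*(4*s+1)+2) ∧ ∀ x, 1 ≤ x → x ≤ 2*(4*s+1)+2 → x ≠ (4*s+1)+1 → x ≠ 2*(4*s+1)+1 → ∃ i, 1 ≤ i ∧ i ≤ (4*s+1) ∧ (x = a i ∨ x = a i + i) := by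
  refine ⟨fun i => if i = (4*s+1) then (2*s+1) else if i = (2*s+3) then (6*s+1) else if i = 1 then (7*s+3) else if i % 2 = 0 ∧ 2 ≤ i ∧ i ≤ (4*s) then 0+((4*s+2)-i)/2 else if i % 2 = 1 ∧ 3 ≤ i ∧ i ≤ (2*s+1) then (5*s)+((2*s+3)-i)/2 else if i % 2 = 1 ∧ (2*s+5) ≤ i ∧ i ≤ (4*s-1) then (4*s+2)+((4*s+1)-i)/2 else 1, ?_, ?_⟩
  · intro i h1 h2; dsimp only; split_ifs <;> omega
  · intro x h1 h2 h3 h4
    have h : (1 ≤ x ∧ x ≤ (2*s)) ∨ ((2*s+2) ≤ x ∧ x ≤ (4*s+1)) ∨ ((5*s+1) ≤ x ∧ x ≤ (6*s)) ∨ ((6*s+3) ≤ x ∧ x ≤ (7*s+2)) ∨ ((4*s+3) ≤ x ∧ x ≤ (5*s)) ∨ ((7*s+5) ≤ x ∧ x ≤ (8*s+2)) ∨ (x = (2*s+1)) ∨ (x = (6*s+2)) ∨ (x = (6*s+1)) ∨ (x = (8*s+4)) ∨ (x = (7*s+3)) ∨ (x = (7*s+4)) := by omega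
    rcases h with h|h|h|h|h|h|h|h|h|h|h|h
    · refine ⟨(4*s+2)-2*(x-0), by omega, by omega, ?_⟩
      dsimp only; split_ifs <;> omega
    · refine ⟨(4*s+2)-2*((4*s+2)-x), by omega, by omega, ?_⟩
      dsimp only; split_ifs <;> omega
    · refine ⟨(2*s+3)-2*(x-(5*s)), by omega, by omega, ?_⟩
      dsimp only; split_ifs <;> omega
    · refine ⟨(2*s+3)-2*((7*s+3)-x), by omega, by omega, ?_⟩
      dsimp only; split_ifs <;> omega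
    · refine ⟨(4*s+1)-2*(x-(4*s+2)), by omega, by omega, ?_⟩
      dsimp only; split_ifs <;> omega
    · refine ⟨(4*s+1)-2*((8*s+3)-x), by omega, by omega, ?_⟩
      dsimp only; split_ifs <;> omega
    · refine ⟨(4*s+1), by omega, by omega, ?_⟩
      dsimp only; split_ifs <;> omega
    · refine ⟨(4*s+1), by omega, by omega, ?_⟩
      dsimp only; split_ifs <;> omega
    · refine ⟨(2*s+3), by omega, by omega, ?_⟩
      dsimp only; split_ifs <;> omega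
    · refine ⟨(2*s+3), by omega, by omega, ?_⟩
      dsimp only; split_ifs <;> omega
    · refine ⟨1, by omega, by omega, ?_⟩
      dsimp only; split_ifs <;> omega
    · refine ⟨1, by omega, by omega, ?_⟩
      dsimp only; split_ifs <;> omega

theorem ro2 (s : ℕ) (hs : 4 ≤ s) : ∃ a : ℕ → ℕ, (∀ i, 1 ≤ i → i ≤ (4*s+2) → 1 ≤ a i ∧ a i + i ≤ 2*(4*s+2)+2) ∧ ∀ x, 1 ≤ x → x ≤ 2*(4*s+2)+2 → x ≠ (4*s+2)+1 → x ≠ 2*(4*s+2)+1 → ∃ i, 1 ≤ i ∧ i ≤ (4*s+2) ∧ (x = a i ∨ x = a i + i) := by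
  refine ⟨fun i => if i = (4*s+2) then (2*s+1) else if i = (4*s) then (2*s+2) else if i = (2*s) then (4*s+4) else if i = 1 then (7*s+3) else if i = 2 then (8*s+4) else if i % 2 = 1 ∧ 3 ≤ i ∧ i ≤ (4*s+1) then 0+((4*s+3)-i)/2 else if i % 2 = 0 ∧ (2*s+2) ≤ i ∧ i ≤ (4*s-2) then (4*s+4)+((4*s)-i)/2 else if i % 2 = 0 ∧ 4 ≤ i ∧ i ≤ (2*s-2) then (5*s+3)+((2*s)-i)/2 else 1, ?_, ?_⟩
  · intro i h1 h2; dsimp only; split_ifs <;> omega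
  · intro x h1 h2 h3 h4
    have h : (1 ≤ x ∧ x ≤ (2*s)) ∨ ((2*s+3) ≤ x ∧ x ≤ (4*s+2)) ∨ ((4*s+5) ≤ x ∧ x ≤ (5*s+3)) ∨ ((7*s+5) ≤ x ∧ x ≤ (8*s+3)) ∨ ((5*s+4) ≤ x ∧ x ≤ (6*s+1)) ∨ ((6*s+5) ≤ x ∧ x ≤ (7*s+2)) ∨ (x = (2*s+1)) ∨ (x = (6*s+3)) ∨ (x = (2*s+2)) ∨ (x = (6*s+2)) ∨ (x = (4*s+4)) ∨ (x = (6*s+4)) ∨ (x = (7*s+3)) ∨ (x = (7*s+4)) ∨ (x = (8*s+4)) ∨ (x = (8*s+6)) := by omega
    rcases h with h|h|h|h|h|h|h|h|h|h|h|h|h|h|h|h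
    · refine ⟨(4*s+3)-2*(x-0), by omega, by omega, ?_⟩
      dsimp only; split_ifs <;> omega
    · refine ⟨(4*s+3)-2*((4*s+3)-x), by omega, by omega, ?_⟩
      dsimp only; split_ifs <;> omega
    · refine ⟨(4*s)-2*(x-(4*s+4)), by omega, by omega, ?_⟩
      dsimp only; split_ifs <;> omega
    · refine ⟨(4*s)-2*((8*s+4)-x), by omega, by omega, ?_⟩
      dsimp only; split_ifs <;> omega
    · refine ⟨(2*s)-2*(x-(5*s+3)), by omega, by omega, ?_⟩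
      dsimp only; split_ifs <;> omega
    · refine ⟨(2*s)-2*((7*s+3)-x), by omega, by omega, ?_⟩
      dsimp only; split_ifs <;> omega
    · refine ⟨(4*s+2), by omega, by omega, ?_⟩
      dsimp only; split_ifs <;> omega
    · refine ⟨(4*s+2), by omega, by omega, ?_⟩
      dsimp only; split_ifs <;> omega
    · refine ⟨(4*s), by omega, by omega, ?_⟩
      dsimp only; split_ifs <;> omega
    · refine ⟨(4*s), by omega, by omega, ?_⟩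
      dsimp only; split_ifs <;> omega
    · refine ⟨(2*s), by omega, by omega, ?_⟩
      dsimp only; split_ifs <;> omega
    · refine ⟨(2*s), by omega, by omega, ?_⟩
      dsimp only; split_ifs <;> omega
    · refine ⟨1, by omega, by omega, ?_⟩
      dsimp only; split_ifs <;> omega
    · refine ⟨1, by omega, by omega, ?_⟩
      dsimp only; split_ifs <;> omega
    · refine ⟨2, by omega, by omega, ?_⟩
      dsimp only; split_ifs <;> omega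
    · refine ⟨2, by omega, by omega, ?_⟩
      dsimp only; split_ifs <;> omega

end Pool.Agent.H4Sk
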