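import Mathlib

set_option autoImplicit false

namespace H4DF

open Finset

/-- `q` is a prime with `q - 1 = N w` and `w ≡ 1 mod N`. -/
structure Good (q N w : ℕ) : Prop where
  prime : q.Prime
  eq : q = N * w + 1
  cong : ∃ t, w = N * t + 1
  Neven : Even N
  Npos : 0 < N

lemma exists_good (N : ℕ) (hN : Even N) (h0 : 0 < N) (B : ℕ) :
    ∃ q w, Good q N w ∧ B < q := by
  have h1 : (1 + N).Coprime N := by simp
  have hcop : (1 + N).Coprime (N * N) := Nat.Coprime.mul_right h1 h1
  obtain ⟨p, hp, hpp, hmod⟩ := Nat.forall_exists_prime_gt_and_modEq (max B (1 + N))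
    (by positivity : N * N ≠ 0) hcop
  have hle : 1 + N ≤ p := (le_max_right _ _).trans hp.le
  obtain ⟨t, ht⟩ := (Nat.modEq_iff_dvd' hle).1 hmod.symm
  refine ⟨p, N * t + 1, ⟨hpp, ?_, ⟨t, rfl⟩, hN, h0⟩, (le_max_left _ _).trans_lt hp⟩
  have : p = N * N * t + (1 + N) := by omega
  rw [this]; ring

section

set_option linter.unusedSectionVars false

variable {q N w : ℕ} (hG : Good q N w) [Fact q.Prime]

include hG

lemma Good.wpos : 0 < w := by
  obtain ⟨t, ht⟩ := hG.cong
  omega

lemma Good.wodd : Odd w := by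
  obtain ⟨t, ht⟩ := hG.cong
  rw [ht]
  exact (hG.Neven.mul_right t).add_one

lemma Good.neg_pow (x : ZMod q) : (-x) ^ w = - x ^ w := hG.wodd.neg_pow x

lemma Good.pow_pow {x : ZMod q} (hx : x ≠ 0) : (x ^ w) ^ N = 1 := by
  rw [← pow_mul, mul_comm]
  have h := ZMod.pow_card_sub_one_eq_one hx
  have h2 : q - 1 = N * w := by have := hG.eq; omega
  rwa [h2] at h

lemma Good.pow_self {c : ZMod q} (hc : c ^ N = 1) : c ^ w = c := by
  obtain ⟨t, ht⟩ := hG.cong
  rw [ht, pow_add, pow_mul, hc, one_pow, one_mul, pow_one]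

lemma Good.ne_zero {c : ZMod q} (hc : c ^ N = 1) : c ≠ 0 := by
  rintro rfl
  rw [zero_pow hG.Npos.ne'] at hc
  exact zero_ne_one hc

lemma Good.ne_zero' {x c : ZMod q} (hc : c ^ N = 1) (h : x ^ w = c) : x ≠ 0 := by
  rintro rfl
  rw [zero_pow hG.wpos.ne'] at h
  exact hG.ne_zero hc h.symm

omit hG in
lemma card_fib_le (n : ℕ) (hn : 0 < n) (c : ZMod q) :
    (univ.filter (fun x : ZMod q => x ^ n = c)).card ≤ n := by
  classical
  calc (univ.filter (fun x : ZMod q => x ^ n = c)).card
      ≤ (Polynomial.nthRoots n c).toFinset.card := by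
        apply card_le_card
        intro x hx
        simp only [mem_filter, mem_univ, true_and] at hx
        rw [Multiset.mem_toFinset, Polynomial.mem_nthRoots hn]
        exact hx
    _ ≤ Multiset.card (Polynomial.nthRoots n c) := Multiset.toFinset_card_le _
    _ ≤ n := Polynomial.card_nthRoots n c

/-- the `N`-th roots of unity -/
def mu (q N : ℕ) [Fact q.Prime] : Finset (ZMod q) := univ.filter (fun c : ZMod q => c ^ N = 1)

omit hG in
@[simp] lemma mem_mu {c : ZMod q} : c ∈ mu q N ↔ c ^ N = 1 := by simp [mu]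

lemma Good.sum_fib : ∑ c ∈ mu q N, (univ.filter (fun x : ZMod q => x ^ w = c)).card = N * w := by
  classical
  have h1 : (univ.filter (fun x : ZMod q => x ≠ 0)).card = N * w := by
    rw [filter_ne' univ (0 : ZMod q), card_erase_of_mem (mem_univ _), card_univ, ZMod.card, hG.eq]
    simp
  rw [← h1]
  rw [card_eq_sum_card_fiberwise (f := fun x : ZMod q => x ^ w) (t := mu q N)]
  · apply sum_congr rfl
    intro c hc
    rw [filter_filter]
    congr 1
    apply filter_congr
    intro x _
    constructor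
    · intro h; exact ⟨hG.ne_zero' (mem_mu.1 hc) h, h⟩
    · exact fun h => h.2
  · intro x hx
    simp only [coe_filter, mem_univ, true_and, Set.mem_ofPred_eq] at hx
    simpa using hG.pow_pow hx

lemma Good.card_mu : (mu q N).card = N := by
  have h1 := hG.sum_fib
  have h2 : ∑ c ∈ mu q N, (univ.filter (fun x : ZMod q => x ^ w = c)).card
      ≤ ∑ c ∈ mu q N, w := sum_le_sum fun c _ => card_fib_le w hG.wpos c
  rw [sum_const, smul_eq_mul, h1] at h2
  have h3 : N ≤ (mu q N).card := Nat.le_of_mul_le_mul_right h2 hG.wpos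
  exact le_antisymm (card_fib_le N hG.Npos 1) h3

lemma Good.card_fib {c : ZMod q} (hc : c ^ N = 1) :
    (univ.filter (fun x : ZMod q => x ^ w = c)).card = w := by
  by_contra hne
  have hlt := lt_of_le_of_ne (card_fib_le w hG.wpos c) hne
  have h1 := hG.sum_fib
  have h2 : ∑ c ∈ mu q N, (univ.filter (fun x : ZMod q => x ^ w = c)).card
      < ∑ c ∈ mu q N, w :=
    sum_lt_sum (fun c _ => card_fib_le w hG.wpos c) ⟨c, mem_mu.2 hc, hlt⟩
  rw [sum_const, smul_eq_mul, h1, hG.card_mu] at h2
  exact lt_irrefl _ h2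

/-- number of `a ∈ A` with `a - x` in the class `c` -/
def cnt (A : Finset (ZMod q)) (w : ℕ) (c x : ZMod q) : ℕ :=
  (A.filter (fun a => (a - x) ^ w = c)).card

lemma Good.sum_cnt (A : Finset (ZMod q)) {c : ZMod q} (hc : c ^ N = 1) :
    ∑ x, cnt A w c x = A.card * w := by
  unfold cnt
  simp only [card_filter]
  rw [sum_comm]
  rw [← smul_eq_mul, ← sum_const]
  apply sum_congr rfl
  intro a _
  rw [← card_filter]
  refine Eq.trans ?_ (hG.card_fib hc)
  apply card_bij (fun x _ => a - x)
  · intro x hx; simpa using hx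
  · intro x _ y _ h; simpa using h
  · intro y hy
    exact ⟨a - y, by simpa using hy, by simp⟩

lemma Good.sum_cnt_sq (A : Finset (ZMod q)) :
    ∑ c ∈ mu q N, ∑ x, cnt A w c x * cnt A w c x ≤ A.card * (N * w) + A.card * A.card * w := by
  classical
  have e1 : ∀ c x, cnt A w c x * cnt A w c x
      = ∑ a ∈ A, ∑ b ∈ A, if (a - x) ^ w = c ∧ (b - x) ^ w = c then 1 else 0 := by
    intro c x
    unfold cnt
    rw [card_filter, sum_mul_sum]
    apply sum_congr rfl; intro a _
    apply sum_congr rfl; intro b _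
    by_cases h1 : (a - x) ^ w = c <;> by_cases h2 : (b - x) ^ w = c <;> simp [h1, h2]
  simp_rw [e1]
  have e2 : ∑ c ∈ mu q N, ∑ x, ∑ a ∈ A, ∑ b ∈ A,
      (if (a - x) ^ w = c ∧ (b - x) ^ w = c then 1 else 0)
      = ∑ a ∈ A, ∑ b ∈ A, ∑ x, ∑ c ∈ mu q N,
      (if (a - x) ^ w = c ∧ (b - x) ^ w = c then 1 else 0) := by
    calc _ = ∑ c ∈ mu q N, ∑ a ∈ A, ∑ b ∈ A, ∑ x,
          (if (a - x) ^ w = c ∧ (b - x) ^ w = c then 1 else 0) := by
          apply sum_congr rfl; intro c _
          rw [sum_comm]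
          apply sum_congr rfl; intro a _
          rw [sum_comm]
      _ = _ := by
          rw [sum_comm]
          apply sum_congr rfl; intro a _
          rw [sum_comm]
          apply sum_congr rfl; intro b _
          rw [sum_comm]
  rw [e2]
  have e3 : ∀ a b x : ZMod q, ∑ c ∈ mu q N,
      (if (a - x) ^ w = c ∧ (b - x) ^ w = c then 1 else 0)
      ≤ (if x ≠ a ∧ (a - x) ^ w = (b - x) ^ w then 1 else 0) := by
    intro a b x
    rw [← card_filter]
    split_ifs with h
    · rw [card_le_one]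
      intro c hc c' hc'
      rw [mem_filter] at hc hc'
      rw [← hc.2.1, ← hc'.2.1]
    · rw [Nat.le_zero, card_eq_zero, filter_eq_empty_iff]
      intro c hc hcc
      apply h
      refine ⟨?_, hcc.1.trans hcc.2.symm⟩
      rintro rfl
      exact hG.ne_zero' (mem_mu.1 hc) hcc.1 (sub_self _)
  have e4 : ∀ a b : ZMod q, (∑ x, ∑ c ∈ mu q N,
      (if (a - x) ^ w = c ∧ (b - x) ^ w = c then 1 else 0)) ≤ (if a = b then N * w else 0) + w := by
    intro a b
    refine (sum_le_sum fun x _ => e3 a b x).trans ?_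
    rw [← card_filter]
    split_ifs with h
    · subst h
      have : (univ.filter fun x : ZMod q => x ≠ a ∧ (a - x) ^ w = (a - x) ^ w).card = N * w := by
        simp only [and_true]
        rw [filter_ne' univ a, card_erase_of_mem (mem_univ _), card_univ, ZMod.card, hG.eq]
        simp
      omega
    · rw [zero_add]
      refine le_trans ?_ (hG.card_fib (one_pow N)).le
      apply card_le_card_of_injOn (fun x => (a - x) / (b - x))
      · intro x hx
        simp only [coe_filter, mem_univ, true_and, Set.mem_ofPred_eq] at hx ⊢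
        rw [div_pow, hx.2, div_self]
        rw [← hx.2]
        exact pow_ne_zero _ (sub_ne_zero.2 (Ne.symm hx.1))
      · intro x hx y hy hxy
        simp only [coe_filter, mem_univ, true_and, Set.mem_ofPred_eq] at hx hy
        have hb : ∀ z : ZMod q, z ≠ a ∧ (a - z) ^ w = (b - z) ^ w → b - z ≠ 0 := by
          intro z hz h0
          rw [h0, zero_pow hG.wpos.ne'] at hz
          exact hz.1 (sub_eq_zero.1 ((pow_eq_zero_iff hG.wpos.ne').1 hz.2)).symm
        have hbx := hb x hx
        have hby := hb y hy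
        dsimp only at hxy
        rw [div_eq_div_iff hbx hby] at hxy
        have h3 : (a - b) * (x - y) = 0 := by linear_combination hxy
        rcases mul_eq_zero.1 h3 with h4 | h4
        · exact absurd (sub_eq_zero.1 h4) h
        · exact sub_eq_zero.1 h4
  calc _ ≤ ∑ a ∈ A, ∑ b ∈ A, ((if a = b then N * w else 0) + w) :=
        sum_le_sum fun a _ => sum_le_sum fun b _ => e4 a b
    _ = A.card * (N * w) + A.card * A.card * w := by
        simp only [sum_add_distrib, sum_ite_eq, sum_const, smul_eq_mul]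
        rw [← sum_filter]
        simp [mul_assoc]

lemma Good.bad_card (A : Finset (ZMod q)) {c : ZMod q} (hc : c ^ N = 1) :
    ((univ.filter (fun x : ZMod q => 2 * q * cnt A w c x < A.card * w)).card : ℝ)
      * (A.card * w ^ 2) ≤ 8 * (q : ℝ) ^ 3 := by
  classical
  rcases Nat.eq_zero_or_pos A.card with hA | hA
  · rw [hA]; simp
  have hqpos : (0 : ℝ) < q := by exact_mod_cast hG.prime.pos
  have hApos : (0 : ℝ) < A.card := by exact_mod_cast hA
  have hwpos : (0 : ℝ) < w := by exact_mod_cast hG.wpos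
  set m : ℝ := A.card * w / q with hm
  have hmpos : 0 < m := by positivity
  have hN : (q : ℝ) = N * w + 1 := by exact_mod_cast hG.eq
  -- variance
  have v1 : ∑ c ∈ mu q N, ∑ x, ((cnt A w c x : ℝ) - m) ^ 2 ≤ 2 * q * A.card := by
    have h2 : ∑ c ∈ mu q N, ∑ x, ((cnt A w c x : ℝ) - m) ^ 2
        = ((∑ c ∈ mu q N, ∑ x, cnt A w c x * cnt A w c x : ℕ) : ℝ)
          - 2 * m * (∑ c ∈ mu q N, ((∑ x, cnt A w c x : ℕ) : ℝ)) + N * q * m ^ 2 := by
      push_cast
      have : ∀ c x, ((cnt A w c x : ℝ) - m) ^ 2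
          = (cnt A w c x : ℝ) * cnt A w c x - 2 * m * cnt A w c x + m ^ 2 := by
        intro c x; ring
      simp only [this, sum_add_distrib, sum_sub_distrib, ← mul_sum, sum_const, card_univ,
        ZMod.card, hG.card_mu, nsmul_eq_mul]
      ring
    have h3 : (∑ c ∈ mu q N, ((∑ x, cnt A w c x : ℕ) : ℝ)) = N * (A.card * w) := by
      have : ∀ c ∈ mu q N, ((∑ x, cnt A w c x : ℕ) : ℝ) = (A.card * w : ℝ) := by
        intro c hc
        rw [hG.sum_cnt A (mem_mu.1 hc)]; push_cast; ring
      rw [sum_congr rfl this, sum_const, hG.card_mu, nsmul_eq_mul]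
    have h4 : ((∑ c ∈ mu q N, ∑ x, cnt A w c x * cnt A w c x : ℕ) : ℝ)
        ≤ A.card * (N * w) + A.card * A.card * w := by
      exact_mod_cast hG.sum_cnt_sq A
    rw [h2, h3]
    have h5 : (A.card : ℝ) ≤ q := by
      have : A.card ≤ q := by
        calc A.card ≤ (univ : Finset (ZMod q)).card := card_le_univ _
          _ = q := by rw [card_univ, ZMod.card]
      exact_mod_cast this
    have hmq : m * q = A.card * w := by rw [hm]; field_simp
    -- N q m^2 = N m A w
    have h6 : (N : ℝ) * q * m ^ 2 = N * m * (A.card * w) := by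
      rw [← hmq]; ring
    have h7 : (A.card : ℝ) * A.card * w = A.card * m * q := by rw [mul_assoc _ m, hmq]; ring
    have h8 : (A.card : ℝ) * m * q - N * m * (A.card * w) = A.card * m := by
      have : (q : ℝ) - N * w = 1 := by linarith
      calc (A.card : ℝ) * m * q - N * m * (A.card * w) = A.card * m * (q - N * w) := by ring
        _ = A.card * m := by rw [this, mul_one]
    have h9 : m ≤ w := by
      rw [hm, div_le_iff₀ hqpos]
      nlinarith
    have h10 : (w : ℝ) ≤ q := by
      have hN1 : (1 : ℝ) ≤ N := by exact_mod_cast hG.Npos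
      nlinarith
    have h11 : (N : ℝ) * w ≤ q := by linarith
    nlinarith
  have v2 : ∑ x, ((cnt A w c x : ℝ) - m) ^ 2 ≤ 2 * q * A.card := by
    refine le_trans ?_ v1
    exact single_le_sum (f := fun c => ∑ x, ((cnt A w c x : ℝ) - m) ^ 2)
      (fun c _ => sum_nonneg fun x _ => sq_nonneg _) (mem_mu.2 hc)
  set Bd := univ.filter (fun x : ZMod q => 2 * q * cnt A w c x < A.card * w) with hBd
  have v3 : (Bd.card : ℝ) * (m / 2) ^ 2 ≤ ∑ x, ((cnt A w c x : ℝ) - m) ^ 2 := by
    calc (Bd.card : ℝ) * (m / 2) ^ 2 = ∑ x ∈ Bd, (m / 2) ^ 2 := by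
          rw [sum_const, nsmul_eq_mul]
      _ ≤ ∑ x ∈ Bd, ((cnt A w c x : ℝ) - m) ^ 2 := by
          apply sum_le_sum
          intro x hx
          rw [hBd, mem_filter] at hx
          have h1 : (2 : ℝ) * q * cnt A w c x < A.card * w := by exact_mod_cast hx.2
          have hmq : m * q = A.card * w := by rw [hm]; field_simp
          have h2 : (cnt A w c x : ℝ) < m / 2 := by
            rw [← hmq] at h1
            have : q * (2 * (cnt A w c x : ℝ)) < q * m := by linarith
            have := lt_of_mul_lt_mul_left this hqpos.le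
            linarith
          have h3 : m / 2 ≤ m - cnt A w c x := by linarith
          calc (m / 2) ^ 2 ≤ (m - cnt A w c x) ^ 2 := by
                apply pow_le_pow_left₀ (by positivity) h3
            _ = ((cnt A w c x : ℝ) - m) ^ 2 := by ring
      _ ≤ _ := sum_le_sum_of_subset_of_nonneg (subset_univ _) fun x _ _ => sq_nonneg _
  have v4 := v3.trans v2
  have e : (m / 2) ^ 2 = A.card * (A.card * w ^ 2) / (4 * q ^ 2) := by
    rw [hm]; field_simp; ring
  rw [e] at v4
  have v5 : (Bd.card : ℝ) * (A.card * (A.card * w ^ 2)) ≤ 2 * q * A.card * (4 * q ^ 2) := by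
    rw [← div_le_iff₀ (by positivity)]
    calc (Bd.card : ℝ) * (A.card * (A.card * w ^ 2)) / (4 * q ^ 2)
        = Bd.card * (A.card * (A.card * w ^ 2) / (4 * q ^ 2)) := by ring
      _ ≤ _ := v4
  have v6 : A.card * ((Bd.card : ℝ) * (A.card * w ^ 2)) ≤ A.card * (8 * (q : ℝ) ^ 3) := by
    nlinarith
  exact le_of_mul_le_mul_left v6 hApos

end

/-- Sets of positive density contain points with all differences in prescribed classes. -/
lemma star (N : ℕ) (h0 : 0 < N) : ∀ (k : ℕ) (δ : ℝ), 0 < δ → ∃ Q : ℕ,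
    ∀ (q w : ℕ) (_ : Good q N w) [Fact q.Prime], Q < q →
    ∀ (A : Fin k → Finset (ZMod q)), (∀ j, δ * q ≤ (A j).card) →
    ∀ c : Fin k → Fin k → ZMod q, (∀ i j, c i j ^ N = 1) →
    ∃ x : Fin k → ZMod q, (∀ j, x j ∈ A j) ∧ ∀ i j, i < j → (x j - x i) ^ w = c i j := by
  classical
  intro k
  induction k with
  | zero =>
    intro δ _
    exact ⟨0, fun q w _ _ _ A _ c _ => ⟨fun j => j.elim0, fun j => j.elim0, fun j => j.elim0⟩⟩
  | succ k ih =>
    intro δ hδ
    have hNpos : (0 : ℝ) < N := by exact_mod_cast h0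
    obtain ⟨Q1, hQ1⟩ := ih (δ / (4 * N)) (by positivity)
    obtain ⟨Q2, hQ2⟩ := exists_nat_gt (k * (32 * N ^ 2 / δ) / δ)
    refine ⟨max Q1 Q2, ?_⟩
    intro q w hG _ hq A hA c hc
    have hq1 : Q1 < q := lt_of_le_of_lt (le_max_left _ _) hq
    have hq2 : Q2 < q := lt_of_le_of_lt (le_max_right _ _) hq
    have hqpos : (0 : ℝ) < q := by exact_mod_cast hG.prime.pos
    have hwpos : (0 : ℝ) < w := by exact_mod_cast hG.wpos
    have hN : (q : ℝ) = N * w + 1 := by exact_mod_cast hG.eq
    have hq2' : (2 : ℝ) ≤ q := by exact_mod_cast hG.prime.two_le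
    have hw1 : (q : ℝ) ≤ 2 * (N * w) := by linarith
    have hw2 : (q : ℝ) / (2 * N) ≤ w := by
      rw [div_le_iff₀ (by positivity)]; linarith
    set Bd : Fin k → Finset (ZMod q) := fun j =>
      univ.filter (fun x : ZMod q => 2 * q * cnt (A j.succ) w (c 0 j.succ) x < (A j.succ).card * w)
      with hBd
    have hb : ∀ j, ((Bd j).card : ℝ) ≤ 32 * N ^ 2 / δ := by
      intro j
      have h1 := hG.bad_card (A j.succ) (hc 0 j.succ)
      have h2 : ((Bd j).card : ℝ) * (δ * q * (q / (2 * N)) ^ 2) ≤ 8 * (q : ℝ) ^ 3 := by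
        refine le_trans ?_ h1
        apply mul_le_mul_of_nonneg_left _ (Nat.cast_nonneg _)
        apply mul_le_mul (hA _) _ (by positivity) (Nat.cast_nonneg _)
        exact pow_le_pow_left₀ (by positivity) hw2 2
      have h3 : δ * q * ((q : ℝ) / (2 * N)) ^ 2 = q ^ 3 * (δ / (4 * N ^ 2)) := by
        field_simp; ring
      rw [h3] at h2
      have h4 : (q : ℝ) ^ 3 * ((Bd j).card * (δ / (4 * N ^ 2))) ≤ q ^ 3 * 8 := by linarith
      have h5 := le_of_mul_le_mul_left h4 (by positivity)
      rw [le_div_iff₀ hδ]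
      have h6 : ((Bd j).card : ℝ) * δ / (4 * N ^ 2) ≤ 8 := by
        calc ((Bd j).card : ℝ) * δ / (4 * N ^ 2) = (Bd j).card * (δ / (4 * N ^ 2)) := by ring
          _ ≤ 8 := h5
      rw [div_le_iff₀ (by positivity)] at h6
      linarith
    have hex : ∃ x0 ∈ A 0, ∀ j, x0 ∉ Bd j := by
      by_contra hcon
      push Not at hcon
      have hsub : A 0 ⊆ univ.biUnion Bd := by
        intro x hx
        obtain ⟨j, hj⟩ := hcon x hx
        exact mem_biUnion.2 ⟨j, mem_univ _, hj⟩
      have h1 : ((A 0).card : ℝ) ≤ ∑ j, ((Bd j).card : ℝ) := by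
        have := (card_le_card hsub).trans card_biUnion_le
        exact_mod_cast this
      have h2 : ∑ j, ((Bd j).card : ℝ) ≤ k * (32 * N ^ 2 / δ) := by
        calc ∑ j, ((Bd j).card : ℝ) ≤ ∑ _j : Fin k, (32 * N ^ 2 / δ : ℝ) :=
              sum_le_sum fun j _ => hb j
          _ = k * (32 * N ^ 2 / δ) := by simp
      have h3 : (k * (32 * N ^ 2 / δ) / δ : ℝ) < q := hQ2.trans (by exact_mod_cast hq2)
      rw [div_lt_iff₀ hδ] at h3
      have h4 := hA 0
      linarith
    obtain ⟨x0, hx0, hx0b⟩ := hex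
    set A' : Fin k → Finset (ZMod q) := fun j =>
      (A j.succ).filter (fun a => (a - x0) ^ w = c 0 j.succ) with hA'
    have hA'c : ∀ j, δ / (4 * N) * q ≤ (A' j).card := by
      intro j
      have h1 : ¬ (2 * q * cnt (A j.succ) w (c 0 j.succ) x0 < (A j.succ).card * w) := by
        have := hx0b j
        simpa [hBd] using this
      have h2 : ((A j.succ).card : ℝ) * w ≤ 2 * q * (A' j).card := by
        have : (A j.succ).card * w ≤ 2 * q * cnt (A j.succ) w (c 0 j.succ) x0 := not_lt.1 h1
        exact_mod_cast this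
      have h3 : q * (δ * (q / (2 * N))) ≤ q * (2 * ((A' j).card : ℝ)) := by
        calc q * (δ * (q / (2 * N))) = (δ * q) * (q / (2 * N)) := by ring
          _ ≤ (A j.succ).card * w := by
              apply mul_le_mul (hA _) hw2 (by positivity) (Nat.cast_nonneg _)
          _ ≤ _ := h2
          _ = _ := by ring
      have h4 := le_of_mul_le_mul_left h3 hqpos
      have h5 : δ / (4 * N) * q = δ * (q / (2 * N)) / 2 := by field_simp; ring
      rw [h5]
      linarith
    obtain ⟨x, hx1, hx2⟩ := hQ1 q w hG hq1 A' hA'c (fun i j => c i.succ j.succ)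
      (fun i j => hc _ _)
    refine ⟨Fin.cons x0 x, ?_, ?_⟩
    · intro j
      refine Fin.cases ?_ (fun j' => ?_) j
      · exact hx0
      · exact (mem_filter.1 (hx1 j')).1
    · intro i j
      refine Fin.cases ?_ (fun i' => ?_) i
      · refine Fin.cases ?_ (fun j' => ?_) j
        · intro h; exact absurd h (lt_irrefl _)
        · intro _
          simpa using (mem_filter.1 (hx1 j')).2
      · refine Fin.cases ?_ (fun j' => ?_) j
        · intro h; exact absurd h (Fin.not_lt_zero _)
        · intro h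
          simpa using hx2 i' j' (Fin.succ_lt_succ_iff.1 h)

end H4DF
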