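import Pool.Agent.Helpers.H4_DF1

set_option autoImplicit false

namespace H4DF

open Finset

/-- `F` is a family of `k`-subsets of `V` whose differences are exactly the elements of `S`,
each of them once. -/
structure IsDF {V : Type*} [AddCommGroup V] (k : ℕ) (S : Set V) (F : Set (Finset V)) : Prop where
  card : ∀ B ∈ F, B.card = k
  uniq : ∀ B ∈ F, ∀ B' ∈ F, ∀ x ∈ B, ∀ y ∈ B, ∀ x' ∈ B', ∀ y' ∈ B', x ≠ y →
    y - x = y' - x' → B = B' ∧ x = x'
  mem : ∀ B ∈ F, ∀ x ∈ B, ∀ y ∈ B, x ≠ y → y - x ∈ S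
  ex : ∀ d ∈ S, ∃ B ∈ F, ∃ x ∈ B, ∃ y ∈ B, y - x = d

lemma card_lt_pairs (k : ℕ) :
    2 * Fintype.card {p : Fin k × Fin k // p.1 < p.2} = k * (k - 1) := by
  classical
  rw [Fintype.card_subtype]
  have h1 : (univ : Finset (Fin k)).offDiag.card = k * (k - 1) := by
    rw [offDiag_card]; simp [Nat.mul_sub]
  have h2 : (univ : Finset (Fin k)).offDiag
      = (univ.filter fun p : Fin k × Fin k => p.1 < p.2)
        ∪ (univ.filter fun p : Fin k × Fin k => p.2 < p.1) := by
    ext p
    simp only [mem_offDiag, mem_univ, true_and, mem_union, mem_filter]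
    exact ne_iff_lt_or_gt
  have h3 : Disjoint (univ.filter fun p : Fin k × Fin k => p.1 < p.2)
      (univ.filter fun p : Fin k × Fin k => p.2 < p.1) := by
    rw [disjoint_left]
    intro p hp hp'
    simp only [mem_filter, mem_univ, true_and] at hp hp'
    exact lt_asymm hp hp'
  have h4 : (univ.filter fun p : Fin k × Fin k => p.2 < p.1).card
      = (univ.filter fun p : Fin k × Fin k => p.1 < p.2).card := by
    apply card_bij (fun p _ => p.swap)
    · intro p hp; simpa using hp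
    · intro p _ p' _ h; exact Prod.swap_injective h
    · intro p hp
      exact ⟨p.swap, by simpa using hp, by simp⟩
  rw [← h1, h2, card_union_of_disjoint h3, h4]
  ring

lemma exists_DF (N k : ℕ) (h0 : 0 < N) : ∃ Q : ℕ,
    ∀ (q w : ℕ) (_ : Good q N w) [Fact q.Prime], Q < q →
    ∀ (S0 : Finset (ZMod q)), S0 ⊆ mu q N → (∀ s ∈ S0, -s ∈ S0) →
    ∀ b : ℕ, S0.card = k * (k - 1) * b →
    ∃ F : Set (Finset (ZMod q)), IsDF k {y | y ^ w ∈ S0} F := by
  classical
  obtain ⟨Q, hQ⟩ := star N h0 k 1 one_pos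
  refine ⟨Q, ?_⟩
  intro q w hG _ hq S0 hS hneg b hcard
  have hqodd : Odd q := by
    rw [hG.eq]; exact (hG.Neven.mul_right w).add_one
  obtain ⟨h, hh⟩ := hqodd
  set H := S0.filter (fun s => s.val ≤ h) with hH
  have hval : ∀ s : ZMod q, s ≠ 0 → (-s).val = q - s.val := by
    intro s hs
    rw [ZMod.neg_val, if_neg hs]
  have hHneg : ∀ s ∈ H, -s ∉ H := by
    intro s hs hs'
    rw [hH, mem_filter] at hs hs'
    have hs0 : s ≠ 0 := hG.ne_zero (mem_mu.1 (hS hs.1))
    rw [hval s hs0] at hs'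
    have := s.val_lt
    omega
  have hHor : ∀ s ∈ S0, s ∈ H ∨ -s ∈ H := by
    intro s hs
    by_cases h1 : s.val ≤ h
    · left; rw [hH, mem_filter]; exact ⟨hs, h1⟩
    · right
      have hs0 : s ≠ 0 := hG.ne_zero (mem_mu.1 (hS hs))
      rw [hH, mem_filter, hval s hs0]
      exact ⟨hneg s hs, by omega⟩
  have hcardH : 2 * H.card = S0.card := by
    have e : S0 = H ∪ H.image (fun s => -s) := by
      ext s
      rw [mem_union, mem_image]
      constructor
      · intro hs
        rcases hHor s hs with h1 | h1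
        · exact Or.inl h1
        · exact Or.inr ⟨-s, h1, neg_neg s⟩
      · rintro (h1 | ⟨t, ht, rfl⟩)
        · exact (mem_filter.1 h1).1
        · exact hneg t (mem_filter.1 ht).1
    have hd : Disjoint H (H.image (fun s => -s)) := by
      rw [disjoint_left]
      intro s hs hs'
      rw [mem_image] at hs'
      obtain ⟨t, ht, rfl⟩ := hs'
      exact hHneg t ht hs
    rw [e, card_union_of_disjoint hd, card_image_of_injective _ neg_injective]
    ring
  have hce : Fintype.card (Fin b × {p : Fin k × Fin k // p.1 < p.2}) = Fintype.card H := by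
    rw [Fintype.card_prod, Fintype.card_fin, Fintype.card_coe]
    have h1 := card_lt_pairs k
    have h2 : 2 * (b * Fintype.card {p : Fin k × Fin k // p.1 < p.2}) = 2 * H.card := by
      rw [hcardH, hcard, ← h1]; ring
    omega
  let ε := Fintype.equivOfCardEq hce
  have hεmu : ∀ p, ((ε p : H) : ZMod q) ^ N = 1 := fun p =>
    mem_mu.1 (hS (mem_filter.1 (ε p).2).1)
  have hx : ∀ β : Fin b, ∃ x : Fin k → ZMod q, ∀ i j (hij : i < j),
      (x j - x i) ^ w = ε (β, ⟨(i, j), hij⟩) := by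
    intro β
    obtain ⟨x, _, hx⟩ := hQ q w hG hq (fun _ => univ)
      (fun _ => by rw [card_univ, ZMod.card, one_mul])
      (fun i j => if hij : i < j then ((ε (β, ⟨(i, j), hij⟩) : H) : ZMod q) else 1)
      (fun i j => by
        split_ifs with hij
        · exact hεmu _
        · exact one_pow _)
    exact ⟨x, fun i j hij => by rw [hx i j hij, dif_pos hij]⟩
  choose x hx using hx
  have hxne : ∀ β i j, i ≠ j → x β j - x β i ≠ 0 := by
    intro β i j hij h0
    rcases lt_or_gt_of_ne hij with h1 | h1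
    · have := hx β i j h1
      exact hG.ne_zero' (hεmu _) this h0
    · have := hx β j i h1
      refine hG.ne_zero' (hεmu _) this ?_
      rw [← neg_sub, h0, neg_zero]
  have hinj : ∀ β, Function.Injective (x β) := by
    intro β i j hij
    by_contra hne
    exact hxne β i j hne (by rw [hij, sub_self])
  have hdne : ∀ d : ZMod q, d ^ w = 1 → d ≠ 0 := by
    rintro d hd rfl
    rw [zero_pow hG.wpos.ne'] at hd
    exact zero_ne_one hd
  -- key uniqueness
  have key : ∀ β β' d d' i j i' j', d ^ w = 1 → d' ^ w = 1 → i ≠ j →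
      d * x β j - d * x β i = d' * x β' j' - d' * x β' i' →
      β = β' ∧ d = d' ∧ i = i' ∧ j = j' := by
    intro β β' d d' i j i' j' hd hd' hij he
    have he' : d * (x β j - x β i) = d' * (x β' j' - x β' i') := by linear_combination he
    have hij' : i' ≠ j' := by
      rintro rfl
      rw [sub_self, mul_zero] at he'
      exact mul_ne_zero (hdne d hd) (hxne β i j hij) he'
    have hw : (x β j - x β i) ^ w = (x β' j' - x β' i') ^ w := by
      have := congrArg (· ^ w) he'
      simpa [mul_pow, hd, hd'] using this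
    have fin : β = β' → i = i' → j = j' → β = β' ∧ d = d' ∧ i = i' ∧ j = j' := by
      rintro rfl rfl rfl
      exact ⟨rfl, mul_right_cancel₀ (hxne β i j hij) he', rfl, rfl⟩
    rcases lt_or_gt_of_ne hij with h1 | h1 <;> rcases lt_or_gt_of_ne hij' with h2 | h2
    · rw [hx β i j h1, hx β' i' j' h2] at hw
      have h3 := ε.injective (Subtype.ext hw)
      simp only [Prod.mk.injEq, Subtype.mk.injEq] at h3
      exact fin h3.1 h3.2.1 h3.2.2
    · exfalso
      rw [hx β i j h1, ← neg_sub, hG.neg_pow, hx β' j' i' h2] at hw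
      apply hHneg _ (ε (β', ⟨(j', i'), h2⟩)).2
      rw [← hw]
      exact (ε (β, ⟨(i, j), h1⟩)).2
    · exfalso
      rw [hx β' i' j' h2, ← neg_sub, hG.neg_pow, hx β j i h1] at hw
      apply hHneg _ (ε (β, ⟨(j, i), h1⟩)).2
      rw [hw]
      exact (ε (β', ⟨(i', j'), h2⟩)).2
    · rw [← neg_sub, hG.neg_pow, hx β j i h1, ← neg_sub (x β' i'), hG.neg_pow, hx β' j' i' h2] at hw
      have h3 := ε.injective (Subtype.ext (neg_injective hw))
      simp only [Prod.mk.injEq, Subtype.mk.injEq] at h3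
      exact fin h3.1 h3.2.2 h3.2.1
  refine ⟨{B | ∃ β d, d ^ w = 1 ∧ B = univ.image (fun i => d * x β i)}, ?_, ?_, ?_, ?_⟩
  · rintro B ⟨β, d, hd, rfl⟩
    rw [card_image_of_injective, card_univ, Fintype.card_fin]
    intro i j hij
    exact hinj β (mul_left_cancel₀ (hdne d hd) hij)
  · rintro B ⟨β, d, hd, rfl⟩ B' ⟨β', d', hd', rfl⟩ y hy z hz y' hy' z' hz' hne he
    rw [mem_image] at hy hz hy' hz'
    obtain ⟨i, -, rfl⟩ := hy
    obtain ⟨j, -, rfl⟩ := hz
    obtain ⟨i', -, rfl⟩ := hy'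
    obtain ⟨j', -, rfl⟩ := hz'
    have hij : i ≠ j := by rintro rfl; exact hne rfl
    obtain ⟨rfl, rfl, rfl, rfl⟩ := key β β' d d' i j i' j' hd hd' hij he
    exact ⟨rfl, rfl⟩
  · rintro B ⟨β, d, hd, rfl⟩ y hy z hz hne
    rw [mem_image] at hy hz
    obtain ⟨i, -, rfl⟩ := hy
    obtain ⟨j, -, rfl⟩ := hz
    have hij : i ≠ j := by rintro rfl; exact hne rfl
    show (d * x β j - d * x β i) ^ w ∈ S0
    rw [← mul_sub, mul_pow, hd, one_mul]
    rcases lt_or_gt_of_ne hij with h1 | h1
    · rw [hx β i j h1]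
      exact (mem_filter.1 (ε (β, ⟨(i, j), h1⟩)).2).1
    · rw [← neg_sub, hG.neg_pow, hx β j i h1]
      exact hneg _ (mem_filter.1 (ε (β, ⟨(j, i), h1⟩)).2).1
  · intro y hy
    have hy' : y ^ w ∈ S0 := hy
    rcases hHor _ hy' with h1 | h1
    · obtain ⟨⟨β, ⟨⟨i, j⟩, hij⟩⟩, hp⟩ := ε.surjective ⟨y ^ w, h1⟩
      have h2 : (x β j - x β i) ^ w = y ^ w := by rw [hx β i j hij, hp]
      have h3 := hxne β i j hij.ne
      refine ⟨_, ⟨β, y / (x β j - x β i), ?_, rfl⟩, _, mem_image_of_mem _ (mem_univ i), _,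
        mem_image_of_mem _ (mem_univ j), ?_⟩
      · rw [div_pow, h2, div_self]
        rw [← h2]; exact pow_ne_zero _ h3
      · rw [← mul_sub, div_mul_cancel₀ _ h3]
    · obtain ⟨⟨β, ⟨⟨i, j⟩, hij⟩⟩, hp⟩ := ε.surjective ⟨-y ^ w, h1⟩
      have h2 : (x β i - x β j) ^ w = y ^ w := by
        rw [← neg_sub, hG.neg_pow, hx β i j hij, hp, neg_neg]
      have h3 := hxne β j i hij.ne'
      refine ⟨_, ⟨β, y / (x β i - x β j), ?_, rfl⟩, _, mem_image_of_mem _ (mem_univ j), _,
        mem_image_of_mem _ (mem_univ i), ?_⟩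
      · rw [div_pow, h2, div_self]
        rw [← h2]; exact pow_ne_zero _ h3
      · rw [← mul_sub, div_mul_cancel₀ _ h3]

end H4DF
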