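import Pool.Agent.Helpers.H4_DF2

set_option autoImplicit false

namespace H4DF

open Finset

/-- Data of a special block. -/
structure JData {q : ℕ} (N w e r k : ℕ) [Fact q.Prime] (Λ : Set (ZMod q)) {I : Type}
    (J : Finset (ZMod q × I)) : Prop where
  card : J.card = k
  neg : ∀ p ∈ J, (-p.1, p.2) ∈ J
  same : ∀ σ σ' i, (σ, i) ∈ J → (σ', i) ∈ J → σ' = σ ∨ σ' = -σ
  diff : ∀ σ σ' i i', (σ, i) ∈ J → (σ', i') ∈ J → i ≠ i' → σ ≠ σ'
  gen : ∀ σ σ' σ₁ σ₁' i i' a, (σ, i) ∈ J → (σ', i') ∈ J → (σ₁, i) ∈ J → (σ₁', i') ∈ J → i ≠ i' →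
    a ^ e = 1 → σ - σ' = a * (σ₁ - σ₁') → (σ₁ = σ ∧ σ₁' = σ') ∨ (σ₁ = -σ ∧ σ₁' = -σ')
  ex : ∀ s : ZMod q, s ≠ 0 → ∃ p ∈ J, ∃ l ∈ Λ, ∃ a, a ^ e = 1 ∧ s = 2 * p.1 * l * a
  uniq : ∀ p ∈ J, ∀ p' ∈ J, p.1 ≠ 0 → p'.1 ≠ 0 → ∀ l ∈ Λ, ∀ l' ∈ Λ, ∀ a a', a ^ e = 1 → a' ^ e = 1 →
    p.1 * l * a = p'.1 * l' * a' → p.2 = p'.2 ∧ l = l'
  ne0 : ∀ l ∈ Λ, l ≠ 0
  nneg : ∀ l ∈ Λ, -l ∉ Λ
  left : ∀ c : ZMod q, c ≠ 0 → ∃ T : Finset (ZMod q), T ⊆ mu q N ∧ (∀ s ∈ T, -s ∈ T) ∧
    T.card = 2 * r ∧ ∀ y, y ^ w ∈ T ↔ ∃ l ∈ Λ, y = c * l ∨ y = -(c * l)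

lemma exists_seq {F : Type*} [DecidableEq F] [Inhabited F] (X : ℕ → Finset F)
    (Bad : F → F → Prop)
    (b h : ℕ) (hX : ∀ i, i < h → h * b < (X i).card)
    (hb : ∀ i, i < h → ∀ x ∈ X i, ∃ S : Finset F, S.card ≤ b ∧ ∀ y, Bad x y → y ∈ S) :
    ∃ x : ℕ → F, (∀ i, i < h → x i ∈ X i) ∧ ∀ i l, i < h → l < i → ¬ Bad (x l) (x i) := by
  have main : ∀ n, n ≤ h → ∃ x : ℕ → F, (∀ i, i < n → x i ∈ X i) ∧
      ∀ i l, i < n → l < i → ¬ Bad (x l) (x i) := by
    intro n
    induction n with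
    | zero =>
      intro hn
      exact ⟨fun _ => default, fun i hi => absurd hi (Nat.not_lt_zero _),
            fun i l hi => absurd hi (Nat.not_lt_zero _)⟩
    | succ n ih =>
      intro hn
      obtain ⟨x, hx1, hx2⟩ := ih (by omega)
      have hS : ∀ l : Fin n, ∃ S : Finset F, S.card ≤ b ∧ ∀ y, Bad (x l) y → y ∈ S := fun l =>
        hb l (by omega) (x l) (hx1 l l.2)
      choose S hS1 hS2 using hS
      have hex : ∃ y ∈ X n, ∀ l, y ∉ S l := by
        by_contra hcon
        push Not at hcon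
        have hsub : X n ⊆ univ.biUnion S := by
          intro y hy
          obtain ⟨j, hj⟩ := hcon y hy
          exact mem_biUnion.2 ⟨j, mem_univ _, hj⟩
        have h1 : (X n).card ≤ ∑ j, (S j).card := (card_le_card hsub).trans card_biUnion_le
        have h2 : ∑ j, (S j).card ≤ n * b := by
          calc ∑ j, (S j).card ≤ ∑ _j : Fin n, b := sum_le_sum fun j _ => hS1 j
            _ = n * b := by simp
        have h3 := hX n (by omega)
        have h4 : n * b ≤ h * b := Nat.mul_le_mul_right _ (by omega)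
        omega
      obtain ⟨y, hy1, hy2⟩ := hex
      refine ⟨Function.update x n y, ?_, ?_⟩
      · intro i hi
        by_cases hin : i = n
        · subst hin; rw [Function.update_self]; exact hy1
        · rw [Function.update_of_ne hin]; exact hx1 i (by omega)
      · intro i l hi hl
        have hln : l ≠ n := by omega
        rw [Function.update_of_ne hln]
        by_cases hin : i = n
        · subst hin; rw [Function.update_self]
          intro hbad
          exact hy2 ⟨l, hl⟩ (hS2 ⟨l, hl⟩ y hbad)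
        · rw [Function.update_of_ne hin]; exact hx2 i l (by omega) hl
  exact main h le_rfl

section

set_option linter.unusedSectionVars false

variable {q N w : ℕ} (hG : Good q N w) [Fact q.Prime]

include hG

lemma Good.two_ne : (2 : ZMod q) ≠ 0 := by
  have hqodd : Odd q := by
    rw [hG.eq]; exact (hG.Neven.mul_right w).add_one
  intro h
  have h1 : ((2 : ℕ) : ZMod q) = 0 := by exact_mod_cast h
  rw [ZMod.natCast_eq_zero_iff] at h1
  have h2 := Nat.le_of_dvd (by norm_num) h1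
  have h3 := hG.prime.two_le
  have h4 : q = 2 := by omega
  rw [h4] at hqodd
  exact absurd hqodd (by decide)

lemma Good.exists_prim : ∃ z : ZMod q, IsPrimitiveRoot z N := by
  obtain ⟨g, hg⟩ := IsCyclic.exists_generator (α := (ZMod q)ˣ)
  have ho : orderOf g = N * w := by
    rw [orderOf_eq_card_of_forall_mem_zpowers hg, Nat.card_eq_fintype_card, ZMod.card_units]
    have := hG.eq; omega
  refine ⟨((g ^ w : (ZMod q)ˣ) : ZMod q), ?_⟩
  rw [IsPrimitiveRoot.coe_units_iff]
  have h1 : orderOf (g ^ w) = N := by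
    rw [orderOf_pow_of_dvd hG.wpos.ne' (by rw [ho]; exact Dvd.intro_left _ rfl), ho,
      Nat.mul_div_cancel _ hG.wpos]
  rw [← h1]
  exact IsPrimitiveRoot.orderOf _

/-- for `a ≠ 0`, few `y` have `(y-a)^e = (y+a)^e` -/
lemma Good.bad_le {e : ℕ} (he : 0 < e) {a : ZMod q} (ha : a ≠ 0) :
    (univ.filter (fun y : ZMod q => (y - a) ^ e = (y + a) ^ e)).card ≤ e := by
  classical
  refine le_trans ?_ (card_fib_le e he (1 : ZMod q))
  have h2a : (2 : ZMod q) * a ≠ 0 := mul_ne_zero hG.two_ne ha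
  have hne : ∀ y : ZMod q, (y - a) ^ e = (y + a) ^ e → y + a ≠ 0 := by
    intro y hy h0
    rw [h0, zero_pow he.ne'] at hy
    have h1 := (pow_eq_zero_iff he.ne').1 hy
    apply h2a
    linear_combination h0 - h1
  apply card_le_card_of_injOn (fun y => (y - a) / (y + a))
  · intro y hy
    simp only [coe_filter, mem_univ, true_and, Set.mem_ofPred_eq] at hy ⊢
    rw [div_pow, hy, div_self (pow_ne_zero _ (hne y hy))]
  · intro y hy z hz hyz
    simp only [coe_filter, mem_univ, true_and, Set.mem_ofPred_eq] at hy hz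
    dsimp only at hyz
    rw [div_eq_div_iff (hne y hy) (hne z hz)] at hyz
    have h3 : (2 * a) * (y - z) = 0 := by linear_combination hyz
    rcases mul_eq_zero.1 h3 with h4 | h4
    · exact absurd h4 h2a
    · exact sub_eq_zero.1 h4

end

lemma T1 {F : Type*} [Field F] {z : F} {N e h r : ℕ} (hN : N = e * h * r) (h0 : 0 < N)
    (hz : IsPrimitiveRoot z N) {u : F} (hu : u ^ N = 1) :
    ∃ i < h, ∃ j < r, ∃ a, a ^ e = 1 ∧ u = z ^ (r * i) * z ^ j * a := by
  have : NeZero N := ⟨h0.ne'⟩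
  obtain ⟨n, hn, rfl⟩ := hz.eq_pow_of_pow_eq_one hu
  have hr : 0 < r := by
    rcases Nat.eq_zero_or_pos r with h1 | h1
    · subst h1; simp at hN; omega
    · exact h1
  have hh : 0 < h := by
    rcases Nat.eq_zero_or_pos h with h1 | h1
    · subst h1; simp at hN; omega
    · exact h1
  refine ⟨n / r % h, Nat.mod_lt _ hh, n % r, Nat.mod_lt _ hr, z ^ (r * h * (n / r / h)), ?_, ?_⟩
  · rw [← pow_mul]
    have : r * h * (n / r / h) * e = N * (n / r / h) := by rw [hN]; ring
    rw [this, pow_mul, hz.pow_eq_one, one_pow]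
  · rw [← pow_add, ← pow_add]
    congr 1
    have e1 := Nat.div_add_mod n r
    have e2 := Nat.div_add_mod (n / r) h
    calc n = r * (n / r) + n % r := e1.symm
      _ = r * (h * (n / r / h) + n / r % h) + n % r := by rw [e2]
      _ = _ := by ring

lemma T2 {F : Type*} [Field F] {z : F} {N e h r : ℕ} (hN : N = e * h * r) (h0 : 0 < N)
    (hz : IsPrimitiveRoot z N) {i j i' j' : ℕ} (hi : i < h) (hi' : i' < h) (hj : j < r)
    (hj' : j' < r) {a a' : F} (ha : a ^ e = 1) (ha' : a' ^ e = 1)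
    (heq : z ^ (r * i) * z ^ j * a = z ^ (r * i') * z ^ j' * a') : i = i' ∧ j = j' := by
  have he : 0 < e := by
    rcases Nat.eq_zero_or_pos e with h1 | h1
    · subst h1; simp at hN; omega
    · exact h1
  have hb : ∀ i j, i < h → j < r → r * i + j < h * r := by
    intro i j hi hj
    calc r * i + j < r * i + r := by omega
      _ = r * (i + 1) := by ring
      _ ≤ r * h := Nat.mul_le_mul_left _ hi
      _ = h * r := by ring
  have h1 := congrArg (· ^ e) heq
  simp only [mul_pow, ha, ha', mul_one] at h1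
  rw [← mul_pow, ← mul_pow, ← pow_add, ← pow_add, ← pow_mul, ← pow_mul] at h1
  have h2 : ∀ m, m < h * r → m * e < N := by
    intro m hm
    rw [hN]
    calc m * e < h * r * e := Nat.mul_lt_mul_of_pos_right hm he
      _ = e * h * r := by ring
  have h3 := hz.pow_inj (h2 _ (hb i j hi hj)) (h2 _ (hb i' j' hi' hj')) h1
  have h4 : r * i + j = r * i' + j' := Nat.eq_of_mul_eq_mul_right he h3
  have h5 : j = j' := by
    have := congrArg (· % r) h4
    simpa [Nat.mod_eq_of_lt hj, Nat.mod_eq_of_lt hj'] using this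
  subst h5
  have h6 : r * i = r * i' := by omega
  exact ⟨Nat.eq_of_mul_eq_mul_left (by omega) h6, rfl⟩


lemma exists_J (N e h r k : ℕ) (hN : N = e * h * r) (he : Even e) (he0 : 0 < e) (h0 : 0 < h)
    (hr : 0 < r) (hk : k = 2 * h ∨ k = 2 * h + 1) : ∃ Q : ℕ,
    ∀ (q w : ℕ) (_ : Good q N w) [Fact q.Prime], Q < q →
    ∃ (Λ : Set (ZMod q)) (J : Finset (ZMod q × Option (Fin h))), JData N w e r k Λ J := by
  classical
  refine ⟨N * (h * e + 1), ?_⟩
  intro q w hG _ hq
  have hNpos : 0 < N := hG.Npos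
  have hw : h * e < w := by
    rw [hG.eq] at hq
    have : N * (h * e + 1) ≤ N * w := by omega
    exact Nat.le_of_mul_le_mul_left this hNpos
  obtain ⟨z, hz⟩ := hG.exists_prim
  have hzN : ∀ n : ℕ, (z ^ n) ^ N = 1 := fun n => by
    rw [← pow_mul, mul_comm, pow_mul, hz.pow_eq_one, one_pow]
  have hz0 : z ≠ 0 := hz.ne_zero hNpos.ne'
  have haw : ∀ a : ZMod q, a ^ e = 1 → a ^ w = a := by
    intro a ha
    apply hG.pow_self
    rw [hN, mul_assoc, pow_mul, ha, one_pow]
  have ha0 : ∀ a : ZMod q, a ^ e = 1 → a ≠ 0 := by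
    rintro a ha rfl
    rw [zero_pow he0.ne'] at ha
    exact zero_ne_one ha
  obtain ⟨x, hx1, hx2⟩ := exists_seq (F := ZMod q)
    (fun i => univ.filter (fun x : ZMod q => x ^ w = z ^ (r * i)))
    (fun x y => (y - x) ^ e = (y + x) ^ e) e h
    (fun i _ => by rw [hG.card_fib (hzN _)]; exact hw)
    (fun i _ x hx => by
      refine ⟨univ.filter (fun y : ZMod q => (y - x) ^ e = (y + x) ^ e), hG.bad_le he0 ?_,
        fun y hy => by simpa using hy⟩
      simp only [mem_filter, mem_univ, true_and] at hx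
      exact hG.ne_zero' (hzN _) hx)
  simp only [mem_filter, mem_univ, true_and] at hx1
  have hx0 : ∀ i, i < h → x i ≠ 0 := fun i hi => hG.ne_zero' (hzN _) (hx1 i hi)
  have hxx : ∀ i l, i < h → l < h → i ≠ l → (x i - x l) ^ e ≠ (x i + x l) ^ e := by
    intro i l hi hl hil
    rcases lt_or_gt_of_ne hil with h1 | h1
    · intro h2
      apply hx2 l i hl h1
      rw [← neg_sub, he.neg_pow, h2, add_comm]
    · exact hx2 i l hi h1
  set J : Finset (ZMod q × Option (Fin h)) :=
    (univ : Finset (Fin h × Bool)).image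
      (fun p => ((if p.2 then x p.1 else -x p.1), some p.1)) ∪
      (if k = 2 * h + 1 then {(0, none)} else ∅) with hJ
  have memJ : ∀ σ ι, (σ, ι) ∈ J ↔ (∃ i : Fin h, ι = some i ∧ ∃ s : ZMod q, (s = 1 ∨ s = -1) ∧
      σ = s * x i) ∨ (k = 2 * h + 1 ∧ σ = 0 ∧ ι = none) := by
    intro σ ι
    rw [hJ, mem_union, mem_image]
    constructor
    · rintro (⟨⟨i, b⟩, _, hp⟩ | h2)
      · left
        rw [Prod.mk.injEq] at hp
        obtain ⟨h3, h4⟩ := hp
        refine ⟨i, h4.symm, ?_⟩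
        cases b
        · exact ⟨-1, Or.inr rfl, by rw [← h3]; simp⟩
        · exact ⟨1, Or.inl rfl, by rw [← h3]; simp⟩
      · right
        split_ifs at h2 with h3
        · rw [mem_singleton, Prod.mk.injEq] at h2
          exact ⟨h3, h2.1, h2.2⟩
        · simp at h2
    · rintro (⟨i, rfl, s, hs, rfl⟩ | ⟨h2, rfl, rfl⟩)
      · left
        rcases hs with rfl | rfl
        · exact ⟨(i, true), mem_univ _, by simp⟩
        · exact ⟨(i, false), mem_univ _, by simp⟩
      · right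
        rw [if_pos h2]; simp
  have hs_e : ∀ s : ZMod q, (s = 1 ∨ s = -1) → s ^ e = 1 := by
    rintro s (rfl | rfl)
    · exact one_pow _
    · rw [he.neg_pow, one_pow]
  have hs_w : ∀ s : ZMod q, (s = 1 ∨ s = -1) → s ^ w = s := fun s hs => haw s (hs_e s hs)
  have hsne : ∀ s : ZMod q, (s = 1 ∨ s = -1) → s ≠ 0 := fun s hs => ha0 s (hs_e s hs)
  have hT2 : ∀ (i i' j j' : ℕ) (a a' : ZMod q), i < h → i' < h → j < r → j' < r → a ^ e = 1 →
      a' ^ e = 1 → z ^ (r * i) * z ^ j * a = z ^ (r * i') * z ^ j' * a' → i = i' ∧ j = j' :=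
    fun i i' j j' a a' hi hi' hj hj' ha ha' => T2 hN hNpos hz hi hi' hj hj' ha ha'
  refine ⟨{l | ∃ j < r, l ^ w = z ^ j}, J, ?_, ?_, ?_, ?_, ?_, ?_, ?_, ?_, ?_, ?_⟩
  · -- card
    have hinj : Function.Injective
        (fun p : Fin h × Bool => ((if p.2 then x p.1 else -x p.1), some p.1)) := by
      rintro ⟨i, b⟩ ⟨i', b'⟩ hp
      simp only [Prod.mk.injEq, Option.some.injEq] at hp
      obtain ⟨h3, rfl⟩ := hp
      have hne : x i ≠ -x i := by
        intro h4
        have : (2 : ZMod q) * x i = 0 := by linear_combination h4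
        exact mul_ne_zero hG.two_ne (hx0 i i.2) this
      cases b <;> cases b' <;> simp at h3 ⊢
      · exact hne h3.symm
      · exact hne h3
    have hd : Disjoint ((univ : Finset (Fin h × Bool)).image
      (fun p => ((if p.2 then x p.1 else -x p.1), some p.1)))
      (if k = 2 * h + 1 then ({(0, none)} : Finset (ZMod q × Option (Fin h))) else ∅) := by
      rw [disjoint_left]
      intro p hp hp'
      rw [mem_image] at hp
      obtain ⟨p', -, rfl⟩ := hp
      split_ifs at hp' <;> simp at hp'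
    rw [hJ, card_union_of_disjoint hd, card_image_of_injective _ hinj, card_univ]
    simp only [Fintype.card_prod, Fintype.card_fin, Fintype.card_bool]
    split_ifs with h3
    · rw [card_singleton]; omega
    · rw [card_empty]; omega
  · -- neg
    rintro ⟨σ, ι⟩ hp
    rw [memJ] at hp ⊢
    rcases hp with ⟨i, rfl, s, hs, rfl⟩ | ⟨h2, rfl, rfl⟩
    · refine Or.inl ⟨i, rfl, -s, ?_, by simp⟩
      rcases hs with rfl | rfl
      · exact Or.inr rfl
      · exact Or.inl (neg_neg 1)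
    · exact Or.inr ⟨h2, neg_zero, rfl⟩
  · -- same
    intro σ σ' ι h1 h2
    rw [memJ] at h1 h2
    rcases h1 with ⟨i, rfl, s, hs, rfl⟩ | ⟨_, rfl, rfl⟩ <;>
      rcases h2 with ⟨i', hi', s', hs', rfl⟩ | ⟨_, rfl, h3⟩
    · cases hi'
      rcases hs with rfl | rfl <;> rcases hs' with rfl | rfl <;> simp
    · cases h3
    · cases hi'
    · left; rfl
  · -- diff
    intro σ σ' ι ι' h1 h2 hne heq
    rw [memJ] at h1 h2
    rcases h1 with ⟨i, rfl, s, hs, rfl⟩ | ⟨_, rfl, rfl⟩ <;>
      rcases h2 with ⟨i', rfl, s', hs', rfl⟩ | ⟨_, rfl, rfl⟩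
    · apply hne
      have h3 := congrArg (· ^ w) heq
      simp only [mul_pow, hs_w s hs, hs_w s' hs', hx1 i i.2, hx1 i' i'.2] at h3
      have h4 := hT2 i i' 0 0 s s' i.2 i'.2 hr hr (hs_e s hs) (hs_e s' hs')
        (by rw [pow_zero]; linear_combination h3)
      rw [Fin.ext h4.1]
    · exact mul_ne_zero (hsne s hs) (hx0 i i.2) heq
    · exact mul_ne_zero (hsne s' hs') (hx0 i' i'.2) heq.symm
    · exact hne rfl
  · -- gen
    intro σ σ' σ₁ σ₁' ι ι' a h1 h2 h3 h4 hne ha heq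
    have hE : (σ - σ') ^ e = (σ₁ - σ₁') ^ e := by rw [heq, mul_pow, ha, one_mul]
    rw [memJ] at h1 h2 h3 h4
    rcases h1 with ⟨i, rfl, s, hs, rfl⟩ | ⟨_, rfl, rfl⟩ <;>
      rcases h2 with ⟨i', rfl, s', hs', rfl⟩ | ⟨_, rfl, rfl⟩
    · rcases h3 with ⟨i₁, hi₁, t, ht, rfl⟩ | ⟨_, rfl, h5⟩
      swap
      · cases h5
      rcases h4 with ⟨i₁', hi₁', t', ht', rfl⟩ | ⟨_, rfl, h5⟩
      swap
      · cases h5
      cases hi₁
      cases hi₁'
      have hii : (i : ℕ) ≠ i' := fun h => hne (by rw [Fin.ext h])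
      have hx3 := hxx i i' i.2 i'.2 hii
      have n1 : (-x i - x i') ^ e = (x i + x i') ^ e := by
        rw [← he.neg_pow]; congr 1; ring
      have n2 : (-x i + x i') ^ e = (x i - x i') ^ e := by
        rw [← he.neg_pow]; congr 1; ring
      rcases hs with rfl | rfl <;> rcases hs' with rfl | rfl <;> rcases ht with rfl | rfl <;>
        rcases ht' with rfl | rfl <;>
        simp only [one_mul, neg_mul, sub_neg_eq_add, n1, n2, neg_neg, true_and, and_true,
          or_true, true_or] at hE ⊢ <;>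
        first
          | (exfalso; exact hx3 hE)
          | (exfalso; exact hx3 hE.symm)
    · rcases h3 with ⟨i₁, hi₁, t, ht, rfl⟩ | ⟨_, rfl, h5⟩
      swap
      · cases h5
      rcases h4 with ⟨i₁', hi₁', t', ht', rfl⟩ | ⟨_, rfl, h5⟩
      · cases hi₁'
      cases hi₁
      rcases hs with rfl | rfl <;> rcases ht with rfl | rfl <;> simp
    · rcases h3 with ⟨i₁, hi₁, t, ht, rfl⟩ | ⟨_, rfl, h5⟩
      · cases hi₁
      rcases h4 with ⟨i₁', hi₁', t', ht', rfl⟩ | ⟨_, rfl, h5⟩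
      swap
      · cases h5
      cases hi₁'
      rcases hs' with rfl | rfl <;> rcases ht' with rfl | rfl <;> simp
    · exact absurd rfl hne
  · -- ex
    intro s hs
    have hs2 : s / 2 ≠ 0 := div_ne_zero hs hG.two_ne
    obtain ⟨i, hi, j, hj, a, ha, hu⟩ := T1 hN hNpos hz (hG.pow_pow hs2)
    refine ⟨(x i, some ⟨i, hi⟩), ?_, s / 2 / (x i * a), ⟨j, hj, ?_⟩, a, ha, ?_⟩
    · rw [memJ]
      exact Or.inl ⟨⟨i, hi⟩, rfl, 1, Or.inl rfl, by simp⟩
    · have h3 : z ^ (r * i) ≠ 0 := pow_ne_zero _ hz0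
      have h4 := ha0 a ha
      rw [div_pow, hu, mul_pow, hx1 i hi, haw a ha]
      field_simp
    · have h3 := hx0 i hi
      have h4 := ha0 a ha
      have h5 := hG.two_ne
      dsimp only
      field_simp
  · -- uniq
    rintro ⟨σ, ι⟩ hp ⟨σ', ι'⟩ hp' hne hne' l ⟨j, hj, hl⟩ l' ⟨j', hj', hl'⟩ a a' ha ha' heq
    dsimp only at hne hne' heq ⊢
    rw [memJ] at hp hp'
    rcases hp with ⟨i, rfl, s, hs, rfl⟩ | ⟨_, rfl, rfl⟩
    swap
    · exact absurd rfl hne
    rcases hp' with ⟨i', rfl, s', hs', rfl⟩ | ⟨_, rfl, rfl⟩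
    swap
    · exact absurd rfl hne'
    have h3 := congrArg (· ^ w) heq
    simp only [mul_pow, hs_w s hs, hs_w s' hs', hx1 i i.2, hx1 i' i'.2, hl, hl', haw a ha,
      haw a' ha'] at h3
    have h4 := hT2 i i' j j' (s * a) (s' * a') i.2 i'.2 hj hj'
      (by rw [mul_pow, hs_e s hs, ha, one_mul]) (by rw [mul_pow, hs_e s' hs', ha', one_mul])
      (by linear_combination h3)
    obtain ⟨h5, h6⟩ := h4
    have h5' := Fin.ext h5
    subst h5'
    subst h6
    refine ⟨rfl, ?_⟩
    have hl0 : l ≠ 0 := hG.ne_zero' (hzN _) hl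
    have hl0' : l' ≠ 0 := hG.ne_zero' (hzN _) hl'
    have h7 : s * l * a = s' * l' * a' := by
      have : x i * (s * l * a) = x i * (s' * l' * a') := by linear_combination heq
      exact mul_left_cancel₀ (hx0 i i.2) this
    have h8 : (l / l') ^ e = 1 := by
      have h9 := congrArg (· ^ e) h7
      simp only [mul_pow, hs_e s hs, hs_e s' hs', ha, ha', one_mul, mul_one] at h9
      rw [div_pow, h9, div_self (pow_ne_zero _ hl0')]
    have h10 : (l / l') ^ w = 1 := by
      rw [div_pow, hl, hl', div_self (pow_ne_zero _ hz0)]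
    rw [haw _ h8] at h10
    exact (div_eq_one_iff_eq hl0').1 h10
  · rintro l ⟨j, hj, hl⟩
    exact hG.ne_zero' (hzN _) hl
  · rintro l ⟨j, hj, hl⟩ ⟨j', hj', hl'⟩
    rw [hG.neg_pow, hl] at hl'
    have h4 := hT2 0 0 j j' (-1) 1 h0 h0 hj hj' (hs_e _ (Or.inr rfl)) (one_pow _)
      (by simpa using hl')
    rw [h4.2] at hl'
    have : (2 : ZMod q) * z ^ j' = 0 := by linear_combination -hl'
    exact mul_ne_zero hG.two_ne (pow_ne_zero _ hz0) this
  · -- left
    intro c hc
    have hcw : c ^ w ≠ 0 := pow_ne_zero _ hc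
    have hi1 : Set.InjOn (fun j => c ^ w * z ^ j) (range r : Finset ℕ) := by
      intro j hj j' hj' h3
      rw [coe_range, Set.mem_Iio] at hj hj'
      have h4 := mul_left_cancel₀ hcw h3
      exact (hT2 0 0 j j' 1 1 h0 h0 hj hj' (one_pow _) (one_pow _) (by simpa using h4)).2
    have hi2 : Set.InjOn (fun j => -(c ^ w * z ^ j)) (range r : Finset ℕ) := by
      intro j hj j' hj' h3
      exact hi1 hj hj' (neg_injective h3)
    refine ⟨(range r).image (fun j => c ^ w * z ^ j) ∪ (range r).image (fun j => -(c ^ w * z ^ j)),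
      ?_, ?_, ?_, ?_⟩
    · intro t ht
      rw [mem_union, mem_image, mem_image] at ht
      rw [mem_mu]
      rcases ht with ⟨j, _, rfl⟩ | ⟨j, _, rfl⟩
      · rw [mul_pow, hG.pow_pow hc, hzN, one_mul]
      · rw [hG.Neven.neg_pow, mul_pow, hG.pow_pow hc, hzN, one_mul]
    · intro t ht
      rw [mem_union, mem_image, mem_image] at ht ⊢
      rcases ht with ⟨j, hj, rfl⟩ | ⟨j, hj, rfl⟩
      · exact Or.inr ⟨j, hj, rfl⟩
      · exact Or.inl ⟨j, hj, by rw [neg_neg]⟩
    · rw [card_union_of_disjoint, card_image_of_injOn hi1, card_image_of_injOn hi2, card_range]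
      · ring
      · rw [disjoint_left]
        intro t ht ht'
        rw [mem_image] at ht ht'
        obtain ⟨j, hj, rfl⟩ := ht
        obtain ⟨j', hj', h3⟩ := ht'
        rw [mem_range] at hj hj'
        have h4 : z ^ j' * (-1) = z ^ j := by
          apply mul_left_cancel₀ hcw
          linear_combination h3
        have h5 := hT2 0 0 j' j (-1) 1 h0 h0 hj' hj (hs_e _ (Or.inr rfl)) (one_pow _)
          (by simpa using h4)
        rw [h5.2] at h4
        have : (2 : ZMod q) * z ^ j = 0 := by linear_combination -h4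
        exact mul_ne_zero hG.two_ne (pow_ne_zero _ hz0) this
    · intro y
      rw [mem_union, mem_image, mem_image]
      constructor
      · rintro (⟨j, hj, h3⟩ | ⟨j, hj, h3⟩)
        · refine ⟨y / c, ⟨j, mem_range.1 hj, ?_⟩, Or.inl ?_⟩
          · rw [div_pow, ← h3]; field_simp
          · field_simp
        · refine ⟨-y / c, ⟨j, mem_range.1 hj, ?_⟩, Or.inr ?_⟩
          · rw [div_pow, hG.neg_pow, ← h3]; field_simp
          · field_simp
      · rintro ⟨l, ⟨j, hj, hl⟩, rfl | rfl⟩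
        · exact Or.inl ⟨j, mem_range.2 hj, by rw [mul_pow, hl]⟩
        · exact Or.inr ⟨j, mem_range.2 hj, by rw [hG.neg_pow, mul_pow, hl]⟩

end H4DF
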