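import Pool.Agent.Helpers.H4_DF3

set_option autoImplicit false

namespace H4DF

open Finset

section Act

set_option linter.unusedSectionVars false

variable {G F : Type*} [Group G] [Field F]

/-- the action of `G` on functions -/
def act (g : G) (m : G → F) : G → F := fun x => m (g⁻¹ * x)

lemma act_smul (g : G) (c : F) (m : G → F) : act g (c • m) = c • act g m := rfl
lemma act_add (g : G) (m m' : G → F) : act g (m + m') = act g m + act g m' := rfl
lemma act_sub (g : G) (m m' : G → F) : act g (m - m') = act g m - act g m' := rfl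
lemma act_mul (g h : G) (m : G → F) : act (g * h) m = act g (act h m) := by
  funext x; simp [act, mul_assoc]
lemma act_one (m : G → F) : act (1 : G) m = m := by funext x; simp [act]
lemma act_zero (g : G) : act g (0 : G → F) = 0 := rfl
lemma act_inj (g : G) {m m' : G → F} (h : act g m = act g m') : m = m' := by
  have := congrArg (act g⁻¹) h
  rwa [← act_mul, ← act_mul, inv_mul_cancel, act_one, act_one] at this
lemma act_ne (g : G) {m : G → F} (h : m ≠ 0) : act g m ≠ 0 := by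
  intro h0; exact h (act_inj g (h0.trans (act_zero g).symm))

lemma act_pow_of_eq {g : G} {m : G → F} {t : F} (h : act g m = t • m) (n : ℕ) :
    act (g ^ n) m = t ^ n • m := by
  induction n with
  | zero => simp [act_one]
  | succ n ih => rw [pow_succ, act_mul, h, act_smul, ih, smul_smul, pow_succ, mul_comm]

/-- the relation of being in the same orbit of `F^* × G` -/
def rel (m m' : G → F) : Prop := ∃ s : F, s ≠ 0 ∧ ∃ g : G, m' = s • act g m

lemma rel_refl (m : G → F) : rel m m := ⟨1, one_ne_zero, 1, by rw [act_one, one_smul]⟩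
lemma rel_symm {m m' : G → F} (h : rel m m') : rel m' m := by
  obtain ⟨s, hs, g, rfl⟩ := h
  refine ⟨s⁻¹, inv_ne_zero hs, g⁻¹, ?_⟩
  rw [act_smul, ← act_mul, inv_mul_cancel, act_one, smul_smul, inv_mul_cancel₀ hs, one_smul]
lemma rel_trans {a b c : G → F} (h : rel a b) (h' : rel b c) : rel a c := by
  obtain ⟨s, hs, g, rfl⟩ := h
  obtain ⟨s', hs', g', rfl⟩ := h'
  exact ⟨s' * s, mul_ne_zero hs' hs, g' * g, by rw [act_smul, smul_smul, act_mul]⟩

def relSetoid (G F : Type*) [Group G] [Field F] : Setoid (G → F) :=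
  ⟨rel, rel_refl, rel_symm, rel_trans⟩

noncomputable def rep (m : G → F) : G → F := (Quotient.mk (relSetoid G F) m).out

lemma rel_rep (m : G → F) : rel m (rep m) :=
  rel_symm (Quotient.exact (s := relSetoid G F) (Quotient.out_eq (Quotient.mk (relSetoid G F) m)))

lemma rep_eq {m m' : G → F} (h : rel m m') : rep m = rep m' := by
  unfold rep
  rw [Quotient.sound (s := relSetoid G F) h]

lemma exists_R [Fintype G] (e : ℕ) (he : Fintype.card G ∣ e) : ∃ R : Set (G → F),
    (∀ v ∈ R, v ≠ 0) ∧ (∀ g : G, ∀ v ∈ R, act g v ∈ R) ∧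
    (∀ m : G → F, m ≠ 0 → ∃ s : F, s ≠ 0 ∧ ∃ v ∈ R, m = s • v) ∧
    (∀ v ∈ R, ∀ s : F, s ≠ 0 → s ^ e = 1 → s • v ∈ R) ∧
    (∀ v ∈ R, ∀ s : F, s • v ∈ R → s ^ e = 1) := by
  refine ⟨{v | v ≠ 0 ∧ ∃ a : F, a ^ e = 1 ∧ ∃ g : G, v = a • act g (rep v)}, ?_, ?_, ?_, ?_, ?_⟩
  · exact fun v hv => hv.1
  · rintro g' v ⟨hv0, a, ha, g, hv⟩
    refine ⟨act_ne _ hv0, a, ha, g' * g, ?_⟩
    have h1 : rep (act g' v) = rep v := (rep_eq ⟨1, one_ne_zero, g', by rw [one_smul]⟩).symm
    rw [h1, act_mul, ← act_smul, ← hv]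
  · intro m hm
    obtain ⟨s, hs, g, h1⟩ := rel_rep m
    have h2 : act g⁻¹ (rep m) = s • m := by
      rw [h1, act_smul, ← act_mul, inv_mul_cancel, act_one]
    refine ⟨s⁻¹, inv_ne_zero hs, act g⁻¹ (rep m), ⟨?_, 1, one_pow _, g⁻¹, ?_⟩, ?_⟩
    · rw [h2]; exact smul_ne_zero hs hm
    · have h3 : rep (act g⁻¹ (rep m)) = rep m := by
        rw [h2]
        exact (rep_eq ⟨s, hs, 1, by rw [act_one]⟩).symm
      rw [h3, one_smul]
    · rw [h2, smul_smul, inv_mul_cancel₀ hs, one_smul]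
  · rintro v ⟨hv0, a, ha, g, hv⟩ s hs hse
    refine ⟨smul_ne_zero hs hv0, s * a, by rw [mul_pow, hse, ha, one_mul], g, ?_⟩
    have h1 : rep (s • v) = rep v := (rep_eq ⟨s, hs, 1, by rw [act_one]⟩).symm
    rw [h1, mul_smul, ← hv]
  · rintro v ⟨hv0, a, ha, g, hv⟩ s ⟨hsv0, a', ha', g', hv'⟩
    have hs : s ≠ 0 := by rintro rfl; exact hsv0 (zero_smul _ _)
    have h1 : rep (s • v) = rep v := (rep_eq ⟨s, hs, 1, by rw [act_one]⟩).symm
    rw [h1] at hv'
    have ha0 : a ≠ 0 := by rintro rfl; rw [zero_smul] at hv; exact hv0 hv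
    have ha0' : a' ≠ 0 := by rintro rfl; rw [zero_smul] at hv'; exact hsv0 hv'
    set ρ := rep v with hρ
    have hρ0 : ρ ≠ 0 := by
      intro h0; rw [h0, act_zero, smul_zero] at hv; exact hv0 hv
    have h2 : act (g'⁻¹ * g) ρ = (a' / (s * a)) • ρ := by
      have h3 : (s * a) • act g ρ = a' • act g' ρ := by
        rw [mul_smul, ← hv, ← hv']
      have h4 := congrArg (act g'⁻¹) h3
      rw [act_smul, act_smul, ← act_mul, ← act_mul, inv_mul_cancel, act_one] at h4
      rw [div_eq_inv_mul, mul_smul, ← h4, smul_smul, inv_mul_cancel₀ (mul_ne_zero hs ha0), one_smul]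
    have h5 := act_pow_of_eq h2 (Fintype.card G)
    rw [pow_card_eq_one, act_one] at h5
    have h6 : (a' / (s * a)) ^ Fintype.card G = 1 := by
      by_contra hne
      have h7 : ((a' / (s * a)) ^ Fintype.card G - 1) • ρ = 0 := by
        rw [sub_smul, one_smul, ← h5, sub_self]
      rcases smul_eq_zero.1 h7 with h8 | h8
      · exact hne (sub_eq_zero.1 h8)
      · exact hρ0 h8
    obtain ⟨c, rfl⟩ := he
    have h9 : (a' / (s * a)) ^ (Fintype.card G * c) = 1 := by rw [pow_mul, h6, one_pow]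
    rw [div_pow, ha', mul_pow, ha, mul_one, one_div, inv_eq_one] at h9
    exact h9

/-- normalised representatives of the vectors `(m, τ)`, `τ ≠ 0` -/
lemma exists_R2 (I : Type*) [Fintype I] [DecidableEq I] [DecidableEq F] :
    ∃ R : Set ((G → F) × (I → F)), (∀ v ∈ R, v.2 ≠ 0) ∧
    (∀ g : G, ∀ v ∈ R, (act g v.1, v.2) ∈ R) ∧
    (∀ v : (G → F) × (I → F), v.2 ≠ 0 → ∃ y : F, y ≠ 0 ∧ ∃ u ∈ R, v = y • u) ∧
    (∀ u ∈ R, ∀ u' ∈ R, ∀ y y' : F, y ≠ 0 → y • u = y' • u' → y = y' ∧ u = u') := by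
  classical
  let supp : (I → F) → Finset I := fun τ => univ.filter (fun i => τ i ≠ 0)
  have hsupp : ∀ τ : I → F, τ ≠ 0 → (supp τ).Nonempty := by
    intro τ hτ
    obtain ⟨i, hi⟩ := Function.ne_iff.1 hτ
    exact ⟨i, by simpa [supp] using hi⟩
  have hsm : ∀ (y : F) (τ : I → F), y ≠ 0 → supp (y • τ) = supp τ := by
    intro y τ hy
    ext i
    simp [supp, hy]
  have hch : ∃ ι : Finset I → Option I, ∀ S : Finset I, S.Nonempty → ∃ i ∈ S, ι S = some i := by
    refine ⟨fun S => if h : S.Nonempty then some h.choose else none, ?_⟩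
    intro S hS
    exact ⟨hS.choose, hS.choose_spec, dif_pos hS⟩
  obtain ⟨ι, hι⟩ := hch
  refine ⟨{v | v.2 ≠ 0 ∧ ∀ i, ι (supp v.2) = some i → v.2 i = 1}, ?_, ?_, ?_, ?_⟩
  · exact fun v hv => hv.1
  · exact fun g v hv => hv
  · intro v hv
    obtain ⟨i, hi, hi'⟩ := hι _ (hsupp _ hv)
    have hvi : v.2 i ≠ 0 := by simpa [supp] using hi
    refine ⟨v.2 i, hvi, (v.2 i)⁻¹ • v, ⟨?_, ?_⟩, ?_⟩
    · exact smul_ne_zero (inv_ne_zero hvi) hv
    · intro j hj
      rw [Prod.smul_snd, hsm _ _ (inv_ne_zero hvi), hi'] at hj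
      cases hj
      simp [hvi]
    · rw [smul_smul, mul_inv_cancel₀ hvi, one_smul]
  · rintro u ⟨hu0, hu⟩ u' ⟨hu0', hu'⟩ y y' hy heq
    have hy' : y' ≠ 0 := by
      rintro rfl
      have := congrArg Prod.snd heq
      rw [zero_smul, Prod.smul_snd] at this
      exact smul_ne_zero hy hu0 this
    obtain ⟨i, hi, hi'⟩ := hι _ (hsupp _ hu0)
    have h1 : supp u.2 = supp u'.2 := by
      rw [← hsm y u.2 hy, ← hsm y' u'.2 hy', ← Prod.smul_snd, heq, Prod.smul_snd]
    have h2 := hu i hi'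
    have h3 := hu' i (h1 ▸ hi')
    have h4 : y * u.2 i = y' * u'.2 i := congrFun (congrArg Prod.snd heq) i
    rw [h2, h3, mul_one, mul_one] at h4
    subst h4
    refine ⟨rfl, ?_⟩
    have := congrArg (fun z => y⁻¹ • z) heq
    simpa [smul_smul, inv_mul_cancel₀ hy] using this

end Act

end H4DF
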