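import Pool.Agent.Helpers.H4_DF4

set_option autoImplicit false

namespace H4DF

open Finset

section Main

set_option linter.unusedSectionVars false

variable {q N w e r k : ℕ} [Fact q.Prime] {Λ : Set (ZMod q)} {I : Type} [Fintype I]
  [DecidableEq I] {J : Finset (ZMod q × I)} {G : Type*} [Group G]
  [DecidableEq (G → ZMod q)]

/-- the vector `e_i` of `I → F` -/
def ev (q : ℕ) {I : Type} [DecidableEq I] (i : I) : I → ZMod q := Pi.single i 1

lemma ev_inj {i j : I} (h : ev q i = ev q j) : i = j := by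
  by_contra hne
  have := congrFun h i
  simp [ev, hne] at this

lemma ev_sub {i i' j j' : I} {a b : ZMod q} (ha : a ≠ 0) (hi : i ≠ i')
    (h : a • (ev q i' - ev q i) = b • (ev q j' - ev q j)) :
    (j = i ∧ j' = i' ∧ b = a) ∨ (j = i' ∧ j' = i ∧ b = -a) := by
  have h1 := congrFun h i
  have h2 := congrFun h i'
  simp only [ev, Pi.smul_apply, Pi.sub_apply, Pi.single_apply, smul_eq_mul, if_neg hi,
    if_neg hi.symm, if_true] at h1 h2
  by_cases c1 : j = i
  · subst c1
    left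
    have c2 : j ≠ i' := hi
    rw [if_neg c2.symm] at h2
    by_cases c3 : j' = i'
    · subst c3
      rw [if_pos rfl] at h2
      exact ⟨rfl, rfl, by linear_combination -h2⟩
    · rw [if_neg (Ne.symm c3)] at h2
      exfalso; apply ha; linear_combination h2
  · right
    rw [if_neg (Ne.symm c1)] at h1
    by_cases c3 : j' = i
    · subst c3
      rw [if_pos rfl] at h1
      have hb : b = -a := by linear_combination -h1
      rw [if_neg hi.symm] at h2
      by_cases c4 : j = i'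
      · exact ⟨c4, rfl, hb⟩
      · rw [if_neg (Ne.symm c4)] at h2
        exfalso; apply ha; linear_combination h2
    · rw [if_neg (Ne.symm c3)] at h1
      exfalso; apply ha; linear_combination -h1

/-- a point of a special block -/
def pt (l : ZMod q) (v : G → ZMod q) (p : ZMod q × I) : (G → ZMod q) × (I → ZMod q) :=
  ((l * p.1) • v, l • ev q p.2)

/-- the special block -/
def bl (J : Finset (ZMod q × I)) (l : ZMod q) (v : G → ZMod q) :
    Finset ((G → ZMod q) × (I → ZMod q)) := J.image (pt l v)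

lemma pt_inj {l : ZMod q} (hl : l ≠ 0) {v : G → ZMod q} (hv : v ≠ 0) :
    Function.Injective (pt (I := I) l v) := by
  rintro ⟨s, i⟩ ⟨s', i'⟩ h
  simp only [pt, Prod.mk.injEq] at h
  obtain ⟨h1, h2⟩ := h
  have h3 : ev q i = ev q i' := by
    have := congrArg (fun z => l⁻¹ • z) h2
    simpa [smul_smul, inv_mul_cancel₀ hl] using this
  have h4 : (l * s - l * s') • v = 0 := by rw [sub_smul, h1, sub_self]
  rcases smul_eq_zero.1 h4 with h5 | h5
  · have h6 : l * (s - s') = 0 := by linear_combination h5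
    rcases mul_eq_zero.1 h6 with h7 | h7
    · exact absurd h7 hl
    · rw [ev_inj h3, sub_eq_zero.1 h7]
  · exact absurd h5 hv

/-- replacing `v` by `-v` does not change the block -/
lemma bl_neg (hneg : ∀ p ∈ J, (-p.1, p.2) ∈ J) (l : ZMod q) (v : G → ZMod q) :
    bl J l (-v) = bl J l v := by
  ext x
  unfold bl
  rw [mem_image, mem_image]
  constructor
  · rintro ⟨p, hp, rfl⟩
    exact ⟨_, hneg p hp, by simp [pt]⟩
  · rintro ⟨p, hp, rfl⟩
    exact ⟨_, hneg p hp, by simp [pt]⟩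

/-- the special family -/
def Sp (Λ : Set (ZMod q)) (J : Finset (ZMod q × I)) (R : Set (G → ZMod q)) :
    Set (Finset ((G → ZMod q) × (I → ZMod q))) :=
  {B | ∃ v ∈ R, ∃ l ∈ Λ, B = bl J l v}

/-- the differences covered by a family -/
def Dl {V : Type*} [AddCommGroup V] (F : Set (Finset V)) : Set V :=
  {d | ∃ B ∈ F, ∃ x ∈ B, ∃ y ∈ B, x ≠ y ∧ y - x = d}

variable {R : Set (G → ZMod q)}

lemma Sp_uniq (hJ : JData N w e r k Λ J) (hR0 : ∀ v ∈ R, v ≠ 0)
    (hR1 : ∀ v ∈ R, ∀ s : ZMod q, s • v ∈ R → s ^ e = 1) :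
    ∀ B ∈ Sp Λ J R, ∀ B' ∈ Sp Λ J R, ∀ x ∈ B, ∀ y ∈ B, ∀ x' ∈ B', ∀ y' ∈ B', x ≠ y →
    y - x = y' - x' → B = B' ∧ x = x' := by
  rintro B ⟨v, hv, l, hl, rfl⟩ B' ⟨v₁, hv₁, l₁, hl₁, rfl⟩ x hx y hy x' hx' y' hy' hne heq
  unfold bl at hx hy hx' hy'
  rw [mem_image] at hx hy hx' hy'
  obtain ⟨⟨σ, i⟩, hp, rfl⟩ := hx
  obtain ⟨⟨σ', i'⟩, hp', rfl⟩ := hy
  obtain ⟨⟨σ₁, i₁⟩, hp₁, rfl⟩ := hx'
  obtain ⟨⟨σ₁', i₁'⟩, hp₁', rfl⟩ := hy'
  have hl0 := hJ.ne0 l hl
  have hl0' := hJ.ne0 l₁ hl₁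
  have hv0 := hR0 v hv
  have hv0' := hR0 v₁ hv₁
  simp only [pt, Prod.mk_sub_mk, Prod.mk.injEq] at heq
  obtain ⟨h1, h2⟩ := heq
  rw [← sub_smul, ← sub_smul] at h1
  rw [← smul_sub, ← smul_sub] at h2
  -- finishing argument
  have fin : ∀ a : ZMod q, v₁ = a • v → l₁ = l → i₁ = i →
      ((a = 1 ∧ σ₁ = σ) ∨ (a = -1 ∧ σ₁ = -σ)) →
      bl J l v = bl J l₁ v₁ ∧ pt l v (σ, i) = pt l₁ v₁ (σ₁, i₁) := by
    rintro a ha rfl rfl (⟨rfl, rfl⟩ | ⟨rfl, rfl⟩)
    · rw [one_smul] at ha; subst ha; exact ⟨rfl, rfl⟩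
    · rw [neg_one_smul] at ha; subst ha
      exact ⟨(bl_neg hJ.neg _ _).symm, by simp [pt]⟩
  by_cases hii : i = i'
  · subst hii
    rw [sub_self, smul_zero] at h2
    have h3 : i₁ = i₁' := by
      by_contra hc
      have h4 := (smul_eq_zero.1 h2.symm).resolve_left hl0'
      exact hc (ev_inj (sub_eq_zero.1 h4)).symm
    subst h3
    have hσ : σ' ≠ σ := by rintro rfl; exact hne rfl
    have hσ' : σ' = -σ := (hJ.same _ _ _ hp hp').resolve_left hσ
    have hσ0 : σ ≠ 0 := by rintro rfl; exact hσ (by rw [hσ', neg_zero])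
    have hσ₁ : σ₁' ≠ σ₁ := by
      rintro rfl
      rw [sub_self, zero_smul] at h1
      rcases smul_eq_zero.1 h1 with h5 | h5
      · have h6 : l * (σ' - σ) = 0 := by linear_combination h5
        rcases mul_eq_zero.1 h6 with h7 | h7
        · exact hl0 h7
        · exact hσ (sub_eq_zero.1 h7)
      · exact hv0 h5
    have hσ₁' : σ₁' = -σ₁ := (hJ.same _ _ _ hp₁ hp₁').resolve_left hσ₁
    have hσ₁0 : σ₁ ≠ 0 := by rintro rfl; exact hσ₁ (by rw [hσ₁', neg_zero])
    subst hσ'
    subst hσ₁'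
    -- -2 l σ v = -2 l₁ σ₁ v₁
    have h2ne : (2 : ZMod q) ≠ 0 := by
      intro h0
      apply hσ
      linear_combination (-σ) * h0
    have h3 : (l * σ) • v = (l₁ * σ₁) • v₁ := by
      have h4 : (-2 : ZMod q) • ((l * σ) • v) = (-2 : ZMod q) • ((l₁ * σ₁) • v₁) := by
        rw [smul_smul, smul_smul]
        have e1 : (-2 : ZMod q) * (l * σ) = l * -σ - l * σ := by ring
        have e2 : (-2 : ZMod q) * (l₁ * σ₁) = l₁ * -σ₁ - l₁ * σ₁ := by ring
        rw [e1, e2, h1]
      exact smul_right_injective _ (neg_ne_zero.2 h2ne) h4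
    set a := (l * σ) / (l₁ * σ₁) with ha
    have hls : l₁ * σ₁ ≠ 0 := mul_ne_zero hl0' hσ₁0
    have h4 : v₁ = a • v := by
      rw [ha, div_eq_inv_mul, mul_smul, h3, smul_smul, inv_mul_cancel₀ hls, one_smul]
    have hae : a ^ e = 1 := hR1 v hv a (h4 ▸ hv₁)
    have h5 : σ * l * 1 = σ₁ * l₁ * a := by
      rw [ha]; field_simp
    obtain ⟨h6, h7⟩ := hJ.uniq _ hp _ hp₁ hσ0 hσ₁0 l hl l₁ hl₁ 1 a (one_pow _) hae h5
    dsimp only at h6
    subst h6
    subst h7
    refine fin a h4 rfl rfl ?_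
    have h8 : σ = σ₁ * a := by
      apply mul_left_cancel₀ hl0
      linear_combination h5
    rcases hJ.same _ _ _ hp hp₁ with h9 | h9
    · left
      refine ⟨?_, h9⟩
      rw [h9] at h8
      apply mul_left_cancel₀ hσ0
      rw [← h8, mul_one]
    · right
      refine ⟨?_, h9⟩
      rw [h9] at h8
      apply mul_left_cancel₀ hσ0
      linear_combination h8
  · rcases ev_sub hl0 hii h2 with ⟨rfl, rfl, rfl⟩ | ⟨rfl, rfl, rfl⟩
    swap
    · exact absurd hl₁ (hJ.nneg l hl)
    have hd1 := hJ.diff _ _ _ _ hp hp' hii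
    have hd2 := hJ.diff _ _ _ _ hp₁ hp₁' hii
    have h3 : (σ - σ') • v = (σ₁ - σ₁') • v₁ := by
      have h4 : (-l₁) • ((σ - σ') • v) = (-l₁) • ((σ₁ - σ₁') • v₁) := by
        rw [smul_smul, smul_smul]
        have e1 : (-l₁) * (σ - σ') = l₁ * σ' - l₁ * σ := by ring
        have e2 : (-l₁) * (σ₁ - σ₁') = l₁ * σ₁' - l₁ * σ₁ := by ring
        rw [e1, e2, h1]
      exact smul_right_injective _ (neg_ne_zero.2 hl0) h4
    have hd3 : σ₁ - σ₁' ≠ 0 := sub_ne_zero.2 hd2
    set a := (σ - σ') / (σ₁ - σ₁') with ha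
    have h4 : v₁ = a • v := by
      rw [ha, div_eq_inv_mul, mul_smul, h3, smul_smul, inv_mul_cancel₀ hd3, one_smul]
    have hae : a ^ e = 1 := hR1 v hv a (h4 ▸ hv₁)
    have h5 : σ - σ' = a * (σ₁ - σ₁') := by rw [ha]; field_simp
    have h6 := hJ.gen _ _ _ _ _ _ a hp hp' hp₁ hp₁' hii hae h5
    refine fin a h4 rfl rfl ?_
    rcases h6 with ⟨h7, h8⟩ | ⟨h7, h8⟩
    · left
      refine ⟨?_, h7⟩
      rw [ha, h7, h8, div_self (sub_ne_zero.2 hd1)]
    · right
      refine ⟨?_, h7⟩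
      rw [ha, h7, h8]
      have : -σ - -σ' = -(σ - σ') := by ring
      rw [this, div_neg, div_self (sub_ne_zero.2 hd1)]

lemma Sp_ex (hJ : JData N w e r k Λ J)
    (hR1 : ∀ m : G → ZMod q, m ≠ 0 → ∃ s : ZMod q, s ≠ 0 ∧ ∃ v ∈ R, m = s • v)
    (hR2 : ∀ v ∈ R, ∀ s : ZMod q, s ≠ 0 → s ^ e = 1 → s • v ∈ R)
    (m : G → ZMod q) (hm : m ≠ 0) : (m, (0 : I → ZMod q)) ∈ Dl (Sp Λ J R) := by
  obtain ⟨s, hs, v, hv, rfl⟩ := hR1 m hm
  obtain ⟨⟨σ, i⟩, hp, l, hl, a, ha, hsa⟩ := hJ.ex s hs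
  dsimp only at hsa
  have ha0 : a ≠ 0 := by
    rintro rfl
    exact hs (by rw [hsa, mul_zero])
  have hv2 := hR2 v hv a ha0 ha
  refine ⟨bl J l (a • v), ⟨_, hv2, l, hl, rfl⟩, pt l (a • v) (-σ, i),
    mem_image_of_mem _ (hJ.neg _ hp), pt l (a • v) (σ, i), mem_image_of_mem _ hp, ?_, ?_⟩
  · intro h
    have hs' : s • v = 0 := by
      have h1 := congrArg Prod.fst h
      simp only [pt] at h1
      have h2 : (l * σ) • a • v - (l * -σ) • a • v = 0 := by rw [h1, sub_self]
      rw [← sub_smul, smul_smul] at h2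
      rw [hsa]
      convert h2 using 2
      ring
    exact hm hs'
  · simp only [pt, Prod.mk_sub_mk, sub_self]
    rw [← sub_smul, smul_smul, hsa]
    congr 2
    ring

lemma Sp_inv (hR1 : ∀ g : G, ∀ v ∈ R, act g v ∈ R)
    (g : G) (B : Finset ((G → ZMod q) × (I → ZMod q)))
    (hB : B ∈ Sp Λ J R) : B.image (fun x => (act g x.1, x.2)) ∈ Sp Λ J R := by
  obtain ⟨v, hv, l, hl, rfl⟩ := hB
  refine ⟨act g v, hR1 g v hv, l, hl, ?_⟩
  unfold bl
  rw [image_image]
  rfl


lemma Sp_card (hJ : JData N w e r k Λ J) (hR0 : ∀ v ∈ R, v ≠ 0) :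
    ∀ B ∈ Sp Λ J R, B.card = k := by
  rintro B ⟨v, hv, l, hl, rfl⟩
  unfold bl
  rw [card_image_of_injective _ (pt_inj (hJ.ne0 l hl) (hR0 v hv)), hJ.card]

/-- the multiples of a vector which are covered by the special family -/
lemma Sp_left (hG : Good q N w) (hJ : JData N w e r k Λ J) (u : (G → ZMod q) × (I → ZMod q))
    (hu : u.2 ≠ 0) (b : ℕ) (hb : N = k * (k - 1) * b)
    (b' : ℕ) (hb' : N = k * (k - 1) * b' + 2 * r) :
    ∃ T : Finset (ZMod q), T ⊆ mu q N ∧ (∀ s ∈ T, -s ∈ T) ∧ (∃ c, T.card = k * (k - 1) * c) ∧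
      {y : ZMod q | y ^ w ∈ T} = {y | y ≠ 0 ∧ y • u ∉ Dl (Sp Λ J R)} := by
  classical
  by_cases hex : ∃ y : ZMod q, y ≠ 0 ∧ y • u ∈ Dl (Sp Λ J R)
  · obtain ⟨y₀, hy₀, B, ⟨v, hv, l, hl, rfl⟩, x, hx, y, hy, hxy, heq⟩ := hex
    unfold bl at hx hy
    rw [mem_image] at hx hy
    obtain ⟨⟨σ, i⟩, hp, rfl⟩ := hx
    obtain ⟨⟨σ', i'⟩, hp', rfl⟩ := hy
    have hl0 := hJ.ne0 l hl
    have hu1 : y₀ • u.1 = (l * σ' - l * σ) • v := by
      have := congrArg Prod.fst heq
      simp only [pt, Prod.fst_sub, Prod.smul_fst] at this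
      rw [sub_smul]; exact this.symm
    have hu2 : y₀ • u.2 = l • (ev q i' - ev q i) := by
      have := congrArg Prod.snd heq
      simp only [pt, Prod.snd_sub, Prod.smul_snd] at this
      rw [smul_sub]; exact this.symm
    have hii : i ≠ i' := by
      rintro rfl
      rw [sub_self, smul_zero] at hu2
      exact smul_ne_zero hy₀ hu hu2
    obtain ⟨T, hT1, hT2, hT3, hT4⟩ := hJ.left (y₀ / l) (div_ne_zero hy₀ hl0)
    refine ⟨mu q N \ T, sdiff_subset, ?_, ⟨b', ?_⟩, ?_⟩
    · intro s hs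
      rw [mem_sdiff] at hs ⊢
      refine ⟨?_, fun h => hs.2 ?_⟩
      · rw [mem_mu, hG.Neven.neg_pow]; exact mem_mu.1 hs.1
      · have := hT2 _ h; rwa [neg_neg] at this
    · rw [card_sdiff_of_subset hT1, hG.card_mu, hT3]; omega
    · ext y
      simp only [Set.mem_ofPred_eq, mem_sdiff, mem_mu]
      have hmain : y ≠ 0 → (y ^ w ∈ T ↔ y • u ∈ Dl (Sp Λ J R)) := by
        intro hy0
        rw [hT4]
        constructor
        · rintro ⟨l', hl', rfl | rfl⟩
          · refine ⟨bl J l' v, ⟨v, hv, l', hl', rfl⟩, pt l' v (σ, i), mem_image_of_mem _ hp,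
              pt l' v (σ', i'), mem_image_of_mem _ hp', ?_, ?_⟩
            · intro h
              have h2 := congrArg Prod.snd h
              simp only [pt] at h2
              exact hii (ev_inj (smul_right_injective _ (hJ.ne0 l' hl') h2))
            · have e1 : (y₀ / l * l') • u = (l' / l) • (y₀ • u) := by
                rw [smul_smul]; congr 1; ring
              rw [e1]
              ext1
              · rw [Prod.smul_fst, Prod.smul_fst, hu1]
                simp only [pt, Prod.fst_sub]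
                rw [← sub_smul, smul_smul]
                congr 1
                field_simp
              · rw [Prod.smul_snd, Prod.smul_snd, hu2]
                simp only [pt, Prod.snd_sub]
                rw [← smul_sub, smul_smul]
                congr 1
                field_simp
          · refine ⟨bl J l' v, ⟨v, hv, l', hl', rfl⟩, pt l' v (σ', i'), mem_image_of_mem _ hp',
              pt l' v (σ, i), mem_image_of_mem _ hp, ?_, ?_⟩
            · intro h
              have h2 := congrArg Prod.snd h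
              simp only [pt] at h2
              exact hii (ev_inj (smul_right_injective _ (hJ.ne0 l' hl') h2)).symm
            · have e1 : (-(y₀ / l * l')) • u = (-(l' / l)) • (y₀ • u) := by
                rw [smul_smul]; congr 1; ring
              rw [e1]
              ext1
              · rw [Prod.smul_fst, Prod.smul_fst, hu1]
                simp only [pt, Prod.fst_sub]
                rw [← sub_smul, smul_smul]
                congr 1
                field_simp
                ring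
              · rw [Prod.smul_snd, Prod.smul_snd, hu2]
                simp only [pt, Prod.snd_sub]
                rw [← smul_sub, smul_smul, neg_mul, neg_smul, ← smul_neg, neg_sub]
                congr 1
                field_simp
        · rintro ⟨B, ⟨v₁, hv₁, l₁, hl₁, rfl⟩, x, hx, z, hz, hxz, heq₁⟩
          unfold bl at hx hz
          rw [mem_image] at hx hz
          obtain ⟨⟨σ₁, i₁⟩, hp₁, rfl⟩ := hx
          obtain ⟨⟨σ₁', i₁'⟩, hp₁', rfl⟩ := hz
          have hv2 : y • u.2 = l₁ • (ev q i₁' - ev q i₁) := by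
            have := congrArg Prod.snd heq₁
            simp only [pt, Prod.snd_sub, Prod.smul_snd] at this
            rw [smul_sub]; exact this.symm
          have h3 : (y / y₀ * l) • (ev q i' - ev q i) = l₁ • (ev q i₁' - ev q i₁) := by
            rw [← hv2, mul_smul, ← hu2, smul_smul, div_mul_cancel₀ _ hy₀]
          have h4 : y / y₀ * l ≠ 0 := mul_ne_zero (div_ne_zero hy0 hy₀) hl0
          refine ⟨l₁, hl₁, ?_⟩
          rcases ev_sub h4 hii h3 with ⟨_, _, h5⟩ | ⟨_, _, h5⟩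
          · left; rw [h5]; field_simp
          · right; rw [h5]; field_simp
      constructor
      · rintro ⟨h1, h2⟩
        have hy0 : y ≠ 0 := by
          rintro rfl
          exact hG.ne_zero h1 (zero_pow hG.wpos.ne')
        exact ⟨hy0, fun h => h2 ((hmain hy0).2 h)⟩
      · rintro ⟨h1, h2⟩
        exact ⟨hG.pow_pow h1, fun h => h2 ((hmain h1).1 h)⟩
  · refine ⟨mu q N, Subset.refl _, ?_, ⟨b, by rw [hG.card_mu, hb]⟩, ?_⟩
    · intro s hs
      rw [mem_mu, hG.Neven.neg_pow]; exact mem_mu.1 hs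
    · ext y
      simp only [Set.mem_ofPred_eq, mem_mu]
      constructor
      · intro h1
        have hy0 : y ≠ 0 := by
          rintro rfl
          exact hG.ne_zero h1 (zero_pow hG.wpos.ne')
        exact ⟨hy0, fun h => hex ⟨y, hy0, h⟩⟩
      · rintro ⟨h1, h2⟩
        exact hG.pow_pow h1

end Main

end H4DF
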