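import Pool.Agent.Helpers.H4_DF5

set_option autoImplicit false

namespace H4DF

open Finset

/-- For every `k` and every finite group `G` there is a `G`-invariant perfect difference family
with blocks of size `k` in a finite abelian group with a faithful action of `G`. -/
theorem exists_inv_DF (k : ℕ) (hk : 2 ≤ k) (G : Type*) [Group G] [Fintype G] [DecidableEq G] :
    ∃ (q : ℕ) (_ : Fact q.Prime) (h : ℕ)
      (F : Set (Finset ((G → ZMod q) × (Option (Fin h) → ZMod q)))),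
      IsDF k {d | d ≠ 0} F ∧ ∀ g : G, ∀ B ∈ F, B.image (fun x => (act g x.1, x.2)) ∈ F := by
  classical
  set e := 2 * Fintype.card G with he
  have hG0 : 0 < Fintype.card G := Fintype.card_pos
  set h := k / 2 with hh
  have hh0 : 0 < h := by omega
  set r := k * (k - 1) with hr
  have hr0 : 0 < r := Nat.mul_pos (by omega) (by omega)
  set N := e * h * r with hN
  have he0 : 0 < e := by omega
  have heven : Even e := ⟨Fintype.card G, by rw [he]; ring⟩
  have hNeven : Even N := by rw [hN]; exact (heven.mul_right h).mul_right r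
  have hN0 : 0 < N := Nat.mul_pos (Nat.mul_pos he0 hh0) hr0
  obtain ⟨Q1, hQ1⟩ := exists_DF N k hN0
  obtain ⟨Q2, hQ2⟩ := exists_J N e h r k hN heven he0 hh0 hr0 (by omega)
  obtain ⟨q, w, hG, hq⟩ := exists_good N hNeven hN0 (max Q1 Q2)
  haveI : Fact q.Prime := ⟨hG.prime⟩
  obtain ⟨Λ, J, hJ⟩ := hQ2 q w hG (lt_of_le_of_lt (le_max_right _ _) hq)
  obtain ⟨R, hR0, hRact, hRex, hRsmul, hRone⟩ := exists_R (G := G) (F := ZMod q) e
    ⟨2, by rw [he]; ring⟩
  obtain ⟨R2, hR20, hR2act, hR2ex, hR2un⟩ := exists_R2 (G := G) (F := ZMod q) (Option (Fin h))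
  refine ⟨q, ⟨hG.prime⟩, h, ?_⟩
  set D := Dl (Sp Λ J R) with hD
  let S : (G → ZMod q) × (Option (Fin h) → ZMod q) → Set (ZMod q) :=
    fun u => {y | y ≠ 0 ∧ y • u ∉ D}
  let Φ : Set (ZMod q) → Set (Finset (ZMod q)) := fun S =>
    if h : ∃ F, IsDF k S F then h.choose else ∅
  have hΦ : ∀ u, u.2 ≠ 0 → IsDF k (S u) (Φ (S u)) := by
    intro u hu
    obtain ⟨T, hT1, hT2, ⟨c, hT3⟩, hT4⟩ := Sp_left (R := R) hG hJ u hu (e * h)
      (by rw [hN, hr]; ring) (e * h - 2) (by
        have h2 : 2 ≤ e * h := by nlinarith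
        have : k * (k - 1) * (e * h - 2) + 2 * (k * (k - 1)) = k * (k - 1) * (e * h - 2 + 2) := by
          ring
        rw [hN, hr, this, Nat.sub_add_cancel h2]; ring)
    have hex : ∃ F, IsDF k (S u) F := by
      obtain ⟨F, hF⟩ := hQ1 q w hG (lt_of_le_of_lt (le_max_left _ _) hq) T hT1 hT2 c hT3
      rw [hT4] at hF
      exact ⟨F, hF⟩
    have : Φ (S u) = hex.choose := dif_pos hex
    rw [this]
    exact hex.choose_spec
  -- invariance of D
  have hDinv1 : ∀ (g : G) d, d ∈ D → (act g d.1, d.2) ∈ D := by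
    rintro g d ⟨B, hB, x, hx, y, hy, hxy, rfl⟩
    refine ⟨_, Sp_inv hRact g B hB, _, mem_image_of_mem _ hx, _, mem_image_of_mem _ hy, ?_, ?_⟩
    · intro h
      apply hxy
      rw [Prod.mk.injEq] at h
      exact Prod.ext (act_inj g h.1) h.2
    · rfl
  have hSinv : ∀ (g : G) u, S (act g u.1, u.2) = S u := by
    intro g u
    ext y
    show (y ≠ 0 ∧ y • ((act g u.1, u.2) : (G → ZMod q) × (Option (Fin h) → ZMod q)) ∉ D) ↔
      (y ≠ 0 ∧ y • u ∉ D)
    have h1 : y • ((act g u.1, u.2) : (G → ZMod q) × (Option (Fin h) → ZMod q))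
        = (act g (y • u).1, (y • u).2) := rfl
    rw [h1]
    constructor
    · rintro ⟨h2, h3⟩; exact ⟨h2, fun h4 => h3 (hDinv1 g _ h4)⟩
    · rintro ⟨h2, h3⟩
      refine ⟨h2, fun h4 => h3 ?_⟩
      have h5 := hDinv1 g⁻¹ _ h4
      dsimp only at h5
      rwa [← act_mul, inv_mul_cancel, act_one] at h5
  set U : Set (Finset ((G → ZMod q) × (Option (Fin h) → ZMod q))) :=
    {B | ∃ u ∈ R2, ∃ C ∈ Φ (S u), B = C.image (fun y => y • u)} with hU
  have hu0 : ∀ u ∈ R2, u ≠ 0 := by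
    rintro u hu rfl
    exact hR20 _ hu rfl
  have hsub : ∀ (u : (G → ZMod q) × (Option (Fin h) → ZMod q)) (y y' : ZMod q),
      y' • u - y • u = (y' - y) • u := fun u y y' => (sub_smul _ _ _).symm
  refine ⟨Sp Λ J R ∪ U, ⟨?_, ?_, ?_, ?_⟩, ?_⟩
  · rintro B (hB | ⟨u, hu, C, hC, rfl⟩)
    · exact Sp_card hJ hR0 B hB
    · rw [card_image_of_injective, (hΦ u (hR20 u hu)).card C hC]
      exact smul_left_injective _ (hu0 u hu)
  · rintro B (hB | ⟨u, hu, C, hC, rfl⟩) B' (hB' | ⟨u', hu', C', hC', rfl⟩) x hx y hy x' hx' y' hy'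
      hne heq
    · exact Sp_uniq hJ hR0 hRone B hB B' hB' x hx y hy x' hx' y' hy' hne heq
    · exfalso
      rw [mem_image] at hx' hy'
      obtain ⟨a, ha, rfl⟩ := hx'
      obtain ⟨b, hb, rfl⟩ := hy'
      have hab : a ≠ b := by
        rintro rfl
        rw [sub_self] at heq
        exact hne (sub_eq_zero.1 heq).symm
      have h1 := (hΦ u' (hR20 u' hu')).mem C' hC' a ha b hb hab
      apply h1.2
      rw [← hsub, ← heq]
      exact ⟨B, hB, x, hx, y, hy, hne, rfl⟩
    · exfalso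
      rw [mem_image] at hx hy
      obtain ⟨a, ha, rfl⟩ := hx
      obtain ⟨b, hb, rfl⟩ := hy
      have hab : a ≠ b := by
        rintro rfl
        exact hne rfl
      have h1 := (hΦ u (hR20 u hu)).mem C hC a ha b hb hab
      apply h1.2
      rw [← hsub, heq]
      refine ⟨B', hB', x', hx', y', hy', ?_, rfl⟩
      rintro rfl
      rw [sub_self] at heq
      exact hne (sub_eq_zero.1 heq).symm
    · rw [mem_image] at hx hy hx' hy'
      obtain ⟨a, ha, rfl⟩ := hx
      obtain ⟨b, hb, rfl⟩ := hy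
      obtain ⟨a', ha', rfl⟩ := hx'
      obtain ⟨b', hb', rfl⟩ := hy'
      have hab : a ≠ b := by
        rintro rfl
        exact hne rfl
      rw [hsub, hsub] at heq
      obtain ⟨h1, rfl⟩ := hR2un u hu u' hu' _ _ (sub_ne_zero.2 hab.symm) heq
      obtain ⟨rfl, rfl⟩ := (hΦ u (hR20 u hu)).uniq C hC C' hC' a ha b hb a' ha' b' hb' hab h1
      exact ⟨rfl, rfl⟩
  · intro B _ x _ y _ hne
    exact sub_ne_zero.2 hne.symm
  · rintro d hd
    have hd' : d ≠ 0 := hd
    by_cases h2 : d.2 = 0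
    · have h1 : d.1 ≠ 0 := fun h1 => hd' (Prod.ext h1 h2)
      obtain ⟨B, hB, x, hx, y, hy, _, hxy⟩ := Sp_ex hJ hRex hRsmul d.1 h1
      refine ⟨B, Or.inl hB, x, hx, y, hy, ?_⟩
      rw [hxy, ← h2]
    · obtain ⟨y, hy, u, hu, rfl⟩ := hR2ex d h2
      by_cases h3 : y • u ∈ D
      · obtain ⟨B, hB, x, hx, z, hz, _, hxz⟩ := h3
        exact ⟨B, Or.inl hB, x, hx, z, hz, hxz⟩
      · obtain ⟨C, hC, a, ha, b, hb, hab⟩ := (hΦ u (hR20 u hu)).ex y ⟨hy, h3⟩
        refine ⟨C.image (fun y => y • u), Or.inr ⟨u, hu, C, hC, rfl⟩, a • u,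
          mem_image_of_mem _ ha, b • u, mem_image_of_mem _ hb, ?_⟩
        rw [hsub, hab]
  · rintro g B (hB | ⟨u, hu, C, hC, rfl⟩)
    · exact Or.inl (Sp_inv hRact g B hB)
    · right
      refine ⟨(act g u.1, u.2), hR2act g u hu, C, ?_, ?_⟩
      · rw [hSinv]; exact hC
      · rw [image_image]
        rfl

/-- translates of a perfect difference family form a design -/
lemma DF_design {V : Type*} [AddCommGroup V] [DecidableEq V] {k : ℕ} {F : Set (Finset V)}
    (hF : IsDF k {d | d ≠ 0} F) (x y : V) (hxy : x ≠ y) :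
    ∃! b : Finset V, (∃ B ∈ F, ∃ t, b = B.image (fun z => z + t)) ∧ x ∈ b ∧ y ∈ b := by
  obtain ⟨B, hB, a, ha, b, hb, hab⟩ := hF.ex (y - x) (sub_ne_zero.2 hxy.symm)
  refine ⟨B.image (fun z => z + (x - a)), ⟨⟨B, hB, x - a, rfl⟩, ?_, ?_⟩, ?_⟩
  · exact mem_image.2 ⟨a, ha, by abel⟩
  · refine mem_image.2 ⟨b, hb, ?_⟩
    have : b = (y - x) + a := by rw [← hab]; abel
    rw [this]; abel
  · rintro b' ⟨⟨B', hB', t, rfl⟩, hx, hy⟩
    rw [mem_image] at hx hy
    obtain ⟨a', ha', rfl⟩ := hx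
    obtain ⟨b', hb', rfl⟩ := hy
    have h1 : b' - a' = b - a := by rw [hab]; abel
    have hne : a' ≠ b' := by rintro rfl; exact hxy rfl
    obtain ⟨rfl, rfl⟩ := hF.uniq B' hB' B hB a' ha' b' hb' a ha b hb hne h1
    congr 1
    funext z
    abel

/-- transport of an invariant perfect difference family to a design on `Fin v` -/
lemma transport {V : Type*} [AddCommGroup V] [DecidableEq V] [Fintype V] {k : ℕ}
    {F : Set (Finset V)} (hF : IsDF k {d | d ≠ 0} F) (G : Type*) [Group G]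
    (ψ : G →* Equiv.Perm V) (hψi : Function.Injective ψ)
    (hadd : ∀ g x y, ψ g (x + y) = ψ g x + ψ g y)
    (hinv : ∀ g : G, ∀ B ∈ F, B.image (ψ g) ∈ F) (a₀ a₁ : V) (h01 : a₀ ≠ a₁) :
    ∃ (v : ℕ) (B : Finset (Finset (Fin v))), k ≤ v ∧ (∀ b ∈ B, b.card = k) ∧
      (∀ x y : Fin v, x ≠ y → ∃! b : Finset (Fin v), b ∈ B ∧ x ∈ b ∧ y ∈ b) ∧
      ∃ φ : G →* Equiv.Perm (Fin v), Function.Injective φ ∧
        ∀ g : G, B.image (fun b => b.image (φ g)) = B := by
  classical
  let ε : V ≃ Fin (Fintype.card V) := Fintype.equivFin V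
  let φ : G →* Equiv.Perm (Fin (Fintype.card V)) := ε.permCongrHom.toMonoidHom.comp ψ
  have hφ : ∀ g x, φ g x = ε (ψ g (ε.symm x)) := fun g x => rfl
  let P : Finset (Fin (Fintype.card V)) → Prop := fun b =>
    ∃ B ∈ F, ∃ t : V, b = (B.image (fun z => z + t)).image ε
  have hPinv : ∀ g b, P b → P (b.image (φ g)) := by
    rintro g b ⟨B, hB, t, rfl⟩
    refine ⟨B.image (ψ g), hinv g B hB, ψ g t, ?_⟩
    rw [image_image, image_image, image_image, image_image]
    apply image_congr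
    intro z _
    show φ g (ε (z + t)) = ε (ψ g z + ψ g t)
    rw [hφ, Equiv.symm_apply_apply, hadd]
  have hdes : ∀ x y : Fin (Fintype.card V), x ≠ y → ∃! b : Finset (Fin (Fintype.card V)),
      b ∈ univ.filter P ∧ x ∈ b ∧ y ∈ b := by
    intro x y hxy
    have hxy' : ε.symm x ≠ ε.symm y := fun h => hxy (ε.symm.injective h)
    obtain ⟨b, ⟨⟨B, hB, t, hb⟩, hx, hy⟩, hu⟩ := DF_design hF _ _ hxy'
    refine ⟨b.image ε, ⟨mem_filter.2 ⟨mem_univ _, B, hB, t, by rw [hb]⟩, ?_, ?_⟩, ?_⟩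
    · exact mem_image.2 ⟨_, hx, ε.apply_symm_apply x⟩
    · exact mem_image.2 ⟨_, hy, ε.apply_symm_apply y⟩
    · rintro b' ⟨hb', hx', hy'⟩
      obtain ⟨B', hB', t', rfl⟩ := (mem_filter.1 hb').2
      congr 1
      apply hu
      refine ⟨⟨B', hB', t', rfl⟩, ?_, ?_⟩
      · obtain ⟨z, hz, hz'⟩ := mem_image.1 hx'
        rw [← hz', Equiv.symm_apply_apply]; exact hz
      · obtain ⟨z, hz, hz'⟩ := mem_image.1 hy'
        rw [← hz', Equiv.symm_apply_apply]; exact hz
  have hcard : ∀ b ∈ univ.filter P, b.card = k := by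
    intro b hb
    obtain ⟨B, hB, t, rfl⟩ := (mem_filter.1 hb).2
    rw [card_image_of_injective _ ε.injective, card_image_of_injective _ (add_left_injective t),
      hF.card B hB]
  refine ⟨Fintype.card V, univ.filter P, ?_, hcard, hdes, φ, ?_, ?_⟩
  · obtain ⟨b, ⟨hb, _, _⟩, _⟩ := hdes (ε a₀) (ε a₁) (fun h => h01 (ε.injective h))
    rw [← hcard b hb]
    simpa using card_le_univ b
  · intro g g' hgg
    apply hψi
    ext1 x
    have := Equiv.congr_fun hgg (ε x)
    rw [hφ, hφ, Equiv.symm_apply_apply] at this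
    exact ε.injective this
  · intro g
    ext b
    rw [mem_image]
    constructor
    · rintro ⟨b', hb', rfl⟩
      exact mem_filter.2 ⟨mem_univ _, hPinv g _ (mem_filter.1 hb').2⟩
    · intro hb
      refine ⟨b.image (φ g⁻¹), mem_filter.2 ⟨mem_univ _, hPinv g⁻¹ _ (mem_filter.1 hb).2⟩, ?_⟩
      rw [image_image]
      have : (φ g) ∘ (φ g⁻¹) = id := by
        funext x
        show (φ g * φ g⁻¹) x = x
        rw [← map_mul, mul_inv_cancel, map_one]; rfl
      rw [this, image_id]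

/-- the action of `G` on the points -/
def psi (G F Z : Type*) [Group G] [Field F] : G →* Equiv.Perm ((G → F) × Z) :=
  { toFun := fun g =>
      { toFun := fun x => (act g x.1, x.2)
        invFun := fun x => (act g⁻¹ x.1, x.2)
        left_inv := fun x => by
          show (act g⁻¹ (act g x.1), x.2) = x
          rw [← act_mul, inv_mul_cancel, act_one]
        right_inv := fun x => by
          show (act g (act g⁻¹ x.1), x.2) = x
          rw [← act_mul, mul_inv_cancel, act_one] }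
    map_one' := by ext1 x; exact Prod.ext (act_one _) rfl
    map_mul' := fun g g' => by ext1 x; exact Prod.ext (act_mul _ _ _) rfl }

theorem embed (k : ℕ) (hk : 2 ≤ k) (G : Type*) [Group G] [Finite G] :
    ∃ (v : ℕ) (B : Finset (Finset (Fin v))), k ≤ v ∧ (∀ b ∈ B, b.card = k) ∧
      (∀ x y : Fin v, x ≠ y → ∃! b : Finset (Fin v), b ∈ B ∧ x ∈ b ∧ y ∈ b) ∧
      ∃ φ : G →* Equiv.Perm (Fin v), Function.Injective φ ∧
        ∀ g : G, B.image (fun b => b.image (φ g)) = B := by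
  classical
  haveI := Fintype.ofFinite G
  obtain ⟨q, hq, h, F, hF, hinv⟩ := exists_inv_DF k hk G
  have hne01 : (0 : (G → ZMod q) × (Option (Fin h) → ZMod q)) ≠ (0, Pi.single none 1) := by
    intro h0
    have h1 := congrFun (congrArg Prod.snd h0) none
    simp at h1
  refine transport hF G (psi G (ZMod q) (Option (Fin h) → ZMod q)) ?_ (fun _ _ _ => rfl)
    hinv _ _ hne01
  intro g g' hgg
  have h2 := congrArg Prod.fst (Equiv.congr_fun hgg (Pi.single 1 1, 0))
  have h3 : act g (Pi.single 1 1 : G → ZMod q) = act g' (Pi.single 1 1) := h2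
  have h4 := congrFun h3 g
  simp only [act, inv_mul_cancel, Pi.single_eq_same] at h4
  by_contra hne
  have h5 : g'⁻¹ * g ≠ 1 := by
    intro h6
    exact hne (inv_mul_eq_one.1 h6).symm
  rw [Pi.single_eq_of_ne h5] at h4
  exact one_ne_zero h4

end H4DF
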