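import Mathlib

set_option autoImplicit false

namespace Pool.Agent.H4EffWt

open Finset Classical

/-- sum over a finite set of a function of the rank -/
theorem sum_rank (U : Finset ℕ) (f : ℕ → ℕ) :
    ∑ y ∈ U, f ((U.filter (fun z => z ≤ y)).card) = ∑ k ∈ range U.card, f (k+1) := by
  induction U using Finset.induction_on_max with
  | empty => simp
  | insert a s hs ih =>
    have ha : a ∉ s := fun h => lt_irrefl _ (hs a h)
    rw [sum_insert ha, card_insert_of_notMem ha, sum_range_succ, ← ih, add_comm]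
    congr 1
    · apply sum_congr rfl
      intro y hy
      congr 2
      rw [filter_insert, if_neg]
      exact not_le.2 (hs y hy)
    · congr 1
      rw [filter_true_of_mem]
      · rw [card_insert_of_notMem ha]
      · intro z hz
        rcases mem_insert.1 hz with h | h
        · exact h.le
        · exact (hs z h).le

theorem sum_aux (b D : ℕ) : 2 * ∑ k ∈ range D, (k+1+b) = D*(D+1) + 2*b*D := by
  induction D with
  | zero => simp
  | succ D ih => rw [sum_range_succ, mul_add, ih]; ring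

theorem sum_min (X b u : ℕ) (h : X ≤ b + u) :
    2 * ∑ k ∈ range u, min X (k+1+b) + (X-b)*(X-b-1) ≤ 2*u*X := by
  rcases Nat.lt_or_ge b X with hb | hb
  · obtain ⟨D, rfl⟩ : ∃ D, X = b + D := ⟨X - b, by omega⟩
    have hD : b + D - b = D := by omega
    rw [hD]
    obtain ⟨r, rfl⟩ : ∃ r, u = D + r := ⟨u - D, by omega⟩
    clear h hb hD
    induction r with
    | zero =>
      have h1 : ∑ k ∈ range (D+0), min (b+D) (k+1+b) ≤ ∑ k ∈ range D, (k+1+b) :=
        sum_le_sum (fun k _ => min_le_right _ _)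
      have h2 := sum_aux b D
      have h3 : D*(D+1) + D*(D-1) = 2*D*D := by
        rcases D with _ | D
        · simp
        · simp only [Nat.add_sub_cancel]; ring
      calc 2 * ∑ k ∈ range (D+0), min (b+D) (k+1+b) + D*(D-1)
          ≤ 2 * ∑ k ∈ range D, (k+1+b) + D*(D-1) := by omega
        _ = 2*D*D + 2*b*D := by rw [h2, ← h3]; ring
        _ = 2*(D+0)*(b+D) := by ring
        _ ≤ _ := le_rfl
    | succ r ih =>
      rw [← add_assoc, sum_range_succ, mul_add]
      have : min (b+D) (D+r+1+b) ≤ b + D := min_le_left _ _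
      nlinarith
  · have h0 : X - b = 0 := by omega
    rw [h0, Nat.zero_mul, add_zero]
    have : ∑ k ∈ range u, min X (k+1+b) ≤ ∑ _k ∈ range u, X := sum_le_sum (fun k _ => min_le_left _ _)
    rw [sum_const, card_range, smul_eq_mul] at this
    nlinarith

/-- first quadratic inequality -/
theorem ineq1 (m b i v n x w0 wv : ℤ) (hb : 0 ≤ b) (hv : 0 ≤ v) (hx : 0 ≤ x)
    (hn : n + b + v ≤ m) (hxn : x ≤ n) (hxm : 2*x ≤ m) (hxi : x ≤ i) (hbi : b ≤ i)
    (hw0 : 2*w0 + (if b ≤ x then (x-b)*(x-b-1) else 0) ≤ 2*i*x) (hwv : wv ≤ v*n) :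
    8*(w0+wv) ≤ (m+i+v)^2 := by
  have hvn : v*n ≤ v*(m-b-v) := mul_le_mul_of_nonneg_left (by linarith) hv
  split_ifs at hw0 with h
  · -- case A
    obtain ⟨q, hq⟩ : ∃ q, m = x + b + v + q := ⟨m - x - b - v, by ring⟩
    have hq0 : 0 ≤ q := by linarith
    obtain ⟨j, hj⟩ : ∃ j, i = x + j := ⟨i - x, by ring⟩
    have hj0 : 0 ≤ j := by linarith
    subst hq hj
    have key : 0 ≤ 5*b^2-4*x*b+4*v^2+q^2+j^2+4*x*q-4*x*j+4*b*v+2*b*q+2*b*j-4*v*q+4*v*j+2*q*j-4*x+4*b := by
      rcases le_or_gt q (b+j) with hc | hc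
      · have h1 : x ≤ b + v + q := by linarith
        have h2 : 0 ≤ (b+j+1-q)*(b+v+q-x) := mul_nonneg (by linarith) (by linarith)
        have h3 : 0 ≤ q*(q-1) := by
          rcases eq_or_lt_of_le hq0 with h | h
          · rw [← h]; simp
          · exact mul_nonneg hq0 (by linarith [Int.add_one_le_iff.2 h])
        have h4 : 0 ≤ v*(v-1) := by
          rcases eq_or_lt_of_le hv with h | h
          · rw [← h]; simp
          · exact mul_nonneg hv (by linarith [Int.add_one_le_iff.2 h])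
        nlinarith [sq_nonneg (b-j+q)]
      · have h2 : 0 ≤ (q-b-j-1)*(x-b) := mul_nonneg (by linarith [Int.add_one_le_iff.2 hc]) (by linarith)
        have h3 := mul_nonneg hb hq0
        have h4 := mul_nonneg hb hv
        have h5 := mul_nonneg hv hj0
        have h6 := mul_nonneg hq0 hj0
        nlinarith [sq_nonneg (2*v-q), sq_nonneg (b-j)]
    nlinarith
  · rw [not_le] at h
    obtain ⟨p, hp⟩ : ∃ p, m = 2*x + p := ⟨m - 2*x, by ring⟩
    have hp0 : 0 ≤ p := by linarith
    obtain ⟨j, hj⟩ : ∃ j, i = x + j := ⟨i - x, by ring⟩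
    have hj0 : 0 ≤ j := by linarith
    subst hp hj
    have hvn2 : v*n ≤ v*(x+p-v) := hvn.trans (mul_le_mul_of_nonneg_left (by linarith) hv)
    have key : 0 ≤ (x-j-v)^2 + p^2 - 6*p*v + 8*v^2 + 6*x*p + 2*p*j := by
      have h1 := mul_nonneg hx hp0
      have h2 := mul_nonneg hp0 hj0
      rcases le_or_gt p (2*v) with hc | hc
      · have h3 : 0 ≤ (2*v-p)*(4*v-p) := mul_nonneg (by linarith) (by linarith)
        nlinarith [sq_nonneg (x-j-v)]
      · have h3 : 0 ≤ x*(p-2*v) := mul_nonneg hx (by linarith)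
        have h4 : 0 ≤ j*(p-2*v) := mul_nonneg hj0 (by linarith)
        have h5 := mul_nonneg hx hv
        have h6 := mul_nonneg hj0 hv
        nlinarith [sq_nonneg (x-j), sq_nonneg (p-3*v)]
    nlinarith

/-- second quadratic inequality -/
theorem ineq2 (m a N b c v n x p1 w2 wv : ℤ) (hm : m = a + N) (ha : 0 ≤ a) (hb : 0 ≤ b) (hv : 0 ≤ v)
    (hc : 0 ≤ c) (hn : n + b + v ≤ m) (hxN : x ≤ N)
    (hp1 : 2*p1 + (if b ≤ a then (a-b)*(a-b-1) else 0) ≤ 2*N*a)
    (hw2 : w2 ≤ c*x) (hwv : wv ≤ v*n) :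
    8*(p1+w2+wv) ≤ (m+N+c+v)^2 := by
  have hvn : v*n ≤ v*(m-b-v) := mul_le_mul_of_nonneg_left (by linarith) hv
  have hcx : c*x ≤ c*N := mul_le_mul_of_nonneg_left hxN hc
  subst hm
  split_ifs at hp1 with h
  · have key : 0 ≤ (a-b-v)^2 + v^2 - (a-b) := by
      have h1 : (a-b-v) ≤ (a-b-v)^2 := by
        rcases le_or_gt (a-b-v) 0 with h | h
        · nlinarith [sq_nonneg (a-b-v)]
        · nlinarith [Int.add_one_le_iff.2 h]
      have h2 : v ≤ v^2 := by
        rcases eq_or_lt_of_le hv with h | h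
        · rw [← h]; simp
        · nlinarith [Int.add_one_le_iff.2 h]
      linarith
    nlinarith [sq_nonneg (2*N-a-c-v)]
  · rw [not_le] at h
    have h1 : 0 ≤ v*(b-a) := mul_nonneg hv (by linarith)
    nlinarith [sq_nonneg (2*N-a-c-v), sq_nonneg v]

end Pool.Agent.H4EffWt
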