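import Pool.Agent.Helpers.H4_EffWt

set_option autoImplicit false

namespace Pool.Agent.H4EffWt

open Finset Classical

/-- `z` is a sum of two elements of `S` -/
def Red (S : Set ℕ) (z : ℕ) : Prop := ∃ s ∈ S, ∃ t ∈ S, z = s + t

/-- minimal generator -/
def Irr (S : Set ℕ) (x : ℕ) : Prop := x ∈ S ∧ ¬ Red S x

/-- working hypotheses -/
structure NS (S : Set ℕ) (m N : ℕ) : Prop where
  pos : ∀ s ∈ S, 0 < s
  add : ∀ s ∈ S, ∀ t ∈ S, s + t ∈ S
  hm : m ∈ S
  hmin : ∀ s ∈ S, m ≤ s
  hN : ∀ n, N ≤ n → n ∈ S

variable {S : Set ℕ} {m N : ℕ}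

theorem NS.mpos (H : NS S m N) : 0 < m := H.pos m H.hm

theorem NS.red_mem (H : NS S m N) {z : ℕ} (h : Red S z) : z ∈ S := by
  obtain ⟨s, hs, t, ht, rfl⟩ := h
  exact H.add s hs t ht

theorem NS.mul_mem (H : NS S m N) (k : ℕ) (hk : 1 ≤ k) : k * m ∈ S := by
  induction k with
  | zero => omega
  | succ k ih =>
    rcases Nat.eq_zero_or_pos k with h | h
    · subst h; simpa using H.hm
    · rw [add_mul, one_mul]; exact H.add _ (ih h) _ H.hm

theorem NS.red_of_cast (H : NS S m N) {x y : ℕ} (hx : x ∈ S) (hxy : x < y)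
    (h : (x : ZMod m) = (y : ZMod m)) : Red S y := by
  rw [ZMod.natCast_eq_natCast_iff] at h
  have h2 := (Nat.modEq_iff_dvd' hxy.le).1 h
  obtain ⟨k, hk⟩ := h2
  have hk1 : 1 ≤ k := by
    rcases Nat.eq_zero_or_pos k with h0 | h0
    · subst h0; simp at hk; omega
    · exact h0
  exact ⟨x, hx, k*m, H.mul_mem k hk1, by rw [mul_comm k m]; omega⟩

/-- gaps above `m` -/
noncomputable def Gp (S : Set ℕ) (m N : ℕ) : Finset ℕ := (range N).filter (fun y => m < y ∧ y ∉ S)

/-- number of minimal generators below `y` -/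
noncomputable def e (S : Set ℕ) (y : ℕ) : ℕ := ((range y).filter (Irr S)).card

theorem NS.mem_Gp (H : NS S m N) {y : ℕ} : y ∈ Gp S m N ↔ m < y ∧ y ∉ S := by
  unfold Gp
  rw [mem_filter, mem_range]
  constructor
  · exact fun h => h.2
  · intro h
    refine ⟨?_, h⟩
    by_contra h'
    exact h.2 (H.hN y (by omega))

theorem e_mono {S : Set ℕ} {y y' : ℕ} (h : y ≤ y') : e S y ≤ e S y' := by
  unfold e
  apply card_le_card
  apply filter_subset_filter
  exact range_subset_range.2 h

/-- type I / type II gaps -/
noncomputable def T1 (S : Set ℕ) (m N : ℕ) : Finset ℕ := (Gp S m N).filter (fun y => ¬ Red S (y+m))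
noncomputable def T2 (S : Set ℕ) (m N : ℕ) : Finset ℕ := (Gp S m N).filter (fun y => Red S (y+m))

theorem NS.irr_inj (H : NS S m N) {x x' : ℕ} (hx : Irr S x) (hx' : Irr S x')
    (h : (x : ZMod m) = (x' : ZMod m)) : x = x' := by
  rcases lt_trichotomy x x' with h1 | h1 | h1
  · exact absurd (H.red_of_cast hx.1 h1 h) hx'.2
  · exact h1
  · exact absurd (H.red_of_cast hx'.1 h1 h.symm) hx.2

/-- ballot property -/
theorem NS.ballot (H : NS S m N) {y : ℕ} (hy : y ∈ T1 S m N) :
    e S y ≤ ((Gp S m N).filter (fun z => z ≤ y)).card := by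
  unfold T1 at hy
  rw [mem_filter, H.mem_Gp] at hy
  obtain ⟨⟨hmy, hyS⟩, hr⟩ := hy
  unfold e
  apply card_le_card_of_injOn (fun x => y + m - x)
  · intro x hx
    simp only [coe_filter, mem_range, Set.mem_ofPred_eq] at hx ⊢
    have hmx := H.hmin x hx.2.1
    rw [H.mem_Gp]
    refine ⟨⟨by omega, ?_⟩, by omega⟩
    intro hs
    exact hr ⟨x, hx.2.1, y+m-x, hs, by omega⟩
  · intro x hx x' hx' h
    simp only [coe_filter, mem_range, Set.mem_ofPred_eq] at hx hx'
    have h1 := H.hmin x hx.2.1
    have h2 := H.hmin x' hx'.2.1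
    simp only at h
    omega

/-- `α + e(y) ≤ m` for type I gaps -/
theorem NS.alpha (H : NS S m N) {y : ℕ} (hy : y ∈ T1 S m N) :
    e S (2*m) + e S y ≤ m := by
  unfold T1 at hy
  rw [mem_filter, H.mem_Gp] at hy
  obtain ⟨⟨hmy, hyS⟩, hr⟩ := hy
  have hmp := H.mpos
  have : NeZero m := ⟨by omega⟩
  let A : Finset (ZMod m) := ((range (2*m)).filter (Irr S)).image (fun x : ℕ => (x : ZMod m))
  let C : Finset (ZMod m) := ((range y).filter (Irr S)).image (fun x : ℕ => (y : ZMod m) - (x : ZMod m))
  have hA : A.card = e S (2*m) := by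
    apply card_image_of_injOn
    intro x hx x' hx' h
    simp only [coe_filter, mem_range, Set.mem_ofPred_eq] at hx hx'
    exact H.irr_inj hx.2 hx'.2 h
  have hC : C.card = e S y := by
    apply card_image_of_injOn
    intro x hx x' hx' h
    simp only [coe_filter, mem_range, Set.mem_ofPred_eq] at hx hx'
    exact H.irr_inj hx.2 hx'.2 (by simpa using h)
  have hd : Disjoint A C := by
    rw [disjoint_left]
    intro c hcA hcC
    obtain ⟨x, hx, rfl⟩ := mem_image.1 hcA
    obtain ⟨x', hx', h⟩ := mem_image.1 hcC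
    rw [mem_filter, mem_range] at hx hx'
    have hz : x + x' ∈ S := H.add _ hx.2.1 _ hx'.2.1
    have hcast : ((x + x' : ℕ) : ZMod m) = ((y + m : ℕ) : ZMod m) := by
      push_cast
      rw [ZMod.natCast_self, add_zero, ← h]
      ring
    rcases lt_trichotomy (x+x') (y+m) with h1 | h1 | h1
    · exact hr (H.red_of_cast hz h1 hcast)
    · exact hr ⟨x, hx.2.1, x', hx'.2.1, h1.symm⟩
    · rw [ZMod.natCast_eq_natCast_iff] at hcast
      have h2 := (Nat.modEq_iff_dvd' h1.le).1 hcast.symm
      have h3 := Nat.le_of_dvd (by omega) h2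
      omega
  have hU : (A ∪ C).card ≤ m := by
    calc (A ∪ C).card ≤ (univ : Finset (ZMod m)).card := card_le_card (subset_univ _)
      _ = m := by rw [card_univ, ZMod.card]
  rw [card_union_of_disjoint hd, hA, hC] at hU
  exact hU

/-- `n + τ ≤ m` -/
theorem NS.tau (H : NS S m N) : e S N + (T2 S m N).card ≤ m := by
  have hmp := H.mpos
  have : NeZero m := ⟨by omega⟩
  let A : Finset (ZMod m) := ((range N).filter (Irr S)).image (fun x : ℕ => (x : ZMod m))
  let C : Finset (ZMod m) := (T2 S m N).image (fun x : ℕ => (x : ZMod m))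
  have hT2 : ∀ y, y ∈ T2 S m N → (m < y ∧ y ∉ S) ∧ Red S (y+m) := by
    intro y hy
    unfold T2 at hy
    rwa [mem_filter, H.mem_Gp] at hy
  have hA : A.card = e S N := by
    apply card_image_of_injOn
    intro x hx x' hx' h
    simp only [coe_filter, mem_range, Set.mem_ofPred_eq] at hx hx'
    exact H.irr_inj hx.2 hx'.2 h
  have aux : ∀ y y', (m < y ∧ y ∉ S) ∧ Red S (y+m) → y < y' → (y : ZMod m) = (y' : ZMod m) → Red S y' := by
    intro y y' hy hlt h
    have h' := h
    rw [ZMod.natCast_eq_natCast_iff] at h'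
    have h2 := (Nat.modEq_iff_dvd' hlt.le).1 h'
    have h3 := Nat.le_of_dvd (by omega) h2
    rcases Nat.lt_or_ge (y+m) y' with h4 | h4
    · apply H.red_of_cast (H.red_mem hy.2) h4
      push_cast
      rw [ZMod.natCast_self, add_zero, h]
    · have : y' = y + m := by omega
      rw [this]; exact hy.2
  have hC : C.card = (T2 S m N).card := by
    apply card_image_of_injOn
    intro x hx x' hx' h
    have hx1 := hT2 x (mem_coe.1 hx)
    have hx2 := hT2 x' (mem_coe.1 hx')
    rcases lt_trichotomy x x' with h1 | h1 | h1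
    · exact absurd (H.red_mem (aux x x' hx1 h1 h)) hx2.1.2
    · exact h1
    · exact absurd (H.red_mem (aux x' x hx2 h1 h.symm)) hx1.1.2
  have hd : Disjoint A C := by
    rw [disjoint_left]
    intro c hcA hcC
    obtain ⟨x, hx, rfl⟩ := mem_image.1 hcA
    obtain ⟨y, hy, h⟩ := mem_image.1 hcC
    rw [mem_filter, mem_range] at hx
    have hy1 := hT2 y hy
    rcases lt_trichotomy x y with h1 | h1 | h1
    · exact hy1.1.2 (H.red_mem (H.red_of_cast hx.2.1 h1 h.symm))
    · rw [h1] at hx; exact hy1.1.2 hx.2.1
    · exact hx.2.2 (aux y x hy1 h1 h)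
  have hU : (A ∪ C).card ≤ m := by
    calc (A ∪ C).card ≤ (univ : Finset (ZMod m)).card := card_le_card (subset_univ _)
      _ = m := by rw [card_univ, ZMod.card]
  rw [card_union_of_disjoint hd, hA, hC] at hU
  exact hU

/-- number of gaps in `(m, 2m)` -/
theorem NS.block (H : NS S m N) :
    ((Gp S m N).filter (fun z => z ≤ 2*m)).card + e S (2*m) = m := by
  have h1 : (Gp S m N).filter (fun z => z ≤ 2*m) = (Ico m (2*m)).filter (fun z => z ∉ S) := by
    ext z
    rw [mem_filter, H.mem_Gp, mem_filter, mem_Ico]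
    constructor
    · rintro ⟨⟨h1, h2⟩, h3⟩
      refine ⟨⟨h1.le, ?_⟩, h2⟩
      rcases Nat.lt_or_ge z (2*m) with h | h
      · exact h
      · exfalso
        apply h2
        have : z = m + m := by omega
        rw [this]; exact H.add _ H.hm _ H.hm
    · rintro ⟨⟨h1, h2⟩, h3⟩
      refine ⟨⟨?_, h3⟩, h2.le⟩
      rcases Nat.eq_or_lt_of_le h1 with h | h
      · exfalso; apply h3; rw [← h]; exact H.hm
      · exact h
  have h2 : (range (2*m)).filter (Irr S) = (Ico m (2*m)).filter (fun z => ¬ z ∉ S) := by
    ext z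
    rw [mem_filter, mem_range, mem_filter, mem_Ico, not_not]
    constructor
    · rintro ⟨h1, h2⟩
      exact ⟨⟨H.hmin z h2.1, h1⟩, h2.1⟩
    · rintro ⟨⟨h1, h2⟩, h3⟩
      refine ⟨h2, h3, ?_⟩
      rintro ⟨s, hs, t, ht, h⟩
      have := H.hmin s hs
      have := H.hmin t ht
      omega
  unfold e
  rw [h1, h2, card_filter_add_card_filter_not, Nat.card_Ico]
  omega

theorem T1_T2_card (Y : ℕ → Prop) [DecidablePred Y] :
    ((Gp S m N).filter Y).card = ((T1 S m N).filter Y).card + ((T2 S m N).filter Y).card := by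
  unfold T1 T2
  rw [filter_filter, filter_filter]
  have : ((Gp S m N).filter Y) = ((Gp S m N).filter (fun a => ¬ Red S (a+m) ∧ Y a)) ∪
      ((Gp S m N).filter (fun a => Red S (a+m) ∧ Y a)) := by
    ext z
    simp only [mem_union, mem_filter]
    tauto
  rw [this, card_union_of_disjoint]
  rw [disjoint_left]
  intro z h1 h2
  rw [mem_filter] at h1 h2
  exact h1.2.1 h2.2.1

theorem T1_T2_sum (f : ℕ → ℕ) (Y : ℕ → Prop) [DecidablePred Y] :
    ∑ y ∈ (Gp S m N).filter Y, f y = ∑ y ∈ (T1 S m N).filter Y, f y + ∑ y ∈ (T2 S m N).filter Y, f y := by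
  unfold T1 T2
  rw [filter_filter, filter_filter]
  have : ((Gp S m N).filter Y) = ((Gp S m N).filter (fun a => ¬ Red S (a+m) ∧ Y a)) ∪
      ((Gp S m N).filter (fun a => Red S (a+m) ∧ Y a)) := by
    ext z
    simp only [mem_union, mem_filter]
    tauto
  rw [this, sum_union]
  rw [disjoint_left]
  intro z h1 h2
  rw [mem_filter] at h1 h2
  exact h1.2.1 h2.2.1

/-- the capped ballot sum over an initial segment of gaps -/
theorem NS.initial (H : NS S m N) (Y X : ℕ)
    (hX : ∀ y ∈ (Gp S m N).filter (fun z => z ≤ Y), e S y ≤ X)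
    (hXL : X ≤ ((Gp S m N).filter (fun z => z ≤ Y)).card) :
    2 * ∑ y ∈ (Gp S m N).filter (fun z => z ≤ Y), e S y
      + (X - ((T2 S m N).filter (fun z => z ≤ Y)).card) * (X - ((T2 S m N).filter (fun z => z ≤ Y)).card - 1)
      ≤ 2 * ((Gp S m N).filter (fun z => z ≤ Y)).card * X := by
  set b := ((T2 S m N).filter (fun z => z ≤ Y)).card with hb
  set U := (T1 S m N).filter (fun z => z ≤ Y) with hU
  have hcard : ((Gp S m N).filter (fun z => z ≤ Y)).card = U.card + b := T1_T2_card _
  have hsum : ∑ y ∈ (Gp S m N).filter (fun z => z ≤ Y), e S y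
      = ∑ y ∈ U, e S y + ∑ y ∈ (T2 S m N).filter (fun z => z ≤ Y), e S y := T1_T2_sum _ _
  rw [hsum, hcard]
  have hT1sub : T1 S m N ⊆ Gp S m N := filter_subset _ _
  have hT2sub : T2 S m N ⊆ Gp S m N := filter_subset _ _
  have h2 : ∑ y ∈ (T2 S m N).filter (fun z => z ≤ Y), e S y ≤ b * X := by
    rw [hb, ← smul_eq_mul, ← sum_const]
    apply sum_le_sum
    intro y hy
    rw [mem_filter] at hy
    exact hX y (mem_filter.2 ⟨hT2sub hy.1, hy.2⟩)
  have h1 : ∑ y ∈ U, e S y ≤ ∑ k ∈ range U.card, min X (k+1+b) := by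
    rw [← sum_rank U (fun k => min X (k+b))]
    apply sum_le_sum
    intro y hy
    have hyU := hy
    rw [hU, mem_filter] at hy
    apply le_min (hX y (mem_filter.2 ⟨hT1sub hy.1, hy.2⟩))
    refine (H.ballot hy.1).trans ?_
    rw [T1_T2_card]
    apply add_le_add
    · apply card_le_card
      intro z hz
      rw [mem_filter] at hz
      rw [mem_filter, hU, mem_filter]
      exact ⟨⟨hz.1, by omega⟩, hz.2⟩
    · apply card_le_card
      intro z hz
      rw [mem_filter] at hz
      rw [mem_filter]
      exact ⟨hz.1, by omega⟩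
  have h3 := sum_min X b U.card (by omega)
  have h4 : 2 * (U.card + b) * X = 2 * U.card * X + 2 * (b * X) := by ring
  rw [h4]
  linarith

/-- main bound -/
theorem NS.main (H : NS S m N) :
    8 * ∑ y ∈ Gp S m N, e S y ≤ (m + (Gp S m N).card)^2 := by
  have htau := H.tau
  have hall : ∀ y ∈ Gp S m N, e S y ≤ e S N := by
    intro y hy
    unfold Gp at hy
    rw [mem_filter, mem_range] at hy
    exact e_mono hy.1.le
  have hT1sub : T1 S m N ⊆ Gp S m N := filter_subset _ _
  have hT2sub : T2 S m N ⊆ Gp S m N := filter_subset _ _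
  rcases (T1 S m N).eq_empty_or_nonempty with hE | hE
  · -- no type I gap
    have hG : Gp S m N = T2 S m N := by
      ext z
      constructor
      · intro hz
        unfold T2
        rw [mem_filter]
        refine ⟨hz, ?_⟩
        by_contra h
        have : z ∈ T1 S m N := by unfold T1; rw [mem_filter]; exact ⟨hz, h⟩
        rw [hE] at this
        simp at this
      · exact fun hz => hT2sub hz
    have h1 : ∑ y ∈ Gp S m N, e S y ≤ (Gp S m N).card * e S N := by
      rw [← smul_eq_mul, ← sum_const]
      exact sum_le_sum hall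
    rw [← hG] at htau
    generalize (Gp S m N).card = v at *
    generalize e S N = n at *
    generalize ∑ y ∈ Gp S m N, e S y = w at *
    have h2 : v * n ≤ v * (m - v) := Nat.mul_le_mul_left v (by omega)
    obtain ⟨k, hk⟩ : ∃ k, m = v + k := ⟨m - v, by omega⟩
    subst hk
    rw [Nat.add_sub_cancel_left] at h2
    zify at *
    nlinarith [sq_nonneg ((k:ℤ) - 2*v)]
  · -- last type I gap
    obtain ⟨y, hy, hymax⟩ := (T1 S m N).exists_max_image id hE
    simp only [id] at hymax
    have hyG : y ∈ Gp S m N := hT1sub hy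
    have hball := H.ballot hy
    have halpha := H.alpha hy
    have hblock := H.block
    -- decomposition of the gaps
    have hsplit : ∀ P : ℕ, (Gp S m N).card = ((Gp S m N).filter (fun z => z ≤ P)).card
        + ((Gp S m N).filter (fun z => ¬ z ≤ P)).card := fun P => (card_filter_add_card_filter_not _).symm
    have hsplits : ∀ P : ℕ, ∑ z ∈ Gp S m N, e S z = ∑ z ∈ (Gp S m N).filter (fun z => z ≤ P), e S z
        + ∑ z ∈ (Gp S m N).filter (fun z => ¬ z ≤ P), e S z := fun P => (sum_filter_add_sum_filter_not _ _ _).symm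
    -- after y everything is type II
    have hV : (Gp S m N).filter (fun z => ¬ z ≤ y) = (T2 S m N).filter (fun z => ¬ z ≤ y) := by
      ext z
      rw [mem_filter, mem_filter]
      constructor
      · rintro ⟨h1, h2⟩
        refine ⟨?_, h2⟩
        unfold T2
        rw [mem_filter]
        refine ⟨h1, ?_⟩
        by_contra h
        have : z ∈ T1 S m N := by unfold T1; rw [mem_filter]; exact ⟨h1, h⟩
        exact h2 (hymax z this)
      · rintro ⟨h1, h2⟩
        exact ⟨hT2sub h1, h2⟩
    have hwv : ∑ z ∈ (Gp S m N).filter (fun z => ¬ z ≤ y), e S z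
        ≤ ((Gp S m N).filter (fun z => ¬ z ≤ y)).card * e S N := by
      rw [← smul_eq_mul, ← sum_const]
      apply sum_le_sum
      intro z hz
      exact hall z (filter_subset _ _ hz)
    have hT2split : ∀ P : ℕ, P ≤ y → ((T2 S m N).filter (fun z => z ≤ P)).card
        + ((Gp S m N).filter (fun z => ¬ z ≤ y)).card ≤ (T2 S m N).card := by
      intro P hP
      rw [hV, ← card_filter_add_card_filter_not (s := T2 S m N) (fun z => z ≤ P)]
      apply Nat.add_le_add_left
      apply card_le_card
      intro z hz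
      rw [mem_filter] at hz ⊢
      exact ⟨hz.1, by omega⟩
    have hxn : e S y ≤ e S N := hall y hyG
    rcases Nat.lt_or_ge m (2 * e S y) with hx | hx
    · -- case 2
      have hy2 : 2*m < y := by
        by_contra h
        have := e_mono (S := S) (show y ≤ 2*m by omega)
        omega
      have hL : ∀ z ∈ (Gp S m N).filter (fun z => z ≤ 2*m), e S z ≤ e S (2*m) := by
        intro z hz
        rw [mem_filter] at hz
        exact e_mono hz.2
      have hinit := H.initial (2*m) (e S (2*m)) hL (by omega)
      have hmid : ∑ z ∈ (Gp S m N).filter (fun z => z ≤ y), e S z ≤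
          ∑ z ∈ (Gp S m N).filter (fun z => z ≤ 2*m), e S z
          + (((Gp S m N).filter (fun z => z ≤ y)).card - ((Gp S m N).filter (fun z => z ≤ 2*m)).card) * e S y := by
        have hsub : (Gp S m N).filter (fun z => z ≤ 2*m) ⊆ (Gp S m N).filter (fun z => z ≤ y) := by
          intro z hz
          rw [mem_filter] at hz ⊢
          exact ⟨hz.1, by omega⟩
        rw [← sum_sdiff hsub, add_comm, ← card_sdiff_of_subset hsub]
        apply Nat.add_le_add_left
        refine (sum_le_card_nsmul _ _ (e S y) ?_).trans (le_of_eq (smul_eq_mul _ _))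
        intro z hz
        rw [mem_sdiff, mem_filter] at hz
        exact e_mono hz.1.2
      have hcle : ((Gp S m N).filter (fun z => z ≤ 2*m)).card ≤ ((Gp S m N).filter (fun z => z ≤ y)).card := by
        apply card_le_card
        intro z hz
        rw [mem_filter] at hz ⊢
        exact ⟨hz.1, by omega⟩
      have hb := hT2split (2*m) hy2.le
      rw [hsplit y, hsplits y]
      generalize ((T2 S m N).filter (fun z => z ≤ 2*m)).card = b at *
      generalize ((Gp S m N).filter (fun z => z ≤ 2*m)).card = NN at *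
      generalize ((Gp S m N).filter (fun z => z ≤ y)).card = i at *
      generalize ((Gp S m N).filter (fun z => ¬ z ≤ y)).card = v at *
      generalize ∑ z ∈ (Gp S m N).filter (fun z => z ≤ 2*m), e S z = p1 at *
      generalize ∑ z ∈ (Gp S m N).filter (fun z => z ≤ y), e S z = w0 at *
      generalize ∑ z ∈ (Gp S m N).filter (fun z => ¬ z ≤ y), e S z = wv at *
      generalize e S (2*m) = a at *
      generalize e S y = x at *
      generalize e S N = n at *
      generalize (T2 S m N).card = t2 at *
      obtain ⟨c, hc⟩ : ∃ c, i = NN + c := ⟨i - NN, by omega⟩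
      subst hc
      rw [Nat.add_sub_cancel_left] at hmid
      have h := ineq2 m a NN b c v n x p1 (c*x) wv (by push_cast [← hblock]; ring) (by positivity) (by positivity)
        (by positivity) (by positivity) (by exact_mod_cast (by omega : n + b + v ≤ m))
        (by exact_mod_cast (by omega : x ≤ NN)) ?_ le_rfl (by exact_mod_cast hwv)
      · have h' : 8 * (w0 + wv) ≤ (m + (NN + c + v))^2 := by
          have h1 : 8 * (w0 + wv) ≤ 8 * (p1 + c*x + wv) := by omega
          refine h1.trans ?_
          have h2 : 8 * (p1 + c*x + wv) ≤ (m + NN + c + v)^2 := by exact_mod_cast h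
          calc _ ≤ _ := h2
            _ = _ := by ring
        exact h'
      · split_ifs with hba
        · have hba' : b ≤ a := by exact_mod_cast hba
          obtain ⟨D, hD⟩ : ∃ D, a = b + D := ⟨a - b, by omega⟩
          subst hD
          rw [Nat.add_sub_cancel_left] at hinit
          rcases D with _ | D
          · push_cast at hinit ⊢
            linarith
          · rw [Nat.add_sub_cancel] at hinit
            zify at hinit
            push_cast at hinit ⊢
            linarith
        · zify at hinit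
          have : (0:ℤ) ≤ ((a - b : ℕ):ℤ) * ((a - b - 1 : ℕ):ℤ) := by positivity
          linarith
    · -- case 1
      have hL : ∀ z ∈ (Gp S m N).filter (fun z => z ≤ y), e S z ≤ e S y := by
        intro z hz
        rw [mem_filter] at hz
        exact e_mono hz.2
      have hinit := H.initial y (e S y) hL hball
      have hb := hT2split y le_rfl
      have hbi : ((T2 S m N).filter (fun z => z ≤ y)).card ≤ ((Gp S m N).filter (fun z => z ≤ y)).card :=
        card_le_card (filter_subset_filter _ hT2sub)
      rw [hsplit y, hsplits y]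
      generalize ((T2 S m N).filter (fun z => z ≤ y)).card = b at *
      generalize ((Gp S m N).filter (fun z => z ≤ y)).card = i at *
      generalize ((Gp S m N).filter (fun z => ¬ z ≤ y)).card = v at *
      generalize ∑ z ∈ (Gp S m N).filter (fun z => z ≤ y), e S z = w0 at *
      generalize ∑ z ∈ (Gp S m N).filter (fun z => ¬ z ≤ y), e S z = wv at *
      generalize e S y = x at *
      generalize e S N = n at *
      generalize (T2 S m N).card = t2 at *
      have h := ineq1 m b i v n x w0 wv (by positivity) (by positivity) (by positivity)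
        (by exact_mod_cast (by omega : n + b + v ≤ m)) (by exact_mod_cast hxn) (by exact_mod_cast hx)
        (by exact_mod_cast hball) (by exact_mod_cast hbi) ?_ (by exact_mod_cast hwv)
      · have h2 : 8 * (w0 + wv) ≤ (m + i + v)^2 := by exact_mod_cast h
        rw [← add_assoc]; exact h2
      · split_ifs with hba
        · have hba' : b ≤ x := by exact_mod_cast hba
          obtain ⟨D, hD⟩ : ∃ D, x = b + D := ⟨x - b, by omega⟩
          subst hD
          rw [Nat.add_sub_cancel_left] at hinit
          rcases D with _ | D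
          · push_cast at hinit ⊢
            zify at hinit
            linarith
          · rw [Nat.add_sub_cancel] at hinit
            zify at hinit
            push_cast at hinit ⊢
            linarith
        · zify at hinit
          have : (0:ℤ) ≤ ((x - b : ℕ):ℤ) * ((x - b - 1 : ℕ):ℤ) := by positivity
          linarith

end Pool.Agent.H4EffWt
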