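import Pool.Agent.Helpers.H4_EffWt2

set_option autoImplicit false

namespace Pool.Agent.H4EffWt

open Finset Classical

/-- A numerical semigroup, as in the problem file: a set of positive integers, closed under
addition, with only finitely many gaps. -/
structure IsNumericalSemigroup (S : Set ℕ) : Prop where
  pos : ∀ s ∈ S, 0 < s
  add : ∀ s ∈ S, ∀ t ∈ S, s + t ∈ S
  fin : {n : ℕ | 0 < n ∧ n ∉ S}.Finite

/-- the set of gaps -/
def gaps (S : Set ℕ) : Set ℕ := {n | 0 < n ∧ n ∉ S}

/-- the genus: the number of gaps -/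
noncomputable def genus (S : Set ℕ) : ℕ := (gaps S).ncard

/-- the irreducible elements (minimal generators): elements of `S` that are not a sum of two
elements of `S` -/
def irreducibles (S : Set ℕ) : Set ℕ := {x | x ∈ S ∧ ¬ ∃ s ∈ S, ∃ t ∈ S, x = s + t}

/-- the effective weight: number of pairs (irreducible element, larger gap) -/
noncomputable def effWeight (S : Set ℕ) : ℕ :=
  {p : ℕ × ℕ | p.1 ∈ irreducibles S ∧ p.2 ∈ gaps S ∧ p.1 < p.2}.ncard

theorem exists_NS {S : Set ℕ} (hS : IsNumericalSemigroup S) : ∃ m N, NS S m N := by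
  obtain ⟨B, hB⟩ := hS.fin.bddAbove
  have hN : ∀ n, B + 1 ≤ n → n ∈ S := by
    intro n hn
    by_contra h
    have := hB (show n ∈ {n : ℕ | 0 < n ∧ n ∉ S} from ⟨by omega, h⟩)
    omega
  have hne : ∃ n, n ∈ S := ⟨B+1, hN _ le_rfl⟩
  refine ⟨Nat.find hne, B+1, hS.pos, hS.add, Nat.find_spec hne, fun s hs => Nat.find_min' hne hs, hN⟩

theorem NS.gaps_eq {S : Set ℕ} {m N : ℕ} (H : NS S m N) :
    gaps S = ↑(Ico 1 m ∪ Gp S m N) := by
  ext z
  rw [mem_coe, mem_union, mem_Ico, H.mem_Gp]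
  constructor
  · rintro ⟨h1, h2⟩
    rcases lt_trichotomy z m with h | h | h
    · exact Or.inl ⟨h1, h⟩
    · exact absurd (h ▸ H.hm) h2
    · exact Or.inr ⟨h, h2⟩
  · rintro (h | h)
    · refine ⟨h.1, fun hz => ?_⟩
      have := H.hmin z hz
      omega
    · exact ⟨by omega, h.2⟩

theorem NS.genus_eq {S : Set ℕ} {m N : ℕ} (H : NS S m N) :
    genus S + 1 = m + (Gp S m N).card := by
  unfold genus
  rw [H.gaps_eq, Set.ncard_coe_finset, card_union_of_disjoint, Nat.card_Ico]
  · have := H.mpos; omega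
  · rw [disjoint_left]
    intro z h1 h2
    rw [mem_Ico] at h1
    rw [H.mem_Gp] at h2
    omega

theorem NS.effWeight_eq {S : Set ℕ} {m N : ℕ} (H : NS S m N) :
    effWeight S = ∑ y ∈ Gp S m N, e S y := by
  have h : {p : ℕ × ℕ | p.1 ∈ irreducibles S ∧ p.2 ∈ gaps S ∧ p.1 < p.2}
      = ↑((Gp S m N).biUnion (fun y => ((range y).filter (Irr S)).image (fun x => (x, y)))) := by
    ext ⟨x, y⟩
    simp only [coe_biUnion, Set.mem_iUnion, mem_coe, mem_image, mem_filter, mem_range,
      Prod.mk.injEq, exists_prop]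
    constructor
    · rintro ⟨h1, h2, h3⟩
      have hxm := H.hmin x h1.1
      refine ⟨y, ?_, x, ⟨h3, h1.1, h1.2⟩, rfl, rfl⟩
      rw [H.mem_Gp]
      exact ⟨by simp only at h3; omega, h2.2⟩
    · rintro ⟨y', hy', x', ⟨h1, h2⟩, rfl, rfl⟩
      rw [H.mem_Gp] at hy'
      exact ⟨⟨h2.1, h2.2⟩, ⟨by omega, hy'.2⟩, h1⟩
  unfold effWeight
  rw [h, Set.ncard_coe_finset, card_biUnion]
  · apply sum_congr rfl
    intro y _
    rw [card_image_of_injective]
    · rfl
    · intro a b hab
      simpa using hab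
  · intro y _ y' _ hne
    simp only [Function.onFun]
    rw [disjoint_left]
    intro p h1 h2
    obtain ⟨a, _, rfl⟩ := mem_image.1 h1
    obtain ⟨b, _, hb⟩ := mem_image.1 h2
    rw [Prod.mk.injEq] at hb
    exact hne hb.2.symm

/-- **upper bound** -/
theorem upper {S : Set ℕ} (hS : IsNumericalSemigroup S) :
    effWeight S ≤ (genus S + 1)^2/8 := by
  obtain ⟨m, N, H⟩ := exists_NS hS
  rw [Nat.le_div_iff_mul_le (by norm_num), H.effWeight_eq, H.genus_eq, mul_comm]
  exact H.main

/-- `{m, …, 2m-h-1} ∪ {2m, 2m+1, …}` -/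
def Iv (m h : ℕ) : Set ℕ := {n | (m ≤ n ∧ n < 2*m-h) ∨ 2*m ≤ n}

theorem Iv_NS {m h : ℕ} (hm : h < m) : NS (Iv m h) m (2*m) := by
  refine ⟨?_, ?_, ?_, ?_, ?_⟩
  · intro s hs
    rcases hs with hs | hs <;> omega
  · intro s hs t ht
    right
    have h1 : m ≤ s := by rcases hs with hs | hs <;> omega
    have h2 : m ≤ t := by rcases ht with ht | ht <;> omega
    omega
  · left; omega
  · intro s hs
    rcases hs with hs | hs <;> omega
  · intro n hn
    right; exact hn

theorem Iv_sgp {m h : ℕ} (hm : h < m) : IsNumericalSemigroup (Iv m h) := by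
  have H := Iv_NS hm
  refine ⟨H.pos, H.add, ?_⟩
  apply (Set.finite_Iio (2*m)).subset
  rintro n ⟨-, hn⟩
  rw [Set.mem_Iio]
  by_contra h'
  exact hn (H.hN n (by omega))

theorem Iv_Gp {m h : ℕ} (hm : h < m) : Gp (Iv m h) m (2*m) = Ico (2*m-h) (2*m) := by
  ext z
  rw [(Iv_NS hm).mem_Gp, mem_Ico]
  simp only [Iv, Set.mem_setOf_eq]
  omega

theorem Iv_e {m h y : ℕ} (hm : h < m) (h1 : 2*m-h ≤ y) (h2 : y < 2*m) : e (Iv m h) y = m - h := by
  unfold e
  have : (range y).filter (Irr (Iv m h)) = Ico m (2*m-h) := by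
    ext z
    rw [mem_filter, mem_range, mem_Ico]
    constructor
    · rintro ⟨h3, h4, -⟩
      rcases h4 with h4 | h4
      · exact h4
      · omega
    · intro h3
      refine ⟨by omega, Or.inl h3, ?_⟩
      rintro ⟨s, hs, t, ht, hst⟩
      have h5 := (Iv_NS hm).hmin s hs
      have h6 := (Iv_NS hm).hmin t ht
      omega
  rw [this, Nat.card_Ico]
  omega

theorem Iv_genus {m h : ℕ} (hm : h < m) : genus (Iv m h) + 1 = m + h := by
  rw [(Iv_NS hm).genus_eq, Iv_Gp hm, Nat.card_Ico]
  omega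

theorem Iv_weight {m h : ℕ} (hm : h < m) : effWeight (Iv m h) = h * (m - h) := by
  rw [(Iv_NS hm).effWeight_eq, Iv_Gp hm]
  rw [sum_congr rfl (fun y hy => Iv_e hm (mem_Ico.1 hy).1 (mem_Ico.1 hy).2), sum_const, Nat.card_Ico,
    smul_eq_mul]
  congr 1
  omega

theorem Iv_closure {m h : ℕ} (hm : 2*h+1 ≤ m) :
    (AddSubsemigroup.closure (Set.Icc m (2*m-h-1)) : Set ℕ) = Iv m h := by
  have hlt : h < m := by omega
  apply Set.Subset.antisymm
  · let T : AddSubsemigroup ℕ := ⟨Iv m h, fun {a b} ha hb => (Iv_NS hlt).add a ha b hb⟩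
    have : AddSubsemigroup.closure (Set.Icc m (2*m-h-1)) ≤ T := by
      rw [AddSubsemigroup.closure_le]
      intro z hz
      left
      have := hz.1
      have := hz.2
      omega
    exact this
  · intro z hz
    have base : ∀ z, m ≤ z → z ≤ 2*m-h-1 → z ∈ AddSubsemigroup.closure (Set.Icc m (2*m-h-1)) :=
      fun z h1 h2 => AddSubsemigroup.subset_closure ⟨h1, h2⟩
    have big : ∀ z, 2*m ≤ z → z ∈ AddSubsemigroup.closure (Set.Icc m (2*m-h-1)) := by
      intro z
      induction z using Nat.strong_induction_on with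
      | _ z ih =>
        intro hz
        rcases Nat.lt_or_ge z (3*m) with h3 | h3
        · -- z = x + x'
          rcases Nat.lt_or_ge (z - m) (2*m-h) with h4 | h4
          · have e1 : z = m + (z - m) := by omega
            rw [e1]
            exact add_mem (base m le_rfl (by omega)) (base _ (by omega) (by omega))
          · have e1 : z = (2*m-h-1) + (z - (2*m-h-1)) := by omega
            rw [e1]
            exact add_mem (base _ (by omega) le_rfl) (base _ (by omega) (by omega))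
        · have e1 : z = m + (z - m) := by omega
          rw [e1]
          exact add_mem (base m le_rfl (by omega)) (ih (z-m) (by omega) (by omega))
    rcases hz with hz | hz
    · exact base z hz.1 (by omega)
    · exact big z hz

/-- choice of the parameter -/
theorem best (g : ℕ) : ((g+2)/4) * ((g + 1 - (g+2)/4) - (g+2)/4) = (g+1)^2/8 := by
  obtain ⟨k, r, hr, hg⟩ : ∃ k r, r < 4 ∧ g + 1 = 4*k + r := ⟨(g+1)/4, (g+1)%4, Nat.mod_lt _ (by norm_num), by omega⟩
  rw [hg]
  symm
  interval_cases r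
  · have h1 : (g+2)/4 = k := by omega
    rw [h1]
    have h2 : 4*k+0-k-k = 2*k := by omega
    rw [h2]
    have : (4*k+0)^2 = (k*(2*k))*8 := by ring
    rw [this, Nat.mul_div_cancel _ (by norm_num)]
  · have h1 : (g+2)/4 = k := by omega
    rw [h1]
    have h2 : 4*k+1-k-k = 2*k+1 := by omega
    rw [h2]
    have : (4*k+1)^2 = (k*(2*k+1))*8 + 1 := by ring
    rw [this]
    omega
  · have h1 : (g+2)/4 = k := by omega
    rw [h1]
    have h2 : 4*k+2-k-k = 2*k+2 := by omega
    rw [h2]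
    have : (4*k+2)^2 = (k*(2*k+2))*8 + 4 := by ring
    rw [this]
    omega
  · have h1 : (g+2)/4 = k+1 := by omega
    rw [h1]
    have h2 : 4*k+3-(k+1)-(k+1) = 2*k+1 := by omega
    rw [h2]
    have : (4*k+3)^2 = ((k+1)*(2*k+1))*8 + 1 := by ring
    rw [this]
    omega

end Pool.Agent.H4EffWt
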