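import Pool.Agent.Helpers.H4_EffWt3

set_option autoImplicit false

namespace Pool.Agent.H4EffWt

open Finset Classical

theorem sq_le_seven {z : ℤ} (h : z^2 ≤ 7) : -2 ≤ z ∧ z ≤ 2 := by
  constructor <;> nlinarith

theorem mul_pred_nonneg (z : ℤ) : 0 ≤ z*(z-1) := by
  rcases le_or_gt z 0 with h | h
  · nlinarith
  · exact mul_nonneg h.le (by linarith [Int.add_one_le_iff.2 h])

theorem mul_pred_le_one {z : ℤ} (h : z*(z-1) ≤ 1) : z = 0 ∨ z = 1 := by
  have h1 : -1 < z := by nlinarith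
  have h2 : z < 2 := by nlinarith
  omega

/-- near equality in the first quadratic inequality -/
theorem near1 (m b i v n x w0 wv : ℤ) (hb : 0 ≤ b) (hv : 0 ≤ v) (hx : 1 ≤ x)
    (hn : n + b + v ≤ m) (hxn : x ≤ n) (hxm : 2*x ≤ m) (hxi : x ≤ i)
    (hw0 : 2*w0 + (if b ≤ x then (x-b)*(x-b-1) else 0) ≤ 2*i*x) (hwv : wv ≤ v*n)
    (hbig : 11 ≤ m + i + v) (hne : (m+i+v)^2 ≤ 8*(w0+wv) + 7) :
    m = 2*x ∧ 2*x - 2 ≤ i + v ∧ i*x ≤ w0 + 1 ∧ 3 ≤ x := by
  have hvn : v*n ≤ v*(m-b-v) := mul_le_mul_of_nonneg_left (by linarith) hv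
  split_ifs at hw0 with h
  · obtain ⟨q, hq⟩ : ∃ q, m = x + b + v + q := ⟨m - x - b - v, by ring⟩
    have hq0 : 0 ≤ q := by linarith
    obtain ⟨j, hj⟩ : ∃ j, i = x + j := ⟨i - x, by ring⟩
    have hj0 : 0 ≤ j := by linarith
    subst hq hj
    obtain ⟨δ, hδ⟩ : ∃ δ, δ = 2*(x+j)*x - (x-b)*(x-b-1) - 2*w0 := ⟨_, rfl⟩
    have hδ0 : 0 ≤ δ := by linarith
    have hfull : 5*b^2-4*x*b+4*v^2+q^2+j^2+4*x*q-4*x*j+4*b*v+2*b*q+2*b*j-4*v*q+4*v*j+2*q*j-4*x+4*b
        + 4*δ ≤ 7 := by linarith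
    rcases le_or_gt q (b+j) with hc | hc
    · have h2 : 0 ≤ (b+j+1-q)*(b+v+q-x) := mul_nonneg (by linarith) (by linarith)
      have h3 := mul_pred_nonneg q
      have h4 := mul_pred_nonneg v
      have hk : (b-j+q)^2 + 4*(q*(q-1)) + 4*(v*(v-1)) + 4*((b+j+1-q)*(b+v+q-x)) + 4*δ ≤ 7 := by
        linarith
      have h5 := sq_nonneg (b-j+q)
      have hq1 : q = 0 ∨ q = 1 := mul_pred_le_one (by linarith)
      have hv1 : v = 0 ∨ v = 1 := mul_pred_le_one (by linarith)
      have hδ1 : δ ≤ 1 := by linarith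
      have hsq := sq_le_seven (z := b-j+q) (by linarith)
      have h6 : (b+j+1-q)*(b+v+q-x) ≤ 1 := by linarith
      have hx' : x = b + v + q := by
        by_contra hne'
        have h7 : 1 ≤ b+v+q-x := by omega
        have h8 : (b+j+1-q) ≤ 1 := by
          by_contra h9
          have : 2 ≤ b+j+1-q := by omega
          have h10 := mul_le_mul this h7 (by norm_num) (by linarith)
          linarith
        omega
      have hP : (x-b)*(x-b-1) ≤ 2 := by
        rcases hq1 with h | h <;> rcases hv1 with h' | h' <;> subst h h' <;> (rw [hx']; ring_nf; norm_num)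
      refine ⟨by linarith, by omega, ?_, by omega⟩
      have h9 : 2*((x+j)*x) ≤ 2*w0 + 3 := by linarith
      omega
    · exfalso
      have h2 : 0 ≤ (q-b-j-1)*(x-b) := mul_nonneg (by linarith [Int.add_one_le_iff.2 hc]) (by linarith)
      have h3 := mul_nonneg hb hq0
      have h4 := mul_nonneg hb hv
      have h5 := mul_nonneg hv hj0
      have h6 := mul_nonneg hq0 hj0
      have hk : (2*v-q)^2 + (b-j)^2 + 6*(b*q) + 4*(b*v) + 4*(v*j) + 2*(q*j) + 4*((q-b-j-1)*(x-b)) + 4*δ ≤ 7 := by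
        linarith
      have h7 := sq_nonneg (2*v-q)
      have h8 := sq_nonneg (b-j)
      have hb0 : b = 0 := by
        by_contra hne'
        have : 1 ≤ b := by omega
        have : 2 ≤ q := by omega
        have h10 : 1*2 ≤ b*q := mul_le_mul (by assumption) this (by norm_num) (by linarith)
        linarith
      subst hb0
      have hj0' : j = 0 := by
        by_contra hne'
        have hj1 : 1 ≤ j := by omega
        have hq2 : 2 ≤ q := by omega
        have e1 : 2 ≤ q*j := by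
          have h10 : 2*1 ≤ q*j := mul_le_mul hq2 hj1 (by norm_num) (by linarith)
          linarith
        have e2 : 1*1 ≤ j*j := mul_le_mul hj1 hj1 (by norm_num) (by linarith)
        rcases eq_or_lt_of_le hv with h0 | h0
        · subst h0
          have h10 : 2*2 ≤ q*q := mul_le_mul hq2 hq2 (by norm_num) (by linarith)
          linarith
        · have : 1 ≤ v*j := by
            have h10 : 1*1 ≤ v*j := mul_le_mul (by omega) hj1 (by norm_num) (by linarith)
            linarith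
          linarith
      subst hj0'
      have hsq := sq_le_seven (z := 2*v-q) (by linarith)
      have h9 : (q-1)*x ≤ 1 := by linarith
      have hq2 : q ≤ 2 := by
        by_contra h10
        have : 3 ≤ q := by omega
        have h10 : 2*1 ≤ (q-1)*x := mul_le_mul (by omega) hx (by norm_num) (by linarith)
        linarith
      have hq1 : 1 ≤ q := by omega
      interval_cases q
      · omega
      · have : x = 1 := by omega
        omega
  · exfalso
    rw [not_le] at h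
    obtain ⟨p, hp⟩ : ∃ p, m = 2*x + p := ⟨m - 2*x, by ring⟩
    have hp0 : 0 ≤ p := by linarith
    obtain ⟨j, hj⟩ : ∃ j, i = x + j := ⟨i - x, by ring⟩
    have hj0 : 0 ≤ j := by linarith
    subst hp hj
    have hpv : v + 1 ≤ p := by omega
    have e1 : 0 ≤ v*(b-x-1) := mul_nonneg hv (by omega)
    have hf : (x-j)^2 + (p-3*v)^2 + 6*x*p - 2*v*x + 2*v*j + 2*p*j + 8*v ≤ 7 := by linarith
    have e2 : 0 ≤ x*(p-v-1) := mul_nonneg (by omega) (by omega)
    have e3 := mul_nonneg hv (show 0 ≤ x by omega)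
    have e4 := mul_nonneg hv hj0
    have e5 := mul_nonneg hp0 hj0
    have e6 := sq_nonneg (x-j)
    have e7 := sq_nonneg (p-3*v)
    -- 6xp - 2vx ≥ 4vx + 6x
    have h8 : 6*x + 4*(v*x) + (x-j)^2 + (p-3*v)^2 + 2*(p*j) + 8*v ≤ 7 := by linarith
    have hv0 : v = 0 := by omega
    subst hv0
    have hx1 : x = 1 := by omega
    subst hx1
    have hp1 : p^2 ≤ 1 := by linarith
    have hpe' : p ≤ 1 := by
      by_contra h10
      have h11 : 2 ≤ p := by omega
      have h12 : 2*2 ≤ p*p := mul_le_mul h11 h11 (by norm_num) (by linarith)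
      linarith
    have hpe : p = 1 := by omega
    subst hpe
    linarith [sq_nonneg j]

/-- near equality in the second quadratic inequality -/
theorem near2 (m a N b c v n x p1 w2 wv : ℤ) (hm : m = a + N) (hb : 0 ≤ b) (hv : 0 ≤ v)
    (hc : 1 ≤ c) (hn : n + b + v ≤ m) (hxN : x ≤ N)
    (hp1 : 2*p1 + (if b ≤ a then (a-b)*(a-b-1) else 0) ≤ 2*N*a)
    (hw2 : w2 ≤ c*x) (hwv : wv ≤ v*n) (hne : (m+N+c+v)^2 ≤ 8*(p1+w2+wv) + 7) :
    x = N ∧ w2 = c*x ∧ 2*N - a - 2 ≤ c + v ∧ (N*a ≤ p1 ∨ (a = b + 2 ∧ N*a ≤ p1 + 1)) := by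
  have hvn : v*n ≤ v*(m-b-v) := mul_le_mul_of_nonneg_left (by linarith) hv
  obtain ⟨r, hr⟩ : ∃ r, x = N - r := ⟨N - x, by ring⟩
  have hr0 : 0 ≤ r := by linarith
  subst hr
  obtain ⟨δ2, hδ2⟩ : ∃ δ, w2 = c*(N-r) - δ := ⟨c*(N-r) - w2, by ring⟩
  have hδ20 : 0 ≤ δ2 := by linarith
  have hcr : 0 ≤ c*r := mul_nonneg (by linarith) hr0
  subst hm
  split_ifs at hp1 with h
  · obtain ⟨D, hD⟩ : ∃ D, a = b + D := ⟨a - b, by ring⟩
    have hD0 : 0 ≤ D := by linarith
    obtain ⟨δ, hδ⟩ : ∃ δ, δ = 2*N*a - (a-b)*(a-b-1) - 2*p1 := ⟨_, rfl⟩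
    have hδ0 : 0 ≤ δ := by linarith
    have hk : (2*N-a-c-v)^2 + 4*((D-v)*(D-v-1)) + 4*(v*(v-1)) + 8*(c*r) + 8*δ2 + 4*δ ≤ 7 := by
      have e1 : a - b = D := by linarith
      rw [e1] at hδ
      have e2 : b = a - D := by linarith
      subst e2
      linarith
    have h1 := sq_nonneg (2*N-a-c-v)
    have h2 := mul_pred_nonneg (D-v)
    have h3 := mul_pred_nonneg v
    have hsq := sq_le_seven (z := 2*N-a-c-v) (by linarith)
    have hr' : r = 0 := by
      by_contra hne'
      have : 1 ≤ r := by omega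
      have h10 : 1*1 ≤ c*r := mul_le_mul hc this (by norm_num) (by linarith)
      linarith
    have hδ2' : δ2 = 0 := by omega
    have hv1 : v = 0 ∨ v = 1 := mul_pred_le_one (by linarith)
    have hD1 : D - v = 0 ∨ D - v = 1 := mul_pred_le_one (by linarith)
    have hδ1 : δ ≤ 1 := by linarith
    subst hr' hδ2'
    refine ⟨by ring, by linarith [hδ2], by omega, ?_⟩
    have e1 : a - b = D := by linarith
    rw [e1] at hδ
    have hD2 : D = 0 ∨ D = 1 ∨ D = 2 := by omega
    rcases hD2 with h | h | h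
    · left
      have : 2*(N*a) ≤ 2*p1 + 1 := by rw [h] at hδ; linarith
      omega
    · left
      have : 2*(N*a) ≤ 2*p1 + 1 := by rw [h] at hδ; linarith
      omega
    · right
      have : 2*(N*a) ≤ 2*p1 + 3 := by rw [h] at hδ; linarith
      exact ⟨by omega, by omega⟩
  · rw [not_le] at h
    obtain ⟨δ, hδ⟩ : ∃ δ, δ = 2*N*a - 2*p1 := ⟨_, rfl⟩
    have hδ0 : 0 ≤ δ := by linarith
    have e0 : 0 ≤ v*(b-a) := mul_nonneg hv (by linarith)
    have hk : (2*N-a-c-v)^2 + 8*v^2 + 8*(v*(b-a)) + 8*(c*r) + 8*δ2 + 4*δ ≤ 7 := by linarith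
    have h1 := sq_nonneg (2*N-a-c-v)
    have h2 := sq_nonneg v
    have hsq := sq_le_seven (z := 2*N-a-c-v) (by linarith)
    have hr' : r = 0 := by
      by_contra hne'
      have : 1 ≤ r := by omega
      have h10 : 1*1 ≤ c*r := mul_le_mul hc this (by norm_num) (by linarith)
      linarith
    have hδ2' : δ2 = 0 := by omega
    have hδ1 : δ ≤ 1 := by linarith
    subst hr' hδ2'
    refine ⟨by ring, by linarith [hδ2], by omega, ?_⟩
    left
    have : 2*(N*a) ≤ 2*p1 + 1 := by linarith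
    omega

end Pool.Agent.H4EffWt
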