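import Pool.Agent.Helpers.H4_EffWt4

set_option autoImplicit false

namespace Pool.Agent.H4EffWt

open Finset Classical

variable {S : Set ℕ} {m N : ℕ}

/-- changing the bound -/
theorem Gp_congr {N' : ℕ} (H : NS S m N) (H' : NS S m N') : Gp S m N = Gp S m N' := by
  ext z
  rw [H.mem_Gp, H'.mem_Gp]

theorem e_lt {y z y' : ℕ} (hz : Irr S z) (h1 : y ≤ z) (h2 : z < y') : e S y < e S y' := by
  unfold e
  apply card_lt_card
  rw [ssubset_iff_of_subset (filter_subset_filter _ (range_subset_range.2 (by omega)))]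
  refine ⟨z, ?_, ?_⟩
  · rw [mem_filter, mem_range]; exact ⟨h2, hz⟩
  · rw [mem_filter, mem_range]; omega

theorem NS.irr_of_lt (H : NS S m N) {z : ℕ} (hz : z ∈ S) (h : z < 2*m) : Irr S z := by
  refine ⟨hz, ?_⟩
  rintro ⟨s, hs, t, ht, h'⟩
  have := H.hmin s hs
  have := H.hmin t ht
  omega

/-- generators below `y ≤ 2m` are the elements below `y` -/
theorem NS.e_eq (H : NS S m N) {y : ℕ} (hy : y ≤ 2*m) : e S y = ((Ico m y).filter (· ∈ S)).card := by
  unfold e
  congr 1
  ext z
  rw [mem_filter, mem_range, mem_filter, mem_Ico]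
  constructor
  · rintro ⟨h1, h2⟩
    exact ⟨⟨H.hmin z h2.1, h1⟩, h2.1⟩
  · rintro ⟨h1, h2⟩
    exact ⟨h1.2, H.irr_of_lt h2 (by omega)⟩

theorem NS.e_le (H : NS S m N) {y : ℕ} (hy : y ≤ 2*m) : e S y ≤ y - m := by
  rw [H.e_eq hy]
  calc _ ≤ (Ico m y).card := card_filter_le _ _
    _ = y - m := Nat.card_Ico _ _

/-- if `[m, y) ⊆ S` then `e y = y - m` -/
theorem NS.e_full (H : NS S m N) {y : ℕ} (hy : y ≤ 2*m) (h : ∀ z, m ≤ z → z < y → z ∈ S) :
    e S y = y - m := by
  rw [H.e_eq hy, filter_true_of_mem, Nat.card_Ico]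
  intro z hz
  rw [mem_Ico] at hz
  exact h z hz.1 hz.2

/-- a gap `z < 2m` inside `[m, y)` makes `e` drop -/
theorem NS.e_le_pred (H : NS S m N) {y z : ℕ} (hy : y ≤ 2*m) (h1 : m ≤ z) (h2 : z < y) (hz : z ∉ S) :
    e S y + 1 ≤ y - m := by
  rw [H.e_eq hy, ← Nat.card_Ico, Nat.add_one_le_iff]
  apply card_lt_card
  rw [ssubset_iff_of_subset (filter_subset _ _)]
  exact ⟨z, mem_Ico.2 ⟨h1, h2⟩, by rw [mem_filter]; tauto⟩

/-- The case where all gaps above `m` are of type II. -/
theorem NS.case0 (H : NS S m N) (hne0 : (Gp S m N).Nonempty) (F : ℕ) (hF : F ∈ Gp S m N)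
    (hFN : N = F + 1) (hT1 : T1 S m N = ∅)
    (hne : (m + (Gp S m N).card)^2 ≤ 8 * ∑ y ∈ Gp S m N, e S y + 7) :
    ∃ h, h < m ∧ S = Iv m h ∧ ((m:ℤ) - 3*h)^2 ≤ 7 := by
  have htau := H.tau
  have hG : Gp S m N = T2 S m N := by
    ext z
    constructor
    · intro hz
      unfold T2
      rw [mem_filter]
      refine ⟨hz, ?_⟩
      by_contra h
      have : z ∈ T1 S m N := by unfold T1; rw [mem_filter]; exact ⟨hz, h⟩
      rw [hT1] at this
      simp at this
    · exact fun hz => filter_subset _ _ hz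
  rw [← hG] at htau
  have hall : ∀ y ∈ Gp S m N, e S y ≤ e S N := by
    intro y hy
    unfold Gp at hy
    rw [mem_filter, mem_range] at hy
    exact e_mono hy.1.le
  have h1 : ∑ y ∈ Gp S m N, e S y ≤ (Gp S m N).card * e S N := by
    rw [← smul_eq_mul, ← sum_const]
    exact sum_le_sum hall
  have hcpos : 0 < (Gp S m N).card := card_pos.2 hne0
  obtain ⟨q, hq⟩ : ∃ q, m = e S N + (Gp S m N).card + q := ⟨m - (e S N + (Gp S m N).card), by omega⟩
  obtain ⟨d, hd⟩ : ∃ d, (Gp S m N).card * e S N = ∑ y ∈ Gp S m N, e S y + d :=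
    ⟨(Gp S m N).card * e S N - ∑ y ∈ Gp S m N, e S y, by omega⟩
  have hkey : ((m:ℤ) - 3*((Gp S m N).card : ℤ))^2 + 8*((Gp S m N).card : ℤ)*q + 8*d ≤ 7 := by
    zify at hne hq hd
    have e1 : (e S N : ℤ) = m - (Gp S m N).card - q := by linarith
    rw [e1] at hd
    nlinarith
  have hq0 : q = 0 := by
    by_contra hq'
    have : 1 ≤ (Gp S m N).card * q := Nat.mul_pos hcpos (by omega)
    zify at this
    nlinarith [sq_nonneg ((m:ℤ) - 3*((Gp S m N).card : ℤ))]
  have hd0 : d = 0 := by
    by_contra hd'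
    have h9 : 1 ≤ d := by omega
    have h10 : (1:ℤ) ≤ (d:ℤ) := by exact_mod_cast h9
    have h11 : (0:ℤ) ≤ 8*((Gp S m N).card : ℤ)*q :=
      mul_nonneg (mul_nonneg (by norm_num) (Int.natCast_nonneg _)) (Int.natCast_nonneg _)
    have h12 := sq_nonneg ((m:ℤ) - 3*((Gp S m N).card : ℤ))
    linarith
  subst hq0 hd0
  rw [add_zero] at hq hd
  -- every gap sees all generators
  have hall' : ∀ y ∈ Gp S m N, e S y = e S N := by
    have : ∑ y ∈ Gp S m N, e S y = ∑ y ∈ Gp S m N, e S N := by
      rw [sum_const, smul_eq_mul]; omega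
    exact (sum_eq_sum_iff_of_le hall).1 this
  -- first gap
  obtain ⟨z0, hz0, hz0min⟩ := (Gp S m N).exists_min_image id hne0
  simp only [id] at hz0min
  have hz0' := hz0
  rw [H.mem_Gp] at hz0'
  have hbelow : ∀ z, m ≤ z → z < z0 → z ∈ S := by
    intro z h1 h2
    by_contra h3
    rcases Nat.eq_or_lt_of_le h1 with h | h
    · exact h3 (h ▸ H.hm)
    · have := hz0min z (H.mem_Gp.2 ⟨h, h3⟩)
      omega
  have hz02 : z0 ≤ 2*m := by
    by_contra h
    have e1 := H.e_full (le_refl (2*m)) (fun z h1 h2 => hbelow z h1 (by omega))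
    have e2 := e_mono (S := S) (show 2*m ≤ z0 by omega)
    have e3 := hall z0 hz0
    omega
  have e1 := H.e_full hz02 hbelow
  have e2 := hall' z0 hz0
  have hz0eq : z0 + (Gp S m N).card = 2*m := by omega
  have hnoirr : ∀ z, z0 ≤ z → z ≤ F → ¬ Irr S z := by
    intro z h1 h2 h3
    have := e_lt h3 h1 (show z < N by omega)
    omega
  have hFlt : F < 2*m := by
    by_contra h
    have hsub : insert F (Ico z0 (2*m)) ⊆ Gp S m N := by
      intro z hz
      rw [mem_insert, mem_Ico] at hz
      rcases hz with hz | hz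
      · rw [hz]; exact hF
      · rw [H.mem_Gp]
        refine ⟨by omega, fun hzS => ?_⟩
        exact hnoirr z hz.1 (by omega) (H.irr_of_lt hzS hz.2)
    have := card_le_card hsub
    rw [card_insert_of_notMem (by rw [mem_Ico]; omega), Nat.card_Ico] at this
    omega
  have hGeq : Gp S m N = Ico z0 (2*m) := by
    apply eq_of_subset_of_card_le
    · intro z hz
      rw [mem_Ico]
      refine ⟨hz0min z hz, ?_⟩
      unfold Gp at hz
      rw [mem_filter, mem_range] at hz
      omega
    · rw [Nat.card_Ico]; omega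
  refine ⟨(Gp S m N).card, by omega, ?_, ?_⟩
  · ext z
    simp only [Iv, Set.mem_ofPred_eq]
    constructor
    · intro hz
      have h1 := H.hmin z hz
      rcases Nat.lt_or_ge z (2*m) with h2 | h2
      · left
        refine ⟨h1, ?_⟩
        by_contra h3
        have : z ∈ Ico z0 (2*m) := mem_Ico.2 ⟨by omega, h2⟩
        rw [← hGeq, H.mem_Gp] at this
        exact this.2 hz
      · right; exact h2
    · intro hz
      by_contra h3
      have hmz : m < z := by
        rcases Nat.lt_or_ge m z with h | h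
        · exact h
        · exfalso
          have : z = m := by omega
          exact h3 (this ▸ H.hm)
      have : z ∈ Gp S m N := H.mem_Gp.2 ⟨hmz, h3⟩
      rw [hGeq, mem_Ico] at this
      omega
  · have := hkey
    push_cast at this
    nlinarith

/-- multiples of `m` may be added -/
theorem NS.add_mul_mem (H : NS S m N) {z : ℕ} (hz : z ∈ S) (k : ℕ) : z + k*m ∈ S := by
  induction k with
  | zero => simpa using hz
  | succ k ih =>
    have : z + (k+1)*m = (z + k*m) + m := by ring
    rw [this]; exact H.add _ ih _ H.hm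

/-- if `[2m, 3m-2] ⊆ S` then every gap above `2m` is `≡ -1 mod m` -/
theorem NS.gap_mod (H : NS S m N) (hm2 : 2 ≤ m) (h : ∀ z, 2*m ≤ z → z + 2 ≤ 3*m → z ∈ S) {z : ℕ} (hz : z ∉ S)
    (hz2 : 2*m ≤ z) : ∃ k, z = (3*m - 1) + k*m := by
  obtain ⟨q, r, hr, hqr⟩ : ∃ q r, r < m ∧ z = 2*m + r + q*m := by
    refine ⟨(z - 2*m)/m, (z-2*m)%m, Nat.mod_lt _ (by omega), ?_⟩
    have := Nat.mod_add_div' (z - 2*m) m
    omega
  refine ⟨q, ?_⟩
  rcases Nat.lt_or_ge (r+1) m with h1 | h1
  · exfalso
    apply hz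
    rw [hqr]
    exact H.add_mul_mem (h (2*m+r) (by omega) (by omega)) q
  · omega

/-- The case of a last type I gap `y` with `2 e(y) ≤ m` does not occur. -/
theorem NS.case1 (H : NS S m N) {y : ℕ} (hy : y ∈ Gp S m N) (hbig : 11 ≤ m + (Gp S m N).card)
    (hm : m = 2 * e S y) (hx3 : 3 ≤ e S y) (hh : 2 * e S y ≤ (Gp S m N).card + 2)
    (hw : ((Gp S m N).filter (fun z => z ≤ y)).card * e S y ≤
      ∑ z ∈ (Gp S m N).filter (fun z => z ≤ y), e S z + 1) : False := by
  generalize hx : e S y = x at hm hx3 hh hw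
  have hle : ∀ z ∈ (Gp S m N).filter (fun z => z ≤ y), e S z ≤ x := by
    intro z hz
    rw [mem_filter] at hz
    rw [← hx]
    exact e_mono hz.2
  -- deficit
  have hdef : ∑ z ∈ (Gp S m N).filter (fun z => z ≤ y), (x - e S z) ≤ 1 := by
    have h1 : ∑ z ∈ (Gp S m N).filter (fun z => z ≤ y), (x - e S z)
        + ∑ z ∈ (Gp S m N).filter (fun z => z ≤ y), e S z
        = ((Gp S m N).filter (fun z => z ≤ y)).card * x := by
      rw [← sum_add_distrib, ← smul_eq_mul, ← sum_const]
      apply sum_congr rfl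
      intro z hz
      have := hle z hz
      omega
    omega
  have hone : ∀ z, m < z → z ∉ S → x ≤ e S z + 1 := by
    intro z h1 h2
    rcases Nat.lt_or_ge y z with h | h
    · have := e_mono (S := S) h.le
      omega
    · have hz : z ∈ (Gp S m N).filter (fun z => z ≤ y) := mem_filter.2 ⟨H.mem_Gp.2 ⟨h1, h2⟩, h⟩
      have h5 : x - e S z ≤ ∑ z ∈ (Gp S m N).filter (fun z => z ≤ y), (x - e S z) :=
        single_le_sum (f := fun z => x - e S z) (fun _ _ => Nat.zero_le _) hz
      omega
  have htwo : ∀ z z', m < z → z ∉ S → z < z' → z' ∉ S → x ≤ e S z' := by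
    intro z z' h1 h2 h3 h4
    by_contra h5
    have hz'y : z' ≤ y := by
      by_contra h
      have := e_mono (S := S) (show y ≤ z' by omega)
      omega
    have hz : z ∈ (Gp S m N).filter (fun z => z ≤ y) := mem_filter.2 ⟨H.mem_Gp.2 ⟨h1, h2⟩, by omega⟩
    have hz' : z' ∈ (Gp S m N).filter (fun z => z ≤ y) := mem_filter.2 ⟨H.mem_Gp.2 ⟨by omega, h4⟩, hz'y⟩
    have hsub : ({z, z'} : Finset ℕ) ⊆ (Gp S m N).filter (fun z => z ≤ y) := by
      intro a ha
      rw [mem_insert, mem_singleton] at ha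
      rcases ha with rfl | rfl
      · exact hz
      · exact hz'
    have h6 := sum_le_sum_of_subset (f := fun z => x - e S z) hsub
    rw [sum_pair (by omega)] at h6
    have := e_mono (S := S) h3.le
    omega
  -- [m, m+x-1) ⊆ S
  have hA : ∀ z, m ≤ z → z + 1 < m + x → z ∈ S := by
    intro z h1 h2
    by_contra h3
    rcases Nat.eq_or_lt_of_le h1 with h | h
    · exact h3 (h ▸ H.hm)
    · have := hone z h h3
      have := H.e_le (y := z) (by omega)
      omega
  -- m+x-1 ∈ S or m+x ∈ S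
  have hB : m + x - 1 ∈ S ∨ m + x ∈ S := by
    by_contra h
    push Not at h
    have h1 := htwo (m+x-1) (m+x) (by omega) h.1 (by omega) h.2
    have h2 := H.e_le_pred (y := m+x) (z := m+x-1) (by omega) (by omega) (by omega) h.1
    omega
  -- [2m, 3m-2] ⊆ S
  have hC : ∀ z, 2*m ≤ z → z + 2 ≤ 3*m → z ∈ S := by
    intro z h1 h2
    rcases Nat.lt_or_ge z (3*m - 3) with h3 | h3
    · rcases Nat.lt_or_ge (z - m) (m + x - 1) with h4 | h4
      · have : z = m + (z - m) := by omega
        rw [this]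
        exact H.add _ H.hm _ (hA _ (by omega) (by omega))
      · have : z = (m + x - 2) + (z - (m+x-2)) := by omega
        rw [this]
        exact H.add _ (hA _ (by omega) (by omega)) _ (hA _ (by omega) (by omega))
    · rcases hB with hB | hB
      · rcases Nat.eq_or_lt_of_le h3 with h4 | h4
        · have : z = (m+x-2) + (m+x-1) := by omega
          rw [this]
          exact H.add _ (hA _ (by omega) (by omega)) _ hB
        · have : z = (m+x-1) + (m+x-1) := by omega
          rw [this]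
          exact H.add _ hB _ hB
      · rcases Nat.eq_or_lt_of_le h3 with h4 | h4
        · have : z = (m+x-3) + (m+x) := by omega
          rw [this]
          exact H.add _ (hA _ (by omega) (by omega)) _ hB
        · have : z = (m+x-2) + (m+x) := by omega
          rw [this]
          exact H.add _ (hA _ (by omega) (by omega)) _ hB
  -- gaps above 2m
  have hD : ∀ z, 2*m ≤ z → z ∉ S → z = 3*m - 1 := by
    intro z h1 h2
    obtain ⟨k, hk⟩ := H.gap_mod (by omega) hC h2 h1
    rcases k with _ | k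
    · omega
    · exfalso
      apply h2
      have : z = (3*m-2 + (m+1)) + k*m := by
        rw [hk, add_mul, one_mul]; omega
      rw [this]
      exact H.add_mul_mem (H.add _ (hC _ (by omega) (by omega)) _ (hA _ (by omega) (by omega))) k
  -- count
  obtain ⟨t, ht, htS⟩ : ∃ t, (t = m + x - 1 ∨ t = m + x) ∧ t ∈ S := by
    rcases hB with h | h
    · exact ⟨_, Or.inl rfl, h⟩
    · exact ⟨_, Or.inr rfl, h⟩
  have hsub : Gp S m N ⊆ insert (3*m-1) ((Ico (m+x-1) (2*m)).erase t) := by
    intro z hz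
    rw [H.mem_Gp] at hz
    rw [mem_insert, mem_erase, mem_Ico]
    rcases Nat.lt_or_ge z (2*m) with h1 | h1
    · right
      refine ⟨?_, ?_, h1⟩
      · rintro rfl; exact hz.2 htS
      · by_contra h2
        exact hz.2 (hA z hz.1.le (by omega))
    · left; exact hD z h1 hz.2
  have h1 := card_le_card hsub
  have h2 := card_insert_le (3*m-1) ((Ico (m+x-1) (2*m)).erase t)
  rw [card_erase_of_mem (mem_Ico.2 (by omega)), Nat.card_Ico] at h2
  omega

end Pool.Agent.H4EffWt
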