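import Pool.Agent.Helpers.H4_EffWt5

set_option autoImplicit false

namespace Pool.Agent.H4EffWt

open Finset Classical

variable {S : Set ℕ} {m N : ℕ}

/-- The case of a last type I gap `y > 2m` with `2 e(y) > m` does not occur. -/
theorem NS.case2 (H : NS S m N) {y : ℕ} (hy : y ∈ Gp S m N) (hy2 : 2*m < y)
    (hbig : 11 ≤ m + (Gp S m N).card)
    (hx : e S y = ((Gp S m N).filter (fun z => z ≤ 2*m)).card)
    (hxm : m < 2 * e S y)
    (hw2 : ∀ z ∈ Gp S m N, 2*m < z → z ≤ y → e S z = e S y)
    (hcv : 2 * ((Gp S m N).filter (fun z => z ≤ 2*m)).card ≤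
      e S (2*m) + 2 + ((Gp S m N).filter (fun z => ¬ z ≤ 2*m)).card)
    (hp : ((Gp S m N).filter (fun z => z ≤ 2*m)).card * e S (2*m) ≤
        ∑ z ∈ (Gp S m N).filter (fun z => z ≤ 2*m), e S z ∨
      (e S (2*m) = ((T2 S m N).filter (fun z => z ≤ 2*m)).card + 2 ∧
        ((Gp S m N).filter (fun z => z ≤ 2*m)).card * e S (2*m) ≤
        ∑ z ∈ (Gp S m N).filter (fun z => z ≤ 2*m), e S z + 1)) : False := by
  have hblock := H.block
  have hmp := H.mpos
  have hcard : (Gp S m N).card = ((Gp S m N).filter (fun z => z ≤ 2*m)).card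
        + ((Gp S m N).filter (fun z => ¬ z ≤ 2*m)).card := (card_filter_add_card_filter_not _).symm
  generalize hNN : ((Gp S m N).filter (fun z => z ≤ 2*m)).card = NN at *
  generalize ha' : e S (2*m) = a at *
  have ha : 1 ≤ a := by
    have := e_lt (S := S) (y := m) (y' := 2*m) (H.irr_of_lt H.hm (by omega)) le_rfl (by omega)
    omega
  have hle : ∀ z ∈ (Gp S m N).filter (fun z => z ≤ 2*m), e S z ≤ a := by
    intro z hz
    rw [mem_filter] at hz
    rw [← ha']
    exact e_mono hz.2
  have hdefeq : ∑ z ∈ (Gp S m N).filter (fun z => z ≤ 2*m), (a - e S z)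
        + ∑ z ∈ (Gp S m N).filter (fun z => z ≤ 2*m), e S z
        = NN * a := by
      rw [← sum_add_distrib, sum_congr rfl (g := fun _ => a), sum_const, smul_eq_mul, hNN]
      intro z hz
      have := hle z hz
      omega
  have hdef : ∑ z ∈ (Gp S m N).filter (fun z => z ≤ 2*m), (a - e S z) ≤ 1 := by
    rcases hp with hp | hp
    · omega
    · omega
  have hmemf : ∀ z, m < z → z < 2*m → z ∉ S → z ∈ (Gp S m N).filter (fun z => z ≤ 2*m) := by
    intro z h1 h2 h3
    exact mem_filter.2 ⟨H.mem_Gp.2 ⟨h1, h3⟩, by omega⟩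
  have hone' : ∀ z, m < z → z < 2*m → z ∉ S →
      a - e S z ≤ ∑ z ∈ (Gp S m N).filter (fun z => z ≤ 2*m), (a - e S z) := by
    intro z h1 h2 h3
    exact single_le_sum (f := fun z => a - e S z) (fun _ _ => Nat.zero_le _) (hmemf z h1 h2 h3)
  have hA' : ∀ z, m ≤ z → z + 1 < m + a → z ∈ S := by
    intro z h1 h2
    by_contra h3
    rcases Nat.eq_or_lt_of_le h1 with h | h
    · exact h3 (h ▸ H.hm)
    · have h4 := hone' z h (by omega) h3
      have h5 := H.e_le (y := z) (by omega)
      omega
  -- number of elements below 2m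
  have hcount : ((Ico m (2*m)).filter (· ∈ S)).card = a := by
    rw [← ha', H.e_eq le_rfl]
  have hA : ∀ z, m ≤ z → z < m + a → z ∈ S := by
    intro z h1 h2
    by_contra h3
    have hz : z = m + a - 1 := by
      by_contra h4
      exact h3 (hA' z h1 (by omega))
    have hmz : m < z := by
      rcases Nat.eq_or_lt_of_le h1 with h | h
      · exact absurd (h ▸ H.hm) h3
      · exact h
    have h5 := hone' z hmz (by omega) h3
    have h6 := H.e_le (y := z) (by omega)
    rcases hp with hp | ⟨hp1, hp2⟩
    · omega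
    · have hma : m + a ∈ S := by
        by_contra h7
        have h8 := H.e_le_pred (y := m+a) (z := z) (by omega) h1 (by omega) h3
        have hsub : ({z, m+a} : Finset ℕ) ⊆ (Gp S m N).filter (fun z => z ≤ 2*m) := by
          intro t ht
          rw [mem_insert, mem_singleton] at ht
          rcases ht with rfl | rfl
          · exact hmemf t hmz (by omega) h3
          · exact hmemf _ (by omega) (by omega) h7
        have h9 := sum_le_sum_of_subset (f := fun z => a - e S z) hsub
        rw [sum_pair (by omega)] at h9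
        omega
      have heq : (insert (m+a) (Ico m (m+a-1))) = (Ico m (2*m)).filter (· ∈ S) := by
        apply eq_of_subset_of_card_le
        · intro t ht
          rw [mem_insert, mem_Ico] at ht
          rw [mem_filter, mem_Ico]
          rcases ht with rfl | ht
          · exact ⟨by omega, hma⟩
          · exact ⟨by omega, hA' t ht.1 (by omega)⟩
        · rw [hcount, card_insert_of_notMem (by rw [mem_Ico]; omega), Nat.card_Ico]
          omega
      have hgap : ∀ t, m + a < t → t < 2*m → t ∉ S := by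
        intro t h7 h8 h9
        have : t ∈ (Ico m (2*m)).filter (· ∈ S) := mem_filter.2 ⟨mem_Ico.2 ⟨by omega, h8⟩, h9⟩
        rw [← heq, mem_insert, mem_Ico] at this
        omega
      have hsub : insert (m+2*a) (Ico (m+a+1) (m+2*a-1)) ⊆ (T2 S m N).filter (fun z => z ≤ 2*m) := by
        intro t ht
        rw [mem_insert, mem_Ico] at ht
        rw [mem_filter]
        unfold T2
        rw [mem_filter, H.mem_Gp]
        rcases ht with rfl | ht
        · refine ⟨⟨⟨by omega, hgap _ (by omega) (by omega)⟩, ?_⟩, by omega⟩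
          exact ⟨m+a, hma, m+a, hma, by omega⟩
        · refine ⟨⟨⟨by omega, hgap _ (by omega) (by omega)⟩, ?_⟩, by omega⟩
          exact ⟨m+a, hma, t - a, hA' _ (by omega) (by omega), by omega⟩
      have := card_le_card hsub
      rw [card_insert_of_notMem (by rw [mem_Ico]; omega), Nat.card_Ico] at this
      omega
  -- reducible elements
  have hR : ∀ z, 2*m ≤ z → z + 2 ≤ 2*m + 2*a → Red S z := by
    intro z h1 h2
    rcases Nat.lt_or_ge (z - m) (m + a) with h3 | h3
    · exact ⟨m, H.hm, z - m, hA _ (by omega) h3, by omega⟩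
    · exact ⟨m+a-1, hA _ (by omega) (by omega), z - (m+a-1), hA _ (by omega) (by omega), by omega⟩
  -- first gap above 2m
  have hne : ((Gp S m N).filter (fun z => ¬ z ≤ 2*m)).Nonempty := ⟨y, mem_filter.2 ⟨hy, by omega⟩⟩
  obtain ⟨z1, hz1, hz1min⟩ := ((Gp S m N).filter (fun z => ¬ z ≤ 2*m)).exists_min_image id hne
  simp only [id] at hz1min
  rw [mem_filter] at hz1
  have hz1y := hz1min y (mem_filter.2 ⟨hy, by omega⟩)
  have hez1 := hw2 z1 hz1.1 (by omega) hz1y
  have hz1S := (H.mem_Gp.1 hz1.1).2
  have hz1big : 2*m + 2*a < z1 + 2 := by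
    by_contra h
    exact hz1S (H.red_mem (hR z1 (by omega) (by omega)))
  have hcnt : e S z1 ≤ a + (z1 - (2*m + 2*a - 1)) := by
    have hsub : (range z1).filter (Irr S) ⊆ (range (2*m)).filter (Irr S) ∪ Ico (2*m+2*a-1) z1 := by
      intro t ht
      rw [mem_filter, mem_range] at ht
      rw [mem_union, mem_filter, mem_range, mem_Ico]
      rcases Nat.lt_or_ge t (2*m) with h1 | h1
      · exact Or.inl ⟨h1, ht.2⟩
      · right
        refine ⟨?_, ht.1⟩
        by_contra h2
        exact ht.2.2 (hR t h1 (by omega))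
    have h1 := (card_le_card hsub).trans (card_union_le _ _)
    rw [Nat.card_Ico] at h1
    have h2 : ((range (2*m)).filter (Irr S)).card = a := ha'
    rw [h2] at h1
    exact h1
  have hz1m : 3*m ≤ z1 + 1 := by omega
  have hC : ∀ z, 2*m ≤ z → z + 2 ≤ 3*m → z ∈ S := by
    intro z h1 h2
    by_contra h3
    have h4 : z ≠ 2*m := by
      rintro rfl
      apply h3
      rw [two_mul]
      exact H.add _ H.hm _ H.hm
    have := hz1min z (mem_filter.2 ⟨H.mem_Gp.2 ⟨by omega, h3⟩, by omega⟩)
    omega
  have hD : ∀ z, 2*m ≤ z → z ∉ S → z = 3*m - 1 ∨ z = 4*m - 1 := by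
    intro z h1 h2
    obtain ⟨k, hk⟩ := H.gap_mod (by omega) hC h2 h1
    rcases k with _ | _ | k
    · left; omega
    · right; omega
    · exfalso
      apply h2
      have : z = (3*m-2 + (2*m+1)) + k*m := by
        rw [hk, add_mul, add_mul, one_mul]; omega
      rw [this]
      exact H.add_mul_mem (H.add _ (hC _ (by omega) (by omega)) _ (hC _ (by omega) (by omega))) k
  have hsub : (Gp S m N).filter (fun z => ¬ z ≤ 2*m) ⊆ {3*m-1, 4*m-1} := by
    intro z hz
    rw [mem_filter, H.mem_Gp] at hz
    rw [mem_insert, mem_singleton]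
    exact hD z (by omega) hz.1.2
  have h1 := (card_le_card hsub).trans card_le_two
  omega

end Pool.Agent.H4EffWt
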