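import Pool.Agent.Helpers.H4_EffWt6

set_option autoImplicit false

namespace Pool.Agent.H4EffWt

open Finset Classical

variable {S : Set ℕ} {m N : ℕ}

theorem NS.near' (H : NS S m N) (hne0 : (Gp S m N).Nonempty) (F : ℕ) (hF : F ∈ Gp S m N)
    (hFN : N = F + 1) (hbig : 11 ≤ m + (Gp S m N).card)
    (hne : (m + (Gp S m N).card)^2 ≤ 8 * ∑ y ∈ Gp S m N, e S y + 7) :
    ∃ h, h < m ∧ S = Iv m h ∧ ((m:ℤ) - 3*h)^2 ≤ 7 := by
  have htau := H.tau
  have hall : ∀ y ∈ Gp S m N, e S y ≤ e S N := by
    intro y hy
    unfold Gp at hy
    rw [mem_filter, mem_range] at hy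
    exact e_mono hy.1.le
  have hT1sub : T1 S m N ⊆ Gp S m N := filter_subset _ _
  have hT2sub : T2 S m N ⊆ Gp S m N := filter_subset _ _
  rcases (T1 S m N).eq_empty_or_nonempty with hE | hE
  · exact H.case0 hne0 F hF hFN hE hne
  · exfalso
    -- last type I gap
    obtain ⟨y, hy, hymax⟩ := (T1 S m N).exists_max_image id hE
    simp only [id] at hymax
    have hyG : y ∈ Gp S m N := hT1sub hy
    have hball := H.ballot hy
    have halpha := H.alpha hy
    have hblock := H.block
    -- decomposition of the gaps
    have hsplit : ∀ P : ℕ, (Gp S m N).card = ((Gp S m N).filter (fun z => z ≤ P)).card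
        + ((Gp S m N).filter (fun z => ¬ z ≤ P)).card := fun P => (card_filter_add_card_filter_not _).symm
    have hsplits : ∀ P : ℕ, ∑ z ∈ Gp S m N, e S z = ∑ z ∈ (Gp S m N).filter (fun z => z ≤ P), e S z
        + ∑ z ∈ (Gp S m N).filter (fun z => ¬ z ≤ P), e S z := fun P => (sum_filter_add_sum_filter_not _ _ _).symm
    -- after y everything is type II
    have hV : (Gp S m N).filter (fun z => ¬ z ≤ y) = (T2 S m N).filter (fun z => ¬ z ≤ y) := by
      ext z
      rw [mem_filter, mem_filter]
      constructor
      · rintro ⟨h1, h2⟩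
        refine ⟨?_, h2⟩
        unfold T2
        rw [mem_filter]
        refine ⟨h1, ?_⟩
        by_contra h
        have : z ∈ T1 S m N := by unfold T1; rw [mem_filter]; exact ⟨h1, h⟩
        exact h2 (hymax z this)
      · rintro ⟨h1, h2⟩
        exact ⟨hT2sub h1, h2⟩
    have hwv : ∑ z ∈ (Gp S m N).filter (fun z => ¬ z ≤ y), e S z
        ≤ ((Gp S m N).filter (fun z => ¬ z ≤ y)).card * e S N := by
      rw [← smul_eq_mul, ← sum_const]
      apply sum_le_sum
      intro z hz
      exact hall z (filter_subset _ _ hz)
    have hT2split : ∀ P : ℕ, P ≤ y → ((T2 S m N).filter (fun z => z ≤ P)).card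
        + ((Gp S m N).filter (fun z => ¬ z ≤ y)).card ≤ (T2 S m N).card := by
      intro P hP
      rw [hV, ← card_filter_add_card_filter_not (s := T2 S m N) (fun z => z ≤ P)]
      apply Nat.add_le_add_left
      apply card_le_card
      intro z hz
      rw [mem_filter] at hz ⊢
      exact ⟨hz.1, by omega⟩
    have hxn : e S y ≤ e S N := hall y hyG
    have hx1 : 1 ≤ e S y := by
      have := e_lt (S := S) (y := m) (y' := y) (z := m) (H.irr_of_lt H.hm (by have := H.mpos; omega)) le_rfl
        (H.mem_Gp.1 hyG).1
      omega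
    rcases Nat.lt_or_ge m (2 * e S y) with hx | hx
    · -- case 2
      have hy2 : 2*m < y := by
        by_contra h
        have := e_mono (S := S) (show y ≤ 2*m by omega)
        omega
      have hL : ∀ z ∈ (Gp S m N).filter (fun z => z ≤ 2*m), e S z ≤ e S (2*m) := by
        intro z hz
        rw [mem_filter] at hz
        exact e_mono hz.2
      have hinit := H.initial (2*m) (e S (2*m)) hL (by omega)
      -- the middle part
      let Mid := (Gp S m N).filter (fun z => z ≤ y) \ (Gp S m N).filter (fun z => z ≤ 2*m)
      have hsub : (Gp S m N).filter (fun z => z ≤ 2*m) ⊆ (Gp S m N).filter (fun z => z ≤ y) := by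
        intro z hz
        rw [mem_filter] at hz ⊢
        exact ⟨hz.1, by omega⟩
      have hmidsum : ∑ z ∈ (Gp S m N).filter (fun z => z ≤ y), e S z =
          ∑ z ∈ (Gp S m N).filter (fun z => z ≤ 2*m), e S z + ∑ z ∈ Mid, e S z := by
        rw [← sum_sdiff hsub, add_comm]
      have hmidcard : ((Gp S m N).filter (fun z => z ≤ y)).card =
          ((Gp S m N).filter (fun z => z ≤ 2*m)).card + Mid.card := by
        rw [card_sdiff_of_subset hsub]
        have := card_le_card hsub
        omega
      have hMidle : ∀ z ∈ Mid, e S z ≤ e S y := by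
        intro z hz
        rw [mem_sdiff, mem_filter] at hz
        exact e_mono hz.1.2
      have hmidle : ∑ z ∈ Mid, e S z ≤ Mid.card * e S y :=
        (sum_le_card_nsmul _ _ (e S y) hMidle).trans (le_of_eq (smul_eq_mul _ _))
      have hMidpos : 1 ≤ Mid.card := by
        apply card_pos.2
        refine ⟨y, ?_⟩
        rw [mem_sdiff, mem_filter, mem_filter]
        exact ⟨⟨hyG, le_rfl⟩, fun h => by omega⟩
      have hrest : ((Gp S m N).filter (fun z => ¬ z ≤ 2*m)).card = Mid.card
          + ((Gp S m N).filter (fun z => ¬ z ≤ y)).card := by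
        have h1 := hsplit (2*m)
        have h2 := hsplit y
        omega
      have hb := hT2split (2*m) hy2.le
      have hne' := hne
      rw [hsplit y, hsplits y, hmidcard, hmidsum] at hne'
      have hfin := near2 (m:ℤ) (e S (2*m)) ((Gp S m N).filter (fun z => z ≤ 2*m)).card
        ((T2 S m N).filter (fun z => z ≤ 2*m)).card Mid.card
        ((Gp S m N).filter (fun z => ¬ z ≤ y)).card (e S N) (e S y)
        ((∑ z ∈ (Gp S m N).filter (fun z => z ≤ 2*m), e S z : ℕ) : ℤ)
        ((∑ z ∈ Mid, e S z : ℕ) : ℤ)
        ((∑ z ∈ (Gp S m N).filter (fun z => ¬ z ≤ y), e S z : ℕ) : ℤ)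
        (by have : m = e S (2*m) + ((Gp S m N).filter (fun z => z ≤ 2*m)).card := by omega
            exact_mod_cast this)
        (Int.natCast_nonneg _) (Int.natCast_nonneg _) (by exact_mod_cast hMidpos)
        (by exact_mod_cast (by omega : e S N + ((T2 S m N).filter (fun z => z ≤ 2*m)).card
          + ((Gp S m N).filter (fun z => ¬ z ≤ y)).card ≤ m))
        (by exact_mod_cast (by omega : e S y ≤ ((Gp S m N).filter (fun z => z ≤ 2*m)).card))
        ?_ (by exact_mod_cast hmidle) (by exact_mod_cast hwv) ?_
      · obtain ⟨f1, f2, f3, f4⟩ := hfin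
        have f1' : e S y = ((Gp S m N).filter (fun z => z ≤ 2*m)).card := by exact_mod_cast f1
        have f2' : ∑ z ∈ Mid, e S z = Mid.card * e S y := by exact_mod_cast f2
        have f2'' : ∀ z ∈ Mid, e S z = e S y := by
          have : ∑ z ∈ Mid, e S z = ∑ z ∈ Mid, e S y := by
            rw [sum_const, smul_eq_mul]; omega
          exact (sum_eq_sum_iff_of_le hMidle).1 this
        refine H.case2 hyG hy2 hbig f1' hx ?_ ?_ ?_
        · intro z hz h1 h2
          apply f2''
          rw [mem_sdiff, mem_filter, mem_filter]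
          exact ⟨⟨hz, h2⟩, fun h => by omega⟩
        · omega
        · rcases f4 with f4 | ⟨f4, f5⟩
          · left; exact_mod_cast f4
          · right
            exact ⟨by exact_mod_cast f4, by exact_mod_cast f5⟩
      · generalize ((T2 S m N).filter (fun z => z ≤ 2*m)).card = b at *
        generalize ((Gp S m N).filter (fun z => z ≤ 2*m)).card = NN at *
        generalize ∑ z ∈ (Gp S m N).filter (fun z => z ≤ 2*m), e S z = p1 at *
        generalize e S (2*m) = a at *
        split_ifs with hba
        · have hba' : b ≤ a := by exact_mod_cast hba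
          obtain ⟨D, hD⟩ : ∃ D, a = b + D := ⟨a - b, by omega⟩
          subst hD
          rw [Nat.add_sub_cancel_left] at hinit
          rcases D with _ | D
          · push_cast at hinit ⊢
            zify at hinit
            linarith
          · rw [Nat.add_sub_cancel] at hinit
            zify at hinit
            push_cast at hinit ⊢
            linarith
        · zify at hinit
          have : (0:ℤ) ≤ ((a - b : ℕ):ℤ) * ((a - b - 1 : ℕ):ℤ) := by positivity
          linarith
      · rw [← add_assoc, ← add_assoc] at hne'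
        exact_mod_cast hne'
    · -- case 1
      have hL : ∀ z ∈ (Gp S m N).filter (fun z => z ≤ y), e S z ≤ e S y := by
        intro z hz
        rw [mem_filter] at hz
        exact e_mono hz.2
      have hinit := H.initial y (e S y) hL hball
      have hb := hT2split y le_rfl
      have hne' := hne
      rw [hsplit y, hsplits y] at hne'
      have hbig' := hbig
      rw [hsplit y] at hbig'
      have hfin := near1 (m:ℤ) ((T2 S m N).filter (fun z => z ≤ y)).card
        ((Gp S m N).filter (fun z => z ≤ y)).card
        ((Gp S m N).filter (fun z => ¬ z ≤ y)).card (e S N) (e S y)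
        ((∑ z ∈ (Gp S m N).filter (fun z => z ≤ y), e S z : ℕ) : ℤ)
        ((∑ z ∈ (Gp S m N).filter (fun z => ¬ z ≤ y), e S z : ℕ) : ℤ)
        (Int.natCast_nonneg _) (Int.natCast_nonneg _) (by exact_mod_cast hx1)
        (by exact_mod_cast (by omega : e S N + ((T2 S m N).filter (fun z => z ≤ y)).card
          + ((Gp S m N).filter (fun z => ¬ z ≤ y)).card ≤ m))
        (by exact_mod_cast hxn) (by exact_mod_cast hx) (by exact_mod_cast hball)
        ?_ (by exact_mod_cast hwv) (by
          have : 11 ≤ m + ((Gp S m N).filter (fun z => z ≤ y)).card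
            + ((Gp S m N).filter (fun z => ¬ z ≤ y)).card := by omega
          exact_mod_cast this) ?_
      · obtain ⟨f1, f2, f3, f4⟩ := hfin
        have f1' : m = 2 * e S y := by exact_mod_cast f1
        have f2' := hsplit y
        refine H.case1 hyG hbig f1' (by exact_mod_cast f4) (by omega) (by exact_mod_cast f3)
      · generalize ((T2 S m N).filter (fun z => z ≤ y)).card = b at *
        generalize ((Gp S m N).filter (fun z => z ≤ y)).card = i at *
        generalize ∑ z ∈ (Gp S m N).filter (fun z => z ≤ y), e S z = w0 at *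
        generalize e S y = x at *
        split_ifs with hba
        · have hba' : b ≤ x := by exact_mod_cast hba
          obtain ⟨D, hD⟩ : ∃ D, x = b + D := ⟨x - b, by omega⟩
          subst hD
          rw [Nat.add_sub_cancel_left] at hinit
          rcases D with _ | D
          · push_cast at hinit ⊢
            zify at hinit
            linarith
          · rw [Nat.add_sub_cancel] at hinit
            zify at hinit
            push_cast at hinit ⊢
            linarith
        · zify at hinit
          have : (0:ℤ) ≤ ((x - b : ℕ):ℤ) * ((x - b - 1 : ℕ):ℤ) := by positivity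
          linarith
      · rw [← add_assoc] at hne'
        exact_mod_cast hne'

/-- classification of near-maximisers -/
theorem NS.near (H : NS S m N) (hbig : 11 ≤ m + (Gp S m N).card)
    (hne : (m + (Gp S m N).card)^2 ≤ 8 * ∑ y ∈ Gp S m N, e S y + 7) :
    ∃ h, h < m ∧ S = Iv m h ∧ ((m:ℤ) - 3*h)^2 ≤ 7 := by
  rcases (Gp S m N).eq_empty_or_nonempty with h0 | h0
  · exfalso
    rw [h0] at hne hbig
    simp only [card_empty, sum_empty] at hne hbig
    nlinarith
  · obtain ⟨F, hF, hFmax⟩ := (Gp S m N).exists_max_image id h0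
    simp only [id] at hFmax
    have H' : NS S m (F+1) := by
      refine ⟨H.pos, H.add, H.hm, H.hmin, ?_⟩
      intro n hn
      by_contra h
      have hmF := (H.mem_Gp.1 hF).1
      have := hFmax n (H.mem_Gp.2 ⟨by omega, h⟩)
      omega
    have hc := Gp_congr H H'
    rw [hc] at h0 hF hbig hne
    exact H'.near' h0 F hF rfl hbig hne

theorem near {S : Set ℕ} (hS : IsNumericalSemigroup S) (hg : 10 ≤ genus S)
    (hne : (genus S + 1)^2 ≤ 8 * effWeight S + 7) :
    ∃ m h, h < m ∧ S = Iv m h ∧ ((m:ℤ) - 3*h)^2 ≤ 7 ∧ genus S + 1 = m + h := by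
  obtain ⟨m, N, H⟩ := exists_NS hS
  rw [H.effWeight_eq, H.genus_eq] at hne
  have hbig : 11 ≤ m + (Gp S m N).card := by
    have := H.genus_eq
    omega
  obtain ⟨h, h1, h2, h3⟩ := H.near hbig hne
  refine ⟨m, h, h1, h2, h3, ?_⟩
  rw [h2]
  exact Iv_genus h1

end Pool.Agent.H4EffWt
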