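import Pool.Agent.Helpers.H4_EffWt3

set_option autoImplicit false

namespace Pool.Agent.H4EffWt

open Finset

/-- `F` is not a sum of two positive non-gaps (the gaps being the bits of `G`) -/
def okB (G F : ℕ) : Bool := (List.range F).all (fun a => a == 0 || G.testBit a || G.testBit (F - a))

/-- gap masks of the numerical semigroups of genus `g` -/
def LB : ℕ → List ℕ
  | 0 => [0]
  | g+1 => (LB g).flatMap (fun G =>
      ((List.range (2*g+2)).filter (fun F => decide (0 < F) && decide (G < 2^F) && okB G F)).map
        (fun F => G ||| 2^F))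

def irrB (G x : ℕ) : Bool := !(x == 0) && !(G.testBit x) && okB G x

def effB (G : ℕ) : ℕ :=
  (((List.range 18).filter (fun y => G.testBit y)).map
    (fun y => ((List.range y).filter (fun x => irrB G x)).length)).sum

def genB (G : ℕ) : ℕ := ((List.range 18).filter (fun y => G.testBit y)).length

/-- certificate that the generator list `l` (with smallest element its head) has gap mask `G` -/
def checkB (l : List ℕ) (G : ℕ) : Bool :=
  match l with
  | [] => false
  | m :: _ =>
    decide (0 < m) && decide (G < 2^18) && !(G.testBit 0) &&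
    l.all (fun x => decide (0 < x) && !(G.testBit x)) &&
    (List.range 18).all (fun n => !(G.testBit n) || okB G n) &&
    (List.range (18+m)).all (fun n => n == 0 || G.testBit n ||
      l.any (fun x => x == n || (decide (x < n) && !(G.testBit (n-x)))))

/-- the semigroup generated by a list -/
def gen (l : List ℕ) : Set ℕ := (AddSubsemigroup.closure {x | x ∈ l} : Set ℕ)

theorem okB_iff {G F : ℕ} : okB G F = true ↔
    ∀ a, 0 < a → a < F → (G.testBit a = true ∨ G.testBit (F-a) = true) := by
  unfold okB
  rw [List.all_eq_true]
  constructor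
  · intro h a h0 h1
    have := h a (List.mem_range.2 h1)
    simp only [Bool.or_eq_true, beq_iff_eq] at this
    rcases this with (h2 | h2) | h2
    · omega
    · exact Or.inl h2
    · exact Or.inr h2
  · intro h a ha
    rw [List.mem_range] at ha
    simp only [Bool.or_eq_true, beq_iff_eq]
    rcases Nat.eq_zero_or_pos a with h0 | h0
    · exact Or.inl (Or.inl h0)
    · rcases h a h0 ha with h2 | h2
      · exact Or.inl (Or.inr h2)
      · exact Or.inr h2

theorem testBit_false_of_lt {G n : ℕ} (h : G < 2^n) {i : ℕ} (hi : n ≤ i) : G.testBit i = false :=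
  Nat.testBit_lt_two_pow (h.trans_le (Nat.pow_le_pow_right (by norm_num) hi))

/-- every numerical semigroup of genus `g` is in the list -/
theorem enum (g : ℕ) : ∀ S : Set ℕ, IsNumericalSemigroup S → genus S = g →
    ∃ G ∈ LB g, ∀ x, x ∈ gaps S ↔ G.testBit x = true := by
  induction g with
  | zero =>
    intro S hS hg
    refine ⟨0, by simp [LB], ?_⟩
    intro x
    have : gaps S = ∅ := (Set.ncard_eq_zero hS.fin).1 hg
    rw [this]
    simp
  | succ g ih =>
    intro S hS hg
    have hfin : (gaps S).Finite := hS.fin
    have hne : (gaps S).Nonempty := by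
      rw [Set.nonempty_iff_ne_empty]
      intro h
      unfold genus at hg
      rw [h] at hg
      simp at hg
    obtain ⟨F, hF, hFmax⟩ := Set.exists_max_image (gaps S) id hfin hne
    simp only [id] at hFmax
    have hbig : ∀ n, F < n → n ∈ S := by
      intro n hn
      by_contra h
      have := hFmax n ⟨by omega, h⟩
      omega
    have hgaps' : gaps (insert F S) = gaps S \ {F} := by
      ext x
      simp only [gaps, Set.mem_sdiff, Set.mem_singleton_iff, Set.mem_insert_iff, Set.mem_ofPred_eq]
      tauto
    have hS' : IsNumericalSemigroup (insert F S) := by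
      refine ⟨?_, ?_, ?_⟩
      · intro s hs
        rcases hs with rfl | hs
        · exact hF.1
        · exact hS.pos s hs
      · intro s hs t ht
        rcases hs with rfl | hs
        · right
          apply hbig
          rcases ht with rfl | ht
          · have := hF.1; omega
          · have := hS.pos t ht; omega
        · rcases ht with rfl | ht
          · right
            apply hbig
            have := hS.pos s hs; omega
          · right
            exact hS.add s hs t ht
      · change (gaps (insert F S)).Finite
        rw [hgaps']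
        exact hfin.subset Set.sdiff_subset
    have hg' : genus (insert F S) = g := by
      unfold genus
      rw [hgaps', Set.ncard_sdiff_singleton_of_mem hF]
      unfold genus at hg
      omega
    obtain ⟨G, hG, hGS⟩ := ih _ hS' hg'
    rw [hgaps'] at hGS
    refine ⟨G ||| 2^F, ?_, ?_⟩
    · unfold LB
      rw [List.mem_flatMap]
      refine ⟨G, hG, ?_⟩
      rw [List.mem_map]
      refine ⟨F, ?_, rfl⟩
      rw [List.mem_filter, List.mem_range]
      have hok : ∀ a, 0 < a → a < F → (G.testBit a = true ∨ G.testBit (F-a) = true) := by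
        intro a h1 h2
        by_contra h3
        push Not at h3
        have h4 : a ∈ S := by
          by_contra h5
          exact h3.1 ((hGS a).1 ⟨⟨h1, h5⟩, by simp; omega⟩)
        have h5 : F - a ∈ S := by
          by_contra h6
          exact h3.2 ((hGS (F-a)).1 ⟨⟨by omega, h6⟩, by simp; omega⟩)
        apply hF.2
        have : F = a + (F - a) := by omega
        rw [this]
        exact hS.add _ h4 _ h5
      refine ⟨?_, ?_⟩
      · -- F ≤ 2g+1
        have hsub : (Finset.Ioo 0 F : Finset ℕ) ⊆ (hfin.subset (Set.sdiff_subset (t := {F}))).toFinset ∪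
            ((hfin.subset (Set.sdiff_subset (t := {F}))).toFinset).image (fun a => F - a) := by
          intro a ha
          rw [Finset.mem_Ioo] at ha
          rw [Finset.mem_union, Set.Finite.mem_toFinset, Finset.mem_image]
          rcases hok a ha.1 ha.2 with h | h
          · left; exact (hGS a).2 h
          · right
            exact ⟨F - a, by rw [Set.Finite.mem_toFinset]; exact (hGS _).2 h, by omega⟩
        have h1 := (Finset.card_le_card hsub).trans (Finset.card_union_le _ _)
        have h2 := Finset.card_image_le (s := (hfin.subset (Set.sdiff_subset (t := {F}))).toFinset)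
          (f := fun a => F - a)
        have h3 : (hfin.subset (Set.sdiff_subset (t := {F}))).toFinset.card = g := by
          rw [← Set.ncard_eq_toFinset_card _ (hfin.subset (Set.sdiff_subset (t := {F}))),
            Set.ncard_sdiff_singleton_of_mem hF]
          unfold genus at hg
          omega
        rw [Nat.card_Ioo] at h1
        omega
      · simp only [Bool.and_eq_true, decide_eq_true_eq]
        refine ⟨⟨hF.1, ?_⟩, okB_iff.2 hok⟩
        apply Nat.lt_pow_two_of_testBit
        intro i hi
        by_contra h
        rw [Bool.not_eq_false] at h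
        have h2 := (hGS i).2 h
        have h3 := hFmax i h2.1
        have h4 : i ≠ F := h2.2
        omega
    · intro x
      rw [Nat.testBit_or, Bool.or_eq_true, ← hGS, Nat.testBit_two_pow, decide_eq_true_eq]
      constructor
      · intro hx
        by_cases h : x = F
        · right; exact h.symm
        · left; exact ⟨hx, h⟩
      · rintro (h | h)
        · exact h.1
        · rw [← h]; exact hF

theorem card_filter_range' (n : ℕ) (p : ℕ → Bool) :
    ((Finset.range n).filter (fun x => p x = true)).card = ((List.range n).filter p).length := by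
  rw [← List.toFinset_card_of_nodup (List.Nodup.filter _ List.nodup_range)]
  congr 1
  ext x
  simp

theorem sum_filter_range' (n : ℕ) (p : ℕ → Bool) (f : ℕ → ℕ) :
    ∑ y ∈ (Finset.range n).filter (fun x => p x = true), f y = (((List.range n).filter p).map f).sum := by
  rw [← List.sum_toFinset f (List.Nodup.filter _ List.nodup_range)]
  congr 1
  ext x
  simp

/-- the effective weight from the mask -/
theorem effB_eq {S : Set ℕ} {G : ℕ} (hpos : ∀ s ∈ S, 0 < s) (hG : G < 2^18)
    (h : ∀ x, x ∈ gaps S ↔ G.testBit x = true) : effWeight S = effB G := by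
  have hirr : ∀ x, x ∈ irreducibles S ↔ irrB G x = true := by
    intro x
    have hS : ∀ x, 0 < x → (x ∈ S ↔ ¬ G.testBit x = true) := by
      intro x hx
      rw [← h x]
      simp only [gaps, Set.mem_ofPred_eq]
      tauto
    unfold irrB
    simp only [Bool.and_eq_true, Bool.not_eq_true', beq_eq_false_iff_ne, ne_eq, okB_iff]
    constructor
    · rintro ⟨h1, h2⟩
      have hx := hpos x h1
      refine ⟨⟨by omega, ?_⟩, ?_⟩
      · rw [← Bool.not_eq_true]; exact (hS x hx).1 h1
      · intro a h3 h4
        by_contra h5
        push Not at h5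
        exact h2 ⟨a, (hS a h3).2 (by rw [Bool.not_eq_true]; simpa using h5.1), x - a,
          (hS (x-a) (by omega)).2 (by rw [Bool.not_eq_true]; simpa using h5.2), by omega⟩
    · rintro ⟨⟨h1, h2⟩, h3⟩
      refine ⟨(hS x (by omega)).2 (by rw [h2]; simp), ?_⟩
      rintro ⟨s, hs, t, ht, rfl⟩
      have hs0 := hpos s hs
      have ht0 := hpos t ht
      have h4 := (hS s hs0).1 hs
      have h5 := (hS t ht0).1 ht
      rcases h3 s hs0 (by omega) with h6 | h6
      · exact h4 h6
      · rw [Nat.add_sub_cancel_left] at h6
        exact h5 h6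
  have hset : {p : ℕ × ℕ | p.1 ∈ irreducibles S ∧ p.2 ∈ gaps S ∧ p.1 < p.2}
      = ↑(((Finset.range 18).filter (fun y => G.testBit y = true)).biUnion
        (fun y => ((Finset.range y).filter (fun x => irrB G x = true)).image (fun x => (x, y)))) := by
    ext ⟨x, y⟩
    simp only [coe_biUnion, Set.mem_iUnion, mem_coe, mem_image, mem_filter, mem_range,
      Prod.mk.injEq, exists_prop]
    constructor
    · rintro ⟨h1, h2, h3⟩
      have hy := (h y).1 h2
      refine ⟨y, ⟨?_, hy⟩, x, ⟨h3, (hirr x).1 h1⟩, rfl, rfl⟩
      by_contra h4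
      have := testBit_false_of_lt hG (i := y) (by omega)
      rw [this] at hy
      exact Bool.false_ne_true hy
    · rintro ⟨y', ⟨_, hy'⟩, x', ⟨h1, h2⟩, rfl, rfl⟩
      exact ⟨(hirr _).2 h2, (h _).2 hy', h1⟩
  unfold effWeight
  rw [hset, Set.ncard_coe_finset, card_biUnion]
  · unfold effB
    have : ∀ y, (((Finset.range y).filter (fun x => irrB G x = true)).image (fun x => (x, y))).card
        = ((List.range y).filter (fun x => irrB G x)).length := by
      intro y
      rw [card_image_of_injective _ (fun a b hab => by simpa using hab)]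
      exact card_filter_range' y _
    rw [Finset.sum_congr rfl (fun y _ => this y)]
    exact sum_filter_range' 18 _ _
  · intro y _ y' _ hne
    simp only [Function.onFun]
    rw [disjoint_left]
    intro p h1 h2
    obtain ⟨a, _, rfl⟩ := mem_image.1 h1
    obtain ⟨b, _, hb⟩ := mem_image.1 h2
    rw [Prod.mk.injEq] at hb
    exact hne hb.2.symm

theorem genB_eq {S : Set ℕ} {G : ℕ} (hG : G < 2^18)
    (h : ∀ x, x ∈ gaps S ↔ G.testBit x = true) : genus S = genB G := by
  have hset : gaps S = ↑((Finset.range 18).filter (fun y => G.testBit y = true)) := by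
    ext y
    rw [mem_coe, mem_filter, mem_range, h y]
    constructor
    · intro hy
      refine ⟨?_, hy⟩
      by_contra h4
      have := testBit_false_of_lt hG (i := y) (by omega)
      rw [this] at hy
      exact Bool.false_ne_true hy
    · exact fun hy => hy.2
  unfold genus
  rw [hset, Set.ncard_coe_finset]
  exact card_filter_range' 18 _

/-- correctness of the certificate -/
theorem checkB_sound {l : List ℕ} {G : ℕ} (h : checkB l G = true) :
    G < 2^18 ∧ IsNumericalSemigroup (gen l) ∧ (∀ x, x ∈ gaps (gen l) ↔ G.testBit x = true) := by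
  unfold checkB at h
  rcases l with _ | ⟨m, l⟩
  · simp at h
  simp only [Bool.and_eq_true, decide_eq_true_eq, Bool.not_eq_true', List.all_eq_true,
    List.mem_range, Bool.or_eq_true, beq_iff_eq, List.any_eq_true] at h
  obtain ⟨⟨⟨⟨⟨h1, h2⟩, h0⟩, h3⟩, h4⟩, h5⟩ := h
  -- the complement of the gaps
  have hadd : ∀ s t, 0 < s → 0 < t → G.testBit s = false → G.testBit t = false →
      G.testBit (s+t) = false := by
    intro s t hs ht h6 h7
    by_contra h8
    rw [Bool.not_eq_false] at h8
    have hlt : s + t < 18 := by
      by_contra h9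
      rw [testBit_false_of_lt h2 (by omega)] at h8
      exact Bool.false_ne_true h8
    rcases h4 (s+t) hlt with h9 | h9
    · rw [h9] at h8; exact Bool.false_ne_true h8
    · rw [okB_iff] at h9
      rcases h9 s hs (by omega) with h10 | h10
      · rw [h6] at h10; exact Bool.false_ne_true h10
      · rw [Nat.add_sub_cancel_left, h7] at h10; exact Bool.false_ne_true h10
  have hmem : ∀ x, x ∈ gen (m :: l) ↔ (0 < x ∧ G.testBit x = false) := by
    intro x
    constructor
    · intro hx
      let T : AddSubsemigroup ℕ := ⟨{x | 0 < x ∧ G.testBit x = false},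
        fun {a b} ha hb => ⟨by have := ha.1; have := hb.1; omega, hadd a b ha.1 hb.1 ha.2 hb.2⟩⟩
      have hle : AddSubsemigroup.closure {x | x ∈ m :: l} ≤ T := by
        rw [AddSubsemigroup.closure_le]
        intro z hz
        exact h3 z hz
      exact hle hx
    · induction x using Nat.strong_induction_on with
      | _ x ih =>
        rintro ⟨hx0, hx1⟩
        rcases Nat.lt_or_ge x (18+m) with h6 | h6
        · rcases h5 x h6 with (h7 | h7) | h7
          · omega
          · rw [h7] at hx1; simp at hx1
          · obtain ⟨y, hy, h8⟩ := h7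
            rcases h8 with h8 | h8
            · subst h8
              exact AddSubsemigroup.subset_closure hy
            · have hy0 := (h3 y hy).1
              have : x = y + (x - y) := by omega
              rw [this]
              exact add_mem (AddSubsemigroup.subset_closure hy)
                (ih (x-y) (by omega) ⟨by omega, h8.2⟩)
        · have : x = m + (x - m) := by omega
          rw [this]
          refine add_mem (AddSubsemigroup.subset_closure (by simp)) (ih (x-m) (by omega) ⟨by omega, ?_⟩)
          exact testBit_false_of_lt h2 (by omega)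
  have hgaps : ∀ x, x ∈ gaps (gen (m :: l)) ↔ G.testBit x = true := by
    intro x
    simp only [gaps, Set.mem_ofPred_eq, hmem]
    constructor
    · rintro ⟨h6, h7⟩
      by_contra h8
      rw [Bool.not_eq_true] at h8
      exact h7 ⟨h6, h8⟩
    · intro h6
      refine ⟨?_, fun h7 => by rw [h7.2] at h6; exact Bool.false_ne_true h6⟩
      rcases Nat.eq_zero_or_pos x with h7 | h7
      · subst h7; rw [h0] at h6; exact absurd h6 Bool.false_ne_true
      · exact h7
  refine ⟨h2, ⟨fun s hs => ((hmem s).1 hs).1, ?_, ?_⟩, hgaps⟩
  · intro s hs t ht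
    exact add_mem hs ht
  · apply (Set.finite_Iio 18).subset
    intro n hn
    have := (hgaps n).1 hn
    rw [Set.mem_Iio]
    by_contra h6
    rw [testBit_false_of_lt h2 (by omega)] at this
    exact Bool.false_ne_true this

/-- a numerical semigroup is determined by its gaps -/
theorem eq_of_gaps {S T : Set ℕ} (hS : ∀ s ∈ S, 0 < s) (hT : ∀ s ∈ T, 0 < s)
    (h : ∀ x, x ∈ gaps S ↔ x ∈ gaps T) : S = T := by
  ext x
  have := h x
  simp only [gaps, Set.mem_ofPred_eq] at this
  constructor
  · intro hx
    have h0 := hS x hx
    by_contra h1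
    exact (this.2 ⟨h0, h1⟩).2 hx
  · intro hx
    have h0 := hT x hx
    by_contra h1
    exact (this.1 ⟨h0, h1⟩).2 hx

/-- the maximisers of genus at most 9 -/
def small : ℕ → List (List ℕ)
  | 0 => [[1]]
  | 1 => [[2, 3]]
  | 2 => [[2, 5]]
  | 3 => [[2, 7], [3, 4]]
  | 4 => [[2, 9], [3, 5], [4, 5, 6]]
  | 5 => [[2, 11], [3, 7, 11], [4, 5, 11], [4, 6, 7], [5, 6, 7, 8]]
  | 6 => [[3, 7], [4, 5], [4, 6, 9], [5, 6, 7]]
  | 7 => [[4, 6, 11], [6, 7, 8, 9]]
  | 8 => [[4, 6, 13], [7, 8, 9, 10, 11]]
  | 9 => [[4, 6, 15], [6, 7, 8], [7, 8, 9, 10], [8, 9, 10, 11, 12, 13]]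
  | _ => []

def chk1 (g : ℕ) : Bool := (LB g).all (fun G => decide (G < 2^18) &&
  (!(effB G == (g+1)^2/8) || (small g).any (fun l => checkB l G)))

def chk2 (g : ℕ) : Bool := (small g).all (fun l => (LB g).any (fun G => checkB l G && effB G == (g+1)^2/8
  && genB G == g))

theorem chk1_true : ∀ g < 10, chk1 g = true := by decide +kernel

theorem chk2_true : ∀ g < 10, chk2 g = true := by decide +kernel

theorem small_spec {g : ℕ} (hg : g < 10) (S : Set ℕ) :
    (IsNumericalSemigroup S ∧ genus S = g ∧ effWeight S = (g+1)^2/8) ↔ ∃ l ∈ small g, S = gen l := by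
  constructor
  · rintro ⟨h1, h2, h3⟩
    obtain ⟨G, hG, hGS⟩ := enum g S h1 h2
    have h4 := chk1_true g hg
    unfold chk1 at h4
    rw [List.all_eq_true] at h4
    have h5 := h4 G hG
    rw [Bool.and_eq_true, decide_eq_true_eq, Bool.or_eq_true, Bool.not_eq_true',
      beq_eq_false_iff_ne, List.any_eq_true] at h5
    obtain ⟨h6, h7⟩ := h5
    have h8 := effB_eq h1.pos h6 hGS
    rcases h7 with h7 | ⟨l, hl, h7⟩
    · omega
    · refine ⟨l, hl, ?_⟩
      obtain ⟨h9, h10, h11⟩ := checkB_sound h7
      exact eq_of_gaps h1.pos h10.pos (fun x => (hGS x).trans (h11 x).symm)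
  · rintro ⟨l, hl, rfl⟩
    have h4 := chk2_true g hg
    unfold chk2 at h4
    rw [List.all_eq_true] at h4
    have h5 := h4 l hl
    rw [List.any_eq_true] at h5
    obtain ⟨G, hG, h6⟩ := h5
    rw [Bool.and_eq_true, Bool.and_eq_true, beq_iff_eq, beq_iff_eq] at h6
    obtain ⟨⟨h7, h8⟩, h9⟩ := h6
    obtain ⟨h10, h11, h12⟩ := checkB_sound h7
    refine ⟨h11, ?_, ?_⟩
    · rw [genB_eq h10 h12, h9]
    · rw [effB_eq h11.pos h10 h12, h8]

end Pool.Agent.H4EffWt
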