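import Pool.Agent.Helpers.H4_Rig

set_option autoImplicit false

namespace H4Rig

open Finset

theorem count {V U G : Type*} [Fintype V] [DecidableEq V] [Fintype U] [DecidableEq U]
    [Group G] [Fintype G] (φ : G →* Equiv.Perm V) (un : V → V → Option U)
    (nice : V → V → Prop) (W : V → V → Set V) (Reg : Finset V)
    (hReg : ∀ Q ∈ Reg, ∀ g, φ g Q = Q → g = 1)
    (hne : ∀ P Q, nice P Q → P ≠ Q)
    (hun : ∀ P Q, nice P Q → ∃ o, un P Q = some o)
    (hW : ∀ P Q P' Q', nice P Q → P' ≠ Q' → un P' Q' = un P Q →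
      ∃ g : G, φ g⁻¹ P' ∈ W P Q ∧ φ g⁻¹ Q' ∈ W P Q)
    (N1 : ∀ P Q, nice P Q → ∀ g, φ g P ∈ W P Q → φ g P = P)
    (N1' : ∀ P Q, nice P Q → ∀ g, φ g Q ∈ W P Q → φ g Q = Q)
    (a b c : ℕ)
    (N2 : ∀ P R, (∀ g, φ g P ≠ R) → ∀ S : Finset V, (∀ Q ∈ S, nice P Q ∧ R ∈ W P Q) → S.card ≤ a)
    (N3 : ∀ P, ∀ S : Finset V, (∀ Q ∈ S, Q ∈ Reg ∧ ¬ nice P Q) → S.card ≤ b)
    (N4 : ∀ o, ∀ S : Finset (V × V), (∀ p ∈ S, nice p.1 p.2 ∧ un p.1 p.2 = some o) → S.card ≤ c)
    (κ : ℕ) (hnum : 4 * Fintype.card G * (2 * κ * c + b + Fintype.card G * a) ≤ Reg.card)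
    (hR : Fintype.card V ≤ 2 * Reg.card) (hc : 0 < c) (σ : Equiv.Perm V) : ∃ g : G,
      2 * κ * (univ.filter (fun x => σ x ≠ φ g x)).card ≤
        (univ.filter (fun o : U => ∃ P Q, P ≠ Q ∧ un P Q = some o ∧
          un (σ P) (σ Q) ≠ some o)).card := by
  classical
  set n := Fintype.card G with hn
  have hn0 : 0 < n := Fintype.card_pos
  set L := Reg.card with hL
  set NB := (univ : Finset (V × V)).filter
    (fun p => nice p.1 p.2 ∧ un (σ p.1) (σ p.2) ≠ un p.1 p.2) with hNB
  set bad := univ.filter (fun o : U => ∃ P Q, P ≠ Q ∧ un P Q = some o ∧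
          un (σ P) (σ Q) ≠ some o) with hbad
  have h1 : NB.card ≤ c * bad.card := by
    have h2 : (bad.image (some : U → Option U)).card = bad.card :=
      card_image_of_injective _ (Option.some_injective _)
    rw [← h2]
    apply card_le_mul_card_image_of_maps_to (f := fun p : V × V => un p.1 p.2)
    · intro p hp
      rw [hNB, mem_filter] at hp
      obtain ⟨o, ho⟩ := hun _ _ hp.2.1
      rw [mem_image]
      refine ⟨o, ?_, ho.symm⟩
      rw [hbad, mem_filter]
      exact ⟨mem_univ _, p.1, p.2, hne _ _ hp.2.1, ho, by rw [← ho]; exact hp.2.2⟩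
    · intro o ho
      rw [mem_image] at ho
      obtain ⟨o, _, rfl⟩ := ho
      apply N4 o
      intro p hp
      rw [mem_filter, hNB, mem_filter] at hp
      exact ⟨hp.1.2.1, hp.2⟩
  suffices h : ∃ g : G, (univ.filter (fun x => σ x ≠ φ g x)).card * (2 * κ * c) ≤ NB.card by
    obtain ⟨g, hg⟩ := h
    refine ⟨g, ?_⟩
    have h3 := hg.trans h1
    have h4 : c * (2 * κ * (univ.filter (fun x => σ x ≠ φ g x)).card) ≤ c * bad.card := by
      calc c * (2 * κ * (univ.filter (fun x => σ x ≠ φ g x)).card)
          = (univ.filter (fun x => σ x ≠ φ g x)).card * (2 * κ * c) := by ring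
        _ ≤ _ := h3
    exact Nat.le_of_mul_le_mul_left h4 hc
  -- lower bound for NB
  have lower : ∀ (S : Finset V) (T : V → Finset V) (t : ℕ), (∀ P ∈ S, t ≤ (T P).card) →
      (∀ P ∈ S, ∀ Q ∈ T P, nice P Q ∧ un (σ P) (σ Q) ≠ un P Q) → S.card * t ≤ NB.card := by
    intro S T t hT hST
    calc S.card * t = ∑ _P ∈ S, t := by rw [sum_const, smul_eq_mul]
      _ ≤ ∑ P ∈ S, (T P).card := sum_le_sum hT
      _ = (S.sigma T).card := (card_sigma _ _).symm
      _ ≤ NB.card := by
          apply card_le_card_of_injOn (fun x => (x.1, x.2))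
          · intro x hx
            rw [mem_coe, mem_sigma] at hx
            rw [hNB, mem_coe, mem_filter]
            exact ⟨mem_univ _, hST _ hx.1 _ hx.2⟩
          · rintro ⟨x1, x2⟩ _ ⟨y1, y2⟩ _ h
            simp only [Prod.mk.injEq] at h
            obtain ⟨rfl, rfl⟩ := h
            rfl
  set Mv := univ.filter (fun P => ∀ g, σ P ≠ φ g P) with hMv
  -- for P ∈ Mv few good Q
  have good : ∀ P ∈ Mv, (univ.filter (fun Q => nice P Q ∧ un (σ P) (σ Q) = un P Q)).card
      ≤ n * a := by
    intro P hP
    have hP' : ∀ g, σ P ≠ φ g P := (mem_filter.1 hP).2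
    have hsub : univ.filter (fun Q => nice P Q ∧ un (σ P) (σ Q) = un P Q) ⊆
        univ.biUnion (fun g : G => univ.filter (fun Q => nice P Q ∧ φ g⁻¹ (σ P) ∈ W P Q)) := by
      intro Q hQ
      obtain ⟨_, hQ1, hQ2⟩ := mem_filter.1 hQ
      obtain ⟨g, hg1, hg2⟩ := hW P Q (σ P) (σ Q) hQ1
        (fun h => hne _ _ hQ1 (σ.injective h)) hQ2
      exact mem_biUnion.2 ⟨g, mem_univ _, mem_filter.2 ⟨mem_univ _, hQ1, hg1⟩⟩
    refine (card_le_card hsub).trans (card_biUnion_le.trans ?_)
    calc ∑ g : G, (univ.filter (fun Q => nice P Q ∧ φ g⁻¹ (σ P) ∈ W P Q)).card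
        ≤ ∑ _g : G, a := by
          apply sum_le_sum
          intro g _
          apply N2 P (φ g⁻¹ (σ P))
          · intro h hh
            apply hP' (g * h)
            rw [map_mul, Equiv.Perm.mul_apply, hh, ← Equiv.Perm.mul_apply, ← map_mul,
              mul_inv_cancel, map_one, Equiv.Perm.one_apply]
          · intro Q hQ
            exact (mem_filter.1 hQ).2
      _ = n * a := by simp [hn]
  by_cases hcase : L ≤ 2 * (Reg.filter (fun P => P ∈ Mv)).card
  · refine ⟨1, ?_⟩
    have h2 : (Reg.filter (fun P => P ∈ Mv)).card * (L - b - n * a) ≤ NB.card := by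
      apply lower _ (fun P => Reg.filter (fun Q => nice P Q ∧ un (σ P) (σ Q) ≠ un P Q))
      · intro P hP
        have hP' := (mem_filter.1 hP).2
        have h3 : Reg ⊆ Reg.filter (fun Q => nice P Q ∧ un (σ P) (σ Q) ≠ un P Q) ∪
            (Reg.filter (fun Q => ¬ nice P Q) ∪
              univ.filter (fun Q => nice P Q ∧ un (σ P) (σ Q) = un P Q)) := by
          intro Q hQ
          by_cases h4 : nice P Q
          · by_cases h5 : un (σ P) (σ Q) = un P Q
            · exact mem_union_right _ (mem_union_right _ (mem_filter.2 ⟨mem_univ _, h4, h5⟩))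
            · exact mem_union_left _ (mem_filter.2 ⟨hQ, h4, h5⟩)
          · exact mem_union_right _ (mem_union_left _ (mem_filter.2 ⟨hQ, h4⟩))
        have h4 := (card_le_card h3).trans ((card_union_le _ _).trans
          (Nat.add_le_add_left (card_union_le _ _) _))
        have h5 := N3 P (Reg.filter (fun Q => ¬ nice P Q)) (fun Q hQ => mem_filter.1 hQ)
        have h6 := good P hP'
        omega
      · intro P _ Q hQ
        exact (mem_filter.1 hQ).2
    have h3 : (univ.filter (fun x => σ x ≠ φ 1 x)).card ≤ Fintype.card V := card_le_univ _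
    have hA : 2 * κ * c + b + n * a ≤ n * (2 * κ * c + b + n * a) :=
      Nat.le_mul_of_pos_left _ hn0
    have h4 : 4 * (2 * κ * c + b + n * a) ≤ L := by
      calc 4 * (2 * κ * c + b + n * a) ≤ 4 * (n * (2 * κ * c + b + n * a)) :=
            Nat.mul_le_mul_left _ hA
        _ = 4 * n * (2 * κ * c + b + n * a) := by ring
        _ ≤ L := hnum
    have h5 : 4 * (2 * κ * c) ≤ L - b - n * a := by
      generalize 2 * κ * c = z at *
      generalize n * a = z' at *
      omega
    calc (univ.filter (fun x => σ x ≠ φ 1 x)).card * (2 * κ * c)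
        ≤ (2 * L) * (2 * κ * c) := Nat.mul_le_mul_right _ (h3.trans hR)
      _ ≤ (2 * (2 * (Reg.filter (fun P => P ∈ Mv)).card)) * (2 * κ * c) :=
          Nat.mul_le_mul_right _ (Nat.mul_le_mul_left _ hcase)
      _ = (Reg.filter (fun P => P ∈ Mv)).card * (4 * (2 * κ * c)) := by ring
      _ ≤ (Reg.filter (fun P => P ∈ Mv)).card * (L - b - n * a) := Nat.mul_le_mul_left _ h5
      _ ≤ NB.card := h2
  · push Not at hcase
    -- pigeonhole
    have h2 : L ≤ (Reg.filter (fun P => P ∈ Mv)).card +
        ∑ g : G, (Reg.filter (fun Q => σ Q = φ g Q)).card := by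
      have hsub : Reg ⊆ Reg.filter (fun P => P ∈ Mv) ∪
          univ.biUnion (fun g : G => Reg.filter (fun Q => σ Q = φ g Q)) := by
        intro Q hQ
        by_cases h3 : ∀ g, σ Q ≠ φ g Q
        · exact mem_union_left _ (mem_filter.2 ⟨hQ, mem_filter.2 ⟨mem_univ _, h3⟩⟩)
        · push Not at h3
          obtain ⟨g, hg⟩ := h3
          exact mem_union_right _ (mem_biUnion.2 ⟨g, mem_univ _, mem_filter.2 ⟨hQ, hg⟩⟩)
      exact (card_le_card hsub).trans ((card_union_le _ _).trans
        (Nat.add_le_add_left card_biUnion_le _))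
    have h3 : ∃ g : G, L ≤ 2 * n * (Reg.filter (fun Q => σ Q = φ g Q)).card := by
      by_contra hcon
      push Not at hcon
      have h4 : ∑ g : G, 2 * n * (Reg.filter (fun Q => σ Q = φ g Q)).card
          < ∑ _g : G, L := sum_lt_sum_of_nonempty univ_nonempty (fun g _ => hcon g)
      rw [← mul_sum, sum_const, card_univ, smul_eq_mul, ← hn] at h4
      have h5 : n * (2 * ∑ g : G, (Reg.filter (fun Q => σ Q = φ g Q)).card) < n * L := by
        calc n * (2 * ∑ g : G, (Reg.filter (fun Q => σ Q = φ g Q)).card)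
            = 2 * n * ∑ g : G, (Reg.filter (fun Q => σ Q = φ g Q)).card := by ring
          _ < n * L := h4
      have h6 := Nat.lt_of_mul_lt_mul_left h5
      omega
    obtain ⟨g, hg⟩ := h3
    refine ⟨g, ?_⟩
    set Ag := Reg.filter (fun Q => σ Q = φ g Q) with hAg
    have h4 : 2 * (2 * κ * c + b + n * a) ≤ Ag.card := by
      have h5 : 2 * n * (2 * (2 * κ * c + b + n * a)) ≤ 2 * n * Ag.card := by
        calc 2 * n * (2 * (2 * κ * c + b + n * a)) = 4 * n * (2 * κ * c + b + n * a) := by ring
          _ ≤ L := hnum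
          _ ≤ _ := hg
      exact Nat.le_of_mul_le_mul_left h5 (by omega)
    have h5 : (univ.filter (fun x => σ x ≠ φ g x)).card * (Ag.card - b - n * a) ≤ NB.card := by
      apply lower _ (fun P => Ag.filter (fun Q => nice P Q ∧ un (σ P) (σ Q) ≠ un P Q))
      · intro P hP
        have hP' : σ P ≠ φ g P := (mem_filter.1 hP).2
        have h6 : Ag ⊆ Ag.filter (fun Q => nice P Q ∧ un (σ P) (σ Q) ≠ un P Q) ∪
            (Reg.filter (fun Q => ¬ nice P Q) ∪
              (if P ∈ Mv then univ.filter (fun Q => nice P Q ∧ un (σ P) (σ Q) = un P Q)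
                else ∅)) := by
          intro Q hQ
          have hQ' := hQ
          rw [hAg, mem_filter] at hQ'
          by_cases h7 : nice P Q
          · by_cases h8 : un (σ P) (σ Q) = un P Q
            · apply mem_union_right
              apply mem_union_right
              split_ifs with h9
              · exact mem_filter.2 ⟨mem_univ _, h7, h8⟩
              · exfalso
                have h10 : ∃ h, σ P = φ h P := by
                  by_contra hcon
                  push Not at hcon
                  exact h9 (mem_filter.2 ⟨mem_univ _, hcon⟩)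
                obtain ⟨h, hh⟩ := h10
                obtain ⟨g', hg1, hg2⟩ := hW P Q (σ P) (σ Q) h7
                  (fun h => hne _ _ h7 (σ.injective h)) h8
                have h11 : φ (g'⁻¹ * h) P = P := by
                  apply N1 P Q h7
                  rw [map_mul, Equiv.Perm.mul_apply, ← hh]; exact hg1
                have h12 : φ (g'⁻¹ * g) Q = Q := by
                  apply N1' P Q h7
                  rw [map_mul, Equiv.Perm.mul_apply, ← hQ'.2]; exact hg2
                have h13 := hReg Q hQ'.1 _ h12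
                have h14 : g' = g := by
                  rw [inv_mul_eq_one] at h13; exact h13
                rw [map_mul, Equiv.Perm.mul_apply, ← hh, map_inv, Equiv.Perm.inv_eq_iff_eq,
                  h14] at h11
                exact hP' h11
            · exact mem_union_left _ (mem_filter.2 ⟨hQ, h7, h8⟩)
          · exact mem_union_right _ (mem_union_left _ (mem_filter.2 ⟨hQ'.1, h7⟩))
        have h7 := (card_le_card h6).trans ((card_union_le _ _).trans
          (Nat.add_le_add_left (card_union_le _ _) _))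
        have h8 := N3 P (Reg.filter (fun Q => ¬ nice P Q)) (fun Q hQ => mem_filter.1 hQ)
        have h9 : (if P ∈ Mv then univ.filter (fun Q => nice P Q ∧ un (σ P) (σ Q) = un P Q)
                else ∅).card ≤ n * a := by
          split_ifs with h10
          · exact good P h10
          · simp
        omega
      · intro P _ Q hQ
        exact (mem_filter.1 hQ).2
    refine le_trans (Nat.mul_le_mul_left _ ?_) h5
    generalize 2 * κ * c = z at *
    generalize n * a = z' at *
    omega

end H4Rig
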