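import Pool.Agent.Helpers.H4_DF6
import Pool.Agent.Helpers.H4_Rig2

set_option autoImplicit false

namespace H4DF

open Finset

lemma JData.map {q : ℕ} {N w e r k : ℕ} [Fact q.Prime] {Λ : Set (ZMod q)} {I I₂ : Type}
    [DecidableEq I₂]
    {J : Finset (ZMod q × I)} (hJ : JData N w e r k Λ J) (f : I → I₂)
    (hf : Function.Injective f) : JData N w e r k Λ (J.image (fun p => (p.1, f p.2))) := by
  classical
  have hinj : Function.Injective (fun p : ZMod q × I => (p.1, f p.2)) := by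
    rintro ⟨a, b⟩ ⟨c, d⟩ h
    simp only [Prod.mk.injEq] at h
    rw [h.1, hf h.2]
  have mem : ∀ σ ι, (σ, ι) ∈ J.image (fun p => (p.1, f p.2)) ↔ ∃ i, (σ, i) ∈ J ∧ ι = f i := by
    intro σ ι
    rw [mem_image]
    constructor
    · rintro ⟨⟨a, b⟩, h1, h2⟩
      simp only [Prod.mk.injEq] at h2
      obtain ⟨rfl, rfl⟩ := h2
      exact ⟨b, h1, rfl⟩
    · rintro ⟨i, h1, rfl⟩
      exact ⟨(σ, i), h1, rfl⟩
  constructor
  · rw [card_image_of_injective _ hinj, hJ.card]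
  · rintro ⟨σ, ι⟩ hp
    obtain ⟨i, h1, rfl⟩ := (mem _ _).1 hp
    exact (mem _ _).2 ⟨i, hJ.neg _ h1, rfl⟩
  · intro σ σ' ι h1 h2
    obtain ⟨i, k1, rfl⟩ := (mem _ _).1 h1
    obtain ⟨i', k2, h3⟩ := (mem _ _).1 h2
    have := hf h3
    subst this
    exact hJ.same _ _ _ k1 k2
  · intro σ σ' ι ι' h1 h2 hne
    obtain ⟨i, k1, rfl⟩ := (mem _ _).1 h1
    obtain ⟨i', k2, rfl⟩ := (mem _ _).1 h2
    exact hJ.diff _ _ _ _ k1 k2 (fun h => hne (by rw [h]))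
  · intro σ σ' σ₁ σ₁' ι ι' a h1 h2 h3 h4 hne ha heq
    obtain ⟨i, k1, rfl⟩ := (mem _ _).1 h1
    obtain ⟨i', k2, rfl⟩ := (mem _ _).1 h2
    obtain ⟨j, k3, e3⟩ := (mem _ _).1 h3
    obtain ⟨j', k4, e4⟩ := (mem _ _).1 h4
    have := hf e3
    subst this
    have := hf e4
    subst this
    exact hJ.gen _ _ _ _ _ _ a k1 k2 k3 k4 (fun h => hne (by rw [h])) ha heq
  · intro s hs
    obtain ⟨p, hp, l, hl, a, ha, h⟩ := hJ.ex s hs
    exact ⟨(p.1, f p.2), mem_image_of_mem _ hp, l, hl, a, ha, h⟩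
  · rintro ⟨σ, ι⟩ hp ⟨σ', ι'⟩ hp' h0 h0' l hl l' hl' a a' ha ha' heq
    obtain ⟨i, h1, rfl⟩ := (mem _ _).1 hp
    obtain ⟨i', h2, rfl⟩ := (mem _ _).1 hp'
    have := hJ.uniq _ h1 _ h2 h0 h0' l hl l' hl' a a' ha ha' heq
    exact ⟨by rw [show i = i' from this.1], this.2⟩
  · exact hJ.ne0
  · exact hJ.nneg
  · exact hJ.left

/-- All the data needed for the construction of the designs. -/
structure DD (k q : ℕ) [Fact q.Prime] (G : Type*) (I : Type) [Group G] [DecidableEq G]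
    [Fintype G] [Fintype I] [DecidableEq I] (K : Finset I) where
  Sp : Set (Finset ((G → ZMod q) × (I → ZMod q)))
  R2 : Set ((G → ZMod q) × (I → ZMod q))
  Φ : (G → ZMod q) × (I → ZMod q) → Set (Finset (ZMod q))
  sp_card : ∀ B ∈ Sp, B.card = k
  sp_uniq : ∀ B ∈ Sp, ∀ B' ∈ Sp, ∀ x ∈ B, ∀ y ∈ B, ∀ x' ∈ B', ∀ y' ∈ B', x ≠ y →
    y - x = y' - x' → B = B' ∧ x = x'
  sp_ex : ∀ m : G → ZMod q, m ≠ 0 → (m, (0 : I → ZMod q)) ∈ Dl Sp
  sp_inv : ∀ g : G, ∀ B ∈ Sp, B.image (fun x => (act g x.1, x.2)) ∈ Sp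
  r_ne : ∀ u ∈ R2, u.2 ≠ 0
  r_inv : ∀ g : G, ∀ u ∈ R2, (act g u.1, u.2) ∈ R2
  r_ex : ∀ v : (G → ZMod q) × (I → ZMod q), v.2 ≠ 0 → ∃ y : ZMod q, y ≠ 0 ∧ ∃ u ∈ R2, v = y • u
  r_un : ∀ u ∈ R2, ∀ u' ∈ R2, ∀ y y' : ZMod q, y ≠ 0 → y • u = y' • u' → y = y' ∧ u = u'
  φ_DF : ∀ u ∈ R2, IsDF k {y | y ≠ 0 ∧ y • u ∉ Dl Sp} (Φ u)
  φ_inv : ∀ g : G, ∀ u ∈ R2, Φ (act g u.1, u.2) = Φ u
  aff : ∀ d ∈ Dl Sp, d.2 ≠ 0 → ∃ c : ZMod q, ∃ i ∈ K, ∃ i' ∈ K, d.2 = c • (ev q i' - ev q i)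

theorem exists_DD (k : ℕ) (hk : 2 ≤ k) (G : Type*) [Group G] [DecidableEq G] [Fintype G] :
    ∃ (q : ℕ) (_ : Fact q.Prime) (h : ℕ), 4 * Fintype.card G ≤ q ∧ ∀ t : ℕ,
      Nonempty (DD k q G (Option (Fin h) ⊕ Fin t) (univ.image Sum.inl)) := by
  classical
  set e := 2 * Fintype.card G with he
  have hG0 : 0 < Fintype.card G := Fintype.card_pos
  set h := k / 2 with hh
  have hh0 : 0 < h := by omega
  set r := k * (k - 1) with hr
  have hr0 : 0 < r := Nat.mul_pos (by omega) (by omega)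
  set N := e * h * r with hN
  have he0 : 0 < e := by omega
  have heven : Even e := ⟨Fintype.card G, by rw [he]; ring⟩
  have hNeven : Even N := by rw [hN]; exact (heven.mul_right h).mul_right r
  have hN0 : 0 < N := Nat.mul_pos (Nat.mul_pos he0 hh0) hr0
  obtain ⟨Q1, hQ1⟩ := exists_DF N k hN0
  obtain ⟨Q2, hQ2⟩ := exists_J N e h r k hN heven he0 hh0 hr0 (by omega)
  obtain ⟨q, w, hG, hq⟩ := exists_good N hNeven hN0 (max (4 * Fintype.card G) (max Q1 Q2))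
  have : Fact q.Prime := ⟨hG.prime⟩
  have hq0 : 4 * Fintype.card G < q := lt_of_le_of_lt (le_max_left _ _) hq
  have hq1 : Q1 < q := lt_of_le_of_lt ((le_max_left _ _).trans (le_max_right _ _)) hq
  have hq2 : Q2 < q := lt_of_le_of_lt ((le_max_right _ _).trans (le_max_right _ _)) hq
  refine ⟨q, ⟨hG.prime⟩, h, hq0.le, ?_⟩
  intro t
  obtain ⟨Λ, J₀, hJ₀⟩ := hQ2 q w hG hq2
  set J := J₀.image (fun p => (p.1, (Sum.inl p.2 : Option (Fin h) ⊕ Fin t))) with hJdef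
  have hJ : JData N w e r k Λ J := hJ₀.map _ Sum.inl_injective
  obtain ⟨R, hR0, hRact, hRex, hRsmul, hRone⟩ := exists_R (G := G) (F := ZMod q) e
    ⟨2, by rw [he]; ring⟩
  obtain ⟨R2, hR20, hR2act, hR2ex, hR2un⟩ :=
    exists_R2 (G := G) (F := ZMod q) (Option (Fin h) ⊕ Fin t)
  set D := Dl (Sp Λ J R) with hD
  let S : (G → ZMod q) × (Option (Fin h) ⊕ Fin t → ZMod q) → Set (ZMod q) :=
    fun u => {y | y ≠ 0 ∧ y • u ∉ D}
  let Φ : Set (ZMod q) → Set (Finset (ZMod q)) := fun S =>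
    if h : ∃ F, IsDF k S F then h.choose else ∅
  have hΦ : ∀ u, u.2 ≠ 0 → IsDF k (S u) (Φ (S u)) := by
    intro u hu
    obtain ⟨T, hT1, hT2, ⟨c, hT3⟩, hT4⟩ := Sp_left (R := R) hG hJ u hu (e * h)
      (by rw [hN, hr]; ring) (e * h - 2) (by
        have h2 : 2 ≤ e * h := by nlinarith
        have : k * (k - 1) * (e * h - 2) + 2 * (k * (k - 1)) = k * (k - 1) * (e * h - 2 + 2) := by
          ring
        rw [hN, hr, this, Nat.sub_add_cancel h2]; ring)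
    have hex : ∃ F, IsDF k (S u) F := by
      obtain ⟨F, hF⟩ := hQ1 q w hG hq1 T hT1 hT2 c hT3
      rw [hT4] at hF
      exact ⟨F, hF⟩
    have : Φ (S u) = hex.choose := dif_pos hex
    rw [this]
    exact hex.choose_spec
  have hDinv1 : ∀ (g : G) d, d ∈ D → (act g d.1, d.2) ∈ D := by
    rintro g d ⟨B, hB, x, hx, y, hy, hxy, rfl⟩
    refine ⟨_, Sp_inv hRact g B hB, _, mem_image_of_mem _ hx, _, mem_image_of_mem _ hy, ?_, ?_⟩
    · intro h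
      apply hxy
      rw [Prod.mk.injEq] at h
      exact Prod.ext (act_inj g h.1) h.2
    · rfl
  have hSinv : ∀ (g : G) u, S (act g u.1, u.2) = S u := by
    intro g u
    ext y
    show (y ≠ 0 ∧ y • ((act g u.1, u.2) : (G → ZMod q) × (Option (Fin h) ⊕ Fin t → ZMod q)) ∉ D) ↔
      (y ≠ 0 ∧ y • u ∉ D)
    have h1 : y • ((act g u.1, u.2) : (G → ZMod q) × (Option (Fin h) ⊕ Fin t → ZMod q))
        = (act g (y • u).1, (y • u).2) := rfl
    rw [h1]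
    constructor
    · rintro ⟨h2, h3⟩; exact ⟨h2, fun h4 => h3 (hDinv1 g _ h4)⟩
    · rintro ⟨h2, h3⟩
      refine ⟨h2, fun h4 => h3 ?_⟩
      have h5 := hDinv1 g⁻¹ _ h4
      dsimp only at h5
      rwa [← act_mul, inv_mul_cancel, act_one] at h5
  exact ⟨{
    Sp := Sp Λ J R
    R2 := R2
    Φ := fun u => Φ (S u)
    sp_card := Sp_card hJ hR0
    sp_uniq := Sp_uniq hJ hR0 hRone
    sp_ex := Sp_ex hJ hRex hRsmul
    sp_inv := Sp_inv hRact
    r_ne := hR20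
    r_inv := hR2act
    r_ex := hR2ex
    r_un := hR2un
    φ_DF := fun u hu => hΦ u (hR20 u hu)
    φ_inv := fun g u _ => by
      show Φ (S (act g u.1, u.2)) = Φ (S u)
      rw [hSinv]
    aff := by
      rintro d ⟨B, ⟨v, hv, l, hl, rfl⟩, x, hx, y, hy, hxy, rfl⟩ hd
      unfold bl at hx hy
      rw [mem_image] at hx hy
      obtain ⟨⟨σ, i⟩, hp, rfl⟩ := hx
      obtain ⟨⟨σ', i'⟩, hp', rfl⟩ := hy
      have hK : ∀ σ i, (σ, i) ∈ J → i ∈ (univ : Finset (Option (Fin h))).image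
          (Sum.inl : _ → Option (Fin h) ⊕ Fin t) := by
        intro σ i hp
        rw [hJdef, mem_image] at hp
        obtain ⟨p, _, h2⟩ := hp
        rw [Prod.mk.injEq] at h2
        rw [← h2.2]
        exact mem_image_of_mem _ (mem_univ _)
      refine ⟨l, i, hK _ _ hp, i', hK _ _ hp', ?_⟩
      simp only [pt, Prod.snd_sub]
      rw [smul_sub] }⟩

end H4DF
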