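import Pool.Agent.Helpers.H4_Ex1

set_option autoImplicit false

namespace H4DF

open Finset

lemma exists_class {α : Type*} [Finite α] (r : α → α → Prop) (hr : Equivalence r) :
    ∃ (M : ℕ) (f : α → Fin M), ∀ a b, f a = f b ↔ r a b := by
  let s : Setoid α := ⟨r, hr⟩
  have : Finite (Quotient s) := inferInstance
  obtain ⟨M, ⟨e⟩⟩ := Finite.exists_equiv_fin (Quotient s)
  refine ⟨M, fun a => e (Quotient.mk s a), fun a b => ?_⟩
  rw [e.injective.eq_iff]
  exact Quotient.eq (r := s)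

section

set_option linter.unusedSectionVars false

variable {k q : ℕ} [Fact q.Prime] {G : Type*} {I : Type} [Group G] [DecidableEq G] [Fintype G]
    [Fintype I] [DecidableEq I] {K : Finset I} (D : DD k q G I K)

/-- the action on points -/
def ac (g : G) (x : (G → ZMod q) × (I → ZMod q)) : (G → ZMod q) × (I → ZMod q) :=
  (act g x.1, x.2)

lemma ac_add (g : G) (x y : (G → ZMod q) × (I → ZMod q)) : ac g (x + y) = ac g x + ac g y := rfl
lemma ac_sub (g : G) (x y : (G → ZMod q) × (I → ZMod q)) : ac g (x - y) = ac g x - ac g y := rfl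
lemma ac_smul (g : G) (t : ZMod q) (x : (G → ZMod q) × (I → ZMod q)) :
    ac g (t • x) = t • ac g x := rfl
lemma ac_mul (g h : G) (x : (G → ZMod q) × (I → ZMod q)) : ac (g * h) x = ac g (ac h x) :=
  Prod.ext (act_mul _ _ _) rfl
lemma ac_one (x : (G → ZMod q) × (I → ZMod q)) : ac (1 : G) x = x := Prod.ext (act_one _) rfl
lemma ac_inv_ac (g : G) (x : (G → ZMod q) × (I → ZMod q)) : ac g⁻¹ (ac g x) = x := by
  rw [← ac_mul, inv_mul_cancel, ac_one]
lemma ac_ac_inv (g : G) (x : (G → ZMod q) × (I → ZMod q)) : ac g (ac g⁻¹ x) = x := by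
  rw [← ac_mul, mul_inv_cancel, ac_one]
lemma ac_snd (g : G) (x : (G → ZMod q) × (I → ZMod q)) : (ac g x).2 = x.2 := rfl
lemma ac_inj (g : G) {x y : (G → ZMod q) × (I → ZMod q)} (h : ac g x = ac g y) : x = y := by
  have := congrArg (ac g⁻¹) h
  rwa [ac_inv_ac, ac_inv_ac] at this

/-- the relation of lines to be in one orbit -/
def lrel (a b : ((G → ZMod q) × (I → ZMod q)) × ((G → ZMod q) × (I → ZMod q))) : Prop :=
  ∃ g : G, b.1 = ac g a.1 ∧ ∃ t : ZMod q, b.2 = ac g a.2 + t • b.1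

lemma lrel_equiv : Equivalence (lrel (q := q) (G := G) (I := I)) := by
  constructor
  · intro a
    exact ⟨1, (ac_one _).symm, 0, by rw [ac_one, zero_smul, add_zero]⟩
  · rintro ⟨u, x⟩ ⟨u', x'⟩ ⟨g, h1, t, h2⟩
    dsimp only at h1 h2
    refine ⟨g⁻¹, ?_, -t, ?_⟩
    · dsimp only; rw [h1, ac_inv_ac]
    · dsimp only
      rw [h2, ac_add, ac_smul, ac_inv_ac, h1, ac_inv_ac]
      rw [neg_smul]; abel
  · rintro ⟨u, x⟩ ⟨u', x'⟩ ⟨u'', x''⟩ ⟨g, h1, t, h2⟩ ⟨g', h3, t', h4⟩
    dsimp only at h1 h2 h3 h4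
    refine ⟨g' * g, ?_, t' + t, ?_⟩
    · dsimp only; rw [h3, h1, ac_mul]
    · dsimp only
      rw [h4, h2, ac_add, ac_smul, ← h3, ac_mul, add_smul]; abel

variable {M : ℕ} (o : ((G → ZMod q) × (I → ZMod q)) × ((G → ZMod q) × (I → ZMod q)) → Fin M)
  (ho : ∀ a b, o a = o b ↔ lrel a b)

/-- directions all of whose multiples are not covered by special blocks -/
def Free (u : (G → ZMod q) × (I → ZMod q)) : Prop := ∀ y : ZMod q, y ≠ 0 → y • u ∉ Dl D.Sp

open Classical in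
/-- the sign -/
noncomputable def sg (ε : Fin M → Bool) (u x : (G → ZMod q) × (I → ZMod q)) : ZMod q :=
  if Free D u ∧ ε (o (u, x)) = true then -1 else 1

/-- a block on a line -/
def lb (C : Finset (ZMod q)) (s : ZMod q) (u x : (G → ZMod q) × (I → ZMod q)) :
    Finset ((G → ZMod q) × (I → ZMod q)) := C.image (fun y => (s * y) • u + x)

/-- the blocks -/
def XX (ε : Fin M → Bool) : Set (Finset ((G → ZMod q) × (I → ZMod q))) :=
  {B | (∃ B₀ ∈ D.Sp, ∃ x, B = B₀.image (fun z => z + x)) ∨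
    (∃ u ∈ D.R2, ∃ C ∈ D.Φ u, ∃ x, B = lb C (sg D o ε u x) u x)}

lemma sg_or (ε : Fin M → Bool) (u x : (G → ZMod q) × (I → ZMod q)) :
    sg D o ε u x = 1 ∨ (sg D o ε u x = -1 ∧ Free D u) := by
  unfold sg
  split_ifs with h
  · exact Or.inr ⟨rfl, h.1⟩
  · exact Or.inl rfl

lemma sg_sq (ε : Fin M → Bool) (u x : (G → ZMod q) × (I → ZMod q)) :
    sg D o ε u x * sg D o ε u x = 1 := by
  rcases sg_or D o ε u x with h | ⟨h, _⟩ <;> rw [h] <;> ring

lemma sg_ne (ε : Fin M → Bool) (u x : (G → ZMod q) × (I → ZMod q)) :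
    sg D o ε u x ≠ 0 := by
  intro h
  have := sg_sq D o ε u x
  rw [h, zero_mul] at this
  exact zero_ne_one this

include ho in
lemma sg_line (ε : Fin M → Bool) (u x x' : (G → ZMod q) × (I → ZMod q)) (t : ZMod q)
    (h : x' = x + t • u) : sg D o ε u x' = sg D o ε u x := by
  have : o (u, x') = o (u, x) := by
    rw [ho]
    refine ⟨1, (ac_one _).symm, -t, ?_⟩
    dsimp only
    rw [ac_one, h, neg_smul]; abel
  unfold sg
  rw [this]

lemma u_ne (u : (G → ZMod q) × (I → ZMod q)) (hu : u ∈ D.R2) : u ≠ 0 := by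
  rintro rfl
  exact D.r_ne _ hu rfl

/-- a line block gives a difference not covered by special blocks -/
lemma diff_not (ε : Fin M → Bool) (u : (G → ZMod q) × (I → ZMod q)) (hu : u ∈ D.R2)
    (C : Finset (ZMod q)) (hC : C ∈ D.Φ u)
    (x : (G → ZMod q) × (I → ZMod q)) (a b : ZMod q) (ha : a ∈ C) (hb : b ∈ C) (hab : a ≠ b) :
    (sg D o ε u x * (b - a)) • u ∉ Dl D.Sp := by
  have h1 := (D.φ_DF u hu).mem C hC a ha b hb hab
  rcases sg_or D o ε u x with h | ⟨h, h2⟩
  · rw [h, one_mul]; exact h1.2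
  · rw [h]; exact h2 _ (mul_ne_zero (neg_ne_zero.2 one_ne_zero) h1.1)

/-- what a block through two points looks like -/
lemma through (ε : Fin M → Bool) (P Q : (G → ZMod q) × (I → ZMod q)) (hPQ : P ≠ Q)
    (B : Finset ((G → ZMod q) × (I → ZMod q))) (hB : B ∈ XX D o ε) (hP : P ∈ B) (hQ : Q ∈ B) :
    (Q - P ∈ Dl D.Sp ∧ ∃ B₀ ∈ D.Sp, ∃ x, B = B₀.image (fun z => z + x)) ∨
    (Q - P ∉ Dl D.Sp ∧ ∃ u ∈ D.R2, ∃ C ∈ D.Φ u, ∃ x, B = lb C (sg D o ε u x) u x ∧
      ∃ a ∈ C, ∃ b ∈ C, a ≠ b ∧ P = (sg D o ε u x * a) • u + x ∧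
        Q = (sg D o ε u x * b) • u + x) := by
  rcases hB with ⟨B₀, hB₀, x, rfl⟩ | ⟨u, hu, C, hC, x, rfl⟩
  · left
    refine ⟨?_, B₀, hB₀, x, rfl⟩
    rw [mem_image] at hP hQ
    obtain ⟨a, ha, rfl⟩ := hP
    obtain ⟨b, hb, rfl⟩ := hQ
    refine ⟨B₀, hB₀, a, ha, b, hb, ?_, by abel⟩
    rintro rfl; exact hPQ rfl
  · right
    have hP' := hP
    have hQ' := hQ
    unfold lb at hP hQ
    rw [mem_image] at hP hQ
    obtain ⟨a, ha, h1⟩ := hP
    obtain ⟨b, hb, h2⟩ := hQ
    have hab : a ≠ b := by rintro rfl; exact hPQ (h1.symm.trans h2)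
    refine ⟨?_, u, hu, C, hC, x, rfl, a, ha, b, hb, hab, h1.symm, h2.symm⟩
    have : Q - P = (sg D o ε u x * (b - a)) • u := by
      rw [← h1, ← h2, mul_sub, sub_smul]; abel
    rw [this]
    exact diff_not D o ε u hu C hC x a b ha hb hab

include ho in
lemma XX_ex (ε : Fin M → Bool) (P Q : (G → ZMod q) × (I → ZMod q)) (hPQ : P ≠ Q) :
    ∃ B ∈ XX D o ε, P ∈ B ∧ Q ∈ B := by
  by_cases hd : Q - P ∈ Dl D.Sp
  · obtain ⟨B₀, hB₀, a, ha, b, hb, _, hab⟩ := hd
    refine ⟨B₀.image (fun z => z + (P - a)), Or.inl ⟨B₀, hB₀, _, rfl⟩, ?_, ?_⟩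
    · exact mem_image.2 ⟨a, ha, by abel⟩
    · refine mem_image.2 ⟨b, hb, ?_⟩
      have : b = (Q - P) + a := by rw [← hab]; abel
      rw [this]; abel
  · have hd0 : Q - P ≠ 0 := sub_ne_zero.2 hPQ.symm
    have hd2 : (Q - P).2 ≠ 0 := by
      intro h2
      apply hd
      have h1 : (Q - P).1 ≠ 0 := fun h1 => hd0 (Prod.ext h1 h2)
      have := D.sp_ex _ h1
      have e : ((Q - P).1, (0 : I → ZMod q)) = Q - P := Prod.ext rfl h2.symm
      rwa [e] at this
    obtain ⟨y, hy, u, hu, hyu⟩ := D.r_ex _ hd2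
    set s := sg D o ε u P with hs
    have hss : s * s = 1 := sg_sq D o ε u P
    have hmem : s * y ∈ {y : ZMod q | y ≠ 0 ∧ y • u ∉ Dl D.Sp} := by
      refine ⟨mul_ne_zero (sg_ne D o ε u P) hy, ?_⟩
      rcases sg_or D o ε u P with h | ⟨h, h2⟩
      · rw [hs, h, one_mul, ← hyu]; exact hd
      · exact h2 _ (mul_ne_zero (sg_ne D o ε u P) hy)
    obtain ⟨C, hC, a, ha, b, hb, hab⟩ := (D.φ_DF u hu).ex _ hmem
    have hsx : sg D o ε u (P - (s * a) • u) = s := by
      rw [hs]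
      apply sg_line D o ho ε u P _ (-(s * a))
      rw [neg_smul]; abel
    refine ⟨lb C (sg D o ε u (P - (s * a) • u)) u (P - (s * a) • u),
      Or.inr ⟨u, hu, C, hC, _, rfl⟩, ?_, ?_⟩
    · rw [hsx]
      exact mem_image.2 ⟨a, ha, by abel⟩
    · rw [hsx]
      refine mem_image.2 ⟨b, hb, ?_⟩
      have e1 : s * b = s * a + y := by
        calc s * b = s * a + s * (b - a) := by ring
          _ = s * a + s * s * y := by rw [hab]; ring
          _ = s * a + y := by rw [hss, one_mul]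
      rw [e1, add_smul, ← hyu]; abel

include ho in
lemma XX_uniq (ε : Fin M → Bool) (P Q : (G → ZMod q) × (I → ZMod q)) (hPQ : P ≠ Q)
    (B B' : Finset ((G → ZMod q) × (I → ZMod q))) (hB : B ∈ XX D o ε) (hP : P ∈ B) (hQ : Q ∈ B)
    (hB' : B' ∈ XX D o ε) (hP' : P ∈ B') (hQ' : Q ∈ B') : B = B' := by
  rcases through D o ε P Q hPQ B hB hP hQ with ⟨hd, B₀, hB₀, x, rfl⟩ |
    ⟨hd, u, hu, C, hC, x, rfl, a, ha, b, hb, hab, h1, h2⟩
  · rcases through D o ε P Q hPQ B' hB' hP' hQ' with ⟨_, B₀', hB₀', x', rfl⟩ | ⟨hd', _⟩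
    · rw [mem_image] at hP hQ hP' hQ'
      obtain ⟨a, ha, h1⟩ := hP
      obtain ⟨b, hb, h2⟩ := hQ
      obtain ⟨a', ha', h3⟩ := hP'
      obtain ⟨b', hb', h4⟩ := hQ'
      have hne : a ≠ b := by rintro rfl; exact hPQ (h1.symm.trans h2)
      have e1 : b - a = b' - a' := by
        have e2 : b - a = Q - P := by rw [← h1, ← h2]; abel
        have e3 : b' - a' = Q - P := by rw [← h3, ← h4]; abel
        rw [e2, e3]
      obtain ⟨rfl, rfl⟩ := D.sp_uniq _ hB₀ _ hB₀' _ ha _ hb _ ha' _ hb' hne e1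
      have : x = x' := add_left_cancel (h1.trans h3.symm)
      rw [this]
    · exact absurd hd hd'
  · rcases through D o ε P Q hPQ B' hB' hP' hQ' with ⟨hd', _⟩ |
      ⟨_, u', hu', C', hC', x', rfl, a', ha', b', hb', hab', h3, h4⟩
    · exact absurd hd' hd
    · set s := sg D o ε u x with hs
      set s' := sg D o ε u' x' with hs'
      have e1 : (s * (b - a)) • u = (s' * (b' - a')) • u' := by
        have e2 : (s * (b - a)) • u = Q - P := by
          rw [h1, h2, mul_sub, sub_smul]; abel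
        have e3 : (s' * (b' - a')) • u' = Q - P := by
          rw [h3, h4, mul_sub, sub_smul]; abel
        rw [e2, e3]
      have hne : s * (b - a) ≠ 0 := mul_ne_zero (sg_ne D o ε u x) (sub_ne_zero.2 hab.symm)
      obtain ⟨e4, rfl⟩ := D.r_un _ hu _ hu' _ _ hne e1
      have hss : s' = s := by
        rw [hs, hs']
        apply sg_line D o ho ε u x x' (s * a - s' * a')
        have : x' = P - (s' * a') • u := by rw [h3]; abel
        rw [this, h1, sub_smul]; abel
      rw [hss] at e4 h3 ⊢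
      have e5 : b - a = b' - a' := mul_left_cancel₀ (sg_ne D o ε u x) e4
      obtain ⟨rfl, rfl⟩ := (D.φ_DF u hu).uniq _ hC _ hC' _ ha _ hb _ ha' _ hb' hab e5
      have : x = x' := add_left_cancel (h1.symm.trans h3)
      rw [this]

lemma XX_card (ε : Fin M → Bool) (B : Finset ((G → ZMod q) × (I → ZMod q)))
    (hB : B ∈ XX D o ε) : B.card = k := by
  rcases hB with ⟨B₀, hB₀, x, rfl⟩ | ⟨u, hu, C, hC, x, rfl⟩
  · rw [card_image_of_injective _ (add_left_injective x), D.sp_card _ hB₀]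
  · unfold lb
    rw [card_image_of_injective, (D.φ_DF u hu).card C hC]
    intro y y' h
    have h1 : (sg D o ε u x * y) • u = (sg D o ε u x * y') • u := add_right_cancel h
    have h2 := smul_left_injective (ZMod q) (u_ne D u hu) h1
    exact mul_left_cancel₀ (sg_ne D o ε u x) h2

lemma Dl_inv (g : G) (d : (G → ZMod q) × (I → ZMod q)) (hd : d ∈ Dl D.Sp) :
    ac g d ∈ Dl D.Sp := by
  obtain ⟨B, hB, x, hx, y, hy, hxy, rfl⟩ := hd
  exact ⟨_, D.sp_inv g B hB, _, mem_image_of_mem _ hx, _, mem_image_of_mem _ hy,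
    fun h => hxy (ac_inj g h), rfl⟩

lemma Free_inv (g : G) (u : (G → ZMod q) × (I → ZMod q)) (hu : Free D u) : Free D (ac g u) := by
  intro y hy h
  apply hu y hy
  have := Dl_inv D g⁻¹ _ h
  rwa [ac_smul, ac_inv_ac] at this

lemma Free_iff (g : G) (u : (G → ZMod q) × (I → ZMod q)) : Free D (ac g u) ↔ Free D u := by
  constructor
  · intro h
    have := Free_inv D g⁻¹ _ h
    rwa [ac_inv_ac] at this
  · exact Free_inv D g u

include ho in
lemma sg_inv (ε : Fin M → Bool) (g : G) (u x : (G → ZMod q) × (I → ZMod q)) :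
    sg D o ε (ac g u) (ac g x) = sg D o ε u x := by
  have : o (ac g u, ac g x) = o (u, x) := by
    symm
    rw [ho]
    exact ⟨g, rfl, 0, by dsimp only; rw [zero_smul, add_zero]⟩
  unfold sg
  rw [this, Free_iff]

include ho in
lemma XX_inv1 (ε : Fin M → Bool) (g : G) (B : Finset ((G → ZMod q) × (I → ZMod q)))
    (hB : B ∈ XX D o ε) : B.image (ac g) ∈ XX D o ε := by
  rcases hB with ⟨B₀, hB₀, x, rfl⟩ | ⟨u, hu, C, hC, x, rfl⟩
  · left
    refine ⟨_, D.sp_inv g B₀ hB₀, ac g x, ?_⟩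
    rw [image_image, image_image]
    rfl
  · right
    refine ⟨ac g u, D.r_inv g u hu, C, ?_, ac g x, ?_⟩
    · show C ∈ D.Φ (act g u.1, u.2)
      rw [D.φ_inv g u hu]; exact hC
    · rw [sg_inv D o ho]
      unfold lb
      rw [image_image]
      rfl

include ho in
lemma XX_inv (ε : Fin M → Bool) (g : G) :
    H4Rig.IsAut (XX D o ε) (psi G (ZMod q) (I → ZMod q) g) := by
  intro B
  have h1 : ∀ (g : G) (B : Finset ((G → ZMod q) × (I → ZMod q))),
      B.map (psi G (ZMod q) (I → ZMod q) g).toEmbedding = B.image (ac g) := by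
    intro g B
    rw [map_eq_image]; rfl
  rw [h1]
  constructor
  · exact XX_inv1 D o ho ε g B
  · intro h
    have h2 := XX_inv1 D o ho ε g⁻¹ _ h
    rw [image_image] at h2
    have : (ac (q := q) (I := I) g⁻¹) ∘ (ac g) = id := by
      funext x; exact ac_inv_ac g x
    rwa [this, image_id] at h2

/-- the direction of a vector -/
noncomputable def dir (v : (G → ZMod q) × (I → ZMod q)) : (G → ZMod q) × (I → ZMod q) := by
  classical
  exact if h : v.2 ≠ 0 then (D.r_ex v h).choose_spec.2.choose else 0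

lemma dir_spec (v : (G → ZMod q) × (I → ZMod q)) (h : v.2 ≠ 0) :
    dir D v ∈ D.R2 ∧ ∃ y : ZMod q, y ≠ 0 ∧ v = y • dir D v := by
  have h1 : dir D v = (D.r_ex v h).choose_spec.2.choose := by
    unfold dir
    rw [dif_pos h]
  rw [h1]
  exact ⟨(D.r_ex v h).choose_spec.2.choose_spec.1, _, (D.r_ex v h).choose_spec.1,
    (D.r_ex v h).choose_spec.2.choose_spec.2⟩

lemma dir_eq (u : (G → ZMod q) × (I → ZMod q)) (hu : u ∈ D.R2) (y : ZMod q) (hy : y ≠ 0) :
    dir D (y • u) = u := by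
  have h : (y • u).2 ≠ 0 := smul_ne_zero hy (D.r_ne u hu)
  obtain ⟨h1, y', hy', h2⟩ := dir_spec D (y • u) h
  exact (D.r_un u hu _ h1 y y' hy h2).2.symm

open Classical in
/-- the unit of a pair -/
noncomputable def un (P Q : (G → ZMod q) × (I → ZMod q)) : Option (Fin M) :=
  if (Q - P).2 ≠ 0 ∧ Free D (dir D (Q - P)) then some (o (dir D (Q - P), P)) else none

lemma un_some (P Q : (G → ZMod q) × (I → ZMod q)) (i : Fin M) :
    un D o P Q = some i ↔ (Q - P).2 ≠ 0 ∧ Free D (dir D (Q - P)) ∧ o (dir D (Q - P), P) = i := by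
  unfold un
  split_ifs with h
  · rw [Option.some.injEq]; exact ⟨fun h' => ⟨h.1, h.2, h'⟩, fun h' => h'.2.2⟩
  · constructor
    · intro h'; cases h'
    · intro h'; exact absurd ⟨h'.1, h'.2.1⟩ h

include ho in
lemma XX_loc (ε ε' : Fin M → Bool) (P Q : (G → ZMod q) × (I → ZMod q)) (hPQ : P ≠ Q)
    (hag : ∀ i, un D o P Q = some i → ε i = ε' i)
    (B : Finset ((G → ZMod q) × (I → ZMod q))) (hB : B ∈ XX D o ε) (hP : P ∈ B) (hQ : Q ∈ B) :
    B ∈ XX D o ε' := by
  rcases through D o ε P Q hPQ B hB hP hQ with ⟨hd, B₀, hB₀, x, rfl⟩ |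
    ⟨hd, u, hu, C, hC, x, rfl, a, ha, b, hb, hab, h1, h2⟩
  · exact Or.inl ⟨B₀, hB₀, x, rfl⟩
  · right
    refine ⟨u, hu, C, hC, x, ?_⟩
    have hne : sg D o ε u x * (b - a) ≠ 0 :=
      mul_ne_zero (sg_ne D o ε u x) (sub_ne_zero.2 hab.symm)
    have e2 : Q - P = (sg D o ε u x * (b - a)) • u := by
      rw [h1, h2, mul_sub, sub_smul]; abel
    suffices h : sg D o ε u x = sg D o ε' u x by rw [h]
    by_cases hf : Free D u
    · have hu1 : un D o P Q = some (o (u, P)) := by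
        rw [un_some]
        rw [e2, dir_eq D u hu _ hne]
        exact ⟨smul_ne_zero hne (D.r_ne u hu), hf, rfl⟩
      have h3 := hag _ hu1
      have h4 : o (u, P) = o (u, x) := by
        rw [ho]
        refine ⟨1, (ac_one _).symm, -(sg D o ε u x * a), ?_⟩
        dsimp only
        rw [ac_one, h1, neg_smul]; abel
      rw [h4] at h3
      unfold sg
      rw [h3]
    · unfold sg
      rw [if_neg (fun h => hf h.1), if_neg (fun h => hf h.1)]

include ho in
lemma XX_sw (hk : 3 ≤ k) (ε ε' : Fin M → Bool) (P Q : (G → ZMod q) × (I → ZMod q)) (i : Fin M)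
    (hPQ : P ≠ Q) (hi : un D o P Q = some i) (hne : ε i ≠ ε' i)
    (B : Finset ((G → ZMod q) × (I → ZMod q))) (hB : B ∈ XX D o ε) (hP : P ∈ B) (hQ : Q ∈ B) :
    B ∉ XX D o ε' := by
  intro hB'
  rw [un_some] at hi
  obtain ⟨hi1, hi2, hi3⟩ := hi
  have hnd : Q - P ∉ Dl D.Sp := by
    obtain ⟨_, y, hy, h2⟩ := dir_spec D (Q - P) hi1
    rw [h2]; exact hi2 y hy
  rcases through D o ε P Q hPQ B hB hP hQ with ⟨hd, _⟩ |
    ⟨_, u, hu, C, hC, x, hBe, a, ha, b, hb, hab, h1, h2⟩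
  · exact hnd hd
  rcases through D o ε' P Q hPQ B hB' hP hQ with ⟨hd, _⟩ |
    ⟨_, u', hu', C', hC', x', hBe', a', ha', b', hb', hab', h1', h2'⟩
  · exact hnd hd
  set s := sg D o ε u x with hs
  set s' := sg D o ε' u' x' with hs'
  have hn1 : s * (b - a) ≠ 0 := mul_ne_zero (sg_ne D o ε u x) (sub_ne_zero.2 hab.symm)
  have hn2 : s' * (b' - a') ≠ 0 := mul_ne_zero (sg_ne D o ε' u' x') (sub_ne_zero.2 hab'.symm)
  have e1 : Q - P = (s * (b - a)) • u := by rw [h1, h2, mul_sub, sub_smul]; abel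
  have e1' : Q - P = (s' * (b' - a')) • u' := by rw [h1', h2', mul_sub, sub_smul]; abel
  have hdu : dir D (Q - P) = u := by rw [e1, dir_eq D u hu _ hn1]
  have hdu' : dir D (Q - P) = u' := by rw [e1', dir_eq D u' hu' _ hn2]
  have huu : u' = u := hdu'.symm.trans hdu
  subst huu
  rw [hdu'] at hi2 hi3
  -- signs
  have ox : o (u', x) = i := by
    rw [← hi3, ho]
    exact ⟨1, (ac_one _).symm, s * a, by dsimp only; rw [ac_one, h1]; abel⟩
  have ox' : o (u', x') = i := by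
    rw [← hi3, ho]
    exact ⟨1, (ac_one _).symm, s' * a', by dsimp only; rw [ac_one, h1']; abel⟩
  have hsv : s = if ε i = true then -1 else 1 := by
    rw [hs]; unfold sg; rw [ox]
    by_cases h : ε i = true
    · rw [if_pos ⟨hi2, h⟩, if_pos h]
    · rw [if_neg (fun h' => h h'.2), if_neg h]
  have hsv' : s' = if ε' i = true then -1 else 1 := by
    rw [hs']; unfold sg; rw [ox']
    by_cases h : ε' i = true
    · rw [if_pos ⟨hi2, h⟩, if_pos h]
    · rw [if_neg (fun h' => h h'.2), if_neg h]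
  have hss : s' = -s := by
    rw [hsv, hsv']
    by_cases hε : ε i = true
    · have hε' : ¬ ε' i = true := fun h => hne (by rw [hε, h])
      rw [if_pos hε, if_neg hε']; ring
    · have hε' : ε' i = true := by
        by_contra h
        rw [Bool.not_eq_true] at h hε
        exact hne (by rw [hε, h])
      rw [if_neg hε, if_pos hε']
  have hs2 : s * s = 1 := sg_sq D o ε u' x
  -- reflection
  have hC3 : 2 < C.card := by rw [(D.φ_DF u' hu).card C hC]; omega
  set τ := a + a' with hτ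
  have hrefl : ∀ c ∈ C, τ - c ∈ C' := by
    intro c hc
    have hm : (s * c) • u' + x ∈ B := by
      rw [hBe]; exact mem_image_of_mem _ hc
    rw [hBe'] at hm
    unfold lb at hm
    rw [mem_image] at hm
    obtain ⟨c', hc', h3⟩ := hm
    have h4 : (s' * c') • u' + x' - P = (s * c) • u' + x - P := by rw [h3]
    have h5 : (s' * c' - s' * a') • u' = (s * c - s * a) • u' := by
      have e3 : (s' * c') • u' + x' - P = (s' * c' - s' * a') • u' := by
        rw [h1', sub_smul]; abel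
      have e4 : (s * c) • u' + x - P = (s * c - s * a) • u' := by
        rw [h1, sub_smul]; abel
      rw [← e3, ← e4, h4]
    have h6 := smul_left_injective (ZMod q) (u_ne D u' hu) h5
    rw [hss] at h6
    have h7 : c' = τ - c := by
      have h8 : s * (c' - (τ - c)) = 0 := by rw [hτ]; linear_combination -h6
      rcases mul_eq_zero.1 h8 with h9 | h9
      · exact absurd h9 (sg_ne D o ε u' x)
      · exact sub_eq_zero.1 h9
    rw [← h7]; exact hc'
  have hfin : ∀ c ∈ C, ∀ d ∈ C, c ≠ d → d = τ - c := by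
    intro c hc d hd hcd
    have h3 := (D.φ_DF u' hu).uniq C hC C' hC' d hd c hc (τ - c) (hrefl c hc) (τ - d) (hrefl d hd)
      (fun h => hcd h.symm) (by ring)
    exact h3.2
  obtain ⟨c1, c2, c3, hc1, hc2, hc3, h12, h13, h23⟩ := two_lt_card_iff.1 hC3
  exact h23 ((hfin c1 hc1 c2 hc2 h12).trans (hfin c1 hc1 c3 hc3 h13).symm)

end

end H4DF
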