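import Pool.Agent.Helpers.H4_Ex2

set_option autoImplicit false

namespace H4DF

open Finset

lemma exists_big (A B : ℕ) : ∃ t : ℕ, A + B * t ≤ 2 ^ t := by
  refine ⟨2 * (A + 2 * B), ?_⟩
  set s := A + 2 * B with hs
  have h1 : s + 1 ≤ 2 ^ s := Nat.lt_two_pow_self
  have h2 : (s + 1) * (s + 1) ≤ 2 ^ (2 * s) := by
    rw [two_mul, pow_add]; exact Nat.mul_le_mul h1 h1
  refine le_trans ?_ h2
  have h3 : 2 * B * s ≤ s * s := Nat.mul_le_mul_right _ (by omega)
  nlinarith

section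

set_option linter.unusedSectionVars false

variable {k q : ℕ} [Fact q.Prime] {G : Type*} {I : Type} [Group G] [DecidableEq G] [Fintype G]
    [Fintype I] [DecidableEq I] {K : Finset I} (D : DD k q G I K)
    {M : ℕ} (o : ((G → ZMod q) × (I → ZMod q)) × ((G → ZMod q) × (I → ZMod q)) → Fin M)
  (ho : ∀ a b, o a = o b ↔ lrel a b)

def nice (P Q : (G → ZMod q) × (I → ZMod q)) : Prop :=
  (Q - P).2 ≠ 0 ∧ Free D (dir D (Q - P))

def WW (P Q : (G → ZMod q) × (I → ZMod q)) : Set ((G → ZMod q) × (I → ZMod q)) :=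
  {x | ∃ t : ZMod q, x = P + t • (Q - P)}

lemma nice_ne (P Q : (G → ZMod q) × (I → ZMod q)) (h : nice D P Q) : P ≠ Q := by
  rintro rfl
  apply h.1
  rw [sub_self]; rfl

lemma psi_eq (g : G) (x : (G → ZMod q) × (I → ZMod q)) :
    psi G (ZMod q) (I → ZMod q) g x = ac g x := rfl

include ho in
lemma hW (P Q P' Q' : (G → ZMod q) × (I → ZMod q)) (h : nice D P Q) (_ : P' ≠ Q')
    (heq : un D o P' Q' = un D o P Q) :
    ∃ g : G, psi G (ZMod q) (I → ZMod q) g⁻¹ P' ∈ WW P Q ∧
      psi G (ZMod q) (I → ZMod q) g⁻¹ Q' ∈ WW P Q := by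
  have h1 : un D o P Q = some (o (dir D (Q - P), P)) := by
    rw [un_some]; exact ⟨h.1, h.2, rfl⟩
  rw [h1, un_some] at heq
  obtain ⟨h2, _, h3⟩ := heq
  rw [eq_comm, ho] at h3
  obtain ⟨g, h4, t, h5⟩ := h3
  dsimp only at h4 h5
  obtain ⟨_, y, hy, h6⟩ := dir_spec D (Q - P) h.1
  obtain ⟨_, y', hy', h7⟩ := dir_spec D (Q' - P') h2
  have h8 : dir D (Q - P) = y⁻¹ • (Q - P) := by
    conv_rhs => rw [h6, smul_smul, inv_mul_cancel₀ hy, one_smul]
  have h9 : Q' = P' + y' • dir D (Q' - P') := by rw [← h7]; abel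
  generalize dir D (Q' - P') = w' at *
  generalize dir D (Q - P) = w at *
  refine ⟨g, ⟨t * y⁻¹, ?_⟩, ⟨(t + y') * y⁻¹, ?_⟩⟩
  · rw [psi_eq, h5, ac_add, ac_smul, ac_inv_ac, h4, ac_inv_ac, h8, smul_smul]
  · rw [psi_eq, h9, h5, ac_add, ac_add, ac_smul, ac_smul, ac_inv_ac, h4, ac_inv_ac, h8, smul_smul,
      smul_smul, add_mul, add_smul]
    abel

lemma N1 (P Q : (G → ZMod q) × (I → ZMod q)) (h : nice D P Q) (g : G)
    (hg : psi G (ZMod q) (I → ZMod q) g P ∈ WW P Q) :
    psi G (ZMod q) (I → ZMod q) g P = P := by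
  obtain ⟨t, ht⟩ := hg
  rw [psi_eq] at ht ⊢
  have h1 := congrArg Prod.snd ht
  rw [ac_snd, Prod.snd_add, Prod.smul_snd] at h1
  have h2 : t • (Q - P).2 = 0 := by
    have := h1.symm
    rwa [add_eq_left] at this
  rcases smul_eq_zero.1 h2 with h3 | h3
  · rw [ht, h3, zero_smul, add_zero]
  · exact absurd h3 h.1

lemma N1' (P Q : (G → ZMod q) × (I → ZMod q)) (h : nice D P Q) (g : G)
    (hg : psi G (ZMod q) (I → ZMod q) g Q ∈ WW P Q) :
    psi G (ZMod q) (I → ZMod q) g Q = Q := by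
  obtain ⟨t, ht⟩ := hg
  rw [psi_eq] at ht ⊢
  have h1 := congrArg Prod.snd ht
  rw [ac_snd, Prod.snd_add, Prod.smul_snd] at h1
  have h2 : (t - 1) • (Q - P).2 = 0 := by
    rw [sub_smul, one_smul]
    have : Q.2 = P.2 + (Q - P).2 := by rw [Prod.snd_sub]; abel
    rw [this] at h1
    have h3 := add_left_cancel h1
    rw [← h3, sub_self]
  rcases smul_eq_zero.1 h2 with h3 | h3
  · have h4 : t = 1 := sub_eq_zero.1 h3
    rw [ht, h4, one_smul]; abel
  · exact absurd h3 h.1

lemma N2 (P R : (G → ZMod q) × (I → ZMod q))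
    (hR : ∀ g, psi G (ZMod q) (I → ZMod q) g P ≠ R)
    (S : Finset ((G → ZMod q) × (I → ZMod q))) (hS : ∀ Q ∈ S, nice D P Q ∧ R ∈ WW P Q) :
    S.card ≤ q := by
  have hPR : R ≠ P := by
    have := hR 1
    rw [psi_eq, ac_one] at this
    exact this.symm
  have hsub : S ⊆ (univ : Finset (ZMod q)).image (fun s => P + s • (R - P)) := by
    intro Q hQ
    obtain ⟨_, t, ht⟩ := hS Q hQ
    have ht0 : t ≠ 0 := by
      rintro rfl
      rw [zero_smul, add_zero] at ht
      exact hPR ht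
    rw [mem_image]
    refine ⟨t⁻¹, mem_univ _, ?_⟩
    have : R - P = t • (Q - P) := by rw [ht]; abel
    rw [this, smul_smul, inv_mul_cancel₀ ht0, one_smul]; abel
  calc S.card ≤ _ := card_le_card hsub
    _ ≤ (univ : Finset (ZMod q)).card := card_image_le
    _ = q := by rw [card_univ, ZMod.card]

lemma N3 (hK : K.Nonempty) (P : (G → ZMod q) × (I → ZMod q))
    (S : Finset ((G → ZMod q) × (I → ZMod q))) (hS : ∀ Q ∈ S, ¬ nice D P Q) :
    S.card ≤ q ^ Fintype.card G * q * (K.card * K.card) := by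
  classical
  have hsub : S ⊆ ((univ : Finset ((G → ZMod q) × ZMod q)) ×ˢ (K ×ˢ K)).image
      (fun p => (p.1.1, P.2 + p.1.2 • (ev q p.2.2 - ev q p.2.1))) := by
    intro Q hQ
    have h1 := hS Q hQ
    have h2 : ∃ c : ZMod q, ∃ i ∈ K, ∃ i' ∈ K, (Q - P).2 = c • (ev q i' - ev q i) := by
      by_cases h3 : (Q - P).2 = 0
      · obtain ⟨i, hi⟩ := hK
        exact ⟨0, i, hi, i, hi, by rw [zero_smul]; exact h3⟩
      · have h4 : ¬ Free D (dir D (Q - P)) := fun h => h1 ⟨h3, h⟩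
        unfold Free at h4
        push Not at h4
        obtain ⟨y, hy, h5⟩ := h4
        obtain ⟨h6, y', hy', h7⟩ := dir_spec D (Q - P) h3
        obtain ⟨c, i, hi, i', hi', h8⟩ := D.aff _ h5 (smul_ne_zero hy (D.r_ne _ h6))
        refine ⟨y' * (y⁻¹ * c), i, hi, i', hi', ?_⟩
        rw [mul_smul, mul_smul, ← h8, Prod.smul_snd, smul_smul y⁻¹, inv_mul_cancel₀ hy, one_smul]
        conv_lhs => rw [h7]
        rfl
    obtain ⟨c, i, hi, i', hi', h3⟩ := h2
    rw [mem_image]
    refine ⟨((Q.1, c), (i, i')), mem_product.2 ⟨mem_univ _, mem_product.2 ⟨hi, hi'⟩⟩, ?_⟩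
    dsimp only
    rw [← h3, Prod.snd_sub]
    ext1
    · rfl
    · dsimp only; abel
  calc S.card ≤ _ := card_le_card hsub
    _ ≤ _ := card_image_le
    _ = _ := by
      rw [card_product, card_product, card_univ, Fintype.card_prod, Fintype.card_fun, ZMod.card]

include ho in
lemma N4 (i : Fin M)
    (S : Finset (((G → ZMod q) × (I → ZMod q)) × ((G → ZMod q) × (I → ZMod q))))
    (hS : ∀ p ∈ S, nice D p.1 p.2 ∧ un D o p.1 p.2 = some i) :
    S.card ≤ Fintype.card G * (q * q) := by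
  classical
  rcases S.eq_empty_or_nonempty with rfl | ⟨p₀, hp₀⟩
  · simp
  have h0 := hS p₀ hp₀
  have hsub : S ⊆ (univ : Finset (G × (ZMod q × ZMod q))).image
      (fun x => (ac x.1 (p₀.1 + x.2.1 • (p₀.2 - p₀.1)), ac x.1 (p₀.1 + x.2.2 • (p₀.2 - p₀.1)))) := by
    intro p hp
    have h1 := hS p hp
    obtain ⟨g, ⟨t, ht⟩, ⟨t', ht'⟩⟩ := hW D o ho p₀.1 p₀.2 p.1 p.2 h0.1 (nice_ne D _ _ h1.1)
      (by rw [h1.2, h0.2])
    rw [mem_image]
    refine ⟨(g, (t, t')), mem_univ _, ?_⟩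
    dsimp only
    rw [psi_eq] at ht ht'
    rw [← ht, ← ht', ac_ac_inv, ac_ac_inv]
  calc S.card ≤ _ := card_le_card hsub
    _ ≤ _ := card_image_le
    _ = _ := by
      rw [card_univ, Fintype.card_prod, Fintype.card_prod, ZMod.card]

/-- regular points -/
def Reg (q : ℕ) [Fact q.Prime] (G : Type*) (I : Type) [Group G] [DecidableEq G] [Fintype G]
    [Fintype I] [DecidableEq I] : Finset ((G → ZMod q) × (I → ZMod q)) :=
  univ.filter (fun Q => ∀ g : G, g ≠ 1 → Q.1 g ≠ Q.1 1)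

lemma hReg (Q : (G → ZMod q) × (I → ZMod q)) (hQ : Q ∈ Reg q G I) (g : G)
    (h : psi G (ZMod q) (I → ZMod q) g Q = Q) : g = 1 := by
  by_contra hg
  unfold Reg at hQ
  rw [mem_filter] at hQ
  apply hQ.2 g hg
  rw [psi_eq] at h
  have h1 := congrFun (congrArg Prod.fst h) g
  rw [← h1]
  simp [ac, act]

lemma Reg_card (hq : 4 * Fintype.card G ≤ q) :
    3 * Fintype.card ((G → ZMod q) × (I → ZMod q)) ≤ 4 * (Reg q G I).card := by
  classical
  set V := Fintype.card ((G → ZMod q) × (I → ZMod q)) with hV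
  have h1 : ∀ g : G, g ≠ 1 →
      q * (univ.filter (fun Q : (G → ZMod q) × (I → ZMod q) => Q.1 g = Q.1 1)).card ≤ V := by
    intro g hg
    have e : q * (univ.filter (fun Q : (G → ZMod q) × (I → ZMod q) => Q.1 g = Q.1 1)).card
        = ((univ : Finset (ZMod q)) ×ˢ
          (univ.filter (fun Q : (G → ZMod q) × (I → ZMod q) => Q.1 g = Q.1 1))).card := by
      rw [card_product, card_univ, ZMod.card]
    rw [e, hV, ← card_univ]
    apply card_le_card_of_injOn (fun p => (Function.update p.2.1 g p.1, p.2.2))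
      (fun _ _ => mem_coe.2 (mem_univ _))
    rintro ⟨s, Q⟩ hQ ⟨s', Q'⟩ hQ' heq
    rw [mem_coe, mem_product, mem_filter] at hQ hQ'
    simp only [Prod.mk.injEq] at heq
    obtain ⟨h2, h3⟩ := heq
    have h4 : s = s' := by
      have := congrFun h2 g
      simpa using this
    subst h4
    have h5 : ∀ x, x ≠ g → Q.1 x = Q'.1 x := by
      intro x hx
      have := congrFun h2 x
      simpa [Function.update_of_ne hx] using this
    have h6 : Q.1 = Q'.1 := by
      funext x
      by_cases hx : x = g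
      · subst hx
        have h7 : Q.1 x = Q.1 1 := hQ.2.2
        have h8 : Q'.1 x = Q'.1 1 := hQ'.2.2
        rw [h7, h8]
        exact h5 1 hg.symm
      · exact h5 x hx
    exact Prod.ext rfl (Prod.ext h6 h3)
  have h2 : V ≤ (Reg q G I).card + ∑ g ∈ univ.erase (1 : G),
      (univ.filter (fun Q : (G → ZMod q) × (I → ZMod q) => Q.1 g = Q.1 1)).card := by
    have hsub : (univ : Finset ((G → ZMod q) × (I → ZMod q))) ⊆ Reg q G I ∪
        (univ.erase (1 : G)).biUnion
          (fun g => univ.filter (fun Q : (G → ZMod q) × (I → ZMod q) => Q.1 g = Q.1 1)) := by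
      intro Q _
      by_cases h : ∀ g : G, g ≠ 1 → Q.1 g ≠ Q.1 1
      · exact mem_union_left _ (mem_filter.2 ⟨mem_univ _, h⟩)
      · push Not at h
        obtain ⟨g, hg, h3⟩ := h
        exact mem_union_right _ (mem_biUnion.2 ⟨g, mem_erase.2 ⟨hg, mem_univ _⟩,
          mem_filter.2 ⟨mem_univ _, h3⟩⟩)
    rw [hV, ← card_univ]
    exact (card_le_card hsub).trans ((card_union_le _ _).trans
      (Nat.add_le_add_left card_biUnion_le _))
  have h3 : q * ∑ g ∈ univ.erase (1 : G),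
      (univ.filter (fun Q : (G → ZMod q) × (I → ZMod q) => Q.1 g = Q.1 1)).card
      ≤ Fintype.card G * V := by
    rw [mul_sum]
    calc ∑ g ∈ univ.erase (1 : G), q *
          (univ.filter (fun Q : (G → ZMod q) × (I → ZMod q) => Q.1 g = Q.1 1)).card
        ≤ ∑ _g ∈ univ.erase (1 : G), V := sum_le_sum fun g hg => h1 g (mem_erase.1 hg).1
      _ ≤ Fintype.card G * V := by
          rw [sum_const, smul_eq_mul]
          apply Nat.mul_le_mul_right
          rw [← card_univ]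
          exact card_le_card (erase_subset _ _)
  set s := ∑ g ∈ univ.erase (1 : G),
      (univ.filter (fun Q : (G → ZMod q) × (I → ZMod q) => Q.1 g = Q.1 1)).card
  have hG : 0 < Fintype.card G := Fintype.card_pos
  have h4 : 4 * s ≤ V := by
    have h5 : 4 * Fintype.card G * s ≤ Fintype.card G * V :=
      (Nat.mul_le_mul_right _ hq).trans h3
    have h6 : Fintype.card G * (4 * s) ≤ Fintype.card G * V := by
      calc Fintype.card G * (4 * s) = 4 * Fintype.card G * s := by ring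
        _ ≤ _ := h5
    exact Nat.le_of_mul_le_mul_left h6 hG
  omega

end

/-- transport of a design with prescribed automorphism group to `Fin v` -/
lemma transport2 {V G : Type*} [Fintype V] [DecidableEq V] [Group G] (k : ℕ)
    (X : Set (Finset V)) (ψ : G →* Equiv.Perm V) (hψ : Function.Injective ψ)
    (hcard : ∀ B ∈ X, B.card = k)
    (hdes : ∀ P Q : V, P ≠ Q → ∃! B : Finset V, B ∈ X ∧ P ∈ B ∧ Q ∈ B)
    (haut : ∀ σ : Equiv.Perm V, H4Rig.IsAut X σ ↔ σ ∈ ψ.range) :
    ∃ (B : Finset (Finset (Fin (Fintype.card V)))), (∀ b ∈ B, b.card = k) ∧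
      (∀ x y : Fin (Fintype.card V), x ≠ y →
        ∃! b : Finset (Fin (Fintype.card V)), b ∈ B ∧ x ∈ b ∧ y ∈ b) ∧
      ∃ φ : G →* Equiv.Perm (Fin (Fintype.card V)), Function.Injective φ ∧
        ∀ σ : Equiv.Perm (Fin (Fintype.card V)), σ ∈ φ.range ↔
          ∀ b : Finset (Fin (Fintype.card V)), (b ∈ B ↔ b.map σ.toEmbedding ∈ B) := by
  classical
  let ε : V ≃ Fin (Fintype.card V) := Fintype.equivFin V
  let φ : G →* Equiv.Perm (Fin (Fintype.card V)) := ε.permCongrHom.toMonoidHom.comp ψ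
  set B := univ.filter (fun b : Finset (Fin (Fintype.card V)) => b.map ε.symm.toEmbedding ∈ X)
    with hB
  have memB : ∀ b, b ∈ B ↔ b.map ε.symm.toEmbedding ∈ X := by
    intro b; rw [hB, mem_filter]; simp
  have memB' : ∀ b : Finset V, b.map ε.toEmbedding ∈ B ↔ b ∈ X := by
    intro b
    rw [memB, map_map]
    have : ε.toEmbedding.trans ε.symm.toEmbedding = Function.Embedding.refl V := by
      ext x; simp
    rw [this, map_refl]
  refine ⟨B, ?_, ?_, φ, ?_, ?_⟩
  · intro b hb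
    have := hcard _ ((memB b).1 hb)
    rwa [card_map] at this
  · intro x y hxy
    obtain ⟨b, ⟨hb, hx, hy⟩, hu⟩ := hdes (ε.symm x) (ε.symm y) (fun h => hxy (ε.symm.injective h))
    refine ⟨b.map ε.toEmbedding, ⟨(memB' b).2 hb, ?_, ?_⟩, ?_⟩
    · rw [mem_map]; exact ⟨_, hx, by simp⟩
    · rw [mem_map]; exact ⟨_, hy, by simp⟩
    · rintro b' ⟨hb', hx', hy'⟩
      have h1 : b'.map ε.symm.toEmbedding = b := by
        apply hu
        refine ⟨(memB b').1 hb', ?_, ?_⟩
        · exact mem_map_of_mem _ hx'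
        · exact mem_map_of_mem _ hy'
      rw [← h1, map_map]
      have : ε.symm.toEmbedding.trans ε.toEmbedding = Function.Embedding.refl _ := by
        ext x; simp
      rw [this, map_refl]
  · exact (ε.permCongrHom.injective).comp hψ
  · intro σ
    set τ : Equiv.Perm V := ε.symm.permCongr σ with hτ
    have h1 : σ ∈ φ.range ↔ τ ∈ ψ.range := by
      constructor
      · rintro ⟨g, rfl⟩
        refine ⟨g, ?_⟩
        rw [hτ]
        ext x
        simp [φ]
      · rintro ⟨g, hg⟩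
        refine ⟨g, ?_⟩
        show ε.permCongr (ψ g) = σ
        rw [hg, hτ]
        ext x
        simp
    have h2 : H4Rig.IsAut X τ ↔
        ∀ b : Finset (Fin (Fintype.card V)), (b ∈ B ↔ b.map σ.toEmbedding ∈ B) := by
      have h3 : ∀ b : Finset (Fin (Fintype.card V)),
          (b.map ε.symm.toEmbedding).map τ.toEmbedding
            = (b.map σ.toEmbedding).map ε.symm.toEmbedding := by
        intro b
        rw [map_map, map_map]
        congr 1
        ext x
        simp [hτ]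
      constructor
      · intro h b
        rw [memB, memB, ← h3]
        exact h _
      · intro h b
        have h4 := h (b.map ε.toEmbedding)
        have this : (b.map ε.toEmbedding).map ε.symm.toEmbedding = b := by
          rw [map_map]
          have : ε.toEmbedding.trans ε.symm.toEmbedding = Function.Embedding.refl V := by
            ext x; simp
          rw [this, map_refl]
        rw [memB', memB, ← h3, this] at h4
        exact h4
    rw [h1, ← haut τ, h2]

theorem exact_aut (k : ℕ) (hk : 3 ≤ k) (G : Type*) [Group G] [Finite G] :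
    ∃ (v : ℕ) (B : Finset (Finset (Fin v))), k ≤ v ∧ (∀ b ∈ B, b.card = k) ∧
      (∀ x y : Fin v, x ≠ y → ∃! b : Finset (Fin v), b ∈ B ∧ x ∈ b ∧ y ∈ b) ∧
      ∃ φ : G →* Equiv.Perm (Fin v), Function.Injective φ ∧
        ∀ σ : Equiv.Perm (Fin v), σ ∈ φ.range ↔
          ∀ b : Finset (Fin v), (b ∈ B ↔ b.map σ.toEmbedding ∈ B) := by
  classical
  have := Fintype.ofFinite G
  obtain ⟨q, hq, h, hqG, hDD⟩ := exists_DD k (by omega) G
  set n := Fintype.card G with hn
  have hn0 : 0 < n := Fintype.card_pos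
  have hq2 : 2 ≤ q := hq.out.two_le
  set Kc := h + 1 with hKc
  -- choice of t
  obtain ⟨t, ht⟩ := exists_big
    (8 * n * (2 * (2 + n + 2 * q * (n + Kc)) * (n * (q * q)) + q ^ n * q * (Kc * Kc) + n * q))
    (8 * n * (2 * (2 * q) * (n * (q * q))))
  obtain ⟨D⟩ := hDD t
  set I := Option (Fin h) ⊕ Fin t with hI
  have hIcard : Fintype.card I = Kc + t := by simp [hI, hKc]
  set K : Finset I := univ.image Sum.inl with hK
  have hKcard : K.card = Kc := by
    rw [hK, card_image_of_injective _ Sum.inl_injective, card_univ]; simp [hKc]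
  have hKne : K.Nonempty := by
    rw [← card_pos, hKcard]; omega
  obtain ⟨M, o, ho⟩ := exists_class (lrel (q := q) (G := G) (I := I)) lrel_equiv
  set κ := 2 + n + 2 * q * (n + Kc + t) with hκ
  have hV : Fintype.card ((G → ZMod q) × (I → ZMod q)) = q ^ (n + Kc + t) := by
    rw [Fintype.card_prod, Fintype.card_fun, Fintype.card_fun, ZMod.card, hIcard, ← pow_add]
    congr 1
    omega
  have hReg3 := Reg_card (q := q) (G := G) (I := I) hqG
  rw [hV] at hReg3
  have hReg2 : q ^ (n + Kc + t) ≤ 2 * (Reg q G I).card := by omega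
  have hnum : 4 * n * (2 * κ * (n * (q * q)) + q ^ n * q * (K.card * K.card) + n * q)
      ≤ (Reg q G I).card := by
    rw [hKcard]
    have h1 : 8 * n * (2 * κ * (n * (q * q)) + q ^ n * q * (Kc * Kc) + n * q)
        ≤ q ^ (n + Kc + t) := by
      calc 8 * n * (2 * κ * (n * (q * q)) + q ^ n * q * (Kc * Kc) + n * q)
          = 8 * n * (2 * (2 + n + 2 * q * (n + Kc)) * (n * (q * q)) + q ^ n * q * (Kc * Kc)
              + n * q) + (8 * n * (2 * (2 * q) * (n * (q * q)))) * t := by rw [hκ]; ring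
        _ ≤ 2 ^ t := ht
        _ ≤ q ^ t := Nat.pow_le_pow_left hq2 t
        _ ≤ q ^ (n + Kc + t) := Nat.pow_le_pow_right (by omega) (by omega)
    have h2 : 8 * n * (2 * κ * (n * (q * q)) + q ^ n * q * (Kc * Kc) + n * q)
        = 2 * (4 * n * (2 * κ * (n * (q * q)) + q ^ n * q * (Kc * Kc) + n * q)) := by ring
    rw [h2] at h1
    generalize 4 * n * (2 * κ * (n * (q * q)) + q ^ n * q * (Kc * Kc) + n * q) = z at *
    omega
  have hκ2 : 4 * n * (q ^ (n + Kc + t)) ^ 2 ≤ 2 ^ κ := by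
    have h1 : n ≤ 2 ^ n := Nat.lt_two_pow_self.le
    have h2 : q ≤ 2 ^ q := Nat.lt_two_pow_self.le
    have h3 : (q ^ (n + Kc + t)) ^ 2 ≤ 2 ^ (2 * q * (n + Kc + t)) := by
      calc (q ^ (n + Kc + t)) ^ 2 = q ^ (2 * (n + Kc + t)) := by rw [← pow_mul]; ring_nf
        _ ≤ (2 ^ q) ^ (2 * (n + Kc + t)) := Nat.pow_le_pow_left h2 _
        _ = 2 ^ (2 * q * (n + Kc + t)) := by rw [← pow_mul]; ring_nf
    calc 4 * n * (q ^ (n + Kc + t)) ^ 2 ≤ 4 * 2 ^ n * 2 ^ (2 * q * (n + Kc + t)) :=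
          Nat.mul_le_mul (Nat.mul_le_mul_left _ h1) h3
      _ = 2 ^ κ := by rw [hκ, pow_add, pow_add]; norm_num
  obtain ⟨ε, hε⟩ := H4Rig.rigid (psi G (ZMod q) (I → ZMod q)) (XX D o) (un D o)
    (XX_ex D o ho) (XX_loc D o ho) (XX_sw D o ho hk) (XX_inv D o ho) κ
    (by rw [hV]; exact hκ2)
    (fun σ _ => H4Rig.count (psi G (ZMod q) (I → ZMod q)) (un D o) (nice D) WW (Reg q G I)
      hReg (nice_ne D) (fun P Q h => ⟨_, (un_some D o P Q _).2 ⟨h.1, h.2, rfl⟩⟩)
      (hW D o ho) (N1 D) (N1' D) q (q ^ n * q * (K.card * K.card)) (n * (q * q))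
      (fun P R h S hS => N2 D P R h S hS)
      (fun P S hS => N3 D hKne P S (fun Q hQ => (hS Q hQ).2))
      (fun i S hS => N4 D o ho i S hS) κ hnum (by rw [hV]; exact hReg2) (by positivity) σ)
  have hψ : Function.Injective (psi G (ZMod q) (I → ZMod q)) := by
    intro g g' hgg
    have h2 := congrArg Prod.fst (Equiv.congr_fun hgg (Pi.single 1 1, 0))
    have h3 : act g (Pi.single 1 1 : G → ZMod q) = act g' (Pi.single 1 1) := h2
    have h4 := congrFun h3 g
    simp only [act, inv_mul_cancel, Pi.single_eq_same] at h4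
    by_contra hne
    have h5 : g'⁻¹ * g ≠ 1 := by
      intro h6
      exact hne (inv_mul_eq_one.1 h6).symm
    rw [Pi.single_eq_of_ne h5] at h4
    exact one_ne_zero h4
  obtain ⟨B, h1, h2, h3⟩ := transport2 k (XX D o ε) (psi G (ZMod q) (I → ZMod q)) hψ
    (XX_card D o ε)
    (fun P Q hPQ => by
      obtain ⟨B, hB, hP, hQ⟩ := XX_ex D o ho ε P Q hPQ
      refine ⟨B, ⟨hB, hP, hQ⟩, ?_⟩
      rintro B' ⟨hB', hP', hQ'⟩
      exact XX_uniq D o ho ε P Q hPQ B' B hB' hP' hQ' hB hP hQ) hε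
  refine ⟨_, B, ?_, h1, h2, h3⟩
  have hv : 1 < Fintype.card ((G → ZMod q) × (I → ZMod q)) := by
    rw [hV]; exact Nat.one_lt_pow (by omega) (by omega)
  obtain ⟨b, ⟨hb, _, _⟩, _⟩ := h2 ⟨0, lt_trans Nat.zero_lt_one hv⟩ ⟨1, hv⟩ (by simp)
  rw [← h1 b hb]
  simpa using card_le_univ b

end H4DF
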