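import Mathlib

/-! The multiplication table theorem (`o(N^2)` distinct products) by Turán's method, and the
two-class partition built from it. -/

namespace Pool.Agent.Helpers.H4MulTable

open Finset Filter

/-- number of primes of `P` dividing `n` -/
noncomputable def w (P : Finset ℕ) (n : ℕ) : ℝ := ∑ p ∈ P, if p ∣ n then (1 : ℝ) else 0

/-- reciprocal sum -/
noncomputable def S (P : Finset ℕ) : ℝ := ∑ p ∈ P, 1 / (p : ℝ)

theorem count_dvd (x d : ℕ) : ∑ n ∈ Ioc 0 x, (if d ∣ n then (1 : ℝ) else 0) = ((x / d : ℕ) : ℝ) := by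
  rw [← Nat.Ioc_filter_dvd_card_eq_div x d]
  simp

theorem div_le_real (x d : ℕ) : ((x / d : ℕ) : ℝ) ≤ x / d := Nat.cast_div_le

theorem div_ge_real (x d : ℕ) (hd : 0 < d) : (x : ℝ) / d - 1 ≤ ((x / d : ℕ) : ℝ) := by
  have h1 : (x : ℝ) / d < ((x / d : ℕ) : ℝ) + 1 := by
    rw [div_lt_iff₀ (by exact_mod_cast hd)]
    have := Nat.lt_succ_iff.mp (Nat.lt_succ_self x)
    have h2 : x < (x / d + 1) * d := by
      have := Nat.div_add_mod x d
      have := Nat.mod_lt x hd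
      nlinarith
    exact_mod_cast h2
  linarith

theorem sum_w (P : Finset ℕ) (hP : ∀ p ∈ P, p.Prime) (x : ℕ) :
    x * S P - P.card ≤ ∑ n ∈ Ioc 0 x, w P n := by
  unfold w
  rw [Finset.sum_comm]
  simp_rw [count_dvd]
  have h1 : (x : ℝ) * S P - P.card = ∑ p ∈ P, ((x : ℝ) / p - 1) := by
    unfold S
    rw [Finset.sum_sub_distrib, Finset.mul_sum, Finset.sum_const, nsmul_eq_mul, mul_one]
    congr 1
    apply Finset.sum_congr rfl
    intro p _
    ring
  rw [h1]
  apply Finset.sum_le_sum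
  intro p hp
  exact div_ge_real x p (hP p hp).pos

theorem sum_w_sq (P : Finset ℕ) (hP : ∀ p ∈ P, p.Prime) (x : ℕ) :
    ∑ n ∈ Ioc 0 x, (w P n) ^ 2 ≤ x * S P ^ 2 + x * S P := by
  have h1 : ∀ n, (w P n) ^ 2 = ∑ p ∈ P, ∑ q ∈ P, (if p ∣ n then (1 : ℝ) else 0) *
      (if q ∣ n then (1 : ℝ) else 0) := by
    intro n
    unfold w
    rw [sq, Finset.sum_mul_sum]
  simp_rw [h1]
  rw [Finset.sum_comm]
  have h2 : ∀ p ∈ P, ∑ n ∈ Ioc 0 x, ∑ q ∈ P, (if p ∣ n then (1 : ℝ) else 0) *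
      (if q ∣ n then (1 : ℝ) else 0) ≤ ∑ q ∈ P, ((x : ℝ) * (1 / p) * (1 / q)) + x * (1 / p) := by
    intro p hp
    rw [Finset.sum_comm]
    have h3 : ∀ q ∈ P, ∑ n ∈ Ioc 0 x, (if p ∣ n then (1 : ℝ) else 0) *
      (if q ∣ n then (1 : ℝ) else 0) ≤ (x : ℝ) * (1 / p) * (1 / q) +
        (if q = p then (x : ℝ) * (1 / p) else 0) := by
      intro q hq
      by_cases hpq : q = p
      · subst hpq
        rw [if_pos rfl]
        have h4 : ∀ n, (if q ∣ n then (1 : ℝ) else 0) * (if q ∣ n then (1 : ℝ) else 0) =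
            (if q ∣ n then (1 : ℝ) else 0) := by intro n; split_ifs <;> simp
        simp_rw [h4]
        rw [count_dvd]
        have h5 := div_le_real x q
        have h6 : (0 : ℝ) ≤ (x : ℝ) * (1 / q) * (1 / q) := by positivity
        have h7 : (x : ℝ) / q = x * (1 / q) := by ring
        linarith
      · rw [if_neg hpq, add_zero]
        have hcop : Nat.Coprime p q := (Nat.coprime_primes (hP p hp) (hP q hq)).mpr (Ne.symm hpq)
        have h4 : ∀ n, (if p ∣ n then (1 : ℝ) else 0) * (if q ∣ n then (1 : ℝ) else 0) =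
            (if p * q ∣ n then (1 : ℝ) else 0) := by
          intro n
          by_cases a1 : p ∣ n
          · by_cases a2 : q ∣ n
            · rw [if_pos a1, if_pos a2, if_pos (hcop.mul_dvd_of_dvd_of_dvd a1 a2)]; simp
            · rw [if_neg a2, if_neg (fun h => a2 ((Dvd.intro_left p rfl).trans h))]; simp
          · rw [if_neg a1, if_neg (fun h => a1 ((Dvd.intro q rfl).trans h))]; simp
        simp_rw [h4]
        rw [count_dvd]
        refine (div_le_real x (p * q)).trans (le_of_eq ?_)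
        push_cast
        rw [mul_assoc, one_div_mul_one_div, mul_one_div]
    refine (Finset.sum_le_sum h3).trans ?_
    rw [Finset.sum_add_distrib, Finset.sum_ite_eq' P p, if_pos hp]
  refine (Finset.sum_le_sum h2).trans (le_of_eq ?_)
  rw [Finset.sum_add_distrib]
  unfold S
  rw [sq, Finset.sum_mul_sum, Finset.mul_sum, Finset.mul_sum]
  congr 1
  apply Finset.sum_congr rfl
  intro p _
  rw [Finset.mul_sum]
  apply Finset.sum_congr rfl
  intro q _
  ring

theorem variance (P : Finset ℕ) (hP : ∀ p ∈ P, p.Prime) (x : ℕ) :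
    ∑ n ∈ Ioc 0 x, (w P n - S P) ^ 2 ≤ x * S P + 2 * S P * P.card := by
  have hS : 0 ≤ S P := Finset.sum_nonneg (fun p _ => by positivity)
  have h1 : ∑ n ∈ Ioc 0 x, (w P n - S P) ^ 2 =
      ∑ n ∈ Ioc 0 x, (w P n) ^ 2 - 2 * S P * ∑ n ∈ Ioc 0 x, w P n + x * S P ^ 2 := by
    have : ∀ n, (w P n - S P) ^ 2 = (w P n) ^ 2 - 2 * S P * w P n + S P ^ 2 := by intro n; ring
    simp_rw [this]
    rw [Finset.sum_add_distrib, Finset.sum_sub_distrib, ← Finset.mul_sum]
    simp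
  rw [h1]
  have h2 := sum_w P hP x
  have h3 := sum_w_sq P hP x
  nlinarith

theorem cheb (P : Finset ℕ) (hP : ∀ p ∈ P, p.Prime) (hS : 0 < S P) (x : ℕ) (θ : ℝ) (hθ : 0 < θ)
    (B : Finset ℕ) (hB : B ⊆ Ioc 0 x) (hdev : ∀ n ∈ B, (θ * S P) ^ 2 ≤ (w P n - S P) ^ 2) :
    (B.card : ℝ) ≤ (x + 2 * P.card) / (θ ^ 2 * S P) := by
  have h1 : (B.card : ℝ) * (θ * S P) ^ 2 ≤ ∑ n ∈ Ioc 0 x, (w P n - S P) ^ 2 := by
    calc (B.card : ℝ) * (θ * S P) ^ 2 = ∑ n ∈ B, (θ * S P) ^ 2 := by simp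
      _ ≤ ∑ n ∈ B, (w P n - S P) ^ 2 := Finset.sum_le_sum hdev
      _ ≤ ∑ n ∈ Ioc 0 x, (w P n - S P) ^ 2 :=
        Finset.sum_le_sum_of_subset_of_nonneg hB (fun _ _ _ => sq_nonneg _)
  have h2 := variance P hP x
  rw [le_div_iff₀ (by positivity)]
  have h3 : (B.card : ℝ) * (θ ^ 2 * S P) * S P ≤ (x + 2 * P.card) * S P := by nlinarith
  exact le_of_mul_le_mul_right h3 hS

/-- the `N × N` multiplication table -/
noncomputable def table (N : ℕ) : Finset ℕ := (Ioc 0 N ×ˢ Ioc 0 N).image (fun p => p.1 * p.2)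

theorem table_bound (P : Finset ℕ) (hP : ∀ p ∈ P, p.Prime) (hS : 0 < S P) (N : ℕ) :
    ((table N).card : ℝ) ≤ ((N ^ 2 : ℕ) + 2 * P.card) / ((1 / 2) ^ 2 * S P) +
      (N ^ 2 : ℕ) * ∑ p ∈ P, 1 / (p : ℝ) ^ 2 +
      2 * (N * ((N + 2 * P.card) / ((1 / 4) ^ 2 * S P))) := by
  classical
  let B1 : Finset ℕ := (Ioc 0 (N ^ 2)).filter (fun n => 3 / 2 * S P < w P n)
  let B2 : Finset ℕ := P.biUnion (fun p => (Ioc 0 (N ^ 2)).filter (fun n => p ^ 2 ∣ n))
  let Bad : Finset ℕ := (Ioc 0 N).filter (fun a => w P a ≤ 3 / 4 * S P)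
  let B3 : Finset ℕ := (Bad ×ˢ Ioc 0 N).image (fun p => p.1 * p.2)
  let B4 : Finset ℕ := (Ioc 0 N ×ˢ Bad).image (fun p => p.1 * p.2)
  have hsub : table N ⊆ B1 ∪ B2 ∪ (B3 ∪ B4) := by
    intro n hn
    unfold table at hn
    rw [Finset.mem_image] at hn
    obtain ⟨⟨a, b⟩, hab, rfl⟩ := hn
    rw [Finset.mem_product] at hab
    obtain ⟨ha, hb⟩ := hab
    simp only at ha hb
    have ha' := Finset.mem_Ioc.mp ha
    have hb' := Finset.mem_Ioc.mp hb
    have hmem : a * b ∈ Ioc 0 (N ^ 2) := by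
      rw [Finset.mem_Ioc]
      exact ⟨Nat.mul_pos ha'.1 hb'.1, by nlinarith⟩
    simp only [Finset.mem_union]
    by_cases h1 : a * b ∈ B1
    · exact Or.inl (Or.inl h1)
    by_cases h2 : a * b ∈ B2
    · exact Or.inl (Or.inr h2)
    right
    have h1' : w P (a * b) ≤ 3 / 2 * S P := by
      by_contra hcon
      exact h1 (Finset.mem_filter.mpr ⟨hmem, not_le.mp hcon⟩)
    have h2' : ∀ p ∈ P, ¬ (p ^ 2 ∣ a * b) := by
      intro p hp hd
      exact h2 (Finset.mem_biUnion.mpr ⟨p, hp, Finset.mem_filter.mpr ⟨hmem, hd⟩⟩)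
    have hadd : w P (a * b) = w P a + w P b := by
      unfold w
      rw [← Finset.sum_add_distrib]
      apply Finset.sum_congr rfl
      intro p hp
      have hpp := hP p hp
      by_cases a1 : p ∣ a
      · have a2 : ¬ p ∣ b := by
          intro a2
          apply h2' p hp
          rw [sq]
          exact Nat.mul_dvd_mul a1 a2
        rw [if_pos a1, if_neg a2, if_pos (a1.mul_right b)]; simp
      · by_cases a2 : p ∣ b
        · rw [if_neg a1, if_pos a2, if_pos (a2.mul_left a)]; simp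
        · rw [if_neg a1, if_neg a2, if_neg (fun h => (hpp.dvd_mul.mp h).elim a1 a2)]; simp
    by_cases h3 : w P a ≤ 3 / 4 * S P
    · left
      exact Finset.mem_image.mpr ⟨(a, b), Finset.mem_product.mpr
        ⟨Finset.mem_filter.mpr ⟨ha, h3⟩, hb⟩, rfl⟩
    · right
      refine Finset.mem_image.mpr ⟨(a, b), Finset.mem_product.mpr
        ⟨ha, Finset.mem_filter.mpr ⟨hb, ?_⟩⟩, rfl⟩
      rw [not_le] at h3
      linarith
  have c1 : (B1.card : ℝ) ≤ ((N ^ 2 : ℕ) + 2 * P.card) / ((1 / 2) ^ 2 * S P) := by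
    apply cheb P hP hS (N ^ 2) (1 / 2) (by norm_num) B1 (Finset.filter_subset _ _)
    intro n hn
    have h4 := (Finset.mem_filter.mp hn).2
    apply pow_le_pow_left₀ (by positivity)
    linarith
  have c2 : (B2.card : ℝ) ≤ (N ^ 2 : ℕ) * ∑ p ∈ P, 1 / (p : ℝ) ^ 2 := by
    have h5 : (B2.card : ℝ) ≤ ∑ p ∈ P, (((Ioc 0 (N ^ 2)).filter (fun n => p ^ 2 ∣ n)).card : ℝ) := by
      exact_mod_cast Finset.card_biUnion_le
    refine h5.trans ?_
    rw [Finset.mul_sum]
    apply Finset.sum_le_sum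
    intro p _
    rw [Nat.Ioc_filter_dvd_card_eq_div]
    refine (div_le_real _ _).trans (le_of_eq ?_)
    push_cast
    ring
  have cb : (Bad.card : ℝ) ≤ (N + 2 * P.card) / ((1 / 4) ^ 2 * S P) := by
    apply cheb P hP hS N (1 / 4) (by norm_num) Bad (Finset.filter_subset _ _)
    intro n hn
    have h4 := (Finset.mem_filter.mp hn).2
    have h5 : (w P n - S P) ^ 2 = (S P - w P n) ^ 2 := by ring
    rw [h5]
    apply pow_le_pow_left₀ (by positivity)
    linarith
  have c3 : (B3.card : ℝ) ≤ N * ((N + 2 * P.card) / ((1 / 4) ^ 2 * S P)) := by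
    have h6 : (B3.card : ℝ) ≤ Bad.card * N := by
      have : B3.card ≤ Bad.card * N := by
        refine Finset.card_image_le.trans ?_
        rw [Finset.card_product, Nat.card_Ioc, Nat.sub_zero]
      exact_mod_cast this
    have hN : (0 : ℝ) ≤ N := Nat.cast_nonneg N
    nlinarith
  have c4 : (B4.card : ℝ) ≤ N * ((N + 2 * P.card) / ((1 / 4) ^ 2 * S P)) := by
    have h6 : (B4.card : ℝ) ≤ N * Bad.card := by
      have : B4.card ≤ N * Bad.card := by
        refine Finset.card_image_le.trans ?_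
        rw [Finset.card_product, Nat.card_Ioc, Nat.sub_zero]
      exact_mod_cast this
    have hN : (0 : ℝ) ≤ N := Nat.cast_nonneg N
    nlinarith
  have hc : (table N).card ≤ B1.card + B2.card + (B3.card + B4.card) := by
    refine (Finset.card_le_card hsub).trans ?_
    refine (Finset.card_union_le _ _).trans ?_
    exact Nat.add_le_add (Finset.card_union_le _ _) (Finset.card_union_le _ _)
  have hc' : ((table N).card : ℝ) ≤ B1.card + B2.card + (B3.card + B4.card) := by exact_mod_cast hc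
  linarith

theorem exists_P (δ K : ℝ) (hδ : 0 < δ) : ∃ P : Finset ℕ, (∀ p ∈ P, p.Prime) ∧ K ≤ S P ∧
    ∑ p ∈ P, 1 / (p : ℝ) ^ 2 ≤ δ := by
  classical
  have hs : Summable (fun n : ℕ => 1 / (n : ℝ) ^ 2) := Real.summable_one_div_nat_pow.mpr (by norm_num)
  obtain ⟨F, hF⟩ := summable_iff_vanishing_norm.mp hs δ hδ
  have hdiv := not_summable_one_div_on_primes
  rw [not_summable_iff_tendsto_nat_atTop_of_nonneg (fun n => Set.indicator_nonneg
    (fun p _ => by positivity) n)] at hdiv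
  obtain ⟨n, hn⟩ := (hdiv.eventually (eventually_ge_atTop (K + ∑ i ∈ F, 1 / (i : ℝ)))).exists
  refine ⟨((range n).filter Nat.Prime) \ F, ?_, ?_, ?_⟩
  · intro p hp
    exact (Finset.mem_filter.mp (Finset.mem_sdiff.mp hp).1).2
  · unfold S
    have h1 : ∑ i ∈ range n, Set.indicator {p | p.Prime} (fun n : ℕ => (1 : ℝ) / n) i =
        ∑ i ∈ (range n).filter Nat.Prime, (1 : ℝ) / i := by
      rw [Finset.sum_filter]
      apply Finset.sum_congr rfl
      intro i _
      rw [Set.indicator_apply]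
      rfl
    rw [h1] at hn
    have h2 : ∑ i ∈ (range n).filter Nat.Prime, (1 : ℝ) / i ≤
        ∑ i ∈ ((range n).filter Nat.Prime) \ F, (1 : ℝ) / i + ∑ i ∈ F, 1 / (i : ℝ) := by
      have h3 : (range n).filter Nat.Prime ⊆ (((range n).filter Nat.Prime) \ F) ∪ F := by
        intro i hi
        by_cases hiF : i ∈ F
        · exact Finset.mem_union_right _ hiF
        · exact Finset.mem_union_left _ (Finset.mem_sdiff.mpr ⟨hi, hiF⟩)
      refine (Finset.sum_le_sum_of_subset_of_nonneg h3 (fun _ _ _ => by positivity)).trans ?_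
      rw [Finset.sum_union Finset.sdiff_disjoint]
    linarith
  · have := hF _ (Finset.sdiff_disjoint (s := F) (t := (range n).filter Nat.Prime))
    exact ((le_abs_self _).trans (Real.norm_eq_abs _).ge).trans this.le

/-- Erdős: the `N × N` multiplication table has `o(N ^ 2)` distinct entries. -/
theorem table_small (ε : ℝ) (hε : 0 < ε) : ∃ N0 : ℕ, ∀ N ≥ N0, ((table N).card : ℝ) ≤ ε * (N : ℝ) ^ 2 := by
  obtain ⟨P, hP, hK, hsq⟩ := exists_P (ε / 2) (200 / ε) (by positivity)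
  have hS : 0 < S P := lt_of_lt_of_le (by positivity) hK
  refine ⟨2 * P.card + 1, ?_⟩
  intro N hN
  have hNc : (2 * P.card : ℝ) ≤ N := by
    have : 2 * P.card ≤ N := by omega
    exact_mod_cast this
  have hN1 : (1 : ℝ) ≤ N := by
    have : 1 ≤ N := by omega
    exact_mod_cast this
  have h := table_bound P hP hS N
  have h1 : 1 / S P ≤ ε / 200 := by
    rw [div_le_iff₀ hS]
    rw [div_le_iff₀ hε] at hK
    linarith
  have e1 : (((N ^ 2 : ℕ) : ℝ) + 2 * P.card) / ((1 / 2) ^ 2 * S P) ≤ 8 * (N : ℝ) ^ 2 * (1 / S P) := by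
    have : (((N ^ 2 : ℕ) : ℝ) + 2 * P.card) / ((1 / 2) ^ 2 * S P) =
        4 * (((N ^ 2 : ℕ) : ℝ) + 2 * P.card) * (1 / S P) := by field_simp; norm_num; ring
    rw [this]
    apply mul_le_mul_of_nonneg_right _ (by positivity)
    push_cast
    nlinarith
  have e3 : (N : ℝ) * ((N + 2 * P.card) / ((1 / 4) ^ 2 * S P)) ≤ 32 * (N : ℝ) ^ 2 * (1 / S P) := by
    have : (N : ℝ) * ((N + 2 * P.card) / ((1 / 4) ^ 2 * S P)) =
        16 * (N * (N + 2 * P.card)) * (1 / S P) := by field_simp; norm_num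
    rw [this]
    apply mul_le_mul_of_nonneg_right _ (by positivity)
    nlinarith
  have e2 : ((N ^ 2 : ℕ) : ℝ) * ∑ p ∈ P, 1 / (p : ℝ) ^ 2 ≤ (N : ℝ) ^ 2 * (ε / 2) := by
    push_cast
    exact mul_le_mul_of_nonneg_left hsq (by positivity)
  have hN2 : 0 ≤ (N : ℝ) ^ 2 := by positivity
  have e4 : 72 * (N : ℝ) ^ 2 * (1 / S P) ≤ 72 * (N : ℝ) ^ 2 * (ε / 200) :=
    mul_le_mul_of_nonneg_left h1 (by positivity)
  nlinarith

theorem next_exists (f : ℕ → ℝ) (hf : Tendsto f atTop atTop) (k N : ℕ) : ∃ N' : ℕ, N ^ 2 < N' ∧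
    ((table N').card : ℝ) ≤ 1 / ((k : ℝ) + 1) * (N' : ℝ) ^ 2 ∧
    ∀ n : ℕ, (N' : ℝ) ^ 2 / (k + 1) ≤ n → ((N ^ 2 : ℕ) : ℝ) ≤ f n := by
  obtain ⟨N0, hN0⟩ := table_small (1 / ((k : ℝ) + 1)) (by positivity)
  obtain ⟨n0, hn0⟩ := eventually_atTop.mp (hf.eventually (eventually_ge_atTop ((N ^ 2 : ℕ) : ℝ)))
  refine ⟨N ^ 2 + 1 + N0 + n0 * (k + 1), by nlinarith, hN0 _ (by nlinarith), ?_⟩
  intro n hn
  apply hn0
  have hk : (0 : ℝ) < k + 1 := by positivity
  rw [div_le_iff₀ hk] at hn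
  have h1 : n0 * (k + 1) ≤ n * (k + 1) := by
    have h2 : ((n0 * (k + 1) : ℕ) : ℝ) ≤ ((n * (k + 1) : ℕ) : ℝ) := by
      push_cast
      push_cast at hn
      refine le_trans ?_ hn
      have h3 : (0 : ℝ) ≤ (n0 : ℝ) * (k + 1) := by positivity
      have h4 : (0 : ℝ) ≤ (N : ℝ) ^ 2 := by positivity
      have h5 : (0 : ℝ) ≤ N0 := Nat.cast_nonneg _
      nlinarith
    exact_mod_cast h2
  exact Nat.le_of_mul_le_mul_right h1 (Nat.succ_pos k)

/-- scale sequence -/
noncomputable def sc (f : ℕ → ℝ) (hf : Tendsto f atTop atTop) : ℕ → ℕ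
  | 0 => 1
  | k + 1 => (next_exists f hf k (sc f hf k)).choose

theorem sc_spec (f : ℕ → ℝ) (hf : Tendsto f atTop atTop) (k : ℕ) :
    (sc f hf k) ^ 2 < sc f hf (k + 1) ∧
    ((table (sc f hf (k + 1))).card : ℝ) ≤ 1 / ((k : ℝ) + 1) * (sc f hf (k + 1) : ℝ) ^ 2 ∧
    ∀ n : ℕ, (sc f hf (k + 1) : ℝ) ^ 2 / (k + 1) ≤ n → (((sc f hf k) ^ 2 : ℕ) : ℝ) ≤ f n :=
  (next_exists f hf k (sc f hf k)).choose_spec

theorem sc_pos (f : ℕ → ℝ) (hf : Tendsto f atTop atTop) (k : ℕ) : 1 ≤ sc f hf k := by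
  cases k with
  | zero => exact le_rfl
  | succ k => have := (sc_spec f hf k).1; omega

theorem sc_mono (f : ℕ → ℝ) (hf : Tendsto f atTop atTop) {i j : ℕ} (h : i ≤ j) :
    sc f hf i ≤ sc f hf j := by
  induction j, h using Nat.le_induction with
  | base => exact le_rfl
  | succ j _ ih =>
    have h1 := (sc_spec f hf j).1
    have h2 := sc_pos f hf j
    nlinarith

theorem sc_ge (f : ℕ → ℝ) (hf : Tendsto f atTop atTop) (k : ℕ) : k ≤ sc f hf k := by
  induction k with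
  | zero => exact Nat.zero_le _
  | succ k ih =>
    have h1 := (sc_spec f hf k).1
    have h2 := sc_pos f hf k
    nlinarith

/-- first class -/
def A1 (f : ℕ → ℝ) (hf : Tendsto f atTop atTop) : Set ℕ :=
  {a | 0 < a ∧ ∃ k, (sc f hf k) ^ 2 < a ∧ a ≤ sc f hf (k + 1)}

theorem key (f : ℕ → ℝ) (hf : Tendsto f atTop atTop) (k : ℕ) (n a a' : ℕ) (ha : 0 < a) (ha' : 0 < a')
    (hn : n = a * a') (hle : n ≤ (sc f hf (k + 1)) ^ 2)
    (hgt : (sc f hf (k + 1) : ℝ) ^ 2 / (k + 1) ≤ n)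
    (hcl : (a ∈ A1 f hf ∧ a' ∈ A1 f hf) ∨ (a ∉ A1 f hf ∧ a' ∉ A1 f hf))
    (hmin : f n < min (a : ℝ) a') : n ∈ table (sc f hf (k + 1)) := by
  have hfn := (sc_spec f hf k).2.2 n hgt
  rw [lt_min_iff] at hmin
  have h1 : (sc f hf k) ^ 2 < a := by
    have : (((sc f hf k) ^ 2 : ℕ) : ℝ) < a := lt_of_le_of_lt hfn hmin.1
    exact_mod_cast this
  have h2 : (sc f hf k) ^ 2 < a' := by
    have : (((sc f hf k) ^ 2 : ℕ) : ℝ) < a' := lt_of_le_of_lt hfn hmin.2
    exact_mod_cast this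
  -- large elements are in the second class
  have hlarge : ∀ b : ℕ, sc f hf (k + 1) < b → b ≤ (sc f hf (k + 1)) ^ 2 → b ∉ A1 f hf := by
    rintro b hb1 hb2 ⟨_, j, hj1, hj2⟩
    rcases Nat.lt_or_ge k j with hkj | hkj
    · have := sc_mono f hf (show k + 1 ≤ j by omega)
      have := Nat.pow_le_pow_left this 2
      omega
    · have := sc_mono f hf (show j + 1 ≤ k + 1 by omega)
      omega
  have hsmall : ∀ b : ℕ, (sc f hf k) ^ 2 < b → b ≤ sc f hf (k + 1) → b ∈ A1 f hf := by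
    intro b hb1 hb2
    exact ⟨by omega, k, hb1, hb2⟩
  have hbig : ¬ (sc f hf (k + 1) < a ∧ sc f hf (k + 1) < a') := by
    rintro ⟨g1, g2⟩
    have : (sc f hf (k + 1)) ^ 2 < a * a' := by
      rw [sq]; exact Nat.mul_lt_mul'' g1 g2
    omega
  have hale : a ≤ (sc f hf (k + 1)) ^ 2 := by
    have : a ≤ a * a' := Nat.le_mul_of_pos_right a ha'
    omega
  have hale' : a' ≤ (sc f hf (k + 1)) ^ 2 := by
    have : a' ≤ a * a' := Nat.le_mul_of_pos_left a' ha
    omega
  have hboth : a ≤ sc f hf (k + 1) ∧ a' ≤ sc f hf (k + 1) := by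
    by_cases g1 : a ≤ sc f hf (k + 1)
    · refine ⟨g1, ?_⟩
      by_contra g2
      rw [not_le] at g2
      have m1 := hsmall a h1 g1
      have m2 := hlarge a' g2 hale'
      rcases hcl with h | h
      · exact m2 h.2
      · exact h.1 m1
    · exfalso
      rw [not_le] at g1
      have g2 : a' ≤ sc f hf (k + 1) := by
        by_contra g2
        exact hbig ⟨g1, not_le.mp g2⟩
      have m1 := hsmall a' h2 g2
      have m2 := hlarge a g1 hale
      rcases hcl with h | h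
      · exact m2 h.1
      · exact h.2 m1
  unfold table
  rw [Finset.mem_image]
  refine ⟨(a, a'), Finset.mem_product.mpr ⟨Finset.mem_Ioc.mpr ⟨ha, hboth.1⟩,
    Finset.mem_Ioc.mpr ⟨ha', hboth.2⟩⟩, hn.symm⟩

open Classical in
/-- the main theorem in expanded form -/
theorem main (f : ℕ → ℝ) (hf : Tendsto f atTop atTop) :
    ∃ A B : Set ℕ, Disjoint A B ∧ A ∪ B = {n | 0 < n} ∧ A.Nonempty ∧ B.Nonempty ∧
      liminf (fun M : ℕ => (((Finset.Icc 1 M).filter (fun n => ∃ a a' : ℕ,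
        ((a ∈ A ∧ a' ∈ A) ∨ (a ∈ B ∧ a' ∈ B)) ∧ n = a * a' ∧
          f n < min (a : ℝ) (a' : ℝ))).card : ℝ) / M) atTop = 0 := by
  refine ⟨A1 f hf, {n | 0 < n} \ A1 f hf, Set.disjoint_sdiff_right, ?_, ?_, ?_, ?_⟩
  · rw [Set.union_sdiff_cancel]
    intro a ha
    exact ha.1
  · refine ⟨sc f hf 1, ?_, 0, (sc_spec f hf 0).1, le_rfl⟩
    have := sc_pos f hf 1
    omega
  · refine ⟨1, Nat.one_pos, ?_⟩
    rintro ⟨_, k, hk, _⟩
    have := sc_pos f hf k
    nlinarith
  · set D : ℕ → Prop := fun n => ∃ a a' : ℕ,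
        ((a ∈ A1 f hf ∧ a' ∈ A1 f hf) ∨ (a ∈ {n | 0 < n} \ A1 f hf ∧ a' ∈ {n | 0 < n} \ A1 f hf)) ∧
        n = a * a' ∧ f n < min (a : ℝ) (a' : ℝ) with hD
    set u : ℕ → ℝ := fun M : ℕ => (((Finset.Icc 1 M).filter D).card : ℝ) / M with hu
    have hu0 : ∀ M, 0 ≤ u M := fun M => by positivity
    have hu1 : ∀ M, u M ≤ 1 := by
      intro M
      rcases Nat.eq_zero_or_pos M with h | h
      · subst h; simp [hu]
      · have hM : (0 : ℝ) < M := by exact_mod_cast h
        simp only [hu]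
        rw [div_le_one hM]
        have : ((Finset.Icc 1 M).filter D).card ≤ M := by
          refine (Finset.card_filter_le _ _).trans ?_
          simp
        exact_mod_cast this
    have hscale : ∀ k : ℕ, u ((sc f hf (k + 1)) ^ 2) ≤ 3 / ((k : ℝ) + 1) := by
      intro k
      have hN1 := sc_pos f hf (k + 1)
      obtain ⟨N, hN⟩ : ∃ N, N = sc f hf (k + 1) := ⟨_, rfl⟩
      have hNR : (1 : ℝ) ≤ N := by rw [hN]; exact_mod_cast hN1
      have hk : (0 : ℝ) < k + 1 := by positivity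
      rw [← hN]
      have hsub : (Finset.Icc 1 (N ^ 2)).filter D ⊆
          Finset.Icc 1 ⌊(N : ℝ) ^ 2 / (k + 1)⌋₊ ∪ table N := by
        intro n hn
        rw [Finset.mem_filter, Finset.mem_Icc] at hn
        obtain ⟨⟨hn1, hn2⟩, a, a', hcl, hprod, hmin⟩ := hn
        rw [Finset.mem_union]
        by_cases hc : (N : ℝ) ^ 2 / (k + 1) ≤ n
        · right
          have hpos : 0 < a ∧ 0 < a' := by
            constructor <;> rcases Nat.eq_zero_or_pos a with h | h <;>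
              rcases Nat.eq_zero_or_pos a' with h' | h' <;> simp_all
          rw [hN] at hc hn2 ⊢
          refine key f hf k n a a' hpos.1 hpos.2 hprod hn2 hc ?_ hmin
          rcases hcl with h | h
          · exact Or.inl h
          · exact Or.inr ⟨h.1.2, h.2.2⟩
        · left
          rw [not_le] at hc
          rw [Finset.mem_Icc]
          exact ⟨hn1, Nat.le_floor hc.le⟩
      have hcard : (((Finset.Icc 1 (N ^ 2)).filter D).card : ℝ) ≤ 2 / (k + 1) * (N : ℝ) ^ 2 := by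
        have h1 : ((Finset.Icc 1 (N ^ 2)).filter D).card ≤ ⌊(N : ℝ) ^ 2 / (k + 1)⌋₊ + (table N).card := by
          refine (Finset.card_le_card hsub).trans ((Finset.card_union_le _ _).trans ?_)
          simp
        have h2 : (((Finset.Icc 1 (N ^ 2)).filter D).card : ℝ) ≤
            (⌊(N : ℝ) ^ 2 / (k + 1)⌋₊ : ℝ) + (table N).card := by exact_mod_cast h1
        have h3 := Nat.floor_le (show 0 ≤ (N : ℝ) ^ 2 / (k + 1) by positivity)
        have h4 := (sc_spec f hf k).2.1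
        rw [← hN] at h4
        have h5 : 2 / ((k : ℝ) + 1) * (N : ℝ) ^ 2 = (N : ℝ) ^ 2 / (k + 1) +
            1 / ((k : ℝ) + 1) * (N : ℝ) ^ 2 := by ring
        linarith
      simp only [hu]
      rw [div_le_iff₀ (by push_cast; positivity)]
      push_cast
      refine hcard.trans ?_
      apply mul_le_mul_of_nonneg_right _ (by positivity)
      apply div_le_div_of_nonneg_right _ hk.le
      norm_num
    have hbdd : IsBoundedUnder (· ≥ ·) atTop u := isBoundedUnder_of ⟨0, hu0⟩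
    have hcob : IsCoboundedUnder (· ≥ ·) atTop u := by
      apply IsBoundedUnder.isCoboundedUnder_ge
      exact isBoundedUnder_of ⟨1, hu1⟩
    apply le_antisymm
    · apply le_of_forall_pos_le_add
      intro ε hε
      rw [zero_add]
      apply liminf_le_of_frequently_le _ hbdd
      rw [frequently_atTop]
      intro M0
      obtain ⟨k0, hk0⟩ := exists_nat_gt (3 / ε)
      refine ⟨(sc f hf (k0 + M0 + 1)) ^ 2, ?_, ?_⟩
      · have := sc_ge f hf (k0 + M0 + 1)
        nlinarith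
      · refine (hscale (k0 + M0)).trans ?_
        rw [div_le_iff₀ (by positivity)]
        rw [div_lt_iff₀ hε] at hk0
        push_cast
        have : (0 : ℝ) ≤ M0 := Nat.cast_nonneg _
        nlinarith
    · exact le_liminf_of_le hcob (Eventually.of_forall hu0)

end Pool.Agent.Helpers.H4MulTable
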