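import Mathlib

open Real Finset

namespace H4Res

/-! ### coefficient bounds from the resolvent estimate -/

section coeff

variable {A : Type*} [NormedRing A] [NormedAlgebra ℂ A] [CompleteSpace A]

/-- the derivative of `u ↦ ((1 - uT)⁻¹)^k`. -/
lemma hasDerivAt_pow_inv (T : A) (k : ℕ) (u : ℂ) (hu : IsUnit (1 - u • T)) :
    HasDerivAt (fun u : ℂ => (Ring.inverse (1 - u • T)) ^ k)
      ((k : ℂ) • ((Ring.inverse (1 - u • T)) ^ (k + 1) * T)) u := by
  obtain ⟨v, hv⟩ := hu
  have h0 : HasDerivAt (fun u : ℂ => (1 : A) - u • T) (-T) u := by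
    have := ((hasDerivAt_id u).smul_const T).const_sub (1 : A)
    simpa using this
  have h1 : HasDerivAt (fun u : ℂ => Ring.inverse (1 - u • T))
      ((Ring.inverse (1 - u • T)) ^ 2 * T) u := by
    have hF := hasFDerivAt_ringInverse (𝕜 := ℂ) v
    rw [hv] at hF
    have := hF.comp_hasDerivAt u h0
    have hc : Commute T (Ring.inverse (1 - u • T)) := by
      rw [← hv, Ring.inverse_unit]
      have : Commute T (v : A) := by
        rw [hv]
        exact (Commute.one_right T).sub_right ((Commute.refl T).smul_right u)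
      exact this.units_inv_right
    refine this.congr_deriv ?_
    have h2 : (↑v⁻¹ : A) = Ring.inverse (1 - u • T) := by rw [← hv, Ring.inverse_unit]
    rw [neg_apply, ContinuousLinearMap.mulLeftRight_apply, h2]
    rw [mul_neg, neg_mul, neg_neg, mul_assoc, hc.eq, ← mul_assoc, pow_two]
  have hc : Commute T (Ring.inverse (1 - u • T)) := by
    rw [← hv, Ring.inverse_unit]
    have : Commute T (v : A) := by
      rw [hv]
      exact (Commute.one_right T).sub_right ((Commute.refl T).smul_right u)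
    exact this.units_inv_right
  induction k with
  | zero => simpa using hasDerivAt_const u (1 : A)
  | succ k ih =>
    have := ih.mul h1
    have hfun : (fun u : ℂ => Ring.inverse (1 - u • T) ^ (k + 1))
        = (fun u : ℂ => Ring.inverse (1 - u • T) ^ k) * fun u : ℂ => Ring.inverse (1 - u • T) := by
      funext w
      rw [Pi.mul_apply, pow_succ]
    rw [hfun]
    refine this.congr_deriv ?_
    have e1 : Ring.inverse (1 - u • T) ^ (k + 1) * T * Ring.inverse (1 - u • T)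
        = Ring.inverse (1 - u • T) ^ (k + 2) * T := by
      rw [mul_assoc, hc.eq, ← mul_assoc, ← pow_succ]
    have e2 : Ring.inverse (1 - u • T) ^ k * (Ring.inverse (1 - u • T) ^ 2 * T)
        = Ring.inverse (1 - u • T) ^ (k + 2) * T := by
      rw [← mul_assoc, ← pow_add]
    rw [smul_mul_assoc, e1, e2, Nat.cast_succ, add_smul, one_smul]

lemma iteratedDeriv_pow_inv (T : A) (k j : ℕ) (u : ℂ) (hu : IsUnit (1 - u • T)) :
    iteratedDeriv j (fun u : ℂ => (Ring.inverse (1 - u • T)) ^ k) u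
      = (k.ascFactorial j : ℂ) • ((Ring.inverse (1 - u • T)) ^ (k + j) * T ^ j) := by
  induction j generalizing u with
  | zero => simp
  | succ j ih =>
    rw [iteratedDeriv_succ]
    have hopen : IsOpen {u : ℂ | IsUnit (1 - u • T)} := by
      have : Continuous (fun u : ℂ => (1 : A) - u • T) := by fun_prop
      exact Units.isOpen.preimage this
    have hev : iteratedDeriv j (fun u : ℂ => (Ring.inverse (1 - u • T)) ^ k) =ᶠ[nhds u]
        fun u => (k.ascFactorial j : ℂ) • ((Ring.inverse (1 - u • T)) ^ (k + j) * T ^ j) := by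
      filter_upwards [hopen.mem_nhds hu] with w hw
      exact ih w hw
    rw [hev.deriv_eq]
    have := (((hasDerivAt_pow_inv T (k + j) u hu).mul_const (T ^ j)).const_smul
      (k.ascFactorial j : ℂ)).deriv
    change deriv (fun u : ℂ => (k.ascFactorial j : ℂ) • ((Ring.inverse (1 - u • T)) ^ (k + j) * T ^ j)) u = _ at this
    rw [this, Nat.ascFactorial_succ, smul_mul_assoc, smul_smul, mul_assoc, ← pow_succ']
    congr 1
    push_cast
    ring

lemma isUnit_one_sub (T : A) (hT : spectrum ℂ T ⊆ Metric.ball 0 1) (u : ℂ) (hu : ‖u‖ ≤ 1) :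
    IsUnit (1 - u • T) := by
  by_cases h0 : u = 0
  · simp [h0]
  have h1 : u⁻¹ ∉ spectrum ℂ T := by
    intro h
    have := hT h
    rw [mem_ball_zero_iff, norm_inv] at this
    have hpos : 0 < ‖u‖ := norm_pos_iff.mpr h0
    have : 1 ≤ ‖u‖⁻¹ := (one_le_inv₀ hpos).mpr hu
    linarith
  rw [spectrum.notMem_iff] at h1
  have h2 : (1 - u • T) = u • (algebraMap ℂ A u⁻¹ - T) := by
    rw [smul_sub, Algebra.algebraMap_eq_smul_one, smul_smul, mul_inv_cancel₀ h0, one_smul]
  rw [h2]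
  exact h1.smul (Units.mk0 u h0)

lemma norm_inverse_le (T : A) (hT : spectrum ℂ T ⊆ Metric.ball 0 1) (M : ℝ)
    (hM : ∀ z : ℂ, 1 ≤ ‖z‖ → ‖resolvent T z‖ ≤ M) (u : ℂ) (hu : ‖u‖ = 1) :
    ‖Ring.inverse (1 - u • T)‖ ≤ M := by
  have h0 : u ≠ 0 := by
    intro h; rw [h, norm_zero] at hu; exact zero_ne_one hu
  have h1 : 1 ≤ ‖u⁻¹‖ := by rw [norm_inv, hu, inv_one]
  have h2 := hM u⁻¹ h1
  have h3 : (1 - u • T) = u • (algebraMap ℂ A u⁻¹ - T) := by
    rw [smul_sub, Algebra.algebraMap_eq_smul_one, smul_smul, mul_inv_cancel₀ h0, one_smul]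
  have hunit : IsUnit (algebraMap ℂ A u⁻¹ - T) := by
    have := isUnit_one_sub T hT u hu.le
    rw [h3] at this
    have h4 := this.smul (Units.mk0 u h0)⁻¹
    rw [Units.smul_def] at h4
    simpa [smul_smul, inv_mul_cancel₀ h0] using h4
  obtain ⟨v, hv⟩ := hunit
  have h5 : Ring.inverse (1 - u • T) = u⁻¹ • resolvent T u⁻¹ := by
    unfold resolvent
    rw [h3, ← hv, Ring.inverse_unit]
    let w : Aˣ := ⟨u • (v : A), u⁻¹ • (↑v⁻¹ : A), by
      rw [smul_mul_smul_comm, mul_inv_cancel₀ h0, Units.mul_inv, one_smul], by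
      rw [smul_mul_smul_comm, inv_mul_cancel₀ h0, Units.inv_mul, one_smul]⟩
    exact Ring.inverse_unit w
  rw [h5, norm_smul, norm_inv, hu, inv_one, one_mul]
  exact h2

/-- **Coefficient bound.** -/
lemma coeff_bound [NormOneClass A] (T : A) (hT : spectrum ℂ T ⊆ Metric.ball 0 1) (M : ℝ)
    (hM : ∀ z : ℂ, 1 ≤ ‖z‖ → ‖resolvent T z‖ ≤ M) (j κ : ℕ) :
    ‖T ^ j‖ * ((κ + j).choose j : ℝ) ≤ M ^ (κ + 1) := by
  have hU : ∀ u ∈ Metric.closedBall (0 : ℂ) 1, IsUnit (1 - u • T) := fun u hu =>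
    isUnit_one_sub T hT u (by simpa using hu)
  have hD : DiffContOnCl ℂ (fun u : ℂ => (Ring.inverse (1 - u • T)) ^ (κ + 1))
      (Metric.ball (0 : ℂ) 1) := by
    apply DifferentiableOn.diffContOnCl
    intro u hu
    rw [closure_ball (0 : ℂ) one_ne_zero] at hu
    exact ((hasDerivAt_pow_inv T (κ + 1) u (hU u hu)).differentiableAt).differentiableWithinAt
  have hC : ∀ z ∈ Metric.sphere (0 : ℂ) 1,
      ‖(fun u : ℂ => (Ring.inverse (1 - u • T)) ^ (κ + 1)) z‖ ≤ M ^ (κ + 1) := by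
    intro z hz
    have hz' : ‖z‖ = 1 := by simpa using hz
    refine (norm_pow_le' _ (Nat.succ_pos κ)).trans ?_
    exact pow_le_pow_left₀ (norm_nonneg _) (norm_inverse_le T hT M hM z hz') _
  have h1 := Complex.norm_iteratedDeriv_le_of_forall_mem_sphere_norm_le j one_pos hD hC
  rw [iteratedDeriv_pow_inv T (κ + 1) j 0 (by simp)] at h1
  simp only [zero_smul, sub_zero, Ring.inverse_one, one_pow, one_mul, norm_smul, div_one] at h1
  rw [Nat.ascFactorial_eq_factorial_mul_choose] at h1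
  have hf : (0 : ℝ) < (j.factorial : ℝ) := by exact_mod_cast j.factorial_pos
  have h2 : ‖(((j.factorial * (κ + j).choose j : ℕ)) : ℂ)‖
      = (j.factorial : ℝ) * ((κ + j).choose j : ℝ) := by
    rw [Complex.norm_natCast]; push_cast; ring
  rw [h2] at h1
  have h3 : (j.factorial : ℝ) * (‖T ^ j‖ * ((κ + j).choose j : ℝ)) ≤ j.factorial * M ^ (κ + 1) := by
    calc _ = (j.factorial : ℝ) * ((κ + j).choose j : ℝ) * ‖T ^ j‖ := by ring
      _ ≤ _ := h1
  exact le_of_mul_le_mul_left h3 hf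

end coeff

/-! ### the general summation lemma -/

section sum

variable {a : ℕ → ℝ} {M : ℝ}

lemma single_bound (ha : ∀ j, 0 ≤ a j) (H : ∀ j κ, a j * ((κ + j).choose j : ℝ) ≤ M ^ (κ + 1))
    (j k : ℕ) (hk : 1 ≤ k) : a (j + 1) ≤ M ^ k / ((j + k).choose (j + 1) : ℝ) := by
  obtain ⟨κ, rfl⟩ : ∃ κ, k = κ + 1 := ⟨k - 1, by omega⟩
  have := H (j + 1) κ
  have e : κ + (j + 1) = j + (κ + 1) := by ring
  rw [e] at this
  have hpos : (0 : ℝ) < ((j + (κ + 1)).choose (j + 1) : ℝ) := by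
    exact_mod_cast Nat.choose_pos (by omega)
  rwa [le_div_iff₀ hpos]

lemma tele (L i : ℕ) (hL : 1 ≤ L) :
    1 / ((i + (L + 2)).choose (i + 1) : ℝ)
      = (L + 1) / (L * ((i + L + 1).choose (i + 1) : ℝ))
        - (L + 1) / (L * (((i + 1) + L + 1).choose ((i + 1) + 1) : ℝ)) := by
  have h1 : (i + L + 1 + 1) * (i + L + 1).choose (i + 1)
      = (i + L + 1 + 1).choose (i + 1) * (i + L + 1 + 1 - (i + 1)) := by
    rw [mul_comm]; exact Nat.choose_mul_succ_eq (i + L + 1) (i + 1)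
  have h2 : (i + L + 2).choose (i + 2) * (i + 2) = (i + L + 2).choose (i + 1) * (i + L + 2 - (i + 1)) :=
    Nat.choose_succ_right_eq (i + L + 2) (i + 1)
  have e1 : i + L + 1 + 1 - (i + 1) = L + 1 := by omega
  have e2 : i + L + 2 - (i + 1) = L + 1 := by omega
  rw [e1] at h1
  rw [e2] at h2
  have e3 : i + (L + 2) = i + L + 2 := by ring
  have e4 : (i + 1) + L + 1 = i + L + 2 := by ring
  have e5 : i + L + 1 + 1 = i + L + 2 := by ring
  rw [e5] at h1
  rw [e3, e4]
  have p1 : (0 : ℝ) < ((i + L + 2).choose (i + 1) : ℝ) := by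
    exact_mod_cast Nat.choose_pos (by omega)
  have p2 : (0 : ℝ) < ((i + L + 1).choose (i + 1) : ℝ) := by
    exact_mod_cast Nat.choose_pos (by omega)
  have p3 : (0 : ℝ) < ((i + L + 2).choose (i + 2) : ℝ) := by
    exact_mod_cast Nat.choose_pos (by omega)
  have hLp : (0 : ℝ) < L := by exact_mod_cast hL
  have h1' : ((i : ℝ) + L + 2) * ((i + L + 1).choose (i + 1) : ℝ)
      = ((i + L + 2).choose (i + 1) : ℝ) * (L + 1) := by exact_mod_cast h1
  have h2' : ((i + L + 2).choose (i + 2) : ℝ) * (i + 2)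
      = ((i + L + 2).choose (i + 1) : ℝ) * (L + 1) := by exact_mod_cast h2
  have hi : (0 : ℝ) ≤ i := Nat.cast_nonneg i
  have q1 : ((i + L + 1).choose (i + 1) : ℝ)
      = ((i + L + 2).choose (i + 1) : ℝ) * (L + 1) / (i + L + 2) := by
    field_simp; linarith
  have q2 : ((i + L + 2).choose (i + 2) : ℝ)
      = ((i + L + 2).choose (i + 1) : ℝ) * (L + 1) / (i + 2) := by
    field_simp; linarith
  rw [show i + 1 + 1 = i + 2 from rfl, q1, q2]
  field_simp
  ring

/-- **General summation lemma.** -/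
lemma G (hM : 0 ≤ M) (ha : ∀ j, 0 ≤ a j)
    (H : ∀ j κ, a j * ((κ + j).choose j : ℝ) ≤ M ^ (κ + 1))
    (J L : ℕ) (k : ℕ → ℕ) (hk : ∀ j < J, 1 ≤ k j) (hL : 1 ≤ L) (N : ℕ) :
    ∑ j ∈ range N, a (j + 1) ≤ ∑ j ∈ range J, M ^ (k j) / ((j + k j).choose (j + 1) : ℝ)
      + M ^ (L + 2) * ((L + 1) / (L * ((J + L + 1).choose (J + 1) : ℝ))) := by
  have hLp : (0 : ℝ) < L := by exact_mod_cast hL
  have h1 : ∑ j ∈ range N, a (j + 1) ≤ ∑ j ∈ range (J + N), a (j + 1) :=
    sum_le_sum_of_subset_of_nonneg (range_mono (by omega)) (fun i _ _ => ha _)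
  have h2 : ∑ j ∈ range (J + N), a (j + 1)
      = ∑ j ∈ range J, a (j + 1) + ∑ i ∈ range N, a (J + i + 1) := by
    rw [sum_range_add]
  have h3 : ∑ j ∈ range J, a (j + 1)
      ≤ ∑ j ∈ range J, M ^ (k j) / ((j + k j).choose (j + 1) : ℝ) :=
    sum_le_sum fun j hj => single_bound ha H j (k j) (hk j (mem_range.mp hj))
  have h4 : ∀ N, ∑ i ∈ range N, a (J + i + 1)
      ≤ M ^ (L + 2) * ((L + 1) / (L * ((J + L + 1).choose (J + 1) : ℝ))
        - (L + 1) / (L * ((J + N + L + 1).choose (J + N + 1) : ℝ))) := by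
    intro N
    induction N with
    | zero => simp
    | succ N ih =>
      rw [sum_range_succ]
      have h5 := single_bound ha H (J + N) (L + 2) (by omega)
      have h6 := tele L (J + N) hL
      have h7 : M ^ (L + 2) / ((J + N + (L + 2)).choose (J + N + 1) : ℝ)
        = M ^ (L + 2) * (1 / ((J + N + (L + 2)).choose (J + N + 1) : ℝ)) := by ring
      rw [h7, h6] at h5
      have e : J + (N + 1) + L + 1 = J + N + 1 + L + 1 := by ring
      have e' : J + (N + 1) + 1 = J + N + 1 + 1 := by ring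
      rw [e, e']
      linarith
  have h8 := h4 N
  have h9 : 0 ≤ M ^ (L + 2) * ((L + 1) / (L * ((J + N + L + 1).choose (J + N + 1) : ℝ))) := by
    positivity
  rw [mul_sub] at h8
  linarith

lemma one_le_M (ha0 : a 0 = 1) (H : ∀ j κ, a j * ((κ + j).choose j : ℝ) ≤ M ^ (κ + 1)) :
    1 ≤ M := by
  have := H 0 0
  simpa [ha0] using this

lemma zero_of_one (ha : ∀ j, 0 ≤ a j)
    (H : ∀ j κ, a j * ((κ + j).choose j : ℝ) ≤ (1 : ℝ) ^ (κ + 1)) (j : ℕ) : a (j + 1) = 0 := by
  by_contra hne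
  have hpos : 0 < a (j + 1) := lt_of_le_of_ne (ha _) (Ne.symm hne)
  obtain ⟨κ, hκ⟩ := exists_nat_gt (1 / a (j + 1))
  have h1 := H (j + 1) κ
  rw [one_pow] at h1
  have h2 : (κ : ℝ) ≤ ((κ + (j + 1)).choose (j + 1) : ℝ) := by
    have : κ ≤ (κ + (j + 1)).choose (j + 1) := by
      have h3 : (κ + (j + 1)).choose (j + 1) ≥ (κ + 1).choose 1 := by
        rw [show (κ + (j + 1)).choose (j + 1) = (κ + (j + 1)).choose κ from
          Nat.choose_symm_of_eq_add (by ring), show (κ + 1).choose 1 = (κ + 1).choose κ from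
          Nat.choose_symm_of_eq_add (by ring)]
        exact Nat.choose_le_choose κ (by omega)
      rw [Nat.choose_one_right] at h3
      omega
    exact_mod_cast this
  have h4 : 1 < κ * a (j + 1) := by
    rwa [div_lt_iff₀ hpos] at hκ
  nlinarith

end sum

end H4Res
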