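import Pool.Agent.Helpers.H4_Res1

open Real Finset

namespace H4Res

lemma chord (A B x : ℝ) (n : ℕ) (hA : 0 ≤ A) (h1 : A ≤ x) (h2 : x ≤ B) (hAB : A < B) :
    x ^ n ≤ A ^ n + (B ^ n - A ^ n) / (B - A) * (x - A) := by
  have q1 : 0 ≤ (B - x) / (B - A) := div_nonneg (by linarith) (by linarith)
  have q2 : 0 ≤ (x - A) / (B - A) := div_nonneg (by linarith) (by linarith)
  have q3 : (B - x) / (B - A) + (x - A) / (B - A) = 1 := by
    have : B - A ≠ 0 := by linarith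
    field_simp; ring
  have hc := (convexOn_pow (𝕜 := ℝ) n).2 (show A ∈ Set.Ici (0 : ℝ) from hA)
    (show B ∈ Set.Ici (0 : ℝ) from hA.trans hAB.le) q1 q2 q3
  simp only [smul_eq_mul] at hc
  have hne : B - A ≠ 0 := by linarith
  have e1 : (B - x) / (B - A) * A + (x - A) / (B - A) * B = x := by field_simp; ring
  rw [e1] at hc
  refine hc.trans (le_of_eq ?_)
  field_simp
  ring

lemma tangent (c x : ℝ) : (2 * c - 1) * (x - c) + (c ^ 2 - c) ≤ x * (x - 1) := by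
  nlinarith [sq_nonneg (x - c)]

variable {a : ℕ → ℝ} {M : ℝ}

lemma e_lower : (2.7182 : ℝ) < Real.exp 1 := by
  have := Real.exp_one_gt_d9; linarith

lemma fin_step (M R S : ℝ) (hM : 1 ≤ M) (h : R ≤ 2.7182 * S) (hS : S ≤ M * (M - 1)) :
    R ≤ Real.exp 1 * (M * (M - 1)) := by
  have h0 : 0 ≤ M * (M - 1) := mul_nonneg (by linarith) (by linarith)
  have h1 := e_lower
  nlinarith

lemma part2_0 (h1 : 7/6 ≤ M) (h2 : M ≤ 73/60) (ha : ∀ j, 0 ≤ a j)
    (H : ∀ j κ, a j * ((κ + j).choose j : ℝ) ≤ M ^ (κ + 1)) (N : ℕ) :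
    ∑ j ∈ range N, a (j + 1) ≤ Real.exp 1 * (M * (M - 1)) := by
  have hM : 1 ≤ M := by linarith
  have hG := G (a := a) (M := M) (by linarith) ha H 2 15 (fun j => ([6,11] : List ℕ).getD j 1)
    (by intro j hj; interval_cases j <;> simp) (by norm_num) N
  have e : (∑ j ∈ range 2, M ^ ((fun j => ([6,11] : List ℕ).getD j 1) j) /
      ((j + (fun j => ([6,11] : List ℕ).getD j 1) j).choose (j + 1) : ℝ)
      + M ^ (15 + 2) * ((((15 : ℕ) : ℝ) + 1) / ((15 : ℕ) * ((2 + 15 + 1).choose (2 + 1) : ℝ))))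
      = M ^ 6 / 6 + M ^ 11 / 66 + M ^ 17 * (1 / 765) := by
    simp only [sum_range_succ, sum_range_zero, List.getD_cons_zero, List.getD_cons_succ]
    norm_num [Nat.choose]
  rw [e] at hG
  refine hG.trans (fin_step M _ ((2 * (143/120) - 1) * (M - (143/120)) + ((143/120) ^ 2 - (143/120))) hM ?_ (tangent _ _))
  have p0 := chord (7/6) (73/60) M 6 (by norm_num) h1 h2 (by norm_num)
  have p1 := chord (7/6) (73/60) M 11 (by norm_num) h1 h2 (by norm_num)
  have p2 := chord (7/6) (73/60) M 17 (by norm_num) h1 h2 (by norm_num)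
  norm_num at p0 p1 p2 ⊢
  linarith

lemma part2_1 (h1 : 73/60 ≤ M) (h2 : M ≤ 77/60) (ha : ∀ j, 0 ≤ a j)
    (H : ∀ j κ, a j * ((κ + j).choose j : ℝ) ≤ M ^ (κ + 1)) (N : ℕ) :
    ∑ j ∈ range N, a (j + 1) ≤ Real.exp 1 * (M * (M - 1)) := by
  have hM : 1 ≤ M := by linarith
  have hG := G (a := a) (M := M) (by linarith) ha H 2 12 (fun j => ([5,9] : List ℕ).getD j 1)
    (by intro j hj; interval_cases j <;> simp) (by norm_num) N
  have e : (∑ j ∈ range 2, M ^ ((fun j => ([5,9] : List ℕ).getD j 1) j) /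
      ((j + (fun j => ([5,9] : List ℕ).getD j 1) j).choose (j + 1) : ℝ)
      + M ^ (12 + 2) * ((((12 : ℕ) : ℝ) + 1) / ((12 : ℕ) * ((2 + 12 + 1).choose (2 + 1) : ℝ))))
      = M ^ 5 / 5 + M ^ 9 / 45 + M ^ 14 * (1 / 420) := by
    simp only [sum_range_succ, sum_range_zero, List.getD_cons_zero, List.getD_cons_succ]
    norm_num [Nat.choose]
  rw [e] at hG
  refine hG.trans (fin_step M _ ((2 * (5/4) - 1) * (M - (5/4)) + ((5/4) ^ 2 - (5/4))) hM ?_ (tangent _ _))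
  have p0 := chord (73/60) (77/60) M 5 (by norm_num) h1 h2 (by norm_num)
  have p1 := chord (73/60) (77/60) M 9 (by norm_num) h1 h2 (by norm_num)
  have p2 := chord (73/60) (77/60) M 14 (by norm_num) h1 h2 (by norm_num)
  norm_num at p0 p1 p2 ⊢
  linarith

lemma part2_2 (h1 : 77/60 ≤ M) (h2 : M ≤ 83/60) (ha : ∀ j, 0 ≤ a j)
    (H : ∀ j κ, a j * ((κ + j).choose j : ℝ) ≤ M ^ (κ + 1)) (N : ℕ) :
    ∑ j ∈ range N, a (j + 1) ≤ Real.exp 1 * (M * (M - 1)) := by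
  have hM : 1 ≤ M := by linarith
  have hG := G (a := a) (M := M) (by linarith) ha H 3 12 (fun j => ([4,7,10] : List ℕ).getD j 1)
    (by intro j hj; interval_cases j <;> simp) (by norm_num) N
  have e : (∑ j ∈ range 3, M ^ ((fun j => ([4,7,10] : List ℕ).getD j 1) j) /
      ((j + (fun j => ([4,7,10] : List ℕ).getD j 1) j).choose (j + 1) : ℝ)
      + M ^ (12 + 2) * ((((12 : ℕ) : ℝ) + 1) / ((12 : ℕ) * ((3 + 12 + 1).choose (3 + 1) : ℝ))))
      = M ^ 4 / 4 + M ^ 7 / 28 + M ^ 10 / 220 + M ^ 14 * (1 / 1680) := by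
    simp only [sum_range_succ, sum_range_zero, List.getD_cons_zero, List.getD_cons_succ]
    norm_num [Nat.choose]
  rw [e] at hG
  refine hG.trans (fin_step M _ ((2 * (4/3) - 1) * (M - (4/3)) + ((4/3) ^ 2 - (4/3))) hM ?_ (tangent _ _))
  have p0 := chord (77/60) (83/60) M 4 (by norm_num) h1 h2 (by norm_num)
  have p1 := chord (77/60) (83/60) M 7 (by norm_num) h1 h2 (by norm_num)
  have p2 := chord (77/60) (83/60) M 10 (by norm_num) h1 h2 (by norm_num)
  have p3 := chord (77/60) (83/60) M 14 (by norm_num) h1 h2 (by norm_num)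
  norm_num at p0 p1 p2 p3 ⊢
  linarith

lemma part2_3 (h1 : 83/60 ≤ M) (h2 : M ≤ 47/30) (ha : ∀ j, 0 ≤ a j)
    (H : ∀ j κ, a j * ((κ + j).choose j : ℝ) ≤ M ^ (κ + 1)) (N : ℕ) :
    ∑ j ∈ range N, a (j + 1) ≤ Real.exp 1 * (M * (M - 1)) := by
  have hM : 1 ≤ M := by linarith
  have hG := G (a := a) (M := M) (by linarith) ha H 3 8 (fun j => ([3,5,6] : List ℕ).getD j 1)
    (by intro j hj; interval_cases j <;> simp) (by norm_num) N
  have e : (∑ j ∈ range 3, M ^ ((fun j => ([3,5,6] : List ℕ).getD j 1) j) /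
      ((j + (fun j => ([3,5,6] : List ℕ).getD j 1) j).choose (j + 1) : ℝ)
      + M ^ (8 + 2) * ((((8 : ℕ) : ℝ) + 1) / ((8 : ℕ) * ((3 + 8 + 1).choose (3 + 1) : ℝ))))
      = M ^ 3 / 3 + M ^ 5 / 15 + M ^ 6 / 56 + M ^ 10 * (1 / 440) := by
    simp only [sum_range_succ, sum_range_zero, List.getD_cons_zero, List.getD_cons_succ]
    norm_num [Nat.choose]
  rw [e] at hG
  refine hG.trans (fin_step M _ ((2 * (59/40) - 1) * (M - (59/40)) + ((59/40) ^ 2 - (59/40))) hM ?_ (tangent _ _))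
  have p0 := chord (83/60) (47/30) M 3 (by norm_num) h1 h2 (by norm_num)
  have p1 := chord (83/60) (47/30) M 5 (by norm_num) h1 h2 (by norm_num)
  have p2 := chord (83/60) (47/30) M 6 (by norm_num) h1 h2 (by norm_num)
  have p3 := chord (83/60) (47/30) M 10 (by norm_num) h1 h2 (by norm_num)
  norm_num at p0 p1 p2 p3 ⊢
  linarith

lemma part2_4 (h1 : 47/30 ≤ M) (h2 : M ≤ 113/60) (ha : ∀ j, 0 ≤ a j)
    (H : ∀ j κ, a j * ((κ + j).choose j : ℝ) ≤ M ^ (κ + 1)) (N : ℕ) :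
    ∑ j ∈ range N, a (j + 1) ≤ Real.exp 1 * (M * (M - 1)) := by
  have hM : 1 ≤ M := by linarith
  have hG := G (a := a) (M := M) (by linarith) ha H 5 8 (fun j => ([2,3,5,6,7] : List ℕ).getD j 1)
    (by intro j hj; interval_cases j <;> simp) (by norm_num) N
  have e : (∑ j ∈ range 5, M ^ ((fun j => ([2,3,5,6,7] : List ℕ).getD j 1) j) /
      ((j + (fun j => ([2,3,5,6,7] : List ℕ).getD j 1) j).choose (j + 1) : ℝ)
      + M ^ (8 + 2) * ((((8 : ℕ) : ℝ) + 1) / ((8 : ℕ) * ((5 + 8 + 1).choose (5 + 1) : ℝ))))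
      = M ^ 2 / 2 + M ^ 3 / 6 + M ^ 5 / 35 + M ^ 6 / 126 + M ^ 7 / 462 + M ^ 10 * (3 / 8008) := by
    simp only [sum_range_succ, sum_range_zero, List.getD_cons_zero, List.getD_cons_succ]
    norm_num [Nat.choose]
  rw [e] at hG
  refine hG.trans (fin_step M _ ((2 * (69/40) - 1) * (M - (69/40)) + ((69/40) ^ 2 - (69/40))) hM ?_ (tangent _ _))
  have p0 := chord (47/30) (113/60) M 2 (by norm_num) h1 h2 (by norm_num)
  have p1 := chord (47/30) (113/60) M 3 (by norm_num) h1 h2 (by norm_num)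
  have p2 := chord (47/30) (113/60) M 5 (by norm_num) h1 h2 (by norm_num)
  have p3 := chord (47/30) (113/60) M 6 (by norm_num) h1 h2 (by norm_num)
  have p4 := chord (47/30) (113/60) M 7 (by norm_num) h1 h2 (by norm_num)
  have p5 := chord (47/30) (113/60) M 10 (by norm_num) h1 h2 (by norm_num)
  norm_num at p0 p1 p2 p3 p4 p5 ⊢
  linarith

lemma part2_5 (h1 : 113/60 ≤ M) (h2 : M ≤ 137/60) (ha : ∀ j, 0 ≤ a j)
    (H : ∀ j κ, a j * ((κ + j).choose j : ℝ) ≤ M ^ (κ + 1)) (N : ℕ) :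
    ∑ j ∈ range N, a (j + 1) ≤ Real.exp 1 * (M * (M - 1)) := by
  have hM : 1 ≤ M := by linarith
  have hG := G (a := a) (M := M) (by linarith) ha H 5 5 (fun j => ([2,2,3,4,5] : List ℕ).getD j 1)
    (by intro j hj; interval_cases j <;> simp) (by norm_num) N
  have e : (∑ j ∈ range 5, M ^ ((fun j => ([2,2,3,4,5] : List ℕ).getD j 1) j) /
      ((j + (fun j => ([2,2,3,4,5] : List ℕ).getD j 1) j).choose (j + 1) : ℝ)
      + M ^ (5 + 2) * ((((5 : ℕ) : ℝ) + 1) / ((5 : ℕ) * ((5 + 5 + 1).choose (5 + 1) : ℝ))))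
      = M ^ 2 / 2 + M ^ 2 / 3 + M ^ 3 / 10 + M ^ 4 / 35 + M ^ 5 / 126 + M ^ 7 * (1 / 385) := by
    simp only [sum_range_succ, sum_range_zero, List.getD_cons_zero, List.getD_cons_succ]
    norm_num [Nat.choose]
  rw [e] at hG
  refine hG.trans (fin_step M _ ((2 * (25/12) - 1) * (M - (25/12)) + ((25/12) ^ 2 - (25/12))) hM ?_ (tangent _ _))
  have p0 := chord (113/60) (137/60) M 2 (by norm_num) h1 h2 (by norm_num)
  have p1 := chord (113/60) (137/60) M 3 (by norm_num) h1 h2 (by norm_num)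
  have p2 := chord (113/60) (137/60) M 4 (by norm_num) h1 h2 (by norm_num)
  have p3 := chord (113/60) (137/60) M 5 (by norm_num) h1 h2 (by norm_num)
  have p4 := chord (113/60) (137/60) M 7 (by norm_num) h1 h2 (by norm_num)
  norm_num at p0 p1 p2 p3 p4 ⊢
  linarith

lemma part2_6 (h1 : 137/60 ≤ M) (h2 : M ≤ 187/60) (ha : ∀ j, 0 ≤ a j)
    (H : ∀ j κ, a j * ((κ + j).choose j : ℝ) ≤ M ^ (κ + 1)) (N : ℕ) :
    ∑ j ∈ range N, a (j + 1) ≤ Real.exp 1 * (M * (M - 1)) := by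
  have hM : 1 ≤ M := by linarith
  have hG := G (a := a) (M := M) (by linarith) ha H 6 4 (fun j => ([1,2,2,3,4,4] : List ℕ).getD j 1)
    (by intro j hj; interval_cases j <;> simp) (by norm_num) N
  have e : (∑ j ∈ range 6, M ^ ((fun j => ([1,2,2,3,4,4] : List ℕ).getD j 1) j) /
      ((j + (fun j => ([1,2,2,3,4,4] : List ℕ).getD j 1) j).choose (j + 1) : ℝ)
      + M ^ (4 + 2) * ((((4 : ℕ) : ℝ) + 1) / ((4 : ℕ) * ((6 + 4 + 1).choose (6 + 1) : ℝ))))
      = M ^ 1 / 1 + M ^ 2 / 3 + M ^ 2 / 4 + M ^ 3 / 15 + M ^ 4 / 56 + M ^ 4 / 84 + M ^ 6 * (1 / 264) := by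
    simp only [sum_range_succ, sum_range_zero, List.getD_cons_zero, List.getD_cons_succ]
    norm_num [Nat.choose]
  rw [e] at hG
  refine hG.trans (fin_step M _ ((2 * (27/10) - 1) * (M - (27/10)) + ((27/10) ^ 2 - (27/10))) hM ?_ (tangent _ _))
  have p0 := chord (137/60) (187/60) M 1 (by norm_num) h1 h2 (by norm_num)
  have p1 := chord (137/60) (187/60) M 2 (by norm_num) h1 h2 (by norm_num)
  have p2 := chord (137/60) (187/60) M 3 (by norm_num) h1 h2 (by norm_num)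
  have p3 := chord (137/60) (187/60) M 4 (by norm_num) h1 h2 (by norm_num)
  have p4 := chord (137/60) (187/60) M 6 (by norm_num) h1 h2 (by norm_num)
  norm_num at p0 p1 p2 p3 p4 ⊢
  linarith

lemma part2_7 (h1 : 187/60 ≤ M) (h2 : M ≤ 4) (ha : ∀ j, 0 ≤ a j)
    (H : ∀ j κ, a j * ((κ + j).choose j : ℝ) ≤ M ^ (κ + 1)) (N : ℕ) :
    ∑ j ∈ range N, a (j + 1) ≤ Real.exp 1 * (M * (M - 1)) := by
  have hM : 1 ≤ M := by linarith
  have hG := G (a := a) (M := M) (by linarith) ha H 5 2 (fun j => ([1,1,2,2,3] : List ℕ).getD j 1)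
    (by intro j hj; interval_cases j <;> simp) (by norm_num) N
  have e : (∑ j ∈ range 5, M ^ ((fun j => ([1,1,2,2,3] : List ℕ).getD j 1) j) /
      ((j + (fun j => ([1,1,2,2,3] : List ℕ).getD j 1) j).choose (j + 1) : ℝ)
      + M ^ (2 + 2) * ((((2 : ℕ) : ℝ) + 1) / ((2 : ℕ) * ((5 + 2 + 1).choose (5 + 1) : ℝ))))
      = M ^ 1 / 1 + M ^ 1 / 1 + M ^ 2 / 4 + M ^ 2 / 5 + M ^ 3 / 21 + M ^ 4 * (3 / 56) := by
    simp only [sum_range_succ, sum_range_zero, List.getD_cons_zero, List.getD_cons_succ]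
    norm_num [Nat.choose]
  rw [e] at hG
  refine hG.trans (fin_step M _ ((2 * (427/120) - 1) * (M - (427/120)) + ((427/120) ^ 2 - (427/120))) hM ?_ (tangent _ _))
  have p0 := chord (187/60) (4) M 1 (by norm_num) h1 h2 (by norm_num)
  have p1 := chord (187/60) (4) M 2 (by norm_num) h1 h2 (by norm_num)
  have p2 := chord (187/60) (4) M 3 (by norm_num) h1 h2 (by norm_num)
  have p3 := chord (187/60) (4) M 4 (by norm_num) h1 h2 (by norm_num)
  norm_num at p0 p1 p2 p3 ⊢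
  linarith

end H4Res
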