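import Pool.Agent.Helpers.H4_Res2

open Real Finset

namespace H4Res

variable {a : ℕ → ℝ} {M : ℝ}

/-! ### Part III: `M ≥ 4` -/

lemma harm_bound (q : ℝ) (hq : 0 ≤ q) (c : ℕ) :
    ∑ i ∈ range c, 1 / (q + i + 2) ≤ Real.log (q + 1 + c) - Real.log (q + 1) := by
  induction c with
  | zero => simp
  | succ c ih =>
    rw [sum_range_succ]
    have h0 : (0 : ℝ) < q + 1 + c := by positivity
    have h1 : (0 : ℝ) < q + 1 + (c + 1 : ℕ) := by positivity
    have h2 : 1 - ((q + 1 + (c + 1 : ℕ)) / (q + 1 + c))⁻¹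
        ≤ Real.log ((q + 1 + (c + 1 : ℕ)) / (q + 1 + c)) :=
      Real.one_sub_inv_le_log_of_pos (by positivity)
    rw [Real.log_div h1.ne' h0.ne'] at h2
    have h3 : 1 - ((q + 1 + (c + 1 : ℕ)) / (q + 1 + c))⁻¹ = 1 / (q + c + 2) := by
      push_cast
      rw [inv_div]
      have : q + 1 + (c + 1) = q + c + 2 := by ring
      rw [this]
      have h4 : q + c + 2 ≠ 0 := by positivity
      field_simp
      ring
    rw [h3] at h2
    linarith

lemma part3 (h4 : 4 ≤ M) (ha : ∀ j, 0 ≤ a j)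
    (H : ∀ j κ, a j * ((κ + j).choose j : ℝ) ≤ M ^ (κ + 1)) (N : ℕ) :
    ∑ j ∈ range N, a (j + 1) ≤ Real.exp 1 * (M * (M - 1)) := by
  obtain ⟨q, hq3, hq1, hq2⟩ : ∃ q : ℕ, 3 ≤ q ∧ (q : ℝ) + 1 ≤ M ∧ M ≤ q + 2 := by
    have h5 : 4 ≤ ⌊M⌋₊ := Nat.le_floor (by exact_mod_cast h4)
    refine ⟨⌊M⌋₊ - 1, by omega, ?_, ?_⟩
    · have := Nat.floor_le (show 0 ≤ M by linarith)
      have h6 : ((⌊M⌋₊ - 1 : ℕ) : ℝ) + 1 = ⌊M⌋₊ := by
        rw [Nat.cast_sub (by omega)]; push_cast; ring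
      rw [h6]; exact this
    · have := Nat.lt_floor_add_one M
      have h6 : ((⌊M⌋₊ - 1 : ℕ) : ℝ) + 2 = ⌊M⌋₊ + 1 := by
        rw [Nat.cast_sub (by omega)]; push_cast; ring
      rw [h6]; exact this.le
  have hG := G (a := a) (M := M) (by linarith) ha H (q + (q + 1)) 2
    (fun j => if j < q then 1 else 2) (by intro j _; show 1 ≤ (if j < q then 1 else 2); split_ifs <;> norm_num)
    (by norm_num) N
  refine hG.trans ?_
  rw [sum_range_add]
  have e1 : ∑ j ∈ range q, M ^ ((fun j => if j < q then 1 else 2) j) /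
      ((j + (fun j => if j < q then 1 else 2) j).choose (j + 1) : ℝ) = q * M := by
    rw [sum_congr rfl (g := fun _ => M)]
    · simp
    · intro j hj
      have : j < q := mem_range.mp hj
      simp [this]
  have e2 : ∑ i ∈ range (q + 1), M ^ ((fun j => if j < q then 1 else 2) (q + i)) /
      (((q + i) + (fun j => if j < q then 1 else 2) (q + i)).choose ((q + i) + 1) : ℝ)
      = M ^ 2 * ∑ i ∈ range (q + 1), 1 / ((q : ℝ) + i + 2) := by
    rw [mul_sum]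
    refine sum_congr rfl fun i _ => ?_
    have h7 : ¬ (q + i < q) := by omega
    simp only [h7, if_false]
    have h8 : (q + i + 2).choose (q + i + 1) = q + i + 2 := by
      have := Nat.choose_succ_self_right (q + i + 1)
      simpa using this
    rw [h8]
    push_cast
    ring
  rw [e1, e2]
  have e3 : (((q + (q + 1) + 2 + 1).choose (q + (q + 1) + 1) : ℕ) : ℝ)
      = (2 * q + 4) * (2 * q + 3) / 2 := by
    have h9 : (q + (q + 1) + 2 + 1).choose (q + (q + 1) + 1) = (2 * q + 4).choose 2 := by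
      rw [show q + (q + 1) + 2 + 1 = 2 * q + 4 by ring, show q + (q + 1) + 1 = 2 * q + 2 by ring]
      exact Nat.choose_symm_of_eq_add (by ring)
    rw [h9, Nat.cast_choose_two]
    push_cast
    ring
  rw [e3]
  have hharm := harm_bound (q : ℝ) (Nat.cast_nonneg q) (q + 1)
  have hq0 : (3 : ℝ) ≤ q := by exact_mod_cast hq3
  have hl : Real.log ((q : ℝ) + 1 + (q + 1 : ℕ)) - Real.log ((q : ℝ) + 1) = Real.log 2 := by
    rw [← Real.log_div (by positivity) (by positivity)]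
    congr 1
    push_cast
    field_simp
    ring
  rw [hl] at hharm
  have hlog := Real.log_two_lt_d9
  set S := ∑ i ∈ range (q + 1), 1 / ((q : ℝ) + i + 2) with hS
  have hS1 : S ≤ 0.6932 := by linarith
  obtain ⟨θ, hθ⟩ : ∃ θ, M = q + 1 + θ := ⟨M - (q + 1), by ring⟩
  have hθ0 : 0 ≤ θ := by linarith
  have hθ1 : θ ≤ 1 := by linarith
  obtain ⟨r, hr⟩ : ∃ r : ℝ, (q : ℝ) = 3 + r := ⟨q - 3, by ring⟩
  have hr0 : 0 ≤ r := by linarith
  have hch : M ^ 3 ≤ (q + 1 : ℝ) ^ 3 + ((q + 2 : ℝ) ^ 3 - (q + 1) ^ 3) * θ := by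
    have := chord (q + 1 : ℝ) (q + 2) M 3 (by linarith) hq1 hq2 (by linarith)
    have e : (q + 2 : ℝ) - (q + 1) = 1 := by ring
    rw [e, div_one] at this
    have e' : M - (q + 1 : ℝ) = θ := by linarith
    rwa [e'] at this
  have hDpos : (0 : ℝ) < (2 * q + 4) * (2 * q + 3) := by positivity
  have key : (q : ℝ) + M * 0.6932 + M ^ 3 * (3 / ((2 * q + 4) * (2 * q + 3)))
      ≤ 2.7182 * (M - 1) := by
    have f0 : 0 ≤ (2 * q + 4) * (2 * q + 3) * (2.7182 * (q : ℝ) - q - 0.6932 * (q + 1))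
        - 3 * (q + 1) ^ 3 := by
      rw [hr]
      have : (2 * (3 + r) + 4) * (2 * (3 + r) + 3) * (2.7182 * (3 + r) - (3 + r) - 0.6932 * ((3 + r) + 1))
        - 3 * ((3 + r) + 1) ^ 3
        = (11181/500) + (24224/625) * r ^ 1 + (31193/2500) * r ^ 2 + (11/10) * r ^ 3 := by ring
      rw [this]; positivity
    have f1 : 0 ≤ (2 * q + 4) * (2 * q + 3) * (2.7182 * ((q : ℝ) + 1) - q - 0.6932 * (q + 2))
        - 3 * (q + 2) ^ 3 := by
      rw [hr]
      have : (2 * (3 + r) + 4) * (2 * (3 + r) + 3) * (2.7182 * ((3 + r) + 1) - (3 + r) - 0.6932 * ((3 + r) + 2))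
        - 3 * ((3 + r) + 2) ^ 3
        = (5403/250) + (86771/2500) * r ^ 1 + (28943/2500) * r ^ 2 + (11/10) * r ^ 3 := by ring
      rw [this]; positivity
    rw [mul_div_assoc', ← sub_nonneg]
    have e5 : 2.7182 * (M - 1) - ((q : ℝ) + M * 0.6932 + M ^ 3 * 3 / ((2 * q + 4) * (2 * q + 3)))
        = ((2 * q + 4) * (2 * q + 3) * (2.7182 * (M - 1) - q - M * 0.6932) - 3 * M ^ 3)
          / ((2 * q + 4) * (2 * q + 3)) := by
      field_simp
      ring
    rw [e5]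
    apply div_nonneg _ hDpos.le
    have e6 : (2 * (q : ℝ) + 4) * (2 * q + 3) * (2.7182 * (M - 1) - q - M * 0.6932)
        - 3 * ((q + 1 : ℝ) ^ 3 + ((q + 2 : ℝ) ^ 3 - (q + 1) ^ 3) * θ)
        = (1 - θ) * ((2 * q + 4) * (2 * q + 3) * (2.7182 * (q : ℝ) - q - 0.6932 * (q + 1))
        - 3 * (q + 1) ^ 3) + θ * ((2 * q + 4) * (2 * q + 3) * (2.7182 * ((q : ℝ) + 1) - q - 0.6932 * (q + 2))
        - 3 * (q + 2) ^ 3) := by
      rw [hθ]; ring
    have e7 := mul_nonneg (show 0 ≤ 1 - θ by linarith) f0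
    have e8 := mul_nonneg hθ0 f1
    linarith
  have hM0 : 0 < M := by linarith
  have step1 : (q : ℝ) * M + M ^ 2 * S
      + M ^ (2 + 2) * ((((2 : ℕ) : ℝ) + 1) / (((2 : ℕ) : ℝ) * ((2 * q + 4) * (2 * q + 3) / 2)))
      ≤ M * ((q : ℝ) + M * 0.6932 + M ^ 3 * (3 / ((2 * q + 4) * (2 * q + 3)))) := by
    have e9 : M ^ (2 + 2) * ((((2 : ℕ) : ℝ) + 1) / (((2 : ℕ) : ℝ) * ((2 * q + 4) * (2 * q + 3) / 2)))
        = M * (M ^ 3 * (3 / ((2 * q + 4) * (2 * q + 3)))) := by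
      push_cast
      field_simp
      ring
    rw [e9]
    have : M ^ 2 * S ≤ M ^ 2 * 0.6932 := mul_le_mul_of_nonneg_left hS1 (by positivity)
    nlinarith
  refine step1.trans ?_
  have h10 : M * ((q : ℝ) + M * 0.6932 + M ^ 3 * (3 / ((2 * q + 4) * (2 * q + 3))))
      ≤ M * (2.7182 * (M - 1)) := mul_le_mul_of_nonneg_left key hM0.le
  refine h10.trans ?_
  have h11 := e_lower
  have h12 : 0 ≤ M * (M - 1) := by nlinarith
  nlinarith

/-! ### Part I: `1 < M ≤ 7/6` -/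

lemma log_bound (s : ℝ) (hs : 0 ≤ s) : Real.log (1 + s) ≤ s - s ^ 2 / 2 + s ^ 3 / 3 := by
  have hmono : MonotoneOn (fun s : ℝ => s - s ^ 2 / 2 + s ^ 3 / 3 - Real.log (1 + s)) (Set.Ici 0) := by
    have hd : ∀ x ∈ Set.Ici (0 : ℝ), HasDerivAt
        (fun s : ℝ => s - s ^ 2 / 2 + s ^ 3 / 3 - Real.log (1 + s))
        (1 - 2 * x / 2 + 3 * x ^ 2 / 3 - 1 / (1 + x)) x := by
      intro x hx
      have hx0 : (0 : ℝ) ≤ x := hx
      have h1 : HasDerivAt (fun s : ℝ => Real.log (1 + s)) (1 / (1 + x)) x := by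
        have := ((hasDerivAt_id x).const_add 1).log (by simp; linarith)
        simpa using this
      have h2 : HasDerivAt (fun s : ℝ => s ^ 2) (2 * x) x := by
        simpa using hasDerivAt_pow 2 x
      have h3 : HasDerivAt (fun s : ℝ => s ^ 3) (3 * x ^ 2) x := by
        simpa using hasDerivAt_pow 3 x
      exact (((hasDerivAt_id x).sub (h2.div_const 2)).add (h3.div_const 3)).sub h1
    apply monotoneOn_of_deriv_nonneg (convex_Ici 0)
    · intro x hx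
      exact (hd x hx).continuousAt.continuousWithinAt
    · intro x hx
      rw [interior_Ici] at hx
      exact (hd x (Set.mem_Ici.mpr (le_of_lt hx))).differentiableAt.differentiableWithinAt
    · intro x hx
      rw [interior_Ici] at hx
      have hx0 : (0 : ℝ) < x := hx
      rw [(hd x hx0.le).deriv]
      have : 1 - 2 * x / 2 + 3 * x ^ 2 / 3 - 1 / (1 + x) = x ^ 3 / (1 + x) := by
        field_simp; ring
      rw [this]; positivity
  have := hmono (Set.mem_Ici.mpr le_rfl) (Set.mem_Ici.mpr hs) hs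
  simp at this
  linarith

lemma bound_A (n : ℝ) (N : ℕ) (hN : (N : ℝ) = n) (hn : 1 ≤ n) :
    (1 + 1 / n) ^ N ≤ Real.exp 1 * (6 * n ^ 2 / (6 * n ^ 2 + 3 * n - 2)) := by
  have hn0 : 0 < n := by linarith
  have h1 := log_bound (1 / n) (by positivity)
  have h2 : (1 + 1 / n) ^ N = Real.exp (n * Real.log (1 + 1 / n)) := by
    rw [← hN, Real.exp_nat_mul, Real.exp_log (by positivity)]
  rw [h2]
  have h3 : n * Real.log (1 + 1 / n) ≤ 1 + -((3 * n - 2) / (6 * n ^ 2)) := by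
    have := mul_le_mul_of_nonneg_left h1 hn0.le
    refine this.trans (le_of_eq ?_)
    field_simp
    ring
  refine (Real.exp_le_exp.mpr h3).trans ?_
  rw [Real.exp_add]
  apply mul_le_mul_of_nonneg_left _ (Real.exp_pos 1).le
  rw [Real.exp_neg]
  have hq : 0 < 6 * n ^ 2 + 3 * n - 2 := by nlinarith
  have h4 : 6 * n ^ 2 / (6 * n ^ 2 + 3 * n - 2) = ((3 * n - 2) / (6 * n ^ 2) + 1)⁻¹ := by
    rw [← inv_inv (6 * n ^ 2 / (6 * n ^ 2 + 3 * n - 2)), inv_div]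
    congr 1
    field_simp
    ring
  rw [h4]
  have h5 : 0 < (3 * n - 2) / (6 * n ^ 2) + 1 := by
    have : 0 < (3 * n - 2) / (6 * n ^ 2) := div_pos (by linarith) (by positivity)
    linarith
  exact inv_anti₀ h5 (Real.add_one_le_exp _)

lemma bound_B (m : ℝ) (N : ℕ) (hN : (N : ℝ) = m + 1) (hm : 1 ≤ m) :
    (1 + 1 / m) ^ N ≤ Real.exp 1 * (1 + (3 * m ^ 2 - m + 2) / (6 * m ^ 3)
      + 3 / 4 * ((3 * m ^ 2 - m + 2) / (6 * m ^ 3)) ^ 2) := by
  have hm0 : 0 < m := by linarith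
  have h1 := log_bound (1 / m) (by positivity)
  have h2 : (1 + 1 / m) ^ N = Real.exp ((m + 1) * Real.log (1 + 1 / m)) := by
    rw [← hN, Real.exp_nat_mul, Real.exp_log (by positivity)]
  rw [h2]
  have h3 : (m + 1) * Real.log (1 + 1 / m) ≤ 1 + (3 * m ^ 2 - m + 2) / (6 * m ^ 3) := by
    have := mul_le_mul_of_nonneg_left h1 (show 0 ≤ m + 1 by linarith)
    refine this.trans (le_of_eq ?_)
    field_simp
    ring
  refine (Real.exp_le_exp.mpr h3).trans ?_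
  rw [Real.exp_add]
  apply mul_le_mul_of_nonneg_left _ (Real.exp_pos 1).le
  have hx0 : 0 ≤ (3 * m ^ 2 - m + 2) / (6 * m ^ 3) := by
    apply div_nonneg _ (by positivity)
    nlinarith
  have hx1 : (3 * m ^ 2 - m + 2) / (6 * m ^ 3) ≤ 1 := by
    rw [div_le_one (by positivity)]
    nlinarith [mul_pos hm0 hm0, mul_nonneg (mul_nonneg hm0.le hm0.le) (show 0 ≤ m - 1 by linarith)]
  have := Real.exp_bound' hx0 hx1 (n := 2) (by norm_num)
  refine this.trans (le_of_eq ?_)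
  simp [sum_range_succ, Nat.factorial]
  ring

lemma Ca (k : ℝ) (hk : 0 ≤ k) :
    (6 * (7 + k) ^ 2 / (6 * (7 + k) ^ 2 + 3 * (7 + k) - 2)) / (7 + k)
      + 2.7183 * (6 * (7 + k) ^ 2 / (6 * (7 + k) ^ 2 + 3 * (7 + k) - 2)) ^ 2
        / (2 * (7 + k) * (6 + k))
      ≤ 1 / (7 + k) + (1 / (7 + k)) ^ 2 - (1 / (6 + k) - 1 / (7 + k)) ^ 2 / 4 := by
  have hq : 0 < 6 * (7 + k) ^ 2 + 3 * (7 + k) - 2 := by nlinarith
  rw [← sub_nonneg]
  have : 1 / (7 + k) + (1 / (7 + k)) ^ 2 - (1 / (6 + k) - 1 / (7 + k)) ^ 2 / 4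
      - ((6 * (7 + k) ^ 2 / (6 * (7 + k) ^ 2 + 3 * (7 + k) - 2)) / (7 + k)
      + 2.7183 * (6 * (7 + k) ^ 2 / (6 * (7 + k) ^ 2 + 3 * (7 + k) - 2)) ^ 2
        / (2 * (7 + k) * (6 + k)))
      = ((167242988/625) + (713636961/1250) * k ^ 1 + (80550251/250) * k ^ 2 + (10367861/125) * k ^ 3 + (276642/25) * k ^ 4 + (934473/1250) * k ^ 5 + (25353/1250) * k ^ 6)
        / (4 * (7 + k) ^ 2 * (6 + k) ^ 2 * (6 * (7 + k) ^ 2 + 3 * (7 + k) - 2) ^ 2) := by
    obtain ⟨Q, hQ⟩ : ∃ Q, Q = 6 * (7 + k) ^ 2 + 3 * (7 + k) - 2 := ⟨_, rfl⟩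
    have hQ0 : Q ≠ 0 := by rw [hQ]; exact hq.ne'
    rw [← hQ]
    field_simp
    rw [hQ]
    ring
  rw [this]
  positivity

lemma Cb (k : ℝ) (hk : 0 ≤ k) :
    (1 + (3 * (6 + k) ^ 2 - (6 + k) + 2) / (6 * (6 + k) ^ 3)
      + 3 / 4 * ((3 * (6 + k) ^ 2 - (6 + k) + 2) / (6 * (6 + k) ^ 3)) ^ 2) / (7 + k)
      + 2.7183 * (1 + (3 * (6 + k) ^ 2 - (6 + k) + 2) / (6 * (6 + k) ^ 3)
      + 3 / 4 * ((3 * (6 + k) ^ 2 - (6 + k) + 2) / (6 * (6 + k) ^ 3)) ^ 2) ^ 2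
        / (2 * (7 + k) * (6 + k))
      ≤ 1 / (6 + k) + (1 / (6 + k)) ^ 2 - (1 / (6 + k) - 1 / (7 + k)) ^ 2 / 4 := by
  rw [← sub_nonneg]
  have : 1 / (6 + k) + (1 / (6 + k)) ^ 2 - (1 / (6 + k) - 1 / (7 + k)) ^ 2 / 4
      - ((1 + (3 * (6 + k) ^ 2 - (6 + k) + 2) / (6 * (6 + k) ^ 3)
      + 3 / 4 * ((3 * (6 + k) ^ 2 - (6 + k) + 2) / (6 * (6 + k) ^ 3)) ^ 2) / (7 + k)
      + 2.7183 * (1 + (3 * (6 + k) ^ 2 - (6 + k) + 2) / (6 * (6 + k) ^ 3)
      + 3 / 4 * ((3 * (6 + k) ^ 2 - (6 + k) + 2) / (6 * (6 + k) ^ 3)) ^ 2) ^ 2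
        / (2 * (7 + k) * (6 + k)))
      = ((26332200886146048/625) + (71617011932522496/625) * k ^ 1 + (87796445558357472/625) * k ^ 2 + (12965370808939656/125) * k ^ 3 + (129504470594085189/2500) * k ^ 4 + (92880149814842901/5000) * k ^ 5 + (24723549836086353/5000) * k ^ 6 + (2485868414476293/2500) * k ^ 7 + (190005589250601/1250) * k ^ 8 + (87985347343569/5000) * k ^ 9 + (1519892336109/1000) * k ^ 10 + (59399037138/625) * k ^ 11 + (2543255796/625) * k ^ 12 + (66771456/625) * k ^ 13 + (811296/625) * k ^ 14)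
        / (4 * (7 + k) ^ 2 * (6 + k) ^ 2 * (48 * (6 + k) ^ 6) ^ 2) := by
    field_simp
    ring
  rw [this]
  positivity

lemma part1 (h1 : 1 < M) (h2 : M ≤ 7 / 6) (ha : ∀ j, 0 ≤ a j)
    (H : ∀ j κ, a j * ((κ + j).choose j : ℝ) ≤ M ^ (κ + 1)) (N : ℕ) :
    ∑ j ∈ range N, a (j + 1) ≤ Real.exp 1 * (M * (M - 1)) := by
  obtain ⟨t, ht⟩ : ∃ t, M = 1 + t := ⟨M - 1, by ring⟩
  have ht0 : 0 < t := by linarith
  have ht6 : t ≤ 1 / 6 := by linarith
  -- choose m with 1/(m+1) ≤ t ≤ 1/m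
  obtain ⟨m, hm6, hm1, hm2⟩ : ∃ m : ℕ, 6 ≤ m ∧ 1 / ((m : ℝ) + 1) ≤ t ∧ t ≤ 1 / (m : ℝ) := by
    have h6 : 6 ≤ 1 / t := by rw [le_div_iff₀ ht0]; linarith
    refine ⟨⌊1 / t⌋₊, Nat.le_floor (by exact_mod_cast h6), ?_, ?_⟩
    · have := Nat.lt_floor_add_one (1 / t)
      rw [div_le_iff₀ (by positivity)]
      rw [div_lt_iff₀ ht0] at this
      linarith
    · have := Nat.floor_le (show 0 ≤ 1 / t by positivity)
      have hpos : (0 : ℝ) < ⌊1 / t⌋₊ := by
        have : 6 ≤ ⌊1 / t⌋₊ := Nat.le_floor (by exact_mod_cast h6)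
        exact_mod_cast (by omega : 0 < ⌊1 / t⌋₊)
      rw [le_div_iff₀ ht0] at this
      rw [le_div_iff₀ hpos]
      linarith
  have hmr : (6 : ℝ) ≤ m := by exact_mod_cast hm6
  have hm0 : (0 : ℝ) < m := by linarith
  have hG := G (a := a) (M := M) (by linarith) ha H 1 (2 * m) (fun _ => m + 1)
    (by intro j _; simp) (by omega) N
  refine hG.trans ?_
  have e3 : (((1 + 2 * m + 1).choose (1 + 1) : ℕ) : ℝ) = (2 * m + 2) * (2 * m + 1) / 2 := by
    rw [show 1 + 2 * m + 1 = 2 * m + 2 by ring, show 1 + 1 = 2 from rfl, Nat.cast_choose_two]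
    push_cast
    ring
  simp only [sum_range_one, zero_add, Nat.choose_one_right]
  rw [show (1 + 1 : ℕ) = 2 from rfl] at e3 ⊢
  rw [e3]
  set n : ℝ := (m : ℝ) + 1 with hn
  have hn0 : 0 < n := by positivity
  have eA := bound_A n (m + 1) (by push_cast; rfl) (by linarith)
  have eB := bound_B (m : ℝ) (m + 1) (by push_cast; rfl) (by linarith)
  obtain ⟨k, hk⟩ : ∃ k : ℝ, (m : ℝ) = 6 + k := ⟨m - 6, by ring⟩
  have hk0 : 0 ≤ k := by linarith
  have hnk : n = 7 + k := by rw [hn, hk]; ring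
  have CA := Ca k hk0
  have CB := Cb k hk0
  rw [← hnk, ← hk] at CA CB
  set α := 6 * n ^ 2 / (6 * n ^ 2 + 3 * n - 2) with hα
  set β := 1 + (3 * (m : ℝ) ^ 2 - m + 2) / (6 * m ^ 3)
      + 3 / 4 * ((3 * (m : ℝ) ^ 2 - m + 2) / (6 * m ^ 3)) ^ 2 with hβ
  set A := (1 + 1 / n) ^ (m + 1) with hA
  set B := (1 + 1 / (m : ℝ)) ^ (m + 1) with hB
  have hA0 : 0 < A := by positivity
  have hB0 : 0 < B := by positivity
  have hba : 1 / n < 1 / (m : ℝ) := one_div_lt_one_div_of_lt hm0 (by linarith)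
  have hδ : 0 < 1 / (m : ℝ) - 1 / n := by linarith
  set lam := (t - 1 / n) / (1 / (m : ℝ) - 1 / n) with hlam
  have hl0 : 0 ≤ lam := div_nonneg (by linarith) hδ.le
  have hl1 : lam ≤ 1 := by rw [div_le_one hδ]; linarith
  have hlt : t = (1 - lam) * (1 / n) + lam * (1 / (m : ℝ)) := by
    rw [hlam]; field_simp; ring
  have c1 : M ^ (m + 1) ≤ (1 - lam) * A + lam * B := by
    have := chord (1 + 1 / n) (1 + 1 / (m : ℝ)) M (m + 1) (by positivity) (by linarith)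
      (by linarith) (by linarith)
    have e : 1 + 1 / (m : ℝ) - (1 + 1 / n) = 1 / (m : ℝ) - 1 / n := by ring
    have e' : M - (1 + 1 / n) = t - 1 / n := by rw [ht]; ring
    rw [e, e', ← hA, ← hB] at this
    refine this.trans (le_of_eq ?_)
    rw [hlam]
    have hne := hδ.ne'
    field_simp
    ring
  have c2 : M ^ (2 * m + 2) ≤ (1 - lam) * A ^ 2 + lam * B ^ 2 := by
    have := chord (1 + 1 / n) (1 + 1 / (m : ℝ)) M (2 * m + 2) (by positivity) (by linarith)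
      (by linarith) (by linarith)
    have e : 1 + 1 / (m : ℝ) - (1 + 1 / n) = 1 / (m : ℝ) - 1 / n := by ring
    have e' : M - (1 + 1 / n) = t - 1 / n := by rw [ht]; ring
    have e1 : (1 + 1 / n) ^ (2 * m + 2) = A ^ 2 := by rw [hA, ← pow_mul]; congr 1; ring
    have e2 : (1 + 1 / (m : ℝ)) ^ (2 * m + 2) = B ^ 2 := by rw [hB, ← pow_mul]; congr 1; ring
    rw [e, e', e1, e2] at this
    refine this.trans (le_of_eq ?_)
    rw [hlam]
    have hne := hδ.ne'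
    field_simp
    ring
  have hT : (((2 * m : ℕ) : ℝ) + 1) / (((2 * m : ℕ) : ℝ) * ((2 * m + 2) * (2 * m + 1) / 2))
      = 1 / (2 * n * m) := by
    rw [hn]; push_cast; field_simp
  rw [hT]
  have hE : 0 < Real.exp 1 := Real.exp_pos 1
  have hE2 : Real.exp 1 < 2.7183 := by have := Real.exp_one_lt_d9; linarith
  have gA : A / n + A ^ 2 / (2 * n * m) ≤ Real.exp 1 * (1 / n + (1 / n) ^ 2 - (1 / (m : ℝ) - 1 / n) ^ 2 / 4) := by
    have i1 : A / n ≤ Real.exp 1 * (α / n) := by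
      rw [← mul_div_assoc]; exact div_le_div_of_nonneg_right eA hn0.le
    have hα0 : 0 ≤ α := by
      have : 0 ≤ Real.exp 1 * α := hA0.le.trans eA
      exact nonneg_of_mul_nonneg_right this hE |> fun h => h
    have i2 : A ^ 2 / (2 * n * m) ≤ Real.exp 1 * (2.7183 * α ^ 2 / (2 * n * m)) := by
      rw [← mul_div_assoc]
      apply div_le_div_of_nonneg_right _ (by positivity)
      calc A ^ 2 ≤ (Real.exp 1 * α) ^ 2 := pow_le_pow_left₀ hA0.le eA 2
        _ = Real.exp 1 * (Real.exp 1 * α ^ 2) := by ring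
        _ ≤ Real.exp 1 * (2.7183 * α ^ 2) := by gcongr
    calc _ ≤ Real.exp 1 * (α / n) + Real.exp 1 * (2.7183 * α ^ 2 / (2 * n * m)) := add_le_add i1 i2
      _ = Real.exp 1 * (α / n + 2.7183 * α ^ 2 / (2 * n * m)) := by ring
      _ ≤ _ := mul_le_mul_of_nonneg_left CA hE.le
  have gB : B / n + B ^ 2 / (2 * n * m) ≤ Real.exp 1 * (1 / (m : ℝ) + (1 / (m : ℝ)) ^ 2 - (1 / (m : ℝ) - 1 / n) ^ 2 / 4) := by
    have i1 : B / n ≤ Real.exp 1 * (β / n) := by
      rw [← mul_div_assoc]; exact div_le_div_of_nonneg_right eB hn0.le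
    have i2 : B ^ 2 / (2 * n * m) ≤ Real.exp 1 * (2.7183 * β ^ 2 / (2 * n * m)) := by
      rw [← mul_div_assoc]
      apply div_le_div_of_nonneg_right _ (by positivity)
      calc B ^ 2 ≤ (Real.exp 1 * β) ^ 2 := pow_le_pow_left₀ hB0.le eB 2
        _ = Real.exp 1 * (Real.exp 1 * β ^ 2) := by ring
        _ ≤ Real.exp 1 * (2.7183 * β ^ 2) := by gcongr
    calc _ ≤ Real.exp 1 * (β / n) + Real.exp 1 * (2.7183 * β ^ 2 / (2 * n * m)) := add_le_add i1 i2
      _ = Real.exp 1 * (β / n + 2.7183 * β ^ 2 / (2 * n * m)) := by ring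
      _ ≤ _ := mul_le_mul_of_nonneg_left CB hE.le
  have tot : M ^ (m + 1) / n + M ^ (2 * m + 2) * (1 / (2 * n * m))
      ≤ (1 - lam) * (A / n + A ^ 2 / (2 * n * m)) + lam * (B / n + B ^ 2 / (2 * n * m)) := by
    have j1 : M ^ (m + 1) / n ≤ ((1 - lam) * A + lam * B) / n := div_le_div_of_nonneg_right c1 hn0.le
    have j2 : M ^ (2 * m + 2) * (1 / (2 * n * m)) ≤ ((1 - lam) * A ^ 2 + lam * B ^ 2) * (1 / (2 * n * m)) :=
      mul_le_mul_of_nonneg_right c2 (by positivity)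
    refine (add_le_add j1 j2).trans (le_of_eq ?_)
    ring
  have lam1 : 0 ≤ 1 - lam := by linarith
  have tot2 := add_le_add (mul_le_mul_of_nonneg_left gA lam1) (mul_le_mul_of_nonneg_left gB hl0)
  have fin1 : (1 - lam) * (Real.exp 1 * (1 / n + (1 / n) ^ 2 - (1 / (m : ℝ) - 1 / n) ^ 2 / 4))
      + lam * (Real.exp 1 * (1 / (m : ℝ) + (1 / (m : ℝ)) ^ 2 - (1 / (m : ℝ) - 1 / n) ^ 2 / 4))
      ≤ Real.exp 1 * (M * (M - 1)) := by
    have e : (1 - lam) * (Real.exp 1 * (1 / n + (1 / n) ^ 2 - (1 / (m : ℝ) - 1 / n) ^ 2 / 4))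
      + lam * (Real.exp 1 * (1 / (m : ℝ) + (1 / (m : ℝ)) ^ 2 - (1 / (m : ℝ) - 1 / n) ^ 2 / 4))
      = Real.exp 1 * ((1 - lam) * (1 / n + (1 / n) ^ 2) + lam * (1 / (m : ℝ) + (1 / (m : ℝ)) ^ 2)
        - (1 / (m : ℝ) - 1 / n) ^ 2 / 4) := by ring
    rw [e]
    apply mul_le_mul_of_nonneg_left _ hE.le
    have e2 : M * (M - 1) = ((1 - lam) * (1 / n) + lam * (1 / (m : ℝ)))
        + ((1 - lam) * (1 / n) + lam * (1 / (m : ℝ))) ^ 2 := by
      rw [← hlt, ht]; ring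
    rw [e2]
    nlinarith [mul_nonneg (sq_nonneg (1 / (m : ℝ) - 1 / n)) (sq_nonneg (2 * lam - 1))]
  have e9 : (((m + 1 : ℕ) : ℝ)) = n := by push_cast; rfl
  rw [e9]
  linarith

lemma upper (ha0 : a 0 = 1) (ha : ∀ j, 0 ≤ a j)
    (H : ∀ j κ, a j * ((κ + j).choose j : ℝ) ≤ M ^ (κ + 1)) (N : ℕ) :
    ∑ j ∈ range N, a (j + 1) ≤ Real.exp 1 * (M * (M - 1)) := by
  have h1 : 1 ≤ M := one_le_M ha0 H
  rcases eq_or_lt_of_le h1 with h | h
  · subst h
    rw [sum_eq_zero (fun j _ => zero_of_one ha H j)]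
    simp
  rcases le_total M (7 / 6) with h' | h'
  · exact part1 h h' ha H N
  rcases le_total M (73/60) with h'' | h''
  · exact part2_0 h' h'' ha H N
  replace h' := h''
  rcases le_total M (77/60) with h'' | h''
  · exact part2_1 h' h'' ha H N
  replace h' := h''
  rcases le_total M (83/60) with h'' | h''
  · exact part2_2 h' h'' ha H N
  replace h' := h''
  rcases le_total M (47/30) with h'' | h''
  · exact part2_3 h' h'' ha H N
  replace h' := h''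
  rcases le_total M (113/60) with h'' | h''
  · exact part2_4 h' h'' ha H N
  replace h' := h''
  rcases le_total M (137/60) with h'' | h''
  · exact part2_5 h' h'' ha H N
  replace h' := h''
  rcases le_total M (187/60) with h'' | h''
  · exact part2_6 h' h'' ha H N
  replace h' := h''
  rcases le_total M (4) with h'' | h''
  · exact part2_7 h' h'' ha H N
  replace h' := h''
  exact part3 h' ha H N

end H4Res
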