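import Mathlib

open Real Finset

namespace H4Res

universe u

/-- the underlying space `ℂ²` of the extremal example (in an arbitrary universe). -/
def V (_ : ℕ) : Type u := ULift.{u} (ℂ × ℂ)

noncomputable section

instance (N : ℕ) : AddCommGroup (V.{u} N) := inferInstanceAs (AddCommGroup (ULift.{u} (ℂ × ℂ)))
instance (N : ℕ) : Module ℂ (V.{u} N) := inferInstanceAs (Module ℂ (ULift.{u} (ℂ × ℂ)))
instance (N : ℕ) : Nontrivial (V.{u} N) := inferInstanceAs (Nontrivial (ULift.{u} (ℂ × ℂ)))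

def V.a {N : ℕ} (x : V.{u} N) : ℂ := x.down.1
def V.b {N : ℕ} (x : V.{u} N) : ℂ := x.down.2
def V.mk {N : ℕ} (a b : ℂ) : V.{u} N := ULift.up (a, b)

@[simp] lemma V.mk_a {N : ℕ} (a b : ℂ) : (V.mk a b : V.{u} N).a = a := rfl
@[simp] lemma V.mk_b {N : ℕ} (a b : ℂ) : (V.mk a b : V.{u} N).b = b := rfl
@[simp] lemma V.add_a {N : ℕ} (x y : V.{u} N) : (x + y).a = x.a + y.a := rfl
@[simp] lemma V.add_b {N : ℕ} (x y : V.{u} N) : (x + y).b = x.b + y.b := rfl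
@[simp] lemma V.sub_a {N : ℕ} (x y : V.{u} N) : (x - y).a = x.a - y.a := rfl
@[simp] lemma V.sub_b {N : ℕ} (x y : V.{u} N) : (x - y).b = x.b - y.b := rfl
@[simp] lemma V.smul_a {N : ℕ} (c : ℂ) (x : V.{u} N) : (c • x).a = c * x.a := rfl
@[simp] lemma V.smul_b {N : ℕ} (c : ℂ) (x : V.{u} N) : (c • x).b = c * x.b := rfl
@[simp] lemma V.zero_a {N : ℕ} : (0 : V.{u} N).a = 0 := rfl
@[simp] lemma V.zero_b {N : ℕ} : (0 : V.{u} N).b = 0 := rfl

lemma V.ext {N : ℕ} {x y : V.{u} N} (h1 : x.a = y.a) (h2 : x.b = y.b) : x = y := by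
  cases x; cases y
  congr 1
  exact Prod.ext h1 h2

/-- the ratio `1/M = (N+1)/(N+2)`. -/
def rho (N : ℕ) : ℝ := ((N : ℝ) + 1) / (N + 2)

lemma rho_pos (N : ℕ) : 0 < rho N := by unfold rho; positivity

/-- the embedding into an `ℓ^∞` sum of `ℓ¹` planes defining the norm. -/
def emb (N : ℕ) : V.{u} N →ₗ[ℂ] (Fin (N + 2) → WithLp 1 (ℂ × ℂ)) where
  toFun x := fun k => WithLp.toLp 1
    (((rho N : ℂ) ^ (k : ℕ)) * x.b, ((rho N : ℂ) ^ (k : ℕ)) * (((k : ℕ) : ℂ) * x.a))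
  map_add' x y := by
    funext k
    apply (WithLp.equiv 1 (ℂ × ℂ)).injective
    ext
    · simp [mul_add]
    · simp [mul_add]
  map_smul' c x := by
    funext k
    apply (WithLp.equiv 1 (ℂ × ℂ)).injective
    ext
    · simp; ring
    · simp; ring

lemma emb_inj (N : ℕ) : Function.Injective (emb.{u} N) := by
  rw [← LinearMap.ker_eq_bot, LinearMap.ker_eq_bot']
  intro x hx
  have hρ : (rho N : ℂ) ≠ 0 := by exact_mod_cast (rho_pos N).ne'
  have h0 := congrFun hx (0 : Fin (N + 2))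
  have h1 := congrFun hx (1 : Fin (N + 2))
  have h0' := congrArg (fun w => (WithLp.ofLp w).1) h0
  have h1' := congrArg (fun w => (WithLp.ofLp w).2) h1
  simp [emb, hρ] at h0' h1'
  apply V.ext
  · simpa using h1'
  · simpa using h0'

instance (N : ℕ) : NormedAddCommGroup (V.{u} N) :=
  NormedAddCommGroup.induced (V.{u} N) (Fin (N + 2) → WithLp 1 (ℂ × ℂ)) (emb N) (emb_inj N)

instance (N : ℕ) : NormedSpace ℂ (V.{u} N) :=
  NormedSpace.induced ℂ (V.{u} N) (Fin (N + 2) → WithLp 1 (ℂ × ℂ)) (emb N)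

instance (N : ℕ) : FiniteDimensional ℂ (V.{u} N) :=
  FiniteDimensional.of_injective (emb.{u} N) (emb_inj N)

instance (N : ℕ) : CompleteSpace (V.{u} N) := FiniteDimensional.complete ℂ (V.{u} N)

lemma norm_def (N : ℕ) (x : V.{u} N) : ‖x‖ = ‖emb N x‖ := rfl

lemma norm_emb (N : ℕ) (x : V.{u} N) (k : Fin (N + 2)) :
    ‖emb N x k‖ = rho N ^ (k : ℕ) * (‖x.b‖ + (k : ℕ) * ‖x.a‖) := by
  have : emb N x k = WithLp.toLp 1
    (((rho N : ℂ) ^ (k : ℕ)) * x.b, ((rho N : ℂ) ^ (k : ℕ)) * (((k : ℕ) : ℂ) * x.a)) := rfl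
  rw [this, WithLp.prod_norm_eq_of_nat 1 (by simp)]
  simp only [WithLp.toLp_fst, WithLp.toLp_snd, Nat.cast_one, norm_mul, norm_pow, Complex.norm_real, Complex.norm_natCast,
    Real.norm_eq_abs, abs_of_pos (rho_pos N), pow_one, div_one, Real.rpow_one]
  ring

lemma le_norm (N : ℕ) (x : V.{u} N) (k : ℕ) (hk : k ≤ N + 1) :
    rho N ^ k * (‖x.b‖ + k * ‖x.a‖) ≤ ‖x‖ := by
  have := norm_le_pi_norm (emb N x) ⟨k, by omega⟩
  rw [norm_emb] at this
  exact this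

lemma norm_le (N : ℕ) (x : V.{u} N) (C : ℝ) (hC : 0 ≤ C)
    (h : ∀ k : ℕ, k ≤ N + 1 → rho N ^ k * (‖x.b‖ + k * ‖x.a‖) ≤ C) : ‖x‖ ≤ C := by
  rw [norm_def, pi_norm_le_iff_of_nonneg hC]
  intro k
  rw [norm_emb]
  exact h k (by omega)

/-- the nilpotent operator `(a, b) ↦ (0, a)`. -/
def Tlin (N : ℕ) : V.{u} N →ₗ[ℂ] V.{u} N where
  toFun x := V.mk 0 x.a
  map_add' x y := by apply V.ext <;> simp
  map_smul' c x := by apply V.ext <;> simp

def T (N : ℕ) : V.{u} N →L[ℂ] V.{u} N := LinearMap.toContinuousLinearMap (Tlin N)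

lemma T_apply (N : ℕ) (x : V.{u} N) : T N x = V.mk 0 x.a := rfl

lemma T_sq (N : ℕ) : T.{u} N * T N = 0 := by
  refine ContinuousLinearMap.ext fun x => ?_
  have h : (T.{u} N * T N) x = V.mk 0 (V.mk 0 x.a : V.{u} N).a := rfl
  rw [h]
  rfl

lemma unit_res (N : ℕ) (z : ℂ) (hz : z ≠ 0) :
    ∃ v : (V.{u} N →L[ℂ] V.{u} N)ˣ, (v : V.{u} N →L[ℂ] V.{u} N) = algebraMap ℂ _ z - T N ∧
      (↑v⁻¹ : V.{u} N →L[ℂ] V.{u} N) = z⁻¹ • 1 + (z⁻¹ * z⁻¹) • T N := by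
  have hT := T_sq.{u} N
  have hA : (algebraMap ℂ (V.{u} N →L[ℂ] V.{u} N) z - T N) = z • 1 - T N := by
    rw [Algebra.algebraMap_eq_smul_one]
  have h1 : (z • (1 : V.{u} N →L[ℂ] V.{u} N) - T N) * (z⁻¹ • 1 + (z⁻¹ * z⁻¹) • T N) = 1 := by
    refine ContinuousLinearMap.ext fun x => ?_
    have e : ((z • (1 : V.{u} N →L[ℂ] V.{u} N) - T N) * (z⁻¹ • 1 + (z⁻¹ * z⁻¹) • T N)) x
      = z • (z⁻¹ • x + (z⁻¹ * z⁻¹) • T N x) - T N (z⁻¹ • x + (z⁻¹ * z⁻¹) • T N x) := rfl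
    rw [e]
    apply V.ext
    · simp [T_apply]; field_simp
    · simp [T_apply]; field_simp; ring
  have h2 : (z⁻¹ • 1 + (z⁻¹ * z⁻¹) • T N) * (z • (1 : V.{u} N →L[ℂ] V.{u} N) - T N) = 1 := by
    refine ContinuousLinearMap.ext fun x => ?_
    have e : ((z⁻¹ • 1 + (z⁻¹ * z⁻¹) • T N) * (z • (1 : V.{u} N →L[ℂ] V.{u} N) - T N)) x
      = z⁻¹ • (z • x - T N x) + (z⁻¹ * z⁻¹) • T N (z • x - T N x) := rfl
    rw [e]
    apply V.ext
    · simp [T_apply]; field_simp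
    · simp [T_apply]; field_simp; ring
  exact ⟨⟨z • 1 - T N, z⁻¹ • 1 + (z⁻¹ * z⁻¹) • T N, h1, h2⟩, hA.symm, rfl⟩

lemma spec (N : ℕ) : spectrum ℂ (T.{u} N) ⊆ Metric.ball 0 1 := by
  intro z hz
  by_cases h : z = 0
  · subst h; simp
  · obtain ⟨v, hv, _⟩ := unit_res.{u} N z h
    refine absurd ?_ hz
    rw [spectrum.mem_resolventSet_iff, ← hv]
    exact v.isUnit

lemma res_bound (N : ℕ) (z : ℂ) (hz : 1 ≤ ‖z‖) :
    ‖resolvent (T.{u} N) z‖ ≤ ((N : ℝ) + 2) / (N + 1) := by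
  have hz0 : z ≠ 0 := by intro h; rw [h, norm_zero] at hz; linarith
  obtain ⟨v, hv, hv'⟩ := unit_res.{u} N z hz0
  have hr : resolvent (T.{u} N) z = z⁻¹ • 1 + (z⁻¹ * z⁻¹) • T N := by
    unfold resolvent
    rw [← hv, Ring.inverse_unit, hv']
  rw [hr]
  have hinv : ‖z⁻¹‖ ≤ 1 := by
    rw [norm_inv]; exact inv_le_one_of_one_le₀ hz
  set M : ℝ := ((N : ℝ) + 2) / (N + 1) with hM
  have hM0 : 0 < M := by positivity
  have hMρ : M * rho N = 1 := by rw [hM, rho]; field_simp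
  have hM1 : 1 ≤ M := by rw [hM, one_le_div (by positivity)]; linarith
  apply ContinuousLinearMap.opNorm_le_bound _ hM0.le
  intro x
  apply norm_le _ _ _ (mul_nonneg hM0.le (norm_nonneg _))
  intro k hk
  have ea : ((z⁻¹ • (1 : V.{u} N →L[ℂ] V.{u} N) + (z⁻¹ * z⁻¹) • T N) x).a = z⁻¹ * x.a := by
    simp [T_apply]
  have eb : ((z⁻¹ • (1 : V.{u} N →L[ℂ] V.{u} N) + (z⁻¹ * z⁻¹) • T N) x).b
      = z⁻¹ * x.b + z⁻¹ * z⁻¹ * x.a := by
    simp [T_apply]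
  rw [ea, eb]
  have h1 : ‖z⁻¹ * x.a‖ ≤ ‖x.a‖ := by
    rw [norm_mul]; exact mul_le_of_le_one_left (norm_nonneg _) hinv
  have h2 : ‖z⁻¹ * x.b + z⁻¹ * z⁻¹ * x.a‖ ≤ ‖x.b‖ + ‖x.a‖ := by
    refine (norm_add_le _ _).trans (add_le_add ?_ ?_)
    · rw [norm_mul]; exact mul_le_of_le_one_left (norm_nonneg _) hinv
    · rw [norm_mul, norm_mul]
      exact mul_le_of_le_one_left (norm_nonneg _) (mul_le_one₀ hinv (norm_nonneg _) hinv)
  have hρk : 0 < rho N ^ k := pow_pos (rho_pos N) k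
  have h3 : rho N ^ k * (‖z⁻¹ * x.b + z⁻¹ * z⁻¹ * x.a‖ + k * ‖z⁻¹ * x.a‖)
      ≤ rho N ^ k * (‖x.b‖ + (k + 1) * ‖x.a‖) := by
    apply mul_le_mul_of_nonneg_left _ hρk.le
    have : (k : ℝ) * ‖z⁻¹ * x.a‖ ≤ k * ‖x.a‖ := mul_le_mul_of_nonneg_left h1 (Nat.cast_nonneg k)
    linarith
  refine h3.trans ?_
  rcases Nat.lt_or_ge k (N + 1) with hk' | hk'
  · have h4 := le_norm N x (k + 1) (by omega)
    have h5 : rho N ^ k * (‖x.b‖ + (k + 1) * ‖x.a‖)
        = M * (rho N ^ (k + 1) * (‖x.b‖ + ((k + 1 : ℕ) : ℝ) * ‖x.a‖)) := by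
      rw [pow_succ]
      push_cast
      calc _ = (M * rho N) * (rho N ^ k * (‖x.b‖ + (k + 1) * ‖x.a‖)) := by rw [hMρ, one_mul]
        _ = _ := by ring
    rw [h5]
    exact mul_le_mul_of_nonneg_left h4 hM0.le
  · have hkN : k = N + 1 := by omega
    have h4 := le_norm N x k (by omega)
    have h6 : (k : ℝ) + 1 = M * k := by
      rw [hkN, hM]; push_cast; field_simp; ring
    have h7 : rho N ^ k * (‖x.b‖ + (k + 1) * ‖x.a‖) ≤ M * (rho N ^ k * (‖x.b‖ + k * ‖x.a‖)) := by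
      rw [h6]
      have h8 : ‖x.b‖ ≤ M * ‖x.b‖ := le_mul_of_one_le_left (norm_nonneg _) hM1
      calc _ ≤ rho N ^ k * (M * ‖x.b‖ + M * k * ‖x.a‖) :=
            mul_le_mul_of_nonneg_left (by linarith) hρk.le
        _ = _ := by ring
    exact h7.trans (mul_le_mul_of_nonneg_left h4 hM0.le)

lemma mono_k (N k : ℕ) (hk : k ≤ N + 1) :
    rho N ^ k * k ≤ rho N ^ (N + 1) * (N + 1 : ℝ) := by
  have key : ∀ i : ℕ, ∀ j : ℕ, j + i = N + 1 → rho N ^ j * j ≤ rho N ^ (N + 1) * (N + 1 : ℝ) := by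
    intro i
    induction i with
    | zero => intro j hj; have : j = N + 1 := by omega
              subst this; push_cast; exact le_rfl
    | succ i ih =>
      intro j hj
      refine le_trans ?_ (ih (j + 1) (by omega))
      rw [pow_succ, mul_assoc]
      apply mul_le_mul_of_nonneg_left _ (pow_pos (rho_pos N) j).le
      unfold rho
      rw [div_mul_eq_mul_div, le_div_iff₀ (by positivity)]
      have : (j : ℝ) ≤ N + 1 := by exact_mod_cast (by omega : j ≤ N + 1)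
      push_cast
      nlinarith
  exact key (N + 1 - k) k (by omega)

lemma norm_T (N : ℕ) : (((N : ℝ) + 2) / (N + 1)) ^ (N + 1) / (N + 1) ≤ ‖T.{u} N‖ := by
  have h1 : ‖(V.mk 1 0 : V.{u} N)‖ ≤ rho N ^ (N + 1) * (N + 1 : ℝ) := by
    have := rho_pos N
    apply norm_le _ _ _ (by positivity)
    intro k hk
    simpa using mono_k N k hk
  have h2 : 1 ≤ ‖T N (V.mk 1 0 : V.{u} N)‖ := by
    have := le_norm N (T N (V.mk 1 0 : V.{u} N)) 0 (by omega)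
    simpa [T_apply] using this
  have h3 := (T.{u} N).le_opNorm (V.mk 1 0)
  have h4 : 1 ≤ ‖T.{u} N‖ * (rho N ^ (N + 1) * (N + 1 : ℝ)) :=
    h2.trans (h3.trans (mul_le_mul_of_nonneg_left h1 (norm_nonneg _)))
  have h5 : (((N : ℝ) + 2) / (N + 1)) ^ (N + 1) / (N + 1) * (rho N ^ (N + 1) * (N + 1 : ℝ)) = 1 := by
    have : (((N : ℝ) + 2) / (N + 1)) ^ (N + 1) * rho N ^ (N + 1) = 1 := by
      rw [← mul_pow]
      have : ((N : ℝ) + 2) / (N + 1) * rho N = 1 := by unfold rho; field_simp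
      rw [this, one_pow]
    field_simp
    linarith
  have h6 : 0 < rho N ^ (N + 1) * (N + 1 : ℝ) := by have := rho_pos N; positivity
  exact le_of_mul_le_mul_right (h5.le.trans h4) h6

lemma tendsto_e : Filter.Tendsto (fun N : ℕ => (((N : ℝ) + 2) / (N + 1)) ^ N) Filter.atTop
    (nhds (Real.exp 1)) := by
  have h1 := (Real.tendsto_one_add_div_pow_exp 1).comp (Filter.tendsto_add_atTop_nat 1)
  have h2 : Filter.Tendsto (fun N : ℕ => ((N : ℝ) + 2) / (N + 1)) Filter.atTop (nhds 1) := by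
    have h3 : Filter.Tendsto (fun N : ℕ => 1 + 1 / ((N : ℝ) + 1)) Filter.atTop (nhds (1 + 0)) :=
      tendsto_const_nhds.add tendsto_one_div_add_atTop_nhds_zero_nat
    rw [add_zero] at h3
    refine h3.congr fun N => ?_
    field_simp
    ring
  have h4 := h1.div h2 one_ne_zero
  rw [div_one] at h4
  refine h4.congr fun N => ?_
  have h5 : (1 + 1 / (((N + 1 : ℕ)) : ℝ)) = ((N : ℝ) + 2) / (N + 1) := by
    push_cast; field_simp; ring
  simp only [Pi.div_apply, Function.comp]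
  rw [h5, pow_succ, mul_div_assoc, div_self (by positivity), mul_one]

end

end H4Res
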