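import Mathlib

set_option autoImplicit false

namespace H4Rig

open Finset

/-- `σ` is an automorphism of the family `X` of blocks. -/
def IsAut {V : Type*} (X : Set (Finset V)) (σ : Equiv.Perm V) : Prop :=
  ∀ B : Finset V, B ∈ X ↔ B.map σ.toEmbedding ∈ X

lemma card_le_of_det {U : Type*} [Fintype U] [DecidableEq U] (E : Finset (U → Bool)) (T : Finset U)
    (h : ∀ ε ∈ E, ∀ ε' ∈ E, (∀ o, o ∉ T → ε o = ε' o) → ε = ε') :
    E.card * 2 ^ T.card ≤ 2 ^ Fintype.card U := by
  have h1 : E.card ≤ 2 ^ (Fintype.card U - T.card) := by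
    have h2 : Fintype.card ({o // o ∉ T} → Bool) = 2 ^ (Fintype.card U - T.card) := by
      rw [Fintype.card_fun, Fintype.card_bool]
      congr 1
      rw [Fintype.card_subtype_compl (fun o => o ∈ T), Fintype.card_coe]
    rw [← h2, ← Finset.card_univ]
    apply card_le_card_of_injOn (fun ε o => ε o.1) (fun _ _ => mem_coe.2 (mem_univ _))
    intro ε hε ε' hε' he
    exact h ε hε ε' hε' (fun o ho => congrFun he ⟨o, ho⟩)
  calc E.card * 2 ^ T.card ≤ 2 ^ (Fintype.card U - T.card) * 2 ^ T.card :=
        Nat.mul_le_mul_right _ h1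
    _ = 2 ^ Fintype.card U := by
        rw [← pow_add, Nat.sub_add_cancel (card_le_univ T)]

lemma sum_perm_le {V : Type*} [Fintype V] [DecidableEq V] (y : ℝ) (hy : 0 ≤ y) :
    ∑ τ : Equiv.Perm V, y ^ (univ.filter (fun x => τ x ≠ x)).card
      ≤ (1 + Fintype.card V * y) ^ Fintype.card V := by
  have h1 : ∀ f : V → V, y ^ (univ.filter (fun x => f x ≠ x)).card
      = ∏ x, (if f x = x then 1 else y) := by
    intro f
    rw [prod_ite, prod_const_one, one_mul, prod_const]
  calc ∑ τ : Equiv.Perm V, y ^ (univ.filter (fun x => τ x ≠ x)).card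
      = ∑ τ : Equiv.Perm V, ∏ x, (if τ x = x then 1 else y) := by
        apply sum_congr rfl; intro τ _; exact h1 τ
    _ = ∑ f ∈ (univ : Finset (Equiv.Perm V)).image (fun τ : Equiv.Perm V => (⇑τ : V → V)),
          ∏ x, (if f x = x then 1 else y) := by
        rw [sum_image]
        intro a _ b _ h
        exact DFunLike.coe_injective h
    _ ≤ ∑ f : V → V, ∏ x, (if f x = x then 1 else y) := by
        apply sum_le_sum_of_subset_of_nonneg (subset_univ _)
        intro f _ _
        apply prod_nonneg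
        intro x _
        split_ifs <;> [exact zero_le_one; exact hy]
    _ = ∏ x : V, ∑ z : V, (if z = x then 1 else y) := by
        rw [prod_univ_sum, Fintype.piFinset_univ]
    _ ≤ ∏ _x : V, (1 + Fintype.card V * y) := by
        apply prod_le_prod
        · intro x _
          apply sum_nonneg
          intro z _
          split_ifs <;> [exact zero_le_one; exact hy]
        · intro x _
          calc ∑ z : V, (if z = x then (1 : ℝ) else y) ≤ ∑ z : V, ((if z = x then 1 else 0) + y) := by
                apply sum_le_sum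
                intro z _
                split_ifs <;> linarith
            _ = 1 + Fintype.card V * y := by
                rw [sum_add_distrib]; simp
    _ = _ := by rw [prod_const, card_univ]

lemma pow_bound (a : ℝ) (ha : 0 ≤ a) (v : ℕ) (h : v * a ≤ 1 / 2) : (1 + a) ^ v ≤ 1 + 2 * (v * a) := by
  rcases Nat.eq_zero_or_pos v with rfl | hv
  · simp
  have hv' : (1 : ℝ) ≤ v := by exact_mod_cast hv
  have ha1 : a ≤ 1 / 2 := by nlinarith
  have h1 : 1 + (v : ℝ) * (-a) ≤ (1 + (-a)) ^ v := one_add_mul_le_pow (by linarith) v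
  have h2 : (1 + a) ^ v * (1 + (-a)) ^ v ≤ 1 := by
    rw [← mul_pow]
    apply pow_le_one₀ <;> nlinarith
  have h3 : (0 : ℝ) < (1 + a) ^ v := by positivity
  have h4 : (1 + a) ^ v * (1 - v * a) ≤ 1 := by
    calc (1 + a) ^ v * (1 - v * a) ≤ (1 + a) ^ v * (1 + (-a)) ^ v := by
          apply mul_le_mul_of_nonneg_left _ h3.le; linarith
      _ ≤ 1 := h2
  set P := (1 + a) ^ v
  set t := (v : ℝ) * a
  have ht : 0 ≤ t := by positivity
  by_contra hcon
  push Not at hcon
  nlinarith

theorem rigid {V U G : Type*} [Fintype V] [DecidableEq V] [Nonempty V] [Fintype U] [LinearOrder U]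
    [Group G] [Fintype G] (φ : G →* Equiv.Perm V) (X : (U → Bool) → Set (Finset V))
    (un : V → V → Option U)
    (hdes : ∀ ε P Q, P ≠ Q → ∃ B ∈ X ε, P ∈ B ∧ Q ∈ B)
    (hloc : ∀ ε ε' P Q, P ≠ Q → (∀ o, un P Q = some o → ε o = ε' o) →
      ∀ B ∈ X ε, P ∈ B → Q ∈ B → B ∈ X ε')
    (hsw : ∀ ε ε' P Q o, P ≠ Q → un P Q = some o → ε o ≠ ε' o →
      ∀ B ∈ X ε, P ∈ B → Q ∈ B → B ∉ X ε')
    (hinv : ∀ ε g, IsAut (X ε) (φ g))
    (κ : ℕ) (hκ : 4 * Fintype.card G * (Fintype.card V) ^ 2 ≤ 2 ^ κ)
    (hbad : ∀ σ : Equiv.Perm V, σ ∉ φ.range → ∃ g : G,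
      2 * κ * (univ.filter (fun x => σ x ≠ φ g x)).card ≤
        (univ.filter (fun o : U => ∃ P Q, P ≠ Q ∧ un P Q = some o ∧
          un (σ P) (σ Q) ≠ some o)).card) :
    ∃ ε, ∀ σ : Equiv.Perm V, IsAut (X ε) σ ↔ σ ∈ φ.range := by
  classical
  -- number of ε for which σ is an automorphism
  have key : ∀ σ : Equiv.Perm V, (univ.filter (fun ε => IsAut (X ε) σ)).card *
      2 ^ ((univ.filter (fun o : U => ∃ P Q, P ≠ Q ∧ un P Q = some o ∧
          un (σ P) (σ Q) ≠ some o)).card / 2) ≤ 2 ^ Fintype.card U := by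
    intro σ
    set Bd := univ.filter (fun o : U => ∃ P Q, P ≠ Q ∧ un P Q = some o ∧
          un (σ P) (σ Q) ≠ some o) with hBd
    set E := univ.filter (fun ε => IsAut (X ε) σ) with hE
    have hch : ∀ o : U, ∃ s : Option U, o ∈ Bd → s ≠ some o ∧
        ∀ ε ∈ E, ∀ ε' ∈ E, (∀ o', s = some o' → ε o' = ε' o') → ε o = ε' o := by
      intro o
      by_cases ho : o ∈ Bd
      · have ho' := ho
        rw [hBd, mem_filter] at ho'
        obtain ⟨_, P, Q, hPQ, h1, h2⟩ := ho'
        refine ⟨un (σ P) (σ Q), fun _ => ⟨h2, ?_⟩⟩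
        intro ε hε ε' hε' hag
        by_contra hne
        rw [hE, mem_filter] at hε hε'
        obtain ⟨B, hB, hPB, hQB⟩ := hdes ε P Q hPQ
        have h3 : B.map σ.toEmbedding ∈ X ε := (hε.2 B).1 hB
        have h4 : B.map σ.toEmbedding ∈ X ε' := by
          refine hloc ε ε' (σ P) (σ Q) (fun h => hPQ (σ.injective h)) hag _ h3 ?_ ?_
          · exact mem_map_of_mem _ hPB
          · exact mem_map_of_mem _ hQB
        have h5 : B ∈ X ε' := (hε'.2 B).2 h4
        exact hsw ε ε' P Q o hPQ h1 hne B hB hPB hQB h5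
      · exact ⟨none, fun h => absurd h ho⟩
    choose s hs using hch
    set Up := Bd.filter (fun o => ∀ o', s o = some o' → o < o') with hUp
    set Dn := Bd.filter (fun o => ∃ o', s o = some o' ∧ o' < o) with hDn
    have hsub : Bd ⊆ Up ∪ Dn := by
      intro o ho
      by_cases h : ∃ o', s o = some o' ∧ o' < o
      · exact mem_union_right _ (mem_filter.2 ⟨ho, h⟩)
      · refine mem_union_left _ (mem_filter.2 ⟨ho, fun o' ho' => ?_⟩)
        push Not at h
        have h1 := h o' ho'
        refine lt_of_le_of_ne h1 ?_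
        rintro rfl
        exact (hs o ho).1 ho'
    have hc : Bd.card ≤ Up.card + Dn.card := (card_le_card hsub).trans (card_union_le _ _)
    have hUpdet : E.card * 2 ^ Up.card ≤ 2 ^ Fintype.card U := by
      apply card_le_of_det
      intro ε hε ε' hε' hag
      have : ∀ o : U, ε o = ε' o := by
        intro o
        induction o using (Finite.to_wellFoundedGT (α := U)).wf.induction with
        | _ o ih =>
          by_cases ho : o ∈ Up
          · rw [hUp, mem_filter] at ho
            exact (hs o ho.1).2 ε hε ε' hε' (fun o' ho' => ih o' (ho.2 o' ho'))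
          · exact hag o ho
      exact funext this
    have hDndet : E.card * 2 ^ Dn.card ≤ 2 ^ Fintype.card U := by
      apply card_le_of_det
      intro ε hε ε' hε' hag
      have : ∀ o : U, ε o = ε' o := by
        intro o
        induction o using (Finite.to_wellFoundedLT (α := U)).wf.induction with
        | _ o ih =>
          by_cases ho : o ∈ Dn
          · rw [hDn, mem_filter] at ho
            obtain ⟨h1, o', h2, h3⟩ := ho
            exact (hs o h1).2 ε hε ε' hε' (fun o'' ho'' => by
              rw [h2, Option.some.injEq] at ho''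
              subst ho''
              exact ih o' h3)
          · exact hag o ho
      exact funext this
    rcases le_total (Bd.card / 2) Up.card with h | h
    · exact (Nat.mul_le_mul_left _ (Nat.pow_le_pow_right (by norm_num) h)).trans hUpdet
    · have : Bd.card / 2 ≤ Dn.card := by omega
      exact (Nat.mul_le_mul_left _ (Nat.pow_le_pow_right (by norm_num) this)).trans hDndet
  by_contra hcon
  push Not at hcon
  -- choose g for σ
  choose! γ hγ using hbad
  have hGpos : (0 : ℝ) < Fintype.card G := by exact_mod_cast Fintype.card_pos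
  have hVpos : (0 : ℝ) < Fintype.card V := by exact_mod_cast Fintype.card_pos
  set y : ℝ := (1 / 2) ^ κ with hy
  have hy0 : 0 ≤ y := by positivity
  set S : Finset (Equiv.Perm V) := univ.filter (fun σ => σ ∉ φ.range) with hS
  have hE : ∀ σ ∈ S, ((univ.filter (fun ε => IsAut (X ε) σ)).card : ℝ)
      ≤ 2 ^ Fintype.card U * y ^ (univ.filter (fun x => σ x ≠ φ (γ σ) x)).card := by
    intro σ hσ
    have h1 := hγ σ (mem_filter.1 hσ).2
    have h2 := key σ
    set bd := (univ.filter (fun o : U => ∃ P Q, P ≠ Q ∧ un P Q = some o ∧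
          un (σ P) (σ Q) ≠ some o)).card
    set m := (univ.filter (fun x => σ x ≠ φ (γ σ) x)).card
    have h3 : κ * m ≤ bd / 2 := by
      rw [Nat.le_div_iff_mul_le (by norm_num)]
      calc κ * m * 2 = 2 * κ * m := by ring
        _ ≤ bd := h1
    have h4 : (univ.filter (fun ε => IsAut (X ε) σ)).card * 2 ^ (κ * m) ≤ 2 ^ Fintype.card U :=
      (Nat.mul_le_mul_left _ (Nat.pow_le_pow_right (by norm_num) h3)).trans h2
    have h5 : ((univ.filter (fun ε => IsAut (X ε) σ)).card : ℝ) * 2 ^ (κ * m)
        ≤ 2 ^ Fintype.card U := by exact_mod_cast h4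
    rw [hy, ← pow_mul, one_div, inv_pow, ← div_eq_mul_inv, le_div_iff₀ (by positivity)]
    exact h5
  have hcover : (univ : Finset (U → Bool)) ⊆ S.biUnion
      (fun σ => univ.filter (fun ε => IsAut (X ε) σ)) := by
    intro ε _
    obtain ⟨σ, hσ⟩ := hcon ε
    rw [mem_biUnion]
    rcases hσ with ⟨h1, h2⟩ | ⟨h1, h2⟩
    · exact ⟨σ, mem_filter.2 ⟨mem_univ _, h2⟩, mem_filter.2 ⟨mem_univ _, h1⟩⟩
    · exfalso
      obtain ⟨g, rfl⟩ := h2
      exact h1 (hinv ε g)
  have h1 : (2 : ℝ) ^ Fintype.card U ≤ ∑ σ ∈ S,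
      2 ^ Fintype.card U * y ^ (univ.filter (fun x => σ x ≠ φ (γ σ) x)).card := by
    have h2 : (univ : Finset (U → Bool)).card ≤ ∑ σ ∈ S,
        (univ.filter (fun ε => IsAut (X ε) σ)).card :=
      (card_le_card hcover).trans card_biUnion_le
    rw [card_univ, Fintype.card_fun, Fintype.card_bool] at h2
    calc (2 : ℝ) ^ Fintype.card U ≤ ∑ σ ∈ S,
          ((univ.filter (fun ε => IsAut (X ε) σ)).card : ℝ) := by exact_mod_cast h2
      _ ≤ _ := sum_le_sum hE
  rw [← mul_sum] at h1
  have h2 : (1 : ℝ) ≤ ∑ σ ∈ S, y ^ (univ.filter (fun x => σ x ≠ φ (γ σ) x)).card := by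
    have hp : (0 : ℝ) < 2 ^ Fintype.card U := by positivity
    nlinarith
  have h3 : ∑ σ ∈ S, y ^ (univ.filter (fun x => σ x ≠ φ (γ σ) x)).card
      ≤ ∑ p ∈ (univ : Finset G) ×ˢ (univ.erase (1 : Equiv.Perm V)),
        y ^ (univ.filter (fun x => p.2 x ≠ x)).card := by
    calc ∑ σ ∈ S, y ^ (univ.filter (fun x => σ x ≠ φ (γ σ) x)).card
        = ∑ σ ∈ S, y ^ (univ.filter (fun x => ((φ (γ σ))⁻¹ * σ) x ≠ x)).card := by
          apply sum_congr rfl
          intro σ _
          congr 2
          apply filter_congr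
          intro x _
          rw [Equiv.Perm.mul_apply, ne_eq, ne_eq, Equiv.Perm.inv_eq_iff_eq]
      _ = ∑ p ∈ S.image (fun σ => (γ σ, (φ (γ σ))⁻¹ * σ)),
            y ^ (univ.filter (fun x => p.2 x ≠ x)).card := by
          rw [sum_image]
          intro a _ b _ hab
          simp only [Prod.mk.injEq] at hab
          obtain ⟨h4, h5⟩ := hab
          rw [h4] at h5
          exact mul_left_cancel h5
      _ ≤ _ := by
          apply sum_le_sum_of_subset_of_nonneg
          · intro p hp
            rw [mem_image] at hp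
            obtain ⟨σ, hσ, rfl⟩ := hp
            rw [mem_product, mem_erase]
            refine ⟨mem_univ _, ?_, mem_univ _⟩
            intro h4
            apply (mem_filter.1 hσ).2
            rw [inv_mul_eq_one] at h4
            exact ⟨_, h4⟩
          · intro p _ _; positivity
  have h4 : ∑ p ∈ (univ : Finset G) ×ˢ (univ.erase (1 : Equiv.Perm V)),
        y ^ (univ.filter (fun x => p.2 x ≠ x)).card
      = Fintype.card G * (∑ τ : Equiv.Perm V, y ^ (univ.filter (fun x => τ x ≠ x)).card - 1) := by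
    rw [sum_product]
    show ∑ _x : G, ∑ τ ∈ univ.erase (1 : Equiv.Perm V),
      y ^ (univ.filter (fun x => τ x ≠ x)).card = _
    rw [sum_const, card_univ, nsmul_eq_mul]
    congr 1
    rw [← add_sum_erase univ _ (mem_univ (1 : Equiv.Perm V))]
    simp
  have h5 := sum_perm_le (V := V) y hy0
  have h6 : (Fintype.card V : ℝ) ^ 2 * y ≤ 1 / (4 * Fintype.card G) := by
    have h7 : (4 * Fintype.card G * (Fintype.card V) ^ 2 : ℝ) ≤ 2 ^ κ := by exact_mod_cast hκ
    rw [hy, one_div, inv_pow, ← div_eq_mul_inv, div_le_div_iff₀ (by positivity) (by positivity)]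
    linarith
  have hG1 : (1 : ℝ) ≤ Fintype.card G := by exact_mod_cast Fintype.card_pos
  have h7 : (Fintype.card V : ℝ) * (Fintype.card V * y) ≤ 1 / (4 * Fintype.card G) := by
    calc (Fintype.card V : ℝ) * (Fintype.card V * y) = (Fintype.card V : ℝ) ^ 2 * y := by ring
      _ ≤ _ := h6
  have h8 : (Fintype.card V : ℝ) * (Fintype.card V * y) ≤ 1 / 2 := by
    refine h7.trans ?_
    rw [div_le_div_iff₀ (by positivity) (by norm_num)]
    linarith
  have h9 := pow_bound (Fintype.card V * y) (by positivity) (Fintype.card V) h8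
  have h10 : ∑ τ : Equiv.Perm V, y ^ (univ.filter (fun x => τ x ≠ x)).card - 1
      ≤ 1 / (2 * Fintype.card G) := by
    have h11 : 2 * (1 / (4 * (Fintype.card G : ℝ))) = 1 / (2 * Fintype.card G) := by
      field_simp; norm_num
    linarith
  have h12 : (Fintype.card G : ℝ) * (1 / (2 * Fintype.card G)) = 1 / 2 := by
    field_simp
  have h13 : (Fintype.card G : ℝ) *
      (∑ τ : Equiv.Perm V, y ^ (univ.filter (fun x => τ x ≠ x)).card - 1) ≤ 1 / 2 := by
    rw [← h12]
    exact mul_le_mul_of_nonneg_left h10 hGpos.le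
  rw [h4] at h3
  linarith

end H4Rig
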