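import Mathlib

open Finset

namespace H4STS

/-- `B` is (the set of blocks of) a Steiner triple system on `V`. -/
structure IsSTS {V : Type*} (B : Finset (Finset V)) : Prop where
  card_three : ∀ b ∈ B, b.card = 3
  pair : ∀ x y : V, x ≠ y → ∃! b : Finset V, b ∈ B ∧ x ∈ b ∧ y ∈ b

/-! ### Steiner quasigroups and Steiner triple systems -/

section SQ

variable {V : Type*} [Fintype V] [DecidableEq V] (st : V → V → V)

def blocks : Finset (Finset V) :=
  ((univ : Finset (V × V)).filter (fun p => p.1 ≠ p.2)).image (fun p => {p.1, p.2, st p.1 p.2})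

variable {st}

lemma mem_blocks (b : Finset V) : b ∈ blocks st ↔ ∃ x y, x ≠ y ∧ b = {x, y, st x y} := by
  unfold blocks
  simp only [mem_image, mem_filter, mem_univ, true_and, Prod.exists]
  constructor
  · rintro ⟨x, y, h, rfl⟩; exact ⟨x, y, h, rfl⟩
  · rintro ⟨x, y, h, rfl⟩; exact ⟨x, y, h, rfl⟩

lemma isSTS_blocks (idem : ∀ x, st x x = x) (comm : ∀ x y, st x y = st y x)
    (inv : ∀ x y, st x (st x y) = y) : IsSTS (blocks st) := by
  have ne1 : ∀ x y, x ≠ y → st x y ≠ x := by
    intro x y h e
    apply h
    have := inv x y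
    rw [e, idem] at this
    exact this
  have ne2 : ∀ x y, x ≠ y → st x y ≠ y := by
    intro x y h e
    rw [comm] at e
    exact ne1 y x h.symm e
  have inv2 : ∀ x y, st (st x y) x = y := by
    intro x y; rw [comm]; exact inv x y
  have inv3 : ∀ x y, st (st x y) y = x := by
    intro x y; rw [comm x y]; exact inv2 y x
  have inv4 : ∀ x y, st y (st x y) = x := by
    intro x y; rw [comm x y]; exact inv y x
  constructor
  · intro b hb
    obtain ⟨x, y, h, rfl⟩ := (mem_blocks b).mp hb
    rw [card_eq_three]
    exact ⟨x, y, st x y, h, (ne1 x y h).symm, (ne2 x y h).symm, rfl⟩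
  · intro x y h
    refine ⟨{x, y, st x y}, ⟨(mem_blocks _).mpr ⟨x, y, h, rfl⟩, by simp, by simp⟩, ?_⟩
    rintro b ⟨hb, hx, hy⟩
    obtain ⟨p, q, hpq, rfl⟩ := (mem_blocks b).mp hb
    simp only [mem_insert, mem_singleton] at hx hy
    rcases hx with rfl | rfl | rfl <;> rcases hy with rfl | rfl | rfl
    · exact absurd rfl h
    · rfl
    · rw [inv]; ext z; simp; tauto
    · rw [comm]; ext z; simp; tauto
    · exact absurd rfl h
    · rw [inv4]; ext z; simp; tauto
    · rw [inv2]; ext z; simp; tauto
    · rw [inv3]; ext z; simp; tauto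
    · exact absurd rfl h

lemma image_blocks (f : V ≃ V) (hf : ∀ x y, f (st x y) = st (f x) (f y)) :
    (blocks st).image (fun b => b.image f) = blocks st := by
  have key : ∀ (f : V ≃ V), (∀ x y, f (st x y) = st (f x) (f y)) →
      ∀ b ∈ blocks st, b.image f ∈ blocks st := by
    intro f hf b hb
    obtain ⟨x, y, h, rfl⟩ := (mem_blocks b).mp hb
    refine (mem_blocks _).mpr ⟨f x, f y, fun e => h (f.injective e), ?_⟩
    simp [image_insert, hf]
  apply Finset.Subset.antisymm
  · intro b hb
    obtain ⟨b', hb', rfl⟩ := mem_image.mp hb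
    exact key f hf b' hb'
  · intro b hb
    have hf' : ∀ x y, f.symm (st x y) = st (f.symm x) (f.symm y) := by
      intro x y
      apply f.injective
      rw [hf]; simp
    refine mem_image.mpr ⟨b.image f.symm, key f.symm hf' b hb, ?_⟩
    rw [image_image]
    simp

end SQ

/-! ### commutative idempotent quasigroups and the Bose construction -/

/-- a commutative idempotent quasigroup. -/
structure CIQ (Q : Type*) where
  op : Q → Q → Q
  ld : Q → Q → Q
  comm : ∀ x y, op x y = op y x
  idem : ∀ x, op x x = x
  op_ld : ∀ x y, op x (ld x y) = y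
  ld_op : ∀ x y, ld x (op x y) = y

section Bose

variable {Q : Type*} (C : CIQ Q)

lemma CIQ.inj (x y z : Q) (h : C.op x y = C.op x z) : y = z := by
  rw [← C.ld_op x y, h, C.ld_op]

open Classical in
/-- the Bose operation. -/
noncomputable def star (u v : Q × ZMod 3) : Q × ZMod 3 :=
  if u.1 = v.1 then (if u.2 = v.2 then u else (u.1, -(u.2 + v.2)))
  else if u.2 = v.2 then (C.op u.1 v.1, u.2 + 1)
  else if v.2 = u.2 + 1 then (C.ld u.1 v.1, u.2)
  else (C.ld v.1 u.1, v.2)

lemma z1 : ∀ i j : ZMod 3, i ≠ j → j ≠ i + 1 → i = j + 1 := by decide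
lemma z2 : ∀ i : ZMod 3, i ≠ i + 1 := by decide
lemma z2' : ∀ i : ZMod 3, i + 1 ≠ i := by decide
lemma z3 : ∀ i : ZMod 3, i ≠ i + 1 + 1 := by decide
lemma z4 : ∀ i j : ZMod 3, i ≠ j → i ≠ -(i + j) := by decide
lemma z5 : ∀ i j : ZMod 3, i ≠ j → -(i + -(i + j)) = j := by decide

lemma star_idem (u : Q × ZMod 3) : star C u u = u := by
  unfold star; simp

lemma star_comm (u v : Q × ZMod 3) : star C u v = star C v u := by
  obtain ⟨x, i⟩ := u
  obtain ⟨y, j⟩ := v
  unfold star
  dsimp only
  by_cases hxy : x = y
  · subst hxy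
    by_cases hij : i = j
    · subst hij; simp
    · simp [hij, Ne.symm hij, add_comm]
  · by_cases hij : i = j
    · subst hij; simp [hxy, Ne.symm hxy, C.comm]
    · by_cases h1 : j = i + 1
      · subst h1
        simp [hxy, Ne.symm hxy, z2 i, z2' i, z3 i]
      · have h2 := z1 i j hij h1
        subst h2
        simp [hxy, Ne.symm hxy, z2 j, z2' j, z3 j]

lemma CIQ.ld_ne (x y : Q) (h : x ≠ y) : C.ld x y ≠ x := by
  intro e
  have := C.op_ld x y
  rw [e, C.idem] at this
  exact h this

lemma star_star (u v : Q × ZMod 3) : star C u (star C u v) = v := by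
  obtain ⟨x, i⟩ := u
  obtain ⟨y, j⟩ := v
  by_cases hxy : x = y
  · subst hxy
    by_cases hij : i = j
    · subst hij; simp [star]
    · have h1 : star C (x, i) (x, j) = (x, -(i + j)) := by simp [star, hij]
      rw [h1]
      have h2 := z4 i j hij
      unfold star
      dsimp only
      rw [if_pos rfl, if_neg h2, z5 i j hij]
  · by_cases hij : i = j
    · subst hij
      have h1 : star C (x, i) (y, i) = (C.op x y, i + 1) := by simp [star, hxy]
      rw [h1]
      have h2 : x ≠ C.op x y := by
        intro e
        have : C.op x x = C.op x y := by rw [C.idem]; exact e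
        exact hxy (C.inj _ _ _ this)
      unfold star
      dsimp only
      rw [if_neg h2, if_neg (z2 i), if_pos rfl, C.ld_op]
    · by_cases h1 : j = i + 1
      · subst h1
        have h2 : star C (x, i) (y, i + 1) = (C.ld x y, i) := by
          unfold star
          dsimp only
          rw [if_neg hxy, if_neg (z2 i), if_pos rfl]
        rw [h2]
        unfold star
        dsimp only
        rw [if_neg (C.ld_ne x y hxy).symm, if_pos rfl, C.op_ld]
      · have h2 := z1 i j hij h1
        subst h2
        have h3 : star C (x, j + 1) (y, j) = (C.ld y x, j) := by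
          unfold star
          dsimp only
          rw [if_neg hxy, if_neg (z2' j), if_neg (z3 j)]
        rw [h3]
        have h4 : x ≠ C.ld y x := by
          intro e
          have := C.op_ld y x
          rw [← e, C.comm] at this
          have h5 : C.op x y = C.op x x := by rw [this, C.idem]
          exact hxy (C.inj _ _ _ h5).symm
        unfold star
        dsimp only
        rw [if_neg h4, if_neg (z2' j), if_neg (z3 j)]
        have h6 : C.op (C.ld y x) y = x := by rw [C.comm]; exact C.op_ld y x
        have h7 : C.ld (C.ld y x) x = y := by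
          conv_lhs => rw [← h6]
          rw [h6]
          have := C.ld_op (C.ld y x) y
          rwa [h6] at this
        rw [h7]

lemma star_equiv (f : Q ≃ Q) (hf : ∀ x y, f (C.op x y) = C.op (f x) (f y))
    (u v : Q × ZMod 3) :
    (f (star C u v).1, (star C u v).2) = star C (f u.1, u.2) (f v.1, v.2) := by
  have hld : ∀ x y, f (C.ld x y) = C.ld (f x) (f y) := by
    intro x y
    have h1 : C.op (f x) (f (C.ld x y)) = f y := by rw [← hf, C.op_ld]
    rw [← h1, C.ld_op]
  obtain ⟨x, i⟩ := u
  obtain ⟨y, j⟩ := v
  unfold star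
  dsimp only
  by_cases h1 : x = y
  · subst h1
    by_cases h2 : i = j
    · rw [if_pos rfl, if_pos h2, if_pos rfl, if_pos h2]
    · rw [if_pos rfl, if_neg h2, if_pos rfl, if_neg h2]
  · have h1' : f x ≠ f y := fun e => h1 (f.injective e)
    by_cases h2 : i = j
    · rw [if_neg h1, if_pos h2, if_neg h1', if_pos h2, hf]
    · by_cases h3 : j = i + 1
      · rw [if_neg h1, if_neg h2, if_pos h3, if_neg h1', if_neg h2, if_pos h3, hld]
      · rw [if_neg h1, if_neg h2, if_neg h3, if_neg h1', if_neg h2, if_neg h3, hld]

end Bose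

/-- Master theorem: a commutative idempotent quasigroup with a faithful action of `G` by
automorphisms yields a Steiner triple system on `3|Q|` points. -/
theorem sts_of_ciq {Q : Type*} [Fintype Q] (C : CIQ Q) {G : Type*} [Group G]
    (act : G →* Equiv.Perm Q) (hinj : Function.Injective act)
    (hact : ∀ g x y, act g (C.op x y) = C.op (act g x) (act g y)) :
    ∃ (v : ℕ) (B : Finset (Finset (Fin v))), v = 3 * Fintype.card Q ∧ IsSTS B ∧
      ∃ φ : G →* Equiv.Perm (Fin v), Function.Injective φ ∧
        ∀ g, B.image (fun b => b.image (φ g)) = B := by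
  classical
  have hcard : Fintype.card (Q × ZMod 3) = 3 * Fintype.card Q := by
    rw [Fintype.card_prod, ZMod.card, mul_comm]
  let e : Q × ZMod 3 ≃ Fin (3 * Fintype.card Q) := Fintype.equivFinOfCardEq hcard
  let st : Fin (3 * Fintype.card Q) → Fin (3 * Fintype.card Q) → Fin (3 * Fintype.card Q) :=
    fun a b => e (star C (e.symm a) (e.symm b))
  let ext : G →* Equiv.Perm (Q × ZMod 3) :=
    { toFun := fun g => (act g).prodCongr (Equiv.refl (ZMod 3))
      map_one' := by ext x <;> simp
      map_mul' := by intro a b; ext x <;> simp }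
  let φ : G →* Equiv.Perm (Fin (3 * Fintype.card Q)) :=
    (e.permCongrHom : Equiv.Perm (Q × ZMod 3) ≃* Equiv.Perm (Fin (3 * Fintype.card Q))).toMonoidHom.comp ext
  refine ⟨3 * Fintype.card Q, blocks st, rfl, ?_, φ, ?_, ?_⟩
  · apply isSTS_blocks
    · intro x; simp [st, star_idem]
    · intro x y; simp only [st]; rw [star_comm]
    · intro x y; simp [st, star_star]
  · intro g h hgh
    apply hinj
    have h1 : ext g = ext h := by
      have : (e.permCongrHom : Equiv.Perm (Q × ZMod 3) ≃* Equiv.Perm (Fin (3 * Fintype.card Q))) (ext g)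
        = e.permCongrHom (ext h) := hgh
      exact e.permCongrHom.injective this
    ext x
    have h2 := congrArg (fun p => (p (x, 0)).1) h1
    exact h2
  · intro g
    apply image_blocks
    intro x y
    have h1 : ∀ z, φ g z = e (ext g (e.symm z)) := fun z => rfl
    rw [h1, h1, h1]
    simp only [st, Equiv.symm_apply_apply]
    congr 1
    exact star_equiv C (act g) (hact g) _ _

end H4STS
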