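import Pool.Agent.Helpers.H4_STS

open Finset

namespace H4STS

/-! ### gluing -/

section Glue

variable {W F : Type*} (T : W → W → W → Prop) (P : F → W → W) (CF : CIQ F)

open Classical in
noncomputable def gop : W ⊕ F → W ⊕ F → W ⊕ F
  | Sum.inl w, Sum.inl v =>
      if w = v then Sum.inl w
      else if h : ∃ u, T w v u then Sum.inl h.choose
      else if h : ∃ a, P a w = v then Sum.inr h.choose
      else Sum.inl w
  | Sum.inl w, Sum.inr a => Sum.inl (P a w)
  | Sum.inr a, Sum.inl w => Sum.inl (P a w)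
  | Sum.inr a, Sum.inr b => Sum.inr (CF.op a b)

noncomputable def gld : W ⊕ F → W ⊕ F → W ⊕ F
  | Sum.inl w, x => gop T P CF (Sum.inl w) x
  | Sum.inr a, Sum.inl w => Sum.inl (P a w)
  | Sum.inr a, Sum.inr b => Sum.inr (CF.ld a b)

variable {T P}
variable (s1 : ∀ w v u, T w v u → T v w u) (s2 : ∀ w v u, T w v u → T w u v)
  (uniq : ∀ w v u u', T w v u → T w v u' → u = u') (Tne : ∀ w v u, T w v u → w ≠ v)
  (PP : ∀ a w, P a (P a w) = w) (Pne : ∀ a w, P a w ≠ w)
  (cov : ∀ w v, w ≠ v → (¬ ∃ u, T w v u) → ∃ a, P a w = v)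
  (PT : ∀ a w u, ¬ T w (P a w) u) (Pinj : ∀ a b w, P a w = P b w → a = b)

include uniq Tne in
lemma gop_T {w v u : W} (h : T w v u) : gop T P CF (Sum.inl w) (Sum.inl v) = Sum.inl u := by
  have hex : ∃ u, T w v u := ⟨u, h⟩
  simp only [gop]
  rw [if_neg (Tne _ _ _ h), dif_pos hex]
  exact congrArg _ (uniq _ _ _ _ hex.choose_spec h)

include Pne PT Pinj in
lemma gop_P {w v : W} {a : F} (h : P a w = v) :
    gop T P CF (Sum.inl w) (Sum.inl v) = Sum.inr a := by
  subst h
  have hne : w ≠ P a w := (Pne a w).symm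
  have h2 : ¬ ∃ u, T w (P a w) u := by rintro ⟨u, hu⟩; exact PT _ _ _ hu
  have h3 : ∃ b, P b w = P a w := ⟨a, rfl⟩
  simp only [gop]
  rw [if_neg hne, dif_neg h2, dif_pos h3]
  exact congrArg _ (Pinj _ _ _ h3.choose_spec)

lemma gop_self (w : W) : gop T P CF (Sum.inl w) (Sum.inl w) = Sum.inl w := by
  simp [gop]

include s1 s2 uniq Tne PP Pne cov PT Pinj in
/-- the glued commutative idempotent quasigroup -/
lemma glue : ∃ C : CIQ (W ⊕ F), C.op = gop T P CF := by
  have hcomm : ∀ x y, gop T P CF x y = gop T P CF y x := by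
    rintro (w | a) (v | b)
    · by_cases h : w = v
      · rw [h]
      · by_cases h2 : ∃ u, T w v u
        · obtain ⟨u, hu⟩ := h2
          rw [gop_T CF uniq Tne hu, gop_T CF uniq Tne (s1 _ _ _ hu)]
        · obtain ⟨a, ha⟩ := cov w v h h2
          have ha' : P a v = w := by rw [← ha, PP]
          rw [gop_P CF Pne PT Pinj ha, gop_P CF Pne PT Pinj ha']
    · rfl
    · rfl
    · simp only [gop]; rw [CF.comm]
  have hinv : ∀ w x, gop T P CF (Sum.inl w) (gop T P CF (Sum.inl w) x) = x := by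
    rintro w (v | a)
    · by_cases h : w = v
      · subst h; rw [gop_self, gop_self]
      · by_cases h2 : ∃ u, T w v u
        · obtain ⟨u, hu⟩ := h2
          rw [gop_T CF uniq Tne hu, gop_T CF uniq Tne (s2 _ _ _ hu)]
        · obtain ⟨a, ha⟩ := cov w v h h2
          rw [gop_P CF Pne PT Pinj ha]
          simp only [gop]; rw [ha]
    · have : gop T P CF (Sum.inl w) (Sum.inr a) = Sum.inl (P a w) := rfl
      rw [this, gop_P CF Pne PT Pinj rfl]
  refine ⟨⟨gop T P CF, gld T P CF, hcomm, ?_, ?_, ?_⟩, rfl⟩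
  · rintro (w | a)
    · exact gop_self CF w
    · simp only [gop]; rw [CF.idem]
  · rintro (w | a) y
    · exact hinv w y
    · rcases y with v | b
      · simp only [gld, gop]; rw [PP]
      · simp only [gld, gop]; rw [CF.op_ld]
  · rintro (w | a) y
    · exact hinv w y
    · rcases y with v | b
      · simp only [gld, gop]; rw [PP]
      · simp only [gld, gop]; rw [CF.ld_op]

include s1 s2 uniq Tne PP Pne cov PT Pinj in
lemma gop_equiv (f : W ≃ W) (hT : ∀ w v u, T w v u → T (f w) (f v) (f u))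
    (hP : ∀ a w, P a (f w) = f (P a w)) (x y : W ⊕ F) :
    (Equiv.sumCongr f (Equiv.refl F)) (gop T P CF x y)
      = gop T P CF ((Equiv.sumCongr f (Equiv.refl F)) x) ((Equiv.sumCongr f (Equiv.refl F)) y) := by
  rcases x with w | a <;> rcases y with v | b
  · show _ = gop T P CF (Sum.inl (f w)) (Sum.inl (f v))
    by_cases h : w = v
    · subst h; rw [gop_self, gop_self]; rfl
    · by_cases h2 : ∃ u, T w v u
      · obtain ⟨u, hu⟩ := h2
        rw [gop_T CF uniq Tne hu, gop_T CF uniq Tne (hT _ _ _ hu)]; rfl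
      · obtain ⟨a, ha⟩ := cov w v h h2
        have ha' : P a (f w) = f v := by rw [hP, ha]
        rw [gop_P CF Pne PT Pinj ha, gop_P CF Pne PT Pinj ha']; rfl
  · show Sum.inl (f (P b w)) = Sum.inl (P b (f w))
    rw [hP]
  · show Sum.inl (f (P a v)) = Sum.inl (P a (f v))
    rw [hP]
  · rfl

end Glue

/-! ### a commutative idempotent quasigroup of every odd order -/

lemma ciq_odd (F : Type*) [Fintype F] (h : Odd (Fintype.card F)) : Nonempty (CIQ F) := by
  obtain ⟨k, hk⟩ := h
  haveI : NeZero (Fintype.card F) := ⟨by omega⟩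
  let e : F ≃ ZMod (Fintype.card F) := Fintype.equivOfCardEq (by rw [ZMod.card])
  set f := Fintype.card F
  have h2 : (2 : ZMod f) * ((k + 1 : ℕ) : ZMod f) = 1 := by
    have h3 : (2 : ZMod f) * ((k + 1 : ℕ) : ZMod f) = ((f : ℕ) : ZMod f) + 1 := by
      rw [hk]; push_cast; ring
    rw [h3, ZMod.natCast_self, zero_add]
  set d : ZMod f := ((k + 1 : ℕ) : ZMod f)
  refine ⟨⟨fun a b => e.symm ((e a + e b) * d), fun a b => e.symm (2 * e b - e a), ?_, ?_, ?_, ?_⟩⟩
  · intro x y; simp only [add_comm]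
  · intro x
    apply e.injective
    rw [Equiv.apply_symm_apply]
    calc (e x + e x) * d = e x * (2 * d) := by ring
      _ = e x := by rw [h2, mul_one]
  · intro x y
    apply e.injective
    rw [Equiv.apply_symm_apply, Equiv.apply_symm_apply]
    calc (e x + (2 * e y - e x)) * d = e y * (2 * d) := by ring
      _ = e y := by rw [h2, mul_one]
  · intro x y
    apply e.injective
    rw [Equiv.apply_symm_apply, Equiv.apply_symm_apply]
    calc 2 * ((e x + e y) * d) - e x = (e x + e y) * (2 * d) - e x := by ring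
      _ = e y := by rw [h2]; ring

/-! ### the difference construction -/

section Diff

variable {H I : Type*} [Group H] [AddCommGroup I] (κ : H → I) (c : H → H) (ord : I → ℕ)

def Blk (w v u : H × I) : Prop :=
  ∃ g : H, g * g ≠ 1 ∧ v = (w.1 * g, w.2) ∧ u = (w.1 * c g, w.2 + κ g)

def T3 (w v u : H × I) : Prop := Blk κ c w v u ∨ Blk κ c w u v ∨ Blk κ c v u w

def used (f : I × H) : Prop :=
  (f.1 = 0 ∧ f.2 * f.2 ≠ 1) ∨ ∃ g, g * g ≠ 1 ∧ κ g = f.1 ∧ (c g = f.2 ∨ c g = f.2⁻¹)

def Fx : Type _ := {f : I × H // f ≠ (0, 1) ∧ ¬ used κ c f}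

def PM (f : I × H) (w : H × I) : H × I :=
  (w.1 * (if ord w.2 ≤ ord (w.2 + f.1) then f.2 else f.2⁻¹), w.2 + f.1)

variable {κ c ord}
variable (hexp : ∀ i : I, i + i = 0) (κ_symm : ∀ g, κ g⁻¹ = κ g) (κ_ne : ∀ g, κ g ≠ 0)
  (κ_inj : ∀ g g' : H, κ g = κ g' → g' = g ∨ g' = g⁻¹)
  (c_symm : ∀ g : H, g * g ≠ 1 → g * c g⁻¹ = c g)
  (c1 : ∀ g : H, g * g ≠ 1 → c g * c g ≠ 1)
  (c2 : ∀ g : H, g * g ≠ 1 → c g * c g ≠ g)
  (ord_inj : Function.Injective ord)

lemma inv_ne {g : H} (h : g * g ≠ 1) : g⁻¹ * g⁻¹ ≠ 1 := by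
  intro e
  apply h
  have : (g * g)⁻¹ = 1 := by rw [mul_inv_rev]; exact e
  exact inv_eq_one.mp this

include κ_symm c_symm in
lemma Blk_symm {w v u : H × I} (h : Blk κ c w v u) : Blk κ c v w u := by
  obtain ⟨g, hg, rfl, rfl⟩ := h
  refine ⟨g⁻¹, inv_ne hg, ?_, ?_⟩
  · simp
  · simp only [κ_symm, mul_assoc, c_symm g hg]

include κ_symm c_symm in
lemma T3_s1 (w v u : H × I) (h : T3 κ c w v u) : T3 κ c v w u := by
  rcases h with h | h | h
  · exact Or.inl (Blk_symm κ_symm c_symm h)
  · exact Or.inr (Or.inr h)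
  · exact Or.inr (Or.inl h)

include κ_symm c_symm in
lemma T3_s2 (w v u : H × I) (h : T3 κ c w v u) : T3 κ c w u v := by
  rcases h with h | h | h
  · exact Or.inr (Or.inl h)
  · exact Or.inl h
  · exact Or.inr (Or.inr (Blk_symm κ_symm c_symm h))

include κ_ne in
lemma Blk_levels {w v u : H × I} (h : Blk κ c w v u) : w.2 = v.2 ∧ w.2 ≠ u.2 := by
  obtain ⟨g, hg, rfl, rfl⟩ := h
  refine ⟨rfl, ?_⟩
  simpa using κ_ne g

include κ_inj c_symm in
lemma Blk_uniq_apex {w v v' u : H × I} (h : Blk κ c w v u) (h' : Blk κ c w v' u) : v = v' := by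
  obtain ⟨g, hg, rfl, rfl⟩ := h
  obtain ⟨g', hg', rfl, hu⟩ := h'
  rw [Prod.mk.injEq] at hu
  have h1 : c g = c g' := mul_left_cancel hu.1
  have h2 : κ g = κ g' := add_left_cancel hu.2
  rcases κ_inj g g' h2 with h3 | h3
  · rw [h3]
  · exfalso
    have h4 := c_symm g hg
    rw [h3] at h1
    rw [← h1] at h4
    have : g = 1 := by simpa using h4
    apply hg; rw [this, one_mul]

lemma Blk_uniq_third {w v u u' : H × I} (h : Blk κ c w v u) (h' : Blk κ c w v u') : u = u' := by
  obtain ⟨g, hg, rfl, rfl⟩ := h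
  obtain ⟨g', hg', hv, rfl⟩ := h'
  rw [Prod.mk.injEq] at hv
  rw [mul_left_cancel hv.1]

include hexp κ_inj c_symm c1 c2 in
lemma Blk_cross {w u u' v : H × I} (h : Blk κ c w u v) (h' : Blk κ c v u' w) : False := by
  obtain ⟨g, hg, rfl, hv⟩ := h
  obtain ⟨g', hg', rfl, hw⟩ := h'
  rw [hv] at hw
  obtain ⟨x, i⟩ := w
  simp only [Prod.mk.injEq] at hw
  obtain ⟨e1, e2⟩ := hw
  have e3 : c g * c g' = 1 := by
    have : x * (c g * c g') = x * 1 := by rw [← mul_assoc, mul_one]; exact e1.symm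
    exact mul_left_cancel this
  have e4 : κ g = κ g' := by
    have h1 : κ g + κ g' = 0 := by
      have : i + (κ g + κ g') = i + 0 := by rw [← add_assoc, add_zero]; exact e2.symm
      exact add_left_cancel this
    have h2 := hexp (κ g')
    exact add_right_cancel (h1.trans h2.symm)
  rcases κ_inj g g' e4 with h3 | h3
  · rw [h3] at e3; exact c1 g hg e3
  · rw [h3] at e3
    have h4 := c_symm g hg
    apply c2 g hg
    have h5 : c g⁻¹ = (c g)⁻¹ := (inv_eq_of_mul_eq_one_right e3).symm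
    rw [h5] at h4
    calc c g * c g = (g * (c g)⁻¹) * c g := by rw [h4]
      _ = g := by simp

include hexp κ_symm κ_ne κ_inj c_symm c1 c2 in
lemma T3_uniq (w v u u' : H × I) (h : T3 κ c w v u) (h' : T3 κ c w v u') : u = u' := by
  rcases h with h | h | h <;> rcases h' with h' | h' | h'
  · exact Blk_uniq_third h h'
  · exact absurd (Blk_levels κ_ne h).1 (Blk_levels κ_ne h').2
  · exact absurd (Blk_levels κ_ne h).1.symm (Blk_levels κ_ne h').2
  · exact absurd (Blk_levels κ_ne h').1 (Blk_levels κ_ne h).2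
  · exact Blk_uniq_apex κ_inj c_symm h h'
  · exact (Blk_cross hexp κ_inj c_symm c1 c2 h h').elim
  · exact absurd (Blk_levels κ_ne h').1.symm (Blk_levels κ_ne h).2
  · exact (Blk_cross hexp κ_inj c_symm c1 c2 h' h).elim
  · exact Blk_uniq_apex κ_inj c_symm h h'

include κ_ne in
lemma T3_ne (w v u : H × I) (h : T3 κ c w v u) : w ≠ v := by
  rintro rfl
  rcases h with h | h | h
  · obtain ⟨g, hg, h1, _⟩ := h
    apply hg
    have : w.1 = w.1 * g := congrArg Prod.fst h1
    have : g = 1 := by simpa using this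
    rw [this, one_mul]
  · exact (Blk_levels κ_ne h).2 rfl
  · exact (Blk_levels κ_ne h).2 rfl

include hexp in
lemma T3_iff (w v : H × I) : (∃ u, T3 κ c w v u) ↔ used κ c (w.2 + v.2, w.1⁻¹ * v.1) := by
  constructor
  · rintro ⟨u, h | h | h⟩
    · obtain ⟨g, hg, rfl, rfl⟩ := h
      left
      simpa [hexp] using hg
    · obtain ⟨g, hg, rfl, rfl⟩ := h
      right
      refine ⟨g, hg, ?_, Or.inl ?_⟩
      · simp [← add_assoc, hexp]
      · simp
    · obtain ⟨g, hg, rfl, rfl⟩ := h
      right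
      refine ⟨g, hg, ?_, Or.inr ?_⟩
      · have : v.2 + κ g + v.2 = κ g := by rw [add_comm, ← add_assoc, hexp, zero_add]
        simpa using this.symm
      · simp
  · rintro (⟨h1, h2⟩ | ⟨g, hg, h1, h2 | h2⟩)
    · have e : w.2 = v.2 := by
        have := hexp v.2
        exact add_right_cancel (h1.trans this.symm)
      refine ⟨_, Or.inl ⟨w.1⁻¹ * v.1, h2, ?_, rfl⟩⟩
      ext <;> simp [e]
    · refine ⟨(w.1 * g, w.2), Or.inr (Or.inl ⟨g, hg, rfl, ?_⟩)⟩
      dsimp only at h1 h2
      rw [h1, h2]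
      ext
      · simp
      · simp [← add_assoc, hexp]
    · refine ⟨(v.1 * g, v.2), Or.inr (Or.inr ⟨g, hg, rfl, ?_⟩)⟩
      dsimp only at h1 h2
      rw [h1, h2]
      ext
      · simp
      · show w.2 = v.2 + (w.2 + v.2)
        rw [add_comm w.2 v.2, ← add_assoc, hexp, zero_add]

lemma used_inv (k : I) (D : H) (h : used κ c (k, D)) : used κ c (k, D⁻¹) := by
  rcases h with ⟨h1, h2⟩ | ⟨g, hg, h1, h2 | h2⟩
  · exact Or.inl ⟨h1, inv_ne h2⟩
  · exact Or.inr ⟨g, hg, h1, Or.inr (by simpa using h2)⟩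
  · exact Or.inr ⟨g, hg, h1, Or.inl h2⟩

include hexp ord_inj in
lemma PM_PM (f : Fx κ c) (w : H × I) : PM ord f.1 (PM ord f.1 w) = w := by
  obtain ⟨⟨k, D⟩, h1, h2⟩ := f
  obtain ⟨x, i⟩ := w
  unfold PM
  have e : i + k + k = i := by rw [add_assoc, hexp, add_zero]
  simp only [e]
  by_cases hk : k = 0
  · subst hk
    have hD : D * D = 1 := by
      by_contra hne
      exact h2 (Or.inl ⟨rfl, hne⟩)
    simp [mul_assoc, hD]
  · have hne : ord i ≠ ord (i + k) := by
      intro h
      have := ord_inj h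
      exact hk (by simpa using this)
    rcases lt_or_gt_of_ne hne with h | h
    · rw [if_pos h.le, if_neg (not_le.mpr h)]; simp
    · rw [if_neg (not_le.mpr h), if_pos h.le]; simp

lemma PM_ne (f : Fx κ c) (w : H × I) : PM ord f.1 w ≠ w := by
  obtain ⟨⟨k, D⟩, h1, h2⟩ := f
  obtain ⟨x, i⟩ := w
  unfold PM
  intro h
  simp only [Prod.mk.injEq] at h
  obtain ⟨e1, e2⟩ := h
  have hk : k = 0 := by simpa using e2
  subst hk
  apply h1
  simp at e1
  rw [e1]

include hexp ord_inj in
lemma PM_cov (w v : H × I) (hne : w ≠ v) (h : ¬ ∃ u, T3 κ c w v u) :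
    ∃ a : Fx κ c, PM ord a.1 w = v := by
  rw [T3_iff hexp] at h
  obtain ⟨x, i⟩ := w
  obtain ⟨y, j⟩ := v
  have e : i + (i + j) = j := by rw [← add_assoc, hexp, zero_add]
  dsimp only at h
  by_cases ho : ord i ≤ ord j
  · refine ⟨⟨(i + j, x⁻¹ * y), ?_, h⟩, ?_⟩
    · intro h1
      simp only [Prod.mk.injEq] at h1
      apply hne
      have : i = j := add_right_cancel (h1.1.trans (hexp j).symm)
      have : x = y := inv_mul_eq_one.mp h1.2
      ext <;> assumption
    · unfold PM
      simp only [e]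
      rw [if_pos ho]
      simp
  · refine ⟨⟨(i + j, (x⁻¹ * y)⁻¹), ?_, ?_⟩, ?_⟩
    · intro h1
      simp only [Prod.mk.injEq, inv_eq_one] at h1
      apply hne
      have : i = j := add_right_cancel (h1.1.trans (hexp j).symm)
      have : x = y := inv_mul_eq_one.mp h1.2
      ext <;> assumption
    · intro h1
      apply h
      have := used_inv _ _ h1
      rwa [inv_inv] at this
    · unfold PM
      simp only [e]
      rw [if_neg ho]
      simp

include hexp in
lemma PM_T (a : Fx κ c) (w u : H × I) : ¬ T3 κ c w (PM ord a.1 w) u := by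
  intro h
  have h1 := (T3_iff hexp _ _).mp ⟨u, h⟩
  obtain ⟨⟨k, D⟩, h2, h3⟩ := a
  obtain ⟨x, i⟩ := w
  unfold PM at h1
  simp only [← add_assoc, hexp, zero_add, ← mul_assoc, inv_mul_cancel, one_mul] at h1
  split_ifs at h1
  · exact h3 h1
  · have := used_inv _ _ h1
    rw [inv_inv] at this
    exact h3 this

lemma PM_inj (a b : Fx κ c) (w : H × I) (h : PM ord a.1 w = PM ord b.1 w) : a = b := by
  obtain ⟨⟨k, D⟩, h2, h3⟩ := a
  obtain ⟨⟨k', D'⟩, h2', h3'⟩ := b
  obtain ⟨x, i⟩ := w
  unfold PM at h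
  simp only [Prod.mk.injEq] at h
  obtain ⟨e1, e2⟩ := h
  have hk : k = k' := add_left_cancel e2
  subst hk
  have e3 := mul_left_cancel e1
  have : D = D' := by
    split_ifs at e3
    · exact e3
    · exact inv_injective e3
  subst this
  rfl

/-- left multiplication on the first coordinate -/
def lact : H →* Equiv.Perm (H × I) where
  toFun h := (Equiv.mulLeft h).prodCongr (Equiv.refl I)
  map_one' := by ext x <;> simp
  map_mul' := by intro a b; ext x <;> simp [mul_assoc]

lemma lact_apply (h : H) (w : H × I) : lact h w = (h * w.1, w.2) := rfl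

lemma Blk_equiv (h : H) (w v u : H × I) (hb : Blk κ c w v u) :
    Blk κ c (lact h w) (lact h v) (lact h u) := by
  obtain ⟨g, hg, rfl, rfl⟩ := hb
  exact ⟨g, hg, by simp [lact_apply, mul_assoc], by simp [lact_apply, mul_assoc]⟩

lemma T3_equiv (h : H) (w v u : H × I) (hb : T3 κ c w v u) :
    T3 κ c (lact h w) (lact h v) (lact h u) := by
  rcases hb with hb | hb | hb
  · exact Or.inl (Blk_equiv h _ _ _ hb)
  · exact Or.inr (Or.inl (Blk_equiv h _ _ _ hb))
  · exact Or.inr (Or.inr (Blk_equiv h _ _ _ hb))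

lemma PM_equiv (h : H) (a : Fx κ c) (w : H × I) :
    PM ord a.1 (lact h w) = lact h (PM ord a.1 w) := by
  have h1 : PM ord a.1 (lact h w)
      = (h * w.1 * (if ord w.2 ≤ ord (w.2 + a.1.1) then a.1.2 else a.1.2⁻¹), w.2 + a.1.1) := rfl
  have h2 : lact h (PM ord a.1 w)
      = (h * (w.1 * (if ord w.2 ≤ ord (w.2 + a.1.1) then a.1.2 else a.1.2⁻¹)), w.2 + a.1.1) := rfl
  rw [h1, h2, mul_assoc]

/-- the extended action on `W ⊕ F` -/
def sact (F : Type*) : H →* Equiv.Perm ((H × I) ⊕ F) where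
  toFun h := Equiv.sumCongr (lact h) (Equiv.refl F)
  map_one' := by ext x; rcases x with x | x <;> simp
  map_mul' := by intro a b; ext x; rcases x with x | x <;> simp

include c1 in
lemma odd_card [Fintype H] [Fintype I] [Fintype (Fx κ c)] (hI : Even (Fintype.card I)) :
    Odd (Fintype.card (Fx κ c)) := by
  classical
  set U : Finset (I × H) := univ.filter (fun f => used κ c f) with hU
  have hUeven : Even U.card := by
    rw [← ZMod.natCast_eq_zero_iff_even]
    rw [card_eq_sum_ones]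
    push_cast
    apply sum_involution (fun f _ => (f.1, f.2⁻¹))
    · intro f _; decide
    · intro f hf _ he
      have hu : used κ c f := by simpa [hU] using hf
      have e2 : f.2⁻¹ = f.2 := congrArg Prod.snd he
      have e3 : f.2 * f.2 = 1 := by
        nth_rewrite 1 [← e2]; simp
      rcases hu with ⟨_, h2⟩ | ⟨g, hg, _, h2 | h2⟩
      · exact h2 e3
      · rw [← h2] at e3; exact c1 g hg e3
      · rw [e2] at h2; rw [← h2] at e3; exact c1 g hg e3
    · intro f _; simp
    · intro f hf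
      have hu : used κ c f := by simpa [hU] using hf
      simp only [hU, mem_filter, mem_univ, true_and]
      exact used_inv _ _ hu
  have hcard : Fintype.card (Fx κ c) = ((univ : Finset (I × H)).filter
      (fun f => f ≠ (0, 1) ∧ ¬ used κ c f)).card := by
    rw [← Fintype.card_subtype]
    exact Fintype.card_congr (Equiv.refl _)
  have h01 : ¬ used κ c ((0 : I), (1 : H)) := by
    rintro (⟨_, h2⟩ | ⟨g, hg, _, h2 | h2⟩)
    · simp at h2
    · have := c1 g hg; dsimp only at h2; rw [h2] at this; simp at this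
    · have := c1 g hg; dsimp only at h2; rw [h2] at this; simp at this
  have hsplit : ((univ : Finset (I × H)).filter (fun f => ¬ used κ c f)).card
      = ((univ : Finset (I × H)).filter (fun f => f ≠ (0, 1) ∧ ¬ used κ c f)).card + 1 := by
    have : ((univ : Finset (I × H)).filter (fun f => ¬ used κ c f))
      = insert ((0 : I), (1 : H)) ((univ : Finset (I × H)).filter (fun f => f ≠ (0, 1) ∧ ¬ used κ c f)) := by
      ext f
      simp only [mem_filter, mem_univ, true_and, mem_insert]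
      constructor
      · intro h
        by_cases h0 : f = (0, 1)
        · exact Or.inl h0
        · exact Or.inr ⟨h0, h⟩
      · rintro (h | h)
        · rw [h]; exact h01
        · exact h.2
    rw [this, card_insert_of_notMem (by simp)]
  have htot := Finset.card_filter_add_card_filter_not (s := (univ : Finset (I × H))) (fun f => used κ c f)
  rw [card_univ, Fintype.card_prod] at htot
  rw [hcard]
  obtain ⟨a, ha⟩ := hI
  obtain ⟨b, hb⟩ := hUeven
  rw [hb, hsplit, ha] at htot
  have h5 : (a + a) * Fintype.card H = 2 * (a * Fintype.card H) := by ring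
  rw [h5] at htot
  rw [Nat.odd_iff]
  omega

include hexp κ_symm κ_ne κ_inj c_symm c1 c2 ord_inj in
/-- the main construction. -/
theorem diff_main [Fintype H] [Fintype I] (hI : Even (Fintype.card I)) :
    ∃ (v : ℕ) (B : Finset (Finset (Fin v))),
      v ≤ 6 * (Fintype.card H * Fintype.card I) ∧ IsSTS B ∧
      ∃ φ : H →* Equiv.Perm (Fin v), Function.Injective φ ∧
        ∀ g, B.image (fun b => b.image (φ g)) = B := by
  classical
  haveI : Fintype (Fx κ c) := by unfold Fx; infer_instance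
  obtain ⟨CF⟩ := ciq_odd (Fx κ c) (odd_card c1 hI)
  obtain ⟨C, hC⟩ := glue (T := T3 κ c) (P := fun a : Fx κ c => PM ord a.1) CF
    (T3_s1 κ_symm c_symm) (T3_s2 κ_symm c_symm)
    (T3_uniq hexp κ_symm κ_ne κ_inj c_symm c1 c2) (T3_ne κ_ne)
    (PM_PM hexp ord_inj) PM_ne (PM_cov hexp ord_inj) (PM_T hexp) PM_inj
  obtain ⟨v, B, hv, hB, φ, hφ, hφB⟩ := sts_of_ciq C (sact (H := H) (I := I) (Fx κ c)) (by
      intro g h hgh
      have := congrArg (fun p => p (Sum.inl ((1 : H), (0 : I)))) hgh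
      have h2 : (Sum.inl (lact g (1, (0 : I))) : (H × I) ⊕ Fx κ c) = Sum.inl (lact h (1, 0)) := this
      have h3 := Sum.inl.inj h2
      simpa [lact_apply] using h3) (by
      intro g x y
      rw [hC]
      exact gop_equiv CF (T3_s1 κ_symm c_symm) (T3_s2 κ_symm c_symm)
        (T3_uniq hexp κ_symm κ_ne κ_inj c_symm c1 c2) (T3_ne κ_ne)
        (PM_PM hexp ord_inj) PM_ne (PM_cov hexp ord_inj) (PM_T hexp) PM_inj (lact g)
        (T3_equiv g) (PM_equiv g) x y)
  refine ⟨v, B, ?_, hB, φ, hφ, hφB⟩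
  rw [hv, Fintype.card_sum, Fintype.card_prod]
  have : Fintype.card (Fx κ c) ≤ Fintype.card (I × H) :=
    Fintype.card_le_of_injective (fun f : Fx κ c => f.1) Subtype.val_injective
  rw [Fintype.card_prod, mul_comm (Fintype.card I)] at this
  omega

end Diff

theorem aux {H I : Type*} [Group H] [Fintype H] [AddCommGroup I] [Fintype I]
    (hexp : ∀ i : I, i + i = 0) (hEven : Even (Fintype.card I))
    (hlt : Fintype.card H < Fintype.card I) (c0 : H → H)
    (p1 : ∀ g, c0 g * c0 g ≠ 1) (p2 : ∀ g, (g⁻¹ * c0 g) * (g⁻¹ * c0 g) ≠ 1)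
    (p3 : ∀ g, c0 g * c0 g ≠ g) :
    ∃ (v : ℕ) (B : Finset (Finset (Fin v))),
      v ≤ 6 * (Fintype.card H * Fintype.card I) ∧ IsSTS B ∧
      ∃ φ : H →* Equiv.Perm (Fin v), Function.Injective φ ∧
        ∀ g, B.image (fun b => b.image (φ g)) = B := by
  classical
  -- orientation of pairs {g, g⁻¹}
  let eH : H ≃ Fin (Fintype.card H) := Fintype.equivFin H
  let rep : H → H := fun g => if eH g ≤ eH g⁻¹ then g else g⁻¹
  have rep_inv : ∀ g, rep g⁻¹ = rep g := by
    intro g
    simp only [rep, inv_inv]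
    rcases lt_trichotomy (eH g) (eH g⁻¹) with h | h | h
    · rw [if_neg (not_le.mpr h), if_pos h.le]
    · rw [if_pos h.le, if_pos h.ge]; exact (eH.injective h).symm
    · rw [if_pos h.le, if_neg (not_le.mpr h)]
  have rep_cases : ∀ g, rep g = g ∨ rep g = g⁻¹ := by
    intro g
    simp only [rep]
    split_ifs
    · exact Or.inl rfl
    · exact Or.inr rfl
  -- injection into I \ {0}
  obtain ⟨κ', hκ'⟩ : ∃ κ' : H → {i : I // i ≠ 0}, Function.Injective κ' := by
    have : Fintype.card H ≤ Fintype.card {i : I // i ≠ 0} := by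
      rw [Fintype.card_subtype_compl, Fintype.card_subtype_eq]; omega
    obtain ⟨f⟩ := Function.Embedding.nonempty_of_card_le this
    exact ⟨f, f.injective⟩
  let κ : H → I := fun g => (κ' (rep g)).1
  have κ_symm : ∀ g, κ g⁻¹ = κ g := by intro g; simp only [κ, rep_inv]
  have κ_ne : ∀ g, κ g ≠ 0 := fun g => (κ' (rep g)).2
  have κ_inj : ∀ g g' : H, κ g = κ g' → g' = g ∨ g' = g⁻¹ := by
    intro g g' h
    have h1 : rep g = rep g' := hκ' (Subtype.ext h)
    rcases rep_cases g with h2 | h2 <;> rcases rep_cases g' with h3 | h3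
    · left; rw [← h3, ← h1, h2]
    · right; rw [h2, h3] at h1; rw [h1, inv_inv]
    · right; rw [h2, h3] at h1; exact h1.symm
    · left; rw [h2, h3] at h1; exact (inv_injective h1).symm
  -- the auxiliary function c
  let c : H → H := fun g => if eH g ≤ eH g⁻¹ then c0 g else g * c0 g⁻¹
  have inv_ne' : ∀ g : H, g * g ≠ 1 → eH g ≠ eH g⁻¹ := by
    intro g hg h
    apply hg
    have := eH.injective h
    nth_rewrite 1 [this]; simp
  have c_symm : ∀ g : H, g * g ≠ 1 → g * c g⁻¹ = c g := by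
    intro g hg
    simp only [c, inv_inv]
    rcases lt_or_gt_of_ne (inv_ne' g hg) with h | h
    · rw [if_neg (not_le.mpr h), if_pos h.le]; simp
    · rw [if_pos h.le, if_neg (not_le.mpr h)]
  have c1 : ∀ g : H, g * g ≠ 1 → c g * c g ≠ 1 := by
    intro g hg
    simp only [c]
    split_ifs
    · exact p1 g
    · have := p2 g⁻¹
      rwa [inv_inv] at this
  have c2 : ∀ g : H, g * g ≠ 1 → c g * c g ≠ g := by
    intro g hg
    simp only [c]
    split_ifs
    · exact p3 g
    · intro h
      apply p3 g⁻¹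
      generalize c0 g⁻¹ = d at h ⊢
      have h1 : g * (d * g * d) = g * 1 := by
        rw [mul_one]
        calc g * (d * g * d) = g * d * (g * d) := by simp only [mul_assoc]
          _ = g := h
      have h2 : d * g * d = 1 := mul_left_cancel h1
      have h3 : g = d⁻¹ * d⁻¹ := by
        calc g = d⁻¹ * (d * g * d) * d⁻¹ := by simp [mul_assoc]
          _ = _ := by rw [h2, mul_one]
      rw [h3, mul_inv_rev, inv_inv]
  let eI : I ≃ Fin (Fintype.card I) := Fintype.equivFin I
  let ord : I → ℕ := fun i => (eI i : ℕ)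
  have ord_inj : Function.Injective ord := fun i j h => eI.injective (Fin.ext h)
  exact diff_main (H := H) (I := I) (κ := κ) (c := c) (ord := ord)
    hexp κ_symm κ_ne κ_inj c_symm c1 c2 ord_inj hEven

end H4STS
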