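import Pool.Agent.Helpers.H4_STS2

set_option autoImplicit false

open Finset

namespace H4STS

/-- The data of a Steiner quasigroup with an action of `H` such that at least half of the points
are regular. -/
structure SD (H : Type) [Group H] (b : ℕ) where
  X : Type
  fX : Fintype X
  dX : DecidableEq X
  st : X → X → X
  idem : ∀ x, st x x = x
  comm : ∀ x y, st x y = st y x
  inv : ∀ x y, st x (st x y) = y
  ψ : H →* Equiv.Perm X
  hst : ∀ h x y, ψ h (st x y) = st (ψ h x) (ψ h y)
  reg : Finset X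
  hreg : ∀ x ∈ reg, ∀ h, ψ h x = x → h = 1
  half : Fintype.card X ≤ 2 * reg.card
  bound : Fintype.card X ≤ b
  pos : 0 < Fintype.card X

/-- the Steiner quasigroup data from a commutative idempotent quasigroup -/
noncomputable def sd_of_ciq {W F : Type} [Fintype W] [Fintype F] [DecidableEq W] [DecidableEq F]
    (C : CIQ (W ⊕ F)) {G : Type} [Group G]
    (act : G →* Equiv.Perm (W ⊕ F))
    (hact : ∀ g x y, act g (C.op x y) = C.op (act g x) (act g y))
    (hreg : ∀ (w : W) g, act g (Sum.inl w) = Sum.inl w → g = 1)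
    (hcard : Fintype.card F ≤ Fintype.card W) (b : ℕ) (hb : 6 * Fintype.card W ≤ b)
    (hpos : 0 < Fintype.card W) :
    SD G b where
  X := (W ⊕ F) × ZMod 3
  fX := inferInstance
  dX := inferInstance
  st := star C
  idem := star_idem C
  comm := star_comm C
  inv := star_star C
  ψ :=
    { toFun := fun g => (act g).prodCongr (Equiv.refl (ZMod 3))
      map_one' := by ext x <;> simp
      map_mul' := by intro a b; ext x <;> simp }
  hst := fun g x y => star_equiv C (act g) (hact g) x y
  reg := univ.image (fun p : W × ZMod 3 => (Sum.inl p.1, p.2))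
  hreg := by
    intro x hx g hg
    rw [mem_image] at hx
    obtain ⟨⟨w, j⟩, _, rfl⟩ := hx
    have h1 : (act g (Sum.inl w), j) = ((Sum.inl w : W ⊕ F), j) := hg
    exact hreg w g (congrArg Prod.fst h1)
  half := by
    rw [card_image_of_injective _ (by
      rintro ⟨a, b⟩ ⟨c, d⟩ h
      simp only [Prod.mk.injEq, Sum.inl.injEq] at h
      rw [h.1, h.2]), card_univ, Fintype.card_prod, Fintype.card_prod, Fintype.card_sum, ZMod.card]
    nlinarith
  bound := by
    rw [Fintype.card_prod, Fintype.card_sum, ZMod.card]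
    nlinarith
  pos := by
    rw [Fintype.card_prod, Fintype.card_sum, ZMod.card]
    omega

section Diff

variable {H I : Type} [Group H] [AddCommGroup I] (κ : H → I) (c : H → H) (ord : I → ℕ)

variable {κ c ord}
variable (hexp : ∀ i : I, i + i = 0) (κ_symm : ∀ g, κ g⁻¹ = κ g) (κ_ne : ∀ g, κ g ≠ 0)
  (κ_inj : ∀ g g' : H, κ g = κ g' → g' = g ∨ g' = g⁻¹)
  (c_symm : ∀ g : H, g * g ≠ 1 → g * c g⁻¹ = c g)
  (c1 : ∀ g : H, g * g ≠ 1 → c g * c g ≠ 1)
  (c2 : ∀ g : H, g * g ≠ 1 → c g * c g ≠ g)
  (ord_inj : Function.Injective ord)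

include hexp κ_symm κ_ne κ_inj c_symm c1 c2 ord_inj in
/-- the main construction. -/
theorem diff_main2 [Fintype H] [Fintype I] (hI : Even (Fintype.card I)) :
    Nonempty (SD H (6 * (Fintype.card H * Fintype.card I))) := by
  classical
  haveI : Fintype (Fx κ c) := by unfold Fx; infer_instance
  obtain ⟨CF⟩ := ciq_odd (Fx κ c) (odd_card c1 hI)
  obtain ⟨C, hC⟩ := glue (T := T3 κ c) (P := fun a : Fx κ c => PM ord a.1) CF
    (T3_s1 κ_symm c_symm) (T3_s2 κ_symm c_symm)
    (T3_uniq hexp κ_symm κ_ne κ_inj c_symm c1 c2) (T3_ne κ_ne)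
    (PM_PM hexp ord_inj) PM_ne (PM_cov hexp ord_inj) (PM_T hexp) PM_inj
  have hF : Fintype.card (Fx κ c) ≤ Fintype.card (H × I) := by
    have : Fintype.card (Fx κ c) ≤ Fintype.card (I × H) :=
      Fintype.card_le_of_injective (fun f : Fx κ c => f.1) Subtype.val_injective
    rw [Fintype.card_prod, mul_comm (Fintype.card I)] at this
    rw [Fintype.card_prod]; exact this
  refine ⟨sd_of_ciq C (sact (H := H) (I := I) (Fx κ c)) (by
      intro g x y
      rw [hC]
      exact gop_equiv CF (T3_s1 κ_symm c_symm) (T3_s2 κ_symm c_symm)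
        (T3_uniq hexp κ_symm κ_ne κ_inj c_symm c1 c2) (T3_ne κ_ne)
        (PM_PM hexp ord_inj) PM_ne (PM_cov hexp ord_inj) (PM_T hexp) PM_inj (lact g)
        (T3_equiv g) (PM_equiv g) x y) ?_ hF _ ?_ ?_⟩
  · intro w g hg
    have h2 : (Sum.inl (lact g w) : (H × I) ⊕ Fx κ c) = Sum.inl w := hg
    have h3 := Sum.inl.inj h2
    have h4 := congrArg Prod.fst h3
    simpa [lact_apply] using h4
  · rw [Fintype.card_prod]
  · rw [Fintype.card_prod]
    exact Nat.mul_pos Fintype.card_pos Fintype.card_pos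

end Diff

theorem aux2 {H I : Type} [Group H] [Fintype H] [AddCommGroup I] [Fintype I]
    (hexp : ∀ i : I, i + i = 0) (hEven : Even (Fintype.card I))
    (hlt : Fintype.card H < Fintype.card I) (c0 : H → H)
    (p1 : ∀ g, c0 g * c0 g ≠ 1) (p2 : ∀ g, (g⁻¹ * c0 g) * (g⁻¹ * c0 g) ≠ 1)
    (p3 : ∀ g, c0 g * c0 g ≠ g) :
    Nonempty (SD H (6 * (Fintype.card H * Fintype.card I))) := by
  classical
  -- orientation of pairs {g, g⁻¹}
  let eH : H ≃ Fin (Fintype.card H) := Fintype.equivFin H
  let rep : H → H := fun g => if eH g ≤ eH g⁻¹ then g else g⁻¹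
  have rep_inv : ∀ g, rep g⁻¹ = rep g := by
    intro g
    simp only [rep, inv_inv]
    rcases lt_trichotomy (eH g) (eH g⁻¹) with h | h | h
    · rw [if_neg (not_le.mpr h), if_pos h.le]
    · rw [if_pos h.le, if_pos h.ge]; exact (eH.injective h).symm
    · rw [if_pos h.le, if_neg (not_le.mpr h)]
  have rep_cases : ∀ g, rep g = g ∨ rep g = g⁻¹ := by
    intro g
    simp only [rep]
    split_ifs
    · exact Or.inl rfl
    · exact Or.inr rfl
  -- injection into I \ {0}
  obtain ⟨κ', hκ'⟩ : ∃ κ' : H → {i : I // i ≠ 0}, Function.Injective κ' := by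
    have : Fintype.card H ≤ Fintype.card {i : I // i ≠ 0} := by
      rw [Fintype.card_subtype_compl, Fintype.card_subtype_eq]; omega
    obtain ⟨f⟩ := Function.Embedding.nonempty_of_card_le this
    exact ⟨f, f.injective⟩
  let κ : H → I := fun g => (κ' (rep g)).1
  have κ_symm : ∀ g, κ g⁻¹ = κ g := by intro g; simp only [κ, rep_inv]
  have κ_ne : ∀ g, κ g ≠ 0 := fun g => (κ' (rep g)).2
  have κ_inj : ∀ g g' : H, κ g = κ g' → g' = g ∨ g' = g⁻¹ := by
    intro g g' h
    have h1 : rep g = rep g' := hκ' (Subtype.ext h)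
    rcases rep_cases g with h2 | h2 <;> rcases rep_cases g' with h3 | h3
    · left; rw [← h3, ← h1, h2]
    · right; rw [h2, h3] at h1; rw [h1, inv_inv]
    · right; rw [h2, h3] at h1; exact h1.symm
    · left; rw [h2, h3] at h1; exact (inv_injective h1).symm
  -- the auxiliary function c
  let c : H → H := fun g => if eH g ≤ eH g⁻¹ then c0 g else g * c0 g⁻¹
  have inv_ne' : ∀ g : H, g * g ≠ 1 → eH g ≠ eH g⁻¹ := by
    intro g hg h
    apply hg
    have := eH.injective h
    nth_rewrite 1 [this]; simp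
  have c_symm : ∀ g : H, g * g ≠ 1 → g * c g⁻¹ = c g := by
    intro g hg
    simp only [c, inv_inv]
    rcases lt_or_gt_of_ne (inv_ne' g hg) with h | h
    · rw [if_neg (not_le.mpr h), if_pos h.le]; simp
    · rw [if_pos h.le, if_neg (not_le.mpr h)]
  have c1 : ∀ g : H, g * g ≠ 1 → c g * c g ≠ 1 := by
    intro g hg
    simp only [c]
    split_ifs
    · exact p1 g
    · have := p2 g⁻¹
      rwa [inv_inv] at this
  have c2 : ∀ g : H, g * g ≠ 1 → c g * c g ≠ g := by
    intro g hg
    simp only [c]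
    split_ifs
    · exact p3 g
    · intro h
      apply p3 g⁻¹
      generalize c0 g⁻¹ = d at h ⊢
      have h1 : g * (d * g * d) = g * 1 := by
        rw [mul_one]
        calc g * (d * g * d) = g * d * (g * d) := by simp only [mul_assoc]
          _ = g := h
      have h2 : d * g * d = 1 := mul_left_cancel h1
      have h3 : g = d⁻¹ * d⁻¹ := by
        calc g = d⁻¹ * (d * g * d) * d⁻¹ := by simp [mul_assoc]
          _ = _ := by rw [h2, mul_one]
      rw [h3, mul_inv_rev, inv_inv]
  let eI : I ≃ Fin (Fintype.card I) := Fintype.equivFin I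
  let ord : I → ℕ := fun i => (eI i : ℕ)
  have ord_inj : Function.Injective ord := fun i j h => eI.injective (Fin.ext h)
  exact diff_main2 (H := H) (I := I) (κ := κ) (c := c) (ord := ord)
    hexp κ_symm κ_ne κ_inj c_symm c1 c2 ord_inj hEven



/-- the sign-type choice function on the cyclic factor -/
def c5 (t : ZMod 5) : ZMod 5 := if t = 0 then 1 else -t

lemma c5_1 : ∀ t : ZMod 5, c5 t + c5 t ≠ 0 := by decide
lemma c5_2 : ∀ t : ZMod 5, (-t + c5 t) + (-t + c5 t) ≠ 0 := by decide
lemma c5_3 : ∀ t : ZMod 5, c5 t + c5 t ≠ t := by decide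

/-- restriction to a subgroup given by an injective homomorphism -/
noncomputable def SD.comap {H G : Type} [Group H] [Group G] {b b' : ℕ} (S : SD H b) (f : G →* H)
    (hf : Function.Injective f) (hb : b ≤ b') : SD G b' where
  X := S.X
  fX := S.fX
  dX := S.dX
  st := S.st
  idem := S.idem
  comm := S.comm
  inv := S.inv
  ψ := S.ψ.comp f
  hst := fun g x y => S.hst (f g) x y
  reg := S.reg
  hreg := fun x hx g hg => hf ((S.hreg x hx (f g) hg).trans (map_one f).symm)
  half := S.half
  bound := S.bound.trans hb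
  pos := S.pos

theorem base (G : Type) [Group G] [Fintype G] :
    Nonempty (SD G (480 * (Fintype.card G) ^ 2)) := by
  classical
  set n := Fintype.card G with hn'
  have hn : 0 < n := Fintype.card_pos
  set r := Nat.log 2 n + 4 with hr
  have hexp : ∀ i : Fin r → ZMod 2, i + i = 0 := by
    intro i; funext k
    have : ∀ a : ZMod 2, a + a = 0 := by decide
    exact this (i k)
  have hcardI : Fintype.card (Fin r → ZMod 2) = 2 ^ r := by simp [ZMod.card]
  have hcardH : Fintype.card (G × Multiplicative (ZMod 5)) = n * 5 := by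
    rw [Fintype.card_prod, Fintype.card_multiplicative, ZMod.card]
  have h2r1 : 2 ^ r ≤ 16 * n := by
    have : 2 ^ Nat.log 2 n ≤ n := Nat.pow_log_le_self 2 hn.ne'
    calc 2 ^ r = 16 * 2 ^ Nat.log 2 n := by rw [hr, pow_add]; ring
      _ ≤ 16 * n := Nat.mul_le_mul_left _ this
  have h2r2 : 8 * n < 2 ^ r := by
    have : n < 2 ^ (Nat.log 2 n + 1) := Nat.lt_pow_succ_log_self (by norm_num) n
    calc 8 * n < 8 * 2 ^ (Nat.log 2 n + 1) := by omega
      _ = 2 ^ r := by rw [hr, pow_add, pow_add]; ring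
  have hEven : Even (Fintype.card (Fin r → ZMod 2)) := by
    rw [hcardI]
    exact ⟨2 ^ (r - 1), by
      have : r = (r - 1) + 1 := by omega
      nth_rewrite 1 [this]; rw [pow_succ]; ring⟩
  obtain ⟨S⟩ := aux2 (H := G × Multiplicative (ZMod 5))
    (I := Fin r → ZMod 2) hexp hEven (by rw [hcardH, hcardI]; omega)
    (fun g => (1, Multiplicative.ofAdd (c5 (Multiplicative.toAdd g.2))))
    (fun g h => c5_1 (Multiplicative.toAdd g.2) (congrArg (fun x => Multiplicative.toAdd x.2) h))
    (fun g h => c5_2 (Multiplicative.toAdd g.2) (congrArg (fun x => Multiplicative.toAdd x.2) h))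
    (fun g h => c5_3 (Multiplicative.toAdd g.2) (congrArg (fun x => Multiplicative.toAdd x.2) h))
  refine ⟨S.comap (MonoidHom.inl G (Multiplicative (ZMod 5))) ?_ ?_⟩
  · intro a b hab
    exact (Prod.ext_iff.mp hab).1
  · rw [hcardH, hcardI]
    calc 6 * (n * 5 * 2 ^ r) ≤ 6 * (n * 5 * (16 * n)) := by gcongr
      _ = 480 * n ^ 2 := by ring

end H4STS
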