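import Pool.Agent.Helpers.H4_STS3
import Pool.Agent.Helpers.H4_Rig2

set_option autoImplicit false

open Finset

namespace H4STS

lemma exists_class' {α : Type*} [Fintype α] (r : α → α → Prop) (hr : Equivalence r) :
    ∃ (M : ℕ) (f : α → Fin M), M ≤ Fintype.card α ∧ ∀ a b, f a = f b ↔ r a b := by
  classical
  let s : Setoid α := ⟨r, hr⟩
  have : Fintype (Quotient s) := Fintype.ofFinite _
  refine ⟨Fintype.card (Quotient s), fun a => Fintype.equivFin (Quotient s) (Quotient.mk s a),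
    Fintype.card_le_of_surjective (Quotient.mk s) Quotient.mk_surjective, fun a b => ?_⟩
  rw [(Fintype.equivFin (Quotient s)).injective.eq_iff]
  exact Quotient.eq (r := s)

lemma three_smul' {A : Type*} [AddCommGroup A] [Module (ZMod 3) A] (a : A) : -a - a = a := by
  have h : (3 : ZMod 3) • a = 0 := by
    have : (3 : ZMod 3) = 0 := by decide
    rw [this, zero_smul]
  have h2 : (3 : ZMod 3) = 1 + 1 + 1 := by decide
  rw [h2, add_smul, add_smul, one_smul] at h
  calc -a - a = a - (a + a + a) := by abel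
    _ = a := by rw [h, sub_zero]

section Prod

set_option linter.unusedSectionVars false

variable {G : Type} [Group G] [Fintype G] {bd : ℕ} (S : SD G bd)
  {A W : Type} [AddCommGroup A] [Module (ZMod 3) A] [Fintype A] [DecidableEq A]
  [AddCommGroup W] [Module (ZMod 3) W] [Fintype W] [DecidableEq W]

instance : Fintype S.X := S.fX
instance : DecidableEq S.X := S.dX

/-- the product quasigroup -/
def opY (p q : S.X × A) : S.X × A := (S.st p.1 q.1, -p.2 - q.2)

lemma opY_idem (p : S.X × A) : opY S p p = p := by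
  unfold opY
  rw [S.idem, three_smul']

lemma opY_comm (p q : S.X × A) : opY S p q = opY S q p := by
  unfold opY
  rw [S.comm]
  congr 1
  abel

lemma opY_inv (p q : S.X × A) : opY S p (opY S p q) = q := by
  unfold opY
  dsimp only
  rw [S.inv]
  ext1
  · rfl
  · dsimp only; abel

/-- action on `Y` -/
def aY (g : G) (p : S.X × A) : S.X × A := (S.ψ g p.1, p.2)

lemma aY_op (g : G) (p q : S.X × A) : aY S g (opY S p q) = opY S (aY S g p) (aY S g q) := by
  unfold aY opY
  dsimp only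
  rw [S.hst]

lemma aY_mul (g h : G) (p : S.X × A) : aY S (g * h) p = aY S g (aY S h p) := by
  unfold aY; rw [map_mul]; rfl
lemma aY_one (p : S.X × A) : aY S 1 p = p := by
  unfold aY; rw [map_one]; rfl
lemma aY_inv (g : G) (p : S.X × A) : aY S g⁻¹ (aY S g p) = p := by
  rw [← aY_mul, inv_mul_cancel, aY_one]
lemma aY_inv' (g : G) (p : S.X × A) : aY S g (aY S g⁻¹ p) = p := by
  rw [← aY_mul, mul_inv_cancel, aY_one]

/-- the block of `Y` -/
def blkY (p q : S.X × A) : Finset (S.X × A) := {p, q, opY S p q}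

lemma blkY_comm (p q : S.X × A) : blkY S p q = blkY S q p := by
  unfold blkY
  rw [opY_comm]
  ext z; simp only [mem_insert, mem_singleton]; tauto

lemma blkY_third (p q : S.X × A) : blkY S p (opY S p q) = blkY S p q := by
  unfold blkY
  rw [opY_inv]
  ext z; simp only [mem_insert, mem_singleton]; tauto

lemma blkY_inv (g : G) (p q : S.X × A) :
    blkY S (aY S g p) (aY S g q) = (blkY S p q).image (aY S g) := by
  unfold blkY
  rw [← aY_op, image_insert, image_insert, image_singleton]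

/-- the relation on pairs -/
def relY (a b : (S.X × A) × (S.X × A)) : Prop :=
  ∃ g : G, blkY S b.1 b.2 = (blkY S a.1 a.2).image (aY S g)

lemma relY_equiv : Equivalence (relY S (A := A)) := by
  constructor
  · intro a
    refine ⟨1, ?_⟩
    have : (aY S (A := A) 1) = id := by funext x; exact aY_one S x
    rw [this, image_id]
  · rintro a b ⟨g, h⟩
    refine ⟨g⁻¹, ?_⟩
    rw [h, image_image]
    have : (aY S (A := A) g⁻¹) ∘ (aY S g) = id := by funext x; exact aY_inv S g x
    rw [this, image_id]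
  · rintro a b c ⟨g, h⟩ ⟨g', h'⟩
    refine ⟨g' * g, ?_⟩
    rw [h', h, image_image]
    congr 1
    funext x; exact (aY_mul S g' g x).symm

/-- a good assignment of vectors -/
structure CC (c : S.X × A → S.X × A → W) : Prop where
  ne : ∀ p q, c p q ≠ 0
  comm : ∀ p q, c p q = c q p
  third : ∀ p q, c p (opY S p q) = c p q
  inv : ∀ g p q, c (aY S g p) (aY S g q) = c p q
  det : ∀ p q q' (t t' : ZMod 3), t ≠ 0 → t' ≠ 0 → t • c p q = t' • c p q' →
    ∃ g : G, q' ∈ (blkY S p q).image (aY S g)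

lemma exists_CC (m : ℕ) (hm : (Fintype.card (S.X × A)) ^ 2 ≤ 3 ^ m) :
    ∃ c : S.X × A → S.X × A → ZMod 3 × (Fin m → ZMod 3), CC S c := by
  classical
  obtain ⟨M, f, hM, hf⟩ := exists_class' (relY S (A := A)) (relY_equiv S)
  have hcard : Fintype.card (Fin M) ≤ Fintype.card (Fin m → ZMod 3) := by
    rw [Fintype.card_fin, Fintype.card_fun, ZMod.card, Fintype.card_fin]
    refine le_trans hM ?_
    rw [Fintype.card_prod]
    refine le_trans (le_of_eq ?_) hm
    ring
  obtain ⟨e⟩ := Function.Embedding.nonempty_of_card_le hcard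
  refine ⟨fun p q => (1, e (f (p, q))), ?_, ?_, ?_, ?_, ?_⟩
  · intro p q h
    have := congrArg Prod.fst h
    exact one_ne_zero this
  · intro p q
    have : f (p, q) = f (q, p) := by
      rw [hf]
      refine ⟨1, ?_⟩
      have h1 : (aY S (A := A) 1) = id := by funext x; exact aY_one S x
      rw [h1, image_id]
      exact blkY_comm S q p
    rw [this]
  · intro p q
    have : f (p, opY S p q) = f (p, q) := by
      rw [hf]
      refine ⟨1, ?_⟩
      have h1 : (aY S (A := A) 1) = id := by funext x; exact aY_one S x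
      rw [h1, image_id]
      exact (blkY_third S p q).symm
    rw [this]
  · intro g p q
    have : f (aY S g p, aY S g q) = f (p, q) := by
      symm
      rw [hf]
      exact ⟨g, blkY_inv S g p q⟩
    rw [this]
  · intro p q q' t t' ht ht' h
    have h1 : t = t' := by
      have := congrArg Prod.fst h
      simpa using this
    subst h1
    have h2 : t • e (f (p, q)) = t • e (f (p, q')) := congrArg Prod.snd h
    have h3 : e (f (p, q)) = e (f (p, q')) := smul_right_injective _ ht h2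
    have h4 := e.injective h3
    rw [hf] at h4
    obtain ⟨g, hg⟩ := h4
    refine ⟨g, ?_⟩
    rw [← hg]
    unfold blkY
    simp

variable {S} {c : S.X × A → S.X × A → W} (hc : CC S c)

/-- points of a coset in a fibre -/
def co (p : S.X × A) (a v : W) : Finset ((S.X × A) × W) :=
  univ.image (fun t : ZMod 3 => (p, a + t • v))

lemma mem_co (p : S.X × A) (a v : W) (x : (S.X × A) × W) :
    x ∈ co p a v ↔ ∃ t : ZMod 3, x = (p, a + t • v) := by
  unfold co
  rw [mem_image]
  constructor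
  · rintro ⟨t, _, rfl⟩; exact ⟨t, rfl⟩
  · rintro ⟨t, rfl⟩; exact ⟨t, mem_univ _, rfl⟩

lemma co_shift (p : S.X × A) (a v : W) (s : ZMod 3) : co p (a + s • v) v = co p a v := by
  ext x
  rw [mem_co, mem_co]
  constructor
  · rintro ⟨t, rfl⟩; exact ⟨s + t, by rw [add_smul]; congr 1; abel⟩
  · rintro ⟨t, rfl⟩; exact ⟨t - s, by rw [sub_smul]; congr 1; abel⟩

lemma co_card (p : S.X × A) (a v : W) : (co p a v).card ≤ 3 := by
  unfold co
  calc _ ≤ (univ : Finset (ZMod 3)).card := card_image_le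
    _ = 3 := by simp [ZMod.card]

variable (c) in
/-- the unit of a pair -/
def unit (P Q : (S.X × A) × W) : Finset ((S.X × A) × W) :=
  co P.1 P.2 (c P.1 Q.1) ∪ co Q.1 Q.2 (c P.1 Q.1) ∪ co (opY S P.1 Q.1) (-P.2 - Q.2) (c P.1 Q.1)

lemma unit_card (P Q : (S.X × A) × W) : (unit c P Q).card ≤ 9 := by
  unfold unit
  have h1 := co_card (S := S) P.1 P.2 (c P.1 Q.1)
  have h2 := co_card (S := S) Q.1 Q.2 (c P.1 Q.1)
  have h3 := co_card (S := S) (opY S P.1 Q.1) (-P.2 - Q.2) (c P.1 Q.1)
  calc _ ≤ (co P.1 P.2 (c P.1 Q.1) ∪ co Q.1 Q.2 (c P.1 Q.1)).card +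
        (co (opY S P.1 Q.1) (-P.2 - Q.2) (c P.1 Q.1)).card := card_union_le _ _
    _ ≤ _ := by
      have := card_union_le (co P.1 P.2 (c P.1 Q.1)) (co Q.1 Q.2 (c P.1 Q.1))
      omega

include hc in
lemma unit_comm (P Q : (S.X × A) × W) : unit c P Q = unit c Q P := by
  unfold unit
  rw [hc.comm P.1 Q.1, opY_comm S P.1 Q.1]
  have : -P.2 - Q.2 = -Q.2 - P.2 := by abel
  rw [this]
  congr 1
  rw [union_comm]

include hc in
lemma unit_third (P Q : (S.X × A) × W) (s : ZMod 3) :
    unit c P (opY S P.1 Q.1, -P.2 - Q.2 + s • c P.1 Q.1) = unit c P Q := by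
  unfold unit
  dsimp only
  rw [hc.third, opY_inv]
  have h1 : co (S := S) (opY S P.1 Q.1) (-P.2 - Q.2 + s • c P.1 Q.1) (c P.1 Q.1)
      = co (opY S P.1 Q.1) (-P.2 - Q.2) (c P.1 Q.1) := co_shift _ _ _ _
  have h2 : -P.2 - (-P.2 - Q.2 + s • c P.1 Q.1) = Q.2 + (-s) • c P.1 Q.1 := by
    rw [neg_smul]; abel
  rw [h1, h2, co_shift]
  ext x
  simp only [mem_union]
  tauto

/-- the action on points -/
def aV (g : G) (P : (S.X × A) × W) : (S.X × A) × W := (aY S g P.1, P.2)

lemma aV_mul (g h : G) (P : (S.X × A) × W) : aV (g * h) P = aV g (aV h P) := by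
  unfold aV; rw [aY_mul]
lemma aV_one (P : (S.X × A) × W) : aV 1 P = P := by
  unfold aV; rw [aY_one]
lemma aV_inv (g : G) (P : (S.X × A) × W) : aV g⁻¹ (aV g P) = P := by
  rw [← aV_mul, inv_mul_cancel, aV_one]
lemma aV_inv' (g : G) (P : (S.X × A) × W) : aV g (aV g⁻¹ P) = P := by
  rw [← aV_mul, mul_inv_cancel, aV_one]

lemma co_inv (g : G) (p : S.X × A) (a v : W) : co (aY S g p) a v = (co p a v).image (aV g) := by
  unfold co
  rw [image_image]
  rfl

include hc in
lemma unit_inv (g : G) (P Q : (S.X × A) × W) :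
    unit c (aV g P) (aV g Q) = (unit c P Q).image (aV g) := by
  unfold unit
  rw [image_union, image_union, ← co_inv, ← co_inv, ← co_inv, aY_op]
  have : c (aV g P).1 (aV g Q).1 = c P.1 Q.1 := hc.inv g _ _
  rw [this]
  rfl

/-- relation on subsets -/
def relV (a b : Finset ((S.X × A) × W)) : Prop := ∃ g : G, b = a.image (aV g)

lemma relV_equiv : Equivalence (relV (S := S) (A := A) (W := W)) := by
  constructor
  · intro a
    refine ⟨1, ?_⟩
    have : (aV (S := S) (A := A) (W := W) 1) = id := by funext x; exact aV_one x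
    rw [this, image_id]
  · rintro a b ⟨g, h⟩
    refine ⟨g⁻¹, ?_⟩
    rw [h, image_image]
    have : (aV (S := S) (A := A) (W := W) g⁻¹) ∘ (aV g) = id := by funext x; exact aV_inv g x
    rw [this, image_id]
  · rintro a b c ⟨g, h⟩ ⟨g', h'⟩
    refine ⟨g' * g, ?_⟩
    rw [h', h, image_image]
    congr 1
    funext x; exact (aV_mul g' g x).symm

variable {M : ℕ} (f : Finset ((S.X × A) × W) → Fin M) (hf : ∀ a b, f a = f b ↔ relV a b)

/-- pairs with different `A`-coordinates -/
def nic (P Q : (S.X × A) × W) : Prop := P.1.2 ≠ Q.1.2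

variable (c) in
open Classical in
/-- the switch value -/
noncomputable def bt (ε : Fin M → Bool) (P Q : (S.X × A) × W) : ZMod 3 :=
  if nic P Q ∧ ε (f (unit c P Q)) = true then 1 else 0

variable (c) in
/-- the third point -/
noncomputable def thd (ε : Fin M → Bool) (P Q : (S.X × A) × W) : (S.X × A) × W :=
  (opY S P.1 Q.1, -P.2 - Q.2 + bt c f ε P Q • c P.1 Q.1)

lemma nic_comm (P Q : (S.X × A) × W) : nic P Q ↔ nic Q P := ne_comm

lemma nic_third (P Q : (S.X × A) × W) (w : W) : nic P (opY S P.1 Q.1, w) ↔ nic P Q := by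
  unfold nic opY
  dsimp only
  rw [not_iff_not]
  constructor
  · intro h
    have h2 := three_smul' P.1.2
    have : -P.1.2 - P.1.2 = -P.1.2 - Q.1.2 := by rw [h2]; exact h
    exact sub_right_injective this
  · intro h
    rw [← h]; exact (three_smul' _).symm

lemma thd_idem (ε : Fin M → Bool) (P : (S.X × A) × W) : thd c f ε P P = P := by
  unfold thd bt
  rw [if_neg (fun h => h.1 rfl), zero_smul, add_zero, opY_idem, three_smul']

include hc in
lemma bt_comm (ε : Fin M → Bool) (P Q : (S.X × A) × W) : bt c f ε P Q = bt c f ε Q P := by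
  unfold bt
  rw [nic_comm, unit_comm hc]

include hc in
lemma thd_comm (ε : Fin M → Bool) (P Q : (S.X × A) × W) : thd c f ε P Q = thd c f ε Q P := by
  unfold thd
  rw [bt_comm hc, opY_comm, hc.comm]
  congr 2
  abel

include hc in
lemma bt_third (ε : Fin M → Bool) (P Q : (S.X × A) × W) (s : ZMod 3) :
    bt c f ε P (opY S P.1 Q.1, -P.2 - Q.2 + s • c P.1 Q.1) = bt c f ε P Q := by
  unfold bt
  rw [unit_third hc, nic_third]

include hc in
lemma thd_inv (ε : Fin M → Bool) (P Q : (S.X × A) × W) : thd c f ε P (thd c f ε P Q) = Q := by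
  have h1 : bt c f ε P (thd c f ε P Q) = bt c f ε P Q := bt_third hc f ε P Q _
  have h2 : thd c f ε P (thd c f ε P Q) = (opY S P.1 (thd c f ε P Q).1,
    -P.2 - (thd c f ε P Q).2 + bt c f ε P (thd c f ε P Q) • c P.1 (thd c f ε P Q).1) := rfl
  rw [h2, h1]
  have h3 : (thd c f ε P Q).1 = opY S P.1 Q.1 := rfl
  have h4 : (thd c f ε P Q).2 = -P.2 - Q.2 + bt c f ε P Q • c P.1 Q.1 := rfl
  rw [h3, h4, opY_inv, hc.third]
  ext1
  · rfl
  · dsimp only; abel

include hc hf in
lemma thd_equiv (ε : Fin M → Bool) (g : G) (P Q : (S.X × A) × W) :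
    aV g (thd c f ε P Q) = thd c f ε (aV g P) (aV g Q) := by
  have h1 : bt c f ε (aV g P) (aV g Q) = bt c f ε P Q := by
    have h2 : f (unit c (aV g P) (aV g Q)) = f (unit c P Q) := by
      symm
      rw [hf]
      exact ⟨g, unit_inv hc g P Q⟩
    unfold bt
    rw [h2]
    rfl
  have h3 : c (aV g P).1 (aV g Q).1 = c P.1 Q.1 := hc.inv g _ _
  unfold thd
  rw [h1, h3]
  show (aY S g (opY S P.1 Q.1), _) = _
  rw [aY_op]
  rfl

/-- the action as permutations -/
def psV (S : SD G bd) (A W : Type) [AddCommGroup A] [Module (ZMod 3) A] [Fintype A]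
    [DecidableEq A] [AddCommGroup W] [Module (ZMod 3) W] [Fintype W] [DecidableEq W] :
    G →* Equiv.Perm ((S.X × A) × W) :=
  { toFun := fun g =>
      { toFun := aV g
        invFun := aV g⁻¹
        left_inv := fun x => aV_inv g x
        right_inv := fun x => aV_inv' g x }
    map_one' := by ext1 x; exact aV_one x
    map_mul' := fun g g' => by ext1 x; exact aV_mul _ _ _ }

variable (c) in
open Classical in
/-- the unit class -/
noncomputable def unc (P Q : (S.X × A) × W) : Option (Fin M) :=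
  if nic P Q then some (f (unit c P Q)) else none

lemma unc_some (P Q : (S.X × A) × W) (i : Fin M) :
    unc c f P Q = some i ↔ nic P Q ∧ f (unit c P Q) = i := by
  unfold unc
  split_ifs with h
  · rw [Option.some.injEq]; exact ⟨fun h' => ⟨h, h'⟩, fun h' => h'.2⟩
  · constructor
    · intro h'; cases h'
    · intro h'; exact absurd h'.1 h

lemma blk_eq {V : Type*} [Fintype V] [DecidableEq V] {st : V → V → V}
    (idem : ∀ x, st x x = x) (comm : ∀ x y, st x y = st y x)
    (inv : ∀ x y, st x (st x y) = y) (B : Finset V) (hB : B ∈ blocks st) (P Q : V) (hPQ : P ≠ Q)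
    (hP : P ∈ B) (hQ : Q ∈ B) : B = {P, Q, st P Q} := by
  obtain ⟨b, hb, hu⟩ := (isSTS_blocks idem comm inv).pair P Q hPQ
  have h1 := hu B ⟨hB, hP, hQ⟩
  have h2 := hu {P, Q, st P Q} ⟨(mem_blocks _).2 ⟨P, Q, hPQ, rfl⟩, by simp, by simp⟩
  rw [h1, h2]

include hc in
lemma V_ex (ε : Fin M → Bool) (P Q : (S.X × A) × W) (hPQ : P ≠ Q) :
    ∃ B ∈ (blocks (thd c f ε) : Set (Finset ((S.X × A) × W))), P ∈ B ∧ Q ∈ B := by
  refine ⟨{P, Q, thd c f ε P Q}, ?_, by simp, by simp⟩
  rw [mem_coe]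
  exact (mem_blocks _).2 ⟨P, Q, hPQ, rfl⟩

include hc in
lemma V_loc (ε ε' : Fin M → Bool) (P Q : (S.X × A) × W) (hPQ : P ≠ Q)
    (hag : ∀ i, unc c f P Q = some i → ε i = ε' i)
    (B : Finset ((S.X × A) × W)) (hB : B ∈ (blocks (thd c f ε) : Set (Finset ((S.X × A) × W))))
    (hP : P ∈ B) (hQ : Q ∈ B) :
    B ∈ (blocks (thd c f ε') : Set (Finset ((S.X × A) × W))) := by
  rw [mem_coe] at hB ⊢
  have h1 := blk_eq (thd_idem f ε) (thd_comm hc f ε) (thd_inv hc f ε) B hB P Q hPQ hP hQ
  have h2 : thd c f ε P Q = thd c f ε' P Q := by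
    unfold thd bt
    by_cases hn : nic P Q
    · have h3 := hag _ ((unc_some f P Q _).2 ⟨hn, rfl⟩)
      rw [h3]
    · rw [if_neg (fun h => hn h.1), if_neg (fun h => hn h.1)]
  rw [h1, h2]
  exact (mem_blocks _).2 ⟨P, Q, hPQ, rfl⟩

include hc in
lemma V_sw (ε ε' : Fin M → Bool) (P Q : (S.X × A) × W) (i : Fin M) (hPQ : P ≠ Q)
    (hi : unc c f P Q = some i) (hne : ε i ≠ ε' i)
    (B : Finset ((S.X × A) × W)) (hB : B ∈ (blocks (thd c f ε) : Set (Finset ((S.X × A) × W))))
    (hP : P ∈ B) (hQ : Q ∈ B) :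
    B ∉ (blocks (thd c f ε') : Set (Finset ((S.X × A) × W))) := by
  rw [mem_coe] at hB ⊢
  intro hB'
  rw [unc_some] at hi
  obtain ⟨hn, rfl⟩ := hi
  have h1 := blk_eq (thd_idem f ε) (thd_comm hc f ε) (thd_inv hc f ε) B hB P Q hPQ hP hQ
  have h2 := blk_eq (thd_idem f ε') (thd_comm hc f ε') (thd_inv hc f ε') B hB' P Q hPQ hP hQ
  have hR : thd c f ε P Q ∈ B := by rw [h1]; simp
  rw [h2] at hR
  simp only [mem_insert, mem_singleton] at hR
  have e1 : (thd c f ε P Q).1 = opY S P.1 Q.1 := rfl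
  rcases hR with h | h | h
  · have h3 := thd_inv hc f ε P Q
    rw [h, thd_idem] at h3
    exact hPQ h3
  · have h3 := thd_inv hc f ε Q P
    rw [thd_comm hc, thd_comm hc f ε Q P, h, thd_idem] at h3
    exact hPQ h3.symm
  · have h3 := congrArg Prod.snd h
    unfold thd at h3
    dsimp only at h3
    have h4 := add_left_cancel h3
    have h5 : (bt c f ε P Q - bt c f ε' P Q) • c P.1 Q.1 = 0 := by
      rw [sub_smul, h4, sub_self]
    rcases smul_eq_zero.1 h5 with h6 | h6
    · apply hne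
      unfold bt at h6
      cases hε : ε (f (unit c P Q)) <;> cases hε' : ε' (f (unit c P Q))
      · rfl
      · rw [if_neg (by rw [hε]; simp), if_pos ⟨hn, hε'⟩] at h6
        exact absurd h6 (by decide)
      · rw [if_pos ⟨hn, hε⟩, if_neg (by rw [hε']; simp)] at h6
        exact absurd h6 (by decide)
      · rfl
    · exact hc.ne _ _ h6

include hc hf in
lemma V_inv (ε : Fin M → Bool) (g : G) :
    H4Rig.IsAut (blocks (thd c f ε) : Set (Finset ((S.X × A) × W))) (psV S A W g) := by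
  have key : ∀ g : G, ∀ B, B ∈ blocks (thd c f ε) →
      B.map (psV S A W g).toEmbedding ∈ blocks (thd c f ε) := by
    intro g B hB
    have h1 := image_blocks (st := thd c f ε) (psV S A W g)
      (fun P Q => thd_equiv hc f hf ε g P Q)
    rw [map_eq_image, ← h1]
    exact mem_image_of_mem _ hB
  intro B
  rw [mem_coe, mem_coe]
  constructor
  · exact key g B
  · intro h
    have h2 := key g⁻¹ _ h
    rw [map_map] at h2
    have h3 : (psV S A W g).toEmbedding.trans (psV S A W g⁻¹).toEmbedding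
        = Function.Embedding.refl _ := by
      ext1 x; exact aV_inv g x
    rwa [h3, map_refl] at h2

lemma nic_ne (P Q : (S.X × A) × W) (h : nic P Q) : P ≠ Q := by
  rintro rfl; exact h rfl

lemma P_mem (P Q : (S.X × A) × W) : P ∈ unit c P Q := by
  unfold unit
  apply mem_union_left
  apply mem_union_left
  rw [mem_co]
  exact ⟨0, by rw [zero_smul, add_zero]⟩

lemma Q_mem (P Q : (S.X × A) × W) : Q ∈ unit c P Q := by
  unfold unit
  apply mem_union_left
  apply mem_union_right
  rw [mem_co]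
  exact ⟨0, by rw [zero_smul, add_zero]⟩

include hf in
lemma V_W (P Q P' Q' : (S.X × A) × W) (h : nic P Q) (_ : P' ≠ Q')
    (heq : unc c f P' Q' = unc c f P Q) :
    ∃ g : G, psV S A W g⁻¹ P' ∈ (unit c P Q : Set ((S.X × A) × W)) ∧
      psV S A W g⁻¹ Q' ∈ (unit c P Q : Set ((S.X × A) × W)) := by
  rw [(unc_some f P Q _).2 ⟨h, rfl⟩, unc_some] at heq
  obtain ⟨_, h2⟩ := heq
  rw [eq_comm, hf] at h2
  obtain ⟨g, hg⟩ := h2
  have h3 := P_mem (c := c) P' Q'
  have h4 := Q_mem (c := c) P' Q'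
  rw [hg, mem_image] at h3 h4
  obtain ⟨x, hx, hx'⟩ := h3
  obtain ⟨y, hy, hy'⟩ := h4
  refine ⟨g, ?_, ?_⟩
  · show aV g⁻¹ P' ∈ _
    rw [← hx', aV_inv]; exact hx
  · show aV g⁻¹ Q' ∈ _
    rw [← hy', aV_inv]; exact hy

lemma opY_snd_ne (P Q : (S.X × A) × W) (h : nic P Q) :
    P.1.2 ≠ (opY S P.1 Q.1).2 ∧ Q.1.2 ≠ (opY S P.1 Q.1).2 := by
  constructor
  · exact (nic_third P Q 0).2 h
  · rw [opY_comm]
    exact (nic_third Q P 0).2 ((nic_comm P Q).1 h)

lemma V_N1 (P Q : (S.X × A) × W) (h : nic P Q) (g : G)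
    (hg : psV S A W g P ∈ (unit c P Q : Set ((S.X × A) × W))) : psV S A W g P = P := by
  have e : psV S A W g P = ((S.ψ g P.1.1, P.1.2), P.2) := rfl
  rw [mem_coe] at hg
  unfold unit at hg
  simp only [mem_union, mem_co] at hg
  obtain ⟨h1, h2⟩ := opY_snd_ne P Q h
  rw [e] at hg ⊢
  rcases hg with (⟨t, ht⟩ | ⟨t, ht⟩) | ⟨t, ht⟩
  · have h3 := congrArg (fun z => z.1.1) ht
    dsimp only at h3
    rw [h3]
  · have h3 := congrArg (fun z => z.1.2) ht
    exact absurd h3 h
  · have h3 := congrArg (fun z => z.1.2) ht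
    exact absurd h3 h1

lemma V_N1' (P Q : (S.X × A) × W) (h : nic P Q) (g : G)
    (hg : psV S A W g Q ∈ (unit c P Q : Set ((S.X × A) × W))) : psV S A W g Q = Q := by
  have e : psV S A W g Q = ((S.ψ g Q.1.1, Q.1.2), Q.2) := rfl
  rw [mem_coe] at hg
  unfold unit at hg
  simp only [mem_union, mem_co] at hg
  obtain ⟨h1, h2⟩ := opY_snd_ne P Q h
  rw [e] at hg ⊢
  rcases hg with (⟨t, ht⟩ | ⟨t, ht⟩) | ⟨t, ht⟩
  · have h3 := congrArg (fun z => z.1.2) ht
    exact absurd h3.symm h
  · have h3 := congrArg (fun z => z.1.1) ht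
    dsimp only at h3
    rw [h3]
  · have h3 := congrArg (fun z => z.1.2) ht
    exact absurd h3 h2

include hc in
lemma V_N2 (P R : (S.X × A) × W) (hR : ∀ g, psV S A W g P ≠ R)
    (T : Finset ((S.X × A) × W))
    (hT : ∀ Q ∈ T, nic P Q ∧ R ∈ (unit c P Q : Set ((S.X × A) × W))) :
    T.card ≤ 3 * Fintype.card G * Fintype.card W + 6 := by
  classical
  have hPR : P ≠ R := by
    have := hR 1
    rwa [map_one] at this
  -- type 1
  set T1 := T.filter (fun Q => R.1 = P.1) with hT1
  set T2 := T.filter (fun Q => ∃ t : ZMod 3, R = (Q.1, Q.2 + t • c P.1 Q.1)) with hT2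
  set T3 := T.filter (fun Q => ∃ t : ZMod 3,
    R = (opY S P.1 Q.1, -P.2 - Q.2 + t • c P.1 Q.1)) with hT3
  have hsub : T ⊆ T1 ∪ (T2 ∪ T3) := by
    intro Q hQ
    obtain ⟨h1, h2⟩ := hT Q hQ
    rw [mem_coe] at h2
    unfold unit at h2
    simp only [mem_union, mem_co] at h2
    rcases h2 with (⟨t, ht⟩ | ht) | ht
    · exact mem_union_left _ (mem_filter.2 ⟨hQ, by rw [ht]⟩)
    · exact mem_union_right _ (mem_union_left _ (mem_filter.2 ⟨hQ, ht⟩))
    · exact mem_union_right _ (mem_union_right _ (mem_filter.2 ⟨hQ, ht⟩))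
  have c2 : T2.card ≤ 3 := by
    have : T2 ⊆ (univ : Finset (ZMod 3)).image (fun t => (R.1, R.2 - t • c P.1 R.1)) := by
      intro Q hQ
      obtain ⟨t, ht⟩ := (mem_filter.1 hQ).2
      rw [mem_image]
      refine ⟨t, mem_univ _, ?_⟩
      rw [ht]
      ext1
      · rfl
      · dsimp only; abel
    calc T2.card ≤ _ := card_le_card this
      _ ≤ _ := card_image_le
      _ = 3 := by simp [ZMod.card]
  have c3 : T3.card ≤ 3 := by
    have : T3 ⊆ (univ : Finset (ZMod 3)).image
        (fun t => (opY S P.1 R.1, -P.2 - R.2 + t • c P.1 R.1)) := by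
      intro Q hQ
      obtain ⟨t, ht⟩ := (mem_filter.1 hQ).2
      rw [mem_image]
      refine ⟨t, mem_univ _, ?_⟩
      rw [ht]
      dsimp only
      rw [opY_inv, hc.third]
      ext1
      · rfl
      · dsimp only; abel
    calc T3.card ≤ _ := card_le_card this
      _ ≤ _ := card_image_le
      _ = 3 := by simp [ZMod.card]
  have c1 : T1.card ≤ 3 * Fintype.card G * Fintype.card W := by
    rcases T1.eq_empty_or_nonempty with h0 | ⟨Q₀, hQ₀⟩
    · rw [h0]; simp
    -- differences in direction c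
    have key : ∀ Q ∈ T1, ∃ t : ZMod 3, t ≠ 0 ∧ R.2 - P.2 = t • c P.1 Q.1 := by
      intro Q hQ
      obtain ⟨hQT, hRP⟩ := mem_filter.1 hQ
      obtain ⟨h1, h2⟩ := hT Q hQT
      rw [mem_coe] at h2
      unfold unit at h2
      simp only [mem_union, mem_co] at h2
      obtain ⟨h3, _⟩ := opY_snd_ne P Q h1
      rcases h2 with (⟨t, ht⟩ | ⟨t, ht⟩) | ⟨t, ht⟩
      · refine ⟨t, ?_, ?_⟩
        · rintro rfl
          rw [zero_smul, add_zero] at ht
          exact hPR ht.symm
        · rw [ht]; dsimp only; abel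
      · exfalso
        apply h1
        rw [← hRP, ht]
      · exfalso
        apply h3
        have h4 := congrArg (fun z => z.1.2) ht
        dsimp only at h4
        rw [← h4, hRP]
    obtain ⟨t₀, ht₀, e₀⟩ := key Q₀ hQ₀
    have hs : T1 ⊆ ((univ : Finset G) ×ˢ (blkY S P.1 Q₀.1 ×ˢ (univ : Finset W))).image
        (fun x => (aY S x.1 x.2.1, x.2.2)) := by
      intro Q hQ
      obtain ⟨t, ht, e1⟩ := key Q hQ
      obtain ⟨g, hg⟩ := hc.det P.1 Q₀.1 Q.1 t₀ t ht₀ ht (e₀.symm.trans e1)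
      rw [mem_image] at hg
      obtain ⟨z, hz, hz'⟩ := hg
      rw [mem_image]
      refine ⟨(g, (z, Q.2)), mem_product.2 ⟨mem_univ _, mem_product.2 ⟨hz, mem_univ _⟩⟩, ?_⟩
      dsimp only
      rw [hz']
    have hb : (blkY S P.1 Q₀.1).card ≤ 3 := card_le_three
    calc T1.card ≤ _ := card_le_card hs
      _ ≤ _ := card_image_le
      _ = Fintype.card G * ((blkY S P.1 Q₀.1).card * Fintype.card W) := by
          rw [card_product, card_product, card_univ, card_univ]
      _ ≤ Fintype.card G * (3 * Fintype.card W) :=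
          Nat.mul_le_mul_left _ (Nat.mul_le_mul_right _ hb)
      _ = _ := by ring
  have h1 := (card_le_card hsub).trans ((card_union_le _ _).trans
    (Nat.add_le_add_left (card_union_le _ _) _))
  omega

lemma V_N3 (P : (S.X × A) × W) (T : Finset ((S.X × A) × W)) (hT : ∀ Q ∈ T, ¬ nic P Q) :
    T.card ≤ Fintype.card S.X * Fintype.card W := by
  classical
  have hsub : T ⊆ (univ : Finset (S.X × W)).image (fun x => ((x.1, P.1.2), x.2)) := by
    intro Q hQ
    have h1 := hT Q hQ
    unfold nic at h1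
    rw [not_not] at h1
    rw [mem_image]
    exact ⟨(Q.1.1, Q.2), mem_univ _, by rw [h1]⟩
  calc T.card ≤ _ := card_le_card hsub
    _ ≤ _ := card_image_le
    _ = _ := by rw [card_univ, Fintype.card_prod]

include hf in
lemma V_N4 (i : Fin M) (T : Finset (((S.X × A) × W) × ((S.X × A) × W)))
    (hT : ∀ p ∈ T, nic p.1 p.2 ∧ unc c f p.1 p.2 = some i) :
    T.card ≤ Fintype.card G * 81 := by
  classical
  rcases T.eq_empty_or_nonempty with rfl | ⟨p₀, hp₀⟩
  · simp
  have h0 := hT p₀ hp₀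
  have hsub : T ⊆ ((univ : Finset G) ×ˢ (unit c p₀.1 p₀.2 ×ˢ unit c p₀.1 p₀.2)).image
      (fun x => (aV x.1 x.2.1, aV x.1 x.2.2)) := by
    intro p hp
    have h1 := hT p hp
    obtain ⟨g, h2, h3⟩ := V_W f hf p₀.1 p₀.2 p.1 p.2 h0.1 (nic_ne _ _ h1.1) (by rw [h1.2, h0.2])
    rw [mem_image]
    refine ⟨(g, (aV g⁻¹ p.1, aV g⁻¹ p.2)), mem_product.2 ⟨mem_univ _, mem_product.2 ⟨h2, h3⟩⟩, ?_⟩
    dsimp only
    rw [aV_inv', aV_inv']
  have h9 := unit_card (c := c) p₀.1 p₀.2
  calc T.card ≤ _ := card_le_card hsub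
    _ ≤ _ := card_image_le
    _ = Fintype.card G * ((unit c p₀.1 p₀.2).card * (unit c p₀.1 p₀.2).card) := by
        rw [card_product, card_product, card_univ]
    _ ≤ Fintype.card G * (9 * 9) := Nat.mul_le_mul_left _ (Nat.mul_le_mul h9 h9)
    _ = _ := by norm_num

/-- regular points -/
def RegV (S : SD G bd) (A W : Type) [Fintype A] [DecidableEq A] [Fintype W] [DecidableEq W] :
    Finset ((S.X × A) × W) := (S.reg ×ˢ univ) ×ˢ univ

lemma RegV_card : (RegV S A W).card = S.reg.card * Fintype.card A * Fintype.card W := by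
  unfold RegV
  rw [card_product, card_product, card_univ, card_univ]

lemma V_reg (Q : (S.X × A) × W) (hQ : Q ∈ RegV S A W) (g : G) (h : psV S A W g Q = Q) :
    g = 1 := by
  unfold RegV at hQ
  rw [mem_product, mem_product] at hQ
  apply S.hreg Q.1.1 hQ.1.1 g
  exact congrArg (fun z => z.1.1) h

end Prod

end H4STS
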