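import Pool.Agent.Helpers.H4_STS4
import Pool.Agent.Helpers.H4_Ex3

set_option autoImplicit false

open Finset

namespace H4STS

lemma fin3 (a b c d : ℕ) (h1 : a * 91 ≤ d) (h2 : b * 60 ≤ d) (h3 : 8 * c ≤ d) :
    a + b + c ≤ d := by omega

theorem poly_exact (G : Type) [Group G] [Fintype G] :
    ∃ (v : ℕ) (B : Finset (Finset (Fin v))),
      v ≤ 480 * 3 ^ 37 * 2 ^ 26 * (Fintype.card G) ^ 28 ∧ (∀ b ∈ B, b.card = 3) ∧
      (∀ x y : Fin v, x ≠ y → ∃! b : Finset (Fin v), b ∈ B ∧ x ∈ b ∧ y ∈ b) ∧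
      ∃ φ : G →* Equiv.Perm (Fin v), Function.Injective φ ∧
        ∀ σ : Equiv.Perm (Fin v), σ ∈ φ.range ↔
          ∀ b : Finset (Fin v), (b ∈ B ↔ b.map σ.toEmbedding ∈ B) := by
  classical
  obtain ⟨S⟩ := base G
  set n := Fintype.card G with hn
  have hn0 : 0 < n := Fintype.card_pos
  obtain ⟨l, hl1, hl2⟩ : ∃ l, n ≤ 2 ^ l ∧ 2 ^ l ≤ 2 * n := by
    refine ⟨Nat.log 2 n + 1, (Nat.lt_pow_succ_log_self (by norm_num) n).le, ?_⟩
    have : 2 ^ Nat.log 2 n ≤ n := Nat.pow_log_le_self 2 hn0.ne'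
    rw [pow_succ]; omega
  set s := 6 + 3 * l with hs
  set m := 18 + 4 * l + 2 * s with hm
  set A := Fin s → ZMod 3 with hA
  set W := ZMod 3 × (Fin m → ZMod 3) with hW
  have hAc : Fintype.card A = 3 ^ s := by simp [hA, ZMod.card]
  have hWc : Fintype.card W = 3 ^ (m + 1) := by
    show Fintype.card (ZMod 3 × (Fin m → ZMod 3)) = _
    rw [Fintype.card_prod, Fintype.card_fun, ZMod.card, Fintype.card_fin, pow_succ]; ring
  set x := Fintype.card S.X with hx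
  have hX1 : x ≤ 480 * n ^ 2 := S.bound
  have h23 : ∀ k : ℕ, 2 ^ k ≤ 3 ^ k := fun k => Nat.pow_le_pow_left (by norm_num) k
  have hX2 : x ≤ 2 ^ (9 + 2 * l) := by
    calc x ≤ 480 * n ^ 2 := hX1
      _ ≤ 2 ^ 9 * (2 ^ l) ^ 2 := Nat.mul_le_mul (by norm_num) (Nat.pow_le_pow_left hl1 2)
      _ = 2 ^ (9 + 2 * l) := by rw [pow_add, ← pow_mul]; ring_nf
  obtain ⟨c, hc⟩ := exists_CC S (A := A) m (by
    rw [Fintype.card_prod, hAc]
    calc (Fintype.card S.X * 3 ^ s) ^ 2 ≤ (3 ^ (9 + 2 * l) * 3 ^ s) ^ 2 := by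
          apply Nat.pow_le_pow_left
          apply Nat.mul_le_mul_right
          exact hX2.trans (h23 _)
      _ = 3 ^ m := by rw [← pow_add, ← pow_mul, hm]; ring_nf)
  obtain ⟨M, f, _, hf⟩ := exists_class' (relV (S := S) (A := A) (W := W)) relV_equiv
  set κ := 20 + 5 * l + 4 * (s + m + 1) with hκ
  have hV : Fintype.card ((S.X × A) × W) = x * 3 ^ (s + m + 1) := by
    rw [Fintype.card_prod, Fintype.card_prod, hAc, hWc]
    rw [mul_assoc, ← pow_add, ← add_assoc]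
  have hxpos : 0 < x := S.pos
  have : Nonempty ((S.X × A) × W) := by
    rw [← Fintype.card_pos_iff, hV]
    positivity
  have hκ2 : 4 * n * (x * 3 ^ (s + m + 1)) ^ 2 ≤ 2 ^ κ := by
    have h1 : x * 3 ^ (s + m + 1) ≤ 2 ^ (9 + 2 * l) * 4 ^ (s + m + 1) :=
      Nat.mul_le_mul hX2 (Nat.pow_le_pow_left (by norm_num) _)
    calc 4 * n * (x * 3 ^ (s + m + 1)) ^ 2
        ≤ 4 * 2 ^ l * (2 ^ (9 + 2 * l) * 4 ^ (s + m + 1)) ^ 2 :=
          Nat.mul_le_mul (Nat.mul_le_mul_left _ hl1) (Nat.pow_le_pow_left h1 2)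
      _ = 2 ^ κ := by
          have e4 : (4 : ℕ) = 2 ^ 2 := by norm_num
          rw [e4, ← pow_mul, ← pow_add, ← pow_add, ← pow_mul, ← pow_add, hκ]
          congr 1
          ring
  set ρ := S.reg.card with hρ
  have hxρ : x ≤ 2 * ρ := S.half
  have hρ1 : 1 ≤ ρ := by omega
  have hRc : (RegV S A W).card = ρ * 3 ^ s * 3 ^ (m + 1) := by
    rw [RegV_card, hAc, hWc]
  -- numerics
  have hn3 : n ^ 3 ≤ 27 ^ l := by
    calc n ^ 3 ≤ (2 ^ l) ^ 3 := Nat.pow_le_pow_left hl1 3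
      _ = (2 ^ 3) ^ l := by rw [← pow_mul, ← pow_mul]; ring_nf
      _ ≤ 27 ^ l := Nat.pow_le_pow_left (by norm_num) l
  have hA1 : 729 * n ^ 3 ≤ 3 ^ s := by
    calc 729 * n ^ 3 ≤ 729 * 27 ^ l := Nat.mul_le_mul_left _ hn3
      _ = 3 ^ s := by
        rw [hs, pow_add, pow_mul]; norm_num
  have hn13 : n ≤ n ^ 3 := Nat.le_self_pow (by norm_num) n
  have hAW : 8 * (648 * κ + 24) * n ^ 2 ≤ 3 ^ s * 3 ^ (m + 1) := by
    have e1 : 3 ^ s * 3 ^ (m + 1) = 3 ^ (37 + 11 * l) * 9 ^ l := by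
      have : (9 : ℕ) = 3 ^ 2 := by norm_num
      rw [this, ← pow_mul, ← pow_add, ← pow_add, hm, hs]
      congr 1
      ring
    rw [e1]
    have h1 : n ^ 2 ≤ 9 ^ l := by
      calc n ^ 2 ≤ (2 ^ l) ^ 2 := Nat.pow_le_pow_left hl1 2
        _ = (2 ^ 2) ^ l := by rw [← pow_mul, ← pow_mul]; ring_nf
        _ ≤ 9 ^ l := Nat.pow_le_pow_left (by norm_num) l
    have h2 : 8 * (648 * κ + 24) ≤ 3 ^ (37 + 11 * l) := by
      have h3 : κ = 168 + 57 * l := by rw [hκ, hm, hs]; ring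
      rw [h3]
      have h4 : l + 1 ≤ 2 ^ l := Nat.lt_two_pow_self
      have h5 : 2 ^ l ≤ 3 ^ (11 * l) := by
        calc 2 ^ l ≤ 3 ^ l := h23 l
          _ ≤ 3 ^ (11 * l) := Nat.pow_le_pow_right (by norm_num) (by omega)
      calc 8 * (648 * (168 + 57 * l) + 24) ≤ 3 ^ 37 * (l + 1) := by
            norm_num; omega
        _ ≤ 3 ^ 37 * 3 ^ (11 * l) := Nat.mul_le_mul_left _ (h4.trans h5)
        _ = 3 ^ (37 + 11 * l) := by rw [pow_add]
    exact Nat.mul_le_mul h2 h1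
  have hnum : 4 * n * (2 * κ * (n * 81) + x * Fintype.card W
      + n * (3 * n * Fintype.card W + 6)) ≤ (RegV S A W).card := by
    rw [hRc, hWc]
    set α := 3 ^ s
    set w := 3 ^ (m + 1)
    have t1 : 4 * n * (x * w) * 91 ≤ ρ * α * w := by
      have : 4 * n * 91 * x ≤ ρ * α := by
        calc 4 * n * 91 * x ≤ 4 * n * 91 * (2 * ρ) := Nat.mul_le_mul_left _ hxρ
          _ = ρ * (728 * n) := by ring
          _ ≤ ρ * α := by
            apply Nat.mul_le_mul_left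
            nlinarith
      calc 4 * n * (x * w) * 91 = (4 * n * 91 * x) * w := by ring
        _ ≤ _ := Nat.mul_le_mul_right _ this
    have t2 : 12 * n ^ 3 * w * 60 ≤ ρ * α * w := by
      have h60 : 12 * n ^ 3 * 60 ≤ ρ * α := by
        calc 12 * n ^ 3 * 60 ≤ 1 * (729 * n ^ 3) := by
              rw [one_mul, mul_right_comm]
              exact Nat.mul_le_mul_right _ (by norm_num)
          _ ≤ ρ * α := Nat.mul_le_mul hρ1 hA1
      calc 12 * n ^ 3 * w * 60 = (12 * n ^ 3 * 60) * w := by ring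
        _ ≤ _ := Nat.mul_le_mul_right _ h60
    have t3 : 8 * (648 * κ + 24) * n ^ 2 ≤ ρ * α * w := by
      calc 8 * (648 * κ + 24) * n ^ 2 ≤ α * w := hAW
        _ = 1 * (α * w) := (one_mul _).symm
        _ ≤ ρ * (α * w) := Nat.mul_le_mul_right _ hρ1
        _ = ρ * α * w := by ring
    have e : 4 * n * (2 * κ * (n * 81) + x * w + n * (3 * n * w + 6))
        = 4 * n * (x * w) + 12 * n ^ 3 * w + (648 * κ + 24) * n ^ 2 := by ring
    rw [e]
    have t3' : 8 * ((648 * κ + 24) * n ^ 2) ≤ ρ * α * w := by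
      rw [← mul_assoc]; exact t3
    exact fin3 _ _ _ _ t1 t2 t3'
  have hReg2 : Fintype.card ((S.X × A) × W) ≤ 2 * (RegV S A W).card := by
    rw [hV, hRc]
    calc x * 3 ^ (s + m + 1) ≤ 2 * ρ * 3 ^ (s + m + 1) := Nat.mul_le_mul_right _ hxρ
      _ = 2 * (ρ * 3 ^ s * 3 ^ (m + 1)) := by
        rw [add_assoc, pow_add]; ring
  obtain ⟨ε, hε⟩ := H4Rig.rigid (psV S A W)
    (fun ε => (blocks (thd c f ε) : Set (Finset ((S.X × A) × W)))) (unc c f)
    (V_ex hc f) (V_loc hc f) (V_sw hc f) (V_inv hc f hf) κ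
    (by rw [hV]; exact hκ2)
    (fun σ _ => H4Rig.count (psV S A W) (unc c f) nic
      (fun P Q => (unit c P Q : Set ((S.X × A) × W))) (RegV S A W)
      V_reg nic_ne (fun P Q h => ⟨_, (unc_some f P Q _).2 ⟨h, rfl⟩⟩)
      (V_W f hf) V_N1 V_N1' (3 * n * Fintype.card W + 6) (x * Fintype.card W) (n * 81)
      (fun P R h T hT => V_N2 hc P R h T hT)
      (fun P T hT => V_N3 P T (fun Q hQ => (hT Q hQ).2))
      (fun i T hT => V_N4 f hf i T hT) κ hnum hReg2 (by positivity) σ)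
  have hsts := isSTS_blocks (thd_idem f ε) (thd_comm hc f ε) (thd_inv hc f ε)
  have hψ : Function.Injective (psV S A W) := by
    rw [injective_iff_map_eq_one]
    intro g hg
    have hne : S.reg.Nonempty := by
      rw [← card_pos]; omega
    obtain ⟨x₀, hx₀⟩ := hne
    apply S.hreg x₀ hx₀ g
    have := Equiv.congr_fun hg ((x₀, 0), 0)
    exact congrArg (fun z => z.1.1) this
  obtain ⟨B, h1, h2, h3⟩ := H4DF.transport2 3
    (blocks (thd c f ε) : Set (Finset ((S.X × A) × W))) (psV S A W) hψ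
    (fun B hB => hsts.card_three B (mem_coe.1 hB))
    (fun P Q hPQ => by
      obtain ⟨B, ⟨hB, hP, hQ⟩, hu⟩ := hsts.pair P Q hPQ
      exact ⟨B, ⟨mem_coe.2 hB, hP, hQ⟩, fun B' hB' => hu B' ⟨mem_coe.1 hB'.1, hB'.2⟩⟩) hε
  refine ⟨_, B, ?_, h1, h2, h3⟩
  rw [hV]
  have e1 : s + m + 1 = 37 + 13 * l := by rw [hm, hs]; ring
  rw [e1]
  have h4 : 3 ^ (13 * l) ≤ 2 ^ 26 * n ^ 26 := by
    calc 3 ^ (13 * l) ≤ 4 ^ (13 * l) := Nat.pow_le_pow_left (by norm_num) _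
      _ = (2 ^ l) ^ 26 := by
        have : (4 : ℕ) = 2 ^ 2 := by norm_num
        rw [this, ← pow_mul, ← pow_mul]; ring_nf
      _ ≤ (2 * n) ^ 26 := Nat.pow_le_pow_left hl2 26
      _ = 2 ^ 26 * n ^ 26 := by rw [mul_pow]
  calc x * 3 ^ (37 + 13 * l) = x * 3 ^ 37 * 3 ^ (13 * l) := by rw [pow_add]; ring
    _ ≤ 480 * n ^ 2 * 3 ^ 37 * (2 ^ 26 * n ^ 26) :=
        Nat.mul_le_mul (Nat.mul_le_mul_right _ hX1) h4
    _ = 480 * 3 ^ 37 * 2 ^ 26 * n ^ 28 := by ring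

theorem poly_exact' : ∃ c : ℕ, ∀ (G : Type) [Group G] [Fintype G],
    ∃ (v : ℕ) (B : Finset (Finset (Fin v))),
      v ≤ (Fintype.card G) ^ c ∧ (∀ b ∈ B, b.card = 3) ∧
      (∀ x y : Fin v, x ≠ y → ∃! b : Finset (Fin v), b ∈ B ∧ x ∈ b ∧ y ∈ b) ∧
      ∃ φ : G →* Equiv.Perm (Fin v), Function.Injective φ ∧
        ∀ σ : Equiv.Perm (Fin v), σ ∈ φ.range ↔
          ∀ b : Finset (Fin v), (b ∈ B ↔ b.map σ.toEmbedding ∈ B) := by
  refine ⟨122, ?_⟩
  intro G _ _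
  have hn : 0 < Fintype.card G := Fintype.card_pos
  rcases Nat.lt_or_ge 1 (Fintype.card G) with h | h
  · obtain ⟨v, B, hv, h1, h2, h3⟩ := poly_exact G
    refine ⟨v, B, hv.trans ?_, h1, h2, h3⟩
    have h4 : 2 ^ 94 ≤ (Fintype.card G) ^ 94 := Nat.pow_le_pow_left h 94
    calc 480 * 3 ^ 37 * 2 ^ 26 * (Fintype.card G) ^ 28 ≤ 2 ^ 94 * (Fintype.card G) ^ 28 := by
          apply Nat.mul_le_mul_right
          norm_num
      _ ≤ (Fintype.card G) ^ 94 * (Fintype.card G) ^ 28 := Nat.mul_le_mul_right _ h4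
      _ = (Fintype.card G) ^ 122 := by rw [← pow_add]
  · have h1 : Fintype.card G = 1 := by omega
    have : Subsingleton G := Fintype.card_le_one_iff_subsingleton.mp h1.le
    refine ⟨1, ∅, by rw [h1]; simp, by simp, ?_, 1, ?_, ?_⟩
    · intro x y hxy; exact absurd (Subsingleton.elim x y) hxy
    · intro a b _; exact Subsingleton.elim a b
    · intro σ
      have : σ = 1 := Subsingleton.elim _ _
      rw [this]
      simp [one_mem]

end H4STS
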