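import Pool.Agent.Helpers.FatPointNF

set_option autoImplicit false

open MvPolynomial

namespace Pool.Agent.HD

open Pool.Agent.FatPt

universe u v

variable {R : Type u} [CommRing R]

/-- a rank one module which splits as a sum of two cyclic modules comes from an idempotent -/
theorem idem_of_split {Q : Type v} [AddCommGroup Q] [Module R Q]
    (h : LFree R Q 1) (q1 q2 : Q) (hs : ∀ q : Q, ∃ a b : R, q = a • q1 + b • q2)
    (T : Q →ₗ[R] Q) (h1 : T q1 = q1) (h2 : T q2 = 0) :
    ∃ e : R, e * e = e ∧ (1 - e) • q1 = 0 ∧ e • q2 = 0 := by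
  classical
  have htop : ∃ a b : R, a + b = 1 ∧ a • q1 = 0 ∧ b • q2 = 0 := by
    obtain ⟨hf, hp, hr⟩ := h
    by_contra hne
    let a : Ideal R :=
      { carrier := {r | ∃ r1 r2 : R, r = r1 + r2 ∧ r1 • q1 = 0 ∧ r2 • q2 = 0}
        add_mem' := by
          rintro x y ⟨c, d, hc, hc1, hc2⟩ ⟨c', d', hc', hc1', hc2'⟩
          exact ⟨c + c', d + d', by rw [hc, hc']; ring, by rw [add_smul, hc1, hc1', add_zero],
            by rw [add_smul, hc2, hc2', add_zero]⟩
        zero_mem' := ⟨0, 0, by simp, by simp, by simp⟩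
        smul_mem' := by
          rintro t x ⟨c, d, hc, hc1, hc2⟩
          exact ⟨t * c, t * d, by rw [smul_eq_mul, hc]; ring, by rw [mul_smul, hc1, smul_zero],
            by rw [mul_smul, hc2, smul_zero]⟩ }
    have ha : a ≠ ⊤ := by
      intro h
      have : (1 : R) ∈ a := by rw [h]; trivial
      obtain ⟨c, d, hc, hc1, hc2⟩ := this
      exact hne ⟨c, d, hc.symm, hc1, hc2⟩
    obtain ⟨m, hm, ham⟩ := Ideal.exists_le_maximal a ha
    have := hm.isPrime
    let S := m.primeCompl
    let Rm := Localization S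
    have hfree : Module.Free Rm (LocalizedModule S Q) :=
      Module.free_of_flat_of_isLocalRing
    have hrk : Module.finrank Rm (LocalizedModule S Q) = 1 := hr ⟨m, inferInstance⟩
    let b : Module.Basis Unit Rm (LocalizedModule S Q) := Module.basisUnique Unit hrk
    let e : LocalizedModule S Q := b ()
    have hco : ∀ x : LocalizedModule S Q, ∃ α : Rm, x = α • e := by
      intro x
      refine ⟨b.repr x (), ?_⟩
      have := b.sum_repr x
      simpa using this.symm
    have hinj : ∀ α β : Rm, α • e = β • e → α = β := by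
      intro α β h
      have := congrArg (fun x => b.repr x ()) h
      simpa [e] using this
    let Tm : LocalizedModule S Q →ₗ[Rm] LocalizedModule S Q := LocalizedModule.map S T
    have hTm : ∀ q : Q, Tm (LocalizedModule.mk q 1) = LocalizedModule.mk (T q) 1 := by
      intro q
      exact LocalizedModule.map_mk _ _ _ _
    obtain ⟨α, hα⟩ := hco (LocalizedModule.mk q1 1)
    obtain ⟨β, hβ⟩ := hco (LocalizedModule.mk q2 1)
    obtain ⟨ν, hν⟩ := hco (Tm e)
    have e1 : α * ν = α := by
      apply hinj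
      have := hTm q1
      rw [hα, map_smul, hν, h1, hα, smul_smul] at this
      exact this
    have e2 : β * ν = 0 := by
      apply hinj
      have := hTm q2
      rw [hβ, map_smul, hν, h2, LocalizedModule.zero_mk, smul_smul] at this
      rw [this, zero_smul]
    have e3 : ∃ x y : Rm, x * α + y * β = 1 := by
      obtain ⟨⟨q, s⟩, hq⟩ : ∃ z : Q × S, LocalizedModule.mk z.1 z.2 = e := by
        induction e using LocalizedModule.induction_on with
        | h q s => exact ⟨(q, s), rfl⟩
      obtain ⟨x, y, hxy⟩ := hs q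
      refine ⟨Localization.mk x s, Localization.mk y s, ?_⟩
      apply hinj
      rw [add_smul, mul_smul, mul_smul, ← hα, ← hβ, one_smul, LocalizedModule.mk_smul_mk,
        LocalizedModule.mk_smul_mk, mul_one, ← hq]
      simp only [hxy]
      rw [LocalizedModule.mk_add_mk, ← smul_add, LocalizedModule.mk_cancel_common_left]
    have hloc : IsLocalRing Rm := inferInstance
    obtain ⟨x, y, hxy⟩ := e3
    have hzero : ∀ (q : Q), (LocalizedModule.mk q 1 : LocalizedModule S Q) = 0 → ∃ t : S, (t : R) • q = 0 := by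
      intro q hq
      rw [← LocalizedModule.zero_mk (1 : S), LocalizedModule.mk_eq] at hq
      obtain ⟨t, ht⟩ := hq
      refine ⟨t, ?_⟩
      simp only [one_smul, smul_zero] at ht
      exact ht
    rcases IsLocalRing.isUnit_or_isUnit_of_add_one hxy with h | h
    · have hαu : IsUnit α := isUnit_of_mul_isUnit_right h
      have hν1 : ν = 1 := hαu.mul_left_cancel (by rw [e1, mul_one])
      rw [hν1, mul_one] at e2
      rw [e2, zero_smul] at hβ
      obtain ⟨t, ht⟩ := hzero q2 hβ
      exact t.2 (ham ⟨0, t, by simp, by simp, ht⟩)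
    · have hβu : IsUnit β := isUnit_of_mul_isUnit_right h
      have hν1 : ν = 0 := by rwa [hβu.mul_right_eq_zero] at e2
      rw [hν1, mul_zero] at e1
      rw [← e1, zero_smul] at hα
      obtain ⟨t, ht⟩ := hzero q1 hα
      exact t.2 (ham ⟨t, 0, by simp, ht, by simp⟩)
  obtain ⟨a, b, hab, ha, hb⟩ := htop
  have hb1 : b • q1 = q1 := by
    have : b = 1 - a := by rw [← hab]; ring
    rw [this, sub_smul, one_smul, ha, sub_zero]
  have ha2 : a • q2 = q2 := by
    have : a = 1 - b := by rw [← hab]; ring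
    rw [this, sub_smul, one_smul, hb, sub_zero]
  have hsur : Function.Surjective (LinearMap.toSpanSingleton R Q (q1 + q2)) := by
    intro q
    obtain ⟨x, y, rfl⟩ := hs q
    refine ⟨x * b + y * a, ?_⟩
    rw [LinearMap.toSpanSingleton_apply, add_smul, smul_add, smul_add, mul_smul, mul_smul, mul_smul,
      mul_smul, ha, hb, hb1, ha2]
    simp
  have hin := LFree.injective lfree_self h _ hsur
  have hab0 : a * b = 0 := by
    apply hin
    rw [LinearMap.toSpanSingleton_apply, map_zero, smul_add, mul_smul, mul_smul, hb, smul_zero, add_zero,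
      ← mul_smul, mul_comm, mul_smul, ha, smul_zero]
  refine ⟨b, ?_, ?_, hb⟩
  · have : a = 1 - b := by rw [← hab]; ring
    rw [this] at hab0
    linear_combination - hab0
  · have : 1 - b = a := by rw [← hab]; ring
    rw [this, ha]

/-- kernels of surjections onto rank one modules -/
theorem ker_eq {P : Type v} [AddCommGroup P] [Module R P] {Q Q3 : Type v} [AddCommGroup Q] [Module R Q]
    [AddCommGroup Q3] [Module R Q3] (h : LFree R Q 1) (h3 : LFree R Q3 1)
    (f : P →ₗ[R] Q) (f3 : P →ₗ[R] Q3) (s : Function.Surjective f) (s3 : Function.Surjective f3)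
    (k : ∀ x, f x = 0 → f3 x = 0) : ∀ x, f3 x = 0 → f x = 0 := by
  intro x hx
  let e : (P ⧸ LinearMap.ker f) ≃ₗ[R] Q := f.quotKerEquivOfSurjective s
  let g : Q →ₗ[R] Q3 := ((LinearMap.ker f).liftQ f3 (fun y hy => by
    rw [LinearMap.mem_ker] at hy ⊢; exact k y hy)).comp e.symm.toLinearMap
  have hg : ∀ y, g (f y) = f3 y := by
    intro y
    have : e.symm (f y) = Submodule.Quotient.mk y := by
      rw [LinearEquiv.symm_apply_eq]; rfl
    simp [g, this]
  have hgs : Function.Surjective g := by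
    intro z
    obtain ⟨y, rfl⟩ := s3 z
    exact ⟨f y, hg y⟩
  have hgi := LFree.injective h h3 g hgs
  apply hgi
  rw [hg, hx, map_zero]

/-- main linear algebra -/
theorem main_LA2 {Q1 Q2 Q3 Q4 : Type u} [AddCommGroup Q1] [Module R Q1] [AddCommGroup Q2] [Module R Q2]
    [AddCommGroup Q3] [Module R Q3] [AddCommGroup Q4] [Module R Q4]
    (h1 : LFree R Q1 1) (h2 : LFree R Q2 1) (h3 : LFree R Q3 1) (h4 : LFree R Q4 1)
    (f1 : R × R →ₗ[R] Q1) (f2 : R × R →ₗ[R] Q2) (f3 : R × R →ₗ[R] Q3) (f4 : R × R →ₗ[R] Q4)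
    (s1 : Function.Surjective f1) (s2 : Function.Surjective f2) (s3 : Function.Surjective f3)
    (s4 : Function.Surjective f4)
    (k13 : ∀ x, f1 x = 0 → f3 x = 0) (k23 : ∀ x, f2 x = 0 → f3 x = 0)
    (k14 : ∀ x : R × R, f1 x = 0 → f4 (x.1, 0) = 0)
    (k24 : ∀ x : R × R, f2 x = 0 → f4 (0, x.2) = 0) :
    ∃ e : R, e * e = e ∧ f1 (1 - e, 0) = 0 ∧ f1 (0, e) = 0 ∧ f2 (1 - e, 0) = 0 ∧ f2 (0, e) = 0 := by
  have k31 : ∀ x, f3 x = 0 → f1 x = 0 := ker_eq h1 h3 f1 f3 s1 s3 k13
  have k32 : ∀ x, f3 x = 0 → f2 x = 0 := ker_eq h2 h3 f2 f3 s2 s3 k23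
  have k12 : ∀ x, f1 x = 0 → f2 x = 0 := fun x hx => k32 x (k13 x hx)
  have k14' : ∀ x, f1 x = 0 → f4 x = 0 := by
    intro x hx
    have e1 := k14 x hx
    have e2 := k24 x (k12 x hx)
    have : x = (x.1, 0) + (0, x.2) := by ext <;> simp
    rw [this, map_add, e1, e2, add_zero]
  have k41 : ∀ x, f4 x = 0 → f1 x = 0 := ker_eq h1 h4 f1 f4 s1 s4 k14'
  let P : R × R →ₗ[R] R × R := (LinearMap.inl R R R).comp (LinearMap.fst R R R)
  have hP : ∀ x : R × R, P x = (x.1, 0) := fun x => rfl
  let E : ((R × R) ⧸ LinearMap.ker f1) ≃ₗ[R] Q1 := f1.quotKerEquivOfSurjective s1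
  let T : Q1 →ₗ[R] Q1 := ((LinearMap.ker f1).liftQ (f1.comp P) (fun y hy => by
    rw [LinearMap.mem_ker] at hy ⊢
    exact k41 _ (k14 y hy))).comp E.symm.toLinearMap
  have hT : ∀ x, T (f1 x) = f1 (x.1, 0) := by
    intro y
    have : E.symm (f1 y) = Submodule.Quotient.mk y := by
      rw [LinearEquiv.symm_apply_eq]; rfl
    simp [T, this, hP]
  obtain ⟨e, he, h1', h2'⟩ := idem_of_split h1 (f1 (1, 0)) (f1 (0, 1)) (by
    intro q
    obtain ⟨x, rfl⟩ := s1 q
    refine ⟨x.1, x.2, ?_⟩
    rw [← map_smul, ← map_smul, ← map_add]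
    congr 1
    ext <;> simp) T (by rw [hT]) (by
    rw [hT]
    have : ((0 : R), (0 : R)) = 0 := rfl
    show f1 (0, 0) = 0
    rw [this, map_zero])
  rw [← map_smul] at h1' h2'
  have a1 : (1 - e) • ((1 : R), (0 : R)) = (1 - e, 0) := by ext <;> simp
  have a2 : e • ((0 : R), (1 : R)) = (0, e) := by ext <;> simp
  rw [a1] at h1'
  rw [a2] at h2'
  exact ⟨e, he, h1', h2', k12 _ h1', k12 _ h2'⟩

end Pool.Agent.HD
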