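import Pool.Agent.Helpers.HD1

set_option autoImplicit false

open MvPolynomial

namespace Pool.Agent.HD

open Pool.Agent.FatPt

universe u

/-- degrees of the three variables in the group ℤ × ℤ -/
def dg2 : Fin 3 → ℤ × ℤ := ![(2, 0), (0, 2), (1, 1)]

theorem wt_mo (p q r : ℕ) :
    Finsupp.weight dg2 (mo p q r) = (2 * (p : ℤ) + r, 2 * (q : ℤ) + r) := by
  rw [Finsupp.weight_apply, Finsupp.sum_fintype _ _ (by intro i; simp)]
  ext <;> simp [Fin.sum_univ_three, dg2] <;> ring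

/-- standard monomials of the first ideal -/
def StdA (s : Fin 3 →₀ ℕ) : Prop :=
  (s 0 = 0 ∧ ((s 1 = 0 ∧ s 2 ≤ 4) ∨ (s 1 = 1 ∧ s 2 ≤ 1) ∨ (2 ≤ s 1 ∧ s 1 ≤ 3 ∧ s 2 = 0))) ∨
  (s 0 = 1 ∧ ((s 1 = 0 ∧ s 2 ≤ 3) ∨ (1 ≤ s 1 ∧ s 1 ≤ 3 ∧ s 2 = 0))) ∨
  (s 0 = 2 ∧ s 1 = 0 ∧ s 2 ≤ 1)

/-- standard monomials of the second ideal -/
def StdB (s : Fin 3 →₀ ℕ) : Prop :=
  (s 0 = 0 ∧ ((s 1 = 0 ∧ s 2 ≤ 2) ∨ (s 1 = 1 ∧ s 2 ≤ 1) ∨ (2 ≤ s 1 ∧ s 1 ≤ 3 ∧ s 2 = 0))) ∨
  (s 0 = 1 ∧ ((s 1 ≤ 1 ∧ s 2 ≤ 1) ∨ (2 ≤ s 1 ∧ s 1 ≤ 3 ∧ s 2 = 0))) ∨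
  (s 0 = 2 ∧ ((s 1 ≤ 1 ∧ s 2 ≤ 1) ∨ (s 1 = 2 ∧ s 2 = 0)))

instance (s : Fin 3 →₀ ℕ) : Decidable (StdA s) := by unfold StdA; infer_instance
instance (s : Fin 3 →₀ ℕ) : Decidable (StdB s) := by unfold StdB; infer_instance

theorem stdA_mo (p q r : ℕ) : StdA (mo p q r) ↔
    ((p = 0 ∧ ((q = 0 ∧ r ≤ 4) ∨ (q = 1 ∧ r ≤ 1) ∨ (2 ≤ q ∧ q ≤ 3 ∧ r = 0))) ∨
  (p = 1 ∧ ((q = 0 ∧ r ≤ 3) ∨ (1 ≤ q ∧ q ≤ 3 ∧ r = 0))) ∨
  (p = 2 ∧ q = 0 ∧ r ≤ 1)) := Iff.rfl

theorem stdB_mo (p q r : ℕ) : StdB (mo p q r) ↔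
    ((p = 0 ∧ ((q = 0 ∧ r ≤ 2) ∨ (q = 1 ∧ r ≤ 1) ∨ (2 ≤ q ∧ q ≤ 3 ∧ r = 0))) ∨
  (p = 1 ∧ ((q ≤ 1 ∧ r ≤ 1) ∨ (2 ≤ q ∧ q ≤ 3 ∧ r = 0))) ∨
  (p = 2 ∧ ((q ≤ 1 ∧ r ≤ 1) ∨ (q = 2 ∧ r = 0)))) := Iff.rfl

theorem stdA_down {s t : Fin 3 →₀ ℕ} (h : t ≤ s) (hs : StdA s) : StdA t := by
  have h0 := h 0
  have h1 := h 1
  have h2 := h 2
  unfold StdA at hs ⊢
  omega

theorem stdB_down {s t : Fin 3 →₀ ℕ} (h : t ≤ s) (hs : StdB s) : StdB t := by
  have h0 := h 0
  have h1 := h 1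
  have h2 := h 2
  unfold StdB at hs ⊢
  omega

/-- the degree preserving involution exchanging the two sets of standard monomials -/
noncomputable def sig (s : Fin 3 →₀ ℕ) : Fin 3 →₀ ℕ :=
  if s = mo 0 0 3 then mo 1 1 1 else if s = mo 1 1 1 then mo 0 0 3 else
  if s = mo 1 0 2 then mo 2 1 0 else if s = mo 2 1 0 then mo 1 0 2 else
  if s = mo 1 0 3 then mo 2 1 1 else if s = mo 2 1 1 then mo 1 0 3 else
  if s = mo 0 0 4 then mo 2 2 0 else if s = mo 2 2 0 then mo 0 0 4 else s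

theorem sig_cases (s : Fin 3 →₀ ℕ) :
    (s = mo 0 0 3 ∧ sig s = mo 1 1 1) ∨ (s = mo 1 1 1 ∧ sig s = mo 0 0 3) ∨
    (s = mo 1 0 2 ∧ sig s = mo 2 1 0) ∨ (s = mo 2 1 0 ∧ sig s = mo 1 0 2) ∨
    (s = mo 1 0 3 ∧ sig s = mo 2 1 1) ∨ (s = mo 2 1 1 ∧ sig s = mo 1 0 3) ∨
    (s = mo 0 0 4 ∧ sig s = mo 2 2 0) ∨ (s = mo 2 2 0 ∧ sig s = mo 0 0 4) ∨
    (s ≠ mo 0 0 3 ∧ s ≠ mo 1 1 1 ∧ s ≠ mo 1 0 2 ∧ s ≠ mo 2 1 0 ∧ s ≠ mo 1 0 3 ∧ s ≠ mo 2 1 1 ∧
      s ≠ mo 0 0 4 ∧ s ≠ mo 2 2 0 ∧ sig s = s) := by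
  unfold sig
  split_ifs <;> simp_all

theorem sig_invol : Function.Involutive sig := by
  intro s
  rcases sig_cases s with h | h | h | h | h | h | h | h | h
  all_goals first
    | (obtain ⟨h1, h2⟩ := h; rw [h2, h1]; simp [sig, mo_inj])
    | (have h2 := h.2.2.2.2.2.2.2.2; rw [h2, h2])

theorem sig_weight (s : Fin 3 →₀ ℕ) : Finsupp.weight dg2 (sig s) = Finsupp.weight dg2 s := by
  rcases sig_cases s with h | h | h | h | h | h | h | h | h
  all_goals first
    | (obtain ⟨h1, h2⟩ := h; rw [h2, h1, wt_mo, wt_mo]; norm_num)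
    | (have h2 := h.2.2.2.2.2.2.2.2; rw [h2])

theorem std_iff (p q r : ℕ) (h1 : ¬ (p = 0 ∧ q = 0 ∧ r = 3)) (h2 : ¬ (p = 1 ∧ q = 1 ∧ r = 1))
    (h3 : ¬ (p = 1 ∧ q = 0 ∧ r = 2)) (h4 : ¬ (p = 2 ∧ q = 1 ∧ r = 0)) (h5 : ¬ (p = 1 ∧ q = 0 ∧ r = 3))
    (h6 : ¬ (p = 2 ∧ q = 1 ∧ r = 1)) (h7 : ¬ (p = 0 ∧ q = 0 ∧ r = 4)) (h8 : ¬ (p = 2 ∧ q = 2 ∧ r = 0)) :
    StdA (mo p q r) ↔ StdB (mo p q r) := by
  rw [stdA_mo, stdB_mo]
  constructor
  · rintro (⟨rfl, (h | h | h)⟩ | ⟨rfl, (h | h)⟩ | ⟨rfl, h⟩)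
    · left; clear h2 h3 h4 h5 h6 h8; refine ⟨rfl, Or.inl ?_⟩; omega
    · left; exact ⟨rfl, Or.inr (Or.inl h)⟩
    · left; exact ⟨rfl, Or.inr (Or.inr h)⟩
    · right; left; clear h1 h2 h4 h6 h7 h8; refine ⟨rfl, Or.inl ?_⟩; omega
    · right; left; clear h1 h3 h5 h4 h6 h7 h8; refine ⟨rfl, ?_⟩; omega
    · right; right; clear h1 h2 h3 h4 h5 h6 h7 h8; refine ⟨rfl, Or.inl ?_⟩; omega
  · rintro (⟨rfl, (h | h | h)⟩ | ⟨rfl, (h | h)⟩ | ⟨rfl, (h | h)⟩)
    · left; clear h1 h2 h3 h4 h5 h6 h7 h8; refine ⟨rfl, Or.inl ?_⟩; omega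
    · left; exact ⟨rfl, Or.inr (Or.inl h)⟩
    · left; exact ⟨rfl, Or.inr (Or.inr h)⟩
    · right; left; clear h1 h3 h5 h4 h6 h7 h8; refine ⟨rfl, ?_⟩; omega
    · right; left; clear h1 h2 h3 h5 h4 h6 h7 h8; refine ⟨rfl, Or.inr ?_⟩; omega
    · right; right; clear h1 h2 h3 h5 h7 h8; refine ⟨rfl, ?_⟩; omega
    · exfalso; omega

theorem sig_std (s : Fin 3 →₀ ℕ) : StdA s ↔ StdB (sig s) := by
  rcases sig_cases s with h | h | h | h | h | h | h | h | h
  all_goals first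
    | (obtain ⟨h1, h2⟩ := h; rw [h2, h1, stdA_mo, stdB_mo]; norm_num)
    | (obtain ⟨h1, h2, h3, h4, h5, h6, h7, h8, h9⟩ := h
       rw [h9]
       clear h9
       obtain ⟨p, q, r, rfl⟩ := exists_mo s
       rw [Ne, mo_inj] at h1 h2 h3 h4 h5 h6 h7 h8
       exact std_iff p q r h1 h2 h3 h4 h5 h6 h7 h8)

/-- standard monomials of given degree -/
abbrev Idx2 (a : ℤ × ℤ) : Type := {s : Fin 3 →₀ ℕ // StdA s ∧ Finsupp.weight dg2 s = a}

abbrev Idx2B (a : ℤ × ℤ) : Type := {s : Fin 3 →₀ ℕ // StdB s ∧ Finsupp.weight dg2 s = a}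

/-- the bijection -/
noncomputable def pi2 (a : ℤ × ℤ) : Idx2 a ≃ Idx2B a :=
  Equiv.subtypeEquiv (sig_invol.toPerm sig) (by
    intro s
    show _ ↔ StdB (sig s) ∧ Finsupp.weight dg2 (sig s) = a
    rw [sig_weight, sig_std])

instance (a : ℤ × ℤ) : Finite (Idx2 a) := by
  have : Set.Finite {s : Fin 3 →₀ ℕ | StdA s ∧ Finsupp.weight dg2 s = a} := by
    refine Set.Finite.subset (s := (fun t : Fin 5 × Fin 5 × Fin 5 => mo t.1 t.2.1 t.2.2) '' Set.univ)
      (Set.toFinite _) ?_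
    rintro s ⟨hs, -⟩
    obtain ⟨p, q, r, rfl⟩ := exists_mo s
    rw [stdA_mo] at hs
    exact ⟨(⟨p, by omega⟩, ⟨q, by omega⟩, ⟨r, by omega⟩), trivial, rfl⟩
  exact this

/-- Hilbert function -/
noncomputable def hf2 (a : ℤ × ℤ) : ℕ := Nat.card (Idx2 a)

theorem hf2_eq_zero {a : ℤ × ℤ} (h : ∀ p q r : ℕ, StdA (mo p q r) → (2 * (p : ℤ) + r, 2 * (q : ℤ) + r) ≠ a) :
    hf2 a = 0 := by
  rw [hf2, Nat.card_eq_zero]
  left
  constructor
  rintro ⟨s, hs, hw⟩
  obtain ⟨p, q, r, rfl⟩ := exists_mo s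
  rw [wt_mo] at hw
  exact h p q r hs hw

theorem hf2_eq_one {a : ℤ × ℤ} (s0 : Fin 3 →₀ ℕ) (hs0 : StdA s0) (hw0 : Finsupp.weight dg2 s0 = a)
    (h : ∀ p q r : ℕ, StdA (mo p q r) → (2 * (p : ℤ) + r, 2 * (q : ℤ) + r) = a → mo p q r = s0) : hf2 a = 1 := by
  rw [hf2, Nat.card_eq_one_iff_unique]
  refine ⟨⟨?_⟩, ⟨s0, hs0, hw0⟩⟩
  rintro ⟨s, hs, hw⟩ ⟨s', hs', hw'⟩
  obtain ⟨p, q, r, rfl⟩ := exists_mo s
  obtain ⟨p', q', r', rfl⟩ := exists_mo s'
  rw [wt_mo] at hw hw'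
  rw [Subtype.mk.injEq, h _ _ _ hs hw, h _ _ _ hs' hw']

variable {R : Type u} [CommRing R]

/-- degree a piece of the quotient -/
abbrev Piece2 (I : Ideal (MvPolynomial (Fin 3) R)) (a : ℤ × ℤ) : Type u :=
  weightedHomogeneousSubmodule R dg2 a ⧸
    (I.restrictScalars R).comap (weightedHomogeneousSubmodule R dg2 a).subtype

/-- weights of monomials -/
noncomputable def wt (e : R) (s : Fin 3 →₀ ℕ) : R :=
  (if StdA s then e else 0) + (if StdB s then 1 - e else 0)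

theorem wt_mul {e : R} (he : e * e = e) {s t : Fin 3 →₀ ℕ} (h : t ≤ s) : wt e s * wt e t = wt e s := by
  unfold wt
  by_cases h1 : StdA s
  · have h2 := stdA_down h h1
    by_cases h3 : StdB s
    · have h4 := stdB_down h h3
      simp only [h1, h2, h3, h4, if_true]
      ring
    · by_cases h4 : StdB t
      · simp only [h1, h2, h3, h4, if_true, if_false]
        ring
      · simp only [h1, h2, h3, h4, if_true, if_false]
        linear_combination he
  · by_cases h3 : StdB s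
    · have h4 := stdB_down h h3
      by_cases h2 : StdA t
      · simp only [h1, h2, h3, h4, if_true, if_false]
        ring
      · simp only [h1, h2, h3, h4, if_true, if_false]
        linear_combination he
    · simp only [h1, h3, if_false]
      ring

/-- the ideal attached to an idempotent -/
noncomputable def Ie (e : R) : Ideal (MvPolynomial (Fin 3) R) :=
  Ideal.span (Set.range (fun s : Fin 3 →₀ ℕ => monomial s (1 - wt e s)))

theorem mem_Ie {e : R} (he : e * e = e) (x : MvPolynomial (Fin 3) R) :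
    x ∈ Ie e ↔ ∀ s, wt e s * coeff s x = 0 := by
  classical
  constructor
  · intro hx
    have : ∀ a, ∀ s, wt e s * coeff s (a * x) = 0 := by
      induction hx using Submodule.span_induction with
      | mem g hg =>
        obtain ⟨t, rfl⟩ := hg
        intro a s
        show wt e s * coeff s (a * monomial t (1 - wt e t)) = 0
        rw [coeff_mul_monomial']
        split_ifs with h
        · have := wt_mul he h
          linear_combination (-coeff (s - t) a) * this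
        · rw [mul_zero]
      | zero => intro a s; simp
      | add x y _ _ hx hy => intro a s; rw [mul_add, coeff_add, mul_add, hx, hy, add_zero]
      | smul b x _ hx => intro a s; rw [smul_eq_mul, ← mul_assoc]; exact hx _ s
    simpa using this 1
  · intro h
    rw [x.as_sum]
    apply sum_mem
    intro s _
    have h1 : monomial s (coeff s x) = C (coeff s x) * monomial s (1 - wt e s) := by
      rw [C_mul_monomial]
      congr 1
      linear_combination h s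
    rw [h1]
    exact Ideal.mul_mem_left _ _ (Ideal.subset_span ⟨s, rfl⟩)

theorem Ie_homog {e : R} (he : e * e = e) (f : MvPolynomial (Fin 3) R) (hf : f ∈ Ie e) (a : ℤ × ℤ) :
    weightedHomogeneousComponent dg2 a f ∈ Ie e := by
  classical
  rw [mem_Ie he] at hf ⊢
  intro s
  rw [coeff_weightedHomogeneousComponent]
  split_ifs
  · exact hf s
  · rw [mul_zero]

theorem map_Ie {B : Type u} [CommRing B] (φ : B →+* R) (e : B) :
    (Ie e).map (MvPolynomial.map φ) = Ie (φ e) := by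
  rw [Ie, Ideal.map_span, ← Set.range_comp, Ie]
  congr 2
  funext s
  simp only [Function.comp_apply, MvPolynomial.map_monomial, map_sub, map_one, wt, map_add]
  split_ifs <;> simp

theorem Ie_inj {e e' : R} (he : e * e = e) (he' : e' * e' = e') (h : Ie e = Ie e') : e = e' := by
  have key : ∀ a b : R, a * a = a → b * b = b → Ie a = Ie b → b * (1 - a) = 0 := by
    intro a b ha hb hab
    have h1 : monomial (mo 0 0 3) (1 - wt a (mo 0 0 3)) ∈ Ie b := by
      rw [← hab]; exact Ideal.subset_span ⟨_, rfl⟩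
    rw [mem_Ie hb] at h1
    have h2 := h1 (mo 0 0 3)
    have hA : StdA (mo 0 0 3) := by rw [stdA_mo]; omega
    have hB : ¬ StdB (mo 0 0 3) := by rw [stdB_mo]; omega
    rw [coeff_monomial, if_pos rfl] at h2
    simpa [wt, hA, hB] using h2
  have h1 := key e e' he he' h
  have h2 := key e' e he' he h.symm
  linear_combination h2 - h1

/-- coordinates -/
noncomputable def theta2 (e : R) (a : ℤ × ℤ) : weightedHomogeneousSubmodule R dg2 a →ₗ[R] (Idx2 a → R) where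
  toFun x := fun s => e * coeff s.1 x.1 + (1 - e) * coeff (pi2 a s).1 x.1
  map_add' x y := by ext s; simp; ring
  map_smul' c x := by ext s; simp; ring

theorem theta2_surj {e : R} (he : e * e = e) (a : ℤ × ℤ) : Function.Surjective (theta2 e a) := by
  classical
  intro g
  have := Fintype.ofFinite (Idx2 a)
  refine ⟨⟨∑ s : Idx2 a, (monomial s.1 (e * g s) + monomial (pi2 a s).1 ((1 - e) * g s)), ?_⟩, ?_⟩
  · apply Submodule.sum_mem
    intro s _
    exact add_mem (isWeightedHomogeneous_monomial _ _ _ s.2.2)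
      (isWeightedHomogeneous_monomial _ _ _ (pi2 a s).2.2)
  · ext s
    simp only [theta2, LinearMap.coe_mk, AddHom.coe_mk, coeff_sum, coeff_add, coeff_monomial,
      Finset.sum_add_distrib]
    have e1 : ∑ t : Idx2 a, (if t.1 = s.1 then e * g t else 0) = e * g s := by
      rw [Finset.sum_eq_single s]
      · rw [if_pos rfl]
      · intro t _ hts
        rw [if_neg]
        intro h; exact hts (Subtype.ext h)
      · simp
    have e2 : ∑ t : Idx2 a, (if (pi2 a t).1 = (pi2 a s).1 then (1 - e) * g t else 0) = (1 - e) * g s := by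
      rw [Finset.sum_eq_single s]
      · rw [if_pos rfl]
      · intro t _ hts
        rw [if_neg]
        intro h; exact hts ((pi2 a).injective (Subtype.ext h))
      · simp
    have e3 : e * ∑ t : Idx2 a, (if (pi2 a t).1 = s.1 then (1 - e) * g t else 0) = 0 := by
      rw [Finset.mul_sum]
      apply Finset.sum_eq_zero
      intro t _
      split_ifs
      · linear_combination (- g t) * he
      · rw [mul_zero]
    have e4 : (1 - e) * ∑ t : Idx2 a, (if t.1 = (pi2 a s).1 then e * g t else 0) = 0 := by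
      rw [Finset.mul_sum]
      apply Finset.sum_eq_zero
      intro t _
      split_ifs
      · linear_combination (- g t) * he
      · rw [mul_zero]
    rw [mul_add, mul_add, e1, e2, e3, e4]
    linear_combination (2 * g s) * he

theorem ker_theta2 {e : R} (he : e * e = e) (a : ℤ × ℤ) :
    LinearMap.ker (theta2 e a) =
      ((Ie e).restrictScalars R).comap (weightedHomogeneousSubmodule R dg2 a).subtype := by
  classical
  ext ⟨x, hx⟩
  simp only [LinearMap.mem_ker, Submodule.mem_comap, Submodule.subtype_apply,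
    Submodule.restrictScalars_mem, mem_Ie he]
  constructor
  · intro h m
    by_cases hw : Finsupp.weight dg2 m = a
    · have hA : (if StdA m then e else 0) * coeff m x = 0 := by
        split_ifs with hm
        · have := congrFun h ⟨m, hm, hw⟩
          simp only [theta2, LinearMap.coe_mk, AddHom.coe_mk, Pi.zero_apply] at this
          have h2 := congrArg (fun z => e * z) this
          simp only [mul_zero] at h2
          linear_combination h2 + (coeff ((pi2 a) ⟨m, hm, hw⟩).1 x - coeff m x) * he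
        · rw [zero_mul]
      have hB : (if StdB m then 1 - e else 0) * coeff m x = 0 := by
        split_ifs with hm
        · have := congrFun h ((pi2 a).symm ⟨m, hm, hw⟩)
          simp only [theta2, LinearMap.coe_mk, AddHom.coe_mk, Pi.zero_apply, Equiv.apply_symm_apply] at this
          have h2 := congrArg (fun z => (1 - e) * z) this
          simp only [mul_zero] at h2
          linear_combination h2 + (coeff ((pi2 a).symm ⟨m, hm, hw⟩).1 x - coeff m x) * he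
        · rw [zero_mul]
      rw [wt, add_mul, hA, hB, add_zero]
    · have h2 : coeff m x = 0 := by
        by_contra hne
        exact hw (hx hne)
      rw [h2, mul_zero]
  · intro h
    have key : ∀ m, StdA m → e * coeff m x = 0 := by
      intro m hm
      have h1 := congrArg (fun z => e * z) (h m)
      simp only [wt, hm, if_true, mul_zero] at h1
      split_ifs at h1
      · linear_combination h1
      · linear_combination h1 - coeff m x * he
    have key2 : ∀ m, StdB m → (1 - e) * coeff m x = 0 := by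
      intro m hm
      have h1 := congrArg (fun z => (1 - e) * z) (h m)
      simp only [wt, hm, if_true, mul_zero] at h1
      split_ifs at h1
      · linear_combination h1
      · linear_combination h1 - coeff m x * he
    ext s
    show e * coeff s.1 x + (1 - e) * coeff (pi2 a s).1 x = 0
    rw [key _ s.2.1, key2 _ (pi2 a s).2.1, add_zero]

theorem Ie_piece {e : R} (he : e * e = e) (a : ℤ × ℤ) : LFree R (Piece2 (Ie e) a) (hf2 a) := by
  have E := (theta2 e a).quotKerEquivOfSurjective (theta2_surj he a)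
  rw [ker_theta2 he a] at E
  exact LFree.of_equiv E.symm (lfree_pi (ι := Idx2 a))

end Pool.Agent.HD
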