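import Pool.Agent.Helpers.HD2

set_option autoImplicit false

open MvPolynomial

namespace Pool.Agent.HD

open Pool.Agent.FatPt

universe u

variable {R : Type u} [CommRing R]

/-- R-points of the Hilbert scheme -/
def IsPt2 (I : Ideal (MvPolynomial (Fin 3) R)) : Prop :=
  (∀ f ∈ I, ∀ a, weightedHomogeneousComponent dg2 a f ∈ I) ∧ ∀ a, LFree R (Piece2 I a) (hf2 a)

theorem isPt_Ie {e : R} (he : e * e = e) : IsPt2 (Ie e) :=
  ⟨fun f hf a => Ie_homog he f hf a, Ie_piece he⟩

theorem mem_of_hf2_zero {I : Ideal (MvPolynomial (Fin 3) R)} (hI : IsPt2 I) {a : ℤ × ℤ} (ha : hf2 a = 0)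
    (x : MvPolynomial (Fin 3) R) (hx : IsWeightedHomogeneous dg2 x a) : x ∈ I := by
  have h := hI.2 a
  rw [ha] at h
  have := h.subsingleton
  have h0 : (Submodule.Quotient.mk ⟨x, hx⟩ : Piece2 I a) = 0 := Subsingleton.elim _ _
  rw [Submodule.Quotient.mk_eq_zero] at h0
  exact h0

noncomputable def psi0 (a : ℤ × ℤ) (s t : Fin 3 →₀ ℕ)
    (hs : Finsupp.weight dg2 s = a) (ht : Finsupp.weight dg2 t = a) :
    R × R →ₗ[R] weightedHomogeneousSubmodule R dg2 a where
  toFun := fun x => ⟨monomial s x.1 + monomial t x.2,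
        add_mem (isWeightedHomogeneous_monomial _ _ _ hs) (isWeightedHomogeneous_monomial _ _ _ ht)⟩
  map_add' := by
        intro x y
        apply Subtype.ext
        simp only [Prod.fst_add, Prod.snd_add, map_add, Submodule.coe_add]
        ring
  map_smul' := by
        intro c x
        apply Subtype.ext
        show monomial s (c * x.1) + monomial t (c * x.2) = c • (monomial s x.1 + monomial t x.2)
        rw [smul_add, smul_monomial, smul_monomial, smul_eq_mul, smul_eq_mul]

/-- the map (B, L) ↦ B m1 + L m2 to the graded piece -/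
noncomputable def psi (I : Ideal (MvPolynomial (Fin 3) R)) (a : ℤ × ℤ) (s t : Fin 3 →₀ ℕ)
    (hs : Finsupp.weight dg2 s = a) (ht : Finsupp.weight dg2 t = a) : R × R →ₗ[R] Piece2 I a :=
  (Submodule.mkQ _).comp (psi0 a s t hs ht)

theorem psi_eq_zero {I : Ideal (MvPolynomial (Fin 3) R)} {a : ℤ × ℤ} {s t : Fin 3 →₀ ℕ}
    {hs : Finsupp.weight dg2 s = a} {ht : Finsupp.weight dg2 t = a} (x : R × R) :
    psi I a s t hs ht x = 0 ↔ monomial s x.1 + monomial t x.2 ∈ I := by
  rw [psi, LinearMap.comp_apply, Submodule.mkQ_apply, Submodule.Quotient.mk_eq_zero]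
  rfl

theorem psi_surj {I : Ideal (MvPolynomial (Fin 3) R)} {a : ℤ × ℤ} {s t : Fin 3 →₀ ℕ}
    {hs : Finsupp.weight dg2 s = a} {ht : Finsupp.weight dg2 t = a} (hst : s ≠ t)
    (hI : ∀ u : Fin 3 →₀ ℕ, Finsupp.weight dg2 u = a → u ≠ s → u ≠ t → ∀ c, monomial u c ∈ I) :
    Function.Surjective (psi I a s t hs ht) := by
  classical
  intro y
  obtain ⟨⟨x, hx⟩, rfl⟩ := Submodule.Quotient.mk_surjective _ y
  refine ⟨(coeff s x, coeff t x), ?_⟩
  rw [psi, LinearMap.comp_apply, Submodule.mkQ_apply, Submodule.Quotient.eq]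
  show (monomial s (coeff s x) + monomial t (coeff t x)) - x ∈ I
  have : (monomial s (coeff s x) + monomial t (coeff t x)) - x =
      - ∑ u ∈ (x.support.erase s).erase t, monomial u (coeff u x) := by
    have h1 : x = ∑ u ∈ x.support, monomial u (coeff u x) := x.as_sum
    have h2 : ∑ u ∈ x.support, monomial u (coeff u x) = monomial s (coeff s x) +
        ∑ u ∈ x.support.erase s, monomial u (coeff u x) := by
      by_cases h : s ∈ x.support
      · exact (Finset.add_sum_erase _ (fun u => monomial u (coeff u x)) h).symm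
      · rw [Finset.erase_eq_of_notMem h, notMem_support_iff.mp h, map_zero, zero_add]
    have h3 : ∑ u ∈ x.support.erase s, monomial u (coeff u x) = monomial t (coeff t x) +
        ∑ u ∈ (x.support.erase s).erase t, monomial u (coeff u x) := by
      by_cases h : t ∈ x.support
      · exact (Finset.add_sum_erase _ (fun u => monomial u (coeff u x))
          (Finset.mem_erase.2 ⟨hst.symm, h⟩)).symm
      · have h' : t ∉ x.support.erase s := fun h' => h (Finset.mem_of_mem_erase h')
        rw [Finset.erase_eq_of_notMem h', notMem_support_iff.mp h, map_zero, zero_add]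
    rw [h3] at h2
    rw [← h1] at h2
    nth_rewrite 3 [h2]
    ring
  rw [this]
  apply neg_mem
  apply sum_mem
  intro u hu
  rw [Finset.mem_erase, Finset.mem_erase, mem_support_iff] at hu
  exact hI u (hx hu.2.2) hu.2.1 hu.1 _

/-- multiples of a monomial in the ideal -/
theorem mul_mem_of {I : Ideal (MvPolynomial (Fin 3) R)} {p q r : ℕ} {b : R}
    (h : (monomial (mo p q r) b : MvPolynomial (Fin 3) R) ∈ I) (p' q' r' : ℕ) (c : R)
    (hp : p ≤ p') (hq : q ≤ q') (hr : r ≤ r') :
    (monomial (mo p' q' r') (c * b) : MvPolynomial (Fin 3) R) ∈ I := by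
  have : (monomial (mo p' q' r') (c * b) : MvPolynomial (Fin 3) R) =
      monomial (mo (p' - p) (q' - q) (r' - r)) c * monomial (mo p q r) b := by
    rw [monomial_mul, mo_add]
    congr 2
    rw [mo_inj]; omega
  rw [this]
  exact Ideal.mul_mem_left _ _ h

theorem zero_mono {I : Ideal (MvPolynomial (Fin 3) R)} (hI : IsPt2 I) (p q r : ℕ)
    (h : ∀ p' q' r' : ℕ, StdA (mo p' q' r') → 2 * p' + r' = 2 * p + r → 2 * q' + r' = 2 * q + r → False) :
    (monomial (mo p q r) 1 : MvPolynomial (Fin 3) R) ∈ I :=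
  mem_of_hf2_zero hI (a := (2 * (p : ℤ) + r, 2 * (q : ℤ) + r)) (hf2_eq_zero (by
      intro p' q' r' h1 h2
      rw [Prod.mk.injEq] at h2
      exact h p' q' r' h1 (by omega) (by omega))) _
      (isWeightedHomogeneous_monomial _ _ _ (by rw [wt_mo]))

theorem one_rank {I : Ideal (MvPolynomial (Fin 3) R)} (hI : IsPt2 I) (p q r : ℕ) (a : ℤ × ℤ)
    (ha : a = (2 * (p : ℤ) + r, 2 * (q : ℤ) + r)) (h0 : StdA (mo p q r))
    (h : ∀ p' q' r' : ℕ, StdA (mo p' q' r') → 2 * p' + r' = 2 * p + r → 2 * q' + r' = 2 * q + r →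
      p' = p ∧ q' = q ∧ r' = r) :
    LFree R (Piece2 I a) 1 := by
  have h1 := hI.2 a
  rw [hf2_eq_one (mo p q r) h0 (by rw [wt_mo, ha]) (by
    intro p' q' r' h2 h3
    rw [ha, Prod.mk.injEq] at h3
    rw [mo_inj]
    exact h p' q' r' h2 (by omega) (by omega))] at h1
  exact h1

end Pool.Agent.HD
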