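import Pool.Agent.Helpers.HD3

set_option autoImplicit false

open MvPolynomial

namespace Pool.Agent.HD

open Pool.Agent.FatPt

universe u

variable {R : Type u} [CommRing R]

theorem z1 {I : Ideal (MvPolynomial (Fin 3) R)} (hI : IsPt2 I) :
    (monomial (mo 0 2 1) 1 : MvPolynomial (Fin 3) R) ∈ I :=
  zero_mono hI 0 2 1 (by intro p' q' r' h h1 h2; rw [stdA_mo] at h; omega)

theorem z2 {I : Ideal (MvPolynomial (Fin 3) R)} (hI : IsPt2 I) :
    (monomial (mo 3 0 0) 1 : MvPolynomial (Fin 3) R) ∈ I :=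
  zero_mono hI 3 0 0 (by intro p' q' r' h h1 h2; rw [stdA_mo] at h; omega)

theorem z3 {I : Ideal (MvPolynomial (Fin 3) R)} (hI : IsPt2 I) :
    (monomial (mo 0 4 0) 1 : MvPolynomial (Fin 3) R) ∈ I :=
  zero_mono hI 0 4 0 (by intro p' q' r' h h1 h2; rw [stdA_mo] at h; omega)

theorem z4 {I : Ideal (MvPolynomial (Fin 3) R)} (hI : IsPt2 I) :
    (monomial (mo 2 0 2) 1 : MvPolynomial (Fin 3) R) ∈ I :=
  zero_mono hI 2 0 2 (by intro p' q' r' h h1 h2; rw [stdA_mo] at h; omega)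

theorem z5 {I : Ideal (MvPolynomial (Fin 3) R)} (hI : IsPt2 I) :
    (monomial (mo 0 0 5) 1 : MvPolynomial (Fin 3) R) ∈ I :=
  zero_mono hI 0 0 5 (by intro p' q' r' h h1 h2; rw [stdA_mo] at h; omega)

theorem z6 {I : Ideal (MvPolynomial (Fin 3) R)} (hI : IsPt2 I) :
    (monomial (mo 1 0 4) 1 : MvPolynomial (Fin 3) R) ∈ I :=
  zero_mono hI 1 0 4 (by intro p' q' r' h h1 h2; rw [stdA_mo] at h; omega)

theorem z7 {I : Ideal (MvPolynomial (Fin 3) R)} (hI : IsPt2 I) :
    (monomial (mo 2 3 0) 1 : MvPolynomial (Fin 3) R) ∈ I :=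
  zero_mono hI 2 3 0 (by intro p' q' r' h h1 h2; rw [stdA_mo] at h; omega)

theorem z8 {I : Ideal (MvPolynomial (Fin 3) R)} (hI : IsPt2 I) :
    (monomial (mo 0 1 2) 1 : MvPolynomial (Fin 3) R) ∈ I := by
  have w1 : Finsupp.weight dg2 (mo 0 1 2) = (2, 4) := by rw [wt_mo]; norm_num
  have w1' : Finsupp.weight dg2 (mo 1 2 0) = (2, 4) := by rw [wt_mo]; norm_num
  have w2 : Finsupp.weight dg2 (mo 0 2 2) = (2, 6) := by rw [wt_mo]; norm_num
  have w2' : Finsupp.weight dg2 (mo 1 3 0) = (2, 6) := by rw [wt_mo]; norm_num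
  have q1 : LFree R (Piece2 I (2, 4)) 1 := one_rank hI 1 2 0 _ (by norm_num)
    (by rw [stdA_mo]; omega) (by intro p' q' r' h h1 h2; rw [stdA_mo] at h; omega)
  have q2 : LFree R (Piece2 I (2, 6)) 1 := one_rank hI 1 3 0 _ (by norm_num)
    (by rw [stdA_mo]; omega) (by intro p' q' r' h h1 h2; rw [stdA_mo] at h; omega)
  have h22 : ∀ c, (monomial (mo 0 2 2) c : MvPolynomial (Fin 3) R) ∈ I := by
    intro c
    have := mul_mem_of (z1 hI) 0 2 2 c (by omega) (by omega) (by omega)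
    rwa [mul_one] at this
  have s1 : Function.Surjective (psi I (2, 4) (mo 0 1 2) (mo 1 2 0) w1 w1') :=
    psi_surj (by rw [Ne, mo_inj]; omega) (by
      intro u hu h1 h2 c
      obtain ⟨p, q, r, rfl⟩ := exists_mo u
      rw [wt_mo, Prod.mk.injEq] at hu
      rw [Ne, mo_inj] at h1 h2
      exfalso
      omega)
  have s2 : Function.Surjective (psi I (2, 6) (mo 0 2 2) (mo 1 3 0) w2 w2') :=
    psi_surj (by rw [Ne, mo_inj]; omega) (by
      intro u hu h1 h2 c
      obtain ⟨p, q, r, rfl⟩ := exists_mo u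
      rw [wt_mo, Prod.mk.injEq] at hu
      rw [Ne, mo_inj] at h1 h2
      exfalso
      omega)
  have h := ker_eq q1 q2 (psi I (2, 4) (mo 0 1 2) (mo 1 2 0) w1 w1')
    (psi I (2, 6) (mo 0 2 2) (mo 1 3 0) w2 w2') s1 s2 (by
      intro x hx
      rw [psi_eq_zero] at hx ⊢
      have := Ideal.mul_mem_left I (monomial (mo 0 1 0) 1) hx
      rw [mul_add, monomial_mul, monomial_mul, mo_add, mo_add, one_mul, one_mul] at this
      exact this) (1, 0) (by
      rw [psi_eq_zero, map_zero, add_zero]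
      exact h22 1)
  rw [psi_eq_zero, map_zero, add_zero] at h
  exact h

theorem mono_cover (p q r : ℕ) (h3 : ¬ 3 ≤ p) (h4 : ¬ 4 ≤ q) (h5 : ¬ (2 ≤ q ∧ 1 ≤ r))
    (h6 : ¬ (1 ≤ q ∧ 2 ≤ r)) (h7 : ¬ 5 ≤ r) (h8 : ¬ (2 ≤ p ∧ 2 ≤ r)) (h9 : ¬ (1 ≤ p ∧ 4 ≤ r))
    (h10 : ¬ (2 ≤ p ∧ 3 ≤ q)) : StdA (mo p q r) ∨ StdB (mo p q r) := by
  rw [stdA_mo, stdB_mo]
  have hp : p = 0 ∨ p = 1 ∨ p = 2 := by omega
  have hq : q = 0 ∨ q = 1 ∨ 2 ≤ q := by omega
  rcases hp with rfl | rfl | rfl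
  · rcases hq with rfl | rfl | hq
    · exact Or.inl (Or.inl ⟨rfl, Or.inl ⟨rfl, by omega⟩⟩)
    · exact Or.inl (Or.inl ⟨rfl, Or.inr (Or.inl ⟨rfl, by omega⟩)⟩)
    · exact Or.inl (Or.inl ⟨rfl, Or.inr (Or.inr ⟨hq, by omega, by omega⟩)⟩)
  · rcases hq with rfl | rfl | hq
    · exact Or.inl (Or.inr (Or.inl ⟨rfl, Or.inl ⟨rfl, by omega⟩⟩))
    · exact Or.inr (Or.inr (Or.inl ⟨rfl, Or.inl ⟨by omega, by omega⟩⟩))
    · exact Or.inl (Or.inr (Or.inl ⟨rfl, Or.inr ⟨by omega, by omega, by omega⟩⟩))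
  · rcases hq with rfl | rfl | hq
    · exact Or.inr (Or.inr (Or.inr ⟨rfl, Or.inl ⟨by omega, by omega⟩⟩))
    · exact Or.inr (Or.inr (Or.inr ⟨rfl, Or.inl ⟨by omega, by omega⟩⟩))
    · exact Or.inr (Or.inr (Or.inr ⟨rfl, Or.inr ⟨by omega, by omega⟩⟩))

theorem mono_mem {I : Ideal (MvPolynomial (Fin 3) R)} (hI : IsPt2 I) (p q r : ℕ) (c : R)
    (hA : ¬ StdA (mo p q r)) (hB : ¬ StdB (mo p q r)) :
    (monomial (mo p q r) c : MvPolynomial (Fin 3) R) ∈ I := by
  rw [← mul_one c]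
  by_cases h3 : 3 ≤ p
  · exact mul_mem_of (z2 hI) p q r c (by omega) (by omega) (by omega)
  by_cases h4 : 4 ≤ q
  · exact mul_mem_of (z3 hI) p q r c (by omega) (by omega) (by omega)
  by_cases h5 : 2 ≤ q ∧ 1 ≤ r
  · exact mul_mem_of (z1 hI) p q r c (by omega) (by omega) (by omega)
  by_cases h6 : 1 ≤ q ∧ 2 ≤ r
  · exact mul_mem_of (z8 hI) p q r c (by omega) (by omega) (by omega)
  by_cases h7 : 5 ≤ r
  · exact mul_mem_of (z5 hI) p q r c (by omega) (by omega) (by omega)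
  by_cases h8 : 2 ≤ p ∧ 2 ≤ r
  · exact mul_mem_of (z4 hI) p q r c (by omega) (by omega) (by omega)
  by_cases h9 : 1 ≤ p ∧ 4 ≤ r
  · exact mul_mem_of (z6 hI) p q r c (by omega) (by omega) (by omega)
  by_cases h10 : 2 ≤ p ∧ 3 ≤ q
  · exact mul_mem_of (z7 hI) p q r c (by omega) (by omega) (by omega)
  exact absurd (mono_cover p q r h3 h4 h5 h6 h7 h8 h9 h10) (not_or.2 ⟨hA, hB⟩)

theorem exists_e {I : Ideal (MvPolynomial (Fin 3) R)} (hI : IsPt2 I) :
    ∃ e : R, e * e = e ∧ (monomial (mo 0 0 3) (1 - e) : MvPolynomial (Fin 3) R) ∈ I ∧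
      (monomial (mo 1 1 1) e : MvPolynomial (Fin 3) R) ∈ I ∧
      (monomial (mo 1 0 2) (1 - e) : MvPolynomial (Fin 3) R) ∈ I ∧
      (monomial (mo 2 1 0) e : MvPolynomial (Fin 3) R) ∈ I := by
  have w1 : Finsupp.weight dg2 (mo 0 0 3) = (3, 3) := by rw [wt_mo]; norm_num
  have w1' : Finsupp.weight dg2 (mo 1 1 1) = (3, 3) := by rw [wt_mo]; norm_num
  have w2 : Finsupp.weight dg2 (mo 1 0 2) = (4, 2) := by rw [wt_mo]; norm_num
  have w2' : Finsupp.weight dg2 (mo 2 1 0) = (4, 2) := by rw [wt_mo]; norm_num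
  have w3 : Finsupp.weight dg2 (mo 1 0 3) = (5, 3) := by rw [wt_mo]; norm_num
  have w3' : Finsupp.weight dg2 (mo 2 1 1) = (5, 3) := by rw [wt_mo]; norm_num
  have w4 : Finsupp.weight dg2 (mo 0 0 4) = (4, 4) := by rw [wt_mo]; norm_num
  have w4' : Finsupp.weight dg2 (mo 2 2 0) = (4, 4) := by rw [wt_mo]; norm_num
  have q1 : LFree R (Piece2 I (3, 3)) 1 := one_rank hI 0 0 3 _ (by norm_num)
    (by rw [stdA_mo]; omega) (by intro p' q' r' h h1 h2; rw [stdA_mo] at h; omega)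
  have q2 : LFree R (Piece2 I (4, 2)) 1 := one_rank hI 1 0 2 _ (by norm_num)
    (by rw [stdA_mo]; omega) (by intro p' q' r' h h1 h2; rw [stdA_mo] at h; omega)
  have q3 : LFree R (Piece2 I (5, 3)) 1 := one_rank hI 1 0 3 _ (by norm_num)
    (by rw [stdA_mo]; omega) (by intro p' q' r' h h1 h2; rw [stdA_mo] at h; omega)
  have q4 : LFree R (Piece2 I (4, 4)) 1 := one_rank hI 0 0 4 _ (by norm_num)
    (by rw [stdA_mo]; omega) (by intro p' q' r' h h1 h2; rw [stdA_mo] at h; omega)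
  have h112 : ∀ c, (monomial (mo 1 1 2) c : MvPolynomial (Fin 3) R) ∈ I := by
    intro c
    have := mul_mem_of (z8 hI) 1 1 2 c (by omega) (by omega) (by omega)
    rwa [mul_one] at this
  have s1 : Function.Surjective (psi I (3, 3) (mo 0 0 3) (mo 1 1 1) w1 w1') :=
    psi_surj (by rw [Ne, mo_inj]; omega) (by
      intro u hu h1 h2 c
      obtain ⟨p, q, r, rfl⟩ := exists_mo u
      rw [wt_mo, Prod.mk.injEq] at hu
      rw [Ne, mo_inj] at h1 h2
      exfalso
      omega)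
  have s2 : Function.Surjective (psi I (4, 2) (mo 1 0 2) (mo 2 1 0) w2 w2') :=
    psi_surj (by rw [Ne, mo_inj]; omega) (by
      intro u hu h1 h2 c
      obtain ⟨p, q, r, rfl⟩ := exists_mo u
      rw [wt_mo, Prod.mk.injEq] at hu
      rw [Ne, mo_inj] at h1 h2
      exfalso
      omega)
  have s3 : Function.Surjective (psi I (5, 3) (mo 1 0 3) (mo 2 1 1) w3 w3') :=
    psi_surj (by rw [Ne, mo_inj]; omega) (by
      intro u hu h1 h2 c
      obtain ⟨p, q, r, rfl⟩ := exists_mo u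
      rw [wt_mo, Prod.mk.injEq] at hu
      rw [Ne, mo_inj] at h1 h2
      exfalso
      omega)
  have s4 : Function.Surjective (psi I (4, 4) (mo 0 0 4) (mo 2 2 0) w4 w4') :=
    psi_surj (by rw [Ne, mo_inj]; omega) (by
      intro u hu h1 h2 c
      obtain ⟨p, q, r, rfl⟩ := exists_mo u
      rw [wt_mo, Prod.mk.injEq] at hu
      rw [Ne, mo_inj] at h1 h2
      obtain ⟨rfl, rfl, rfl⟩ : p = 1 ∧ q = 1 ∧ r = 2 := by omega
      exact h112 c)
  obtain ⟨e, he, e1, e2, e3, e4⟩ := main_LA2 q1 q2 q3 q4 _ _ _ _ s1 s2 s3 s4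
    (by
      intro x hx
      rw [psi_eq_zero] at hx ⊢
      have := Ideal.mul_mem_left I (monomial (mo 1 0 0) 1) hx
      rw [mul_add, monomial_mul, monomial_mul, mo_add, mo_add, one_mul, one_mul] at this
      exact this)
    (by
      intro x hx
      rw [psi_eq_zero] at hx ⊢
      have := Ideal.mul_mem_left I (monomial (mo 0 0 1) 1) hx
      rw [mul_add, monomial_mul, monomial_mul, mo_add, mo_add, one_mul, one_mul] at this
      exact this)
    (by
      intro x hx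
      rw [psi_eq_zero] at hx ⊢
      have := Ideal.mul_mem_left I (monomial (mo 0 0 1) 1) hx
      rw [mul_add, monomial_mul, monomial_mul, mo_add, mo_add, one_mul, one_mul] at this
      have h2 := sub_mem this (h112 x.2)
      rw [map_zero, add_zero]
      convert h2 using 1
      simp)
    (by
      intro x hx
      rw [psi_eq_zero] at hx ⊢
      have := Ideal.mul_mem_left I (monomial (mo 0 1 0) 1) hx
      rw [mul_add, monomial_mul, monomial_mul, mo_add, mo_add, one_mul, one_mul] at this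
      have h2 := sub_mem this (h112 x.1)
      rw [map_zero, zero_add]
      convert h2 using 1
      simp)
  rw [psi_eq_zero] at e1 e2 e3 e4
  simp only [map_zero, add_zero, zero_add] at e1 e2 e3 e4
  exact ⟨e, he, e1, e2, e3, e4⟩

theorem eq_Ie {I : Ideal (MvPolynomial (Fin 3) R)} (hI : IsPt2 I) : ∃ e : R, e * e = e ∧ I = Ie e := by
  obtain ⟨e, he, e1, e2, e3, e4⟩ := exists_e hI
  have hle : Ie e ≤ I := by
    rw [Ie, Ideal.span_le]
    rintro _ ⟨s, rfl⟩
    obtain ⟨p, q, r, rfl⟩ := exists_mo s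
    show monomial (mo p q r) (1 - wt e (mo p q r)) ∈ I
    by_cases hA : StdA (mo p q r)
    · by_cases hB : StdB (mo p q r)
      · have : 1 - wt e (mo p q r) = 0 := by
          simp [wt, hA, hB]
        rw [this, map_zero]
        exact zero_mem _
      · have : 1 - wt e (mo p q r) = 1 * (1 - e) := by
          simp [wt, hA, hB]
        rw [this]
        rw [stdA_mo] at hA
        rw [stdB_mo] at hB
        by_cases h3 : 3 ≤ r
        · exact mul_mem_of e1 p q r 1 (by omega) (by omega) (by omega)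
        · exact mul_mem_of e3 p q r 1 (by omega) (by omega) (by omega)
    · by_cases hB : StdB (mo p q r)
      · have : 1 - wt e (mo p q r) = 1 * e := by
          simp [wt, hA, hB]
        rw [this]
        rw [stdA_mo] at hA
        rw [stdB_mo] at hB
        by_cases h3 : 2 ≤ p
        · exact mul_mem_of e4 p q r 1 (by omega) (by omega) (by omega)
        · exact mul_mem_of e2 p q r 1 (by omega) (by omega) (by omega)
      · exact mono_mem hI p q r _ hA hB
  refine ⟨e, he, le_antisymm ?_ hle⟩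
  have hpiece : ∀ a, ∀ x, IsWeightedHomogeneous dg2 x a → x ∈ I → x ∈ Ie e := by
    intro a x hx hxI
    have hle' : ((Ie e).restrictScalars R).comap (weightedHomogeneousSubmodule R dg2 a).subtype ≤
        (I.restrictScalars R).comap (weightedHomogeneousSubmodule R dg2 a).subtype :=
      fun y hy => hle hy
    let f : Piece2 (Ie e) a →ₗ[R] Piece2 I a := Submodule.factor hle'
    have hfs : Function.Surjective f := Submodule.factor_surjective hle'
    have hin := LFree.injective (Ie_piece he a) (hI.2 a) f hfs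
    have h0 : f (Submodule.Quotient.mk ⟨x, hx⟩) = 0 := by
      show Submodule.Quotient.mk _ = _
      rw [Submodule.Quotient.mk_eq_zero]
      exact hxI
    have h1 := hin (h0.trans (map_zero f).symm)
    rw [Submodule.Quotient.mk_eq_zero] at h1
    exact h1
  intro x hx
  classical
  rw [← sum_weightedHomogeneousComponent dg2 x, finsum_eq_sum _ (weightedHomogeneousComponent_finsupp x)]
  apply sum_mem
  intro a _
  exact hpiece a _ (weightedHomogeneousComponent_isWeightedHomogeneous _ _) (hI.1 x hx a)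

end Pool.Agent.HD
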