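import Pool.Agent.Helpers.HD4

set_option autoImplicit false

open MvPolynomial

namespace Pool.Agent.HD

open Pool.Agent.FatPt

universe u

/-- the algebra map attached to an idempotent -/
noncomputable def homOf {k R : Type u} [Field k] [CommRing R] [Algebra k R] (e : R) (he : e * e = e) :
    (k × k) →ₐ[k] R :=
  AlgHom.ofLinearMap
    { toFun := fun x => algebraMap k R x.1 * e + algebraMap k R x.2 * (1 - e)
      map_add' := by
        intro x y
        simp only [Prod.fst_add, Prod.snd_add, map_add]
        ring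
      map_smul' := by
        intro c x
        simp only [Prod.smul_fst, Prod.smul_snd, smul_eq_mul, map_mul, RingHom.id_apply]
        rw [Algebra.smul_def]
        ring }
    (by simp)
    (by
      intro x y
      simp only [Prod.fst_mul, Prod.snd_mul, map_mul, LinearMap.coe_mk, AddHom.coe_mk]
      linear_combination (algebraMap k R x.1 * algebraMap k R y.2 + algebraMap k R x.2 * algebraMap k R y.1 -
        algebraMap k R x.1 * algebraMap k R y.1 - algebraMap k R x.2 * algebraMap k R y.2) * he)

theorem homOf_apply {k R : Type u} [Field k] [CommRing R] [Algebra k R] (e : R) (he : e * e = e)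
    (x : k × k) : homOf e he x = algebraMap k R x.1 * e + algebraMap k R x.2 * (1 - e) := rfl

theorem hom_ext2 {k R : Type u} [Field k] [CommRing R] [Algebra k R] (φ ψ : (k × k) →ₐ[k] R)
    (h : φ (1, 0) = ψ (1, 0)) : φ = ψ := by
  have h2 : φ (0, 1) = ψ (0, 1) := by
    have : ((0, 1) : k × k) = 1 - (1, 0) := by ext <;> simp
    rw [this, map_sub, map_sub, map_one, map_one, h]
  ext x
  have : x = x.1 • (1, 0) + x.2 • ((0, 1) : k × k) := by ext <;> simp
  rw [this, map_add, map_add, map_smul, map_smul, map_smul, map_smul, h, h2]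

theorem idem10 (k : Type u) [Field k] : ((1, 0) : k × k) * (1, 0) = (1, 0) := by
  ext <;> simp

theorem main (k : Type u) [Field k] :
    IsPt2 (Ie ((1, 0) : k × k)) ∧
    ∀ (R : Type u) [CommRing R] [Algebra k R],
      (∀ φ : (k × k) →ₐ[k] R, IsPt2 ((Ie ((1, 0) : k × k)).map
        (MvPolynomial.map (φ : (k × k) →+* R)))) ∧
      ∀ I : Ideal (MvPolynomial (Fin 3) R), IsPt2 I → ∃! φ : (k × k) →ₐ[k] R,
        (Ie ((1, 0) : k × k)).map (MvPolynomial.map (φ : (k × k) →+* R)) = I := by
  refine ⟨isPt_Ie (idem10 k), ?_⟩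
  intro R _ _
  have hid : ∀ φ : (k × k) →ₐ[k] R, φ (1, 0) * φ (1, 0) = φ (1, 0) := by
    intro φ
    rw [← map_mul, idem10]
  constructor
  · intro φ
    rw [map_Ie]
    exact isPt_Ie (hid φ)
  · intro I hI
    obtain ⟨e, he, rfl⟩ := eq_Ie hI
    refine ⟨homOf e he, ?_, ?_⟩
    · show (Ie ((1, 0) : k × k)).map _ = _
      rw [map_Ie]
      congr 1
      show homOf e he (1, 0) = e
      rw [homOf_apply]
      simp
    · intro φ hφ
      have hφ' : (Ie ((1, 0) : k × k)).map (MvPolynomial.map (φ : (k × k) →+* R)) = Ie e := hφ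
      rw [map_Ie] at hφ'
      apply hom_ext2
      rw [homOf_apply]
      have := Ie_inj (hid φ) he hφ'
      rw [this]
      simp

theorem spec_nonempty (k : Type u) [Field k] : Nonempty (PrimeSpectrum (k × k)) := inferInstance

theorem spec_not_connected (k : Type u) [Field k] : ¬ ConnectedSpace (PrimeSpectrum (k × k)) := by
  intro h
  have hc : IsClopen (PrimeSpectrum.basicOpen ((1, 0) : k × k) : Set (PrimeSpectrum (k × k))) := by
    apply PrimeSpectrum.isClopen_iff.2
    exact ⟨(1, 0), idem10 k, rfl⟩
  rcases isClopen_iff.1 hc with h1 | h1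
  · let p : PrimeSpectrum (k × k) := ⟨Ideal.comap (RingHom.fst k k) ⊥, inferInstance⟩
    have : p ∈ (PrimeSpectrum.basicOpen ((1, 0) : k × k) : Set (PrimeSpectrum (k × k))) := by
      show (1, 0) ∉ Ideal.comap (RingHom.fst k k) ⊥
      simp
    rw [h1] at this
    exact this
  · let p : PrimeSpectrum (k × k) := ⟨Ideal.comap (RingHom.snd k k) ⊥, inferInstance⟩
    have : p ∈ (PrimeSpectrum.basicOpen ((1, 0) : k × k) : Set (PrimeSpectrum (k × k))) := by
      rw [h1]; trivial
    apply (show (1, 0) ∉ Ideal.comap (RingHom.snd k k) ⊥ from this)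
    simp

end Pool.Agent.HD
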