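import Mathlib

set_option autoImplicit false

namespace Pool.Agent.Hf

open Filter Topology Set

variable {ι : Type} (a : ι → ℂ)

/-- canonical product of genus zero in `z ^ 2` -/
noncomputable def cp (z : ℂ) : ℂ := ∏' i, (1 + -(z ^ 2 / a i))

variable {a}

lemma norm_term (z : ℂ) (i : ι) : ‖-(z ^ 2 / a i)‖ = ‖z‖ ^ 2 * ‖a i‖⁻¹ := by
  rw [norm_neg, norm_div, norm_pow, div_eq_mul_inv]

lemma summable_term (hs : Summable fun i => ‖a i‖⁻¹) (z : ℂ) :
    Summable fun i => ‖-(z ^ 2 / a i)‖ := by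
  simp_rw [norm_term]
  exact hs.mul_left _

lemma cp_hasProd (hs : Summable fun i => ‖a i‖⁻¹) (z : ℂ) :
    HasProd (fun i => 1 + -(z ^ 2 / a i)) (cp a z) :=
  (multipliable_one_add_of_summable (summable_term hs z)).hasProd

lemma cp_tendsto (hs : Summable fun i => ‖a i‖⁻¹) (z : ℂ) :
    Tendsto (fun T : Finset ι => ∏ i ∈ T, (1 + -(z ^ 2 / a i))) atTop (𝓝 (cp a z)) :=
  cp_hasProd hs z

lemma cp_differentiable (hs : Summable fun i => ‖a i‖⁻¹) : Differentiable ℂ (cp a) := by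
  intro z
  have hu : Summable fun i => (‖z‖ + 1) ^ 2 * ‖a i‖⁻¹ := hs.mul_left _
  have h1 := Summable.hasProdLocallyUniformlyOn_one_add (f := fun i (w : ℂ) => -(w ^ 2 / a i))
    (K := Metric.ball (0 : ℂ) (‖z‖ + 1)) Metric.isOpen_ball hu (by
      refine Eventually.of_forall (fun i w hw => ?_)
      rw [norm_term]
      rw [mem_ball_zero_iff] at hw
      apply mul_le_mul_of_nonneg_right _ (by positivity)
      exact pow_le_pow_left₀ (norm_nonneg _) hw.le 2) (by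
      intro i
      apply Continuous.continuousOn
      fun_prop)
  have h2 := (hasProdLocallyUniformlyOn_iff_tendstoLocallyUniformlyOn.mp h1).differentiableOn
    (Eventually.of_forall (fun T => by
      have : Differentiable ℂ (fun w : ℂ => ∏ i ∈ T, (1 + -(w ^ 2 / a i))) := by fun_prop
      exact this.differentiableOn)) Metric.isOpen_ball
  have h3 : z ∈ Metric.ball (0 : ℂ) (‖z‖ + 1) := by
    rw [mem_ball_zero_iff]
    linarith
  exact (h2 z h3).differentiableAt (Metric.isOpen_ball.mem_nhds h3)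

lemma cp_ne_zero (hs : Summable fun i => ‖a i‖⁻¹) (ha : ∀ i, a i ≠ 0) {z : ℂ}
    (hz : ∀ i, z ^ 2 ≠ a i) : cp a z ≠ 0 := by
  apply tprod_one_add_ne_zero_of_summable _ (summable_term hs z)
  intro i h
  apply hz i
  have h1 : z ^ 2 / a i = 1 := by
    have : 1 + -(z ^ 2 / a i) = 0 := h
    linear_combination -this
  rwa [div_eq_one_iff_eq (ha i)] at h1

lemma cp_even (z : ℂ) : cp a (-z) = cp a z := by
  unfold cp
  simp only [even_two, Even.neg_pow]

lemma cp_real (hs : Summable fun i => ‖a i‖⁻¹) (e : ι ≃ ι)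
    (he : ∀ i, a (e i) = (starRingEnd ℂ) (a i)) (x : ℝ) : (cp a x).im = 0 := by
  have h1 : (starRingEnd ℂ) (cp a x) = cp a x := by
    have h2 : HasProd (fun i => (starRingEnd ℂ) (1 + -((x : ℂ) ^ 2 / a i)))
        ((starRingEnd ℂ) (cp a x)) :=
      (cp_hasProd hs (x : ℂ)).map (starRingEnd ℂ) Complex.continuous_conj
    have h3 : (fun i => (starRingEnd ℂ) (1 + -((x : ℂ) ^ 2 / a i))) =
        (fun i => 1 + -((x : ℂ) ^ 2 / a i)) ∘ e := by
      funext i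
      simp [he]
    rw [h3] at h2
    have h4 := e.hasProd_iff.mp h2
    exact h4.unique (cp_hasProd hs (x : ℂ))
  exact Complex.conj_eq_iff_im.mp h1

/-- lower bound on the imaginary axis -/
lemma cp_lower (hs : Summable fun i => ‖a i‖⁻¹) (hre : ∀ i, 0 ≤ (a i).re) (r : ℝ)
    (S : Finset ι) : ∏ i ∈ S, ‖1 + (r : ℂ) ^ 2 / a i‖ ≤ ‖cp a (Complex.I * r)‖ := by
  classical
  have h1 := (cp_tendsto hs (Complex.I * r)).norm
  have hre' : ∀ i, 0 ≤ ((r : ℂ) ^ 2 / a i).re := by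
    intro i
    have e : (r : ℂ) ^ 2 / a i = ((r ^ 2 : ℝ) : ℂ) * (a i)⁻¹ := by
      push_cast
      rw [div_eq_mul_inv]
    rw [e, Complex.re_ofReal_mul, Complex.inv_re]
    have := hre i
    have := Complex.normSq_nonneg (a i)
    positivity
  have h0 : ∀ i, 1 ≤ ‖1 + (r : ℂ) ^ 2 / a i‖ := by
    intro i
    calc (1 : ℝ) ≤ (1 + (r : ℂ) ^ 2 / a i).re := by
          rw [Complex.add_re, Complex.one_re]
          linarith [hre' i]
      _ ≤ |(1 + (r : ℂ) ^ 2 / a i).re| := le_abs_self _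
      _ ≤ _ := Complex.abs_re_le_norm _
  apply ge_of_tendsto h1
  filter_upwards [eventually_ge_atTop S] with T hT
  have e : ∀ i, (1 : ℂ) + -((Complex.I * r) ^ 2 / a i) = 1 + (r : ℂ) ^ 2 / a i := by
    intro i
    rw [mul_pow, Complex.I_sq]
    ring
  simp_rw [e]
  rw [norm_prod]
  rw [← Finset.prod_sdiff hT]
  have h3 : 1 ≤ ∏ i ∈ T \ S, ‖1 + (r : ℂ) ^ 2 / a i‖ :=
    Finset.prod_induction _ (fun x => 1 ≤ x) (fun a b ha hb => one_le_mul_of_one_le_of_one_le ha hb)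
      le_rfl (fun i _ => h0 i)
  have h4 : 0 ≤ ∏ i ∈ S, ‖1 + (r : ℂ) ^ 2 / a i‖ := Finset.prod_nonneg (fun i _ => norm_nonneg _)
  exact le_mul_of_one_le_left h4 h3

lemma log_bound {t s : ℝ} (ht : 0 ≤ t) (hs : 1 / 2 < s) (hs1 : s ≤ 1) :
    Real.log (1 + t) ≤ 2 * t ^ s := by
  have hs0 : 0 < s := by linarith
  have h1 : (1 + t) ^ s ≤ 1 + t ^ s := by
    have := Real.rpow_add_le_add_rpow (show (0 : ℝ) ≤ 1 by norm_num) ht hs0.le hs1
    rwa [Real.one_rpow] at this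
  have hpos : 0 < 1 + t := by linarith
  have h2 : s * Real.log (1 + t) ≤ t ^ s := by
    rw [← Real.log_rpow hpos]
    have h3 : 0 < (1 + t) ^ s := Real.rpow_pos_of_pos hpos s
    have h4 := Real.log_le_log h3 h1
    have h5 : 0 ≤ t ^ s := Real.rpow_nonneg ht s
    have h6 := Real.log_le_sub_one_of_pos (show 0 < 1 + t ^ s by linarith)
    linarith
  have h3 : 0 ≤ Real.log (1 + t) := Real.log_nonneg (by linarith)
  nlinarith

/-- upper bound for the growth -/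
lemma cp_upper (hs : Summable fun i => ‖a i‖⁻¹) (ha : ∀ i, a i ≠ 0) {s : ℝ} (hs0 : 1 / 2 < s)
    (hs1 : s ≤ 1) (hsum : Summable fun i => ‖a i‖ ^ (-s)) (z : ℂ) :
    ‖cp a z‖ ≤ Real.exp (2 * ‖z‖ ^ (2 * s) * ∑' i, ‖a i‖ ^ (-s)) := by
  have h1 := (cp_tendsto hs z).norm
  apply le_of_tendsto h1
  refine Eventually.of_forall (fun T => ?_)
  rw [norm_prod]
  have h2 : ∀ i, ‖1 + -(z ^ 2 / a i)‖ ≤ Real.exp (2 * ‖z‖ ^ (2 * s) * ‖a i‖ ^ (-s)) := by
    intro i
    have hai : 0 < ‖a i‖ := norm_pos_iff.mpr (ha i)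
    have ht : 0 ≤ ‖z‖ ^ 2 * ‖a i‖⁻¹ := by positivity
    have h3 := log_bound ht hs0 hs1
    have h4 : (‖z‖ ^ 2 * ‖a i‖⁻¹) ^ s = ‖z‖ ^ (2 * s) * ‖a i‖ ^ (-s) := by
      rw [Real.mul_rpow (by positivity) (by positivity), Real.inv_rpow (norm_nonneg _),
        Real.rpow_neg (norm_nonneg _), Real.rpow_mul (norm_nonneg _)]
      norm_num
    rw [h4] at h3
    calc ‖1 + -(z ^ 2 / a i)‖ ≤ 1 + ‖z‖ ^ 2 * ‖a i‖⁻¹ := by
          refine (norm_add_le _ _).trans ?_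
          rw [norm_one, norm_term]
      _ = Real.exp (Real.log (1 + ‖z‖ ^ 2 * ‖a i‖⁻¹)) := by
          rw [Real.exp_log (by linarith)]
      _ ≤ _ := Real.exp_le_exp.mpr (by linarith)
  calc ∏ i ∈ T, ‖1 + -(z ^ 2 / a i)‖ ≤
      ∏ i ∈ T, Real.exp (2 * ‖z‖ ^ (2 * s) * ‖a i‖ ^ (-s)) :=
        Finset.prod_le_prod (fun i _ => norm_nonneg _) (fun i _ => h2 i)
    _ = Real.exp (∑ i ∈ T, 2 * ‖z‖ ^ (2 * s) * ‖a i‖ ^ (-s)) := (Real.exp_sum _ _).symm
    _ ≤ _ := by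
        apply Real.exp_le_exp.mpr
        rw [← Finset.mul_sum]
        apply mul_le_mul_of_nonneg_left _ (by positivity)
        exact hsum.sum_le_tsum T (fun i _ => by positivity)

end Pool.Agent.Hf
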