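import Mathlib
import Pool.Agent.Helpers.HfProd

set_option autoImplicit false

namespace Pool.Agent.Hf

open Filter Topology Set

variable {ι : Type} {a : ι → ℂ}

lemma local_bound (hs : Summable fun i => ‖a i‖⁻¹) (ha : ∀ i, a i ≠ 0) (G : ℝ) (hG : 1 ≤ G)
    (i1 i2 : ι) (h12 : i1 ≠ i2) (h1 : a i1 = ((G : ℂ) + 2 * Complex.I) ^ 2)
    (h2 : a i2 = ((G : ℂ) - 2 * Complex.I) ^ 2)
    (hne : ∀ i, i ≠ i1 → i ≠ i2 → a i ≠ (G : ℂ) ^ 2) (c : ι → ℝ)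
    (hc : ∀ i, i ≠ i1 → i ≠ i2 → ‖a i - (G : ℂ) ^ 2‖⁻¹ ≤ c i) (hc0 : ∀ i, 0 ≤ c i)
    (hcs : Summable c) (w : ℂ) :
    ‖4 * cp a (G + w) - (w ^ 2 + 4) * (((2 * G + w) ^ 2 + 4) / (4 * (G : ℂ) ^ 2 + 4)) * cp a G‖ ≤
      ‖cp a G‖ * ‖(w ^ 2 + 4) * (((2 * G + w) ^ 2 + 4) / (4 * (G : ℂ) ^ 2 + 4))‖ *
        (Real.exp (‖2 * (G : ℂ) * w + w ^ 2‖ * ∑' i, c i) - 1) := by
  classical
  set Q : ℂ := (w ^ 2 + 4) * (((2 * G + w) ^ 2 + 4) / (4 * (G : ℂ) ^ 2 + 4)) with hQ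
  set u : ℂ := 2 * (G : ℂ) * w + w ^ 2 with hu
  have t1 := cp_tendsto hs ((G : ℂ) + w)
  have t2 := cp_tendsto hs (G : ℂ)
  have t3 : Tendsto (fun T : Finset ι => ‖4 * ∏ i ∈ T, (1 + -(((G : ℂ) + w) ^ 2 / a i)) -
      Q * ∏ i ∈ T, (1 + -((G : ℂ) ^ 2 / a i))‖) atTop (𝓝 ‖4 * cp a (G + w) - Q * cp a G‖) :=
    ((t1.const_mul 4).sub (t2.const_mul Q)).norm
  have t4 : Tendsto (fun T : Finset ι => ‖∏ i ∈ T, (1 + -((G : ℂ) ^ 2 / a i))‖ * ‖Q‖ *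
      (Real.exp (‖u‖ * ∑' i, c i) - 1)) atTop
      (𝓝 (‖cp a G‖ * ‖Q‖ * (Real.exp (‖u‖ * ∑' i, c i) - 1))) :=
    (t2.norm.mul_const _).mul_const _
  apply le_of_tendsto_of_tendsto t3 t4
  filter_upwards [eventually_ge_atTop ({i1, i2} : Finset ι)] with T hT
  have hnG : (4 * (G : ℂ) ^ 2 + 4) ≠ 0 := by
    have : (4 * (G : ℂ) ^ 2 + 4) = ((4 * G ^ 2 + 4 : ℝ) : ℂ) := by push_cast; ring
    rw [this]
    norm_cast
    positivity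
  -- split
  have hsplit : ∀ z : ℂ, ∏ i ∈ T, (1 + -(z ^ 2 / a i)) =
      (∏ i ∈ T \ {i1, i2}, (1 + -(z ^ 2 / a i))) *
        ((1 + -(z ^ 2 / a i1)) * (1 + -(z ^ 2 / a i2))) := by
    intro z
    rw [← Finset.prod_sdiff hT, Finset.prod_pair h12]
  have hrest : ∏ i ∈ T \ {i1, i2}, (1 + -(((G : ℂ) + w) ^ 2 / a i)) =
      (∏ i ∈ T \ {i1, i2}, (1 + -((G : ℂ) ^ 2 / a i))) *
        ∏ i ∈ T \ {i1, i2}, (1 + -(u / (a i - (G : ℂ) ^ 2))) := by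
    rw [← Finset.prod_mul_distrib]
    apply Finset.prod_congr rfl
    intro i hi
    rw [Finset.mem_sdiff, Finset.mem_insert, Finset.mem_singleton, not_or] at hi
    have hai := ha i
    have hd : a i - (G : ℂ) ^ 2 ≠ 0 := sub_ne_zero.mpr (hne i hi.2.1 hi.2.2)
    rw [hu]
    field_simp
    ring
  have hpair : 4 * ((1 + -(((G : ℂ) + w) ^ 2 / a i1)) * (1 + -(((G : ℂ) + w) ^ 2 / a i2))) =
      Q * ((1 + -((G : ℂ) ^ 2 / a i1)) * (1 + -((G : ℂ) ^ 2 / a i2))) := by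
    have e1 := ha i1
    have e2 := ha i2
    rw [h1] at e1 ⊢
    rw [h2] at e2 ⊢
    have hI := Complex.I_sq
    have k1 : ((G : ℂ) + 2 * Complex.I) ≠ 0 := fun h => e1 (by rw [h]; ring)
    have k2 : ((G : ℂ) - 2 * Complex.I) ≠ 0 := fun h => e2 (by rw [h]; ring)
    have p1 : ∀ z : ℂ, (1 + -(z ^ 2 / ((G : ℂ) + 2 * Complex.I) ^ 2)) *
        (1 + -(z ^ 2 / ((G : ℂ) - 2 * Complex.I) ^ 2)) =
        (((z - G) ^ 2 + 4) * ((z + G) ^ 2 + 4)) /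
          (((G : ℂ) + 2 * Complex.I) ^ 2 * ((G : ℂ) - 2 * Complex.I) ^ 2) := by
      intro z
      rw [eq_div_iff (mul_ne_zero e1 e2)]
      have q1 : (1 + -(z ^ 2 / ((G : ℂ) + 2 * Complex.I) ^ 2)) * ((G : ℂ) + 2 * Complex.I) ^ 2 =
          ((G : ℂ) + 2 * Complex.I) ^ 2 - z ^ 2 := by
        field_simp
        ring
      have q2 : (1 + -(z ^ 2 / ((G : ℂ) - 2 * Complex.I) ^ 2)) * ((G : ℂ) - 2 * Complex.I) ^ 2 =
          ((G : ℂ) - 2 * Complex.I) ^ 2 - z ^ 2 := by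
        field_simp
        ring
      calc (1 + -(z ^ 2 / ((G : ℂ) + 2 * Complex.I) ^ 2)) *
            (1 + -(z ^ 2 / ((G : ℂ) - 2 * Complex.I) ^ 2)) *
            (((G : ℂ) + 2 * Complex.I) ^ 2 * ((G : ℂ) - 2 * Complex.I) ^ 2) =
            ((1 + -(z ^ 2 / ((G : ℂ) + 2 * Complex.I) ^ 2)) * ((G : ℂ) + 2 * Complex.I) ^ 2) *
            ((1 + -(z ^ 2 / ((G : ℂ) - 2 * Complex.I) ^ 2)) * ((G : ℂ) - 2 * Complex.I) ^ 2) := by
              ring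
        _ = (((G : ℂ) + 2 * Complex.I) ^ 2 - z ^ 2) * (((G : ℂ) - 2 * Complex.I) ^ 2 - z ^ 2) := by
              rw [q1, q2]
        _ = ((z - G) ^ 2 + 4) * ((z + G) ^ 2 + 4) := by
              have hI4 : Complex.I ^ 4 = 1 := by
                rw [show (4 : ℕ) = 2 * 2 from rfl, pow_mul, hI]; norm_num
              ring_nf
              rw [hI4, hI]
              ring
    have hnG2 : ((G : ℂ) ^ 2 + 1) ≠ 0 := by
      intro h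
      apply hnG
      linear_combination 4 * h
    have hnG3 : (1 + (G : ℂ) ^ 2) ≠ 0 := by
      intro h
      apply hnG
      linear_combination 4 * h
    rw [p1, p1, hQ]
    field_simp
    ring
  have hnum : 4 * ∏ i ∈ T, (1 + -(((G : ℂ) + w) ^ 2 / a i)) -
      Q * ∏ i ∈ T, (1 + -((G : ℂ) ^ 2 / a i)) =
      Q * (∏ i ∈ T, (1 + -((G : ℂ) ^ 2 / a i))) *
        (∏ i ∈ T \ {i1, i2}, (1 + -(u / (a i - (G : ℂ) ^ 2))) - 1) := by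
    rw [hsplit, hsplit, hrest]
    linear_combination ((∏ i ∈ T \ {i1, i2}, (1 + -((G : ℂ) ^ 2 / a i))) *
        ∏ i ∈ T \ {i1, i2}, (1 + -(u / (a i - (G : ℂ) ^ 2)))) * hpair
  rw [hnum, norm_mul, norm_mul, mul_comm ‖Q‖]
  apply mul_le_mul_of_nonneg_left _ (by positivity)
  refine (Finset.norm_prod_one_add_sub_one_le _ _).trans ?_
  apply sub_le_sub_right
  apply Real.exp_le_exp.mpr
  calc ∑ i ∈ T \ {i1, i2}, ‖-(u / (a i - (G : ℂ) ^ 2))‖ ≤ ∑ i ∈ T \ {i1, i2}, ‖u‖ * c i := by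
        apply Finset.sum_le_sum
        intro i hi
        rw [Finset.mem_sdiff, Finset.mem_insert, Finset.mem_singleton, not_or] at hi
        rw [norm_neg, norm_div, div_eq_mul_inv]
        exact mul_le_mul_of_nonneg_left (hc i hi.2.1 hi.2.2) (norm_nonneg _)
    _ = ‖u‖ * ∑ i ∈ T \ {i1, i2}, c i := by rw [Finset.mul_sum]
    _ ≤ ‖u‖ * ∑' i, c i :=
        mul_le_mul_of_nonneg_left (hcs.sum_le_tsum _ (fun i _ => hc0 i)) (norm_nonneg _)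

end Pool.Agent.Hf
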