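import Mathlib
import Pool.Agent.Helpers.HfLocal

set_option autoImplicit false

namespace Pool.Agent.Hf

open Filter Topology Set

/-- the basic super-exponential sequence -/
def q (k : ℕ) : ℕ := 4 ^ (4 ^ k)

/-- multiplicities -/
def NN (k : ℕ) : ℕ := k * (q k) ^ 2

abbrev Idx : Type := Σ k : ℕ, (Fin (NN k) ⊕ Bool)

/-- real version of `q` -/
noncomputable def qr (k : ℕ) : ℝ := (q k : ℝ)

noncomputable def aa : Idx → ℂ
  | ⟨k, Sum.inl _⟩ => ((qr k : ℂ) ^ 2) ^ 2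
  | ⟨k, Sum.inr true⟩ => ((qr k : ℂ) ^ 4 + 2 * Complex.I) ^ 2
  | ⟨k, Sum.inr false⟩ => ((qr k : ℂ) ^ 4 - 2 * Complex.I) ^ 2

lemma qr_eq (k : ℕ) : qr k = (4 : ℝ) ^ (4 ^ k) := by
  unfold qr q
  push_cast
  rfl

lemma qr_succ (k : ℕ) : qr (k + 1) = qr k ^ 4 := by
  rw [qr_eq, qr_eq, ← pow_mul, pow_succ]

lemma four_le_qr (k : ℕ) : 4 ≤ qr k := by
  rw [qr_eq]
  calc (4 : ℝ) = 4 ^ 1 := by norm_num
    _ ≤ 4 ^ (4 ^ k) := pow_le_pow_right₀ (by norm_num) (Nat.one_le_pow _ _ (by norm_num))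

lemma qr_pos (k : ℕ) : 0 < qr k := by linarith [four_le_qr k]

lemma qr_mono : Monotone qr := by
  intro m n h
  rw [qr_eq, qr_eq]
  exact pow_le_pow_right₀ (by norm_num) (Nat.pow_le_pow_right (by norm_num) h)

lemma two_mul_le_four_pow (k : ℕ) : 2 * k ≤ 4 ^ k := by
  induction k with
  | zero => simp
  | succ n ih =>
    rw [pow_succ]
    have : 1 ≤ 4 ^ n := Nat.one_le_pow _ _ (by norm_num)
    omega

lemma sixteen_le_qr (k : ℕ) : (16 : ℝ) ^ k ≤ qr k := by
  rw [qr_eq]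
  calc (16 : ℝ) ^ k = 4 ^ (2 * k) := by rw [pow_mul]; norm_num
    _ ≤ 4 ^ (4 ^ k) := pow_le_pow_right₀ (by norm_num) (two_mul_le_four_pow k)

lemma norm_aa_inl (k : ℕ) (j : Fin (NN k)) : ‖aa ⟨k, Sum.inl j⟩‖ = qr k ^ 4 := by
  change ‖((qr k : ℂ) ^ 2) ^ 2‖ = _
  rw [norm_pow, norm_pow, Complex.norm_real, Real.norm_eq_abs, abs_of_pos (qr_pos k), ← pow_mul]

lemma norm_sq_add (G : ℝ) (b : Bool) : ‖((G : ℂ) + (if b then 2 else -2) * Complex.I) ^ 2‖ =
    G ^ 2 + 4 := by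
  rw [norm_pow, ← Complex.normSq_eq_norm_sq]
  cases b <;> simp [Complex.normSq_apply] <;> ring

lemma aa_inr (k : ℕ) (b : Bool) : aa ⟨k, Sum.inr b⟩ =
    (((qr k ^ 4 : ℝ) : ℂ) + (if b then 2 else -2) * Complex.I) ^ 2 := by
  cases b
  · change ((qr k : ℂ) ^ 4 - 2 * Complex.I) ^ 2 = _
    push_cast
    ring
  · change ((qr k : ℂ) ^ 4 + 2 * Complex.I) ^ 2 = _
    push_cast
    rfl

lemma norm_aa_inr (k : ℕ) (b : Bool) : ‖aa ⟨k, Sum.inr b⟩‖ = qr k ^ 8 + 4 := by
  rw [aa_inr, norm_sq_add, ← pow_mul]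

lemma aa_ne_zero (i : Idx) : aa i ≠ 0 := by
  rw [← norm_pos_iff]
  obtain ⟨k, j | b⟩ := i
  · rw [norm_aa_inl]
    have := qr_pos k
    positivity
  · rw [norm_aa_inr]
    have := qr_pos k
    positivity

/-- summation over the index set -/
lemma idx_summable (h : Idx → ℝ) (h0 : ∀ i, 0 ≤ h i) (A B : ℕ → ℝ)
    (hA : ∀ k j, h ⟨k, Sum.inl j⟩ ≤ A k) (hB : ∀ k b, h ⟨k, Sum.inr b⟩ ≤ B k)
    (hs : Summable fun k => (NN k : ℝ) * A k + 2 * B k) :
    Summable h ∧ ∑' i, h i ≤ ∑' k, ((NN k : ℝ) * A k + 2 * B k) := by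
  have h1 : ∀ k, ∑' y, h ⟨k, y⟩ ≤ (NN k : ℝ) * A k + 2 * B k := by
    intro k
    rw [tsum_fintype, Fintype.sum_sum_type]
    apply add_le_add
    · calc ∑ j : Fin (NN k), h ⟨k, Sum.inl j⟩ ≤ ∑ j : Fin (NN k), A k :=
            Finset.sum_le_sum (fun j _ => hA k j)
        _ = (NN k : ℝ) * A k := by simp
    · calc ∑ b : Bool, h ⟨k, Sum.inr b⟩ ≤ ∑ b : Bool, B k :=
            Finset.sum_le_sum (fun j _ => hB k j)
        _ = 2 * B k := by simp
  have h2 : ∀ k, 0 ≤ ∑' y, h ⟨k, y⟩ := fun k => tsum_nonneg (fun y => h0 _)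
  have h3 : Summable fun k => ∑' y, h ⟨k, y⟩ := Summable.of_nonneg_of_le h2 h1 hs
  have h4 : Summable h := (summable_sigma_of_nonneg h0).mpr
    ⟨fun k => (hasSum_fintype _).summable, h3⟩
  refine ⟨h4, ?_⟩
  rw [h4.tsum_sigma' (fun k => (hasSum_fintype _).summable)]
  exact h3.tsum_le_tsum h1 hs

lemma NN_cast (k : ℕ) : (NN k : ℝ) = k * qr k ^ 2 := by
  unfold NN qr
  push_cast
  ring

lemma summable_rpow {s : ℝ} (hs : 1 / 2 < s) : Summable fun i => ‖aa i‖ ^ (-s) := by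
  set x : ℝ := (4 : ℝ) ^ (2 - 4 * s) with hx
  have hx0 : 0 < x := Real.rpow_pos_of_pos (by norm_num) _
  have hx1 : x < 1 := Real.rpow_lt_one_of_one_lt_of_neg (by norm_num) (by linarith)
  have hq : ∀ k, qr k ^ (2 - 4 * s) ≤ x ^ k := by
    intro k
    have h1 : (4 : ℝ) ^ k ≤ qr k := by
      rw [qr_eq]
      apply pow_le_pow_right₀ (by norm_num)
      have := two_mul_le_four_pow k
      omega
    calc qr k ^ (2 - 4 * s) ≤ ((4 : ℝ) ^ k) ^ (2 - 4 * s) :=
          Real.rpow_le_rpow_of_nonpos (by positivity) h1 (by linarith)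
      _ = x ^ k := by
          rw [hx, ← Real.rpow_natCast, ← Real.rpow_natCast, ← Real.rpow_mul (by norm_num),
            ← Real.rpow_mul (by norm_num), mul_comm]
  refine (idx_summable (fun i => ‖aa i‖ ^ (-s)) (fun i => by positivity)
    (fun k => qr k ^ (-(4 * s))) (fun k => qr k ^ (2 - 4 * s)) ?_ ?_ ?_).1
  · intro k j
    rw [norm_aa_inl]
    apply le_of_eq
    rw [← Real.rpow_natCast, ← Real.rpow_mul (qr_pos k).le]
    congr 1
    push_cast
    ring
  · intro k b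
    rw [norm_aa_inr]
    have h1 : (0 : ℝ) < qr k ^ 8 := by
      have := qr_pos k
      positivity
    calc (qr k ^ 8 + 4) ^ (-s) ≤ (qr k ^ 8) ^ (-s) :=
          Real.rpow_le_rpow_of_nonpos h1 (by linarith) (by linarith)
      _ = qr k ^ (-(8 * s)) := by
          rw [← Real.rpow_natCast, ← Real.rpow_mul (qr_pos k).le]
          congr 1
          push_cast
          ring
      _ ≤ qr k ^ (2 - 4 * s) :=
          Real.rpow_le_rpow_of_exponent_le (by linarith [four_le_qr k]) (by linarith)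
  · have h1 : ∀ k : ℕ, (NN k : ℝ) * qr k ^ (-(4 * s)) = (k : ℝ) * qr k ^ (2 - 4 * s) := by
      intro k
      rw [NN_cast, mul_assoc, ← Real.rpow_natCast, ← Real.rpow_add (qr_pos k)]
      congr 2
    simp_rw [h1]
    have h2 : Summable fun k : ℕ => (k : ℝ) * x ^ k + 2 * x ^ k := by
      apply Summable.add
      · have := summable_pow_mul_geometric_of_norm_lt_one (R := ℝ) 1
          (r := x) (by rw [Real.norm_eq_abs, abs_of_pos hx0]; exact hx1)
        simpa using this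
      · exact (summable_geometric_of_lt_one hx0.le hx1).mul_left 2
    apply Summable.of_nonneg_of_le _ _ h2
    · intro k
      have := Real.rpow_nonneg (qr_pos k).le (2 - 4 * s)
      positivity
    · intro k
      have := hq k
      apply add_le_add
      · exact mul_le_mul_of_nonneg_left this (by positivity)
      · exact mul_le_mul_of_nonneg_left this (by positivity)

lemma summable_inv : Summable fun i => ‖aa i‖⁻¹ := by
  have := summable_rpow (s := 1) (by norm_num)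
  simpa [Real.rpow_neg_one] using this

end Pool.Agent.Hf
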