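import Mathlib
import Pool.Agent.Helpers.HfSeq

set_option autoImplicit false

namespace Pool.Agent.Hf

open Filter Topology Set

noncomputable def GG (m : ℕ) : ℝ := qr m ^ 4

lemma GG_pos (m : ℕ) : 0 < GG m := by
  unfold GG
  have := qr_pos m
  positivity

lemma GG_le_qr {m k : ℕ} (h : m < k) : GG m ≤ qr k := by
  unfold GG
  rw [← qr_succ]
  exact qr_mono h

lemma qr_le_GG (m : ℕ) : qr m ≤ GG m := by
  unfold GG
  have := four_le_qr m
  calc qr m = qr m ^ 1 := (pow_one _).symm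
    _ ≤ qr m ^ 4 := pow_le_pow_right₀ (by linarith) (by norm_num)

lemma norm_GG (m : ℕ) : ‖((GG m : ℝ) : ℂ) ^ 2‖ = qr m ^ 8 := by
  rw [norm_pow, Complex.norm_real, Real.norm_eq_abs, abs_of_pos (GG_pos m), GG, ← pow_mul]

lemma dist_inl_le {m k : ℕ} (h : k ≤ m) (j : Fin (NN k)) :
    qr m ^ 8 / 2 ≤ ‖aa ⟨k, Sum.inl j⟩ - (GG m : ℂ) ^ 2‖ := by
  have h1 := norm_sub_norm_le ((GG m : ℂ) ^ 2) (aa ⟨k, Sum.inl j⟩)
  rw [norm_sub_rev, norm_GG, norm_aa_inl] at h1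
  have h2 : qr k ^ 4 ≤ qr m ^ 4 := pow_le_pow_left₀ (qr_pos k).le (qr_mono h) 4
  have h3 := four_le_qr m
  have h4 : (256 : ℝ) ≤ qr m ^ 4 := by
    calc (256 : ℝ) = 4 ^ 4 := by norm_num
      _ ≤ qr m ^ 4 := pow_le_pow_left₀ (by norm_num) h3 4
  have h5 : qr m ^ 8 = qr m ^ 4 * qr m ^ 4 := by ring
  nlinarith

lemma dist_inl_gt {m k : ℕ} (h : m < k) (j : Fin (NN k)) :
    qr k ^ 4 / 2 ≤ ‖aa ⟨k, Sum.inl j⟩ - (GG m : ℂ) ^ 2‖ := by
  have h1 := norm_sub_norm_le (aa ⟨k, Sum.inl j⟩) ((GG m : ℂ) ^ 2)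
  rw [norm_GG, norm_aa_inl] at h1
  have h2 : GG m ^ 2 ≤ qr k ^ 2 := pow_le_pow_left₀ (GG_pos m).le (GG_le_qr h) 2
  have h2' : qr m ^ 8 = GG m ^ 2 := by unfold GG; ring
  rw [h2'] at h1
  have h3 := four_le_qr k
  have h4 : (16 : ℝ) ≤ qr k ^ 2 := by nlinarith
  have h5 : qr k ^ 4 = qr k ^ 2 * qr k ^ 2 := by ring
  nlinarith

lemma dist_inr_lt {m k : ℕ} (h : k < m) (b : Bool) :
    qr m ^ 8 / 2 ≤ ‖aa ⟨k, Sum.inr b⟩ - (GG m : ℂ) ^ 2‖ := by
  have h1 := norm_sub_norm_le ((GG m : ℂ) ^ 2) (aa ⟨k, Sum.inr b⟩)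
  rw [norm_sub_rev, norm_GG, norm_aa_inr] at h1
  have h2 : GG k ^ 2 ≤ qr m ^ 2 := pow_le_pow_left₀ (GG_pos k).le (GG_le_qr h) 2
  have h2' : qr k ^ 8 = GG k ^ 2 := by unfold GG; ring
  have h3 := four_le_qr m
  have h4 : (16 : ℝ) ≤ qr m ^ 2 := by nlinarith
  have h5 : qr m ^ 8 = (qr m ^ 2) ^ 4 := by ring
  have h6 : 4 * qr m ^ 2 ≤ (qr m ^ 2) ^ 4 := by
    have : (qr m ^ 2) ^ 4 = (qr m ^ 2) ^ 3 * qr m ^ 2 := by ring
    rw [this]
    apply mul_le_mul_of_nonneg_right _ (by positivity)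
    calc (4 : ℝ) ≤ 16 ^ 3 := by norm_num
      _ ≤ (qr m ^ 2) ^ 3 := pow_le_pow_left₀ (by norm_num) h4 3
  rw [h2'] at h1
  rw [h5] at h1 ⊢
  linarith

lemma dist_inr_gt {m k : ℕ} (h : m < k) (b : Bool) :
    qr k ^ 8 / 2 ≤ ‖aa ⟨k, Sum.inr b⟩ - (GG m : ℂ) ^ 2‖ := by
  have h1 := norm_sub_norm_le (aa ⟨k, Sum.inr b⟩) ((GG m : ℂ) ^ 2)
  rw [norm_GG, norm_aa_inr] at h1
  have h2 : GG m ^ 2 ≤ qr k ^ 2 := pow_le_pow_left₀ (GG_pos m).le (GG_le_qr h) 2
  have h2' : qr m ^ 8 = GG m ^ 2 := by unfold GG; ring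
  rw [h2'] at h1
  have h3 := four_le_qr k
  have h4 : (16 : ℝ) ≤ qr k ^ 2 := by nlinarith
  have h5 : qr k ^ 8 = (qr k ^ 2) ^ 4 := by ring
  have h6 : 4 * qr k ^ 2 ≤ (qr k ^ 2) ^ 4 := by
    have : (qr k ^ 2) ^ 4 = (qr k ^ 2) ^ 3 * qr k ^ 2 := by ring
    rw [this]
    apply mul_le_mul_of_nonneg_right _ (by positivity)
    calc (4 : ℝ) ≤ 16 ^ 3 := by norm_num
      _ ≤ (qr k ^ 2) ^ 3 := pow_le_pow_left₀ (by norm_num) h4 3
  rw [h5] at h1 ⊢
  linarith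

/-- weights -/
noncomputable def AA (m k : ℕ) : ℝ := if k ≤ m then 2 / qr m ^ 8 else 2 / qr k ^ 4

noncomputable def BB (m k : ℕ) : ℝ := if k ≤ m then 2 / qr m ^ 8 else 2 / qr k ^ 8

lemma AA_nonneg (m k : ℕ) : 0 ≤ AA m k := by
  unfold AA
  have := qr_pos m
  have := qr_pos k
  split_ifs <;> positivity

lemma BB_nonneg (m k : ℕ) : 0 ≤ BB m k := by
  unfold BB
  have := qr_pos m
  have := qr_pos k
  split_ifs <;> positivity

open Classical in
noncomputable def cc (m : ℕ) (i : Idx) : ℝ :=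
  if i = ⟨m, Sum.inr true⟩ ∨ i = ⟨m, Sum.inr false⟩ then 0 else ‖aa i - (GG m : ℂ) ^ 2‖⁻¹

lemma cc_nonneg (m : ℕ) (i : Idx) : 0 ≤ cc m i := by
  unfold cc
  split_ifs <;> positivity

lemma cc_inl (m k : ℕ) (j : Fin (NN k)) : cc m ⟨k, Sum.inl j⟩ ≤ AA m k := by
  unfold cc AA
  rw [if_neg (by
    rintro (h | h)
    · obtain ⟨h1, h2⟩ := Sigma.mk.inj_iff.mp h
      subst h1
      simp at h2
    · obtain ⟨h1, h2⟩ := Sigma.mk.inj_iff.mp h
      subst h1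
      simp at h2)]
  split_ifs with h
  · rw [show (2 : ℝ) / qr m ^ 8 = (qr m ^ 8 / 2)⁻¹ by rw [inv_div]]
    have := qr_pos m
    exact inv_anti₀ (by positivity) (dist_inl_le h j)
  · rw [show (2 : ℝ) / qr k ^ 4 = (qr k ^ 4 / 2)⁻¹ by rw [inv_div]]
    have := qr_pos k
    exact inv_anti₀ (by positivity) (dist_inl_gt (not_le.mp h) j)

lemma cc_inr (m k : ℕ) (b : Bool) : cc m ⟨k, Sum.inr b⟩ ≤ BB m k := by
  by_cases hk : k = m
  · subst hk
    have : cc k ⟨k, Sum.inr b⟩ = 0 := by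
      unfold cc
      rw [if_pos]
      cases b
      · exact Or.inr rfl
      · exact Or.inl rfl
    rw [this]
    exact BB_nonneg _ _
  · unfold cc BB
    rw [if_neg (by
      rintro (h | h) <;> exact hk (congrArg Sigma.fst h))]
    split_ifs with h
    · rw [show (2 : ℝ) / qr m ^ 8 = (qr m ^ 8 / 2)⁻¹ by rw [inv_div]]
      have := qr_pos m
      exact inv_anti₀ (by positivity) (dist_inr_lt (lt_of_le_of_ne h hk) b)
    · rw [show (2 : ℝ) / qr k ^ 8 = (qr k ^ 8 / 2)⁻¹ by rw [inv_div]]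
      have := qr_pos k
      exact inv_anti₀ (by positivity) (dist_inr_gt (not_le.mp h) b)

lemma aux_pow (k : ℕ) : (2 * (k : ℝ) + 4) ≤ 4 * 4 ^ k := by
  have h1 := two_mul_le_four_pow k
  have h2 : (2 * (k : ℝ)) ≤ 4 ^ k := by exact_mod_cast h1
  have h3 : (1 : ℝ) ≤ 4 ^ k := one_le_pow₀ (by norm_num)
  by_cases hk : k = 0
  · subst hk; norm_num
  · have : (4 : ℝ) ≤ 4 ^ k := by
      calc (4 : ℝ) = 4 ^ 1 := by norm_num
        _ ≤ 4 ^ k := pow_le_pow_right₀ (by norm_num) (Nat.one_le_iff_ne_zero.mpr hk)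
    linarith

lemma weight_bound (m k : ℕ) :
    GG m * ((NN k : ℝ) * AA m k + 2 * BB m k) ≤ 4 * (1 / 2) ^ m * (1 / 2) ^ k := by
  have hqm := qr_pos m
  have hqk := qr_pos k
  rw [NN_cast]
  by_cases h : k ≤ m
  · unfold AA BB GG
    rw [if_pos h, if_pos h]
    have e : qr m ^ 4 * ((k : ℝ) * qr k ^ 2 * (2 / qr m ^ 8) + 2 * (2 / qr m ^ 8)) =
        (2 * (k : ℝ) * qr k ^ 2 + 4) / qr m ^ 4 := by
      field_simp
      ring
    rw [e]
    have h1 : qr k ^ 2 ≤ qr m ^ 2 := pow_le_pow_left₀ hqk.le (qr_mono h) 2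
    have hkm : (k : ℝ) ≤ m := by exact_mod_cast h
    have h2 : (1 : ℝ) ≤ qr m ^ 2 := by
      have := four_le_qr m
      nlinarith
    have h3 : 2 * (k : ℝ) * qr k ^ 2 + 4 ≤ (2 * (m : ℝ) + 4) * qr m ^ 2 := by
      have : 2 * (k : ℝ) * qr k ^ 2 ≤ 2 * (m : ℝ) * qr m ^ 2 :=
        mul_le_mul (by linarith) h1 (by positivity) (by positivity)
      nlinarith
    have h4 : (16 : ℝ) ^ m ≤ qr m ^ 2 := by
      have h5 := sixteen_le_qr m
      have h6 := four_le_qr m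
      nlinarith
    calc (2 * (k : ℝ) * qr k ^ 2 + 4) / qr m ^ 4 ≤ ((2 * (m : ℝ) + 4) * qr m ^ 2) / qr m ^ 4 :=
          div_le_div_of_nonneg_right h3 (by positivity)
      _ = (2 * (m : ℝ) + 4) / qr m ^ 2 := by field_simp
      _ ≤ (4 * 4 ^ m) / 16 ^ m := by
          apply div_le_div₀ (by positivity) (aux_pow m) (by positivity) h4
      _ = 4 * (1 / 2) ^ m * (1 / 2) ^ m := by
          rw [show (16 : ℝ) = 4 * (2 * 2) by norm_num, mul_pow, mul_pow, one_div_pow]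
          field_simp
      _ ≤ 4 * (1 / 2) ^ m * (1 / 2) ^ k := by
          apply mul_le_mul_of_nonneg_left _ (by positivity)
          exact pow_le_pow_of_le_one (by norm_num) (by norm_num) h
  · unfold AA BB
    rw [if_neg h, if_neg h]
    have h' := not_le.mp h
    have h1 : (k : ℝ) * qr k ^ 2 * (2 / qr k ^ 4) + 2 * (2 / qr k ^ 8) ≤
        (2 * (k : ℝ) + 4) / qr k ^ 2 := by
      have e1 : (k : ℝ) * qr k ^ 2 * (2 / qr k ^ 4) = 2 * (k : ℝ) / qr k ^ 2 := by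
        field_simp
      have e2 : 2 * (2 / qr k ^ 8) ≤ 4 / qr k ^ 2 := by
        have : 2 * (2 / qr k ^ 8) = 4 / qr k ^ 8 := by ring
        rw [this]
        apply div_le_div_of_nonneg_left (by norm_num) (by positivity)
        exact pow_le_pow_right₀ (by linarith [four_le_qr k]) (by norm_num)
      rw [e1, add_div]
      linarith
    have h2 := GG_le_qr h'
    have h3 := sixteen_le_qr k
    calc GG m * ((k : ℝ) * qr k ^ 2 * (2 / qr k ^ 4) + 2 * (2 / qr k ^ 8)) ≤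
        qr k * ((2 * (k : ℝ) + 4) / qr k ^ 2) := by
          apply mul_le_mul h2 h1 (by positivity) hqk.le
      _ = (2 * (k : ℝ) + 4) / qr k := by field_simp
      _ ≤ (4 * 4 ^ k) / 16 ^ k := by
          apply div_le_div₀ (by positivity) (aux_pow k) (by positivity) h3
      _ = 4 * (1 / 2) ^ k * (1 / 2) ^ k := by
          rw [show (16 : ℝ) = 4 * (2 * 2) by norm_num, mul_pow, mul_pow, one_div_pow]
          field_simp
      _ ≤ 4 * (1 / 2) ^ m * (1 / 2) ^ k := by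
          apply mul_le_mul_of_nonneg_right _ (by positivity)
          apply mul_le_mul_of_nonneg_left _ (by norm_num)
          exact pow_le_pow_of_le_one (by norm_num) (by norm_num) h'.le

lemma cc_sum (m : ℕ) : Summable (cc m) ∧ GG m * ∑' i, cc m i ≤ 8 * (1 / 2) ^ m := by
  have hG := GG_pos m
  have hs1 : Summable fun k => GG m * ((NN k : ℝ) * AA m k + 2 * BB m k) := by
    have h2 : Summable fun k : ℕ => 4 * (1 / 2 : ℝ) ^ m * (1 / 2) ^ k :=
      (summable_geometric_of_lt_one (by norm_num) (by norm_num)).mul_left _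
    apply Summable.of_nonneg_of_le _ (fun k => weight_bound m k) h2
    intro k
    have := AA_nonneg m k
    have := BB_nonneg m k
    positivity
  have hs : Summable fun k => ((NN k : ℝ) * AA m k + 2 * BB m k) := by
    have := hs1.mul_left (GG m)⁻¹
    apply this.congr
    intro k
    field_simp
  obtain ⟨h1, h2⟩ := idx_summable (cc m) (cc_nonneg m) (AA m) (BB m) (cc_inl m) (cc_inr m) hs
  refine ⟨h1, ?_⟩
  calc GG m * ∑' i, cc m i ≤ GG m * ∑' k, ((NN k : ℝ) * AA m k + 2 * BB m k) :=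
        mul_le_mul_of_nonneg_left h2 hG.le
    _ = ∑' k, GG m * ((NN k : ℝ) * AA m k + 2 * BB m k) := tsum_mul_left.symm
    _ ≤ ∑' k : ℕ, 4 * (1 / 2 : ℝ) ^ m * (1 / 2) ^ k := by
        apply hs1.tsum_le_tsum (fun k => weight_bound m k)
        exact (summable_geometric_of_lt_one (by norm_num) (by norm_num)).mul_left _
    _ = 8 * (1 / 2) ^ m := by
        rw [tsum_mul_left, tsum_geometric_of_lt_one (by norm_num) (by norm_num)]
        norm_num
        ring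

end Pool.Agent.Hf
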