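import Mathlib

set_option autoImplicit false

namespace Pool.Agent.Hf

open Filter Topology

/-- the maximum modulus `M(r) = max_{|z| = r} |f z|` -/
noncomputable def maxMod (f : ℂ → ℂ) (r : ℝ) : ℝ :=
  sSup ((fun z : ℂ => ‖f z‖) '' Metric.sphere (0 : ℂ) r)

/-- order one: `limsup log log M(r) / log r = 1` -/
def HasOrderOne (f : ℂ → ℂ) : Prop :=
  limsup (fun r : ℝ => ((Real.log (Real.log (maxMod f r)) / Real.log r : ℝ) : EReal)) atTop = 1

/-- maximal type for the order one: `limsup log M(r) / r = ∞` -/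
def HasMaximalType (f : ℂ → ℂ) : Prop :=
  limsup (fun r : ℝ => ((Real.log (maxMod f r) / r : ℝ) : EReal)) atTop = ⊤

/-- the terms of the series of `e^{-lam D^2} f` at `z` -/
noncomputable def heatTerm (lam : ℝ) (f : ℂ → ℂ) (z : ℂ) (k : ℕ) : ℂ :=
  (-(lam : ℂ)) ^ k / (k.factorial : ℂ) * iteratedDeriv (2 * k) f z

/-- `e^{-lam D^2} f` -/
noncomputable def heat (lam : ℝ) (f : ℂ → ℂ) (z : ℂ) : ℂ := ∑' k : ℕ, heatTerm lam f z k

end Pool.Agent.Hf
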