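import Mathlib
import Pool.Agent.Helpers.HfDefs

set_option autoImplicit false

namespace Pool.Agent.Hf

open Filter Topology Set

lemma fact_bound (k : ℕ) : ((2 * k).factorial : ℝ) ≤ (k.factorial : ℝ) * (2 * ((k : ℝ) + 1)) ^ k := by
  have h1 : (2 * k).factorial = k.factorial * (k + 1).ascFactorial k := by
    rw [Nat.factorial_mul_ascFactorial, two_mul]
  have h2 : (k + 1).ascFactorial k ≤ (k + k) ^ k := Nat.ascFactorial_le_pow_add k k
  rw [h1]
  push_cast
  apply mul_le_mul_of_nonneg_left _ (by positivity)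
  calc (((k + 1).ascFactorial k : ℕ) : ℝ) ≤ (((k + k) ^ k : ℕ) : ℝ) := by exact_mod_cast h2
    _ = ((k : ℝ) + k) ^ k := by push_cast; ring
    _ ≤ (2 * ((k : ℝ) + 1)) ^ k := by
        apply pow_le_pow_left₀ (by positivity)
        linarith

lemma heatTerm_bound {g : ℂ → ℂ} (hg : Differentiable ℂ g) {δ : ℝ} (hδ : 0 ≤ δ)
    (hb : ∀ w, ‖g w‖ ≤ δ * Real.exp (‖w‖ ^ 2 / 16)) (w : ℂ) (k : ℕ) :
    ‖heatTerm 1 g w k‖ ≤ δ * Real.exp (‖w‖ ^ 2 / 8) * Real.exp 1 * (Real.exp 1 / 4) ^ k := by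
  set r : ℝ := Real.sqrt (8 * ((k : ℝ) + 1)) with hr
  have hr0 : 0 < r := Real.sqrt_pos.mpr (by positivity)
  have hr2 : r ^ 2 = 8 * ((k : ℝ) + 1) := Real.sq_sqrt (by positivity)
  have hC : ∀ z ∈ Metric.sphere w r,
      ‖g z‖ ≤ δ * (Real.exp (‖w‖ ^ 2 / 8) * Real.exp ((k : ℝ) + 1)) := by
    intro z hz
    refine (hb z).trans ?_
    apply mul_le_mul_of_nonneg_left _ hδ
    rw [← Real.exp_add]
    apply Real.exp_le_exp.mpr
    rw [mem_sphere_iff_norm] at hz
    have h1 : ‖z‖ ≤ ‖w‖ + r := by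
      have : z = w + (z - w) := by ring
      rw [this]
      refine (norm_add_le _ _).trans ?_
      rw [hz]
    have h2 : ‖z‖ ^ 2 ≤ (‖w‖ + r) ^ 2 := pow_le_pow_left₀ (norm_nonneg _) h1 2
    have h3 : (‖w‖ + r) ^ 2 ≤ 2 * ‖w‖ ^ 2 + 2 * r ^ 2 := by nlinarith [sq_nonneg (‖w‖ - r)]
    rw [hr2] at h3
    linarith
  have h1 := Complex.norm_iteratedDeriv_le_of_forall_mem_sphere_norm_le (2 * k) hr0
    hg.diffContOnCl hC
  have h2 : r ^ (2 * k) = (8 * ((k : ℝ) + 1)) ^ k := by
    rw [pow_mul, hr2]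
  rw [h2] at h1
  unfold heatTerm
  rw [norm_mul, norm_div, norm_pow, norm_neg, Complex.ofReal_one, norm_one, one_pow,
    Complex.norm_natCast]
  have hk : (0 : ℝ) < k.factorial := by positivity
  have h3 := fact_bound k
  set C : ℝ := δ * (Real.exp (‖w‖ ^ 2 / 8) * Real.exp ((k : ℝ) + 1)) with hCdef
  have hC0 : 0 ≤ C := by positivity
  calc 1 / (k.factorial : ℝ) * ‖iteratedDeriv (2 * k) g w‖ ≤
      1 / (k.factorial : ℝ) * (((2 * k).factorial : ℝ) * C / (8 * ((k : ℝ) + 1)) ^ k) :=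
        mul_le_mul_of_nonneg_left h1 (by positivity)
    _ ≤ 1 / (k.factorial : ℝ) * (((k.factorial : ℝ) * (2 * ((k : ℝ) + 1)) ^ k) * C /
        (8 * ((k : ℝ) + 1)) ^ k) := by
        apply mul_le_mul_of_nonneg_left _ (by positivity)
        apply div_le_div_of_nonneg_right _ (by positivity)
        exact mul_le_mul_of_nonneg_right h3 hC0
    _ = C * (1 / 4) ^ k := by
        have h4 : (8 * ((k : ℝ) + 1)) ^ k = (2 * ((k : ℝ) + 1)) ^ k * 4 ^ k := by
          rw [← mul_pow]
          ring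
        have h5 : (2 * ((k : ℝ) + 1)) ^ k ≠ 0 := by positivity
        rw [h4, one_div_pow]
        field_simp
    _ = δ * Real.exp (‖w‖ ^ 2 / 8) * Real.exp 1 * (Real.exp 1 / 4) ^ k := by
        have e : Real.exp (k : ℝ) = Real.exp 1 ^ k := by
          rw [← Real.exp_nat_mul, mul_one]
        rw [hCdef, Real.exp_add, e, one_div_pow, div_pow]
        ring

lemma exp_one_div : Real.exp 1 / 4 < 1 := by
  have := Real.exp_one_lt_d9
  linarith

lemma summable_bound (A : ℝ) : Summable fun k : ℕ => A * (Real.exp 1 / 4) ^ k :=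
  (summable_geometric_of_lt_one (by positivity) exp_one_div).mul_left A

lemma heat_summable {g : ℂ → ℂ} (hg : Differentiable ℂ g) {δ : ℝ} (hδ : 0 ≤ δ)
    (hb : ∀ w, ‖g w‖ ≤ δ * Real.exp (‖w‖ ^ 2 / 16)) (w : ℂ) : Summable (heatTerm 1 g w) :=
  Summable.of_norm_bounded (summable_bound _) (fun k => heatTerm_bound hg hδ hb w k)

lemma heat_bound {g : ℂ → ℂ} (hg : Differentiable ℂ g) {δ : ℝ} (hδ : 0 ≤ δ)
    (hb : ∀ w, ‖g w‖ ≤ δ * Real.exp (‖w‖ ^ 2 / 16)) (w : ℂ) :
    ‖heat 1 g w‖ ≤ 9 * δ * Real.exp (‖w‖ ^ 2 / 8) := by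
  have h1 : ‖heat 1 g w‖ ≤
      ∑' k : ℕ, δ * Real.exp (‖w‖ ^ 2 / 8) * Real.exp 1 * (Real.exp 1 / 4) ^ k :=
    tsum_of_norm_bounded (summable_bound _).hasSum (fun k => heatTerm_bound hg hδ hb w k)
  refine h1.trans ?_
  rw [tsum_mul_left, tsum_geometric_of_lt_one (by positivity) exp_one_div]
  have h2 : Real.exp 1 * (1 - Real.exp 1 / 4)⁻¹ ≤ 9 := by
    have h3 := Real.exp_one_lt_d9
    have h4 : 0 < 1 - Real.exp 1 / 4 := by linarith
    rw [← div_eq_mul_inv, div_le_iff₀ h4]
    linarith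
  calc δ * Real.exp (‖w‖ ^ 2 / 8) * Real.exp 1 * (1 - Real.exp 1 / 4)⁻¹ =
      (δ * Real.exp (‖w‖ ^ 2 / 8)) * (Real.exp 1 * (1 - Real.exp 1 / 4)⁻¹) := by ring
    _ ≤ (δ * Real.exp (‖w‖ ^ 2 / 8)) * 9 := mul_le_mul_of_nonneg_left h2 (by positivity)
    _ = _ := by ring

lemma iteratedDeriv_differentiable {g : ℂ → ℂ} (hg : Differentiable ℂ g) (n : ℕ) :
    Differentiable ℂ (iteratedDeriv n g) := by
  have h1 : ContDiff ℂ (n + 1) g := hg.contDiff
  exact h1.differentiable_iteratedDeriv' n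

lemma heat_differentiable {g : ℂ → ℂ} (hg : Differentiable ℂ g) {δ : ℝ} (hδ : 0 ≤ δ)
    (hb : ∀ w, ‖g w‖ ≤ δ * Real.exp (‖w‖ ^ 2 / 16)) : Differentiable ℂ (heat 1 g) := by
  intro z
  set ρ := ‖z‖ + 1 with hρ
  have h1 : DifferentiableOn ℂ (fun w => ∑' k, heatTerm 1 g w k) (Metric.ball (0 : ℂ) ρ) := by
    apply Complex.differentiableOn_tsum_of_summable_norm
      (summable_bound (δ * Real.exp (ρ ^ 2 / 8) * Real.exp 1)) _ Metric.isOpen_ball
    · intro k w hw
      refine (heatTerm_bound hg hδ hb w k).trans ?_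
      rw [mem_ball_zero_iff] at hw
      apply mul_le_mul_of_nonneg_right _ (by positivity)
      apply mul_le_mul_of_nonneg_right _ (by positivity)
      apply mul_le_mul_of_nonneg_left _ hδ
      apply Real.exp_le_exp.mpr
      have := pow_le_pow_left₀ (norm_nonneg w) hw.le 2
      linarith
    · intro k
      unfold heatTerm
      exact ((iteratedDeriv_differentiable hg (2 * k)).const_mul _).differentiableOn
  have h3 : z ∈ Metric.ball (0 : ℂ) ρ := by
    rw [mem_ball_zero_iff]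
    linarith
  exact (h1 z h3).differentiableAt (Metric.isOpen_ball.mem_nhds h3)

lemma heatTerm_quad (w : ℂ) (k : ℕ) : heatTerm 1 (fun z : ℂ => z ^ 2 + 4) w k =
    if k = 0 then w ^ 2 + 4 else if k = 1 then -2 else 0 := by
  have h1 : iteratedDeriv 1 (fun z : ℂ => z ^ 2 + 4) = fun z => 2 * z := by
    rw [iteratedDeriv_one]
    funext z
    simp
  have h2 : iteratedDeriv 2 (fun z : ℂ => z ^ 2 + 4) = fun _ => 2 := by
    rw [iteratedDeriv_succ, h1]
    funext z
    have : deriv (fun z : ℂ => 2 * z) z = 2 := by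
      rw [deriv_const_mul_field, deriv_id'', mul_one]
    exact this
  have h3 : ∀ n, iteratedDeriv (n + 3) (fun z : ℂ => z ^ 2 + 4) = fun _ => 0 := by
    intro n
    induction n with
    | zero =>
      rw [zero_add, iteratedDeriv_succ, h2]
      funext z
      simp
    | succ n ih =>
      rw [show n + 1 + 3 = (n + 3) + 1 from by ring, iteratedDeriv_succ, ih]
      funext z
      simp
  unfold heatTerm
  match k with
  | 0 => simp
  | 1 =>
    rw [mul_one, h2]
    simp
  | (n + 2) =>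
    have e : 2 * (n + 2) = (2 * n + 1) + 3 := by ring
    rw [e, h3]
    simp

lemma heat_quad_hasSum (w : ℂ) : HasSum (heatTerm 1 (fun z : ℂ => z ^ 2 + 4) w) (w ^ 2 + 2) := by
  have h : HasSum (heatTerm 1 (fun z : ℂ => z ^ 2 + 4) w)
      (∑ k ∈ Finset.range 2, heatTerm 1 (fun z : ℂ => z ^ 2 + 4) w k) := by
    apply hasSum_sum_of_ne_finset_zero
    intro k hk
    rw [Finset.mem_range] at hk
    rw [heatTerm_quad, if_neg (by omega), if_neg (by omega)]
  rw [Finset.sum_range_succ, Finset.sum_range_one, heatTerm_quad, heatTerm_quad] at h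
  simp only [if_true, one_ne_zero, if_false] at h
  convert h using 1
  ring

/-- the local zero -/
theorem local_zero {f : ℂ → ℂ} (hf : Differentiable ℂ f) (G : ℂ) (hG : f G ≠ 0) {δ : ℝ}
    (hδ : 0 ≤ δ) (hδ1 : δ ≤ 1 / 100)
    (hb : ∀ w, ‖4 / f G * f (G + w) - (w ^ 2 + 4)‖ ≤ δ * Real.exp (‖w‖ ^ 2 / 16)) :
    (∀ z, Summable (heatTerm 1 f z)) ∧
      ∃ w : ℂ, ‖w - Real.sqrt 2 * Complex.I‖ ≤ 1 ∧ heat 1 f (G + w) = 0 := by
  set c : ℂ := 4 / f G with hc
  have hc0 : c ≠ 0 := div_ne_zero (by norm_num) hG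
  set D : ℂ → ℂ := fun w => c * f (G + w) - (w ^ 2 + 4) with hD
  have hfG : Differentiable ℂ (fun w : ℂ => f (G + w)) := hf.comp (by fun_prop)
  have hDd : Differentiable ℂ D := by
    apply Differentiable.sub (hfG.const_mul c)
    fun_prop
  -- terms
  have hterm : ∀ w k, heatTerm 1 f (G + w) k =
      c⁻¹ * (heatTerm 1 D w k + heatTerm 1 (fun z : ℂ => z ^ 2 + 4) w k) := by
    intro w k
    have e1 : (fun w : ℂ => c * f (G + w)) = D + (fun z : ℂ => z ^ 2 + 4) := by
      funext w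
      simp [hD]
    have e2 : iteratedDeriv (2 * k) (fun w : ℂ => c * f (G + w)) w =
        c * iteratedDeriv (2 * k) f (G + w) := by
      rw [iteratedDeriv_const_mul_field, iteratedDeriv_comp_const_add]
    have e3 : iteratedDeriv (2 * k) (D + (fun z : ℂ => z ^ 2 + 4)) w =
        iteratedDeriv (2 * k) D w + iteratedDeriv (2 * k) (fun z : ℂ => z ^ 2 + 4) w := by
      apply iteratedDeriv_add
      · exact (hDd.contDiff (n := (2 * k : ℕ))).contDiffAt
      · have : Differentiable ℂ (fun z : ℂ => z ^ 2 + 4) := by fun_prop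
        exact (this.contDiff (n := (2 * k : ℕ))).contDiffAt
    rw [← e1, e2] at e3
    have e4 : iteratedDeriv (2 * k) f (G + w) = c⁻¹ * (iteratedDeriv (2 * k) D w +
        iteratedDeriv (2 * k) (fun z : ℂ => z ^ 2 + 4) w) := by
      rw [← e3]
      field_simp
    unfold heatTerm
    rw [e4]
    ring
  have hsum : ∀ w, HasSum (heatTerm 1 f (G + w)) (c⁻¹ * (heat 1 D w + (w ^ 2 + 2))) := by
    intro w
    have h1 := ((heat_summable hDd hδ hb w).hasSum.add (heat_quad_hasSum w)).mul_left c⁻¹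
    exact (funext (hterm w)) ▸ h1
  have hheat : ∀ w, heat 1 f (G + w) = c⁻¹ * (heat 1 D w + (w ^ 2 + 2)) := fun w =>
    (hsum w).tsum_eq
  refine ⟨fun z => ?_, ?_⟩
  · have := (hsum (z - G)).summable
    rwa [add_sub_cancel] at this
  · set w0 : ℂ := Real.sqrt 2 * Complex.I with hw0
    have hs2 : (Real.sqrt 2) ^ 2 = 2 := Real.sq_sqrt (by norm_num)
    have hs1 : 1.4 < Real.sqrt 2 := by
      rw [show (1.4 : ℝ) = Real.sqrt (1.4 ^ 2) from (Real.sqrt_sq (by norm_num)).symm]
      apply Real.sqrt_lt_sqrt (by norm_num)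
      norm_num
    have hs3 : Real.sqrt 2 < 1.5 := by
      rw [show (1.5 : ℝ) = Real.sqrt (1.5 ^ 2) from (Real.sqrt_sq (by norm_num)).symm]
      apply Real.sqrt_lt_sqrt (by norm_num)
      norm_num
    have hw0n : ‖w0‖ = Real.sqrt 2 := by
      rw [hw0, norm_mul, Complex.norm_I, mul_one, Complex.norm_real, Real.norm_eq_abs,
        abs_of_nonneg (Real.sqrt_nonneg _)]
    have hw0sq : w0 ^ 2 = -2 := by
      rw [hw0, mul_pow, Complex.I_sq]
      have : ((Real.sqrt 2 : ℝ) : ℂ) ^ 2 = 2 := by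
        exact_mod_cast hs2
      rw [this]
      ring
    by_contra hcon
    push Not at hcon
    set H : ℂ → ℂ := fun w => heat 1 D w + (w ^ 2 + 2) with hH
    have hHd : Differentiable ℂ H := by
      apply Differentiable.add (heat_differentiable hDd hδ hb)
      fun_prop
    have hHne : ∀ w, ‖w - w0‖ ≤ 1 → H w ≠ 0 := by
      intro w hw h0
      apply hcon w hw
      rw [hheat]
      have : heat 1 D w + (w ^ 2 + 2) = 0 := h0
      rw [this, mul_zero]
    -- size of the perturbation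
    have hpert : ∀ w, ‖w - w0‖ ≤ 1 → ‖heat 1 D w‖ ≤ 1 / 2 := by
      intro w hw
      refine (heat_bound hDd hδ hb w).trans ?_
      have h1 : ‖w‖ ≤ 5 / 2 := by
        have : w = (w - w0) + w0 := by ring
        rw [this]
        refine (norm_add_le _ _).trans ?_
        rw [hw0n]
        linarith
      have h2 : ‖w‖ ^ 2 / 8 ≤ 1 := by
        have := pow_le_pow_left₀ (norm_nonneg w) h1 2
        linarith
      have h3 : Real.exp (‖w‖ ^ 2 / 8) ≤ 3 := by
        refine (Real.exp_le_exp.mpr h2).trans ?_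
        linarith [Real.exp_one_lt_d9]
      calc 9 * δ * Real.exp (‖w‖ ^ 2 / 8) ≤ 9 * (1 / 100) * 3 := by
            apply mul_le_mul _ h3 (Real.exp_nonneg _) (by norm_num)
            linarith
        _ ≤ 1 / 2 := by norm_num
    -- on the sphere
    have hsph : ∀ w, ‖w - w0‖ = 1 → 1 < ‖H w‖ := by
      intro w hw
      have e1 : w ^ 2 + 2 = (w - w0) * (w + w0) := by
        have : w ^ 2 - w0 ^ 2 = (w - w0) * (w + w0) := by ring
        rw [hw0sq] at this
        rw [← this]
        ring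
      have e2 : ‖w + w0‖ ≥ 1.8 := by
        have h1 : w + w0 = 2 * w0 + (w - w0) := by ring
        rw [h1]
        have h2 := norm_sub_norm_le (2 * w0) (-(w - w0))
        rw [norm_neg, sub_neg_eq_add, hw, norm_mul, hw0n, Complex.norm_ofNat] at h2
        linarith
      have e3 : ‖w ^ 2 + 2‖ ≥ 1.8 := by
        rw [e1, norm_mul, hw, one_mul]
        exact e2
      have e4 := hpert w hw.le
      have e5 := norm_sub_norm_le (w ^ 2 + 2) (-(heat 1 D w))
      rw [norm_neg, sub_neg_eq_add] at e5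
      have e6 : H w = w ^ 2 + 2 + heat 1 D w := by
        simp only [hH]
        ring
      rw [e6]
      linarith
    -- maximum principle
    have hinv : DiffContOnCl ℂ (fun w => (H w)⁻¹) (Metric.ball w0 1) := by
      apply DifferentiableOn.diffContOnCl
      rw [closure_ball w0 (by norm_num)]
      apply DifferentiableOn.inv hHd.differentiableOn
      intro w hw
      apply hHne
      rwa [Metric.mem_closedBall, dist_eq_norm] at hw
    have hmax := Complex.norm_le_of_forall_mem_frontier_norm_le Metric.isBounded_ball hinv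
      (C := 1) (by
        intro z hz
        rw [frontier_ball w0 (by norm_num), mem_sphere_iff_norm] at hz
        have := hsph z hz
        rw [norm_inv]
        exact inv_le_one_of_one_le₀ this.le) (z := w0)
      (subset_closure (Metric.mem_ball_self (by norm_num)))
    have h1 : H w0 = heat 1 D w0 := by
      simp only [hH]
      rw [hw0sq]
      ring
    have h2 := hpert w0 (by simp)
    have h3 : H w0 ≠ 0 := hHne w0 (by simp)
    have h4 : 0 < ‖H w0‖ := norm_pos_iff.mpr h3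
    rw [norm_inv] at hmax
    have h5 : 1 ≤ ‖H w0‖ := by
      rw [inv_le_one₀ h4] at hmax
      exact hmax
    rw [h1] at h5
    linarith

end Pool.Agent.Hf
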