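import Mathlib
import Pool.Agent.Helpers.HfEst
import Pool.Agent.Helpers.HfHeat

set_option autoImplicit false

namespace Pool.Agent.Hf

open Filter Topology Set

/-- the function -/
noncomputable def ff : ℂ → ℂ := cp aa

lemma GG_sq_ne (m : ℕ) (i : Idx) : (GG m : ℂ) ^ 2 ≠ aa i := by
  obtain ⟨k, j | b⟩ := i
  · intro h
    have hq := qr_pos m
    have hq' := qr_pos k
    by_cases hk : k ≤ m
    · have := dist_inl_le hk j
      rw [← h, sub_self, norm_zero] at this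
      have h2 : 0 < qr m ^ 8 / 2 := by positivity
      linarith
    · have := dist_inl_gt (not_le.mp hk) j
      rw [← h, sub_self, norm_zero] at this
      have h2 : 0 < qr k ^ 4 / 2 := by positivity
      linarith
  · intro h
    rw [aa_inr] at h
    have him := congrArg Complex.im h
    have hq := qr_pos k
    have h1 : 0 < qr k ^ 4 := by positivity
    have e1 : ((GG m : ℂ) ^ 2).im = 0 := by
      have : (GG m : ℂ) ^ 2 = ((GG m ^ 2 : ℝ) : ℂ) := by push_cast; ring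
      rw [this, Complex.ofReal_im]
    rw [e1] at him
    generalize qr k ^ 4 = r at h1 him
    cases b
    · simp [sq] at him
      linarith
    · simp [sq] at him
      linarith

lemma ff_GG_ne (m : ℕ) : ff (GG m) ≠ 0 := cp_ne_zero summable_inv aa_ne_zero (GG_sq_ne m)

lemma real_est {t η G : ℝ} (ht : 0 ≤ t) (hη : 0 ≤ η) (hη1 : η ≤ 1 / 128) (hG : 1 ≤ G)
    (hGη : 1 / G ≤ η) {σ : ℝ} (hσ0 : 0 ≤ σ) (hσ : G * σ ≤ η) :
    (t ^ 2 + 4) * ((4 * G * t + t ^ 2) / (4 * G ^ 2 + 4)) +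
      (t ^ 2 + 4) * (1 + t + t ^ 2) * (Real.exp ((2 * G * t + t ^ 2) * σ) - 1) ≤
      η * 10 ^ 7 * Real.exp (t ^ 2 / 16) := by
  have hG0 : 0 < G := by linarith
  -- first term
  have h1 : (4 * G * t + t ^ 2) / (4 * G ^ 2 + 4) ≤ η * (t + t ^ 2) := by
    have h2 : (4 * G * t + t ^ 2) / (4 * G ^ 2 + 4) ≤ (4 * G * t + 4 * G * t ^ 2) / (4 * G ^ 2) := by
      apply div_le_div₀ (by positivity) _ (by positivity) (by linarith)
      nlinarith [sq_nonneg t]
    have h3 : (4 * G * t + 4 * G * t ^ 2) / (4 * G ^ 2) = 1 / G * (t + t ^ 2) := by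
      field_simp
    rw [h3] at h2
    exact h2.trans (mul_le_mul_of_nonneg_right hGη (by positivity))
  -- second term
  have h4 : (2 * G * t + t ^ 2) * σ ≤ η * (2 * t + t ^ 2) := by
    have h5 : σ ≤ G * σ := by nlinarith
    have h6 : (2 * G * t) * σ ≤ 2 * t * η := by
      have : (2 * G * t) * σ = 2 * t * (G * σ) := by ring
      rw [this]
      exact mul_le_mul_of_nonneg_left hσ (by positivity)
    have h7 : t ^ 2 * σ ≤ t ^ 2 * η := mul_le_mul_of_nonneg_left (h5.trans hσ) (by positivity)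
    linarith
  set x : ℝ := η * (2 * t + t ^ 2) with hx
  have hx0 : 0 ≤ x := by positivity
  have h8 : Real.exp ((2 * G * t + t ^ 2) * σ) - 1 ≤ x * Real.exp x := by
    have h9 : Real.exp ((2 * G * t + t ^ 2) * σ) ≤ Real.exp x := Real.exp_le_exp.mpr h4
    have h10 : 1 - x ≤ Real.exp (-x) := by linarith [Real.add_one_le_exp (-x)]
    have h11 : (1 - x) * Real.exp x ≤ 1 := by
      calc (1 - x) * Real.exp x ≤ Real.exp (-x) * Real.exp x :=
            mul_le_mul_of_nonneg_right h10 (Real.exp_nonneg _)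
        _ = 1 := by rw [← Real.exp_add]; simp
    nlinarith
  have hexpx : Real.exp x ≤ 2 * Real.exp (t ^ 2 / 64) := by
    have h9 : x ≤ 1 / 128 + t ^ 2 / 64 := by
      have h10 : x ≤ 1 / 128 * (2 * t + t ^ 2) := mul_le_mul_of_nonneg_right hη1 (by positivity)
      nlinarith [sq_nonneg (t - 1)]
    calc Real.exp x ≤ Real.exp (1 / 128 + t ^ 2 / 64) := Real.exp_le_exp.mpr h9
      _ = Real.exp (1 / 128) * Real.exp (t ^ 2 / 64) := Real.exp_add _ _
      _ ≤ 2 * Real.exp (t ^ 2 / 64) := by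
          apply mul_le_mul_of_nonneg_right _ (Real.exp_nonneg _)
          have h11 : Real.exp (1 / 128) ≤ 1 / (1 - 1 / 128) := by
            have h12 : 1 - 1 / 128 ≤ Real.exp (-(1 / 128)) := by
              linarith [Real.add_one_le_exp (-(1 / 128 : ℝ))]
            rw [Real.exp_neg] at h12
            rw [le_div_iff₀ (by norm_num)]
            have h13 := Real.exp_pos (1 / 128 : ℝ)
            have h14 := mul_le_mul_of_nonneg_left h12 h13.le
            rw [mul_inv_cancel₀ h13.ne'] at h14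
            exact h14
          refine h11.trans ?_
          norm_num
  -- polynomial bounds
  set y : ℝ := 1 + t ^ 2 with hy
  have hy1 : 1 ≤ y := by nlinarith [sq_nonneg t]
  have p1 : t ^ 2 + 4 ≤ 4 * y := by nlinarith [sq_nonneg t]
  have p2 : t + t ^ 2 ≤ 3 / 2 * y := by nlinarith [sq_nonneg (t - 1)]
  have p3 : 1 + t + t ^ 2 ≤ 3 / 2 * y := by nlinarith [sq_nonneg (t - 1)]
  have p4 : 2 * t + t ^ 2 ≤ 2 * y := by nlinarith [sq_nonneg (t - 1)]
  have hexp1 : 1 ≤ Real.exp (t ^ 2 / 64) := Real.one_le_exp (by positivity)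
  have p5 : y ≤ 64 * Real.exp (t ^ 2 / 64) := by
    have := Real.add_one_le_exp (t ^ 2 / 64)
    linarith
  have hterm1 : (t ^ 2 + 4) * ((4 * G * t + t ^ 2) / (4 * G ^ 2 + 4)) ≤ η * (6 * y ^ 3) := by
    calc (t ^ 2 + 4) * ((4 * G * t + t ^ 2) / (4 * G ^ 2 + 4)) ≤
        (4 * y) * (η * (3 / 2 * y)) := by
          apply mul_le_mul p1 _ (by positivity) (by positivity)
          exact h1.trans (mul_le_mul_of_nonneg_left p2 hη)
      _ = η * (6 * y ^ 2) := by ring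
      _ ≤ η * (6 * y ^ 3) := by
          apply mul_le_mul_of_nonneg_left _ hη
          apply mul_le_mul_of_nonneg_left _ (by norm_num)
          exact pow_le_pow_right₀ hy1 (by norm_num)
  have hterm2 : (t ^ 2 + 4) * (1 + t + t ^ 2) * (Real.exp ((2 * G * t + t ^ 2) * σ) - 1) ≤
      η * (24 * y ^ 3) * Real.exp (t ^ 2 / 64) := by
    have h9 : 0 ≤ Real.exp ((2 * G * t + t ^ 2) * σ) - 1 := by
      have : 1 ≤ Real.exp ((2 * G * t + t ^ 2) * σ) := Real.one_le_exp (by positivity)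
      linarith
    calc (t ^ 2 + 4) * (1 + t + t ^ 2) * (Real.exp ((2 * G * t + t ^ 2) * σ) - 1) ≤
        (4 * y) * (3 / 2 * y) * (x * Real.exp x) := by
          apply mul_le_mul _ h8 h9 (by positivity)
          exact mul_le_mul p1 p3 (by positivity) (by positivity)
      _ ≤ (4 * y) * (3 / 2 * y) * ((η * (2 * y)) * (2 * Real.exp (t ^ 2 / 64))) := by
          apply mul_le_mul_of_nonneg_left _ (by positivity)
          apply mul_le_mul _ hexpx (Real.exp_nonneg _) (by positivity)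
          exact mul_le_mul_of_nonneg_left p4 hη
      _ = _ := by ring
  have p6 : y ^ 3 ≤ 262144 * Real.exp (t ^ 2 / 64) ^ 3 := by
    calc y ^ 3 ≤ (64 * Real.exp (t ^ 2 / 64)) ^ 3 := pow_le_pow_left₀ (by positivity) p5 3
      _ = _ := by rw [mul_pow]; norm_num
  have e4 : Real.exp (t ^ 2 / 16) = Real.exp (t ^ 2 / 64) ^ 4 := by
    rw [← Real.exp_nat_mul]
    congr 1
    push_cast
    ring
  set E : ℝ := Real.exp (t ^ 2 / 64) with hE
  have hE3 : E ^ 3 ≤ E ^ 4 := pow_le_pow_right₀ hexp1 (by norm_num)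
  rw [e4]
  have hy3 : 0 ≤ y ^ 3 := by positivity
  calc (t ^ 2 + 4) * ((4 * G * t + t ^ 2) / (4 * G ^ 2 + 4)) +
      (t ^ 2 + 4) * (1 + t + t ^ 2) * (Real.exp ((2 * G * t + t ^ 2) * σ) - 1) ≤
      η * (6 * y ^ 3) + η * (24 * y ^ 3) * E := add_le_add hterm1 hterm2
    _ ≤ η * (6 * y ^ 3) * E + η * (24 * y ^ 3) * E := by
        have : 0 ≤ η * (6 * y ^ 3) := by positivity
        nlinarith
    _ = η * 30 * (y ^ 3 * E) := by ring
    _ ≤ η * 30 * ((262144 * E ^ 3) * E) := by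
        apply mul_le_mul_of_nonneg_left _ (by positivity)
        exact mul_le_mul_of_nonneg_right p6 (by positivity)
    _ = η * 7864320 * E ^ 4 := by ring
    _ ≤ η * 10 ^ 7 * E ^ 4 := by
        apply mul_le_mul_of_nonneg_right _ (by positivity)
        apply mul_le_mul_of_nonneg_left _ hη
        norm_num

lemma approx (m : ℕ) (hm : 40 ≤ m) (w : ℂ) :
    ‖4 / ff (GG m) * ff (GG m + w) - (w ^ 2 + 4)‖ ≤ 1 / 100 * Real.exp (‖w‖ ^ 2 / 16) := by
  set G : ℝ := GG m with hGdef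
  have hG1 : 1 ≤ G := by
    have h1 := qr_le_GG m
    have h2 := four_le_qr m
    linarith
  have hG0 : 0 < G := by linarith
  set η : ℝ := 8 * (1 / 2) ^ m with hη
  have hη0 : 0 ≤ η := by positivity
  have hη40 : η ≤ 8 * (1 / 2) ^ 40 := by
    apply mul_le_mul_of_nonneg_left _ (by norm_num)
    exact pow_le_pow_of_le_one (by norm_num) (by norm_num) hm
  have hη1 : η ≤ 1 / 128 := hη40.trans (by norm_num)
  have hη2 : η * 10 ^ 7 ≤ 1 / 100 := by
    calc η * 10 ^ 7 ≤ (8 * (1 / 2) ^ 40) * 10 ^ 7 := mul_le_mul_of_nonneg_right hη40 (by norm_num)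
      _ ≤ 1 / 100 := by norm_num
  have hGη : 1 / G ≤ η := by
    have h1 : (2 : ℝ) ^ m ≤ G := by
      have h2 := qr_le_GG m
      have h3 := sixteen_le_qr m
      have h4 : (2 : ℝ) ^ m ≤ 16 ^ m := pow_le_pow_left₀ (by norm_num) (by norm_num) m
      linarith
    have h5 : 1 / G ≤ 1 / 2 ^ m := one_div_le_one_div_of_le (by positivity) h1
    have h6 : (1 : ℝ) / 2 ^ m = (1 / 2) ^ m := by rw [one_div_pow]
    rw [h6] at h5
    have h7 : (0 : ℝ) ≤ (1 / 2) ^ m := by positivity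
    linarith
  obtain ⟨hcs, hcb⟩ := cc_sum m
  set σ : ℝ := ∑' i, cc m i with hσ
  have hσ0 : 0 ≤ σ := tsum_nonneg (cc_nonneg m)
  have hlb := local_bound summable_inv aa_ne_zero G hG1 ⟨m, Sum.inr true⟩ ⟨m, Sum.inr false⟩
    (by
      intro h
      obtain ⟨h1, h2⟩ := Sigma.mk.inj_iff.mp h
      simp at h2)
    (by
      change ((qr m : ℂ) ^ 4 + 2 * Complex.I) ^ 2 = _
      rw [hGdef, GG]
      push_cast
      rfl)
    (by
      change ((qr m : ℂ) ^ 4 - 2 * Complex.I) ^ 2 = _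
      rw [hGdef, GG]
      push_cast
      rfl)
    (fun i _ _ h => GG_sq_ne m i h.symm) (cc m)
    (by
      intro i h1 h2
      unfold cc
      rw [if_neg (by tauto)])
    (cc_nonneg m) hcs w
  have hfG : ff G ≠ 0 := ff_GG_ne m
  have hfGn : 0 < ‖ff G‖ := norm_pos_iff.mpr hfG
  set Q : ℂ := (w ^ 2 + 4) * (((2 * G + w) ^ 2 + 4) / (4 * (G : ℂ) ^ 2 + 4)) with hQ
  set t : ℝ := ‖w‖ with ht
  have ht0 : 0 ≤ t := norm_nonneg w
  have hu : ‖2 * (G : ℂ) * w + w ^ 2‖ ≤ 2 * G * t + t ^ 2 := by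
    refine (norm_add_le _ _).trans ?_
    rw [norm_mul, norm_mul, Complex.norm_ofNat, Complex.norm_real, Real.norm_eq_abs,
      abs_of_pos hG0, norm_pow]
  have hden : (4 * (G : ℂ) ^ 2 + 4) = ((4 * G ^ 2 + 4 : ℝ) : ℂ) := by push_cast; ring
  have hdenpos : 0 < 4 * G ^ 2 + 4 := by positivity
  have hden0 : (4 * (G : ℂ) ^ 2 + 4) ≠ 0 := by
    rw [hden]
    exact_mod_cast hdenpos.ne'
  have hdenn : ‖(4 * (G : ℂ) ^ 2 + 4)‖ = 4 * G ^ 2 + 4 := by
    rw [hden, Complex.norm_real, Real.norm_eq_abs, abs_of_pos hdenpos]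
  have hw4 : ‖w ^ 2 + 4‖ ≤ t ^ 2 + 4 := by
    refine (norm_add_le _ _).trans ?_
    rw [norm_pow, Complex.norm_ofNat]
  -- ρ - 1
  have hrho : ((2 * (G : ℂ) + w) ^ 2 + 4) / (4 * (G : ℂ) ^ 2 + 4) =
      1 + (4 * G * w + w ^ 2) / (4 * (G : ℂ) ^ 2 + 4) := by
    rw [one_add_div hden0]
    congr 1
    ring
  have hrho1 : ‖(4 * (G : ℂ) * w + w ^ 2) / (4 * (G : ℂ) ^ 2 + 4)‖ ≤
      (4 * G * t + t ^ 2) / (4 * G ^ 2 + 4) := by
    rw [norm_div, hdenn]
    apply div_le_div_of_nonneg_right _ hdenpos.le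
    refine (norm_add_le _ _).trans ?_
    rw [norm_mul, norm_mul, Complex.norm_ofNat, Complex.norm_real, Real.norm_eq_abs,
      abs_of_pos hG0, norm_pow]
  have hrho2 : ‖((2 * (G : ℂ) + w) ^ 2 + 4) / (4 * (G : ℂ) ^ 2 + 4)‖ ≤ 1 + t + t ^ 2 := by
    rw [hrho]
    refine (norm_add_le _ _).trans ?_
    rw [norm_one]
    have h1 : (4 * G * t + t ^ 2) / (4 * G ^ 2 + 4) ≤ t + t ^ 2 := by
      rw [div_le_iff₀ hdenpos]
      have h2 : G ≤ G ^ 2 := by nlinarith
      have h3 : 0 ≤ t ^ 2 := sq_nonneg t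
      nlinarith
    linarith [hrho1]
  have hQb : ‖Q‖ ≤ (t ^ 2 + 4) * (1 + t + t ^ 2) := by
    rw [hQ, norm_mul]
    exact mul_le_mul hw4 hrho2 (norm_nonneg _) (by positivity)
  -- combine
  have e1 : 4 / ff G * ff (G + w) - (w ^ 2 + 4) =
      (4 * ff (G + w) - Q * ff G) / ff G +
        (w ^ 2 + 4) * ((4 * (G : ℂ) * w + w ^ 2) / (4 * (G : ℂ) ^ 2 + 4)) := by
    have e2 : (w ^ 2 + 4) * ((4 * (G : ℂ) * w + w ^ 2) / (4 * (G : ℂ) ^ 2 + 4)) =
        Q - (w ^ 2 + 4) := by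
      rw [hQ, hrho]
      ring
    rw [e2, sub_div, mul_div_cancel_right₀ _ hfG]
    ring
  rw [e1]
  refine (norm_add_le _ _).trans ?_
  have h1 : ‖(4 * ff (G + w) - Q * ff G) / ff G‖ ≤
      (t ^ 2 + 4) * (1 + t + t ^ 2) * (Real.exp ((2 * G * t + t ^ 2) * σ) - 1) := by
    rw [norm_div, div_le_iff₀ hfGn]
    have h2 : ‖4 * ff (G + w) - Q * ff G‖ ≤
        ‖ff G‖ * ‖Q‖ * (Real.exp (‖2 * (G : ℂ) * w + w ^ 2‖ * σ) - 1) := hlb
    refine h2.trans ?_
    have h3 : Real.exp (‖2 * (G : ℂ) * w + w ^ 2‖ * σ) ≤ Real.exp ((2 * G * t + t ^ 2) * σ) :=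
      Real.exp_le_exp.mpr (mul_le_mul_of_nonneg_right hu hσ0)
    have h4 : 0 ≤ Real.exp ((2 * G * t + t ^ 2) * σ) - 1 := by
      have : 1 ≤ Real.exp ((2 * G * t + t ^ 2) * σ) := Real.one_le_exp (by positivity)
      linarith
    calc ‖ff G‖ * ‖Q‖ * (Real.exp (‖2 * (G : ℂ) * w + w ^ 2‖ * σ) - 1) ≤
        ‖ff G‖ * ‖Q‖ * (Real.exp ((2 * G * t + t ^ 2) * σ) - 1) :=
          mul_le_mul_of_nonneg_left (by linarith) (by positivity)
      _ ≤ ‖ff G‖ * ((t ^ 2 + 4) * (1 + t + t ^ 2)) * (Real.exp ((2 * G * t + t ^ 2) * σ) - 1) := by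
          apply mul_le_mul_of_nonneg_right _ h4
          exact mul_le_mul_of_nonneg_left hQb hfGn.le
      _ = _ := by ring
  have h2 : ‖(w ^ 2 + 4) * ((4 * (G : ℂ) * w + w ^ 2) / (4 * (G : ℂ) ^ 2 + 4))‖ ≤
      (t ^ 2 + 4) * ((4 * G * t + t ^ 2) / (4 * G ^ 2 + 4)) := by
    rw [norm_mul]
    exact mul_le_mul hw4 hrho1 (norm_nonneg _) (by positivity)
  have h3 := real_est ht0 hη0 hη1 hG1 hGη hσ0 hcb
  calc ‖(4 * ff (G + w) - Q * ff G) / ff G‖ +
      ‖(w ^ 2 + 4) * ((4 * (G : ℂ) * w + w ^ 2) / (4 * (G : ℂ) ^ 2 + 4))‖ ≤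
      η * 10 ^ 7 * Real.exp (t ^ 2 / 16) := by linarith
    _ ≤ 1 / 100 * Real.exp (t ^ 2 / 16) :=
        mul_le_mul_of_nonneg_right hη2 (Real.exp_nonneg _)

end Pool.Agent.Hf
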