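import Mathlib
import Pool.Agent.Helpers.HfApprox

set_option autoImplicit false

namespace Pool.Agent.Hf

open Filter Topology Set

lemma ff_differentiable : Differentiable ℂ ff := cp_differentiable summable_inv

lemma ff_even (z : ℂ) : ff (-z) = ff z := cp_even z

def flipIdx : Idx ≃ Idx :=
  Equiv.sigmaCongrRight (fun _ => Equiv.sumCongr (Equiv.refl _) Equiv.boolNot)

lemma aa_flip (i : Idx) : aa (flipIdx i) = (starRingEnd ℂ) (aa i) := by
  obtain ⟨k, j | b⟩ := i
  · change ((qr k : ℂ) ^ 2) ^ 2 = (starRingEnd ℂ) (((qr k : ℂ) ^ 2) ^ 2)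
    simp
  · cases b
    · change ((qr k : ℂ) ^ 4 + 2 * Complex.I) ^ 2 =
        (starRingEnd ℂ) (((qr k : ℂ) ^ 4 - 2 * Complex.I) ^ 2)
      simp [map_ofNat]
    · change ((qr k : ℂ) ^ 4 - 2 * Complex.I) ^ 2 =
        (starRingEnd ℂ) (((qr k : ℂ) ^ 4 + 2 * Complex.I) ^ 2)
      simp [map_ofNat]
      ring

lemma ff_real (x : ℝ) : (ff x).im = 0 := cp_real summable_inv flipIdx aa_flip x

lemma ff_zero {z : ℂ} (hz : ff z = 0) : |z.im| < 3 := by
  have h : ∃ i, z ^ 2 = aa i := by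
    by_contra hcon
    push Not at hcon
    exact cp_ne_zero summable_inv aa_ne_zero hcon hz
  obtain ⟨⟨k, j | b⟩, hi⟩ := h
  · have hi' : z ^ 2 = ((qr k : ℂ) ^ 2) ^ 2 := hi
    have e : ((qr k : ℂ) ^ 2) = ((qr k ^ 2 : ℝ) : ℂ) := by push_cast; ring
    rw [e] at hi'
    rcases sq_eq_sq_iff_eq_or_eq_neg.mp hi' with h | h
    · rw [h, Complex.ofReal_im]; norm_num
    · rw [h, Complex.neg_im, Complex.ofReal_im]; norm_num
  · rw [aa_inr] at hi
    generalize qr k ^ 4 = r at hi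
    rcases sq_eq_sq_iff_eq_or_eq_neg.mp hi with h | h
    · rw [h]
      cases b
      · simp
        norm_num
      · simp
        norm_num
    · rw [h]
      cases b
      · simp
        norm_num
      · simp
        norm_num

lemma aa_re (i : Idx) : 0 ≤ (aa i).re := by
  obtain ⟨k, j | b⟩ := i
  · change 0 ≤ (((qr k : ℂ) ^ 2) ^ 2).re
    have e : ((qr k : ℂ) ^ 2) ^ 2 = ((qr k ^ 4 : ℝ) : ℂ) := by push_cast; ring
    rw [e, Complex.ofReal_re]
    have := qr_pos k
    positivity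
  · rw [aa_inr]
    have h1 := four_le_qr k
    have h2 : (4 : ℝ) ≤ qr k ^ 4 := by
      calc (4 : ℝ) ≤ qr k := h1
        _ = qr k ^ 1 := (pow_one _).symm
        _ ≤ qr k ^ 4 := pow_le_pow_right₀ (by linarith) (by norm_num)
    generalize qr k ^ 4 = r at h2
    cases b
    · simp [sq]
      nlinarith
    · simp [sq]
      nlinarith

lemma bddAbove_ff (r : ℝ) : BddAbove ((fun z : ℂ => ‖ff z‖) '' Metric.sphere (0 : ℂ) r) := by
  have h := (isCompact_sphere (0 : ℂ) r).image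
    (ff_differentiable.continuous.norm)
  exact h.bddAbove

lemma le_maxMod (z : ℂ) : ‖ff z‖ ≤ maxMod ff ‖z‖ :=
  le_csSup (bddAbove_ff _) ⟨z, by simp, rfl⟩

lemma maxMod_le {s : ℝ} (hs : 1 / 2 < s) (hs1 : s ≤ 1) {r : ℝ} (hr : 0 ≤ r) :
    maxMod ff r ≤ Real.exp (2 * r ^ (2 * s) * ∑' i, ‖aa i‖ ^ (-s)) := by
  apply csSup_le
  · refine ⟨_, (r : ℂ), ?_, rfl⟩
    rw [mem_sphere_zero_iff_norm, Complex.norm_real, Real.norm_eq_abs, abs_of_nonneg hr]
  · rintro _ ⟨z, hz, rfl⟩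
    rw [mem_sphere_zero_iff_norm] at hz
    have := cp_upper summable_inv aa_ne_zero hs hs1 (summable_rpow hs) z
    rw [hz] at this
    exact this

lemma norm_I_mul {r : ℝ} (hr : 0 ≤ r) : ‖Complex.I * (r : ℂ)‖ = r := by
  rw [norm_mul, Complex.norm_I, one_mul, Complex.norm_real, Real.norm_eq_abs, abs_of_nonneg hr]

lemma one_lt_maxMod {r : ℝ} (hr : 0 < r) : 1 < maxMod ff r := by
  have hN : 0 < NN 1 := by
    unfold NN q
    norm_num
  have h1 := cp_lower summable_inv aa_re r {⟨1, Sum.inl ⟨0, hN⟩⟩}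
  rw [Finset.prod_singleton] at h1
  have h2 := le_maxMod (Complex.I * (r : ℂ))
  rw [norm_I_mul hr.le] at h2
  refine lt_of_lt_of_le ?_ (h1.trans h2)
  change 1 < ‖1 + (r : ℂ) ^ 2 / ((qr 1 : ℂ) ^ 2) ^ 2‖
  have e : 1 + (r : ℂ) ^ 2 / ((qr 1 : ℂ) ^ 2) ^ 2 =
      ((1 + r ^ 2 / (qr 1 ^ 2) ^ 2 : ℝ) : ℂ) := by push_cast; ring
  have hq := qr_pos 1
  rw [e, Complex.norm_real, Real.norm_eq_abs, abs_of_pos (by positivity)]
  have : 0 < r ^ 2 / (qr 1 ^ 2) ^ 2 := by positivity
  linarith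

lemma log_maxMod_pos {r : ℝ} (hr : 0 < r) : 0 < Real.log (maxMod ff r) :=
  Real.log_pos (one_lt_maxMod hr)

lemma log_maxMod_le {s : ℝ} (hs : 1 / 2 < s) (hs1 : s ≤ 1) {r : ℝ} (hr : 0 < r) :
    Real.log (maxMod ff r) ≤ 2 * r ^ (2 * s) * ∑' i, ‖aa i‖ ^ (-s) := by
  have h1 := maxMod_le hs hs1 hr.le
  have h2 := one_lt_maxMod hr
  have h3 := Real.log_le_log (by linarith) h1
  rwa [Real.log_exp] at h3

lemma log_maxMod_ge (m : ℕ) :
    (m : ℝ) * Real.log 2 * qr m ^ 2 ≤ Real.log (maxMod ff (qr m ^ 2)) := by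
  have hq := qr_pos m
  have hr : 0 < qr m ^ 2 := by positivity
  let em : Fin (NN m) ↪ Idx := ⟨fun j => ⟨m, Sum.inl j⟩, by
    intro a b h
    simpa using h⟩
  have h1 := cp_lower summable_inv aa_re (qr m ^ 2) (Finset.univ.map em)
  rw [Finset.prod_map] at h1
  have h2 := le_maxMod (Complex.I * ((qr m ^ 2 : ℝ) : ℂ))
  rw [norm_I_mul hr.le] at h2
  have h3 := h1.trans h2
  have e : ∀ j : Fin (NN m), ‖1 + (((qr m ^ 2 : ℝ) : ℂ)) ^ 2 / aa (em j)‖ = 2 := by
    intro j
    change ‖1 + (((qr m ^ 2 : ℝ) : ℂ)) ^ 2 / ((qr m : ℂ) ^ 2) ^ 2‖ = 2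
    have hne : ((qr m : ℂ) ^ 2) ^ 2 ≠ 0 := by
      have : (qr m : ℂ) ≠ 0 := by exact_mod_cast hq.ne'
      positivity
    push_cast
    rw [div_self hne]
    norm_num
  simp_rw [e] at h3
  rw [Finset.prod_const, Finset.card_univ, Fintype.card_fin] at h3
  have h4 := Real.log_le_log (by positivity) h3
  rw [Real.log_pow, NN_cast] at h4
  calc (m : ℝ) * Real.log 2 * qr m ^ 2 = (m : ℝ) * qr m ^ 2 * Real.log 2 := by ring
    _ ≤ _ := h4

lemma tendsto_qr_sq : Tendsto (fun m => qr m ^ 2) atTop atTop := by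
  apply tendsto_atTop_mono (f := fun m : ℕ => (m : ℝ)) _ tendsto_natCast_atTop_atTop
  intro m
  have h1 := sixteen_le_qr m
  have h2 := four_le_qr m
  have h3 : (m : ℝ) ≤ 16 ^ m := by
    have : m < 16 ^ m := Nat.lt_pow_self (by norm_num)
    exact_mod_cast this.le
  nlinarith

theorem ff_maxType : HasMaximalType ff := by
  unfold HasMaximalType
  rw [EReal.eq_top_iff_forall_lt]
  intro y
  have hlog2 : 0 < Real.log 2 := Real.log_pos (by norm_num)
  have hfreq : ∃ᶠ r : ℝ in atTop,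
      ((y + 1 : ℝ) : EReal) ≤ ((Real.log (maxMod ff r) / r : ℝ) : EReal) := by
    apply tendsto_qr_sq.frequently
    apply Eventually.frequently
    obtain ⟨M, hM⟩ := exists_nat_gt ((y + 1) / Real.log 2)
    filter_upwards [eventually_ge_atTop M] with m hm
    have hq := qr_pos m
    rw [EReal.coe_le_coe_iff, le_div_iff₀ (by positivity)]
    refine le_trans ?_ (log_maxMod_ge m)
    apply mul_le_mul_of_nonneg_right _ (by positivity)
    rw [div_lt_iff₀ hlog2] at hM
    have : (M : ℝ) ≤ m := by exact_mod_cast hm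
    nlinarith
  have h1 := le_limsup_of_frequently_le' hfreq
  refine lt_of_lt_of_le ?_ h1
  exact_mod_cast (lt_add_one y)

theorem ff_order : HasOrderOne ff := by
  unfold HasOrderOne
  apply le_antisymm
  · -- upper bound
    rw [← EReal.coe_one, ← EReal.le_of_forall_lt_iff_le]
    intro z hz
    have hz1 : (1 : ℝ) < z := by exact_mod_cast hz
    set s : ℝ := min 1 ((1 + z) / 4) with hs
    have hs1 : s ≤ 1 := min_le_left _ _
    have hs0 : 1 / 2 < s := lt_min (by norm_num) (by linarith)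
    have hs2 : 2 * s < z := by
      have : s ≤ (1 + z) / 4 := min_le_right _ _
      linarith
    set S : ℝ := ∑' i, ‖aa i‖ ^ (-s) with hS
    have hS0 : 0 ≤ S := tsum_nonneg (fun i => by positivity)
    apply limsup_le_of_le (by isBoundedDefault)
    have hlog : ∀ᶠ r : ℝ in atTop, Real.log (2 * S + 1) / (z - 2 * s) ≤ Real.log r :=
      Real.tendsto_log_atTop.eventually_ge_atTop _
    filter_upwards [hlog, eventually_gt_atTop 1] with r hr hr1
    have hr0 : 0 < r := by linarith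
    have hlr : 0 < Real.log r := Real.log_pos hr1
    rw [EReal.coe_le_coe_iff, div_le_iff₀ hlr]
    have h1 := log_maxMod_le hs0 hs1 hr0
    have h2 := log_maxMod_pos hr0
    have hrs : 0 < r ^ (2 * s) := Real.rpow_pos_of_pos hr0 _
    have h3 : Real.log (maxMod ff r) ≤ (2 * S + 1) * r ^ (2 * s) := by
      nlinarith
    have h4 := Real.log_le_log h2 h3
    rw [Real.log_mul (by positivity) hrs.ne', Real.log_rpow hr0] at h4
    rw [div_le_iff₀ (by linarith)] at hr
    linarith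
  · have hlog2 : (1 : ℝ) / 2 ≤ Real.log 2 := by
      linarith [Real.log_two_gt_d9]
    have hfreq : ∃ᶠ r : ℝ in atTop, ((1 : ℝ) : EReal) ≤
        ((Real.log (Real.log (maxMod ff r)) / Real.log r : ℝ) : EReal) := by
      apply tendsto_qr_sq.frequently
      apply Eventually.frequently
      filter_upwards [eventually_ge_atTop 2] with m hm
      have hq := four_le_qr m
      have hR : 1 < qr m ^ 2 := by nlinarith
      have hlr : 0 < Real.log (qr m ^ 2) := Real.log_pos hR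
      rw [EReal.coe_le_coe_iff, le_div_iff₀ hlr, one_mul]
      apply Real.log_le_log (by linarith)
      refine le_trans ?_ (log_maxMod_ge m)
      have hm' : (2 : ℝ) ≤ m := by exact_mod_cast hm
      have : 1 ≤ (m : ℝ) * Real.log 2 := by nlinarith
      nlinarith
    have h1 := le_limsup_of_frequently_le' hfreq
    rwa [EReal.coe_one] at h1

theorem main_zeros : (∀ z, Summable (heatTerm 1 ff z)) ∧
    {z : ℂ | heat 1 ff z = 0 ∧ z.im ≠ 0}.Infinite := by
  have hloc : ∀ m : ℕ, 40 ≤ m → _ := fun m hm =>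
    local_zero ff_differentiable (GG m : ℂ) (ff_GG_ne m) (by norm_num) le_rfl (approx m hm)
  refine ⟨(hloc 40 le_rfl).1, ?_⟩
  intro hfin
  have himg : (Complex.re '' {z : ℂ | heat 1 ff z = 0 ∧ z.im ≠ 0}).Finite := hfin.image _
  obtain ⟨B, hB⟩ := himg.bddAbove
  obtain ⟨M, hM⟩ := exists_nat_gt (B + 1)
  set m : ℕ := max 40 M with hm
  obtain ⟨w, hw1, hw2⟩ := (hloc m (le_max_left _ _)).2
  have hre := (Complex.abs_re_le_norm (w - Real.sqrt 2 * Complex.I)).trans hw1
  have him := (Complex.abs_im_le_norm (w - Real.sqrt 2 * Complex.I)).trans hw1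
  simp at hre him
  have hs1 : 1.4 < Real.sqrt 2 := by
    rw [show (1.4 : ℝ) = Real.sqrt (1.4 ^ 2) from (Real.sqrt_sq (by norm_num)).symm]
    apply Real.sqrt_lt_sqrt (by norm_num)
    norm_num
  rw [abs_le] at hre him
  have hmem : ((GG m : ℂ) + w) ∈ {z : ℂ | heat 1 ff z = 0 ∧ z.im ≠ 0} := by
    refine ⟨hw2, ?_⟩
    rw [Complex.add_im, Complex.ofReal_im, zero_add]
    intro h0
    rw [h0] at him
    linarith [him.1]
  have h1 := hB ⟨_, hmem, rfl⟩
  rw [Complex.add_re, Complex.ofReal_re] at h1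
  have h2 : (M : ℝ) ≤ GG m := by
    have h3 := qr_le_GG m
    have h4 := sixteen_le_qr m
    have h5 : (m : ℝ) ≤ 16 ^ m := by
      have : m < 16 ^ m := Nat.lt_pow_self (by norm_num)
      exact_mod_cast this.le
    have h6 : (M : ℝ) ≤ m := by exact_mod_cast le_max_right 40 M
    linarith
  linarith [hre.1]

end Pool.Agent.Hf
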