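import Mathlib

open Filter Topology

namespace Pool.Agent.Helpers.James

/-- `x` is an unconditional Schauder basis of `X`: every vector has an expansion `∑ a i • x i`
converging unconditionally, and the coefficient sequence is the only one whose ordered partial
sums converge to the vector. -/
def IsUnconditionalBasis {X : Type} [NormedAddCommGroup X] [NormedSpace ℝ X] (x : ℕ → X) : Prop :=
  ∀ v : X, ∃ a : ℕ → ℝ, HasSum (fun i => a i • x i) v ∧
    ∀ b : ℕ → ℝ, Tendsto (fun n => ∑ i ∈ Finset.range n, b i • x i) atTop (𝓝 v) → b = a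

/-- Reflexivity: the canonical map into the bidual is onto. -/
def IsReflexiveSpace (X : Type) [NormedAddCommGroup X] [NormedSpace ℝ X] : Prop :=
  Function.Surjective (NormedSpace.inclusionInDoubleDual ℝ X)

/-- The set of numbers whose supremum is the norm of `∑ a i e i` in the Jamesification of `x`
(indices start at `0`). -/
def jamesSet {X : Type} [NormedAddCommGroup X] [NormedSpace ℝ X] (x : ℕ → X) (a : ℕ →₀ ℝ) :
    Set ℝ :=
  {r | ∃ (k : ℕ) (p q : Fin k → ℕ), 1 ≤ k ∧ (∀ i, p i ≤ q i) ∧ (∀ i j, i < j → q i < p j) ∧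
    r = ‖∑ i, (∑ j ∈ Finset.Icc (p i) (q i), a j) • x (p i)‖}

/-- The norm of the Jamesification on finitely supported sequences. -/
noncomputable def jamesNorm {X : Type} [NormedAddCommGroup X] [NormedSpace ℝ X] (x : ℕ → X)
    (a : ℕ →₀ ℝ) : ℝ := sSup (jamesSet x a)

/-- `(J, ι)` is a completion of the finitely supported sequences for the norm `jamesNorm x`. -/
structure IsJamesification {X : Type} [NormedAddCommGroup X] [NormedSpace ℝ X] (x : ℕ → X)
    (J : Type) [NormedAddCommGroup J] [NormedSpace ℝ J] (ι : (ℕ →₀ ℝ) →ₗ[ℝ] J) : Prop where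
  complete : CompleteSpace J
  dense : DenseRange ι
  norm_eq : ∀ a, ‖ι a‖ = jamesNorm x a

end Pool.Agent.Helpers.James
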