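import Mathlib
import Pool.Agent.Helpers.JamesDefs

open Filter Topology

namespace Pool.Agent.Helpers.James

/-! ### The example -/

abbrev E2 : Type := lp (fun _ : ℕ => ℝ) 2
abbrev XX : Type := ℝ × ℝ × E2

noncomputable def bas : ℕ → XX
  | 0 => (1, 0, 0)
  | 1 => (0, 1, 0)
  | (n+2) => (0, 0, lp.single 2 n (1:ℝ))

lemma norm_bas (n : ℕ) : ‖bas n‖ = 1 := by
  match n with
  | 0 => simp [bas, Prod.norm_def]
  | 1 => simp [bas, Prod.norm_def]
  | (n+2) =>
    have h : ‖lp.single (E := fun _ : ℕ => ℝ) 2 n (1:ℝ)‖ = 1 := by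
      rw [lp.norm_single (by norm_num)]; simp
    simp only [bas, Prod.norm_def, norm_zero]
    rw [h]; simp

lemma bas_fst (n : ℕ) : (bas n).1 = if n = 0 then 1 else 0 := by
  match n with
  | 0 => simp [bas]
  | 1 => simp [bas]
  | (n+2) => simp [bas]

lemma bas_snd (n : ℕ) : (bas n).2.1 = if n = 1 then 1 else 0 := by
  match n with
  | 0 => simp [bas]
  | 1 => simp [bas]
  | (n+2) => simp [bas]

lemma refl_hilbert (H : Type) [NormedAddCommGroup H] [InnerProductSpace ℝ H] [CompleteSpace H] :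
    IsReflexiveSpace H := by
  intro φ
  let ψ : StrongDual ℝ H := LinearMap.mkContinuous
    { toFun := fun y => φ (InnerProductSpace.toDual ℝ H y)
      map_add' := by intro a b; simp
      map_smul' := by intro c a; simp } ‖φ‖ (by
        intro y
        have := φ.le_opNorm (InnerProductSpace.toDual ℝ H y)
        simpa using this)
  obtain ⟨v, hv⟩ := (InnerProductSpace.toDual ℝ H).surjective ψ
  refine ⟨v, ?_⟩
  ext f
  obtain ⟨y, rfl⟩ := (InnerProductSpace.toDual ℝ H).surjective f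
  have h1 : ψ y = inner ℝ v y := by rw [← hv]; simp
  have h2 : ψ y = φ (InnerProductSpace.toDual ℝ H y) := rfl
  rw [NormedSpace.dual_def, InnerProductSpace.toDual_apply_apply, ← h2, h1]
  exact real_inner_comm _ _

lemma refl_prod {X Y : Type} [NormedAddCommGroup X] [NormedSpace ℝ X] [NormedAddCommGroup Y]
    [NormedSpace ℝ Y] (hX : IsReflexiveSpace X) (hY : IsReflexiveSpace Y) :
    IsReflexiveSpace (X × Y) := by
  intro φ
  obtain ⟨x, hx⟩ := hX (φ.comp ((ContinuousLinearMap.compL ℝ (X × Y) X ℝ).flip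
    (ContinuousLinearMap.fst ℝ X Y)))
  obtain ⟨y, hy⟩ := hY (φ.comp ((ContinuousLinearMap.compL ℝ (X × Y) Y ℝ).flip
    (ContinuousLinearMap.snd ℝ X Y)))
  refine ⟨(x, y), ?_⟩
  ext f
  have e1 := congrArg (fun g => g (f.comp (ContinuousLinearMap.inl ℝ X Y))) hx
  have e2 := congrArg (fun g => g (f.comp (ContinuousLinearMap.inr ℝ X Y))) hy
  simp only [NormedSpace.dual_def, ContinuousLinearMap.comp_apply,
    ContinuousLinearMap.flip_apply, ContinuousLinearMap.compL_apply,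
    ContinuousLinearMap.inl_apply, ContinuousLinearMap.inr_apply] at e1 e2
  rw [NormedSpace.dual_def]
  have hf : f = (f.comp (ContinuousLinearMap.inl ℝ X Y)).comp (ContinuousLinearMap.fst ℝ X Y)
      + (f.comp (ContinuousLinearMap.inr ℝ X Y)).comp (ContinuousLinearMap.snd ℝ X Y) := by
    apply ContinuousLinearMap.ext
    rintro ⟨u, w⟩
    simp only [ContinuousLinearMap.add_apply, ContinuousLinearMap.comp_apply,
      ContinuousLinearMap.coe_fst', ContinuousLinearMap.coe_snd', ContinuousLinearMap.inl_apply,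
      ContinuousLinearMap.inr_apply]
    rw [← map_add]; simp
  have h3 : f (x, y) = f (x, 0) + f (0, y) := by rw [← map_add]; simp
  rw [h3, e1, e2, ← map_add, ← hf]

lemma refl_XX : IsReflexiveSpace XX :=
  refl_prod (refl_hilbert ℝ) (refl_prod (refl_hilbert ℝ) (refl_hilbert E2))

/-- coordinate functional on `ℓ²` -/
noncomputable def evl (n : ℕ) : E2 →L[ℝ] ℝ := LinearMap.mkContinuous
  { toFun := fun z => z n
    map_add' := by intro a b; rfl
    map_smul' := by intro c a; rfl } 1 (by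
      intro z
      have := lp.norm_apply_le_norm (p := 2) (by norm_num) z n
      rw [one_mul]
      exact this)

lemma evl_apply (n : ℕ) (z : E2) : evl n z = z n := rfl

/-- coordinate functionals on the example -/
noncomputable def crd : ℕ → (XX →L[ℝ] ℝ)
  | 0 => ContinuousLinearMap.fst ℝ ℝ (ℝ × E2)
  | 1 => (ContinuousLinearMap.fst ℝ ℝ E2).comp (ContinuousLinearMap.snd ℝ ℝ (ℝ × E2))
  | (n+2) => (evl n).comp ((ContinuousLinearMap.snd ℝ ℝ E2).comp
      (ContinuousLinearMap.snd ℝ ℝ (ℝ × E2)))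

lemma crd_bas (i j : ℕ) : crd i (bas j) = if j = i then 1 else 0 := by
  match i, j with
  | 0, 0 => simp [crd, bas]
  | 0, 1 => simp [crd, bas]
  | 0, (n+2) => simp [crd, bas]
  | 1, 0 => simp [crd, bas]
  | 1, 1 => simp [crd, bas]
  | 1, (n+2) => simp [crd, bas]
  | (m+2), 0 => simp [crd, bas]
  | (m+2), 1 => simp [crd, bas]
  | (m+2), (n+2) =>
    simp only [crd, bas, ContinuousLinearMap.comp_apply, ContinuousLinearMap.coe_snd',
      evl_apply, lp.single_apply]
    by_cases h : n = m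
    · subst h; simp
    · have : m ≠ n := fun h' => h h'.symm
      simp [this, h]

lemma isBasis : IsUnconditionalBasis bas := by
  intro v
  refine ⟨fun i => crd i v, ?_, ?_⟩
  · rw [← hasSum_nat_add_iff' 2]
    have h1 : v - ∑ i ∈ Finset.range 2, crd i v • bas i = (0, 0, v.2.2) := by
      obtain ⟨u, w, z⟩ := v
      simp [Finset.sum_range_succ, crd, bas]
    rw [h1]
    have h2 : HasSum (fun n : ℕ => lp.single (E := fun _ : ℕ => ℝ) 2 n (v.2.2 n)) v.2.2 :=
      lp.hasSum_single (by norm_num) v.2.2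
    have h3 := (hasSum_zero (α := ℝ) (β := ℕ) (L := .unconditional ℕ)).prodMk
      ((hasSum_zero (α := ℝ) (β := ℕ) (L := .unconditional ℕ)).prodMk h2)
    refine h3.congr_fun ?_
    intro n
    simp only [crd, bas, ContinuousLinearMap.comp_apply, ContinuousLinearMap.coe_snd',
      evl_apply, Prod.smul_mk, smul_zero]
    rw [← lp.single_smul]; simp
  · intro b hb
    funext i
    have h1 : Tendsto (fun n => crd i (∑ j ∈ Finset.range n, b j • bas j)) atTop
        (𝓝 (crd i v)) := ((crd i).continuous.tendsto v).comp hb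
    have h2 : Tendsto (fun n => crd i (∑ j ∈ Finset.range n, b j • bas j)) atTop
        (𝓝 (b i)) := by
      refine tendsto_const_nhds.congr' ?_
      filter_upwards [eventually_gt_atTop i] with n hn
      rw [map_sum, Finset.sum_eq_single i]
      · rw [map_smul, crd_bas]; simp
      · intro j _ hj; rw [map_smul, crd_bas]; simp [hj]
      · intro h; exact absurd (Finset.mem_range.mpr hn) h
    exact tendsto_nhds_unique h2 h1

lemma strictMono_of {k : ℕ} {p q : Fin k → ℕ} (h1 : ∀ i, p i ≤ q i)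
    (h2 : ∀ i j, i < j → q i < p j) : Function.Injective p := by
  intro i j hij
  rcases lt_trichotomy i j with h | h | h
  · have := h1 i; have := h2 i j h; omega
  · exact h
  · have := h1 j; have := h2 j i h; omega

lemma bdd (a : ℕ →₀ ℝ) : BddAbove (jamesSet bas a) := by
  refine ⟨∑ j ∈ a.support, |a j|, ?_⟩
  rintro r ⟨k, p, q, -, h1, h2, rfl⟩
  calc ‖∑ i, (∑ j ∈ Finset.Icc (p i) (q i), a j) • bas (p i)‖
      ≤ ∑ i, ‖(∑ j ∈ Finset.Icc (p i) (q i), a j) • bas (p i)‖ := norm_sum_le _ _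
    _ ≤ ∑ i : Fin k, ∑ j ∈ Finset.Icc (p i) (q i), |a j| := by
        refine Finset.sum_le_sum fun i _ => ?_
        rw [norm_smul, norm_bas, mul_one]
        exact Finset.abs_sum_le_sum_abs _ _
    _ = ∑ j ∈ Finset.univ.biUnion (fun i : Fin k => Finset.Icc (p i) (q i)), |a j| := by
        rw [Finset.sum_biUnion]
        intro i _ i' _ hne
        rw [Function.onFun, Finset.disjoint_left]
        intro j hj hj'
        rw [Finset.mem_Icc] at hj hj'
        rcases lt_or_gt_of_ne hne with h | h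
        · have := h2 i i' h; omega
        · have := h2 i' i h; omega
    _ = ∑ j ∈ (Finset.univ.biUnion (fun i : Fin k => Finset.Icc (p i) (q i))).filter
          (fun j => a j ≠ 0), |a j| := by
        rw [Finset.sum_filter]
        refine Finset.sum_congr rfl fun j _ => ?_
        by_cases h : a j = 0 <;> simp [h]
    _ ≤ ∑ j ∈ a.support, |a j| := by
        refine Finset.sum_le_sum_of_subset_of_nonneg ?_ (fun _ _ _ => abs_nonneg _)
        intro j hj
        rw [Finset.mem_filter] at hj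
        exact Finsupp.mem_support_iff.mpr hj.2

lemma le_jamesNorm (a : ℕ →₀ ℝ) {p q : ℕ} (h : p ≤ q) :
    |∑ j ∈ Finset.Icc p q, a j| ≤ jamesNorm bas a := by
  apply le_csSup (bdd a)
  refine ⟨1, fun _ => p, fun _ => q, le_refl _, fun _ => h, ?_, ?_⟩
  · intro i j hij
    exact absurd hij (by rw [Subsingleton.elim i j]; exact lt_irrefl _)
  · simp [norm_smul, norm_bas]

lemma sum_ite_le {k : ℕ} (p : Fin k → ℕ) (hp : Function.Injective p) (v : ℕ) (c : Fin k → ℝ)
    (M : ℝ) (hM : 0 ≤ M) (h : ∀ i, p i = v → |c i| ≤ M) :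
    |∑ i, c i * (if p i = v then (1:ℝ) else 0)| ≤ M := by
  by_cases hv : ∃ i, p i = v
  · obtain ⟨i, hi⟩ := hv
    rw [Finset.sum_eq_single i]
    · simp only [hi, if_true, mul_one]; exact h i hi
    · intro j _ hj
      rw [if_neg, mul_zero]
      intro h'
      exact hj (hp (h'.trans hi.symm))
    · simp
  · push Not at hv
    simp [hv, hM]

/-- the correction vector -/
noncomputable def wv : ℕ →₀ ℝ := Finsupp.single 1 1 - Finsupp.single 0 2

lemma wv_apply (j : ℕ) : wv j = if j = 1 then 1 else if j = 0 then -2 else 0 := by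
  unfold wv
  rcases j with _ | _ | j
  · simp
  · simp
  · simp

noncomputable def T0lin : (ℕ →₀ ℝ) →ₗ[ℝ] (ℕ →₀ ℝ) where
  toFun a := a + a 0 • wv
  map_add' a b := by rw [Finsupp.add_apply, add_smul]; abel
  map_smul' c a := by
    rw [Finsupp.smul_apply, smul_add, smul_smul, smul_eq_mul, RingHom.id_apply]

lemma T0lin_apply (a : ℕ →₀ ℝ) (j : ℕ) : T0lin a j = a j + a 0 * wv j := by
  simp [T0lin]

lemma T0_invol : Function.Involutive T0lin := by
  intro a
  ext j
  rw [T0lin_apply, T0lin_apply, T0lin_apply]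
  have : wv 0 = -2 := by rw [wv_apply]; simp
  rw [this]; ring

noncomputable def T0 : (ℕ →₀ ℝ) ≃ₗ[ℝ] (ℕ →₀ ℝ) := LinearEquiv.ofInvolutive T0lin T0_invol

lemma T0_apply (a : ℕ →₀ ℝ) (j : ℕ) : T0 a j = a j + a 0 * wv j := T0lin_apply a j

lemma Icc0 (q : ℕ) : Finset.Icc 0 q = insert 0 (Finset.Icc 1 q) := by
  ext j; simp only [Finset.mem_Icc, Finset.mem_insert]; omega

lemma Icc1 (q : ℕ) (h : 1 ≤ q) : Finset.Icc 1 q = insert 1 (Finset.Icc 2 q) := by
  ext j; simp only [Finset.mem_Icc, Finset.mem_insert]; omega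

lemma sum_wv2 (p q : ℕ) (h : 2 ≤ p) : ∑ j ∈ Finset.Icc p q, wv j = 0 := by
  apply Finset.sum_eq_zero
  intro j hj
  rw [Finset.mem_Icc] at hj
  rw [wv_apply, if_neg (by omega), if_neg (by omega)]

lemma sum_wv1 (q : ℕ) (h : 1 ≤ q) : ∑ j ∈ Finset.Icc 1 q, wv j = 1 := by
  rw [Icc1 q h, Finset.sum_insert (by simp), sum_wv2 2 q le_rfl, wv_apply]; simp

lemma sum_T0 (a : ℕ →₀ ℝ) (p q : ℕ) :
    ∑ j ∈ Finset.Icc p q, T0 a j
      = ∑ j ∈ Finset.Icc p q, a j + a 0 * ∑ j ∈ Finset.Icc p q, wv j := by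
  simp only [T0_apply, Finset.sum_add_distrib, Finset.mul_sum]

lemma jamesNorm_nonneg (a : ℕ →₀ ℝ) : 0 ≤ jamesNorm bas a :=
  (abs_nonneg _).trans (le_jamesNorm a (le_refl 0))

lemma key0 (a : ℕ →₀ ℝ) (q : ℕ) : |∑ j ∈ Finset.Icc 0 q, T0 a j| ≤ jamesNorm bas a := by
  rw [sum_T0]
  rcases Nat.eq_zero_or_pos q with h | h
  · subst h
    have h0 := le_jamesNorm a (le_refl 0)
    simp only [Finset.Icc_self, Finset.sum_singleton] at h0 ⊢
    rw [wv_apply]
    simp only [if_true]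
    have : a 0 + a 0 * (if (0:ℕ) = 1 then (1:ℝ) else -2) = - a 0 := by norm_num <;> ring
    rw [this, abs_neg]; exact h0
  · have h1 := le_jamesNorm a h
    rw [Icc0 q, Finset.sum_insert (by simp), Finset.sum_insert (by simp), sum_wv1 q h, wv_apply]
    have : a 0 + ∑ j ∈ Finset.Icc 1 q, a j
        + a 0 * ((if (0:ℕ) = 1 then (1:ℝ) else if (0:ℕ) = 0 then -2 else 0) + 1)
        = ∑ j ∈ Finset.Icc 1 q, a j := by norm_num <;> ring
    rw [this]; exact h1

lemma key1 (a : ℕ →₀ ℝ) (q : ℕ) (hq : 1 ≤ q) :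
    |∑ j ∈ Finset.Icc 1 q, T0 a j| ≤ jamesNorm bas a := by
  rw [sum_T0, sum_wv1 q hq]
  have h1 := le_jamesNorm a (Nat.zero_le q)
  rw [Icc0 q, Finset.sum_insert (by simp)] at h1
  rwa [mul_one, add_comm]

lemma key2 (a : ℕ →₀ ℝ) (p q : ℕ) (hp : 2 ≤ p) :
    ∑ j ∈ Finset.Icc p q, T0 a j = ∑ j ∈ Finset.Icc p q, a j := by
  rw [sum_T0, sum_wv2 p q hp]; simp

lemma key (a : ℕ →₀ ℝ) {k : ℕ} (p q : Fin k → ℕ) (hk : 1 ≤ k) (h1 : ∀ i, p i ≤ q i)
    (h2 : ∀ i j, i < j → q i < p j) :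
    ‖∑ i, (∑ j ∈ Finset.Icc (p i) (q i), T0 a j) • bas (p i)‖ ≤ jamesNorm bas a := by
  have hinj := strictMono_of h1 h2
  have hM := jamesNorm_nonneg a
  rw [Prod.norm_def, Prod.norm_def]
  refine max_le ?_ (max_le ?_ ?_)
  · rw [Prod.fst_sum, Real.norm_eq_abs]
    simp only [Prod.smul_fst, smul_eq_mul, bas_fst]
    refine sum_ite_le p hinj 0 _ _ hM ?_
    intro i hi
    rw [hi]; exact key0 a _
  · rw [Prod.snd_sum, Prod.fst_sum, Real.norm_eq_abs]
    simp only [Prod.smul_snd, Prod.smul_fst, smul_eq_mul, bas_snd]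
    refine sum_ite_le p hinj 1 _ _ hM ?_
    intro i hi
    have := h1 i
    rw [hi]; exact key1 a _ (by omega)
  · have e : (∑ i, (∑ j ∈ Finset.Icc (p i) (q i), T0 a j) • bas (p i)).2.2
        = (∑ i, (∑ j ∈ Finset.Icc (p i) (q i), a j) • bas (p i)).2.2 := by
      rw [Prod.snd_sum, Prod.snd_sum, Prod.snd_sum, Prod.snd_sum]
      refine Finset.sum_congr rfl fun i _ => ?_
      simp only [Prod.smul_snd]
      rcases hpi : p i with _ | _ | n
      · simp [bas]
      · simp [bas]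
      · rw [key2 a _ _ (by omega)]
    rw [e]
    refine (le_trans ?_ (le_csSup (bdd a) ⟨k, p, q, hk, h1, h2, rfl⟩))
    exact (norm_snd_le _).trans (norm_snd_le _)

lemma jamesSet_nonempty (a : ℕ →₀ ℝ) : (jamesSet bas a).Nonempty := by
  refine ⟨_, 1, fun _ => 0, fun _ => 0, le_refl _, fun _ => le_refl _, ?_, rfl⟩
  intro i j hij
  exact absurd hij (by rw [Subsingleton.elim i j]; exact lt_irrefl _)

lemma jamesNorm_T0_le (a : ℕ →₀ ℝ) : jamesNorm bas (T0 a) ≤ jamesNorm bas a := by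
  apply csSup_le (jamesSet_nonempty _)
  rintro r ⟨k, p, q, hk, h1, h2, rfl⟩
  exact key a p q hk h1 h2

lemma jamesNorm_T0 (a : ℕ →₀ ℝ) : jamesNorm bas (T0 a) = jamesNorm bas a := by
  refine le_antisymm (jamesNorm_T0_le a) ?_
  have h := jamesNorm_T0_le (T0 a)
  have e : T0 (T0 a) = a := T0_invol a
  rwa [e] at h

/-! ### Existence of the completion -/

/-- index set of the interval families -/
def Fam : Type := {F : Σ k : ℕ, (Fin k → ℕ) × (Fin k → ℕ) //
  1 ≤ F.1 ∧ (∀ i, F.2.1 i ≤ F.2.2 i) ∧ ∀ i j, i < j → F.2.2 i < F.2.1 j}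

noncomputable def psi (a : ℕ →₀ ℝ) (F : Fam) : XX :=
  ∑ i, (∑ j ∈ Finset.Icc (F.1.2.1 i) (F.1.2.2 i), a j) • bas (F.1.2.1 i)

lemma range_psi (a : ℕ →₀ ℝ) : Set.range (fun F : Fam => ‖psi a F‖) = jamesSet bas a := by
  ext r
  constructor
  · rintro ⟨⟨⟨k, p, q⟩, hk, h1, h2⟩, rfl⟩
    exact ⟨k, p, q, hk, h1, h2, rfl⟩
  · rintro ⟨k, p, q, hk, h1, h2, rfl⟩
    exact ⟨⟨⟨k, p, q⟩, hk, h1, h2⟩, rfl⟩

noncomputable def Phi : (ℕ →₀ ℝ) →ₗ[ℝ] lp (fun _ : Fam => XX) ⊤ where
  toFun a := ⟨psi a, by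
    apply memℓp_infty
    have := bdd a
    rw [← range_psi] at this
    exact this⟩
  map_add' a b := by
    ext F : 2
    show psi (a + b) F = psi a F + psi b F
    simp only [psi, Finsupp.add_apply, Finset.sum_add_distrib, add_smul]
  map_smul' c a := by
    ext F : 2
    show psi (c • a) F = c • psi a F
    simp only [psi, Finsupp.smul_apply, smul_eq_mul, ← Finset.mul_sum, mul_smul,
      ← Finset.smul_sum]

lemma norm_Phi (a : ℕ →₀ ℝ) : ‖Phi a‖ = jamesNorm bas a := by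
  rw [lp.norm_eq_ciSup]
  show sSup (Set.range (fun F : Fam => ‖psi a F‖)) = _
  rw [range_psi]; rfl

lemma exists_completion : ∃ (J : Type) (_ : NormedAddCommGroup J) (_ : NormedSpace ℝ J)
    (ι : (ℕ →₀ ℝ) →ₗ[ℝ] J), IsJamesification bas J ι := by
  let S : Submodule ℝ (lp (fun _ : Fam => XX) ⊤) := (LinearMap.range Phi).topologicalClosure
  have hmem : ∀ a, Phi a ∈ S := fun a =>
    (LinearMap.range Phi).le_topologicalClosure (LinearMap.mem_range_self Phi a)
  refine ⟨S, inferInstance, inferInstance, Phi.codRestrict S hmem, ?_, ?_, ?_⟩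
  · exact (Submodule.isClosed_topologicalClosure _).completeSpace_coe
  · rw [DenseRange, Subtype.dense_iff]
    intro z hz
    have hz' : z ∈ closure (Set.range Phi) := by
      have := hz
      exact this
    refine closure_mono ?_ hz'
    rintro _ ⟨a, rfl⟩
    exact ⟨⟨Phi a, hmem a⟩, ⟨a, rfl⟩, rfl⟩
  · intro a
    show ‖Phi a‖ = _
    exact norm_Phi a

theorem main_result : ∃ (X : Type) (_ : NormedAddCommGroup X) (_ : NormedSpace ℝ X)
    (_ : CompleteSpace X) (x : ℕ → X),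
    IsReflexiveSpace X ∧ IsUnconditionalBasis x ∧ (∀ i, ‖x i‖ = 1) ∧
    (∀ a, BddAbove (jamesSet x a)) ∧
    (∃ (J : Type) (_ : NormedAddCommGroup J) (_ : NormedSpace ℝ J)
      (ι : (ℕ →₀ ℝ) →ₗ[ℝ] J), IsJamesification x J ι) ∧
    ∀ (J : Type) [NormedAddCommGroup J] [NormedSpace ℝ J] (ι : (ℕ →₀ ℝ) →ₗ[ℝ] J),
      IsJamesification x J ι →
        ∃ T : J ≃ₗᵢ[ℝ] J, (∃ z, T z ≠ z) ∧ (∃ z, T z ≠ -z) := by
  refine ⟨XX, inferInstance, inferInstance, inferInstance, bas, refl_XX, isBasis, norm_bas,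
    bdd, exists_completion, ?_⟩
  intro J _ _ ι hJ
  have := hJ.complete
  have hnorm : ∀ a, ‖ι (T0 a)‖ = ‖ι a‖ := fun a => by
    rw [hJ.norm_eq, hJ.norm_eq, jamesNorm_T0]
  refine ⟨T0.extendOfIsometry ι ι hJ.dense hJ.dense hnorm, ⟨ι (Finsupp.single 0 1), ?_⟩,
    ⟨ι (Finsupp.single 1 1), ?_⟩⟩
  · rw [LinearEquiv.extendOfIsometry_eq]
    intro h
    have h1 : ‖ι (T0 (Finsupp.single 0 1) - Finsupp.single 0 1)‖ = 0 := by
      rw [map_sub, h, sub_self, norm_zero]
    rw [hJ.norm_eq] at h1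
    have h2 := le_jamesNorm (T0 (Finsupp.single 0 1) - Finsupp.single 0 1) (le_refl 0)
    rw [h1] at h2
    simp only [Finset.Icc_self, Finset.sum_singleton, Finsupp.sub_apply, T0_apply] at h2
    rw [wv_apply] at h2
    norm_num at h2
  · rw [LinearEquiv.extendOfIsometry_eq]
    intro h
    have h1 : ‖ι (T0 (Finsupp.single 1 1) + Finsupp.single 1 1)‖ = 0 := by
      rw [map_add, h, neg_add_cancel, norm_zero]
    rw [hJ.norm_eq] at h1
    have h2 := le_jamesNorm (T0 (Finsupp.single 1 1) + Finsupp.single 1 1) (le_refl 1)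
    rw [h1] at h2
    simp only [Finset.Icc_self, Finset.sum_singleton, Finsupp.add_apply, T0_apply] at h2
    rw [wv_apply] at h2
    norm_num at h2

end Pool.Agent.Helpers.James
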