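import Mathlib

set_option autoImplicit false

universe u v

namespace Pool.Agent.Ku

/-- `A` is algebraic over `F`: every element generates a finite-dimensional (non-unital)
subalgebra. -/
def IsAlgebraicAlg (F : Type u) (A : Type v) [Field F] [NonUnitalRing A] [Module F A]
    [IsScalarTower F A A] [SMulCommClass F A A] : Prop :=
  ∀ a : A, FiniteDimensional F (NonUnitalAlgebra.adjoin F ({a} : Set A))

/-- The dimension of `A` over `F` is finite or countably infinite. -/
def CountableDim (F : Type u) (A : Type v) [Field F] [NonUnitalRing A] [Module F A] : Prop :=
  Module.rank F A ≤ Cardinal.aleph0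

/-- `U` is universal: algebraic, of countable dimension, and every algebraic algebra of countable
dimension is a homomorphic image of `U`. -/
def IsUniversal (F : Type u) (U : Type v) [Field F] [NonUnitalRing U] [Module F U]
    [IsScalarTower F U U] [SMulCommClass F U U] : Prop :=
  IsAlgebraicAlg F U ∧ CountableDim F U ∧
    ∀ (A : Type u) [NonUnitalRing A] [Module F A] [IsScalarTower F A A] [SMulCommClass F A A],
      IsAlgebraicAlg F A → CountableDim F A → ∃ φ : U →ₙₐ[F] A, Function.Surjective φ

end Pool.Agent.Ku
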