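import Mathlib

set_option autoImplicit false

namespace Pool.Agent.Ku

variable {F : Type*} [Field F]

/-- Cauchy product of noncommutative power series -/
def cau : (List Bool → F) → (List Bool → F) → List Bool → F
  | η, ψ, [] => η [] * ψ []
  | η, ψ, x :: w => η [] * ψ (x :: w) + cau (fun v => η (x :: v)) ψ w

/-- the unit series -/
def dl : List Bool → F := fun w => if w = [] then 1 else 0

lemma dl_nil : (dl : List Bool → F) [] = 1 := by simp [dl]

lemma dl_cons (x : Bool) (w : List Bool) : (dl : List Bool → F) (x :: w) = 0 := by simp [dl]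

lemma cau_add_left (η η' ψ : List Bool → F) : cau (η + η') ψ = cau η ψ + cau η' ψ := by
  funext w
  induction w generalizing η η' with
  | nil => simp [cau, add_mul]
  | cons x w ih =>
    have := ih (fun v => η (x :: v)) (fun v => η' (x :: v))
    simp only [cau, Pi.add_apply] at this ⊢
    have e : (fun v => η (x :: v) + η' (x :: v)) =
        (fun v => η (x :: v)) + (fun v => η' (x :: v)) := rfl
    rw [e, this]
    ring

lemma cau_smul_left (c : F) (η ψ : List Bool → F) : cau (c • η) ψ = c • cau η ψ := by
  funext w
  induction w generalizing η with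
  | nil => simp [cau, mul_assoc]
  | cons x w ih =>
    have := ih (fun v => η (x :: v))
    simp only [cau, Pi.smul_apply, smul_eq_mul] at this ⊢
    have e : (fun v => c * η (x :: v)) = c • (fun v => η (x :: v)) := rfl
    rw [e, this]
    ring

lemma cau_add_right (η ψ ψ' : List Bool → F) : cau η (ψ + ψ') = cau η ψ + cau η ψ' := by
  funext w
  induction w generalizing η with
  | nil => simp [cau, mul_add]
  | cons x w ih =>
    have := ih (fun v => η (x :: v))
    simp only [cau, Pi.add_apply] at this ⊢
    rw [this]
    ring

lemma cau_smul_right (c : F) (η ψ : List Bool → F) : cau η (c • ψ) = c • cau η ψ := by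
  funext w
  induction w generalizing η with
  | nil => simp [cau, mul_left_comm]
  | cons x w ih =>
    have := ih (fun v => η (x :: v))
    simp only [cau, Pi.smul_apply, smul_eq_mul] at this ⊢
    rw [this]
    ring

lemma cau_zero_left (ψ : List Bool → F) : cau 0 ψ = 0 := by
  have := cau_smul_left (0 : F) 0 ψ
  simpa using this

lemma cau_zero_right (η : List Bool → F) : cau η 0 = 0 := by
  have := cau_smul_right (0 : F) η 0
  simpa using this

lemma cau_dl_left (ψ : List Bool → F) : cau dl ψ = ψ := by
  funext w
  cases w with
  | nil => simp [cau, dl_nil]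
  | cons x w =>
    have e : (fun v => (dl : List Bool → F) (x :: v)) = 0 := by
      funext v
      exact dl_cons x v
    simp only [cau, dl_nil, one_mul]
    rw [e, cau_zero_left]
    simp

/-- the bilinear version -/
def cauL (η : List Bool → F) : (List Bool → F) →ₗ[F] (List Bool → F) where
  toFun := cau η
  map_add' := cau_add_right η
  map_smul' c ψ := cau_smul_right c η ψ

lemma cau_assoc (a b c : List Bool → F) : cau (cau a b) c = cau a (cau b c) := by
  funext w
  induction w generalizing a b with
  | nil => simp [cau, mul_assoc]
  | cons x w ih =>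
    have e : (fun v => cau a b (x :: v)) = a [] • (fun v => b (x :: v)) +
        cau (fun v => a (x :: v)) b := by
      funext v
      simp [cau]
    have h1 : cau (cau a b) c (x :: w) = cau a b [] * c (x :: w) +
        cau (fun v => cau a b (x :: v)) c w := rfl
    have h2 : cau a (cau b c) (x :: w) = a [] * cau b c (x :: w) +
        cau (fun v => a (x :: v)) (cau b c) w := rfl
    have h3 : cau b c (x :: w) = b [] * c (x :: w) + cau (fun v => b (x :: v)) c w := rfl
    rw [h1, e, cau_add_left, cau_smul_left, h2, h3]
    simp only [Pi.add_apply, Pi.smul_apply, smul_eq_mul]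
    rw [ih]
    simp only [cau]
    ring

/-- shift by a word -/
def sh (α : List Bool) : (List Bool → F) →ₗ[F] (List Bool → F) where
  toFun φ := fun v => φ (α ++ v)
  map_add' _ _ := rfl
  map_smul' _ _ := rfl

lemma sh_apply (α : List Bool) (φ : List Bool → F) (v : List Bool) : sh α φ v = φ (α ++ v) := rfl

lemma sh_nil (φ : List Bool → F) : sh [] φ = φ := rfl

lemma sh_append (α β : List Bool) (φ : List Bool → F) : sh (α ++ β) φ = sh β (sh α φ) := by
  funext v
  simp [sh_apply, List.append_assoc]

lemma sh_cons (x : Bool) (α : List Bool) (φ : List Bool → F) :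
    sh (x :: α) φ = sh α (fun v => φ (x :: v)) := rfl

lemma tail_cau (x : Bool) (η ψ : List Bool → F) :
    (fun v => cau η ψ (x :: v)) = η [] • (fun v => ψ (x :: v)) + cau (fun v => η (x :: v)) ψ := by
  funext v
  simp [cau]

/-- shift of a product, when the left factor vanishes on short words -/
lemma sh_cau (α : List Bool) (η ψ : List Bool → F) (h : ∀ u : List Bool, u.length < α.length →
    η u = 0) : sh α (cau η ψ) = cau (sh α η) ψ := by
  induction α generalizing η with
  | nil => rfl
  | cons x α ih =>
    rw [sh_cons, sh_cons, tail_cau, h [] (by simp), zero_smul, zero_add]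
    apply ih
    intro u hu
    apply h
    simpa using hu

/-- shift of a product in general -/
lemma sh_cau_sub (α : List Bool) (η ψ : List Bool → F) :
    sh α (cau η ψ) - cau (sh α η) ψ ∈ Submodule.span F
      {g | ∃ z : List Bool, 1 ≤ z.length ∧ z.length ≤ α.length ∧ g = sh z ψ} := by
  induction α generalizing η ψ with
  | nil => rw [sh_nil, sh_nil, sub_self]; exact Submodule.zero_mem _
  | cons x α ih =>
    rw [sh_cons, sh_cons, tail_cau, map_add, map_smul, add_sub_assoc]
    apply Submodule.add_mem
    · apply Submodule.smul_mem
      apply Submodule.subset_span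
      exact ⟨x :: α, by simp, le_rfl, rfl⟩
    · refine Submodule.span_mono ?_ (ih (fun v => η (x :: v)) ψ)
      rintro g ⟨z, h1, h2, h3⟩
      exact ⟨z, h1, h2.trans (by simp), h3⟩

/-- homogeneous of degree `m` -/
def Hg (m : ℕ) (φ : List Bool → F) : Prop := ∀ w : List Bool, w.length ≠ m → φ w = 0

lemma Hg.cau {m n : ℕ} {η ψ : List Bool → F} (hη : Hg m η) (hψ : Hg n ψ) :
    Hg (m + n) (cau η ψ) := by
  intro w hw
  induction m generalizing η w with
  | zero =>
    have e : η = η [] • dl := by
      funext v
      cases v with
      | nil => simp [dl_nil]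
      | cons x v => simp [dl_cons, hη (x :: v) (by simp)]
    rw [e, cau_smul_left, cau_dl_left]
    simp [hψ w (by simpa using hw)]
  | succ m ih =>
    cases w with
    | nil =>
      simp [Pool.Agent.Ku.cau, hη [] (by simp)]
    | cons x w =>
      simp only [Pool.Agent.Ku.cau, hη [] (by simp), zero_mul, zero_add]
      apply ih
      · intro v hv
        apply hη
        simpa using hv
      · simp only [List.length_cons] at hw
        omega

lemma Hg.sh_eq {m : ℕ} {η : List Bool → F} (hη : Hg m η) {α : List Bool} (hα : α.length = m) :
    sh α η = η α • dl := by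
  funext v
  rw [sh_apply]
  cases v with
  | nil => simp [dl_nil]
  | cons x v =>
    rw [hη _ (by simp; omega)]
    simp [dl_cons]

lemma Hg.sh_cau {m : ℕ} {η : List Bool → F} (hη : Hg m η) {α : List Bool} (hα : α.length = m)
    (ψ : List Bool → F) : sh α (Pool.Agent.Ku.cau η ψ) = η α • ψ := by
  rw [Pool.Agent.Ku.sh_cau α η ψ (fun u hu => hη u (by omega)), hη.sh_eq hα, cau_smul_left,
    cau_dl_left]

end Pool.Agent.Ku
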