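import Mathlib
import Pool.Agent.Helpers.KuSer

set_option autoImplicit false

namespace Pool.Agent.Ku

variable {F : Type*} [Field F]

/-- operators without constant term, of degree at most `d` -/
def PP (F : Type*) [Field F] (d : ℕ) : Submodule F (Module.End F (List Bool → F)) :=
  Submodule.span F {T | ∃ w : List Bool, 1 ≤ w.length ∧ w.length ≤ d ∧ T = sh w}

/-- vanishing on long words -/
def Van (c : ℕ) (η : List Bool → F) : Prop := ∀ u : List Bool, c ≤ u.length → η u = 0

lemma PP.van {d : ℕ} {P : Module.End F (List Bool → F)} (hP : P ∈ PP F d) {c : ℕ}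
    {η : List Bool → F} (hη : Van (c + 1) η) : Van c (P η) := by
  intro u hu
  induction hP using Submodule.span_induction with
  | mem T hT =>
    obtain ⟨w, h1, _, rfl⟩ := hT
    rw [sh_apply]
    apply hη
    rw [List.length_append]
    omega
  | zero => simp
  | add S T _ _ hS hT => simp [hS, hT]
  | smul a T _ hT => simp [hT]

lemma PP.cau {d : ℕ} {P : Module.End F (List Bool → F)} (hP : P ∈ PP F d)
    {η : List Bool → F} (ψ : List Bool → F) (hη : ∀ u : List Bool, u.length < d → η u = 0) :
    P (cau η ψ) = cau (P η) ψ := by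
  induction hP using Submodule.span_induction with
  | mem T hT =>
    obtain ⟨w, _, h2, rfl⟩ := hT
    exact sh_cau w η ψ (fun u hu => hη u (by omega))
  | zero => simp [cau_zero_left]
  | add S T _ _ hS hT =>
    rw [LinearMap.add_apply, hS, hT, LinearMap.add_apply, cau_add_left]
  | smul a T _ hT =>
    rw [LinearMap.smul_apply, hT, LinearMap.smul_apply, cau_smul_left]

/-- span of the short shifts of `ψ` -/
def SS (d : ℕ) (ψ : List Bool → F) : Submodule F (List Bool → F) :=
  Submodule.span F {g | ∃ z : List Bool, 1 ≤ z.length ∧ z.length ≤ d ∧ g = sh z ψ}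

lemma PP.cau_sub {d : ℕ} {P : Module.End F (List Bool → F)} (hP : P ∈ PP F d)
    (η ψ : List Bool → F) : P (Pool.Agent.Ku.cau η ψ) - Pool.Agent.Ku.cau (P η) ψ ∈ SS d ψ := by
  induction hP using Submodule.span_induction with
  | mem T hT =>
    obtain ⟨w, _, h2, rfl⟩ := hT
    refine Submodule.span_mono ?_ (sh_cau_sub w η ψ)
    rintro g ⟨z, h3, h4, h5⟩
    exact ⟨z, h3, h4.trans h2, h5⟩
  | zero =>
    simp only [LinearMap.zero_apply, cau_zero_left, sub_zero]
    exact Submodule.zero_mem _
  | add S T _ _ hS hT =>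
    rw [LinearMap.add_apply, LinearMap.add_apply, cau_add_left, add_sub_add_comm]
    exact Submodule.add_mem _ hS hT
  | smul a T _ hT =>
    rw [LinearMap.smul_apply, LinearMap.smul_apply, cau_smul_left, ← smul_sub]
    exact Submodule.smul_mem _ _ hT

lemma pow_van {d : ℕ} {P : Module.End F (List Bool → F)} (hP : P ∈ PP F d) {c k : ℕ}
    (hck : c ≤ k) {η : List Bool → F} (hη : Van c η) : (P ^ k) η = 0 := by
  induction k generalizing c η with
  | zero =>
    have : c = 0 := by omega
    subst this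
    funext u
    exact hη u (Nat.zero_le _)
  | succ k ih =>
    rw [pow_succ]
    change (P ^ k) (P η) = 0
    rcases Nat.eq_zero_or_pos c with h | h
    · subst h
      have e : η = 0 := funext (fun u => hη u (Nat.zero_le _))
      rw [e, map_zero, map_zero]
    · obtain ⟨c', rfl⟩ : ∃ c', c = c' + 1 := ⟨c - 1, by omega⟩
      exact ih (by omega) (PP.van hP hη)

/-- L1 -/
lemma pow_cau_zero {d : ℕ} {P : Module.End F (List Bool → F)} (hP : P ∈ PP F d)
    (ψ : List Bool → F) (n' : ℕ)
    (hψ : ∀ z : List Bool, z.length ≤ d → ∀ k, n' ≤ k → (P ^ k) (sh z ψ) = 0) (c : ℕ) :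
    ∀ (η : List Bool → F), Van c η → ∀ n, c + n' ≤ n → (P ^ n) (cau η ψ) = 0 := by
  induction c with
  | zero =>
    intro η hη n _
    have e : η = 0 := funext (fun u => hη u (Nat.zero_le _))
    rw [e, cau_zero_left, map_zero]
  | succ c ih =>
    intro η hη n hn
    obtain ⟨n1, rfl⟩ : ∃ n1, n = n1 + 1 := ⟨n - 1, by omega⟩
    rw [pow_succ]
    change (P ^ n1) (P (cau η ψ)) = 0
    have e : P (cau η ψ) = cau (P η) ψ + (P (cau η ψ) - cau (P η) ψ) := by abel
    rw [e, map_add, ih (P η) (PP.van hP hη) n1 (by omega), zero_add]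
    have hmem := PP.cau_sub hP η ψ
    have hker : SS d ψ ≤ LinearMap.ker (P ^ n1) := by
      unfold SS
      rw [Submodule.span_le]
      rintro g ⟨z, _, h2, rfl⟩
      exact hψ z h2 n1 (by omega)
    exact hker hmem

/-- L2 -/
lemma pow_cau_eq {d : ℕ} {P : Module.End F (List Bool → F)} (hP : P ∈ PP F d)
    (η ψ : List Bool → F) (hη : ∀ l : ℕ, ∀ u : List Bool, u.length < d → (P ^ l) η u = 0)
    (l : ℕ) : (P ^ l) (cau η ψ) = cau ((P ^ l) η) ψ := by
  induction l with
  | zero => rfl
  | succ l ih =>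
    rw [pow_succ']
    change P ((P ^ l) (cau η ψ)) = cau (P ((P ^ l) η)) ψ
    rw [ih]
    exact PP.cau hP ψ (hη l)

/-- products of `M` elements of `L` -/
def TT (L : Submodule F (List Bool → F)) : ℕ → Submodule F (List Bool → F)
  | 0 => Submodule.span F {dl}
  | (M + 1) => Submodule.span F {g | ∃ η ∈ L, ∃ ψ ∈ TT L M, g = cau η ψ}

lemma TT_mono {L L' : Submodule F (List Bool → F)} (h : L ≤ L') (M : ℕ) : TT L M ≤ TT L' M := by
  induction M with
  | zero => exact le_rfl
  | succ M ih =>
    apply Submodule.span_mono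
    rintro g ⟨η, hη, ψ, hψ, rfl⟩
    exact ⟨η, h hη, ψ, ih hψ, rfl⟩

lemma TT_mul {L : Submodule F (List Bool → F)} (N K : ℕ) {φ ψ : List Bool → F}
    (hφ : φ ∈ TT L N) (hψ : ψ ∈ TT L K) : cau φ ψ ∈ TT L (N + K) := by
  induction N generalizing φ with
  | zero =>
    obtain ⟨a, rfl⟩ := Submodule.mem_span_singleton.mp hφ
    rw [cau_smul_left, cau_dl_left, zero_add]
    exact Submodule.smul_mem _ _ hψ
  | succ N ih =>
    induction hφ using Submodule.span_induction with
    | mem g hg =>
      obtain ⟨η, hη, ψ', hψ', rfl⟩ := hg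
      rw [cau_assoc, Nat.succ_add]
      exact Submodule.subset_span ⟨η, hη, _, ih hψ', rfl⟩
    | zero => rw [cau_zero_left]; exact Submodule.zero_mem _
    | add a b _ _ ha hb => rw [cau_add_left]; exact Submodule.add_mem _ ha hb
    | smul c a _ ha => rw [cau_smul_left]; exact Submodule.smul_mem _ _ ha

lemma TT_sub {L L' : Submodule F (List Bool → F)} {N : ℕ} (h : L' ≤ TT L N) (M : ℕ) :
    TT L' M ≤ TT L (N * M) := by
  induction M with
  | zero => exact le_rfl
  | succ M ih =>
    change Submodule.span F _ ≤ _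
    rw [Submodule.span_le]
    rintro g ⟨η, hη, ψ, hψ, rfl⟩
    rw [Nat.mul_succ, add_comm]
    exact TT_mul N (N * M) (h hη) (ih hψ)

lemma TT_hg {L : Submodule F (List Bool → F)} {m : ℕ} (hL : ∀ η ∈ L, Hg m η) (M : ℕ) :
    ∀ ψ ∈ TT L M, Hg (m * M) ψ := by
  induction M with
  | zero =>
    intro ψ hψ
    obtain ⟨a, rfl⟩ := Submodule.mem_span_singleton.mp hψ
    intro w hw
    cases w with
    | nil => simp at hw
    | cons x w => simp [dl_cons]
  | succ M ih =>
    intro ψ hψ
    induction hψ using Submodule.span_induction with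
    | mem g hg =>
      obtain ⟨η, hη, ψ', hψ', rfl⟩ := hg
      rw [Nat.mul_succ, add_comm]
      exact (hL η hη).cau (ih ψ' hψ')
    | zero => intro w _; rfl
    | add a b _ _ ha hb => intro w hw; simp [ha w hw, hb w hw]
    | smul c a _ ha => intro w hw; simp [ha w hw]

/-- the vanishing condition at a stage -/
def Cond (d : ℕ) (P : Module.End F (List Bool → F)) (η : List Bool → F) : Prop :=
  ∀ z : List Bool, z.length ≤ d → ∀ l : ℕ, ∀ u : List Bool, u.length < d →
    (P ^ l) (sh z η) u = 0

lemma Van.sh {c : ℕ} {η : List Bool → F} (hη : Van c η) (α : List Bool) : Van c (sh α η) := by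
  intro u hu
  rw [sh_apply]
  apply hη
  rw [List.length_append]
  omega

lemma Hg.van {m : ℕ} {η : List Bool → F} (hη : Hg m η) : Van (m + 1) η := by
  intro u hu
  exact hη u (by omega)

lemma dl_van : Van 1 (dl : List Bool → F) := by
  intro u hu
  cases u with
  | nil => simp at hu
  | cons x u => exact dl_cons x u

/-- (Z) -/
lemma TT_Z {d m : ℕ} {P : Module.End F (List Bool → F)} (hP : P ∈ PP F d) (hdm : d < m)
    {L : Submodule F (List Bool → F)} (hL : ∀ η ∈ L, Hg m η) (hC : ∀ η ∈ L, Cond d P η) (M : ℕ) :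
    ∀ ψ ∈ TT L M, ∀ z : List Bool, z.length ≤ d → ∀ k, m + 1 ≤ k → (P ^ k) (sh z ψ) = 0 := by
  intro ψ hψ z hz k hk
  cases M with
  | zero =>
    obtain ⟨a, rfl⟩ := Submodule.mem_span_singleton.mp hψ
    rw [map_smul, map_smul, pow_van hP (by omega) (dl_van.sh z), smul_zero]
  | succ M =>
    induction hψ using Submodule.span_induction with
    | mem g hg =>
      obtain ⟨η, hη, ψ', hψ', rfl⟩ := hg
      rw [sh_cau z η ψ' (fun u hu => hL η hη u (by omega)),
        pow_cau_eq hP _ _ (fun l u hu => hC η hη z hz l u hu),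
        pow_van hP hk ((hL η hη).van.sh z), cau_zero_left]
    | zero => simp
    | add a b _ _ ha hb => rw [map_add, map_add, ha, hb, add_zero]
    | smul c a _ ha => rw [map_smul, map_smul, ha, smul_zero]

/-- (W) -/
lemma TT_W {d m : ℕ} {P : Module.End F (List Bool → F)} (hP : P ∈ PP F d) (hdm : d < m)
    {L : Submodule F (List Bool → F)} (hL : ∀ η ∈ L, Hg m η) (hC : ∀ η ∈ L, Cond d P η) (M : ℕ) :
    ∀ ψ ∈ TT L M, ∀ α : List Bool, ∀ k, 2 * m + 2 ≤ k → (P ^ k) (sh α ψ) = 0 := by
  induction M with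
  | zero =>
    intro ψ hψ α k hk
    obtain ⟨a, rfl⟩ := Submodule.mem_span_singleton.mp hψ
    rw [map_smul, map_smul, pow_van hP (by omega) (dl_van.sh α), smul_zero]
  | succ M ih =>
    intro ψ hψ α k hk
    induction hψ using Submodule.span_induction with
    | mem g hg =>
      obtain ⟨η, hη, ψ', hψ', rfl⟩ := hg
      by_cases hα : α.length < m
      · rw [sh_cau α η ψ' (fun u hu => hL η hη u (by omega))]
        exact pow_cau_zero hP ψ' (m + 1) (TT_Z hP hdm hL hC M ψ' hψ') (m + 1) _
          ((hL η hη).van.sh α) k (by omega)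
      · have e : α = α.take m ++ α.drop m := (List.take_append_drop m α).symm
        rw [e, sh_append, (hL η hη).sh_cau (by rw [List.length_take]; omega), map_smul, map_smul,
          ih ψ' hψ' _ k hk, smul_zero]
    | zero => simp
    | add a b _ _ ha hb => rw [map_add, map_add, ha, hb, add_zero]
    | smul c a _ ha => rw [map_smul, map_smul, ha, smul_zero]

end Pool.Agent.Ku
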