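import Mathlib
import Pool.Agent.Helpers.KuOp

set_option autoImplicit false

namespace Pool.Agent.Ku

variable {F : Type*} [Field F]

lemma dl_ne_zero : (dl : List Bool → F) ≠ 0 := by
  intro h
  have := congrFun h []
  rw [dl_nil] at this
  exact one_ne_zero this

lemma big_subspace {m : ℕ} {l0 l1 : List Bool → F} (h0 : Hg m l0) (h1 : Hg m l1)
    (li : LinearIndependent F ![l0, l1]) (N : ℕ) :
    ∃ V : Submodule F (List Bool → F), V ≤ TT (Submodule.span F {l0, l1}) N ∧
      FiniteDimensional F V ∧ Module.finrank F V = 2 ^ N := by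
  induction N with
  | zero =>
    refine ⟨Submodule.span F {dl}, le_rfl, inferInstance, ?_⟩
    rw [finrank_span_singleton dl_ne_zero, pow_zero]
  | succ N ih =>
    obtain ⟨V, hV1, hV2, hV3⟩ := ih
    let J : (V × V) →ₗ[F] (List Bool → F) :=
      LinearMap.coprod ((cauL l0).comp V.subtype) ((cauL l1).comp V.subtype)
    have hJ : ∀ a b : V, J (a, b) = cau l0 a + cau l1 b := fun a b => rfl
    have hinj : Function.Injective J := by
      rw [← LinearMap.ker_eq_bot, Submodule.eq_bot_iff]
      rintro ⟨a, b⟩ hab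
      have hab' : cau l0 (a : List Bool → F) + cau l1 (b : List Bool → F) = 0 := hab
      have key : ∀ w : List Bool, (a : List Bool → F) w = 0 ∧ (b : List Bool → F) w = 0 := by
        intro w
        have h2 : (a : List Bool → F) w • l0 + (b : List Bool → F) w • l1 = 0 := by
          funext α
          by_cases hα : α.length = m
          · have h3 := congrArg (sh α) hab'
            rw [map_add, h0.sh_cau hα, h1.sh_cau hα, map_zero] at h3
            have h4 := congrFun h3 w
            simp only [Pi.add_apply, Pi.smul_apply, smul_eq_mul, Pi.zero_apply] at h4 ⊢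
            rw [mul_comm, mul_comm (b.1 w)]
            exact h4
          · simp [h0 α hα, h1 α hα]
        exact LinearIndependent.pair_iff.mp li _ _ h2
      have ha : a = 0 := Subtype.ext (funext fun w => (key w).1)
      have hb : b = 0 := Subtype.ext (funext fun w => (key w).2)
      rw [ha, hb]
      rfl
    refine ⟨LinearMap.range J, ?_, inferInstance, ?_⟩
    · rintro _ ⟨⟨a, b⟩, rfl⟩
      rw [hJ]
      apply Submodule.add_mem
      · exact Submodule.subset_span ⟨l0, Submodule.subset_span (by simp), a, hV1 a.2, rfl⟩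
      · exact Submodule.subset_span ⟨l1, Submodule.subset_span (by simp), b, hV1 b.2, rfl⟩
    · rw [LinearMap.finrank_range_of_inj hinj, Module.finrank_prod, hV3, pow_succ]
      ring

lemma exists_pair {κ : Type} [Fintype κ] (V : Submodule F (List Bool → F))
    [FiniteDimensional F V] (E : (List Bool → F) →ₗ[F] (κ → F))
    (h : Fintype.card κ + 2 ≤ Module.finrank F V) :
    ∃ x y : List Bool → F, x ∈ V ∧ y ∈ V ∧ E x = 0 ∧ E y = 0 ∧ LinearIndependent F ![x, y] := by
  let f : V →ₗ[F] (κ → F) := E.comp V.subtype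
  have h1 := LinearMap.finrank_range_add_finrank_ker f
  have h2 : Module.finrank F (LinearMap.range f) ≤ Fintype.card κ := by
    have := Submodule.finrank_le (LinearMap.range f)
    rwa [Module.finrank_fintype_fun_eq_card] at this
  have h3 : 1 < Module.finrank F (LinearMap.ker f) := by omega
  have h4 : Nontrivial (LinearMap.ker f) := Module.nontrivial_of_finrank_pos (R := F) (by omega)
  obtain ⟨x, hx⟩ := exists_ne (0 : LinearMap.ker f)
  have h5 : (x : LinearMap.ker f) ≠ 0 := fun h => hx h
  obtain ⟨y, hy⟩ := exists_linearIndependent_pair_of_one_lt_finrank (R := F)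
    (M := LinearMap.ker f) h3 h5
  refine ⟨x.1.1, y.1.1, x.1.2, y.1.2, x.2, y.2, ?_⟩
  rw [LinearIndependent.pair_iff]
  intro s t hst
  apply LinearIndependent.pair_iff.mp hy s t
  apply Subtype.ext
  apply Subtype.ext
  exact hst

structure St (F : Type*) [Field F] where
  m : ℕ
  hm : 1 ≤ m
  l0 : List Bool → F
  l1 : List Bool → F
  h0 : Hg m l0
  h1 : Hg m l1
  li : LinearIndependent F ![l0, l1]

def St.L (s : St F) : Submodule F (List Bool → F) := Submodule.span F {s.l0, s.l1}

lemma hg_span {m : ℕ} {l0 l1 : List Bool → F} (h0 : Hg m l0) (h1 : Hg m l1) :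
    ∀ η ∈ Submodule.span F {l0, l1}, Hg m η := by
  intro η hη
  induction hη using Submodule.span_induction with
  | mem g hg =>
    rcases hg with rfl | rfl
    · exact h0
    · exact h1
  | zero => intro w _; rfl
  | add a b _ _ ha hb => intro w hw; simp [ha w hw, hb w hw]
  | smul c a _ ha => intro w hw; simp [ha w hw]

lemma St.L_hg (s : St F) : ∀ η ∈ s.L, Hg s.m η := hg_span s.h0 s.h1

lemma cond_span {d : ℕ} {P : Module.End F (List Bool → F)} {l0 l1 : List Bool → F}
    (h0 : Cond d P l0) (h1 : Cond d P l1) : ∀ η ∈ Submodule.span F {l0, l1}, Cond d P η := by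
  intro η hη
  induction hη using Submodule.span_induction with
  | mem g hg =>
    rcases hg with rfl | rfl
    · exact h0
    · exact h1
  | zero => intro z _ l u _; simp
  | add a b _ _ ha hb => intro z hz l u hu; simp [ha z hz l u hu, hb z hz l u hu]
  | smul c a _ ha => intro z hz l u hu; simp [ha z hz l u hu]

lemma exists_N (A B N0 : ℕ) : ∃ N, N0 ≤ N ∧ A * (B * N + 1) + 2 ≤ 2 ^ N := by
  set N := max N0 (max 4 (A * (B + 1) + 2)) with hN
  refine ⟨N, le_max_left _ _, ?_⟩
  have h1 : 4 ≤ N := (le_max_left _ _).trans (le_max_right _ _)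
  have h2 : A * (B + 1) + 2 ≤ N := (le_max_right _ _).trans (le_max_right _ _)
  have h3 : ∀ n, 4 ≤ n → n * n ≤ 2 ^ n := by
    intro n hn
    induction n, hn using Nat.le_induction with
    | base => norm_num
    | succ n hn ih =>
      rw [pow_succ]
      nlinarith
  have h4 := h3 N h1
  calc A * (B * N + 1) + 2 ≤ A * (B + 1) * N + 2 * N := by nlinarith [Nat.zero_le A, Nat.zero_le B]
    _ = (A * (B + 1) + 2) * N := by ring
    _ ≤ N * N := Nat.mul_le_mul_right _ h2
    _ ≤ 2 ^ N := h4

lemma finite_le (d : ℕ) : Finite {z : List Bool // z.length ≤ d} :=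
  (List.finite_length_le Bool d).to_subtype

theorem step (s : St F) (d : ℕ) (P : Module.End F (List Bool → F)) (hP : P ∈ PP F d) (N0 : ℕ) :
    ∃ (N : ℕ) (s' : St F), N0 ≤ N ∧ s'.m = s.m * N ∧ s'.L ≤ TT s.L N ∧
      (∀ η ∈ s'.L, Cond d P η) ∧ d < s'.m := by
  classical
  have := finite_le d
  let Z : Type := {z : List Bool // z.length ≤ d}
  have hfZ : Fintype Z := Fintype.ofFinite Z
  obtain ⟨N, hN1, hN2⟩ := exists_N (Fintype.card Z * Fintype.card Z) s.m (max N0 (d + 1))
  obtain ⟨V, hV1, hV2, hV3⟩ := big_subspace s.h0 s.h1 s.li N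
  let κ : Type := (Z × Z) × Fin (s.m * N + 1)
  let E : (List Bool → F) →ₗ[F] (κ → F) :=
    { toFun := fun μ q => (P ^ (q.2 : ℕ)) (sh q.1.1.1 μ) q.1.2.1
      map_add' := fun μ ν => by
        funext q
        simp
      map_smul' := fun c μ => by
        funext q
        simp }
  have hcard : Fintype.card κ + 2 ≤ Module.finrank F V := by
    rw [hV3, Fintype.card_prod, Fintype.card_prod, Fintype.card_fin]
    exact hN2
  obtain ⟨x, y, hx, hy, hEx, hEy, hli⟩ := exists_pair V E hcard
  have hNpos : 1 ≤ N := by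
    have := le_max_right N0 (d + 1)
    omega
  have hm' : 1 ≤ s.m * N := Nat.mul_pos s.hm hNpos
  have hgx : Hg (s.m * N) x := TT_hg s.L_hg N x (hV1 hx)
  have hgy : Hg (s.m * N) y := TT_hg s.L_hg N y (hV1 hy)
  have hcond : ∀ μ : List Bool → F, Hg (s.m * N) μ → E μ = 0 → Cond d P μ := by
    intro μ hμ hE z hz l u hu
    by_cases hl : l < s.m * N + 1
    · exact congrFun hE ((⟨z, hz⟩, ⟨u, hu.le⟩), ⟨l, hl⟩)
    · rw [pow_van hP (not_lt.mp hl) (hμ.van.sh z)]
      rfl
  refine ⟨N, ⟨s.m * N, hm', x, y, hgx, hgy, hli⟩, (le_max_left _ _).trans hN1, rfl, ?_, ?_, ?_⟩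
  · change Submodule.span F {x, y} ≤ _
    rw [Submodule.span_le]
    rintro g (rfl | rfl)
    · exact hV1 hx
    · exact hV1 hy
  · exact cond_span (hcond x hgx hEx) (hcond y hgy hEy)
  · change d < s.m * N
    have h1 : d + 1 ≤ N := (le_max_right _ _).trans hN1
    have h2 := s.hm
    nlinarith

end Pool.Agent.Ku
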