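import Mathlib
import Pool.Agent.Helpers.KuStep

set_option autoImplicit false

namespace Pool.Agent.Ku

variable {F : Type*} [Field F]

lemma PP_mono {d d' : ℕ} (h : d ≤ d') : PP F d ≤ PP F d' := by
  apply Submodule.span_mono
  rintro T ⟨w, h1, h2, h3⟩
  exact ⟨w, h1, h2.trans h, h3⟩

lemma PP.mul {d d' : ℕ} {P Q : Module.End F (List Bool → F)} (hP : P ∈ PP F d)
    (hQ : Q ∈ PP F d') : P * Q ∈ PP F (d + d') := by
  induction hP using Submodule.span_induction with
  | mem T hT =>
    obtain ⟨w, h1, h2, rfl⟩ := hT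
    induction hQ using Submodule.span_induction with
    | mem S hS =>
      obtain ⟨w', h3, h4, rfl⟩ := hS
      apply Submodule.subset_span
      refine ⟨w' ++ w, ?_, ?_, ?_⟩
      · rw [List.length_append]; omega
      · rw [List.length_append]; omega
      · apply LinearMap.ext
        intro φ
        rw [sh_append]
        rfl
    | zero => rw [mul_zero]; exact Submodule.zero_mem _
    | add a b _ _ ha hb => rw [mul_add]; exact Submodule.add_mem _ ha hb
    | smul c a _ ha => rw [mul_smul_comm]; exact Submodule.smul_mem _ _ ha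
  | zero => rw [zero_mul]; exact Submodule.zero_mem _
  | add a b _ _ ha hb => rw [add_mul]; exact Submodule.add_mem _ ha hb
  | smul c a _ ha => rw [smul_mul_assoc]; exact Submodule.smul_mem _ _ ha

lemma PP_mem_range {d : ℕ} {P : Module.End F (List Bool → F)} (hP : P ∈ PP F d) :
    P ∈ Set.range (fun c : List Bool →₀ F =>
      c.sum fun w a => a • (sh w : Module.End F (List Bool → F))) := by
  have h : P ∈ Submodule.span F
      (Set.range (fun w : List Bool => (sh w : Module.End F (List Bool → F)))) := by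
    refine Submodule.span_mono ?_ hP
    rintro T ⟨w, _, _, rfl⟩
    exact ⟨w, rfl⟩
  obtain ⟨c, hc⟩ := Finsupp.mem_span_range_iff_exists_finsupp.mp h
  exact ⟨c, hc⟩

/-- enumeration of the operators -/
lemma exists_enum (F : Type*) [Field F] [Countable F] :
    ∃ (Pe : ℕ → Module.End F (List Bool → F)) (de : ℕ → ℕ), (∀ i, Pe i ∈ PP F (de i)) ∧
      ∀ d, ∀ P ∈ PP F d, ∃ i, Pe i = P := by
  let S : Set (Module.End F (List Bool → F)) := {P | ∃ d, P ∈ PP F d}
  have hS : S.Countable := by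
    apply (Set.countable_range (fun c : List Bool →₀ F =>
      c.sum fun w a => a • (sh w : Module.End F (List Bool → F)))).mono
    rintro P ⟨d, hd⟩
    exact PP_mem_range hd
  have hne : S.Nonempty := ⟨0, 0, Submodule.zero_mem _⟩
  obtain ⟨Pe, hPe⟩ := hS.exists_eq_range hne
  have h1 : ∀ i, ∃ d, Pe i ∈ PP F d := by
    intro i
    have : Pe i ∈ S := by rw [hPe]; exact ⟨i, rfl⟩
    exact this
  choose de hde using h1
  refine ⟨Pe, de, hde, ?_⟩
  intro d P hP
  have : P ∈ S := ⟨d, hP⟩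
  rw [hPe] at this
  exact this

/-- the first state -/
lemma exists_init (F : Type*) [Field F] : Nonempty (St F) := by
  refine ⟨⟨1, le_rfl, fun w => if w = [false] then 1 else 0, fun w => if w = [true] then 1 else 0,
    ?_, ?_, ?_⟩⟩
  · intro w hw
    change (if w = [false] then (1 : F) else 0) = 0
    rw [if_neg]
    rintro rfl
    simp at hw
  · intro w hw
    change (if w = [true] then (1 : F) else 0) = 0
    rw [if_neg]
    rintro rfl
    simp at hw
  · rw [LinearIndependent.pair_iff]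
    intro s t h
    have h1 := congrFun h [false]
    have h2 := congrFun h [true]
    simp at h1 h2
    exact ⟨h1, h2⟩

lemma St.exists_word (s : St F) : ∃ α : List Bool, s.l0 α ≠ 0 := by
  by_contra h
  push Not at h
  have h0 : s.l0 = 0 := funext h
  have := s.li.ne_zero 0
  exact this h0

theorem exists_seq (Pe : ℕ → Module.End F (List Bool → F)) (de : ℕ → ℕ)
    (hP : ∀ i, Pe i ∈ PP F (de i)) (D : ℕ → List Bool → ℕ) :
    ∃ (st : ℕ → St F) (N : ℕ → ℕ) (α : ℕ → List Bool),
      (∀ i, (st i).l0 (α i) ≠ 0) ∧ (∀ i, D i (α i) ≤ N i) ∧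
      (∀ i, (st (i + 1)).m = (st i).m * N i) ∧ (∀ i, (st (i + 1)).L ≤ TT (st i).L (N i)) ∧
      (∀ i, ∀ η ∈ (st (i + 1)).L, Cond (de i) (Pe i) η) ∧ (∀ i, de i < (st (i + 1)).m) := by
  choose wd hwd using fun s : St F => s.exists_word
  choose nN nS h1 h2 h3 h4 h5 using fun (s : St F) (i : ℕ) => step s (de i) (Pe i) (hP i)
    (D i (wd s))
  obtain ⟨s0⟩ := exists_init F
  let st : ℕ → St F := fun n => Nat.rec s0 (fun i s => nS s i) n
  have hst : ∀ i, st (i + 1) = nS (st i) i := fun i => rfl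
  refine ⟨st, fun i => nN (st i) i, fun i => wd (st i), fun i => hwd _, fun i => h1 _ _, ?_, ?_,
    ?_, ?_⟩
  · intro i
    rw [hst]
    exact h2 _ _
  · intro i
    rw [hst]
    exact h3 _ _
  · intro i
    rw [hst]
    exact h4 _ _
  · intro i
    rw [hst]
    exact h5 _ _

/-- packaged data of the construction -/
structure Dat (F : Type*) [Field F] where
  st : ℕ → St F
  N : ℕ → ℕ
  α : ℕ → List Bool
  Pe : ℕ → Module.End F (List Bool → F)
  de : ℕ → ℕ
  hP : ∀ i, Pe i ∈ PP F (de i)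
  hall : ∀ d, ∀ P ∈ PP F d, ∃ i, Pe i = P
  hα : ∀ i, (st i).l0 (α i) ≠ 0
  hm : ∀ i, (st (i + 1)).m = (st i).m * N i
  hL : ∀ i, (st (i + 1)).L ≤ TT (st i).L (N i)
  hC : ∀ i, ∀ η ∈ (st (i + 1)).L, Cond (de i) (Pe i) η
  hd : ∀ i, de i < (st (i + 1)).m

theorem exists_dat (F : Type*) [Field F] [Countable F] (D : ℕ → List Bool → ℕ) :
    ∃ d : Dat F, ∀ i, D i (d.α i) ≤ d.N i := by
  obtain ⟨Pe, de, hP, hall⟩ := exists_enum F
  obtain ⟨st, N, α, h1, h2, h3, h4, h5, h6⟩ := exists_seq Pe de hP D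
  exact ⟨⟨st, N, α, Pe, de, hP, hall, h1, h3, h4, h5, h6⟩, h2⟩

namespace Dat

variable (d : Dat F)

/-- the functionals of level `i` -/
def LL (i : ℕ) : Submodule F (List Bool → F) := TT (d.st i).L (d.N i)

lemma N_pos (i : ℕ) : 1 ≤ d.N i := by
  have h1 := (d.st (i + 1)).hm
  rw [d.hm] at h1
  by_contra h
  have : d.N i = 0 := by omega
  rw [this] at h1
  simp at h1

lemma m_mono {i j : ℕ} (h : i ≤ j) : (d.st i).m ≤ (d.st j).m := by
  induction j, h using Nat.le_induction with
  | base => exact le_rfl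
  | succ j _ ih =>
    rw [d.hm]
    have := d.N_pos j
    calc (d.st i).m ≤ (d.st j).m := ih
      _ = (d.st j).m * 1 := (mul_one _).symm
      _ ≤ (d.st j).m * d.N j := Nat.mul_le_mul_left _ this

lemma LL_hg (i : ℕ) : ∀ ψ ∈ d.LL i, Hg (d.st (i + 1)).m ψ := by
  rw [d.hm]
  exact TT_hg (d.st i).L_hg (d.N i)

lemma TT_le {i j : ℕ} (h : i ≤ j) (M : ℕ) : ∃ K, TT (d.st j).L M ≤ TT (d.st i).L K := by
  induction j, h using Nat.le_induction generalizing M with
  | base => exact ⟨M, le_rfl⟩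
  | succ j _ ih =>
    obtain ⟨K, hK⟩ := ih (d.N j * M)
    exact ⟨K, (TT_sub (d.hL j) M).trans hK⟩

/-- every operator is eventually zero on all the functionals, uniformly -/
lemma nil (i : ℕ) : ∃ K, ∀ j, ∀ ψ ∈ d.LL j, ∀ β : List Bool, ∀ k, K ≤ k →
    (d.Pe i ^ k) (sh β ψ) = 0 := by
  refine ⟨2 * (d.st (i + 1)).m + 2, ?_⟩
  intro j ψ hψ β k hk
  by_cases hj : j ≤ i
  · have h1 := d.LL_hg j ψ hψ
    have h2 : (d.st (j + 1)).m ≤ (d.st (i + 1)).m := d.m_mono (by omega)
    exact pow_van (d.hP i) (c := (d.st (j + 1)).m + 1) (by omega) (h1.van.sh β)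
  · obtain ⟨K, hK⟩ := d.TT_le (show i + 1 ≤ j by omega) (d.N j)
    exact TT_W (d.hP i) (d.hd i) (d.st (i + 1)).L_hg (d.hC i) K ψ (hK hψ) β k hk

/-- the module -/
def W : Submodule F (List Bool → F) :=
  Submodule.span F {g | ∃ j, ∃ ψ ∈ d.LL j, ∃ β : List Bool, g = sh β ψ}

lemma sh_mem (β : List Bool) : ∀ g ∈ d.W, sh β g ∈ d.W := by
  intro g hg
  induction hg using Submodule.span_induction with
  | mem g hg =>
    obtain ⟨j, ψ, hψ, β', rfl⟩ := hg
    apply Submodule.subset_span
    refine ⟨j, ψ, hψ, β' ++ β, ?_⟩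
    rw [sh_append]
  | zero => rw [map_zero]; exact Submodule.zero_mem _
  | add a b _ _ ha hb => rw [map_add]; exact Submodule.add_mem _ ha hb
  | smul c a _ ha => rw [map_smul]; exact Submodule.smul_mem _ _ ha

lemma nilW (i : ℕ) : ∃ K, ∀ g ∈ d.W, (d.Pe i ^ K) g = 0 := by
  obtain ⟨K, hK⟩ := d.nil i
  refine ⟨K, ?_⟩
  intro g hg
  induction hg using Submodule.span_induction with
  | mem g hg =>
    obtain ⟨j, ψ, hψ, β, rfl⟩ := hg
    exact hK j ψ hψ β K le_rfl
  | zero => rw [map_zero]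
  | add a b _ _ ha hb => rw [map_add, ha, hb, add_zero]
  | smul c a _ ha => rw [map_smul, ha, smul_zero]

/-- the power of the special functional -/
def pw (l : List Bool → F) : ℕ → List Bool → F
  | 0 => dl
  | (n + 1) => cau l (pw l n)

lemma pw_mem {L : Submodule F (List Bool → F)} {l : List Bool → F} (hl : l ∈ L) (n : ℕ) :
    pw l n ∈ TT L n := by
  induction n with
  | zero => exact Submodule.subset_span rfl
  | succ n ih => exact Submodule.subset_span ⟨l, hl, _, ih, rfl⟩

lemma pw_sh {m : ℕ} {l : List Bool → F} (hl : Hg m l) {β : List Bool} (hβ : β.length = m)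
    (n : ℕ) : ((sh β : Module.End F (List Bool → F)) ^ n) (pw l n) = (l β) ^ n • dl := by
  induction n with
  | zero => simp [pw]
  | succ n ih =>
    rw [pow_succ]
    change (sh β ^ n) (sh β (cau l (pw l n))) = _
    rw [hl.sh_cau hβ, map_smul, ih, smul_smul, pow_succ, mul_comm]

end Dat

end Pool.Agent.Ku
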