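import Mathlib
import Pool.Agent.Helpers.KuDefs
import Pool.Agent.Helpers.KuSeq

set_option autoImplicit false

universe u v

namespace Pool.Agent.Ku

variable {F : Type u} [Field F]

namespace Dat

variable (d : Dat F)

/-- the module as a type -/
def WT : Type u := d.W

instance : AddCommGroup d.WT := inferInstanceAs (AddCommGroup d.W)

instance : Module F d.WT := inferInstanceAs (Module F d.W)

/-- inclusion -/
def inc : d.WT →ₗ[F] (List Bool → F) where
  toFun g := (show d.W from g).1
  map_add' _ _ := rfl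
  map_smul' _ _ := rfl

lemma inc_inj {g h : d.WT} (e : d.inc g = d.inc h) : g = h := Subtype.ext e

lemma inc_mem (g : d.WT) : d.inc g ∈ d.W := (show d.W from g).2

/-- the operator of a letter -/
def op (b : Bool) : Module.End F d.WT where
  toFun g := (⟨sh [b] (d.inc g), d.sh_mem [b] _ (d.inc_mem g)⟩ : d.W)
  map_add' g h := d.inc_inj rfl
  map_smul' c g := d.inc_inj rfl

lemma op_coe (b : Bool) (g : d.WT) : d.inc (d.op b g) = sh [b] (d.inc g) := rfl

/-- the algebra -/
def A : Subalgebra F (Module.End F d.WT) := Algebra.adjoin F (Set.range d.op)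

lemma op_mem (b : Bool) : d.op b ∈ d.A := Algebra.subset_adjoin ⟨b, rfl⟩

lemma form {T : Module.End F d.WT} (hT : T ∈ d.A) : ∃ (c : F) (n : ℕ), ∃ P ∈ PP F n,
    ∀ g : d.WT, d.inc (T g) = c • d.inc g + P (d.inc g) := by
  refine Algebra.adjoin_induction (p := fun T _ => ∃ (c : F) (n : ℕ), ∃ P ∈ PP F n,
    ∀ g : d.WT, d.inc (T g) = c • d.inc g + P (d.inc g)) ?_ ?_ ?_ ?_ hT
  · rintro _ ⟨b, rfl⟩
    refine ⟨0, 1, sh [b], Submodule.subset_span ⟨[b], by simp, by simp, rfl⟩, ?_⟩
    intro g
    rw [zero_smul, zero_add, op_coe]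
  · intro r
    refine ⟨r, 0, 0, Submodule.zero_mem _, ?_⟩
    intro g
    rw [LinearMap.zero_apply, add_zero]
    rfl
  · rintro x y _ _ ⟨c, n, P, hP, h⟩ ⟨c', n', P', hP', h'⟩
    refine ⟨c + c', max n n', P + P', Submodule.add_mem _ (PP_mono (le_max_left _ _) hP)
      (PP_mono (le_max_right _ _) hP'), ?_⟩
    intro g
    rw [LinearMap.add_apply, map_add, h, h', add_smul, LinearMap.add_apply]
    abel
  · rintro x y _ _ ⟨c, n, P, hP, h⟩ ⟨c', n', P', hP', h'⟩
    refine ⟨c * c', n + n', c • P' + c' • P + P * P', ?_, ?_⟩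
    · apply Submodule.add_mem
      · apply Submodule.add_mem
        · exact Submodule.smul_mem _ _ (PP_mono (Nat.le_add_left _ _) hP')
        · exact Submodule.smul_mem _ _ (PP_mono (Nat.le_add_right _ _) hP)
      · exact PP.mul hP hP'
    · intro g
      have e : (x * y) g = x (y g) := rfl
      rw [e, h, h', map_add, map_smul, smul_add, smul_smul]
      simp only [LinearMap.add_apply, LinearMap.smul_apply]
      have e2 : (P * P') (d.inc g) = P (P' (d.inc g)) := rfl
      rw [e2]
      abel

lemma pow_coe {T : Module.End F d.WT} {P : Module.End F (List Bool → F)}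
    (h : ∀ g : d.WT, d.inc (T g) = P (d.inc g)) (k : ℕ) (g : d.WT) :
    d.inc ((T ^ k) g) = (P ^ k) (d.inc g) := by
  induction k with
  | zero => rfl
  | succ k ih =>
    rw [pow_succ', pow_succ']
    change d.inc (T ((T ^ k) g)) = P ((P ^ k) (d.inc g))
    rw [h, ih]

/-- scalar plus nilpotent -/
lemma nilpotent_form {T : Module.End F d.WT} (hT : T ∈ d.A) :
    ∃ c : F, IsNilpotent (T - algebraMap F _ c) := by
  obtain ⟨c, n, P, hP, h⟩ := d.form hT
  obtain ⟨i, rfl⟩ := d.hall n P hP
  obtain ⟨K, hK⟩ := d.nilW i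
  refine ⟨c, K, ?_⟩
  apply LinearMap.ext
  intro g
  apply d.inc_inj
  have h2 : ∀ g : d.WT, d.inc ((T - algebraMap F (Module.End F d.WT) c) g) =
      d.Pe i (d.inc g) := by
    intro g
    have e : (T - algebraMap F (Module.End F d.WT) c) g = T g - c • g := rfl
    rw [e, map_sub, h, map_smul]
    abel
  rw [d.pow_coe h2]
  exact hK _ (d.inc_mem g)

/-- the word operators -/
lemma word_coe (l : List Bool) (g : d.WT) :
    d.inc (((l.map d.op).prod) g) = sh l.reverse (d.inc g) := by
  induction l with
  | nil => rfl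
  | cons b l ih =>
    rw [List.map_cons, List.prod_cons, List.reverse_cons, sh_append]
    change d.inc (d.op b ((l.map d.op).prod g)) = _
    rw [op_coe, ih]

/-- the power of the word operator is nonzero -/
lemma word_pow_ne (i : ℕ) : ((((d.α i).reverse).map d.op).prod) ^ (d.N i) ≠ 0 := by
  intro h0
  have hl0 : (d.st i).l0 ∈ (d.st i).L := Submodule.subset_span (by simp)
  have hmem : pw (d.st i).l0 (d.N i) ∈ d.W := by
    apply Submodule.subset_span
    exact ⟨i, _, pw_mem hl0 (d.N i), [], rfl⟩
  have hlen : (d.α i).length = (d.st i).m := by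
    by_contra h
    exact d.hα i ((d.st i).h0 _ h)
  have h1 := d.pow_coe (T := (((d.α i).reverse).map d.op).prod)
    (P := sh (d.α i)) (fun g => by rw [word_coe, List.reverse_reverse]) (d.N i)
    (show d.WT from (⟨_, hmem⟩ : d.W))
  rw [h0] at h1
  have h2 := pw_sh (d.st i).h0 hlen (d.N i)
  have h3 : (0 : List Bool → F) = ((d.st i).l0 (d.α i)) ^ (d.N i) • dl := by
    rw [← h2]
    exact h1
  have h4 := congrFun h3 []
  rw [Pi.smul_apply, dl_nil, smul_eq_mul, mul_one, Pi.zero_apply] at h4
  exact pow_ne_zero _ (d.hα i) h4.symm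

lemma countable_dim : CountableDim F d.A := by
  unfold CountableDim
  have h1 : Module.rank F (Subalgebra.toSubmodule d.A) ≤ Cardinal.aleph0 := by
    unfold A
    rw [Algebra.adjoin_eq_span]
    refine (rank_span_le _).trans ?_
    rw [← FreeMonoid.mrange_lift]
    have : Countable (FreeMonoid Bool) := inferInstanceAs (Countable (List Bool))
    have h2 : (Set.range (FreeMonoid.lift d.op)).Countable := Set.countable_range _
    exact h2.le_aleph0
  rwa [Subalgebra.rank_toSubmodule] at h1

lemma algebraic : IsAlgebraicAlg F d.A := by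
  intro a
  obtain ⟨c, hc⟩ := d.nilpotent_form a.2
  set b : d.A := a - algebraMap F d.A c with hb
  have hbn : IsNilpotent b := by
    obtain ⟨n, hn⟩ := hc
    refine ⟨n, ?_⟩
    apply Subtype.ext
    exact hn
  have hint : IsIntegral F b := by
    obtain ⟨n, hn⟩ := hbn
    refine ⟨Polynomial.X ^ n, Polynomial.monic_X_pow n, ?_⟩
    simp [hn]
  have hfg := hint.fg_adjoin_singleton
  have hfin : FiniteDimensional F (Subalgebra.toSubmodule (Algebra.adjoin F {b})) :=
    Module.Finite.iff_fg.mpr hfg
  have hle : (NonUnitalAlgebra.adjoin F ({a} : Set d.A)).toSubmodule ≤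
      Subalgebra.toSubmodule (Algebra.adjoin F {b}) := by
    have h1 : NonUnitalAlgebra.adjoin F ({a} : Set d.A) ≤
        (Algebra.adjoin F {b}).toNonUnitalSubalgebra := by
      apply NonUnitalAlgebra.adjoin_le
      rintro _ rfl
      have h2 : b + algebraMap F d.A c ∈ Algebra.adjoin F {b} :=
        Subalgebra.add_mem _ (Algebra.subset_adjoin rfl) (Subalgebra.algebraMap_mem _ c)
      rw [hb, sub_add_cancel] at h2
      exact h2
    exact h1
  have := Submodule.finiteDimensional_of_le hle
  exact this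

end Dat

end Pool.Agent.Ku
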