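import Mathlib
import Pool.Agent.Helpers.KuAlg

set_option autoImplicit false

universe u v

namespace Pool.Agent.Ku

/-- a nontrivial relation among the positive powers of `x` -/
def RelD (F : Type u) [Field F] {B : Type v} [Ring B] [Algebra F B] (x : B) (D : ℕ) : Prop :=
  ∃ c : Fin D → F, (∃ j, c j ≠ 0) ∧ ∑ j, c j • x ^ ((j : ℕ) + 1) = 0

lemma RelD.nilpotent {F : Type u} [Field F] {B : Type v} [Ring B] [Algebra F B] {x : B} {D : ℕ}
    (h : RelD F x D) (hx : IsNilpotent x) : x ^ D = 0 := by
  classical
  obtain ⟨c, ⟨j1, hj1⟩, hc⟩ := h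
  by_contra hne
  have hex : ∃ n, x ^ n = 0 := hx
  set n := Nat.find hex with hn
  have hn0 : x ^ n = 0 := Nat.find_spec hex
  have hnD : D < n := by
    by_contra hcon
    apply hne
    have : D = n + (D - n) := by omega
    rw [this, pow_add, hn0, zero_mul]
  have hmin : x ^ (n - 1) ≠ 0 := Nat.find_min hex (by omega)
  -- the least index
  have hex2 : ∃ j : ℕ, ∃ h : j < D, c ⟨j, h⟩ ≠ 0 := ⟨j1, j1.2, hj1⟩
  set j0 := Nat.find hex2 with hj0
  obtain ⟨hj0D, hcj0⟩ := Nat.find_spec hex2
  have hlt : ∀ j : Fin D, (j : ℕ) < j0 → c j = 0 := by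
    intro j hj
    by_contra hcj
    exact Nat.find_min hex2 hj ⟨j.2, hcj⟩
  have h1 : (∑ j, c j • x ^ ((j : ℕ) + 1)) * x ^ (n - 2 - j0) = c ⟨j0, hj0D⟩ • x ^ (n - 1) := by
    rw [Finset.sum_mul, Finset.sum_eq_single (⟨j0, hj0D⟩ : Fin D)]
    · rw [smul_mul_assoc, ← pow_add]
      congr 2
      simp only
      omega
    · intro j _ hj
      rcases lt_trichotomy (j : ℕ) j0 with h | h | h
      · rw [hlt j h, zero_smul, zero_mul]
      · exact absurd (Fin.ext h) hj
      · rw [smul_mul_assoc, ← pow_add]
        have : (j : ℕ) + 1 + (n - 2 - j0) = n + ((j : ℕ) + 1 + (n - 2 - j0) - n) := by omega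
        rw [this, pow_add, hn0, zero_mul, smul_zero]
    · intro h
      exact absurd (Finset.mem_univ _) h
  rw [hc, zero_mul] at h1
  exact (smul_ne_zero hcj0 hmin) h1.symm

variable {F : Type u} [Field F] {U : Type v} [NonUnitalRing U] [Module F U]
  [IsScalarTower F U U] [SMulCommClass F U U]

/-- the value of a word in the unitization -/
noncomputable def wv (F : Type u) [Field F] {U : Type v} [NonUnitalRing U] [Module F U]
    [IsScalarTower F U U] [SMulCommClass F U U] (u : Bool → U) (l : List Bool) :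
    Unitization F U :=
  (l.map (fun b => (Unitization.inr (u b) : Unitization F U))).prod

lemma wv_inr (u : Bool → U) (l : List Bool) (hl : l ≠ []) :
    ∃ w : U, wv F u l = Unitization.inr w := by
  induction l with
  | nil => exact absurd rfl hl
  | cons b l ih =>
    by_cases h : l = []
    · subst h
      exact ⟨u b, by simp [wv]⟩
    · obtain ⟨w, hw⟩ := ih h
      refine ⟨u b * w, ?_⟩
      unfold wv at hw ⊢
      rw [List.map_cons, List.prod_cons, hw, Unitization.inr_mul]

lemma exists_rel (hU : IsAlgebraicAlg F U) (w : U) :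
    ∃ D, RelD F (Unitization.inr w : Unitization F U) D := by
  have hfin := hU w
  set S := NonUnitalAlgebra.adjoin F ({w} : Set U) with hS
  have hpow : ∀ j : ℕ, ∃ y : S, (Unitization.inr w : Unitization F U) ^ (j + 1) =
      Unitization.inr (y : U) := by
    intro j
    induction j with
    | zero =>
      exact ⟨⟨w, NonUnitalAlgebra.subset_adjoin F rfl⟩, by simp⟩
    | succ j ih =>
      obtain ⟨y, hy⟩ := ih
      refine ⟨y * ⟨w, NonUnitalAlgebra.subset_adjoin F rfl⟩, ?_⟩
      rw [pow_succ, hy, ← Unitization.inr_mul]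
      rfl
  choose y hy using hpow
  set D := Module.finrank F S + 1 with hD
  have hnot : ¬ LinearIndependent F (fun j : Fin D => y j) := by
    intro hli
    have := hli.fintype_card_le_finrank
    rw [Fintype.card_fin] at this
    omega
  rw [Fintype.not_linearIndependent_iff] at hnot
  obtain ⟨c, hc, hj⟩ := hnot
  refine ⟨D, c, hj, ?_⟩
  have h1 : ∑ j : Fin D, c j • ((y j : S) : U) = 0 := by
    have h2 := congrArg (fun s : S => (s : U)) hc
    simpa using h2
  have h3 : ∑ j : Fin D, c j • (Unitization.inr w : Unitization F U) ^ ((j : ℕ) + 1) =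
      Unitization.inr (∑ j : Fin D, c j • ((y j : S) : U)) := by
    have h4 : ∀ j : Fin D, c j • (Unitization.inr w : Unitization F U) ^ ((j : ℕ) + 1) =
        Unitization.inrNonUnitalAlgHom F U (c j • ((y j : S) : U)) := by
      intro j
      rw [hy, map_smul]
      rfl
    simp_rw [h4]
    rw [← map_sum]
    rfl
  rw [h3, h1, Unitization.inr_zero]

lemma countable_of_dim [Countable F] (h : CountableDim F U) : Countable U := by
  unfold CountableDim at h
  let b := Module.Free.chooseBasis F U
  rw [Module.Free.rank_eq_card_chooseBasisIndex] at h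
  have h1 : Countable (Module.Free.ChooseBasisIndex F U) := Cardinal.mk_le_aleph0_iff.mp h
  exact b.repr.toEquiv.countable_iff.mpr inferInstance

lemma Dat.word_nilpotent (d : Dat F) (l : List Bool) (hl : l ≠ []) :
    IsNilpotent ((l.map d.op).prod) := by
  have hP : (sh l.reverse : Module.End F (List Bool → F)) ∈ PP F l.length := by
    apply Submodule.subset_span
    refine ⟨l.reverse, ?_, ?_, rfl⟩
    · rw [List.length_reverse]
      exact List.length_pos_iff.mpr hl
    · rw [List.length_reverse]
  obtain ⟨i, hi⟩ := d.hall _ _ hP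
  obtain ⟨K, hK⟩ := d.nilW i
  refine ⟨K, ?_⟩
  apply LinearMap.ext
  intro g
  apply d.inc_inj
  rw [d.pow_coe (P := sh l.reverse) (fun g => d.word_coe l g), ← hi, hK _ (d.inc_mem g)]
  rfl

theorem no_universal (F : Type u) [Field F] [Countable F] (U : Type v) [NonUnitalRing U]
    [Module F U] [IsScalarTower F U U] [SMulCommClass F U U] : ¬ IsUniversal F U := by
  classical
  rintro ⟨halg, hdim, huniv⟩
  have hcU : Countable U := countable_of_dim hdim
  obtain ⟨e, he⟩ := exists_surjective_nat (Bool → U)
  have hrel : ∀ (i : ℕ) (α : List Bool), ∃ D, α ≠ [] → RelD F (wv F (e i) α.reverse) D := by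
    intro i α
    by_cases hα : α = []
    · exact ⟨0, fun h => absurd hα h⟩
    · obtain ⟨w, hw⟩ := wv_inr (F := F) (e i) α.reverse (by simpa using hα)
      obtain ⟨D, hD⟩ := exists_rel (F := F) halg w
      exact ⟨D, fun _ => by rw [hw]; exact hD⟩
  choose D hD using hrel
  obtain ⟨d, hdN⟩ := exists_dat F D
  obtain ⟨φ, hφ⟩ := huniv d.A d.algebraic d.countable_dim
  have hu : ∀ b : Bool, ∃ u : U, φ u = (⟨d.op b, d.op_mem b⟩ : d.A) := fun b => hφ _
  choose u hu using hu
  obtain ⟨i, hi⟩ := he u
  have hα : d.α i ≠ [] := by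
    intro h
    have hlen : (d.α i).length = (d.st i).m := by
      by_contra h
      exact d.hα i ((d.st i).h0 _ h)
    have h1 := (d.st i).hm
    rw [← hlen, h] at h1
    simp at h1
  have h1 := hD i (d.α i) hα
  rw [hi] at h1
  -- transfer
  let Φ : Unitization F U →ₐ[F] d.A := Unitization.lift φ
  have hΦ : ∀ w : U, Φ (Unitization.inr w) = φ w := by
    intro w
    have h1 := Unitization.lift_symm_apply_apply Φ w
    rw [← h1]
    simp only [Φ, Equiv.symm_apply_apply]
  set y : d.A := Φ (wv F u (d.α i).reverse) with hy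
  have hyv : (y : Module.End F d.WT) = (((d.α i).reverse).map d.op).prod := by
    rw [hy]
    unfold wv
    rw [map_list_prod, List.map_map]
    have e1 : (Φ ∘ fun b => (Unitization.inr (u b) : Unitization F U)) =
        fun b => (⟨d.op b, d.op_mem b⟩ : d.A) := by
      funext b
      rw [Function.comp_apply, hΦ, hu]
    rw [e1]
    have e2 := map_list_prod d.A.val ((d.α i).reverse.map fun b => (⟨d.op b, d.op_mem b⟩ : d.A))
    rw [List.map_map] at e2
    exact e2
  have h2 : RelD F y (D i (d.α i)) := by
    obtain ⟨c, hc1, hc2⟩ := h1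
    refine ⟨c, hc1, ?_⟩
    have h3 := congrArg Φ hc2
    rw [map_sum, map_zero] at h3
    simpa only [map_smul, map_pow] using h3
  have hnil : IsNilpotent y := by
    obtain ⟨n, hn⟩ := d.word_nilpotent (d.α i).reverse (by simpa using hα)
    refine ⟨n, Subtype.ext ?_⟩
    rw [SubmonoidClass.coe_pow, hyv, hn]
    rfl
  have h4 := h2.nilpotent hnil
  apply d.word_pow_ne i
  have h5 : y ^ (d.N i) = 0 := by
    have : d.N i = D i (d.α i) + (d.N i - D i (d.α i)) := by
      have := hdN i
      omega
    rw [this, pow_add, h4, zero_mul]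
  have h6 := congrArg (fun t : d.A => (t : Module.End F d.WT)) h5
  simp only [SubmonoidClass.coe_pow] at h6
  rw [hyv] at h6
  exact h6

end Pool.Agent.Ku
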