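import Mathlib
import Pool.Agent.Helpers.KuMain

set_option autoImplicit false

universe u v

namespace Pool.Agent.Ku

lemma iter_coe {R : Type u} [NonUnitalRing R] {S : Type v} [Ring S] (f : R → S)
    (hf : ∀ a b, f (a * b) = f a * f b) (b : R) (n : ℕ) :
    f ((fun x : R => b * x)^[n] b) = (f b) ^ (n + 1) := by
  induction n with
  | zero => simp
  | succ n ih =>
    rw [Function.iterate_succ_apply', hf, ih, ← pow_succ']

namespace Dat

variable {F : Type u} [Field F] (d : Dat F)

/-- the nil algebra -/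
def B : NonUnitalSubalgebra F (Module.End F d.WT) := NonUnitalAlgebra.adjoin F (Set.range d.op)

lemma op_memB (b : Bool) : d.op b ∈ d.B := NonUnitalAlgebra.subset_adjoin F ⟨b, rfl⟩

lemma formB {T : Module.End F d.WT} (hT : T ∈ d.B) : ∃ n : ℕ, ∃ P ∈ PP F n,
    ∀ g : d.WT, d.inc (T g) = P (d.inc g) := by
  refine NonUnitalAlgebra.adjoin_induction (p := fun T _ => ∃ n : ℕ, ∃ P ∈ PP F n,
    ∀ g : d.WT, d.inc (T g) = P (d.inc g)) ?_ ?_ ?_ ?_ ?_ hT
  · rintro _ ⟨b, rfl⟩
    refine ⟨1, sh [b], Submodule.subset_span ⟨[b], by simp, by simp, rfl⟩, ?_⟩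
    intro g
    rw [op_coe]
  · rintro x y _ _ ⟨n, P, hP, h⟩ ⟨n', P', hP', h'⟩
    refine ⟨max n n', P + P', Submodule.add_mem _ (PP_mono (le_max_left _ _) hP)
      (PP_mono (le_max_right _ _) hP'), ?_⟩
    intro g
    rw [LinearMap.add_apply, map_add, h, h', LinearMap.add_apply]
  · refine ⟨0, 0, Submodule.zero_mem _, ?_⟩
    intro g
    rw [LinearMap.zero_apply, LinearMap.zero_apply, map_zero]
  · rintro x y _ _ ⟨n, P, hP, h⟩ ⟨n', P', hP', h'⟩
    refine ⟨n + n', P * P', PP.mul hP hP', ?_⟩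
    intro g
    have e : (x * y) g = x (y g) := rfl
    rw [e, h, h']
    rfl
  · rintro r x _ ⟨n, P, hP, h⟩
    refine ⟨n, r • P, Submodule.smul_mem _ _ hP, ?_⟩
    intro g
    rw [LinearMap.smul_apply, map_smul, h, LinearMap.smul_apply]

lemma nilB {T : Module.End F d.WT} (hT : T ∈ d.B) : ∃ K, T ^ K = 0 := by
  obtain ⟨n, P, hP, h⟩ := d.formB hT
  obtain ⟨i, rfl⟩ := d.hall n P hP
  obtain ⟨K, hK⟩ := d.nilW i
  refine ⟨K, ?_⟩
  apply LinearMap.ext
  intro g
  apply d.inc_inj
  rw [d.pow_coe h]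
  exact hK _ (d.inc_mem g)

lemma nil_iter (b : d.B) : ∃ n : ℕ, (fun x : d.B => b * x)^[n] b = 0 := by
  obtain ⟨K, hK⟩ := d.nilB b.2
  refine ⟨K, ?_⟩
  apply Subtype.ext
  have h := iter_coe (R := d.B) (S := Module.End F d.WT) (fun x => (x : Module.End F d.WT))
    (fun a b => rfl) b K
  rw [h, pow_succ, hK, zero_mul]
  rfl

lemma rank_le : Module.rank F d.B ≤ Cardinal.aleph0 := by
  have h1 : d.B.toSubmodule ≤ Subalgebra.toSubmodule d.A := by
    have h2 : d.B ≤ d.A.toNonUnitalSubalgebra := by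
      apply NonUnitalAlgebra.adjoin_le
      rintro _ ⟨b, rfl⟩
      exact d.op_mem b
    exact h2
  have h2 := Submodule.rank_mono h1
  have h3 := d.countable_dim
  unfold CountableDim at h3
  have h4 : Module.rank F (Subalgebra.toSubmodule d.A) ≤ Cardinal.aleph0 := by
    rw [Subalgebra.rank_toSubmodule]
    exact h3
  exact h2.trans h4

end Dat

theorem no_universal_nil (F : Type) [Field F] [Countable F] (A : Type) [NonUnitalRing A]
    [Module F A] [IsScalarTower F A A] [SMulCommClass F A A]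
    (hnil : ∀ a : A, ∃ n : ℕ, (fun x : A => a * x)^[n] a = 0)
    (hdim : Module.rank F A ≤ Cardinal.aleph0)
    (huniv : ∀ (B : Type) [NonUnitalRing B] [Module F B] [IsScalarTower F B B]
          [SMulCommClass F B B],
          (∀ b : B, ∃ n : ℕ, (fun x : B => b * x)^[n] b = 0) →
          Module.rank F B ≤ Cardinal.aleph0 →
            ∃ f : A →ₙₐ[F] B, Function.Surjective f) : False := by
  classical
  have hcU : Countable A := countable_of_dim (F := F) hdim
  obtain ⟨e, he⟩ := exists_surjective_nat (Bool → A)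
  have hrel : ∀ (i : ℕ) (α : List Bool), ∃ D : ℕ, α ≠ [] →
      (wv F (e i) α.reverse) ^ D = 0 := by
    intro i α
    by_cases hα : α = []
    · exact ⟨0, fun h => absurd hα h⟩
    · obtain ⟨w, hw⟩ := wv_inr (F := F) (e i) α.reverse (by simpa using hα)
      obtain ⟨n, hn⟩ := hnil w
      refine ⟨n + 1, fun _ => ?_⟩
      have h := iter_coe (fun x : A => (Unitization.inr x : Unitization F A))
        (fun a b => Unitization.inr_mul F a b) w n
      rw [hw, ← h, hn, Unitization.inr_zero]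
  choose D hD using hrel
  obtain ⟨d, hdN⟩ := exists_dat F D
  obtain ⟨φ, hφ⟩ := huniv d.B d.nil_iter d.rank_le
  have hu : ∀ b : Bool, ∃ u : A, φ u = (⟨d.op b, d.op_memB b⟩ : d.B) := fun b => hφ _
  choose u hu using hu
  obtain ⟨i, hi⟩ := he u
  have hα : d.α i ≠ [] := by
    intro h
    have hlen : (d.α i).length = (d.st i).m := by
      by_contra h
      exact d.hα i ((d.st i).h0 _ h)
    have h1 := (d.st i).hm
    rw [← hlen, h] at h1
    simp at h1
  have h1 := hD i (d.α i) hα
  rw [hi] at h1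
  let ψ : A →ₙₐ[F] Module.End F d.WT := (NonUnitalSubalgebraClass.subtype d.B).comp φ
  let Φ : Unitization F A →ₐ[F] Module.End F d.WT := Unitization.lift ψ
  have hΦ : ∀ w : A, Φ (Unitization.inr w) = ψ w := by
    intro w
    have h1 := Unitization.lift_symm_apply_apply Φ w
    rw [← h1]
    simp only [Φ, Equiv.symm_apply_apply]
  have hyv : Φ (wv F u (d.α i).reverse) = (((d.α i).reverse).map d.op).prod := by
    unfold wv
    rw [map_list_prod, List.map_map]
    congr 2
    funext b
    rw [Function.comp_apply, hΦ]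
    change ((φ (u b) : d.B) : Module.End F d.WT) = d.op b
    rw [hu]
  apply d.word_pow_ne i
  have h2 := congrArg Φ h1
  rw [map_pow, map_zero, hyv] at h2
  have : d.N i = D i (d.α i) + (d.N i - D i (d.α i)) := by
    have := hdN i
    omega
  rw [this, pow_add, h2, zero_mul]

end Pool.Agent.Ku
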