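import Pool.Agent.Helpers.RealFour

set_option autoImplicit false

open MeasureTheory
open scoped ENNReal

namespace Pool.Agent.FourFun

/-- the weight P -/
noncomputable def wt (n : ℕ) (x : Fin n → ℝ) : ℝ :=
  Real.exp (-∑ j, x j) * ∏ k : Fin n, ∏ j ∈ Finset.Ioi k, (x j - x k) ^ 2

noncomputable def KK (n : ℕ) (t e : ℝ) (x : Fin n → ℝ) : ℝ := ∏ j, (x j + t) ^ e

noncomputable def ph (n : ℕ) (t : ℝ) (x : Fin n → ℝ) : ℝ := ∑ j, 1 / (x j + t)

noncomputable def ww (n : ℕ) (t : ℝ) (x : Fin n → ℝ) : ℝ := ∏ j, (x j + t)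

variable {n : ℕ}

theorem wt_nonneg (x : Fin n → ℝ) : 0 ≤ wt n x :=
  mul_nonneg (Real.exp_pos _).le (Finset.prod_nonneg fun _ _ => Finset.prod_nonneg fun _ _ => sq_nonneg _)

theorem wt_cont : Continuous (wt n) := by
  unfold wt
  fun_prop

theorem wt_meas : Measurable (wt n) := wt_cont.measurable

theorem wt_vand (x : Fin n → ℝ) : wt n x = Real.exp (-∑ j, x j) * (Matrix.det (Matrix.vandermonde x)) ^ 2 := by
  rw [wt, Matrix.det_vandermonde, ← Finset.prod_pow]
  congr 1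
  refine Finset.prod_congr rfl fun k _ => ?_
  rw [← Finset.prod_pow]

theorem wt_sym (σ : Equiv.Perm (Fin n)) (x : Fin n → ℝ) : wt n (x ∘ σ) = wt n x := by
  rw [wt_vand, wt_vand]
  have h1 : ∑ j, (x ∘ σ) j = ∑ j, x j := Equiv.sum_comp σ x
  have h2 : Matrix.vandermonde (x ∘ σ) = (Matrix.vandermonde x).submatrix σ id := by
    ext i j; rfl
  rw [h1, h2, Matrix.det_permute]
  rw [mul_pow]
  have h3 : (((Equiv.Perm.sign σ : ℤˣ) : ℤ) : ℝ) ^ 2 = 1 := by
    rcases Int.units_eq_one_or (Equiv.Perm.sign σ) with h | h <;> rw [h] <;> norm_num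
  rw [h3, one_mul]

theorem wt_zero (x : Fin n → ℝ) (hx : ¬ Function.Injective x) : wt n x = 0 := by
  rw [wt_vand, Matrix.det_vandermonde_eq_zero_iff.2]
  · norm_num
  · unfold Function.Injective at hx
    push Not at hx
    exact hx

theorem wt_pos {x : Fin n → ℝ} (hx : Function.Injective x) : 0 < wt n x := by
  rw [wt_vand]
  apply mul_pos (Real.exp_pos _)
  have : Matrix.det (Matrix.vandermonde x) ≠ 0 := Matrix.det_vandermonde_ne_zero_iff.2 hx
  positivity

theorem pair_ineq {a b c d : ℝ} (h1 : a < b) (h2 : c < d) :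
    (b - a) ^ 2 * (d - c) ^ 2 ≤ (max b d - max a c) ^ 2 * (min b d - min a c) ^ 2 := by
  rw [← mul_pow, ← mul_pow]
  have h3 : 0 ≤ (b - a) * (d - c) := mul_nonneg (by linarith) (by linarith)
  refine pow_le_pow_left₀ h3 ?_ 2
  rcases le_total b d with hbd | hbd <;> rcases le_total a c with hac | hac
  · rw [max_eq_right hbd, max_eq_right hac, min_eq_left hbd, min_eq_left hac]; nlinarith
  · rw [max_eq_right hbd, max_eq_left hac, min_eq_left hbd, min_eq_right hac]; nlinarith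
  · rw [max_eq_left hbd, max_eq_right hac, min_eq_right hbd, min_eq_left hac]; nlinarith
  · rw [max_eq_left hbd, max_eq_left hac, min_eq_right hbd, min_eq_right hac]

theorem wt_four {x y : Fin n → ℝ} (hx : StrictMono x) (hy : StrictMono y) :
    wt n x * wt n y ≤ wt n (x ⊔ y) * wt n (x ⊓ y) := by
  have e1 : Real.exp (-∑ j, x j) * Real.exp (-∑ j, y j) =
      Real.exp (-∑ j, (x ⊔ y) j) * Real.exp (-∑ j, (x ⊓ y) j) := by
    rw [← Real.exp_add, ← Real.exp_add]
    congr 1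
    rw [← neg_add, ← neg_add, ← Finset.sum_add_distrib, ← Finset.sum_add_distrib]
    congr 1
    refine Finset.sum_congr rfl fun j _ => ?_
    exact (max_add_min (x j) (y j)).symm
  have e2 : (∏ k : Fin n, ∏ j ∈ Finset.Ioi k, (x j - x k) ^ 2) *
      (∏ k : Fin n, ∏ j ∈ Finset.Ioi k, (y j - y k) ^ 2) ≤
      (∏ k : Fin n, ∏ j ∈ Finset.Ioi k, ((x ⊔ y) j - (x ⊔ y) k) ^ 2) *
      (∏ k : Fin n, ∏ j ∈ Finset.Ioi k, ((x ⊓ y) j - (x ⊓ y) k) ^ 2) := by
    rw [← Finset.prod_mul_distrib, ← Finset.prod_mul_distrib]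
    refine Finset.prod_le_prod (fun k _ => mul_nonneg (Finset.prod_nonneg fun _ _ => sq_nonneg _)
      (Finset.prod_nonneg fun _ _ => sq_nonneg _)) (fun k _ => ?_)
    rw [← Finset.prod_mul_distrib, ← Finset.prod_mul_distrib]
    refine Finset.prod_le_prod (fun j _ => mul_nonneg (sq_nonneg _) (sq_nonneg _)) (fun j hj => ?_)
    rw [Finset.mem_Ioi] at hj
    exact pair_ineq (hx hj) (hy hj)
  calc wt n x * wt n y = (Real.exp (-∑ j, x j) * Real.exp (-∑ j, y j)) *
        ((∏ k : Fin n, ∏ j ∈ Finset.Ioi k, (x j - x k) ^ 2) *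
      (∏ k : Fin n, ∏ j ∈ Finset.Ioi k, (y j - y k) ^ 2)) := by unfold wt; ring
    _ ≤ (Real.exp (-∑ j, (x ⊔ y) j) * Real.exp (-∑ j, (x ⊓ y) j)) *
        ((∏ k : Fin n, ∏ j ∈ Finset.Ioi k, ((x ⊔ y) j - (x ⊔ y) k) ^ 2) *
      (∏ k : Fin n, ∏ j ∈ Finset.Ioi k, ((x ⊓ y) j - (x ⊓ y) k) ^ 2)) := by
        rw [e1]
        exact mul_le_mul_of_nonneg_left e2 (by positivity)
    _ = _ := by unfold wt; ring

theorem KK_four (t e : ℝ) (x y : Fin n → ℝ) :
    KK n t e x * KK n t e y = KK n t e (x ⊔ y) * KK n t e (x ⊓ y) := by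
  unfold KK
  rw [← Finset.prod_mul_distrib, ← Finset.prod_mul_distrib]
  refine Finset.prod_congr rfl fun j _ => ?_
  rcases le_total (x j) (y j) with h | h
  · have h1 : (x ⊔ y) j = y j := max_eq_right h
    have h2 : (x ⊓ y) j = x j := min_eq_left h
    rw [h1, h2, mul_comm]
  · have h1 : (x ⊔ y) j = x j := max_eq_left h
    have h2 : (x ⊓ y) j = y j := min_eq_right h
    rw [h1, h2]

theorem KK_meas (t e : ℝ) : Measurable (KK n t e) := by
  unfold KK
  refine Finset.measurable_prod _ fun j _ => ?_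
  have h : Measurable (fun x : Fin n → ℝ => x j + t) := by fun_prop
  exact h.pow_const e

theorem KK_sym (t e : ℝ) (σ : Equiv.Perm (Fin n)) (x : Fin n → ℝ) : KK n t e (x ∘ σ) = KK n t e x :=
  Equiv.prod_comp σ (fun j => (x j + t) ^ e)

theorem ph_sym (t : ℝ) (σ : Equiv.Perm (Fin n)) (x : Fin n → ℝ) : ph n t (x ∘ σ) = ph n t x :=
  Equiv.sum_comp σ (fun j => 1 / (x j + t))

theorem ph_meas (t : ℝ) : Measurable (ph n t) := by
  unfold ph
  refine Finset.measurable_sum _ fun j _ => ?_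
  have h : Measurable (fun x : Fin n → ℝ => x j + t) := by fun_prop
  exact measurable_const.div h

theorem KK_nonneg {t : ℝ} (ht : 0 ≤ t) (e : ℝ) {x : Fin n → ℝ} (hx : x ∈ Orth n) : 0 ≤ KK n t e x :=
  Finset.prod_nonneg fun j _ => Real.rpow_nonneg (add_nonneg (hx j) ht) _

theorem ph_nonneg {t : ℝ} (ht : 0 ≤ t) {x : Fin n → ℝ} (hx : x ∈ Orth n) : 0 ≤ ph n t x :=
  Finset.sum_nonneg fun j _ => div_nonneg zero_le_one (add_nonneg (hx j) ht)

theorem ph_le {t : ℝ} (ht : 0 < t) {x : Fin n → ℝ} (hx : x ∈ Orth n) : ph n t x ≤ n / t := by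
  have : ∀ j ∈ (Finset.univ : Finset (Fin n)), 1 / (x j + t) ≤ 1 / t := by
    intro j _
    exact one_div_le_one_div_of_le ht (by linarith [hx j])
  calc ph n t x ≤ ∑ j : Fin n, 1 / t := Finset.sum_le_sum this
    _ = n / t := by rw [Finset.sum_const, Finset.card_univ, Fintype.card_fin, nsmul_eq_mul]; ring

theorem ph_anti {t : ℝ} (ht : 0 < t) {x y : Fin n → ℝ} (hx : x ∈ Orth n) (hxy : x ≤ y) :
    ph n t y ≤ ph n t x :=
  Finset.sum_le_sum fun j _ => one_div_le_one_div_of_le (by linarith [hx j]) (by linarith [hxy j])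

theorem KK_half {t : ℝ} (ht : 0 < t) {x : Fin n → ℝ} (hx : x ∈ Orth n) :
    KK n t (1/2) x = ww n t x * KK n t (-(1/2)) x := by
  unfold KK ww
  rw [← Finset.prod_mul_distrib]
  refine Finset.prod_congr rfl fun j _ => ?_
  have h : 0 < x j + t := by linarith [hx j]
  nth_rewrite 2 [← Real.rpow_one (x j + t)]
  rw [← Real.rpow_add h]
  norm_num

theorem ww_tele {t : ℝ} (ht : 0 < t) (s : Finset (Fin n)) {x y : Fin n → ℝ} (hx : x ∈ Orth n)
    (hxy : x ≤ y) :
    t ^ s.card * ∑ j ∈ s, (y j - x j) ≤ t * (∏ j ∈ s, (y j + t) - ∏ j ∈ s, (x j + t)) := by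
  induction s using Finset.induction_on with
  | empty => simp
  | insert a s ha ih =>
    rw [Finset.prod_insert ha, Finset.prod_insert ha, Finset.sum_insert ha,
      Finset.card_insert_of_notMem ha]
    have h1 : t ≤ y a + t := by linarith [hx a, hxy a]
    have h2 : t ^ s.card ≤ ∏ j ∈ s, (x j + t) := by
      rw [← Finset.prod_const]
      exact Finset.prod_le_prod (fun _ _ => ht.le) (fun j _ => by linarith [hx j])
    have h3 : 0 ≤ y a - x a := by linarith [hxy a]
    have h4 : 0 ≤ ∑ j ∈ s, (y j - x j) := Finset.sum_nonneg fun j _ => by linarith [hxy j]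
    have h5 : 0 ≤ t * (∏ j ∈ s, (y j + t) - ∏ j ∈ s, (x j + t)) :=
      le_trans (mul_nonneg (pow_nonneg ht.le _) h4) ih
    calc t ^ (s.card + 1) * (y a - x a + ∑ j ∈ s, (y j - x j))
        = t * (t ^ s.card * ∑ j ∈ s, (y j - x j)) + t * ((y a - x a) * t ^ s.card) := by
          rw [pow_succ]; ring
      _ ≤ (y a + t) * (t * (∏ j ∈ s, (y j + t) - ∏ j ∈ s, (x j + t))) +
          t * ((y a - x a) * ∏ j ∈ s, (x j + t)) := by
          apply add_le_add
          · exact mul_le_mul h1 ih (mul_nonneg (pow_nonneg ht.le _) h4) (by linarith)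
          · exact mul_le_mul_of_nonneg_left (mul_le_mul_of_nonneg_left h2 h3) ht.le
      _ = _ := by ring

theorem ww_mono {t : ℝ} (ht : 0 < t) {x y : Fin n → ℝ} (hx : x ∈ Orth n) (hxy : x ≤ y) :
    ww n t x + t ^ (n + 1) * ph n t x ≤ ww n t y + t ^ (n + 1) * ph n t y := by
  have h1 := ww_tele ht Finset.univ hx hxy
  rw [Finset.card_univ, Fintype.card_fin] at h1
  have h2 : t ^ 2 * (ph n t x - ph n t y) ≤ ∑ j, (y j - x j) := by
    unfold ph
    rw [← Finset.sum_sub_distrib, Finset.mul_sum]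
    refine Finset.sum_le_sum fun j _ => ?_
    have hx' : t ≤ x j + t := by linarith [hx j]
    have hy' : t ≤ y j + t := by linarith [hx j, hxy j]
    have hx0 : 0 < x j + t := by linarith
    have hy0 : 0 < y j + t := by linarith
    have h3 : 1 / (x j + t) - 1 / (y j + t) = (y j - x j) / ((x j + t) * (y j + t)) := by
      field_simp
      ring
    rw [h3, ← mul_div_assoc, div_le_iff₀ (mul_pos hx0 hy0)]
    have h4 : t ^ 2 ≤ (x j + t) * (y j + t) := by nlinarith
    have h5 : 0 ≤ y j - x j := by linarith [hxy j]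
    nlinarith
  have h6 : t ^ n * (t ^ 2 * (ph n t x - ph n t y)) ≤ t * (ww n t y - ww n t x) :=
    le_trans (mul_le_mul_of_nonneg_left h2 (pow_nonneg ht.le _)) h1
  have h7 : t * (t ^ (n + 1) * (ph n t x - ph n t y)) ≤ t * (ww n t y - ww n t x) := by
    calc _ = t ^ n * (t ^ 2 * (ph n t x - ph n t y)) := by rw [pow_succ]; ring
      _ ≤ _ := h6
  have h8 := le_of_mul_le_mul_left h7 ht
  linarith

end Pool.Agent.FourFun
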