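import Pool.Agent.Helpers.Lag1

set_option autoImplicit false

open MeasureTheory
open scoped ENNReal

namespace Pool.Agent.FourFun

noncomputable def mas (N : ℕ) (u : ℝ) : ℝ := Real.exp (-u) * (1 + u) ^ N * (u ^ (-(1/2) : ℝ) + 1 + u)

theorem mas_int (N : ℕ) : IntegrableOn (mas N) (Set.Ioi 0) := by
  have h1 : ∀ i : ℕ, IntegrableOn (fun u : ℝ => Real.exp (-u) * u ^ (((i : ℝ) + 1/2) - 1)) (Set.Ioi 0) :=
    fun i => Real.GammaIntegral_convergent (by positivity)
  have h2 : ∀ i : ℕ, IntegrableOn (fun u : ℝ => Real.exp (-u) * u ^ (((i : ℝ) + 1) - 1)) (Set.Ioi 0) :=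
    fun i => Real.GammaIntegral_convergent (by positivity)
  have h3 : ∀ i : ℕ, IntegrableOn (fun u : ℝ => Real.exp (-u) * u ^ (((i : ℝ) + 2) - 1)) (Set.Ioi 0) :=
    fun i => Real.GammaIntegral_convergent (by positivity)
  have h4 : IntegrableOn (fun u : ℝ => ∑ i ∈ Finset.range (N + 1), ((N.choose i : ℕ) : ℝ) *
      ((Real.exp (-u) * u ^ (((i : ℝ) + 1/2) - 1)) + (Real.exp (-u) * u ^ (((i : ℝ) + 1) - 1)) +
      (Real.exp (-u) * u ^ (((i : ℝ) + 2) - 1)))) (Set.Ioi 0) := by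
    refine integrable_finsetSum _ fun i _ => ?_
    exact (((h1 i).add (h2 i)).add (h3 i)).const_mul _
  refine IntegrableOn.congr_fun h4 ?_ measurableSet_Ioi
  intro u hu
  have hu' : (0 : ℝ) < u := hu
  show _ = mas N u
  unfold mas
  have h5 : (1 + u) ^ N = ∑ i ∈ Finset.range (N + 1), u ^ i * (N.choose i : ℝ) := by
    rw [add_comm, add_pow]
    simp
  rw [h5, Finset.mul_sum, Finset.sum_mul]
  refine Finset.sum_congr rfl fun i _ => ?_
  have e1 : u ^ (((i : ℝ) + 1/2) - 1) = u ^ i * u ^ (-(1/2) : ℝ) := by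
    rw [← Real.rpow_natCast u i, ← Real.rpow_add hu']
    congr 1; ring
  have e2 : u ^ (((i : ℝ) + 1) - 1) = u ^ i := by
    rw [← Real.rpow_natCast u i]; congr 1; ring
  have e3 : u ^ (((i : ℝ) + 2) - 1) = u ^ i * u := by
    have : ((i : ℝ) + 2) - 1 = ((i + 1 : ℕ) : ℝ) := by push_cast; ring
    rw [this, Real.rpow_natCast, pow_succ]
  rw [e1, e2, e3]
  ring

theorem prod_mas_int (n N : ℕ) : IntegrableOn (fun x : Fin n → ℝ => ∏ j, mas N (x j)) (Orth n) := by
  have h0 : Orth n = Set.univ.pi (fun _ : Fin n => Set.Ici (0 : ℝ)) := by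
    ext x
    simp only [Orth, Set.mem_ofPred_eq, Set.mem_pi, Set.mem_univ, true_imp_iff, Set.mem_Ici]
  rw [h0, IntegrableOn, volume_pi, Measure.restrict_pi_pi]
  apply Integrable.fintype_prod (f := fun _ => mas N)
  intro i
  have : Integrable (mas N) (volume.restrict (Set.Ioi 0)) := mas_int N
  rwa [Measure.restrict_congr_set Ioi_ae_eq_Ici] at this

variable {n : ℕ}

theorem one_le_Q {x : Fin n → ℝ} (hx : x ∈ Orth n) (s : Finset (Fin n)) : 1 ≤ ∏ j ∈ s, (1 + x j) := by
  have := Finset.prod_le_prod (s := s) (f := fun _ => (1 : ℝ)) (g := fun j => 1 + x j)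
    (fun _ _ => zero_le_one) (fun j _ => by linarith [hx j])
  simpa using this

theorem le_Q {x : Fin n → ℝ} (hx : x ∈ Orth n) (i : Fin n) : 1 + x i ≤ ∏ j, (1 + x j) := by
  rw [← Finset.mul_prod_erase Finset.univ _ (Finset.mem_univ i)]
  have h1 := one_le_Q hx (Finset.univ.erase i)
  have h2 : 0 ≤ 1 + x i := by linarith [hx i]
  nlinarith

theorem wt_le {x : Fin n → ℝ} (hx : x ∈ Orth n) :
    wt n x ≤ ∏ j, (Real.exp (-(x j)) * (1 + x j) ^ (2 * n * n)) := by
  have hQ := one_le_Q hx Finset.univ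
  rw [Finset.prod_mul_distrib, ← Real.exp_sum, Finset.sum_neg_distrib, Finset.prod_pow]
  unfold wt
  apply mul_le_mul_of_nonneg_left _ (Real.exp_pos _).le
  have h1 : ∀ k j : Fin n, (x j - x k) ^ 2 ≤ (∏ j, (1 + x j)) ^ 2 := by
    intro k j
    rw [sq_le_sq, abs_of_nonneg (a := ∏ j, (1 + x j)) (by linarith), abs_le]
    have a1 := le_Q hx k
    have a2 := le_Q hx j
    constructor <;> linarith [hx k, hx j]
  calc (∏ k : Fin n, ∏ j ∈ Finset.Ioi k, (x j - x k) ^ 2)
      ≤ ∏ k : Fin n, (∏ j, (1 + x j)) ^ (2 * n) := by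
        refine Finset.prod_le_prod (fun k _ => Finset.prod_nonneg fun _ _ => sq_nonneg _) (fun k _ => ?_)
        calc (∏ j ∈ Finset.Ioi k, (x j - x k) ^ 2) ≤ ∏ j ∈ Finset.Ioi k, (∏ j, (1 + x j)) ^ 2 :=
              Finset.prod_le_prod (fun _ _ => sq_nonneg _) (fun j _ => h1 k j)
          _ = (∏ j, (1 + x j)) ^ (2 * (Finset.Ioi k).card) := by
              rw [Finset.prod_const, ← pow_mul]
          _ ≤ (∏ j, (1 + x j)) ^ (2 * n) := by
              apply pow_le_pow_right₀ hQ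
              have := Finset.card_le_univ (Finset.Ioi k)
              rw [Fintype.card_fin] at this
              omega
    _ = (∏ j, (1 + x j)) ^ (2 * n * n) := by
        rw [Finset.prod_const, Finset.card_univ, Fintype.card_fin, ← pow_mul]

theorem ae_pos (n : ℕ) : ∀ᵐ x ∂(volume.restrict (Orth n)), ∀ j : Fin n, 0 < x j := by
  have h1 : ∀ j : Fin n, ∀ᵐ x : Fin n → ℝ, x j ≠ 0 := by
    intro j
    rw [ae_iff]
    have := Measure.pi_hyperplane (fun _ : Fin n => (volume : Measure ℝ)) j 0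
    simpa [volume_pi] using this
  rw [ae_restrict_iff' (meas_orth n)]
  have h2 : ∀ᵐ x : Fin n → ℝ, ∀ j, x j ≠ 0 := ae_all_iff.2 h1
  filter_upwards [h2] with x hx hx' j
  exact lt_of_le_of_ne (hx' j) (Ne.symm (hx j))

/-- product bound -/
noncomputable def mb (n : ℕ) (x : Fin n → ℝ) : ℝ := ∏ j, mas (2 * n * n) (x j)

theorem KK_bound {t e : ℝ} (ht : 0 ≤ t) (he : e = 1/2 ∨ e = -(1/2)) {x : Fin n → ℝ} (hx : ∀ j, 0 < x j) :
    wt n x * KK n t e x ≤ (1 + t) ^ n * mb n x := by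
  have hx' : x ∈ Orth n := fun j => (hx j).le
  have h1 : KK n t e x ≤ ∏ j, ((1 + t) * ((x j) ^ (-(1/2) : ℝ) + 1 + x j)) := by
    refine Finset.prod_le_prod (fun j _ => Real.rpow_nonneg (by linarith [hx j]) _) (fun j _ => ?_)
    have h0 := hx j
    have h2 : 0 ≤ (x j) ^ (-(1/2) : ℝ) := Real.rpow_nonneg h0.le _
    rcases he with rfl | rfl
    · have h3 : (x j + t) ^ (1/2 : ℝ) ≤ 1 + (x j + t) := by
        rcases le_total (x j + t) 1 with h | h
        · have := Real.rpow_le_one (by linarith : 0 ≤ x j + t) h (by norm_num : (0:ℝ) ≤ 1/2)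
          linarith
        · have := Real.rpow_le_rpow_of_exponent_le h (by norm_num : (1/2 : ℝ) ≤ 1)
          rw [Real.rpow_one] at this
          linarith
      nlinarith
    · have h3 : (x j + t) ^ (-(1/2) : ℝ) ≤ (x j) ^ (-(1/2) : ℝ) :=
        Real.rpow_le_rpow_of_nonpos h0 (by linarith) (by norm_num)
      nlinarith
  have h4 := wt_le hx'
  calc wt n x * KK n t e x ≤ (∏ j, (Real.exp (-(x j)) * (1 + x j) ^ (2 * n * n))) *
        ∏ j, ((1 + t) * ((x j) ^ (-(1/2) : ℝ) + 1 + x j)) :=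
        mul_le_mul h4 h1 (KK_nonneg ht e hx') (le_trans (wt_nonneg x) h4)
    _ = (1 + t) ^ n * mb n x := by
        unfold mb mas
        rw [Finset.prod_mul_distrib (f := fun j => (1 + t)), Finset.prod_const, Finset.card_univ,
          Fintype.card_fin, mul_left_comm, ← Finset.prod_mul_distrib]

theorem good_base {t e : ℝ} (ht : 0 ≤ t) (he : e = 1/2 ∨ e = -(1/2)) :
    Good (fun x => wt n x * KK n t e x) where
  meas := wt_meas.mul (KK_meas t e)
  sym σ x := by rw [wt_sym, KK_sym]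
  zero x hx := by rw [wt_zero x hx, zero_mul]
  nonneg x hx := mul_nonneg (wt_nonneg x) (KK_nonneg ht e hx)
  int := by
    have h1 : Integrable (fun x : Fin n → ℝ => (1 + t) ^ n * mb n x) (volume.restrict (Orth n)) :=
      (prod_mas_int n (2 * n * n)).const_mul _
    refine Integrable.mono' h1 (wt_meas.mul (KK_meas t e)).aestronglyMeasurable ?_
    filter_upwards [ae_pos n] with x hx
    rw [Real.norm_of_nonneg (mul_nonneg (wt_nonneg x) (KK_nonneg ht e (fun j => (hx j).le)))]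
    exact KK_bound ht he hx

theorem Good.bmul {u b : (Fin n → ℝ) → ℝ} (hu : Good u) (hb : Measurable b)
    (hs : ∀ (σ : Equiv.Perm (Fin n)) (x : Fin n → ℝ), b (x ∘ σ) = b x)
    (h0 : ∀ x ∈ Orth n, 0 ≤ b x) (C : ℝ) (hC : ∀ x ∈ Orth n, b x ≤ C) :
    Good (fun x => b x * u x) where
  meas := hb.mul hu.meas
  sym σ x := by rw [hs, hu.sym]
  zero x hx := by rw [hu.zero x hx, mul_zero]
  nonneg x hx := mul_nonneg (h0 x hx) (hu.nonneg x hx)
  int := by
    have h1 : Integrable (fun x : Fin n → ℝ => C * u x) (volume.restrict (Orth n)) :=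
      hu.int.const_mul _
    refine Integrable.mono' h1 (hb.mul hu.meas).aestronglyMeasurable ?_
    rw [ae_restrict_iff' (meas_orth n)]
    refine Filter.Eventually.of_forall (fun x hx => ?_)
    show ‖b x * u x‖ ≤ C * u x
    rw [Real.norm_of_nonneg (mul_nonneg (h0 x hx) (hu.nonneg x hx))]
    exact mul_le_mul_of_nonneg_right (hC x hx) (hu.nonneg x hx)

theorem Good.add {u v : (Fin n → ℝ) → ℝ} (hu : Good u) (hv : Good v) : Good (fun x => u x + v x) where
  meas := hu.meas.add hv.meas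
  sym σ x := by rw [hu.sym, hv.sym]
  zero x hx := by rw [hu.zero x hx, hv.zero x hx, add_zero]
  nonneg x hx := add_nonneg (hu.nonneg x hx) (hv.nonneg x hx)
  int := hu.int.add hv.int

theorem Good.cmul {u : (Fin n → ℝ) → ℝ} (hu : Good u) {c : ℝ} (hc : 0 ≤ c) : Good (fun x => c * u x) where
  meas := hu.meas.const_mul c
  sym σ x := by rw [hu.sym]
  zero x hx := by rw [hu.zero x hx, mul_zero]
  nonneg x hx := mul_nonneg hc (hu.nonneg x hx)
  int := hu.int.const_mul c

end Pool.Agent.FourFun
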