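import Pool.Agent.Helpers.Lag2

set_option autoImplicit false

open MeasureTheory
open scoped ENNReal

namespace Pool.Agent.FourFun

variable {n : ℕ}

theorem half_or : (1/2 : ℝ) = 1/2 ∨ (1/2 : ℝ) = -(1/2) := Or.inl rfl
theorem nhalf_or : (-(1/2) : ℝ) = 1/2 ∨ (-(1/2) : ℝ) = -(1/2) := Or.inr rfl

theorem good_ph {t e : ℝ} (ht : 0 < t) (he : e = 1/2 ∨ e = -(1/2)) :
    Good (fun x => ph n t x * (wt n x * KK n t e x)) :=
  (good_base ht.le he).bmul (ph_meas t) (fun σ x => ph_sym t σ x) (fun x hx => ph_nonneg ht.le hx)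
    (n / t) (fun x hx => ph_le ht hx)

theorem good_ph2 {t e : ℝ} (ht : 0 < t) (he : e = 1/2 ∨ e = -(1/2)) :
    Good (fun x => ph n t x * (ph n t x * (wt n x * KK n t e x))) :=
  (good_ph ht he).bmul (ph_meas t) (fun σ x => ph_sym t σ x) (fun x hx => ph_nonneg ht.le hx)
    (n / t) (fun x hx => ph_le ht hx)

theorem cov {t : ℝ} (ht : 0 < t) :
    (∫ x in Orth n, ph n t x * (wt n x * KK n t (1/2) x)) * (∫ x in Orth n, wt n x * KK n t (-(1/2)) x) +
    t ^ (n + 1) * ((∫ x in Orth n, ph n t x * (ph n t x * (wt n x * KK n t (-(1/2)) x))) *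
      (∫ x in Orth n, wt n x * KK n t (-(1/2)) x)) ≤
    (∫ x in Orth n, wt n x * KK n t (1/2) x) * (∫ x in Orth n, ph n t x * (wt n x * KK n t (-(1/2)) x)) +
    t ^ (n + 1) * ((∫ x in Orth n, ph n t x * (wt n x * KK n t (-(1/2)) x)) *
      (∫ x in Orth n, ph n t x * (wt n x * KK n t (-(1/2)) x))) := by
  have hδ : (0 : ℝ) ≤ t ^ (n + 1) := by positivity
  have g2 : Good (fun x : Fin n → ℝ => wt n x * KK n t (-(1/2)) x) := good_base ht.le nhalf_or
  have g4 : Good (fun x : Fin n → ℝ => ph n t x * (wt n x * KK n t (-(1/2)) x)) := good_ph ht nhalf_or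
  have gb : Good (fun x : Fin n → ℝ => wt n x * KK n t (1/2) x) := good_base ht.le half_or
  have g5 : Good (fun x : Fin n → ℝ => ph n t x * (wt n x * KK n t (1/2) x)) := good_ph ht half_or
  have g6 : Good (fun x : Fin n → ℝ => ph n t x * (ph n t x * (wt n x * KK n t (-(1/2)) x))) :=
    good_ph2 ht nhalf_or
  have g1 := g5.add (g6.cmul hδ)
  have g3 := gb.add (g4.cmul hδ)
  have h := real_four g1 g2 g3 g4 (by
    intro x hx y hy hxm hym
    have hs : x ⊔ y ∈ Orth n := fun j => le_trans (hx j) (le_max_left _ _)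
    have hi : x ⊓ y ∈ Orth n := fun j => le_min (hx j) (hy j)
    have a1 := wt_four hxm hym
    have a2 := KK_four t (-(1/2)) x y
    have a3 := ww_mono ht hx (show x ≤ x ⊔ y from le_sup_left)
    have a4 := ph_anti ht hi (show x ⊓ y ≤ x from inf_le_left)
    have b1 := KK_half ht hx
    have b2 := KK_half ht hs
    have c1 := wt_nonneg x
    have c2 := wt_nonneg y
    have c3 := KK_nonneg ht.le (-(1/2)) hx
    have c4 := KK_nonneg ht.le (-(1/2)) hy
    have c5 := ph_nonneg ht.le hx
    have c6 := KK_nonneg ht.le (-(1/2)) hs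
    have c7 := KK_nonneg ht.le (-(1/2)) hi
    have c8 : 0 ≤ ww n t x := Finset.prod_nonneg fun j _ => by linarith [hx j]
    have c9 := wt_nonneg (x ⊔ y)
    have c10 := wt_nonneg (x ⊓ y)
    have c11 := ph_nonneg ht.le hi
    show (ph n t x * (wt n x * KK n t (1/2) x) + t ^ (n + 1) * (ph n t x * (ph n t x * (wt n x * KK n t (-(1/2)) x)))) *
      (wt n y * KK n t (-(1/2)) y) ≤ (wt n (x ⊔ y) * KK n t (1/2) (x ⊔ y) +
        t ^ (n + 1) * (ph n t (x ⊔ y) * (wt n (x ⊔ y) * KK n t (-(1/2)) (x ⊔ y)))) *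
      (ph n t (x ⊓ y) * (wt n (x ⊓ y) * KK n t (-(1/2)) (x ⊓ y)))
    rw [b1, b2]
    calc _ = (ph n t x * (ww n t x + t ^ (n + 1) * ph n t x)) *
          ((wt n x * wt n y) * (KK n t (-(1/2)) x * KK n t (-(1/2)) y)) := by ring
      _ ≤ (ph n t (x ⊓ y) * (ww n t (x ⊔ y) + t ^ (n + 1) * ph n t (x ⊔ y))) *
          ((wt n (x ⊔ y) * wt n (x ⊓ y)) * (KK n t (-(1/2)) x * KK n t (-(1/2)) y)) := by
          apply mul_le_mul
          · exact mul_le_mul a4 a3 (by positivity) c11
          · exact mul_le_mul_of_nonneg_right a1 (by positivity)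
          · positivity
          · apply mul_nonneg c11
            exact le_trans (by positivity) a3
      _ = _ := by rw [a2]; ring)
  rw [integral_add g5.int (g6.int.const_mul _), integral_const_mul,
    integral_add gb.int (g4.int.const_mul _), integral_const_mul] at h
  linarith

theorem ph_cont_on {t : ℝ} (ht : 0 < t) : ContinuousOn (ph n t) {x | ∀ j, 0 < x j} := by
  unfold ph
  refine continuousOn_finsetSum _ fun j _ => ?_
  apply ContinuousOn.div continuousOn_const (by fun_prop)
  intro x hx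
  have := hx j
  linarith

theorem var_pos (hn : 0 < n) {t : ℝ} (ht : 0 < t) :
    (∫ x in Orth n, ph n t x * (wt n x * KK n t (-(1/2)) x)) *
      (∫ x in Orth n, ph n t x * (wt n x * KK n t (-(1/2)) x)) <
    (∫ x in Orth n, ph n t x * (ph n t x * (wt n x * KK n t (-(1/2)) x))) *
      (∫ x in Orth n, wt n x * KK n t (-(1/2)) x) := by
  have g2 : Good (fun x : Fin n → ℝ => wt n x * KK n t (-(1/2)) x) := good_base ht.le nhalf_or
  have g4 : Good (fun x : Fin n → ℝ => ph n t x * (wt n x * KK n t (-(1/2)) x)) := good_ph ht nhalf_or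
  have g6 : Good (fun x : Fin n → ℝ => ph n t x * (ph n t x * (wt n x * KK n t (-(1/2)) x))) :=
    good_ph2 ht nhalf_or
  set A := ∫ x in Orth n, wt n x * KK n t (-(1/2)) x with hA
  set B := ∫ x in Orth n, ph n t x * (wt n x * KK n t (-(1/2)) x) with hB
  set D := ∫ x in Orth n, ph n t x * (ph n t x * (wt n x * KK n t (-(1/2)) x)) with hD
  have hopen : IsOpen {x : Fin n → ℝ | ∀ j, 0 < x j} := by
    have : {x : Fin n → ℝ | ∀ j, 0 < x j} = ⋂ j, {x | 0 < x j} := by ext x; simp
    rw [this]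
    exact isOpen_iInter_of_finite fun j => isOpen_lt continuous_const (continuous_apply j)
  -- positivity of integrals of squares
  have key : ∀ (c d : ℝ), (∃ x : Fin n → ℝ, (∀ j, 0 < x j) ∧ Function.Injective x ∧ c * ph n t x - d ≠ 0) →
      0 < ∫ x in Orth n, (c * ph n t x - d) ^ 2 * (wt n x * KK n t (-(1/2)) x) := by
    intro c d ⟨x0, hx0, hi0, hne⟩
    have hint : IntegrableOn (fun x : Fin n → ℝ => (c * ph n t x - d) ^ 2 * (wt n x * KK n t (-(1/2)) x)) (Orth n) := by
      have e : (fun x : Fin n → ℝ => (c * ph n t x - d) ^ 2 * (wt n x * KK n t (-(1/2)) x)) =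
          (fun x => (c ^ 2 * (ph n t x * (ph n t x * (wt n x * KK n t (-(1/2)) x))) -
            (2 * c * d) * (ph n t x * (wt n x * KK n t (-(1/2)) x))) + d ^ 2 * (wt n x * KK n t (-(1/2)) x)) := by
        ext x; ring
      rw [e]
      exact ((g6.int.const_mul _).sub (g4.int.const_mul _)).add (g2.int.const_mul _)
    rw [setIntegral_pos_iff_support_of_nonneg_ae]
    · have hU : IsOpen ({x : Fin n → ℝ | ∀ j, 0 < x j} ∩ (fun x => ((c * ph n t x - d), wt n x)) ⁻¹' {p : ℝ × ℝ | p.1 ≠ 0 ∧ p.2 ≠ 0}) := by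
        apply ContinuousOn.isOpen_inter_preimage _ hopen
        · apply IsOpen.inter
          · exact isOpen_ne_fun continuous_fst continuous_const
          · exact isOpen_ne_fun continuous_snd continuous_const
        · apply ContinuousOn.prodMk
          · exact (continuousOn_const.mul (ph_cont_on ht)).sub continuousOn_const
          · exact wt_cont.continuousOn
      have hne' : ({x : Fin n → ℝ | ∀ j, 0 < x j} ∩ (fun x => ((c * ph n t x - d), wt n x)) ⁻¹' {p : ℝ × ℝ | p.1 ≠ 0 ∧ p.2 ≠ 0}).Nonempty :=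
        ⟨x0, hx0, hne, (wt_pos hi0).ne'⟩
      refine lt_of_lt_of_le (hU.measure_pos volume hne') (measure_mono ?_)
      rintro x ⟨hx1, hx2, hx3⟩
      refine ⟨?_, fun j => (hx1 j).le⟩
      rw [Function.mem_support]
      apply mul_ne_zero (pow_ne_zero _ hx2)
      apply mul_ne_zero hx3
      apply (Finset.prod_pos fun j _ => ?_).ne'
      apply Real.rpow_pos_of_pos
      linarith [hx1 j]
    · rw [Filter.EventuallyLE, ae_restrict_iff' (meas_orth n)]
      exact Filter.Eventually.of_forall (fun x hx => mul_nonneg (sq_nonneg _) (g2.nonneg x hx))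
    · exact hint
  let x1 : Fin n → ℝ := fun j => (j : ℕ) + 1
  let x2 : Fin n → ℝ := fun j => (j : ℕ) + 2
  have hx1 : ∀ j, 0 < x1 j := fun j => by positivity
  have hx2 : ∀ j, 0 < x2 j := fun j => by positivity
  have hi1 : Function.Injective x1 := by
    intro a b hab
    have : ((a : ℕ) : ℝ) + 1 = (b : ℕ) + 1 := hab
    exact Fin.ext (by exact_mod_cast add_right_cancel this)
  have hi2 : Function.Injective x2 := by
    intro a b hab
    have : ((a : ℕ) : ℝ) + 2 = (b : ℕ) + 2 := hab
    exact Fin.ext (by exact_mod_cast add_right_cancel this)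
  have hlt : ph n t x2 < ph n t x1 := by
    apply Finset.sum_lt_sum_of_nonempty
    · exact ⟨⟨0, hn⟩, Finset.mem_univ _⟩
    · intro j _
      apply one_div_lt_one_div_of_lt
      · linarith [hx1 j]
      · show ((j : ℕ) : ℝ) + 1 + t < (j : ℕ) + 2 + t
        linarith
  have hApos : 0 < A := by
    have h := key 0 1 ⟨x1, hx1, hi1, by norm_num⟩
    have e : (fun x : Fin n → ℝ => (0 * ph n t x - 1) ^ 2 * (wt n x * KK n t (-(1/2)) x)) =
          (fun x => wt n x * KK n t (-(1/2)) x) := by
        ext x; ring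
    rw [e] at h
    exact h
  have h1 : ∃ x : Fin n → ℝ, (∀ j, 0 < x j) ∧ Function.Injective x ∧ A * ph n t x - B ≠ 0 := by
    by_contra hcon
    push Not at hcon
    have e1 := hcon x1 hx1 hi1
    have e2 := hcon x2 hx2 hi2
    have : A * (ph n t x1 - ph n t x2) = 0 := by linarith
    rcases mul_eq_zero.1 this with h | h
    · exact hApos.ne' h
    · linarith
  have h2 := key A B h1
  have e : (fun x : Fin n → ℝ => (A * ph n t x - B) ^ 2 * (wt n x * KK n t (-(1/2)) x)) =
          (fun x => (A ^ 2 * (ph n t x * (ph n t x * (wt n x * KK n t (-(1/2)) x))) -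
            (2 * A * B) * (ph n t x * (wt n x * KK n t (-(1/2)) x))) + B ^ 2 * (wt n x * KK n t (-(1/2)) x)) := by
        ext x; ring
  have lin : ∀ (f g h : (Fin n → ℝ) → ℝ), IntegrableOn f (Orth n) → IntegrableOn g (Orth n) →
      IntegrableOn h (Orth n) → ∫ x in Orth n, (f x - g x + h x) =
      (∫ x in Orth n, f x) - (∫ x in Orth n, g x) + ∫ x in Orth n, h x := by
    intro f g h hf hg hh
    rw [← integral_sub hf hg]
    exact integral_add (hf.sub hg) hh
  rw [e, lin _ _ _ (g6.int.const_mul _) (g4.int.const_mul _) (g2.int.const_mul _),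
    integral_const_mul, integral_const_mul,
    integral_const_mul, ← hA, ← hB, ← hD] at h2
  have h3 : 0 < A * (D * A - B * B) := by nlinarith
  have h4 := (mul_pos_iff_of_pos_left hApos).1 h3
  linarith

theorem cov_strict (hn : 0 < n) {t : ℝ} (ht : 0 < t) :
    (∫ x in Orth n, ph n t x * (wt n x * KK n t (1/2) x)) * (∫ x in Orth n, wt n x * KK n t (-(1/2)) x) <
    (∫ x in Orth n, wt n x * KK n t (1/2) x) * (∫ x in Orth n, ph n t x * (wt n x * KK n t (-(1/2)) x)) := by
  have h1 := cov (n := n) ht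
  have h2 := var_pos hn ht
  have h3 : 0 < t ^ (n + 1) := by positivity
  nlinarith

end Pool.Agent.FourFun
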