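import Pool.Agent.Helpers.Lag3

set_option autoImplicit false

open MeasureTheory Filter Topology
open scoped ENNReal

namespace Pool.Agent.FourFun

variable {n : ℕ}

theorem KK_hasDeriv {s : ℝ} (hs : 0 < s) (e : ℝ) {x : Fin n → ℝ} (hx : x ∈ Orth n) :
    HasDerivAt (fun s => KK n s e x) (e * (ph n s x * KK n s e x)) s := by
  have h1 : ∀ j ∈ (Finset.univ : Finset (Fin n)), HasDerivAt (fun s => (x j + s) ^ e) (e * (x j + s) ^ (e - 1)) s := by
    intro j _
    have h0 : 0 < x j + s := by linarith [hx j]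
    have h2 : HasDerivAt (fun s => x j + s) 1 s := by
      simpa using (hasDerivAt_id s).const_add (x j)
    have h3 := h2.rpow_const (p := e) (Or.inl h0.ne')
    convert h3 using 1
    ring
  have h2 := HasDerivAt.fun_finsetProd h1
  unfold KK
  refine h2.congr_deriv ?_
  symm
  unfold ph
  rw [Finset.sum_mul, Finset.mul_sum]
  refine Finset.sum_congr rfl fun j _ => ?_
  have h0 : 0 < x j + s := by linarith [hx j]
  rw [← Finset.mul_prod_erase Finset.univ _ (Finset.mem_univ j), Real.rpow_sub_one h0.ne', smul_eq_mul]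
  ring

theorem int_hasDeriv {t e : ℝ} (ht : 0 < t) (he : e = 1/2 ∨ e = -(1/2)) :
    HasDerivAt (fun s => ∫ x in Orth n, wt n x * KK n s e x)
      (e * ∫ x in Orth n, ph n t x * (wt n x * KK n t e x)) t := by
  have hes : |e| ≤ 1 := by
    rcases he with rfl | rfl
    · rw [abs_of_pos] <;> norm_num
    · rw [abs_of_neg] <;> norm_num
  have hs : Set.Ioo (t / 2) (2 * t) ∈ 𝓝 t := Ioo_mem_nhds (by linarith) (by linarith)
  have h := hasDerivAt_integral_of_dominated_loc_of_deriv_le (μ := volume.restrict (Orth n))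
    (F := fun s x => wt n x * KK n s e x)
    (F' := fun s x => e * (ph n s x * (wt n x * KK n s e x)))
    (bound := fun x => (n / (t / 2)) * ((1 + 2 * t) ^ n * mb n x)) hs
    (Eventually.of_forall fun s => (wt_meas.mul (KK_meas s e)).aestronglyMeasurable)
    (good_base ht.le he).int
    (((good_ph ht he).meas.const_mul e).aestronglyMeasurable)
    (by
      filter_upwards [ae_pos n] with x hx s hs
      have hx' : x ∈ Orth n := fun j => (hx j).le
      have hs0 : 0 < s := by linarith [hs.1]
      have g1 := (good_base hs0.le he).nonneg x hx'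
      have g2 := ph_nonneg hs0.le hx'
      have g3 := ph_le hs0 hx'
      have g4 := KK_bound hs0.le he hx
      have g5 : (n : ℝ) / s ≤ n / (t / 2) := by
        apply div_le_div_of_nonneg_left (Nat.cast_nonneg n) (by linarith) hs.1.le
      have g6 : (1 + s) ^ n * mb n x ≤ (1 + 2 * t) ^ n * mb n x := by
        apply mul_le_mul_of_nonneg_right
        · exact pow_le_pow_left₀ (by linarith) (by linarith [hs.2]) n
        · have : 0 ≤ (1 + s) ^ n * mb n x := le_trans g1 g4
          exact (mul_nonneg_iff_of_pos_left (by positivity)).1 this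
      rw [Real.norm_eq_abs, abs_mul, abs_of_nonneg (mul_nonneg g2 g1)]
      calc |e| * (ph n s x * (wt n x * KK n s e x)) ≤ 1 * (ph n s x * (wt n x * KK n s e x)) :=
            mul_le_mul_of_nonneg_right hes (mul_nonneg g2 g1)
        _ = ph n s x * (wt n x * KK n s e x) := one_mul _
        _ ≤ (n / (t / 2)) * ((1 + 2 * t) ^ n * mb n x) :=
            mul_le_mul (le_trans g3 g5) (le_trans g4 g6) g1 (by positivity))
    (((prod_mas_int n (2 * n * n)).const_mul _).const_mul _)
    (by
      rw [ae_restrict_iff' (meas_orth n)]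
      refine Eventually.of_forall (fun x hx s hs => ?_)
      have hs0 : 0 < s := by linarith [hs.1]
      exact ((KK_hasDeriv hs0 e hx).const_mul (wt n x)).congr_deriv (by ring))
  have h2 := h.2
  rw [integral_const_mul] at h2
  exact h2

theorem int_cont_zero {e : ℝ} (he : e = 1/2 ∨ e = -(1/2)) :
    ContinuousWithinAt (fun s => ∫ x in Orth n, wt n x * KK n s e x) (Set.Ici 0) 0 := by
  apply continuousWithinAt_of_dominated (bound := fun x => (1 + 1) ^ n * mb n x)
  · exact Eventually.of_forall fun s => (wt_meas.mul (KK_meas s e)).aestronglyMeasurable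
  · have h1 : ∀ᶠ s : ℝ in 𝓝[Set.Ici 0] 0, s ∈ Set.Ici (0 : ℝ) := self_mem_nhdsWithin
    have h2 : ∀ᶠ s : ℝ in 𝓝[Set.Ici 0] 0, s < 1 :=
      nhdsWithin_le_nhds (Iio_mem_nhds zero_lt_one)
    filter_upwards [h1, h2] with s hs1 hs2
    filter_upwards [ae_pos n] with x hx
    have hs0 : (0 : ℝ) ≤ s := hs1
    have hx' : x ∈ Orth n := fun j => (hx j).le
    have g1 := (good_base hs0 he).nonneg x hx'
    have g4 := KK_bound hs0 he hx
    rw [Real.norm_of_nonneg g1]
    refine le_trans g4 ?_
    apply mul_le_mul_of_nonneg_right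
    · exact pow_le_pow_left₀ (by linarith) (by linarith) n
    · have : 0 ≤ (1 + s) ^ n * mb n x := le_trans g1 g4
      exact (mul_nonneg_iff_of_pos_left (by positivity)).1 this
  · exact (prod_mas_int n (2 * n * n)).const_mul _
  · filter_upwards [ae_pos n] with x hx
    apply ContinuousAt.continuousWithinAt
    apply ContinuousAt.mul continuousAt_const
    unfold KK
    apply tendsto_finsetProd
    intro j _
    apply ContinuousAt.rpow_const (by fun_prop)
    left
    have := hx j
    linarith

theorem main_lag (hn : 0 < n) :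
    StrictAntiOn (fun t => (∫ x in Orth n, wt n x * KK n t (-(1/2)) x) *
      (∫ x in Orth n, wt n x * KK n t (1/2) x)) (Set.Ici 0) ∧
    ∀ t > 0, ∃ d : ℝ, HasDerivAt (fun t => (∫ x in Orth n, wt n x * KK n t (-(1/2)) x) *
      (∫ x in Orth n, wt n x * KK n t (1/2) x)) d t ∧ d < 0 ∧
      2 * d = (∫ x in Orth n, ph n t x * (wt n x * KK n t (1/2) x)) * (∫ x in Orth n, wt n x * KK n t (-(1/2)) x)
        - (∫ x in Orth n, wt n x * KK n t (1/2) x) * (∫ x in Orth n, ph n t x * (wt n x * KK n t (-(1/2)) x)) := by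
  have h2 : ∀ t > 0, ∃ d : ℝ, HasDerivAt (fun t => (∫ x in Orth n, wt n x * KK n t (-(1/2)) x) *
      (∫ x in Orth n, wt n x * KK n t (1/2) x)) d t ∧ d < 0 ∧
      2 * d = (∫ x in Orth n, ph n t x * (wt n x * KK n t (1/2) x)) * (∫ x in Orth n, wt n x * KK n t (-(1/2)) x)
        - (∫ x in Orth n, wt n x * KK n t (1/2) x) * (∫ x in Orth n, ph n t x * (wt n x * KK n t (-(1/2)) x)) := by
    intro t ht
    have d1 := int_hasDeriv (n := n) ht nhalf_or
    have d2 := int_hasDeriv (n := n) ht half_or
    have h3 := cov_strict hn ht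
    refine ⟨_, d1.mul d2, ?_, ?_⟩
    · linarith
    · ring
  refine ⟨?_, h2⟩
  apply strictAntiOn_of_deriv_neg (convex_Ici 0)
  · intro t ht
    rcases eq_or_lt_of_le (show (0 : ℝ) ≤ t from ht) with h | h
    · rw [← h]
      exact (int_cont_zero nhalf_or).mul (int_cont_zero half_or)
    · obtain ⟨d, hd, -⟩ := h2 t h
      exact hd.continuousAt.continuousWithinAt
  · intro t ht
    rw [interior_Ici] at ht
    obtain ⟨d, hd, hd', -⟩ := h2 t ht
    rw [hd.deriv]
    exact hd'

/-- the double integral -/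
theorem double_int {t : ℝ} (ht : 0 < t) :
    (∫ x in Orth n, ∫ y in Orth n, wt n x * wt n y * (∑ j, (1 / (x j + t) - 1 / (y j + t))) *
      ∏ j, ((x j + t) / (y j + t)) ^ (1/2 : ℝ)) =
    (∫ x in Orth n, ph n t x * (wt n x * KK n t (1/2) x)) * (∫ x in Orth n, wt n x * KK n t (-(1/2)) x)
        - (∫ x in Orth n, wt n x * KK n t (1/2) x) * (∫ x in Orth n, ph n t x * (wt n x * KK n t (-(1/2)) x)) := by
  have g2 : Good (fun x : Fin n → ℝ => wt n x * KK n t (-(1/2)) x) := good_base ht.le nhalf_or
  have g4 : Good (fun x : Fin n → ℝ => ph n t x * (wt n x * KK n t (-(1/2)) x)) := good_ph ht nhalf_or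
  have gb : Good (fun x : Fin n → ℝ => wt n x * KK n t (1/2) x) := good_base ht.le half_or
  have g5 : Good (fun x : Fin n → ℝ => ph n t x * (wt n x * KK n t (1/2) x)) := good_ph ht half_or
  have h1 : ∀ x ∈ Orth n, (∫ y in Orth n, wt n x * wt n y * (∑ j, (1 / (x j + t) - 1 / (y j + t))) *
      ∏ j, ((x j + t) / (y j + t)) ^ (1/2 : ℝ)) =
      (ph n t x * (wt n x * KK n t (1/2) x)) * (∫ y in Orth n, wt n y * KK n t (-(1/2)) y) -
      (wt n x * KK n t (1/2) x) * (∫ y in Orth n, ph n t y * (wt n y * KK n t (-(1/2)) y)) := by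
    intro x hx
    rw [← integral_const_mul, ← integral_const_mul, ← integral_sub (g2.int.const_mul _) (g4.int.const_mul _)]
    refine setIntegral_congr_fun (meas_orth n) (fun y hy => ?_)
    show wt n x * wt n y * (∑ j, (1 / (x j + t) - 1 / (y j + t))) *
      ∏ j, ((x j + t) / (y j + t)) ^ (1/2 : ℝ) = _
    have e1 : (∏ j, ((x j + t) / (y j + t)) ^ (1/2 : ℝ)) = KK n t (1/2) x * KK n t (-(1/2)) y := by
      unfold KK
      rw [← Finset.prod_mul_distrib]
      refine Finset.prod_congr rfl fun j _ => ?_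
      have h0 : 0 ≤ x j + t := by linarith [hx j]
      have h0' : 0 ≤ y j + t := by linarith [hy j]
      rw [Real.div_rpow h0 h0', Real.rpow_neg h0', div_eq_mul_inv]
    have e2 : (∑ j, (1 / (x j + t) - 1 / (y j + t))) = ph n t x - ph n t y := by
      unfold ph; rw [Finset.sum_sub_distrib]
    rw [e1, e2]
    ring
  rw [setIntegral_congr_fun (meas_orth n) h1, integral_sub (g5.int.mul_const _) (gb.int.mul_const _),
    integral_mul_const, integral_mul_const]

end Pool.Agent.FourFun
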