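import Mathlib

set_option autoImplicit false

namespace Pool.Agent.Olig

open Order

/-- the relation on finite sets, coded by bits -/
def R (S : Finset ℕ) : Bool :=
  decide (Finset.equivBitIndices.symm (S.erase (S.sup id)) ∈ Finset.equivBitIndices (S.sup id))

theorem lt_of_mem_bits {t x : ℕ} (h : t ∈ Finset.equivBitIndices x) : t < x := by
  rw [Finset.equivBitIndices_apply, List.mem_toFinset] at h
  exact lt_of_lt_of_le Nat.lt_two_pow_self (Nat.two_pow_le_of_mem_bitIndices h)

theorem R_insert {B : Finset ℕ} {x : ℕ} (h : ∀ b ∈ B, b < x) :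
    R (insert x B) = decide (Finset.equivBitIndices.symm B ∈ Finset.equivBitIndices x) := by
  have h1 : (insert x B).sup id = x := by
    rw [Finset.sup_insert]
    apply sup_eq_left.2
    exact Finset.sup_le (fun b hb => (h b hb).le)
  have h2 : (insert x B).erase x = B := Finset.erase_insert (fun hx => lt_irrefl _ (h x hx))
  rw [R, h1, h2]

/-- extension property -/
theorem ext_prop (A : Finset ℕ) (f : Finset ℕ → Bool) (N : ℕ) :
    ∃ x : ℕ, N ≤ x ∧ (∀ a ∈ A, a < x) ∧ ∀ B ⊆ A, R (insert x B) = f B := by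
  classical
  let T0 : Finset ℕ := A.powerset.image Finset.equivBitIndices.symm
  let L : ℕ := A.sup id + T0.sup id + N + 1
  let T : Finset ℕ := insert L ((A.powerset.filter (fun B => f B = true)).image Finset.equivBitIndices.symm)
  let x : ℕ := Finset.equivBitIndices.symm T
  have hx : Finset.equivBitIndices x = T := Equiv.apply_symm_apply _ _
  have hL : L < x := lt_of_mem_bits (by rw [hx]; exact Finset.mem_insert_self _ _)
  have hA : ∀ a ∈ A, a < x := by
    intro a ha
    have : a ≤ A.sup id := Finset.le_sup (f := id) ha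
    omega
  refine ⟨x, by omega, hA, ?_⟩
  intro B hB
  rw [R_insert (fun b hb => hA b (hB hb)), hx]
  have h1 : Finset.equivBitIndices.symm B ∈ T ↔ f B = true := by
    simp only [T, Finset.mem_insert, Finset.mem_image, Finset.mem_filter, Finset.mem_powerset]
    constructor
    · rintro (h | ⟨B', ⟨_, hB2⟩, hB3⟩)
      · exfalso
        have : Finset.equivBitIndices.symm B ≤ T0.sup id :=
          Finset.le_sup (f := id) (Finset.mem_image_of_mem _ (Finset.mem_powerset.2 hB))
        omega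
      · rw [← Finset.equivBitIndices.symm.injective hB3]; exact hB2
    · intro h
      exact Or.inr ⟨B, ⟨hB, h⟩, rfl⟩
  cases hf : f B with
  | true => exact decide_eq_true (h1.2 hf)
  | false => 
    apply decide_eq_false
    rw [h1, hf]
    exact Bool.false_ne_true

/-- finite partial isomorphisms twisted by ε -/
structure IsPI (ε : ℕ → Bool) (f : Finset (ℕ × ℕ)) : Prop where
  ge1 : ∀ p ∈ f, 2 ≤ p.1
  ge2 : ∀ p ∈ f, 2 ≤ p.2
  inj : ∀ p ∈ f, ∀ q ∈ f, (p.1 = q.1 ↔ p.2 = q.2)
  iso : ∀ T ⊆ f, R (T.image Prod.snd) = xor (ε T.card) (R (T.image Prod.fst))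

theorem IsPI.swap {ε : ℕ → Bool} {f : Finset (ℕ × ℕ)} (h : IsPI ε f) : IsPI ε (f.image Prod.swap) where
  ge1 := by
    intro p hp
    obtain ⟨q, hq, rfl⟩ := Finset.mem_image.1 hp
    exact h.ge2 q hq
  ge2 := by
    intro p hp
    obtain ⟨q, hq, rfl⟩ := Finset.mem_image.1 hp
    exact h.ge1 q hq
  inj := by
    intro p hp q hq
    obtain ⟨p', hp', rfl⟩ := Finset.mem_image.1 hp
    obtain ⟨q', hq', rfl⟩ := Finset.mem_image.1 hq
    exact (h.inj p' hp' q' hq').symm
  iso := by
    intro T hT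
    have hT' : T.image Prod.swap ⊆ f := by
      intro p hp
      obtain ⟨q, hq, rfl⟩ := Finset.mem_image.1 hp
      obtain ⟨r, hr, hrq⟩ := Finset.mem_image.1 (hT hq)
      rw [← hrq, Prod.swap_swap]; exact hr
    have := h.iso _ hT'
    rw [Finset.image_image, Finset.image_image, Finset.card_image_of_injective _ Prod.swap_injective] at this
    have e1 : (Prod.snd ∘ Prod.swap : ℕ × ℕ → ℕ) = Prod.fst := rfl
    have e2 : (Prod.fst ∘ Prod.swap : ℕ × ℕ → ℕ) = Prod.snd := rfl
    rw [e1, e2] at this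
    rw [this]
    cases ε T.card <;> cases R (T.image Prod.snd) <;> rfl

theorem IsPI.extend {ε : ℕ → Bool} {f : Finset (ℕ × ℕ)} (h : IsPI ε f) {a : ℕ} (ha : 2 ≤ a)
    (hna : ∀ p ∈ f, p.1 ≠ a) : ∃ b, IsPI ε (insert (a, b) f) := by
  classical
  let F : Finset ℕ → Bool := fun B =>
    xor (ε (B.card + 1)) (R (insert a ((f.filter (fun p => p.2 ∈ B)).image Prod.fst)))
  obtain ⟨b, hb2, hbA, hbF⟩ := ext_prop (f.image Prod.snd) F 2
  have hnb : ∀ p ∈ f, p.2 ≠ b := by
    intro p hp hpb
    have := hbA p.2 (Finset.mem_image_of_mem _ hp)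
    omega
  refine ⟨b, ?_, ?_, ?_, ?_⟩
  · intro p hp
    rcases Finset.mem_insert.1 hp with rfl | hp
    · exact ha
    · exact h.ge1 p hp
  · intro p hp
    rcases Finset.mem_insert.1 hp with rfl | hp
    · exact hb2
    · exact h.ge2 p hp
  · intro p hp q hq
    rcases Finset.mem_insert.1 hp with rfl | hp <;> rcases Finset.mem_insert.1 hq with rfl | hq
    · simp
    · exact ⟨fun e => absurd e.symm (hna q hq), fun e => absurd e.symm (hnb q hq)⟩
    · exact ⟨fun e => absurd e (hna p hp), fun e => absurd e (hnb p hp)⟩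
    · exact h.inj p hp q hq
  · intro T hT
    by_cases hab : (a, b) ∈ T
    · let T' := T.erase (a, b)
      have hT' : T' ⊆ f := by
        intro p hp
        have hp' := Finset.mem_erase.1 hp
        rcases Finset.mem_insert.1 (hT hp'.2) with h1 | h1
        · exact absurd h1 hp'.1
        · exact h1
      have hTT : T = insert (a, b) T' := (Finset.insert_erase hab).symm
      have hcard : T.card = T'.card + 1 := by
        rw [hTT, Finset.card_insert_of_notMem (Finset.notMem_erase _ _)]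
      have himg : T'.image Prod.snd ⊆ f.image Prod.snd := Finset.image_subset_image hT'
      have hfil : f.filter (fun p => p.2 ∈ T'.image Prod.snd) = T' := by
        ext p
        rw [Finset.mem_filter, Finset.mem_image]
        constructor
        · rintro ⟨hp, q, hq, hqp⟩
          have h1 : q.1 = p.1 := (h.inj q (hT' hq) p hp).2 hqp
          have : q = p := Prod.ext h1 hqp
          rw [← this]; exact hq
        · intro hp
          exact ⟨hT' hp, p, hp, rfl⟩
      have hc2 : (T'.image Prod.snd).card = T'.card := by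
        apply Finset.card_image_of_injOn
        intro p hp q hq hpq
        exact Prod.ext ((h.inj p (hT' hp) q (hT' hq)).2 hpq) hpq
      have h3 := hbF _ himg
      simp only [F] at h3
      rw [hfil, hc2] at h3
      rw [hcard, hTT, Finset.image_insert, Finset.image_insert]
      exact h3
    · apply h.iso
      intro p hp
      rcases Finset.mem_insert.1 (hT hp) with h1 | h1
      · rw [h1] at hp; exact absurd hp hab
      · exact h1

/-- The type of finite partial isomorphisms -/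
def PI (ε : ℕ → Bool) : Type := {f : Finset (ℕ × ℕ) // IsPI ε f}

instance (ε : ℕ → Bool) : Preorder (PI ε) := Preorder.lift Subtype.val

def dl (ε : ℕ → Bool) (a : ℕ) (ha : 2 ≤ a) : Cofinal (PI ε) where
  carrier := {f | ∃ b, (a, b) ∈ f.1}
  isCofinal f := by
    by_cases h : ∃ p ∈ f.1, p.1 = a
    · obtain ⟨⟨a', b⟩, hp, rfl⟩ := h
      exact ⟨f, ⟨b, hp⟩, le_refl _⟩
    · push Not at h
      obtain ⟨b, hb⟩ := f.2.extend ha h
      exact ⟨⟨_, hb⟩, ⟨b, Finset.mem_insert_self _ _⟩, Finset.subset_insert _ _⟩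

def dr (ε : ℕ → Bool) (b : ℕ) (hb : 2 ≤ b) : Cofinal (PI ε) where
  carrier := {f | ∃ a, (a, b) ∈ f.1}
  isCofinal f := by
    by_cases h : ∃ p ∈ f.1, p.2 = b
    · obtain ⟨⟨a, b'⟩, hp, rfl⟩ := h
      exact ⟨f, ⟨a, hp⟩, le_refl _⟩
    · push Not at h
      have h' : ∀ p ∈ f.1.image Prod.swap, p.1 ≠ b := by
        intro p hp
        obtain ⟨q, hq, rfl⟩ := Finset.mem_image.1 hp
        exact h q hq
      obtain ⟨a, ha⟩ := f.2.swap.extend hb h'
      refine ⟨⟨_, ha.swap⟩, ⟨a, ?_⟩, ?_⟩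
      · exact Finset.mem_image.2 ⟨(b, a), Finset.mem_insert_self _ _, rfl⟩
      · intro p hp
        refine Finset.mem_image.2 ⟨p.swap, Finset.mem_insert_of_mem (Finset.mem_image_of_mem _ hp), Prod.swap_swap p⟩

theorem back_forth (ε : ℕ → Bool) (f0 : Finset (ℕ × ℕ)) (h0 : IsPI ε f0) :
    ∃ g : Equiv.Perm ℕ, (∀ x, x < 2 → g x = x) ∧ (∀ x, 2 ≤ x → 2 ≤ g x) ∧
      (∀ p ∈ f0, g p.1 = p.2) ∧
      ∀ S : Finset ℕ, (∀ x ∈ S, 2 ≤ x) → R (S.image g) = xor (ε S.card) (R S) := by
  classical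
  let 𝒟 : {x : ℕ // 2 ≤ x} ⊕ {x : ℕ // 2 ≤ x} → Cofinal (PI ε) := fun p =>
    Sum.recOn p (fun a => dl ε a.1 a.2) (fun b => dr ε b.1 b.2)
  let I : Ideal (PI ε) := idealOfCofinals ⟨f0, h0⟩ 𝒟
  have hI0 : (⟨f0, h0⟩ : PI ε) ∈ I := mem_idealOfCofinals _ _
  have hl : ∀ a, 2 ≤ a → ∃ b, ∃ f ∈ I, (a, b) ∈ f.1 := by
    intro a ha
    obtain ⟨f, ⟨b, hb⟩, hf⟩ := cofinal_meets_idealOfCofinals ⟨f0, h0⟩ 𝒟 (Sum.inl ⟨a, ha⟩)
    exact ⟨b, f, hf, hb⟩
  have hr : ∀ b, 2 ≤ b → ∃ a, ∃ f ∈ I, (a, b) ∈ f.1 := by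
    intro b hb
    obtain ⟨f, ⟨a, ha⟩, hf⟩ := cofinal_meets_idealOfCofinals ⟨f0, h0⟩ 𝒟 (Sum.inr ⟨b, hb⟩)
    exact ⟨a, f, hf, ha⟩
  have hdir : ∀ f ∈ I, ∀ f' ∈ I, ∃ g ∈ I, f.1 ⊆ g.1 ∧ f'.1 ⊆ g.1 := by
    intro f hf f' hf'
    obtain ⟨g, hg, h1, h2⟩ := I.directed f hf f' hf'
    exact ⟨g, hg, h1, h2⟩
  have hinj : ∀ f ∈ I, ∀ f' ∈ I, ∀ p ∈ f.1, ∀ q ∈ f'.1, (p.1 = q.1 ↔ p.2 = q.2) := by
    intro f hf f' hf' p hp q hq
    obtain ⟨g, hg, h1, h2⟩ := hdir f hf f' hf'
    exact g.2.inj p (h1 hp) q (h2 hq)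
  choose! u hu using hl
  choose! v hv using hr
  have hu2 : ∀ a, 2 ≤ a → 2 ≤ u a := by
    intro a ha
    obtain ⟨f, hf, hm⟩ := hu a ha
    exact f.2.ge2 _ hm
  have hv2 : ∀ a, 2 ≤ a → 2 ≤ v a := by
    intro a ha
    obtain ⟨f, hf, hm⟩ := hv a ha
    exact f.2.ge1 _ hm
  have huv : ∀ a, 2 ≤ a → v (u a) = a := by
    intro a ha
    obtain ⟨f, hf, hm⟩ := hu a ha
    obtain ⟨f', hf', hm'⟩ := hv (u a) (hu2 a ha)
    exact (hinj f' hf' f hf _ hm' _ hm).2 rfl
  have hvu : ∀ b, 2 ≤ b → u (v b) = b := by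
    intro b hb
    obtain ⟨f, hf, hm⟩ := hv b hb
    obtain ⟨f', hf', hm'⟩ := hu (v b) (hv2 b hb)
    exact (hinj f' hf' f hf _ hm' _ hm).1 rfl
  let g : Equiv.Perm ℕ :=
    { toFun := fun x => if x < 2 then x else u x
      invFun := fun x => if x < 2 then x else v x
      left_inv := by
        intro x
        by_cases hx : x < 2
        · simp [hx]
        · have h2 : ¬ u x < 2 := by have := hu2 x (by omega); omega
          simp only [hx, h2, if_false]
          exact huv x (by omega)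
      right_inv := by
        intro x
        by_cases hx : x < 2
        · simp [hx]
        · have h2 : ¬ v x < 2 := by have := hv2 x (by omega); omega
          simp only [hx, h2, if_false]
          exact hvu x (by omega) }
  have hg : ∀ x, 2 ≤ x → g x = u x := by
    intro x hx
    show (if x < 2 then x else u x) = u x
    rw [if_neg (by omega)]
  refine ⟨g, ?_, ?_, ?_, ?_⟩
  · intro x hx
    show (if x < 2 then x else u x) = x
    rw [if_pos hx]
  · intro x hx
    rw [hg x hx]; exact hu2 x hx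
  · intro p hp
    have hp1 := h0.ge1 p hp
    rw [hg _ hp1]
    obtain ⟨f, hf, hm⟩ := hu p.1 hp1
    exact (hinj f hf ⟨f0, h0⟩ hI0 _ hm _ hp).1 rfl
  · intro S hS
    -- find f in I containing the graph over S
    have hgr : ∀ S : Finset ℕ, (∀ x ∈ S, 2 ≤ x) → ∃ f ∈ I, S.image (fun x => (x, u x)) ⊆ f.1 := by
      intro S
      induction S using Finset.induction_on with
      | empty => intro _; exact ⟨_, hI0, by simp⟩
      | insert a s ha ih =>
        intro hS
        obtain ⟨f, hf, hfs⟩ := ih (fun x hx => hS x (Finset.mem_insert_of_mem hx))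
        obtain ⟨f', hf', hm⟩ := hu a (hS a (Finset.mem_insert_self _ _))
        obtain ⟨g', hg', h1, h2⟩ := hdir f hf f' hf'
        refine ⟨g', hg', ?_⟩
        rw [Finset.image_insert]
        intro p hp
        rcases Finset.mem_insert.1 hp with rfl | hp
        · exact h2 hm
        · exact h1 (hfs hp)
    obtain ⟨f, hf, hfs⟩ := hgr S hS
    have h1 := f.2.iso _ hfs
    rw [Finset.image_image, Finset.image_image] at h1
    have e1 : S.image (Prod.snd ∘ fun x => (x, u x)) = S.image g := by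
      apply Finset.image_congr
      intro x hx
      exact (hg x (hS x hx)).symm
    have e2 : S.image (Prod.fst ∘ fun x => (x, u x)) = S := by
      have : (Prod.fst ∘ fun x => (x, u x)) = (id : ℕ → ℕ) := rfl
      rw [this, Finset.image_id]
    have e3 : (S.image (fun x => (x, u x))).card = S.card := by
      apply Finset.card_image_of_injective
      intro x y hxy
      exact congrArg Prod.fst hxy
    rw [e1, e2, e3] at h1
    exact h1

end Pool.Agent.Olig
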