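import Mathlib

set_option autoImplicit false

namespace Pool.Agent.OligDefs

/-- The topology of pointwise convergence on `S_∞`, the group of all permutations of `ℕ`. -/
abbrev permTop : TopologicalSpace (Equiv.Perm ℕ) :=
  TopologicalSpace.induced (fun (g : Equiv.Perm ℕ) (x : ℕ) => g x) Pi.topologicalSpace

/-- The subspace topology of a subgroup of `S_∞`. -/
abbrev grpTop (G : Subgroup (Equiv.Perm ℕ)) : TopologicalSpace G :=
  TopologicalSpace.induced (fun g : G => (g : Equiv.Perm ℕ)) permTop

/-- `G` is an oligomorphic group: a closed subgroup of `S_∞` such that for every `n` finitely many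
`n`-tuples meet every orbit of the diagonal action of `G` on `n`-tuples. -/
def IsOligomorphic (G : Subgroup (Equiv.Perm ℕ)) : Prop :=
  @IsClosed _ permTop (G : Set (Equiv.Perm ℕ)) ∧
  ∀ n : ℕ, ∃ F : Finset (Fin n → ℕ), ∀ x : Fin n → ℕ, ∃ y ∈ F, ∃ g ∈ G, ∀ i, g (y i) = x i

/-- `Aut(G)`: the group automorphisms of `G` that are homeomorphisms. -/
def TopAut (G : Subgroup (Equiv.Perm ℕ)) : Subgroup (MulAut G) where
  carrier := {α | @Continuous G G (grpTop G) (grpTop G) α ∧
    @Continuous G G (grpTop G) (grpTop G) α.symm}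
  mul_mem' {α β} hα hβ := by
    let _ := grpTop G
    exact ⟨hα.1.comp hβ.1, hβ.2.comp hα.2⟩
  one_mem' := by
    let _ := grpTop G
    exact ⟨continuous_id, continuous_id⟩
  inv_mem' {α} hα := ⟨hα.2, hα.1⟩

/-- `C` is an open coset of `G`: a left coset of an open subgroup of `G`. -/
def IsOpenCoset (G : Subgroup (Equiv.Perm ℕ)) (C : Set G) : Prop :=
  ∃ (U : Subgroup G) (g : G), @IsOpen G (grpTop G) (U : Set G) ∧ C = (fun u => g * u) '' (U : Set G)

/-- The topology on `Aut(G)` of pointwise convergence of the action on open cosets: the coarsest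
topology such that `α ↦ α(C)` is continuous to a discrete space, for every open coset `C`. -/
abbrev autTop (G : Subgroup (Equiv.Perm ℕ)) : TopologicalSpace (TopAut G) :=
  ⨅ C : {C : Set G // IsOpenCoset G C},
    TopologicalSpace.induced (fun α : TopAut G => ((α : MulAut G) : G → G) '' C.1) ⊥

/-- `Inn(G)`, the inner automorphisms, as a subgroup of `Aut(G)`. -/
def Inn (G : Subgroup (Equiv.Perm ℕ)) : Subgroup (TopAut G) :=
  (MulAut.conj : G →* MulAut G).range.subgroupOf (TopAut G)

/-- The quotient topology on `Out(G) = Aut(G)/Inn(G)`. -/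
abbrev outTop (G : Subgroup (Equiv.Perm ℕ)) : TopologicalSpace (TopAut G ⧸ Inn G) :=
  TopologicalSpace.coinduced (QuotientGroup.mk : TopAut G → TopAut G ⧸ Inn G) (autTop G)

end Pool.Agent.OligDefs
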