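import Pool.Agent.Helpers.OligA
import Pool.Agent.Helpers.OligDefs

set_option autoImplicit false

namespace Pool.Agent.Olig

open OligDefs

/-- parity change of a finite set -/
def D (g : Equiv.Perm ℕ) (S : Finset ℕ) : Bool := xor (R (S.image g)) (R S)

def big (S : Finset ℕ) : Prop := ∀ x ∈ S, 2 ≤ x

/-- the conditions defining the group -/
structure IsG (g : Equiv.Perm ℕ) : Prop where
  low : ∀ x, g x < 2 ↔ x < 2
  eqv : ∀ S S' : Finset ℕ, big S → big S' → S.card = S'.card → D g S = D g S'

theorem big_image {g : Equiv.Perm ℕ} (h : ∀ x, g x < 2 ↔ x < 2) {S : Finset ℕ} (hS : big S) :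
    big (S.image g) := by
  intro y hy
  obtain ⟨x, hx, rfl⟩ := Finset.mem_image.1 hy
  have := hS x hx
  have h2 := h x
  omega

theorem D_mul (g h : Equiv.Perm ℕ) (S : Finset ℕ) : D (g * h) S = xor (D g (S.image h)) (D h S) := by
  unfold D
  have : S.image (g * h : Equiv.Perm ℕ) = (S.image h).image g := by
    rw [Finset.image_image]; rfl
  rw [this]
  cases R ((S.image h).image g) <;> cases R (S.image h) <;> cases R S <;> rfl

theorem card_im (g : Equiv.Perm ℕ) (S : Finset ℕ) : (S.image g).card = S.card :=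
  Finset.card_image_of_injective _ g.injective

def GG : Subgroup (Equiv.Perm ℕ) where
  carrier := {g | IsG g}
  one_mem' := ⟨fun x => Iff.rfl, fun S S' _ _ _ => by
    have : ∀ S, D 1 S = false := by
      intro S
      unfold D
      have : S.image (1 : Equiv.Perm ℕ) = S := by
        have h : ((1 : Equiv.Perm ℕ) : ℕ → ℕ) = id := rfl
        rw [h, Finset.image_id]
      rw [this, Bool.xor_self]
    rw [this, this]⟩
  mul_mem' := by
    intro g h hg hh
    refine ⟨fun x => ?_, fun S S' hS hS' hc => ?_⟩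
    · rw [Equiv.Perm.mul_apply, hg.low, hh.low]
    · rw [D_mul, D_mul, hg.eqv _ _ (big_image hh.low hS) (big_image hh.low hS') (by rw [card_im, card_im, hc]),
        hh.eqv _ _ hS hS' hc]
  inv_mem' := by
    intro g hg
    have hl : ∀ x, g⁻¹ x < 2 ↔ x < 2 := by
      intro x
      have h1 : g (g⁻¹ x) = x := by simp
      rw [← hg.low, h1]
    refine ⟨hl, fun S S' hS hS' hc => ?_⟩
    have key : ∀ S, D g⁻¹ S = D g (S.image (g⁻¹ : Equiv.Perm ℕ)) := by
      intro S
      unfold D
      have : (S.image (g⁻¹ : Equiv.Perm ℕ)).image g = S := by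
        rw [Finset.image_image]
        have h : (g : ℕ → ℕ) ∘ (g⁻¹ : Equiv.Perm ℕ) = id := by
          funext x; simp
        rw [h, Finset.image_id]
      rw [this, Bool.xor_comm]
    rw [key, key]
    exact hg.eqv _ _ (big_image hl hS) (big_image hl hS') (by rw [card_im, card_im, hc])

theorem mem_GG {g : Equiv.Perm ℕ} : g ∈ GG ↔ IsG g := Iff.rfl

/-- sets determined by finitely many values are open -/
theorem isOpen_perm {s : Set (Equiv.Perm ℕ)}
    (h : ∀ g ∈ s, ∃ F : Finset ℕ, ∀ g' : Equiv.Perm ℕ, (∀ x ∈ F, g' x = g x) → g' ∈ s) :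
    @IsOpen _ permTop s := by
  rw [isOpen_induced_iff]
  choose! F hF using h
  refine ⟨⋃ g ∈ s, Set.pi (F g : Set ℕ) (fun x => {g x}), ?_, ?_⟩
  · apply isOpen_biUnion
    intro g _
    exact isOpen_set_pi (F g).finite_toSet (fun _ _ => isOpen_discrete _)
  · ext g'
    simp only [Set.mem_preimage, Set.mem_iUnion, Set.mem_pi, Set.mem_singleton_iff, Finset.mem_coe,
      exists_prop]
    constructor
    · rintro ⟨g, hg, h⟩
      exact hF g hg g' h
    · intro hg'
      exact ⟨g', hg', fun x _ => rfl⟩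

theorem closed_GG : @IsClosed _ permTop (GG : Set (Equiv.Perm ℕ)) := by
  rw [← @isOpen_compl_iff _ _ permTop]
  apply isOpen_perm
  intro g hg
  have hg' : ¬ IsG g := hg
  by_cases h1 : ∀ x, g x < 2 ↔ x < 2
  · have h2 : ¬ ∀ S S' : Finset ℕ, big S → big S' → S.card = S'.card → D g S = D g S' :=
      fun h => hg' ⟨h1, h⟩
    push Not at h2
    obtain ⟨S, S', hS, hS', hc, hne⟩ := h2
    refine ⟨S ∪ S', fun g' hgg hin => hne ?_⟩
    have hG : IsG g' := hin
    have e : ∀ T ⊆ S ∪ S', D g' T = D g T := by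
      intro T hT
      unfold D
      have : T.image g' = T.image g := Finset.image_congr (fun x hx => hgg x (hT hx))
      rw [this]
    rw [← e S Finset.subset_union_left, ← e S' Finset.subset_union_right]
    exact hG.eqv S S' hS hS' hc
  · push Not at h1
    obtain ⟨x, hx⟩ := h1
    refine ⟨{x}, fun g' hgg hin => ?_⟩
    have hG : IsG g' := hin
    have := hG.low x
    rw [hgg x (Finset.mem_singleton_self x)] at this
    rcases hx with hx | hx <;> omega

/-- existence of group elements -/
theorem exists_G (ε : ℕ → Bool) (f0 : Finset (ℕ × ℕ)) (h0 : IsPI ε f0) :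
    ∃ g ∈ GG, (∀ x, x < 2 → g x = x) ∧ (∀ p ∈ f0, g p.1 = p.2) ∧
      ∀ S : Finset ℕ, big S → D g S = ε S.card := by
  obtain ⟨g, h1, h2, h3, h4⟩ := back_forth ε f0 h0
  have hD : ∀ S : Finset ℕ, big S → D g S = ε S.card := by
    intro S hS
    unfold D
    rw [h4 S hS]
    cases ε S.card <;> cases R S <;> rfl
  refine ⟨g, ⟨fun x => ?_, fun S S' hS hS' hc => by rw [hD S hS, hD S' hS', hc]⟩, h1, h3, hD⟩
  by_cases hx : x < 2
  · rw [h1 x hx]
  · have := h2 x (by omega); omega

theorem oligo (n : ℕ) :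
    ∃ F : Finset (Fin n → ℕ), ∀ x : Fin n → ℕ, ∃ y ∈ F, ∃ g ∈ GG, ∀ i, g (y i) = x i := by
  classical
  -- type of a tuple
  let ty : (Fin n → ℕ) → (Fin n → Fin 3) × (Fin n → Fin n → Bool) × (Finset (Fin n) → Bool) := fun x =>
    (fun i => if x i = 0 then 0 else if x i = 1 then 1 else 2, fun i j => decide (x i = x j),
      fun I => R ((I.filter (fun i => 2 ≤ x i)).image x))
  have hty : ∀ x y, ty x = ty y → ∃ g ∈ GG, ∀ i, g (y i) = x i := by
    intro x y hxy
    have e1 : ∀ i, (if x i = 0 then (0 : Fin 3) else if x i = 1 then 1 else 2) =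
        (if y i = 0 then 0 else if y i = 1 then 1 else 2) := fun i => congrFun (congrArg Prod.fst hxy) i
    have e2 : ∀ i j, (x i = x j ↔ y i = y j) := by
      intro i j
      have := congrFun (congrFun (congrArg (fun z => z.2.1) hxy) i) j
      exact decide_eq_decide.1 this
    have e3 : ∀ I : Finset (Fin n), R ((I.filter (fun i => 2 ≤ x i)).image x) =
        R ((I.filter (fun i => 2 ≤ y i)).image y) := fun I => congrFun (congrArg (fun z => z.2.2) hxy) I
    have e4 : ∀ i, x i < 2 ∨ y i < 2 → x i = y i := by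
      intro i hi
      have h := e1 i
      by_cases a0 : x i = 0 <;> by_cases b0 : y i = 0 <;> by_cases a1 : x i = 1 <;>
        by_cases b1 : y i = 1 <;> simp_all <;> omega
    let f0 : Finset (ℕ × ℕ) := (Finset.univ.filter (fun i => 2 ≤ y i)).image (fun i => (y i, x i))
    have hmem : ∀ p ∈ f0, ∃ i, 2 ≤ y i ∧ p = (y i, x i) := by
      intro p hp
      obtain ⟨i, hi, rfl⟩ := Finset.mem_image.1 hp
      exact ⟨i, (Finset.mem_filter.1 hi).2, rfl⟩
    have hx2 : ∀ i, 2 ≤ y i → 2 ≤ x i := by
      intro i hi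
      by_contra hc
      have := e4 i (Or.inl (by omega))
      omega
    have hy2 : ∀ i, 2 ≤ x i → 2 ≤ y i := by
      intro i hi
      by_contra hc
      have := e4 i (Or.inr (by omega))
      omega
    have hPI : IsPI (fun _ => false) f0 := by
      refine ⟨?_, ?_, ?_, ?_⟩
      · intro p hp
        obtain ⟨i, hi, rfl⟩ := hmem p hp
        exact hi
      · intro p hp
        obtain ⟨i, hi, rfl⟩ := hmem p hp
        exact hx2 i hi
      · intro p hp q hq
        obtain ⟨i, hi, rfl⟩ := hmem p hp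
        obtain ⟨j, hj, rfl⟩ := hmem q hq
        exact (e2 i j).symm
      · intro T hT
        let I : Finset (Fin n) := Finset.univ.filter (fun i => 2 ≤ y i ∧ (y i, x i) ∈ T)
        have h1 : T.image Prod.fst = (I.filter (fun i => 2 ≤ y i)).image y := by
          ext a
          simp only [I, Finset.mem_image, Finset.mem_filter, Finset.mem_univ, true_and]
          constructor
          · rintro ⟨p, hp, rfl⟩
            obtain ⟨i, hi, rfl⟩ := hmem p (hT hp)
            exact ⟨i, ⟨⟨hi, hp⟩, hi⟩, rfl⟩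
          · rintro ⟨i, ⟨⟨hi, hp⟩, _⟩, rfl⟩
            exact ⟨_, hp, rfl⟩
        have h2 : T.image Prod.snd = (I.filter (fun i => 2 ≤ x i)).image x := by
          ext a
          simp only [I, Finset.mem_image, Finset.mem_filter, Finset.mem_univ, true_and]
          constructor
          · rintro ⟨p, hp, rfl⟩
            obtain ⟨i, hi, rfl⟩ := hmem p (hT hp)
            exact ⟨i, ⟨⟨hi, hp⟩, hx2 i hi⟩, rfl⟩
          · rintro ⟨i, ⟨⟨hi, hp⟩, _⟩, rfl⟩
            exact ⟨_, hp, rfl⟩
        rw [h1, h2, e3 I, Bool.false_xor]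
    obtain ⟨g, hg, g1, g2, -⟩ := exists_G _ f0 hPI
    refine ⟨g, hg, fun i => ?_⟩
    by_cases hi : y i < 2
    · rw [g1 _ hi, e4 i (Or.inr hi)]
    · exact g2 (y i, x i) (Finset.mem_image.2 ⟨i, Finset.mem_filter.2 ⟨Finset.mem_univ _, by omega⟩, rfl⟩)
  -- choose representatives
  let rep : ((Fin n → Fin 3) × (Fin n → Fin n → Bool) × (Finset (Fin n) → Bool)) → (Fin n → ℕ) :=
    fun t => if h : ∃ y, ty y = t then h.choose else 0
  refine ⟨Finset.univ.image rep, fun x => ?_⟩
  refine ⟨rep (ty x), Finset.mem_image_of_mem _ (Finset.mem_univ _), ?_⟩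
  have hex : ∃ y, ty y = ty x := ⟨x, rfl⟩
  have h1 : rep (ty x) = hex.choose := dif_pos hex
  have h2 : ty (rep (ty x)) = ty x := by rw [h1]; exact hex.choose_spec
  exact hty _ _ h2.symm

end Pool.Agent.Olig
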