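import Pool.Agent.Helpers.OligB

set_option autoImplicit false

namespace Pool.Agent.Olig

open OligDefs

theorem D_swap {S : Finset ℕ} (hS : big S) : D (Equiv.swap 0 1) S = false := by
  unfold D
  have : S.image (Equiv.swap 0 1 : Equiv.Perm ℕ) = S := by
    have h : ∀ x ∈ S, (Equiv.swap 0 1 : Equiv.Perm ℕ) x = x := by
      intro x hx
      have := hS x hx
      exact Equiv.swap_apply_of_ne_of_ne (by omega) (by omega)
    rw [Finset.image_congr (g := id) (fun x hx => h x hx), Finset.image_id]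
  rw [this, Bool.xor_self]

theorem swap_mem : (Equiv.swap 0 1 : Equiv.Perm ℕ) ∈ GG := by
  refine ⟨fun x => ?_, fun S S' hS hS' _ => by rw [D_swap hS, D_swap hS']⟩
  rcases lt_or_ge x 2 with h | h
  · interval_cases x <;> simp
  · rw [Equiv.swap_apply_of_ne_of_ne (by omega) (by omega)]

/-- the central involution -/
def z : GG := ⟨Equiv.swap 0 1, swap_mem⟩

theorem zz : z * z = 1 := by
  apply Subtype.ext
  show (Equiv.swap 0 1 : Equiv.Perm ℕ) * Equiv.swap 0 1 = 1
  exact Equiv.swap_mul_self 0 1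

theorem z_comm (g : GG) : z * g = g * z := by
  apply Subtype.ext
  show (Equiv.swap 0 1 : Equiv.Perm ℕ) * g.1 = g.1 * Equiv.swap 0 1
  ext x
  have hg : IsG g.1 := g.2
  rw [Equiv.Perm.mul_apply, Equiv.Perm.mul_apply]
  rcases lt_or_ge x 2 with h | h
  · have h0 := (hg.low 0).2 (by norm_num)
    have h1 := (hg.low 1).2 (by norm_num)
    have hne : g.1 0 ≠ g.1 1 := fun h => by have := g.1.injective h; omega
    have hc : (g.1 0 = 0 ∧ g.1 1 = 1) ∨ (g.1 0 = 1 ∧ g.1 1 = 0) := by omega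
    interval_cases x
    · rcases hc with ⟨a, b⟩ | ⟨a, b⟩ <;> simp [a, b]
    · rcases hc with ⟨a, b⟩ | ⟨a, b⟩ <;> simp [a, b]
  · have h2 : 2 ≤ g.1 x := by
      have := hg.low x; omega
    rw [Equiv.swap_apply_of_ne_of_ne (by omega) (by omega),
      Equiv.swap_apply_of_ne_of_ne (by omega) (by omega)]

def Sn (n : ℕ) : Finset ℕ := Finset.Ico 2 (n + 2)

theorem big_Sn (n : ℕ) : big (Sn n) := fun _ hx => (Finset.mem_Ico.1 hx).1

theorem card_Sn (n : ℕ) : (Sn n).card = n := by simp [Sn]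

/-- the homomorphisms to the group of order two -/
def e (n : ℕ) (g : GG) : Bool := D g.1 (Sn n)

theorem e_mul (n : ℕ) (g h : GG) : e n (g * h) = xor (e n g) (e n h) := by
  unfold e
  have hg : IsG g.1 := g.2
  have hh : IsG h.1 := h.2
  show D (g.1 * h.1) (Sn n) = _
  rw [D_mul, hg.eqv _ (Sn n) (big_image hh.low (big_Sn n)) (big_Sn n) (card_im _ _)]

theorem e_z (n : ℕ) : e n z = false := D_swap (big_Sn n)

theorem e_one (n : ℕ) : e n 1 = false := by
  have := e_mul n z z
  rw [zz, e_z] at this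
  exact this

def zp (b : Bool) : GG := if b then z else 1

theorem zp_mul (a b : Bool) : zp a * zp b = zp (xor a b) := by
  cases a <;> cases b <;> simp [zp, zz]

theorem zp_comm (a : Bool) (g : GG) : zp a * g = g * zp a := by
  cases a
  · simp [zp]
  · exact z_comm g

theorem e_zp (n : ℕ) (b : Bool) : e n (zp b) = false := by
  cases b
  · exact e_one n
  · exact e_z n

/-- the twisted automorphisms -/
def al (n : ℕ) : MulAut GG where
  toFun g := g * zp (e n g)
  invFun g := g * zp (e n g)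
  left_inv g := by
    show g * zp (e n g) * zp (e n (g * zp (e n g))) = g
    rw [e_mul, e_zp, Bool.xor_false, mul_assoc, zp_mul, Bool.xor_self]
    exact mul_one g
  right_inv g := by
    show g * zp (e n g) * zp (e n (g * zp (e n g))) = g
    rw [e_mul, e_zp, Bool.xor_false, mul_assoc, zp_mul, Bool.xor_self]
    exact mul_one g
  map_mul' g h := by
    show g * h * zp (e n (g * h)) = g * zp (e n g) * (h * zp (e n h))
    rw [e_mul, ← zp_mul, mul_assoc g (zp (e n g)), ← mul_assoc (zp (e n g)) h, zp_comm (e n g) h]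
    simp only [mul_assoc]

/-- continuity criterion for maps to discrete spaces -/
theorem cont_disc {Y : Type*} [TopologicalSpace Y] (φ : GG → Y) (F : Finset ℕ)
    (h : ∀ g g' : GG, (∀ x ∈ F, g'.1 x = g.1 x) → φ g' = φ g) :
    @Continuous GG Y (grpTop GG) _ φ := by
  refine @Continuous.mk _ _ (grpTop GG) _ _ (fun s _ => ?_)
  refine (@isOpen_induced_iff _ _ permTop _ _).2
    ⟨{p : Equiv.Perm ℕ | ∃ g : GG, φ g ∈ s ∧ ∀ x ∈ F, p x = g.1 x}, ?_, ?_⟩
  · apply isOpen_perm
    rintro p ⟨g, hg, hp⟩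
    exact ⟨F, fun g' hg' => ⟨g, hg, fun x hx => by rw [hg' x hx, hp x hx]⟩⟩
  · ext g'
    simp only [Set.mem_preimage, Set.mem_ofPred_eq]
    constructor
    · rintro ⟨g, hg, hp⟩
      rw [h g g' hp]; exact hg
    · intro hg
      exact ⟨g', hg, fun x _ => rfl⟩

theorem al_cont (n : ℕ) : @Continuous GG GG (grpTop GG) (grpTop GG) (al n) := by
  refine continuous_induced_rng.2 ?_
  refine continuous_induced_rng.2 ?_
  refine @continuous_pi GG ℕ (fun _ => ℕ) (grpTop GG) _ _ ?_
  intro x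
  apply cont_disc _ (insert x (insert (Equiv.swap 0 1 x) (Sn n)))
  intro g g' h
  have h1 : e n g' = e n g := by
    unfold e D
    have : (Sn n).image g'.1 = (Sn n).image g.1 :=
      Finset.image_congr (fun y hy => h y (Finset.mem_insert_of_mem (Finset.mem_insert_of_mem hy)))
    rw [this]
  show (g' * zp (e n g')).1 x = (g * zp (e n g)).1 x
  rw [h1]
  show g'.1 ((zp (e n g)).1 x) = g.1 ((zp (e n g)).1 x)
  apply h
  cases e n g
  · exact Finset.mem_insert_self _ _
  · exact Finset.mem_insert_of_mem (Finset.mem_insert_self _ _)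

def alA (n : ℕ) : TopAut GG := ⟨al n, al_cont n, al_cont n⟩

/-- the index two subgroup -/
def U : Subgroup GG where
  carrier := {g | g.1 0 = 0}
  one_mem' := rfl
  mul_mem' := by
    intro g h hg hh
    show g.1 (h.1 0) = 0
    have hh' : h.1 0 = 0 := hh
    rw [hh']; exact hg
  inv_mem' := by
    intro g hg
    have hg' : g.1 0 = 0 := hg
    show (g.1)⁻¹ 0 = 0
    rw [Equiv.Perm.inv_eq_iff_eq, hg']

theorem mem_U {g : GG} : g ∈ U ↔ g.1 0 = 0 := Iff.rfl

theorem U_open : @IsOpen GG (grpTop GG) (U : Set GG) := by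
  have h := cont_disc (fun g : GG => (g.1 0 : ℕ)) {0} (fun g g' h => h 0 (Finset.mem_singleton_self 0))
  exact @Continuous.isOpen_preimage _ _ (grpTop GG) _ _ h {0} (isOpen_discrete _)

theorem U_coset : IsOpenCoset GG (U : Set GG) := by
  refine ⟨U, 1, U_open, ?_⟩
  simp

theorem low_cases (g : GG) : (g.1 0 = 0 ∧ g.1 1 = 1) ∨ (g.1 0 = 1 ∧ g.1 1 = 0) := by
  have hg : IsG g.1 := g.2
  have h0 := (hg.low 0).2 (by norm_num)
  have h1 := (hg.low 1).2 (by norm_num)
  have hne : g.1 0 ≠ g.1 1 := fun h => by have := g.1.injective h; omega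
  omega

theorem U_conj (g u : GG) (hu : u ∈ U) : g * u * g⁻¹ ∈ U := by
  rw [mem_U] at hu ⊢
  show g.1 (u.1 ((g.1)⁻¹ 0)) = 0
  have hu1 : u.1 1 = 1 := by
    rcases low_cases u with h | h
    · exact h.2
    · rw [hu] at h; exact absurd h.1 (by norm_num)
  rcases low_cases g with ⟨a, b⟩ | ⟨a, b⟩
  · have : (g.1)⁻¹ 0 = 0 := by rw [Equiv.Perm.inv_eq_iff_eq, a]
    rw [this, hu, a]
  · have : (g.1)⁻¹ 0 = 1 := by rw [Equiv.Perm.inv_eq_iff_eq, b]
    rw [this, hu1, b]

/-- the invariant of an outer class -/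
def q0 (α : TopAut GG) : Set GG := ((α : MulAut GG) : GG → GG) '' (U : Set GG)

theorem q0_inn (α β : TopAut GG) (h : α⁻¹ * β ∈ Inn GG) : q0 α = q0 β := by
  obtain ⟨g, hg⟩ : (((α⁻¹ * β : TopAut GG)) : MulAut GG) ∈ (MulAut.conj : GG →* MulAut GG).range :=
    Subgroup.mem_subgroupOf.1 h
  have hβ : ∀ u, (β : MulAut GG) u = (α : MulAut GG) (g * u * g⁻¹) := by
    intro u
    have h1 : (β : MulAut GG) = (α : MulAut GG) * MulAut.conj g := by
      rw [hg]; simp
    rw [h1]; rfl
  unfold q0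
  ext y
  constructor
  · rintro ⟨u, hu, rfl⟩
    refine ⟨g⁻¹ * u * g, ?_, ?_⟩
    · have := U_conj g⁻¹ u hu
      rwa [inv_inv] at this
    · rw [hβ]
      congr 1
      group
  · rintro ⟨u, hu, rfl⟩
    exact ⟨_, U_conj g u hu, (hβ u).symm⟩

def q : TopAut GG ⧸ Inn GG → Set GG :=
  Quotient.lift q0 (fun α β h => q0_inn α β (QuotientGroup.leftRel_apply.1 h))

theorem q_al {n m : ℕ} (hn : 0 < n) (hnm : n ≠ m) : q0 (alA n) ≠ q0 (alA m) := by
  intro heq
  have hPI : IsPI (fun k => decide (k = n)) ∅ := by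
    refine ⟨by simp, by simp, by simp, ?_⟩
    intro T hT
    have : T = ∅ := Finset.subset_empty.1 hT
    subst this
    show R ∅ = xor (decide (0 = n)) (R ∅)
    rw [decide_eq_false (by omega), Bool.false_xor]
  obtain ⟨g, hg, g1, -, g3⟩ := exists_G _ ∅ hPI
  let G : GG := ⟨g, hg⟩
  have hGU : G ∈ U := g1 0 (by norm_num)
  have en : e n G = true := by
    show D g (Sn n) = true
    rw [g3 _ (big_Sn n), card_Sn]; simp
  have em : e m G = false := by
    show D g (Sn m) = false
    rw [g3 _ (big_Sn m), card_Sn]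
    apply decide_eq_false; omega
  have h1 : G ∈ q0 (alA m) := by
    refine ⟨G, hGU, ?_⟩
    show G * zp (e m G) = G
    rw [em]; simp [zp]
  rw [← heq] at h1
  obtain ⟨g', hg', hgg⟩ := h1
  have h2 : g' * zp (e n g') = G := hgg
  have h3 : e n g' = true := by
    rw [← h2, e_mul, e_zp, Bool.xor_false] at en
    exact en
  rw [h3] at h2
  have h4 : G.1 0 = g'.1 1 := by
    rw [← h2]
    show g'.1 (z.1 0) = g'.1 1
    rfl
  have h5 : G.1 0 = 0 := hGU
  have h6 : g'.1 0 = 0 := hg'
  rcases low_cases g' with ⟨a, b⟩ | ⟨a, b⟩ <;> omega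

theorem not_compact : ¬ @CompactSpace (TopAut GG ⧸ Inn GG) (outTop GG) := by
  intro hc
  let t1 : TopologicalSpace (TopAut GG ⧸ Inn GG) := outTop GG
  let t2 : TopologicalSpace (Set GG) := ⊥
  have : DiscreteTopology (Set GG) := ⟨rfl⟩
  have hq : Continuous q := by
    rw [continuous_coinduced_dom]
    have h1 : @Continuous _ _ (TopologicalSpace.induced q0 ⊥) t2 q0 := continuous_induced_dom
    have h2 : autTop GG ≤ TopologicalSpace.induced q0 ⊥ :=
      iInf_le (fun C : {C : Set GG // IsOpenCoset GG C} =>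
        TopologicalSpace.induced (fun α : TopAut GG => ((α : MulAut GG) : GG → GG) '' C.1) ⊥) ⟨(U : Set GG), U_coset⟩
    exact @continuous_le_dom _ _ _ _ _ _ h2 h1
  have hfin : (Set.range q).Finite := (isCompact_range hq).finite_of_discrete
  have hinf : (Set.range (fun n : ℕ => q0 (alA (n + 1)))).Infinite := by
    apply Set.infinite_range_of_injective
    intro n m hnm
    by_contra hne
    exact q_al (by omega) (by omega : n + 1 ≠ m + 1) hnm
  apply hinf
  apply hfin.subset
  rintro _ ⟨n, rfl⟩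
  exact ⟨QuotientGroup.mk (alA (n + 1)), rfl⟩

end Pool.Agent.Olig
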