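import Mathlib

open MeasureTheory ProbabilityTheory

namespace FinEnPerc

/-- The graph `ℤ^d`: two vertices are adjacent when their Euclidean distance is `1`. -/
def Zd (d : ℕ) : SimpleGraph (Fin d → ℤ) where
  Adj x y := ∑ i, (x i - y i) ^ 2 = 1
  symm := ⟨fun x y h => by
    have : ∑ i, (y i - x i) ^ 2 = ∑ i, (x i - y i) ^ 2 :=
      Finset.sum_congr rfl fun i _ => by ring
    rw [this]; exact h⟩
  loopless := ⟨fun x h => by simp at h⟩

/-- The edges of `ℤ^d`. -/
abbrev Edge (d : ℕ) : Type := (Zd d).edgeSet

/-- Edge configurations, elements of `{0,1}^E`. -/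
abbrev Config (d : ℕ) : Type := Edge d → Bool

/-- The subgraph of open edges. -/
def openGraph {d : ℕ} (X : Config d) : SimpleGraph (Fin d → ℤ) :=
  SimpleGraph.fromEdgeSet {s | ∃ h : s ∈ (Zd d).edgeSet, X ⟨s, h⟩ = true}

/-- Some cluster (connected component of the open subgraph) is infinite. -/
def HasInfiniteCluster {d : ℕ} (X : Config d) : Prop :=
  ∃ C : (openGraph X).ConnectedComponent, C.supp.Infinite

/-- The configuration moved by a graph automorphism. -/
def relabel {d : ℕ} (φ : Zd d ≃g Zd d) (X : Config d) : Config d :=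
  fun e => X (φ.mapEdgeSet e)

/-- The law is invariant under all graph automorphisms. -/
def Invariant {d : ℕ} (μ : Measure (Config d)) : Prop :=
  ∀ φ : Zd d ≃g Zd d, μ.map (relabel φ) = μ

/-- The sigma-algebra generated by the edges other than `e`. -/
abbrev awayFrom {d : ℕ} (e : Edge d) : MeasurableSpace (Config d) :=
  MeasurableSpace.comap (fun (X : Config d) (f : {f : Edge d // f ≠ e}) => X f.1) inferInstance

/-- Finite energy: the conditional probability that `e` is open given all other edges
lies strictly between `0` and `1`, almost surely. -/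
def FiniteEnergy {d : ℕ} (μ : Measure (Config d)) : Prop :=
  ∀ e : Edge d, ∀ᵐ X ∂μ,
    0 < (μ[Set.indicator {Y : Config d | Y e = true} (fun _ => (1 : ℝ)) | awayFrom e]) X ∧
    (μ[Set.indicator {Y : Config d | Y e = true} (fun _ => (1 : ℝ)) | awayFrom e]) X < 1

/-- The law of the `p`-thinning of a configuration with law `μ`. -/
noncomputable def thin {d : ℕ} (μ : Measure (Config d)) (p : unitInterval) :
    Measure (Config d) :=
  (μ.prod (Measure.infinitePi fun _ : Edge d => bernoulliMeasure true false p)).map
    (fun q e => q.1 e && q.2 e)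

/-- The critical value of thinning. -/
noncomputable def pc {d : ℕ} (μ : Measure (Config d)) : ℝ :=
  sSup {p : ℝ | ∃ h : p ∈ unitInterval, ∀ᵐ X ∂(thin μ ⟨p, h⟩), ¬ HasInfiniteCluster X}

end FinEnPerc
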