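import Mathlib
import Pool.Agent.Helpers.PercDefs

open MeasureTheory ProbabilityTheory
open scoped ENNReal

namespace FinEnPerc

variable {d : ℕ} [NeZero d]

/-- Labels of the hyperplanes `x_i = n`. -/
abbrev Lab (d : ℕ) : Type := Fin d × ℤ → ℕ

noncomputable def idx (a : Fin d → ℕ) : Fin d := Classical.choose (Finite.exists_min a)

theorem idx_spec (a : Fin d → ℕ) (i : Fin d) : a (idx a) ≤ a i :=
  Classical.choose_spec (Finite.exists_min a) i

noncomputable def dirOf (v : Lab d) (x : Fin d → ℤ) : Fin d := idx (fun i => v (i, x i))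

noncomputable def par (v : Lab d) (x : Fin d → ℤ) : Fin d → ℤ :=
  x - Pi.single (dirOf v x) 1

theorem dirOf_spec (v : Lab d) (x : Fin d → ℤ) (i : Fin d) :
    v (dirOf v x, x (dirOf v x)) ≤ v (i, x i) := idx_spec (fun i => v (i, x i)) i

theorem par_dir (v : Lab d) (x : Fin d → ℤ) :
    par v x (dirOf v x) = x (dirOf v x) - 1 := by simp [par]

theorem par_ne (v : Lab d) (x : Fin d → ℤ) {i : Fin d} (h : i ≠ dirOf v x) :
    par v x i = x i := by simp [par, Pi.single_eq_of_ne h]

theorem par_le (v : Lab d) (x : Fin d → ℤ) (i : Fin d) : par v x i ≤ x i := by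
  by_cases h : i = dirOf v x
  · rw [h, par_dir]; omega
  · rw [par_ne v x h]

theorem sum_par (v : Lab d) (x : Fin d → ℤ) : ∑ i, par v x i = ∑ i, x i - 1 := by
  unfold par
  simp [Finset.sum_sub_distrib, Finset.sum_pi_single']

theorem sum_iter (v : Lab d) (x : Fin d → ℤ) (k : ℕ) :
    ∑ i, ((par v)^[k] x) i = ∑ i, x i - k := by
  induction k generalizing x with
  | zero => simp
  | succ k ih =>
    rw [Function.iterate_succ_apply, ih, sum_par]; push_cast; ring

theorem iter_inj (v : Lab d) (x : Fin d → ℤ) {j k : ℕ}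
    (h : (par v)^[j] x = (par v)^[k] x) : j = k := by
  have h1 := sum_iter v x j
  have h2 := sum_iter v x k
  rw [h] at h1
  omega

/-- Good labels: in each direction, labels are unbounded at both ends. -/
def Good (v : Lab d) : Prop :=
  ∀ (i : Fin d) (A : ℕ) (N : ℤ), (∃ n, N < n ∧ A ≤ v (i, n)) ∧ (∃ n, n < N ∧ A ≤ v (i, n))

/-- `y` is a descendant of `z` (or equal to it). -/
def Reach (v : Lab d) (y z : Fin d → ℤ) : Prop := ∃ k, (par v)^[k] y = z

omit [NeZero d] in
/-- greatest element below `N` whose label is at least `A`. -/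
theorem exists_greatest {v : Lab d} (hv : Good v) (i : Fin d) (A : ℕ) (N : ℤ) :
    ∃ c, c < N ∧ A ≤ v (i, c) ∧ ∀ n, c < n → n < N → v (i, n) < A := by
  obtain ⟨-, m, hm, hmA⟩ := hv i A N
  -- strong induction on the distance
  have key : ∀ k : ℕ, ∀ m : ℤ, N - m = k → m < N → A ≤ v (i, m) →
      ∃ c, c < N ∧ A ≤ v (i, c) ∧ ∀ n, c < n → n < N → v (i, n) < A := by
    intro k
    induction k using Nat.strong_induction_on with
    | _ k ih =>
      intro m hk hm hmA
      by_cases h : ∀ n, m < n → n < N → v (i, n) < A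
      · exact ⟨m, hm, hmA, h⟩
      · push Not at h
        obtain ⟨n, h1, h2, h3⟩ := h
        refine ih (N - n).toNat ?_ n ?_ h2 h3
        · omega
        · omega
  exact key (N - m).toNat m (by omega) hm hmA

theorem to_corner {v : Lab d} {A : ℕ} {c M : Fin d → ℤ} (hc : ∀ i, A ≤ v (i, c i))
    (hM : ∀ i n, c i < n → n ≤ M i → v (i, n) < A) :
    ∀ (k : ℕ) (z : Fin d → ℤ), (∀ i, c i ≤ z i) → (∀ i, z i ≤ M i) →
      ∑ i, (z i - c i) = k → ∃ m, (par v)^[m] z = c := by
  intro k
  induction k with
  | zero =>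
    intro z h1 h2 h3
    refine ⟨0, ?_⟩
    have h4 : ∀ i ∈ Finset.univ, z i - c i = 0 :=
      (Finset.sum_eq_zero_iff_of_nonneg (fun i _ => by linarith [h1 i])).1 (by simpa using h3)
    funext i
    have := h4 i (Finset.mem_univ i)
    simp only [Function.iterate_zero, id]
    omega
  | succ k ih =>
    intro z h1 h2 h3
    have hne : ∃ i, c i < z i := by
      by_contra hcon
      push Not at hcon
      have : ∑ i, (z i - c i) ≤ 0 := Finset.sum_nonpos fun i _ => by linarith [hcon i]
      rw [h3] at this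
      push_cast at this
      omega
    obtain ⟨i0, hi0⟩ := hne
    have h5 : v (dirOf v z, z (dirOf v z)) < A :=
      lt_of_le_of_lt (dirOf_spec v z i0) (hM i0 _ hi0 (h2 i0))
    have h6 : c (dirOf v z) < z (dirOf v z) := by
      rcases lt_or_eq_of_le (h1 (dirOf v z)) with h | h
      · exact h
      · exfalso
        have := hc (dirOf v z)
        rw [h] at this
        omega
    obtain ⟨m, hm⟩ := ih (par v z) (by
      intro i
      by_cases h : i = dirOf v z
      · rw [h, par_dir]; omega
      · rw [par_ne v z h]; exact h1 i) (fun i => (par_le v z i).trans (h2 i)) (by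
      rw [Finset.sum_sub_distrib] at h3 ⊢
      rw [sum_par]
      push_cast at h3
      linarith)
    exact ⟨m + 1, by rw [Function.iterate_succ_apply]; exact hm⟩

/-- coalescence -/
theorem coalesce {v : Lab d} (hv : Good v) (x y : Fin d → ℤ) :
    ∃ m n, (par v)^[m] x = (par v)^[n] y := by
  classical
  set A : ℕ := ∑ i, ∑ n ∈ Finset.Icc (min (x i) (y i)) (max (x i) (y i)), v (i, n) + 1 with hA
  have hlt : ∀ i n, min (x i) (y i) ≤ n → n ≤ max (x i) (y i) → v (i, n) < A := by
    intro i n h1 h2
    have a1 : v (i, n) ≤ ∑ n ∈ Finset.Icc (min (x i) (y i)) (max (x i) (y i)), v (i, n) :=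
      Finset.single_le_sum (f := fun n => v (i, n)) (fun _ _ => Nat.zero_le _)
        (Finset.mem_Icc.2 ⟨h1, h2⟩)
    have a2 : ∑ n ∈ Finset.Icc (min (x i) (y i)) (max (x i) (y i)), v (i, n) ≤
        ∑ i, ∑ n ∈ Finset.Icc (min (x i) (y i)) (max (x i) (y i)), v (i, n) :=
      Finset.single_le_sum
        (f := fun i => ∑ n ∈ Finset.Icc (min (x i) (y i)) (max (x i) (y i)), v (i, n))
        (fun _ _ => Nat.zero_le _) (Finset.mem_univ i)
    rw [hA]
    exact Nat.lt_succ_of_le (a1.trans a2)
  choose c hc1 hc2 hc3 using fun i => exists_greatest hv i A (min (x i) (y i))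
  have hM : ∀ i n, c i < n → n ≤ max (x i) (y i) → v (i, n) < A := by
    intro i n h1 h2
    by_cases h : n < min (x i) (y i)
    · exact hc3 i n h1 h
    · exact hlt i n (not_lt.1 h) h2
  have hnn : ∀ z : Fin d → ℤ, (∀ i, c i ≤ z i) → ∑ i, (z i - c i) =
      ((∑ i, (z i - c i)).toNat : ℤ) := by
    intro z hz
    rw [Int.toNat_of_nonneg]
    exact Finset.sum_nonneg fun i _ => by linarith [hz i]
  have hx : ∀ i, c i ≤ x i := fun i => by
    have := hc1 i
    omega
  have hy : ∀ i, c i ≤ y i := fun i => by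
    have := hc1 i
    omega
  obtain ⟨m, hm⟩ := to_corner (M := fun i => max (x i) (y i)) hc2 hM _ x hx
    (fun i => le_max_left _ _) (hnn x hx)
  obtain ⟨n, hn⟩ := to_corner (M := fun i => max (x i) (y i)) hc2 hM _ y hy
    (fun i => le_max_right _ _) (hnn y hy)
  exact ⟨m, n, hm.trans hn.symm⟩

/-- at most one label below `A`. -/
def AtMostOne (v : Lab d) (A : ℕ) (z : Fin d → ℤ) : Prop :=
  ∀ j j', v (j, z j) < A → v (j', z j') < A → j = j'

theorem atMostOne_par {v : Lab d} {A : ℕ} {z : Fin d → ℤ} (h : AtMostOne v A z) :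
    AtMostOne v A (par v z) := by
  have key : ∀ j, j ≠ dirOf v z → A ≤ v (j, par v z j) := by
    intro j hj
    rw [par_ne v z hj]
    by_contra hcon
    push Not at hcon
    exact hj (h j _ hcon (lt_of_le_of_lt (dirOf_spec v z j) hcon))
  intro j j' h1 h2
  have e1 : j = dirOf v z := by
    by_contra hj
    exact absurd (key j hj) (not_le.2 h1)
  have e2 : j' = dirOf v z := by
    by_contra hj
    exact absurd (key j' hj) (not_le.2 h2)
  rw [e1, e2]

theorem atMostOne_iter {v : Lab d} {A : ℕ} (k : ℕ) {z : Fin d → ℤ} (h : AtMostOne v A z) :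
    AtMostOne v A ((par v)^[k] z) := by
  induction k generalizing z with
  | zero => exact h
  | succ k ih =>
    rw [Function.iterate_succ_apply]
    exact ih (atMostOne_par h)

theorem upper_bound {v : Lab d} {A : ℕ} {x : Fin d → ℤ} {i : Fin d} {C : ℤ}
    (hxC : x i < C) (hC : A ≤ v (i, C)) :
    ∀ (k : ℕ) (y : Fin d → ℤ), (par v)^[k] y = x → C ≤ y i → AtMostOne v A x := by
  intro k
  induction k with
  | zero =>
    intro y h1 h2
    simp only [Function.iterate_zero, id] at h1
    rw [h1] at h2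
    omega
  | succ k ih =>
    intro y h1 h2
    by_cases h3 : C ≤ par v y i
    · exact ih (par v y) (by rw [← Function.iterate_succ_apply]; exact h1) h3
    · have h4 : i = dirOf v y := by
        by_contra hne
        rw [par_ne v y hne] at h3
        exact h3 h2
      have h5 : y i = C := by
        have : par v y i = y i - 1 := by rw [h4]; exact par_dir v y
        omega
      have h6 : AtMostOne v A y := by
        intro j j' h7 _
        exfalso
        have h8 := dirOf_spec v y j
        rw [← h4, h5] at h8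
        omega
      rw [← h1]
      exact atMostOne_iter (k + 1) h6

theorem iter_le (v : Lab d) (k : ℕ) (y : Fin d → ℤ) (i : Fin d) :
    ((par v)^[k] y) i ≤ y i := by
  induction k generalizing y with
  | zero => simp
  | succ k ih =>
    rw [Function.iterate_succ_apply]
    exact (ih (par v y)).trans (par_le v y i)

/-- finitely many descendants -/
theorem finite_desc (hd : 2 ≤ d) {v : Lab d} (hv : Good v) (x : Fin d → ℤ) :
    {y | Reach v y x}.Finite := by
  classical
  set A : ℕ := ∑ i, v (i, x i) + 1 with hA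
  have hlt : ∀ i, v (i, x i) < A := by
    intro i
    rw [hA]
    exact Nat.lt_succ_of_le (Finset.single_le_sum (f := fun i => v (i, x i))
      (fun _ _ => Nat.zero_le _) (Finset.mem_univ i))
  choose C hC1 hC2 using fun i => (hv i A (x i)).1
  refine (Set.finite_Icc x C).subset ?_
  rintro y ⟨k, hk⟩
  refine ⟨fun i => ?_, fun i => ?_⟩
  · rw [← hk]; exact iter_le v k y i
  · by_contra hcon
    push Not at hcon
    have := upper_bound (hC1 i) (hC2 i) k y hk hcon.le
    have h01 := this ⟨0, by omega⟩ ⟨1, by omega⟩ (hlt _) (hlt _)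
    simp at h01

/-- number of descendants -/
noncomputable def hgt (v : Lab d) (z : Fin d → ℤ) : ℝ≥0∞ :=
  ∑' y, Set.indicator {y | Reach v y z} (fun _ => (1 : ℝ≥0∞)) y

theorem hgt_lt_top (hd : 2 ≤ d) {v : Lab d} (hv : Good v) (z : Fin d → ℤ) :
    hgt v z < ∞ := by
  classical
  have hf := finite_desc hd hv z
  unfold hgt
  rw [tsum_eq_sum (s := hf.toFinset)]
  · refine ENNReal.sum_lt_top.2 fun y _ => ?_
    refine lt_of_le_of_lt (Set.indicator_le_self _ _ y) ENNReal.one_lt_top
  · intro y hy
    simp only [Set.Finite.mem_toFinset] at hy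
    simp [Set.indicator_of_notMem hy]

theorem le_hgt (v : Lab d) (x : Fin d → ℤ) (k : ℕ) :
    ((k : ℝ≥0∞) + 1) ≤ hgt v ((par v)^[k] x) := by
  classical
  have h1 := ENNReal.sum_le_tsum (f := fun y =>
    Set.indicator {y | Reach v y ((par v)^[k] x)} (fun _ => (1 : ℝ≥0∞)) y)
    ((Finset.range (k + 1)).image fun j => (par v)^[j] x)
  refine le_trans ?_ h1
  rw [Finset.sum_image]
  · rw [Finset.sum_congr rfl (g := fun _ => (1 : ℝ≥0∞))]
    · simp
    · intro j hj
      rw [Set.indicator_of_mem]
      refine ⟨k - j, ?_⟩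
      rw [← Function.iterate_add_apply]
      congr 2
      have := Finset.mem_range.1 hj
      omega
  · intro i _ j _ h
    exact iter_inj v x h

/-- the edge boundary of the set of descendants of `z` -/
def bd (v : Lab d) (z : Fin d → ℤ) (e : Sym2 (Fin d → ℤ)) : Prop :=
  ∃ x y, e = s(x, y) ∧ Reach v x z ∧ ¬ Reach v y z

/-- edges of the tree -/
def isTree (v : Lab d) (e : Sym2 (Fin d → ℤ)) : Prop := ∃ x, e = s(x, par v x)

noncomputable def sup' (v : Lab d) (e : Sym2 (Fin d → ℤ)) : ℝ≥0∞ :=
  ⨆ z, Set.indicator {z | bd v z e} (fun z => hgt v z) z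

theorem le_sup' {v : Lab d} {z : Fin d → ℤ} {e : Sym2 (Fin d → ℤ)} (h : bd v z e) :
    hgt v z ≤ sup' v e := by
  have h1 := le_iSup (fun z => Set.indicator {z | bd v z e} (fun z => hgt v z) z) z
  simp only [Set.indicator_of_mem (show z ∈ {z | bd v z e} from h)] at h1
  exact h1

theorem sup'_lt_top (hd : 2 ≤ d) {v : Lab d} (hv : Good v) (e : Sym2 (Fin d → ℤ)) :
    sup' v e < ∞ := by
  induction e using Sym2.ind with
  | _ x y =>
  obtain ⟨m, n, hmn⟩ := coalesce hv x y
  refine lt_of_le_of_lt (b := ∑ j ∈ Finset.range m, hgt v ((par v)^[j] x) +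
    ∑ j ∈ Finset.range n, hgt v ((par v)^[j] y)) ?_ ?_
  · refine iSup_le fun z => ?_
    refine Set.indicator_apply_le' (fun hz => ?_) (fun _ => zero_le)
    obtain ⟨a, b, hab, ⟨k, hk⟩, hb⟩ := hz
    rcases Sym2.eq_iff.1 hab with ⟨rfl, rfl⟩ | ⟨rfl, rfl⟩
    · have hkm : k < m := by
        by_contra hcon
        push Not at hcon
        apply hb
        refine ⟨(k - m) + n, ?_⟩
        rw [Function.iterate_add_apply, ← hmn, ← Function.iterate_add_apply,
          Nat.sub_add_cancel hcon, hk]
      refine le_trans ?_ le_self_add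
      rw [← hk]
      exact Finset.single_le_sum (f := fun j => hgt v ((par v)^[j] x))
        (fun _ _ => zero_le) (Finset.mem_range.2 hkm)
    · have hkm : k < n := by
        by_contra hcon
        push Not at hcon
        apply hb
        refine ⟨(k - n) + m, ?_⟩
        rw [Function.iterate_add_apply, hmn, ← Function.iterate_add_apply,
          Nat.sub_add_cancel hcon, hk]
      refine le_trans ?_ le_add_self
      rw [← hk]
      exact Finset.single_le_sum (f := fun j => hgt v ((par v)^[j] y))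
        (fun _ _ => zero_le) (Finset.mem_range.2 hkm)
  · exact ENNReal.add_lt_top.2 ⟨ENNReal.sum_lt_top.2 fun j _ => hgt_lt_top hd hv _,
      ENNReal.sum_lt_top.2 fun j _ => hgt_lt_top hd hv _⟩

theorem not_reach_par (v : Lab d) (z : Fin d → ℤ) : ¬ Reach v (par v z) z := by
  rintro ⟨k, hk⟩
  have h1 := sum_iter v (par v z) k
  rw [hk, sum_par] at h1
  omega

theorem bd_self (v : Lab d) (z : Fin d → ℤ) : bd v z s(z, par v z) :=
  ⟨z, par v z, rfl, ⟨0, rfl⟩, not_reach_par v z⟩

/-- the only tree edge in the boundary of the descendants of `z`. -/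
theorem tree_bd {v : Lab d} {z : Fin d → ℤ} {e : Sym2 (Fin d → ℤ)} (h : bd v z e)
    (ht : isTree v e) : e = s(z, par v z) := by
  obtain ⟨x, rfl⟩ := ht
  obtain ⟨a, b, hab, ⟨k, hk⟩, hb⟩ := h
  rcases Sym2.eq_iff.1 hab with ⟨rfl, rfl⟩ | ⟨rfl, rfl⟩
  · cases k with
    | zero => simp only [Function.iterate_zero, id] at hk; rw [hk]
    | succ k =>
      exfalso
      exact hb ⟨k, by rw [← Function.iterate_succ_apply]; exact hk⟩
  · exfalso
    exact hb ⟨k + 1, by rw [Function.iterate_succ_apply]; exact hk⟩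

end FinEnPerc
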