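import Mathlib
import Pool.Agent.Helpers.PercTree

open MeasureTheory ProbabilityTheory
open scoped ENNReal

namespace FinEnPerc

variable {d : ℕ} [NeZero d]

open Classical in
/-- the opening probability of the edge `e` given the labels -/
noncomputable def rr (v : Lab d) (e : Sym2 (Fin d → ℤ)) : ℝ :=
  if isTree v e then 1 - 1 / (2 * (1 + (sup' v e).toReal) ^ 2)
  else 1 / (8 * d * (1 + (sup' v e).toReal) ^ 3)

theorem rr_tree {v : Lab d} {e : Sym2 (Fin d → ℤ)} (h : isTree v e) :
    rr v e = 1 - 1 / (2 * (1 + (sup' v e).toReal) ^ 2) := if_pos h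

theorem rr_not {v : Lab d} {e : Sym2 (Fin d → ℤ)} (h : ¬ isTree v e) :
    rr v e = 1 / (8 * d * (1 + (sup' v e).toReal) ^ 3) := if_neg h

omit [NeZero d] in
theorem one_le_d [NeZero d] : (1 : ℝ) ≤ d := by
  have : 1 ≤ d := Nat.one_le_iff_ne_zero.2 (NeZero.ne d)
  exact_mod_cast this

theorem rr_pos (v : Lab d) (e : Sym2 (Fin d → ℤ)) : 0 < rr v e := by
  have hS : 0 ≤ (sup' v e).toReal := ENNReal.toReal_nonneg
  have hd := one_le_d (d := d)
  by_cases h : isTree v e
  · rw [rr_tree h]
    have h1 : (1 : ℝ) ≤ (1 + (sup' v e).toReal) ^ 2 := one_le_pow₀ (by linarith)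
    have h2 : 1 / (2 * (1 + (sup' v e).toReal) ^ 2) ≤ 1 / 2 := by
      apply one_div_le_one_div_of_le <;> linarith
    linarith
  · rw [rr_not h]
    positivity

theorem rr_lt_one (v : Lab d) (e : Sym2 (Fin d → ℤ)) : rr v e < 1 := by
  have hS : 0 ≤ (sup' v e).toReal := ENNReal.toReal_nonneg
  have hd := one_le_d (d := d)
  by_cases h : isTree v e
  · rw [rr_tree h]
    have : 0 < 1 / (2 * (1 + (sup' v e).toReal) ^ 2) := by positivity
    linarith
  · rw [rr_not h]
    have h1 : (1 : ℝ) ≤ (1 + (sup' v e).toReal) ^ 3 := one_le_pow₀ (by linarith)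
    rw [div_lt_one (by positivity)]
    nlinarith

/-! ### measurability -/

theorem measurable_idx : Measurable (idx : (Fin d → ℕ) → Fin d) := measurable_of_countable _

theorem measurable_dirOf (x : Fin d → ℤ) : Measurable fun v : Lab d => dirOf v x := by
  unfold dirOf
  refine measurable_idx.comp ?_
  exact measurable_pi_lambda _ fun i => measurable_pi_apply _

theorem measurable_par (x : Fin d → ℤ) : Measurable fun v : Lab d => par v x := by
  have h : Measurable (fun j : Fin d => x - Pi.single j (1 : ℤ)) := measurable_of_countable _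
  exact h.comp (measurable_dirOf x)

theorem measurable_par₂ : Measurable fun q : Lab d × (Fin d → ℤ) => par q.1 q.2 :=
  measurable_from_prod_countable_left fun z => measurable_par z

theorem measurable_iter (k : ℕ) (x : Fin d → ℤ) :
    Measurable fun v : Lab d => (par v)^[k] x := by
  induction k with
  | zero => simp
  | succ k ih =>
    simp only [Function.iterate_succ_apply']
    exact measurable_par₂.comp (measurable_id.prodMk ih)

theorem measurableSet_reach (y z : Fin d → ℤ) : MeasurableSet {v : Lab d | Reach v y z} := by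
  have : {v : Lab d | Reach v y z} = ⋃ k : ℕ, (fun v : Lab d => (par v)^[k] y) ⁻¹' {z} := by
    ext v; simp [Reach]
  rw [this]
  exact MeasurableSet.iUnion fun k => measurable_iter k y (measurableSet_singleton z)

theorem measurable_hgt (z : Fin d → ℤ) : Measurable fun v : Lab d => hgt v z := by
  unfold hgt
  refine Measurable.tsum fun y => ?_
  have : (fun v : Lab d => Set.indicator {y | Reach v y z} (fun _ => (1 : ℝ≥0∞)) y) =
      Set.indicator {v : Lab d | Reach v y z} (fun _ => (1 : ℝ≥0∞)) := by
    funext v
    rfl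
  rw [this]
  exact measurable_const.indicator (measurableSet_reach y z)

theorem measurableSet_bd (z : Fin d → ℤ) (e : Sym2 (Fin d → ℤ)) :
    MeasurableSet {v : Lab d | bd v z e} := by
  have : {v : Lab d | bd v z e} = ⋃ x : Fin d → ℤ, ⋃ y : Fin d → ℤ,
      ({_v : Lab d | e = s(x, y)} ∩ ({v : Lab d | Reach v x z} ∩ {v : Lab d | Reach v y z}ᶜ)) := by
    ext v; simp [bd]
  rw [this]
  refine MeasurableSet.iUnion fun x => MeasurableSet.iUnion fun y => ?_
  exact (MeasurableSet.const _).inter ((measurableSet_reach x z).inter (measurableSet_reach y z).compl)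

theorem measurableSet_isTree (e : Sym2 (Fin d → ℤ)) :
    MeasurableSet {v : Lab d | isTree v e} := by
  have : {v : Lab d | isTree v e} = ⋃ x : Fin d → ℤ,
      (fun v : Lab d => par v x) ⁻¹' {y | e = s(x, y)} := by
    ext v; simp [isTree]
  rw [this]
  exact MeasurableSet.iUnion fun x => measurable_par x (Set.to_countable _).measurableSet

theorem measurable_sup' (e : Sym2 (Fin d → ℤ)) : Measurable fun v : Lab d => sup' v e := by
  unfold sup'
  refine Measurable.iSup fun z => ?_
  have : (fun v : Lab d => Set.indicator {z | bd v z e} (fun z => hgt v z) z) =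
      Set.indicator {v : Lab d | bd v z e} (fun v => hgt v z) := by
    funext v
    rfl
  rw [this]
  exact (measurable_hgt z).indicator (measurableSet_bd z e)

theorem measurable_rr (e : Sym2 (Fin d → ℤ)) : Measurable fun v : Lab d => rr v e := by
  unfold rr
  have h := (measurable_sup' (d := d) e).ennreal_toReal
  refine Measurable.ite (measurableSet_isTree e) ?_ ?_
  · exact measurable_const.sub (measurable_const.div (((measurable_const.add h).pow_const 2).const_mul 2))
  · exact measurable_const.div (((measurable_const.add h).pow_const 3).const_mul _)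

/-! ### equivariance under translations -/

/-- translated labels -/
def shiftLab (b : Fin d → ℤ) (v : Lab d) : Lab d := fun q => v (q.1, q.2 + b q.1)

theorem par_shift (b : Fin d → ℤ) (v : Lab d) (x : Fin d → ℤ) :
    par (shiftLab b v) x + b = par v (x + b) := by
  have h : dirOf (shiftLab b v) x = dirOf v (x + b) := rfl
  unfold par
  rw [h]
  abel

theorem iter_shift (b : Fin d → ℤ) (v : Lab d) (k : ℕ) (x : Fin d → ℤ) :
    (par (shiftLab b v))^[k] x + b = (par v)^[k] (x + b) := by
  induction k generalizing x with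
  | zero => simp
  | succ k ih =>
    rw [Function.iterate_succ_apply, Function.iterate_succ_apply, ih, par_shift]

theorem reach_shift (b : Fin d → ℤ) (v : Lab d) (y z : Fin d → ℤ) :
    Reach (shiftLab b v) y z ↔ Reach v (y + b) (z + b) := by
  unfold Reach
  refine exists_congr fun k => ?_
  rw [← iter_shift, add_left_inj]

theorem hgt_shift (b : Fin d → ℤ) (v : Lab d) (z : Fin d → ℤ) :
    hgt (shiftLab b v) z = hgt v (z + b) := by
  classical
  unfold hgt
  rw [← (Equiv.addRight b).tsum_eq
    (fun y => Set.indicator {y | Reach v y (z + b)} (fun _ => (1 : ℝ≥0∞)) y)]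
  refine tsum_congr fun y => ?_
  simp only [Set.indicator_apply, Set.mem_ofPred_eq, Equiv.coe_addRight]
  simp only [reach_shift]

theorem bd_shift (b : Fin d → ℤ) (v : Lab d) (z : Fin d → ℤ) (e : Sym2 (Fin d → ℤ)) :
    bd (shiftLab b v) z e ↔ bd v (z + b) (Sym2.map (fun x => x + b) e) := by
  constructor
  · rintro ⟨x, y, rfl, hx, hy⟩
    exact ⟨x + b, y + b, by simp, (reach_shift b v x z).1 hx,
      fun h => hy ((reach_shift b v y z).2 h)⟩
  · rintro ⟨x, y, he, hx, hy⟩
    refine ⟨x - b, y - b, ?_, ?_, ?_⟩
    · have h1 : Sym2.map (fun x : Fin d → ℤ => x + b) e =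
          Sym2.map (fun x : Fin d → ℤ => x + b) s(x - b, y - b) := by
        rw [he]; simp
      exact Sym2.map.injective (add_left_injective b) h1
    · rw [reach_shift]; simpa using hx
    · rw [reach_shift]; simpa using hy

theorem isTree_shift (b : Fin d → ℤ) (v : Lab d) (e : Sym2 (Fin d → ℤ)) :
    isTree (shiftLab b v) e ↔ isTree v (Sym2.map (fun x => x + b) e) := by
  constructor
  · rintro ⟨x, rfl⟩
    exact ⟨x + b, by simp [par_shift]⟩
  · rintro ⟨x, he⟩
    refine ⟨x - b, ?_⟩
    have h1 : Sym2.map (fun x : Fin d → ℤ => x + b) e =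
        Sym2.map (fun x : Fin d → ℤ => x + b) s(x - b, par (shiftLab b v) (x - b)) := by
      rw [he]; simp [par_shift]
    exact Sym2.map.injective (add_left_injective b) h1

theorem sup'_shift (b : Fin d → ℤ) (v : Lab d) (e : Sym2 (Fin d → ℤ)) :
    sup' (shiftLab b v) e = sup' v (Sym2.map (fun x => x + b) e) := by
  classical
  unfold sup'
  refine Equiv.iSup_congr (Equiv.addRight b) fun z => ?_
  simp only [Set.indicator_apply, Set.mem_ofPred_eq, Equiv.coe_addRight]
  simp only [bd_shift, hgt_shift]

theorem rr_shift (b : Fin d → ℤ) (v : Lab d) (e : Sym2 (Fin d → ℤ)) :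
    rr (shiftLab b v) e = rr v (Sym2.map (fun x => x + b) e) := by
  by_cases h : isTree (shiftLab b v) e
  · rw [rr_tree h, rr_tree ((isTree_shift b v e).1 h), sup'_shift]
  · rw [rr_not h, rr_not (fun h' => h ((isTree_shift b v e).2 h')), sup'_shift]

end FinEnPerc
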