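import Mathlib
import Pool.Agent.Helpers.PercField

open MeasureTheory ProbabilityTheory
open scoped ENNReal

namespace FinEnPerc

variable {d : ℕ}

theorem openGraph_adj {X : Config d} {x y : Fin d → ℤ} :
    (openGraph X).Adj x y ↔ ∃ h : s(x, y) ∈ (Zd d).edgeSet, X ⟨s(x, y), h⟩ = true := by
  unfold openGraph
  rw [SimpleGraph.fromEdgeSet_adj]
  constructor
  · rintro ⟨h, -⟩; exact h
  · rintro ⟨h, h'⟩
    refine ⟨⟨h, h'⟩, ?_⟩
    rw [SimpleGraph.mem_edgeSet] at h
    exact h.ne

theorem hasInf_iff {X : Config d} :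
    HasInfiniteCluster X ↔ ∃ x, {y | (openGraph X).Reachable x y}.Infinite := by
  unfold HasInfiniteCluster
  constructor
  · rintro ⟨C, hC⟩
    induction C using SimpleGraph.ConnectedComponent.ind with
    | _ x =>
      refine ⟨x, hC.mono ?_⟩
      intro y hy
      have : (openGraph X).connectedComponentMk y = (openGraph X).connectedComponentMk x := hy
      exact (SimpleGraph.ConnectedComponent.exact this).symm
  · rintro ⟨x, hx⟩
    refine ⟨(openGraph X).connectedComponentMk x, hx.mono ?_⟩
    intro y hy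
    exact SimpleGraph.ConnectedComponent.sound (SimpleGraph.Reachable.symm hy)

/-- reachable in `n` steps -/
def stepReach (X : Config d) : ℕ → (Fin d → ℤ) → (Fin d → ℤ) → Prop
  | 0, x, y => x = y
  | n + 1, x, y => ∃ z, (openGraph X).Adj x z ∧ stepReach X n z y

theorem reachable_iff {X : Config d} {x y : Fin d → ℤ} :
    (openGraph X).Reachable x y ↔ ∃ n, stepReach X n x y := by
  constructor
  · rintro ⟨w⟩
    induction w with
    | nil => exact ⟨0, rfl⟩
    | cons h _ ih =>
      obtain ⟨n, hn⟩ := ih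
      exact ⟨n + 1, _, h, hn⟩
  · rintro ⟨n, hn⟩
    induction n generalizing x with
    | zero => exact hn ▸ SimpleGraph.Reachable.refl _
    | succ n ih =>
      obtain ⟨z, h1, h2⟩ := hn
      exact h1.reachable.trans (ih h2)

theorem measurableSet_adj (x y : Fin d → ℤ) : MeasurableSet {X : Config d | (openGraph X).Adj x y} := by
  simp only [openGraph_adj]
  by_cases h : s(x, y) ∈ (Zd d).edgeSet
  · have : {X : Config d | ∃ h : s(x, y) ∈ (Zd d).edgeSet, X ⟨s(x, y), h⟩ = true} =
        (fun X : Config d => X ⟨s(x, y), h⟩) ⁻¹' {true} := by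
      ext X; simp [h]
    rw [this]
    exact measurable_pi_apply _ (measurableSet_singleton _)
  · have : {X : Config d | ∃ h : s(x, y) ∈ (Zd d).edgeSet, X ⟨s(x, y), h⟩ = true} = ∅ := by
      ext X; simp [h]
    rw [this]
    exact MeasurableSet.empty

theorem measurableSet_stepReach (n : ℕ) (x y : Fin d → ℤ) :
    MeasurableSet {X : Config d | stepReach X n x y} := by
  induction n generalizing x with
  | zero => exact MeasurableSet.const _
  | succ n ih =>
    have : {X : Config d | stepReach X (n + 1) x y} = ⋃ z : Fin d → ℤ,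
        ({X : Config d | (openGraph X).Adj x z} ∩ {X : Config d | stepReach X n z y}) := by
      ext X; simp [stepReach]
    rw [this]
    exact MeasurableSet.iUnion fun z => (measurableSet_adj x z).inter (ih z)

theorem measurableSet_reachable (x y : Fin d → ℤ) :
    MeasurableSet {X : Config d | (openGraph X).Reachable x y} := by
  have : {X : Config d | (openGraph X).Reachable x y} = ⋃ n : ℕ,
      {X : Config d | stepReach X n x y} := by
    ext X; simp [reachable_iff]
  rw [this]
  exact MeasurableSet.iUnion fun n => measurableSet_stepReach n x y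

theorem infinite_iff_finset {α : Type*} (P : α → Prop) :
    {y | P y}.Infinite ↔ ∀ F : Finset α, ∃ y, y ∉ F ∧ P y := by
  constructor
  · intro h F
    obtain ⟨y, hy, hF⟩ := h.exists_notMem_finset F
    exact ⟨y, hF, hy⟩
  · intro h hfin
    obtain ⟨y, h1, h2⟩ := h hfin.toFinset
    exact h1 (by simpa using h2)

theorem measurableSet_hasInf : MeasurableSet {X : Config d | HasInfiniteCluster X} := by
  have : {X : Config d | HasInfiniteCluster X} = ⋃ x : Fin d → ℤ, ⋂ F : Finset (Fin d → ℤ),
      ⋃ y : Fin d → ℤ, ({_X : Config d | y ∉ F} ∩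
        {X : Config d | (openGraph X).Reachable x y}) := by
    ext X
    rw [show X ∈ {X : Config d | HasInfiniteCluster X} ↔ HasInfiniteCluster X from Iff.rfl, hasInf_iff]
    simp only [infinite_iff_finset]
    simp
  rw [this]
  exact MeasurableSet.iUnion fun x => MeasurableSet.iInter fun F => MeasurableSet.iUnion fun y =>
    (MeasurableSet.const _).inter (measurableSet_reachable x y)

/-! ### relabelling -/

theorem openGraph_relabel_adj (φ : Zd d ≃g Zd d) {X : Config d} {x y : Fin d → ℤ} :
    (openGraph (relabel φ X)).Adj x y ↔ (openGraph X).Adj (φ x) (φ y) := by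
  rw [openGraph_adj, openGraph_adj]
  constructor
  · rintro ⟨h, h'⟩
    exact ⟨(φ.mapEdgeSet ⟨_, h⟩).2, h'⟩
  · rintro ⟨h, h'⟩
    have h0 : s(x, y) ∈ (Zd d).edgeSet := by
      rw [SimpleGraph.mem_edgeSet] at h ⊢
      exact φ.map_rel_iff.1 h
    exact ⟨h0, h'⟩

theorem reachable_relabel (φ : Zd d ≃g Zd d) {X : Config d} {x y : Fin d → ℤ}
    (h : (openGraph (relabel φ X)).Reachable x y) : (openGraph X).Reachable (φ x) (φ y) := by
  obtain ⟨w⟩ := h
  induction w with
  | nil => exact SimpleGraph.Reachable.refl _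
  | cons h _ ih => exact ((openGraph_relabel_adj φ).1 h).reachable.trans ih

theorem hasInf_of_relabel (φ : Zd d ≃g Zd d) {X : Config d}
    (h : HasInfiniteCluster (relabel φ X)) : HasInfiniteCluster X := by
  rw [hasInf_iff] at h ⊢
  obtain ⟨x, hx⟩ := h
  refine ⟨φ x, (hx.image (φ.injective.injOn)).mono ?_⟩
  rintro _ ⟨y, hy, rfl⟩
  exact reachable_relabel φ hy

theorem relabel_symm (φ : Zd d ≃g Zd d) (X : Config d) : relabel φ.symm (relabel φ X) = X := by
  funext e
  change X (φ.mapEdgeSet (φ.mapEdgeSet.symm e)) = X e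
  rw [Equiv.apply_symm_apply]

theorem hasInf_relabel (φ : Zd d ≃g Zd d) {X : Config d} :
    HasInfiniteCluster (relabel φ X) ↔ HasInfiniteCluster X := by
  refine ⟨hasInf_of_relabel φ, fun h => ?_⟩
  apply hasInf_of_relabel φ.symm
  rw [relabel_symm]
  exact h

theorem measurable_relabel (φ : Zd d ≃g Zd d) : Measurable (relabel φ) :=
  measurable_pi_lambda _ fun _ => measurable_pi_apply _

/-! ### criteria -/

theorem not_hasInf {X : Config d}
    (h : ∀ x, ∃ D : Set (Fin d → ℤ), D.Finite ∧ x ∈ D ∧
      ∀ y ∈ D, ∀ w, w ∉ D → ¬ (openGraph X).Adj y w) : ¬ HasInfiniteCluster X := by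
  rw [hasInf_iff]
  rintro ⟨x, hx⟩
  obtain ⟨D, hD, hxD, hcl⟩ := h x
  refine hx (hD.subset ?_)
  rintro y ⟨w⟩
  clear hx
  induction w with
  | nil => exact hxD
  | @cons a b c hab _ ih =>
    apply ih
    by_contra hb
    exact hcl _ hxD _ hb hab

theorem hasInf_of_ray [NeZero d] {X : Config d} {v : Lab d} {x : Fin d → ℤ} {K : ℕ}
    (h : ∀ k, K ≤ k → (openGraph X).Adj ((par v)^[k] x) ((par v)^[k + 1] x)) :
    HasInfiniteCluster X := by
  rw [hasInf_iff]
  refine ⟨(par v)^[K] x, ?_⟩
  have hr : ∀ n, (openGraph X).Reachable ((par v)^[K] x) ((par v)^[K + n] x) := by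
    intro n
    induction n with
    | zero => exact SimpleGraph.Reachable.refl _
    | succ n ih => exact ih.trans (h (K + n) (by omega)).reachable
  refine (Set.infinite_range_of_injective (f := fun n => (par v)^[K + n] x) ?_).mono ?_
  · intro a b hab
    have := iter_inj v x hab
    omega
  · rintro _ ⟨n, rfl⟩
    exact hr n

/-! ### unit steps -/

def unitv (i : Fin d) (b : Bool) : Fin d → ℤ := Pi.single i (if b then 1 else -1)

theorem adj_iff {x y : Fin d → ℤ} : (Zd d).Adj x y ↔ ∃ i b, y = x + unitv i b := by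
  classical
  constructor
  · intro h
    have h : ∑ i, (x i - y i) ^ 2 = 1 := h
    have hex : ∃ i, (x i - y i) ^ 2 ≠ 0 := by
      by_contra hcon
      push Not at hcon
      rw [Finset.sum_eq_zero fun i _ => hcon i] at h
      omega
    obtain ⟨i, hi⟩ := hex
    have h1 : 1 ≤ (x i - y i) ^ 2 := by
      have : 0 ≤ (x i - y i) ^ 2 := sq_nonneg _
      omega
    have h2 := Finset.add_sum_erase Finset.univ (fun i => (x i - y i) ^ 2) (Finset.mem_univ i)
    have h3 : ∑ j ∈ Finset.univ.erase i, (x j - y j) ^ 2 = 0 := by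
      have : 0 ≤ ∑ j ∈ Finset.univ.erase i, (x j - y j) ^ 2 :=
        Finset.sum_nonneg fun j _ => sq_nonneg _
      omega
    have h4 : (x i - y i) ^ 2 = 1 := by omega
    have h5 : ∀ j, j ≠ i → x j = y j := by
      intro j hj
      have := (Finset.sum_eq_zero_iff_of_nonneg (fun j _ => sq_nonneg (x j - y j))).1 h3 j
        (Finset.mem_erase.2 ⟨hj, Finset.mem_univ j⟩)
      have := pow_eq_zero_iff (two_ne_zero) |>.1 this
      omega
    have h7 : (x i - y i - 1) * (x i - y i + 1) = 0 := by linear_combination h4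
    rcases mul_eq_zero.1 h7 with h6 | h6
    · refine ⟨i, false, ?_⟩
      funext j
      by_cases hj : j = i
      · subst hj; simp [unitv]; omega
      · simp [unitv, Pi.single_eq_of_ne hj, h5 j hj]
    · refine ⟨i, true, ?_⟩
      funext j
      by_cases hj : j = i
      · subst hj; simp [unitv]; omega
      · simp [unitv, Pi.single_eq_of_ne hj, h5 j hj]
  · rintro ⟨i, b, rfl⟩
    change ∑ j, (x j - (x + unitv i b) j) ^ 2 = 1
    rw [Finset.sum_eq_single i]
    · cases b <;> simp [unitv]
    · intro j _ hj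
      simp [unitv, Pi.single_eq_of_ne hj]
    · intro h; exact absurd (Finset.mem_univ i) h

theorem adj_par [NeZero d] (v : Lab d) (x : Fin d → ℤ) : (Zd d).Adj x (par v x) := by
  rw [adj_iff]
  refine ⟨dirOf v x, false, ?_⟩
  unfold par unitv
  funext j
  by_cases hj : j = dirOf v x
  · subst hj; simp; omega
  · simp [Pi.single_eq_of_ne hj]

/-- the edge from `x` to its parent -/
noncomputable def tedge [NeZero d] (v : Lab d) (x : Fin d → ℤ) : Edge d :=
  ⟨s(x, par v x), adj_par v x⟩

end FinEnPerc
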