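import Mathlib
import Pool.Agent.Helpers.PercCluster

open MeasureTheory ProbabilityTheory Filter
open scoped ENNReal Topology

namespace FinEnPerc

/-! ### general lemmas on infinite products -/

section General

variable {ι α : Type*} [MeasurableSpace α] (ρ : Measure α) [IsProbabilityMeasure ρ]

theorem null_all {S : Set α} (hS : MeasurableSet S) (h : ρ S < 1) (g : ℕ → ι)
    (hg : Function.Injective g) :
    Measure.infinitePi (fun _ : ι => ρ) {w | ∀ k, w (g k) ∈ S} = 0 := by
  classical
  have h1 : ∀ n : ℕ, Measure.infinitePi (fun _ : ι => ρ) {w | ∀ k, w (g k) ∈ S} ≤ (ρ S) ^ n := by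
    intro n
    have h2 : Measure.infinitePi (fun _ : ι => ρ)
        (Set.pi ((Finset.range n).image g : Finset ι) (fun _ => S)) = (ρ S) ^ n := by
      rw [Measure.infinitePi_pi _ (fun _ _ => hS), Finset.prod_const,
        Finset.card_image_of_injective _ hg, Finset.card_range]
    rw [← h2]
    refine measure_mono ?_
    intro w hw i hi
    simp only [Finset.coe_image, Set.mem_image] at hi
    obtain ⟨k, -, rfl⟩ := hi
    exact hw k
  have h3 := ENNReal.tendsto_pow_atTop_nhds_zero_of_lt_one h
  exact le_antisymm (ge_of_tendsto' h3 h1) zero_le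

theorem exists_notMem_ae {S : Set α} (hS : MeasurableSet S) (h : ρ S < 1) (g : ℕ → ι)
    (hg : Function.Injective g) :
    ∀ᵐ w ∂(Measure.infinitePi (fun _ : ι => ρ)), ∃ k, w (g k) ∉ S := by
  rw [ae_iff]
  have : {w : ι → α | ¬ ∃ k, w (g k) ∉ S} = {w | ∀ k, w (g k) ∈ S} := by
    ext w; simp
  rw [this]
  exact null_all ρ hS h g hg

theorem map_reindex (σ : ι ≃ ι) :
    (Measure.infinitePi (fun _ : ι => ρ)).map (fun w i => w (σ i)) =
      Measure.infinitePi (fun _ : ι => ρ) := by
  classical
  refine Measure.eq_infinitePi _ fun s t ht => ?_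
  have hmeas : Measurable (fun (w : ι → α) i => w (σ i)) :=
    measurable_pi_lambda _ fun i => measurable_pi_apply _
  have hset : MeasurableSet (Set.pi (s : Set ι) t) :=
    MeasurableSet.pi s.countable_toSet fun _ _ => ht _
  rw [Measure.map_apply hmeas hset]
  have : (fun (w : ι → α) i => w (σ i)) ⁻¹' (Set.pi s t) =
      Set.pi (s.map σ.toEmbedding : Finset ι) (fun j => t (σ.symm j)) := by
    ext w
    simp only [Set.mem_preimage, Set.mem_pi, Finset.coe_map, Set.mem_image]
    constructor
    · rintro h _ ⟨i, hi, rfl⟩
      simpa using h i hi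
    · intro h i hi
      simpa using h (σ i) ⟨i, hi, rfl⟩
  rw [this, Measure.infinitePi_pi _ (fun _ _ => ht _), Finset.prod_map]
  simp

theorem map_update [DecidableEq ι] (e : ι) :
    ((Measure.infinitePi (fun _ : ι => ρ)).prod ρ).map
      (fun q : (ι → α) × α => Function.update q.1 e q.2) =
      Measure.infinitePi (fun _ : ι => ρ) := by
  have hm : Measurable (fun q : (ι → α) × α => Function.update q.1 e q.2) := by
    refine measurable_pi_lambda _ fun i => ?_
    by_cases hi : i = e
    · subst hi; simpa using measurable_snd
    · simp only [Function.update_of_ne hi]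
      exact (measurable_pi_apply i).comp measurable_fst
  refine Measure.eq_infinitePi _ fun s t ht => ?_
  rw [Measure.map_apply hm (MeasurableSet.pi s.countable_toSet fun _ _ => ht _)]
  by_cases he : e ∈ s
  · have : (fun q : (ι → α) × α => Function.update q.1 e q.2) ⁻¹' (Set.pi s t) =
        (Set.pi (s.erase e : Finset ι) t) ×ˢ t e := by
      ext q
      simp only [Set.mem_preimage, Set.mem_pi, Set.mem_prod, Finset.coe_erase, Set.mem_sdiff,
        Set.mem_singleton_iff, Finset.mem_coe]
      constructor
      · intro h
        refine ⟨fun i hi => ?_, by simpa using h e he⟩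
        have := h i hi.1
        rwa [Function.update_of_ne hi.2] at this
      · rintro ⟨h1, h2⟩ i hi
        by_cases hie : i = e
        · subst hie; simpa using h2
        · rw [Function.update_of_ne hie]; exact h1 i ⟨hi, hie⟩
    rw [this, Measure.prod_prod, Measure.infinitePi_pi _ (fun _ _ => ht _),
      Finset.prod_erase_mul _ _ he]
  · have : (fun q : (ι → α) × α => Function.update q.1 e q.2) ⁻¹' (Set.pi s t) =
        (Set.pi (s : Set ι) t) ×ˢ Set.univ := by
      ext q
      simp only [Set.mem_preimage, Set.mem_pi, Set.mem_prod, Finset.mem_coe, Set.mem_univ,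
        and_true]
      refine forall_congr' fun i => forall_congr' fun hi => ?_
      have hie : i ≠ e := fun h => he (h ▸ hi)
      rw [Function.update_of_ne hie]
    rw [this, Measure.prod_prod, Measure.infinitePi_pi _ (fun _ _ => ht _), measure_univ, mul_one]

/-- if `T` does not depend on coordinate `e`, it is independent of that coordinate -/
theorem indep_coord (e : ι) {T : Set (ι → α)} (hT : MeasurableSet T)
    (hTe : ∀ w w' : ι → α, (∀ f, f ≠ e → w f = w' f) → (w ∈ T ↔ w' ∈ T))
    {A : Set α} (hA : MeasurableSet A) :
    Measure.infinitePi (fun _ : ι => ρ) (T ∩ {w | w e ∈ A}) =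
      Measure.infinitePi (fun _ : ι => ρ) T * ρ A := by
  classical
  have hm : Measurable (fun q : (ι → α) × α => Function.update q.1 e q.2) := by
    refine measurable_pi_lambda _ fun i => ?_
    by_cases hi : i = e
    · subst hi; simpa using measurable_snd
    · simp only [Function.update_of_ne hi]
      exact (measurable_pi_apply i).comp measurable_fst
  have hmA : MeasurableSet {w : ι → α | w e ∈ A} := measurable_pi_apply e hA
  conv_lhs => rw [← map_update ρ e]
  rw [Measure.map_apply hm (hT.inter hmA), ← Measure.prod_prod]
  congr 1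
  ext q
  simp only [Set.mem_preimage, Set.mem_inter_iff, Set.mem_prod, Set.mem_ofPred_eq,
    Function.update_self]
  rw [hTe (Function.update q.1 e q.2) q.1 (fun f hf => Function.update_of_ne hf _ _)]

end General

end FinEnPerc
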