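import Mathlib
import Pool.Agent.Helpers.PercProb

open MeasureTheory ProbabilityTheory Filter
open scoped ENNReal Topology

namespace FinEnPerc

variable {d : ℕ} [NeZero d]

noncomputable def half : unitInterval := ⟨1 / 2, by norm_num, by norm_num⟩

noncomputable def PV (d : ℕ) : Measure (Lab d) :=
  Measure.infinitePi (fun _ : Fin d × ℤ => geometricMeasure half)

instance : IsProbabilityMeasure (PV d) := by unfold PV; infer_instance

noncomputable def PU (d : ℕ) : Measure (Edge d → unitInterval) :=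
  Measure.infinitePi (fun _ : Edge d => (volume : Measure unitInterval))

instance : IsProbabilityMeasure (PU d) := by unfold PU; infer_instance

omit [NeZero d] in
theorem geo_lt (A : ℕ) : geometricMeasure half {m | m < A} < 1 := by
  have hh : half ≠ 0 := by
    intro h
    have := congrArg (fun x : unitInterval => (x : ℝ)) h
    simp [half] at this
  have hpos : 0 < geometricMeasure half {A} := by
    rw [geometricMeasure_singleton hh]
    refine ENNReal.ofReal_pos.2 ?_
    simp only [half]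
    positivity
  have h1 : geometricMeasure half {m | m < A} ≤ geometricMeasure half ({A}ᶜ) := by
    refine measure_mono ?_
    intro m hm
    simp only [Set.mem_compl_iff, Set.mem_singleton_iff]
    intro h
    subst h
    exact absurd (show m < m from hm) (lt_irrefl m)
  refine lt_of_le_of_lt h1 ?_
  rw [prob_compl_eq_one_sub (measurableSet_singleton _)]
  exact ENNReal.sub_lt_self ENNReal.one_ne_top one_ne_zero hpos.ne'

omit [NeZero d] in
theorem ae_good : ∀ᵐ v ∂(PV d), Good v := by
  unfold Good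
  rw [ae_all_iff]; intro i
  rw [ae_all_iff]; intro A
  rw [ae_all_iff]; intro N
  have hS : MeasurableSet {m : ℕ | m < A} := (Set.to_countable _).measurableSet
  have h1 := exists_notMem_ae (ι := Fin d × ℤ) (geometricMeasure half) hS (geo_lt A)
    (fun k : ℕ => (i, N + 1 + k)) (by
      intro a b hab
      simp only [Prod.mk.injEq, true_and] at hab
      omega)
  have h2 := exists_notMem_ae (ι := Fin d × ℤ) (geometricMeasure half) hS (geo_lt A)
    (fun k : ℕ => (i, N - 1 - k)) (by
      intro a b hab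
      simp only [Prod.mk.injEq, true_and] at hab
      omega)
  filter_upwards [h1, h2] with v hv1 hv2
  obtain ⟨k1, hk1⟩ := hv1
  obtain ⟨k2, hk2⟩ := hv2
  refine ⟨⟨N + 1 + k1, by omega, ?_⟩, ⟨N - 1 - k2, by omega, ?_⟩⟩
  · simpa using hk1
  · simpa using hk2

/-- the configuration built from labels and uniform variables -/
noncomputable def Phi (v : Lab d) (U : Edge d → unitInterval) : Config d :=
  fun e => decide ((U e : ℝ) < rr v e.1)

theorem measurable_Phi : Measurable fun q : Lab d × (Edge d → unitInterval) => Phi q.1 q.2 := by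
  refine measurable_pi_lambda _ fun e => ?_
  refine measurable_to_bool ?_
  have : (fun q : Lab d × (Edge d → unitInterval) => Phi q.1 q.2 e) ⁻¹' {true} =
      {q | ((q.2 e : unitInterval) : ℝ) < rr q.1 e.1} := by
    ext q
    simp [Phi]
  rw [this]
  refine measurableSet_lt ?_ ?_
  · exact measurable_subtype_coe.comp ((measurable_pi_apply e).comp measurable_snd)
  · exact (measurable_rr e.1).comp measurable_fst

theorem measurable_Phi_right (v : Lab d) : Measurable fun U : Edge d → unitInterval => Phi v U :=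
  measurable_Phi.comp (measurable_const.prodMk measurable_id)

noncomputable def mu0 (d : ℕ) [NeZero d] : Measure (Config d) :=
  ((PV d).prod (PU d)).map fun q => Phi q.1 q.2

instance : IsProbabilityMeasure (mu0 d) := by
  unfold mu0
  exact Measure.isProbabilityMeasure_map measurable_Phi.aemeasurable

/-- a property with measurable support holding for a.e. `U` given good labels holds `mu0`-a.s. -/
theorem mu0_ae {Z : Set (Config d)} (hZ : MeasurableSet Z)
    (h : ∀ v : Lab d, Good v → ∀ᵐ U ∂(PU d), Phi v U ∈ Z) : ∀ᵐ X ∂(mu0 d), X ∈ Z := by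
  unfold mu0
  refine (ae_map_iff (p := fun X => X ∈ Z) measurable_Phi.aemeasurable hZ).2 ?_
  have hm : MeasurableSet {q : Lab d × (Edge d → unitInterval) | Phi q.1 q.2 ∈ Z} :=
    measurable_Phi hZ
  have := (Measure.ae_prod_mem_iff_ae_ae_mem (μ := PV d) (ν := PU d) hm).2 (by
    filter_upwards [ae_good] with v hv
    exact h v hv)
  exact this

/-! ### values -/

theorem PU_open (v : Lab d) (e : Edge d) :
    PU d {U | (U e : ℝ) < rr v e.1} = ENNReal.ofReal (rr v e.1) := by
  have h1 := rr_pos v e.1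
  have h2 := rr_lt_one v e.1
  have hA : {u : unitInterval | (u : ℝ) < rr v e.1} = Set.Iio ⟨rr v e.1, h1.le, h2.le⟩ := by
    exact Set.ext fun u => Iff.rfl
  have := (measurePreserving_eval_infinitePi (fun _ : Edge d => (volume : Measure unitInterval))
    e).measure_preimage (s := Set.Iio ⟨rr v e.1, h1.le, h2.le⟩) measurableSet_Iio.nullMeasurableSet
  rw [unitInterval.volume_Iio] at this
  rw [← this, ← hA]
  rfl

theorem PU_closed (v : Lab d) (e : Edge d) :
    PU d {U | ¬ (U e : ℝ) < rr v e.1} = ENNReal.ofReal (1 - rr v e.1) := by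
  have h1 := rr_pos v e.1
  have h2 := rr_lt_one v e.1
  have hA : {u : unitInterval | ¬ (u : ℝ) < rr v e.1} = Set.Ici ⟨rr v e.1, h1.le, h2.le⟩ := by
    exact Set.ext fun u => not_lt
  have := (measurePreserving_eval_infinitePi (fun _ : Edge d => (volume : Measure unitInterval))
    e).measure_preimage (s := Set.Ici ⟨rr v e.1, h1.le, h2.le⟩) measurableSet_Ici.nullMeasurableSet
  rw [unitInterval.volume_Ici] at this
  rw [← this, ← hA]
  rfl

theorem le_toReal_sup' (hd : 2 ≤ d) {v : Lab d} (hv : Good v) {z : Fin d → ℤ}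
    {e : Sym2 (Fin d → ℤ)} (h : bd v z e) : (hgt v z).toReal ≤ (sup' v e).toReal :=
  ENNReal.toReal_mono (sup'_lt_top hd hv e).ne (le_sup' h)

theorem le_toReal_hgt (hd : 2 ≤ d) {v : Lab d} (hv : Good v) (x : Fin d → ℤ) (k : ℕ) :
    (k : ℝ) + 1 ≤ (hgt v ((par v)^[k] x)).toReal := by
  have h := ENNReal.toReal_mono (hgt_lt_top hd hv ((par v)^[k] x)).ne (le_hgt v x k)
  rw [ENNReal.toReal_add (by simp) (by simp)] at h
  simpa using h

theorem summable_sq : Summable fun k : ℕ => 1 / ((k : ℝ) + 2) ^ 2 := by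
  have h := (summable_nat_add_iff 2).2 (Real.summable_one_div_nat_pow.2 (by norm_num : 1 < 2))
  simpa using h

theorem tsum_sq_ne_top : ∑' k : ℕ, ENNReal.ofReal (1 / ((k : ℝ) + 2) ^ 2) ≠ ∞ :=
  summable_sq.tsum_ofReal_ne_top

/-! ### percolation -/

theorem percolates_fixed (hd : 2 ≤ d) {v : Lab d} (hv : Good v) :
    ∀ᵐ U ∂(PU d), HasInfiniteCluster (Phi v U) := by
  set z : ℕ → Fin d → ℤ := fun k => (par v)^[k] 0 with hz
  have hbound : ∀ k, PU d {U | ¬ (U (tedge v (z k)) : ℝ) < rr v (tedge v (z k)).1} ≤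
      ENNReal.ofReal (1 / ((k : ℝ) + 2) ^ 2) := by
    intro k
    rw [PU_closed]
    refine ENNReal.ofReal_le_ofReal ?_
    have ht : isTree v (tedge v (z k)).1 := ⟨z k, rfl⟩
    rw [rr_tree ht]
    have h1 := le_toReal_sup' hd hv (bd_self v (z k))
    have h2 := le_toReal_hgt hd hv 0 k
    have h3 : (k : ℝ) + 2 ≤ 1 + (sup' v (tedge v (z k)).1).toReal := by
      have : (k : ℝ) + 1 ≤ (sup' v (tedge v (z k)).1).toReal := h2.trans h1
      linarith
    have h4 : (0 : ℝ) < (k : ℝ) + 2 := by positivity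
    have h5 : ((k : ℝ) + 2) ^ 2 ≤ (1 + (sup' v (tedge v (z k)).1).toReal) ^ 2 := by gcongr
    have h6 : 1 / (2 * (1 + (sup' v (tedge v (z k)).1).toReal) ^ 2) ≤ 1 / ((k : ℝ) + 2) ^ 2 := by
      apply one_div_le_one_div_of_le (by positivity)
      nlinarith [sq_nonneg ((k : ℝ) + 2)]
    linarith
  have hsum : ∑' k, PU d {U | ¬ (U (tedge v (z k)) : ℝ) < rr v (tedge v (z k)).1} ≠ ∞ :=
    ne_top_of_le_ne_top tsum_sq_ne_top (ENNReal.tsum_le_tsum hbound)
  filter_upwards [ae_eventually_notMem hsum] with U hU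
  obtain ⟨K, hK⟩ := eventually_atTop.1 hU
  refine hasInf_of_ray (v := v) (x := 0) (K := K) fun k hk => ?_
  have h1 := hK k hk
  simp only [not_not] at h1
  rw [openGraph_adj, Function.iterate_succ_apply']
  refine ⟨adj_par v _, ?_⟩
  simp only [Phi, decide_eq_true_eq]
  exact h1

/-! ### thinning -/

/-- non-tree boundary edges of the descendants of `z_k` are eventually closed -/
theorem eventually_closed (hd : 2 ≤ d) {v : Lab d} (hv : Good v) (x : Fin d → ℤ) :
    ∀ᵐ U ∂(PU d), ∀ᶠ k : ℕ in atTop, ∀ (y : Fin d → ℤ) (i : Fin d) (b : Bool)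
      (h : s(y, y + unitv i b) ∈ (Zd d).edgeSet), Reach v y ((par v)^[k] x) →
      ¬ Reach v (y + unitv i b) ((par v)^[k] x) → ¬ isTree v s(y, y + unitv i b) →
      ¬ (U ⟨s(y, y + unitv i b), h⟩ : ℝ) < rr v s(y, y + unitv i b) := by
  set z : ℕ → Fin d → ℤ := fun k => (par v)^[k] x with hz
  have hedge : ∀ (y : Fin d → ℤ) (i : Fin d) (b : Bool), s(y, y + unitv i b) ∈ (Zd d).edgeSet :=
    fun y i b => adj_iff.2 ⟨i, b, rfl⟩
  set Bad : ℕ → (Fin d → ℤ) → Fin d → Bool → Set (Edge d → unitInterval) := fun k y i b =>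
    {U | Reach v y (z k) ∧ ¬ Reach v (y + unitv i b) (z k) ∧ ¬ isTree v s(y, y + unitv i b) ∧
      (U ⟨s(y, y + unitv i b), hedge y i b⟩ : ℝ) < rr v s(y, y + unitv i b)} with hBad
  set c : ℕ → ℝ := fun k => 1 / (8 * d * (1 + (hgt v (z k)).toReal) ^ 3) with hc
  have hd1 := one_le_d (d := d)
  have hB1 : ∀ k y i b, PU d (Bad k y i b) ≤
      Set.indicator {y | Reach v y (z k)} (fun _ => (1 : ℝ≥0∞)) y * ENNReal.ofReal (c k) := by
    intro k y i b
    by_cases h1 : Reach v y (z k)
    · rw [Set.indicator_of_mem (show y ∈ {y | Reach v y (z k)} from h1), one_mul]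
      by_cases h2 : ¬ Reach v (y + unitv i b) (z k) ∧ ¬ isTree v s(y, y + unitv i b)
      · have h3 : Bad k y i b ⊆ {U | (U ⟨s(y, y + unitv i b), hedge y i b⟩ : ℝ) <
            rr v s(y, y + unitv i b)} := fun U hU => hU.2.2.2
        refine (measure_mono h3).trans ?_
        rw [PU_open v ⟨s(y, y + unitv i b), hedge y i b⟩]
        refine ENNReal.ofReal_le_ofReal ?_
        change rr v s(y, y + unitv i b) ≤ c k
        rw [rr_not h2.2]
        have h4 := le_toReal_sup' hd hv (e := s(y, y + unitv i b)) (z := z k)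
          ⟨y, y + unitv i b, rfl, h1, h2.1⟩
        have h5 : 0 ≤ (hgt v (z k)).toReal := ENNReal.toReal_nonneg
        simp only [hc]
        apply one_div_le_one_div_of_le (by positivity)
        gcongr
      · have : Bad k y i b = ∅ := by
          ext U
          simp only [hBad, Set.mem_ofPred_eq, Set.mem_empty_iff_false, iff_false]
          rintro ⟨-, h3, h4, -⟩
          exact h2 ⟨h3, h4⟩
        rw [this]
        simp
    · have : Bad k y i b = ∅ := by
        ext U
        simp only [hBad, Set.mem_ofPred_eq, Set.mem_empty_iff_false, iff_false]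
        rintro ⟨h3, -⟩
        exact h1 h3
      rw [this]
      simp
  have hbound : ∀ k, PU d (⋃ y, ⋃ i, ⋃ b, Bad k y i b) ≤
      ENNReal.ofReal (1 / ((k : ℝ) + 2) ^ 2) := by
    intro k
    have h1 : PU d (⋃ y, ⋃ i, ⋃ b, Bad k y i b) ≤ ∑' y, ∑' i : Fin d, ∑' b : Bool,
        PU d (Bad k y i b) :=
      (measure_iUnion_le _).trans (ENNReal.tsum_le_tsum fun y =>
        (measure_iUnion_le _).trans (ENNReal.tsum_le_tsum fun i => measure_iUnion_le _))
    have h2 : ∑' y, ∑' i : Fin d, ∑' b : Bool, PU d (Bad k y i b) ≤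
        ∑' y, ∑' _i : Fin d, ∑' _b : Bool,
          (Set.indicator {y | Reach v y (z k)} (fun _ => (1 : ℝ≥0∞)) y * ENNReal.ofReal (c k)) :=
      ENNReal.tsum_le_tsum fun y => ENNReal.tsum_le_tsum fun i =>
        ENNReal.tsum_le_tsum fun b => hB1 k y i b
    have h3 : ∑' y, ∑' _i : Fin d, ∑' _b : Bool,
          (Set.indicator {y | Reach v y (z k)} (fun _ => (1 : ℝ≥0∞)) y * ENNReal.ofReal (c k)) =
        hgt v (z k) * (2 * d * ENNReal.ofReal (c k)) := by
      simp only [tsum_fintype, Finset.sum_const, Finset.card_univ, Fintype.card_bool,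
        Fintype.card_fin, nsmul_eq_mul]
      unfold hgt
      rw [← ENNReal.tsum_mul_right]
      refine tsum_congr fun y => ?_
      push_cast
      ring
    refine (h1.trans h2).trans ?_
    rw [h3]
    have h4 : hgt v (z k) = ENNReal.ofReal (hgt v (z k)).toReal :=
      (ENNReal.ofReal_toReal (hgt_lt_top hd hv (z k)).ne).symm
    have h5 : 0 ≤ (hgt v (z k)).toReal := ENNReal.toReal_nonneg
    have h6 : (2 * (d : ℝ≥0∞) * ENNReal.ofReal (c k)) = ENNReal.ofReal (2 * d * c k) := by
      rw [ENNReal.ofReal_mul (by positivity), ENNReal.ofReal_mul (by norm_num)]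
      simp
    rw [h4, h6, ← ENNReal.ofReal_mul h5]
    refine ENNReal.ofReal_le_ofReal ?_
    have h7 := le_toReal_hgt hd hv x k
    change (k : ℝ) + 1 ≤ (hgt v (z k)).toReal at h7
    set H := (hgt v (z k)).toReal with hH
    simp only [hc]
    rw [← hH]
    have h8 : (0 : ℝ) < 1 + H := by linarith
    have h9 : H * (2 * d * (1 / (8 * d * (1 + H) ^ 3))) = H / (4 * (1 + H) ^ 3) := by
      field_simp
      ring
    rw [h9]
    have h10 : H / (4 * (1 + H) ^ 3) ≤ 1 / (1 + H) ^ 2 := by
      rw [div_le_div_iff₀ (by positivity) (by positivity)]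
      have : H * (1 + H) ^ 2 ≤ (1 + H) * (1 + H) ^ 2 := by
        apply mul_le_mul_of_nonneg_right (by linarith) (by positivity)
      nlinarith [pow_pos h8 3]
    refine h10.trans ?_
    apply one_div_le_one_div_of_le (by positivity)
    have : (k : ℝ) + 2 ≤ 1 + H := by linarith
    gcongr
  have hsum : ∑' k, PU d (⋃ y, ⋃ i, ⋃ b, Bad k y i b) ≠ ∞ :=
    ne_top_of_le_ne_top tsum_sq_ne_top (ENNReal.tsum_le_tsum hbound)
  filter_upwards [ae_eventually_notMem hsum] with U hU
  filter_upwards [hU] with k hk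
  intro y i b h h1 h2 h3 h4
  apply hk
  simp only [Set.mem_iUnion]
  exact ⟨y, i, b, h1, h2, h3, h4⟩

/-- Bernoulli product measure -/
noncomputable def coins (d : ℕ) (p : unitInterval) : Measure (Edge d → Bool) :=
  Measure.infinitePi fun _ : Edge d => bernoulliMeasure true false p

instance (p : unitInterval) : IsProbabilityMeasure (coins d p) := by unfold coins; infer_instance

theorem tedge_inj (v : Lab d) {x y : Fin d → ℤ} (h : tedge v x = tedge v y) : x = y := by
  have h1 : s(x, par v x) = s(y, par v y) := congrArg Subtype.val h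
  rcases Sym2.eq_iff.1 h1 with ⟨h2, -⟩ | ⟨h2, h3⟩
  · exact h2
  · exfalso
    have a1 := sum_par v x
    have a2 := sum_par v y
    rw [h3] at a1
    rw [← h2] at a2
    omega

theorem infinitely_closed (v : Lab d) (x : Fin d → ℤ) {p : unitInterval} (hp : p ≠ 1) :
    ∀ᵐ B ∂(coins d p), ∀ K : ℕ, ∃ k, K ≤ k ∧ B (tedge v ((par v)^[k] x)) = false := by
  rw [ae_all_iff]
  intro K
  have hlt : bernoulliMeasure true false p ({true} : Set Bool) < 1 := by
    rw [bernoulliMeasure_apply_of_mem_of_notMem p (measurableSet_singleton _) (by simp) (by simp)]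
    have : (unitInterval.toNNReal p) < 1 := by
      rw [← NNReal.coe_lt_coe]
      simp only [unitInterval.coe_toNNReal, NNReal.coe_one]
      exact lt_of_le_of_ne p.2.2 (fun h => hp (Subtype.ext h))
    exact_mod_cast this
  have := exists_notMem_ae (ι := Edge d) (bernoulliMeasure true false p)
    (measurableSet_singleton true) hlt (fun n : ℕ => tedge v ((par v)^[K + n] x)) (by
      intro a b hab
      have := iter_inj v x (tedge_inj v hab)
      omega)
  filter_upwards [this] with B hB
  obtain ⟨n, hn⟩ := hB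
  exact ⟨K + n, by omega, by simpa using hn⟩

theorem thinned_fixed (hd : 2 ≤ d) {v : Lab d} (hv : Good v) {p : unitInterval} (hp : p ≠ 1) :
    ∀ᵐ U ∂(PU d), ∀ᵐ B ∂(coins d p), ¬ HasInfiniteCluster (fun e => Phi v U e && B e) := by
  have h1 : ∀ᵐ U ∂(PU d), ∀ x : Fin d → ℤ, ∀ᶠ k : ℕ in atTop,
      ∀ (y : Fin d → ℤ) (i : Fin d) (b : Bool)
      (h : s(y, y + unitv i b) ∈ (Zd d).edgeSet), Reach v y ((par v)^[k] x) →
      ¬ Reach v (y + unitv i b) ((par v)^[k] x) → ¬ isTree v s(y, y + unitv i b) →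
      ¬ (U ⟨s(y, y + unitv i b), h⟩ : ℝ) < rr v s(y, y + unitv i b) :=
    ae_all_iff.2 fun x => eventually_closed hd hv x
  have h2 : ∀ᵐ B ∂(coins d p), ∀ x : Fin d → ℤ, ∀ K : ℕ, ∃ k, K ≤ k ∧
      B (tedge v ((par v)^[k] x)) = false :=
    ae_all_iff.2 fun x => infinitely_closed v x hp
  filter_upwards [h1] with U hU
  filter_upwards [h2] with B hB
  apply not_hasInf
  intro x
  obtain ⟨K, hK⟩ := eventually_atTop.1 (hU x)
  obtain ⟨k, hk, hBk⟩ := hB x K
  refine ⟨{y | Reach v y ((par v)^[k] x)}, finite_desc hd hv _, ⟨k, rfl⟩, ?_⟩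
  intro y hy w hw hadj
  rw [openGraph_adj] at hadj
  obtain ⟨h, hopen⟩ := hadj
  rw [Bool.and_eq_true] at hopen
  obtain ⟨i, b, rfl⟩ := adj_iff.1 ((SimpleGraph.mem_edgeSet _).1 h)
  by_cases ht : isTree v s(y, y + unitv i b)
  · have h3 : s(y, y + unitv i b) = s((par v)^[k] x, par v ((par v)^[k] x)) :=
      tree_bd ⟨y, _, rfl, hy, hw⟩ ht
    have h4 : (⟨s(y, y + unitv i b), h⟩ : Edge d) = tedge v ((par v)^[k] x) := Subtype.ext h3
    rw [h4, hBk] at hopen
    simp at hopen
  · have h5 := hK k hk y i b h hy hw ht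
    have h6 := hopen.1
    simp only [Phi, decide_eq_true_eq] at h6
    exact h5 h6

end FinEnPerc
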