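import Mathlib
import Pool.Agent.Helpers.PercCluster

open MeasureTheory ProbabilityTheory Filter
open scoped ENNReal Topology

namespace FinEnPerc

variable {d : ℕ}

/-- translation by `b` as a graph automorphism -/
def trans (b : Fin d → ℤ) : Zd d ≃g Zd d where
  toEquiv := Equiv.addRight b
  map_rel_iff' := by
    intro x y
    change (∑ i, ((x + b) i - (y + b) i) ^ 2 = 1) ↔ (∑ i, (x i - y i) ^ 2 = 1)
    simp only [Pi.add_apply, add_sub_add_right_eq_sub]

theorem trans_apply (b x : Fin d → ℤ) : trans b x = x + b := rfl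

/-- `φ` fixes `x` and its neighbours -/
def FixNear (φ : Zd d ≃g Zd d) (x : Fin d → ℤ) : Prop :=
  φ x = x ∧ ∀ i b, φ (x + unitv i b) = x + unitv i b

theorem adj_unit (x : Fin d → ℤ) (i : Fin d) (b : Bool) : (Zd d).Adj x (x + unitv i b) :=
  adj_iff.2 ⟨i, b, rfl⟩

theorem unit_square {i j k k' : Fin d} {b c s s' : Bool} (hij : i ≠ j)
    (h : unitv i b + unitv k s = unitv j c + unitv k' s') :
    (k = i ∧ s = !b) ∨ (k = j ∧ s = c) := by
  have h1 := congrFun h i
  have h2 := congrFun h j
  simp only [unitv, Pi.add_apply, Pi.single_apply] at h1 h2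
  have hji : ¬ j = i := fun h => hij h.symm
  simp only [hij, hji, if_true, if_false] at h1 h2
  by_cases a1 : i = k <;> by_cases a2 : j = k <;> by_cases a3 : i = k' <;> by_cases a4 : j = k' <;>
    simp only [a1, a2, a3, a4, if_true, if_false] at h1 h2 <;>
    cases b <;> cases c <;> cases s <;> cases s' <;>
    simp_all

theorem fixNear_step {φ : Zd d ≃g Zd d} {x : Fin d → ℤ} (h : FixNear φ x) (i : Fin d)
    (b : Bool) : FixNear φ (x + unitv i b) := by
  obtain ⟨h0, h1⟩ := h
  have hy := h1 i b
  refine ⟨hy, ?_⟩
  -- case: different direction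
  have hA : ∀ j c, j ≠ i → φ (x + unitv i b + unitv j c) = x + unitv i b + unitv j c := by
    intro j c hj
    have a1 : (Zd d).Adj (x + unitv i b) (φ (x + unitv i b + unitv j c)) := by
      have := φ.map_rel_iff.2 (adj_unit (x + unitv i b) j c)
      rwa [hy] at this
    have a2 : (Zd d).Adj (x + unitv j c) (φ (x + unitv i b + unitv j c)) := by
      have e1 : x + unitv i b + unitv j c = x + unitv j c + unitv i b := by abel
      have := φ.map_rel_iff.2 (adj_unit (x + unitv j c) i b)
      rw [h1 j c] at this
      rw [e1]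
      exact this
    obtain ⟨k, s, hk⟩ := adj_iff.1 a1
    obtain ⟨k', s', hk'⟩ := adj_iff.1 a2
    have e2 : unitv i b + unitv k s = unitv j c + unitv k' s' := by
      have : x + (unitv i b + unitv k s) = x + (unitv j c + unitv k' s') := by
        rw [← add_assoc, ← add_assoc, ← hk, ← hk']
      exact add_left_cancel this
    rcases unit_square (Ne.symm hj) e2 with ⟨rfl, rfl⟩ | ⟨rfl, rfl⟩
    · exfalso
      have e3 : x + unitv k b + unitv k (!b) = x := by
        rw [add_assoc]
        have : unitv k b + unitv k (!b) = 0 := by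
          funext l
          by_cases hl : l = k
          · subst hl; cases b <;> simp [unitv]
          · simp [unitv, Pi.single_eq_of_ne hl]
        rw [this, add_zero]
      rw [e3] at hk
      have e4 : x + unitv k b + unitv j c = x := φ.injective (hk.trans h0.symm)
      have e5 := congrFun e4 j
      simp only [unitv, Pi.add_apply, Pi.single_eq_of_ne hj, Pi.single_eq_same] at e5
      cases c <;> simp at e5
    · exact hk
  -- case: going back
  have hB : φ (x + unitv i b + unitv i (!b)) = x + unitv i b + unitv i (!b) := by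
    have e3 : x + unitv i b + unitv i (!b) = x := by
      rw [add_assoc]
      have : unitv i b + unitv i (!b) = 0 := by
        funext l
        by_cases hl : l = i
        · subst hl; cases b <;> simp [unitv]
        · simp [unitv, Pi.single_eq_of_ne hl]
      rw [this, add_zero]
    rw [e3]; exact h0
  intro j c
  by_cases hj : j = i
  · subst hj
    by_cases hc : c = b
    · subst hc
      have a1 : (Zd d).Adj (x + unitv j c) (φ (x + unitv j c + unitv j c)) := by
        have := φ.map_rel_iff.2 (adj_unit (x + unitv j c) j c)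
        rwa [hy] at this
      obtain ⟨k, s, hk⟩ := adj_iff.1 a1
      by_cases hkj : k = j
      · subst hkj
        by_cases hs : s = c
        · rw [hk, hs]
        · have hs' : s = !c := by
            cases s <;> cases c <;> simp_all
          rw [hs', ← hB] at hk
          have := φ.injective hk
          rw [hk, ← this]
          rw [this]
          exact hB
      · have h2 := hA k s hkj
        rw [← h2] at hk
        have := φ.injective hk
        rw [this, h2]
    · have hc' : c = !b := by
        cases b <;> cases c <;> simp_all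
      rw [hc']; exact hB
  · exact hA j c hj

theorem fixNear_all {φ : Zd d ≃g Zd d} (h : FixNear φ 0) (x : Fin d → ℤ) : φ x = x := by
  have key : ∀ a : Fin d → ℤ, ∀ x, FixNear φ x → FixNear φ (x + a) := by
    intro a
    rw [← Finset.univ_sum_single a]
    refine Finset.sum_induction _ (fun a : Fin d → ℤ => ∀ x, FixNear φ x → FixNear φ (x + a))
      ?_ ?_ ?_
    · intro a b ha hb x hx
      rw [← add_assoc]
      exact hb _ (ha _ hx)
    · intro x hx; simpa using hx
    · intro i _
      generalize a i = n
      intro x hx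
      induction n using Int.induction_on with
      | zero => simpa using hx
      | succ n ih =>
        have := fixNear_step ih i true
        have e : x + Pi.single i (n : ℤ) + unitv i true = x + Pi.single i ((n : ℤ) + 1) := by
          rw [add_assoc, unitv, ← Pi.single_add]; simp
        rwa [e] at this
      | pred n ih =>
        have := fixNear_step ih i false
        have e : x + Pi.single i (-(n : ℤ)) + unitv i false = x + Pi.single i (-(n : ℤ) - 1) := by
          rw [add_assoc, unitv, ← Pi.single_add]
          simp [sub_eq_add_neg]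
        rwa [e] at this
  have := key x 0 h
  rw [zero_add] at this
  exact this.1

/-- stabiliser of the origin -/
abbrev Stab (d : ℕ) : Type := {γ : Zd d ≃g Zd d // γ 0 = 0}

instance : Finite (Stab d) := by
  have hmem : ∀ (γ : Stab d) (q : Fin d × Bool), γ.1 (unitv q.1 q.2) ∈
      Set.range (fun q : Fin d × Bool => (unitv q.1 q.2 : Fin d → ℤ)) := by
    intro γ q
    have h1 := γ.1.map_rel_iff.2 (adj_unit (0 : Fin d → ℤ) q.1 q.2)
    rw [γ.2, zero_add] at h1
    obtain ⟨k, s, hk⟩ := adj_iff.1 h1
    exact ⟨(k, s), by rw [hk, zero_add]⟩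
  refine Finite.of_injective (β := Fin d × Bool →
    Set.range (fun q : Fin d × Bool => (unitv q.1 q.2 : Fin d → ℤ)))
    (fun γ q => ⟨γ.1 (unitv q.1 q.2), hmem γ q⟩) ?_
  intro γ₁ γ₂ h
  have h1 : ∀ i b, γ₁.1 (unitv i b) = γ₂.1 (unitv i b) := fun i b =>
    congrArg Subtype.val (congrFun h (i, b))
  have h2 : FixNear (γ₁.1.trans γ₂.1.symm) 0 := by
    constructor
    · change γ₂.1.symm (γ₁.1 0) = 0
      rw [γ₁.2, RelIso.symm_apply_eq, γ₂.2]
    · intro i b
      change γ₂.1.symm (γ₁.1 (0 + unitv i b)) = 0 + unitv i b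
      rw [zero_add, h1, RelIso.symm_apply_apply]
  apply Subtype.ext
  apply RelIso.ext
  intro x
  have h3 : γ₂.1.symm (γ₁.1 x) = x := fixNear_all h2 x
  rw [RelIso.symm_apply_eq] at h3
  exact h3

theorem relabel_relabel (φ γ : Zd d ≃g Zd d) (X : Config d) :
    relabel φ (relabel γ X) = relabel (φ.trans γ) X := by
  funext e
  change X (γ.mapEdgeSet (φ.mapEdgeSet e)) = X (SimpleGraph.Iso.mapEdgeSet (φ.trans γ) e)
  congr 1
  apply Subtype.ext
  change Sym2.map γ (Sym2.map φ e.1) = Sym2.map (φ.trans γ) e.1
  rw [Sym2.map_map]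
  rfl

/-- the reindexing of the stabiliser used for invariance -/
def kappa (φ : Zd d ≃g Zd d) (γ : Stab d) : Stab d :=
  ⟨(φ.trans γ.1).trans (trans (-(γ.1 (φ 0)))), by
    change γ.1 (φ 0) + -(γ.1 (φ 0)) = 0
    simp⟩

theorem kappa_inj (φ : Zd d ≃g Zd d) : Function.Injective (kappa φ) := by
  intro γ₁ γ₂ h
  have h1 : ∀ x, γ₁.1 (φ x) + -(γ₁.1 (φ 0)) = γ₂.1 (φ x) + -(γ₂.1 (φ 0)) := by
    intro x
    exact congrArg (fun g : Stab d => g.1 x) h
  have h2 := h1 (φ.symm 0)
  rw [RelIso.apply_symm_apply, γ₁.2, γ₂.2] at h2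
  simp only [zero_add, neg_inj] at h2
  apply Subtype.ext
  apply RelIso.ext
  intro x
  have h3 := h1 (φ.symm x)
  rw [RelIso.apply_symm_apply, h2] at h3
  exact add_right_cancel h3

theorem relabel_kappa (φ : Zd d ≃g Zd d) (γ : Stab d) (X : Config d) :
    relabel φ (relabel γ.1 X) = relabel (kappa φ γ).1 (relabel (trans (γ.1 (φ 0))) X) := by
  rw [relabel_relabel, relabel_relabel]
  congr 1
  apply RelIso.ext
  intro x
  change γ.1 (φ x) = (γ.1 (φ x) + -(γ.1 (φ 0))) + γ.1 (φ 0)
  simp

end FinEnPerc
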