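import Mathlib
import Pool.Agent.Helpers.PercBase
import Pool.Agent.Helpers.PercStab

open MeasureTheory ProbabilityTheory Filter
open scoped ENNReal Topology

namespace FinEnPerc

variable {d : ℕ}

/-! ### weak finite energy -/

def WFE (μ : Measure (Config d)) : Prop :=
  ∀ (e : Edge d) (b : Bool) (N : Set (Config d)), MeasurableSet N →
    (∀ X X' : Config d, (∀ f, f ≠ e → X f = X' f) → (X ∈ N ↔ X' ∈ N)) →
    μ (N ∩ {X | X e = b}) = 0 → μ N = 0

theorem measurableSet_coord (e : Edge d) (b : Bool) : MeasurableSet {X : Config d | X e = b} := by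
  have h : Measurable (fun X : Config d => X e) := measurable_pi_apply e
  exact h (measurableSet_singleton b)

theorem wfe_mu0 [NeZero d] : WFE (mu0 d) := by
  intro e b N hN hNe h0
  unfold mu0 at h0 ⊢
  have hNb := hN.inter (measurableSet_coord e b)
  rw [Measure.map_apply measurable_Phi hNb] at h0
  rw [Measure.map_apply measurable_Phi hN]
  have hm1 : MeasurableSet ((fun q : Lab d × (Edge d → unitInterval) => Phi q.1 q.2) ⁻¹'
      (N ∩ {X | X e = b})) := measurable_Phi hNb
  have hm2 : MeasurableSet ((fun q : Lab d × (Edge d → unitInterval) => Phi q.1 q.2) ⁻¹' N) :=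
    measurable_Phi hN
  rw [Measure.measure_prod_null hm1] at h0
  rw [Measure.measure_prod_null hm2]
  filter_upwards [h0] with v hv
  change PU d {U | Phi v U ∈ N} = 0
  have hv : PU d {U | Phi v U ∈ N ∩ {X | X e = b}} = 0 := hv
  set T : Set (Edge d → unitInterval) := {U | Phi v U ∈ N} with hT
  set A : Set unitInterval := {u | decide ((u : ℝ) < rr v e.1) = b} with hA
  have hTm : MeasurableSet T := measurable_Phi_right v hN
  have h1 := rr_pos v e.1
  have h2 := rr_lt_one v e.1
  have hAm : MeasurableSet A ∧ 0 < volume A := by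
    cases b with
    | true =>
      have : A = Set.Iio ⟨rr v e.1, h1.le, h2.le⟩ := by
        ext u
        simp only [hA, Set.mem_ofPred_eq, decide_eq_true_eq]
        exact Iff.rfl
      rw [this, unitInterval.volume_Iio]
      exact ⟨measurableSet_Iio, ENNReal.ofReal_pos.2 h1⟩
    | false =>
      have : A = Set.Ici ⟨rr v e.1, h1.le, h2.le⟩ := by
        ext u
        simp only [hA, Set.mem_ofPred_eq, decide_eq_false_iff_not, not_lt]
        exact Iff.rfl
      rw [this, unitInterval.volume_Ici]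
      exact ⟨measurableSet_Ici, ENNReal.ofReal_pos.2 (sub_pos.2 h2)⟩
  have h3 := indep_coord (ι := Edge d) (volume : Measure unitInterval) e hTm (by
    intro w w' hw
    apply hNe
    intro f hf
    simp only [Phi, hw f hf]) hAm.1
  have h4 : T ∩ {w | w e ∈ A} = {U | Phi v U ∈ N ∩ {X | X e = b}} := rfl
  rw [h4] at h3
  have h5 : PU d T * volume A = 0 := h3.symm.trans hv
  rcases mul_eq_zero.1 h5 with h6 | h6
  · exact h6
  · exact absurd h6 hAm.2.ne'

theorem awayFrom_le (e : Edge d) : awayFrom e ≤ (inferInstance : MeasurableSpace (Config d)) := by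
  have : Measurable (fun (X : Config d) (f : {f : Edge d // f ≠ e}) => X f.1) :=
    measurable_pi_lambda _ fun _ => measurable_pi_apply _
  exact this.comap_le

theorem awayFrom_dep {e : Edge d} {N : Set (Config d)} (h : MeasurableSet[awayFrom e] N) :
    ∀ X X' : Config d, (∀ f, f ≠ e → X f = X' f) → (X ∈ N ↔ X' ∈ N) := by
  obtain ⟨N', -, rfl⟩ := h
  intro X X' hXX
  have : (fun f : {f : Edge d // f ≠ e} => X f.1) = (fun f : {f : Edge d // f ≠ e} => X' f.1) :=
    funext fun f => hXX f.1 f.2
  simp only [Set.mem_preimage]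
  rw [this]

theorem finiteEnergy_of_wfe {μ : Measure (Config d)} [IsProbabilityMeasure μ] (h : WFE μ) :
    FiniteEnergy μ := by
  intro e
  set g := μ[Set.indicator {Y : Config d | Y e = true} (fun _ => (1 : ℝ)) | awayFrom e] with hg
  have hle := awayFrom_le e
  have hgm : Measurable[awayFrom e] g := stronglyMeasurable_condExp.measurable
  have hint : Integrable (Set.indicator {Y : Config d | Y e = true} (fun _ => (1 : ℝ))) μ :=
    (integrable_const 1).indicator (measurableSet_coord e true)
  have hgint : Integrable g μ := integrable_condExp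
  -- the set where g ≤ 0
  have hN0 : MeasurableSet[awayFrom e] {X | g X ≤ 0} := hgm measurableSet_Iic
  have hN1 : MeasurableSet[awayFrom e] {X | 1 ≤ g X} := hgm measurableSet_Ici
  have hval : ∀ N : Set (Config d), MeasurableSet[awayFrom e] N →
      ∫ X in N, g X ∂μ = μ.real (N ∩ {Y | Y e = true}) := by
    intro N hN
    rw [hg, setIntegral_condExp hle hint hN, setIntegral_indicator (measurableSet_coord e true)]
    simp
  have h0 : μ {X | g X ≤ 0} = 0 := by
    refine h e true _ (hle _ hN0) (awayFrom_dep hN0) ?_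
    have h1 := hval _ hN0
    have h2 : ∫ X in {X | g X ≤ 0}, g X ∂μ ≤ 0 :=
      setIntegral_nonpos (hle _ hN0) fun X hX => hX
    rw [h1] at h2
    have h3 : μ.real ({X | g X ≤ 0} ∩ {Y | Y e = true}) = 0 := le_antisymm h2 measureReal_nonneg
    exact (measureReal_eq_zero_iff).1 h3
  have h1 : μ {X | 1 ≤ g X} = 0 := by
    refine h e false _ (hle _ hN1) (awayFrom_dep hN1) ?_
    have h1 := hval _ hN1
    have h2 : μ.real {X | 1 ≤ g X} ≤ ∫ X in {X | 1 ≤ g X}, g X ∂μ := by
      have h3 : ∫ _X in {X | 1 ≤ g X}, (1 : ℝ) ∂μ ≤ ∫ X in {X | 1 ≤ g X}, g X ∂μ :=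
        setIntegral_mono_on (integrable_const 1).integrableOn hgint.integrableOn (hle _ hN1)
          fun X hX => hX
      simpa using h3
    rw [h1] at h2
    have h4 : μ.real ({X | 1 ≤ g X} ∩ {Y | Y e = true}) +
        μ.real ({X | 1 ≤ g X} ∩ {Y | Y e = false}) = μ.real {X | 1 ≤ g X} := by
      have := measureReal_inter_add_sdiff (μ := μ) (s := {X | 1 ≤ g X})
        (measurableSet_coord e true)
      rw [← this]
      congr 2
      ext X
      simp
    have h5 : μ.real ({X | 1 ≤ g X} ∩ {Y | Y e = false}) = 0 := by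
      have := measureReal_nonneg (μ := μ) (s := {X | 1 ≤ g X} ∩ {Y | Y e = false})
      linarith
    exact (measureReal_eq_zero_iff).1 h5
  have a0 : ∀ᵐ X ∂μ, ¬ (g X ≤ 0) := by
    rw [ae_iff]; simpa using h0
  have a1 : ∀ᵐ X ∂μ, ¬ (1 ≤ g X) := by
    rw [ae_iff]; simpa using h1
  filter_upwards [a0, a1] with X hX0 hX1
  exact ⟨not_le.1 hX0, not_le.1 hX1⟩

/-! ### translation invariance of mu0 -/

def sigmaLab (b : Fin d → ℤ) : Fin d × ℤ ≃ Fin d × ℤ where
  toFun q := (q.1, q.2 + b q.1)
  invFun q := (q.1, q.2 - b q.1)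
  left_inv q := by simp
  right_inv q := by simp

theorem relabel_Phi [NeZero d] (b : Fin d → ℤ) (v : Lab d) (U : Edge d → unitInterval) :
    relabel (trans b) (Phi v U) = Phi (shiftLab b v) (fun e => U ((trans b).mapEdgeSet e)) := by
  funext e
  change decide ((U ((trans b).mapEdgeSet e) : ℝ) < rr v (Sym2.map (fun x => x + b) e.1)) =
    decide ((U ((trans b).mapEdgeSet e) : ℝ) < rr (shiftLab b v) e.1)
  rw [rr_shift]

theorem mu0_trans [NeZero d] (b : Fin d → ℤ) : (mu0 d).map (relabel (trans b)) = mu0 d := by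
  have hV : (PV d).map (shiftLab b) = PV d := map_reindex (geometricMeasure half) (sigmaLab b)
  have hU : (PU d).map (fun U e => U ((trans b).mapEdgeSet e)) = PU d :=
    map_reindex (volume : Measure unitInterval) (trans b).mapEdgeSet
  have hVm : Measurable (shiftLab b : Lab d → Lab d) :=
    measurable_pi_lambda _ fun _ => measurable_pi_apply _
  have hUm : Measurable (fun (U : Edge d → unitInterval) e => U ((trans b).mapEdgeSet e)) :=
    measurable_pi_lambda _ fun _ => measurable_pi_apply _
  unfold mu0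
  rw [Measure.map_map (measurable_relabel _) measurable_Phi]
  have h1 : (relabel (trans b) ∘ fun q : Lab d × (Edge d → unitInterval) => Phi q.1 q.2) =
      (fun q : Lab d × (Edge d → unitInterval) => Phi q.1 q.2) ∘
        (Prod.map (shiftLab b) (fun U e => U ((trans b).mapEdgeSet e))) := by
    funext q
    exact relabel_Phi b q.1 q.2
  rw [h1, ← Measure.map_map measurable_Phi (hVm.prodMap hUm),
    ← Measure.map_prod_map _ _ hVm hUm, hV, hU]

/-! ### the averaged measure -/

noncomputable def mu (d : ℕ) [NeZero d] : Measure (Config d) :=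
  (Nat.card (Stab d) : ℝ≥0∞)⁻¹ • Measure.sum fun γ : Stab d => (mu0 d).map (relabel γ.1)

instance : Nonempty (Stab d) := ⟨⟨RelIso.refl _, rfl⟩⟩

theorem card_ne : (Nat.card (Stab d) : ℝ≥0∞) ≠ 0 := by
  have : Nat.card (Stab d) ≠ 0 := Nat.card_pos.ne'
  exact_mod_cast this

theorem mu_apply [NeZero d] {Z : Set (Config d)} (hZ : MeasurableSet Z) :
    mu d Z = (Nat.card (Stab d) : ℝ≥0∞)⁻¹ * ∑' γ : Stab d, mu0 d (relabel γ.1 ⁻¹' Z) := by
  unfold mu
  rw [Measure.smul_apply, Measure.sum_apply _ hZ, smul_eq_mul]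
  congr 1
  refine tsum_congr fun γ => ?_
  rw [Measure.map_apply (measurable_relabel _) hZ]

instance [NeZero d] : IsProbabilityMeasure (mu d) := by
  constructor
  rw [mu_apply MeasurableSet.univ]
  have := Fintype.ofFinite (Stab d)
  simp only [Set.preimage_univ, measure_univ, tsum_fintype, Finset.sum_const, Finset.card_univ,
    nsmul_eq_mul, mul_one, Nat.card_eq_fintype_card]
  have h := card_ne (d := d)
  rw [Nat.card_eq_fintype_card] at h
  exact ENNReal.inv_mul_cancel h (ENNReal.natCast_ne_top _)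

theorem mu_null [NeZero d] {Z : Set (Config d)} (hZ : MeasurableSet Z) :
    mu d Z = 0 ↔ ∀ γ : Stab d, mu0 d (relabel γ.1 ⁻¹' Z) = 0 := by
  rw [mu_apply hZ, mul_eq_zero, ENNReal.tsum_eq_zero]
  constructor
  · rintro (h | h)
    · rw [ENNReal.inv_eq_zero] at h
      exact absurd h (ENNReal.natCast_ne_top _)
    · exact h
  · exact Or.inr

theorem mu_ae [NeZero d] {Z : Set (Config d)} (hZ : MeasurableSet Z)
    (h : ∀ γ : Stab d, ∀ᵐ X ∂(mu0 d), relabel γ.1 X ∈ Z) : ∀ᵐ X ∂(mu d), X ∈ Z := by
  rw [ae_iff]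
  have h1 : {X : Config d | ¬ X ∈ Z} = Zᶜ := rfl
  rw [h1, mu_null hZ.compl]
  intro γ
  exact h γ

theorem invariant_mu [NeZero d] : Invariant (mu d) := by
  intro φ
  ext Z hZ
  rw [Measure.map_apply (measurable_relabel φ) hZ, mu_apply (measurable_relabel φ hZ), mu_apply hZ]
  congr 1
  have hbij : Function.Bijective (kappa φ : Stab d → Stab d) :=
    (Finite.injective_iff_bijective).1 (kappa_inj φ)
  rw [← (Equiv.ofBijective _ hbij).tsum_eq (fun γ : Stab d => mu0 d (relabel γ.1 ⁻¹' Z))]
  refine tsum_congr fun γ => ?_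
  change mu0 d (relabel γ.1 ⁻¹' (relabel φ ⁻¹' Z)) = mu0 d (relabel (kappa φ γ).1 ⁻¹' Z)
  have h1 : relabel γ.1 ⁻¹' (relabel φ ⁻¹' Z) =
      relabel (trans (γ.1 (φ 0))) ⁻¹' (relabel (kappa φ γ).1 ⁻¹' Z) := by
    ext X
    simp only [Set.mem_preimage]
    rw [relabel_kappa]
  rw [h1, ← Measure.map_apply (measurable_relabel _) (measurable_relabel _ hZ), mu0_trans]

theorem wfe_mu [NeZero d] : WFE (mu d) := by
  intro e b N hN hNe h0
  rw [mu_null (hN.inter (measurableSet_coord e b))] at h0
  rw [mu_null hN]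
  intro γ
  refine wfe_mu0 (γ.1.mapEdgeSet e) b _ (measurable_relabel γ.1 hN) ?_ (h0 γ)
  intro X X' h
  apply hNe
  intro f hf
  exact h _ fun h' => hf (γ.1.mapEdgeSet.injective h')

theorem finiteEnergy_mu [NeZero d] : FiniteEnergy (mu d) := finiteEnergy_of_wfe wfe_mu

theorem percolates_mu [NeZero d] (hd : 2 ≤ d) : ∀ᵐ X ∂(mu d), HasInfiniteCluster X := by
  refine mu_ae measurableSet_hasInf fun γ => ?_
  have h1 : ∀ᵐ X ∂(mu0 d), X ∈ {X : Config d | HasInfiniteCluster X} :=
    mu0_ae measurableSet_hasInf fun v hv => percolates_fixed hd hv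
  filter_upwards [h1] with X hX
  exact (hasInf_relabel γ.1).2 hX

/-! ### thinning -/

def andC (X B : Config d) : Config d := fun e => X e && B e

theorem measurable_andC : Measurable fun q : Config d × Config d => andC q.1 q.2 := by
  refine measurable_pi_lambda _ fun e => ?_
  have h0 : Measurable fun r : Bool × Bool => r.1 && r.2 := measurable_of_countable _
  have h1 : Measurable fun q : Config d × Config d => q.1 e :=
    (measurable_pi_apply e).comp measurable_fst
  have h2 : Measurable fun q : Config d × Config d => q.2 e :=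
    (measurable_pi_apply e).comp measurable_snd
  exact h0.comp (h1.prodMk h2)

/-- configurations whose `p`-thinning almost surely has no infinite cluster -/
def Zp (d : ℕ) (p : unitInterval) : Set (Config d) :=
  {X | ∀ᵐ B ∂(coins d p), ¬ HasInfiniteCluster (andC X B)}

theorem measurableSet_Zp (p : unitInterval) : MeasurableSet (Zp d p) := by
  have hS : MeasurableSet {q : Config d × Config d | HasInfiniteCluster (andC q.1 q.2)} :=
    measurable_andC measurableSet_hasInf
  have h1 := measurable_measure_prodMk_left (ν := coins d p) hS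
  have h2 : Zp d p = (fun X => coins d p (Prod.mk X ⁻¹'
      {q : Config d × Config d | HasInfiniteCluster (andC q.1 q.2)})) ⁻¹' {0} := by
    ext X
    simp only [Zp, Set.mem_preimage, Set.mem_singleton_iff]
    rw [show (X ∈ {X : Config d | ∀ᵐ B ∂(coins d p), ¬ HasInfiniteCluster (andC X B)}) ↔
      (∀ᵐ B ∂(coins d p), ¬ HasInfiniteCluster (andC X B)) from Iff.rfl, ae_iff]
    simp only [not_not]
    rfl
  rw [h2]
  exact h1 (measurableSet_singleton 0)

theorem relabel_mem_Zp (γ : Zd d ≃g Zd d) {p : unitInterval} {X : Config d} (h : X ∈ Zp d p) :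
    relabel γ X ∈ Zp d p := by
  have hB : (coins d p).map (fun (B : Edge d → Bool) e => B (γ.symm.mapEdgeSet e)) = coins d p :=
    map_reindex (bernoulliMeasure true false p) γ.symm.mapEdgeSet
  have hBm : Measurable (fun (B : Edge d → Bool) e => B (γ.symm.mapEdgeSet e)) :=
    measurable_pi_lambda _ fun _ => measurable_pi_apply _
  have hmp : MeasurePreserving (fun (B : Edge d → Bool) e => B (γ.symm.mapEdgeSet e))
      (coins d p) (coins d p) := ⟨hBm, hB⟩
  have h1 : ∀ᵐ B ∂(coins d p), ¬ HasInfiniteCluster (andC X B) := h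
  have h2 := hmp.quasiMeasurePreserving.ae h1
  change ∀ᵐ B ∂(coins d p), ¬ HasInfiniteCluster (andC (relabel γ X) B)
  filter_upwards [h2] with B hBn
  have h3 : andC (relabel γ X) B = relabel γ (andC X (relabel γ.symm B)) := by
    funext e
    change (X (γ.mapEdgeSet e) && B e) =
      (X (γ.mapEdgeSet e) && B (γ.mapEdgeSet.symm (γ.mapEdgeSet e)))
    rw [Equiv.symm_apply_apply]
  rw [h3, hasInf_relabel]
  exact hBn

theorem thin_mu [NeZero d] (hd : 2 ≤ d) {p : unitInterval} (hp : p ≠ 1) :
    ∀ᵐ X ∂(thin (mu d) p), ¬ HasInfiniteCluster X := by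
  have h1 : ∀ᵐ X ∂(mu d), X ∈ Zp d p := by
    refine mu_ae (measurableSet_Zp p) fun γ => ?_
    have h2 : ∀ᵐ X ∂(mu0 d), X ∈ Zp d p :=
      mu0_ae (measurableSet_Zp p) fun v hv => thinned_fixed hd hv hp
    filter_upwards [h2] with X hX
    exact relabel_mem_Zp γ.1 hX
  unfold thin
  have hS : MeasurableSet {X : Config d | ¬ HasInfiniteCluster X} := measurableSet_hasInf.compl
  refine (ae_map_iff (p := fun X => ¬ HasInfiniteCluster X) measurable_andC.aemeasurable hS).2 ?_
  have hm : MeasurableSet {q : Config d × Config d | ¬ HasInfiniteCluster (andC q.1 q.2)} :=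
    measurable_andC hS
  exact (Measure.ae_prod_mem_iff_ae_ae_mem (μ := mu d) (ν := coins d p) hm).2 h1

theorem pc_mu [NeZero d] (hd : 2 ≤ d) : pc (mu d) = 1 := by
  unfold pc
  have hmem : ∀ p : ℝ, 0 ≤ p → p < 1 →
      p ∈ {p : ℝ | ∃ h : p ∈ unitInterval, ∀ᵐ X ∂(thin (mu d) ⟨p, h⟩),
        ¬ HasInfiniteCluster X} := by
    intro p h0 h1
    refine ⟨⟨h0, h1.le⟩, thin_mu hd ?_⟩
    intro h
    have h2 : p = 1 := congrArg (fun x : unitInterval => (x : ℝ)) h
    linarith
  refine IsLUB.csSup_eq ⟨?_, ?_⟩ ⟨0, hmem 0 le_rfl one_pos⟩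
  · rintro p ⟨h, -⟩
    exact h.2
  · intro c hc
    by_contra hcon
    push Not at hcon
    have h0 : 0 ≤ c := hc (hmem 0 le_rfl one_pos)
    have := hc (hmem ((c + 1) / 2) (by linarith) (by linarith))
    linarith

end FinEnPerc
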