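import Mathlib

set_option autoImplicit false

namespace Pool.Agent.PickerChooser

open Finset

/-- expected positive part of `x` plus `r` fair signs -/
noncomputable def G : ℕ → ℤ → ℝ
  | 0, x => max (x : ℝ) 0
  | (r + 1), x => (G r (x + 1) + G r (x - 1)) / 2

lemma G_nonneg (r : ℕ) : ∀ x, 0 ≤ G r x := by
  induction r with
  | zero => intro x; simp [G]
  | succ r ih =>
    intro x
    have h1 := ih (x + 1)
    have h2 := ih (x - 1)
    simp only [G]; linarith

lemma G_sym (r : ℕ) : ∀ x : ℤ, G r x - G r (-x) = x := by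
  induction r with
  | zero =>
    intro x
    simp only [G]
    push_cast
    rcases le_total (x : ℝ) 0 with h | h
    · rw [max_eq_right h, max_eq_left (by linarith)]; ring
    · rw [max_eq_left h, max_eq_right (by linarith)]; ring
  | succ r ih =>
    intro x
    have h1 := ih (x + 1)
    have h2 := ih (x - 1)
    have e1 : -(x + 1) = -x - 1 := by ring
    have e2 : -(x - 1) = -x + 1 := by ring
    rw [e1] at h1; rw [e2] at h2
    simp only [G]
    push_cast at h1 h2
    linarith

lemma G_conv (r : ℕ) : ∀ x : ℤ, 2 * G r x ≤ G r (x + 1) + G r (x - 1) := by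
  induction r with
  | zero =>
    intro x
    simp only [G]
    push_cast
    rcases le_total (x : ℝ) 0 with h | h
    · rw [max_eq_right h]
      have h1 := le_max_right ((x : ℝ) + 1) 0
      have h2 := le_max_right ((x : ℝ) - 1) 0
      linarith
    · rw [max_eq_left h]
      have h1 := le_max_left ((x : ℝ) + 1) 0
      have h2 := le_max_left ((x : ℝ) - 1) 0
      linarith
  | succ r ih =>
    intro x
    have h1 := ih (x + 1)
    have h2 := ih (x - 1)
    simp only [G]
    have e1 : x + 1 - 1 = x := by ring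
    have e2 : x - 1 + 1 = x := by ring
    rw [e1] at h1 ⊢
    rw [e2] at h2 ⊢
    linarith

lemma G_mono (r : ℕ) (x : ℤ) : G r x ≤ G (r + 1) x := by
  have := G_conv r x
  simp only [G]; linarith

lemma G_half (r : ℕ) : G r 0 - G r (-1) ≤ 1 / 2 := by
  have h1 := G_sym r 1
  have h2 := G_conv r 0
  simp only [zero_add, zero_sub] at h2
  push_cast at h1
  linarith

/-- slopes below zero are at most one half -/
lemma G_slope (r : ℕ) (k : ℕ) : G r (-(k : ℤ)) - G r (-(k : ℤ) - 1) ≤ 1 / 2 := by
  induction k with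
  | zero => simpa using G_half r
  | succ k ih =>
    have h := G_conv r (-((k : ℤ) + 1))
    have e1 : -((k : ℤ) + 1) + 1 = -(k : ℤ) := by ring
    have e3 : -(k : ℤ) - 1 = -((k : ℤ) + 1) := by ring
    rw [e1] at h
    rw [e3] at ih
    push_cast
    linarith

lemma G_slope' (r : ℕ) (x : ℤ) (hx : x ≤ -1) : G r (x + 1) - G r x ≤ 1 / 2 := by
  obtain ⟨k, hk⟩ := Int.eq_ofNat_of_zero_le (show 0 ≤ -x - 1 by omega)
  have h := G_slope r k
  have e1 : -(k : ℤ) = x + 1 := by omega
  have e2 : -(k : ℤ) - 1 = x := by omega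
  rw [e2, e1] at h
  exact h

noncomputable def H (r : ℕ) (x : ℤ) : ℝ := if x ≤ 0 then 2 * G r x else 2 * G r 0 + x

lemma H_neg {r : ℕ} {x : ℤ} (h : x ≤ 0) : H r x = 2 * G r x := by simp [H, h]
lemma H_pos {r : ℕ} {x : ℤ} (h : 0 ≤ x) : H r x = 2 * G r 0 + x := by
  rcases eq_or_lt_of_le h with h | h
  · subst h; simp [H]
  · simp [H, not_le.2 h]

lemma H_ge (r : ℕ) (x : ℤ) : ((max x 0 : ℤ) : ℝ) ≤ H r x := by
  rcases le_total x 0 with h | h
  · rw [max_eq_right h, H_neg h]
    have := G_nonneg r x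
    push_cast; linarith
  · rw [max_eq_left h, H_pos h]
    have := G_nonneg r 0
    linarith

lemma H_mono (r : ℕ) (x : ℤ) : H r x ≤ H (r + 1) x := by
  rcases le_total x 0 with h | h
  · rw [H_neg h, H_neg h]
    have := G_mono r x
    linarith
  · rw [H_pos h, H_pos h]
    have := G_mono r 0
    linarith

/-- averaging -/
lemma H_avg (r : ℕ) (x : ℤ) : (H r (x + 1) + H r (x - 1)) / 2 ≤ H (r + 1) x := by
  rcases lt_trichotomy x 0 with h | h | h
  · rw [H_neg (by omega), H_neg (by omega), H_neg (by omega)]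
    simp only [G]; linarith
  · subst h
    rw [H_pos (by omega), H_neg (by omega), H_neg (le_refl 0)]
    have h1 := G_half r
    have h2 := G_sym r 1
    simp only [G, zero_add, zero_sub]
    push_cast at h2 ⊢
    linarith
  · rw [H_pos (by omega), H_pos (by omega), H_pos (by omega)]
    have := G_mono r 0
    push_cast
    linarith

lemma D_le (r : ℕ) (x : ℤ) : H r (x + 1) - H r (x - 1) ≤ 2 := by
  rcases lt_trichotomy x 0 with h | h | h
  · rw [H_neg (by omega), H_neg (by omega)]
    have h1 := G_slope' r x (by omega)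
    have h2 := G_slope' r (x - 1) (by omega)
    have e : x - 1 + 1 = x := by ring
    rw [e] at h2
    linarith
  · subst h
    rw [H_pos (by omega), H_neg (by omega)]
    have h1 := G_half r
    simp only [zero_add, zero_sub]
    push_cast
    linarith
  · rw [H_pos (by omega), H_pos (by omega)]
    push_cast
    linarith

lemma D_eq (r : ℕ) (x : ℤ) (h : 1 ≤ x) : H r (x + 1) - H r (x - 1) = 2 := by
  rw [H_pos (by omega), H_pos (by omega)]
  push_cast
  ring

lemma G_exp (lam : ℝ) (hl : 0 < lam) (r : ℕ) : ∀ x : ℤ,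
    G r x ≤ Real.exp (lam * x) * Real.cosh lam ^ r / lam := by
  induction r with
  | zero =>
    intro x
    simp only [G, pow_zero, mul_one]
    rw [le_div_iff₀ hl]
    rcases le_total (x : ℝ) 0 with h | h
    · rw [max_eq_right h]; simp; positivity
    · rw [max_eq_left h]
      have := Real.add_one_le_exp (lam * x)
      nlinarith
  | succ r ih =>
    intro x
    have h1 := ih (x + 1)
    have h2 := ih (x - 1)
    simp only [G]
    have h3 : Real.exp (lam * ((x + 1 : ℤ) : ℝ)) + Real.exp (lam * ((x - 1 : ℤ) : ℝ)) =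
        2 * (Real.exp (lam * x) * Real.cosh lam) := by
      rw [Real.cosh_eq]
      push_cast
      rw [mul_add, mul_sub, mul_one, Real.exp_add, Real.exp_sub, Real.exp_neg]
      field_simp
    calc (G r (x + 1) + G r (x - 1)) / 2 ≤ (Real.exp (lam * ((x + 1 : ℤ) : ℝ)) * Real.cosh lam ^ r / lam
        + Real.exp (lam * ((x - 1 : ℤ) : ℝ)) * Real.cosh lam ^ r / lam) / 2 := by linarith
      _ = (Real.exp (lam * ((x + 1 : ℤ) : ℝ)) + Real.exp (lam * ((x - 1 : ℤ) : ℝ))) / 2
          * Real.cosh lam ^ r / lam := by ring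
      _ = _ := by rw [h3]; ring

/-- the bounding sequence -/
def b (q : ℕ) : ℕ := q * (q - 1)

lemma b_even (q : ℕ) : 2 ∣ b q := by
  unfold b
  rcases q with _ | q
  · simp
  · simp only [Nat.add_sub_cancel]
    exact (Nat.even_mul_succ_self q |>.two_dvd).trans (by rw [mul_comm])

lemma b_conv (Q l : ℕ) : b (Q - l) + b (Q - (l + 1 + 1)) ≤ 2 * b (Q - (l + 1)) + 2 := by
  unfold b
  rcases Nat.lt_or_ge (l + 1) Q with h | h
  · obtain ⟨q, rfl⟩ := Nat.exists_eq_add_of_lt h
    have e1 : l + 1 + q + 1 - l = q + 2 := by omega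
    have e2 : l + 1 + q + 1 - (l + 1 + 1) = q := by omega
    have e3 : l + 1 + q + 1 - (l + 1) = q + 1 := by omega
    rw [e1, e2, e3]
    rcases q with _ | q
    · simp
    · simp only [Nat.add_sub_cancel, show q + 1 + 2 - 1 = q + 2 by omega]
      nlinarith
  · have e2 : Q - (l + 1 + 1) = 0 := by omega
    have e3 : Q - (l + 1) = 0 := by omega
    rw [e2, e3]
    have : Q - l ≤ 1 := by omega
    interval_cases h : Q - l <;> simp

section inv

variable {n : ℕ}

lemma sum_two {M : Type} [AddCommGroup M] (f g : Fin n → M) (i j : Fin n) (hij : i ≠ j)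
    (h : ∀ m, m ≠ i → m ≠ j → f m = g m) :
    ∑ m, f m - ∑ m, g m = (f i - g i) + (f j - g j) := by
  rw [← Finset.sum_sub_distrib]
  rw [Fintype.sum_eq_add i j hij]
  intro x hx
  rw [h x hx.1 hx.2, sub_self]

lemma sum_one {M : Type} [AddCommGroup M] (f g : Fin n → M) (i : Fin n)
    (h : ∀ m, m ≠ i → f m = g m) :
    ∑ m, f m - ∑ m, g m = (f i - g i) := by
  rw [← Finset.sum_sub_distrib]
  rw [Fintype.sum_eq_single i]
  intro x hx
  rw [h x hx, sub_self]

/-- excess over level `l` -/
def ex (x : Fin n → ℤ) (l : ℕ) : ℤ := ∑ m, max (x m - l) 0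

structure Inv (Q : ℕ) (B : ℝ) (x : Fin n → ℤ) (r : Fin n → ℕ) : Prop where
  pot : ∑ m, H (r m) (x m) ≤ B
  exc : ∀ l : ℕ, 2 * ex x l ≤ b (Q - l)

lemma ex_zero_le (x : Fin n → ℤ) (r : Fin n → ℕ) (Q : ℕ) (B : ℝ) (hB : 2 * B ≤ b Q)
    (h : ∑ m, H (r m) (x m) ≤ B) : 2 * ex x 0 ≤ b (Q - 0) := by
  have h1 : ((ex x 0 : ℤ) : ℝ) ≤ ∑ m, H (r m) (x m) := by
    unfold ex
    push_cast
    apply Finset.sum_le_sum
    intro m _
    have := H_ge (r m) (x m)
    push_cast at this
    simpa using this
  have h2 : ((2 * ex x 0 : ℤ) : ℝ) ≤ ((b Q : ℤ) : ℝ) := by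
    push_cast
    linarith
  have h3 := Int.cast_le.1 h2
  simpa using h3

lemma step_same (Q : ℕ) (B : ℝ) (x : Fin n → ℤ) (r r' : Fin n → ℕ) (i : Fin n)
    (h : Inv Q B x r) (hi : r i = r' i + 2) (ho : ∀ m, m ≠ i → r m = r' m) : Inv Q B x r' := by
  refine ⟨?_, h.exc⟩
  have h1 := sum_one (fun m => H (r m) (x m)) (fun m => H (r' m) (x m)) i
    (by intro m hm; simp only [ho m hm])
  have h2 := h.pot
  have h3 := H_mono (r' i) (x i)
  have h4 := H_mono (r' i + 1) (x i)
  simp only [hi] at h1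
  linarith

lemma step_pot (B : ℝ) (x x' : Fin n → ℤ) (r r' : Fin n → ℕ) (i j : Fin n) (hij : i ≠ j)
    (h : ∑ m, H (r m) (x m) ≤ B) (hi : r i = r' i + 1) (hj : r j = r' j + 1)
    (ho : ∀ m, m ≠ i → m ≠ j → r m = r' m)
    (hxi : x' i = x i + 1) (hxj : x' j = x j - 1) (hxo : ∀ m, m ≠ i → m ≠ j → x' m = x m)
    (hD : H (r' i) (x i + 1) - H (r' i) (x i - 1) ≤ H (r' j) (x j + 1) - H (r' j) (x j - 1)) :
    ∑ m, H (r' m) (x' m) ≤ B := by
  have h1 := sum_two (fun m => H (r m) (x m)) (fun m => H (r' m) (x' m)) i j hij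
    (by intro m hm hm'; simp only [ho m hm hm', hxo m hm hm'])
  simp only [hi, hj, hxi, hxj] at h1
  have h3 := H_avg (r' i) (x i)
  have h4 := H_avg (r' j) (x j)
  linarith

/-- second difference counts the rows at level exactly `l+1` -/
lemma ex_second (x : Fin n → ℤ) (l : ℕ) (i j : Fin n) (hij : i ≠ j)
    (hi : x i = l + 1) (hj : x j = l + 1) :
    2 * ex x (l + 1) + 2 ≤ ex x l + ex x (l + 1 + 1) := by
  unfold ex
  have h1 : ∀ m, 0 ≤ max (x m - (l : ℕ)) 0 + max (x m - ((l + 1 + 1 : ℕ) : ℤ)) 0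
      - 2 * max (x m - ((l + 1 : ℕ) : ℤ)) 0 := by
    intro m
    push_cast
    rcases le_total (x m - l) 0 with h | h <;> rcases le_total (x m - (l + 1)) 0 with h' | h' <;>
    rcases le_total (x m - (l + 1 + 1)) 0 with h'' | h'' <;>
    simp only [max_eq_left, max_eq_right, h, h', h''] <;> omega
  have h2 : 2 ≤ ∑ m, (max (x m - (l : ℕ)) 0 + max (x m - ((l + 1 + 1 : ℕ) : ℤ)) 0
      - 2 * max (x m - ((l + 1 : ℕ) : ℤ)) 0) := by
    calc (2 : ℤ) = ∑ m ∈ {i, j}, (1 : ℤ) := by
          rw [Finset.sum_const, Finset.card_pair hij]; rfl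
      _ ≤ ∑ m ∈ {i, j}, (max (x m - (l : ℕ)) 0 + max (x m - ((l + 1 + 1 : ℕ) : ℤ)) 0
      - 2 * max (x m - ((l + 1 : ℕ) : ℤ)) 0) := by
          apply Finset.sum_le_sum
          intro m hm
          simp only [Finset.mem_insert, Finset.mem_singleton] at hm
          have hm' : x m = l + 1 := by rcases hm with rfl | rfl <;> assumption
          rw [hm']
          push_cast
          have e1 : ((l : ℤ) + 1 - l) = 1 := by ring
          have e2 : ((l : ℤ) + 1 - (l + 1 + 1)) = -1 := by ring
          have e3 : ((l : ℤ) + 1 - (l + 1)) = 0 := by ring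
          rw [e1, e2, e3]
          simp
      _ ≤ _ := by
          apply Finset.sum_le_sum_of_subset_of_nonneg (Finset.subset_univ _)
          intro m _ _
          exact h1 m
  rw [Finset.sum_sub_distrib, Finset.sum_add_distrib, ← Finset.mul_sum] at h2
  linarith

lemma step_exc (Q : ℕ) (x x' : Fin n → ℤ) (i j : Fin n) (hij : i ≠ j)
    (h : ∀ l : ℕ, 2 * ex x l ≤ b (Q - l))
    (hxi : x' i = x i + 1) (hxj : x' j = x j - 1) (hxo : ∀ m, m ≠ i → m ≠ j → x' m = x m)
    (hc : (x i ≤ x j ∧ 1 ≤ x j) ∨ (x i ≤ 0 ∧ x j ≤ 0)) (l : ℕ) :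
    2 * ex x' (l + 1) ≤ b (Q - (l + 1)) := by
  have h1 := sum_two (fun m => max (x' m - ((l + 1 : ℕ) : ℤ)) 0)
    (fun m => max (x m - ((l + 1 : ℕ) : ℤ)) 0) i j hij
    (by intro m hm hm'; simp only [hxo m hm hm'])
  simp only [hxi, hxj] at h1
  have h2 := h (l + 1)
  by_cases hcase : x i = l + 1 ∧ x j = l + 1
  · obtain ⟨hi, hj⟩ := hcase
    have h3 := ex_second x l i j hij hi hj
    have h4 := h l
    have h5 := h (l + 1 + 1)
    have h6 := b_conv Q l
    have h7 := b_even (Q - (l + 1))
    have h8 : ex x' (l + 1) = ex x (l + 1) + 1 := by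
      unfold ex
      have : max (x i + 1 - ((l + 1 : ℕ) : ℤ)) 0 - max (x i - ((l + 1 : ℕ) : ℤ)) 0 +
        (max (x j - 1 - ((l + 1 : ℕ) : ℤ)) 0 - max (x j - ((l + 1 : ℕ) : ℤ)) 0) = 1 := by
        rw [hi, hj]
        push_cast
        have e1 : ((l : ℤ) + 1 + 1 - (l + 1)) = 1 := by ring
        have e2 : ((l : ℤ) + 1 - 1 - (l + 1)) = -1 := by ring
        have e3 : ((l : ℤ) + 1 - (l + 1)) = 0 := by ring
        rw [e1, e2, e3]
        simp
      linarith
    rw [h8]
    omega
  · have h3 : max (x i + 1 - ((l + 1 : ℕ) : ℤ)) 0 - max (x i - ((l + 1 : ℕ) : ℤ)) 0 +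
        (max (x j - 1 - ((l + 1 : ℕ) : ℤ)) 0 - max (x j - ((l + 1 : ℕ) : ℤ)) 0) ≤ 0 := by
      push_cast
      omega
    have h4 : ex x' (l + 1) ≤ ex x (l + 1) := by
      unfold ex
      linarith
    omega

lemma step (Q : ℕ) (B : ℝ) (hB : 2 * B ≤ b Q) (x x₁ x₂ : Fin n → ℤ) (r r' : Fin n → ℕ)
    (i j : Fin n) (hij : i ≠ j)
    (h : Inv Q B x r) (hi : r i = r' i + 1) (hj : r j = r' j + 1)
    (ho : ∀ m, m ≠ i → m ≠ j → r m = r' m)
    (hxi : x₁ i = x i + 1) (hxj : x₁ j = x j - 1) (hxo : ∀ m, m ≠ i → m ≠ j → x₁ m = x m)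
    (hyi : x₂ i = x i - 1) (hyj : x₂ j = x j + 1) (hyo : ∀ m, m ≠ i → m ≠ j → x₂ m = x m) :
    Inv Q B x₁ r' ∨ Inv Q B x₂ r' := by
  wlog hle : x i ≤ x j generalizing i j x₁ x₂
  · have := this x₂ x₁ j i hij.symm hj hi (fun m h1 h2 => ho m h2 h1) hyj hyi
      (fun m h1 h2 => hyo m h2 h1) hxj hxi (fun m h1 h2 => hxo m h2 h1) (by omega)
    exact this.symm
  by_cases hpos : 1 ≤ x j
  · left
    have hp := step_pot B x x₁ r r' i j hij h.pot hi hj ho hxi hxj hxo (by
      rw [D_eq (r' j) (x j) hpos]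
      exact D_le _ _)
    refine ⟨hp, ?_⟩
    intro l
    rcases l with _ | l
    · exact ex_zero_le x₁ r' Q B hB hp
    · exact step_exc Q x x₁ i j hij h.exc hxi hxj hxo (Or.inl ⟨hle, hpos⟩) l
  · rcases le_total (H (r' i) (x i + 1) - H (r' i) (x i - 1))
      (H (r' j) (x j + 1) - H (r' j) (x j - 1)) with hD | hD
    · left
      have hp := step_pot B x x₁ r r' i j hij h.pot hi hj ho hxi hxj hxo hD
      refine ⟨hp, ?_⟩
      intro l
      rcases l with _ | l
      · exact ex_zero_le x₁ r' Q B hB hp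
      · exact step_exc Q x x₁ i j hij h.exc hxi hxj hxo (Or.inr ⟨by omega, by omega⟩) l
    · right
      have hp := step_pot B x x₂ r r' j i hij.symm h.pot hj hi (fun m h1 h2 => ho m h2 h1) hyj hyi
        (fun m h1 h2 => hyo m h2 h1) hD
      refine ⟨hp, ?_⟩
      intro l
      rcases l with _ | l
      · exact ex_zero_le x₂ r' Q B hB hp
      · exact step_exc Q x x₂ j i hij.symm h.exc hyj hyi (fun m h1 h2 => hyo m h2 h1)
          (Or.inr ⟨by omega, by omega⟩) l

lemma Inv.le {Q : ℕ} {B : ℝ} {x : Fin n → ℤ} {r : Fin n → ℕ} (h : Inv Q B x r) (hQ : 1 ≤ Q)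
    (m : Fin n) : x m ≤ Q - 1 := by
  have h1 := h.exc (Q - 1)
  have h2 : Q - (Q - 1) = 1 := by omega
  rw [h2] at h1
  simp only [b] at h1
  have h3 : max (x m - ((Q - 1 : ℕ) : ℤ)) 0 ≤ ex x (Q - 1) := by
    unfold ex
    exact Finset.single_le_sum (f := fun m => max (x m - ((Q - 1 : ℕ) : ℤ)) 0)
      (fun _ _ => le_max_right _ _) (Finset.mem_univ m)
  push_cast [Nat.cast_sub hQ] at h3
  simp at h1
  have h4 := le_max_left (x m - ((Q : ℤ) - 1)) 0
  omega

/-- signed lead of row `m` -/
def S (p : Finset (Fin n × Fin n) × Finset (Fin n × Fin n)) (m : Fin n) : ℤ :=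
  ((Finset.filter (fun x : Fin n × Fin n => x.1 = m) p.1).card : ℤ)
    - ((Finset.filter (fun x : Fin n × Fin n => x.1 = m) p.2).card : ℤ)

/-- number of cells outside `U` in row `m` -/
def R (U : Finset (Fin n × Fin n)) (m : Fin n) : ℕ :=
  (Finset.filter (fun x : Fin n × Fin n => x.1 = m ∧ x ∉ U) Finset.univ).card

lemma card_row_insert (s : Finset (Fin n × Fin n)) (a : Fin n × Fin n) (ha : a ∉ s) (m : Fin n) :
    (Finset.filter (fun x : Fin n × Fin n => x.1 = m) (insert a s)).card =
      (Finset.filter (fun x : Fin n × Fin n => x.1 = m) s).card + if a.1 = m then 1 else 0 := by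
  rw [Finset.filter_insert]
  split_ifs with h
  · rw [Finset.card_insert_of_notMem]
    simp [ha]
  · simp

lemma R_insert (U : Finset (Fin n × Fin n)) (a : Fin n × Fin n) (ha : a ∉ U) (m : Fin n) :
    R U m = R (insert a U) m + if a.1 = m then 1 else 0 := by
  unfold R
  split_ifs with h
  · have : Finset.filter (fun x : Fin n × Fin n => x.1 = m ∧ x ∉ U) Finset.univ =
      insert a (Finset.filter (fun x : Fin n × Fin n => x.1 = m ∧ x ∉ insert a U) Finset.univ) := by
      ext x
      simp only [Finset.mem_filter, Finset.mem_univ, true_and, Finset.mem_insert, not_or]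
      constructor
      · rintro ⟨h1, h2⟩
        by_cases hx : x = a
        · exact Or.inl hx
        · exact Or.inr ⟨h1, hx, h2⟩
      · rintro (rfl | ⟨h1, _, h2⟩)
        · exact ⟨h, ha⟩
        · exact ⟨h1, h2⟩
    rw [this, Finset.card_insert_of_notMem]
    simp
  · rw [add_zero]
    congr 1
    ext x
    simp only [Finset.mem_filter, Finset.mem_univ, true_and, Finset.mem_insert, not_or]
    constructor
    · rintro ⟨h1, h2⟩
      refine ⟨h1, ?_, h2⟩
      rintro rfl
      exact h h1
    · rintro ⟨h1, _, h2⟩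
      exact ⟨h1, h2⟩

lemma R_empty (m : Fin n) : R (∅ : Finset (Fin n × Fin n)) m = n := by
  unfold R
  have : Finset.filter (fun x : Fin n × Fin n => x.1 = m ∧ x ∉ (∅ : Finset (Fin n × Fin n))) Finset.univ
      = Finset.univ.map ⟨fun y : Fin n => (m, y), fun a b h => by simpa using h⟩ := by
    ext ⟨x, y⟩
    simp only [Finset.mem_filter, Finset.mem_univ, true_and, Finset.notMem_empty, not_false_eq_true,
      and_true, Finset.mem_map]
    constructor
    · rintro rfl; exact ⟨y, rfl⟩
    · rintro ⟨_, h⟩; exact (congrArg Prod.fst h).symm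
  rw [this, Finset.card_map, Finset.card_univ, Fintype.card_fin]

lemma S_next (p : Finset (Fin n × Fin n) × Finset (Fin n × Fin n)) (a c : Fin n × Fin n)
    (ha : a ∉ p.1 ∪ p.2) (hc : c ∉ p.1 ∪ p.2) (m : Fin n) :
    S (insert a p.1, insert c p.2) m = S p m + (if a.1 = m then 1 else 0)
      - (if c.1 = m then 1 else 0) := by
  rw [Finset.mem_union, not_or] at ha hc
  unfold S
  simp only
  rw [card_row_insert _ _ ha.1, card_row_insert _ _ hc.2]
  push_cast
  ring

lemma union_next (p : Finset (Fin n × Fin n) × Finset (Fin n × Fin n)) (a c : Fin n × Fin n) :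
    (insert a p.1) ∪ (insert c p.2) = insert a (insert c (p.1 ∪ p.2)) := by
  rw [Finset.insert_union, Finset.union_insert]

lemma R_next (p : Finset (Fin n × Fin n) × Finset (Fin n × Fin n)) (a c : Fin n × Fin n)
    (hac : a ≠ c) (ha : a ∉ p.1 ∪ p.2) (hc : c ∉ p.1 ∪ p.2) (m : Fin n) :
    R (p.1 ∪ p.2) m = R (insert a p.1 ∪ insert c p.2) m + (if a.1 = m then 1 else 0)
      + (if c.1 = m then 1 else 0) := by
  rw [union_next, R_insert _ _ hc, R_insert (insert c (p.1 ∪ p.2)) a (by
    rw [Finset.mem_insert, not_or]; exact ⟨hac, ha⟩)]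

lemma no_win (Q : ℕ) (B : ℝ) (hB : 2 * B ≤ b Q) (hQ : 1 ≤ Q) (s0 k : ℤ) (hk : s0 + Q - 1 < k)
    (W : Set (Finset (Fin n × Fin n) × Finset (Fin n × Fin n)))
    (hW : ∀ p ∈ W,
            ((p.1 ∪ p.2).card + 2 > n * n ∧
              ∃ i : Fin n, k ≤ ((Finset.filter (fun x : Fin n × Fin n => x.1 = i) p.1).card : ℤ)
                  - ((Finset.filter (fun x : Fin n × Fin n => x.1 = i) p.2).card : ℤ)) ∨
            ∃ a b : Fin n × Fin n, a ≠ b ∧ a ∉ p.1 ∪ p.2 ∧ b ∉ p.1 ∪ p.2 ∧
              (insert a p.1, insert b p.2) ∈ W ∧ (insert b p.1, insert a p.2) ∈ W) :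
    ∀ (N : ℕ) (p : Finset (Fin n × Fin n) × Finset (Fin n × Fin n)), p ∈ W →
      n * n - (p.1 ∪ p.2).card ≤ N →
      ¬ Inv Q B (fun m => S p m - s0) (R (p.1 ∪ p.2)) := by
  intro N
  induction N with
  | zero =>
    intro p hp hN hInv
    rcases hW p hp with ⟨_, i, hi⟩ | ⟨a, c, hac, ha, hc, _, _⟩
    · have h1 := hInv.le hQ i
      simp only [S] at h1
      omega
    · have h1 : (insert a (p.1 ∪ p.2)).card ≤ n * n := by
        refine (Finset.card_le_univ _).trans ?_
        simp
      rw [Finset.card_insert_of_notMem ha] at h1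
      omega
  | succ N ih =>
    intro p hp hN hInv
    rcases hW p hp with ⟨_, i, hi⟩ | ⟨a, c, hac, ha, hc, h1, h2⟩
    · have h1 := hInv.le hQ i
      simp only [S] at h1
      omega
    · have hcard : (insert a (insert c (p.1 ∪ p.2))).card = (p.1 ∪ p.2).card + 1 + 1 := by
        rw [Finset.card_insert_of_notMem, Finset.card_insert_of_notMem hc]
        rw [Finset.mem_insert, not_or]; exact ⟨hac, ha⟩
      have hswap : insert c p.1 ∪ insert a p.2 = insert a p.1 ∪ insert c p.2 := by
        rw [union_next, union_next, Finset.insert_comm]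
      have key : Inv Q B (fun m => S (insert a p.1, insert c p.2) m - s0)
            (R (insert a p.1 ∪ insert c p.2)) ∨
          Inv Q B (fun m => S (insert c p.1, insert a p.2) m - s0)
            (R (insert a p.1 ∪ insert c p.2)) := by
        by_cases hrow : a.1 = c.1
        · left
          have hx : (fun m => S (insert a p.1, insert c p.2) m - s0) = fun m => S p m - s0 := by
            funext m
            rw [S_next p a c ha hc m, hrow]
            ring
          rw [hx]
          refine step_same Q B _ (R (p.1 ∪ p.2)) _ a.1 hInv ?_ ?_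
          · rw [R_next p a c hac ha hc]
            simp [hrow]
          · intro m hm
            rw [R_next p a c hac ha hc]
            rw [if_neg (Ne.symm hm), if_neg (fun h => hm (by rw [hrow, h]))]
            simp
        · have hrow' : c.1 ≠ a.1 := fun h => hrow h.symm
          apply step Q B hB (fun m => S p m - s0) _ _ (R (p.1 ∪ p.2)) _ a.1 c.1 hrow hInv
          · rw [R_next p a c hac ha hc]
            simp [hrow']
          · rw [R_next p a c hac ha hc]
            simp [hrow]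
          · intro m h3 h4
            rw [R_next p a c hac ha hc]
            rw [if_neg (Ne.symm h3), if_neg (Ne.symm h4)]
            simp
          · simp only [S_next p a c ha hc, if_true, if_neg hrow']
            ring
          · simp only [S_next p a c ha hc, if_true, if_neg hrow]
            ring
          · intro m h3 h4
            simp only [S_next p a c ha hc, if_neg (Ne.symm h3), if_neg (Ne.symm h4)]
            ring
          · simp only [S_next p c a hc ha, if_true, if_neg hrow']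
            ring
          · simp only [S_next p c a hc ha, if_true, if_neg hrow]
            ring
          · intro m h3 h4
            simp only [S_next p c a hc ha, if_neg (Ne.symm h3), if_neg (Ne.symm h4)]
            ring
      rcases key with key | key
      · exact ih _ h1 (by simp only; rw [union_next, hcard]; omega) key
      · refine ih _ h2 (by simp only; rw [hswap, union_next, hcard]; omega) ?_
        simp only
        rw [hswap]
        exact key

end inv

/-- choice of parameters -/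
lemma bound (n : ℕ) (hn : 400 ≤ Real.log n) (k : ℤ)
    (h : ∃ W : Set (Finset (Fin n × Fin n) × Finset (Fin n × Fin n)),
          ((∅ : Finset (Fin n × Fin n)), (∅ : Finset (Fin n × Fin n))) ∈ W ∧
          ∀ p ∈ W,
            ((p.1 ∪ p.2).card + 2 > n * n ∧
              ∃ i : Fin n, k ≤ ((Finset.filter (fun x : Fin n × Fin n => x.1 = i) p.1).card : ℤ)
                  - ((Finset.filter (fun x : Fin n × Fin n => x.1 = i) p.2).card : ℤ)) ∨
            ∃ a b : Fin n × Fin n, a ≠ b ∧ a ∉ p.1 ∪ p.2 ∧ b ∉ p.1 ∪ p.2 ∧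
              (insert a p.1, insert b p.2) ∈ W ∧ (insert b p.1, insert a p.2) ∈ W) :
    (k : ℝ) ≤ 1.1 * Real.sqrt (n * Real.log n) + 2 := by
  obtain ⟨W, hW0, hW⟩ := h
  set L := Real.log n with hL
  have hnpos : 0 < (n : ℝ) := by
    rcases Nat.eq_zero_or_pos n with h | h
    · subst h; simp at hL; rw [hL] at hn; norm_num at hn
    · exact_mod_cast h
  set T := Real.sqrt (n * L) with hT
  have hT2 : T * T = n * L := Real.mul_self_sqrt (by positivity)
  have hsn : Real.sqrt n * Real.sqrt n = n := Real.mul_self_sqrt hnpos.le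
  have hsnpos : 0 < Real.sqrt n := Real.sqrt_pos.2 hnpos
  have hTn : Real.sqrt n ≤ T := Real.sqrt_le_sqrt (by nlinarith)
  have hTpos : 0 < T := lt_of_lt_of_le hsnpos hTn
  -- parameters
  let s0 : ℤ := ⌈T⌉
  let Q : ℕ := ⌈0.1 * T⌉₊ + 1
  let lam : ℝ := T / n
  have hlam : 0 < lam := by positivity
  let B : ℝ := 2 * n
  have hs0 : T ≤ (s0 : ℝ) := Int.le_ceil T
  have hs0' : (s0 : ℝ) < T + 1 := Int.ceil_lt_add_one T
  have hQ1 : 0.1 * T + 1 ≤ (Q : ℝ) := by
    have := Nat.le_ceil (0.1 * T)
    simp only [Q]; push_cast; linarith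
  have hQ2 : (Q : ℝ) < 0.1 * T + 2 := by
    have := Nat.ceil_lt_add_one (show 0 ≤ 0.1 * T by positivity)
    simp only [Q]; push_cast; linarith
  have hB : 2 * B ≤ b Q := by
    have h1 : ((b Q : ℕ) : ℝ) = Q * (Q - 1) := by
      simp only [b, Q]; push_cast; ring_nf
    rw [h1]
    have h2 : (0.1 * T) * (0.1 * T) ≤ Q * (Q - 1 : ℝ) := by
      apply mul_le_mul
      · linarith
      · linarith
      · positivity
      · positivity
    simp only [B]
    nlinarith
  by_contra hcon
  push Not at hcon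
  have hk : s0 + Q - 1 < k := by
    have : ((s0 + Q - 1 : ℤ) : ℝ) < (k : ℝ) := by
      push_cast
      linarith
    exact_mod_cast this
  refine no_win Q B hB (by omega) s0 k hk W hW (n * n) _ hW0 (by simp) ?_
  have hS : ∀ m, S ((∅ : Finset (Fin n × Fin n)), (∅ : Finset (Fin n × Fin n))) m = 0 := by
    intro m; simp [S]
  have hpot : ∑ m, H (R ((∅ : Finset (Fin n × Fin n)) ∪ (∅ : Finset (Fin n × Fin n))) m)
      (S ((∅ : Finset (Fin n × Fin n)), (∅ : Finset (Fin n × Fin n))) m - s0) ≤ B := by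
    have h1 : ∀ m : Fin n, H (R ((∅ : Finset (Fin n × Fin n)) ∪ (∅ : Finset (Fin n × Fin n))) m)
      (S ((∅ : Finset (Fin n × Fin n)), (∅ : Finset (Fin n × Fin n))) m - s0) ≤ 2 := by
      intro m
      rw [Finset.union_idempotent, R_empty, hS]
      have hneg : (0 : ℤ) - s0 ≤ 0 := by
        have : (0 : ℝ) ≤ (s0 : ℝ) := by linarith
        have : (0 : ℤ) ≤ s0 := by exact_mod_cast this
        omega
      rw [H_neg hneg]
      have h2 := G_exp lam hlam n (0 - s0)
      have h3 : Real.exp (lam * ((0 - s0 : ℤ) : ℝ)) * Real.cosh lam ^ n / lam ≤ 1 := by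
        rw [div_le_one hlam]
        have h4 : Real.cosh lam ^ n ≤ Real.exp (n * (lam ^ 2 / 2)) := by
          rw [Real.exp_nat_mul]
          exact pow_le_pow_left₀ (Real.cosh_pos _).le (Real.cosh_le_exp_half_sq lam) n
        have h5 : lam * ((0 - s0 : ℤ) : ℝ) + n * (lam ^ 2 / 2) ≤ - (L / 2) := by
          push_cast
          have h6 : n * (lam ^ 2 / 2) = L / 2 := by
            simp only [lam]
            field_simp
            nlinarith
          have h7 : lam * T = L := by
            simp only [lam]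
            field_simp
            linarith
          have h8 : lam * T ≤ lam * s0 := mul_le_mul_of_nonneg_left hs0 hlam.le
          rw [h6]
          linarith
        calc Real.exp (lam * ((0 - s0 : ℤ) : ℝ)) * Real.cosh lam ^ n ≤
            Real.exp (lam * ((0 - s0 : ℤ) : ℝ)) * Real.exp (n * (lam ^ 2 / 2)) :=
              mul_le_mul_of_nonneg_left h4 (Real.exp_pos _).le
          _ = Real.exp (lam * ((0 - s0 : ℤ) : ℝ) + n * (lam ^ 2 / 2)) := by rw [Real.exp_add]
          _ ≤ Real.exp (-(L / 2)) := Real.exp_le_exp.2 h5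
          _ = (Real.sqrt n)⁻¹ := by
            rw [Real.exp_neg, Real.exp_half, hL, Real.exp_log hnpos]
          _ ≤ lam := by
            simp only [lam]
            rw [inv_eq_one_div, div_le_div_iff₀ hsnpos hnpos]
            nlinarith
      linarith
    calc _ ≤ ∑ m : Fin n, (2 : ℝ) := Finset.sum_le_sum (fun m _ => h1 m)
      _ = B := by simp [B]; ring
  refine ⟨hpot, ?_⟩
  intro l
  have : ex (fun m => S ((∅ : Finset (Fin n × Fin n)), (∅ : Finset (Fin n × Fin n))) m - s0) l = 0 := by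
    unfold ex
    apply Finset.sum_eq_zero
    intro m _
    simp only
    rw [hS]
    apply max_eq_right
    have : (0 : ℝ) ≤ (s0 : ℝ) := by linarith
    have : (0 : ℤ) ≤ s0 := by exact_mod_cast this
    omega
  rw [this]
  simp

end Pool.Agent.PickerChooser
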