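import Mathlib

set_option autoImplicit false

namespace Pool.Agent.PosetDef

open FirstOrder Set

section toolkit

variable {M : Type} [Language.order.Structure M]

/-- definability (with parameters) of a predicate on assignments -/
def DD (p : (ℕ → M) → Prop) : Prop :=
  (Set.univ : Set M).Definable Language.order {v : ℕ → M | p v}

lemma DD.congr {p q : (ℕ → M) → Prop} (h : DD p) (e : ∀ v, p v ↔ q v) : DD q := by
  have : q = p := funext fun v => propext (e v).symm
  rw [this]; exact h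

lemma DD.and {p q : (ℕ → M) → Prop} (hp : DD p) (hq : DD q) : DD (fun v => p v ∧ q v) :=
  Set.Definable.inter hp hq

lemma DD.or {p q : (ℕ → M) → Prop} (hp : DD p) (hq : DD q) : DD (fun v => p v ∨ q v) :=
  Set.Definable.union hp hq

lemma DD.not {p : (ℕ → M) → Prop} (hp : DD p) : DD (fun v => ¬ p v) :=
  Set.Definable.compl hp

lemma DD.imp {p q : (ℕ → M) → Prop} (hp : DD p) (hq : DD q) : DD (fun v => p v → q v) :=
  (hp.not.or hq).congr (fun v => by tauto)

lemma DD.iff {p q : (ℕ → M) → Prop} (hp : DD p) (hq : DD q) : DD (fun v => p v ↔ q v) :=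
  ((hp.imp hq).and (hq.imp hp)).congr (fun v => by tauto)

lemma DD.sub {p : (ℕ → M) → Prop} (hp : DD p) (g : ℕ → ℕ) : DD (fun v => p (fun n => v (g n))) :=
  Set.Definable.preimage_comp g hp

lemma DD.ex {B : (ℕ → M) → M → Prop} (h : DD (fun v => B (fun n => v (n + 1)) (v 0))) :
    DD (fun v => ∃ x, B v x) := by
  let m : ℕ → ℕ ⊕ Fin 1 := fun n => match n with
    | 0 => Sum.inr 0
    | (n + 1) => Sum.inl n
  have h1 := Set.Definable.preimage_comp m h
  have h2 := Set.Definable.exists_of_finite h1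
  refine DD.congr h2 ?_
  intro v
  constructor
  · rintro ⟨u, hu⟩
    exact ⟨u 0, hu⟩
  · rintro ⟨x, hx⟩
    exact ⟨fun _ => x, hx⟩

lemma DD.all {B : (ℕ → M) → M → Prop} (h : DD (fun v => B (fun n => v (n + 1)) (v 0))) :
    DD (fun v => ∀ x, B v x) := by
  have := (DD.ex (B := fun v x => ¬ B v x) h.not).not
  exact this.congr (fun v => by push Not; rfl)

lemma DD.eq (i j : ℕ) : DD (fun v : ℕ → M => v i = v j) := by
  refine ⟨(Language.Term.var i).equal (Language.Term.var j), ?_⟩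
  ext v; simp

lemma DD.eqc (i : ℕ) (a : M) : DD (fun v : ℕ → M => v i = a) := by
  refine ⟨(Language.Term.var i).equal (Language.con Language.order (⟨a, trivial⟩ : ↑(Set.univ : Set M))).term, ?_⟩
  ext v; simp

def D1 (S : M → Prop) : Prop := DD (fun v => S (v 0))
def D2 (S : M → M → Prop) : Prop := DD (fun v => S (v 0) (v 1))
def D3 (S : M → M → M → Prop) : Prop := DD (fun v => S (v 0) (v 1) (v 2))

lemma D1.at {S : M → Prop} (h : D1 S) (i : ℕ) : DD (fun v => S (v i)) :=
  DD.sub h (fun _ => i)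

lemma D2.at {S : M → M → Prop} (h : D2 S) (i j : ℕ) : DD (fun v => S (v i) (v j)) :=
  DD.sub h (fun n => if n = 0 then i else j)

lemma D3.at {S : M → M → M → Prop} (h : D3 S) (i j k : ℕ) :
    DD (fun v => S (v i) (v j) (v k)) :=
  DD.sub h (fun n => if n = 0 then i else if n = 1 then j else k)

lemma D2.fst {S : M → M → Prop} (h : D2 S) (a : M) (i : ℕ) : DD (fun v => S a (v i)) := by
  refine DD.congr (DD.ex (B := fun v x => x = a ∧ S x (v i)) ?_) ?_
  · exact (DD.eqc 0 a).and (h.at 0 (i + 1))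
  · intro v; simp

lemma D2.snd {S : M → M → Prop} (h : D2 S) (a : M) (i : ℕ) : DD (fun v => S (v i) a) := by
  refine DD.congr (DD.ex (B := fun v x => x = a ∧ S (v i) x) ?_) ?_
  · exact (DD.eqc 0 a).and (h.at (i + 1) 0)
  · intro v; simp

end toolkit

/-! the chain -/

abbrev C := Lex (ℕ → Bool)

lemma C_lt (x y : C) : x < y ↔ ∃ i, (∀ j, j < i → x j = y j) ∧ x i < y i := Iff.rfl

lemma C_not_le (x y : C) : ¬ x ≤ y ↔ ∃ i, (∀ j, j < i → y j = x j) ∧ y i < x i := by
  rw [not_le]; exact Iff.rfl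

def kk (s : ℕ) : ℕ := (Nat.unpair s).1
def AA (s : ℕ) : Finset ℕ := (Encodable.decode (α := Finset ℕ) (Nat.unpair s).2).getD ∅
def p1 (s : ℕ) : ℕ := (Nat.unpair (kk s)).1
def p2 (s : ℕ) : ℕ := (Nat.unpair (kk s)).2

lemma exists_s (k : ℕ) (A : Finset ℕ) : ∃ s, kk s = k ∧ AA s = A := by
  refine ⟨Nat.pair k (Encodable.encode A), ?_, ?_⟩
  · simp [kk]
  · simp [AA]

def el (s : ℕ) : C := toLex (fun n => if n < kk s then decide (n ∈ AA s) else decide (n ≠ kk s))
def et (s : ℕ) : C := toLex (fun n => if n < kk s then decide (n ∈ AA s) else true)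

lemma bool_lt {a b : Bool} : a < b ↔ a = false ∧ b = true := by
  cases a <;> cases b <;> simp

lemma el_lt_et (s : ℕ) : el s < et s := by
  rw [C_lt]
  refine ⟨kk s, ?_, ?_⟩
  · intro j hj
    simp [el, et, hj]
  · simp [el, et]

/-- reading a digit -/
lemma digit (ρ : C) (k : ℕ) : ρ k = true ↔ ∃ s, kk s = k ∧ el s < ρ ∧ ρ ≤ et s := by
  classical
  constructor
  · intro h
    obtain ⟨s, hs, hA⟩ := exists_s k ((Finset.range k).filter (fun n => ρ n = true))
    refine ⟨s, hs, ?_, ?_⟩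
    · rw [C_lt]
      refine ⟨k, ?_, ?_⟩
      · intro j hj
        have hj' : j < kk s := by omega
        simp only [el, Pi.toLex_apply, hj', if_true, hA, Finset.mem_filter, Finset.mem_range, hj,
          true_and]
        simp
      · rw [bool_lt]
        refine ⟨?_, h⟩
        simp [el, hs]
    · by_contra hcon
      rw [C_not_le] at hcon
      obtain ⟨i, h1, h2⟩ := hcon
      rw [bool_lt] at h2
      obtain ⟨h2, h3⟩ := h2
      simp only [et, Pi.toLex_apply] at h2
      split_ifs at h2 with h4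
      · rw [hA] at h2
        simp only [Finset.mem_filter, Finset.mem_range, decide_eq_false_iff_not, not_and] at h2
        exact h2 (by omega) h3
  · rintro ⟨s, hs, h1, h2⟩
    rw [C_lt] at h1
    obtain ⟨i, h3, h4⟩ := h1
    rw [bool_lt] at h4
    obtain ⟨h4, h5⟩ := h4
    have hi : i ≤ kk s := by
      by_contra hc
      push Not at hc
      simp only [el, Pi.toLex_apply] at h4
      rw [if_neg (by omega)] at h4
      simp at h4
      omega
    rcases lt_or_eq_of_le hi with hi | hi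
    · exfalso
      apply absurd h2
      rw [C_not_le]
      refine ⟨i, ?_, ?_⟩
      · intro j hj
        rw [← h3 j hj]
        have : j < kk s := by omega
        simp [el, et, this]
      · rw [bool_lt]
        refine ⟨?_, h5⟩
        simp only [el, Pi.toLex_apply, hi, if_true] at h4
        simp only [et, Pi.toLex_apply, hi, if_true]
        exact h4
    · rw [← hs, ← hi]; exact h5

lemma dens (x y : C) (h : x < y) : ∃ s, x ≤ el s ∧ el s < y := by
  classical
  rw [C_lt] at h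
  obtain ⟨k, h1, h2⟩ := h
  rw [bool_lt] at h2
  obtain ⟨h2, h3⟩ := h2
  obtain ⟨s, hs, hA⟩ := exists_s k ((Finset.range k).filter (fun n => x n = true))
  have hel : ∀ j, j < k → el s j = x j := by
    intro j hj
    have hj' : j < kk s := by omega
    simp only [el, Pi.toLex_apply, hj', if_true, hA, Finset.mem_filter, Finset.mem_range, hj,
      true_and]
    simp
  refine ⟨s, ?_, ?_⟩
  · by_contra hcon
    rw [C_not_le] at hcon
    obtain ⟨i, h4, h5⟩ := hcon
    rw [bool_lt] at h5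
    obtain ⟨h5, h6⟩ := h5
    rcases lt_trichotomy i k with hi | hi | hi
    · rw [hel i hi] at h5; rw [h5] at h6; simp at h6
    · rw [hi, h2] at h6; simp at h6
    · simp only [el, Pi.toLex_apply] at h5
      rw [if_neg (by omega)] at h5
      simp at h5; omega
  · rw [C_lt]
    refine ⟨k, ?_, ?_⟩
    · intro j hj
      rw [hel j hj, h1 j hj]
    · rw [bool_lt]
      exact ⟨by simp [el, hs], h3⟩

def top : C := toLex (fun _ => true)
def bot : C := toLex (fun _ => false)

lemma le_topC (x : C) : x ≤ top := by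
  by_contra hcon
  rw [C_not_le] at hcon
  obtain ⟨i, _, h5⟩ := hcon
  rw [bool_lt] at h5
  simp [top] at h5

lemma bot_leC (x : C) : bot ≤ x := by
  by_contra hcon
  rw [C_not_le] at hcon
  obtain ⟨i, _, h5⟩ := hcon
  rw [bool_lt] at h5
  simp [bot] at h5

lemma et_zero (s : ℕ) (h : kk s = 0) : et s = top := by
  funext n
  simp [et, h, top]

/-! the poset -/

inductive P : Type
  | c (x : C)
  | l (s : ℕ)
  | t (s : ℕ)
  | w (s : ℕ)
  | v (s : ℕ)

namespace P

def le : P → P → Prop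
  | c x, c y => x ≤ y
  | c x, l s => x ≤ el s
  | c x, t s => x ≤ et s
  | l s, l r => s = r
  | l s, t r => s = r
  | t s, t r => s = r
  | w s, w r => s = r
  | w s, l r => s = r
  | w s, t r => s = r ∨ s = p1 r
  | v s, v r => s = r
  | v s, t r => s = p2 r
  | _, _ => False

instance : PartialOrder P where
  le := le
  le_refl a := by cases a <;> simp [le]
  le_trans a b d := by
    cases a <;> cases b <;> cases d <;> simp only [le] <;> intro h1 h2 <;>
      first
        | exact h1.elim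
        | exact h2.elim
        | (subst h1; subst h2; simp)
        | (subst h1; exact h2)
        | (subst h2; exact h1)
        | exact le_trans h1 h2
        | (subst h2; exact le_trans h1 (el_lt_et _).le)
  le_antisymm a b := by
    cases a <;> cases b <;> simp only [le] <;> intro h1 h2 <;>
      first
        | exact h1.elim
        | exact h2.elim
        | (rw [h1])
        | (rw [le_antisymm h1 h2])

end P

instance : Language.order.Structure P := Language.orderStructure P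

open P

lemma DD.le (i j : ℕ) : DD (fun v : ℕ → P => v i ≤ v j) := by
  have : (∅ : Set P).Definable Language.order {v : ℕ → P | v i ≤ v j} := by
    rw [Set.empty_definable_iff]
    refine ⟨Language.Relations.formula₂ Language.leSymb (Language.Term.var i) (Language.Term.var j), ?_⟩
    ext v
    simp only [Set.mem_ofPred_eq, Language.Formula.realize_rel₂, Language.Term.realize_var]
    exact Iff.rfl
  exact this.mono (Set.empty_subset _)

lemma D2_le : D2 (fun x y : P => x ≤ y) := DD.le 0 1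

lemma DD.cle (a : P) (i : ℕ) : DD (fun v : ℕ → P => a ≤ v i) := D2_le.fst a i
lemma DD.lec (i : ℕ) (a : P) : DD (fun v : ℕ → P => v i ≤ a) := D2_le.snd a i

def isC (x : P) : Prop := ∃ y, x = c y
def isT (x : P) : Prop := ∃ y, x = t y
def isL (x : P) : Prop := ∃ y, x = l y
def isW (x : P) : Prop := ∃ y, x = w y
def isV (x : P) : Prop := ∃ y, x = v y

lemma le_def (x y : P) : x ≤ y ↔ P.le x y := Iff.rfl

lemma D_isC : D1 isC := by
  refine DD.congr (DD.lec 0 (c top)) ?_
  intro u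
  cases h : u 0 <;> simp [isC, le_def, P.le, le_topC]

lemma exists_p1 (a : ℕ) : ∃ s, p1 s = a ∧ s ≠ a := by
  obtain ⟨s, hs, hA⟩ := exists_s (Nat.pair a (a + 1)) ∅
  refine ⟨s, by simp [p1, hs], ?_⟩
  intro h
  have h1 : kk s ≤ s := Nat.unpair_left_le s
  rw [hs] at h1
  have := Nat.right_le_pair a (a + 1)
  omega

lemma exists_p2 (a : ℕ) : ∃ s, p2 s = a := by
  obtain ⟨s, hs, hA⟩ := exists_s (Nat.pair a a) ∅
  exact ⟨s, by simp [p2, hs]⟩

lemma exists_k0 : ∃ s, kk s = 0 := ⟨0, by simp [kk]⟩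

lemma D_isT : D1 isT := by
  refine DD.congr (p := fun u : ℕ → P => ∀ y, u 0 ≤ y → y = u 0) ?_ ?_
  · exact DD.all ((DD.le 1 0).imp (DD.eq 0 1))
  · intro u
    generalize u 0 = x
    constructor
    · intro h
      cases x with
      | c x =>
        obtain ⟨s, hs⟩ := exists_k0
        have := h (t s) (by show x ≤ et s; rw [et_zero s hs]; exact le_topC x)
        cases this
      | l s => have := h (t s) rfl; cases this
      | t s => exact ⟨s, rfl⟩
      | w s => have := h (l s) rfl; cases this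
      | v s =>
        obtain ⟨r, hr⟩ := exists_p2 s
        have := h (t r) hr.symm
        cases this
    · rintro ⟨s, rfl⟩ y hy
      cases y with
      | t r => have : s = r := hy; rw [this]
      | c y => exact hy.elim
      | l y => exact hy.elim
      | w y => exact hy.elim
      | v y => exact hy.elim

lemma D_isL : D1 isL := by
  refine DD.congr (((D_isC.at 0).not.and (D_isT.at 0).not).and (DD.cle (c bot) 0)) ?_
  intro u
  cases h : u 0 <;> simp [isC, isT, isL, le_def, P.le, bot_leC]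

lemma D_isW : D1 isW := by
  refine DD.congr (p := fun u : ℕ → P => ¬ (c bot ≤ u 0) ∧ ∃ y, isL y ∧ u 0 ≤ y) ?_ ?_
  · exact (DD.cle (c bot) 0).not.and (DD.ex ((D_isL.at 0).and (DD.le 1 0)))
  · intro u
    cases h : u 0 <;> simp [isW, isL, le_def, P.le, bot_leC]

lemma D_isV : D1 isV := by
  refine DD.congr (((DD.cle (c bot) 0).not).and (D_isW.at 0).not) ?_
  intro u
  cases h : u 0 <;> simp [isW, isV, le_def, P.le, bot_leC]

def FC (x y : P) : Prop := ∃ s, x = w (p1 s) ∧ y = t s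

lemma D_FC : D2 FC := by
  refine DD.congr (p := fun u : ℕ → P => isW (u 0) ∧ isT (u 1) ∧ u 0 ≤ u 1 ∧
    ∃ z, isL z ∧ z ≤ u 1 ∧ (u 0 ≤ z → ∀ x, isW x → x ≤ u 1 → x ≤ z)) ?_ ?_
  · refine (D_isW.at 0).and ((D_isT.at 1).and ((DD.le 0 1).and ?_))
    refine DD.ex ((D_isL.at 0).and ((DD.le 0 2).and ((DD.le 1 0).imp ?_)))
    exact DD.all ((D_isW.at 0).imp ((DD.le 0 3).imp (DD.le 0 1)))
  · intro u
    generalize u 0 = x
    generalize u 1 = y
    constructor
    · rintro ⟨⟨a, rfl⟩, ⟨s, rfl⟩, h1, z, ⟨r, rfl⟩, h2, h3⟩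
      have h2' : r = s := h2
      subst h2'
      rcases h1 with h1 | h1
      · have h4 := h3 h1 (w (p1 r)) ⟨_, rfl⟩ (Or.inr rfl)
        have h5 : p1 r = r := h4
        refine ⟨r, ?_, rfl⟩
        rw [h5, h1]
      · exact ⟨r, by rw [h1], rfl⟩
    · rintro ⟨s, rfl, rfl⟩
      refine ⟨⟨_, rfl⟩, ⟨_, rfl⟩, Or.inr rfl, l s, ⟨_, rfl⟩, rfl, ?_⟩
      rintro h1 _ ⟨a, rfl⟩ h2
      have h1' : p1 s = s := h1
      rcases h2 with h2 | h2
      · exact h2
      · rw [h1'] at h2; exact h2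

/-- every relation between the `w`'s and the `v`'s is definable -/
lemma D_WV (R : ℕ → ℕ → Prop) : D2 (fun x y => ∃ a b, x = w a ∧ y = v b ∧ R a b) := by
  classical
  let ρ : C := toLex (fun k => decide (R (Nat.unpair k).1 (Nat.unpair k).2))
  refine DD.congr (p := fun u : ℕ → P => ∃ t', FC (u 0) t' ∧ isV (u 1) ∧ u 1 ≤ t' ∧ c ρ ≤ t' ∧
    ∃ l', isL l' ∧ l' ≤ t' ∧ ¬ c ρ ≤ l') ?_ ?_
  · refine DD.ex ((D_FC.at 1 0).and ((D_isV.at 2).and ((DD.le 2 0).and ((DD.cle _ 0).and ?_))))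
    exact DD.ex ((D_isL.at 0).and ((DD.le 0 1).and (DD.cle _ 0).not))
  · intro u
    generalize u 0 = x
    generalize u 1 = y
    constructor
    · rintro ⟨_, ⟨s, rfl, rfl⟩, ⟨b, rfl⟩, h1, h2, _, ⟨r, rfl⟩, h3, h4⟩
      have h3' : r = s := h3
      subst h3'
      have h1' : b = p2 r := h1
      have h2' : ρ ≤ et r := h2
      have h4' : ¬ ρ ≤ el r := h4
      rw [not_le] at h4'
      refine ⟨_, _, rfl, rfl, ?_⟩
      have := (digit ρ (kk r)).2 ⟨r, rfl, h4', h2'⟩
      rw [h1']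
      have e : ρ (kk r) = decide (R (Nat.unpair (kk r)).1 (Nat.unpair (kk r)).2) := rfl
      rw [e] at this
      exact of_decide_eq_true this
    · rintro ⟨a, b, rfl, rfl, h⟩
      have e : ρ (Nat.pair a b) = true := by
        show decide _ = true
        simpa using h
      obtain ⟨s, hs, h1, h2⟩ := (digit ρ (Nat.pair a b)).1 e
      have ha : p1 s = a := by simp [p1, hs]
      have hb : p2 s = b := by simp [p2, hs]
      refine ⟨t s, ⟨s, by rw [ha], rfl⟩, ⟨b, rfl⟩, hb.symm, h2, l s, ⟨s, rfl⟩, rfl, ?_⟩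
      exact not_le.2 h1

lemma D_WW (R : ℕ → ℕ → Prop) : D2 (fun x y => ∃ a b, x = w a ∧ y = w b ∧ R a b) := by
  refine DD.congr (p := fun u : ℕ → P => ∃ z, (∃ a b, u 0 = w a ∧ z = v b ∧ R a b) ∧
    (∃ a b, u 1 = w a ∧ z = v b ∧ a = b)) ?_ ?_
  · exact DD.ex (((D_WV R).at 1 0).and ((D_WV (fun a b => a = b)).at 2 0))
  · intro u
    generalize u 0 = x
    generalize u 1 = y
    constructor
    · rintro ⟨z, ⟨a, b, rfl, rfl, h⟩, ⟨a', b', rfl, h2, h3⟩⟩
      cases h2
      exact ⟨a, a', rfl, rfl, by rw [h3]; exact h⟩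
    · rintro ⟨a, b, rfl, rfl, h⟩
      exact ⟨v b, ⟨a, b, rfl, rfl, h⟩, ⟨b, b, rfl, rfl, rfl⟩⟩

/-- the family `f` is uniformly indexed by the `w`'s -/
def Good (f : ℕ → P) : Prop := D2 (fun x y => ∃ s, x = w s ∧ y = f s)

lemma good_l : Good l := by
  refine DD.congr ((D_isW.at 0).and ((D_isL.at 1).and (DD.le 0 1))) ?_
  intro u
  generalize u 0 = x
  generalize u 1 = y
  constructor
  · rintro ⟨⟨a, rfl⟩, ⟨b, rfl⟩, h⟩
    have h' : a = b := h
    exact ⟨a, rfl, by rw [h']⟩
  · rintro ⟨s, rfl, rfl⟩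
    exact ⟨⟨_, rfl⟩, ⟨_, rfl⟩, rfl⟩

lemma good_t : Good t := by
  refine DD.congr (p := fun u : ℕ → P => isT (u 1) ∧ ∃ z, (∃ s, u 0 = w s ∧ z = l s) ∧ z ≤ u 1)
    ((D_isT.at 1).and (DD.ex ((D2.at good_l 1 0).and (DD.le 0 2)))) ?_
  intro u
  generalize u 0 = x
  generalize u 1 = y
  constructor
  · rintro ⟨⟨a, rfl⟩, z, ⟨s, rfl, rfl⟩, h⟩
    have h' : s = a := h
    exact ⟨s, rfl, by rw [h']⟩
  · rintro ⟨s, rfl, rfl⟩
    exact ⟨⟨_, rfl⟩, l s, ⟨s, rfl, rfl⟩, rfl⟩

lemma good_w : Good w := by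
  refine DD.congr ((D_isW.at 0).and (DD.eq 0 1)) ?_
  intro u
  generalize u 0 = x
  generalize u 1 = y
  constructor
  · rintro ⟨⟨a, rfl⟩, rfl⟩
    exact ⟨a, rfl, rfl⟩
  · rintro ⟨s, rfl, rfl⟩
    exact ⟨⟨_, rfl⟩, rfl⟩

lemma good_v : Good v := by
  refine DD.congr (D_WV (fun a b => a = b)) ?_
  intro u
  constructor
  · rintro ⟨a, b, h1, h2, rfl⟩
    exact ⟨a, h1, h2⟩
  · rintro ⟨s, h1, h2⟩
    exact ⟨s, s, h1, h2, rfl⟩

lemma D_rel {f g : ℕ → P} (hf : Good f) (hg : Good g) (R : ℕ → ℕ → Prop) :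
    D2 (fun x y => ∃ a b, x = f a ∧ y = g b ∧ R a b) := by
  refine DD.congr (p := fun u : ℕ → P => ∃ x', ∃ y', (∃ s, x' = w s ∧ u 0 = f s) ∧
    (∃ s, y' = w s ∧ u 1 = g s) ∧ (∃ a b, x' = w a ∧ y' = w b ∧ R a b)) ?_ ?_
  · exact DD.ex (DD.ex ((D2.at hf 1 2).and ((D2.at hg 0 3).and ((D_WW R).at 1 0))))
  · intro u
    generalize u 0 = x
    generalize u 1 = y
    constructor
    · rintro ⟨_, _, ⟨s, rfl, rfl⟩, ⟨r, rfl, rfl⟩, a, b, h1, h2, h⟩
      cases h1; cases h2
      exact ⟨s, r, rfl, rfl, h⟩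
    · rintro ⟨a, b, rfl, rfl, h⟩
      exact ⟨w a, w b, ⟨a, rfl, rfl⟩, ⟨b, rfl, rfl⟩, a, b, rfl, rfl, h⟩

/-- families of initial segments of the chain -/
lemma D_init {g : ℕ → P} (hg : Good g) (hinj : Function.Injective g) (I : ℕ → C → Prop)
    (hI : ∀ b x y, x ≤ y → I b y → I b x) :
    D2 (fun x e => ∃ y b, x = c y ∧ e = g b ∧ I b y) := by
  let A : ℕ → ℕ → Prop := fun a b => ∀ x, x ≤ el a → I b x
  let bit : ℕ → Prop := fun b => ∃ m, I b m ∧ (∀ x, I b x → x ≤ m) ∧ ¬ ∃ s, m ≤ el s ∧ A s b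
  have key : ∀ b y, I b y ↔ ((∃ s, y ≤ el s ∧ A s b) ∨ (bit b ∧ ∀ s, ¬ y ≤ el s → A s b)) := by
    intro b y
    constructor
    · intro hy
      by_cases hc : ∃ s, y ≤ el s ∧ A s b
      · exact Or.inl hc
      · right
        refine ⟨⟨y, hy, ?_, hc⟩, ?_⟩
        · intro x hx
          by_contra hlt
          rw [not_le] at hlt
          obtain ⟨s, h1, h2⟩ := dens y x hlt
          exact hc ⟨s, h1, fun z hz => hI b z x (hz.trans (le_of_lt h2)) hx⟩
        · intro s hs z hz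
          rw [not_le] at hs
          exact hI b z y (hz.trans (le_of_lt hs)) hy
    · rintro (⟨s, h1, h2⟩ | ⟨⟨m, hm, hmax, hunc⟩, h⟩)
      · exact h2 y h1
      · by_contra hy
        have hlt : m < y := by
          have h0 : ¬ y ≤ m := fun hle => hy (hI b y m hle hm)
          exact not_le.1 h0
        obtain ⟨s, h1, h2⟩ := dens m y hlt
        exact hunc ⟨s, h1, h s (not_le.2 h2)⟩
  refine DD.congr (p := fun u : ℕ → P => isC (u 0) ∧
    ((∃ z, isL z ∧ u 0 ≤ z ∧ (∃ a b, z = l a ∧ u 1 = g b ∧ A a b)) ∨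
     ((∃ z, (∃ a b, z = w a ∧ u 1 = g b ∧ (a = b ∧ bit b))) ∧
       ∀ z, isL z → ¬ u 0 ≤ z → (∃ a b, z = l a ∧ u 1 = g b ∧ A a b)))) ?_ ?_
  · refine (D_isC.at 0).and (DD.or ?_ (DD.and ?_ ?_))
    · exact DD.ex ((D_isL.at 0).and ((DD.le 1 0).and ((D_rel good_l hg A).at 0 2)))
    · exact DD.ex ((D_rel good_w hg (fun a b => a = b ∧ bit b)).at 0 2)
    · exact DD.all ((D_isL.at 0).imp ((DD.le 1 0).not.imp ((D_rel good_l hg A).at 0 2)))
  · intro u
    generalize u 0 = x
    generalize u 1 = e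
    constructor
    · rintro ⟨⟨y, rfl⟩, ⟨_, ⟨s, rfl⟩, h1, a, b, h2, rfl, h3⟩ | ⟨⟨_, a, b, rfl, rfl, rfl, h1⟩, h2⟩⟩
      · cases h2
        exact ⟨y, b, rfl, rfl, (key b y).2 (Or.inl ⟨s, h1, h3⟩)⟩
      · refine ⟨y, a, rfl, rfl, (key a y).2 (Or.inr ⟨h1, ?_⟩)⟩
        intro s hs
        obtain ⟨a', b', h3, h4, h5⟩ := h2 (l s) ⟨s, rfl⟩ hs
        cases h3
        rw [hinj h4]
        exact h5
    · rintro ⟨y, b, rfl, rfl, h⟩
      refine ⟨⟨y, rfl⟩, ?_⟩
      rcases (key b y).1 h with ⟨s, h1, h2⟩ | ⟨h1, h2⟩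
      · exact Or.inl ⟨l s, ⟨s, rfl⟩, h1, s, b, rfl, rfl, h2⟩
      · right
        refine ⟨⟨w b, b, b, rfl, rfl, rfl, h1⟩, ?_⟩
        rintro _ ⟨s, rfl⟩ hs
        exact ⟨s, b, rfl, rfl, h2 s hs⟩

lemma D_map {g : ℕ → P} (hg : Good g) (hinj : Function.Injective g) (f : P → P)
    (hf : Monotone f) : D2 (fun x e => ∃ b, e = g b ∧ f x ≤ g b) := by
  have h1 := D_init hg hinj (fun b y => f (c y) ≤ g b) (by
    intro b x y hxy h
    exact le_trans (hf (show c x ≤ c y from hxy)) h)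
  have h2 := D_rel good_l hg (fun a b => f (l a) ≤ g b)
  have h3 := D_rel good_t hg (fun a b => f (t a) ≤ g b)
  have h4 := D_rel good_w hg (fun a b => f (w a) ≤ g b)
  have h5 := D_rel good_v hg (fun a b => f (v a) ≤ g b)
  refine DD.congr (DD.or h1 (DD.or h2 (DD.or h3 (DD.or h4 h5)))) ?_
  intro u
  generalize u 0 = x
  generalize u 1 = e
  constructor
  · rintro (⟨y, b, rfl, rfl, h⟩ | ⟨y, b, rfl, rfl, h⟩ | ⟨y, b, rfl, rfl, h⟩ | ⟨y, b, rfl, rfl, h⟩ |
      ⟨y, b, rfl, rfl, h⟩) <;> exact ⟨b, rfl, h⟩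
  · rintro ⟨b, rfl, h⟩
    cases x with
    | c y => exact Or.inl ⟨y, b, rfl, rfl, h⟩
    | l y => exact Or.inr (Or.inl ⟨y, b, rfl, rfl, h⟩)
    | t y => exact Or.inr (Or.inr (Or.inl ⟨y, b, rfl, rfl, h⟩))
    | w y => exact Or.inr (Or.inr (Or.inr (Or.inl ⟨y, b, rfl, rfl, h⟩)))
    | v y => exact Or.inr (Or.inr (Or.inr (Or.inr ⟨y, b, rfl, rfl, h⟩)))

lemma exists_big (s : ℕ) : ∃ r, et r = top ∧ r ≠ s ∧ p1 r ≠ s ∧ p2 r ≠ s := by
  obtain ⟨r, hr, hA⟩ := exists_s (Nat.pair (s + 1) (s + 1)) (Finset.range (Nat.pair (s + 1) (s + 1)))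
  refine ⟨r, ?_, ?_, ?_, ?_⟩
  · funext n
    simp only [et, hr, hA, top, Pi.toLex_apply]
    split_ifs with h
    · simp [h]
    · rfl
  · have h1 : kk r ≤ r := Nat.unpair_left_le r
    rw [hr] at h1
    have := Nat.left_le_pair (s + 1) (s + 1)
    omega
  · simp [p1, hr]
  · simp [p2, hr]

lemma exists_p2' (a s : ℕ) : ∃ r, p2 r = a ∧ r ≠ s := by
  obtain ⟨r, hr, hA⟩ := exists_s (Nat.pair (s + 1) a) ∅
  refine ⟨r, by simp [p2, hr], ?_⟩
  have h1 : kk r ≤ r := Nat.unpair_left_le r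
  rw [hr] at h1
  have := Nat.left_le_pair (s + 1) a
  omega

/-- `l`'s and `t`'s separate points -/
lemma sep_aux (y z : P) (h : ∀ e, (isL e ∨ isT e) → (y ≤ e ↔ z ≤ e)) : y = z := by
  have hl : ∀ s, y ≤ l s ↔ z ≤ l s := fun s => h _ (Or.inl ⟨s, rfl⟩)
  have ht : ∀ s, y ≤ t s ↔ z ≤ t s := fun s => h _ (Or.inr ⟨s, rfl⟩)
  clear h
  have mixed : ∀ (p : C) (s : ℕ) (q : P), (q = l s ∨ q = t s ∨ q = w s ∨ q = v s) →
      ¬ (∀ r, c p ≤ t r ↔ q ≤ t r) := by
    intro p s q hq hcon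
    obtain ⟨r, h1, h2, h3, h4⟩ := exists_big s
    have h5 := (hcon r).1 (show p ≤ et r by rw [h1]; exact le_topC p)
    rcases hq with rfl | rfl | rfl | rfl
    · exact h2 (show s = r from h5).symm
    · exact h2 (show s = r from h5).symm
    · rcases h5 with h5 | h5
      · exact h2 h5.symm
      · exact h3 h5.symm
    · exact h4 (show s = p2 r from h5).symm
  have lw : ∀ s r : ℕ, (∀ x, l s ≤ l x ↔ w r ≤ l x) → (∀ x, l s ≤ t x ↔ w r ≤ t x) → False := by
    intro s r h1 h2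
    have h3 : r = s := (h1 s).1 rfl
    subst h3
    obtain ⟨x, hx, hx'⟩ := exists_p1 r
    have := (h2 x).2 (Or.inr hx.symm)
    exact hx' (show r = x from this).symm
  have tv : ∀ s r : ℕ, (∀ x, t s ≤ t x ↔ v r ≤ t x) → False := by
    intro s r h2
    obtain ⟨x, hx, hx'⟩ := exists_p2' r s
    have := (h2 x).2 hx.symm
    exact hx' (show s = x from this).symm
  cases y with
  | c p =>
    cases z with
    | c q =>
      rcases lt_trichotomy p q with hpq | hpq | hpq
      · obtain ⟨s, h1, h2⟩ := dens p q hpq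
        exact absurd ((hl s).1 h1) (not_le.2 h2)
      · rw [hpq]
      · obtain ⟨s, h1, h2⟩ := dens q p hpq
        exact absurd ((hl s).2 h1) (not_le.2 h2)
    | l s => exact (mixed p s _ (Or.inl rfl) ht).elim
    | t s => exact (mixed p s _ (Or.inr (Or.inl rfl)) ht).elim
    | w s => exact (mixed p s _ (Or.inr (Or.inr (Or.inl rfl))) ht).elim
    | v s => exact (mixed p s _ (Or.inr (Or.inr (Or.inr rfl))) ht).elim
  | l s =>
    cases z with
    | c q => exact (mixed q s _ (Or.inl rfl) (fun r => (ht r).symm)).elim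
    | l r => rw [show r = s from (hl s).1 rfl]
    | t r => exact ((hl s).1 rfl : P.le (t r) (l s)).elim
    | w r => exact (lw s r hl ht).elim
    | v r => exact ((hl s).1 rfl : P.le (v r) (l s)).elim
  | t s =>
    cases z with
    | c q => exact (mixed q s _ (Or.inr (Or.inl rfl)) (fun r => (ht r).symm)).elim
    | l r => exact ((hl r).2 rfl : P.le (t s) (l r)).elim
    | t r => rw [show r = s from (ht s).1 rfl]
    | w r => exact ((hl r).2 rfl : P.le (t s) (l r)).elim
    | v r => exact (tv s r ht).elim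
  | w s =>
    cases z with
    | c q => exact (mixed q s _ (Or.inr (Or.inr (Or.inl rfl))) (fun r => (ht r).symm)).elim
    | l r => exact (lw r s (fun x => (hl x).symm) (fun x => (ht x).symm)).elim
    | t r => exact ((hl s).1 rfl : P.le (t r) (l s)).elim
    | w r => rw [show r = s from (hl s).1 rfl]
    | v r => exact ((hl s).1 rfl : P.le (v r) (l s)).elim
  | v s =>
    cases z with
    | c q => exact (mixed q s _ (Or.inr (Or.inr (Or.inr rfl))) (fun r => (ht r).symm)).elim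
    | l r => exact ((hl r).2 rfl : P.le (v s) (l r)).elim
    | t r => exact (tv r s (fun x => (ht x).symm)).elim
    | w r => exact ((hl r).2 rfl : P.le (v s) (l r)).elim
    | v r =>
      obtain ⟨x, hx⟩ := exists_p2 s
      rw [show r = p2 x from (ht x).1 hx.symm, hx]

theorem D_graph (f : P → P) (hf : Monotone f) : DD (fun u : ℕ → P => f (u 0) = u 1) := by
  have hL := D_map good_l (fun a b h => by cases h; rfl) f hf
  have hT := D_map good_t (fun a b h => by cases h; rfl) f hf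
  refine DD.congr (p := fun u : ℕ → P => ∀ e,
    (isL e → (u 1 ≤ e ↔ ∃ b, e = l b ∧ f (u 0) ≤ l b)) ∧
    (isT e → (u 1 ≤ e ↔ ∃ b, e = t b ∧ f (u 0) ≤ t b))) ?_ ?_
  · refine DD.all (DD.and ((D_isL.at 0).imp ((DD.le 2 0).iff (hL.at 1 0)))
      ((D_isT.at 0).imp ((DD.le 2 0).iff (hT.at 1 0))))
  · intro u
    generalize u 0 = x
    generalize u 1 = y
    constructor
    · intro h
      symm
      apply sep_aux
      rintro _ (⟨s, rfl⟩ | ⟨s, rfl⟩)
      · rw [(h (l s)).1 ⟨s, rfl⟩]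
        constructor
        · rintro ⟨b, hb, h'⟩; cases hb; exact h'
        · intro h'; exact ⟨s, rfl, h'⟩
      · rw [(h (t s)).2 ⟨s, rfl⟩]
        constructor
        · rintro ⟨b, hb, h'⟩; cases hb; exact h'
        · intro h'; exact ⟨s, rfl, h'⟩
    · rintro rfl e
      constructor
      · rintro ⟨s, rfl⟩
        constructor
        · intro h'; exact ⟨s, rfl, h'⟩
        · rintro ⟨b, hb, h'⟩; cases hb; exact h'
      · rintro ⟨s, rfl⟩
        constructor
        · intro h'; exact ⟨s, rfl, h'⟩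
        · rintro ⟨b, hb, h'⟩; cases hb; exact h'

instance : Infinite P := Infinite.of_injective w (fun a b h => by cases h; rfl)

/-- Explicit form: a formula with finitely many parameters. -/
theorem main : ∃ (P : Type) (_ : PartialOrder P), Infinite P ∧
    ∀ f : P → P, (∀ x y, x ≤ y → f x ≤ f y) →
      ∃ (k : ℕ) (φ : Language.order.Formula (Fin 2 ⊕ Fin k)) (a : Fin k → P),
        ∀ x y : P, f x = y ↔
          @Language.Formula.Realize Language.order P (Language.orderStructure P) _ φ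
            (Sum.elim ![x, y] a) := by
  refine ⟨P, inferInstance, inferInstance, ?_⟩
  intro f hf
  have h := D_graph f hf
  have h2 : (Set.univ : Set P).Definable Language.order {v : Fin 2 → P | f (v 0) = v 1} := by
    have := Set.Definable.preimage_comp (fun n : ℕ => if n = 0 then (0 : Fin 2) else 1) h
    exact this
  rw [Set.definable_iff_finitely_definable] at h2
  obtain ⟨A0, _, h3⟩ := h2
  rw [Set.definable_iff_exists_formula_sum] at h3
  obtain ⟨φ, hφ⟩ := h3
  let e := A0.equivFin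
  let ψ : Language.order.Formula (Fin 2 ⊕ Fin A0.card) :=
    φ.relabel (Sum.elim (fun a => Sum.inr (e a)) Sum.inl)
  refine ⟨A0.card, ψ, fun i => (e.symm i : P), ?_⟩
  intro x y
  have h4 : f x = y ↔ (![x, y] : Fin 2 → P) ∈ {v : Fin 2 → P | f (v 0) = v 1} := Iff.rfl
  rw [h4, hφ]
  simp only [ψ]
  erw [Language.Formula.realize_relabel]
  have h5 : (Sum.elim (![x, y] : Fin 2 → P) (fun i => (e.symm i : P)) ∘
      (Sum.elim (fun a => Sum.inr (e a)) Sum.inl : ↥A0 ⊕ Fin 2 → Fin 2 ⊕ Fin A0.card)) =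
      Sum.elim (fun a : A0 => (a : P)) ![x, y] := by
    funext z
    rcases z with z | z
    · simp
    · simp
  rw [h5]
  rfl

end Pool.Agent.PosetDef
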