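import Mathlib

namespace Pool.Agent.Helpers.Q51

variable {G : Type} [Field G]

/-- multiplier -/
noncomputable def Ak (a S : G) (k : ℤ) : G := a * (S ^ 2) ^ (-k)

lemma Ak_add (a S : G) (hS : S ≠ 0) (k j : ℤ) : Ak a S (k + j) = Ak a S k * (S ^ 2) ^ (-j) := by
  unfold Ak
  rw [neg_add, zpow_add₀ (pow_ne_zero 2 hS), mul_assoc]

lemma Ak_ne (a S : G) (ha : a ≠ 0) (hS : S ≠ 0) (k : ℤ) : Ak a S k ≠ 0 :=
  mul_ne_zero ha (zpow_ne_zero _ (pow_ne_zero 2 hS))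

lemma Ak_succ (a S : G) (hS : S ≠ 0) (k : ℤ) : Ak a S (k + 1) = Ak a S k * (S⁻¹) ^ 2 := by
  rw [Ak_add a S hS, zpow_neg_one, inv_pow]

lemma Ak_pred (a S : G) (hS : S ≠ 0) (k : ℤ) : Ak a S (k - 1) = Ak a S k * S ^ 2 := by
  rw [sub_eq_add_neg, Ak_add a S hS, neg_neg, zpow_one]

noncomputable def Zz (a S : G) (f : ℤ → G) : ℤ → G := fun k =>
  Ak a S k * f k + f (k + 1) + (S * Ak a S k)⁻¹ * f (k - 1)

noncomputable def Gz (a S : G) (f : ℤ → G) : ℤ → G := fun k => Ak a S k * f (k + 1)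

noncomputable def Hz (a S : G) (f : ℤ → G) : ℤ → G := fun k =>
  Ak a S k ^ 2 * f (k + 1) + Ak a S k * f (k + 2)

noncomputable def kap (S : G) : G := (S - S⁻¹) ^ 2 * (1 + S⁻¹ ^ 2)
noncomputable def nu (S : G) : G := (S - S⁻¹) ^ 2 * (1 + S⁻¹ ^ 2 + S⁻¹ ^ 4)
noncomputable def bb (S : G) : G := 3 * (S ^ 3 - S - S⁻¹ + S⁻¹ ^ 3)

noncomputable def Xz (a S : G) (f : ℤ → G) : ℤ → G := fun k =>
  Zz a S (Zz a S f) k + kap S * Gz a S f k

noncomputable def Wz (a S : G) (f : ℤ → G) : ℤ → G := fun k =>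
  2 * Zz a S (Zz a S (Zz a S f)) k + 2 * nu S * Hz a S f k + bb S * f k

lemma ZZ_formula (a S : G) (ha : a ≠ 0) (hS : S ≠ 0) (f : ℤ → G) (k : ℤ) :
    Zz a S (Zz a S f) k = f (k + 2) + (1 + S⁻¹ ^ 2) * Ak a S k * f (k + 1)
      + (Ak a S k ^ 2 + (S + S⁻¹) * (Ak a S k)⁻¹) * f k + (S + S⁻¹) * f (k - 1)
      + S⁻¹ ^ 4 * (Ak a S k)⁻¹ ^ 2 * f (k - 2) := by
  have e1 : k + 1 + 1 = k + 2 := by ring
  have e2 : k + 1 - 1 = k := by ring
  have e3 : k - 1 + 1 = k := by ring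
  have e4 : k - 1 - 1 = k - 2 := by ring
  have hA := Ak_ne a S ha hS k
  simp only [Zz, Ak_succ a S hS, Ak_pred a S hS, e1, e2, e3, e4]
  generalize Ak a S k = A at *
  generalize f (k + 2) = f2
  generalize f (k + 1) = f1
  generalize f (k - 1) = g1
  generalize f (k - 2) = g2
  generalize f k = f0
  field_simp
  ring

lemma X_formula (a S : G) (ha : a ≠ 0) (hS : S ≠ 0) (f : ℤ → G) (k : ℤ) :
    Xz a S f k = f (k + 2) + (S ^ 2 + S⁻¹ ^ 4) * Ak a S k * f (k + 1)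
      + (Ak a S k ^ 2 + (S + S⁻¹) * (Ak a S k)⁻¹) * f k + (S + S⁻¹) * f (k - 1)
      + S⁻¹ ^ 4 * (Ak a S k)⁻¹ ^ 2 * f (k - 2) := by
  have hA := Ak_ne a S ha hS k
  simp only [Xz, ZZ_formula a S ha hS, Gz, kap]
  generalize Ak a S k = A at *
  generalize f (k + 2) = f2
  generalize f (k + 1) = f1
  generalize f (k - 1) = g1
  generalize f (k - 2) = g2
  generalize f k = f0
  field_simp
  ring

lemma W_formula (a S : G) (ha : a ≠ 0) (hS : S ≠ 0) (f : ℤ → G) (k : ℤ) :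
    Wz a S f k = 2 * f (k + 3) + 2 * (S ^ 2 + S⁻¹ ^ 2 + S⁻¹ ^ 6) * Ak a S k * f (k + 2)
      + 2 * ((S ^ 2 + S⁻¹ ^ 2 + S⁻¹ ^ 6) * Ak a S k ^ 2 + (S ^ 3 + S + S⁻¹) * (Ak a S k)⁻¹)
          * f (k + 1)
      + (2 * Ak a S k ^ 3 + 6 * (S + S⁻¹) + bb S) * f k
      + 2 * ((S ^ 3 + S + S⁻¹) * Ak a S k + (1 + S⁻¹ ^ 2 + S⁻¹ ^ 4) * (Ak a S k)⁻¹ ^ 2)
          * f (k - 1)
      + 2 * (1 + S⁻¹ ^ 2 + S⁻¹ ^ 4) * (Ak a S k)⁻¹ * f (k - 2)
      + 2 * S⁻¹ ^ 9 * (Ak a S k)⁻¹ ^ 3 * f (k - 3) := by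
  have e1 : k + 1 + 2 = k + 3 := by ring
  have e2 : k + 1 + 1 = k + 2 := by ring
  have e3 : k + 1 - 1 = k := by ring
  have e4 : k + 1 - 2 = k - 1 := by ring
  have e5 : k - 1 + 2 = k + 1 := by ring
  have e6 : k - 1 + 1 = k := by ring
  have e7 : k - 1 - 1 = k - 2 := by ring
  have e8 : k - 1 - 2 = k - 3 := by ring
  have hA := Ak_ne a S ha hS k
  have hZ : Zz a S (Zz a S (Zz a S f)) k = Ak a S k * (Zz a S (Zz a S f)) k
      + (Zz a S (Zz a S f)) (k + 1) + (S * Ak a S k)⁻¹ * (Zz a S (Zz a S f)) (k - 1) := by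
    rfl
  have hZ' : Zz a S (Zz a S (Zz a S f)) k = Zz a S (fun j => Zz a S (Zz a S f) j) k := rfl
  unfold Wz
  rw [hZ]
  simp only [ZZ_formula a S ha hS, Hz, nu, Ak_succ a S hS, Ak_pred a S hS,
    e1, e2, e3, e4, e5, e6, e7, e8]
  generalize Ak a S k = A at *
  generalize f (k + 3) = f3
  generalize f (k + 2) = f2
  generalize f (k + 1) = f1
  generalize f (k - 1) = g1
  generalize f (k - 2) = g2
  generalize f (k - 3) = g3
  generalize f k = f0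
  generalize bb S = b
  field_simp
  ring

lemma Ak_vals (a S : G) (hS : S ≠ 0) :
    Ak a S 0 = a ∧ Ak a S 1 = a * S⁻¹ ^ 2 ∧ Ak a S 2 = a * S⁻¹ ^ 4 ∧ Ak a S 3 = a * S⁻¹ ^ 6 ∧
    Ak a S 4 = a * S⁻¹ ^ 8 ∧
    Ak a S (-1) = a * S ^ 2 ∧ Ak a S (-2) = a * S ^ 4 ∧ Ak a S (-3) = a * S ^ 6 ∧
    Ak a S (-4) = a * S ^ 8 := by
  have h0 : Ak a S 0 = a := by simp [Ak]
  have h1 := Ak_succ a S hS 0
  have h2 := Ak_succ a S hS 1
  have h3 := Ak_succ a S hS 2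
  have h4 := Ak_succ a S hS 3
  have m1 := Ak_pred a S hS 0
  have m2 := Ak_pred a S hS (-1)
  have m3 := Ak_pred a S hS (-2)
  have m4 := Ak_pred a S hS (-3)
  norm_num at h1 h2 h3 h4 m1 m2 m3 m4
  rw [h0] at h1 m1
  rw [h1] at h2
  rw [h2] at h3
  rw [h3] at h4
  rw [m1] at m2
  rw [m2] at m3
  rw [m3] at m4
  refine ⟨h0, ?_, ?_, ?_, ?_, ?_, ?_, ?_, ?_⟩
  · rw [h1]; field_simp
  · rw [h2]; field_simp
  · rw [h3]; field_simp
  · rw [h4]; field_simp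
  · rw [m1]
  · rw [m2]; ring
  · rw [m3]; ring
  · rw [m4]; ring

theorem comm0 (a S : G) (ha : a ≠ 0) (hS : S ≠ 0) (f : ℤ → G) :
    Xz a S (Wz a S f) 0 = Wz a S (Xz a S f) 0 := by
  obtain ⟨v0, v1, v2, v3, v4, w1, w2, w3, w4⟩ := Ak_vals a S hS
  rw [X_formula a S ha hS, W_formula a S ha hS]
  simp only [X_formula a S ha hS, W_formula a S ha hS]
  simp only [Int.reduceAdd, Int.reduceSub, Int.reduceNeg, v0, v1, v2, v3, w1, w2, w3]
  generalize bb S = b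
  generalize f 5 = f5
  generalize f 4 = f4
  generalize f 3 = f3
  generalize f 2 = f2
  generalize f 1 = f1
  generalize f 0 = f0
  generalize f (-1) = g1
  generalize f (-2) = g2
  generalize f (-3) = g3
  generalize f (-4) = g4
  generalize f (-5) = g5
  field_simp
  ring

theorem curve0 (a S : G) (ha : a ≠ 0) (hS : S ≠ 0) (f : ℤ → G) :
    Wz a S (Wz a S f) 0 = 4 * Xz a S (Xz a S (Xz a S f)) 0 + (S - S⁻¹) ^ 6 * f 0 := by
  obtain ⟨v0, v1, v2, v3, v4, w1, w2, w3, w4⟩ := Ak_vals a S hS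
  rw [X_formula a S ha hS, W_formula a S ha hS]
  simp only [X_formula a S ha hS, W_formula a S ha hS]
  simp only [Int.reduceAdd, Int.reduceSub, Int.reduceNeg, v0, v1, v2, v3, v4, w1, w2, w3, w4,
    bb]
  generalize f 6 = f6
  generalize f 5 = f5
  generalize f 4 = f4
  generalize f 3 = f3
  generalize f 2 = f2
  generalize f 1 = f1
  generalize f 0 = f0
  generalize f (-1) = g1
  generalize f (-2) = g2
  generalize f (-3) = g3
  generalize f (-4) = g4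
  generalize f (-5) = g5
  generalize f (-6) = g6
  field_simp
  ring

end Pool.Agent.Helpers.Q51
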