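import Mathlib
import Pool.Agent.Helpers.Q51Ops

namespace Pool.Agent.Helpers.Q51

abbrev PP : Type := MvPolynomial (Fin 2) ℂ
abbrev FF : Type := FractionRing PP
abbrev FA : Type := FreeAlgebra FF (Fin 2)

def rel (n : ℕ) (ζ : ℂ) : FA → FA → Prop := fun a b =>
  (a = FreeAlgebra.ι FF (0 : Fin 2) ^ n ∧
    b = algebraMap FF FA (algebraMap PP FF (MvPolynomial.X (0 : Fin 2)))) ∨
  (a = FreeAlgebra.ι FF (1 : Fin 2) ^ n ∧
    b = algebraMap FF FA (algebraMap PP FF (MvPolynomial.X (1 : Fin 2)))) ∨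
  (a = FreeAlgebra.ι FF (0 : Fin 2) * FreeAlgebra.ι FF (1 : Fin 2) ∧
    b = algebraMap ℂ FA ζ * (FreeAlgebra.ι FF (1 : Fin 2) * FreeAlgebra.ι FF (0 : Fin 2)))

abbrev AA (n : ℕ) (ζ : ℂ) : Type := RingQuot (rel n ζ)

noncomputable def UU : FF := algebraMap PP FF (MvPolynomial.X 0)
noncomputable def VV : FF := algebraMap PP FF (MvPolynomial.X 1)

lemma UU_ne : UU ≠ 0 := by
  intro h
  exact MvPolynomial.X_ne_zero (R := ℂ) (0 : Fin 2)
    (IsFractionRing.injective PP FF (by rw [map_zero]; exact h))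

lemma VV_ne : VV ≠ 0 := by
  intro h
  exact MvPolynomial.X_ne_zero (R := ℂ) (1 : Fin 2)
    (IsFractionRing.injective PP FF (by rw [map_zero]; exact h))

noncomputable def zz (c : ℂ) : FF := algebraMap ℂ FF c

noncomputable def xx (n : ℕ) (ζ : ℂ) : AA n ζ :=
  RingQuot.mkAlgHom FF (rel n ζ) (FreeAlgebra.ι FF (0 : Fin 2))
noncomputable def yy (n : ℕ) (ζ : ℂ) : AA n ζ :=
  RingQuot.mkAlgHom FF (rel n ζ) (FreeAlgebra.ι FF (1 : Fin 2))

lemma xx_pow (n : ℕ) (ζ : ℂ) : xx n ζ ^ n = algebraMap FF (AA n ζ) UU := by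
  have h : rel n ζ (FreeAlgebra.ι FF (0 : Fin 2) ^ n) (algebraMap FF FA UU) := Or.inl ⟨rfl, rfl⟩
  have h2 := RingQuot.mkAlgHom_rel FF h
  rw [map_pow, AlgHom.commutes] at h2
  exact h2

lemma yy_pow (n : ℕ) (ζ : ℂ) : yy n ζ ^ n = algebraMap FF (AA n ζ) VV := by
  have h : rel n ζ (FreeAlgebra.ι FF (1 : Fin 2) ^ n) (algebraMap FF FA VV) :=
    Or.inr (Or.inl ⟨rfl, rfl⟩)
  have h2 := RingQuot.mkAlgHom_rel FF h
  rw [map_pow, AlgHom.commutes] at h2
  exact h2

lemma xx_yy (n : ℕ) (ζ : ℂ) : xx n ζ * yy n ζ = zz ζ • (yy n ζ * xx n ζ) := by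
  have h : rel n ζ (FreeAlgebra.ι FF (0 : Fin 2) * FreeAlgebra.ι FF (1 : Fin 2))
    (algebraMap ℂ FA ζ * (FreeAlgebra.ι FF (1 : Fin 2) * FreeAlgebra.ι FF (0 : Fin 2))) :=
    Or.inr (Or.inr ⟨rfl, rfl⟩)
  have h2 := RingQuot.mkAlgHom_rel FF h
  rw [IsScalarTower.algebraMap_apply ℂ FF FA, map_mul, map_mul, map_mul, AlgHom.commutes,
    ← Algebra.smul_def] at h2
  exact h2

/-! ### Spanning -/

lemma yy_xx (n : ℕ) (ζ : ℂ) (hζ : ζ ≠ 0) :
    yy n ζ * xx n ζ = (zz ζ)⁻¹ • (xx n ζ * yy n ζ) := by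
  have hz : zz ζ ≠ 0 := by
    unfold zz; rwa [Ne, FaithfulSMul.algebraMap_eq_zero_iff]
  rw [xx_yy, smul_smul, inv_mul_cancel₀ hz, one_smul]

lemma yy_xx_pow (n : ℕ) (ζ : ℂ) (hζ : ζ ≠ 0) (i : ℕ) :
    yy n ζ * xx n ζ ^ i = ((zz ζ)⁻¹ ^ i) • (xx n ζ ^ i * yy n ζ) := by
  induction i with
  | zero => simp
  | succ i ih =>
    rw [pow_succ, ← mul_assoc, ih, smul_mul_assoc, mul_assoc, yy_xx n ζ hζ, mul_smul_comm,
      smul_smul, ← pow_succ, mul_assoc]

noncomputable def SS (n : ℕ) (ζ : ℂ) : Submodule FF (AA n ζ) :=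
  Submodule.span FF (Set.range fun p : ℕ × ℕ => xx n ζ ^ p.1 * yy n ζ ^ p.2)

lemma SS_xx (n : ℕ) (ζ : ℂ) (s : AA n ζ) (hs : s ∈ SS n ζ) : xx n ζ * s ∈ SS n ζ := by
  unfold SS at hs ⊢
  induction hs using Submodule.span_induction with
  | mem z hz =>
    obtain ⟨p, rfl⟩ := hz
    apply Submodule.subset_span
    refine ⟨(p.1 + 1, p.2), ?_⟩
    simp only [pow_succ', mul_assoc]
  | zero => rw [mul_zero]; exact Submodule.zero_mem _
  | add a b _ _ ha hb => rw [mul_add]; exact Submodule.add_mem _ ha hb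
  | smul c a _ ha => rw [mul_smul_comm]; exact Submodule.smul_mem _ _ ha

lemma SS_yy (n : ℕ) (ζ : ℂ) (hζ : ζ ≠ 0) (s : AA n ζ) (hs : s ∈ SS n ζ) :
    yy n ζ * s ∈ SS n ζ := by
  unfold SS at hs ⊢
  induction hs using Submodule.span_induction with
  | mem z hz =>
    obtain ⟨p, rfl⟩ := hz
    simp only
    rw [← mul_assoc, yy_xx_pow n ζ hζ, smul_mul_assoc, mul_assoc, ← pow_succ']
    apply Submodule.smul_mem
    apply Submodule.subset_span
    exact ⟨(p.1, p.2 + 1), rfl⟩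
  | zero => rw [mul_zero]; exact Submodule.zero_mem _
  | add a b _ _ ha hb => rw [mul_add]; exact Submodule.add_mem _ ha hb
  | smul c a _ ha => rw [mul_smul_comm]; exact Submodule.smul_mem _ _ ha

lemma SS_mul (n : ℕ) (ζ : ℂ) (hζ : ζ ≠ 0) (w : FA) :
    ∀ s ∈ SS n ζ, RingQuot.mkAlgHom FF (rel n ζ) w * s ∈ SS n ζ := by
  induction w using FreeAlgebra.induction with
  | grade0 r =>
    intro s hs
    rw [AlgHom.commutes, ← Algebra.smul_def]
    exact Submodule.smul_mem _ _ hs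
  | grade1 i =>
    intro s hs
    fin_cases i
    · exact SS_xx n ζ s hs
    · exact SS_yy n ζ hζ s hs
  | mul a b ha hb =>
    intro s hs
    rw [map_mul, mul_assoc]
    exact ha _ (hb _ hs)
  | add a b ha hb =>
    intro s hs
    rw [map_add, add_mul]
    exact Submodule.add_mem _ (ha _ hs) (hb _ hs)

lemma SS_top (n : ℕ) (ζ : ℂ) (hζ : ζ ≠ 0) : SS n ζ = ⊤ := by
  rw [eq_top_iff]
  intro z _
  obtain ⟨w, rfl⟩ := RingQuot.mkAlgHom_surjective FF (rel n ζ) z
  have h1 : (1 : AA n ζ) ∈ SS n ζ := by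
    apply Submodule.subset_span
    exact ⟨(0, 0), by simp⟩
  have := SS_mul n ζ hζ w 1 h1
  rwa [mul_one] at this

lemma span_fin (n : ℕ) (hn : 0 < n) (ζ : ℂ) (hζ : ζ ≠ 0) :
    Submodule.span FF (Set.range fun p : Fin n × Fin n =>
      xx n ζ ^ (p.1 : ℕ) * yy n ζ ^ (p.2 : ℕ)) = ⊤ := by
  rw [eq_top_iff, ← SS_top n ζ hζ]
  unfold SS
  rw [Submodule.span_le]
  rintro _ ⟨⟨i, j⟩, rfl⟩
  have hi : xx n ζ ^ i = algebraMap FF (AA n ζ) (UU ^ (i / n)) * xx n ζ ^ (i % n) := by
    conv_lhs => rw [← Nat.div_add_mod i n]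
    rw [pow_add, pow_mul, xx_pow, map_pow]
  have hj : yy n ζ ^ j = algebraMap FF (AA n ζ) (VV ^ (j / n)) * yy n ζ ^ (j % n) := by
    conv_lhs => rw [← Nat.div_add_mod j n]
    rw [pow_add, pow_mul, yy_pow, map_pow]
  simp only
  rw [hi, hj, ← Algebra.smul_def, ← Algebra.smul_def, smul_mul_assoc, mul_smul_comm]
  apply Submodule.smul_mem
  apply Submodule.smul_mem
  apply Submodule.subset_span
  exact ⟨(⟨i % n, Nat.mod_lt _ hn⟩, ⟨j % n, Nat.mod_lt _ hn⟩), rfl⟩

/-! ### The representation -/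

variable {G : Type} [Field G] [Algebra FF G] {n : ℕ} [NeZero n]

noncomputable def Xo (a : ZMod n → G) : Module.End G (ZMod n → G) where
  toFun f := fun r => a r * f r
  map_add' f g := by funext r; simp only [Pi.add_apply]; ring
  map_smul' c f := by funext r; simp only [Pi.smul_apply, smul_eq_mul, RingHom.id_apply]; ring

noncomputable def Yo (β : G) : Module.End G (ZMod n → G) where
  toFun f := fun r => β * f (r + 1)
  map_add' f g := by funext r; simp only [Pi.add_apply]; ring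
  map_smul' c f := by funext r; simp only [Pi.smul_apply, smul_eq_mul, RingHom.id_apply]; ring

lemma Xo_apply (a : ZMod n → G) (f : ZMod n → G) (r : ZMod n) : Xo a f r = a r * f r := rfl
lemma Yo_apply (β : G) (f : ZMod n → G) (r : ZMod n) : Yo β f r = β * f (r + 1) := rfl

lemma Xo_pow (a : ZMod n → G) (i : ℕ) (f : ZMod n → G) (r : ZMod n) :
    (Xo a ^ i) f r = a r ^ i * f r := by
  induction i generalizing f with
  | zero => simp
  | succ i ih => rw [pow_succ, Module.End.mul_apply, ih, Xo_apply]; ring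

lemma Yo_pow (β : G) (i : ℕ) (f : ZMod n → G) (r : ZMod n) :
    (Yo β ^ i) f r = β ^ i * f (r + i) := by
  induction i generalizing f with
  | zero => simp
  | succ i ih =>
    rw [pow_succ, Module.End.mul_apply, ih, Yo_apply]
    push_cast
    rw [add_assoc]; ring

lemma algMap_apply (u : FF) (f : ZMod n → G) (r : ZMod n) :
    (algebraMap FF (Module.End G (ZMod n → G)) u) f r = algebraMap FF G u * f r := by
  rw [Module.algebraMap_end_apply, Pi.smul_apply, Algebra.smul_def]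

/-- data of a representation -/
structure Dat (G : Type) [Field G] [Algebra FF G] (n : ℕ) [NeZero n] (ζ : ℂ) where
  a : ZMod n → G
  β : G
  ha : ∀ r, a r ^ n = algebraMap FF G UU
  hb : β ^ n = algebraMap FF G VV
  hab : ∀ r, a r = algebraMap FF G (zz ζ) * a (r + 1)
  inj : Function.Injective a

variable {ζ : ℂ}

noncomputable def rho (D : Dat G n ζ) : AA n ζ →ₐ[FF] Module.End G (ZMod n → G) :=
  RingQuot.liftAlgHom FF ⟨FreeAlgebra.lift FF ![Xo D.a, Yo D.β], by
    rintro p q (⟨rfl, rfl⟩ | ⟨rfl, rfl⟩ | ⟨rfl, rfl⟩)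
    · rw [map_pow, FreeAlgebra.lift_ι_apply, AlgHom.commutes]
      refine LinearMap.ext fun f => ?_
      funext r
      rw [algMap_apply]
      show (Xo D.a ^ n) f r = _
      rw [Xo_pow, D.ha]; rfl
    · rw [map_pow, FreeAlgebra.lift_ι_apply, AlgHom.commutes]
      refine LinearMap.ext fun f => ?_
      funext r
      rw [algMap_apply]
      show (Yo D.β ^ n) f r = _
      rw [Yo_pow, D.hb]
      simp only [CharP.cast_eq_zero, add_zero]; rfl
    · rw [IsScalarTower.algebraMap_apply ℂ FF FA, map_mul, map_mul, map_mul, AlgHom.commutes,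
        FreeAlgebra.lift_ι_apply, FreeAlgebra.lift_ι_apply]
      refine LinearMap.ext fun f => ?_
      funext r
      show Xo D.a (Yo D.β f) r = (algebraMap FF (Module.End G (ZMod n → G)) (zz ζ))
        (Yo D.β (Xo D.a f)) r
      rw [algMap_apply, Xo_apply, Yo_apply, Yo_apply, Xo_apply, D.hab r]
      ring⟩

lemma rho_xx (D : Dat G n ζ) : rho D (xx n ζ) = Xo D.a := by
  unfold rho xx
  rw [RingQuot.liftAlgHom_mkAlgHom_apply, FreeAlgebra.lift_ι_apply]; rfl

lemma rho_yy (D : Dat G n ζ) : rho D (yy n ζ) = Yo D.β := by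
  unfold rho yy
  rw [RingQuot.liftAlgHom_mkAlgHom_apply, FreeAlgebra.lift_ι_apply]; rfl

lemma beta_ne (D : Dat G n ζ) : D.β ≠ 0 := by
  intro h
  have h1 := D.hb
  rw [h, zero_pow (NeZero.ne n)] at h1
  exact VV_ne ((FaithfulSMul.algebraMap_eq_zero_iff FF G).mp h1.symm)

lemma a_ne (D : Dat G n ζ) (r : ZMod n) : D.a r ≠ 0 := by
  intro h
  have h1 := D.ha r
  rw [h, zero_pow (NeZero.ne n)] at h1
  exact UU_ne ((FaithfulSMul.algebraMap_eq_zero_iff FF G).mp h1.symm)

theorem rho_inj (D : Dat G n ζ) (hζ : ζ ≠ 0) : Function.Injective (rho D) := by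
  rw [injective_iff_map_eq_zero]
  intro z hz
  have hmem : z ∈ Submodule.span FF (Set.range fun p : Fin n × Fin n =>
      xx n ζ ^ (p.1 : ℕ) * yy n ζ ^ (p.2 : ℕ)) := by
    rw [span_fin n (NeZero.pos n) ζ hζ]; trivial
  rw [Submodule.mem_span_range_iff_exists_fun] at hmem
  obtain ⟨c, hc⟩ := hmem
  have key : ∀ (r s : ZMod n), ∑ p : Fin n × Fin n, algebraMap FF G (c p) *
      (D.a r ^ (p.1 : ℕ) * (D.β ^ (p.2 : ℕ) *
        (Pi.single s (1:G) : ZMod n → G) (r + ((p.2 : ℕ) : ZMod n)))) = 0 := by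
    intro r s
    have h1 : (rho D z) (Pi.single s 1) r = 0 := by rw [hz]; rfl
    rw [← hc, map_sum, LinearMap.sum_apply, Finset.sum_apply] at h1
    rw [← h1]
    refine Finset.sum_congr rfl fun p _ => ?_
    rw [map_smul, map_mul, map_pow, map_pow, rho_xx, rho_yy, LinearMap.smul_apply, Pi.smul_apply,
      Algebra.smul_def, Module.End.mul_apply, Xo_pow, Yo_pow]
  have hcz : ∀ i j, c (i, j) = 0 := by
    intro i0 j0
    have h2 : ∀ r, ∑ i : Fin n, algebraMap FF G (c (i, j0)) * D.a r ^ (i : ℕ) = 0 := by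
      intro r
      have h3 := key r (r + ((j0 : ℕ) : ZMod n))
      rw [Fintype.sum_prod_type] at h3
      have h4 : ∀ i : Fin n, ∑ j : Fin n, algebraMap FF G (c (i, j)) *
          (D.a r ^ (i : ℕ) * (D.β ^ (j : ℕ) *
            (Pi.single (r + ((j0 : ℕ) : ZMod n)) (1:G) : ZMod n → G) (r + ((j : ℕ) : ZMod n))))
          = D.β ^ (j0 : ℕ) * (algebraMap FF G (c (i, j0)) * D.a r ^ (i : ℕ)) := by
        intro i
        rw [Finset.sum_eq_single j0]
        · rw [Pi.single_eq_same]; ring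
        · intro j _ hj
          rw [Pi.single_eq_of_ne, mul_zero, mul_zero, mul_zero]
          intro h5
          apply hj
          have h6 := add_left_cancel h5
          have h7 := congrArg ZMod.val h6
          rw [ZMod.val_natCast_of_lt j.2, ZMod.val_natCast_of_lt j0.2] at h7
          exact Fin.ext h7
        · intro h; exact absurd (Finset.mem_univ _) h
      simp only at h3
      rw [Finset.sum_congr rfl (fun i _ => h4 i), ← Finset.mul_sum] at h3
      rcases mul_eq_zero.mp h3 with h5 | h5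
      · exact absurd h5 (pow_ne_zero _ (beta_ne D))
      · exact h5
    let q : Polynomial G := ∑ i : Fin n, Polynomial.monomial (i : ℕ) (algebraMap FF G (c (i, j0)))
    have hq : q = 0 := by
      apply Polynomial.eq_zero_of_natDegree_lt_card_of_eval_eq_zero q D.inj
      · intro r
        show Polynomial.eval (D.a r) (∑ i : Fin n, _) = 0
        rw [Polynomial.eval_finsetSum]
        simp only [Polynomial.eval_monomial]
        exact h2 r
      · rw [ZMod.card]
        refine lt_of_le_of_lt (Polynomial.natDegree_sum_le_of_forall_le (n := n - 1) _ _ ?_) ?_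
        · intro i _
          exact (Polynomial.natDegree_monomial_le _).trans (by have := i.2; omega)
        · have := NeZero.pos n; omega
    have h8 := congrArg (fun p : Polynomial G => p.coeff (i0 : ℕ)) hq
    simp only [q, Polynomial.finsetSum_coeff, Polynomial.coeff_zero] at h8
    rw [Finset.sum_eq_single i0] at h8
    · rw [Polynomial.coeff_monomial, if_pos rfl] at h8
      exact (FaithfulSMul.algebraMap_eq_zero_iff FF G).mp h8
    · intro i _ hi
      rw [Polynomial.coeff_monomial, if_neg]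
      intro h9; exact hi (Fin.ext h9)
    · intro h; exact absurd (Finset.mem_univ _) h
  rw [← hc]
  exact Finset.sum_eq_zero fun p _ => by rw [hcz p.1 p.2, zero_smul]

end Pool.Agent.Helpers.Q51
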