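import Mathlib

open Polynomial

namespace Pool.Agent.Helpers.Q51

abbrev RF : Type := RatFunc ℂ

lemma no_param (c : ℂ) (hc : c ≠ 0) (p w : RF) (h : w ^ 2 = 4 * p ^ 3 + RatFunc.C c) :
    ∃ l : ℂ, p = RatFunc.C l := by
  set P := p.num with hP
  set Q := p.denom with hQ
  have hQ0 : Q ≠ 0 := p.denom_ne_zero
  have hcop : IsCoprime P Q := p.isCoprime_num_denom
  have haQ : (algebraMap ℂ[X] RF Q) ≠ 0 := by
    intro h0
    exact hQ0 ((IsFractionRing.injective ℂ[X] RF) (by rw [h0, map_zero]))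
  have hpq : p * algebraMap ℂ[X] RF Q = algebraMap ℂ[X] RF P := by
    have := RatFunc.num_div_denom p
    rw [← hP, ← hQ] at this
    rw [← this]
    exact div_mul_cancel₀ _ haQ
  have hCc : (RatFunc.C c : RF) = algebraMap ℂ[X] RF (C c) := (RatFunc.algebraMap_C c).symm
  have h2 : (w * (algebraMap ℂ[X] RF Q) ^ 2) ^ 2
      = algebraMap ℂ[X] RF (Q * (C 4 * P ^ 3 + Q * (C c * Q ^ 2))) := by
    simp only [map_mul, map_add, map_pow, ← hpq]
    rw [← hCc]
    have h4 : algebraMap ℂ[X] RF (C 4) = 4 := by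
      rw [RatFunc.algebraMap_C]; exact map_ofNat _ 4
    rw [h4]
    linear_combination (algebraMap ℂ[X] RF Q) ^ 4 * h
  obtain ⟨R, hR⟩ : ∃ R : ℂ[X], algebraMap ℂ[X] RF R = w * (algebraMap ℂ[X] RF Q) ^ 2 := by
    apply IsIntegrallyClosed.exists_algebraMap_eq_of_isIntegral_pow (n := 2) (by norm_num)
    rw [h2]
    exact isIntegral_algebraMap
  have hRR : Q * (C 4 * P ^ 3 + Q * (C c * Q ^ 2)) = R ^ 2 := by
    apply IsFractionRing.injective ℂ[X] RF
    rw [← h2, ← hR, map_pow]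
  have hu4 : IsUnit (C (4:ℂ)) := isUnit_C.mpr (by norm_num)
  have hcop1 : IsCoprime (C 4 * P ^ 3) Q :=
    (isCoprime_mul_unit_left_left hu4 _ _).mpr (hcop.pow_left)
  have hcop2 : IsCoprime (C 4 * P ^ 3 + Q * (C c * Q ^ 2)) Q := hcop1.add_mul_left_left _
  obtain ⟨d, u, hu⟩ := exists_associated_pow_of_mul_eq_pow' hcop2.symm hRR
  obtain ⟨b, v, hv⟩ := exists_associated_pow_of_mul_eq_pow' hcop2 (by rw [mul_comm]; exact hRR)
  obtain ⟨u1, hu1, hu1'⟩ := Polynomial.isUnit_iff.mp u.isUnit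
  obtain ⟨v1, hv1, hv1'⟩ := Polynomial.isUnit_iff.mp v.isUnit
  rw [← hu1'] at hu
  rw [← hv1'] at hv
  have hu10 : u1 ≠ 0 := hu1.ne_zero
  have hv10 : v1 ≠ 0 := hv1.ne_zero
  have hd0 : d ≠ 0 := by
    rintro rfl
    apply hQ0
    rw [← hu]; simp
  by_cases hP0 : P = 0
  · refine ⟨0, ?_⟩
    have : p * algebraMap ℂ[X] RF Q = 0 := by rw [hpq, hP0, map_zero]
    rcases mul_eq_zero.mp this with h0 | h0
    · rw [h0]; simp
    · exact absurd h0 haQ
  have key : P.natDegree = 0 ∧ Q.natDegree = 0 := by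
    by_cases hb : b = 0
    · rw [hb] at hv
      have h5 : C 4 * P ^ 3 + Q * (C c * Q ^ 2) = 0 := by rw [← hv]; simp
      have h6 : IsUnit Q := by
        rw [h5] at hcop2
        exact isCoprime_zero_left.mp hcop2
      have hQd : Q.natDegree = 0 := natDegree_eq_zero_of_isUnit h6
      refine ⟨?_, hQd⟩
      have h7 : C 4 * P ^ 3 = -(C c * Q ^ 3) := by linear_combination h5
      have h8 := congrArg natDegree h7
      rw [natDegree_neg, natDegree_C_mul (by norm_num), natDegree_C_mul hc, natDegree_pow,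
        natDegree_pow, hQd] at h8
      omega
    · have hcopd : IsCoprime P d := by
        apply IsCoprime.of_isCoprime_of_dvd_right hcop
        rw [← hu]
        exact Dvd.dvd.mul_right (dvd_pow_self d (by norm_num)) _
      have heq : C 4 * P ^ 3 + C (c * u1 ^ 3) * d ^ 6 + C (-v1) * b ^ 2 = 0 := by
        rw [C_mul, C_pow, C_neg]
        have e1 : Q = d ^ 2 * C u1 := hu.symm
        have e2 : b ^ 2 * C v1 = C 4 * P ^ 3 + Q * (C c * Q ^ 2) := hv
        rw [e1] at e2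
        linear_combination -e2
      have := Polynomial.flt_catalan (p := 3) (q := 6) (r := 2) (by norm_num) (by norm_num)
        (by norm_num) (by norm_num) (by norm_num) (by norm_num) (by norm_num) hP0 hd0 hb hcopd
        (by norm_num) (mul_ne_zero hc (pow_ne_zero _ hu10)) (neg_ne_zero.mpr hv10) heq
      refine ⟨this.1, ?_⟩
      rw [← hu, natDegree_mul_C hu10, natDegree_pow, this.2.1]
  obtain ⟨kp, kq⟩ := key
  rw [natDegree_eq_zero] at kp kq
  obtain ⟨x, hx⟩ := kp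
  obtain ⟨y, hy⟩ := kq
  refine ⟨x / y, ?_⟩
  have hy0 : (RatFunc.C y : RF) ≠ 0 := by
    rw [← RatFunc.algebraMap_C, hy]; exact haQ
  rw [map_div₀, eq_div_iff hy0, ← RatFunc.algebraMap_C, ← RatFunc.algebraMap_C, hx, hy, hpq]

lemma ratX_ne_C (l : ℂ) : (RatFunc.X : RF) ≠ RatFunc.C l := by
  intro h
  rw [← RatFunc.algebraMap_X, ← RatFunc.algebraMap_C] at h
  have := IsFractionRing.injective ℂ[X] RF h
  exact Polynomial.X_ne_C l this

/-- the polynomial defining the curve -/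
noncomputable def ff (c : ℂ) : RF[X] := X ^ 2 - C (4 * RatFunc.X ^ 3 + RatFunc.C c)

lemma ff_irred (c : ℂ) (hc : c ≠ 0) : Irreducible (ff c) := by
  apply X_pow_sub_C_irreducible_of_prime Nat.prime_two
  intro b hb
  obtain ⟨l, hl⟩ := no_param c hc RatFunc.X b hb
  exact ratX_ne_C l hl

lemma isUnit_aeval {B : Type} [CommRing B] [Algebra ℂ B] (x : B)
    (hx : ∀ l : ℂ, IsUnit (x - algebraMap ℂ B l)) (q : ℂ[X]) (hq : q ≠ 0) :
    IsUnit (aeval x q) := by
  have hs := (IsAlgClosed.splits q).eq_prod_roots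
  rw [hs, map_mul, aeval_C, map_multiset_prod, Multiset.map_map]
  refine IsUnit.mul ?_ ?_
  · exact (IsUnit.mk0 _ (leadingCoeff_ne_zero.mpr hq)).map (algebraMap ℂ B)
  · apply Multiset.prod_induction IsUnit
    · intro a b ha hb; exact ha.mul hb
    · exact isUnit_one
    · intro a ha
      rw [Multiset.mem_map] at ha
      obtain ⟨r, -, rfl⟩ := ha
      simp only [Function.comp_apply, map_sub, aeval_X, aeval_C]
      exact hx r

theorem exists_curve (c : ℂ) (hc : c ≠ 0) :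
    ∃ (K : Type) (_ : Field K) (_ : Algebra ℂ K),
      (∃ t : K, IsTranscendenceBasis ℂ (fun _ : Fin 1 => t)) ∧
      ¬ Nonempty (K ≃ₐ[ℂ] RatFunc ℂ) ∧
      ∀ (B : Type) [CommRing B] [Algebra ℂ B] (x y : B),
        (∀ l : ℂ, IsUnit (x - algebraMap ℂ B l)) →
        y ^ 2 = 4 * x ^ 3 + algebraMap ℂ B c → Nonempty (K →ₐ[ℂ] B) := by
  have hirr : Fact (Irreducible (ff c)) := ⟨ff_irred c hc⟩
  refine ⟨AdjoinRoot (ff c), inferInstance, inferInstance, ?_, ?_, ?_⟩
  · refine ⟨algebraMap RF (AdjoinRoot (ff c)) RatFunc.X, ?_⟩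
    have h1 : IsTranscendenceBasis ℂ (fun _ : Fin 1 => (X : ℂ[X])) :=
      IsTranscendenceBasis.polynomial (Fin 1) ℂ
    have h2 : IsTranscendenceBasis ℂ (fun _ : Fin 1 => (RatFunc.X : RF)) := by
      have : Algebra.IsAlgebraic ℂ[X] RF := IsLocalization.isAlgebraic _ (nonZeroDivisors ℂ[X])
      have h3 := h1.algebraMap_comp (A := RF)
      convert! h3 using 1
    have : Algebra.IsAlgebraic RF (AdjoinRoot (ff c)) := by
      have := (AdjoinRoot.powerBasis (hirr.out.ne_zero)).finite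
      infer_instance
    exact h2.algebraMap_comp (A := AdjoinRoot (ff c))
  · rintro ⟨φ⟩
    have hroot : (AdjoinRoot.root (ff c)) ^ 2
        = 4 * (algebraMap RF (AdjoinRoot (ff c)) RatFunc.X) ^ 3 + algebraMap ℂ _ c := by
      have h1 : eval₂ (AdjoinRoot.of (ff c)) (AdjoinRoot.root (ff c))
        (X ^ 2 - C (4 * RatFunc.X ^ 3 + RatFunc.C c)) = 0 := AdjoinRoot.eval₂_root (ff c)
      rw [eval₂_sub, eval₂_pow, eval₂_X, eval₂_C, map_add, map_mul, map_pow,
        map_ofNat] at h1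
      exact sub_eq_zero.mp h1
    obtain ⟨l, hl⟩ := no_param c hc (φ (algebraMap RF (AdjoinRoot (ff c)) RatFunc.X))
      (φ (AdjoinRoot.root (ff c))) (by
        have h5 : (RatFunc.C c : RF) = algebraMap ℂ RF c := rfl
        rw [← map_pow, hroot, map_add, map_mul, map_pow, AlgEquiv.commutes, h5, map_ofNat])
    have h6 : φ (algebraMap RF (AdjoinRoot (ff c)) RatFunc.X)
        = φ (algebraMap ℂ (AdjoinRoot (ff c)) l) := by
      rw [hl, AlgEquiv.commutes]; rfl
    have h7 := φ.injective h6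
    have h8 : algebraMap RF (AdjoinRoot (ff c)) RatFunc.X
        = algebraMap RF (AdjoinRoot (ff c)) (RatFunc.C l) := h7
    exact ratX_ne_C l ((algebraMap RF (AdjoinRoot (ff c))).injective h8)
  · intro B _ _ x y hx hy
    let f1 : RF →ₐ[ℂ] B := IsLocalization.liftAlgHom (M := nonZeroDivisors ℂ[X]) (S := RF)
      (f := aeval x) (fun q => isUnit_aeval x hx q (nonZeroDivisors.ne_zero q.2))
    have hf1 : ∀ q : ℂ[X], f1 (algebraMap ℂ[X] RF q) = aeval x q := fun q => by
      simp [f1]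
    refine ⟨AdjoinRoot.liftAlgHom (ff c) f1 y ?_⟩
    have hX : f1 RatFunc.X = x := by
      rw [← RatFunc.algebraMap_X, hf1, aeval_X]
    have hC : f1 (RatFunc.C c) = algebraMap ℂ B c := f1.commutes c
    simp only [ff, eval₂_sub, eval₂_pow, eval₂_X, eval₂_C]
    have h9 : (f1 : RF →+* B) (4 * RatFunc.X ^ 3 + RatFunc.C c) = 4 * x ^ 3 + algebraMap ℂ B c := by
      show f1 (4 * RatFunc.X ^ 3 + RatFunc.C c) = _
      rw [map_add, map_mul, map_pow, hX, hC, map_ofNat]
    rw [h9, hy, sub_self]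

end Pool.Agent.Helpers.Q51
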