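import Mathlib
import Pool.Agent.Helpers.Q51Alg
import Pool.Agent.Helpers.Q51Curve

namespace Pool.Agent.Helpers.Q51

section elements

variable (n : ℕ) (ζ s : ℂ)

noncomputable def cel : AA n ζ :=
  (zz s * UU⁻¹ * VV⁻¹) • (yy n ζ ^ (n - 1) * xx n ζ ^ (n - 1))

lemma xyc [NeZero n] : xx n ζ * (yy n ζ * cel n ζ s) = zz s • (1 : AA n ζ) := by
  have h1 : yy n ζ * yy n ζ ^ (n - 1) = yy n ζ ^ n := mul_pow_sub_one (NeZero.ne n) _
  have h2 : xx n ζ * xx n ζ ^ (n - 1) = xx n ζ ^ n := mul_pow_sub_one (NeZero.ne n) _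
  unfold cel
  rw [mul_smul_comm, mul_smul_comm, ← mul_assoc (yy n ζ), h1, yy_pow, ← Algebra.smul_def,
    mul_smul_comm, h2, xx_pow, Algebra.algebraMap_eq_smul_one, smul_smul, smul_smul]
  congr 1
  have := UU_ne
  have := VV_ne
  field_simp

noncomputable def Zel : AA n ζ := xx n ζ + yy n ζ + cel n ζ s

noncomputable def Xel : AA n ζ :=
  Zel n ζ s * Zel n ζ s + zz (kap s) • (xx n ζ * yy n ζ)

noncomputable def Wel : AA n ζ :=
  zz 2 • (Zel n ζ s * (Zel n ζ s * Zel n ζ s))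
    + zz (2 * nu s) • (xx n ζ * (xx n ζ * yy n ζ) + xx n ζ * (yy n ζ * yy n ζ))
    + zz (bb s) • (1 : AA n ζ)

end elements

variable {G : Type} [Field G] [Algebra FF G] {n : ℕ} [NeZero n] {ζ s : ℂ}

/-- constants in `G` -/
noncomputable def gg (G : Type) [Field G] [Algebra FF G] : ℂ →+* G :=
  (algebraMap FF G).comp (algebraMap ℂ FF)

lemma gg_apply (c : ℂ) : algebraMap FF G (zz c) = gg G c := rfl

noncomputable def til (D : Dat G n ζ) (r : ZMod n) (f : ZMod n → G) : ℤ → G :=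
  fun k => D.β ^ k * f (r + (k : ZMod n))

lemma til_zero (D : Dat G n ζ) (r : ZMod n) (f : ZMod n → G) : til D r f 0 = f r := by
  simp [til]

lemma a_shift (D : Dat G n ζ) (hs : s ^ 2 = ζ) (hs0 : s ≠ 0) (r : ZMod n) (k : ℤ) :
    D.a (r + (k : ZMod n)) = Ak (D.a r) (gg G s) k := by
  have hS : gg G s ≠ 0 := by rwa [Ne, map_eq_zero]
  have ht : algebraMap FF G (zz ζ) = gg G s ^ 2 := by rw [gg_apply, ← hs, map_pow]
  induction k using Int.induction_on with
  | zero => simp [Ak]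
  | succ k ih =>
    rw [Ak_succ _ _ hS, ← ih]
    have h := D.hab (r + ((k : ℤ) : ZMod n))
    rw [ht] at h
    rw [h]
    push_cast
    rw [add_assoc]
    field_simp
  | pred k ih =>
    rw [Ak_pred _ _ hS, ← ih]
    have h := D.hab (r + ((-(k : ℤ) - 1 : ℤ) : ZMod n))
    rw [ht] at h
    rw [h]
    have e : r + ((-(k : ℤ) - 1 : ℤ) : ZMod n) + 1 = r + ((-(k : ℤ) : ℤ) : ZMod n) := by
      push_cast; ring
    rw [e]; ring

lemma rho_c (D : Dat G n ζ) (f : ZMod n → G) (r : ZMod n) :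
    (rho D (cel n ζ s)) f (r + 1) = gg G s * f r / (D.a r * D.β) := by
  have h := congrArg (fun z => (rho D z) f r) (xyc n ζ s)
  simp only [map_mul, map_smul, map_one, rho_xx, rho_yy] at h
  rw [Module.End.mul_apply, Module.End.mul_apply, Xo_apply, Yo_apply, LinearMap.smul_apply,
    Pi.smul_apply, Algebra.smul_def, gg_apply] at h
  have h1 := a_ne D r
  have h2 := beta_ne D
  rw [eq_div_iff (mul_ne_zero h1 h2)]
  have h3 : (1 : Module.End G (ZMod n → G)) f r = f r := rfl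
  rw [h3] at h
  rw [← h]; ring

lemma til_Z (D : Dat G n ζ) (hs : s ^ 2 = ζ) (hs0 : s ≠ 0) (r : ZMod n) (f : ZMod n → G) :
    til D r (rho D (Zel n ζ s) f) = Zz (D.a r) (gg G s) (til D r f) := by
  funext k
  have hS : gg G s ≠ 0 := by rwa [Ne, map_eq_zero]
  have hβ := beta_ne D
  have ha := a_ne D r
  have hA := Ak_ne (D.a r) (gg G s) ha hS k
  simp only [til, Zz, Zel, map_add, LinearMap.add_apply, Pi.add_apply, rho_xx, rho_yy, Xo_apply,
    Yo_apply]
  have e1 : r + (k : ZMod n) = (r + ((k - 1 : ℤ) : ZMod n)) + 1 := by push_cast; ring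
  have h1 : (rho D (cel n ζ s)) f (r + (k : ZMod n))
      = gg G s * f (r + ((k - 1 : ℤ) : ZMod n)) / (D.a (r + ((k - 1 : ℤ) : ZMod n)) * D.β) := by
    rw [e1, rho_c]
  rw [h1, a_shift D hs hs0, a_shift D hs hs0, Ak_pred _ _ hS]
  have e2 : r + (k : ZMod n) + 1 = r + ((k + 1 : ℤ) : ZMod n) := by push_cast; ring
  rw [e2, zpow_add₀ hβ, zpow_sub₀ hβ, zpow_one]
  generalize Ak (D.a r) (gg G s) k = A at *
  field_simp

lemma til_xy (D : Dat G n ζ) (hs : s ^ 2 = ζ) (hs0 : s ≠ 0) (r : ZMod n) (f : ZMod n → G) :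
    til D r (rho D (xx n ζ * yy n ζ) f) = Gz (D.a r) (gg G s) (til D r f) := by
  funext k
  have hβ := beta_ne D
  simp only [til, Gz, map_mul, rho_xx, rho_yy, Module.End.mul_apply, Xo_apply, Yo_apply]
  rw [a_shift D hs hs0]
  have e2 : r + (k : ZMod n) + 1 = r + ((k + 1 : ℤ) : ZMod n) := by push_cast; ring
  rw [e2, zpow_add₀ hβ, zpow_one]
  ring

lemma til_H (D : Dat G n ζ) (hs : s ^ 2 = ζ) (hs0 : s ≠ 0) (r : ZMod n) (f : ZMod n → G) :
    til D r (rho D (xx n ζ * (xx n ζ * yy n ζ) + xx n ζ * (yy n ζ * yy n ζ)) f)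
      = Hz (D.a r) (gg G s) (til D r f) := by
  funext k
  have hβ := beta_ne D
  simp only [til, Hz, map_mul, map_add, LinearMap.add_apply, Pi.add_apply, rho_xx, rho_yy,
    Module.End.mul_apply, Xo_apply, Yo_apply]
  rw [a_shift D hs hs0]
  have e2 : r + (k : ZMod n) + 1 = r + ((k + 1 : ℤ) : ZMod n) := by push_cast; ring
  have e3 : r + ((k + 1 : ℤ) : ZMod n) + 1 = r + ((k + 2 : ℤ) : ZMod n) := by push_cast; ring
  rw [e2, e3, zpow_add₀ hβ, zpow_add₀ hβ, zpow_one]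
  have e4 : D.β ^ (2 : ℤ) = D.β ^ 2 := by norm_cast
  rw [e4]
  ring

lemma til_add (D : Dat G n ζ) (r : ZMod n) (f g : ZMod n → G) (k : ℤ) :
    til D r (f + g) k = til D r f k + til D r g k := by
  simp only [til, Pi.add_apply]; ring

lemma til_smul (D : Dat G n ζ) (r : ZMod n) (c : FF) (f : ZMod n → G) (k : ℤ) :
    til D r (c • f) k = algebraMap FF G c * til D r f k := by
  simp only [til, Pi.smul_apply, Algebra.smul_def]; ring

lemma gg_kap : gg G (kap s) = kap (gg G s) := by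
  simp only [kap, map_mul, map_pow, map_sub, map_add, map_one, map_inv₀]

lemma gg_nu : gg G (2 * nu s) = 2 * nu (gg G s) := by
  simp only [nu, map_mul, map_pow, map_sub, map_add, map_one, map_inv₀, map_ofNat]

lemma gg_bb : gg G (bb s) = bb (gg G s) := by
  simp only [bb, map_mul, map_pow, map_sub, map_add, map_inv₀, map_ofNat]

lemma til_X (D : Dat G n ζ) (hs : s ^ 2 = ζ) (hs0 : s ≠ 0) (r : ZMod n) (f : ZMod n → G) :
    til D r (rho D (Xel n ζ s) f) = Xz (D.a r) (gg G s) (til D r f) := by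
  funext k
  unfold Xel Xz
  rw [map_add, LinearMap.add_apply, til_add, map_smul, LinearMap.smul_apply, til_smul,
    til_xy D hs hs0, gg_apply, gg_kap, map_mul, Module.End.mul_apply, til_Z D hs hs0,
    til_Z D hs hs0]

lemma til_W (D : Dat G n ζ) (hs : s ^ 2 = ζ) (hs0 : s ≠ 0) (r : ZMod n) (f : ZMod n → G) :
    til D r (rho D (Wel n ζ s) f) = Wz (D.a r) (gg G s) (til D r f) := by
  funext k
  unfold Wel Wz
  rw [map_add, LinearMap.add_apply, til_add, map_add, LinearMap.add_apply, til_add,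
    map_smul, LinearMap.smul_apply, til_smul, map_smul, LinearMap.smul_apply, til_smul,
    map_smul, LinearMap.smul_apply, til_smul,
    til_H D hs hs0, gg_apply, gg_apply, gg_apply, gg_nu, gg_bb, map_mul, map_mul, map_one,
    Module.End.mul_apply, Module.End.mul_apply, til_Z D hs hs0,
    til_Z D hs hs0, til_Z D hs hs0, map_ofNat, Module.End.one_apply]

lemma eval_til (D : Dat G n ζ) (r : ZMod n) (z : AA n ζ) (f : ZMod n → G) :
    (rho D z) f r = til D r ((rho D z) f) 0 := (til_zero D r _).symm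

theorem comm_el (D : Dat G n ζ) (hs : s ^ 2 = ζ) (hs0 : s ≠ 0) :
    Xel n ζ s * Wel n ζ s = Wel n ζ s * Xel n ζ s := by
  have hζ : ζ ≠ 0 := by rw [← hs]; exact pow_ne_zero 2 hs0
  have hS : gg G s ≠ 0 := by rwa [Ne, map_eq_zero]
  apply rho_inj D hζ
  refine LinearMap.ext fun f => ?_
  funext r
  rw [eval_til, eval_til, map_mul, map_mul, Module.End.mul_apply, Module.End.mul_apply,
    til_X D hs hs0, til_W D hs hs0, til_W D hs hs0, til_X D hs hs0]
  exact comm0 _ _ (a_ne D r) hS _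

theorem curve_el (D : Dat G n ζ) (hs : s ^ 2 = ζ) (hs0 : s ≠ 0) :
    Wel n ζ s ^ 2 = 4 * Xel n ζ s ^ 3 + algebraMap ℂ (AA n ζ) ((s - s⁻¹) ^ 6) := by
  have hζ : ζ ≠ 0 := by rw [← hs]; exact pow_ne_zero 2 hs0
  have hS : gg G s ≠ 0 := by rwa [Ne, map_eq_zero]
  apply rho_inj D hζ
  refine LinearMap.ext fun f => ?_
  funext r
  have h4 : (4 : AA n ζ) = algebraMap FF (AA n ζ) 4 := (map_ofNat _ 4).symm
  have h5 : algebraMap ℂ (AA n ζ) ((s - s⁻¹) ^ 6)
      = algebraMap FF (AA n ζ) (zz ((s - s⁻¹) ^ 6)) := by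
    rw [IsScalarTower.algebraMap_apply ℂ FF (AA n ζ)]; rfl
  rw [h4, h5, ← Algebra.smul_def, eval_til, eval_til]
  have e1 : (rho D) (Wel n ζ s ^ 2) f = (rho D (Wel n ζ s)) ((rho D (Wel n ζ s)) f) := by
    rw [pow_two, map_mul, Module.End.mul_apply]
  have e2 : (rho D) (Xel n ζ s ^ 3) f
      = (rho D (Xel n ζ s)) ((rho D (Xel n ζ s)) ((rho D (Xel n ζ s)) f)) := by
    rw [pow_succ, pow_two, map_mul, map_mul, Module.End.mul_apply, Module.End.mul_apply]
  have e3 : ∀ c : FF, (rho D) (algebraMap FF (AA n ζ) c) f = c • f := fun c => by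
    rw [AlgHom.commutes, Module.algebraMap_end_apply]
  rw [e1, til_W D hs hs0, til_W D hs hs0, map_add, LinearMap.add_apply, til_add, map_smul,
    LinearMap.smul_apply, til_smul, e2, til_X D hs hs0, til_X D hs hs0, til_X D hs hs0,
    e3, til_smul, gg_apply]
  rw [curve0 _ _ (a_ne D r) hS]
  simp only [map_pow, map_sub, map_inv₀, map_ofNat]

/-! ### `X - λ` is a unit -/

lemma kill (D : Dat G n ζ) (hs : s ^ 2 = ζ) (hs0 : s ≠ 0)
    {Γ : Type} [LinearOrderedCommGroupWithZero Γ] (v : Valuation G Γ) (E : Γ)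
    (hE : 1 < E) (hva : ∀ r, v (D.a r) = E) (hvb : v D.β = 1) (hvc : ∀ c : ℂ, v (gg G c) ≤ 1)
    (l : ℂ) (h : ZMod n → G) (hh : ∀ r, (rho D (Xel n ζ s)) h r = gg G l * h r) : h = 0 := by
  by_contra hne
  have hS : gg G s ≠ 0 := by rwa [Ne, map_eq_zero]
  obtain ⟨r, hr⟩ := Finite.exists_max (fun r => v (h r))
  have hM : 0 < v (h r) := by
    by_contra h0
    apply hne
    funext r'
    have h1 : v (h r') ≤ 0 := (hr r').trans (not_lt.mp h0)
    have h2 := le_antisymm h1 zero_le'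
    exact (map_eq_zero v).mp h2
  have heq := hh r
  rw [eval_til, til_X D hs hs0, X_formula _ _ (a_ne D r) hS] at heq
  have hA0 : Ak (D.a r) (gg G s) 0 = D.a r := by simp [Ak]
  rw [hA0] at heq
  simp only [zero_add, zero_sub, til] at heq
  have hβ := beta_ne D
  have ha := a_ne D r
  have hE0 : 0 < E := lt_trans zero_lt_one hE
  have hc1 : v (gg G s ^ 2 + (gg G s)⁻¹ ^ 4) ≤ 1 := by
    have := hvc (s ^ 2 + s⁻¹ ^ 4)
    simpa only [map_add, map_pow, map_inv₀] using this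
  have hc2 : v (gg G s + (gg G s)⁻¹) ≤ 1 := by
    have := hvc (s + s⁻¹)
    simpa only [map_add, map_inv₀] using this
  have hc3 : v ((gg G s)⁻¹ ^ 4) ≤ 1 := by
    have := hvc (s⁻¹ ^ 4)
    simpa only [map_pow, map_inv₀] using this
  have hbz : ∀ k : ℤ, v (D.β ^ k) = 1 := fun k => by rw [map_zpow₀, hvb, one_zpow]
  have hEinv : E⁻¹ ≤ 1 := inv_le_one_of_one_le₀ hE.le
  have term : ∀ (q : G) (r' : ZMod n), v q ≤ E → v (q * h r') < E * E * v (h r) := by
    intro q r' hq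
    rw [map_mul]
    calc v q * v (h r') ≤ E * v (h r) := mul_le_mul' hq (hr r')
      _ < E * (E * v (h r)) := by
          apply mul_lt_mul_of_pos_left _ hE0
          calc v (h r) = 1 * v (h r) := (one_mul _).symm
            _ < E * v (h r) := mul_lt_mul_of_pos_right hE hM
      _ = E * E * v (h r) := (mul_assoc _ _ _).symm
  have key : D.a r ^ 2 * h r = gg G l * h r
      + (-(D.β ^ (2 : ℤ))) * h (r + ((2 : ℤ) : ZMod n))
      + (-((gg G s ^ 2 + (gg G s)⁻¹ ^ 4) * D.a r * D.β ^ (1 : ℤ))) * h (r + ((1 : ℤ) : ZMod n))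
      + (-((gg G s + (gg G s)⁻¹) * (D.a r)⁻¹)) * h r
      + (-((gg G s + (gg G s)⁻¹) * D.β ^ (-1 : ℤ))) * h (r + ((-1 : ℤ) : ZMod n))
      + (-((gg G s)⁻¹ ^ 4 * (D.a r)⁻¹ ^ 2 * D.β ^ (-2 : ℤ))) * h (r + ((-2 : ℤ) : ZMod n)) := by
    rw [← heq]
    simp only [zpow_zero, Int.cast_zero, add_zero]
    ring
  have hlt : v (D.a r ^ 2 * h r) < E * E * v (h r) := by
    rw [key]
    have t0 : v (gg G l * h r) < E * E * v (h r) := term _ _ ((hvc l).trans hE.le)
    have t1 : v ((-(D.β ^ (2 : ℤ))) * h (r + ((2 : ℤ) : ZMod n))) < E * E * v (h r) := by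
      apply term
      rw [Valuation.map_neg, hbz]; exact hE.le
    have t2 : v ((-((gg G s ^ 2 + (gg G s)⁻¹ ^ 4) * D.a r * D.β ^ (1 : ℤ)))
        * h (r + ((1 : ℤ) : ZMod n))) < E * E * v (h r) := by
      apply term
      rw [Valuation.map_neg, map_mul, map_mul, hbz, hva, mul_one]
      calc _ ≤ 1 * E := mul_le_mul_left hc1 E
        _ = E := one_mul E
    have t3 : v ((-((gg G s + (gg G s)⁻¹) * (D.a r)⁻¹)) * h r) < E * E * v (h r) := by
      apply term
      rw [Valuation.map_neg, map_mul, map_inv₀, hva]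
      calc _ ≤ 1 * 1 := mul_le_mul' hc2 hEinv
        _ ≤ E := by rw [one_mul]; exact hE.le
    have t4 : v ((-((gg G s + (gg G s)⁻¹) * D.β ^ (-1 : ℤ))) * h (r + ((-1 : ℤ) : ZMod n)))
        < E * E * v (h r) := by
      apply term
      rw [Valuation.map_neg, map_mul, hbz, mul_one]
      exact hc2.trans hE.le
    have t5 : v ((-((gg G s)⁻¹ ^ 4 * (D.a r)⁻¹ ^ 2 * D.β ^ (-2 : ℤ)))
        * h (r + ((-2 : ℤ) : ZMod n))) < E * E * v (h r) := by
      apply term
      rw [Valuation.map_neg, map_mul, map_mul, hbz, mul_one, map_pow v (D.a r)⁻¹ 2, map_inv₀, hva]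
      calc _ ≤ 1 * 1 := mul_le_mul' hc3 (pow_le_one₀ zero_le' hEinv)
        _ ≤ E := by rw [one_mul]; exact hE.le
    exact v.map_add_lt (v.map_add_lt (v.map_add_lt (v.map_add_lt (v.map_add_lt t0 t1) t2) t3) t4) t5
  rw [map_mul, map_pow, hva, pow_two] at hlt
  exact lt_irrefl _ hlt

lemma finite_AA (hζ : ζ ≠ 0) : Module.Finite FF (AA n ζ) := by
  refine ⟨?_⟩
  rw [← span_fin n (NeZero.pos n) ζ hζ]
  exact Submodule.fg_span (Set.finite_range _)

lemma unit_of_inj {A : Type} [Ring A] [Algebra FF A] (hfin : Module.Finite FF A) (u : A)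
    (hinj : ∀ z, u * z = 0 → z = 0) : IsUnit u := by
  have hL : Function.Injective (LinearMap.mulLeft FF u) := by
    rw [injective_iff_map_eq_zero]
    intro z hz
    exact hinj z hz
  have hsurj := LinearMap.surjective_of_injective hL
  obtain ⟨w, hw⟩ := hsurj 1
  rw [LinearMap.mulLeft_apply] at hw
  have hw2 : w * u = 1 := by
    have h3 : u * (w * u - 1) = 0 := by
      rw [mul_sub, ← mul_assoc, hw, one_mul, mul_one, sub_self]
    exact sub_eq_zero.mp (hinj _ h3)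
  exact ⟨⟨u, w, hw, hw2⟩, rfl⟩

theorem unit_el (D : Dat G n ζ) (hs : s ^ 2 = ζ) (hs0 : s ≠ 0)
    {Γ : Type} [LinearOrderedCommGroupWithZero Γ] (v : Valuation G Γ) (E : Γ)
    (hE : 1 < E) (hva : ∀ r, v (D.a r) = E) (hvb : v D.β = 1) (hvc : ∀ c : ℂ, v (gg G c) ≤ 1)
    (l : ℂ) (u : AA n ζ) (hu : u + algebraMap ℂ (AA n ζ) l = Xel n ζ s) : IsUnit u := by
  have hζ : ζ ≠ 0 := by rw [← hs]; exact pow_ne_zero 2 hs0
  have hfin := finite_AA (n := n) hζ
  have hinj : ∀ z : AA n ζ, u * z = 0 → z = 0 := by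
    intro z hz
    apply rho_inj D hζ
    rw [map_zero]
    refine LinearMap.ext fun f => ?_
    rw [LinearMap.zero_apply]
    apply kill D hs hs0 v E hE hva hvb hvc l
    intro r
    have h1 : (rho D (u * z)) f r = 0 := by rw [hz, map_zero]; rfl
    have h5 : algebraMap ℂ (AA n ζ) l = algebraMap FF (AA n ζ) (zz l) := by
      rw [IsScalarTower.algebraMap_apply ℂ FF (AA n ζ)]; rfl
    rw [map_mul, Module.End.mul_apply] at h1
    rw [← hu, h5, map_add, LinearMap.add_apply, Pi.add_apply, h1, zero_add, AlgHom.commutes,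
      algMap_apply, gg_apply]
  exact unit_of_inj hfin u hinj

/-! ### Mapping the function field into a noncommutative algebra -/

theorem hom_to_noncomm (c : ℂ) (K : Type) [Field K] [Algebra ℂ K]
    (hK : ∀ (B : Type) [CommRing B] [Algebra ℂ B] (x y : B),
        (∀ l : ℂ, IsUnit (x - algebraMap ℂ B l)) →
        y ^ 2 = 4 * x ^ 3 + algebraMap ℂ B c → Nonempty (K →ₐ[ℂ] B))
    (A : Type) [Ring A] [Algebra ℂ A] (x y : A) (hxy : x * y = y * x)
    (hu : ∀ (l : ℂ) (u : A), u + algebraMap ℂ A l = x → IsUnit u)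
    (hc : y ^ 2 = 4 * x ^ 3 + algebraMap ℂ A c) : Nonempty (K →ₐ[ℂ] A) := by
  let T : Set A := {x, y}
  let C1 := Subalgebra.centralizer ℂ T
  let B := Subalgebra.centralizer ℂ (C1 : Set A)
  have hTC : T ⊆ C1 := by
    intro z hz
    rw [SetLike.mem_coe, Subalgebra.mem_centralizer_iff]
    rintro w hw
    rcases hz with rfl | rfl <;> rcases hw with rfl | rfl
    · rfl
    · exact hxy.symm
    · exact hxy
    · rfl
  have hBC : ∀ z ∈ B, z ∈ C1 := by
    intro z hz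
    rw [Subalgebra.mem_centralizer_iff] at hz ⊢
    intro w hw
    exact hz w (hTC hw)
  have hBcomm : ∀ z w : B, z * w = w * z := by
    rintro ⟨z, hz⟩ ⟨w, hw⟩
    apply Subtype.ext
    show z * w = w * z
    have := (Subalgebra.mem_centralizer_iff ℂ).mp hw z (hBC z hz)
    exact this
  letI : CommRing B := { (inferInstance : Ring B) with mul_comm := hBcomm }
  have hTB : ∀ z ∈ T, z ∈ B := by
    intro z hz
    rw [Subalgebra.mem_centralizer_iff]
    intro w hw
    have h1 := (Subalgebra.mem_centralizer_iff ℂ).mp hw z hz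
    exact h1.symm
  have hxB : x ∈ B := hTB x (Or.inl rfl)
  have hyB : y ∈ B := hTB y (Or.inr rfl)
  obtain ⟨φ⟩ := hK B ⟨x, hxB⟩ ⟨y, hyB⟩ (by
    intro l
    obtain ⟨w, hw⟩ := hu l (x - algebraMap ℂ A l) (sub_add_cancel _ _)
    have hinvB : ((w⁻¹ : Aˣ) : A) ∈ B := by
      rw [Subalgebra.mem_centralizer_iff]
      intro z hz
      have h1 : x - algebraMap ℂ A l ∈ B := B.sub_mem hxB (B.algebraMap_mem l)
      have h2 := (Subalgebra.mem_centralizer_iff ℂ).mp h1 z hz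
      rw [← hw] at h2
      have h3 : Commute z (w : A) := h2
      exact h3.units_inv_right
    refine ⟨⟨⟨x, hxB⟩ - algebraMap ℂ B l, ⟨((w⁻¹ : Aˣ) : A), hinvB⟩, ?_, ?_⟩, rfl⟩
    · apply Subtype.ext
      show (x - algebraMap ℂ A l) * ((w⁻¹ : Aˣ) : A) = 1
      rw [← hw, Units.mul_inv]
    · apply Subtype.ext
      show ((w⁻¹ : Aˣ) : A) * (x - algebraMap ℂ A l) = 1
      rw [← hw, Units.inv_mul]) (by
    apply Subtype.ext
    show y ^ 2 = 4 * x ^ 3 + algebraMap ℂ A c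
    exact hc)
  exact ⟨B.val.comp φ⟩

end Pool.Agent.Helpers.Q51
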