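import Mathlib
import Pool.Agent.Helpers.Q51Main

open WithZero
open scoped Classical

namespace Pool.Agent.Helpers.Q51

abbrev GG : Type := RatFunc RF

noncomputable def al : GG := RatFunc.X
noncomputable def be : GG := RatFunc.C RatFunc.X

noncomputable def gmap (n : ℕ) : PP →ₐ[ℂ] GG := MvPolynomial.aeval ![al ^ n, be ^ n]

lemma gmap_inj (n : ℕ) (hn : 0 < n) : Function.Injective (gmap n) := by
  have h1 : Transcendental ℂ ((RatFunc.X : RF) ^ n) := RatFunc.transcendental_X.pow hn
  have h2 : Transcendental RF ((RatFunc.X : GG) ^ n) := RatFunc.transcendental_X.pow hn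
  have i1 : AlgebraicIndependent ℂ (fun _ : Unit => (RatFunc.X : RF) ^ n) :=
    (algebraicIndependent_unique_type_iff (ι := Unit)).mpr h1
  have i2 : AlgebraicIndependent RF (fun _ : Unit => (RatFunc.X : GG) ^ n) :=
    (algebraicIndependent_unique_type_iff (ι := Unit)).mpr h2
  have i3 := i1.sumElim_comp i2
  let e : Fin 2 → Unit ⊕ Unit := ![Sum.inl (), Sum.inr ()]
  have he : Function.Injective e := by
    intro i j hij
    fin_cases i <;> fin_cases j <;> simp_all [e]
  have i4 := i3.comp e he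
  have i5 : AlgebraicIndependent ℂ (![al ^ n, be ^ n] : Fin 2 → GG) := by
    convert! i4 using 1
    funext i
    fin_cases i
    · rfl
    · simp only [be, ← map_pow]; rfl
  exact algebraicIndependent_iff_injective_aeval.mp i5

noncomputable def iota (n : ℕ) (hn : 0 < n) : FF →+* GG :=
  IsFractionRing.lift (g := (gmap n : PP →+* GG)) (gmap_inj n hn)

lemma iota_alg (n : ℕ) (hn : 0 < n) (p : PP) :
    iota n hn (algebraMap PP FF p) = gmap n p :=
  IsFractionRing.lift_algebraMap (g := (gmap n : PP →+* GG)) (gmap_inj n hn) p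

lemma iota_UU (n : ℕ) (hn : 0 < n) : iota n hn UU = al ^ n := by
  unfold UU
  rw [iota_alg, gmap, MvPolynomial.aeval_X]; rfl

lemma iota_VV (n : ℕ) (hn : 0 < n) : iota n hn VV = be ^ n := by
  unfold VV
  rw [iota_alg, gmap, MvPolynomial.aeval_X]; rfl

lemma iota_zz (n : ℕ) (hn : 0 < n) (c : ℂ) : iota n hn (zz c) = algebraMap ℂ GG c := by
  unfold zz
  rw [IsScalarTower.algebraMap_apply ℂ PP FF, iota_alg, AlgHom.commutes]

lemma const_val (c : ℂ) : RatFunc.inftyValuation RF (algebraMap ℂ GG c) ≤ 1 := by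
  have h : algebraMap ℂ GG c = RatFunc.C (RatFunc.C c) := rfl
  rw [h]
  by_cases hc : c = 0
  · subst hc
    rw [map_zero, map_zero, map_zero]; exact zero_le'
  · rw [RatFunc.inftyValuation.C]
    rwa [Ne, map_eq_zero]

lemma const_val' (c : ℂ) (hc : c ≠ 0) : RatFunc.inftyValuation RF (algebraMap ℂ GG c) = 1 := by
  have h : algebraMap ℂ GG c = RatFunc.C (RatFunc.C c) := rfl
  rw [h, RatFunc.inftyValuation.C]
  rwa [Ne, map_eq_zero]

lemma cancel_gen {H : Type} [Field H] (a x y : H) (ha : a ≠ 0) (h : a * x = a * y) : x = y :=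
  mul_left_cancel₀ ha h

lemma al_cancel (x y : GG) (h : al * x = al * y) : x = y :=
  cancel_gen al x y RatFunc.X_ne_zero h

theorem final (n : ℕ) (hn : 2 ≤ n) (ζ : ℂ) (hζ : IsPrimitiveRoot ζ n) :
    ∃ (K : Type) (_ : Field K) (_ : Algebra ℂ K) (f : K →ₐ[ℂ] RingQuot (rel n ζ)),
      Function.Injective f ∧ (∃ t : K, IsTranscendenceBasis ℂ (fun _ : Fin 1 => t)) ∧
      ¬ Nonempty (K ≃ₐ[ℂ] RatFunc ℂ) := by
  have hn0 : 0 < n := by omega
  have : NeZero n := ⟨by omega⟩
  obtain ⟨s, hs⟩ : ∃ s : ℂ, s ^ 2 = ζ := IsAlgClosed.exists_pow_nat_eq ζ (by norm_num)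
  have hζ0 : ζ ≠ 0 := hζ.ne_zero (by omega)
  have hs0 : s ≠ 0 := by
    rintro rfl
    apply hζ0; rw [← hs]; norm_num
  have hζ1 : ζ ≠ 1 := hζ.ne_one (by omega)
  have hc : (s - s⁻¹) ^ 6 ≠ 0 := by
    apply pow_ne_zero
    intro h
    apply hζ1
    rw [← hs]
    field_simp at h
    linear_combination h
  let _ : Algebra FF GG := (iota n hn0).toAlgebra
  have hmap : ∀ x : FF, algebraMap FF GG x = iota n hn0 x := fun _ => rfl
  have hinv : IsPrimitiveRoot ζ⁻¹ n := hζ.inv
  let D : Dat GG n ζ :=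
    { a := fun r => al * algebraMap ℂ GG (ζ⁻¹ ^ r.val)
      β := be
      ha := by
        intro r
        rw [hmap, iota_UU, mul_pow, ← map_pow, ← pow_mul, mul_comm r.val n, pow_mul,
          hinv.pow_eq_one, one_pow, map_one, mul_one]
      hb := by rw [hmap, iota_VV]
      hab := by
        intro r
        rw [hmap, iota_zz]
        have h1 : ζ⁻¹ ^ (r + 1).val = ζ⁻¹ ^ (r.val + 1) := by
          have h2 : (r + 1).val = (r.val + 1) % n := by
            rw [ZMod.val_add, ZMod.val_one'' (by omega)]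
          rw [h2, ← pow_eq_pow_mod _ hinv.pow_eq_one]
        rw [h1]
        have h3 : ζ⁻¹ ^ r.val = ζ * ζ⁻¹ ^ (r.val + 1) := by
          rw [pow_succ]; field_simp
        rw [h3, map_mul]; ring
      inj := by
        intro r r' h
        have h1 : algebraMap ℂ GG (ζ⁻¹ ^ r.val) = algebraMap ℂ GG (ζ⁻¹ ^ r'.val) := by
          have h0 : al * algebraMap ℂ GG (ζ⁻¹ ^ r.val) = al * algebraMap ℂ GG (ζ⁻¹ ^ r'.val) := h
          exact al_cancel _ _ h0
        have h2 := (algebraMap ℂ GG).injective h1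
        exact ZMod.val_injective n (hinv.pow_inj (ZMod.val_lt r) (ZMod.val_lt r') h2) }
  obtain ⟨K, iF, iA, ht, hrat, hK⟩ := exists_curve ((s - s⁻¹) ^ 6) hc
  obtain ⟨f⟩ := hom_to_noncomm ((s - s⁻¹) ^ 6) K hK (AA n ζ) (Xel n ζ s) (Wel n ζ s)
    (comm_el D hs hs0)
    (fun l u hu => unit_el D hs hs0 (RatFunc.inftyValuation RF) (exp (1 : ℤ))
      (by rw [← exp_zero, exp_lt_exp]; norm_num)
      (by
        intro r
        show RatFunc.inftyValuation RF (al * algebraMap ℂ GG (ζ⁻¹ ^ r.val)) = _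
        rw [map_mul, const_val' _ (pow_ne_zero _ (inv_ne_zero hζ0)), mul_one]
        exact RatFunc.inftyValuation.X RF)
      (by
        show RatFunc.inftyValuation RF be = 1
        exact RatFunc.inftyValuation.C RF RatFunc.X_ne_zero)
      (by
        intro c
        have : gg GG c = algebraMap ℂ GG c := by
          show iota n hn0 (zz c) = _
          rw [iota_zz]
        rw [this]
        exact const_val c)
      l u hu)
    (curve_el D hs hs0)
  refine ⟨K, iF, iA, f, ?_, ht, hrat⟩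
  have hnt : Nontrivial (AA n ζ) := by
    refine ⟨⟨0, 1, ?_⟩⟩
    intro h
    have h1 : rho D 0 = rho D 1 := by rw [h]
    rw [map_zero, map_one] at h1
    have h2 := congrArg (fun g : Module.End GG (ZMod n → GG) => g (fun _ => 1) 0) h1
    exact zero_ne_one h2
  exact (f : K →+* AA n ζ).injective

end Pool.Agent.Helpers.Q51
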