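import Mathlib

open Matrix MeasureTheory Filter Topology

namespace TorusRec

/-- `G = Sp(4, ℝ)`, with the topology it has as a set of `4 × 4` real matrices. -/
abbrev G := symplecticGroup (Fin 2) ℝ

/-- `Γ = Sp(4, ℤ)`: the elements of `Sp(4, ℝ)` all of whose entries are integers. -/
def Gam : Subgroup G where
  carrier := {g | ∃ M : Matrix (Fin 2 ⊕ Fin 2) (Fin 2 ⊕ Fin 2) ℤ,
    (g : Matrix (Fin 2 ⊕ Fin 2) (Fin 2 ⊕ Fin 2) ℝ) = M.map (Int.castRingHom ℝ)}
  mul_mem' := by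
    rintro a b ⟨M, hM⟩ ⟨N, hN⟩
    refine ⟨M * N, ?_⟩
    rw [Matrix.map_mul, ← hM, ← hN]
    rfl
  one_mem' := ⟨1, by simp⟩
  inv_mem' := by
    rintro a ⟨M, hM⟩
    refine ⟨(-J (Fin 2) ℤ) * Mᵀ * J (Fin 2) ℤ, ?_⟩
    rw [SymplecticGroup.coe_inv, hM, Matrix.map_mul, Matrix.map_mul, map_J, ← transpose_map]
    congr 2
    rw [Matrix.map_neg, map_J]
    intro x; simp

/-- the element `diag(e^s, e^t, e^{-s}, e^{-t})` of the maximal split torus `A` of `Sp(4, ℝ)`. -/
noncomputable def tor (s t : ℝ) : G :=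
  ⟨fromBlocks (diagonal ![Real.exp s, Real.exp t]) 0 0
      (diagonal ![Real.exp (-s), Real.exp (-t)]), by
    rw [SymplecticGroup.mem_iff, J, fromBlocks_transpose, fromBlocks_multiply,
      fromBlocks_multiply]
    simp only [diagonal_transpose, transpose_zero, Matrix.mul_zero, Matrix.zero_mul,
      Matrix.mul_one, Matrix.mul_neg, add_zero, zero_add, neg_zero, Matrix.neg_mul,
      diagonal_mul_diagonal]
    congr 1
    · ext i j; fin_cases i <;> fin_cases j <;> simp [← Real.exp_add]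
    · ext i j; fin_cases i <;> fin_cases j <;> simp [← Real.exp_add]⟩

/-- The one-parameter subgroup `{exp(uY) : u ∈ ℝ}` of `A` with direction `Y = (Y₁, Y₂)`. -/
noncomputable def oneParam (Y : ℝ × ℝ) : Set G := {g | ∃ u : ℝ, g = tor (u * Y.1) (u * Y.2)}

/-- The orbit `Dx` is divergent: `{d ∈ D : dx ∈ K}` is compact for every compact `K ⊆ G/Γ`. -/
def Divergent (D : Set G) (x : G ⧸ Gam) : Prop :=
  ∀ K : Set (G ⧸ Gam), IsCompact K → IsCompact {g : G | g ∈ D ∧ g • x ∈ K}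

/-- the ball `A_T` of radius `T` in the Lie algebra of `A` -/
def AT (T : ℝ) : Set (ℝ × ℝ) := {p | p.1 ^ 2 + p.2 ^ 2 < T ^ 2}

end TorusRec
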