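import Mathlib
import Pool.Agent.Helpers.RD0

open Matrix MeasureTheory Filter Topology

namespace TorusRec

/-- block embedding of two real `2 × 2` matrices in `4 × 4` matrices -/
def blk (g h : Matrix (Fin 2) (Fin 2) ℝ) : Matrix (Fin 2 ⊕ Fin 2) (Fin 2 ⊕ Fin 2) ℝ :=
  fromBlocks (diagonal ![g 0 0, h 0 0]) (diagonal ![g 0 1, h 0 1])
    (diagonal ![g 1 0, h 1 0]) (diagonal ![g 1 1, h 1 1])

lemma blk_mul (g h g' h' : Matrix (Fin 2) (Fin 2) ℝ) :
    blk g h * blk g' h' = blk (g * g') (h * h') := by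
  unfold blk
  rw [fromBlocks_multiply]
  simp only [diagonal_mul_diagonal, diagonal_add, Matrix.mul_apply, Fin.sum_univ_two]
  congr 1 <;>
  · congr 1
    ext i; fin_cases i <;> simp

lemma blk_mem (g h : Matrix (Fin 2) (Fin 2) ℝ) (hg : g.det = 1) (hh : h.det = 1) :
    blk g h ∈ symplecticGroup (Fin 2) ℝ := by
  rw [Matrix.det_fin_two] at hg hh
  rw [SymplecticGroup.mem_iff, J, blk, fromBlocks_transpose, fromBlocks_multiply,
    fromBlocks_multiply]
  simp only [diagonal_transpose, Matrix.mul_zero, Matrix.mul_one, Matrix.mul_neg, add_zero,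
    zero_add, Matrix.neg_mul, diagonal_mul_diagonal]
  congr 1
  · ext i j; fin_cases i <;> fin_cases j <;> simp <;> ring
  · ext i j; fin_cases i <;> fin_cases j <;> simp <;> linarith
  · ext i j; fin_cases i <;> fin_cases j <;> simp <;> linarith
  · ext i j; fin_cases i <;> fin_cases j <;> simp <;> ring

/-- the block embedding `SL(2,ℝ) × SL(2,ℝ) → Sp(4,ℝ)` -/
def E (g h : SpecialLinearGroup (Fin 2) ℝ) : G :=
  ⟨blk g h, blk_mem _ _ g.2 h.2⟩

lemma E_mul (g h g' h' : SpecialLinearGroup (Fin 2) ℝ) :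
    E g h * E g' h' = E (g * g') (h * h') := by
  apply Subtype.ext
  show blk _ _ * blk _ _ = blk _ _
  rw [blk_mul]
  simp

/-- diagonal element of `SL(2,ℝ)` -/
noncomputable def dg (s : ℝ) : SpecialLinearGroup (Fin 2) ℝ :=
  ⟨!![Real.exp s, 0; 0, Real.exp (-s)], by rw [Matrix.det_fin_two]; simp [← Real.exp_add]⟩

lemma tor_eq (s t : ℝ) : tor s t = E (dg s) (dg t) := by
  apply Subtype.ext
  show fromBlocks _ _ _ _ = blk _ _
  unfold blk dg
  congr 1
  · ext i j; fin_cases i <;> fin_cases j <;> simp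
  · ext i j; fin_cases i <;> fin_cases j <;> simp

lemma E_int (g h : SpecialLinearGroup (Fin 2) ℤ) :
    E (g.map (Int.castRingHom ℝ)) (h.map (Int.castRingHom ℝ)) ∈ Gam := by
  refine ⟨fromBlocks (diagonal ![g.1 0 0, h.1 0 0]) (diagonal ![g.1 0 1, h.1 0 1])
    (diagonal ![g.1 1 0, h.1 1 0]) (diagonal ![g.1 1 1, h.1 1 1]), ?_⟩
  show blk _ _ = _
  unfold blk
  rw [fromBlocks_map]
  congr 1 <;>
  · ext i j; fin_cases i <;> fin_cases j <;> simp

lemma cont_inv (i j : Fin 2 ⊕ Fin 2) :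
    Continuous (fun g : G => (g⁻¹ : G).1 i j) := by
  have h : (fun g : G => (g⁻¹ : G).1 i j) =
      fun g : G => ((-J (Fin 2) ℝ) * (g.1)ᵀ * J (Fin 2) ℝ) i j := by
    funext g; rw [← SymplecticGroup.coe_inv]
  rw [h]
  have h2 : Continuous (fun g : G => ((-J (Fin 2) ℝ) * (g.1)ᵀ * J (Fin 2) ℝ)) :=
    (continuous_const.matrix_mul (continuous_subtype_val.matrix_transpose)).matrix_mul
      continuous_const
  exact h2.matrix_elem i j

/-- compact sets of `G/Γ` see no short integer vectors. -/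
lemma compact_no_short (K : Set (G ⧸ Gam)) (hK : IsCompact K) :
    ∃ c : ℝ, 0 < c ∧ ∀ g : G, (QuotientGroup.mk g : G ⧸ Gam) ∈ K →
      ∀ v : (Fin 2 ⊕ Fin 2) → ℤ, v ≠ 0 →
        ∃ i, c ≤ |(g.1 *ᵥ (fun k => (v k : ℝ))) i| := by
  classical
  let W : ℕ → Set G := fun n => {g | ∀ i j, |(g⁻¹ : G).1 i j| < n}
  let U : ℕ → Set (G ⧸ Gam) := fun n => (QuotientGroup.mk : G → G ⧸ Gam) '' W n
  have hW : ∀ n, IsOpen (W n) := by
    intro n
    have : W n = ⋂ i, ⋂ j, {g : G | |(g⁻¹ : G).1 i j| < n} := by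
      ext g; simp [W]
    rw [this]
    refine isOpen_iInter_of_finite fun i => isOpen_iInter_of_finite fun j => ?_
    exact isOpen_lt (continuous_abs.comp (cont_inv i j)) continuous_const
  have hU : ∀ n, IsOpen (U n) := fun n => QuotientGroup.isOpenMap_coe _ (hW n)
  have hmono : Monotone U := by
    intro a b hab
    apply Set.image_mono
    intro g hg i j
    exact lt_of_lt_of_le (hg i j) (by exact_mod_cast hab)
  have hcov : K ⊆ ⋃ n, U n := by
    intro x _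
    obtain ⟨g, rfl⟩ := QuotientGroup.mk_surjective x
    obtain ⟨n, hn⟩ := exists_nat_gt (∑ i, ∑ j, |(g⁻¹ : G).1 i j|)
    refine Set.mem_iUnion.2 ⟨n, g, ?_, rfl⟩
    intro i j
    refine lt_of_le_of_lt ?_ hn
    refine le_trans ?_ (Finset.single_le_sum (f := fun i => ∑ j, |(g⁻¹ : G).1 i j|)
      (fun i _ => Finset.sum_nonneg fun j _ => abs_nonneg _) (Finset.mem_univ i))
    exact Finset.single_le_sum (f := fun j => |(g⁻¹ : G).1 i j|)
      (fun j _ => abs_nonneg _) (Finset.mem_univ j)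
  obtain ⟨n, hn⟩ := hK.elim_directed_cover U hU hcov (directed_of_isDirected_le hmono)
  refine ⟨1 / (4 * (n + 1)), by positivity, ?_⟩
  intro g hg v hv
  obtain ⟨g', hg', hgg⟩ := hn hg
  rw [QuotientGroup.eq] at hgg
  obtain ⟨M, hM⟩ := hgg
  by_contra hcon
  push Not at hcon
  -- `w = γ v` with `γ = g'⁻¹ g`
  have hw : ∀ i, ((M *ᵥ v) i : ℝ) = ((g'⁻¹ : G).1 *ᵥ (g.1 *ᵥ (fun k => (v k : ℝ)))) i := by
    intro i
    have h1 : (((g'⁻¹ : G) * g : G) : Matrix _ _ ℝ) = (g'⁻¹ : G).1 * g.1 := rfl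
    rw [Matrix.mulVec_mulVec, ← h1, hM]
    simp [Matrix.mulVec, dotProduct]
  have hsmall : ∀ i, |((M *ᵥ v) i : ℝ)| < 1 := by
    intro i
    rw [hw i]
    show |∑ j, (g'⁻¹ : G).1 i j * (g.1 *ᵥ (fun k => (v k : ℝ))) j| < 1
    have hterm : ∀ j, |(g'⁻¹ : G).1 i j * (g.1 *ᵥ (fun k => (v k : ℝ))) j| <
        1 / 4 := by
      intro j
      rw [abs_mul]
      have a1 := hg' i j
      have a2 := hcon j
      have a3 : (0 : ℝ) ≤ n := Nat.cast_nonneg n
      calc |(g'⁻¹ : G).1 i j| * |(g.1 *ᵥ (fun k => (v k : ℝ))) j|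
          ≤ n * (1 / (4 * (n + 1))) :=
            mul_le_mul a1.le a2.le (abs_nonneg _) a3
        _ < 1 / 4 := by
            rw [mul_one_div, div_lt_div_iff₀ (by positivity) (by norm_num)]
            linarith
    calc |∑ j, (g'⁻¹ : G).1 i j * (g.1 *ᵥ (fun k => (v k : ℝ))) j|
        ≤ ∑ j, |(g'⁻¹ : G).1 i j * (g.1 *ᵥ (fun k => (v k : ℝ))) j| :=
          Finset.abs_sum_le_sum_abs _ _
      _ < ∑ _j : Fin 2 ⊕ Fin 2, (1 / 4 : ℝ) :=
          Finset.sum_lt_sum_of_nonempty Finset.univ_nonempty (fun j _ => hterm j)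
      _ = 1 := by simp
  have hzero : M *ᵥ v = 0 := by
    funext i
    have := hsmall i
    have h2 : |(M *ᵥ v) i| < 1 := by exact_mod_cast this
    simpa using Int.abs_lt_one_iff.mp h2
  -- but `γ` is invertible
  have hv0 : (fun k => (v k : ℝ)) = 0 := by
    have h1 : (((g'⁻¹ : G) * g : G) : Matrix (Fin 2 ⊕ Fin 2) (Fin 2 ⊕ Fin 2) ℝ) *ᵥ
        (fun k => (v k : ℝ)) = 0 := by
      funext i
      have := hw i
      rw [hzero] at this
      have h1 : (((g'⁻¹ : G) * g : G) : Matrix _ _ ℝ) = (g'⁻¹ : G).1 * g.1 := rfl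
      rw [h1, ← Matrix.mulVec_mulVec, ← this]
      simp
    have h2 : (((((g'⁻¹ : G) * g)⁻¹ : G) * ((g'⁻¹ : G) * g) : G) :
        Matrix (Fin 2 ⊕ Fin 2) (Fin 2 ⊕ Fin 2) ℝ) *ᵥ (fun k => (v k : ℝ)) = 0 := by
      show ((((g'⁻¹ : G) * g)⁻¹ : G).1 * ((g'⁻¹ : G) * g : G).1) *ᵥ (fun k => (v k : ℝ)) = 0
      rw [← Matrix.mulVec_mulVec, h1]
      simp
    rw [inv_mul_cancel] at h2
    simpa using h2
  apply hv
  funext k
  have := congrFun hv0 k
  simpa using this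

end TorusRec
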