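import Mathlib
import Pool.Agent.Helpers.RD1

open Matrix MeasureTheory Filter Topology
open scoped Nat

namespace TorusRec

noncomputable def al : ℝ := liouvilleNumber 2

lemma sl_mul (a b : SpecialLinearGroup (Fin 2) ℝ) (i j : Fin 2) :
    (a * b).1 i j = a.1 i 0 * b.1 0 j + a.1 i 1 * b.1 1 j := by
  show (a.1 * b.1) i j = _
  rw [Matrix.mul_apply, Fin.sum_univ_two]

lemma sl_map (a : SpecialLinearGroup (Fin 2) ℤ) (i j : Fin 2) :
    (SpecialLinearGroup.map (Int.castRingHom ℝ) a).1 i j = ((a.1 i j : ℤ) : ℝ) := rfl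

lemma dg_val (s : ℝ) : (dg s).1 = !![Real.exp s, 0; 0, Real.exp (-s)] := rfl

def P : ℕ → ℕ
  | 0 => 1
  | (n+1) => P n * 2 ^ ((n+1)! - n !) + 1

lemma psum (n : ℕ) : LiouvilleNumber.partialSum 2 n = (P n : ℝ) / 2 ^ (n !) := by
  induction n with
  | zero => simp [LiouvilleNumber.partialSum, P]
  | succ n ih =>
    rw [LiouvilleNumber.partialSum_succ, ih]
    have h : n ! ≤ (n+1)! := Nat.factorial_le (Nat.le_succ n)
    have h2 : (2:ℝ) ^ (n+1)! = 2 ^ ((n+1)! - n !) * 2 ^ (n !) := by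
      rw [← pow_add, Nat.sub_add_cancel h]
    rw [P, h2]
    push_cast
    field_simp

lemma del (n : ℕ) : 0 < 2^(n !) * al - P n ∧
    2^(n !) * al - P n < 2 * 2^(n !) / 2^((n+1)!) := by
  have h1 := LiouvilleNumber.partialSum_add_remainder (m := 2) (by norm_num) n
  have h2 := LiouvilleNumber.remainder_pos (m := 2) (by norm_num) n
  have h3 := LiouvilleNumber.remainder_lt' n (m := 2) (by norm_num)
  have h4 : 2^(n !) * al - P n = 2^(n !) * LiouvilleNumber.remainder 2 n := by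
    unfold al
    rw [← h1, psum]
    field_simp
    ring
  rw [h4]
  refine ⟨by positivity, ?_⟩
  have h5 : (0:ℝ) < 2^(n !) := by positivity
  calc 2^(n !) * LiouvilleNumber.remainder 2 n
      < 2^(n !) * ((1 - 1 / 2)⁻¹ * (1 / 2 ^ (n + 1)!)) := by
        exact mul_lt_mul_of_pos_left h3 h5
    _ = 2 * 2^(n !) / 2^((n+1)!) := by
        have : ((1:ℝ) - 1/2)⁻¹ = 2 := by norm_num
        rw [this]; ring

lemma cop (n : ℕ) (hn : 2 ≤ n) : Nat.Coprime (P n) (2^(n !)) := by
  apply Nat.Coprime.pow_right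
  rw [Nat.coprime_two_right]
  obtain ⟨m, rfl⟩ : ∃ m, n = m + 1 := ⟨n - 1, by omega⟩
  have hm : 1 ≤ m := by omega
  rw [P]
  have h : m ! < (m+1)! := by
    rw [Nat.factorial_succ]
    have := Nat.factorial_pos m
    nlinarith
  have h2 : Even (P m * 2 ^ ((m+1)! - m !)) := by
    apply Even.mul_left
    apply (Nat.even_pow.2 ⟨even_two, by omega⟩)
  exact h2.add_one

noncomputable def ga : SpecialLinearGroup (Fin 2) ℝ :=
  ⟨!![1, al; 0, 1], by rw [Matrix.det_fin_two]; simp⟩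

lemma al_lt : al < 3/2 := by
  have := (del 0).2
  simp [P] at this
  linarith

lemma al_pos : 1/2 < al := by
  have := (del 0).1
  simp [P] at this
  linarith

lemma fac2 (n : ℕ) (hn : 1 ≤ n) : 2 * n ! ≤ (n+1)! := by
  rw [Nat.factorial_succ]
  exact Nat.mul_le_mul_right _ (by omega)

lemma ret1 (n : ℕ) (hn : 2 ≤ n) : ∃ γ : SpecialLinearGroup (Fin 2) ℤ,
    ∀ i j, |(dg (n ! * Real.log 2) * ga *
      SpecialLinearGroup.map (Int.castRingHom ℝ) γ).1 i j| ≤ 9 := by
  have hc : IsCoprime ((P n : ℕ) : ℤ) ((2^(n !) : ℕ) : ℤ) :=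
    Nat.isCoprime_iff_coprime.2 (cop n hn)
  obtain ⟨u, v, huv⟩ := hc
  set Q : ℤ := ((2^(n !) : ℕ) : ℤ) with hQ
  set p : ℤ := ((P n : ℕ) : ℤ) with hp
  have hQpos : 0 < Q := by rw [hQ]; positivity
  set B : ℤ := u % Q with hB
  have hB0 : 0 ≤ B := Int.emod_nonneg _ hQpos.ne'
  have hB1 : B < Q := Int.emod_lt_of_pos _ hQpos
  set A : ℤ := v + (u / Q) * p with hA
  have hdiv : Q * (u / Q) + B = u := Int.mul_ediv_add_emod u Q
  have hAB : A * Q + p * B = 1 := by
    rw [hA, ← huv]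
    linear_combination p * hdiv
  obtain ⟨γ, hγ⟩ : ∃ γ : SpecialLinearGroup (Fin 2) ℤ, γ.1 = !![A, -p; B, Q] :=
    ⟨⟨!![A, -p; B, Q], by rw [Matrix.det_fin_two]; simp; linarith⟩, rfl⟩
  refine ⟨γ, ?_⟩
  have hexp : Real.exp (n ! * Real.log 2) = 2 ^ (n !) := by
    rw [mul_comm, Real.exp_mul, Real.exp_log (by norm_num)]
    exact_mod_cast rfl
  have hexp' : Real.exp (-(n ! * Real.log 2)) = (2 ^ (n !))⁻¹ := by
    rw [Real.exp_neg, hexp]
  obtain ⟨d1, d2⟩ := del n
  set q : ℝ := 2 ^ (n !) with hq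
  have hqpos : 0 < q := by positivity
  have hQq : (Q : ℝ) = q := by rw [hQ]; push_cast; rfl
  have hpq : (p : ℝ) = P n := by rw [hp]; push_cast; rfl
  have hABr : (A : ℝ) * q + p * B = 1 := by rw [← hQq]; exact_mod_cast hAB
  have hB0r : (0:ℝ) ≤ B := by exact_mod_cast hB0
  have hB1r : (B:ℝ) ≤ q := by rw [← hQq]; exact_mod_cast hB1.le
  have hd3 : q * (q * al - P n) ≤ 2 := by
    have h1 : q * (q * al - P n) ≤ q * (2 * q / 2^((n+1)!)) :=
      mul_le_mul_of_nonneg_left d2.le hqpos.le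
    refine h1.trans ?_
    have h2 : q * q ≤ 2^((n+1)!) := by
      rw [hq, ← pow_add]
      apply pow_le_pow_right₀ (by norm_num)
      have := fac2 n (by omega)
      omega
    have h3 : (0:ℝ) < 2^((n+1)!) := by positivity
    rw [← mul_div_assoc, div_le_iff₀ h3]
    nlinarith
  have hd4 : B * (q * al - P n) ≤ 2 :=
    le_trans (mul_le_mul_of_nonneg_right hB1r d1.le) hd3
  have hd5 : 0 ≤ B * (q * al - P n) := mul_nonneg hB0r d1.le
  have hd6 : 0 ≤ q * (q * al - P n) := mul_nonneg hqpos.le d1.le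
  intro i j
  rw [sl_mul, sl_mul, sl_mul, sl_map, sl_map, dg_val, ga, hexp, hexp', hγ]
  fin_cases i <;> fin_cases j <;> simp
  · rw [hpq] at hABr
    rw [abs_le]
    constructor <;> nlinarith
  · rw [hpq, hQq, abs_le]
    constructor <;> nlinarith
  · rw [abs_of_nonneg hB0r, abs_of_pos hqpos]
    have h2 : q⁻¹ * B ≤ 1 := by
      rw [inv_mul_le_iff₀ hqpos]; linarith
    linarith
  · rw [hQq, abs_of_pos hqpos, inv_mul_cancel₀ hqpos.ne']
    norm_num

/-- diagonalising matrix for the periodic orbit -/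
noncomputable def hh : SpecialLinearGroup (Fin 2) ℝ :=
  ⟨!![1, Real.sqrt 2; -(Real.sqrt 2)/4, 1/2], by
    rw [Matrix.det_fin_two]; simp
    have : Real.sqrt 2 * Real.sqrt 2 = 2 := Real.mul_self_sqrt (by norm_num)
    nlinarith⟩

def g0 : SpecialLinearGroup (Fin 2) ℤ :=
  ⟨!![3, 4; 2, 3], by rw [Matrix.det_fin_two]; simp⟩

noncomputable def tau : ℝ := Real.log (3 + 2 * Real.sqrt 2)

lemma sq2 : Real.sqrt 2 * Real.sqrt 2 = 2 := Real.mul_self_sqrt (by norm_num)

lemma sq2_lt : Real.sqrt 2 < 3/2 := by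
  rw [Real.sqrt_lt' (by norm_num)]; norm_num

lemma exp_tau : Real.exp tau = 3 + 2 * Real.sqrt 2 :=
  Real.exp_log (by positivity)

lemma exp_neg_tau : Real.exp (-tau) = 3 - 2 * Real.sqrt 2 := by
  rw [Real.exp_neg, exp_tau]
  apply inv_eq_of_mul_eq_one_right
  nlinarith [sq2]

lemma tau_pos : 0 < tau := Real.log_pos (by have := Real.sqrt_nonneg 2; linarith)

lemma semi : SemiconjBy hh (g0.map (Int.castRingHom ℝ)) (dg tau) := by
  unfold SemiconjBy
  apply Subtype.ext
  have h2 := sq2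
  ext i j
  rw [sl_mul, sl_mul, sl_map, sl_map, dg_val, exp_tau, exp_neg_tau]
  fin_cases i <;> fin_cases j <;>
    simp [hh, g0] <;> nlinarith

lemma dg_add (s t : ℝ) : dg (s + t) = dg s * dg t := by
  apply Subtype.ext
  ext i j
  rw [sl_mul, dg_val, dg_val, dg_val]
  fin_cases i <;> fin_cases j <;>
    simp [Real.exp_add, mul_comm]

noncomputable def dgHom : Multiplicative ℝ →* SpecialLinearGroup (Fin 2) ℝ where
  toFun s := dg (Multiplicative.toAdd s)
  map_one' := by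
    apply Subtype.ext
    ext i j
    fin_cases i <;> fin_cases j <;> simp [dg]
  map_mul' s t := dg_add _ _

lemma dg_zpow (k : ℤ) : dg (k * tau) = (dg tau) ^ k := by
  have h : dgHom (Multiplicative.ofAdd tau ^ k) = (dgHom (Multiplicative.ofAdd tau)) ^ k :=
    map_zpow _ _ _
  have h2 : dgHom (Multiplicative.ofAdd tau ^ k) = dg (k * tau) := by
    rw [← ofAdd_zsmul]
    show dg (k • tau) = _
    rw [zsmul_eq_mul]
  rw [← h2, h]
  rfl

lemma ret2 (t : ℝ) : ∃ γ : SpecialLinearGroup (Fin 2) ℤ,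
    ∀ i j, |(dg t * hh * SpecialLinearGroup.map (Int.castRingHom ℝ) γ).1 i j| ≤ 9 := by
  set k : ℤ := ⌊t / tau⌋ with hk
  refine ⟨g0 ^ (-k), ?_⟩
  have h1 : dg t * hh * (g0 ^ (-k)).map (Int.castRingHom ℝ) = dg (t - k * tau) * hh := by
    have h2 : dg t = dg (t - k * tau) * dg (k * tau) := by rw [← dg_add]; congr 1; ring
    have h3 : dg (k * tau) * hh = hh * (g0.map (Int.castRingHom ℝ)) ^ k := by
      rw [dg_zpow]
      exact (semi.zpow_right k).symm
    rw [h2, mul_assoc (dg (t - k * tau)), h3, map_zpow, mul_assoc, mul_assoc hh, ← _root_.zpow_add]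
    simp
  rw [h1]
  have ht0 : 0 ≤ t - k * tau := by
    have := Int.floor_le (t / tau)
    rw [le_div_iff₀ tau_pos] at this
    linarith
  have ht1 : t - k * tau ≤ tau := by
    have := Int.lt_floor_add_one (t / tau)
    rw [div_lt_iff₀ tau_pos] at this
    rw [← hk] at this
    linarith
  have e1 : Real.exp (t - k * tau) ≤ 6 := by
    have := Real.exp_le_exp.2 ht1
    rw [exp_tau] at this
    have := sq2_lt
    linarith
  have e2 : Real.exp (-(t - k * tau)) ≤ 1 := by
    rw [Real.exp_le_one_iff]; linarith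
  have e3 := Real.exp_pos (t - k * tau)
  have e4 := Real.exp_pos (-(t - k * tau))
  have s0 := Real.sqrt_nonneg 2
  have s1 := sq2_lt
  set a := Real.exp (t - k * tau)
  set b := Real.exp (-(t - k * tau))
  intro i j
  fin_cases i <;> fin_cases j
  · show |(dg (t - k * tau) * hh).1 0 0| ≤ 9
    have : (dg (t - k * tau) * hh).1 0 0 = a := by
      rw [sl_mul, dg_val]; simp [hh, a]
    rw [this, abs_le]; constructor <;> linarith
  · show |(dg (t - k * tau) * hh).1 0 1| ≤ 9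
    have : (dg (t - k * tau) * hh).1 0 1 = a * Real.sqrt 2 := by
      rw [sl_mul, dg_val]; simp [hh, a]
    rw [this, abs_le]; constructor <;> nlinarith
  · show |(dg (t - k * tau) * hh).1 1 0| ≤ 9
    have : (dg (t - k * tau) * hh).1 1 0
        = b * (-(Real.sqrt 2)/4) := by
      rw [sl_mul, dg_val]; simp [hh, b]
    rw [this, abs_le]; constructor <;> nlinarith
  · show |(dg (t - k * tau) * hh).1 1 1| ≤ 9
    have : (dg (t - k * tau) * hh).1 1 1 = b * (1/2) := by
      rw [sl_mul, dg_val]; simp [hh, b]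
    rw [this, abs_le]; constructor <;> nlinarith

end TorusRec
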