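import Mathlib
import Pool.Agent.Helpers.RD2

open Matrix MeasureTheory Filter Topology
open scoped Nat

namespace TorusRec

noncomputable def x0 : G ⧸ Gam := QuotientGroup.mk (E ga hh)

lemma tor_smul (s t : ℝ) :
    tor s t • x0 = (QuotientGroup.mk (E (dg s * ga) (dg t * hh)) : G ⧸ Gam) := by
  unfold x0
  rw [MulAction.Quotient.smul_mk, smul_eq_mul, tor_eq, E_mul]

lemma bdd_compact (R : ℝ) : IsCompact {g : G | ∀ i j, |g.1 i j| ≤ R} := by
  have hclosed : IsClosed ((symplecticGroup (Fin 2) ℝ : Submonoid _) :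
      Set (Matrix (Fin 2 ⊕ Fin 2) (Fin 2 ⊕ Fin 2) ℝ)) := by
    have : ((symplecticGroup (Fin 2) ℝ : Submonoid _) :
      Set (Matrix (Fin 2 ⊕ Fin 2) (Fin 2 ⊕ Fin 2) ℝ)) =
        {A | A * J (Fin 2) ℝ * Aᵀ = J (Fin 2) ℝ} := rfl
    rw [this]
    refine isClosed_eq ?_ continuous_const
    exact (continuous_id.matrix_mul continuous_const).matrix_mul continuous_id.matrix_transpose
  have hce : IsClosedEmbedding (Subtype.val : G → Matrix (Fin 2 ⊕ Fin 2) (Fin 2 ⊕ Fin 2) ℝ) :=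
    hclosed.isClosedEmbedding_subtypeVal
  have hcomp : IsCompact {M : Matrix (Fin 2 ⊕ Fin 2) (Fin 2 ⊕ Fin 2) ℝ |
      ∀ i j, |M i j| ≤ R} := by
    have : {M : Matrix (Fin 2 ⊕ Fin 2) (Fin 2 ⊕ Fin 2) ℝ | ∀ i j, |M i j| ≤ R} =
        Set.pi Set.univ (fun _ => Set.pi Set.univ (fun _ => Set.Icc (-R) R)) := by
      ext M
      constructor
      · intro h i _ j _
        exact abs_le.1 (h i j)
      · intro h i j
        exact abs_le.2 (h i trivial j trivial)
    rw [this]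
    exact isCompact_univ_pi fun i => isCompact_univ_pi fun j => isCompact_Icc
  exact hce.isCompact_preimage hcomp

/-- a compact subset of `G/Γ` -/
def KK : Set (G ⧸ Gam) := (QuotientGroup.mk : G → G ⧸ Gam) '' {g : G | ∀ i j, |g.1 i j| ≤ 9}

lemma KK_compact : IsCompact KK :=
  (bdd_compact 9).image QuotientGroup.continuous_mk

lemma E_bdd (g h : SpecialLinearGroup (Fin 2) ℝ) (hg : ∀ i j, |g.1 i j| ≤ 9)
    (hh : ∀ i j, |h.1 i j| ≤ 9) : ∀ i j, |(E g h).1 i j| ≤ 9 := by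
  intro i j
  show |blk g h i j| ≤ 9
  unfold blk
  rcases i with i | i <;> rcases j with j | j <;> fin_cases i <;> fin_cases j <;>
    simp [hg, hh]

lemma mem_KK (g h : SpecialLinearGroup (Fin 2) ℝ) (γ γ' : SpecialLinearGroup (Fin 2) ℤ)
    (hg : ∀ i j, |(g * SpecialLinearGroup.map (Int.castRingHom ℝ) γ).1 i j| ≤ 9)
    (hh : ∀ i j, |(h * SpecialLinearGroup.map (Int.castRingHom ℝ) γ').1 i j| ≤ 9) :
    (QuotientGroup.mk (E g h) : G ⧸ Gam) ∈ KK := by
  refine ⟨E (g * SpecialLinearGroup.map (Int.castRingHom ℝ) γ)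
    (h * SpecialLinearGroup.map (Int.castRingHom ℝ) γ'), E_bdd _ _ hg hh, ?_⟩
  rw [← E_mul]
  rw [QuotientGroup.mk_mul_of_mem]
  exact E_int γ γ'

lemma entry_cont (i j : Fin 2 ⊕ Fin 2) : Continuous (fun g : G => g.1 i j) :=
  continuous_subtype_val.matrix_elem i j

lemma not_div (Y : ℝ × ℝ) (hY : Y ≠ 0) : ¬ Divergent (oneParam Y) x0 := by
  intro hdiv
  have hS := hdiv KK KK_compact
  by_cases h1 : Y.1 = 0
  · have h2 : Y.2 ≠ 0 := by
      intro h2; exact hY (Prod.ext h1 h2)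
    obtain ⟨B, hB⟩ := hS.exists_bound_of_continuousOn
      (entry_cont (Sum.inl 1) (Sum.inl 1)).continuousOn
    have hmem : tor 0 (B) ∈ {g : G | g ∈ oneParam Y ∧ g • x0 ∈ KK} := by
      refine ⟨⟨B / Y.2, ?_⟩, ?_⟩
      · rw [h1, mul_zero, div_mul_cancel₀ _ h2]
      · rw [tor_smul]
        obtain ⟨γ', hγ'⟩ := ret2 B
        refine mem_KK _ _ 1 γ' ?_ hγ'
        intro i j
        rw [map_one, mul_one, sl_mul, dg_val, ga]
        have := al_lt
        have := al_pos
        fin_cases i <;> fin_cases j <;> simp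
        rw [abs_le]; constructor <;> linarith
    have := hB _ hmem
    have h3 : (tor 0 B).1 (Sum.inl 1) (Sum.inl 1) = Real.exp B := by
      simp [tor]
    rw [h3, Real.norm_eq_abs, abs_of_pos (Real.exp_pos _)] at this
    have h4 := Real.add_one_le_exp B
    linarith
  · obtain ⟨B, hB⟩ := hS.exists_bound_of_continuousOn
      (entry_cont (Sum.inl 0) (Sum.inl 0)).continuousOn
    obtain ⟨n, hn⟩ := exists_nat_gt (max B 2)
    have hnB : B < n := lt_of_le_of_lt (le_max_left _ _) hn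
    have hn2 : 2 ≤ n := by
      have : (2:ℝ) < n := lt_of_le_of_lt (le_max_right _ _) hn
      exact_mod_cast this.le
    have hmem : tor (n ! * Real.log 2) (n ! * Real.log 2 / Y.1 * Y.2) ∈
        {g : G | g ∈ oneParam Y ∧ g • x0 ∈ KK} := by
      refine ⟨⟨n ! * Real.log 2 / Y.1, ?_⟩, ?_⟩
      · rw [div_mul_cancel₀ _ h1]
      · rw [tor_smul]
        obtain ⟨γ, hγ⟩ := ret1 n hn2
        obtain ⟨γ', hγ'⟩ := ret2 (n ! * Real.log 2 / Y.1 * Y.2)
        exact mem_KK _ _ γ γ' hγ hγ'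
    have := hB _ hmem
    have h3 : (tor (n ! * Real.log 2) (n ! * Real.log 2 / Y.1 * Y.2)).1 (Sum.inl 0) (Sum.inl 0)
        = 2 ^ (n !) := by
      have hexp : Real.exp (n ! * Real.log 2) = 2 ^ (n !) := by
        rw [mul_comm, Real.exp_mul, Real.exp_log (by norm_num)]
        exact_mod_cast rfl
      simp [tor, hexp]
    rw [h3, Real.norm_eq_abs, abs_of_pos (by positivity)] at this
    have h4 : (n : ℝ) < 2 ^ (n !) := by
      have h5 : n < 2 ^ n := Nat.lt_two_pow_self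
      have h6 : 2 ^ n ≤ 2 ^ (n !) := Nat.pow_le_pow_right (by norm_num) (Nat.self_le_factorial n)
      exact_mod_cast lt_of_lt_of_le h5 h6
    linarith

/-- the constraint coming from an integer vector in the first factor -/
lemma constraint (K : Set (G ⧸ Gam)) (hK : IsCompact K) : ∃ c : ℝ, 0 < c ∧
    ∀ s t : ℝ, tor s t • x0 ∈ K → ∀ v w : ℤ, (v, w) ≠ (0, 0) →
      c ≤ Real.exp s * |v + al * w| ∨ c ≤ Real.exp (-s) * |(w : ℝ)| := by
  obtain ⟨c, hc, h⟩ := compact_no_short K hK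
  refine ⟨c, hc, ?_⟩
  intro s t hst v w hvw
  rw [tor_smul] at hst
  have hv : (Sum.elim ![v, 0] ![w, 0] : Fin 2 ⊕ Fin 2 → ℤ) ≠ 0 := by
    intro h0
    apply hvw
    have h1 := congrFun h0 (Sum.inl 0)
    have h2 := congrFun h0 (Sum.inr 0)
    simp at h1 h2
    rw [h1, h2]
  obtain ⟨i, hi⟩ := h _ hst _ hv
  have hval : (E (dg s * ga) (dg t * hh)).1 *ᵥ
      (fun k => ((Sum.elim ![v, 0] ![w, 0] : Fin 2 ⊕ Fin 2 → ℤ) k : ℝ)) =
      Sum.elim ![Real.exp s * (v + al * w), 0] ![Real.exp (-s) * w, 0] := by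
    show blk _ _ *ᵥ _ = _
    unfold blk
    funext i
    have e00 : (dg s * ga).1 0 0 = Real.exp s := by rw [sl_mul, dg_val, ga]; simp
    have e01 : (dg s * ga).1 0 1 = Real.exp s * al := by rw [sl_mul, dg_val, ga]; simp
    have e10 : (dg s * ga).1 1 0 = 0 := by rw [sl_mul, dg_val, ga]; simp
    have e11 : (dg s * ga).1 1 1 = Real.exp (-s) := by rw [sl_mul, dg_val, ga]; simp
    rcases i with i | i <;> fin_cases i <;>
      simp [Matrix.mulVec, dotProduct, Fintype.sum_sum_type, Fin.sum_univ_two, e00, e01, e10,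
        e11] <;> ring
  rw [hval] at hi
  rcases i with i | i <;> fin_cases i
  · left
    simpa [abs_mul] using hi
  · exfalso; simp at hi; linarith
  · right
    simpa [abs_mul] using hi
  · exfalso; simp at hi; linarith

end TorusRec
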