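import Mathlib
import Pool.Agent.Helpers.RD3

open Matrix MeasureTheory Filter Topology
open scoped Nat

namespace TorusRec

lemma constraint2 (K : Set (G ⧸ Gam)) (hK : IsCompact K) : ∃ C : ℝ, 0 ≤ C ∧
    ∀ s t : ℝ, tor s t • x0 ∈ K → (-C ≤ s ∧ ∀ n : ℕ, s ≤ n ! * Real.log 2 + C ∨
      ((n+1)! : ℝ) * Real.log 2 - n ! * Real.log 2 - Real.log 2 - C ≤ s) := by
  obtain ⟨c, hc, h⟩ := constraint K hK
  refine ⟨|Real.log c|, abs_nonneg _, ?_⟩
  intro s t hst
  have hl1 : -|Real.log c| ≤ Real.log c := neg_abs_le _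
  constructor
  · rcases h s t hst 1 0 (by simp) with h1 | h1
    · simp at h1
      have := (Real.log_le_iff_le_exp hc).2 h1
      linarith
    · simp at h1; linarith
  · intro n
    obtain ⟨d1, d2⟩ := del n
    have hne : ((-(P n : ℤ), (2 ^ (n !) : ℤ)) : ℤ × ℤ) ≠ (0, 0) := by
      intro h0
      have := congrArg Prod.snd h0
      simp at this
    rcases h s t hst _ _ hne with h1 | h1
    · right
      have e1 : |(((-(P n : ℤ) : ℤ) : ℝ)) + al * ((2 ^ (n !) : ℤ) : ℝ)| =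
          2^(n !) * al - P n := by
        push_cast
        rw [← abs_of_pos d1]
        congr 1; ring
      rw [e1] at h1
      have h2 : c ≤ Real.exp s * (2 * 2^(n !) / 2^((n+1)!)) :=
        h1.trans (mul_le_mul_of_nonneg_left d2.le (Real.exp_pos s).le)
      have h3 := Real.log_le_log hc h2
      have p2 : (0:ℝ) < 2 ^ (n !) := by positivity
      have p3 : (0:ℝ) < 2 ^ ((n+1)!) := by positivity
      rw [Real.log_mul (Real.exp_pos s).ne' (by positivity), Real.log_exp,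
        Real.log_div (by positivity) p3.ne', Real.log_mul (by norm_num) p2.ne',
        Real.log_pow, Real.log_pow] at h3
      linarith
    · left
      have e1 : |((2 ^ (n !) : ℤ) : ℝ)| = 2^(n !) := by
        push_cast
        rw [abs_of_pos (by positivity)]
      rw [e1] at h1
      have h3 := Real.log_le_log hc h1
      have p2 : (0:ℝ) < 2 ^ (n !) := by positivity
      rw [Real.log_mul (Real.exp_pos _).ne' p2.ne', Real.log_exp, Real.log_pow] at h3
      linarith

lemma eps_bound (K : Set (G ⧸ Gam)) (hK : IsCompact K) (ε : ℝ) (hε : 0 < ε) :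
    ∀ᶠ T : ℝ in atTop, ∃ a b a' b' : ℝ,
      (∀ s t : ℝ, tor s t • x0 ∈ K → s ≤ T → s ∈ Set.Icc a b ∪ Set.Icc a' b') ∧
      a ≤ b ∧ a' ≤ b' ∧ (b - a) + (b' - a') ≤ ε * T := by
  obtain ⟨C, hC, h⟩ := constraint2 K hK
  set l : ℝ := Real.log 2 with hl
  have hlpos : 0 < l := Real.log_pos (by norm_num)
  obtain ⟨N, hN⟩ := exists_nat_gt (8 / ε)
  have hNpos : (0:ℝ) < N := lt_trans (by positivity) hN
  have hN1 : 8 < N * ε := by rwa [div_lt_iff₀ hε] at hN
  filter_upwards [eventually_ge_atTop ((N * N ! : ℝ) * l),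
    eventually_ge_atTop ((4 * (ε * (l + C) + l + 4 * C)) / ε), eventually_gt_atTop 0]
    with T hT1 hT2 hT0
  have hex : ∃ n : ℕ, T < ((n+1) * (n+1)! : ℝ) * l - l - C := by
    obtain ⟨n, hn⟩ := exists_nat_gt ((T + l + C) / l)
    refine ⟨n, ?_⟩
    rw [div_lt_iff₀ hlpos] at hn
    have h1 : (1:ℝ) ≤ (n+1)! := by exact_mod_cast Nat.factorial_pos (n+1)
    have h2 : (n:ℝ) ≤ (n+1) * (n+1)! := by nlinarith [Nat.cast_nonneg (α := ℝ) n]
    have h3 := mul_le_mul_of_nonneg_right h2 hlpos.le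
    linarith
  classical
  set n := Nat.find hex with hn
  have hn1 : T < ((n+1) * (n+1)! : ℝ) * l - l - C := Nat.find_spec hex
  have hnN : N ≤ n := by
    by_contra hlt
    push Not at hlt
    have h1 : ((n+1) * (n+1)! : ℝ) ≤ N * N ! := by
      have h2 : n + 1 ≤ N := hlt
      have h3 : (n+1)! ≤ N ! := Nat.factorial_le h2
      exact_mod_cast Nat.mul_le_mul h2 h3
    have h2 := mul_le_mul_of_nonneg_right h1 hlpos.le
    linarith
  have hNnat : 0 < N := by exact_mod_cast hNpos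
  obtain ⟨m, hm⟩ : ∃ m, n = m + 1 := ⟨n - 1, by omega⟩
  have hmin : ¬ (T < ((m+1) * (m+1)! : ℝ) * l - l - C) := by
    have := Nat.find_min hex (m := m) (by omega)
    exact this
  push Not at hmin
  have hmn : ((m:ℝ)+1) = n := by rw [hm]; push_cast; ring
  have hmn' : ((m+1)! : ℝ) = n ! := by rw [hm]
  rw [hmn, hmn'] at hmin
  -- n * n! * l ≤ T + l + C
  have hNn : (N : ℝ) ≤ n := by exact_mod_cast hnN
  have hfac : (0:ℝ) < n ! := by exact_mod_cast Nat.factorial_pos n
  have hb : N * (n ! * l) ≤ T + l + C := by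
    have : (N:ℝ) * (n ! * l) ≤ n * (n ! * l) :=
      mul_le_mul_of_nonneg_right hNn (by positivity)
    linarith
  have hb2 : 8 * (n ! * l) ≤ ε * (T + l + C) := by
    have h1 : 8 * (n ! * l) ≤ (N * ε) * (n ! * l) :=
      mul_le_mul_of_nonneg_right hN1.le (by positivity)
    have h2 := mul_le_mul_of_nonneg_left hb hε.le
    linarith
  rw [div_le_iff₀ hε] at hT2
  have hs2 : ((n+1)! : ℝ) = (n+1) * n ! := by
    rw [Nat.factorial_succ]; push_cast; ring
  have hs3 : ((n+1+1)! : ℝ) = (n+1+1) * (n+1)! := by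
    rw [Nat.factorial_succ (n+1)]; push_cast; ring
  refine ⟨-C, n ! * l + C, ((n+1)! : ℝ) * l - n ! * l - l - C, (n+1)! * l + C, ?_, ?_, ?_, ?_⟩
  · intro s t hst hsT
    obtain ⟨h1, h2⟩ := h s t hst
    rcases h2 n with h3 | h3
    · left; exact ⟨h1, h3⟩
    · right
      refine ⟨h3, ?_⟩
      rcases h2 (n+1) with h4 | h4
      · exact h4
      · exfalso
        rw [hs3] at h4
        have : ((n:ℝ)+1+1) * (n+1)! * l - (n+1)! * l - l - C ≤ s := h4
        nlinarith
  · have : 0 < n ! * l := by positivity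
    linarith
  · have : 0 < n ! * l := by positivity
    linarith
  · nlinarith

theorem prop_tendsto (K : Set (G ⧸ Gam)) (hK : IsCompact K) :
    Tendsto (fun T : ℝ => volume {p : ℝ × ℝ | p ∈ AT T ∧ tor p.1 p.2 • x0 ∈ K} /
      volume (AT T)) atTop (𝓝 0) := by
  rw [ENNReal.tendsto_nhds_zero]
  intro ε hε
  by_cases htop : ε = ⊤
  · rw [htop]; exact Eventually.of_forall fun _ => le_top
  have hr : 0 < ε.toReal := ENNReal.toReal_pos hε.ne' htop
  filter_upwards [eps_bound K hK (ε.toReal / 2) (by positivity), eventually_gt_atTop 0]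
    with T ⟨a, b, a', b', hcov, hab, hab', hle⟩ hT
  apply ENNReal.div_le_of_le_mul
  have hsub : {p : ℝ × ℝ | p ∈ AT T ∧ tor p.1 p.2 • x0 ∈ K} ⊆
      (Set.Icc a b ∪ Set.Icc a' b') ×ˢ Set.Icc (-T) T := by
    rintro ⟨s, t⟩ ⟨hp, hK'⟩
    have hp' : s ^ 2 + t ^ 2 < T ^ 2 := hp
    have hs : |s| < T := by
      apply abs_lt_of_sq_lt_sq _ hT.le
      nlinarith [sq_nonneg t]
    have ht : |t| < T := by
      apply abs_lt_of_sq_lt_sq _ hT.le
      nlinarith [sq_nonneg s]
    refine ⟨hcov s t hK' (abs_lt.1 hs).2.le, (abs_lt.1 ht).1.le, (abs_lt.1 ht).2.le⟩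
  have hsup : Set.Icc (-(T/2)) (T/2) ×ˢ Set.Icc (-(T/2)) (T/2) ⊆ AT T := by
    rintro ⟨s, t⟩ ⟨⟨h1, h2⟩, ⟨h3, h4⟩⟩
    show s ^ 2 + t ^ 2 < T ^ 2
    simp only at h1 h2 h3 h4
    have hs : s ^ 2 ≤ (T/2)^2 := sq_le_sq' h1 h2
    have ht : t ^ 2 ≤ (T/2)^2 := sq_le_sq' h3 h4
    nlinarith
  have hden : ENNReal.ofReal T * ENNReal.ofReal T ≤ volume (AT T) := by
    refine le_trans (le_of_eq ?_) (measure_mono hsup)
    rw [Measure.volume_eq_prod, Measure.prod_prod, Real.volume_Icc]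
    congr 2 <;> ring
  have hnum : volume {p : ℝ × ℝ | p ∈ AT T ∧ tor p.1 p.2 • x0 ∈ K} ≤
      ENNReal.ofReal (ε.toReal / 2 * T) * ENNReal.ofReal (2 * T) := by
    refine le_trans (measure_mono hsub) ?_
    rw [Measure.volume_eq_prod, Measure.prod_prod, Real.volume_Icc]
    refine mul_le_mul' ?_ (by rw [show T - -T = 2 * T by ring])
    refine le_trans (measure_union_le _ _) ?_
    rw [Real.volume_Icc, Real.volume_Icc, ← ENNReal.ofReal_add (by linarith) (by linarith)]
    exact ENNReal.ofReal_le_ofReal hle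
  calc volume {p : ℝ × ℝ | p ∈ AT T ∧ tor p.1 p.2 • x0 ∈ K}
      ≤ ENNReal.ofReal (ε.toReal / 2 * T) * ENNReal.ofReal (2 * T) := hnum
    _ = ENNReal.ofReal ε.toReal * (ENNReal.ofReal T * ENNReal.ofReal T) := by
        rw [← ENNReal.ofReal_mul (by positivity), ← ENNReal.ofReal_mul hT.le,
          ← ENNReal.ofReal_mul hr.le]
        congr 1; ring
    _ ≤ ε * volume (AT T) := by
        rw [ENNReal.ofReal_toReal htop]
        exact mul_le_mul_right hden ε

end TorusRec
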