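import Mathlib
import Pool.Agent.Helpers.RD4

open Matrix MeasureTheory Filter Topology

namespace TorusOrbit

/-- `Sp(4, ℝ)`. -/
def SpR : Type := symplecticGroup (Fin 2) ℝ

instance : Group SpR := inferInstanceAs (Group (symplecticGroup (Fin 2) ℝ))

/-- the topology of `Sp(4, ℝ)` as a set of real matrices -/
instance : TopologicalSpace SpR :=
  inferInstanceAs (TopologicalSpace (symplecticGroup (Fin 2) ℝ))

/-- `g` has integer entries. -/
def IsInt (g : SpR) : Prop :=
  ∃ M : Matrix (Fin 2 ⊕ Fin 2) (Fin 2 ⊕ Fin 2) ℤ, g.1 = M.map (Int.castRingHom ℝ)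

theorem isInt_mul {a b : SpR} (ha : IsInt a) (hb : IsInt b) : IsInt (a * b) :=
  TorusRec.Gam.mul_mem ha hb

theorem isInt_one : IsInt 1 := TorusRec.Gam.one_mem

theorem isInt_inv {a : SpR} (ha : IsInt a) : IsInt a⁻¹ := TorusRec.Gam.inv_mem ha

/-- `Sp(4, ℤ)`: the elements of `Sp(4, ℝ)` all of whose entries are integers. -/
def SpZ : Subgroup SpR where
  carrier := IsInt
  mul_mem' := isInt_mul
  one_mem' := isInt_one
  inv_mem' := isInt_inv

/-- the homogeneous space `Sp(4, ℝ)/Sp(4, ℤ)` -/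
def X : Type := SpR ⧸ SpZ

instance : TopologicalSpace X := inferInstanceAs (TopologicalSpace (SpR ⧸ SpZ))

/-- left multiplication -/
instance : MulAction SpR X := inferInstanceAs (MulAction SpR (SpR ⧸ SpZ))

/-- the matrix `diag(e^s, e^t, e^{-s}, e^{-t})` -/
noncomputable def torMat (s t : ℝ) : Matrix (Fin 2 ⊕ Fin 2) (Fin 2 ⊕ Fin 2) ℝ :=
  fromBlocks (diagonal ![Real.exp s, Real.exp t]) 0 0
      (diagonal ![Real.exp (-s), Real.exp (-t)])

theorem tor_mem (s t : ℝ) : torMat s t ∈ symplecticGroup (Fin 2) ℝ := (TorusRec.tor s t).2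

/-- the element `diag(e^s, e^t, e^{-s}, e^{-t})` of the maximal split torus `A` of `Sp(4, ℝ)`. -/
noncomputable def tor (s t : ℝ) : SpR := Subtype.mk (torMat s t) (tor_mem s t)

/-- The one-parameter subgroup `{exp(uY) : u ∈ ℝ}` of `A` with direction `Y = (Y₁, Y₂)`. -/
noncomputable def oneParam (Y : ℝ × ℝ) : Set SpR := {g | ∃ u : ℝ, g = tor (u * Y.1) (u * Y.2)}

/-- The orbit `Dx` is divergent: `{d ∈ D : dx ∈ K}` is compact for every compact `K ⊆ G/Γ`. -/
def Divergent (D : Set SpR) (x : X) : Prop :=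
  ∀ K : Set X, IsCompact K → IsCompact {g : SpR | g ∈ D ∧ g • x ∈ K}

/-- the ball `A_T` of radius `T` in the Lie algebra of `A` -/
def AT (T : ℝ) : Set (ℝ × ℝ) := {p | p.1 ^ 2 + p.2 ^ 2 < T ^ 2}

/-- the proportion of `A_T` that the orbit of `x` spends in `K` -/
noncomputable def prop (x : X) (K : Set X) (T : ℝ) : ENNReal :=
  volume {p : ℝ × ℝ | p ∈ AT T ∧ tor p.1 p.2 • x ∈ K} / volume (AT T)

end TorusOrbit
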