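import Mathlib

set_option autoImplicit false

open MeasureTheory
open scoped ENNReal Pointwise

namespace Pool.Agent.RE

/-- one-dimensional Brunn-Minkowski for compact sets -/
theorem bm_compact {K L : Set ℝ} (hK : IsCompact K) (hL : IsCompact L) (hKn : K.Nonempty)
    (hLn : L.Nonempty) : volume K + volume L ≤ volume (K + L) := by
  obtain ⟨m, hm, hmax⟩ := hK.exists_isGreatest hKn
  obtain ⟨l, hl, hmin⟩ := hL.exists_isLeast hLn
  have h1 : volume ((fun x => x + l) '' K) = volume K := by
    rw [Set.image_add_right]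
    exact measure_preimage_add_right volume (-l) K
  have h2 : volume ((fun x => m + x) '' L) = volume L := by
    rw [Set.image_add_left]
    exact measure_preimage_add volume (-m) L
  have h3 : ((fun x => x + l) '' K) ∪ ((fun x => m + x) '' L) ⊆ K + L := by
    rintro _ (⟨x, hx, rfl⟩ | ⟨x, hx, rfl⟩)
    · exact Set.add_mem_add hx hl
    · exact Set.add_mem_add hm hx
  have h4 : volume (((fun x => x + l) '' K) ∩ ((fun x => m + x) '' L)) = 0 := by
    have : ((fun x => x + l) '' K) ∩ ((fun x => m + x) '' L) ⊆ {m + l} := by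
      rintro y ⟨⟨x, hx, rfl⟩, ⟨x', hx', h'⟩⟩
      have a1 := hmax hx
      have a2 := hmin hx'
      have h'' : m + x' = x + l := h'
      show x + l = m + l
      linarith
    exact measure_mono_null this (by simp)
  have hmL : MeasurableSet ((fun x => m + x) '' L) :=
    (hL.image (by fun_prop)).measurableSet
  have h5 := measure_union_add_inter (μ := volume) ((fun x => x + l) '' K) hmL
  rw [h4, add_zero, h1, h2] at h5
  rw [← h5]
  exact measure_mono h3

/-- one-dimensional Brunn-Minkowski for measurable sets -/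
theorem bm {U V : Set ℝ} (hU : MeasurableSet U) (hV : MeasurableSet V) (hUn : U.Nonempty)
    (hVn : V.Nonempty) : volume U + volume V ≤ volume (U + V) := by
  obtain ⟨u, hu⟩ := hUn
  obtain ⟨v, hv⟩ := hVn
  have key : ∀ K ⊆ U, IsCompact K → ∀ L ⊆ V, IsCompact L → volume K + volume L ≤ volume (U + V) := by
    intro K hK hKc L hL hLc
    calc volume K + volume L ≤ volume (K ∪ {u}) + volume (L ∪ {v}) :=
          add_le_add (measure_mono Set.subset_union_left) (measure_mono Set.subset_union_left)
      _ ≤ volume ((K ∪ {u}) + (L ∪ {v})) :=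
          bm_compact (hKc.union isCompact_singleton) (hLc.union isCompact_singleton)
            ⟨u, Or.inr rfl⟩ ⟨v, Or.inr rfl⟩
      _ ≤ volume (U + V) := by
          apply measure_mono
          apply Set.add_subset_add
          · exact Set.union_subset hK (Set.singleton_subset_iff.2 hu)
          · exact Set.union_subset hL (Set.singleton_subset_iff.2 hv)
  have key2 : ∀ L ⊆ V, IsCompact L → volume U + volume L ≤ volume (U + V) := by
    intro L hL hLc
    have hfin : volume L ≠ ∞ := hLc.measure_lt_top.ne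
    have h0 : volume L ≤ volume (U + V) := by
      have := key ∅ (Set.empty_subset _) isCompact_empty L hL hLc
      simpa using this
    have h1 : volume U ≤ volume (U + V) - volume L := by
      rw [hU.measure_eq_iSup_isCompact]
      refine iSup_le fun K => iSup_le fun hK => iSup_le fun hKc => ?_
      exact ENNReal.le_sub_of_add_le_right hfin (key K hK hKc L hL hLc)
    calc volume U + volume L ≤ (volume (U + V) - volume L) + volume L := add_le_add h1 le_rfl
      _ = volume (U + V) := tsub_add_cancel_of_le h0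
  by_cases hUf : volume U = ∞
  · have := key2 ∅ (Set.empty_subset _) isCompact_empty
    rw [hUf] at this ⊢
    simp only [measure_empty, add_zero] at this
    rw [top_add]; exact this
  · have h0 : volume U ≤ volume (U + V) := by
      have := key2 ∅ (Set.empty_subset _) isCompact_empty
      simpa using this
    have h1 : volume V ≤ volume (U + V) - volume U := by
      rw [hV.measure_eq_iSup_isCompact]
      refine iSup_le fun L => iSup_le fun hL => iSup_le fun hLc => ?_
      have := key2 L hL hLc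
      rw [add_comm] at this
      exact ENNReal.le_sub_of_add_le_right hUf this
    calc volume U + volume V ≤ volume U + (volume (U + V) - volume U) := add_le_add le_rfl h1
      _ = volume (U + V) := add_tsub_cancel_of_le h0

/-- weighted form -/
theorem bm_weight {U V : Set ℝ} (hU : MeasurableSet U) (hV : MeasurableSet V) (hUn : U.Nonempty)
    (hVn : V.Nonempty) {t : ℝ} (h0 : 0 < t) (h1 : t < 1) :
    ENNReal.ofReal t * volume U + ENNReal.ofReal (1 - t) * volume V ≤
      volume {z | ∃ a ∈ U, ∃ b ∈ V, z = t * a + (1 - t) * b} := by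
  have e1 : volume (t • U) = ENNReal.ofReal t * volume U := by
    rw [Measure.addHaar_smul]
    simp [abs_of_pos h0]
  have e2 : volume ((1 - t) • V) = ENNReal.ofReal (1 - t) * volume V := by
    rw [Measure.addHaar_smul]
    simp [abs_of_pos (show 0 < 1 - t by linarith)]
  rw [← e1, ← e2]
  refine le_trans (bm (hU.const_smul₀ t) (hV.const_smul₀ (1 - t)) hUn.smul_set hVn.smul_set) (measure_mono ?_)
  rintro z ⟨_, ⟨a, ha, rfl⟩, _, ⟨b, hb, rfl⟩, rfl⟩
  exact ⟨a, ha, b, hb, rfl⟩

/-- the one-dimensional Borell-Brascamp-Lieb inequality with exponent -1 -/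
theorem bbl {F G H : ℝ → ℝ} (mF : Measurable F) (mG : Measurable G) (mH : Measurable H)
    (nF : ∀ x, 0 ≤ F x) (nG : ∀ x, 0 ≤ G x) (nH : ∀ x, 0 ≤ H x) {C : ℝ} (bF : ∀ x, F x ≤ C)
    (bG : ∀ x, G x ≤ C) {t : ℝ} (h0 : 0 < t) (h1 : t < 1)
    (pF : ∃ x, 0 < F x) (pG : ∃ x, 0 < G x)
    (h : ∀ x y, 0 < F x → 0 < G y → 1 / (t / F x + (1 - t) / G y) ≤ H (t * x + (1 - t) * y)) :
    min (∫⁻ x, ENNReal.ofReal (F x)) (∫⁻ x, ENNReal.ofReal (G x)) ≤ ∫⁻ x, ENNReal.ofReal (H x) := by
  have bddF : BddAbove (Set.range F) := ⟨C, by rintro _ ⟨x, rfl⟩; exact bF x⟩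
  have bddG : BddAbove (Set.range G) := ⟨C, by rintro _ ⟨x, rfl⟩; exact bG x⟩
  obtain ⟨xF, hxF⟩ := pF
  obtain ⟨xG, hxG⟩ := pG
  let f0 : ℝ := ⨆ x, F x
  let g0 : ℝ := ⨆ x, G x
  have hf0 : 0 < f0 := lt_of_lt_of_le hxF (le_ciSup bddF xF)
  have hg0 : 0 < g0 := lt_of_lt_of_le hxG (le_ciSup bddG xG)
  have hFf : ∀ x, F x ≤ f0 := fun x => le_ciSup bddF x
  have hGg : ∀ x, G x ≤ g0 := fun x => le_ciSup bddG x
  have h1' : 0 < 1 - t := by linarith
  let m : ℝ := 1 / (t / f0 + (1 - t) / g0)
  have hden : 0 < t / f0 + (1 - t) / g0 := by positivity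
  have hm : 0 < m := by positivity
  have lc : ∀ {K : ℝ → ℝ} (_ : Measurable K) (_ : ∀ x, 0 ≤ K x) {c : ℝ} (_ : 0 < c),
      ENNReal.ofReal c⁻¹ * ∫⁻ x, ENNReal.ofReal (K x) =
        ∫⁻ τ in Set.Ioi (0 : ℝ), volume {x | τ < c⁻¹ * K x} := by
    intro K mK nK c hc
    rw [← lintegral_const_mul _ mK.ennreal_ofReal]
    have e : ∀ x, ENNReal.ofReal c⁻¹ * ENNReal.ofReal (K x) = ENNReal.ofReal (c⁻¹ * K x) := fun x =>
      (ENNReal.ofReal_mul (by positivity)).symm
    simp only [e]
    exact lintegral_eq_lintegral_meas_lt volume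
      (Filter.Eventually.of_forall fun x => mul_nonneg (by positivity) (nK x)) (mK.const_mul _).aemeasurable
  have key : ∀ τ ∈ Set.Ioi (0 : ℝ), ENNReal.ofReal t * volume {x | τ < f0⁻¹ * F x} +
      ENNReal.ofReal (1 - t) * volume {x | τ < g0⁻¹ * G x} ≤ volume {x | τ < m⁻¹ * H x} := by
    intro τ hτ
    have hτ0 : (0 : ℝ) < τ := hτ
    rcases lt_or_ge τ 1 with hτ1 | hτ1
    · have hUn : {x | τ < f0⁻¹ * F x}.Nonempty := by
        obtain ⟨x, hx⟩ := exists_lt_of_lt_ciSup (show τ * f0 < ⨆ x, F x by
          show τ * f0 < f0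
          nlinarith)
        refine ⟨x, ?_⟩
        show τ < f0⁻¹ * F x
        rw [inv_mul_eq_div, lt_div_iff₀ hf0]; exact hx
      have hVn : {x | τ < g0⁻¹ * G x}.Nonempty := by
        obtain ⟨x, hx⟩ := exists_lt_of_lt_ciSup (show τ * g0 < ⨆ x, G x by
          show τ * g0 < g0
          nlinarith)
        refine ⟨x, ?_⟩
        show τ < g0⁻¹ * G x
        rw [inv_mul_eq_div, lt_div_iff₀ hg0]; exact hx
      refine le_trans (bm_weight (measurableSet_lt measurable_const (mF.const_mul _))
        (measurableSet_lt measurable_const (mG.const_mul _)) hUn hVn h0 h1) (measure_mono ?_)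
      rintro z ⟨x, hx, y, hy, rfl⟩
      have hx' : τ < f0⁻¹ * F x := hx
      have hy' : τ < g0⁻¹ * G y := hy
      rw [inv_mul_eq_div, lt_div_iff₀ hf0] at hx'
      rw [inv_mul_eq_div, lt_div_iff₀ hg0] at hy'
      have pF : 0 < F x := lt_trans (by positivity) hx'
      have pG : 0 < G y := lt_trans (by positivity) hy'
      have h3 := h x y pF pG
      have h4 : t / F x + (1 - t) / G y < (t / f0 + (1 - t) / g0) / τ := by
        have a1 : t / F x < t / (τ * f0) := div_lt_div_of_pos_left h0 (by positivity) hx'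
        have a2 : (1 - t) / G y < (1 - t) / (τ * g0) := div_lt_div_of_pos_left h1' (by positivity) hy'
        have a3 : (t / f0 + (1 - t) / g0) / τ = t / (τ * f0) + (1 - t) / (τ * g0) := by
          field_simp
        rw [a3]; linarith
      have h5 : τ * m < 1 / (t / F x + (1 - t) / G y) := by
        have p1 : 0 < t / F x + (1 - t) / G y := by positivity
        have : 1 / ((t / f0 + (1 - t) / g0) / τ) < 1 / (t / F x + (1 - t) / G y) :=
          one_div_lt_one_div_of_lt p1 h4
        have e : 1 / ((t / f0 + (1 - t) / g0) / τ) = τ * m := by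
          simp only [m]; field_simp
        rwa [e] at this
      show τ < m⁻¹ * H (t * x + (1 - t) * y)
      rw [inv_mul_eq_div, lt_div_iff₀ hm]
      linarith
    · have e1 : {x | τ < f0⁻¹ * F x} = ∅ := by
        ext x
        simp only [Set.mem_ofPred_eq, Set.mem_empty_iff_false, iff_false, not_lt]
        rw [inv_mul_eq_div, div_le_iff₀ hf0]
        nlinarith [hFf x]
      have e2 : {x | τ < g0⁻¹ * G x} = ∅ := by
        ext x
        simp only [Set.mem_ofPred_eq, Set.mem_empty_iff_false, iff_false, not_lt]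
        rw [inv_mul_eq_div, div_le_iff₀ hg0]
        nlinarith [hGg x]
      rw [e1, e2]
      simp
  have hint : ENNReal.ofReal t * (ENNReal.ofReal f0⁻¹ * ∫⁻ x, ENNReal.ofReal (F x)) +
      ENNReal.ofReal (1 - t) * (ENNReal.ofReal g0⁻¹ * ∫⁻ x, ENNReal.ofReal (G x)) ≤
      ENNReal.ofReal m⁻¹ * ∫⁻ x, ENNReal.ofReal (H x) := by
    rw [lc mF nF hf0, lc mG nG hg0, lc mH nH hm]
    have mes : ∀ {K : ℝ → ℝ} (_ : Measurable K) (c : ℝ),
        Measurable (fun τ : ℝ => volume {x | τ < c * K x}) := by
      intro K mK c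
      exact (Antitone.measurable (fun a b hab => measure_mono (fun x hx => lt_of_le_of_lt hab hx)))
    rw [← lintegral_const_mul _ (mes mF _), ← lintegral_const_mul _ (mes mG _),
      ← lintegral_add_left ((mes mF _).const_mul _)]
    exact setLIntegral_mono (mes mH _) key
  set I := min (∫⁻ x, ENNReal.ofReal (F x)) (∫⁻ x, ENNReal.ofReal (G x)) with hI
  have h6 : ENNReal.ofReal m⁻¹ * I ≤ ENNReal.ofReal m⁻¹ * ∫⁻ x, ENNReal.ofReal (H x) := by
    refine le_trans ?_ hint
    have e : ENNReal.ofReal m⁻¹ = ENNReal.ofReal t * ENNReal.ofReal f0⁻¹ +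
        ENNReal.ofReal (1 - t) * ENNReal.ofReal g0⁻¹ := by
      rw [← ENNReal.ofReal_mul h0.le, ← ENNReal.ofReal_mul h1'.le,
        ← ENNReal.ofReal_add (by positivity) (by positivity)]
      congr 1
      simp only [m]
      rw [one_div, inv_inv]
      ring
    rw [e, add_mul, mul_assoc, mul_assoc]
    gcongr
    · exact min_le_left _ _
    · exact min_le_right _ _
  have h7 : ENNReal.ofReal m⁻¹ ≠ 0 := by
    rw [Ne, ENNReal.ofReal_eq_zero, not_le]; positivity
  exact (ENNReal.mul_le_mul_iff_right h7 ENNReal.ofReal_ne_top).1 h6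

end Pool.Agent.RE
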