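import Mathlib
import Pool.Agent.Helpers.RE1

set_option autoImplicit false

open MeasureTheory
open scoped ENNReal Pointwise

namespace Pool.Agent.RE

/-- the density of the heavy tailed marginal -/
noncomputable def wt (x : ℝ) : ℝ := 1 / (2 * (1 + |x|) ^ 2)

/-- the heavy tailed marginal -/
noncomputable def nu : Measure ℝ := volume.withDensity (fun x => ENNReal.ofReal (wt x))

/-- uniform law on [-1,1] -/
noncomputable def un : Measure ℝ := (2 : ℝ≥0∞)⁻¹ • volume.restrict (Set.Icc (-1) 1)

/-- the law of the vector -/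
noncomputable def mu : Measure (ℝ × ℝ) := nu.prod un

theorem wt_pos (x : ℝ) : 0 < wt x := by unfold wt; positivity

theorem wt_le (x : ℝ) : wt x ≤ 1 / 2 := by
  unfold wt
  apply one_div_le_one_div_of_le (by norm_num)
  have := abs_nonneg x
  nlinarith

@[fun_prop]
theorem wt_cont : Continuous wt := by
  unfold wt
  refine Continuous.div continuous_const (by fun_prop) ?_
  intro x
  positivity

theorem wt_neg (x : ℝ) : wt (-x) = wt x := by unfold wt; rw [abs_neg]

instance : IsProbabilityMeasure un := by
  constructor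
  rw [un, Measure.smul_apply, Measure.restrict_apply_univ, Real.volume_Icc]
  norm_num
  exact ENNReal.inv_mul_cancel (by norm_num) (by norm_num)

theorem un_apply {S : Set ℝ} (hS : MeasurableSet S) :
    un S = (2 : ℝ≥0∞)⁻¹ * volume (S ∩ Set.Icc (-1) 1) := by
  rw [un, Measure.smul_apply, Measure.restrict_apply hS, smul_eq_mul]

theorem un_toReal {S : Set ℝ} (hS : MeasurableSet S) (hS' : S ⊆ Set.Icc (-1) 1) :
    (un S).toReal = (volume S).toReal / 2 := by
  rw [un_apply hS, Set.inter_eq_left.2 hS', ENNReal.toReal_mul, ENNReal.toReal_inv]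
  norm_num
  ring

/-- tail integrals -/
theorem tail_right {c : ℝ} (hc : 0 ≤ c) :
    ∫⁻ x in Set.Ioi c, ENNReal.ofReal (wt x) = ENNReal.ofReal (1 / (2 * (1 + c))) := by
  have hd : ∀ x ∈ Set.Ioi c, HasDerivAt (fun x => - (1 / (2 * (1 + x)))) (wt x) x := by
    intro x hx
    have hx' : c < x := hx
    have hx0 : 0 < x := by linarith
    have h1 : HasDerivAt (fun x : ℝ => 2 * (1 + x)) 2 x := by
      have := ((hasDerivAt_id x).const_add 1).const_mul 2
      simpa using this
    have h2 := (h1.inv (by positivity)).neg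
    have e : wt x = -(-2 / (2 * (1 + x)) ^ 2) := by
      unfold wt
      rw [abs_of_pos hx0]
      field_simp
    rw [e]
    refine h2.congr_of_eventuallyEq (Filter.Eventually.of_forall ?_)
    intro y
    simp [one_div]
  have hcont : ContinuousWithinAt (fun x : ℝ => - (1 / (2 * (1 + x)))) (Set.Ici c) c := by
    apply ContinuousAt.continuousWithinAt
    have : (2 * (1 + c)) ≠ 0 := by positivity
    fun_prop (disch := assumption)
  have hlim : Filter.Tendsto (fun x : ℝ => - (1 / (2 * (1 + x)))) Filter.atTop (nhds (-0)) := by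
    apply Filter.Tendsto.neg
    apply Filter.Tendsto.div_atTop tendsto_const_nhds
    apply Filter.Tendsto.const_mul_atTop (by norm_num)
    exact Filter.tendsto_atTop_add_const_left _ _ Filter.tendsto_id
  have hint : IntegrableOn wt (Set.Ioi c) :=
    integrableOn_Ioi_deriv_of_nonneg hcont hd (fun x _ => (wt_pos x).le) hlim
  have h := integral_Ioi_of_hasDerivAt_of_tendsto hcont hd hint hlim
  rw [← ofReal_integral_eq_lintegral_ofReal hint
    (Filter.Eventually.of_forall fun x => (wt_pos x).le), h]
  congr 1
  ring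

theorem refl_set (f : ℝ → ℝ≥0∞) (S : Set ℝ) (hf : ∀ x, f (-x) = f x) :
    ∫⁻ x in (Neg.neg ⁻¹' S), f x = ∫⁻ x in S, f x := by
  have h1 : MeasurePreserving (fun x : ℝ => -x) volume volume := Measure.measurePreserving_neg volume
  have := h1.setLIntegral_comp_preimage_emb (MeasurableEquiv.neg ℝ).measurableEmbedding f S
  rw [← this]
  exact lintegral_congr fun x => (hf x).symm

theorem tail_left {c : ℝ} (hc : 0 ≤ c) :
    ∫⁻ x in Set.Iio (-c), ENNReal.ofReal (wt x) = ENNReal.ofReal (1 / (2 * (1 + c))) := by
  rw [← tail_right hc, ← refl_set _ _ (fun x => by rw [wt_neg])]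
  congr 2
  ext x
  simp

instance : IsProbabilityMeasure nu := by
  constructor
  rw [nu, withDensity_apply _ MeasurableSet.univ]
  have h1 : (Set.univ : Set ℝ) = (Set.Iio (-0) ∪ Set.Ioi 0) ∪ {0} := by
    ext x
    simp
    rcases lt_trichotomy x 0 with h | h | h
    · right; exact h.ne
    · left; exact h
    · right; exact h.ne'
  rw [h1, lintegral_union (by simp), lintegral_union measurableSet_Ioi, tail_left le_rfl, tail_right le_rfl]
  · simp [ENNReal.inv_two_add_inv_two]
  · rw [Set.disjoint_left]
    intro x hx hx'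
    simp at hx hx'
    linarith
  · rw [Set.disjoint_left]
    intro x hx hx'
    simp at hx hx'
    exact hx hx'

instance : IsProbabilityMeasure mu := by unfold mu; infer_instance

end Pool.Agent.RE
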