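import Mathlib
import Pool.Agent.Helpers.RE2

set_option autoImplicit false

open MeasureTheory
open scoped ENNReal Pointwise

namespace Pool.Agent.RE

/-- the Minkowski combination -/
def comb {E : Type*} [AddCommGroup E] [Module ℝ E] (t : ℝ) (A B : Set E) : Set E :=
  {z | ∃ a ∈ A, ∃ b ∈ B, z = t • a + (1 - t) • b}

theorem comb_eq {E : Type*} [AddCommGroup E] [Module ℝ E] (t : ℝ) (A B : Set E) :
    comb t A B = t • A + (1 - t) • B := by
  ext z
  constructor
  · rintro ⟨a, ha, b, hb, rfl⟩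
    exact Set.add_mem_add (Set.smul_mem_smul_set ha) (Set.smul_mem_smul_set hb)
  · rintro ⟨_, ⟨a, ha, rfl⟩, _, ⟨b, hb, rfl⟩, rfl⟩
    exact ⟨a, ha, b, hb, rfl⟩

theorem comb_mono {E : Type*} [AddCommGroup E] [Module ℝ E] {t : ℝ} {A B A' B' : Set E}
    (h : A ⊆ A') (h' : B ⊆ B') : comb t A B ⊆ comb t A' B' := by
  rintro z ⟨a, ha, b, hb, rfl⟩
  exact ⟨a, h ha, b, h' hb, rfl⟩

/-- the strip -/
def strip : Set (ℝ × ℝ) := Set.univ ×ˢ Set.Icc (-1) 1

theorem strip_closed : IsClosed strip := isClosed_univ.prod isClosed_Icc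

theorem mu_apply {A : Set (ℝ × ℝ)} (hA : MeasurableSet A) :
    mu A = ∫⁻ x, ENNReal.ofReal ((un (Prod.mk x ⁻¹' A)).toReal * wt x) := by
  have hm : Measurable fun x => un (Prod.mk x ⁻¹' A) := measurable_measure_prodMk_left hA
  rw [mu, Measure.prod_apply hA, nu, lintegral_withDensity_eq_lintegral_mul _
    (by fun_prop) hm]
  refine lintegral_congr fun x => ?_
  rw [Pi.mul_apply, ENNReal.ofReal_mul ENNReal.toReal_nonneg, ENNReal.ofReal_toReal (measure_ne_top _ _),
    mul_comm]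

theorem mu_strip_compl : mu stripᶜ = 0 := by
  rw [mu_apply strip_closed.measurableSet.compl]
  have : ∀ x : ℝ, un (Prod.mk x ⁻¹' stripᶜ) = 0 := by
    intro x
    rw [un_apply (measurable_prodMk_left strip_closed.measurableSet.compl)]
    have : Prod.mk x ⁻¹' stripᶜ ∩ Set.Icc (-1 : ℝ) 1 = ∅ := by
      ext y
      simp [strip]
    rw [this]
    simp
  simp only [this]
  simp

theorem mu_inter_strip (A : Set (ℝ × ℝ)) : mu (A ∩ strip) = mu A :=
  measure_inter_conull mu_strip_compl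

/-- the key scalar inequality -/
theorem scalar {t a b c s u w : ℝ} (h0 : 0 < t) (h1 : t < 1) (ha : 0 < a) (hb : 0 < b)
    (hs : 1 ≤ s) (hu : 1 ≤ u) (hw : 1 ≤ w) (hw' : w ≤ t * s + (1 - t) * u)
    (hc : t * a + (1 - t) * b ≤ c) :
    1 / (t / (a * (1 / (2 * s ^ 2))) + (1 - t) / (b * (1 / (2 * u ^ 2)))) ≤
      c * (1 / (2 * w ^ 2)) := by
  have h1' : 0 < 1 - t := by linarith
  have hc0 : 0 < c := lt_of_lt_of_le (by positivity) hc
  have e1 : t / (a * (1 / (2 * s ^ 2))) + (1 - t) / (b * (1 / (2 * u ^ 2))) =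
      2 * (t * s ^ 2 / a + (1 - t) * u ^ 2 / b) := by
    field_simp
  rw [e1]
  have hs0 : 0 < s := by linarith
  have hu0 : 0 < u := by linarith
  have hw0 : 0 < w := by linarith
  have hX : 0 < t * s ^ 2 / a + (1 - t) * u ^ 2 / b := by positivity
  have key : (t * s + (1 - t) * u) ^ 2 ≤ (t * a + (1 - t) * b) * (t * s ^ 2 / a + (1 - t) * u ^ 2 / b) := by
    have e2 : (t * a + (1 - t) * b) * (t * s ^ 2 / a + (1 - t) * u ^ 2 / b) =
        (t * s + (1 - t) * u) ^ 2 + t * (1 - t) * (a * u - b * s) ^ 2 / (a * b) := by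
      field_simp
      ring
    rw [e2]
    have : 0 ≤ t * (1 - t) * (a * u - b * s) ^ 2 / (a * b) := by positivity
    linarith
  have key2 : w ^ 2 ≤ c * (t * s ^ 2 / a + (1 - t) * u ^ 2 / b) := by
    calc w ^ 2 ≤ (t * s + (1 - t) * u) ^ 2 := by gcongr
      _ ≤ _ := key
      _ ≤ _ := by gcongr
  rw [mul_one_div, div_le_div_iff₀ (by positivity) (by positivity)]
  linarith

theorem mu_compact {K L : Set (ℝ × ℝ)} (hK : IsCompact K) (hL : IsCompact L)
    (hKs : K ⊆ strip) (hLs : L ⊆ strip) (hK0 : mu K ≠ 0) (hL0 : mu L ≠ 0) {t : ℝ}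
    (h0 : 0 < t) (h1 : t < 1) : min (mu K) (mu L) ≤ mu (comb t K L) := by
  have h1' : 0 < 1 - t := by linarith
  have hCc : IsCompact (comb t K L) := by
    rw [comb_eq]
    exact (hK.smul t).add (hL.smul (1 - t))
  have mK := hK.measurableSet
  have mL := hL.measurableSet
  have mC := hCc.measurableSet
  have hCs : comb t K L ⊆ strip := by
    rintro z ⟨a, ha, b, hb, rfl⟩
    have ha' := hKs ha
    have hb' := hLs hb
    simp only [strip, Set.mem_prod, Set.mem_univ, true_and, Set.mem_Icc] at ha' hb' ⊢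
    simp only [Prod.snd_add, Prod.smul_snd, smul_eq_mul]
    constructor <;> nlinarith
  rw [mu_apply mK, mu_apply mL, mu_apply mC]
  have mk : ∀ {A : Set (ℝ × ℝ)} (_ : MeasurableSet A),
      Measurable fun x => (un (Prod.mk x ⁻¹' A)).toReal * wt x := by
    intro A hA
    exact ((measurable_measure_prodMk_left hA).ennreal_toReal).mul wt_cont.measurable
  have bd : ∀ (A : Set (ℝ × ℝ)) (x : ℝ), (un (Prod.mk x ⁻¹' A)).toReal * wt x ≤ 1 := by
    intro A x
    have a1 : (un (Prod.mk x ⁻¹' A)).toReal ≤ 1 := by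
      have := measureReal_le_one (μ := un) (s := Prod.mk x ⁻¹' A)
      exact this
    have a2 := wt_le x
    have a3 := wt_pos x
    have a4 : 0 ≤ (un (Prod.mk x ⁻¹' A)).toReal := ENNReal.toReal_nonneg
    nlinarith
  have nn : ∀ (A : Set (ℝ × ℝ)) (x : ℝ), 0 ≤ (un (Prod.mk x ⁻¹' A)).toReal * wt x :=
    fun A x => mul_nonneg ENNReal.toReal_nonneg (wt_pos x).le
  have ex : ∀ {A : Set (ℝ × ℝ)} (_ : MeasurableSet A) (_ : mu A ≠ 0),
      ∃ x, 0 < (un (Prod.mk x ⁻¹' A)).toReal * wt x := by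
    intro A hA hA0
    by_contra hcon
    push Not at hcon
    apply hA0
    rw [mu_apply hA]
    have : ∀ x, ENNReal.ofReal ((un (Prod.mk x ⁻¹' A)).toReal * wt x) = 0 :=
      fun x => ENNReal.ofReal_of_nonpos (hcon x)
    simp [this]
  refine bbl (mk mK) (mk mL) (mk mC) (nn K) (nn L) (nn _) (bd K) (bd L) h0 h1 (ex mK hK0) (ex mL hL0) ?_
  intro x y hx hy
  have hsec : ∀ {A : Set (ℝ × ℝ)} (_ : A ⊆ strip) (x : ℝ), Prod.mk x ⁻¹' A ⊆ Set.Icc (-1) 1 := by
    intro A hA x z hz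
    exact (hA hz).2
  have ms : ∀ {A : Set (ℝ × ℝ)} (_ : MeasurableSet A) (x : ℝ), MeasurableSet (Prod.mk x ⁻¹' A) :=
    fun hA x => measurable_prodMk_left hA
  have hxp : 0 < (un (Prod.mk x ⁻¹' K)).toReal := by
    by_contra hcon
    have : (un (Prod.mk x ⁻¹' K)).toReal * wt x ≤ 0 :=
      mul_nonpos_of_nonpos_of_nonneg (not_lt.1 hcon) (wt_pos x).le
    linarith
  have hyp : 0 < (un (Prod.mk y ⁻¹' L)).toReal := by
    by_contra hcon
    have : (un (Prod.mk y ⁻¹' L)).toReal * wt y ≤ 0 :=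
      mul_nonpos_of_nonpos_of_nonneg (not_lt.1 hcon) (wt_pos y).le
    linarith
  have neK : (Prod.mk x ⁻¹' K).Nonempty := by
    by_contra hcon
    rw [Set.not_nonempty_iff_eq_empty] at hcon
    rw [hcon] at hxp
    simp at hxp
  have neL : (Prod.mk y ⁻¹' L).Nonempty := by
    by_contra hcon
    rw [Set.not_nonempty_iff_eq_empty] at hcon
    rw [hcon] at hyp
    simp at hyp
  have hsub : {z | ∃ a ∈ Prod.mk x ⁻¹' K, ∃ b ∈ Prod.mk y ⁻¹' L, z = t * a + (1 - t) * b} ⊆
      Prod.mk (t * x + (1 - t) * y) ⁻¹' (comb t K L) := by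
    rintro z ⟨a, ha, b, hb, rfl⟩
    exact ⟨(x, a), ha, (y, b), hb, rfl⟩
  have hbm := le_trans (bm_weight (ms mK x) (ms mL y) neK neL h0 h1) (measure_mono hsub)
  have fin : ∀ {S : Set ℝ} (_ : S ⊆ Set.Icc (-1) 1), volume S ≠ ∞ := by
    intro S hS
    refine ne_top_of_le_ne_top ?_ (measure_mono hS)
    rw [Real.volume_Icc]
    exact ENNReal.ofReal_ne_top
  have fK := fin (hsec hKs x)
  have fL := fin (hsec hLs y)
  have fC := fin (hsec hCs (t * x + (1 - t) * y))
  have hbm' : t * (volume (Prod.mk x ⁻¹' K)).toReal + (1 - t) * (volume (Prod.mk y ⁻¹' L)).toReal ≤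
      (volume (Prod.mk (t * x + (1 - t) * y) ⁻¹' (comb t K L))).toReal := by
    have := ENNReal.toReal_mono fC hbm
    rw [ENNReal.toReal_add (ENNReal.mul_ne_top ENNReal.ofReal_ne_top fK)
      (ENNReal.mul_ne_top ENNReal.ofReal_ne_top fL), ENNReal.toReal_mul, ENNReal.toReal_mul,
      ENNReal.toReal_ofReal h0.le, ENNReal.toReal_ofReal h1'.le] at this
    exact this
  unfold wt
  have ab : ∀ z : ℝ, 1 ≤ 1 + |z| := fun z => by have := abs_nonneg z; linarith
  refine scalar h0 h1 hxp hyp (ab x) (ab y) (ab _) ?_ ?_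
  · have : |t * x + (1 - t) * y| ≤ t * |x| + (1 - t) * |y| := by
      refine (abs_add_le _ _).trans ?_
      rw [abs_mul, abs_mul, abs_of_pos h0, abs_of_pos h1']
    linarith
  · rw [un_toReal (ms mK x) (hsec hKs x), un_toReal (ms mL y) (hsec hLs y),
      un_toReal (ms mC _) (hsec hCs _)]
    linarith

theorem mu_concave {A B : Set (ℝ × ℝ)} (hA : MeasurableSet A) (hB : MeasurableSet B)
    {t : ℝ} (h0 : 0 < t) (h1 : t < 1) :
    min (mu A) (mu B) ≤ mu (comb t A B) := by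
  refine le_of_forall_lt fun r hr => ?_
  rw [lt_min_iff] at hr
  obtain ⟨r', hr1, hr2⟩ := exists_between (lt_min hr.1 hr.2)
  rw [lt_min_iff] at hr2
  obtain ⟨K, hKA, hK, hrK⟩ := hA.exists_lt_isCompact hr2.1
  obtain ⟨L, hLB, hL, hrL⟩ := hB.exists_lt_isCompact hr2.2
  refine lt_of_lt_of_le hr1 ?_
  have hK' : IsCompact (K ∩ strip) := hK.inter_right strip_closed
  have hL' : IsCompact (L ∩ strip) := hL.inter_right strip_closed
  have eK := mu_inter_strip K
  have eL := mu_inter_strip L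
  calc r' ≤ min (mu K) (mu L) := le_min hrK.le hrL.le
    _ = min (mu (K ∩ strip)) (mu (L ∩ strip)) := by rw [eK, eL]
    _ ≤ mu (comb t (K ∩ strip) (L ∩ strip)) := by
        refine mu_compact hK' hL' Set.inter_subset_right Set.inter_subset_right ?_ ?_ h0 h1
        · rw [eK]; exact (pos_of_gt hrK).ne'
        · rw [eL]; exact (pos_of_gt hrL).ne'
    _ ≤ mu (comb t A B) := measure_mono (comb_mono (Set.inter_subset_left.trans hKA)
        (Set.inter_subset_left.trans hLB))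

end Pool.Agent.RE
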