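import Mathlib
import Pool.Agent.Helpers.RE3

set_option autoImplicit false

open MeasureTheory
open scoped ENNReal Pointwise

namespace Pool.Agent.RE

/-- law of the linear functional -/
noncomputable def marg (μ : Measure (ℝ × ℝ)) (v : ℝ × ℝ) : Measure ℝ :=
  μ.map fun x => v.1 * x.1 + v.2 * x.2

theorem nu_le (S : Set ℝ) (hS : MeasurableSet S) : nu S ≤ volume S := by
  rw [nu, withDensity_apply _ hS]
  calc ∫⁻ x in S, ENNReal.ofReal (wt x) ≤ ∫⁻ _ in S, 1 := by
        refine lintegral_mono fun x => ?_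
        rw [← ENNReal.ofReal_one]
        exact ENNReal.ofReal_le_ofReal ((wt_le x).trans (by norm_num))
    _ = volume S := by simp

theorem un_le (S : Set ℝ) (hS : MeasurableSet S) : un S ≤ volume S := by
  rw [un_apply hS]
  calc (2 : ℝ≥0∞)⁻¹ * volume (S ∩ Set.Icc (-1) 1) ≤ 1 * volume S :=
        mul_le_mul' (by norm_num) (measure_mono Set.inter_subset_left)
    _ = volume S := one_mul _

instance (v : ℝ × ℝ) : IsProbabilityMeasure (marg mu v) := by
  unfold marg
  exact Measure.isProbabilityMeasure_map (by fun_prop)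

/-- bounded density of the marginals -/
theorem marg_le {v : ℝ × ℝ} (hv : v ≠ 0) : ∃ C : ℝ≥0∞, C ≠ ∞ ∧ ∀ S, MeasurableSet S →
    marg mu v S ≤ C * volume S := by
  have hmap : Measurable fun x : ℝ × ℝ => v.1 * x.1 + v.2 * x.2 := by fun_prop
  by_cases h1 : v.1 = 0
  · have h2 : v.2 ≠ 0 := fun h2 => hv (Prod.ext h1 h2)
    refine ⟨ENNReal.ofReal |v.2⁻¹|, ENNReal.ofReal_ne_top, fun S hS => ?_⟩
    have hpre : (fun x : ℝ × ℝ => v.1 * x.1 + v.2 * x.2) ⁻¹' S =
        Set.univ ×ˢ ((fun y => v.2 * y) ⁻¹' S) := by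
      ext x
      simp [h1]
    rw [marg, Measure.map_apply hmap hS, hpre, mu, Measure.prod_prod, measure_univ, one_mul]
    refine (un_le _ ((measurable_const_mul _) hS)).trans ?_
    rw [Real.volume_preimage_mul_left h2]
  · refine ⟨ENNReal.ofReal |v.1⁻¹|, ENNReal.ofReal_ne_top, fun S hS => ?_⟩
    rw [marg, Measure.map_apply hmap hS, mu, Measure.prod_apply_symm (hmap hS)]
    calc ∫⁻ y, nu ((fun x => (x, y)) ⁻¹' ((fun x : ℝ × ℝ => v.1 * x.1 + v.2 * x.2) ⁻¹' S)) ∂un
        ≤ ∫⁻ _, ENNReal.ofReal |v.1⁻¹| * volume S ∂un := by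
          refine lintegral_mono fun y => ?_
          have e : (fun x => (x, y)) ⁻¹' ((fun x : ℝ × ℝ => v.1 * x.1 + v.2 * x.2) ⁻¹' S) =
              (fun x => v.1 * x) ⁻¹' ((fun z => z + v.2 * y) ⁻¹' S) := by
            ext x
            simp
          rw [e]
          refine (nu_le _ ((measurable_const_mul _) ((measurable_add_const _) hS))).trans ?_
          rw [Real.volume_preimage_mul_left h1, measure_preimage_add_right]
      _ = ENNReal.ofReal |v.1⁻¹| * volume S := by simp

theorem marg_ac {v : ℝ × ℝ} (hv : v ≠ 0) : marg mu v ≪ volume := by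
  obtain ⟨C, hC, h⟩ := marg_le hv
  refine Measure.AbsolutelyContinuous.mk fun S hS hS0 => ?_
  have := h S hS
  rw [hS0, mul_zero] at this
  exact le_antisymm this zero_le

theorem marg_rn_le {v : ℝ × ℝ} (hv : v ≠ 0) : ∃ C : ℝ≥0∞, C ≠ ∞ ∧
    ∀ᵐ x, (marg mu v).rnDeriv volume x ≤ C := by
  obtain ⟨C, hC, h⟩ := marg_le hv
  refine ⟨C, hC, ?_⟩
  refine ae_le_of_forall_setLIntegral_le_of_sigmaFinite (Measure.measurable_rnDeriv _ _) ?_
  intro S hS _
  rw [Measure.setLIntegral_rnDeriv (marg_ac hv)]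
  simpa using h S hS

theorem pow_finite {p : ℝ} (hp : 1 < p) {v : ℝ × ℝ} (hv : v ≠ 0) :
    0 < ∫⁻ x, (marg mu v).rnDeriv volume x ^ p ∧ ∫⁻ x, (marg mu v).rnDeriv volume x ^ p < ∞ := by
  obtain ⟨C, hC, h⟩ := marg_rn_le hv
  have hm := Measure.measurable_rnDeriv (marg mu v) volume
  constructor
  · rw [pos_iff_ne_zero]
    intro h0
    rw [lintegral_eq_zero_iff (hm.pow_const p)] at h0
    have h1 : (marg mu v).rnDeriv volume =ᵐ[volume] 0 := by
      filter_upwards [h0] with x hx
      simp only [Pi.zero_apply] at hx ⊢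
      rw [ENNReal.rpow_eq_zero_iff] at hx
      rcases hx with hx | hx
      · exact hx.1
      · exfalso; linarith [hx.2]
    have h2 : ∫⁻ x, (marg mu v).rnDeriv volume x = marg mu v Set.univ :=
      Measure.lintegral_rnDeriv (marg_ac hv)
    rw [lintegral_congr_ae h1, measure_univ] at h2
    simp at h2
  · calc ∫⁻ x, (marg mu v).rnDeriv volume x ^ p ≤
        ∫⁻ x, C ^ (p - 1) * (marg mu v).rnDeriv volume x := by
          refine lintegral_mono_ae ?_
          filter_upwards [h] with x hx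
          have : (marg mu v).rnDeriv volume x ^ p =
              (marg mu v).rnDeriv volume x ^ (p - 1) * (marg mu v).rnDeriv volume x := by
            by_cases hz : (marg mu v).rnDeriv volume x = 0
            · rw [hz, mul_zero, ENNReal.zero_rpow_of_pos (by linarith)]
            · conv_rhs => rw [← ENNReal.rpow_one ((marg mu v).rnDeriv volume x), ← ENNReal.rpow_mul, one_mul]
              rw [← ENNReal.rpow_add _ _ hz (ne_top_of_le_ne_top hC hx)]
              congr 1
              ring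
          rw [this]
          gcongr
      _ = C ^ (p - 1) * ∫⁻ x, (marg mu v).rnDeriv volume x := lintegral_const_mul _ hm
      _ = C ^ (p - 1) := by rw [Measure.lintegral_rnDeriv (marg_ac hv), measure_univ, mul_one]
      _ < ∞ := (ENNReal.rpow_lt_top_of_nonneg (by linarith) hC)

end Pool.Agent.RE
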