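import Mathlib
import Pool.Agent.Helpers.RE4

set_option autoImplicit false

open MeasureTheory
open scoped ENNReal Pointwise

namespace Pool.Agent.RE

/-- window probability -/
noncomputable def Pe (e t : ℝ) : ℝ≥0∞ := nu (Set.Icc (t - e) (t + e))

theorem band_meas (e : ℝ) : MeasurableSet {z : ℝ × ℝ | z.1 - e ≤ z.2 ∧ z.2 ≤ z.1 + e} := by
  have h1 : MeasurableSet {z : ℝ × ℝ | z.1 - e ≤ z.2} := measurableSet_le (by fun_prop) (by fun_prop)
  have h2 : MeasurableSet {z : ℝ × ℝ | z.2 ≤ z.1 + e} := measurableSet_le (by fun_prop) (by fun_prop)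
  exact h1.inter h2

theorem Pe_meas (e : ℝ) : Measurable (Pe e) := by
  have h := measurable_measure_prodMk_left (ν := nu) (band_meas e)
  have h2 : (fun x => nu (Prod.mk x ⁻¹' {z : ℝ × ℝ | z.1 - e ≤ z.2 ∧ z.2 ≤ z.1 + e})) = Pe e := by
    funext x
    rfl
  rw [← h2]
  exact h

theorem Pe_le (e t : ℝ) : Pe e t ≤ 1 := prob_le_one

/-- the swap -/
theorem swap (e : ℝ) {S : Set ℝ} (hS : MeasurableSet S) :
    ∫⁻ x, volume (S ∩ Set.Icc (x - e) (x + e)) ∂nu = ∫⁻ s in S, Pe e s := by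
  have h1 : ∀ x, volume (S ∩ Set.Icc (x - e) (x + e)) =
      ∫⁻ s in S, (Set.Icc (x - e) (x + e)).indicator 1 s := by
    intro x
    rw [lintegral_indicator_one measurableSet_Icc, Measure.restrict_apply measurableSet_Icc,
      Set.inter_comm]
  have h2 : ∀ s, Pe e s = ∫⁻ x, (Set.Icc (s - e) (s + e)).indicator 1 x ∂nu := by
    intro s
    rw [lintegral_indicator_one measurableSet_Icc]
    rfl
  simp only [h1, h2]
  have hT : MeasurableSet {z : ℝ × ℝ | z.1 - e ≤ z.2 ∧ z.2 ≤ z.1 + e} := band_meas e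
  have h3 : ∀ x s : ℝ, (Set.Icc (x - e) (x + e)).indicator (1 : ℝ → ℝ≥0∞) s =
      ({z : ℝ × ℝ | z.1 - e ≤ z.2 ∧ z.2 ≤ z.1 + e}).indicator 1 (x, s) := by
    intro x s
    simp [Set.indicator]
  rw [lintegral_lintegral_swap]
  · refine lintegral_congr fun s => lintegral_congr fun x => ?_
    simp only [Set.indicator, Set.mem_Icc, Pi.one_apply]
    congr 1
    apply propext
    constructor
    · rintro ⟨a, b⟩
      exact ⟨by linarith, by linarith⟩
    · rintro ⟨a, b⟩
      exact ⟨by linarith, by linarith⟩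
  · have : (Function.uncurry fun x s : ℝ => (Set.Icc (x - e) (x + e)).indicator (1 : ℝ → ℝ≥0∞) s) =
        ({z : ℝ × ℝ | z.1 - e ≤ z.2 ∧ z.2 ≤ z.1 + e}).indicator 1 := by
      funext z
      exact h3 z.1 z.2
    rw [this]
    exact (measurable_one.indicator hT).aemeasurable

theorem marg_eq {e : ℝ} (he : 0 < e) : marg mu (1, e) =
    volume.withDensity (fun t => ENNReal.ofReal (2 * e)⁻¹ * Pe e t) := by
  ext S hS
  have hmap : Measurable fun x : ℝ × ℝ => (1 : ℝ) * x.1 + e * x.2 := by fun_prop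
  rw [marg, Measure.map_apply hmap hS, mu, Measure.prod_apply (hmap hS), withDensity_apply _ hS,
    lintegral_const_mul _ (Pe_meas e), ← swap e hS]
  rw [← lintegral_const_mul' _ _ ENNReal.ofReal_ne_top]
  refine lintegral_congr fun x => ?_
  have hT : MeasurableSet (Prod.mk x ⁻¹' ((fun x : ℝ × ℝ => (1 : ℝ) * x.1 + e * x.2) ⁻¹' S)) :=
    measurable_prodMk_left (hmap hS)
  rw [un_apply hT]
  have e1 : Prod.mk x ⁻¹' ((fun x : ℝ × ℝ => (1 : ℝ) * x.1 + e * x.2) ⁻¹' S) ∩ Set.Icc (-1) 1 =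
      (fun y => e * y) ⁻¹' ((fun z => z + x) ⁻¹' (S ∩ Set.Icc (x - e) (x + e))) := by
    ext y
    simp only [Set.mem_inter_iff, Set.mem_preimage, Set.mem_Icc]
    constructor
    · rintro ⟨h1, h2, h3⟩
      refine ⟨by convert h1 using 1; ring, by nlinarith, by nlinarith⟩
    · rintro ⟨h1, h2, h3⟩
      refine ⟨by convert h1 using 1; ring, ?_, ?_⟩
      · by_contra hcon
        nlinarith
      · by_contra hcon
        nlinarith
  rw [e1, Real.volume_preimage_mul_left he.ne', measure_preimage_add_right, ← mul_assoc]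
  congr 1
  rw [abs_of_pos (inv_pos.2 he), mul_inv, ENNReal.ofReal_mul (by norm_num)]
  congr 1
  rw [ENNReal.ofReal_inv_of_pos (by norm_num)]
  norm_num

theorem Pe_int (e : ℝ) : ∫⁻ t, Pe e t = ENNReal.ofReal (2 * e) := by
  have := swap e MeasurableSet.univ
  rw [Measure.restrict_univ] at this
  rw [← this]
  have h : ∀ x : ℝ, volume (Set.univ ∩ Set.Icc (x - e) (x + e)) = ENNReal.ofReal (2 * e) := by
    intro x
    rw [Set.univ_inter, Real.volume_Icc]
    congr 1
    ring
  simp only [h]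
  simp

/-- lower bounds for the window probabilities -/
theorem Pe_ge {e t : ℝ} (he : 1 ≤ e) (h0 : 0 ≤ t) (h1 : t ≤ e) : ENNReal.ofReal (1 / 4) ≤ Pe e t := by
  have h2 : Set.Ioi (0 : ℝ) ⊆ Set.Icc (t - e) (t + e) ∪ Set.Ioi e := by
    intro x hx
    have hx : 0 < x := hx
    by_cases h : x ≤ e
    · left; constructor <;> linarith
    · right; exact not_le.1 h
  have h3 := (measure_mono (μ := nu) h2).trans (measure_union_le _ _)
  have e1 : nu (Set.Ioi 0) = ENNReal.ofReal (1 / 2) := by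
    rw [nu, withDensity_apply _ measurableSet_Ioi, tail_right le_rfl]
    norm_num
  have e2 : nu (Set.Ioi e) ≤ ENNReal.ofReal (1 / 4) := by
    rw [nu, withDensity_apply _ measurableSet_Ioi, tail_right (by linarith)]
    apply ENNReal.ofReal_le_ofReal
    apply one_div_le_one_div_of_le <;> linarith
  rw [e1] at h3
  have h4 : ENNReal.ofReal (1 / 2) = ENNReal.ofReal (1 / 4) + ENNReal.ofReal (1 / 4) := by
    rw [← ENNReal.ofReal_add (by norm_num) (by norm_num)]
    norm_num
  rw [h4] at h3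
  have h5 : ENNReal.ofReal (1 / 4) + ENNReal.ofReal (1 / 4) ≤ Pe e t + ENNReal.ofReal (1 / 4) :=
    h3.trans (add_le_add le_rfl e2)
  exact (ENNReal.add_le_add_iff_right ENNReal.ofReal_ne_top).1 h5

theorem Pe_compl {e t : ℝ} (h1 : t ≤ e) :
    Pe e t + ENNReal.ofReal (1 / (2 * (1 + (e - t)))) ≤ 1 := by
  have h2 : nu (Set.Iio (-(e - t))) = ENNReal.ofReal (1 / (2 * (1 + (e - t)))) := by
    rw [nu, withDensity_apply _ measurableSet_Iio, tail_left (by linarith)]
  rw [← h2, Pe, ← measure_union _ measurableSet_Iio]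
  · exact prob_le_one
  · rw [Set.disjoint_left]
    intro x hx hx'
    have a1 := hx.1
    have a2 : x < -(e - t) := hx'
    linarith

end Pool.Agent.RE
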