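import Mathlib
import Pool.Agent.Helpers.RE5

set_option autoImplicit false

open MeasureTheory
open scoped ENNReal Pointwise

namespace Pool.Agent.RE

/-- power integral of the density -/
noncomputable def powInt (p : ℝ) (ρ : Measure ℝ) : ℝ≥0∞ := ∫⁻ x, ρ.rnDeriv volume x ^ p

/-- Renyi entropy -/
noncomputable def renyi (p : ℝ) (ρ : Measure ℝ) : ℝ := 1 / (1 - p) * Real.log (powInt p ρ).toReal

theorem powInt_wd (p : ℝ) {f : ℝ → ℝ≥0∞} (hf : Measurable f) :
    powInt p (volume.withDensity f) = ∫⁻ x, f x ^ p := by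
  unfold powInt
  refine lintegral_congr_ae ?_
  filter_upwards [Measure.rnDeriv_withDensity volume hf] with x hx
  rw [hx]

/-- scalar inequality -/
theorem scal_pow {p q : ℝ} (hp : 1 < p) (h0 : 0 ≤ q) (h1 : q ≤ 1) :
    q ^ p + min 1 (p - 1) * (q * (1 - q)) ≤ q := by
  have hpq : q ^ p = q * q ^ (p - 1) := by
    by_cases hq : q = 0
    · rw [hq, Real.zero_rpow (by linarith), zero_mul]
    · have hq0 : 0 < q := lt_of_le_of_ne h0 (Ne.symm hq)
      conv_rhs => rw [← Real.rpow_one q, ← Real.rpow_mul h0, one_mul]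
      rw [← Real.rpow_add hq0]
      congr 1
      ring
  have key : q ^ (p - 1) ≤ 1 - min 1 (p - 1) * (1 - q) := by
    by_cases h : p - 1 ≤ 1
    · rw [min_eq_right h]
      have := rpow_one_add_le_one_add_mul_self (s := q - 1) (by linarith) (by linarith : 0 ≤ p - 1) h
      have e : 1 + (q - 1) = q := by ring
      rw [e] at this
      linarith
    · rw [min_eq_left (by linarith)]
      have : q ^ (p - 1) ≤ q ^ (1 : ℝ) := by
        by_cases hq : q = 0
        · rw [hq, Real.zero_rpow (by linarith), Real.zero_rpow (by norm_num)]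
        · exact Real.rpow_le_rpow_of_exponent_ge (lt_of_le_of_ne h0 (Ne.symm hq)) h1 (by linarith)
      rw [Real.rpow_one] at this
      linarith
  rw [hpq]
  nlinarith [mul_le_mul_of_nonneg_left key h0]

theorem log_int {e : ℝ} (he : 0 ≤ e) :
    ∫⁻ t in Set.Icc 0 e, ENNReal.ofReal (1 / (1 + (e - t))) = ENNReal.ofReal (Real.log (1 + e)) := by
  have hc : ContinuousOn (fun t : ℝ => 1 / (1 + (e - t))) (Set.Icc 0 e) := by
    refine ContinuousOn.div continuousOn_const (by fun_prop) ?_
    intro t ht
    have := ht.2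
    have : 0 < 1 + (e - t) := by linarith
    exact this.ne'
  have hi : IntegrableOn (fun t : ℝ => 1 / (1 + (e - t))) (Set.Icc 0 e) := hc.integrableOn_Icc
  rw [← ofReal_integral_eq_lintegral_ofReal hi]
  · congr 1
    rw [integral_Icc_eq_integral_Ioc, ← intervalIntegral.integral_of_le he]
    have hd : ∀ t ∈ Set.uIcc 0 e, HasDerivAt (fun t => - Real.log (1 + (e - t))) (1 / (1 + (e - t))) t := by
      intro t ht
      rw [Set.uIcc_of_le he] at ht
      have hpos : 0 < 1 + (e - t) := by linarith [ht.2]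
      have h1 : HasDerivAt (fun t : ℝ => 1 + (e - t)) (-1) t := by
        simpa using ((hasDerivAt_id t).const_sub e).const_add 1
      have h2 := (h1.log hpos.ne').neg
      have e1 : 1 / (1 + (e - t)) = -(-1 / (1 + (e - t))) := by ring
      rw [e1]
      exact h2
    rw [intervalIntegral.integral_eq_sub_of_hasDerivAt hd]
    · simp
    · rw [intervalIntegrable_iff_integrableOn_Icc_of_le he]
      exact hi
  · rw [Filter.EventuallyLE, ae_restrict_iff' measurableSet_Icc]
    refine Filter.Eventually.of_forall fun t ht => ?_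
    have : 0 < 1 + (e - t) := by linarith [ht.2]
    simp only [Pi.zero_apply]
    positivity

theorem Pe_pow {p : ℝ} (hp : 1 < p) {e : ℝ} (he : 1 ≤ e) :
    (∫⁻ t, Pe e t ^ p) + ENNReal.ofReal (min 1 (p - 1) / 8 * Real.log (1 + e)) ≤
      ENNReal.ofReal (2 * e) := by
  have hc : 0 < min 1 (p - 1) := lt_min one_pos (by linarith)
  have hpt : ∀ t, Pe e t ^ p + (Set.Icc 0 e).indicator
      (fun t => ENNReal.ofReal (min 1 (p - 1) / 8) * ENNReal.ofReal (1 / (1 + (e - t)))) t ≤ Pe e t := by
    intro t
    have hfin : Pe e t ≠ ∞ := ne_top_of_le_ne_top ENNReal.one_ne_top (Pe_le e t)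
    have hq0 : 0 ≤ (Pe e t).toReal := ENNReal.toReal_nonneg
    have hq1 : (Pe e t).toReal ≤ 1 := by
      have := ENNReal.toReal_mono ENNReal.one_ne_top (Pe_le e t)
      simpa using this
    have hsc := scal_pow hp hq0 hq1
    have e1 : Pe e t = ENNReal.ofReal (Pe e t).toReal := (ENNReal.ofReal_toReal hfin).symm
    have e2 : Pe e t ^ p = ENNReal.ofReal ((Pe e t).toReal ^ p) := by
      conv_lhs => rw [e1]
      rw [ENNReal.ofReal_rpow_of_nonneg hq0 (by linarith)]
    by_cases ht : t ∈ Set.Icc 0 e
    · rw [Set.indicator_of_mem ht, e2]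
      conv_rhs => rw [e1]
      have hpos : 0 < 1 + (e - t) := by linarith [ht.2]
      rw [← ENNReal.ofReal_mul (by positivity), ← ENNReal.ofReal_add (by positivity) (by positivity)]
      apply ENNReal.ofReal_le_ofReal
      have g1 : 1 / 4 ≤ (Pe e t).toReal := by
        have := ENNReal.toReal_mono hfin (Pe_ge he ht.1 ht.2)
        rwa [ENNReal.toReal_ofReal (by norm_num)] at this
      have g2 : (Pe e t).toReal + 1 / (2 * (1 + (e - t))) ≤ 1 := by
        have := ENNReal.toReal_mono ENNReal.one_ne_top (Pe_compl ht.2)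
        rwa [ENNReal.toReal_add hfin ENNReal.ofReal_ne_top, ENNReal.toReal_ofReal (by positivity),
          ENNReal.toReal_one] at this
      have g3 : 1 / 8 * (1 / (1 + (e - t))) ≤ (Pe e t).toReal * (1 - (Pe e t).toReal) := by
        have g4 : 1 / (2 * (1 + (e - t))) ≤ 1 - (Pe e t).toReal := by linarith
        have g5 : 1 / 8 * (1 / (1 + (e - t))) = 1 / 4 * (1 / (2 * (1 + (e - t)))) := by
          field_simp
          ring
        rw [g5]
        have g6 : 0 ≤ 1 / (2 * (1 + (e - t))) := by positivity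
        exact mul_le_mul g1 g4 g6 hq0
      have g7 := mul_le_mul_of_nonneg_left g3 hc.le
      have g8 : min 1 (p - 1) / 8 * (1 / (1 + (e - t))) = min 1 (p - 1) * (1 / 8 * (1 / (1 + (e - t)))) := by
        ring
      rw [g8]
      linarith
    · rw [Set.indicator_of_notMem ht, add_zero, e2]
      conv_rhs => rw [e1]
      apply ENNReal.ofReal_le_ofReal
      have : 0 ≤ min 1 (p - 1) * ((Pe e t).toReal * (1 - (Pe e t).toReal)) := by
        have : 0 ≤ 1 - (Pe e t).toReal := by linarith
        positivity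
      linarith
  have h1 := lintegral_mono (μ := volume) hpt
  rw [lintegral_add_left ((Pe_meas e).pow_const p), Pe_int, lintegral_indicator measurableSet_Icc,
    lintegral_const_mul' _ _ ENNReal.ofReal_ne_top, log_int (by linarith),
    ← ENNReal.ofReal_mul (by positivity)] at h1
  exact h1

theorem renyi_big {p : ℝ} (hp : 1 < p) {e : ℝ} (he : 1 ≤ e) :
    2 * e + min 1 (p - 1) / 8 * Real.log (1 + e) / (p - 1) ≤
      Real.exp (renyi p (marg mu (1, e))) := by
  have he0 : 0 < e := by linarith
  have hp0 : 0 < p - 1 := by linarith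
  have hv : ((1 : ℝ), e) ≠ 0 := by
    intro h
    have := congrArg Prod.fst h
    simp at this
  set δ : ℝ := min 1 (p - 1) / 8 * Real.log (1 + e) with hδ
  have hlog : 0 ≤ Real.log (1 + e) := Real.log_nonneg (by linarith)
  have hc : 0 < min 1 (p - 1) := lt_min one_pos (by linarith)
  have hδ0 : 0 ≤ δ := by positivity
  set J : ℝ≥0∞ := ∫⁻ t, Pe e t ^ p with hJ
  have hPow := Pe_pow hp he
  rw [← hJ, ← hδ] at hPow
  have hJfin : J ≠ ∞ := ne_top_of_le_ne_top ENNReal.ofReal_ne_top (le_self_add.trans hPow)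
  have hJ' : J.toReal + δ ≤ 2 * e := by
    have := ENNReal.toReal_mono ENNReal.ofReal_ne_top hPow
    rwa [ENNReal.toReal_add hJfin ENNReal.ofReal_ne_top, ENNReal.toReal_ofReal hδ0,
      ENNReal.toReal_ofReal (by linarith)] at this
  have hZ : powInt p (marg mu (1, e)) = ENNReal.ofReal ((2 * e)⁻¹ ^ p) * J := by
    rw [marg_eq he0, powInt_wd p ((Pe_meas e).const_mul _)]
    have : ∀ x, (ENNReal.ofReal (2 * e)⁻¹ * Pe e x) ^ p = ENNReal.ofReal ((2 * e)⁻¹ ^ p) * Pe e x ^ p := by
      intro x
      rw [ENNReal.mul_rpow_of_nonneg _ _ (by linarith), ENNReal.ofReal_rpow_of_nonneg (by positivity) (by linarith)]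
    simp only [this]
    rw [lintegral_const_mul' _ _ ENNReal.ofReal_ne_top]
  have hZr : (powInt p (marg mu (1, e))).toReal = (2 * e)⁻¹ ^ p * J.toReal := by
    rw [hZ, ENNReal.toReal_mul, ENNReal.toReal_ofReal (by positivity)]
  have hfin := pow_finite hp hv
  have hpos : 0 < (powInt p (marg mu (1, e))).toReal :=
    ENNReal.toReal_pos hfin.1.ne' hfin.2.ne
  have hpow0 : 0 < (2 * e)⁻¹ ^ p := by positivity
  have hJpos : 0 < J.toReal := by
    rw [hZr] at hpos
    exact (mul_pos_iff_of_pos_left hpow0).1 hpos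
  have hlogZ : Real.log (powInt p (marg mu (1, e))).toReal = -p * Real.log (2 * e) + Real.log J.toReal := by
    rw [hZr, Real.log_mul hpow0.ne' hJpos.ne', Real.log_rpow (by positivity), Real.log_inv]
    ring
  have hlogJ : Real.log J.toReal ≤ Real.log (2 * e) - δ / (2 * e) := by
    have h1 : J.toReal = (2 * e) * (J.toReal / (2 * e)) := by field_simp
    rw [h1, Real.log_mul (by positivity) (by positivity)]
    have h2 := Real.log_le_sub_one_of_pos (show 0 < J.toReal / (2 * e) by positivity)
    have h3 : J.toReal / (2 * e) - 1 ≤ - (δ / (2 * e)) := by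
      rw [div_sub_one (by positivity), ← neg_div]
      apply div_le_div_of_nonneg_right _ (by positivity)
      linarith
    linarith
  have hren : Real.log (2 * e) + δ / (2 * e) / (p - 1) ≤ renyi p (marg mu (1, e)) := by
    unfold renyi
    rw [hlogZ]
    have h1 : 1 / (1 - p) = - (1 / (p - 1)) := by
      rw [← neg_sub p 1, one_div_neg_eq_neg_one_div]
    rw [h1]
    have h2 : -p * Real.log (2 * e) + Real.log J.toReal ≤
        -(p - 1) * Real.log (2 * e) - δ / (2 * e) := by linarith
    have h3 := mul_le_mul_of_nonneg_left h2 (show 0 ≤ 1 / (p - 1) by positivity)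
    have h4 : 1 / (p - 1) * (-(p - 1) * Real.log (2 * e) - δ / (2 * e)) =
        - (Real.log (2 * e) + δ / (2 * e) / (p - 1)) := by
      field_simp
      ring
    rw [h4] at h3
    linarith
  calc 2 * e + δ / (p - 1) = (2 * e) * (δ / (2 * e) / (p - 1) + 1) := by
        field_simp
        ring
    _ ≤ (2 * e) * Real.exp (δ / (2 * e) / (p - 1)) := by
        gcongr
        exact Real.add_one_le_exp _
    _ = Real.exp (Real.log (2 * e) + δ / (2 * e) / (p - 1)) := by
        rw [Real.exp_add, Real.exp_log (by positivity)]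
    _ ≤ _ := Real.exp_le_exp.2 hren

theorem marg_vert {e : ℝ} (he : 0 < e) : marg mu (0, e) =
    volume.withDensity ((Set.Icc (-e) e).indicator fun _ => ENNReal.ofReal (2 * e)⁻¹) := by
  ext S hS
  have hmap : Measurable fun x : ℝ × ℝ => (0 : ℝ) * x.1 + e * x.2 := by fun_prop
  have hpre : (fun x : ℝ × ℝ => (0 : ℝ) * x.1 + e * x.2) ⁻¹' S =
      Set.univ ×ˢ ((fun y => e * y) ⁻¹' S) := by
    ext x
    simp
  rw [marg, Measure.map_apply hmap hS, hpre, mu, Measure.prod_prod, measure_univ, one_mul,
    un_apply ((measurable_const_mul _) hS), withDensity_apply _ hS,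
    lintegral_indicator measurableSet_Icc, lintegral_const, Measure.restrict_apply_univ,
    Measure.restrict_apply measurableSet_Icc]
  have e1 : (fun y => e * y) ⁻¹' S ∩ Set.Icc (-1) 1 = (fun y => e * y) ⁻¹' (Set.Icc (-e) e ∩ S) := by
    ext y
    simp only [Set.mem_inter_iff, Set.mem_preimage, Set.mem_Icc]
    constructor
    · rintro ⟨h1, h2, h3⟩
      exact ⟨⟨by nlinarith, by nlinarith⟩, h1⟩
    · rintro ⟨⟨h2, h3⟩, h1⟩
      refine ⟨h1, ?_, ?_⟩
      · by_contra hcon
        nlinarith
      · by_contra hcon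
        nlinarith
  rw [e1, Real.volume_preimage_mul_left he.ne', ← mul_assoc]
  congr 1
  rw [abs_of_pos (inv_pos.2 he), mul_inv, ENNReal.ofReal_mul (by norm_num)]
  congr 1
  rw [ENNReal.ofReal_inv_of_pos (by norm_num)]
  norm_num

theorem renyi_vert {p : ℝ} (hp : 1 < p) {e : ℝ} (he : 0 < e) :
    Real.exp (renyi p (marg mu (0, e))) = 2 * e := by
  have hp0 : 0 < p - 1 := by linarith
  have h1 : powInt p (marg mu (0, e)) = ENNReal.ofReal ((2 * e)⁻¹ ^ p) * ENNReal.ofReal (2 * e) := by
    rw [marg_vert he, powInt_wd p (measurable_const.indicator measurableSet_Icc)]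
    have h2 : ∀ x : ℝ, ((Set.Icc (-e) e).indicator (fun _ => ENNReal.ofReal (2 * e)⁻¹) x) ^ p =
        (Set.Icc (-e) e).indicator (fun _ => ENNReal.ofReal ((2 * e)⁻¹ ^ p)) x := by
      intro x
      by_cases hx : x ∈ Set.Icc (-e) e
      · rw [Set.indicator_of_mem hx, Set.indicator_of_mem hx,
          ENNReal.ofReal_rpow_of_nonneg (by positivity) (by linarith)]
      · rw [Set.indicator_of_notMem hx, Set.indicator_of_notMem hx, ENNReal.zero_rpow_of_pos (by linarith)]
    simp only [h2]
    rw [lintegral_indicator measurableSet_Icc, lintegral_const, Measure.restrict_apply_univ,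
      Real.volume_Icc]
    congr 2
    ring
  have h2 : renyi p (marg mu (0, e)) = Real.log (2 * e) := by
    unfold renyi
    rw [h1, ENNReal.toReal_mul, ENNReal.toReal_ofReal (by positivity), ENNReal.toReal_ofReal (by positivity),
      Real.log_mul (by positivity) (by positivity), Real.log_rpow (by positivity), Real.log_inv]
    have : 1 - p ≠ 0 := by linarith
    field_simp
    ring
  rw [h2, Real.exp_log (by positivity)]

end Pool.Agent.RE
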