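import Mathlib
import Pool.Agent.Helpers.RE6

set_option autoImplicit false

open MeasureTheory
open scoped ENNReal Pointwise

namespace Pool.Agent.RE

theorem nu_neg : nu.map (fun x => -x) = nu := by
  ext S hS
  rw [Measure.map_apply measurable_neg hS, nu, withDensity_apply _ (measurable_neg hS),
    withDensity_apply _ hS]
  exact refl_set _ S fun x => by rw [wt_neg]

theorem un_neg : un.map (fun x => -x) = un := by
  ext S hS
  rw [Measure.map_apply measurable_neg hS, un_apply (measurable_neg hS), un_apply hS]
  congr 1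
  have : (fun x : ℝ => -x) ⁻¹' S ∩ Set.Icc (-1) 1 = (fun x : ℝ => -x) ⁻¹' (S ∩ Set.Icc (-1) 1) := by
    ext x
    simp only [Set.mem_inter_iff, Set.mem_preimage, Set.mem_Icc]
    constructor
    · rintro ⟨h1, h2, h3⟩
      exact ⟨h1, by linarith, by linarith⟩
    · rintro ⟨h1, h2, h3⟩
      exact ⟨h1, by linarith, by linarith⟩
  rw [this]
  exact Measure.measure_preimage_neg volume _

theorem mu_neg : mu.map (fun x => -x) = mu := by
  have h : (fun x : ℝ × ℝ => -x) = Prod.map (fun x => -x) (fun x => -x) := by
    funext x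
    rfl
  rw [h, mu, ← Measure.map_prod_map _ _ measurable_neg measurable_neg, nu_neg, un_neg]

theorem violation {p : ℝ} (hp : 1 < p) : ∃ e : ℝ, 1 ≤ e ∧
    Real.exp (renyi p (marg mu (1, 0))) + Real.exp (renyi p (marg mu (0, e))) <
      Real.exp (renyi p (marg mu (1, e))) := by
  have hp0 : 0 < p - 1 := by linarith
  have hc : 0 < min 1 (p - 1) := lt_min one_pos hp0
  set A := Real.exp (renyi p (marg mu (1, 0))) with hA
  have hlim : Filter.Tendsto (fun e : ℝ => min 1 (p - 1) / 8 * Real.log (1 + e) / (p - 1))
      Filter.atTop Filter.atTop := by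
    apply Filter.Tendsto.atTop_div_const hp0
    apply Filter.Tendsto.const_mul_atTop (by positivity)
    exact Real.tendsto_log_atTop.comp (Filter.tendsto_atTop_add_const_left _ _ Filter.tendsto_id)
  obtain ⟨e, he1, he2⟩ := ((Filter.tendsto_atTop.1 hlim (A + 1)).and (Filter.eventually_ge_atTop 1)).exists
  refine ⟨e, he2, ?_⟩
  rw [renyi_vert hp (by linarith)]
  have := renyi_big hp he2
  linarith

end Pool.Agent.RE
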