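import Mathlib

/-! For every `h ≥ 3` and `r ≥ 1` there is an `r`-minimal asymptotic basis of order `h`.
Parameters: `h = a + 2`, `a ≥ 1`. Stage `t` occupies `[N t, N (t+1))`. -/

set_option autoImplicit false

namespace Pool.Agent.Helpers.RMinBasis

/-- stage boundary -/
def N (a : ℕ) : ℕ → ℕ
  | 0 => 1
  | t + 1 => ((a + 2) * (a + 3) * N a t) *
      ((a * (2 * a + 14) + 4) * ((a + 2) * (a + 3) * N a t) + 1)

def q (a t : ℕ) : ℕ := (a + 2) * (a + 3) * N a t

def p (a t : ℕ) : ℕ := (a * (2 * a + 14) + 4) * q a t + 1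

def K (a t : ℕ) : ℕ := (2 * a + 14) * q a t

def d (a t : ℕ) : ℕ := (a + 2) * N a t + 1

/-- the finite set treated at stage `t` -/
def F (t : ℕ) : Finset ℕ := (Nat.unpair t).1.bitIndices.toFinset

lemma F_lt (t f : ℕ) (hf : f ∈ F t) : f < t := by
  have h1 := Nat.two_pow_le_of_mem_bitIndices (List.mem_toFinset.mp hf)
  have h2 := Nat.unpair_left_le t
  have h3 : f < 2 ^ f := Nat.lt_two_pow_self
  omega

lemma exists_stage (G : Finset ℕ) (M : ℕ) : ∃ t, M ≤ t ∧ F t = G := by
  refine ⟨Nat.pair (∑ i ∈ G, 2 ^ i) M, Nat.right_le_pair _ _, ?_⟩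
  unfold F
  rw [Nat.unpair_pair]
  exact Finset.toFinset_bitIndices_sum_two_pow G

lemma N_succ (a t : ℕ) : N a (t + 1) = q a t * p a t := rfl

lemma N_pos (a t : ℕ) : 1 ≤ N a t := by
  induction t with
  | zero => exact le_refl 1
  | succ t ih =>
    rw [N_succ]
    have h1 : 1 ≤ q a t := Nat.mul_pos (Nat.mul_pos (Nat.succ_pos _) (Nat.succ_pos _)) ih
    exact Nat.mul_pos h1 (Nat.succ_pos _)

attribute [irreducible] N

lemma q_eq (a t : ℕ) : q a t = (a + 2) * (a + 3) * N a t := rfl

lemma p_eq (a t : ℕ) : p a t = a * K a t + 4 * q a t + 1 := by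
  unfold p K
  ring

lemma K_eq (a t : ℕ) : K a t = (2 * a + 14) * q a t := rfl

lemma d_eq (a t : ℕ) : d a t = (a + 2) * N a t + 1 := rfl

lemma q_ge (a t : ℕ) : 6 * N a t ≤ q a t := by
  rw [q_eq]
  exact Nat.mul_le_mul_right _ (by nlinarith)

lemma hd_le_q (a t : ℕ) : (a + 2) * d a t ≤ q a t := by
  rw [q_eq, d_eq]
  have := N_pos a t
  nlinarith

lemma K_ge (a t : ℕ) : 14 * q a t ≤ K a t := by
  rw [K_eq]
  exact Nat.mul_le_mul_right _ (by omega)

lemma K_lt_p (a t : ℕ) (ha : 1 ≤ a) : K a t < p a t := by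
  rw [p_eq]
  have : 1 * K a t ≤ a * K a t := Nat.mul_le_mul_right _ ha
  omega

lemma p_ge (a t : ℕ) : 5 ≤ p a t := by
  rw [p_eq]
  have := N_pos a t
  have := q_ge a t
  omega

lemma N_lt_succ (a t : ℕ) : q a t * 5 ≤ N a (t + 1) := by
  rw [N_succ]
  exact Nat.mul_le_mul_left _ (p_ge a t)

lemma N_gt (a t : ℕ) : t < N a t := by
  induction t with
  | zero => exact N_pos a 0
  | succ t ih =>
    have := N_lt_succ a t
    have := q_ge a t
    omega

lemma N_mono (a : ℕ) : StrictMono (N a) := strictMono_nat_of_lt_succ (fun t => by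
  have := N_lt_succ a t
  have := q_ge a t
  have := N_pos a t
  omega)

/-- the basis -/
def inA (a r : ℕ) (c : ℕ) : Prop :=
  ∃ t, ∃ _ : N a t ≤ c, c < N a (t + 1) ∧
    ((c < 2 * q a t ∧ (((F t).card = r ∧ ∀ f, ∀ _ : f ∈ F t, inA a r f) →
        c % q a t ∉ F t ∧ c % q a t ≠ d a t)) ∨
     (q a t ∣ c ∧ c % p a t ≤ K a t) ∨
     (((F t).card = r ∧ ∀ f, ∀ _ : f ∈ F t, inA a r f) ∧
        ∃ f ∈ F t, ∃ j, 2 ≤ j ∧ j ≤ a + 6 ∧ c = j * q a t + (d a t - f)))
termination_by c
decreasing_by
  all_goals
    have h1 := N_gt a t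
    have h2 := F_lt t f (by assumption)
    omega

/-- stage `t` is active -/
def Good (a r t : ℕ) : Prop := (F t).card = r ∧ ∀ f ∈ F t, inA a r f

lemma stage_unique (a t s c : ℕ) (h1 : N a t ≤ c) (h2 : c < N a (t + 1)) (h3 : N a s ≤ c)
    (h4 : c < N a (s + 1)) : s = t := by
  have hm := N_mono a
  have a1 : t < s + 1 := hm.lt_iff_lt.mp (lt_of_le_of_lt h1 h4)
  have a2 : s < t + 1 := hm.lt_iff_lt.mp (lt_of_le_of_lt h3 h2)
  omega

lemma inA_iff (a r t c : ℕ) (h1 : N a t ≤ c) (h2 : c < N a (t + 1)) :
    inA a r c ↔ ((c < 2 * q a t ∧ (Good a r t → c % q a t ∉ F t ∧ c % q a t ≠ d a t)) ∨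
     (q a t ∣ c ∧ c % p a t ≤ K a t) ∨
     (Good a r t ∧ ∃ f ∈ F t, ∃ j, 2 ≤ j ∧ j ≤ a + 6 ∧ c = j * q a t + (d a t - f))) := by
  rw [inA]
  constructor
  · rintro ⟨s, h3, h4, h5⟩
    have := stage_unique a t s c h1 h2 h3 h4
    subst this
    exact h5
  · intro h
    exact ⟨t, h1, h2, h⟩

lemma not_inA_zero (a r : ℕ) : ¬ inA a r 0 := by
  rw [inA]
  rintro ⟨s, h3, _⟩
  have := N_pos a s
  omega

/-- types of elements other than those of `F t` -/
lemma inA_typed (a r t c : ℕ) (hc : inA a r c) (h2 : c < N a (t + 1)) (hne : c ∉ F t)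
    (ht : Good a r t) :
    (c < 2 * q a t ∧ c % q a t ∉ F t ∧ c % q a t ≠ d a t) ∨
    (q a t ∣ c ∧ c % p a t ≤ K a t) ∨
    (∃ f ∈ F t, ∃ j, 2 ≤ j ∧ j ≤ a + 6 ∧ c = j * q a t + (d a t - f)) := by
  by_cases h1 : N a t ≤ c
  · rw [inA_iff a r t c h1 h2] at hc
    rcases hc with ⟨h3, h4⟩ | h3 | h3
    · left; exact ⟨h3, h4 ht⟩
    · right; left; exact h3
    · right; right; exact h3.2
  · left
    rw [not_le] at h1
    have hq := q_ge a t
    have hd := d_eq a t
    have h5 : c % q a t = c := Nat.mod_eq_of_lt (by omega)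
    rw [h5]
    refine ⟨by omega, hne, ?_⟩
    have h6 : N a t ≤ (a + 2) * N a t := Nat.le_mul_of_pos_left _ (by omega)
    omega

lemma obstruct (a r t : ℕ) (ht : Good a r t) (f : Fin (a + 2) → ℕ) (hf : ∀ i, inA a r (f i))
    (hne : ∀ i, f i ∉ F t) :
    ∑ i, f i ≠ (d a t + 1) * (a * (2 * a + 14) + 4) * q a t + d a t := by
  intro hsum
  set n := (d a t + 1) * (a * (2 * a + 14) + 4) * q a t + d a t with hn
  have hNp := N_pos a t
  have hq := q_ge a t
  have hdq := hd_le_q a t
  have hd := d_eq a t
  have hdN : 2 * N a t + 1 ≤ d a t := by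
    rw [hd]
    have : 2 * N a t ≤ (a + 2) * N a t := Nat.mul_le_mul_right _ (by omega)
    omega
  have hd2 : 2 * d a t ≤ q a t :=
    le_trans (Nat.mul_le_mul_right _ (by omega)) hdq
  have hKge := K_ge a t
  have hpeq := p_eq a t
  have hp5 := p_ge a t
  have hn1 : n + 1 = (d a t + 1) * p a t := by
    rw [hn]; unfold p; ring
  have hnlt : n < N a (t + 1) := by
    rw [N_succ]
    have : (d a t + 1) * p a t ≤ q a t * p a t := Nat.mul_le_mul_right _ (by omega)
    omega
  have hle : ∀ i, f i ≤ n := by
    intro i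
    rw [← hsum]
    exact Finset.single_le_sum (f := f) (fun _ _ => Nat.zero_le _) (Finset.mem_univ i)
  have htyped := fun i => inA_typed a r t (f i) (hf i) (lt_of_le_of_lt (hle i) hnlt) (hne i) ht
  have hFpos : ∀ g ∈ F t, 1 ≤ g := by
    intro g hg
    have := ht.2 g hg
    rcases Nat.eq_zero_or_pos g with h | h
    · subst h; exact absurd this (not_inA_zero a r)
    · exact h
  have hFlt : ∀ g ∈ F t, g < N a t := by
    intro g hg
    have := F_lt t g hg
    have := N_gt a t
    omega
  have hnq : n % q a t = d a t := by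
    rw [hn, Nat.add_mod, Nat.mul_mod_left, Nat.zero_add, Nat.mod_mod, Nat.mod_eq_of_lt (by omega)]
  have hnp : n % p a t = p a t - 1 := by
    have e1 : n = d a t * p a t + (p a t - 1) := by
      have : (d a t + 1) * p a t = d a t * p a t + p a t := by ring
      omega
    rw [e1, Nat.add_mod, Nat.mul_mod_left, Nat.zero_add, Nat.mod_mod,
      Nat.mod_eq_of_lt (by omega)]
  -- predicates
  let Hi : Fin (a + 2) → Prop := fun i => q a t ∣ f i ∧ f i % p a t ≤ K a t
  let Sp : Fin (a + 2) → Prop := fun i =>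
    ∃ g ∈ F t, ∃ j, 2 ≤ j ∧ j ≤ a + 6 ∧ f i = j * q a t + (d a t - g)
  have hSpw : ∀ i, Sp i → f i ≤ (a + 7) * q a t := by
    rintro i ⟨g, hg, j, hj1, hj2, hj3⟩
    rw [hj3]
    have h1 : j * q a t ≤ (a + 6) * q a t := Nat.mul_le_mul_right _ hj2
    have h2 : (a + 7) * q a t = (a + 6) * q a t + q a t := by ring
    omega
  have hKeq : K a t = 2 * ((a + 7) * q a t) := by rw [K_eq]; ring
  have hall : ∀ k, f k % p a t ≤ K a t := by
    intro k
    rcases htyped k with h | h | h
    · have := Nat.mod_le (f k) (p a t)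
      omega
    · exact h.2
    · have := Nat.mod_le (f k) (p a t)
      have := hSpw k h
      omega
  have hsumeq : (∑ k, f k % p a t) % p a t = p a t - 1 := by
    rw [← hnp, ← hsum]
    exact (Finset.sum_nat_mod _ _ _).symm
  have hge : p a t - 1 ≤ ∑ k, f k % p a t := by
    rw [← hsumeq]; exact Nat.mod_le _ _
  -- at most one non-high-non-special
  by_cases hcase : ∃ i j, i ≠ j ∧ ¬ (Hi i ∨ Sp i) ∧ ¬ (Hi j ∨ Sp j)
  · obtain ⟨i, j, hij, hi, hj⟩ := hcase
    have hi2 : f i < 2 * q a t := by
      rcases htyped i with h | h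
      · exact h.1
      · exact absurd h hi
    have hj2 : f j < 2 * q a t := by
      rcases htyped j with h | h
      · exact h.1
      · exact absurd h hj
    have hsumle : ∑ k, f k % p a t ≤ 2 * (2 * q a t - 1) + a * K a t := by
      have e1 : ∑ k, f k % p a t = f i % p a t + (f j % p a t +
          ∑ k ∈ (Finset.univ.erase i).erase j, f k % p a t) := by
        rw [← Finset.add_sum_erase Finset.univ _ (Finset.mem_univ i),
          ← Finset.add_sum_erase (Finset.univ.erase i) _
            (Finset.mem_erase.mpr ⟨hij.symm, Finset.mem_univ j⟩)]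
      have e2 : ∑ k ∈ (Finset.univ.erase i).erase j, f k % p a t ≤
          ((Finset.univ.erase i).erase j).card • K a t :=
        Finset.sum_le_card_nsmul _ _ _ (fun k _ => hall k)
      have e3 : ((Finset.univ.erase i).erase j : Finset (Fin (a + 2))).card = a := by
        rw [Finset.card_erase_of_mem (Finset.mem_erase.mpr ⟨hij.symm, Finset.mem_univ j⟩),
          Finset.card_erase_of_mem (Finset.mem_univ i), Finset.card_univ, Fintype.card_fin]
        rfl
      rw [e3, smul_eq_mul] at e2
      have e4 := Nat.mod_le (f i) (p a t)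
      have e5 := Nat.mod_le (f j) (p a t)
      rw [e1]
      generalize a * K a t = W at *
      omega
    generalize a * K a t = W at hsumle hpeq
    omega
  · -- at most one low
    by_cases hlow : ∃ i0, ¬ (Hi i0 ∨ Sp i0)
    · obtain ⟨i0, hi0⟩ := hlow
      have hoth : ∀ j, j ≠ i0 → Hi j ∨ Sp j := by
        intro j hj
        by_contra h
        exact hcase ⟨i0, j, hj.symm, hi0, h⟩
      have hi0' : f i0 < 2 * q a t ∧ f i0 % q a t ∉ F t ∧ f i0 % q a t ≠ d a t := by
        rcases htyped i0 with h | h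
        · exact h
        · exact absurd h hi0
      by_cases hsp2 : ∃ i j, i ≠ j ∧ i ≠ i0 ∧ j ≠ i0 ∧ Sp i ∧ Sp j
      · obtain ⟨i, j, hij, hii0, hji0, hi, hj⟩ := hsp2
        have e1 : ∑ k, f k % p a t = f i0 % p a t + (f i % p a t + (f j % p a t +
          ∑ k ∈ ((Finset.univ.erase i0).erase i).erase j, f k % p a t)) := by
          rw [← Finset.add_sum_erase Finset.univ _ (Finset.mem_univ i0),
            ← Finset.add_sum_erase (Finset.univ.erase i0) _
              (Finset.mem_erase.mpr ⟨hii0, Finset.mem_univ i⟩),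
            ← Finset.add_sum_erase ((Finset.univ.erase i0).erase i) _
              (Finset.mem_erase.mpr ⟨hij.symm,
                Finset.mem_erase.mpr ⟨hji0, Finset.mem_univ j⟩⟩)]
        have e2 : ∑ k ∈ ((Finset.univ.erase i0).erase i).erase j, f k % p a t ≤
          (((Finset.univ.erase i0).erase i).erase j).card • K a t :=
          Finset.sum_le_card_nsmul _ _ _ (fun k _ => hall k)
        have e3 : (((Finset.univ.erase i0).erase i).erase j : Finset (Fin (a + 2))).card
            = a - 1 := by
          rw [Finset.card_erase_of_mem (Finset.mem_erase.mpr ⟨hij.symm,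
                Finset.mem_erase.mpr ⟨hji0, Finset.mem_univ j⟩⟩),
            Finset.card_erase_of_mem (Finset.mem_erase.mpr ⟨hii0, Finset.mem_univ i⟩),
            Finset.card_erase_of_mem (Finset.mem_univ i0), Finset.card_univ, Fintype.card_fin]
          rfl
        rw [e3, smul_eq_mul] at e2
        have e4 := Nat.mod_le (f i) (p a t)
        have e5 := Nat.mod_le (f j) (p a t)
        have e6 := Nat.mod_le (f i0) (p a t)
        have e7 := hSpw i hi
        have e8 := hSpw j hj
        have e9 : (a - 1) * K a t + K a t = a * K a t := by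
          have ha1 : 1 ≤ a := by
            by_contra h
            have ha0 : a = 0 := by omega
            subst ha0
            have : Fintype.card (Fin (0 + 2)) = 2 := by simp
            have h3 : ({i0, i, j} : Finset (Fin (0 + 2))).card = 3 := by
              rw [Finset.card_insert_of_notMem, Finset.card_insert_of_notMem,
                Finset.card_singleton]
              · simpa using hij
              · simp [hii0.symm, hji0.symm]
            have h4 := Finset.card_le_univ ({i0, i, j} : Finset (Fin (0 + 2)))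
            omega
          obtain ⟨b, rfl⟩ : ∃ b, a = b + 1 := ⟨a - 1, by omega⟩
          rw [Nat.add_sub_cancel]; ring
        rw [e1] at hge
        generalize (a - 1) * K a t = V at *
        generalize a * K a t = W at *
        omega
      · by_cases hsp1 : ∃ i, i ≠ i0 ∧ Sp i
        · obtain ⟨i, hii0, g, hg, j, hj1, hj2, hj3⟩ := hsp1
          have hothers : ∀ k, k ≠ i0 → k ≠ i → q a t ∣ f k := by
            intro k hk1 hk2
            rcases hoth k hk1 with h | h
            · exact h.1
            · exact absurd ⟨i, k, hk2.symm, hii0, hk1, ⟨g, hg, j, hj1, hj2, hj3⟩, h⟩ hsp2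
          have e1 : ∑ k, f k = f i0 + (f i + ∑ k ∈ (Finset.univ.erase i0).erase i, f k) := by
            rw [← Finset.add_sum_erase Finset.univ _ (Finset.mem_univ i0),
              ← Finset.add_sum_erase (Finset.univ.erase i0) _
                (Finset.mem_erase.mpr ⟨hii0, Finset.mem_univ i⟩)]
          have e2 : q a t ∣ ∑ k ∈ (Finset.univ.erase i0).erase i, f k :=
            Finset.dvd_sum (fun k hk => hothers k
              (Finset.mem_erase.mp (Finset.mem_erase.mp hk).2).1 (Finset.mem_erase.mp hk).1)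
          obtain ⟨w, hw⟩ := e2
          rw [hw, hj3, hsum] at e1
          have hg1 := hFpos g hg
          have hg2 := hFlt g hg
          -- n + g ≡ f i0 + d
          have e3 : (n + g) % q a t = (f i0 + d a t) % q a t := by
            have : n + g = f i0 + d a t + q a t * (j + w) := by
              have : j * q a t = q a t * j := mul_comm _ _
              have e4 : q a t * (j + w) = q a t * j + q a t * w := by ring
              omega
            rw [this, Nat.add_mul_mod_self_left]
          have e5 : (n + g) % q a t = d a t + g := by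
            rw [Nat.add_mod, hnq, Nat.mod_eq_of_lt (a := g) (by omega),
              Nat.mod_eq_of_lt (by omega)]
          have e6 : (f i0 + d a t) % q a t = (f i0 % q a t + d a t) % q a t := by
            rw [Nat.add_mod, Nat.mod_eq_of_lt (a := d a t) (by omega)]
          have e7 : f i0 % q a t < q a t := Nat.mod_lt _ (by omega)
          rw [e5, e6] at e3
          by_cases hlt : f i0 % q a t + d a t < q a t
          · rw [Nat.mod_eq_of_lt hlt] at e3
            have : f i0 % q a t = g := by omega
            exact hi0'.2.1 (this ▸ hg)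
          · rw [not_lt] at hlt
            rw [Nat.mod_eq_sub_mod hlt, Nat.mod_eq_of_lt (by omega)] at e3
            omega
        · have hothers : ∀ k, k ≠ i0 → q a t ∣ f k := by
            intro k hk1
            rcases hoth k hk1 with h | h
            · exact h.1
            · exact absurd ⟨k, hk1, h⟩ hsp1
          have e1 : n % q a t = f i0 % q a t := by
            rw [← hsum, ← Finset.add_sum_erase Finset.univ _ (Finset.mem_univ i0)]
            have : q a t ∣ ∑ k ∈ Finset.univ.erase i0, f k :=
              Finset.dvd_sum (fun k hk => hothers k (Finset.mem_erase.mp hk).1)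
            obtain ⟨w, hw⟩ := this
            rw [hw, Nat.add_mul_mod_self_left]
          exact hi0'.2.2 (by omega)
    · -- no low
      have hoth : ∀ j, Hi j ∨ Sp j := by
        intro j
        by_contra h
        exact hlow ⟨j, h⟩
      classical
      -- residue contribution
      have hex : ∀ i, ∃ e : ℕ, f i % q a t = e ∧ (e = 0 ∨ (N a t < e ∧ e < d a t)) := by
        intro i
        rcases hoth i with h | ⟨g, hg, j, hj1, hj2, hj3⟩
        · exact ⟨0, Nat.mod_eq_zero_of_dvd h.1, Or.inl rfl⟩
        · have hg1 := hFpos g hg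
          have hg2 := hFlt g hg
          refine ⟨d a t - g, ?_, Or.inr ⟨by omega, by omega⟩⟩
          rw [hj3, Nat.add_mod, Nat.mul_mod_left, Nat.zero_add, Nat.mod_mod,
            Nat.mod_eq_of_lt (by omega)]
      have hTle : ∑ i, f i % q a t ≤ (a + 2) * (d a t - 1) := by
        have h1 : ∑ i, f i % q a t ≤ (Finset.univ : Finset (Fin (a + 2))).card • (d a t - 1) := by
          refine Finset.sum_le_card_nsmul _ _ _ (fun i _ => ?_)
          obtain ⟨e, he1, he2⟩ := hex i
          rw [he1]
          rcases he2 with h | h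
          · omega
          · omega
        rwa [Finset.card_univ, Fintype.card_fin, smul_eq_mul] at h1
      have hTlt : ∑ i, f i % q a t < q a t := by
        have : (a + 2) * (d a t - 1) < (a + 2) * d a t :=
          Nat.mul_lt_mul_of_pos_left (by omega) (by omega)
        omega
      have hTeq : ∑ i, f i % q a t = d a t := by
        have h1 : (∑ i, f i % q a t) % q a t = d a t := by
          rw [← Finset.sum_nat_mod, hsum, hnq]
        rwa [Nat.mod_eq_of_lt hTlt] at h1
      -- exactly one or two nonzero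
      by_cases hz : ∃ i, f i % q a t ≠ 0
      · obtain ⟨i, hi⟩ := hz
        by_cases hz2 : ∃ j, j ≠ i ∧ f j % q a t ≠ 0
        · obtain ⟨j, hji, hj⟩ := hz2
          have e1 : ∑ k, f k % q a t = f i % q a t + (f j % q a t +
              ∑ k ∈ (Finset.univ.erase i).erase j, f k % q a t) := by
            rw [← Finset.add_sum_erase Finset.univ _ (Finset.mem_univ i),
              ← Finset.add_sum_erase (Finset.univ.erase i) _
                (Finset.mem_erase.mpr ⟨hji, Finset.mem_univ j⟩)]
          have hbig : ∀ k, f k % q a t ≠ 0 → d a t + 1 ≤ f k % q a t + N a t := by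
            intro k hk
            rcases hoth k with h | ⟨g, hg, j, hj1, hj2, hj3⟩
            · exact absurd (Nat.mod_eq_zero_of_dvd h.1) hk
            · have hg1 := hFpos g hg
              have hg2 := hFlt g hg
              have : f k % q a t = d a t - g := by
                rw [hj3, Nat.add_mod, Nat.mul_mod_left, Nat.zero_add, Nat.mod_mod,
                  Nat.mod_eq_of_lt (by omega)]
              omega
          have h2 := hbig i hi
          have h3 := hbig j hj
          omega
        · have e1 : ∑ k, f k % q a t = f i % q a t := by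
            refine Finset.sum_eq_single i (fun j _ hj => ?_) (fun h => absurd (Finset.mem_univ i) h)
            by_contra h
            exact hz2 ⟨j, hj, h⟩
          obtain ⟨e, he1, he2⟩ := hex i
          omega
      · have e1 : ∑ k, f k % q a t = 0 := by
          refine Finset.sum_eq_zero (fun j _ => ?_)
          by_contra h
          exact hz ⟨j, h⟩
        omega

/-- `n` elements with property `P` summing to `m` -/
def Rep (P : ℕ → Prop) (n m : ℕ) : Prop :=
  ∃ f : Fin n → ℕ, (∀ i, P (f i)) ∧ ∑ i, f i = m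

lemma Rep.add {P : ℕ → Prop} {a b x y : ℕ} (h1 : Rep P a x) (h2 : Rep P b y) :
    Rep P (a + b) (x + y) := by
  obtain ⟨f, hf, rfl⟩ := h1
  obtain ⟨g, hg, rfl⟩ := h2
  refine ⟨Fin.append f g, ?_, ?_⟩
  · intro i
    refine Fin.addCases (fun j => ?_) (fun j => ?_) i
    · rw [Fin.append_left]; exact hf j
    · rw [Fin.append_right]; exact hg j
  · rw [Fin.sum_univ_add]
    simp [Fin.append_left, Fin.append_right]

lemma Rep.single {P : ℕ → Prop} {x : ℕ} (h : P x) : Rep P 1 x :=
  ⟨fun _ => x, fun _ => h, by simp⟩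

lemma Rep.const {P : ℕ → Prop} {x : ℕ} (n : ℕ) (h : P x) : Rep P n (n * x) :=
  ⟨fun _ => x, fun _ => h, by simp⟩

lemma Rep.mono {P Q : ℕ → Prop} {n x : ℕ} (h : Rep P n x) (hPQ : ∀ c, c ≤ x → P c → Q c) :
    Rep Q n x := by
  obtain ⟨f, hf, hs⟩ := h
  refine ⟨f, fun i => hPQ _ ?_ (hf i), hs⟩
  rw [← hs]
  exact Finset.single_le_sum (f := f) (fun _ _ => Nat.zero_le _) (Finset.mem_univ i)

lemma Rep.zero {P : ℕ → Prop} : Rep P 0 0 := ⟨fun _ => 0, fun i => i.elim0, by simp⟩

/-- splitting a multiple of `Q` into `n` multiples of `Q` between `Q` and `k * Q` -/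
lemma split (Q k : ℕ) : ∀ n v : ℕ, n ≤ v → v ≤ n * k →
    Rep (fun c => Q ∣ c ∧ Q ≤ c ∧ c ≤ k * Q) n (v * Q) := by
  intro n
  induction n with
  | zero =>
    intro v _ h2
    have : v = 0 := by omega
    subst this
    simpa using Rep.zero
  | succ n ih =>
    intro v h1 h2
    have e0 : (n + 1) * k = n * k + k := by ring
    have hk : 1 ≤ k := by
      rcases Nat.eq_zero_or_pos k with h | h
      · subst h; omega
      · exact h
    obtain ⟨a, ha1, ha2, ha3, ha4⟩ : ∃ a, 1 ≤ a ∧ a ≤ k ∧ n ≤ v - a ∧ v - a ≤ n * k ∧ a ≤ v := by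
      by_cases h : v - n ≤ k
      · refine ⟨v - n, by omega, h, by omega, ?_, by omega⟩
        have : v - (v - n) = n := by omega
        rw [this]; nlinarith
      · exact ⟨k, hk, le_refl _, by omega, by omega, by omega⟩
    have h3 := ih (v - a) ha3 ha4.1
    have h4 : Rep (fun c => Q ∣ c ∧ Q ≤ c ∧ c ≤ k * Q) 1 (a * Q) :=
      Rep.single ⟨Dvd.intro_left a rfl, by nlinarith, Nat.mul_le_mul_right Q ha2⟩
    have h5 := h3.add h4
    have e1 : (v - a) * Q + a * Q = v * Q := by
      rw [← Nat.add_mul]; congr 1; omega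
    rwa [e1] at h5

/-- typed high elements -/
def High (a t c : ℕ) : Prop := q a t ≤ c ∧ q a t ∣ c ∧ c % p a t ≤ K a t

lemma high_of_small (a t : ℕ) (ha : 1 ≤ a) (c : ℕ) (h1 : q a t ∣ c) (h2 : q a t ≤ c)
    (h3 : c ≤ K a t) : High a t c := by
  refine ⟨h2, h1, ?_⟩
  rw [Nat.mod_eq_of_lt (lt_of_le_of_lt h3 (K_lt_p a t ha))]
  exact h3

lemma highSum (a t : ℕ) (ha : 1 ≤ a) (z : ℕ) (hz : q a t ∣ z) (hz2 : (a + 2) * q a t ≤ z) :
    ∃ j, 2 ≤ j ∧ j ≤ a + 6 ∧ j * q a t ≤ z ∧ Rep (High a t) a (z - j * q a t) := by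
  have hNp := N_pos a t
  have hq6 := q_ge a t
  set Q := q a t with hQ
  have hQ1 : 1 ≤ Q := by omega
  have hK : K a t = (2 * a + 14) * Q := rfl
  have hp : p a t = a * K a t + 4 * Q + 1 := p_eq a t
  have hKp := K_lt_p a t ha
  have hKQ : 14 * Q ≤ K a t := K_ge a t
  obtain ⟨b, rfl⟩ : ∃ b, a = b + 1 := ⟨a - 1, by omega⟩
  have eK : (b + 1) * K (b + 1) t = b * K (b + 1) t + K (b + 1) t := by ring
  by_cases h1 : z ≤ (b + 7) * Q + (b + 1) * K (b + 1) t
  · obtain ⟨v, rfl⟩ := hz
    have hcomm : Q * v = v * Q := mul_comm _ _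
    rw [hcomm] at hz2 h1 ⊢
    have h2 : b + 3 ≤ v := Nat.le_of_mul_le_mul_right hz2 (by omega)
    have h3 : v ≤ (b + 7) + (b + 1) * (2 * (b + 1) + 14) := by
      have e : (b + 7) * Q + (b + 1) * K (b + 1) t =
          ((b + 7) + (b + 1) * (2 * (b + 1) + 14)) * Q := by rw [hK]; ring
      rw [e] at h1
      exact Nat.le_of_mul_le_mul_right h1 (by omega)
    obtain ⟨j, hj1, hj2, hj3, hj4, hj5⟩ : ∃ j, 2 ≤ j ∧ j ≤ b + 1 + 6 ∧ b + 1 ≤ v - j ∧
        v - j ≤ (b + 1) * (2 * (b + 1) + 14) ∧ j ≤ v := by
      have : b + 1 ≤ (b + 1) * (2 * (b + 1) + 14) := Nat.le_mul_of_pos_right _ (by omega)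
      generalize (b + 1) * (2 * (b + 1) + 14) = W at *
      by_cases h : v - 2 ≤ W
      · exact ⟨2, le_refl _, by omega, by omega, h, by omega⟩
      · exact ⟨v - W, by omega, by omega, by omega, by omega, by omega⟩
    refine ⟨j, hj1, hj2, Nat.mul_le_mul_right _ hj5, ?_⟩
    have h4 := split Q (2 * (b + 1) + 14) (b + 1) (v - j) hj3 hj4
    have e1 : v * Q - j * Q = (v - j) * Q := (Nat.sub_mul _ _ _).symm
    rw [e1]
    exact h4.mono (fun c _ hc => high_of_small (b + 1) t ha c hc.1 hc.2.1 hc.2.2)
  · rw [not_le] at h1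
    set p' := p (b + 1) t with hp'
    set K' := K (b + 1) t with hK'
    set w := z % p' with hw
    have hwp : w < p' := Nat.mod_lt _ (by omega)
    have hzw : p' * (z / p') + w = z := Nat.div_add_mod z p'
    have eV : (b + 7 + b * (2 * (b + 1) + 14)) * Q = (b + 7) * Q + b * K' := by rw [hK]; ring
    have e7 : (b + 7) * Q = b * Q + 7 * Q := by ring
    have eb : K' = 2 * (b * Q) + 16 * Q := by rw [hK]; ring
    obtain ⟨v, hv1, hv2, hv3⟩ : ∃ v, b + 2 ≤ v ∧ v ≤ b + 7 + b * (2 * (b + 1) + 14) ∧
        (z - v * Q) % p' ≤ K' := by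
      have hmin : b + 2 ≤ b + 7 + b * (2 * (b + 1) + 14) := by
        have := Nat.zero_le (b * (2 * (b + 1) + 14))
        omega
      by_cases h5 : w < (b + 2) * Q
      · refine ⟨b + 7 + b * (2 * (b + 1) + 14), hmin, le_refl _, ?_⟩
        rw [eV]
        have e2' : (b + 2) * Q = b * Q + 2 * Q := by ring
        have hz1 : 1 ≤ z / p' := by
          rw [Nat.one_le_div_iff (by omega)]
          generalize b * K' = W at *
          omega
        obtain ⟨u, hu⟩ : ∃ u, z / p' = u + 1 := ⟨z / p' - 1, by omega⟩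
        rw [hu] at hzw
        have e2 : p' * (u + 1) = p' * u + p' := by ring
        have e1 : z - ((b + 7) * Q + b * K') = p' * u + (w + p' - ((b + 7) * Q + b * K')) := by
          generalize b * K' = W at *
          generalize b * Q = Y at *
          generalize p' * u = X at *
          omega
        rw [e1, Nat.mul_add_mod, Nat.mod_eq_of_lt]
        · generalize b * K' = W at *
          generalize b * Q = Y at *
          omega
        · generalize b * K' = W at *
          generalize b * Q = Y at *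
          omega
      · rw [not_lt] at h5
        by_cases h6 : w ≤ (b + 7) * Q + b * K'
        · refine ⟨w / Q, ?_, ?_, ?_⟩
          · rw [Nat.le_div_iff_mul_le (by omega)]; exact h5
          · rw [← eV] at h6
            calc w / Q ≤ ((b + 7 + b * (2 * (b + 1) + 14)) * Q) / Q := Nat.div_le_div_right h6
              _ = _ := Nat.mul_div_cancel _ (by omega)
          · have e1 : w / Q * Q + w % Q = w := Nat.div_add_mod' w Q
            have e2 : z - w / Q * Q = p' * (z / p') + w % Q := by omega
            have e3 : w % Q < Q := Nat.mod_lt _ (by omega)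
            rw [e2, Nat.mul_add_mod, Nat.mod_eq_of_lt (by omega)]
            omega
        · rw [not_le] at h6
          refine ⟨b + 7 + b * (2 * (b + 1) + 14), hmin, le_refl _, ?_⟩
          rw [eV]
          have e2 : z - ((b + 7) * Q + b * K') =
              p' * (z / p') + (w - ((b + 7) * Q + b * K')) := by
            generalize b * K' = W at *
            generalize b * Q = Y at *
            generalize p' * (z / p') = X at *
            omega
          rw [e2, Nat.mul_add_mod, Nat.mod_eq_of_lt]
          · generalize b * K' = W at *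
            generalize b * Q = Y at *
            omega
          · omega
    have hvK : v * Q ≤ (b + 7) * Q + b * K' := by
      rw [← eV]; exact Nat.mul_le_mul_right _ hv2
    have h7 : High (b + 1) t (z - v * Q) := by
      refine ⟨?_, (Nat.dvd_sub hz (Dvd.intro_left v rfl)), hv3⟩
      generalize b * K' = W at *
      generalize b * Q = Y at *
      omega
    obtain ⟨j, hj1, hj2, hj3, hj4, hj5⟩ : ∃ j, 2 ≤ j ∧ j ≤ b + 1 + 6 ∧ b ≤ v - j ∧
        v - j ≤ b * (2 * (b + 1) + 14) ∧ j ≤ v := by
      have : b ≤ b * (2 * (b + 1) + 14) := Nat.le_mul_of_pos_right _ (by omega)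
      generalize b * (2 * (b + 1) + 14) = W at *
      by_cases h : v - 2 ≤ W
      · exact ⟨2, le_refl _, by omega, by omega, h, by omega⟩
      · exact ⟨v - W, by omega, by omega, by omega, by omega, by omega⟩
    have hjz : j * Q ≤ v * Q := Nat.mul_le_mul_right _ hj5
    have hvz : v * Q ≤ z := by
      generalize b * K' = W at *
      generalize b * Q = Y at *
      omega
    refine ⟨j, hj1, hj2, by omega, ?_⟩
    have h8 := (split Q (2 * (b + 1) + 14) b (v - j) hj3 hj4).mono
      (fun c _ hc => high_of_small (b + 1) t ha c hc.1 hc.2.1 hc.2.2)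
    have h9 := h8.add (Rep.single h7)
    have e5 : (v - j) * Q + (z - v * Q) = z - j * Q := by
      rw [Nat.sub_mul]
      omega
    rwa [e5] at h9

lemma cover (a r T m : ℕ) (ha : 1 ≤ a) (P : ℕ → Prop) (hP1 : ∀ c, inA a r c → T ≤ c → P c)
    (hP2 : ∀ t, Good a r t → T ≤ t → ∃ f ∈ F t, P f) (hm : (a + 5) * q a T ≤ m) :
    Rep P (a + 2) m := by
  -- find the stage
  obtain ⟨t, ht1, ht2, ht3⟩ : ∃ t, T ≤ t ∧ (a + 5) * q a t ≤ m ∧ m < (a + 5) * q a (t + 1) := by
    have hex : ∃ n, m < (a + 5) * q a (n + 1) := by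
      refine ⟨m, ?_⟩
      have := N_gt a (m + 1)
      have := q_ge a (m + 1)
      nlinarith
    classical
    set t := Nat.find hex with htdef
    have h1 : m < (a + 5) * q a (t + 1) := Nat.find_spec hex
    have h2 : ∀ s, s < t → ¬ m < (a + 5) * q a (s + 1) := fun s hs => Nat.find_min hex hs
    have hTt : T ≤ t := by
      by_contra h
      rw [not_le] at h
      have h3 : N a (t + 1) ≤ N a T := (N_mono a).monotone (by omega)
      have h4 : q a (t + 1) ≤ q a T := Nat.mul_le_mul_left _ h3
      have h5 : (a + 5) * q a (t + 1) ≤ (a + 5) * q a T := Nat.mul_le_mul_left _ h4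
      omega
    rcases Nat.eq_zero_or_pos t with h | h
    · refine ⟨t, hTt, ?_, h1⟩
      have : T = t := by omega
      rw [← this]; exact hm
    · refine ⟨t, hTt, ?_, h1⟩
      obtain ⟨s, hs⟩ : ∃ s, t = s + 1 := ⟨t - 1, by omega⟩
      have := h2 s (by omega)
      rw [not_lt] at this
      rw [hs]; exact this
  have hNp := N_pos a t
  have hNt := N_gt a t
  have hq := q_ge a t
  have hKge := K_ge a t
  have hKp := K_lt_p a t ha
  have hpeq := p_eq a t
  have hNs := N_succ a t
  have hNs5 := N_lt_succ a t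
  have hdq := hd_le_q a t
  have hd := d_eq a t
  have hdN : 3 * N a t + 1 ≤ d a t := by
    rw [hd]
    have : 3 * N a t ≤ (a + 2) * N a t := Nat.mul_le_mul_right _ (by omega)
    omega
  have hd3 : 3 * d a t ≤ q a t :=
    le_trans (Nat.mul_le_mul_right _ (by omega)) hdq
  have hNp' := N_pos a (t + 1)
  have hNt' := N_gt a (t + 1)
  have hq' := q_ge a (t + 1)
  have hNs5' := N_lt_succ a (t + 1)
  have hdq' := hd_le_q a (t + 1)
  have hd' := d_eq a (t + 1)
  have hdN' : 3 * N a (t + 1) + 1 ≤ d a (t + 1) := by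
    rw [hd']
    have : 3 * N a (t + 1) ≤ (a + 2) * N a (t + 1) := Nat.mul_le_mul_right _ (by omega)
    omega
  have hd3' : 3 * d a (t + 1) ≤ q a (t + 1) :=
    le_trans (Nat.mul_le_mul_right _ (by omega)) hdq'
  have hFpos : ∀ s, Good a r s → ∀ g ∈ F s, 1 ≤ g := by
    intro s hs g hg
    have := hs.2 g hg
    rcases Nat.eq_zero_or_pos g with h | h
    · subst h; exact absurd this (not_inA_zero a r)
    · exact h
  -- size of the stage
  have hpbig : a + 8 ≤ p a t := by
    rw [hpeq]
    have h1 : 1 * K a t ≤ a * K a t := Nat.mul_le_mul_right _ ha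
    have h2 : (2 * a + 14) * 1 ≤ K a t := Nat.mul_le_mul_left _ (by omega)
    omega
  have hstage : (a + 8) * q a t ≤ N a (t + 1) := by
    rw [hNs, mul_comm]
    exact Nat.mul_le_mul_left _ hpbig
  -- old high elements below `2 q'` are in the basis
  have hHighA : ∀ c, High a t c → c < 2 * q a (t + 1) → inA a r c := by
    intro c hc hc2
    by_cases h1 : c < N a (t + 1)
    · rw [inA_iff a r t c (by have := hc.1; omega) h1]
      right; left
      exact hc.2
    · rw [not_lt] at h1
      rw [inA_iff a r (t + 1) c h1 (by omega)]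
      left
      refine ⟨hc2, fun hG => ?_⟩
      have hqN : q a t ∣ N a (t + 1) := by rw [hNs]; exact Dvd.intro _ rfl
      have hqq : q a t ∣ q a (t + 1) := by
        rw [q_eq a (t + 1)]; exact Dvd.dvd.mul_left hqN _
      have hqc : q a t ∣ c % q a (t + 1) := (Nat.dvd_mod_iff hqq).mpr hc.2.1
      constructor
      · intro hmem
        have h2 := hFpos (t + 1) hG _ hmem
        have h3 := F_lt (t + 1) _ hmem
        have h4 := Nat.le_of_dvd (by omega) hqc
        omega
      · intro heq
        rw [heq, hd'] at hqc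
        have h5 : q a t ∣ (a + 2) * N a (t + 1) := Dvd.dvd.mul_left hqN _
        have h6 := (Nat.dvd_add_right h5).mp hqc
        have h7 := Nat.le_of_dvd (by omega) h6
        omega
  have hHighP : ∀ c, High a t c → c < 2 * q a (t + 1) → P c := by
    intro c hc hc2
    refine hP1 c (hHighA c hc hc2) ?_
    have := hc.1
    omega
  have hsmallHigh : ∀ j, 1 ≤ j → j ≤ a + 6 → High a t (j * q a t) := by
    intro j hj1 hj2
    refine high_of_small a t ha _ (Dvd.intro_left j rfl) (Nat.le_mul_of_pos_left _ hj1) ?_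
    rw [K_eq]
    exact Nat.mul_le_mul_right _ (by omega)
  by_cases hcase : m < 2 * q a (t + 1)
  · -- old rule
    have hmod : m % q a t < q a t := Nat.mod_lt _ (by omega)
    have hdm := Nat.div_add_mod m (q a t)
    have e5 : (a + 5) * q a t = (a + 2) * q a t + 3 * q a t := by ring
    have hlow : ∀ x, x < q a t → (Good a r t → x ∉ F t ∧ x ≠ d a t) → P (q a t + x) := by
      intro x hx hx2
      refine hP1 _ ?_ (by omega)
      rw [inA_iff a r t _ (by omega) (by omega)]
      left
      refine ⟨by omega, ?_⟩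
      have : (q a t + x) % q a t = x := by
        rw [Nat.add_mod_left, Nat.mod_eq_of_lt hx]
      rw [this]
      exact hx2
    have hspec : Good a r t → ∀ f ∈ F t, ∀ j, 2 ≤ j → j ≤ a + 6 →
        P (j * q a t + (d a t - f)) := by
      intro hG f hf j hj1 hj2
      have h1 : 2 * q a t ≤ j * q a t := Nat.mul_le_mul_right _ hj1
      have h2 : j * q a t ≤ (a + 6) * q a t := Nat.mul_le_mul_right _ hj2
      have h3 : (a + 8) * q a t = (a + 6) * q a t + 2 * q a t := by ring
      refine hP1 _ ?_ (by omega)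
      rw [inA_iff a r t _ (by omega) (by omega)]
      right; right
      exact ⟨hG, f, hf, j, hj1, hj2, rfl⟩
    obtain ⟨e, δ, he1, he2, he3, he4, he5⟩ : ∃ e δ, P e ∧ e + δ ≤ m ∧
        (a + 2) * q a t ≤ m - (e + δ) ∧ q a t ∣ m - (e + δ) ∧
        (∀ j, 2 ≤ j → j ≤ a + 6 → j * q a t + δ ≤ m → P (j * q a t + δ)) := by
      have hmodd : q a t ∣ m - m % q a t := Nat.dvd_sub_mod m
      by_cases hx : Good a r t ∧ (m % q a t ∈ F t ∨ m % q a t = d a t)
      · obtain ⟨hG, hx⟩ := hx
        rcases hx with hx | hx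
        · set f := m % q a t with hf
          have hf1 := hFpos t hG f hx
          have hf2 := F_lt t f hx
          refine ⟨q a t + (q a t - d a t + 2 * f), d a t - f, ?_, by omega, by omega, ?_, ?_⟩
          · refine hlow _ (by omega) (fun _ => ⟨fun hmem => ?_, by omega⟩)
            have := F_lt t _ hmem
            omega
          · have e6 : m - (q a t + (q a t - d a t + 2 * f) + (d a t - f)) =
                m - f - 2 * q a t := by omega
            rw [e6]
            exact Nat.dvd_sub hmodd (Dvd.intro_left 2 rfl)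
          · intro j hj1 hj2 _
            exact hspec hG f hx j hj1 hj2
        · obtain ⟨f, hf, hPf⟩ := hP2 t hG ht1
          have hf1 := hFpos t hG f hf
          have hf2 := F_lt t f hf
          refine ⟨f, d a t - f, hPf, by omega, by omega, ?_, ?_⟩
          · have e6 : f + (d a t - f) = d a t := by omega
            rw [e6, ← hx]
            exact hmodd
          · intro j hj1 hj2 _
            exact hspec hG f hf j hj1 hj2
      · refine ⟨q a t + m % q a t, 0, ?_, by omega, by omega, ?_, ?_⟩
        · refine hlow _ hmod (fun hG => ⟨fun h => hx ⟨hG, Or.inl h⟩, fun h => hx ⟨hG, Or.inr h⟩⟩)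
        · have e6 : m - (q a t + m % q a t + 0) = m - m % q a t - q a t := by omega
          rw [e6]
          exact Nat.dvd_sub hmodd (dvd_refl _)
        · intro j hj1 hj2 hj3
          rw [Nat.add_zero] at hj3 ⊢
          exact hHighP _ (hsmallHigh j (by omega) hj2) (by omega)
    obtain ⟨j, hj1, hj2, hj3, hj4⟩ := highSum a t ha (m - (e + δ)) he4 he3
    have h2 : Rep P a (m - (e + δ) - j * q a t) :=
      hj4.mono (fun c hc hc2 => hHighP c hc2 (by omega))
    have h3 := (h2.add (Rep.single (he5 j hj1 hj2 (by omega)))).add (Rep.single he1)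
    have e7 : m - (e + δ) - j * q a t + (j * q a t + δ) + e = m := by omega
    have e8 : a + 1 + 1 = a + 2 := by omega
    rwa [e7, e8] at h3
  · rw [not_lt] at hcase
    set Q := q a t with hQ
    set Q' := q a (t + 1) with hQ'
    have hR1 : P Q := by
      have := hHighP (1 * Q) (hsmallHigh 1 (by omega) (by omega)) (by omega)
      rwa [Nat.one_mul] at this
    have hR2 : P (2 * Q) := hHighP (2 * Q) (hsmallHigh 2 (by omega) (by omega)) (by omega)
    have hlow : ∀ x, x < Q' → x ∉ F (t + 1) → x ≠ d a (t + 1) → P (Q' + x) := by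
      intro x hx hx1 hx2
      refine hP1 _ ?_ (by omega)
      rw [inA_iff a r (t + 1) _ (by omega) (by omega)]
      left
      refine ⟨by omega, fun _ => ?_⟩
      have : (Q' + x) % Q' = x := by
        rw [Nat.add_mod_left, Nat.mod_eq_of_lt hx]
      rw [this]
      exact ⟨hx1, hx2⟩
    have hmul : ∀ j, 1 ≤ j → j ≤ a + 4 → P (j * Q') := by
      intro j hj1 hj2
      have h9 := K_lt_p a (t + 1) ha
      have h10 : K a (t + 1) = (2 * a + 14) * Q' := rfl
      have h12 : j * Q' ≤ K a (t + 1) := by
        rw [h10]; exact Nat.mul_le_mul_right _ (by omega)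
      have h13 : Q' ≤ j * Q' := Nat.le_mul_of_pos_left _ (by omega)
      have h14 : p a (t + 1) ≤ N a (t + 1 + 1) := by
        rw [N_succ a (t + 1)]
        exact Nat.le_mul_of_pos_left _ (by omega)
      refine hP1 _ ?_ (by omega)
      rw [inA_iff a r (t + 1) (j * Q') (by omega) (by omega)]
      right; left
      refine ⟨Dvd.intro_left j rfl, ?_⟩
      rw [Nat.mod_eq_of_lt (by omega)]
      exact h12
    have hbig1 : a * (2 * Q) + 2 * Q + d a (t + 1) + 1 ≤ Q' := by
      rw [hQ', q_eq a (t + 1), hd']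
      have h1 : (a + 2) * (a + 3) * N a (t + 1) =
          (a + 2) * N a (t + 1) + (a + 2) * ((a + 2) * N a (t + 1)) := by ring
      have h2 : (a + 2) * (2 * N a (t + 1)) ≤ (a + 2) * ((a + 2) * N a (t + 1)) :=
        Nat.mul_le_mul_left _ (Nat.mul_le_mul_right _ (by omega))
      have h3 : (a + 2) * (2 * (Q * 5)) ≤ (a + 2) * (2 * N a (t + 1)) :=
        Nat.mul_le_mul_left _ (by omega)
      have h4 : (a + 2) * (2 * (Q * 5)) = 5 * (a * (2 * Q)) + 20 * Q := by ring
      omega
    set X := a * (2 * Q) with hX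
    by_cases hB : m < 2 * Q' + X
    · have h1 : P (Q' + (m - X - 2 * Q - Q')) := by
        refine hlow _ (by omega) (fun hmem => ?_) (by omega)
        have := F_lt (t + 1) _ hmem
        omega
      have h2 := (Rep.const (a + 1) hR2).add (Rep.single h1)
      have e1 : (a + 1) * (2 * Q) + (Q' + (m - X - 2 * Q - Q')) = m := by
        have : (a + 1) * (2 * Q) = X + 2 * Q := by rw [hX]; ring
        omega
      have e2 : a + 1 + 1 = a + 2 := by omega
      rwa [e1, e2] at h2
    · rw [not_lt] at hB
      set D := m - X with hD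
      have hD1 : 2 * Q' ≤ D := by omega
      have hD2 : D < (a + 5) * Q' := by omega
      have hdm := Nat.div_add_mod D Q'
      have hmod : D % Q' < Q' := Nat.mod_lt _ (by omega)
      have hdiv1 : 2 ≤ D / Q' := by
        rw [Nat.le_div_iff_mul_le (by omega)]; exact hD1
      have hdiv2 : D / Q' < a + 5 := by
        rw [Nat.div_lt_iff_lt_mul (by omega)]; exact hD2
      obtain ⟨j, hj⟩ : ∃ j, D / Q' = j + 1 := ⟨D / Q' - 1, by omega⟩
      have hj2 := hmul j (by omega) (by omega)
      rw [hj] at hdm
      have e0 : Q' * (j + 1) = j * Q' + Q' := by ring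
      by_cases hy : D % Q' ∈ F (t + 1) ∨ D % Q' = d a (t + 1)
      · -- use the shifted representation
        have h1 : P (Q' + (D % Q' + Q)) := by
          rcases hy with hy | hy
          · have h5 := F_lt (t + 1) _ hy
            refine hlow _ (by omega) (fun hmem => ?_) (by omega)
            have := F_lt (t + 1) _ hmem
            omega
          · refine hlow _ (by omega) (fun hmem => ?_) (by omega)
            have := F_lt (t + 1) _ hmem
            omega
        obtain ⟨b, hb⟩ : ∃ b, a = b + 1 := ⟨a - 1, by omega⟩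
        have h2 := (((Rep.single h1).add (Rep.single hj2)).add (Rep.single hR1)).add
          (Rep.const b hR2)
        have e1 : Q' + (D % Q' + Q) + j * Q' + Q + b * (2 * Q) = m := by
          have : X = b * (2 * Q) + 2 * Q := by rw [hX, hb]; ring
          omega
        have e2 : 1 + 1 + 1 + b = a + 2 := by omega
        rwa [e1, e2] at h2
      · have h1 := hlow (D % Q') (by omega) (fun h => hy (Or.inl h)) (fun h => hy (Or.inr h))
        have h2 := ((Rep.single h1).add (Rep.single hj2)).add (Rep.const a hR2)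
        have e1 : Q' + D % Q' + j * Q' + a * (2 * Q) = m := by
          omega
        have e2 : 1 + 1 + a = a + 2 := by omega
        rwa [e1, e2] at h2

theorem main (h r : ℕ) (hh : 3 ≤ h) :
    ∃ A : Set ℕ, ∀ S : Set ℕ, S ⊆ A →
      ((∃ n₀ : ℕ, ∀ n : ℕ, n₀ ≤ n →
        ∃ f : Fin h → ℕ, (∀ i, f i ∈ A \ S) ∧ ∑ i, f i = n) ↔ S.encard < r) := by
  obtain ⟨a, rfl⟩ : ∃ a, h = a + 2 := ⟨h - 2, by omega⟩
  have ha : 1 ≤ a := by omega
  refine ⟨{c | inA a r c}, fun S hS => ⟨?_, ?_⟩⟩
  · rintro ⟨n₀, hN⟩
    by_contra hcard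
    rw [not_lt] at hcard
    obtain ⟨G', hG'1, hG'2⟩ := Set.exists_subset_encard_eq hcard
    have hfin : G'.Finite := Set.finite_of_encard_eq_coe hG'2
    obtain ⟨G, rfl⟩ := hfin.exists_finset_coe
    rw [Set.encard_coe_eq_coe_finsetCard] at hG'2
    have hGcard : G.card = r := by exact_mod_cast hG'2
    obtain ⟨t, ht1, ht2⟩ := exists_stage G n₀
    have hgood : Good a r t := by
      refine ⟨by rw [ht2]; exact hGcard, fun f hf => ?_⟩
      rw [ht2] at hf
      exact hS (hG'1 (by exact_mod_cast hf))
    have hNt := N_gt a t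
    have hdt := d_eq a t
    have h6 : N a t ≤ (a + 2) * N a t := Nat.le_mul_of_pos_left _ (by omega)
    obtain ⟨f, hf, hs⟩ := hN ((d a t + 1) * (a * (2 * a + 14) + 4) * q a t + d a t) (by omega)
    refine obstruct a r t hgood f (fun i => (hf i).1) (fun i hi => ?_) hs
    rw [ht2] at hi
    exact (hf i).2 (hG'1 (by exact_mod_cast hi))
  · intro hcard
    have hfin : S.Finite := Set.finite_of_encard_le_coe (k := r) (le_of_lt hcard)
    obtain ⟨B, hB⟩ := hfin.bddAbove
    refine ⟨(a + 5) * q a (B + 1), fun n hn => ?_⟩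
    obtain ⟨f, hf, hs⟩ := cover a r (B + 1) n ha (fun c => c ∈ {c | inA a r c} \ S)
      (fun c hc1 hc2 => ⟨hc1, fun hc3 => by
        have := hB hc3
        omega⟩)
      (fun t hG ht => by
        by_contra hcon
        have hsub : (↑(F t) : Set ℕ) ⊆ S := by
          intro f hf
          by_contra hfS
          exact hcon ⟨f, by exact_mod_cast hf, hG.2 f (by exact_mod_cast hf), hfS⟩
        have h1 := Set.encard_le_encard hsub
        rw [Set.encard_coe_eq_coe_finsetCard, hG.1] at h1
        exact absurd hcard (not_lt.mpr h1)) hn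
    exact ⟨f, hf, hs⟩

end Pool.Agent.Helpers.RMinBasis
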