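import Mathlib

open scoped commutatorElement

namespace SolvRO

theorem arch_zero {c D : ℝ} (h : ∀ m : ℕ, (m : ℝ) * |c| ≤ D) : c = 0 := by
  by_contra hc
  have hpos : 0 < |c| := abs_pos.2 hc
  obtain ⟨m, hm⟩ := exists_nat_gt (D / |c|)
  have := h m
  rw [div_lt_iff₀ hpos] at hm
  linarith

section Homog

variable {G : Type*} [Group G]

theorem pow_est (ρ : G → ℝ) (D : ℝ) (h : ∀ a b, |ρ (a * b) - ρ a - ρ b| ≤ D) (b : G) (m : ℕ) :
    |ρ (b ^ m) - m * ρ b| ≤ (m + 1) * D := by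
  induction m with
  | zero =>
    have := h 1 1
    simp only [mul_one, sub_self, zero_sub, abs_neg] at this
    simpa using this
  | succ m ih =>
    have h1 := h (b ^ m) b
    rw [← pow_succ] at h1
    push_cast
    have e : ρ (b ^ (m + 1)) - (m + 1) * ρ b =
        (ρ (b ^ (m + 1)) - ρ (b ^ m) - ρ b) + (ρ (b ^ m) - m * ρ b) := by ring
    rw [e]
    refine (abs_add_le _ _).trans ?_
    linarith

theorem exists_homog (ρ : G → ℝ) (D : ℝ) (h : ∀ a b, |ρ (a * b) - ρ a - ρ b| ≤ D) :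
    ∃ T : G → ℝ, (∀ a, |T a - ρ a| ≤ D) ∧ (∀ a (m : ℕ), T (a ^ m) = m * T a) := by
  have hD : 0 ≤ D := (abs_nonneg _).trans (h 1 1)
  set s : G → ℕ → ℝ := fun a k => ρ (a ^ (2 ^ k)) / 2 ^ k with hs
  have hstep : ∀ a k, dist (s a k) (s a (k + 1)) ≤ D / 2 / 2 ^ k := by
    intro a k
    have h1 := h (a ^ 2 ^ k) (a ^ 2 ^ k)
    have e : a ^ 2 ^ k * a ^ 2 ^ k = a ^ 2 ^ (k + 1) := by
      rw [← pow_add]; congr 1; ring
    rw [e] at h1
    simp only [hs, Real.dist_eq]
    have h2 : (0 : ℝ) < 2 ^ k := by positivity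
    have e2 : ρ (a ^ 2 ^ k) / 2 ^ k - ρ (a ^ 2 ^ (k + 1)) / 2 ^ (k + 1) =
        -((ρ (a ^ 2 ^ (k + 1)) - ρ (a ^ 2 ^ k) - ρ (a ^ 2 ^ k)) / (2 * 2 ^ k)) := by
      field_simp
      ring
    rw [e2, abs_neg, abs_div, abs_of_pos (by positivity : (0 : ℝ) < 2 * 2 ^ k), div_div]
    gcongr
  have hcs : ∀ a, ∃ l, Filter.Tendsto (s a) Filter.atTop (nhds l) := fun a =>
    cauchySeq_tendsto_of_complete (cauchySeq_of_le_geometric_two (hstep a))
  choose T hT using hcs
  refine ⟨T, fun a => ?_, fun a m => ?_⟩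
  · have := dist_le_of_le_geometric_two_of_tendsto₀ (hstep a) (hT a)
    rw [Real.dist_eq] at this
    rw [abs_sub_comm]
    simpa [hs] using this
  · have h1 := hT (a ^ m)
    have h2 : Filter.Tendsto (fun k => (m : ℝ) * s a k) Filter.atTop (nhds (m * T a)) :=
      (hT a).const_mul _
    have h3 : Filter.Tendsto (fun k => s (a ^ m) k - m * s a k) Filter.atTop (nhds 0) := by
      have hb : ∀ k, |s (a ^ m) k - m * s a k| ≤ ((m + 1) * D) * (1 / 2) ^ k := by
        intro k
        have h4 := pow_est ρ D h (a ^ 2 ^ k) m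
        have e : (a ^ 2 ^ k) ^ m = (a ^ m) ^ 2 ^ k := by
          rw [← pow_mul, ← pow_mul, mul_comm]
        rw [e] at h4
        simp only [hs]
        have h5 : (0 : ℝ) < 2 ^ k := by positivity
        have e2 : ρ ((a ^ m) ^ 2 ^ k) / 2 ^ k - m * (ρ (a ^ 2 ^ k) / 2 ^ k) =
            (ρ ((a ^ m) ^ 2 ^ k) - m * ρ (a ^ 2 ^ k)) / 2 ^ k := by ring
        rw [e2, abs_div, abs_of_pos h5, one_div, inv_pow, ← div_eq_mul_inv]
        gcongr
      refine squeeze_zero_norm (fun k => by simpa using hb k) ?_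
      have := (tendsto_pow_atTop_nhds_zero_of_lt_one (by norm_num : (0 : ℝ) ≤ 1 / 2)
        (by norm_num)).const_mul ((m + 1) * D)
      simpa using this
    have h4 := h1.sub h2
    have h5 := tendsto_nhds_unique h4 h3
    linarith

end Homog

section Quasi

variable {U : Type*} [Group U] (T : U → ℝ) (D : ℝ)
  (hq : ∀ a b, |T (a * b) - T a - T b| ≤ D) (hh : ∀ a (m : ℕ), T (a ^ m) = m * T a)

include hq hh

theorem T_inv (a : U) : T a⁻¹ = - T a := by
  have h1 : T a + T a⁻¹ = 0 := by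
    refine arch_zero (D := D) fun m => ?_
    have h2 := hq (a ^ m) (a⁻¹ ^ m)
    have e : a ^ m * a⁻¹ ^ m = 1 := by rw [inv_pow, mul_inv_cancel]
    have h3 : T 1 = 0 := by simpa using hh 1 0
    rw [e, hh, hh, h3] at h2
    have e2 : (0 : ℝ) - m * T a - m * T a⁻¹ = -(m * (T a + T a⁻¹)) := by ring
    rw [e2, abs_neg, abs_mul, Nat.abs_cast] at h2
    exact h2
  linarith

theorem T_conj (a b : U) : T (b * a * b⁻¹) = T a := by
  have h1 : T (b * a * b⁻¹) - T a = 0 := by
    refine arch_zero (D := D + D) fun m => ?_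
    have h2 := hq (b * a ^ m) b⁻¹
    have h3 := hq b (a ^ m)
    rw [← conj_pow, hh, T_inv T D hq hh b] at h2
    rw [hh] at h3
    have e : (m : ℝ) * |T (b * a * b⁻¹) - T a| = |(m : ℝ) * T (b * a * b⁻¹) - m * T a| := by
      rw [← mul_sub, abs_mul, Nat.abs_cast]
    rw [e]
    have e2 : (m : ℝ) * T (b * a * b⁻¹) - m * T a =
        (m * T (b * a * b⁻¹) - T (b * a ^ m) - -T b) + (T (b * a ^ m) - T b - m * T a) := by ring
    rw [e2]
    exact (abs_add_le _ _).trans (add_le_add h2 h3)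
  linarith

theorem add_step (H : Subgroup U) (hn : (⁅H, H⁆ : Subgroup U).Normal)
    (hK : ∀ a ∈ (⁅H, H⁆ : Subgroup U), ∀ b ∈ (⁅H, H⁆ : Subgroup U), T (a * b) = T a + T b) :
    ∀ a ∈ H, ∀ b ∈ H, T (a * b) = T a + T b := by
  -- T (g k) = T g + T k for k in K
  have hgk : ∀ g : U, ∀ k ∈ (⁅H, H⁆ : Subgroup U), T (g * k) = T g + T k := by
    intro g k hk
    have hpow : ∀ m : ℕ, ∃ km ∈ (⁅H, H⁆ : Subgroup U), (g * k) ^ m = g ^ m * km ∧
        T km = m * T k := by
      intro m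
      induction m with
      | zero => exact ⟨1, one_mem _, by simp, by simpa using hh 1 0⟩
      | succ m ih =>
        obtain ⟨km, h1, h2, h3⟩ := ih
        have h4 : g⁻¹ * km * g ∈ (⁅H, H⁆ : Subgroup U) := by
          have := hn.conj_mem km h1 g⁻¹
          simpa using this
        refine ⟨g⁻¹ * km * g * k, mul_mem h4 hk, ?_, ?_⟩
        · rw [pow_succ, h2, pow_succ]; group
        · rw [hK _ h4 _ hk]
          have h5 := T_conj T D hq hh km g⁻¹
          simp only [inv_inv] at h5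
          rw [h5, h3]; push_cast; ring
    have h1 : T (g * k) - T g - T k = 0 := by
      refine arch_zero (D := D) fun m => ?_
      obtain ⟨km, -, h2, h3⟩ := hpow m
      have h4 := hq (g ^ m) km
      rw [← h2, hh, hh, h3] at h4
      have e : (m : ℝ) * |T (g * k) - T g - T k| = |(m : ℝ) * T (g * k) - m * T g - m * T k| := by
        rw [← mul_sub, ← mul_sub, abs_mul, Nat.abs_cast]
      rw [e]; exact h4
    linarith
  -- T vanishes on commutators
  have hcomm : ∀ a ∈ H, ∀ b ∈ H, T ⁅a, b⁆ = 0 := by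
    intro a ha b hb
    have h1 : ⁅a⁻¹, b⁻¹⁆ ∈ (⁅H, H⁆ : Subgroup U) :=
      Subgroup.commutator_mem_commutator (inv_mem ha) (inv_mem hb)
    have key : ∀ a ∈ H, ∀ b ∈ H, T ⁅a⁻¹, b⁻¹⁆ = 0 := by
      intro a ha b hb
      have h1 : ⁅a⁻¹, b⁻¹⁆ ∈ (⁅H, H⁆ : Subgroup U) :=
        Subgroup.commutator_mem_commutator (inv_mem ha) (inv_mem hb)
      have h2 := hgk (b * a) _ h1
      have e : b * a * ⁅a⁻¹, b⁻¹⁆ = a * (b * a) * a⁻¹ := by
        rw [commutatorElement_def]; group
      rw [e, T_conj T D hq hh] at h2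
      linarith
    have := key a⁻¹ (inv_mem ha) b⁻¹ (inv_mem hb)
    simpa using this
  have hzero : ∀ k ∈ (⁅H, H⁆ : Subgroup U), T k = 0 := by
    intro k hk
    have hle : (⁅H, H⁆ : Subgroup U) ≤
        { carrier := {k | k ∈ (⁅H, H⁆ : Subgroup U) ∧ T k = 0}
          one_mem' := ⟨one_mem _, by simpa using hh 1 0⟩
          mul_mem' := fun {a b} ha hb => ⟨mul_mem ha.1 hb.1, by
            rw [hK _ ha.1 _ hb.1, ha.2, hb.2, add_zero]⟩
          inv_mem' := fun {a} ha => ⟨inv_mem ha.1, by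
            rw [T_inv T D hq hh, ha.2, neg_zero]⟩ } := by
      rw [Subgroup.commutator_le]
      intro a ha b hb
      exact ⟨Subgroup.commutator_mem_commutator ha hb, hcomm a ha b hb⟩
    exact (hle hk).2
  intro a ha b hb
  have hpow : ∀ m : ℕ, ∃ km ∈ (⁅H, H⁆ : Subgroup U), (a * b) ^ m = a ^ m * b ^ m * km := by
    intro m
    induction m with
    | zero => exact ⟨1, one_mem _, by simp⟩
    | succ m ih =>
      obtain ⟨km, h1, h2⟩ := ih
      have hkmH : km ∈ H := by
        have : (⁅H, H⁆ : Subgroup U) ≤ H := by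
          rw [Subgroup.commutator_le]
          intro x hx y hy
          rw [commutatorElement_def]
          exact mul_mem (mul_mem (mul_mem hx hy) (inv_mem hx)) (inv_mem hy)
        exact this h1
      -- c with (b^m km) a = a (b^m km) c
      have hc : ⁅(b ^ m * km)⁻¹, a⁻¹⁆ ∈ (⁅H, H⁆ : Subgroup U) :=
        Subgroup.commutator_mem_commutator (inv_mem (mul_mem (pow_mem hb m) hkmH)) (inv_mem ha)
      have h5 : b⁻¹ * (km * ⁅(b ^ m * km)⁻¹, a⁻¹⁆) * b ∈ (⁅H, H⁆ : Subgroup U) := by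
        have := hn.conj_mem _ (mul_mem h1 hc) b⁻¹
        simpa using this
      refine ⟨_, h5, ?_⟩
      rw [pow_succ, h2, commutatorElement_def, pow_succ, pow_succ]
      group
  have h1 : T (a * b) - T a - T b = 0 := by
    refine arch_zero (D := D) fun m => ?_
    obtain ⟨km, h2, h3⟩ := hpow m
    have h4 := hq (a ^ m) (b ^ m)
    have h5 := hgk (a ^ m * b ^ m) km h2
    rw [← h3, hzero km h2, add_zero, hh] at h5
    rw [← h5, hh, hh] at h4
    have e : (m : ℝ) * |T (a * b) - T a - T b| = |(m : ℝ) * T (a * b) - m * T a - m * T b| := by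
      rw [← mul_sub, ← mul_sub, abs_mul, Nat.abs_cast]
    rw [e]; exact h4
  linarith

theorem add_all (n : ℕ)
    (h0 : ∀ a ∈ derivedSeries U n, ∀ b ∈ derivedSeries U n, T (a * b) = T a + T b) :
    ∀ a b, T (a * b) = T a + T b := by
  induction n with
  | zero =>
    intro a b
    exact h0 a (by simp) b (by simp)
  | succ n ih =>
    apply ih
    exact add_step T D hq hh (derivedSeries U n) (by
      have := derivedSeries_normal U (n + 1)
      rwa [derivedSeries_succ] at this) (by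
      rw [← derivedSeries_succ]; exact h0)

end Quasi

end SolvRO
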