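import Mathlib
import Pool.Agent.Helpers.RO1

open scoped commutatorElement

namespace SolvRO

variable {U : Type*} [Group U]

/-- left-invariant total preorder -/
structure LTP (r : U → U → Prop) : Prop where
  trans : ∀ a b c, r a b → r b c → r a c
  total : ∀ a b, r a b ∨ r b a
  left : ∀ c a b, r a b → r (c * a) (c * b)

theorem LTP.refl {r : U → U → Prop} (h : LTP r) (a : U) : r a a := by
  rcases h.total a a with h | h <;> exact h

theorem LTP.left_iff {r : U → U → Prop} (h : LTP r) (c a b : U) :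
    r (c * a) (c * b) ↔ r a b := by
  refine ⟨fun hab => ?_, h.left c a b⟩
  have := h.left c⁻¹ _ _ hab
  simpa using this

/-- the subgroup acts trivially (up to equivalence) by left multiplication -/
def Triv (r : U → U → Prop) (H : Subgroup U) : Prop := ∀ h ∈ H, ∀ a, r (h * a) a

theorem Triv.symm {r : U → U → Prop} (hr : LTP r) {H : Subgroup U} (h : Triv r H) :
    ∀ g ∈ H, ∀ a, r a (g * a) := by
  intro g hg a
  have := h g⁻¹ (inv_mem hg) (g * a)
  simpa using this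

theorem comm_act {r : U → U → Prop} (hr : LTP r) {N : Subgroup U} (hN : Triv r ⁅N, N⁆)
    {a b : U} (ha : a ∈ N) (hb : b ∈ N) (x : U) : r (a * b * x) (b * a * x) := by
  have h1 : ⁅a⁻¹, b⁻¹⁆ ∈ (⁅N, N⁆ : Subgroup U) :=
    Subgroup.commutator_mem_commutator (inv_mem ha) (inv_mem hb)
  have h2 := hr.left (b * a) _ _ (hN _ h1 x)
  have e : b * a * (⁅a⁻¹, b⁻¹⁆ * x) = a * b * x := by
    rw [commutatorElement_def]; group
  rwa [e] at h2

/-- convex hull of the orbit of `x` under powers of `g`. -/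
def I (r : U → U → Prop) (g x : U) : Set U := {y | ∃ k l : ℤ, r (g ^ k * x) y ∧ r y (g ^ l * x)}

theorem mem_I_self {r : U → U → Prop} (hr : LTP r) (g x : U) : x ∈ I r g x :=
  ⟨0, 0, by simpa using hr.refl x, by simpa using hr.refl x⟩

theorem I_sub {r : U → U → Prop} (hr : LTP r) {g x y : U} (h : y ∈ I r g x) :
    I r g y ⊆ I r g x := by
  obtain ⟨k, l, h1, h2⟩ := h
  rintro z ⟨a, b, h3, h4⟩
  refine ⟨a + k, b + l, ?_, ?_⟩
  · rw [zpow_add, mul_assoc]
    exact hr.trans _ _ _ (hr.left _ _ _ h1) h3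
  · rw [zpow_add, mul_assoc]
    exact hr.trans _ _ _ h4 (hr.left _ _ _ h2)

theorem I_symm {r : U → U → Prop} (hr : LTP r) {g x y : U} (h : y ∈ I r g x) :
    x ∈ I r g y := by
  obtain ⟨k, l, h1, h2⟩ := h
  refine ⟨-l, -k, ?_, ?_⟩
  · have := hr.left (g ^ (-l)) _ _ h2
    rwa [← mul_assoc, ← zpow_add, neg_add_cancel, zpow_zero, one_mul] at this
  · have := hr.left (g ^ (-k)) _ _ h1
    rwa [← mul_assoc, ← zpow_add, neg_add_cancel, zpow_zero, one_mul] at this

theorem I_eq {r : U → U → Prop} (hr : LTP r) {g x y : U} (h : y ∈ I r g x) :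
    I r g y = I r g x :=
  Set.Subset.antisymm (I_sub hr h) (I_sub hr (I_symm hr h))

theorem not_mem_I {r : U → U → Prop} (hr : LTP r) {g x y : U} (h : y ∉ I r g x) :
    (∀ k : ℤ, ¬ r y (g ^ k * x)) ∨ (∀ k : ℤ, ¬ r (g ^ k * x) y) := by
  by_contra hcon
  push Not at hcon
  obtain ⟨⟨l, hl⟩, ⟨k, hk⟩⟩ := hcon
  exact h ⟨k, l, hk, hl⟩

theorem le_of_not {r : U → U → Prop} (hr : LTP r) {a b : U} (h : ¬ r a b) : r b a :=
  (hr.total a b).resolve_left h

theorem nested {r : U → U → Prop} (hr : LTP r) {N : Subgroup U} (hN : Triv r ⁅N, N⁆)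
    {g h : U} (hg : g ∈ N) (hh : h ∈ N) (x : U) : I r g x ⊆ I r h x ∨ I r h x ⊆ I r g x := by
  by_contra hcon
  push Not at hcon
  obtain ⟨hc1, hc2⟩ := hcon
  obtain ⟨z, hz1, hz2⟩ := Set.not_subset.1 hc1
  obtain ⟨y, hy1, hy2⟩ := Set.not_subset.1 hc2
  -- z ∈ I g x \ I h x ; y ∈ I h x \ I g x
  obtain ⟨zk, zl, hzk, hzl⟩ := hz1
  obtain ⟨yk, yl, hyk, hyl⟩ := hy1
  -- commuting
  have hcomm : ∀ a b : ℤ, r (h ^ a * (g ^ b * x)) (g ^ b * (h ^ a * x)) := by
    intro a b
    have := comm_act hr hN (zpow_mem hh a) (zpow_mem hg b) x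
    rwa [mul_assoc, mul_assoc] at this
  have hcomm' : ∀ a b : ℤ, r (g ^ b * (h ^ a * x)) (h ^ a * (g ^ b * x)) := by
    intro a b
    have := comm_act hr hN (zpow_mem hg b) (zpow_mem hh a) x
    rwa [mul_assoc, mul_assoc] at this
  rcases not_mem_I hr hy2 with hy | hy
  · -- y above all g^k x
    rcases not_mem_I hr hz2 with hz | hz
    · -- z above all h^j x
      -- z ≤ g^zl x ≤ y ≤ h^yl x < z
      exact hz yl (hr.trans _ _ _ hzl (hr.trans _ _ _ (le_of_not hr (hy zl)) hyl))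
    · -- z below all h^j x : ¬ r (h^j x) z
      -- h^yl x > g^k x for all k:  ¬ r (h^yl x) (g^k x)
      have h1 : ∀ k : ℤ, ¬ r (h ^ yl * x) (g ^ k * x) := fun k hk => hy k (hr.trans _ _ _ hyl hk)
      -- multiply by h^{-yl}: ¬ r x (h^{-yl} g^k x)
      have h2 : ∀ k : ℤ, ¬ r (g ^ (-k) * x) (h ^ (-yl) * x) := by
        intro k hk
        have h3 := hr.left (g ^ k) _ _ hk
        rw [← mul_assoc, ← zpow_add, add_neg_cancel, zpow_zero, one_mul] at h3
        have h4 := hr.trans _ _ _ h3 (hcomm' (-yl) k)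
        have h5 := hr.left (h ^ yl) _ _ h4
        rw [← mul_assoc (h ^ yl), ← zpow_add, add_neg_cancel, zpow_zero, one_mul] at h5
        exact h1 k h5
      have h3 := h2 (-zk)
      rw [neg_neg] at h3
      exact h3 (hr.trans _ _ _ hzk (le_of_not hr (hz (-yl))))
  · -- y below all g^k x : ¬ r (g^k x) y
    rcases not_mem_I hr hz2 with hz | hz
    · -- z above all h^j x: ¬ r z (h^j x)
      have h1 : ∀ k : ℤ, ¬ r (g ^ k * x) (h ^ yk * x) := fun k hk => hy k (hr.trans _ _ _ hk hyk)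
      have h2 : ∀ k : ℤ, ¬ r (h ^ (-yk) * x) (g ^ (-k) * x) := by
        intro k hk
        have h3 := hr.left (g ^ k) _ _ hk
        rw [← mul_assoc (g ^ k) (g ^ (-k)), ← zpow_add, add_neg_cancel, zpow_zero, one_mul] at h3
        have h4 := hr.trans _ _ _ (hcomm (-yk) k) h3
        have h5 := hr.left (h ^ yk) _ _ h4
        rw [← mul_assoc (h ^ yk), ← zpow_add, add_neg_cancel, zpow_zero, one_mul] at h5
        exact h1 k h5
      have h3 := h2 (-zl)
      rw [neg_neg] at h3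
      exact h3 (hr.trans _ _ _ (le_of_not hr (hz (-yk))) hzl)
    · -- z below all h^j x
      exact hz yk (hr.trans _ _ _ hyk (hr.trans _ _ _ (le_of_not hr (hy zk)) hzk))

/-- the coarser preorder -/
def coarse (r : U → U → Prop) (N : Subgroup U) (a b : U) : Prop := ∃ n ∈ N, r a (n * b)

theorem coarse_LTP {r : U → U → Prop} (hr : LTP r) (N : Subgroup U) [hN : N.Normal] :
    LTP (coarse r N) where
  trans := by
    rintro a b c ⟨n, hn, h1⟩ ⟨m, hm, h2⟩
    refine ⟨n * m, mul_mem hn hm, ?_⟩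
    rw [mul_assoc]
    exact hr.trans _ _ _ h1 (hr.left _ _ _ h2)
  total := by
    intro a b
    rcases hr.total a b with h | h
    · exact Or.inl ⟨1, one_mem _, by simpa using h⟩
    · exact Or.inr ⟨1, one_mem _, by simpa using h⟩
  left := by
    rintro c a b ⟨n, hn, h1⟩
    refine ⟨c * n * c⁻¹, hN.conj_mem n hn c, ?_⟩
    have := hr.left c _ _ h1
    have e : c * n * c⁻¹ * (c * b) = c * (n * b) := by group
    rwa [e]

theorem coarse_triv {r : U → U → Prop} (hr : LTP r) (N : Subgroup U) : Triv (coarse r N) N :=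
  fun h hh a => ⟨h, hh, hr.refl _⟩

/-! ### case 2b -/

theorem exhaust {r : U → U → Prop} (hr : LTP r) {N : Subgroup U} (hN : Triv r ⁅N, N⁆)
    (hcof : ∀ a b, ∃ n ∈ N, r a (n * b)) (y : U) : ∃ h ∈ N, y ∈ I r h 1 := by
  obtain ⟨n, hn, h1⟩ := hcof y 1
  obtain ⟨m, hm, h2⟩ := hcof 1 y
  have h3 : r m⁻¹ y := by
    have := hr.left m⁻¹ _ _ h2
    simpa using this
  rw [mul_one] at h1
  have key : ∀ h ∈ N, n ∈ I r h 1 → m⁻¹ ∈ I r h 1 → y ∈ I r h 1 := by
    rintro h - ⟨-, l, -, h4⟩ ⟨k, -, h5, -⟩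
    exact ⟨k, l, hr.trans _ _ _ h5 h3, hr.trans _ _ _ h1 h4⟩
  have hnn : n ∈ I r n 1 := ⟨1, 1, by simpa using hr.refl n, by simpa using hr.refl n⟩
  have hmm : m⁻¹ ∈ I r m 1 := ⟨-1, -1, by simpa using hr.refl _, by simpa using hr.refl _⟩
  rcases nested hr hN hn hm 1 with h | h
  · exact ⟨m, hm, key m hm (h hnn) hmm⟩
  · exact ⟨n, hn, key n hn hnn (h hmm)⟩

theorem case_b {r : U → U → Prop} (hr : LTP r) {N : Subgroup U} [hNn : N.Normal]
    (hN : Triv r ⁅N, N⁆) (hcof : ∀ a b, ∃ n ∈ N, r a (n * b))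
    (hb : ∀ g ∈ N, I r g 1 ≠ Set.univ) (S : Finset U)
    (hS : Subgroup.closure (S : Set U) = ⊤) :
    ∃ r' : U → U → Prop, LTP r' ∧ Triv r' N ∧ ∃ a b, ¬ r' a b := by
  classical
  set A : N → Set U := fun h => {g | g ∈ N ∧ I r (h : U) 1 ⊆ I r g 1} with hA
  have hne : (⨅ h : N, Filter.principal (A h)).NeBot := by
    refine Filter.iInf_neBot_of_directed' ?_ ?_
    · intro h₁ h₂
      rcases nested hr hN h₁.2 h₂.2 1 with h | h
      · refine ⟨h₂, ?_, ?_⟩
        · exact Filter.principal_mono.2 fun g hg => ⟨hg.1, h.trans hg.2⟩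
        · exact le_rfl
      · refine ⟨h₁, le_rfl, ?_⟩
        exact Filter.principal_mono.2 fun g hg => ⟨hg.1, h.trans hg.2⟩
    · intro h
      exact Filter.principal_neBot_iff.2 ⟨h, h.2, subset_rfl⟩
  set ω : Ultrafilter U := Ultrafilter.of (⨅ h : N, Filter.principal (A h)) with hω
  have hmem : ∀ h : N, ∀ᶠ g in (ω : Filter U), g ∈ N ∧ I r (h : U) 1 ⊆ I r g 1 := by
    intro h
    have h1 : (ω : Filter U) ≤ ⨅ h : N, Filter.principal (A h) := Ultrafilter.of_le _
    have h2 : (⨅ h : N, Filter.principal (A h)) ≤ Filter.principal (A h) := iInf_le _ h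
    exact (h1.trans h2) (Filter.mem_principal_self _)
  have hev : ∀ y : U, ∀ᶠ g in (ω : Filter U), g ∈ N ∧ y ∈ I r g 1 := by
    intro y
    obtain ⟨h, hh, hy⟩ := exhaust hr hN hcof y
    filter_upwards [hmem ⟨h, hh⟩] with g hg
    exact ⟨hg.1, hg.2 hy⟩
  refine ⟨fun a b => ∀ᶠ g in (ω : Filter U), ∀ y ∈ I r g 1, b⁻¹ * a * y ∈ I r g 1,
    ⟨?_, ?_, ?_⟩, ?_, ?_⟩
  · intro a b c h1 h2
    filter_upwards [h1, h2] with g hg1 hg2 y hy
    have := hg2 _ (hg1 y hy)
    have e : c⁻¹ * b * (b⁻¹ * a * y) = c⁻¹ * a * y := by group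
    rwa [e] at this
  · intro a b
    rw [← Ultrafilter.eventually_or]
    filter_upwards [hev (b⁻¹ * a)] with g hg
    obtain ⟨hgN, hcI⟩ := hg
    set c := b⁻¹ * a with hc
    have hcg : c * g * c⁻¹ ∈ N := hNn.conj_mem g hgN c
    have himg : ∀ k : ℤ, (c * g * c⁻¹) ^ k * c = c * g ^ k := by
      intro k
      rw [conj_zpow]; group
    have e1 : I r g c = I r g 1 := I_eq hr hcI
    rcases nested hr hN hcg hgN c with h | h
    · left
      rintro y ⟨k, l, h1, h2⟩
      rw [← e1]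
      apply h
      refine ⟨k, l, ?_, ?_⟩
      · rw [himg]
        have := hr.left c _ _ h1
        rwa [mul_one] at this
      · rw [himg]
        have := hr.left c _ _ h2
        rwa [mul_one] at this
    · right
      intro y hy
      rw [← e1] at hy
      obtain ⟨k, l, h1, h2⟩ := h hy
      rw [himg] at h1 h2
      have e2 : a⁻¹ * b = c⁻¹ := by rw [hc]; group
      rw [e2]
      refine ⟨k, l, ?_, ?_⟩
      · have := hr.left c⁻¹ _ _ h1
        simpa using this
      · have := hr.left c⁻¹ _ _ h2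
        simpa using this
  · intro c a b h
    have e : (c * b)⁻¹ * (c * a) = b⁻¹ * a := by group
    rw [e]; exact h
  · intro h hh a
    have hn' : a⁻¹ * h * a ∈ N := by
      have := hNn.conj_mem h hh a⁻¹
      simpa using this
    filter_upwards [hev (a⁻¹ * h * a)] with g hg y hy
    obtain ⟨hgN, hcI⟩ := hg
    have e : a⁻¹ * (h * a) * y = (a⁻¹ * h * a) * y := by group
    rw [e, ← I_eq hr hcI]
    obtain ⟨k, l, h1, h2⟩ := hy
    refine ⟨k, l, ?_, ?_⟩
    · have h3 := hr.left (a⁻¹ * h * a) _ _ h1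
      have h4 := comm_act hr hN (zpow_mem hgN k) hn' 1
      rw [mul_one, mul_assoc (a⁻¹ * h * a), ] at h4
      exact hr.trans _ _ _ h4 h3
    · have h3 := hr.left (a⁻¹ * h * a) _ _ h2
      have h4 := comm_act hr hN hn' (zpow_mem hgN l) 1
      rw [mul_one (g ^ l * (a⁻¹ * h * a)), mul_assoc (a⁻¹ * h * a)] at h4
      exact hr.trans _ _ _ h3 h4
  · by_contra hcon
    push Not at hcon
    have h1 : ∀ᶠ g in (ω : Filter U), ∀ s ∈ S, ((∀ y ∈ I r g 1, s * y ∈ I r g 1) ∧
        (∀ y ∈ I r g 1, s⁻¹ * y ∈ I r g 1)) := by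
      rw [Filter.eventually_all_finset]
      intro s _
      filter_upwards [hcon s 1, hcon s⁻¹ 1] with g h2 h3
      exact ⟨fun y hy => by simpa using h2 y hy, fun y hy => by simpa using h3 y hy⟩
    obtain ⟨g, hg1, hg2⟩ := (h1.and (hev 1)).exists
    have hle : Subgroup.closure (S : Set U) ≤
        { carrier := {u | (∀ y ∈ I r g 1, u * y ∈ I r g 1) ∧ (∀ y ∈ I r g 1, u⁻¹ * y ∈ I r g 1)}
          one_mem' := ⟨fun y hy => by simpa using hy, fun y hy => by simpa using hy⟩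
          mul_mem' := fun {a b} ha hb => ⟨fun y hy => by
              rw [mul_assoc]; exact ha.1 _ (hb.1 y hy), fun y hy => by
              rw [mul_inv_rev, mul_assoc]; exact hb.2 _ (ha.2 y hy)⟩
          inv_mem' := fun {a} ha => ⟨ha.2, fun y hy => by rw [inv_inv]; exact ha.1 y hy⟩ } := by
      rw [Subgroup.closure_le]
      intro s hs
      exact hg1 s hs
    apply hb g hg2.1
    ext u
    simp only [Set.mem_univ, iff_true]
    have hu : u ∈ Subgroup.closure (S : Set U) := by rw [hS]; trivial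
    have := (hle hu).1 1 (mem_I_self hr g 1)
    simpa using this

end SolvRO
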