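import Mathlib
import Pool.Agent.Helpers.RO2

open scoped commutatorElement

namespace SolvRO

variable {U : Type*} [Group U]

theorem add_zpow_hom {G : Type*} [Group G] (f : G → ℝ) (hf : ∀ a b, f (a * b) = f a + f b)
    (a : G) (z : ℤ) : f (a ^ z) = z * f a := by
  let F : G →* Multiplicative ℝ := MonoidHom.mk' (fun a => Multiplicative.ofAdd (f a))
    (fun a b => by rw [hf]; rfl)
  have h := map_zpow F a z
  have h2 : f (a ^ z) = z • f a := h
  rw [h2]; simp

section Pos

variable {r : U → U → Prop} (hr : LTP r) {g : U} (hg1 : ¬ r g 1)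
  (hcofg : ∀ y, ∃ k l : ℤ, r (g ^ k) y ∧ r y (g ^ l))

include hr hg1

theorem g_mono {k l : ℤ} (h : k ≤ l) : r (g ^ k) (g ^ l) := by
  have h0 : ∀ m : ℕ, r 1 (g ^ m) := by
    intro m
    induction m with
    | zero => simpa using hr.refl 1
    | succ m ih =>
      have h1 := hr.left (g ^ m) _ _ (le_of_not hr hg1)
      rw [mul_one, ← pow_succ] at h1
      exact hr.trans _ _ _ ih h1
  obtain ⟨m, rfl⟩ := Int.exists_add_of_le h
  have h1 := hr.left (g ^ k) _ _ (h0 m)
  rw [mul_one, ← zpow_natCast, ← zpow_add] at h1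
  exact h1

theorem g_strict {k l : ℤ} (h : r (g ^ k) (g ^ l)) : k ≤ l := by
  by_contra hcon
  push Not at hcon
  have h1 : r (g ^ (l + 1)) (g ^ l) := hr.trans _ _ _ (g_mono hr hg1 (by omega)) h
  have h2 := hr.left (g ^ (-l)) _ _ h1
  rw [← zpow_add, ← zpow_add] at h2
  apply hg1
  simpa using h2

include hcofg

theorem exists_rho (u : U) : ∃ k : ℤ, r (g ^ k) u ∧ ¬ r (g ^ (k + 1)) u := by
  obtain ⟨a, b, ha, hb⟩ := hcofg u
  obtain ⟨k, hk1, hk2⟩ := Int.exists_greatest_of_bdd (P := fun k => r (g ^ k) u)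
    ⟨b, fun z hz => g_strict hr hg1 (hr.trans _ _ _ hz hb)⟩ ⟨a, ha⟩
  refine ⟨k, hk1, fun h => ?_⟩
  have := hk2 _ h
  omega

end Pos

theorem case_a {r : U → U → Prop} (hr : LTP r) {N : Subgroup U} [hNn : N.Normal]
    (hN : Triv r ⁅N, N⁆) {n : ℕ} (hNd : N = derivedSeries U n) {g : U} (hgN : g ∈ N)
    (hg1 : ¬ r g 1) (hcofg : ∀ y, ∃ k l : ℤ, r (g ^ k) y ∧ r y (g ^ l)) :
    ∃ f : U → ℝ, (∀ a b, f (a * b) = f a + f b) ∧ ∃ a, f a ≠ 0 := by
  classical
  choose ρ hρ1 hρ2 using exists_rho hr hg1 hcofg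
  have L1 : ∀ {k : ℤ} {u : U}, r (g ^ k) u → k ≤ ρ u := by
    intro k u h
    by_contra hcon
    push Not at hcon
    exact hρ2 u (hr.trans _ _ _ (g_mono hr hg1 (by omega)) h)
  have L2 : ∀ {k : ℤ} {u : U}, r u (g ^ k) → ρ u ≤ k := fun {k u} h =>
    g_strict hr hg1 (hr.trans _ _ _ (hρ1 u) h)
  have L3 : ∀ u, r u (g ^ (ρ u + 1)) := fun u => le_of_not hr (hρ2 u)
  -- ρ vanishes on trivially acting elements
  have Ltriv : ∀ c ∈ (⁅N, N⁆ : Subgroup U), ρ c = 0 := by
    intro c hc
    have h1 := hN c hc 1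
    have h2 := Triv.symm hr hN c hc 1
    rw [mul_one] at h1 h2
    exact le_antisymm (L2 (by simpa using h1)) (L1 (by simpa using h2))
  have Lpow : ∀ k : ℤ, ρ (g ^ k) = k := fun k =>
    le_antisymm (L2 (hr.refl _)) (L1 (hr.refl _))
  -- commutation of elements of N at 1
  have hcm : ∀ a ∈ N, ∀ b ∈ N, r (a * b) (b * a) := by
    intro a ha b hb
    have := comm_act hr hN ha hb 1
    rwa [mul_one, mul_one] at this
  have hgz : ∀ k : ℤ, g ^ k ∈ N := fun k => zpow_mem hgN k
  -- quasimorphism on N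
  have hqN : ∀ a ∈ N, ∀ b ∈ N, ρ a + ρ b ≤ ρ (a * b) ∧ ρ (a * b) ≤ ρ a + ρ b + 2 := by
    intro a ha b hb
    constructor
    · apply L1
      have h1 := hr.left a _ _ (hρ1 b)
      have h2 := hcm _ (hgz (ρ b)) a ha
      have h3 := hr.left (g ^ ρ b) _ _ (hρ1 a)
      rw [← zpow_add, add_comm] at h3
      exact hr.trans _ _ _ h3 (hr.trans _ _ _ h2 h1)
    · apply L2
      have h1 := hr.left a _ _ (L3 b)
      have h2 := hcm a ha _ (hgz (ρ b + 1))
      have h3 := hr.left (g ^ (ρ b + 1)) _ _ (L3 a)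
      rw [← zpow_add] at h3
      have e : ρ b + 1 + (ρ a + 1) = ρ a + ρ b + 2 := by ring
      rw [e] at h3
      exact hr.trans _ _ _ h1 (hr.trans _ _ _ h2 h3)
  obtain ⟨τ, hτ1, hτ2⟩ := exists_homog (G := N) (fun a => (ρ (a : U) : ℝ)) 2 (by
    intro a b
    obtain ⟨h1, h2⟩ := hqN a a.2 b b.2
    have h1' : (ρ (a : U) : ℝ) + ρ (b : U) ≤ ρ ((a : U) * b) := by exact_mod_cast h1
    have h2' : (ρ ((a : U) * b) : ℝ) ≤ ρ (a : U) + ρ (b : U) + 2 := by exact_mod_cast h2
    rw [abs_le]
    constructor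
    · rw [Subgroup.coe_mul]; linarith
    · rw [Subgroup.coe_mul]; linarith)
  have hτq : ∀ a b : N, |τ (a * b) - τ a - τ b| ≤ 8 := by
    intro a b
    obtain ⟨h1, h2⟩ := hqN a a.2 b b.2
    have h1' : (ρ (a : U) : ℝ) + ρ (b : U) ≤ ρ ((a : U) * b) := by exact_mod_cast h1
    have h2' : (ρ ((a : U) * b) : ℝ) ≤ ρ (a : U) + ρ (b : U) + 2 := by exact_mod_cast h2
    have h3 := abs_le.1 (hτ1 (a * b))
    have h4 := abs_le.1 (hτ1 a)
    have h5 := abs_le.1 (hτ1 b)
    rw [Subgroup.coe_mul] at h3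
    rw [abs_le]
    constructor <;> linarith [h3.1, h3.2, h4.1, h4.2, h5.1, h5.2]
  -- τ is zero on ⁅⊤,⊤⁆
  have hmapcomm : ∀ c ∈ (⁅(⊤ : Subgroup N), (⊤ : Subgroup N)⁆ : Subgroup N),
      (c : U) ∈ (⁅N, N⁆ : Subgroup U) := by
    intro c hc
    have h1 : (⁅(⊤ : Subgroup N), (⊤ : Subgroup N)⁆ : Subgroup N) ≤
        (⁅N, N⁆ : Subgroup U).comap N.subtype := by
      rw [Subgroup.commutator_le]
      intro a _ b _
      rw [Subgroup.mem_comap]
      have : N.subtype ⁅a, b⁆ = ⁅(a : U), (b : U)⁆ := by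
        rw [commutatorElement_def, commutatorElement_def]; simp
      rw [this]
      exact Subgroup.commutator_mem_commutator a.2 b.2
    exact h1 hc
  have hτzero : ∀ c ∈ (⁅(⊤ : Subgroup N), (⊤ : Subgroup N)⁆ : Subgroup N), τ c = 0 := by
    intro c hc
    refine arch_zero (D := 2) fun m => ?_
    have h1 := hτ1 (c ^ m)
    rw [hτ2, Ltriv _ (hmapcomm _ (pow_mem hc m))] at h1
    simp only [Int.cast_zero, sub_zero] at h1
    rwa [abs_mul, Nat.abs_cast] at h1
  have hτadd : ∀ a b : N, τ (a * b) = τ a + τ b := by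
    intro a b
    refine add_step τ 8 hτq hτ2 ⊤ inferInstance ?_ a trivial b trivial
    intro x hx y hy
    rw [hτzero _ (mul_mem hx hy), hτzero x hx, hτzero y hy, add_zero]
  have hτz := fun (a : N) (z : ℤ) => add_zpow_hom τ hτadd a z
  set gN : N := ⟨g, hgN⟩ with hgNdef
  have hτg : τ gN = 1 := by
    have h1 : τ gN - 1 = 0 := by
      refine arch_zero (D := 2) fun m => ?_
      have h1 := hτ1 (gN ^ m)
      have h2 : ρ ((gN ^ m : N) : U) = m := by
        have := Lpow m
        simpa [hgNdef] using this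
      rw [h2, hτ2] at h1
      have e : (m : ℝ) * |τ gN - 1| = |(m : ℝ) * τ gN - ((m : ℤ) : ℝ)| := by
        rw [← Nat.abs_cast m, ← abs_mul, Nat.abs_cast]
        congr 1
        push_cast
        ring
      rw [e]; exact h1
    linarith
  -- upward cofinal elements
  set upcof : U → Prop := fun h => ∀ x y, ∃ k : ℕ, r y (h ^ k * x) with hup
  have sign : ∀ h : N, 0 < τ h ↔ upcof (h : U) := by
    intro h
    constructor
    · intro hpos x y
      obtain ⟨a, -, ha, -⟩ := hcofg x
      obtain ⟨-, b, -, hb⟩ := hcofg y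
      obtain ⟨k, hk⟩ := exists_nat_gt (((b : ℝ) - a + 2) / τ h)
      rw [div_lt_iff₀ hpos] at hk
      refine ⟨k, ?_⟩
      have h1 := abs_le.1 (hτ1 (h ^ k))
      rw [hτ2] at h1
      have h2 : (b : ℝ) ≤ a + ρ ((h ^ k : N) : U) := by linarith [h1.1, h1.2]
      have h3 : b ≤ a + ρ ((h ^ k : N) : U) := by exact_mod_cast h2
      have h4 := g_mono hr hg1 h3
      rw [zpow_add] at h4
      have h5 := hr.left (g ^ a) _ _ (hρ1 ((h ^ k : N) : U))
      have h6 := hcm _ (hgz a) _ (h ^ k : N).2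
      have h7 := hr.left ((h ^ k : N) : U) _ _ ha
      rw [Subgroup.coe_pow] at h4 h5 h6 h7
      exact hr.trans _ _ _ hb (hr.trans _ _ _ h4 (hr.trans _ _ _ h5 (hr.trans _ _ _ h6 h7)))
    · intro hu
      obtain ⟨k, hk⟩ := hu 1 (g ^ (3 : ℤ))
      rw [mul_one] at hk
      have h1 := L1 hk
      have h2 := abs_le.1 (hτ1 (h ^ k))
      rw [hτ2, Subgroup.coe_pow] at h2
      have h3 : (3 : ℝ) ≤ ρ ((h : U) ^ k) := by exact_mod_cast h1
      have h4 : 0 < (k : ℝ) * τ h := by linarith [h2.1, h2.2]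
      by_contra hcon
      push Not at hcon
      have : (k : ℝ) * τ h ≤ 0 := mul_nonpos_of_nonneg_of_nonpos (Nat.cast_nonneg k) hcon
      linarith
  have upcof_conj : ∀ u h : U, upcof (u * h * u⁻¹) ↔ upcof h := by
    intro u h
    constructor
    · intro hu x y
      obtain ⟨k, hk⟩ := hu (u * x) (u * y)
      refine ⟨k, ?_⟩
      rw [conj_pow] at hk
      have e : u * h ^ k * u⁻¹ * (u * x) = u * (h ^ k * x) := by group
      rw [e, hr.left_iff] at hk
      exact hk
    · intro hu x y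
      obtain ⟨k, hk⟩ := hu (u⁻¹ * x) (u⁻¹ * y)
      refine ⟨k, ?_⟩
      rw [conj_pow]
      have h1 := hr.left u _ _ hk
      have e1 : u * (u⁻¹ * y) = y := by group
      have e2 : u * (h ^ k * (u⁻¹ * x)) = u * h ^ k * u⁻¹ * x := by group
      rwa [e1, e2] at h1
  -- conjugation on N
  set cj : U → N → N := fun u h => ⟨u * h * u⁻¹, hNn.conj_mem h h.2 u⟩ with hcj
  have cj_mul : ∀ u (a b : N), cj u (a * b) = cj u a * cj u b := by
    intro u a b
    apply Subtype.ext
    simp only [hcj, Subgroup.coe_mul]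
    group
  have hτcadd : ∀ u (a b : N), τ (cj u (a * b)) = τ (cj u a) + τ (cj u b) := by
    intro u a b
    rw [cj_mul, hτadd]
  have hτcz := fun (u : U) (a : N) (z : ℤ) => add_zpow_hom (fun h => τ (cj u h)) (hτcadd u) a z
  set lam : U → ℝ := fun u => τ (cj u gN) with hlam
  have lam_pos : ∀ u, 0 < lam u := by
    intro u
    have h1 : upcof ((gN : N) : U) := (sign gN).1 (by rw [hτg]; norm_num)
    exact (sign (cj u gN)).2 ((upcof_conj u g).2 h1)
  have sgn : ∀ u (h : N), 0 < τ h ↔ 0 < τ (cj u h) := by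
    intro u h
    rw [sign, sign]
    exact (upcof_conj u h).symm
  have hprop : ∀ u (h : N), τ (cj u h) = lam u * τ h := by
    intro u h
    have key : ∀ (p : ℤ) (q : ℕ), (p : ℝ) < q * τ h ↔ p * lam u < q * τ (cj u h) := by
      intro p q
      have h1 : τ (h ^ (q : ℤ) * gN ^ (-p)) = q * τ h - p := by
        rw [hτadd, hτz, hτz, hτg]; push_cast; ring
      have h2 : τ (cj u (h ^ (q : ℤ) * gN ^ (-p))) = q * τ (cj u h) - p * lam u := by
        rw [hτcadd, hτcz, hτcz]; push_cast; ring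
      have h3 := sgn u (h ^ (q : ℤ) * gN ^ (-p))
      rw [h1, h2] at h3
      constructor
      · intro h; have := h3.1 (by linarith); linarith
      · intro h; have := h3.2 (by linarith); linarith
    have hl := lam_pos u
    rcases lt_trichotomy (τ h) (τ (cj u h) / lam u) with hlt | heq | hgt
    · exfalso
      obtain ⟨t, ht1, ht2⟩ := exists_rat_btwn hlt
      have hq : (0 : ℝ) < (t.den : ℝ) := by exact_mod_cast t.den_pos
      have ht : (t : ℝ) = t.num / t.den := by exact_mod_cast (Rat.num_div_den t).symm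
      rw [ht, lt_div_iff₀ hq] at ht1
      rw [ht, div_lt_div_iff₀ hq hl] at ht2
      have h1 := (key t.num t.den).2 (by linarith)
      linarith
    · rw [heq]; field_simp
    · exfalso
      obtain ⟨t, ht1, ht2⟩ := exists_rat_btwn hgt
      have hq : (0 : ℝ) < (t.den : ℝ) := by exact_mod_cast t.den_pos
      have ht : (t : ℝ) = t.num / t.den := by exact_mod_cast (Rat.num_div_den t).symm
      rw [ht, div_lt_iff₀ hq] at ht2
      rw [ht, div_lt_div_iff₀ hl hq] at ht1
      have h1 := (key t.num t.den).1 (by linarith)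
      linarith
  have cj_cj : ∀ u v (h : N), cj (u * v) h = cj u (cj v h) := by
    intro u v h
    apply Subtype.ext
    simp only [hcj]
    group
  have lam_mul : ∀ u v, lam (u * v) = lam u * lam v := by
    intro u v
    simp only [hlam]
    rw [cj_cj, hprop]
  by_cases hl1 : ∃ u, lam u ≠ 1
  · obtain ⟨u, hu⟩ := hl1
    refine ⟨fun u => Real.log (lam u), fun a b => ?_, u, ?_⟩
    · show Real.log (lam (a * b)) = Real.log (lam a) + Real.log (lam b)
      rw [lam_mul, Real.log_mul (lam_pos a).ne' (lam_pos b).ne']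
    · exact Real.log_ne_zero_of_pos_of_ne_one (lam_pos u) hu
  push Not at hl1
  have hinv : ∀ u (h : N), τ (cj u h) = τ h := by
    intro u h; rw [hprop, hl1, one_mul]
  -- g moves points up
  have gup : ∀ x, ¬ r (g * x) x := by
    intro x h
    have h1 := hr.left g _ _ (hρ1 x)
    have e : g * g ^ ρ x = g ^ (ρ x + 1) := by rw [zpow_add, zpow_one]; exact (Commute.self_zpow g _).eq
    rw [e] at h1
    exact hρ2 x (hr.trans _ _ _ h1 h)
  have iter_le : ∀ (e x : U), r (e * x) x → ∀ k : ℕ, r (e ^ k * x) x := by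
    intro e x h k
    induction k with
    | zero => simpa using hr.refl x
    | succ k ih =>
      have h1 := hr.left (e ^ k) _ _ h
      rw [← mul_assoc, ← pow_succ] at h1
      exact hr.trans _ _ _ h1 ih
  have not_up : ∀ (e x : U), upcof e → ¬ r (e * x) x := by
    intro e x he h
    obtain ⟨k, hk⟩ := he x (g * x)
    exact gup x (hr.trans _ _ _ hk (iter_le e x h k))
  have zero1 : ∀ f : N, τ f = 0 → ∀ x, r ((f : U) * x) (g * x) := by
    intro f hf x
    by_contra hcon
    have h1 := le_of_not hr hcon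
    -- r (g x) (f x): so (f⁻¹ g) x ≤ x
    have h2 := hr.left (f : U)⁻¹ _ _ h1
    rw [← mul_assoc, inv_mul_cancel_left] at h2
    refine not_up ((f : U)⁻¹ * g) x ?_ h2
    have h3 : 0 < τ (f⁻¹ * gN) := by
      have : τ f⁻¹ = - τ f := by
        have := hτz f (-1)
        rw [zpow_neg_one] at this
        rw [this]; push_cast; ring
      rw [hτadd, this, hf, hτg]; norm_num
    exact (sign (f⁻¹ * gN)).1 h3
  have zero2 : ∀ f : N, τ f = 0 → ∀ x, r (g⁻¹ * x) ((f : U) * x) := by
    intro f hf x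
    by_contra hcon
    have h1 := le_of_not hr hcon
    have h2 := hr.left g _ _ h1
    rw [mul_inv_cancel_left, ← mul_assoc] at h2
    refine not_up (g * (f : U)) x ?_ h2
    have h3 : 0 < τ (gN * f) := by rw [hτadd, hf, hτg]; norm_num
    exact (sign (gN * f)).1 h3
  -- comparison of u g^m and g^m u
  have cmp : ∀ (u : U) (m : ℤ), r (u * g ^ m) (g ^ (m + 1) * u) ∧
      r (g ^ (m - 1) * u) (u * g ^ m) := by
    intro u m
    set f : N := cj u (gN ^ m) * gN ^ (-m) with hf
    have hf0 : τ f = 0 := by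
      rw [hf, hτadd, hinv, hτz, hτz, hτg]; push_cast; ring
    have hfe : (f : U) * (g ^ m * u) = u * g ^ m := by
      rw [hf]
      simp only [hcj, Subgroup.coe_mul, Subgroup.coe_zpow, hgNdef]
      group
    have h1 := zero1 f hf0 (g ^ m * u)
    have h2 := zero2 f hf0 (g ^ m * u)
    rw [hfe] at h1 h2
    constructor
    · have e : g * (g ^ m * u) = g ^ (m + 1) * u := by
        rw [← mul_assoc, add_comm, zpow_add, zpow_one]
      rwa [e] at h1
    · have e : g⁻¹ * (g ^ m * u) = g ^ (m - 1) * u := by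
        rw [← mul_assoc]
        congr 1
        rw [sub_eq_add_neg, add_comm, zpow_add, zpow_neg_one]
      rwa [e] at h2
  have hqU : ∀ u v, ρ u + ρ v - 1 ≤ ρ (u * v) ∧ ρ (u * v) ≤ ρ u + ρ v + 3 := by
    intro u v
    constructor
    · apply L1
      have h1 := hr.left u _ _ (hρ1 v)
      have h2 := (cmp u (ρ v)).2
      have h3 := hr.left (g ^ (ρ v - 1)) _ _ (hρ1 u)
      rw [← zpow_add] at h3
      have e : ρ v - 1 + ρ u = ρ u + ρ v - 1 := by ring
      rw [e] at h3
      exact hr.trans _ _ _ h3 (hr.trans _ _ _ h2 h1)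
    · apply L2
      have h1 := hr.left u _ _ (L3 v)
      have h2 := (cmp u (ρ v + 1)).1
      have h3 := hr.left (g ^ (ρ v + 1 + 1)) _ _ (L3 u)
      rw [← zpow_add] at h3
      have e : ρ v + 1 + 1 + (ρ u + 1) = ρ u + ρ v + 3 := by ring
      rw [e] at h3
      exact hr.trans _ _ _ h1 (hr.trans _ _ _ h2 h3)
  obtain ⟨T, hT1, hT2⟩ := exists_homog (G := U) (fun a => (ρ a : ℝ)) 3 (by
    intro a b
    obtain ⟨h1, h2⟩ := hqU a b
    have h1' : (ρ a : ℝ) + ρ b - 1 ≤ ρ (a * b) := by exact_mod_cast h1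
    have h2' : (ρ (a * b) : ℝ) ≤ ρ a + ρ b + 3 := by exact_mod_cast h2
    rw [abs_le]
    constructor <;> linarith)
  have hTq : ∀ a b : U, |T (a * b) - T a - T b| ≤ 12 := by
    intro a b
    obtain ⟨h1, h2⟩ := hqU a b
    have h1' : (ρ a : ℝ) + ρ b - 1 ≤ ρ (a * b) := by exact_mod_cast h1
    have h2' : (ρ (a * b) : ℝ) ≤ ρ a + ρ b + 3 := by exact_mod_cast h2
    have h3 := abs_le.1 (hT1 (a * b))
    have h4 := abs_le.1 (hT1 a)
    have h5 := abs_le.1 (hT1 b)
    rw [abs_le]
    constructor <;> linarith [h3.1, h3.2, h4.1, h4.2, h5.1, h5.2]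
  have hTzero : ∀ c ∈ (⁅N, N⁆ : Subgroup U), T c = 0 := by
    intro c hc
    refine arch_zero (D := 3) fun m => ?_
    have h1 := hT1 (c ^ m)
    rw [hT2, Ltriv _ (pow_mem hc m)] at h1
    simp only [Int.cast_zero, sub_zero] at h1
    rwa [abs_mul, Nat.abs_cast] at h1
  have hTadd : ∀ a b : U, T (a * b) = T a + T b := by
    refine add_all T 12 hTq hT2 (n + 1) ?_
    rw [derivedSeries_succ, ← hNd]
    intro x hx y hy
    rw [hTzero _ (mul_mem hx hy), hTzero x hx, hTzero y hy, add_zero]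
  refine ⟨T, hTadd, g, ?_⟩
  have h1 : T g - 1 = 0 := by
    refine arch_zero (D := 3) fun m => ?_
    have h1 := hT1 (g ^ m)
    have h2 : ρ (g ^ m) = m := by
      have := Lpow m
      simpa using this
    rw [h2, hT2] at h1
    have e : (m : ℝ) * |T g - 1| = |(m : ℝ) * T g - ((m : ℤ) : ℝ)| := by
      rw [← Nat.abs_cast m, ← abs_mul, Nat.abs_cast]
      congr 1
      push_cast
      ring
    rw [e]; exact h1
  intro h
  rw [h] at h1
  norm_num at h1

/-- A finitely generated group with a nontrivial left-invariant total preorder on which some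
derived subgroup acts trivially has a nonzero homomorphism to `ℝ`. -/
theorem main_A (S : Finset U) (hS : Subgroup.closure (S : Set U) = ⊤) (n : ℕ) :
    ∀ r : U → U → Prop, LTP r → Triv r (derivedSeries U n) → (∃ a b, ¬ r a b) →
      ∃ f : U → ℝ, (∀ a b, f (a * b) = f a + f b) ∧ ∃ a, f a ≠ 0 := by
  classical
  induction n with
  | zero =>
    rintro r hr ht ⟨a, b, hab⟩
    exfalso
    apply hab
    have := ht (a * b⁻¹) (by simp) b
    simpa using this
  | succ n ih =>
    rintro r hr ht hnt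
    haveI hNn : (derivedSeries U n).Normal := derivedSeries_normal U n
    have hN : Triv r ⁅derivedSeries U n, derivedSeries U n⁆ := by
      rw [← derivedSeries_succ]; exact ht
    by_cases hco : ∃ a b, ¬ coarse r (derivedSeries U n) a b
    · exact ih _ (coarse_LTP hr _) (coarse_triv hr _) hco
    push Not at hco
    by_cases hb : ∀ g ∈ derivedSeries U n, I r g 1 ≠ Set.univ
    · obtain ⟨r', h1, h2, h3⟩ := case_b hr hN hco hb S hS
      exact ih r' h1 h2 h3
    push Not at hb
    obtain ⟨g, hgN, hg⟩ := hb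
    have hcof : ∀ y, ∃ k l : ℤ, r (g ^ k) y ∧ r y (g ^ l) := by
      intro y
      have : y ∈ I r g 1 := by rw [hg]; trivial
      obtain ⟨k, l, h1, h2⟩ := this
      rw [mul_one] at h1 h2
      exact ⟨k, l, h1, h2⟩
    by_cases hg1 : r g 1
    · by_cases hg2 : r 1 g
      · exfalso
        -- all powers equivalent to 1
        have hp : ∀ k : ℕ, r (g ^ k) 1 ∧ r 1 (g ^ k) := by
          intro k
          induction k with
          | zero => simpa using hr.refl 1
          | succ k ihk =>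
            have a1 := hr.left (g ^ k) _ _ hg1
            have a2 := hr.left (g ^ k) _ _ hg2
            rw [mul_one, ← pow_succ] at a1 a2
            exact ⟨hr.trans _ _ _ a1 ihk.1, hr.trans _ _ _ ihk.2 a2⟩
        have hz : ∀ k : ℤ, r (g ^ k) 1 ∧ r 1 (g ^ k) := by
          intro k
          obtain ⟨m, rfl | rfl⟩ := Int.eq_nat_or_neg k
          · simpa using hp m
          · have a1 := hr.left (g ^ (-(m : ℤ))) _ _ (hp m).1
            have a2 := hr.left (g ^ (-(m : ℤ))) _ _ (hp m).2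
            rw [mul_one, ← zpow_natCast, ← zpow_add, neg_add_cancel, zpow_zero] at a1 a2
            exact ⟨a2, a1⟩
        obtain ⟨a, b, hab⟩ := hnt
        obtain ⟨-, l, -, h1⟩ := hcof a
        obtain ⟨k, -, h2, -⟩ := hcof b
        exact hab (hr.trans _ _ _ (hr.trans _ _ _ h1 (hz l).1) (hr.trans _ _ _ (hz k).2 h2))
      · refine case_a hr hN rfl (g := g⁻¹) (inv_mem hgN) ?_ ?_
        · intro h
          have := hr.left g _ _ h
          rw [mul_inv_cancel, mul_one] at this
          exact hg2 this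
        · intro y
          obtain ⟨k, l, h1, h2⟩ := hcof y
          exact ⟨-k, -l, by simpa using h1, by simpa using h2⟩
    · exact case_a hr hN rfl hgN hg1 hcof

end SolvRO
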