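import Mathlib
import Pool.Agent.Helpers.RO3

open scoped commutatorElement

namespace SolvRO

universe u

/-- `U` has no nonzero additive real valued function. -/
def NoHom {G : Type u} [Group G] (U : Subgroup G) : Prop :=
  ∀ F : G → ℝ, (∀ a ∈ U, ∀ b ∈ U, F (a * b) = F a + F b) → ∀ a ∈ U, F a = 0

/-- the subgroup generated by the conjugates `x h x⁻¹`, `x ∈ X`, `h ∈ H` -/
def conjSpan {G : Type u} [Group G] (H X : Set G) : Subgroup G :=
  Subgroup.closure {y | ∃ x ∈ X, ∃ h ∈ H, y = x * h * x⁻¹}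

section basic
variable {G : Type u} [Group G]

theorem conjSpan_mono {H X Y : Set G} (h : X ⊆ Y) : conjSpan H X ≤ conjSpan H Y := by
  apply Subgroup.closure_mono
  rintro y ⟨x, hx, k, hk, rfl⟩
  exact ⟨x, h hx, k, hk, rfl⟩

theorem mem_conjSpan {H X : Set G} {x h : G} (hx : x ∈ X) (hh : h ∈ H) :
    x * h * x⁻¹ ∈ conjSpan H X :=
  Subgroup.subset_closure ⟨x, hx, h, hh, rfl⟩

variable {U : Subgroup G} {F : G → ℝ} (hF : ∀ a ∈ U, ∀ b ∈ U, F (a * b) = F a + F b)

include hF in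
theorem F_one : F 1 = 0 := by
  have := hF 1 U.one_mem 1 U.one_mem
  rw [mul_one] at this
  linarith

include hF in
theorem F_inv {a : G} (ha : a ∈ U) : F a⁻¹ = - F a := by
  have := hF a ha a⁻¹ (U.inv_mem ha)
  rw [mul_inv_cancel, F_one hF] at this
  linarith

include hF in
theorem F_pow {a : G} (ha : a ∈ U) (k : ℕ) : F (a ^ k) = k * F a := by
  induction k with
  | zero => simp [F_one hF]
  | succ k ih =>
    rw [pow_succ, hF _ (U.pow_mem ha k) _ ha, ih]
    push_cast; ring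

/-- the kernel of `F` in `U` -/
def kerF (U : Subgroup G) (F : G → ℝ) (hF : ∀ a ∈ U, ∀ b ∈ U, F (a * b) = F a + F b) :
    Subgroup G where
  carrier := {w | w ∈ U ∧ F w = 0}
  one_mem' := ⟨U.one_mem, F_one hF⟩
  mul_mem' := fun {a b} ha hb => ⟨U.mul_mem ha.1 hb.1, by rw [hF a ha.1 b hb.1, ha.2, hb.2, add_zero]⟩
  inv_mem' := fun {a} ha => ⟨U.inv_mem ha.1, by rw [F_inv hF ha.1, ha.2, neg_zero]⟩

theorem comm_finite {g : G} (hg : g ∈ commutator G) :
    ∃ F : Set G, F.Finite ∧ g ∈ ⁅Subgroup.closure F, Subgroup.closure F⁆ := by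
  rw [commutator_eq_closure] at hg
  induction hg using Subgroup.closure_induction with
  | mem x hx =>
    obtain ⟨a, b, rfl⟩ := hx
    refine ⟨{a, b}, by simp, Subgroup.commutator_mem_commutator
      (Subgroup.subset_closure (by simp)) (Subgroup.subset_closure (by simp))⟩
  | one => exact ⟨∅, Set.finite_empty, one_mem _⟩
  | mul x y _ _ hx hy =>
    obtain ⟨F1, h1, h1'⟩ := hx
    obtain ⟨F2, h2, h2'⟩ := hy
    refine ⟨F1 ∪ F2, h1.union h2, mul_mem ?_ ?_⟩
    · exact Subgroup.commutator_mono (Subgroup.closure_mono Set.subset_union_left)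
        (Subgroup.closure_mono Set.subset_union_left) h1'
    · exact Subgroup.commutator_mono (Subgroup.closure_mono Set.subset_union_right)
        (Subgroup.closure_mono Set.subset_union_right) h2'
  | inv x _ hx =>
    obtain ⟨F1, h1, h1'⟩ := hx
    exact ⟨F1, h1, inv_mem h1'⟩

theorem normalClosure_top [Group.IsSolvable G] {H : Set G}
    (h : Subgroup.closure H ⊔ commutator G = ⊤) : Subgroup.normalClosure H = ⊤ := by
  by_contra hne
  have : Nontrivial (G ⧸ Subgroup.normalClosure H) := by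
    rw [← not_subsingleton_iff_nontrivial]
    intro hs
    exact hne (QuotientGroup.subsingleton_iff.1 hs)
  have h1 := Group.IsSolvable.commutator_lt_top_of_nontrivial (G ⧸ Subgroup.normalClosure H)
  apply h1.ne
  rw [eq_top_iff]
  have h2 : Subgroup.map (QuotientGroup.mk' (Subgroup.normalClosure H)) ⊤ = ⊤ :=
    Subgroup.map_top_of_surjective _ (QuotientGroup.mk'_surjective _)
  rw [← h2, ← h, Subgroup.map_sup]
  refine sup_le ?_ ?_
  · rw [Subgroup.map_le_iff_le_comap, Subgroup.closure_le]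
    intro x hx
    have : (QuotientGroup.mk' (Subgroup.normalClosure H)) x = 1 := by
      rw [QuotientGroup.mk'_apply, QuotientGroup.eq_one_iff]
      exact Subgroup.subset_normalClosure hx
    rw [SetLike.mem_coe, Subgroup.mem_comap, this]
    exact one_mem _
  · rw [commutator_def, Subgroup.map_commutator, commutator_def]
    exact Subgroup.commutator_mono le_top le_top

theorem mem_conjSpan_finite {H : Set G} {g : G} (hg : g ∈ Subgroup.normalClosure H) :
    ∃ Y : Set G, Y.Finite ∧ g ∈ conjSpan H Y := by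
  unfold Subgroup.normalClosure at hg
  induction hg using Subgroup.closure_induction with
  | mem x hx =>
    rw [Group.mem_conjugatesOfSet_iff] at hx
    obtain ⟨a, ha, hc⟩ := hx
    obtain ⟨c, rfl⟩ := isConj_iff.1 hc
    exact ⟨{c}, by simp, mem_conjSpan (by simp) ha⟩
  | one => exact ⟨∅, Set.finite_empty, one_mem _⟩
  | mul x y _ _ hx hy =>
    obtain ⟨F1, h1, h1'⟩ := hx
    obtain ⟨F2, h2, h2'⟩ := hy
    exact ⟨F1 ∪ F2, h1.union h2, mul_mem (conjSpan_mono Set.subset_union_left h1')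
      (conjSpan_mono Set.subset_union_right h2')⟩
  | inv x _ hx =>
    obtain ⟨F1, h1, h1'⟩ := hx
    exact ⟨F1, h1, inv_mem h1'⟩

end basic

section step
variable {G : Type u} [Group G] {A U U2 : Subgroup G} [hAn : A.Normal]
  (hA : ∀ a ∈ A, ∀ b ∈ A, a * b = b * a) (h2 : U2 ≤ U) (hU : U ≤ U2 ⊔ A)

include hA h2 hU in
theorem conj_mem' {n : G} (hn : n ∈ A) (hc : ∀ u ∈ U2, n * u * n⁻¹ ∈ U) :
    ∀ u ∈ U, n * u * n⁻¹ ∈ U ∧ n⁻¹ * u * n ∈ U := by
  intro u hu
  obtain ⟨u0, hu0, a, ha, rfl⟩ := Subgroup.mem_sup_of_normal_right.1 (hU hu)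
  have haU : a ∈ U := by
    have := U.mul_mem (U.inv_mem (h2 hu0)) hu
    rwa [inv_mul_cancel_left] at this
  constructor
  · have e : n * (u0 * a) * n⁻¹ = (n * u0 * n⁻¹) * a := by
      have := hA n hn a ha
      have h3 : n * (u0 * a) * n⁻¹ = (n * u0 * n⁻¹) * (n * a * n⁻¹) := by group
      rw [h3, this, mul_inv_cancel_right]
    rw [e]
    exact U.mul_mem (hc u0 hu0) haU
  · have hb : u0⁻¹ * (n * u0 * n⁻¹) ∈ A := by
      have e : u0⁻¹ * (n * u0 * n⁻¹) = (u0⁻¹ * n * u0⁻¹⁻¹) * n⁻¹ := by group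
      rw [e]
      exact A.mul_mem (hAn.conj_mem n hn u0⁻¹) (A.inv_mem hn)
    have hbU : u0⁻¹ * (n * u0 * n⁻¹) ∈ U := U.mul_mem (U.inv_mem (h2 hu0)) (hc u0 hu0)
    set b := u0⁻¹ * (n * u0 * n⁻¹) with hbdef
    have e1 : n * u0 * n⁻¹ = u0 * b := by rw [hbdef]; group
    have e2 : n⁻¹ * u0 * n = u0 * b⁻¹ := by
      have h3 : u0 = n⁻¹ * (u0 * b) * n := by rw [← e1]; group
      have h4 : n⁻¹ * (u0 * b) * n = (n⁻¹ * u0 * n) * (n⁻¹ * (b * n)) := by group
      rw [h4, hA b hb n hn, inv_mul_cancel_left] at h3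
      nth_rw 2 [h3]
      rw [mul_inv_cancel_right]
    have e3 : n⁻¹ * (u0 * a) * n = (u0 * b⁻¹) * a := by
      have h4 : n⁻¹ * (u0 * a) * n = (n⁻¹ * u0 * n) * (n⁻¹ * (a * n)) := by group
      rw [h4, hA a ha n hn, inv_mul_cancel_left, e2]
    rw [e3]
    exact U.mul_mem (U.mul_mem (h2 hu0) (U.inv_mem hbU)) haU

include h2 hU in
/-- an additive function on `U` killing `A ∩ U` vanishes if the image has no homs. -/
theorem kill (hNo : NoHom (U2.map (QuotientGroup.mk' A))) (φ : G → ℝ)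
    (hφ : ∀ a ∈ U, ∀ b ∈ U, φ (a * b) = φ a + φ b) (hk : ∀ a ∈ U, a ∈ A → φ a = 0) :
    ∀ u ∈ U, φ u = 0 := by
  have heq : ∀ u ∈ U, ∀ v ∈ U, u⁻¹ * v ∈ A → φ v = φ u := by
    intro u hu v hv h
    have h1 := hφ u hu (u⁻¹ * v) (U.mul_mem (U.inv_mem hu) hv)
    rw [mul_inv_cancel_left, hk _ (U.mul_mem (U.inv_mem hu) hv) h, add_zero] at h1
    exact h1
  have hex : ∀ y : G ⧸ A, y ∈ U2.map (QuotientGroup.mk' A) → ∃ g, g ∈ U2 ∧ (QuotientGroup.mk' A) g = y := by
    intro y hy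
    obtain ⟨g, hg, rfl⟩ := hy
    exact ⟨g, hg, rfl⟩
  choose! l hl1 hl2 using hex
  have hψ := hNo (fun y => φ (l y)) (by
    intro a ha b hb
    show φ (l (a * b)) = φ (l a) + φ (l b)
    have hab := Subgroup.mul_mem _ ha hb
    rw [← hφ _ (h2 (hl1 a ha)) _ (h2 (hl1 b hb))]
    refine heq _ (U.mul_mem (h2 (hl1 a ha)) (h2 (hl1 b hb))) _ (h2 (hl1 _ hab)) ?_
    rw [← QuotientGroup.eq_one_iff, ← QuotientGroup.mk'_apply, map_mul, map_inv, map_mul, hl2 a ha,
      hl2 b hb, hl2 _ hab, inv_mul_cancel])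
  intro u hu
  obtain ⟨u0, hu0, a, ha, rfl⟩ := Subgroup.mem_sup_of_normal_right.1 (hU hu)
  have hm : (QuotientGroup.mk' A) u0 ∈ U2.map (QuotientGroup.mk' A) := ⟨u0, hu0, rfl⟩
  have h1 := hψ _ hm
  have h3 : φ (u0 * a) = φ (l ((QuotientGroup.mk' A) u0)) := by
    refine heq _ (h2 (hl1 _ hm)) _ hu ?_
    rw [← QuotientGroup.eq_one_iff, ← QuotientGroup.mk'_apply, map_mul, map_inv, map_mul,
      hl2 _ hm]
    have : (QuotientGroup.mk' A) a = 1 := by
      rw [QuotientGroup.mk'_apply, QuotientGroup.eq_one_iff]; exact ha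
    rw [this, mul_one, inv_mul_cancel]
  rw [h3]; exact h1

include hA h2 hU in
theorem conj_inv' (hNo : NoHom (U2.map (QuotientGroup.mk' A))) {n : G} (hn : n ∈ A)
    (hc : ∀ u ∈ U, n * u * n⁻¹ ∈ U) (F : G → ℝ)
    (hF : ∀ a ∈ U, ∀ b ∈ U, F (a * b) = F a + F b) : ∀ u ∈ U, F (n * u * n⁻¹) = F u := by
  intro u hu
  have := kill h2 hU hNo (fun u => F (n * u * n⁻¹) - F u) (by
    intro a ha b hb
    show F (n * (a * b) * n⁻¹) - F (a * b) = (F (n * a * n⁻¹) - F a) + (F (n * b * n⁻¹) - F b)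
    have e : n * (a * b) * n⁻¹ = (n * a * n⁻¹) * (n * b * n⁻¹) := by group
    rw [e, hF _ (hc a ha) _ (hc b hb), hF a ha b hb]; ring) (by
    intro a ha haA
    show F (n * a * n⁻¹) - F a = 0
    rw [hA n hn a haA, mul_inv_cancel_right, sub_self]) u hu
  linarith

/-- The main step: enlarge `X` to `X'`. -/
theorem main_step (hNo : NoHom (U2.map (QuotientGroup.mk' A))) {H0 X S1 S Y : Set G}
    (hX : X.Finite) (h1X : (1 : G) ∈ X) (hS1 : S1.Finite)
    (hU2 : U2 = conjSpan H0 X) (nn : G → G → G) (hnn : ∀ s ∈ S1, ∀ x ∈ X, nn s x ∈ A)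
    (huu : ∀ s ∈ S1, ∀ x ∈ X, x * s * x⁻¹ * (nn s x)⁻¹ ∈ U2)
    (kk : G → ℕ) (hkk : ∀ h ∈ H0, 0 < kk h) (FF : G → Set G)
    (hFF : ∀ h ∈ H0, h ^ kk h ∈ ⁅Subgroup.closure (FF h), Subgroup.closure (FF h)⁆)
    (hFS : ∀ h ∈ H0, FF h ⊆ S1) (hYS : Y ⊆ S1) (hSY : ∀ s ∈ S, s ∈ conjSpan H0 Y)
    (hA : ∀ a ∈ A, ∀ b ∈ A, a * b = b * a) :
    ∃ X' : Set G, X'.Finite ∧ 1 ∈ X' ∧ NoHom (conjSpan H0 X') ∧
      ∀ s ∈ S, ∀ x ∈ X', x * s * x⁻¹ ∈ conjSpan H0 X' := by
  classical
  set Nset : Set G := {1} ∪ {n | ∃ s ∈ S1, ∃ x ∈ X, n = nn s x} with hNset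
  have hNfin : Nset.Finite := by
    refine (Set.finite_singleton 1).union ?_
    have : {n | ∃ s ∈ S1, ∃ x ∈ X, n = nn s x} = Set.image2 nn S1 X := by
      ext n; constructor
      · rintro ⟨s, hs, x, hx, rfl⟩; exact ⟨s, hs, x, hx, rfl⟩
      · rintro ⟨s, hs, x, hx, rfl⟩; exact ⟨s, hs, x, hx, rfl⟩
    rw [this]; exact hS1.image2 nn hX
  have hNA : ∀ n ∈ Nset, n ∈ A := by
    rintro n (hn | ⟨s, hs, x, hx, rfl⟩)
    · rw [Set.mem_singleton_iff.1 hn]; exact A.one_mem
    · exact hnn s hs x hx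
  have h1N : (1 : G) ∈ Nset := Or.inl rfl
  set X' : Set G := Set.image2 (fun n x => n * x) Nset X with hX'
  have hXX' : X ⊆ X' := fun x hx => ⟨1, h1N, x, hx, one_mul x⟩
  set U : Subgroup G := conjSpan H0 X' with hUdef
  have h2 : U2 ≤ U := by rw [hU2]; exact conjSpan_mono hXX'
  have hU : U ≤ U2 ⊔ A := by
    rw [hUdef]
    unfold conjSpan
    rw [Subgroup.closure_le]
    rintro y ⟨_, ⟨n, hn, x, hx, rfl⟩, h, hh, rfl⟩
    show n * x * h * (n * x)⁻¹ ∈ U2 ⊔ A
    have e : n * x * h * (n * x)⁻¹ = n * (x * h * x⁻¹) * n⁻¹ := by group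
    rw [e]
    have hnA : n ∈ U2 ⊔ A := Subgroup.mem_sup_right (hNA n hn)
    refine mul_mem (mul_mem hnA (Subgroup.mem_sup_left ?_)) (inv_mem hnA)
    rw [hU2]; exact mem_conjSpan hx hh
  have hconj2 : ∀ n ∈ Nset, ∀ u ∈ U2, n * u * n⁻¹ ∈ U := by
    intro n hn u hu
    rw [hU2] at hu
    unfold conjSpan at hu
    induction hu using Subgroup.closure_induction with
    | mem y hy =>
      obtain ⟨x, hx, h, hh, rfl⟩ := hy
      have e : n * (x * h * x⁻¹) * n⁻¹ = (n * x) * h * (n * x)⁻¹ := by group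
      rw [e]
      exact mem_conjSpan ⟨n, hn, x, hx, rfl⟩ hh
    | one => rw [mul_one, mul_inv_cancel]; exact U.one_mem
    | mul a b _ _ ha hb =>
      have e : n * (a * b) * n⁻¹ = (n * a * n⁻¹) * (n * b * n⁻¹) := by group
      rw [e]; exact U.mul_mem ha hb
    | inv a _ ha =>
      have e : n * a⁻¹ * n⁻¹ = (n * a * n⁻¹)⁻¹ := by group
      rw [e]; exact U.inv_mem ha
  have hNU : ∀ n ∈ Nset, ∀ u ∈ U, n * u * n⁻¹ ∈ U ∧ n⁻¹ * u * n ∈ U := fun n hn =>
    conj_mem' hA h2 hU (hNA n hn) (hconj2 n hn)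
  set B : Subgroup G := Subgroup.closure Nset with hB
  have hBA : B ≤ A := (Subgroup.closure_le _).2 hNA
  have hBU : ∀ b ∈ B, ∀ u ∈ U, b * u * b⁻¹ ∈ U ∧ b⁻¹ * u * b ∈ U := by
    intro b hb
    induction hb using Subgroup.closure_induction with
    | mem n hn => exact hNU n hn
    | one => intro u hu; simpa using hu
    | mul a b _ _ ha hb =>
      intro u hu
      constructor
      · have e : a * b * u * (a * b)⁻¹ = a * (b * u * b⁻¹) * a⁻¹ := by group
        rw [e]; exact (ha _ (hb u hu).1).1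
      · have e : (a * b)⁻¹ * u * (a * b) = b⁻¹ * (a⁻¹ * u * a) * b := by group
        rw [e]; exact (hb _ (ha u hu).2).2
    | inv a _ ha =>
      intro u hu
      rw [inv_inv]
      exact ⟨(ha u hu).2, (ha u hu).1⟩
  -- the overgroup `M = U B`
  let M : Subgroup G :=
    { carrier := {g | ∃ u ∈ U, ∃ b ∈ B, g = u * b}
      one_mem' := ⟨1, U.one_mem, 1, B.one_mem, (mul_one 1).symm⟩
      mul_mem' := by
        rintro _ _ ⟨u, hu, b, hb, rfl⟩ ⟨v, hv, c, hc, rfl⟩
        exact ⟨u * (b * v * b⁻¹), U.mul_mem hu (hBU b hb v hv).1, b * c, B.mul_mem hb hc, by group⟩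
      inv_mem' := by
        rintro _ ⟨u, hu, b, hb, rfl⟩
        exact ⟨b⁻¹ * u⁻¹ * b, (hBU b hb _ (U.inv_mem hu)).2, b⁻¹, B.inv_mem hb, by group⟩ }
  have hM : ∀ s ∈ S1, ∀ x ∈ X, x * s * x⁻¹ ∈ M := by
    intro s hs x hx
    exact ⟨x * s * x⁻¹ * (nn s x)⁻¹, h2 (huu s hs x hx), nn s x,
      Subgroup.subset_closure (Or.inr ⟨s, hs, x, hx, rfl⟩), by group⟩
  have hMU : ∀ m ∈ M, ∀ u ∈ U, m * u * m⁻¹ ∈ U := by
    rintro _ ⟨v, hv, b, hb, rfl⟩ u hu
    have e : v * b * u * (v * b)⁻¹ = v * (b * u * b⁻¹) * v⁻¹ := by group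
    rw [e]
    exact U.mul_mem (U.mul_mem hv (hBU b hb u hu).1) (U.inv_mem hv)
  refine ⟨X', hNfin.image2 _ hX, hXX' h1X, ?_, ?_⟩
  · -- no homs
    intro F hF
    have hFN : ∀ n ∈ Nset, ∀ u ∈ U, F (n * u * n⁻¹) = F u := fun n hn =>
      conj_inv' hA h2 hU hNo (hNA n hn) (fun u hu => (hNU n hn u hu).1) F hF
    have hFB : ∀ b ∈ B, ∀ u ∈ U, F (b * u * b⁻¹) = F u := by
      intro b hb
      induction hb using Subgroup.closure_induction with
      | mem n hn => exact hFN n hn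
      | one => intro u hu; simp
      | mul a b ha' hb' ha hb =>
        intro u hu
        have e : a * b * u * (a * b)⁻¹ = a * (b * u * b⁻¹) * a⁻¹ := by group
        rw [e, ha _ (hBU b hb' u hu).1, hb u hu]
      | inv a ha' ha =>
        intro u hu
        have h3 := ha _ (hBU a ha' u hu).2
        have e : a * (a⁻¹ * u * a) * a⁻¹ = u := by group
        rw [e] at h3
        rw [inv_inv, h3]
    have hcomm : ⁅M, M⁆ ≤ kerF U F hF := by
      rw [Subgroup.commutator_le]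
      rintro _ ⟨u, hu, n, hn, rfl⟩ _ ⟨v, hv, m, hm, rfl⟩
      have e : ⁅u * n, v * m⁆ = u * (n * v * n⁻¹) * (m * u⁻¹ * m⁻¹) * v⁻¹ := by
        have hnm := hA n (hBA hn) m (hBA hm)
        rw [commutatorElement_def]
        have e1 : u * n * (v * m) * (u * n)⁻¹ * (v * m)⁻¹ =
            u * (n * v * n⁻¹) * ((n * m) * n⁻¹ * u⁻¹ * m⁻¹) * v⁻¹ := by group
        rw [e1, hnm]; group
      rw [e]
      have a1 := (hBU n hn v hv).1
      have a2 := (hBU m hm _ (U.inv_mem hu)).1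
      have a3 := U.mul_mem hu a1
      have a4 := U.mul_mem a3 a2
      refine ⟨U.mul_mem a4 (U.inv_mem hv), ?_⟩
      rw [hF _ a4 _ (U.inv_mem hv), hF _ a3 _ a2, hF _ hu _ a1, hFB n hn v hv,
        hFB m hm _ (U.inv_mem hu), F_inv hF hu, F_inv hF hv]
      ring
    have hgen0 : ∀ h ∈ H0, ∀ x ∈ X, F (x * h * x⁻¹) = 0 := by
      intro h hh x hx
      have hxU : x * h * x⁻¹ ∈ U := mem_conjSpan (hXX' hx) hh
      have hcl : Subgroup.closure (FF h) ≤ M.comap (MulAut.conj x).toMonoidHom := by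
        rw [Subgroup.closure_le]
        intro s hs
        have := hM s (hFS h hh hs) x hx
        rw [SetLike.mem_coe, Subgroup.mem_comap]
        simpa using this
      have h3 : (MulAut.conj x).toMonoidHom (h ^ kk h) ∈ ⁅M, M⁆ := by
        have h4 : h ^ kk h ∈ ⁅M.comap (MulAut.conj x).toMonoidHom, M.comap (MulAut.conj x).toMonoidHom⁆ :=
          Subgroup.commutator_mono hcl hcl (hFF h hh)
        have h5 := Subgroup.mem_map_of_mem (MulAut.conj x).toMonoidHom h4
        rw [Subgroup.map_commutator] at h5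
        exact Subgroup.commutator_mono (Subgroup.map_comap_le _ _) (Subgroup.map_comap_le _ _) h5
      have h6 : (MulAut.conj x).toMonoidHom (h ^ kk h) = (x * h * x⁻¹) ^ kk h := by
        rw [map_pow]; simp
      rw [h6] at h3
      have h7 := (hcomm h3).2
      rw [F_pow hF hxU] at h7
      have h8 : (kk h : ℝ) ≠ 0 := by
        have := hkk h hh
        positivity
      exact (mul_eq_zero.1 h7).resolve_left h8
    have hle : U ≤ kerF U F hF := by
      conv_lhs => rw [hUdef]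
      unfold conjSpan
      rw [Subgroup.closure_le]
      rintro y ⟨_, ⟨n, hn, x, hx, rfl⟩, h, hh, rfl⟩
      show n * x * h * (n * x)⁻¹ ∈ kerF U F hF
      have hxU : x * h * x⁻¹ ∈ U := mem_conjSpan (hXX' hx) hh
      have e : n * x * h * (n * x)⁻¹ = n * (x * h * x⁻¹) * n⁻¹ := by group
      rw [e]
      exact ⟨(hNU n hn _ hxU).1, by rw [hFN n hn _ hxU, hgen0 h hh x hx]⟩
    intro a ha
    exact (hle ha).2
  · rintro s hs _ ⟨n, hn, x, hx, rfl⟩
    have h3 : x * s * x⁻¹ ∈ U := by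
      have hle : conjSpan H0 Y ≤ U.comap (MulAut.conj x).toMonoidHom := by
        unfold conjSpan
        rw [Subgroup.closure_le]
        rintro z ⟨y, hy, h, hh, rfl⟩
        rw [SetLike.mem_coe, Subgroup.mem_comap]
        have e : (MulAut.conj x).toMonoidHom (y * h * y⁻¹) =
            (x * y * x⁻¹) * (x * h * x⁻¹) * (x * y * x⁻¹)⁻¹ := by
          simp only [MulEquiv.toMonoidHom_eq_coe, MonoidHom.coe_coe, MulAut.conj_apply]
          group
        rw [e]
        exact hMU _ (hM y (hYS hy) x hx) _ (mem_conjSpan (hXX' hx) hh)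
      have := hle (hSY s hs)
      rw [Subgroup.mem_comap] at this
      simpa using this
    show n * x * s * (n * x)⁻¹ ∈ U
    have e : n * x * s * (n * x)⁻¹ = n * (x * s * x⁻¹) * n⁻¹ := by group
    rw [e]
    exact (hNU n hn _ h3).1

end step

theorem B_ind (n : ℕ) : ∀ (G : Type u) [Group G], derivedSeries G n = ⊥ →
    (∀ g : G, ∃ k : ℕ, 0 < k ∧ g ^ k ∈ commutator G) → ∀ H0 : Set G, H0.Finite →
    Subgroup.closure H0 ⊔ commutator G = ⊤ → ∀ S : Set G, S.Finite →
    ∃ X : Set G, X.Finite ∧ 1 ∈ X ∧ NoHom (conjSpan H0 X) ∧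
      ∀ s ∈ S, ∀ x ∈ X, x * s * x⁻¹ ∈ conjSpan H0 X := by
  classical
  induction n with
  | zero =>
    intro G _ hG htors H0 hH0 hgen S hS
    have htriv : ∀ g : G, g = 1 := by
      intro g
      have : g ∈ (⊤ : Subgroup G) := trivial
      rw [← derivedSeries_zero G, hG] at this
      exact Subgroup.mem_bot.1 this
    refine ⟨{1}, Set.finite_singleton 1, rfl, ?_, ?_⟩
    · intro F hF a ha
      rw [htriv a]; exact F_one hF
    · intro s hs x hx
      rw [htriv (x * s * x⁻¹)]; exact one_mem _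
  | succ n ih =>
    intro G _ hG htors H0 hH0 hgen S hS
    have hAn : (derivedSeries G n).Normal := derivedSeries_normal G n
    have hG' : derivedSeries (G ⧸ derivedSeries G n) n = ⊥ := by
      rw [← map_derivedSeries_eq (QuotientGroup.mk'_surjective (derivedSeries G n)) n,
        QuotientGroup.map_mk'_self]
    set A := derivedSeries G n with hAdef
    have hA : ∀ a ∈ A, ∀ b ∈ A, a * b = b * a := by
      intro a ha b hb
      have : ⁅a, b⁆ ∈ (⊥ : Subgroup G) := by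
        rw [← hG, derivedSeries_succ]
        exact Subgroup.commutator_mem_commutator ha hb
      rw [Subgroup.mem_bot, commutatorElement_eq_one_iff_mul_comm] at this
      exact this
    have hsolv : Group.IsSolvable G := ⟨⟨n + 1, hG⟩⟩
    have hmapc : (commutator G).map (QuotientGroup.mk' A) ≤ commutator (G ⧸ A) := by
      rw [commutator_def, Subgroup.map_commutator, commutator_def]
      exact Subgroup.commutator_mono le_top le_top
    choose kk hkk hkk2 using htors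
    choose FF hFFfin hFFmem using fun h => comm_finite (hkk2 h)
    have hY : ∀ s : G, ∃ Y : Set G, Y.Finite ∧ s ∈ conjSpan H0 Y := fun s =>
      mem_conjSpan_finite (by rw [normalClosure_top hgen]; trivial)
    choose YY hYfin hYmem using hY
    set Y : Set G := ⋃ s ∈ S, YY s with hYdef
    have hYf : Y.Finite := hS.biUnion fun s _ => hYfin s
    set S1 : Set G := S ∪ ((⋃ h ∈ H0, FF h) ∪ Y) with hS1def
    have hS1 : S1.Finite := hS.union ((hH0.biUnion fun h _ => hFFfin h).union hYf)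
    have htors' : ∀ g : G ⧸ A, ∃ k : ℕ, 0 < k ∧ g ^ k ∈ commutator (G ⧸ A) := by
      intro y
      obtain ⟨g, rfl⟩ := QuotientGroup.mk'_surjective A y
      refine ⟨kk g, hkk g, ?_⟩
      rw [← map_pow]
      exact hmapc (Subgroup.mem_map_of_mem _ (hkk2 g))
    have hgen' : Subgroup.closure (QuotientGroup.mk' A '' H0) ⊔ commutator (G ⧸ A) = ⊤ := by
      rw [eq_top_iff, ← Subgroup.map_top_of_surjective _ (QuotientGroup.mk'_surjective A), ← hgen,
        Subgroup.map_sup, MonoidHom.map_closure]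
      exact sup_le_sup_left hmapc _
    obtain ⟨Xb, hXbfin, h1Xb, hNob, hSb⟩ := ih (G ⧸ A) hG' htors' (QuotientGroup.mk' A '' H0)
      (hH0.image _) hgen' (QuotientGroup.mk' A '' S1) (hS1.image _)
    have hσ : ∀ y : G ⧸ A, ∃ g : G, QuotientGroup.mk' A g = y ∧ (y = 1 → g = 1) := by
      intro y
      by_cases hy : y = 1
      · exact ⟨1, by rw [map_one, hy], fun _ => rfl⟩
      · obtain ⟨g, hg⟩ := QuotientGroup.mk'_surjective A y
        exact ⟨g, hg, fun h => absurd h hy⟩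
    choose σ hσ1 hσ2 using hσ
    set X : Set G := σ '' Xb with hXdef
    have hXfin : X.Finite := hXbfin.image _
    have h1X : (1 : G) ∈ X := ⟨1, h1Xb, hσ2 1 rfl⟩
    have hmapU : (conjSpan H0 X).map (QuotientGroup.mk' A) =
        conjSpan (QuotientGroup.mk' A '' H0) Xb := by
      unfold conjSpan
      rw [MonoidHom.map_closure]
      congr 1
      ext z
      constructor
      · rintro ⟨_, ⟨x, ⟨y, hy, rfl⟩, h, hh, rfl⟩, rfl⟩
        exact ⟨y, hy, _, ⟨h, hh, rfl⟩, by rw [map_mul, map_mul, map_inv, hσ1]⟩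
      · rintro ⟨y, hy, _, ⟨h, hh, rfl⟩, rfl⟩
        exact ⟨σ y * h * (σ y)⁻¹, ⟨σ y, ⟨y, hy, rfl⟩, h, hh, rfl⟩,
          by rw [map_mul, map_mul, map_inv, hσ1]⟩
    have hnn : ∀ s x : G, ∃ m : G, s ∈ S1 → x ∈ X → m ∈ A ∧ x * s * x⁻¹ * m⁻¹ ∈ conjSpan H0 X := by
      intro s x
      by_cases hs : s ∈ S1
      · by_cases hx : x ∈ X
        · obtain ⟨y, hy, rfl⟩ := hx
          have h1 := hSb _ ⟨s, hs, rfl⟩ y hy
          rw [← hmapU] at h1
          obtain ⟨u, hu, hu2⟩ := h1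
          refine ⟨u⁻¹ * (σ y * s * (σ y)⁻¹), fun _ _ => ⟨?_, ?_⟩⟩
          · rw [← QuotientGroup.eq_one_iff, ← QuotientGroup.mk'_apply, map_mul, map_inv, hu2,
              map_mul, map_mul, map_inv, hσ1, inv_mul_cancel]
          · have e : σ y * s * (σ y)⁻¹ * (u⁻¹ * (σ y * s * (σ y)⁻¹))⁻¹ = u := by group
            rw [e]; exact hu
        · exact ⟨1, fun _ h => absurd h hx⟩
      · exact ⟨1, fun h => absurd h hs⟩
    choose nn hnn using hnn
    exact main_step (A := A) (U2 := conjSpan H0 X) (by rw [hmapU]; exact hNob) hXfin h1X hS1 rfl nn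
      (fun s hs x hx => (hnn s x hs hx).1) (fun s hs x hx => (hnn s x hs hx).2)
      kk (fun h _ => hkk h) FF (fun h _ => hFFmem h)
      (fun h hh => fun z hz => Or.inr (Or.inl (Set.mem_biUnion hh hz)))
      (fun z hz => Or.inr (Or.inr hz) : Y ⊆ S1)
      (fun s hs => conjSpan_mono (Set.subset_biUnion_of_mem hs) (hYmem s)) hA

/-- Nontrivial solvable right-orderable groups have infinite abelianization. -/
theorem main_RO (G : Type u) [Group G] [Nontrivial G] (hs : Group.IsSolvable G)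
    (lt : G → G → Prop) (hlt : IsStrictTotalOrder G lt)
    (hinv : ∀ a b c, lt a b → lt (a * c) (b * c)) : Infinite (Abelianization G) := by
  classical
  by_contra hfin
  rw [not_infinite_iff_finite] at hfin
  obtain ⟨n, hn⟩ := hs.solvable
  have htors : ∀ g : G, ∃ k : ℕ, 0 < k ∧ g ^ k ∈ commutator G := by
    intro g
    refine ⟨Nat.card (Abelianization G), Nat.card_pos, ?_⟩
    rw [← Abelianization.ker_of, MonoidHom.mem_ker, map_pow, pow_card_eq_one']
  have hsurj : ∀ y : Abelianization G, ∃ g : G, Abelianization.of g = y :=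
    QuotientGroup.mk_surjective
  choose σ hσ using hsurj
  have hgen : Subgroup.closure (Set.range σ) ⊔ commutator G = ⊤ := by
    rw [eq_top_iff]
    intro g _
    have h1 : (σ (Abelianization.of g))⁻¹ * g ∈ commutator G := by
      rw [← Abelianization.ker_of, MonoidHom.mem_ker, map_mul, map_inv, hσ, inv_mul_cancel]
    have h2 := Subgroup.mul_mem_sup (Subgroup.subset_closure (Set.mem_range_self
      (f := σ) (Abelianization.of g))) h1
    rwa [mul_inv_cancel_left] at h2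
  obtain ⟨g, hg⟩ := exists_ne (1 : G)
  obtain ⟨X, hX, h1X, hNo, hgX⟩ := B_ind n G hn htors (Set.range σ) (Set.finite_range σ) hgen {g}
    (Set.finite_singleton g)
  set U := conjSpan (Set.range σ) X with hU
  have hgU : g ∈ U := by
    have := hgX g rfl 1 h1X
    simpa using this
  have hfg : U.FG := by
    rw [Subgroup.fg_iff]
    refine ⟨_, rfl, ?_⟩
    have : {y | ∃ x ∈ X, ∃ h ∈ Set.range σ, y = x * h * x⁻¹} =
        Set.image2 (fun x h => x * h * x⁻¹) X (Set.range σ) := by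
      ext y; constructor
      · rintro ⟨x, hx, h, hh, rfl⟩; exact ⟨x, hx, h, hh, rfl⟩
      · rintro ⟨x, hx, h, hh, rfl⟩; exact ⟨x, hx, h, hh, rfl⟩
    rw [this]
    exact hX.image2 _ (Set.finite_range σ)
  obtain ⟨_, S', _, hS'⟩ := Group.fg_iff'.1 ((Group.fg_iff_subgroup_fg U).2 hfg)
  have hsU : Group.IsSolvable U := inferInstance
  obtain ⟨m, hm⟩ := hsU.solvable
  let r : U → U → Prop := fun a b => a = b ∨ lt ((a : G)⁻¹) ((b : G)⁻¹)
  have hr : LTP r :=
    { trans := by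
        rintro a b c (rfl | h1) (rfl | h2)
        · exact Or.inl rfl
        · exact Or.inr h2
        · exact Or.inr h1
        · exact Or.inr (hlt.trans _ _ _ h1 h2)
      total := by
        intro a b
        by_cases h1 : lt ((a : G)⁻¹) ((b : G)⁻¹)
        · exact Or.inl (Or.inr h1)
        by_cases h2 : lt ((b : G)⁻¹) ((a : G)⁻¹)
        · exact Or.inr (Or.inr h2)
        exact Or.inl (Or.inl (Subtype.ext (inv_injective (hlt.trichotomous _ _ h1 h2))))
      left := by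
        rintro c a b (rfl | h)
        · exact Or.inl rfl
        · refine Or.inr ?_
          rw [Subgroup.coe_mul, Subgroup.coe_mul, mul_inv_rev, mul_inv_rev]
          exact hinv _ _ _ h }
  have ht : Triv r (derivedSeries U m) := by
    intro a ha x
    rw [hm, Subgroup.mem_bot] at ha
    rw [ha, one_mul]
    exact hr.refl x
  have hnt : ∃ a b, ¬ r a b := by
    by_contra hcon
    push Not at hcon
    have h1 := hcon 1 ⟨g, hgU⟩
    have h2 := hcon ⟨g, hgU⟩ 1
    have hne : (1 : U) ≠ ⟨g, hgU⟩ := by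
      intro h
      exact hg (congrArg Subtype.val h).symm
    have h3 := h1.resolve_left hne
    have h4 := h2.resolve_left hne.symm
    exact hlt.irrefl _ (hlt.trans _ _ _ h3 h4)
  obtain ⟨f, hf, a, ha⟩ := main_A S' hS' m r hr ht hnt
  apply ha
  have := hNo (fun x => if h : x ∈ U then f ⟨x, h⟩ else 0) (by
    intro a ha b hb
    show (if h : a * b ∈ U then f ⟨a * b, h⟩ else 0) =
      (if h : a ∈ U then f ⟨a, h⟩ else 0) + (if h : b ∈ U then f ⟨b, h⟩ else 0)
    rw [dif_pos ha, dif_pos hb, dif_pos (U.mul_mem ha hb), ← hf]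
    rfl) a a.2
  simpa using this

end SolvRO
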