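import Mathlib

set_option autoImplicit false

open MeasureTheory
open scoped ENNReal

namespace Pool.Agent.FourFun

open Classical in
/-- restriction to the ordered chamber -/
noncomputable def ch {n : ℕ} (g : (Fin n → ℝ) → ℝ≥0∞) (x : Fin n → ℝ) : ℝ≥0∞ :=
  if StrictMono x then g x else 0

theorem meas_strictMono (n : ℕ) : MeasurableSet {x : Fin n → ℝ | StrictMono x} := by
  have : {x : Fin n → ℝ | StrictMono x} = ⋂ i : Fin n, ⋂ j : Fin n, {x | i < j → x i < x j} := by
    ext x
    simp only [Set.mem_ofPred_eq, Set.mem_iInter]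
    constructor
    · intro h i j hij; exact h hij
    · intro h i j hij; exact h i j hij
  rw [this]
  refine MeasurableSet.iInter fun i => MeasurableSet.iInter fun j => ?_
  by_cases h : i < j
  · simp only [h, true_imp_iff]
    exact measurableSet_lt (measurable_pi_apply i) (measurable_pi_apply j)
  · simp only [h, false_imp_iff]
    simp

theorem meas_ch {n : ℕ} {g : (Fin n → ℝ) → ℝ≥0∞} (hg : Measurable g) : Measurable (ch g) := by
  classical
  unfold ch
  exact Measurable.ite (meas_strictMono n) hg measurable_const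

theorem sum_ch {n : ℕ} (g : (Fin n → ℝ) → ℝ≥0∞)
    (hs : ∀ (σ : Equiv.Perm (Fin n)) (x : Fin n → ℝ), g (x ∘ σ) = g x)
    (h0 : ∀ x : Fin n → ℝ, ¬ Function.Injective x → g x = 0) (x : Fin n → ℝ) :
    g x = ∑ σ : Equiv.Perm (Fin n), ch g (x ∘ σ) := by
  classical
  by_cases hx : Function.Injective x
  · rw [Finset.sum_eq_single (Tuple.sort x)]
    · have : StrictMono (x ∘ Tuple.sort x) :=
        (Tuple.monotone_sort x).strictMono_of_injective (hx.comp (Equiv.injective _))
      rw [ch, if_pos this, hs]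
    · intro σ _ hσ
      rw [ch, if_neg]
      intro hm
      apply hσ
      have h1 : StrictMono (x ∘ Tuple.sort x) :=
        (Tuple.monotone_sort x).strictMono_of_injective (hx.comp (Equiv.injective _))
      have h2 : Set.range (x ∘ σ) = Set.range (x ∘ Tuple.sort x) := by
        rw [Set.range_comp, Set.range_comp, σ.range_eq_univ, (Tuple.sort x).range_eq_univ]
      have h3 : x ∘ σ = x ∘ Tuple.sort x := (hm.range_inj h1).1 h2
      ext i
      exact congrArg _ (hx (congrFun h3 i))
    · simp
  · rw [h0 x hx]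
    symm
    apply Finset.sum_eq_zero
    intro σ _
    rw [ch, if_neg]
    intro hm
    apply hx
    have := hm.injective
    intro a b hab
    have h1 : (x ∘ σ) (σ.symm a) = (x ∘ σ) (σ.symm b) := by simpa using hab
    exact σ.symm.injective (this h1)

theorem sym_red {n : ℕ} (g : (Fin n → ℝ) → ℝ≥0∞) (hg : Measurable g)
    (hs : ∀ (σ : Equiv.Perm (Fin n)) (x : Fin n → ℝ), g (x ∘ σ) = g x)
    (h0 : ∀ x : Fin n → ℝ, ¬ Function.Injective x → g x = 0) :
    ∫⁻ x, g x = (n.factorial : ℝ≥0∞) * ∫⁻ x, ch g x := by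
  have h1 : ∀ σ : Equiv.Perm (Fin n), ∫⁻ x : Fin n → ℝ, ch g (x ∘ σ) = ∫⁻ x, ch g x := by
    intro σ
    have e := volume_measurePreserving_piCongrLeft (fun _ : Fin n => ℝ) σ
    rw [← e.lintegral_comp_emb (MeasurableEquiv.measurableEmbedding _)]
    refine lintegral_congr fun x => ?_
    congr 1
    ext i
    exact Equiv.piCongrLeft_apply_apply (fun _ : Fin n => ℝ) σ x i
  have hm : ∀ σ : Equiv.Perm (Fin n), Measurable (fun x : Fin n → ℝ => ch g (x ∘ σ)) := by
    intro σ
    apply (meas_ch hg).comp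
    rw [measurable_pi_iff]
    intro i
    exact measurable_pi_apply _
  calc ∫⁻ x, g x = ∫⁻ x, ∑ σ : Equiv.Perm (Fin n), ch g (x ∘ σ) :=
        lintegral_congr (fun x => sum_ch g hs h0 x)
    _ = ∑ σ : Equiv.Perm (Fin n), ∫⁻ x, ch g (x ∘ σ) := lintegral_finsetSum _ (fun σ _ => hm σ)
    _ = _ := by
      rw [Finset.sum_congr rfl (fun σ _ => h1 σ), Finset.sum_const, Finset.card_univ,
        Fintype.card_perm, Fintype.card_fin, nsmul_eq_mul]

end Pool.Agent.FourFun
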