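import Pool.Agent.Helpers.FourFun
import Pool.Agent.Helpers.SymRed

set_option autoImplicit false

open MeasureTheory
open scoped ENNReal

namespace Pool.Agent.FourFun

/-- the orthant -/
def Orth (n : ℕ) : Set (Fin n → ℝ) := {x | ∀ j, 0 ≤ x j}

theorem meas_orth (n : ℕ) : MeasurableSet (Orth n) := by
  have : Orth n = ⋂ i : Fin n, {x | 0 ≤ x i} := by
    ext x; simp [Orth]
  rw [this]
  exact MeasurableSet.iInter fun i => measurableSet_le measurable_const (measurable_pi_apply i)

/-- regular functions -/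
structure Good {n : ℕ} (u : (Fin n → ℝ) → ℝ) : Prop where
  meas : Measurable u
  sym : ∀ (σ : Equiv.Perm (Fin n)) (x : Fin n → ℝ), u (x ∘ σ) = u x
  zero : ∀ x : Fin n → ℝ, ¬ Function.Injective x → u x = 0
  nonneg : ∀ x ∈ Orth n, 0 ≤ u x
  int : IntegrableOn u (Orth n)

/-- associated extended nonnegative function -/
noncomputable def LL {n : ℕ} (u : (Fin n → ℝ) → ℝ) : (Fin n → ℝ) → ℝ≥0∞ :=
  (Orth n).indicator (fun x => ENNReal.ofReal (u x))

theorem lint_LL {n : ℕ} {u : (Fin n → ℝ) → ℝ} (h : Good u) :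
    ∫⁻ x, LL u x = ENNReal.ofReal (∫ x in Orth n, u x) := by
  rw [LL, lintegral_indicator (meas_orth n), ofReal_integral_eq_lintegral_ofReal h.int]
  rw [Filter.EventuallyLE, ae_restrict_iff' (meas_orth n)]
  exact Filter.Eventually.of_forall (fun x hx => h.nonneg x hx)

theorem sup_strictMono {n : ℕ} {x y : Fin n → ℝ} (hx : StrictMono x) (hy : StrictMono y) :
    StrictMono (x ⊔ y) := by
  intro i j hij
  exact max_lt_max (hx hij) (hy hij)

theorem inf_strictMono {n : ℕ} {x y : Fin n → ℝ} (hx : StrictMono x) (hy : StrictMono y) :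
    StrictMono (x ⊓ y) := by
  intro i j hij
  exact min_lt_min (hx hij) (hy hij)

theorem real_four {n : ℕ} {u1 u2 u3 u4 : (Fin n → ℝ) → ℝ} (g1 : Good u1) (g2 : Good u2)
    (g3 : Good u3) (g4 : Good u4)
    (h : ∀ x ∈ Orth n, ∀ y ∈ Orth n, StrictMono x → StrictMono y →
      u1 x * u2 y ≤ u3 (x ⊔ y) * u4 (x ⊓ y)) :
    (∫ x in Orth n, u1 x) * (∫ x in Orth n, u2 x) ≤
      (∫ x in Orth n, u3 x) * (∫ x in Orth n, u4 x) := by
  classical
  have hm : ∀ {u : (Fin n → ℝ) → ℝ}, Good u → Measurable (LL u) := fun g =>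
    (g.meas.ennreal_ofReal).indicator (meas_orth n)
  have hsym : ∀ {u : (Fin n → ℝ) → ℝ}, Good u → ∀ (σ : Equiv.Perm (Fin n)) (x : Fin n → ℝ),
      LL u (x ∘ σ) = LL u x := by
    intro u g σ x
    have h1 : x ∘ σ ∈ Orth n ↔ x ∈ Orth n := by
      constructor
      · intro h j
        have := h (σ.symm j)
        simpa using this
      · intro h j; exact h _
    unfold LL
    by_cases hx : x ∈ Orth n
    · rw [Set.indicator_of_mem hx, Set.indicator_of_mem (h1.2 hx), g.sym]
    · rw [Set.indicator_of_notMem hx, Set.indicator_of_notMem (fun h => hx (h1.1 h))]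
  have hzero : ∀ {u : (Fin n → ℝ) → ℝ}, Good u → ∀ x : Fin n → ℝ, ¬ Function.Injective x → LL u x = 0 := by
    intro u g x hx
    unfold LL
    by_cases hx' : x ∈ Orth n
    · rw [Set.indicator_of_mem hx', g.zero x hx, ENNReal.ofReal_zero]
    · rw [Set.indicator_of_notMem hx']
  have hred : ∀ {u : (Fin n → ℝ) → ℝ}, Good u →
      ENNReal.ofReal (∫ x in Orth n, u x) = (n.factorial : ℝ≥0∞) * ∫⁻ x, ch (LL u) x := by
    intro u g
    rw [← lint_LL g]
    exact sym_red _ (hm g) (hsym g) (hzero g)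
  have hnn : ∀ {u : (Fin n → ℝ) → ℝ}, Good u → 0 ≤ ∫ x in Orth n, u x := by
    intro u g
    exact setIntegral_nonneg (meas_orth n) g.nonneg
  have h4 := four_fun n (ch (LL u1)) (ch (LL u2)) (ch (LL u3)) (ch (LL u4))
    (meas_ch (hm g1)) (meas_ch (hm g2)) (meas_ch (hm g3)) (meas_ch (hm g4)) (by
      intro x y
      by_cases hx : StrictMono x
      swap
      · rw [ch, if_neg hx, zero_mul]; exact bot_le
      by_cases hy : StrictMono y
      swap
      · rw [ch, ch, if_neg hy, mul_zero]; exact bot_le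
      rw [ch, ch, ch, ch, if_pos hx, if_pos hy, if_pos (sup_strictMono hx hy),
        if_pos (inf_strictMono hx hy)]
      unfold LL
      by_cases hx' : x ∈ Orth n
      swap
      · rw [Set.indicator_of_notMem hx', zero_mul]; exact bot_le
      by_cases hy' : y ∈ Orth n
      swap
      · rw [Set.indicator_of_notMem hy', mul_zero]; exact bot_le
      have hs : x ⊔ y ∈ Orth n := fun j => le_trans (hx' j) (le_max_left _ _)
      have hi : x ⊓ y ∈ Orth n := fun j => le_min (hx' j) (hy' j)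
      rw [Set.indicator_of_mem hx', Set.indicator_of_mem hy', Set.indicator_of_mem hs,
        Set.indicator_of_mem hi, ← ENNReal.ofReal_mul (g1.nonneg x hx'),
        ← ENNReal.ofReal_mul (g3.nonneg _ hs)]
      exact ENNReal.ofReal_le_ofReal (h x hx' y hy' hx hy))
  have h5 : ENNReal.ofReal (∫ x in Orth n, u1 x) * ENNReal.ofReal (∫ x in Orth n, u2 x) ≤
      ENNReal.ofReal (∫ x in Orth n, u3 x) * ENNReal.ofReal (∫ x in Orth n, u4 x) := by
    rw [hred g1, hred g2, hred g3, hred g4]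
    calc _ = ((n.factorial : ℝ≥0∞) * n.factorial) * ((∫⁻ x, ch (LL u1) x) * (∫⁻ x, ch (LL u2) x)) := by
          ring
      _ ≤ ((n.factorial : ℝ≥0∞) * n.factorial) * ((∫⁻ x, ch (LL u3) x) * (∫⁻ x, ch (LL u4) x)) :=
          mul_le_mul_right h4 _
      _ = _ := by ring
  rw [← ENNReal.ofReal_mul (hnn g1), ← ENNReal.ofReal_mul (hnn g3)] at h5
  exact (ENNReal.ofReal_le_ofReal_iff (mul_nonneg (hnn g3) (hnn g4))).1 h5

end Pool.Agent.FourFun
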