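import Mathlib

set_option autoImplicit false

namespace Pool.Agent.Rev783

open Module.End Polynomial

/-! ### Linear algebra -/

section LA

variable {V : Type} [AddCommGroup V] [Module ℂ V]

omit [Module ℂ V] in
theorem pow_app [Module ℂ V] (A : Module.End ℂ V) (k : ℕ) (v : V) :
    (A ^ (k + 1)) v = (A ^ k) (A v) := by
  rw [pow_succ]; rfl

theorem pow_sub_map {W : Type} [AddCommGroup W] [Module ℂ W] {T : Module.End ℂ V}
    {T' : Module.End ℂ W} {p : V →ₗ[ℂ] W} (h : ∀ v, p (T v) = T' (p v)) (g : ℂ) (k : ℕ) (v : V) :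
    p (((T - g • 1) ^ k) v) = ((T' - g • 1) ^ k) (p v) := by
  induction k generalizing v with
  | zero => simp
  | succ k ih =>
    rw [pow_succ, pow_succ, Module.End.mul_apply, Module.End.mul_apply, ih]
    congr 1
    simp [h]

theorem map_gen {W : Type} [AddCommGroup W] [Module ℂ W] {T : Module.End ℂ V}
    {T' : Module.End ℂ W} {p : V →ₗ[ℂ] W} (h : ∀ v, p (T v) = T' (p v)) {g : ℂ} {v : V}
    (hv : v ∈ T.maxGenEigenspace g) : p v ∈ T'.maxGenEigenspace g := by
  rw [mem_maxGenEigenspace] at hv ⊢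
  obtain ⟨k, hk⟩ := hv
  exact ⟨k, by rw [← pow_sub_map h, hk, map_zero]⟩

theorem zero_gen {T : Module.End ℂ V} (hT : Function.Injective T) {v : V}
    (hv : v ∈ T.maxGenEigenspace 0) : v = 0 := by
  rw [mem_maxGenEigenspace] at hv
  obtain ⟨k, hk⟩ := hv
  rw [zero_smul, sub_zero] at hk
  induction k with
  | zero => simpa using hk
  | succ k ih =>
    apply ih
    rw [pow_succ', Module.End.mul_apply] at hk
    exact hT (by rw [hk, map_zero])

/-- `T ^ 2` on a generalized eigenvector. -/
theorem gen_sq {T : Module.End ℂ V} {g : ℂ} {v : V} (hv : v ∈ T.maxGenEigenspace g) :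
    v ∈ (T * T).maxGenEigenspace (g * g) := by
  rw [mem_maxGenEigenspace] at hv ⊢
  obtain ⟨k, hk⟩ := hv
  refine ⟨k, ?_⟩
  have e : T * T - (g * g) • (1 : Module.End ℂ V) = (T + g • 1) * (T - g • 1) := by
    rw [add_mul, mul_sub, mul_sub, smul_mul_assoc, smul_mul_assoc, mul_smul_comm, mul_smul_comm,
      one_mul, mul_one, mul_one, smul_smul]
    abel
  have hc : Commute (T + g • (1 : Module.End ℂ V)) (T - g • 1) := by
    apply Commute.add_left
    · exact (Commute.refl T).sub_right ((Commute.one_right T).smul_right g)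
    · exact ((Commute.one_left _).smul_left g)
  rw [e, hc.mul_pow, Module.End.mul_apply, hk, map_zero]

theorem gen_sq_split {T : Module.End ℂ V} {g : ℂ} (hg : g ≠ 0) {v : V}
    (hv : v ∈ (T * T).maxGenEigenspace (g * g)) :
    ∃ a b, a ∈ T.maxGenEigenspace g ∧ b ∈ T.maxGenEigenspace (-g) ∧ v = a + b := by
  rw [mem_maxGenEigenspace] at hv
  obtain ⟨k, hk⟩ := hv
  have hcop : IsCoprime ((X - C g) ^ k) ((X - C (-g)) ^ k) := by
    apply IsCoprime.pow
    apply isCoprime_X_sub_C_of_isUnit_sub
    rw [sub_neg_eq_add]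
    exact (IsUnit.mk0 _ (by
      rw [← two_mul]; exact mul_ne_zero two_ne_zero hg))
  have hmul : (T * T - (g * g) • (1 : Module.End ℂ V)) ^ k
      = aeval T ((X - C g) ^ k * (X - C (-g)) ^ k) := by
    rw [← mul_pow, map_pow]
    congr 1
    rw [map_mul, map_sub, map_sub, aeval_X, aeval_C, aeval_C, map_neg, sub_neg_eq_add,
      Algebra.algebraMap_eq_smul_one]
    rw [sub_mul, mul_add, mul_add, smul_mul_assoc, smul_mul_assoc, mul_smul_comm, mul_smul_comm,
      one_mul, mul_one, mul_one, smul_smul]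
    abel
  have hker : v ∈ LinearMap.ker (aeval T ((X - C g) ^ k * (X - C (-g)) ^ k)) := by
    rw [LinearMap.mem_ker, ← hmul]
    exact hk
  rw [← sup_ker_aeval_eq_ker_aeval_mul_of_coprime T hcop, Submodule.mem_sup] at hker
  obtain ⟨a, ha, b, hb, hab⟩ := hker
  refine ⟨a, b, ?_, ?_, hab.symm⟩
  · rw [mem_maxGenEigenspace]
    refine ⟨k, ?_⟩
    rw [LinearMap.mem_ker, map_pow, map_sub, aeval_X, aeval_C,
      Algebra.algebraMap_eq_smul_one] at ha
    exact ha
  · rw [mem_maxGenEigenspace]
    refine ⟨k, ?_⟩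
    rw [LinearMap.mem_ker, map_pow, map_sub, aeval_X, aeval_C,
      Algebra.algebraMap_eq_smul_one] at hb
    exact hb

variable [FiniteDimensional ℂ V]

theorem ext_gen (T : Module.End ℂ V) {W : Type} [AddCommGroup W] [Module ℂ W]
    {A B : V →ₗ[ℂ] W} (h : ∀ g, ∀ v ∈ T.maxGenEigenspace g, A v = B v) : A = B := by
  ext v
  have hv : v ∈ ⨆ g, T.maxGenEigenspace g := by
    rw [iSup_maxGenEigenspace_eq_top]; trivial
  induction hv using Submodule.iSup_induction' with
  | mem g v hv => exact h g v hv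
  | zero => simp
  | add x y _ _ hx hy => rw [map_add, map_add, hx, hy]

theorem exists_spec (ρ : ℂ → ℂ) (T : Module.End ℂ V) :
    ∃ K : Module.End ℂ V, ∀ g, ∀ v ∈ T.maxGenEigenspace g, K v = ρ g • v := by
  classical
  have hint : DirectSum.IsInternal (fun g => T.maxGenEigenspace g) :=
    DirectSum.isInternal_submodule_of_iSupIndep_of_iSup_eq_top
      (independent_maxGenEigenspace T) (iSup_maxGenEigenspace_eq_top T)
  have hbij : Function.Bijective (DirectSum.coeLinearMap (fun g => T.maxGenEigenspace g)) := hint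
  let e := LinearEquiv.ofBijective (DirectSum.coeLinearMap (fun g => T.maxGenEigenspace g)) hbij
  let L : (DirectSum ℂ fun g => T.maxGenEigenspace g) →ₗ[ℂ] V :=
    DirectSum.toModule ℂ ℂ V (fun g => ρ g • (T.maxGenEigenspace g).subtype)
  refine ⟨L ∘ₗ e.symm.toLinearMap, ?_⟩
  intro g v hv
  have h1 : e (DirectSum.lof ℂ ℂ (fun g => T.maxGenEigenspace g) g ⟨v, hv⟩) = v := by
    simp only [e]
    rw [LinearEquiv.ofBijective_apply]
    exact DirectSum.coeLinearMap_lof _ _ _
  have h2 : e.symm v = DirectSum.lof ℂ ℂ (fun g => T.maxGenEigenspace g) g ⟨v, hv⟩ := by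
    rw [LinearEquiv.symm_apply_eq, h1]
  rw [LinearMap.comp_apply, LinearEquiv.coe_coe, h2]
  simp [L]

/-- The operator acting as `ρ g` on the generalized eigenspace of `g`. -/
noncomputable def spec (ρ : ℂ → ℂ) (T : Module.End ℂ V) : Module.End ℂ V :=
  (exists_spec ρ T).choose

theorem spec_apply (ρ : ℂ → ℂ) {T : Module.End ℂ V} {g : ℂ} {v : V}
    (hv : v ∈ T.maxGenEigenspace g) : spec ρ T v = ρ g • v :=
  (exists_spec ρ T).choose_spec g v hv

theorem spec_map {W : Type} [AddCommGroup W] [Module ℂ W] [FiniteDimensional ℂ W]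
    (ρ : ℂ → ℂ) {T : Module.End ℂ V} {T' : Module.End ℂ W} {p : V →ₗ[ℂ] W}
    (h : ∀ v, p (T v) = T' (p v)) (v : V) : p (spec ρ T v) = spec ρ T' (p v) := by
  have : p ∘ₗ spec ρ T = spec ρ T' ∘ₗ p := by
    apply ext_gen T
    intro g v hv
    rw [LinearMap.comp_apply, LinearMap.comp_apply, spec_apply ρ hv,
      spec_apply ρ (map_gen h hv), map_smul]
  exact LinearMap.congr_fun this v

/-- Multiplicative functions. -/
structure Good (ρ : ℂ → ℂ) : Prop where
  mul : ∀ g d, g ≠ 0 → d ≠ 0 → ρ (g * d) = ρ g * ρ d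
  neg : ∀ g, g ≠ 0 → ρ (-g) = - ρ g
  ne : ∀ g, ρ g ≠ 0

theorem spec_sq {ρ : ℂ → ℂ} (hρ : ∀ g, g ≠ 0 → ρ (g * g) = ρ g * ρ g) {T : Module.End ℂ V}
    (hT : Function.Injective T) (v : V) : spec ρ T (spec ρ T v) = spec ρ (T * T) v := by
  have : spec ρ T ∘ₗ spec ρ T = spec ρ (T * T) := by
    apply ext_gen T
    intro g v hv
    rcases eq_or_ne g 0 with rfl | hg
    · rw [zero_gen hT hv, map_zero, map_zero]
    · rw [LinearMap.comp_apply, spec_apply ρ hv, map_smul, spec_apply ρ hv,
        spec_apply ρ (gen_sq hv), smul_smul, hρ g hg]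
  exact LinearMap.congr_fun this v

/-- The reversing relation passes to `spec ρ T`. -/
theorem spec_reverses {ρ : ℂ → ℂ} (hρ : Good ρ) {T f : Module.End ℂ V}
    (hT : Function.Injective T) (hrel : ∀ v, f (T (f v)) = T v) (v : V) :
    f (spec ρ T (f v)) = spec ρ T v := by
  set K := spec ρ T with hK
  set K' := spec (fun g => (ρ g)⁻¹) T with hK'
  -- `f` commutes with `T * T`
  have hcomm : ∀ v, f ((T * T) v) = (T * T) (f v) := by
    intro v
    rw [Module.End.mul_apply, Module.End.mul_apply]
    calc f (T (T v)) = f (T (f (T (f v)))) := by rw [hrel v]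
      _ = T (T (f v)) := hrel (T (f v))
  -- commutation relations
  have hTK : ∀ v, T (K v) = K (T v) := fun v => spec_map ρ (fun _ => rfl) v
  have hTK' : ∀ v, T (K' v) = K' (T v) := fun v => spec_map _ (fun _ => rfl) v
  have hKK' : ∀ v, K (K' v) = v := by
    have : K ∘ₗ K' = LinearMap.id := by
      apply ext_gen T
      intro g v hv
      rw [LinearMap.comp_apply, hK', spec_apply _ hv, map_smul, hK, spec_apply _ hv, smul_smul,
        inv_mul_cancel₀ (hρ.ne g), one_smul, LinearMap.id_apply]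
    exact LinearMap.congr_fun this
  have hinvsq : ∀ g, g ≠ 0 → (ρ (g * g))⁻¹ = (ρ g)⁻¹ * (ρ g)⁻¹ := by
    intro g hg
    rw [hρ.mul g g hg hg, mul_inv]
  have hK'sq : ∀ v, K' (K' v) = spec (fun g => (ρ g)⁻¹) (T * T) v := fun v =>
    spec_sq hinvsq hT v
  have hfK' : ∀ v, f (K' (K' v)) = K' (K' (f v)) := by
    intro v
    rw [hK'sq, hK'sq]
    exact spec_map _ hcomm v
  -- `S = K' T`
  set S : Module.End ℂ V := K' * T with hS
  have hSS : ∀ v, f (S (S v)) = S (S (f v)) := by
    intro v
    simp only [hS, Module.End.mul_apply]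
    rw [hTK', hTK', hfK', ← Module.End.mul_apply T T, ← Module.End.mul_apply T T, hcomm]
  -- action of `S` on generalized eigenspaces of `T`
  have hSgen : ∀ g, g ≠ 0 → ∀ v ∈ T.maxGenEigenspace g,
      v ∈ S.maxGenEigenspace ((ρ g)⁻¹ * g) := by
    intro g hg v hv
    have hv' := hv
    rw [mem_maxGenEigenspace] at hv ⊢
    obtain ⟨k, hk⟩ := hv
    refine ⟨k, ?_⟩
    have key : ∀ (k : ℕ) (v : V), v ∈ T.maxGenEigenspace g →
        ((S - ((ρ g)⁻¹ * g) • 1) ^ k) v = (ρ g)⁻¹ ^ k • (((T - g • 1) ^ k) v) := by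
      intro k
      induction k with
      | zero => intro v _; simp
      | succ k ih =>
        intro v hv
        have hv1 : (T - g • 1) v ∈ T.maxGenEigenspace g := by
          have h1 : T v ∈ T.maxGenEigenspace g := map_gen (p := T) (fun _ => rfl) hv
          have : (T - g • (1 : Module.End ℂ V)) v = T v - g • v := by simp
          rw [this]
          exact Submodule.sub_mem _ h1 (Submodule.smul_mem _ _ hv)
        have hTv : T v ∈ T.maxGenEigenspace g := map_gen (p := T) (fun _ => rfl) hv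
        have e1 : (S - ((ρ g)⁻¹ * g) • (1 : Module.End ℂ V)) v
            = (ρ g)⁻¹ • ((T - g • (1 : Module.End ℂ V)) v) := by
          simp only [LinearMap.sub_apply, LinearMap.smul_apply, Module.End.one_apply, hS,
            Module.End.mul_apply]
          rw [hK', spec_apply _ hTv, smul_sub, smul_smul]
        rw [pow_app, pow_app, e1, map_smul, ih _ hv1, smul_smul, pow_succ]
        congr 1
        ring
    rw [key k v hv', hk, smul_zero]
  -- `Z = S f - f S`
  set Z : Module.End ℂ V := S * f - f * S with hZ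
  have hZS : ∀ v, S (Z v) = - Z (S v) := by
    intro v
    simp only [hZ, LinearMap.sub_apply, Module.End.mul_apply, map_sub]
    rw [hSS v]
    abel
  have hZ0 : Z = 0 := by
    apply ext_gen T
    intro g v hv
    rcases eq_or_ne g 0 with rfl | hg
    · rw [zero_gen hT hv, map_zero, map_zero]
    rw [LinearMap.zero_apply]
    -- Z v lies in W_{g^2}
    have hfv : f v ∈ (T * T).maxGenEigenspace (g * g) := map_gen hcomm (gen_sq hv)
    have hSTT : ∀ v, S ((T * T) v) = (T * T) (S v) := by
      intro v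
      simp only [hS, Module.End.mul_apply]
      rw [hTK', hTK']
    have hSfv : S (f v) ∈ (T * T).maxGenEigenspace (g * g) := map_gen hSTT hfv
    have hfSv : f (S v) ∈ (T * T).maxGenEigenspace (g * g) :=
      map_gen hcomm (map_gen hSTT (gen_sq hv))
    have hZv : Z v ∈ (T * T).maxGenEigenspace (g * g) := by
      simp only [hZ, LinearMap.sub_apply, Module.End.mul_apply]
      exact Submodule.sub_mem _ hSfv hfSv
    obtain ⟨a, b, ha, hb, hab⟩ := gen_sq_split hg hZv
    have hphi : (ρ (-g))⁻¹ * (-g) = (ρ g)⁻¹ * g := by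
      rw [hρ.neg g hg, inv_neg, neg_mul_neg]
    have h1 : Z v ∈ S.maxGenEigenspace ((ρ g)⁻¹ * g) := by
      rw [hab]
      refine Submodule.add_mem _ (hSgen g hg a ha) ?_
      have := hSgen (-g) (neg_ne_zero.2 hg) b hb
      rwa [hphi] at this
    have h2 : Z v ∈ S.maxGenEigenspace (-((ρ g)⁻¹ * g)) := by
      have hv' := hSgen g hg v hv
      rw [mem_maxGenEigenspace] at hv' ⊢
      obtain ⟨k, hk⟩ := hv'
      refine ⟨k, ?_⟩
      set c := (ρ g)⁻¹ * g with hc
      have key : ∀ (k : ℕ) (v : V), ((S - (-c) • 1) ^ k) (Z v)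
          = (-1 : ℂ) ^ k • Z (((S - c • 1) ^ k) v) := by
        intro k
        induction k with
        | zero => intro v; simp
        | succ k ih =>
          intro v
          have e1 : (S - (-c) • (1 : Module.End ℂ V)) (Z v)
              = (-1 : ℂ) • Z ((S - c • (1 : Module.End ℂ V)) v) := by
            simp only [LinearMap.sub_apply, LinearMap.smul_apply, Module.End.one_apply, map_sub,
              map_smul]
            rw [hZS v]
            simp only [neg_smul, one_smul, neg_sub]
            abel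
          rw [pow_app, pow_app, e1, map_smul, ih, smul_smul, pow_succ]
          congr 1
          ring
      rw [key k v, hk, map_zero, smul_zero]
    have hne : (ρ g)⁻¹ * g ≠ -((ρ g)⁻¹ * g) := by
      intro h
      have h3 : (ρ g)⁻¹ * g ≠ 0 := mul_ne_zero (inv_ne_zero (hρ.ne g)) hg
      exact h3 (self_eq_neg.1 h)
    have hdis := (independent_maxGenEigenspace S).pairwiseDisjoint hne
    exact (Submodule.disjoint_def.1 hdis) _ h1 h2
  -- conclusion
  have hfS : ∀ v, S (f v) = f (S v) := by
    intro v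
    have := LinearMap.congr_fun hZ0 v
    simp only [hZ, LinearMap.sub_apply, Module.End.mul_apply, LinearMap.zero_apply] at this
    exact sub_eq_zero.1 this
  have hSinj : Function.Injective S := by
    intro x y hxy
    simp only [hS, Module.End.mul_apply] at hxy
    have := congrArg K hxy
    rw [hKK', hKK'] at this
    exact hT this
  have hSsurj : Function.Surjective S := LinearMap.surjective_of_injective hSinj
  obtain ⟨w, rfl⟩ := hSsurj v
  have hKS : ∀ v, K (S v) = T v := by
    intro v
    simp only [hS, Module.End.mul_apply]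
    exact hKK' _
  rw [← hfS, hKS, hKS, hrel]

end LA

end Pool.Agent.Rev783
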