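import Pool.Agent.Helpers.Rev783a

set_option autoImplicit false

namespace Pool.Agent.Rev783

open Module.End

/-! ### A multiplicative retraction onto roots of unity -/

theorem exists_rho : ∃ ρ : ℂ → ℂ, Good ρ ∧ ∀ g, ∃ N : ℕ, 1 ≤ N ∧ ρ g ^ N = 1 := by
  -- a `ℚ`-linear functional `L : ℝ → ℚ` with `L 1 = 1`
  obtain ⟨L, hL⟩ : ∃ L : ℝ →ₗ[ℚ] ℚ, ∀ q : ℚ, L (q : ℝ) = q := by
    let i : ℚ →ₗ[ℚ] ℝ := LinearMap.toSpanSingleton ℚ ℝ 1
    have hi : ∀ q : ℚ, i q = (q : ℝ) := by
      intro q
      simp [i, LinearMap.toSpanSingleton_apply, Rat.smul_one_eq_cast]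
    have hker : LinearMap.ker i = ⊥ := by
      rw [LinearMap.ker_eq_bot]
      intro a b hab
      rw [hi, hi] at hab
      exact_mod_cast hab
    obtain ⟨L, hL⟩ := LinearMap.exists_leftInverse_of_injective i hker
    refine ⟨L, fun q => ?_⟩
    have := LinearMap.congr_fun hL q
    simpa [hi] using this
  let ρ : ℂ → ℂ := fun z => Complex.exp (2 * Real.pi * Complex.I *
    ((L (Complex.arg z / (2 * Real.pi)) : ℚ) : ℂ))
  have hpi : (2 * Real.pi : ℝ) ≠ 0 := by positivity
  have hmul : ∀ g d, g ≠ 0 → d ≠ 0 → ρ (g * d) = ρ g * ρ d := by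
    intro g d hg hd
    have h1 := Complex.arg_mul_coe_angle hg hd
    rw [← Real.Angle.coe_add, Real.Angle.angle_eq_iff_two_pi_dvd_sub] at h1
    obtain ⟨k, hk⟩ := h1
    have h2 : Complex.arg (g * d) / (2 * Real.pi) = Complex.arg g / (2 * Real.pi)
        + Complex.arg d / (2 * Real.pi) + ((k : ℚ) : ℝ) := by
      have : Complex.arg (g * d) = Complex.arg g + Complex.arg d + 2 * Real.pi * k := by linarith
      rw [this]
      push_cast
      field_simp
    have h3 : L (Complex.arg (g * d) / (2 * Real.pi)) = L (Complex.arg g / (2 * Real.pi))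
        + L (Complex.arg d / (2 * Real.pi)) + k := by
      rw [h2, map_add, map_add, hL]
    simp only [ρ]
    rw [h3, ← Complex.exp_add]
    have h4 : 2 * (Real.pi : ℂ) * Complex.I * ((L (Complex.arg g / (2 * Real.pi))
        + L (Complex.arg d / (2 * Real.pi)) + k : ℚ) : ℂ)
        = (2 * Real.pi * Complex.I * ((L (Complex.arg g / (2 * Real.pi)) : ℚ) : ℂ)
          + 2 * Real.pi * Complex.I * ((L (Complex.arg d / (2 * Real.pi)) : ℚ) : ℂ))
          + k * (2 * Real.pi * Complex.I) := by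
      push_cast
      ring
    rw [h4, Complex.exp_add, Complex.exp_int_mul_two_pi_mul_I, mul_one]
  have hneg1 : ρ (-1) = -1 := by
    simp only [ρ, Complex.arg_neg_one]
    have h1 : Real.pi / (2 * Real.pi) = ((1 / 2 : ℚ) : ℝ) := by
      push_cast
      field_simp
    rw [h1, hL]
    have h2 : 2 * (Real.pi : ℂ) * Complex.I * ((1 / 2 : ℚ) : ℂ) = Real.pi * Complex.I := by
      push_cast
      ring
    rw [h2, Complex.exp_pi_mul_I]
  refine ⟨ρ, ⟨hmul, ?_, fun g => Complex.exp_ne_zero _⟩, ?_⟩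
  · intro g hg
    have := hmul (-1) g (by norm_num) hg
    rw [hneg1] at this
    simpa using this
  · intro g
    set q : ℚ := L (Complex.arg g / (2 * Real.pi)) with hq
    refine ⟨q.den, q.den_pos, ?_⟩
    simp only [ρ]
    rw [← Complex.exp_nat_mul, ← hq]
    have h1 : (q.den : ℂ) * (2 * Real.pi * Complex.I * (q : ℂ))
        = q.num * (2 * Real.pi * Complex.I) := by
      have h2 : (q : ℂ) * (q.den : ℂ) = q.num := by
        have := Rat.mul_den_eq_num q
        exact_mod_cast this
      rw [← h2]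
      ring
    rw [h1, Complex.exp_int_mul_two_pi_mul_I]

theorem Good.one {ρ : ℂ → ℂ} (h : Good ρ) : ρ 1 = 1 := by
  have h1 := h.mul 1 1 one_ne_zero one_ne_zero
  rw [mul_one] at h1
  exact (mul_eq_left₀ (h.ne 1)).1 h1.symm

/-! ### Algebras -/

section Alg

variable {Q : Type} [CommRing Q] [Algebra ℂ Q]

theorem gen_mul_aux (T : Q →ₐ[ℂ] Q) (g d : ℂ) : ∀ (s m l : ℕ) (a b : Q), m + l = s →
    ((T.toLinearMap - g • 1) ^ m) a = 0 → ((T.toLinearMap - d • 1) ^ l) b = 0 →
    ((T.toLinearMap - (g * d) • 1) ^ s) (a * b) = 0 := by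
  intro s
  induction s with
  | zero =>
    intro m l a b hml ha hb
    have hm : m = 0 := by omega
    subst hm
    have : a = 0 := by simpa using ha
    rw [this, zero_mul, map_zero]
  | succ s ih =>
    intro m l a b hml ha hb
    rcases m with _ | m
    · have : a = 0 := by simpa using ha
      rw [this, zero_mul, map_zero]
    rcases l with _ | l
    · have : b = 0 := by simpa using hb
      rw [this, mul_zero, map_zero]
    have e : (T.toLinearMap - (g * d) • (1 : Module.End ℂ Q)) (a * b)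
        = ((T.toLinearMap - g • (1 : Module.End ℂ Q)) a) * (T b)
          + g • (a * ((T.toLinearMap - d • (1 : Module.End ℂ Q)) b)) := by
      simp only [LinearMap.sub_apply, LinearMap.smul_apply, Module.End.one_apply,
        AlgHom.toLinearMap_apply, map_mul]
      simp only [Algebra.smul_def, map_mul]
      ring
    rw [pow_app, e, map_add, map_smul]
    have h1 : ((T.toLinearMap - (g * d) • 1) ^ s)
        (((T.toLinearMap - g • (1 : Module.End ℂ Q)) a) * (T b)) = 0 := by
      apply ih m (l + 1) _ _ (by omega)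
      · rw [← pow_app]; exact ha
      · have := pow_sub_map (T := T.toLinearMap) (T' := T.toLinearMap) (p := T.toLinearMap)
          (fun _ => rfl) d (l + 1) b
        rw [hb, map_zero] at this
        exact this.symm
    have h2 : ((T.toLinearMap - (g * d) • 1) ^ s)
        (a * ((T.toLinearMap - d • (1 : Module.End ℂ Q)) b)) = 0 := by
      apply ih (m + 1) l _ _ (by omega) ha
      rw [← pow_app]; exact hb
    rw [h1, h2, smul_zero, add_zero]

theorem gen_mul {T : Q →ₐ[ℂ] Q} {g d : ℂ} {a b : Q}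
    (ha : a ∈ maxGenEigenspace T.toLinearMap g) (hb : b ∈ maxGenEigenspace T.toLinearMap d) :
    a * b ∈ maxGenEigenspace T.toLinearMap (g * d) := by
  rw [mem_maxGenEigenspace] at ha hb ⊢
  obtain ⟨m, hm⟩ := ha
  obtain ⟨l, hl⟩ := hb
  exact ⟨m + l, gen_mul_aux T g d (m + l) m l a b rfl hm hl⟩

variable [FiniteDimensional ℂ Q]

theorem spec_mul {ρ : ℂ → ℂ} (hρ : Good ρ) {T : Q →ₐ[ℂ] Q} (hT : Function.Injective T)
    (a b : Q) : spec ρ T.toLinearMap (a * b)
      = spec ρ T.toLinearMap a * spec ρ T.toLinearMap b := by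
  set K := spec ρ T.toLinearMap with hK
  have hT' : Function.Injective T.toLinearMap := hT
  have h1 : ∀ g, ∀ a ∈ maxGenEigenspace T.toLinearMap g, ∀ b, K (a * b) = K a * K b := by
    intro g a ha
    have : K ∘ₗ LinearMap.mulLeft ℂ a = LinearMap.mulLeft ℂ (K a) ∘ₗ K := by
      apply ext_gen T.toLinearMap
      intro d b hb
      simp only [LinearMap.comp_apply, LinearMap.mulLeft_apply]
      rcases eq_or_ne g 0 with rfl | hg
      · rw [zero_gen hT' ha, zero_mul, map_zero, zero_mul]
      rcases eq_or_ne d 0 with rfl | hd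
      · rw [zero_gen hT' hb, mul_zero, map_zero, mul_zero]
      rw [hK, spec_apply ρ (gen_mul ha hb), spec_apply ρ ha, spec_apply ρ hb, hρ.mul g d hg hd,
        smul_mul_smul_comm]
    intro b
    exact LinearMap.congr_fun this b
  have h2 : K ∘ₗ LinearMap.mulRight ℂ b = LinearMap.mulRight ℂ (K b) ∘ₗ K := by
    apply ext_gen T.toLinearMap
    intro g a ha
    simp only [LinearMap.comp_apply, LinearMap.mulRight_apply]
    exact h1 g a ha b
  exact LinearMap.congr_fun h2 a

theorem spec_one {ρ : ℂ → ℂ} (hρ : Good ρ) (T : Q →ₐ[ℂ] Q) :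
    spec ρ T.toLinearMap 1 = 1 := by
  have h : (1 : Q) ∈ maxGenEigenspace T.toLinearMap 1 := by
    rw [mem_maxGenEigenspace]
    refine ⟨1, ?_⟩
    simp
  rw [spec_apply ρ h, hρ.one, one_smul]

/-- `spec` as an algebra homomorphism. -/
noncomputable def specAlg {ρ : ℂ → ℂ} (hρ : Good ρ) (T : Q →ₐ[ℂ] Q)
    (hT : Function.Injective T) : Q →ₐ[ℂ] Q :=
  AlgHom.ofLinearMap (spec ρ T.toLinearMap) (spec_one hρ T) (spec_mul hρ hT)

theorem specAlg_apply {ρ : ℂ → ℂ} (hρ : Good ρ) (T : Q →ₐ[ℂ] Q)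
    (hT : Function.Injective T) (a : Q) : specAlg hρ T hT a = spec ρ T.toLinearMap a := rfl

theorem spec_iter {V : Type} [AddCommGroup V] [Module ℂ V] [FiniteDimensional ℂ V]
    {ρ : ℂ → ℂ} {T : Module.End ℂ V} {g : ℂ} {v : V} (hv : v ∈ T.maxGenEigenspace g) (k : ℕ) :
    (spec ρ T)^[k] v = ρ g ^ k • v := by
  induction k with
  | zero => simp
  | succ k ih =>
    rw [Function.iterate_succ_apply', ih, map_smul, spec_apply ρ hv, smul_smul, pow_succ]

end Alg

end Pool.Agent.Rev783
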