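import Pool.Agent.Helpers.Rev783b

set_option autoImplicit false

namespace Pool.Agent.Rev783

open MvPowerSeries Finsupp

/-! ### Filtration of the power series ring -/

abbrev A (n : ℕ) := MvPowerSeries (Fin n) ℂ

/-- Power series of order at least `k`. -/
def I (n k : ℕ) : Ideal (A n) where
  carrier := {a | (k : ℕ∞) ≤ a.order}
  add_mem' := by
    intro a b ha hb
    exact le_trans (le_min ha hb) min_order_le_add
  zero_mem' := by simp
  smul_mem' := by
    intro c x hx
    refine le_trans ?_ le_order_mul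
    exact le_trans hx le_add_self

variable {n : ℕ}

theorem mem_I {k : ℕ} {a : A n} : a ∈ I n k ↔ (k : ℕ∞) ≤ a.order := Iff.rfl

theorem mem_I_iff {k : ℕ} {a : A n} : a ∈ I n k ↔ ∀ e, degree e < k → coeff e a = 0 := by
  rw [mem_I]
  constructor
  · intro h e he
    exact coeff_of_lt_order (lt_of_lt_of_le (by exact_mod_cast he) h)
  · intro h
    exact nat_le_order h

theorem I_mono {j k : ℕ} (h : j ≤ k) : I n k ≤ I n j := by
  intro a ha
  exact le_trans (by exact_mod_cast h) (mem_I.1 ha)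

theorem I_mul {j k : ℕ} {a b : A n} (ha : a ∈ I n j) (hb : b ∈ I n k) :
    a * b ∈ I n (j + k) := by
  rw [mem_I] at *
  refine le_trans ?_ le_order_mul
  push_cast
  exact add_le_add ha hb

theorem eq_zero_of_I {a : A n} (h : ∀ k, a ∈ I n k) : a = 0 := by
  ext e
  rw [map_zero]
  exact mem_I_iff.1 (h (degree e + 1)) e (Nat.lt_succ_self _)

theorem X_mem (i : Fin n) : (X i : A n) ∈ I n 1 := by
  rw [mem_I_iff]
  intro e he
  have : e = 0 := by
    rw [← Finsupp.degree_eq_zero_iff]; omega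
  rw [this]
  simp

theorem mem_I_one {a : A n} : a ∈ I n 1 ↔ constantCoeff a = 0 := by
  rw [mem_I_iff]
  constructor
  · intro h
    have := h 0 (by simp)
    simpa using this
  · intro h e he
    have : e = 0 := by
      rw [← Finsupp.degree_eq_zero_iff]; omega
    rw [this]
    simpa using h

theorem approx (k : ℕ) (a : A n) : a - ((truncTotal k a : MvPolynomial (Fin n) ℂ) : A n) ∈ I n k := by
  rw [mem_I_iff]
  intro e he
  rw [map_sub, MvPolynomial.coeff_coe, coeff_truncTotal _ he, sub_self]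

/-- Filtered algebra endomorphisms. -/
def Filt (ψ : A n →ₐ[ℂ] A n) : Prop := ∀ k a, a ∈ I n k → ψ a ∈ I n k

theorem hasSubst_of {M : Fin n → A n} (hM : ∀ i, M i ∈ I n 1) : HasSubst M :=
  hasSubst_of_constantCoeff_zero fun i => mem_I_one.1 (hM i)

theorem filt_subst {M : Fin n → A n} (hM : ∀ i, M i ∈ I n 1) :
    Filt (substAlgHom (hasSubst_of hM) : A n →ₐ[ℂ] A n) := by
  intro k a ha
  rw [mem_I] at ha ⊢
  rw [substAlgHom_apply]
  refine le_trans ?_ (le_order_subst (hasSubst_of hM) a)
  have h1 : (1 : ℕ∞) ≤ ⨅ i, (M i).order := by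
    apply le_iInf
    intro i
    have := mem_I.1 (hM i)
    exact_mod_cast this
  calc (k : ℕ∞) ≤ a.order := ha
    _ = 1 * a.order := (one_mul _).symm
    _ ≤ _ := mul_le_mul_left h1 _

theorem subst_eq {ψ : A n →ₐ[ℂ] A n} (hψ : Filt ψ) (a : A n) :
    subst (fun i => ψ (X i)) a = ψ a := by
  have hM : ∀ i, ψ (X i) ∈ I n 1 := fun i => hψ 1 _ (X_mem i)
  rw [← substAlgHom_apply (hasSubst_of hM)]
  set φ : A n →ₐ[ℂ] A n := substAlgHom (hasSubst_of hM) with hφ
  have hφf : Filt φ := filt_subst hM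
  have hpoly : ∀ p : MvPolynomial (Fin n) ℂ, φ (p : A n) = ψ (p : A n) := by
    have h1 : φ.comp (MvPolynomial.coeToMvPowerSeries.algHom ℂ)
        = ψ.comp (MvPolynomial.coeToMvPowerSeries.algHom ℂ) := by
      apply MvPolynomial.algHom_ext
      intro i
      simp only [AlgHom.comp_apply, MvPolynomial.coeToMvPowerSeries.algHom_apply,
        MvPolynomial.coe_X, map_X]
      rw [hφ, substAlgHom_X]
    intro p
    have h2 := DFunLike.congr_fun h1 p
    simp only [AlgHom.comp_apply, MvPolynomial.coeToMvPowerSeries.algHom_apply] at h2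
    have h3 : (MvPowerSeries.map (algebraMap ℂ ℂ)) (p : A n) = (p : A n) := by
      ext e
      simp
    rwa [h3] at h2
  rw [← sub_eq_zero]
  apply eq_zero_of_I
  intro k
  have h1 := hφf k _ (approx k a)
  have h2 := hψ k _ (approx k a)
  have h3 := (I n k).sub_mem h1 h2
  rw [map_sub, map_sub, hpoly] at h3
  have e : φ a - ψ (truncTotal k a : MvPolynomial (Fin n) ℂ)
      - (ψ a - ψ (truncTotal k a : MvPolynomial (Fin n) ℂ)) = φ a - ψ a := by ring
  rwa [e] at h3

/-! ### The quotients -/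

abbrev Q (n k : ℕ) := A n ⧸ I n k

theorem mk_eq {k : ℕ} {a b : A n} : (Ideal.Quotient.mkₐ ℂ (I n k) a : Q n k)
    = Ideal.Quotient.mkₐ ℂ (I n k) b ↔ a - b ∈ I n k := by
  simp only [Ideal.Quotient.mkₐ_eq_mk]
  exact Ideal.Quotient.eq

theorem mk_surj (k : ℕ) : Function.Surjective (Ideal.Quotient.mkₐ ℂ (I n k)) :=
  Ideal.Quotient.mkₐ_surjective _ _

instance (k : ℕ) : FiniteDimensional ℂ (Q n k) := by
  have hfin : Set.Finite {e : Fin n →₀ ℕ | degree e < k} := Finsupp.finite_of_degree_lt k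
  have hspan : Submodule.span ℂ ((fun e => (Ideal.Quotient.mkₐ ℂ (I n k)
      (monomial e (1 : ℂ)) : Q n k)) '' {e : Fin n →₀ ℕ | degree e < k}) = ⊤ := by
    rw [eq_top_iff]
    rintro q -
    obtain ⟨a, rfl⟩ := mk_surj k q
    rw [mk_eq.2 (approx k a)]
    set p : MvPolynomial (Fin n) ℂ := truncTotal k a with hp
    have hp2 : (p : A n) = ∑ e ∈ p.support, p.coeff e • (monomial e (1 : ℂ) : A n) := by
      conv_lhs => rw [MvPolynomial.as_sum p]
      rw [← MvPolynomial.coeToMvPowerSeries.ringHom_apply, map_sum]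
      apply Finset.sum_congr rfl
      intro e _
      rw [MvPolynomial.coeToMvPowerSeries.ringHom_apply, MvPolynomial.coe_monomial]
      rw [← map_smul, smul_eq_mul, mul_one]
    rw [hp2, map_sum]
    apply Submodule.sum_mem
    intro e he
    rw [map_smul]
    apply Submodule.smul_mem
    apply Submodule.subset_span
    refine ⟨e, ?_, rfl⟩
    by_contra hcon
    rw [MvPolynomial.mem_support_iff] at he
    exact he (coeff_truncTotal_eq_zero _ (not_lt.1 hcon))
  exact Module.finite_def.2 (hspan ▸ Submodule.fg_span (hfin.image _))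

end Pool.Agent.Rev783
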