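import Pool.Agent.Helpers.Rev783c

set_option autoImplicit false

namespace Pool.Agent.Rev783

open MvPowerSeries Finsupp Module.End

variable {n : ℕ}

/-- The class map. -/
noncomputable abbrev mk (k : ℕ) : A n →ₐ[ℂ] Q n k := Ideal.Quotient.mkₐ ℂ (I n k)

/-- The induced endomorphism of the quotient. -/
noncomputable def quo (ψ : A n →ₐ[ℂ] A n) (hψ : Filt ψ) (k : ℕ) : Q n k →ₐ[ℂ] Q n k :=
  Ideal.quotientMapₐ (I n k) ψ (fun a ha => hψ k a ha)

theorem quo_mk (ψ : A n →ₐ[ℂ] A n) (hψ : Filt ψ) (k : ℕ) (a : A n) :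
    quo ψ hψ k (mk k a) = mk k (ψ a) := rfl

/-- The transition map. -/
noncomputable def tr {j k : ℕ} (h : j ≤ k) : Q n k →ₐ[ℂ] Q n j :=
  Ideal.Quotient.factorₐ ℂ (I_mono h)

theorem tr_mk {j k : ℕ} (h : j ≤ k) (a : A n) : tr h (mk k a) = mk j a := rfl

theorem quo_inj {ψ ψ' : A n →ₐ[ℂ] A n} (hψ : Filt ψ) (hψ' : Filt ψ')
    (h : ∀ a, ψ' (ψ a) = a) (k : ℕ) : Function.Injective (quo ψ hψ k) := by
  intro x y hxy
  obtain ⟨a, rfl⟩ := mk_surj k x
  obtain ⟨b, rfl⟩ := mk_surj k y
  have h1 : mk k (ψ a) = mk k (ψ b) := hxy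
  have h2 : quo ψ' hψ' k (mk k (ψ a)) = quo ψ' hψ' k (mk k (ψ b)) := by rw [h1]
  rw [quo_mk, quo_mk, h, h] at h2
  exact h2

section main

variable {ρ : ℂ → ℂ} (hρ : Good ρ) {h : A n →ₐ[ℂ] A n} (hf : Filt h)
  (hinj : ∀ k, Function.Injective (quo h hf k))

/-- The operator `ρ(h)` on the quotients. -/
noncomputable def KQ (k : ℕ) : Q n k →ₐ[ℂ] Q n k := specAlg hρ (quo h hf k) (hinj k)

theorem KQ_tr {j k : ℕ} (hjk : j ≤ k) (q : Q n k) :
    tr hjk (KQ hρ hf hinj k q) = KQ hρ hf hinj j (tr hjk q) := by
  have := spec_map (T := (quo h hf k).toLinearMap) (T' := (quo h hf j).toLinearMap)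
    (p := (tr hjk : Q n k →ₐ[ℂ] Q n j).toLinearMap) ρ (by
      intro v
      obtain ⟨a, rfl⟩ := mk_surj k v
      rfl) q
  exact this

/-- The limit map. -/
noncomputable def κfun (a : A n) : A n := fun e =>
  coeff e (mk_surj (degree e + 1) (KQ hρ hf hinj (degree e + 1) (mk _ a))).choose

theorem κfun_spec (k : ℕ) (a : A n) : mk k (κfun hρ hf hinj a) = KQ hρ hf hinj k (mk k a) := by
  obtain ⟨b, hb⟩ := mk_surj k (KQ hρ hf hinj k (mk k a))
  rw [← hb, mk_eq, mem_I_iff]
  intro e he
  rw [map_sub, sub_eq_zero]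
  set c := (mk_surj (degree e + 1) (KQ hρ hf hinj (degree e + 1) (mk _ a))).choose with hc
  have hc' : mk (degree e + 1) c = KQ hρ hf hinj (degree e + 1) (mk _ a) :=
    (mk_surj (degree e + 1) (KQ hρ hf hinj (degree e + 1) (mk _ a))).choose_spec
  have h1 : coeff e (κfun hρ hf hinj a) = coeff e c := rfl
  rw [h1]
  have h2 : mk (degree e + 1) b = mk (degree e + 1) c := by
    rw [hc', ← tr_mk (show degree e + 1 ≤ k from he) b, hb, KQ_tr, tr_mk]
  have h3 := mem_I_iff.1 (mk_eq.1 h2) e (Nat.lt_succ_self _)
  rw [map_sub, sub_eq_zero] at h3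
  exact h3.symm

theorem ext_mk {a b : A n} (h : ∀ k, mk k a = mk k b) : a = b := by
  rw [← sub_eq_zero]
  exact eq_zero_of_I fun k => mk_eq.1 (h k)

/-- The limit algebra endomorphism. -/
noncomputable def κ : A n →ₐ[ℂ] A n where
  toFun := κfun hρ hf hinj
  map_one' := ext_mk fun k => by rw [κfun_spec, map_one, map_one]
  map_mul' a b := ext_mk fun k => by
    rw [κfun_spec, map_mul, map_mul, map_mul, κfun_spec, κfun_spec]
  map_zero' := ext_mk fun k => by rw [κfun_spec, map_zero, map_zero]
  map_add' a b := ext_mk fun k => by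
    rw [κfun_spec, map_add, map_add, map_add, κfun_spec, κfun_spec]
  commutes' r := ext_mk fun k => by
    rw [κfun_spec, AlgHom.commutes, AlgHom.commutes]

theorem κ_mk (k : ℕ) (a : A n) : mk k (κ hρ hf hinj a) = KQ hρ hf hinj k (mk k a) :=
  κfun_spec hρ hf hinj k a

theorem κ_filt : Filt (κ hρ hf hinj) := by
  intro k a ha
  have h1 : mk k a = mk k 0 := mk_eq.2 (by rwa [sub_zero])
  have h2 := κ_mk hρ hf hinj k a
  rw [h1, map_zero, map_zero, ← map_zero (mk k), mk_eq, sub_zero] at h2
  exact h2

theorem κ_reverses {f : A n →ₐ[ℂ] A n} (hff : Filt f) (hrel : ∀ a, f (h (f a)) = h a) (a : A n) :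
    f (κ hρ hf hinj (f a)) = κ hρ hf hinj a := by
  apply ext_mk
  intro k
  rw [← quo_mk f hff, κ_mk, κ_mk, ← quo_mk f hff]
  have := spec_reverses hρ (T := (quo h hf k).toLinearMap) (f := (quo f hff k).toLinearMap)
    (hinj k) (by
      intro v
      obtain ⟨b, rfl⟩ := mk_surj k v
      change mk k (f (h (f b))) = mk k (h b)
      rw [hrel]) (mk k a)
  exact this

theorem KQ_iter (k m : ℕ) (a : A n) :
    mk k ((κ hρ hf hinj)^[m] a) = (KQ hρ hf hinj k)^[m] (mk k a) := by
  induction m generalizing a with
  | zero => rfl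
  | succ m ih => rw [Function.iterate_succ_apply, Function.iterate_succ_apply, ih, κ_mk]

/-- Finite order. -/
theorem κ_finite (htor : ∀ g, ∃ N : ℕ, 1 ≤ N ∧ ρ g ^ N = 1) :
    ∃ N : ℕ, 1 ≤ N ∧ ∀ a, (κ hρ hf hinj)^[N] a = a := by
  classical
  set T2 := (quo h hf 2).toLinearMap with hT2
  have hfin : {g | maxGenEigenspace T2 g ≠ ⊥}.Finite :=
    WellFoundedGT.finite_ne_bot_of_iSupIndep (independent_maxGenEigenspace T2)
  choose ν hν1 hν using htor
  set N := ∏ g ∈ hfin.toFinset, ν g with hN
  have hNpos : 1 ≤ N := by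
    rw [hN]
    exact Nat.one_le_iff_ne_zero.2 (Finset.prod_ne_zero_iff.2 fun g _ => by
      have := hν1 g
      omega)
  have hNg : ∀ g, maxGenEigenspace T2 g ≠ ⊥ → ρ g ^ N = 1 := by
    intro g hg
    have : ν g ∣ N := Finset.dvd_prod_of_mem _ (by simpa using hg)
    obtain ⟨c, hc⟩ := this
    rw [hc, pow_mul, hν, one_pow]
  refine ⟨N, hNpos, fun a => ?_⟩
  apply ext_mk
  -- enough for k ≥ 2
  have hred : ∀ k, 2 ≤ k → mk k ((κ hρ hf hinj)^[N] a) = mk k a := by
    intro k hk
    -- subalgebra of fixed elements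
    let S : Set (A n) := {b | mk k ((κ hρ hf hinj)^[N] b) = mk k b}
    have hiter_add : ∀ m (x y : A n), (κ hρ hf hinj)^[m] (x + y)
        = (κ hρ hf hinj)^[m] x + (κ hρ hf hinj)^[m] y := fun m x y =>
      Function.Semiconj₂.iterate (fun x y => map_add _ x y) m x y
    have hiter_mul : ∀ m (x y : A n), (κ hρ hf hinj)^[m] (x * y)
        = (κ hρ hf hinj)^[m] x * (κ hρ hf hinj)^[m] y := fun m x y =>
      Function.Semiconj₂.iterate (fun x y => map_mul _ x y) m x y
    have hiter_smul : ∀ m (c : ℂ) (x : A n), (κ hρ hf hinj)^[m] (c • x)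
        = c • (κ hρ hf hinj)^[m] x := by
      intro m c x
      induction m generalizing x with
      | zero => rfl
      | succ m ih => rw [Function.iterate_succ_apply, Function.iterate_succ_apply, map_smul, ih]
    have hiter_one : ∀ m, (κ hρ hf hinj)^[m] 1 = 1 := fun m =>
      Function.iterate_fixed (map_one _) m
    have hSadd : ∀ x y, x ∈ S → y ∈ S → x + y ∈ S := by
      intro x y hx hy
      have hx' : mk k ((κ hρ hf hinj)^[N] x) = mk k x := hx
      have hy' : mk k ((κ hρ hf hinj)^[N] y) = mk k y := hy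
      change mk k ((κ hρ hf hinj)^[N] (x + y)) = mk k (x + y)
      rw [hiter_add, map_add, map_add, hx', hy']
    have hSmul : ∀ x y, x ∈ S → y ∈ S → x * y ∈ S := by
      intro x y hx hy
      have hx' : mk k ((κ hρ hf hinj)^[N] x) = mk k x := hx
      have hy' : mk k ((κ hρ hf hinj)^[N] y) = mk k y := hy
      change mk k ((κ hρ hf hinj)^[N] (x * y)) = mk k (x * y)
      rw [hiter_mul, map_mul, map_mul, hx', hy']
    have hSsmul : ∀ (c : ℂ) x, x ∈ S → c • x ∈ S := by
      intro c x hx
      have hx' : mk k ((κ hρ hf hinj)^[N] x) = mk k x := hx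
      change mk k ((κ hρ hf hinj)^[N] (c • x)) = mk k (c • x)
      rw [hiter_smul, map_smul, map_smul, hx']
    have hSone : (1 : A n) ∈ S := by
      change mk k ((κ hρ hf hinj)^[N] 1) = mk k 1
      rw [hiter_one]
    have hSzero : (0 : A n) ∈ S := by
      have := hSsmul 0 1 hSone
      rwa [zero_smul] at this
    -- first order approximation
    have hfirst : ∀ q : Q n k, ∃ b ∈ S, tr hk (mk k b) = tr hk q := by
      intro q
      have hq : q ∈ ⨆ g, maxGenEigenspace (quo h hf k).toLinearMap g := by
        rw [iSup_maxGenEigenspace_eq_top]; trivial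
      induction hq using Submodule.iSup_induction' with
      | mem g v hv =>
        by_cases hg : maxGenEigenspace T2 g = ⊥
        · refine ⟨0, hSzero, ?_⟩
          have h1 : tr hk v ∈ maxGenEigenspace T2 g :=
            map_gen (p := (tr hk : Q n k →ₐ[ℂ] Q n 2).toLinearMap) (by
              intro v
              obtain ⟨a, rfl⟩ := mk_surj k v
              rfl) hv
          rw [hg, Submodule.mem_bot] at h1
          rw [h1, map_zero, map_zero]
        · obtain ⟨b, rfl⟩ := mk_surj k v
          refine ⟨b, ?_, rfl⟩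
          change mk k ((κ hρ hf hinj)^[N] b) = mk k b
          rw [KQ_iter]
          have := spec_iter (ρ := ρ) hv N
          rw [hNg g hg, one_smul] at this
          exact this
      | zero => exact ⟨0, hSzero, by rw [map_zero]⟩
      | add x y _ _ hx hy =>
        obtain ⟨b, hb, hb'⟩ := hx
        obtain ⟨c, hc, hc'⟩ := hy
        exact ⟨b + c, hSadd _ _ hb hc, by rw [map_add, map_add, map_add, hb', hc']⟩
    have hX : ∀ i : Fin n, ∃ b ∈ S, (X i : A n) - b ∈ I n 2 := by
      intro i
      obtain ⟨b, hb, hb'⟩ := hfirst (mk k (X i))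
      refine ⟨b, hb, ?_⟩
      rw [tr_mk, tr_mk] at hb'
      exact mk_eq.1 hb'.symm
    -- monomials
    have hmon : ∀ e : Fin n →₀ ℕ, ∃ b ∈ S, b ∈ I n (degree e) ∧
        (monomial e (1 : ℂ) : A n) ∈ I n (degree e) ∧
        (monomial e (1 : ℂ) : A n) - b ∈ I n (degree e + 1) := by
      have hprod : ∀ e e' : Fin n →₀ ℕ,
          (∃ b ∈ S, b ∈ I n (degree e) ∧ (monomial e (1 : ℂ) : A n) ∈ I n (degree e) ∧
            (monomial e (1 : ℂ) : A n) - b ∈ I n (degree e + 1)) →
          (∃ b ∈ S, b ∈ I n (degree e') ∧ (monomial e' (1 : ℂ) : A n) ∈ I n (degree e') ∧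
            (monomial e' (1 : ℂ) : A n) - b ∈ I n (degree e' + 1)) →
          (∃ b ∈ S, b ∈ I n (degree (e + e')) ∧
            (monomial (e + e') (1 : ℂ) : A n) ∈ I n (degree (e + e')) ∧
            (monomial (e + e') (1 : ℂ) : A n) - b ∈ I n (degree (e + e') + 1)) := by
        rintro e e' ⟨b, hb, hb1, hb2, hb3⟩ ⟨c, hc, hc1, hc2, hc3⟩
        have hm : (monomial (e + e') (1 : ℂ) : A n) = monomial e 1 * monomial e' 1 := by
          rw [monomial_mul_monomial, one_mul]
        refine ⟨b * c, hSmul _ _ hb hc, ?_, ?_, ?_⟩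
        · rw [map_add]; exact I_mul hb1 hc1
        · rw [map_add, hm]; exact I_mul hb2 hc2
        · rw [map_add, hm]
          have e1 : (monomial e (1 : ℂ) : A n) * monomial e' 1 - b * c
              = (monomial e 1 - b) * monomial e' 1 + b * (monomial e' 1 - c) := by ring
          rw [e1]
          apply Ideal.add_mem
          · have := I_mul hb3 hc2
            rwa [show degree e + 1 + degree e' = degree e + degree e' + 1 by ring] at this
          · have := I_mul hb1 hc3
            rwa [← add_assoc] at this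
      intro e
      induction e using Finsupp.induction_linear with
      | zero =>
        refine ⟨1, hSone, ?_, ?_, ?_⟩
        · rw [map_zero, mem_I]; simp
        · rw [map_zero, mem_I]; simp
        · have : (monomial (0 : Fin n →₀ ℕ) (1 : ℂ) : A n) = 1 := rfl
          rw [this, sub_self]
          exact Ideal.zero_mem _
      | add e e' h1 h2 => exact hprod e e' h1 h2
      | single i m =>
        induction m with
        | zero =>
          rw [Finsupp.single_zero]
          refine ⟨1, hSone, ?_, ?_, ?_⟩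
          · rw [map_zero, mem_I]; simp
          · rw [map_zero, mem_I]; simp
          · have : (monomial (0 : Fin n →₀ ℕ) (1 : ℂ) : A n) = 1 := rfl
            rw [this, sub_self]
            exact Ideal.zero_mem _
        | succ m ih =>
          rw [Finsupp.single_add]
          refine hprod _ _ ih ?_
          obtain ⟨b, hb, hb'⟩ := hX i
          have hdeg : degree (Finsupp.single i 1 : Fin n →₀ ℕ) = 1 := by
            simp
          rw [hdeg]
          have hXm : (monomial (Finsupp.single i 1) (1 : ℂ) : A n) = X i := rfl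
          rw [hXm]
          refine ⟨b, hb, ?_, X_mem i, hb'⟩
          have h1 : b = X i - (X i - b) := by ring
          rw [h1]
          exact Ideal.sub_mem _ (X_mem i) (I_mono (by norm_num) hb')
    -- all orders
    have hall : ∀ j (a : A n), ∃ b ∈ S, a - b ∈ I n j := by
      intro j
      induction j with
      | zero =>
        intro a
        exact ⟨0, hSzero, by rw [mem_I]; simp⟩
      | succ j ih =>
        intro a
        obtain ⟨b, hb, hab⟩ := ih a
        set c := a - b with hc
        set p : MvPolynomial (Fin n) ℂ := truncTotal (j + 1) c with hp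
        choose B hB hB1 hB2 hB3 using hmon
        have hp2 : (p : A n) = ∑ e ∈ p.support, p.coeff e • (monomial e (1 : ℂ) : A n) := by
          conv_lhs => rw [MvPolynomial.as_sum p]
          rw [← MvPolynomial.coeToMvPowerSeries.ringHom_apply, map_sum]
          apply Finset.sum_congr rfl
          intro e _
          rw [MvPolynomial.coeToMvPowerSeries.ringHom_apply, MvPolynomial.coe_monomial]
          rw [← map_smul, smul_eq_mul, mul_one]
        have hsupp : ∀ e ∈ p.support, degree e = j := by
          intro e he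
          rw [MvPolynomial.mem_support_iff] at he
          by_contra hne
          rcases lt_or_ge (degree e) (j + 1) with hlt | hge
          · rw [hp, coeff_truncTotal _ hlt] at he
            exact he (mem_I_iff.1 hab e (by omega))
          · exact he (coeff_truncTotal_eq_zero _ hge)
        refine ⟨b + ∑ e ∈ p.support, p.coeff e • B e, ?_, ?_⟩
        · apply hSadd _ _ hb
          have : ∀ s : Finset (Fin n →₀ ℕ), (∑ e ∈ s, p.coeff e • B e) ∈ S := by
            intro s
            induction s using Finset.induction_on with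
            | empty => simpa using hSzero
            | insert e s hes ihs =>
              rw [Finset.sum_insert hes]
              exact hSadd _ _ (hSsmul _ _ (hB e)) ihs
          exact this _
        · have e1 : a - (b + ∑ e ∈ p.support, p.coeff e • B e)
              = (c - (p : A n)) + ∑ e ∈ p.support, p.coeff e • ((monomial e (1 : ℂ) : A n) - B e) := by
            rw [hc]
            simp only [smul_sub, Finset.sum_sub_distrib]
            rw [← hp2]
            ring
          rw [e1]
          apply Ideal.add_mem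
          · exact approx (j + 1) c
          · apply Ideal.sum_mem
            intro e he
            have := hB3 e
            rw [hsupp e he] at this
            rw [MvPowerSeries.smul_eq_C_mul]
            exact Ideal.mul_mem_left _ _ this
    obtain ⟨b, hb, hab⟩ := hall k a
    have h1 : mk k a = mk k b := mk_eq.2 hab
    have hb' : mk k ((κ hρ hf hinj)^[N] b) = mk k b := hb
    rw [KQ_iter, h1, ← KQ_iter, hb']
  intro k
  rcases le_or_gt 2 k with hk | hk
  · exact hred k hk
  · have := hred 2 le_rfl
    have h2 := congrArg (tr (show k ≤ 2 by omega)) this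
    rwa [tr_mk, tr_mk] at h2

end main

end Pool.Agent.Rev783
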