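import Mathlib
import Pool.Agent.Helpers.Rev783d

set_option autoImplicit false

namespace Pool.Agent.Rev783e

open Pool.Agent.Rev783

theorem coeff_zero_mem {n : ℕ} {a : MvPowerSeries (Fin n) ℂ} : a 0 = 0 ↔ a ∈ I n 1 := by
  rw [mem_I_one]
  rfl

/-- For every n, if an invertible formal map F in n variables over ℂ satisfies F∘H∘F = H for some invertible formal map H, then some formal map K of finite compositional order also satisfies F∘K∘F = K. -/
theorem finite_order_reverser :
    ∀ (n : ℕ) (F H : Fin n → MvPowerSeries (Fin n) ℂ),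
      (∀ i, F i 0 = 0) →
      (∃ G : Fin n → MvPowerSeries (Fin n) ℂ, (∀ i, G i 0 = 0) ∧
          (∀ i, MvPowerSeries.subst G (F i) = MvPowerSeries.X i) ∧
          (∀ i, MvPowerSeries.subst F (G i) = MvPowerSeries.X i)) →
      (∀ i, H i 0 = 0) →
      (∃ G : Fin n → MvPowerSeries (Fin n) ℂ, (∀ i, G i 0 = 0) ∧
          (∀ i, MvPowerSeries.subst G (H i) = MvPowerSeries.X i) ∧
          (∀ i, MvPowerSeries.subst H (G i) = MvPowerSeries.X i)) →
      (∀ i, MvPowerSeries.subst (fun j => MvPowerSeries.subst F (H j)) (F i) = H i) →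
      ∃ K : Fin n → MvPowerSeries (Fin n) ℂ, (∀ i, K i 0 = 0) ∧
        (∃ k : ℕ, 1 ≤ k ∧
          (fun M : Fin n → MvPowerSeries (Fin n) ℂ => fun i => MvPowerSeries.subst M (K i))^[k]
              (fun i => MvPowerSeries.X i) = (fun i => MvPowerSeries.X i)) ∧
        (∀ i, MvPowerSeries.subst (fun j => MvPowerSeries.subst F (K j)) (F i) = K i) := by
  rintro n F H hF0 - hH0 ⟨G, hG0, hG1, -⟩ hrel
  have hF : ∀ i, F i ∈ I n 1 := fun i => coeff_zero_mem.1 (hF0 i)
  have hH : ∀ i, H i ∈ I n 1 := fun i => coeff_zero_mem.1 (hH0 i)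
  have hG : ∀ i, G i ∈ I n 1 := fun i => coeff_zero_mem.1 (hG0 i)
  let f : A n →ₐ[ℂ] A n := MvPowerSeries.substAlgHom (hasSubst_of hF)
  let h : A n →ₐ[ℂ] A n := MvPowerSeries.substAlgHom (hasSubst_of hH)
  let g : A n →ₐ[ℂ] A n := MvPowerSeries.substAlgHom (hasSubst_of hG)
  have hf : Filt f := filt_subst hF
  have hh : Filt h := filt_subst hH
  have hg : Filt g := filt_subst hG
  have fa : ∀ a, f a = MvPowerSeries.subst F a := fun a => MvPowerSeries.substAlgHom_apply _ a
  have ha : ∀ a, h a = MvPowerSeries.subst H a := fun a => MvPowerSeries.substAlgHom_apply _ a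
  have ga : ∀ a, g a = MvPowerSeries.subst G a := fun a => MvPowerSeries.substAlgHom_apply _ a
  have fX : ∀ i, f (MvPowerSeries.X i) = F i := fun i => by
    rw [fa, MvPowerSeries.subst_X (hasSubst_of hF)]
  have hX : ∀ i, h (MvPowerSeries.X i) = H i := fun i => by
    rw [ha, MvPowerSeries.subst_X (hasSubst_of hH)]
  have hcomp : ∀ {ψ φ : A n →ₐ[ℂ] A n}, Filt ψ → Filt φ → Filt (ψ.comp φ) :=
    fun hψ hφ k a ha => hψ k _ (hφ k a ha)
  -- two filtered endomorphisms agreeing on the variables are equal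
  have hext : ∀ {ψ φ : A n →ₐ[ℂ] A n}, Filt ψ → Filt φ →
      (∀ i, ψ (MvPowerSeries.X i) = φ (MvPowerSeries.X i)) → ∀ a, ψ a = φ a := by
    intro ψ φ hψ hφ hX a
    rw [← subst_eq hψ, ← subst_eq hφ]
    simp only [hX]
  have hgh : ∀ a, g (h a) = a := by
    have hid : Filt (AlgHom.id ℂ (A n)) := fun k a ha => ha
    exact hext (hcomp hg hh) hid (fun i => by
      rw [AlgHom.comp_apply, hX, ga, hG1]; rfl)
  have hinj := fun k => quo_inj hh hg hgh k
  have hrel' : ∀ a, f (h (f a)) = h a := by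
    apply hext (ψ := (f.comp h).comp f) (hcomp (hcomp hf hh) hf) hh
    intro i
    rw [AlgHom.comp_apply, AlgHom.comp_apply, fX, hX, ← hrel i, fa, ha,
      MvPowerSeries.subst_comp_subst_apply (hasSubst_of hH) (hasSubst_of hF)]
  obtain ⟨ρ, hρ, htor⟩ := exists_rho
  have hκf := κ_filt hρ hh hinj
  obtain ⟨N, hN1, hN⟩ := κ_finite hρ hh hinj htor
  set k := κ hρ hh hinj with hk
  have hK : ∀ i, k (MvPowerSeries.X i) ∈ I n 1 := fun i => hκf 1 _ (X_mem i)
  refine ⟨fun i => k (MvPowerSeries.X i), fun i => coeff_zero_mem.2 (hK i), ⟨N, hN1, ?_⟩, ?_⟩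
  · have hiter : ∀ m, (fun M : Fin n → MvPowerSeries (Fin n) ℂ =>
        fun i => MvPowerSeries.subst M (k (MvPowerSeries.X i)))^[m]
          (fun i => MvPowerSeries.X i) = fun i => k^[m] (MvPowerSeries.X i) := by
      intro m
      induction m with
      | zero => rfl
      | succ m ih =>
        rw [Function.iterate_succ_apply', ih]
        funext i
        -- the iterate of `k` as an algebra homomorphism
        have hpow : ∃ ψ : A n →ₐ[ℂ] A n, Filt ψ ∧ ∀ a, ψ a = k^[m] a := by
          clear ih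
          induction m with
          | zero => exact ⟨AlgHom.id ℂ _, fun k a ha => ha, fun a => rfl⟩
          | succ m ih =>
            obtain ⟨ψ, hψ, hψ'⟩ := ih
            exact ⟨k.comp ψ, hcomp hκf hψ, fun a => by
              rw [AlgHom.comp_apply, hψ', Function.iterate_succ_apply']⟩
        obtain ⟨ψ, hψ, hψ'⟩ := hpow
        simp only [← hψ']
        rw [subst_eq hψ, hψ', Function.iterate_succ_apply]
    rw [hiter]
    funext i
    exact hN _
  · intro i
    rw [← MvPowerSeries.subst_comp_subst_apply (hasSubst_of hK) (hasSubst_of hF), subst_eq hκf,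
      ← fa, ← fX i]
    exact κ_reverses hρ hh hinj hf hrel' _

end Pool.Agent.Rev783e
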