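import Mathlib

/-!
# Embeddings of a finite connected graph in orientable surfaces (rotation systems)

By the Heffter-Edmonds-Ringel principle the cellular embeddings of a connected graph `G` in
closed oriented surfaces correspond to rotation systems: at every vertex, a cyclic order of the
darts (edges with a direction) leaving it.
-/

set_option autoImplicit false

namespace Pool.Agent.H12.Rot

open Equiv

/-- `σ` is a rotation system of `G`: it maps every dart to a dart with the same tail, and the
darts with a given tail form one cycle of `σ`. -/
def IsRotation {V : Type} (G : SimpleGraph V) (σ : Perm G.Dart) : Prop :=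
  (∀ d : G.Dart, (σ d).fst = d.fst) ∧ ∀ d e : G.Dart, d.fst = e.fst → σ.SameCycle d e

/-- The face permutation: a region perimeter which has traversed the dart `d` continues with the
dart following the reversed dart `d.symm` in the rotation at the head of `d`.
Its cycles are the perimeters of the regions. -/
def facePerm {V : Type} (G : SimpleGraph V) (σ : Perm G.Dart) : Perm G.Dart :=
  (Function.Involutive.toPerm SimpleGraph.Dart.symm SimpleGraph.Dart.symm_involutive).trans σ

/-- The number of regions: the number of cycles of the face permutation. -/
noncomputable def numFaces {V : Type} (G : SimpleGraph V) (σ : Perm G.Dart) : ℕ :=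
  Nat.card (Quotient (Perm.SameCycle.setoid (facePerm G σ)))

/-- `σ` embeds `G` in the closed orientable surface of genus `g`: Euler's formula
`|V| - |E| + |F| = 2 - 2 g`. -/
def HasGenus {V : Type} (G : SimpleGraph V) (σ : Perm G.Dart) (g : ℕ) : Prop :=
  (Nat.card V : ℤ) - (Nat.card G.edgeSet : ℤ) + (numFaces G σ : ℤ) = 2 - 2 * (g : ℤ)

/-- `g` is the genus of the (connected) graph `G`. -/
def IsGenus {V : Type} (G : SimpleGraph V) (g : ℕ) : Prop :=
  IsLeast {k : ℕ | ∃ σ : Perm G.Dart, IsRotation G σ ∧ HasGenus G σ k} g

/-- Some region perimeter of the embedding traverses some edge twice (that is, both darts of the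
edge lie on the same perimeter). -/
def SomeEdgeTwice {V : Type} (G : SimpleGraph V) (σ : Perm G.Dart) : Prop :=
  ∃ d : G.Dart, (facePerm G σ).SameCycle d d.symm

end Pool.Agent.H12.Rot
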