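import Mathlib
import Pool.Agent.Helpers.RotDefs

set_option autoImplicit false

namespace Pool.Agent.H12.Rot

open Equiv

/-- The counterexample: two copies of `K_{2,3}` joined by three edges. -/
def Gr : SimpleGraph (Fin 10) where
  Adj u v := Nat.testBit 277570294662885927373996322844 (10 * u.val + v.val) = true
  symm := ⟨by decide⟩
  loopless := ⟨by decide⟩

instance : DecidableRel Gr.Adj := fun u v =>
  inferInstanceAs (Decidable (Nat.testBit _ (10 * u.val + v.val) = true))

/-- head of dart `n` -/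
def hdN (n : ℕ) : ℕ := (614463648117635810597108870426076210 >>> (4 * n)) % 16
/-- reverse of dart `n` -/
def rvN (n : ℕ) : ℕ := (1054481440586517525395838686635591870678544678 >>> (5 * n)) % 32

def tl (n : Fin 30) : Fin 10 := ⟨n.val / 3, by omega⟩

theorem hd_lt : ∀ n : Fin 30, hdN n.val < 10 := by decide
theorem rv_lt : ∀ n : Fin 30, rvN n.val < 30 := by decide

def hd (n : Fin 30) : Fin 10 := ⟨hdN n.val, hd_lt n⟩
def rv (n : Fin 30) : Fin 30 := ⟨rvN n.val, rv_lt n⟩

theorem dart_adj : ∀ n : Fin 30, Gr.Adj (tl n) (hd n) := by decide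

def dart (n : Fin 30) : Gr.Dart := ⟨(tl n, hd n), dart_adj n⟩

theorem dart_surj_aux : ∀ u v : Fin 10, Gr.Adj u v → ∃ n : Fin 30, tl n = u ∧ hd n = v := by
  decide +kernel

theorem dart_inj_aux : ∀ m n : Fin 30, tl m = tl n → hd m = hd n → m = n := by
  decide +kernel

theorem rv_spec : ∀ n : Fin 30, tl (rv n) = hd n ∧ hd (rv n) = tl n := by decide +kernel

theorem dart_surj : Function.Surjective dart := by
  intro d
  obtain ⟨n, h1, h2⟩ := dart_surj_aux d.fst d.snd d.adj
  refine ⟨n, ?_⟩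
  apply SimpleGraph.Dart.ext
  exact Prod.ext h1 h2

theorem dart_inj : Function.Injective dart := by
  intro m n h
  have h1 : (dart m).toProd = (dart n).toProd := by rw [h]
  exact dart_inj_aux m n (congrArg Prod.fst h1) (congrArg Prod.snd h1)

theorem dart_symm (n : Fin 30) : (dart n).symm = dart (rv n) := by
  apply SimpleGraph.Dart.ext
  exact Prod.ext (rv_spec n).1.symm (rv_spec n).2.symm

def idx (v : Fin 10) (i : Fin 3) : Fin 30 := ⟨3 * v.val + i.val, by omega⟩

theorem idx_tl : ∀ (v : Fin 10) (i : Fin 3), tl (idx v i) = v := by decide +kernel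
theorem idx_surj : ∀ (n : Fin 30), ∃ i : Fin 3, idx (tl n) i = n := by decide +kernel
theorem idx_inj : ∀ (v : Fin 10) (i j : Fin 3), idx v i = idx v j → i = j := by decide +kernel

/-- bit of a natural number as a rotation amount -/
def amt (m v : ℕ) : ℕ := if Nat.testBit m v then 1 else 2

/-- the face permutation on dart indices -/
def stepN (m n : ℕ) : ℕ := 3 * (rvN n / 3) + (rvN n % 3 + amt m (rvN n / 3)) % 3

theorem fin3_rot : ∀ t : Fin 3 → Fin 3, (∀ i j, t i = t j → i = j) → (∀ i, t i ≠ i) →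
    ∀ i : Fin 3, (t i).val = (i.val + (if t 0 = 1 then 1 else 2)) % 3 := by
  decide +kernel

theorem ne_succ3 : ∀ i : Fin 3, i ≠ i + 1 := by decide

theorem rot_form (σ : Perm Gr.Dart) (h : IsRotation Gr σ) :
    ∃ m : ℕ, m < 1024 ∧ ∀ (v : Fin 10) (i : Fin 3),
      ∃ j : Fin 3, σ (dart (idx v i)) = dart (idx v j) ∧ j.val = (i.val + amt m v.val) % 3 := by
  have h1 : ∀ (v : Fin 10) (i : Fin 3), ∃ j : Fin 3, σ (dart (idx v i)) = dart (idx v j) := by
    intro v i
    obtain ⟨n, hn⟩ := dart_surj (σ (dart (idx v i)))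
    have h2 : tl n = v := by
      have h3 := h.1 (dart (idx v i))
      rw [← hn] at h3
      have h4 : tl n = tl (idx v i) := h3
      rw [h4, idx_tl]
    obtain ⟨j, hj⟩ := idx_surj n
    refine ⟨j, ?_⟩
    rw [← hn, ← hj, h2]
  choose t ht using h1
  have hinj : ∀ v : Fin 10, ∀ i j, t v i = t v j → i = j := by
    intro v i j hij
    have h2 : σ (dart (idx v i)) = σ (dart (idx v j)) := by
      rw [ht, ht, hij]
    exact idx_inj v i j (dart_inj (σ.injective h2))
  have hfix : ∀ v : Fin 10, ∀ i, t v i ≠ i := by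
    intro v i hi
    have hfp : σ (dart (idx v i)) = dart (idx v i) := by rw [ht, hi]
    have hne : i ≠ i + 1 := ne_succ3 i
    have hsc : σ.SameCycle (dart (idx v i)) (dart (idx v (i + 1))) := by
      apply h.2
      show tl (idx v i) = tl (idx v (i + 1))
      rw [idx_tl, idx_tl]
    obtain ⟨k, hk⟩ := hsc
    have h3 : (σ ^ k) (dart (idx v i)) = dart (idx v i) :=
      Perm.zpow_apply_eq_self_of_apply_eq_self hfp k
    rw [h3] at hk
    exact hne (idx_inj v _ _ (dart_inj hk))
  let f : Fin 10 → Bool := fun v => decide (t v 0 = 1)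
  refine ⟨Nat.ofBits f, Nat.ofBits_lt_two_pow f, ?_⟩
  intro v i
  refine ⟨t v i, ht v i, ?_⟩
  rw [fin3_rot (t v) (hinj v) (hfix v) i]
  have hb : Nat.testBit (Nat.ofBits f) v.val = f v := Nat.testBit_ofBits_lt f v.val v.isLt
  unfold amt
  rw [hb]
  by_cases hc : t v 0 = 1
  · simp [f, hc]
  · simp [f, hc]

theorem face_form (σ : Perm Gr.Dart) (m : ℕ)
    (h : ∀ (v : Fin 10) (i : Fin 3),
      ∃ j : Fin 3, σ (dart (idx v i)) = dart (idx v j) ∧ j.val = (i.val + amt m v.val) % 3)
    (n : Fin 30) : ∃ n' : Fin 30, facePerm Gr σ (dart n) = dart n' ∧ n'.val = stepN m n.val := by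
  have h0 : facePerm Gr σ (dart n) = σ (dart (rv n)) := by
    show σ ((dart n).symm) = _
    rw [dart_symm]
  obtain ⟨i, hi⟩ := idx_surj (rv n)
  obtain ⟨j, hj1, hj2⟩ := h (tl (rv n)) i
  rw [hi] at hj1
  refine ⟨idx (tl (rv n)) j, by rw [h0, hj1], ?_⟩
  have hi' : 3 * (tl (rv n)).val + i.val = rvN n.val := congrArg Fin.val hi
  have ht : (tl (rv n)).val = rvN n.val / 3 := rfl
  show 3 * (tl (rv n)).val + j.val = stepN m n.val
  unfold stepN
  have hmod : i.val = rvN n.val % 3 := by omega
  rw [hj2, ht, hmod]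

/-! ### The checker -/

def iter (m s : ℕ) : ℕ → ℕ → List ℕ
  | 0, x => [x]
  | k + 1, x => if Nat.beq (stepN m x) s then [x] else x :: iter m s k (stepN m x)

theorem iter_mem (m s : ℕ) : ∀ (k x y : ℕ), y ∈ iter m s k x → ∃ j, y = (stepN m)^[j] x := by
  intro k
  induction k with
  | zero =>
    intro x y hy
    simp [iter] at hy
    exact ⟨0, by simp [hy]⟩
  | succ k ih =>
    intro x y hy
    unfold iter at hy
    split_ifs at hy with hc
    · simp at hy
      exact ⟨0, by simp [hy]⟩
    · rcases List.mem_cons.1 hy with h1 | h1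
      · exact ⟨0, by simp [h1]⟩
      · obtain ⟨j, hj⟩ := ih _ _ h1
        exact ⟨j + 1, by rw [hj, Function.iterate_succ_apply]⟩

theorem iter_head (m s k x : ℕ) : x ∈ iter m s k x := by
  cases k with
  | zero => simp [iter]
  | succ k =>
    unfold iter
    split_ifs <;> simp

def memB (x : ℕ) : List ℕ → Bool
  | [] => false
  | y :: l => Nat.beq x y || memB x l

theorem memB_iff (x : ℕ) (l : List ℕ) : memB x l = true ↔ x ∈ l := by
  induction l with
  | nil => simp [memB]
  | cons y l ih =>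
    simp only [memB, Bool.or_eq_true, List.mem_cons, ih, Nat.beq_eq]

def memLL (x : ℕ) : List (List ℕ) → Bool
  | [] => false
  | l :: L => memB x l || memLL x L

theorem memLL_iff (x : ℕ) (L : List (List ℕ)) : memLL x L = true ↔ ∃ l ∈ L, x ∈ l := by
  induction L with
  | nil => simp [memLL]
  | cons y l ih =>
    simp only [memLL, Bool.or_eq_true, List.mem_cons, ih, memB_iff]
    constructor
    · rintro (h | ⟨l', h1, h2⟩)
      · exact ⟨y, Or.inl rfl, h⟩
      · exact ⟨l', Or.inr h1, h2⟩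
    · rintro ⟨l', rfl | h1, h2⟩
      · exact Or.inl h2
      · exact Or.inr ⟨l', h1, h2⟩

/-- process the darts `n-1, ..., 0` -/
def faces (m : ℕ) : ℕ → List (List ℕ)
  | 0 => []
  | n + 1 => if memLL n (faces m n) then faces m n else iter m n 30 n :: faces m n

theorem faces_cover (m : ℕ) : ∀ n x : ℕ, x < n → ∃ l ∈ faces m n, x ∈ l := by
  intro n
  induction n with
  | zero => intro x hx; omega
  | succ n ih =>
    intro x hx
    unfold faces
    split_ifs with hc
    · rcases Nat.lt_succ_iff_lt_or_eq.1 hx with h1 | h1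
      · exact ih x h1
      · subst h1
        exact (memLL_iff _ _).1 hc
    · rcases Nat.lt_succ_iff_lt_or_eq.1 hx with h1 | h1
      · obtain ⟨l, hl, hx'⟩ := ih x h1
        exact ⟨l, List.mem_cons_of_mem _ hl, hx'⟩
      · subst h1
        exact ⟨_, List.mem_cons_self, iter_head _ _ _ _⟩

theorem faces_form (m : ℕ) : ∀ n : ℕ, ∀ l ∈ faces m n, ∃ s : ℕ, s < n ∧ l = iter m s 30 s := by
  intro n
  induction n with
  | zero => intro l hl; simp [faces] at hl
  | succ n ih =>
    intro l hl
    unfold faces at hl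
    split_ifs at hl with hc
    · obtain ⟨s, hs, h⟩ := ih l hl
      exact ⟨s, by omega, h⟩
    · rcases List.mem_cons.1 hl with h1 | h1
      · exact ⟨n, by omega, h1⟩
      · obtain ⟨s, hs, h⟩ := ih l h1
        exact ⟨s, by omega, h⟩

def badL (l l0 : List ℕ) : Bool :=
  match l with
  | [] => false
  | x :: l' => memB (rvN x) l0 || badL l' l0

theorem badL_spec (l l0 : List ℕ) (h : badL l l0 = true) : ∃ x ∈ l, rvN x ∈ l0 := by
  induction l with
  | nil => simp [badL] at h
  | cons x l ih =>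
    simp only [badL, Bool.or_eq_true, memB_iff] at h
    rcases h with h | h
    · exact ⟨x, List.mem_cons_self, h⟩
    · obtain ⟨y, hy, h2⟩ := ih h
      exact ⟨y, List.mem_cons_of_mem _ hy, h2⟩

def badLL : List (List ℕ) → Bool
  | [] => false
  | l :: L => badL l l || badLL L

theorem badLL_spec (L : List (List ℕ)) (h : badLL L = true) :
    ∃ l ∈ L, ∃ x ∈ l, rvN x ∈ l := by
  induction L with
  | nil => simp [badLL] at h
  | cons l L ih =>
    simp only [badLL, Bool.or_eq_true] at h
    rcases h with h | h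
    · exact ⟨l, List.mem_cons_self, badL_spec _ _ h⟩
    · obtain ⟨l', hl, h2⟩ := ih h
      exact ⟨l', List.mem_cons_of_mem _ hl, h2⟩

def len : List (List ℕ) → ℕ
  | [] => 0
  | _ :: L => len L + 1

theorem len_eq (L : List (List ℕ)) : len L = L.length := by
  induction L with
  | nil => rfl
  | cons l L ih => simp [len, ih]

def checkL (L : List (List ℕ)) : Bool :=
  Nat.ble (len L) 5 && (Nat.ble (len L) 4 || badLL L)

def checkAll : ℕ → Bool
  | 0 => true
  | m + 1 => checkL (faces m 30) && checkAll m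

theorem checkAll_spec : ∀ n m : ℕ, checkAll n = true → m < n → checkL (faces m 30) = true := by
  intro n
  induction n with
  | zero => intro m _ hm; omega
  | succ n ih =>
    intro m h hm
    simp only [checkAll, Bool.and_eq_true] at h
    rcases Nat.lt_succ_iff_lt_or_eq.1 hm with h1 | h1
    · exact ih m h.2 h1
    · subst h1
      exact h.1

theorem checkAll_1024 : checkAll 1024 = true := by decide +kernel

/-! ### Consequences for rotation systems -/

section main
variable (σ : Perm Gr.Dart) (m : ℕ)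
  (hf : ∀ n : Fin 30, ∃ n' : Fin 30, facePerm Gr σ (dart n) = dart n' ∧ n'.val = stepN m n.val)
include hf

theorem iter_face : ∀ (j : ℕ) (n : ℕ) (hn : n < 30), ∃ h' : (stepN m)^[j] n < 30,
    ((facePerm Gr σ) ^ j) (dart ⟨n, hn⟩) = dart ⟨(stepN m)^[j] n, h'⟩ := by
  intro j
  induction j with
  | zero => intro n hn; exact ⟨hn, rfl⟩
  | succ j ih =>
    intro n hn
    obtain ⟨h1, h2⟩ := ih n hn
    obtain ⟨n', h3, h4⟩ := hf ⟨_, h1⟩
    have h5 : (stepN m)^[j + 1] n = n'.val := by
      rw [Function.iterate_succ_apply', h4]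
    refine ⟨by rw [h5]; exact n'.isLt, ?_⟩
    rw [pow_succ', Perm.mul_apply, h2, h3]
    congr 1
    exact Fin.ext h5.symm

theorem same_of_iter (s : ℕ) (hs : s < 30) (x : ℕ) (k : ℕ) (hx : x ∈ iter m s k s) :
    ∃ hx' : x < 30, (facePerm Gr σ).SameCycle (dart ⟨s, hs⟩) (dart ⟨x, hx'⟩) := by
  obtain ⟨j, hj⟩ := iter_mem m s k s x hx
  obtain ⟨h1, h2⟩ := iter_face σ m hf j s hs
  subst hj
  refine ⟨h1, (j : ℤ), ?_⟩
  rw [zpow_natCast, h2]

theorem numFaces_le : numFaces Gr σ ≤ (faces m 30).length := by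
  have hform := faces_form m 30
  have hsel : ∀ i : Fin (faces m 30).length, ∃ s : Fin 30,
      (faces m 30).get i = iter m s.val 30 s.val := by
    intro i
    obtain ⟨s, hs, h⟩ := hform _ (List.get_mem (faces m 30) i)
    exact ⟨⟨s, hs⟩, h⟩
  choose s hs using hsel
  let g : Fin (faces m 30).length → Quotient (Perm.SameCycle.setoid (facePerm Gr σ)) :=
    fun i => Quotient.mk _ (dart (s i))
  have hg : Function.Surjective g := by
    intro q
    obtain ⟨d, rfl⟩ := Quotient.exists_rep q
    obtain ⟨n, rfl⟩ := dart_surj d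
    obtain ⟨l, hl, hn⟩ := faces_cover m 30 n.val n.isLt
    obtain ⟨i, hi⟩ := List.get_of_mem hl
    refine ⟨i, ?_⟩
    apply Quotient.sound
    have h1 : n.val ∈ iter m (s i).val 30 (s i).val := by
      rw [← hs i, hi]; exact hn
    obtain ⟨_, h2⟩ := same_of_iter σ m hf (s i).val (s i).isLt n.val 30 h1
    exact h2
  have h2 := Nat.card_le_card_of_surjective g hg
  rw [Nat.card_fin] at h2
  exact h2

theorem twice_of_bad (hb : badLL (faces m 30) = true) : SomeEdgeTwice Gr σ := by
  obtain ⟨l, hl, x, hx, hrx⟩ := badLL_spec _ hb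
  obtain ⟨s, hs, rfl⟩ := faces_form m 30 l hl
  obtain ⟨h1, h2⟩ := same_of_iter σ m hf s hs x 30 hx
  obtain ⟨h3, h4⟩ := same_of_iter σ m hf s hs (rvN x) 30 hrx
  refine ⟨dart ⟨x, h1⟩, ?_⟩
  rw [dart_symm]
  have h5 : rv ⟨x, h1⟩ = ⟨rvN x, h3⟩ := rfl
  rw [h5]
  exact h2.symm.trans h4

end main

theorem rot_main (σ : Perm Gr.Dart) (h : IsRotation Gr σ) :
    numFaces Gr σ ≤ 5 ∧ (numFaces Gr σ ≤ 4 ∨ SomeEdgeTwice Gr σ) := by
  obtain ⟨m, hm, hform⟩ := rot_form σ h
  have hf := face_form σ m hform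
  have hc := checkAll_spec 1024 m checkAll_1024 hm
  have hle := numFaces_le σ m hf
  simp only [checkL, Bool.and_eq_true, Bool.or_eq_true, Nat.ble_eq, len_eq] at hc
  refine ⟨hle.trans hc.1, ?_⟩
  rcases hc.2 with h1 | h1
  · exact Or.inl (hle.trans h1)
  · exact Or.inr (twice_of_bad σ m hf h1)

/-! ### A torus embedding -/

def tauN (n : ℕ) : ℕ := 3 * (n / 3) + (n % 3 + amt 293 (n / 3)) % 3
def tauInvN (n : ℕ) : ℕ := 3 * (n / 3) + (n % 3 + (3 - amt 293 (n / 3))) % 3

theorem tau_lt : ∀ n : Fin 30, tauN n.val < 30 := by decide +kernel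
theorem tauInv_lt : ∀ n : Fin 30, tauInvN n.val < 30 := by decide +kernel
theorem tau_left : ∀ n : Fin 30, tauInvN (tauN n.val) = n.val := by decide +kernel
theorem tau_right : ∀ n : Fin 30, tauN (tauInvN n.val) = n.val := by decide +kernel
theorem tau_div : ∀ n : Fin 30, tauN n.val / 3 = n.val / 3 := by decide +kernel

def tau : Perm (Fin 30) where
  toFun n := ⟨tauN n.val, tau_lt n⟩
  invFun n := ⟨tauInvN n.val, tauInv_lt n⟩
  left_inv n := Fin.ext (tau_left n)
  right_inv n := Fin.ext (tau_right n)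

theorem tau_cyc : ∀ n n' : Fin 30, tl n = tl n' →
    n = n' ∨ tau n = n' ∨ tau (tau n) = n' := by decide +kernel

noncomputable def eD : Fin 30 ≃ Gr.Dart := Equiv.ofBijective dart ⟨dart_inj, dart_surj⟩

noncomputable def sig : Perm Gr.Dart := (eD.symm.trans tau).trans eD

theorem sig_dart (n : Fin 30) : sig (dart n) = dart (tau n) := by
  have h : eD.symm (dart n) = n := by
    apply eD.symm_apply_eq.2
    rfl
  show eD (tau (eD.symm (dart n))) = dart (tau n)
  rw [h]
  rfl

theorem sig_rot : IsRotation Gr sig := by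
  constructor
  · intro d
    obtain ⟨n, rfl⟩ := dart_surj d
    rw [sig_dart]
    show tl (tau n) = tl n
    exact Fin.ext (tau_div n)
  · intro d e hde
    obtain ⟨n, rfl⟩ := dart_surj d
    obtain ⟨n', rfl⟩ := dart_surj e
    have h1 : tl n = tl n' := hde
    rcases tau_cyc n n' h1 with h | h | h
    · exact ⟨0, by rw [h]; rfl⟩
    · refine ⟨1, ?_⟩
      rw [zpow_one, sig_dart, h]
    · refine ⟨2, ?_⟩
      have h2 : (sig ^ (2 : ℤ)) (dart n) = sig (sig (dart n)) := rfl
      rw [h2, sig_dart, sig_dart, h]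

def colN (n : ℕ) : ℕ := (660811682372276957095405192 >>> (3 * n)) % 8
theorem col_lt : ∀ n : Fin 30, colN n.val < 5 := by decide +kernel
def col (n : Fin 30) : Fin 5 := ⟨colN n.val, col_lt n⟩
theorem col_inv : ∀ n : Fin 30, col (tau (rv n)) = col n := by decide +kernel
theorem col_surj : ∀ c : Fin 5, ∃ n : Fin 30, col n = c := by decide +kernel

theorem face_sig (n : Fin 30) : facePerm Gr sig (dart n) = dart (tau (rv n)) := by
  show sig ((dart n).symm) = _
  rw [dart_symm, sig_dart]

noncomputable def colD (d : Gr.Dart) : Fin 5 := col (eD.symm d)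

theorem colD_dart (n : Fin 30) : colD (dart n) = col n := by
  unfold colD
  congr 1
  apply eD.symm_apply_eq.2
  rfl

theorem colD_inv (d : Gr.Dart) : colD (facePerm Gr sig d) = colD d := by
  obtain ⟨n, rfl⟩ := dart_surj d
  rw [face_sig, colD_dart, colD_dart, col_inv]

theorem colD_pow (d : Gr.Dart) (k : ℕ) : colD (((facePerm Gr sig) ^ k) d) = colD d := by
  induction k with
  | zero => rfl
  | succ k ih => rw [pow_succ', Perm.mul_apply, colD_inv, ih]

theorem colD_same (d e : Gr.Dart) (h : (facePerm Gr sig).SameCycle d e) : colD d = colD e := by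
  obtain ⟨k, hk⟩ := h
  rcases Int.eq_nat_or_neg k with ⟨j, rfl | rfl⟩
  · rw [zpow_natCast] at hk
    rw [← hk, colD_pow]
  · rw [zpow_neg, zpow_natCast, Perm.inv_eq_iff_eq] at hk
    rw [hk, colD_pow]

theorem numFaces_sig : numFaces Gr sig = 5 := by
  apply le_antisymm (rot_main sig sig_rot).1
  let g : Quotient (Perm.SameCycle.setoid (facePerm Gr sig)) → Fin 5 :=
    Quotient.lift colD (fun d e h => colD_same d e h)
  have hg : Function.Surjective g := by
    intro c
    obtain ⟨n, hn⟩ := col_surj c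
    exact ⟨Quotient.mk _ (dart n), by rw [← hn]; exact colD_dart n⟩
  have h2 := Nat.card_le_card_of_surjective g hg
  rw [Nat.card_fin] at h2
  exact h2

/-! ### Elementary properties of the graph -/

theorem card_edges : Nat.card Gr.edgeSet = 15 := by
  rw [Nat.card_eq_fintype_card, ← SimpleGraph.edgeFinset_card]
  decide +kernel

theorem cubic : ∀ v : Fin 10, (Gr.neighborSet v).ncard = 3 := by
  intro v
  rw [Set.ncard_eq_toFinset_card']
  revert v
  decide +kernel

def chainOK (b a : Fin 10) : Fin 10 → List (Fin 10) → Bool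
  | _, [] => true
  | x, y :: l => decide (Gr.Adj x y) && !(decide (x = a) && decide (y = b)) &&
      !(decide (x = b) && decide (y = a)) && chainOK b a y l

def lastOf : Fin 10 → List (Fin 10) → Fin 10
  | x, [] => x
  | _, y :: l => lastOf y l

theorem reach_of_chain (a b : Fin 10) : ∀ (l : List (Fin 10)) (x : Fin 10),
    chainOK b a x l = true →
    (Gr \ SimpleGraph.fromEdgeSet {s(a, b)}).Reachable x (lastOf x l) := by
  intro l
  induction l with
  | nil => intro x _; exact SimpleGraph.Reachable.refl _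
  | cons y l ih =>
    intro x h
    simp only [chainOK, Bool.and_eq_true, decide_eq_true_eq, Bool.not_eq_true',
      Bool.and_eq_false_iff, decide_eq_false_iff_not] at h
    obtain ⟨⟨⟨h1, h2⟩, h3⟩, h4⟩ := h
    have hadj : (Gr \ SimpleGraph.fromEdgeSet {s(a, b)}).Adj x y := by
      rw [SimpleGraph.sdiff_adj]
      refine ⟨h1, ?_⟩
      rw [SimpleGraph.fromEdgeSet_adj]
      rintro ⟨h5, _⟩
      rw [Set.mem_singleton_iff, Sym2.eq_iff] at h5
      rcases h5 with ⟨h6, h7⟩ | ⟨h6, h7⟩
      · rcases h2 with h2 | h2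
        · exact h2 h6
        · exact h2 h7
      · rcases h3 with h3 | h3
        · exact h3 h6
        · exact h3 h7
    exact hadj.reachable.trans (ih y h4)

/-- detours avoiding an edge -/
def detour (a b : Fin 10) : List (Fin 10) :=
  match a.val, b.val with
  | 0, 2 => [3, 1, 2]
  | 0, 3 => [2, 1, 3]
  | 0, 4 => [2, 1, 4]
  | 1, 2 => [3, 0, 2]
  | 1, 3 => [2, 0, 3]
  | 1, 4 => [2, 0, 4]
  | 2, 5 => [0, 3, 6, 8, 5]
  | 3, 6 => [0, 2, 5, 8, 6]
  | 4, 7 => [0, 2, 5, 8, 7]
  | 5, 8 => [9, 6, 8]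
  | 5, 9 => [8, 6, 9]
  | 6, 8 => [9, 5, 8]
  | 6, 9 => [8, 5, 9]
  | 7, 8 => [9, 5, 8]
  | 7, 9 => [8, 5, 9]
  | _, _ => []

theorem detour_ok : ∀ a b : Fin 10, Gr.Adj a b → a < b →
    chainOK b a a (detour a b) = true ∧ lastOf a (detour a b) = b := by
  decide +kernel

theorem no_bridge (e : Sym2 (Fin 10)) (he : e ∈ Gr.edgeSet) : ¬ Gr.IsBridge e := by
  induction e using Sym2.ind with
  | _ x y =>
    intro hb
    wlog hxy : x < y generalizing x y with H
    · have hadj : Gr.Adj x y := he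
      have hne : x ≠ y := hadj.ne
      have hlt : y < x := lt_of_le_of_ne (not_lt.1 hxy) hne.symm
      exact H y x (by rwa [Sym2.eq_swap]) (by rwa [Sym2.eq_swap]) hlt
    · have h1 := SimpleGraph.isBridge_iff.1 hb
      have hadj : Gr.Adj x y := he
      obtain ⟨h2, h3⟩ := detour_ok x y hadj hxy
      have h4 := reach_of_chain x y (detour x y) x h2
      rw [h3] at h4
      apply h1
      rw [SimpleGraph.deleteEdges]
      exact h4

def cpath (v : Fin 10) : List (Fin 10) :=
  match v.val with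
  | 1 => [2, 1]
  | 2 => [2]
  | 3 => [3]
  | 4 => [4]
  | 5 => [2, 5]
  | 6 => [3, 6]
  | 7 => [4, 7]
  | 8 => [2, 5, 8]
  | 9 => [2, 5, 9]
  | _ => []

theorem cpath_ok : ∀ v : Fin 10,
    chainOK 0 0 0 (cpath v) = true ∧ lastOf 0 (cpath v) = v := by
  decide +kernel

theorem conn : Gr.Connected := by
  have h0 : ∀ v : Fin 10, Gr.Reachable 0 v := by
    intro v
    obtain ⟨h2, h3⟩ := cpath_ok v
    have h4 := reach_of_chain 0 0 (cpath v) 0 h2
    rw [h3] at h4
    exact h4.mono sdiff_le
  exact ⟨fun u v => (h0 u).symm.trans (h0 v)⟩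

theorem genus_one : IsGenus Gr 1 := by
  constructor
  · refine ⟨sig, sig_rot, ?_⟩
    unfold HasGenus
    rw [numFaces_sig, card_edges, Nat.card_fin]
    norm_num
  · rintro k ⟨σ, h1, h2⟩
    have h3 := (rot_main σ h1).1
    unfold HasGenus at h2
    rw [card_edges, Nat.card_fin] at h2
    by_contra h
    have h4 : k = 0 := by omega
    subst h4
    push_cast at h2
    omega

theorem all_twice (σ : Perm Gr.Dart) (h : IsRotation Gr σ) (hg : HasGenus Gr σ 1) :
    SomeEdgeTwice Gr σ := by
  rcases (rot_main σ h).2 with h1 | h1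
  · exfalso
    unfold HasGenus at hg
    rw [card_edges, Nat.card_fin] at hg
    push_cast at hg
    omega
  · exact h1

end Pool.Agent.H12.Rot
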