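import Mathlib

set_option autoImplicit false
open Set Filter Real Nat Function

namespace Pool.Agent.Helpers.Twin4796

/-- the integer recurrence sequence, all of whose terms are `1` modulo `3`. -/
def V : ℕ → ℤ
  | 0 => 58
  | 1 => 88
  | 2 => 136
  | 3 => 208
  | 4 => 319
  | (n+5) => V (n+3) + V (n+2) + V (n+1) + V n

lemma V_rec (n : ℕ) : V (n+5) = V (n+3) + V (n+2) + V (n+1) + V n := by
  rw [V]

lemma V_mod (n : ℕ) : V n % 3 = 1 ∧ V (n+1) % 3 = 1 ∧ V (n+2) % 3 = 1 ∧ V (n+3) % 3 = 1 ∧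
    V (n+4) % 3 = 1 := by
  induction n with
  | zero => simp [V]
  | succ n ih =>
    obtain ⟨h0, h1, h2, h3, h4⟩ := ih
    refine ⟨h1, h2, h3, h4, ?_⟩
    have := V_rec n
    rw [show n + 1 + 4 = n + 5 by ring, this]
    omega

lemma exists_alpha : ∃ a : ℝ, a ^ 5 = a ^ 3 + a ^ 2 + a + 1 ∧ (1.5341577 : ℝ) < a ∧ a < 1.5341578 := by
  have hcont : ContinuousOn (fun x : ℝ => x ^ 5 - x ^ 3 - x ^ 2 - x - 1) (Set.Icc (1.5341577 : ℝ) 1.5341578) := by
    fun_prop
  have h := intermediate_value_Ioo (by norm_num : (1.5341577 : ℝ) ≤ 1.5341578) hcont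
  have h0 : (0 : ℝ) ∈ Set.Ioo ((1.5341577 : ℝ) ^ 5 - (1.5341577 : ℝ) ^ 3 - (1.5341577 : ℝ) ^ 2 - 1.5341577 - 1)
      ((1.5341578 : ℝ) ^ 5 - (1.5341578 : ℝ) ^ 3 - (1.5341578 : ℝ) ^ 2 - 1.5341578 - 1) := by
    constructor <;> norm_num
  obtain ⟨a, ha, hfa⟩ := h h0
  refine ⟨a, ?_, ha.1, ha.2⟩
  simp only at hfa
  linarith

set_option maxHeartbeats 4000000 in
theorem key (a : ℝ) (h5 : a ^ 5 = a ^ 3 + a ^ 2 + a + 1) (hl : (1.5341577 : ℝ) < a)
    (hu : a < 1.5341578) :
    ∃ τ : ℝ, 0 < τ ∧ ∀ n, |(V n : ℝ) - τ * a ^ n| < 1 / 2 := by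
  have h2l : (1.5341577 : ℝ)^2 < a ^ 2 := by gcongr
  have h2u : a ^ 2 < (1.5341578 : ℝ)^2 := by gcongr
  have h3l : (1.5341577 : ℝ)^3 < a ^ 3 := by gcongr
  have h3u : a ^ 3 < (1.5341578 : ℝ)^3 := by gcongr
  have h4l : (1.5341577 : ℝ)^4 < a ^ 4 := by gcongr
  have h4u : a ^ 4 < (1.5341578 : ℝ)^4 := by gcongr
  norm_num at h2l h2u h3l h3u h4l h4u hl hu
  have c3 : |(4 - 3*a)| ≤ 61/100 := by rw [abs_le]; constructor <;> linarith
  have c2 : |(4 - 3*(a^2-1))| ≤ 65/1000 := by rw [abs_le]; constructor <;> linarith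
  have c1 : |(3 - 3*(a^3-a-1))| ≤ 235/1000 := by rw [abs_le]; constructor <;> linarith
  have c0 : |(2 - 3*(a^4-a^2-a-1))| ≤ 5/100 := by rw [abs_le]; constructor <;> linarith
  set Q : ℝ := 5 * a ^ 4 - 3 * a ^ 2 - 2 * a - 1 with hQ
  have hQpos : 0 < Q := by rw [hQ]; linarith
  set N : ℝ := 319 + a * 208 + (a^2 - 1) * 136 + (a^3 - a - 1) * 88 + (a^4 - a^2 - a - 1) * 58 with hN
  set τ : ℝ := N / Q with hτ
  have hτQ : τ * Q = N := by rw [hτ]; field_simp
  have hτl : (57.6233 : ℝ) < τ := by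
    rw [hτ, lt_div_iff₀ hQpos, hQ, hN]; norm_num; linarith
  have hτu : τ < 57.6236 := by
    rw [hτ, div_lt_iff₀ hQpos, hQ, hN]; norm_num; linarith
  have hapos : 0 < a := by linarith
  -- the linear functional
  have hL : ∀ n, (V (n+4) : ℝ) + a * V (n+3) + (a^2-1) * V (n+2) + (a^3-a-1) * V (n+1)
      + (a^4-a^2-a-1) * V n = N * a ^ n := by
    intro n
    induction n with
    | zero => simp [V, hN]
    | succ n ih =>
      have hr : (V (n+5) : ℝ) = V (n+3) + V (n+2) + V (n+1) + V n := by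
        exact_mod_cast V_rec n
      rw [show n + 1 + 4 = n + 5 by ring, show n + 1 + 3 = n + 4 by ring,
        show n + 1 + 2 = n + 3 by ring, show n + 1 + 1 = n + 2 by ring, hr, pow_succ]
      linear_combination a * ih - (V n : ℝ) * h5
  set E : ℕ → ℝ := fun n => (V n : ℝ) - τ * a ^ n with hE
  have hE4 : ∀ n, E (n+4) = -(a * E (n+3) + (a^2-1) * E (n+2) + (a^3-a-1) * E (n+1)
      + (a^4-a^2-a-1) * E n) := by
    intro n
    have h1 := hL n
    simp only [hE]
    have h2 : τ * (5 * a ^ 4 - 3 * a ^ 2 - 2 * a - 1) = N := by rw [← hQ]; exact hτQ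
    linear_combination h1 - a ^ n * h2
  have hE5 : ∀ n, E (n+5) = E (n+3) + E (n+2) + E (n+1) + E n := by
    intro n
    have hr : (V (n+5) : ℝ) = V (n+3) + V (n+2) + V (n+1) + V n := by
      exact_mod_cast V_rec n
    simp only [hE]
    rw [hr]
    linear_combination - τ * a ^ n * h5
  have hE9 : ∀ n, E (n+9) = (4 - 3*a) * E (n+3) + (4 - 3 * (a^2-1)) * E (n+2)
      + (3 - 3*(a^3-a-1)) * E (n+1) + (2 - 3*(a^4-a^2-a-1)) * E n := by
    intro n
    have e9 := hE5 (n+4)
    have e8 := hE5 (n+3)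
    have e7 := hE5 (n+2)
    have e6 := hE5 (n+1)
    have e5 := hE5 n
    have e4 := hE4 n
    simp only [add_assoc] at e9 e8 e7 e6 e5
    norm_num at e9 e8 e7 e6 e5
    linear_combination e9 + e7 + e6 + 2 * e5 + 3 * e4 + e8 * 0
  refine ⟨τ, by linarith, ?_⟩
  have b0 : 0.37 < E 0 ∧ E 0 < 0.38 := by
    simp only [hE, V]
    norm_num
    constructor <;> linarith
  have b1 : -0.41 < E 1 ∧ E 1 < -0.40 := by
    simp only [hE, V]
    norm_num
    constructor <;> nlinarith
  have b2 : 0.37 < E 2 ∧ E 2 < 0.38 := by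
    simp only [hE, V]
    norm_num
    constructor <;> nlinarith
  have b3 : -0.075 < E 3 ∧ E 3 < -0.065 := by
    simp only [hE, V]
    norm_num
    constructor <;> nlinarith
  have b4 : -0.22 < E 4 ∧ E 4 < -0.20 := by
    simp only [hE, V]
    norm_num
    constructor <;> nlinarith
  have e5 := hE5 0
  have e6 := hE5 1
  have e7 := hE5 2
  have e8 := hE5 3
  norm_num at e5 e6 e7 e8
  have hall : ∀ n, ∀ m ≤ n, |E m| < 1 / 2 := by
    intro n
    induction n with
    | zero => 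
      intro m hm
      have : m = 0 := by omega
      subst this
      rw [abs_lt]; constructor <;> linarith [b0.1, b0.2]
    | succ n ih =>
      intro m hm
      rcases Nat.lt_or_ge m (n+1) with h | h
      · exact ih m (by omega)
      · have hmn : m = n + 1 := by omega
        subst hmn
        rcases Nat.lt_or_ge n 8 with h8 | h8
        · obtain ⟨b0l, b0u⟩ := b0
          obtain ⟨b1l, b1u⟩ := b1
          obtain ⟨b2l, b2u⟩ := b2
          obtain ⟨b3l, b3u⟩ := b3
          obtain ⟨b4l, b4u⟩ := b4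
          rw [abs_lt]
          norm_num at b0l b0u b1l b1u b2l b2u b3l b3u b4l b4u
          interval_cases n <;> norm_num <;> constructor <;> linarith
        · obtain ⟨k, rfl⟩ := Nat.exists_eq_add_of_le h8
          rw [show 8 + k + 1 = k + 9 by ring, hE9 k]
          have i0 := abs_lt.mp (ih k (by omega))
          have i1 := abs_lt.mp (ih (k+1) (by omega))
          have i2 := abs_lt.mp (ih (k+2) (by omega))
          have i3 := abs_lt.mp (ih (k+3) (by omega))
          have j0 := ih k (by omega)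
          have j1 := ih (k+1) (by omega)
          have j2 := ih (k+2) (by omega)
          have j3 := ih (k+3) (by omega)
          calc |(4 - 3*a) * E (k+3) + (4 - 3 * (a^2-1)) * E (k+2)
      + (3 - 3*(a^3-a-1)) * E (k+1) + (2 - 3*(a^4-a^2-a-1)) * E k| 
              ≤ |(4 - 3*a) * E (k+3)| + |(4 - 3 * (a^2-1)) * E (k+2)| + |(3 - 3*(a^3-a-1)) * E (k+1)|
                + |(2 - 3*(a^4-a^2-a-1)) * E k| := by
                refine (abs_add_le _ _).trans ?_
                gcongr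
                refine (abs_add_le _ _).trans ?_
                gcongr
                exact abs_add_le _ _
            _ = |(4 - 3*a)| * |E (k+3)| + |(4 - 3 * (a^2-1))| * |E (k+2)| + |(3 - 3*(a^3-a-1))| * |E (k+1)|
                + |(2 - 3*(a^4-a^2-a-1))| * |E k| := by simp only [abs_mul]
            _ ≤ 61/100 * (1/2) + 65/1000 * (1/2) + 235/1000 * (1/2) + 5/100 * (1/2) := by gcongr
            _ < 1/2 := by norm_num
  intro n
  exact hall n n le_rfl

end Pool.Agent.Helpers.Twin4796
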