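import Mathlib

set_option autoImplicit false

namespace Pool.Agent.Wmp

open Filter Topology

/-- A sequence is weakly null. -/
def WeaklyNull (𝕜 : Type) [RCLike 𝕜] {E : Type*} [NormedAddCommGroup E] [NormedSpace 𝕜 E]
    (x : ℕ → E) : Prop :=
  ∀ φ : E →L[𝕜] 𝕜, Tendsto (fun n => φ (x n)) atTop (𝓝 0)

/-- `T` attains its norm at a point of the unit sphere. -/
def AttainsNorm {𝕜 : Type} [RCLike 𝕜] {E F : Type*} [NormedAddCommGroup E] [NormedSpace 𝕜 E]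
    [NormedAddCommGroup F] [NormedSpace 𝕜 F] (T : E →L[𝕜] F) : Prop :=
  ∃ x : E, ‖x‖ = 1 ∧ ‖T x‖ = ‖T‖

/-- `x` is a maximizing sequence for `T`. -/
def Maximizing {𝕜 : Type} [RCLike 𝕜] {E F : Type*} [NormedAddCommGroup E] [NormedSpace 𝕜 E]
    [NormedAddCommGroup F] [NormedSpace 𝕜 F] (T : E →L[𝕜] F) (x : ℕ → E) : Prop :=
  (∀ n, ‖x n‖ = 1) ∧ Tendsto (fun n => ‖T (x n)‖) atTop (𝓝 ‖T‖)

/-- The pair `(E, F)` has the weak maximizing property: every operator with a maximizing sequence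
which is not weakly null attains its norm. -/
def WMP (𝕜 : Type) [RCLike 𝕜] (E F : Type*) [NormedAddCommGroup E] [NormedSpace 𝕜 E]
    [NormedAddCommGroup F] [NormedSpace 𝕜 F] : Prop :=
  ∀ T : E →L[𝕜] F, (∃ x : ℕ → E, Maximizing T x ∧ ¬ WeaklyNull 𝕜 x) → AttainsNorm T

end Pool.Agent.Wmp
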