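import Mathlib
import Pool.Agent.Helpers.WmpJN

set_option autoImplicit false

namespace Pool.Agent.Wmp

open Filter Topology Set

variable {𝕜 : Type} [RCLike 𝕜] {E : Type*} [NormedAddCommGroup E] [NormedSpace 𝕜 E]

lemma fin_net {V : Type*} [NormedAddCommGroup V] [NormedSpace 𝕜 V] (Z : Submodule 𝕜 V)
    [FiniteDimensional 𝕜 Z] :
    ∃ T : Finset V, (∀ t ∈ T, ‖t‖ = 1) ∧ ∀ g ∈ Z, ‖g‖ = 1 → ∃ t ∈ T, ‖g - t‖ < 1 / 4 := by
  classical
  have : ProperSpace Z := FiniteDimensional.proper_rclike 𝕜 Z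
  have hcomp : IsCompact (Metric.sphere (0 : Z) 1) := isCompact_sphere 0 1
  obtain ⟨T, hTs, hTc⟩ := hcomp.elim_nhds_subcover (fun g => Metric.ball g (1 / 4))
    (fun g _ => Metric.ball_mem_nhds g (by norm_num))
  refine ⟨Finset.image (fun t : Z => (t : V)) T, ?_, ?_⟩
  · intro t ht
    rw [Finset.mem_image] at ht
    obtain ⟨q, hq, rfl⟩ := ht
    have := hTs q hq
    rw [mem_sphere_zero_iff_norm] at this
    exact this
  · intro g hg hg1
    have hmem : (⟨g, hg⟩ : Z) ∈ Metric.sphere (0 : Z) 1 := by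
      rw [mem_sphere_zero_iff_norm]; exact hg1
    have := hTc hmem
    simp only [mem_iUnion] at this
    obtain ⟨q, hqT, hq⟩ := this
    rw [Metric.mem_ball, dist_eq_norm] at hq
    exact ⟨(q : V), Finset.mem_image_of_mem (fun t : Z => (t : V)) hqT, hq⟩

/-- a finite dimensional space of functionals is `1/2`-normed by a finite set -/
lemma fin_norming (Z : Submodule 𝕜 (E →L[𝕜] 𝕜)) (hZ : FiniteDimensional 𝕜 Z) :
    ∃ C : Finset E, (∀ x ∈ C, ‖x‖ ≤ 1) ∧ ∀ g ∈ Z, ∃ x ∈ C, ‖g‖ ≤ 2 * ‖g x‖ := by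
  classical
  obtain ⟨T, hT1, hT2⟩ := fin_net Z
  have hx : ∀ g : E →L[𝕜] 𝕜, ∃ x : E, ‖x‖ ≤ 1 ∧ (‖g‖ = 1 → 3 / 4 ≤ ‖g x‖) := by
    intro g
    by_cases h : ‖g‖ = 1
    · have h' : (3 / 4 : ℝ) < ‖g‖ := by
        rw [h]; norm_num
      obtain ⟨x, hx1, hx2⟩ := ContinuousLinearMap.exists_lt_apply_of_lt_opNorm _ h'
      exact ⟨x, hx1.le, fun _ => hx2.le⟩
    · exact ⟨0, by simp, fun h' => absurd h' h⟩
  choose p hp1 hp2 using hx
  refine ⟨insert 0 (T.image p), ?_, ?_⟩
  · intro x hx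
    rw [Finset.mem_insert, Finset.mem_image] at hx
    rcases hx with rfl | ⟨g, _, rfl⟩
    · simp
    · exact hp1 g
  · intro g hg
    by_cases h0 : g = 0
    · exact ⟨0, Finset.mem_insert_self _ _, by simp [h0]⟩
    · have hn : 0 < ‖g‖ := norm_pos_iff.mpr h0
      set g' : E →L[𝕜] 𝕜 := (((‖g‖)⁻¹ : ℝ) : 𝕜) • g with hg'
      have hg'n : ‖g'‖ = 1 := by
        rw [hg', norm_smul, RCLike.norm_ofReal, abs_of_pos (by positivity)]
        field_simp
      obtain ⟨q, hqT, hq⟩ := hT2 g' (Submodule.smul_mem _ _ hg) hg'n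
      have hqn : ‖q‖ = 1 := hT1 q hqT
      refine ⟨p q, Finset.mem_insert_of_mem (Finset.mem_image_of_mem _ hqT), ?_⟩
      have e1 : ‖(g' - q) (p q)‖ ≤ 1 / 4 := by
        refine (ContinuousLinearMap.le_opNorm _ _).trans ?_
        calc ‖g' - q‖ * ‖p q‖ ≤ (1 / 4) * 1 :=
              mul_le_mul hq.le (hp1 q) (norm_nonneg _) (by norm_num)
          _ = 1 / 4 := by norm_num
      have e2 := hp2 q hqn
      have e3 : (g' - q) (p q) = (((‖g‖)⁻¹ : ℝ) : 𝕜) * g (p q) - q (p q) := by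
        simp [hg']
      rw [e3] at e1
      have e4 : ‖q (p q)‖ ≤ ‖(((‖g‖)⁻¹ : ℝ) : 𝕜) * g (p q)‖ + 1 / 4 := by
        have := norm_sub_norm_le (q (p q)) ((((‖g‖)⁻¹ : ℝ) : 𝕜) * g (p q))
        rw [norm_sub_rev] at this
        linarith
      rw [norm_mul, RCLike.norm_ofReal, abs_of_pos (by positivity : 0 < (‖g‖)⁻¹)] at e4
      have e5 : 1 / 2 ≤ (‖g‖)⁻¹ * ‖g (p q)‖ := by linarith
      rw [inv_mul_eq_div, le_div_iff₀ hn] at e5
      linarith

/-- finite-dimensionality descends from the dual -/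
lemma findim_of_dual (h : FiniteDimensional 𝕜 (E →L[𝕜] 𝕜)) : FiniteDimensional 𝕜 E := by
  let Φ : E →ₗ[𝕜] ((E →L[𝕜] 𝕜) →ₗ[𝕜] 𝕜) :=
    { toFun := fun x =>
        { toFun := fun f => f x
          map_add' := fun f g => rfl
          map_smul' := fun c f => rfl }
      map_add' := fun x y => by
        ext f
        simp
      map_smul' := fun c x => by
        ext f
        simp }
  have hinj : Function.Injective Φ := by
    rw [← LinearMap.ker_eq_bot, Submodule.eq_bot_iff]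
    intro x hx
    apply NormedSpace.eq_zero_of_forall_dual_eq_zero 𝕜
    intro f
    have h1 : Φ x = 0 := hx
    have h2 := congrArg (fun L => L f) h1
    exact h2
  have hfd : FiniteDimensional 𝕜 ((E →L[𝕜] 𝕜) →ₗ[𝕜] 𝕜) := inferInstance
  exact FiniteDimensional.of_injective Φ hinj

/-- a norm one functional vanishing on a finite set -/
lemma exists_vanish (hE : ¬ FiniteDimensional 𝕜 E) (C : Finset E) :
    ∃ f : E →L[𝕜] 𝕜, ‖f‖ = 1 ∧ ∀ x ∈ C, f x = 0 := by
  let Φ : (E →L[𝕜] 𝕜) →ₗ[𝕜] (C → 𝕜) :=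
    { toFun := fun f x => f x
      map_add' := fun f g => rfl
      map_smul' := fun c f => rfl }
  have hninj : ¬ Function.Injective Φ := by
    intro hinj
    exact hE (findim_of_dual (FiniteDimensional.of_injective Φ hinj))
  rw [← LinearMap.ker_eq_bot, Submodule.eq_bot_iff] at hninj
  push Not at hninj
  obtain ⟨f, hf, hf0⟩ := hninj
  have hn : 0 < ‖f‖ := norm_pos_iff.mpr hf0
  refine ⟨(((‖f‖)⁻¹ : ℝ) : 𝕜) • f, ?_, ?_⟩
  · rw [norm_smul, RCLike.norm_ofReal, abs_of_pos (by positivity)]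
    field_simp
  · intro x hx
    have := congrFun (show Φ f = 0 from hf) ⟨x, hx⟩
    have h2 : f x = 0 := this
    simp [h2]

/-- Josefson-Nissenzweig -/
theorem jn (hN : NJN 𝕜 E) : FiniteDimensional 𝕜 E := by
  classical
  by_contra hE
  -- states
  let σ := {s : Submodule 𝕜 (E →L[𝕜] 𝕜) × Finset E // FiniteDimensional 𝕜 s.1 ∧
    (∀ x ∈ s.2, ‖x‖ ≤ 1) ∧ ∀ g ∈ s.1, ∃ x ∈ s.2, ‖g‖ ≤ 2 * ‖g x‖}
  have hstep : ∀ s : σ, ∃ (f : E →L[𝕜] 𝕜) (t : σ), ‖f‖ = 1 ∧ (∀ x ∈ s.1.2, f x = 0) ∧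
      s.1.1 ≤ t.1.1 ∧ s.1.2 ⊆ t.1.2 ∧ f ∈ t.1.1 := by
    intro s
    obtain ⟨f, hf1, hf2⟩ := exists_vanish hE s.1.2
    have hs1 := s.2.1
    have hfin : FiniteDimensional 𝕜
        (s.1.1 ⊔ Submodule.span 𝕜 {f} : Submodule 𝕜 (E →L[𝕜] 𝕜)) :=
      Submodule.finite_sup _ _
    obtain ⟨C, hC1, hC2⟩ := fin_norming (s.1.1 ⊔ Submodule.span 𝕜 {f}) hfin
    refine ⟨f, ⟨(s.1.1 ⊔ Submodule.span 𝕜 {f}, s.1.2 ∪ C), hfin, ?_, ?_⟩, hf1, hf2,
      le_sup_left, Finset.subset_union_left, ?_⟩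
    · intro x hx
      rw [Finset.mem_union] at hx
      rcases hx with hx | hx
      · exact s.2.2.1 x hx
      · exact hC1 x hx
    · intro g hg
      obtain ⟨x, hx, hgx⟩ := hC2 g hg
      exact ⟨x, Finset.mem_union_right _ hx, hgx⟩
    · exact (le_sup_right : Submodule.span 𝕜 {f} ≤ _) (Submodule.mem_span_singleton_self f)
  choose F T hF1 hF2 hT1 hT2 hT3 using hstep
  obtain ⟨C0, hC01, hC02⟩ := fin_norming (⊥ : Submodule 𝕜 (E →L[𝕜] 𝕜)) inferInstance
  let s0 : σ := ⟨(⊥, C0), inferInstance, hC01, hC02⟩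
  let s : ℕ → σ := fun n => Nat.rec s0 (fun _ S => T S) n
  have hss : ∀ n, s (n + 1) = T (s n) := fun n => rfl
  set f : ℕ → (E →L[𝕜] 𝕜) := fun n => F (s n) with hf
  have hfn : ∀ n, ‖f n‖ = 1 := fun n => hF1 (s n)
  have hZ : ∀ m n, m ≤ n → (s m).1.1 ≤ (s n).1.1 := by
    intro m n hmn
    induction n, hmn using Nat.le_induction with
    | base => exact le_rfl
    | succ n _ ih => rw [hss]; exact ih.trans (hT1 (s n))
  have hCm : ∀ m n, m ≤ n → (s m).1.2 ⊆ (s n).1.2 := by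
    intro m n hmn
    induction n, hmn using Nat.le_induction with
    | base => exact Finset.Subset.refl _
    | succ n _ ih => rw [hss]; exact ih.trans (hT2 (s n))
  have hfZ : ∀ n, f n ∈ (s (n + 1)).1.1 := fun n => by rw [hss]; exact hT3 (s n)
  have hvan : ∀ m x, x ∈ (s m).1.2 → ∀ n, m ≤ n → f n x = 0 := by
    intro m x hx n hn
    exact hF2 (s n) x (hCm m n hn hx)
  -- f is weak-star null
  have hnull : ∀ y, Tendsto (fun j => rv y (f j)) atTop (𝓝 0) := by
    -- enough: no frequent lower bound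
    have key : ∀ (y : E) (τ : ℝ), 0 < τ → ¬ ∃ᶠ n in atTop, τ ≤ rv y (f n) := by
      intro y τ hτ hfreq
      obtain ⟨φ, hφ, hφ2⟩ := extraction_of_frequently_atTop hfreq
      obtain ⟨g, G, hgf, hG⟩ := conv_blocks hN (fun n => f (φ n)) (fun n => (hfn _).le)
      -- lower bound passes to G
      have h1 : ∀ n, τ ≤ rv y (g n) := fun n =>
        hgf.mem (convex_ge y τ) 0 (fun n _ => hφ2 n) n (Nat.zero_le _)
      have hcont : ∀ x : E, Tendsto (fun n => g n x) atTop (𝓝 (G x)) := by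
        intro x
        exact ((ContinuousLinearMap.apply 𝕜 𝕜 x).continuous.tendsto G).comp hG
      have h2 : τ ≤ rv y G :=
        ge_of_tendsto' ((RCLike.continuous_re.tendsto _).comp (hcont y)) h1
      -- G vanishes on all the finite sets
      have h3 : ∀ m x, x ∈ (s m).1.2 → G x = 0 := by
        intro m x hx
        have hK : Convex ℝ {h : E →L[𝕜] 𝕜 | h x = 0} := by
          intro a ha b hb s t _ _ _
          simp only [mem_ofPred_eq] at ha hb ⊢
          simp [ha, hb]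
        have h4 := hgf.mem hK m (fun n hn => hvan m x hx (φ n) (hn.trans (hφ.id_le n)))
        have h5 : Tendsto (fun n => g n x) atTop (𝓝 0) := by
          apply tendsto_const_nhds.congr'
          filter_upwards [eventually_ge_atTop m] with n hn
          exact (h4 n hn).symm
        exact tendsto_nhds_unique (hcont x) h5
      -- blocks lie in some Z
      have h6 : ∀ n, ∃ m, g n ∈ (s m).1.1 := by
        intro n
        have hg := hgf n
        have hsub : convexHull ℝ ((fun n => f (φ n)) '' Ici n) ⊆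
            {h : E →L[𝕜] 𝕜 | ∃ m, h ∈ (s m).1.1} := by
          apply convexHull_min
          · rintro _ ⟨i, _, rfl⟩
            exact ⟨φ i + 1, hfZ (φ i)⟩
          · rintro a ⟨m1, h1⟩ b ⟨m2, h2⟩ c d _ _ _
            refine ⟨max m1 m2, ?_⟩
            have h1' := hZ m1 _ (le_max_left m1 m2) h1
            have h2' := hZ m2 _ (le_max_right m1 m2) h2
            have e1 : c • a = (c : 𝕜) • a := by
              ext z
              simp [RCLike.real_smul_eq_coe_mul]
            have e2 : d • b = (d : 𝕜) • b := by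
              ext z
              simp [RCLike.real_smul_eq_coe_mul]
            rw [e1, e2]
            exact Submodule.add_mem _ (Submodule.smul_mem _ _ h1') (Submodule.smul_mem _ _ h2')
        exact hsub hg
      have h7 : ∀ n, ‖g n‖ ≤ 2 * ‖g n - G‖ := by
        intro n
        obtain ⟨m, hm⟩ := h6 n
        obtain ⟨x, hx, hgx⟩ := (s m).2.2.2 (g n) hm
        have hx1 := (s m).2.2.1 x hx
        have hGx := h3 m x hx
        calc ‖g n‖ ≤ 2 * ‖g n x‖ := hgx
          _ = 2 * ‖(g n - G) x‖ := by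
              rw [ContinuousLinearMap.sub_apply, hGx, sub_zero]
          _ ≤ 2 * (‖g n - G‖ * ‖x‖) := by
              apply mul_le_mul_of_nonneg_left (ContinuousLinearMap.le_opNorm _ _) (by norm_num)
          _ ≤ 2 * ‖g n - G‖ := by
              have := mul_le_mul_of_nonneg_left hx1 (norm_nonneg (g n - G))
              linarith
      have h8 : Tendsto (fun n => ‖g n‖) atTop (𝓝 ‖G‖) := hG.norm
      have h9 : Tendsto (fun n => 2 * ‖g n - G‖) atTop (𝓝 (2 * 0)) :=
        (tendsto_iff_norm_sub_tendsto_zero.mp hG).const_mul 2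
      have h10 : ‖G‖ ≤ 2 * 0 := le_of_tendsto_of_tendsto' h8 h9 h7
      have h11 : G = 0 := by
        rw [← norm_le_zero_iff]
        linarith
      rw [h11] at h2
      simp only [rv, ContinuousLinearMap.zero_apply, map_zero] at h2
      linarith
    intro y
    rw [Metric.tendsto_atTop]
    intro δ hδ
    have k1 := key y δ hδ
    have k2 := key (-y) δ hδ
    rw [not_frequently] at k1 k2
    obtain ⟨N, hN⟩ := (k1.and k2).exists_forall_of_atTop
    refine ⟨N, fun n hn => ?_⟩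
    obtain ⟨h1, h2⟩ := hN n hn
    rw [not_le] at h1 h2
    have e1 : rv (-y) (f n) = - rv y (f n) := by simp [rv]
    rw [e1] at h2
    rw [Real.dist_eq, sub_zero, abs_lt]
    constructor <;> linarith
  have hlim := hN f ⟨1, fun n => (hfn n).le⟩ (re_null f hnull)
  simp only [hfn] at hlim
  have := tendsto_nhds_unique hlim (tendsto_const_nhds)
  norm_num at this

/-- In infinite dimensions there is a weak-star null sequence of norm one functionals. -/
theorem exists_null (hE : ¬ FiniteDimensional 𝕜 E) :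
    ∃ g : ℕ → (E →L[𝕜] 𝕜), (∀ n, ‖g n‖ = 1) ∧ ∀ x, Tendsto (fun n => g n x) atTop (𝓝 0) := by
  have hnot : ¬ NJN 𝕜 E := fun h => hE (jn h)
  unfold NJN at hnot
  push Not at hnot
  obtain ⟨r, ⟨C, hC⟩, hr, hnt⟩ := hnot
  have : ∃ c : ℝ, 0 < c ∧ ∃ᶠ n in atTop, c ≤ ‖r n‖ := by
    by_contra hcon
    push Not at hcon
    apply hnt
    rw [Metric.tendsto_atTop]
    intro ε hε
    have := hcon ε hε
    obtain ⟨N, hN⟩ := this.exists_forall_of_atTop
    refine ⟨N, fun n hn => ?_⟩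
    rw [Real.dist_eq, sub_zero, abs_of_nonneg (norm_nonneg _)]
    exact hN n hn
  obtain ⟨c, hc, hfreq⟩ := this
  obtain ⟨φ, hφ, hφ2⟩ := extraction_of_frequently_atTop hfreq
  refine ⟨fun n => (((‖r (φ n)‖)⁻¹ : ℝ) : 𝕜) • r (φ n), ?_, ?_⟩
  · intro n
    have : 0 < ‖r (φ n)‖ := lt_of_lt_of_le hc (hφ2 n)
    rw [norm_smul, RCLike.norm_ofReal, abs_of_pos (by positivity)]
    field_simp
  · intro x
    rw [tendsto_zero_iff_norm_tendsto_zero]
    have h1 : Tendsto (fun n => c⁻¹ * ‖r (φ n) x‖) atTop (𝓝 (c⁻¹ * 0)) := by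
      apply Tendsto.const_mul
      exact tendsto_zero_iff_norm_tendsto_zero.mp ((hr x).comp hφ.tendsto_atTop)
    rw [mul_zero] at h1
    apply squeeze_zero (fun n => norm_nonneg _) _ h1
    intro n
    have hpos : 0 < ‖r (φ n)‖ := lt_of_lt_of_le hc (hφ2 n)
    rw [ContinuousLinearMap.smul_apply, smul_eq_mul, norm_mul, RCLike.norm_ofReal,
      abs_of_pos (by positivity)]
    apply mul_le_mul_of_nonneg_right _ (norm_nonneg _)
    exact inv_anti₀ hc (hφ2 n)

end Pool.Agent.Wmp
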