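import Mathlib
import Pool.Agent.Helpers.WmpDefs
import Pool.Agent.Helpers.WmpMazur

set_option autoImplicit false

namespace Pool.Agent.Wmp

open Filter Topology Set
open scoped ENNReal

variable {𝕜 : Type} [RCLike 𝕜] {E : Type*} [NormedAddCommGroup E] [NormedSpace 𝕜 E]

/-- Norming sequences of weak-star convergent sequences of functionals with limit of smaller norm
are weakly null. -/
lemma norming_null (hW : WMP 𝕜 E (lp (fun _ : ℕ => 𝕜) ∞)) (f : ℕ → (E →L[𝕜] 𝕜))
    (F : E →L[𝕜] 𝕜) (hfF : ∀ x, Tendsto (fun n => f n x) atTop (𝓝 (F x)))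
    (hf : Tendsto (fun n => ‖f n‖) atTop (𝓝 1)) (hF : ‖F‖ < 1) (x : ℕ → E)
    (hx : ∀ n, ‖x n‖ = 1) (hfx : Tendsto (fun n => ‖f n (x n)‖) atTop (𝓝 1)) :
    WeaklyNull 𝕜 x := by
  by_contra hnot
  set c : ℕ → ℝ := fun n => (1 - 1 / ((n : ℝ) + 2)) / max 1 ‖f n‖ with hc
  have hmax : ∀ n, 0 < max 1 ‖f n‖ := fun n => lt_of_lt_of_le one_pos (le_max_left _ _)
  have hn2 : ∀ n : ℕ, 0 < 1 / ((n : ℝ) + 2) ∧ 1 / ((n : ℝ) + 2) ≤ 1 / 2 := by
    intro n
    constructor
    · positivity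
    · apply one_div_le_one_div_of_le (by norm_num)
      have : (0 : ℝ) ≤ n := by positivity
      linarith
  have hc0 : ∀ n, 0 ≤ c n := by
    intro n
    simp only [hc]
    apply div_nonneg _ (hmax n).le
    linarith [(hn2 n).2]
  have hcf : ∀ n, c n * ‖f n‖ ≤ 1 - 1 / ((n : ℝ) + 2) := by
    intro n
    simp only [hc]
    rw [div_mul_eq_mul_div, div_le_iff₀ (hmax n)]
    apply mul_le_mul_of_nonneg_left (le_max_right _ _)
    linarith [(hn2 n).2]
  have hclim : Tendsto c atTop (𝓝 1) := by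
    have h1 : Tendsto (fun n : ℕ => 1 - 1 / ((n : ℝ) + 2)) atTop (𝓝 (1 - 0)) := by
      apply tendsto_const_nhds.sub
      have := (tendsto_add_atTop_iff_nat 1).mpr
        (tendsto_one_div_add_atTop_nhds_zero_nat (𝕜 := ℝ))
      apply this.congr
      intro n
      push_cast
      ring_nf
    have h2 : Tendsto (fun n => max 1 ‖f n‖) atTop (𝓝 (max 1 1)) :=
      tendsto_const_nhds.max hf
    have h3 := h1.div h2 (by norm_num)
    simp only [sub_zero, max_self, div_one] at h3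
    exact h3
  have hbd : ∀ (y : E) (n : ℕ), ‖(c n : 𝕜) * f n y‖ ≤ (1 - 1 / ((n : ℝ) + 2)) * ‖y‖ := by
    intro y n
    rw [norm_mul, RCLike.norm_ofReal, abs_of_nonneg (hc0 n)]
    calc c n * ‖f n y‖ ≤ c n * (‖f n‖ * ‖y‖) :=
          mul_le_mul_of_nonneg_left ((f n).le_opNorm y) (hc0 n)
      _ = (c n * ‖f n‖) * ‖y‖ := by ring
      _ ≤ _ := mul_le_mul_of_nonneg_right (hcf n) (norm_nonneg _)
  have hbd1 : ∀ (y : E) (n : ℕ), ‖(c n : 𝕜) * f n y‖ ≤ ‖y‖ := by
    intro y n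
    refine (hbd y n).trans ?_
    have := (hn2 n).1
    have h0 := norm_nonneg y
    nlinarith
  have hmem : ∀ y : E, Memℓp (fun n => (c n : 𝕜) * f n y) ∞ := by
    intro y
    rw [memℓp_infty_iff]
    exact ⟨‖y‖, by rintro _ ⟨n, rfl⟩; exact hbd1 y n⟩
  let T0 : E →ₗ[𝕜] lp (fun _ : ℕ => 𝕜) ∞ :=
    { toFun := fun y => ⟨fun n => (c n : 𝕜) * f n y, hmem y⟩
      map_add' := fun y z => by
        refine Subtype.ext (funext fun n => ?_)
        change (c n : 𝕜) * f n (y + z) = (c n : 𝕜) * f n y + (c n : 𝕜) * f n z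
        rw [map_add, mul_add]
      map_smul' := fun a y => by
        refine Subtype.ext (funext fun n => ?_)
        change (c n : 𝕜) * f n (a • y) = a * ((c n : 𝕜) * f n y)
        rw [map_smul, smul_eq_mul, mul_left_comm] }
  have hT0 : ∀ y n, (T0 y : ℕ → 𝕜) n = (c n : 𝕜) * f n y := fun y n => rfl
  let T : E →L[𝕜] lp (fun _ : ℕ => 𝕜) ∞ := T0.mkContinuous 1 (by
    intro y
    rw [one_mul]
    exact lp.norm_le_of_forall_le (norm_nonneg _) (fun n => hbd1 y n))
  have hT : ∀ y, T y = T0 y := fun y => rfl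
  have hTle : ‖T‖ ≤ 1 := LinearMap.mkContinuous_norm_le _ (by norm_num) _
  have hTx : ∀ n, c n * ‖f n (x n)‖ ≤ ‖T (x n)‖ := by
    intro n
    have h1 := lp.norm_apply_le_norm (by simp) (T (x n)) n
    rw [hT, hT0, norm_mul, RCLike.norm_ofReal, abs_of_nonneg (hc0 n)] at h1
    exact h1
  have hTx2 : ∀ n, ‖T (x n)‖ ≤ ‖T‖ := by
    intro n
    have := T.le_opNorm (x n)
    rw [hx n, mul_one] at this
    exact this
  have hlim1 : Tendsto (fun n => c n * ‖f n (x n)‖) atTop (𝓝 1) := by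
    have := hclim.mul hfx
    rw [mul_one] at this
    exact this
  have hT1 : ‖T‖ = 1 := by
    apply le_antisymm hTle
    exact le_of_tendsto' hlim1 (fun n => (hTx n).trans (hTx2 n))
  have hmaxi : Maximizing T x := by
    refine ⟨hx, ?_⟩
    rw [hT1]
    exact tendsto_of_tendsto_of_tendsto_of_le_of_le hlim1 tendsto_const_nhds hTx
      (fun n => (hTx2 n).trans hTle)
  obtain ⟨y, hy, hTy⟩ := hW T ⟨x, hmaxi, hnot⟩
  rw [hT1] at hTy
  -- contradiction: sup is less than one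
  have hlim2 : Tendsto (fun n => ‖(c n : 𝕜) * f n y‖) atTop (𝓝 ‖F y‖) := by
    have h1 : Tendsto (fun n => c n * ‖f n y‖) atTop (𝓝 (1 * ‖F y‖)) := hclim.mul (hfF y).norm
    rw [one_mul] at h1
    apply h1.congr
    intro n
    rw [norm_mul, RCLike.norm_ofReal, abs_of_nonneg (hc0 n)]
  have hFy : ‖F y‖ < (1 + ‖F‖) / 2 := by
    have := F.le_opNorm y
    rw [hy, mul_one] at this
    linarith
  obtain ⟨N, hN⟩ := (hlim2.eventually (gt_mem_nhds hFy)).exists_forall_of_atTop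
  have hsup : ‖T y‖ ≤ max ((1 + ‖F‖) / 2) (1 - 1 / ((N : ℝ) + 2)) := by
    apply lp.norm_le_of_forall_le
    · apply le_max_of_le_left
      have := norm_nonneg F
      linarith
    · intro n
      rw [hT, hT0]
      rcases le_or_gt N n with h | h
      · exact le_max_of_le_left (hN n h).le
      · apply le_max_of_le_right
        refine (hbd y n).trans ?_
        rw [hy, mul_one]
        have h1 : (n : ℝ) + 2 ≤ (N : ℝ) + 2 := by
          have : (n : ℝ) < N := by exact_mod_cast h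
          linarith
        have h2 : 1 / ((N : ℝ) + 2) ≤ 1 / ((n : ℝ) + 2) :=
          one_div_le_one_div_of_le (by positivity) h1
        linarith
  rw [hTy] at hsup
  have h3 : max ((1 + ‖F‖) / 2) (1 - 1 / ((N : ℝ) + 2)) < 1 := by
    apply max_lt
    · linarith
    · linarith [(hn2 N).1]
  linarith

/-- unit vectors almost norming a functional -/
lemma exists_unit (h : E →L[𝕜] 𝕜) (r : ℝ) (hr0 : 0 ≤ r) (hr : r < ‖h‖) :
    ∃ y : E, ‖y‖ = 1 ∧ r < ‖h y‖ := by
  obtain ⟨x, hx1, hx2⟩ := ContinuousLinearMap.exists_lt_apply_of_lt_opNorm h hr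
  have hx0 : x ≠ 0 := by
    rintro rfl
    simp at hx2
    linarith
  have hn : 0 < ‖x‖ := norm_pos_iff.mpr hx0
  refine ⟨(((‖x‖)⁻¹ : ℝ) : 𝕜) • x, ?_, ?_⟩
  · rw [norm_smul, RCLike.norm_ofReal, abs_of_pos (by positivity)]
    field_simp
  · rw [map_smul, norm_smul, RCLike.norm_ofReal, abs_of_pos (by positivity)]
    have : 1 ≤ (‖x‖)⁻¹ := (one_le_inv₀ hn).mpr hx1.le
    calc r < ‖h x‖ := hx2
      _ = 1 * ‖h x‖ := by ring
      _ ≤ (‖x‖)⁻¹ * ‖h x‖ := mul_le_mul_of_nonneg_right this (norm_nonneg _)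

/-- a norming sequence of unit vectors -/
lemma exists_norming (h : ℕ → (E →L[𝕜] 𝕜)) (h0 : ∀ n, 0 < ‖h n‖)
    (h1 : Tendsto (fun n => ‖h n‖) atTop (𝓝 1)) :
    ∃ x : ℕ → E, (∀ n, ‖x n‖ = 1) ∧ Tendsto (fun n => ‖h n (x n)‖) atTop (𝓝 1) := by
  have hn2 : ∀ n : ℕ, 0 < 1 / ((n : ℝ) + 2) ∧ 1 / ((n : ℝ) + 2) ≤ 1 / 2 := by
    intro n
    constructor
    · positivity
    · apply one_div_le_one_div_of_le (by norm_num)
      have : (0 : ℝ) ≤ n := by positivity
      linarith
  have hex : ∀ n, ∃ y : E, ‖y‖ = 1 ∧ ‖h n‖ * (1 - 1 / ((n : ℝ) + 2)) < ‖h n y‖ := by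
    intro n
    apply exists_unit
    · apply mul_nonneg (norm_nonneg _)
      linarith [(hn2 n).2]
    · have := mul_pos (h0 n) (hn2 n).1
      nlinarith
  choose x hx1 hx2 using hex
  refine ⟨x, hx1, ?_⟩
  have hlim : Tendsto (fun n : ℕ => ‖h n‖ * (1 - 1 / ((n : ℝ) + 2))) atTop (𝓝 1) := by
    have h2 : Tendsto (fun n : ℕ => 1 - 1 / ((n : ℝ) + 2)) atTop (𝓝 (1 - 0)) := by
      apply tendsto_const_nhds.sub
      have := (tendsto_add_atTop_iff_nat 1).mpr
        (tendsto_one_div_add_atTop_nhds_zero_nat (𝕜 := ℝ))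
      apply this.congr
      intro n
      push_cast
      ring_nf
    have := h1.mul h2
    rw [sub_zero, mul_one] at this
    exact this
  apply tendsto_of_tendsto_of_tendsto_of_le_of_le hlim h1 (fun n => (hx2 n).le)
  intro n
  have := (h n).le_opNorm (x n)
  rw [hx1 n, mul_one] at this
  exact this

/-- adding a far weak-star null functional does not increase the norm -/
lemma add_small (hW : WMP 𝕜 E (lp (fun _ : ℕ => 𝕜) ∞)) (g : ℕ → (E →L[𝕜] 𝕜))
    (hg1 : ∀ n, ‖g n‖ = 1) (hg : ∀ x, Tendsto (fun n => g n x) atTop (𝓝 0))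
    (f : E →L[𝕜] 𝕜) (hf : ‖f‖ < 1) (τ : ℝ) (hτ : 0 < τ) :
    ∀ᶠ n in atTop, ‖f + g n‖ ≤ 1 + τ := by
  by_contra hcon
  rw [not_eventually] at hcon
  obtain ⟨φ, hφ, hφ2⟩ := extraction_of_frequently_atTop hcon
  have hin : ∀ n, ‖f + g (φ n)‖ ∈ Icc (1 + τ) 2 := by
    intro n
    have h1 := hφ2 n
    push Not at h1
    refine ⟨h1.le, ?_⟩
    refine (norm_add_le _ _).trans ?_
    rw [hg1]
    linarith
  obtain ⟨c, hc, ψ, hψ, hlim⟩ := isCompact_Icc.tendsto_subseq hin
  have hc1 : 1 + τ ≤ c := hc.1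
  have hc0 : 0 < c := by linarith
  set h : ℕ → (E →L[𝕜] 𝕜) := fun n => ((c⁻¹ : ℝ) : 𝕜) • (f + g (φ (ψ n))) with hh
  have hnorm : ∀ n, ‖h n‖ = c⁻¹ * ‖f + g (φ (ψ n))‖ := by
    intro n
    simp only [hh]
    rw [norm_smul, RCLike.norm_ofReal, abs_of_pos (by positivity)]
  have hh1 : Tendsto (fun n => ‖h n‖) atTop (𝓝 1) := by
    simp_rw [hnorm]
    have := hlim.const_mul c⁻¹
    rw [inv_mul_cancel₀ hc0.ne'] at this
    exact this
  have hh0 : ∀ n, 0 < ‖h n‖ := by
    intro n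
    rw [hnorm]
    have h1 := (hin (ψ n)).1
    have h2 : 0 < ‖f + g (φ (ψ n))‖ := lt_of_lt_of_le (by linarith) h1
    exact mul_pos (by positivity) h2
  obtain ⟨u, hu1, hu2⟩ := exists_norming h hh0 hh1
  have hsub : Tendsto (fun n => φ (ψ n)) atTop atTop :=
    hφ.tendsto_atTop.comp hψ.tendsto_atTop
  have hnull := norming_null hW h (((c⁻¹ : ℝ) : 𝕜) • f) (by
      intro x
      have h1 : Tendsto (fun n => ((c⁻¹ : ℝ) : 𝕜) * (f x + g (φ (ψ n)) x)) atTop
          (𝓝 (((c⁻¹ : ℝ) : 𝕜) * (f x + 0))) :=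
        (tendsto_const_nhds.add ((hg x).comp hsub)).const_mul _
      rw [add_zero] at h1
      exact h1) hh1 (by
      rw [norm_smul, RCLike.norm_ofReal, abs_of_pos (by positivity)]
      have : c⁻¹ ≤ 1 := inv_le_one_of_one_le₀ (by linarith)
      have h0 := norm_nonneg f
      have h2 : 0 < c⁻¹ := by positivity
      nlinarith) u hu1 hu2
  have hfu := hnull f
  have h3 : Tendsto (fun n => ‖f (u n)‖ + 1) atTop (𝓝 (0 + 1)) := by
    have := hfu.norm
    rw [norm_zero] at this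
    exact this.add_const 1
  have h4 : Tendsto (fun n => c * ‖h n (u n)‖) atTop (𝓝 (c * 1)) := hu2.const_mul c
  have h5 : ∀ n, c * ‖h n (u n)‖ ≤ ‖f (u n)‖ + 1 := by
    intro n
    have e1 : h n (u n) = ((c⁻¹ : ℝ) : 𝕜) * (f (u n) + g (φ (ψ n)) (u n)) := rfl
    rw [e1, norm_mul, RCLike.norm_ofReal, abs_of_pos (by positivity), ← mul_assoc,
      mul_inv_cancel₀ hc0.ne', one_mul]
    refine (norm_add_le _ _).trans ?_
    have := (g (φ (ψ n))).le_opNorm (u n)
    rw [hg1, hu1, mul_one] at this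
    linarith
  have h6 := le_of_tendsto_of_tendsto' h4 h3 h5
  linarith

lemma add_small' (hW : WMP 𝕜 E (lp (fun _ : ℕ => 𝕜) ∞)) (g : ℕ → (E →L[𝕜] 𝕜))
    (hg1 : ∀ n, ‖g n‖ = 1) (hg : ∀ x, Tendsto (fun n => g n x) atTop (𝓝 0))
    (f : E →L[𝕜] 𝕜) (τ : ℝ) (hτ : 0 < τ) :
    ∀ᶠ n in atTop, ‖f + g n‖ ≤ max ‖f‖ 1 + τ := by
  rcases lt_or_ge ‖f‖ 1 with hf | hf
  · filter_upwards [add_small hW g hg1 hg f hf τ hτ] with n hn
    exact hn.trans (by linarith [le_max_right ‖f‖ 1])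
  · set r : ℝ := ‖f‖ + τ / 2 with hr
    have hr1 : 1 ≤ r := by linarith
    have hr0 : 0 < r := by linarith
    have hinv : r⁻¹ ≤ 1 := inv_le_one_of_one_le₀ hr1
    have hinv0 : 0 < r⁻¹ := by positivity
    have hfr : ‖((r⁻¹ : ℝ) : 𝕜) • f‖ < 1 := by
      rw [norm_smul, RCLike.norm_ofReal, abs_of_pos hinv0, inv_mul_lt_iff₀ hr0]
      linarith
    filter_upwards [add_small hW g hg1 hg _ hfr (τ / 2) (by linarith)] with n hn
    have e1 : f + g n = (((1 - r⁻¹ : ℝ)) : 𝕜) • f + (((r⁻¹ : ℝ) : 𝕜) • f + g n) := by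
      have e0 : (((1 - r⁻¹ : ℝ)) : 𝕜) • f + ((r⁻¹ : ℝ) : 𝕜) • f = f := by
        ext z
        change (((1 - r⁻¹ : ℝ)) : 𝕜) * f z + ((r⁻¹ : ℝ) : 𝕜) * f z = f z
        push_cast
        ring
      rw [← add_assoc, e0]
    rw [e1]
    refine (norm_add_le _ _).trans ?_
    rw [norm_smul, RCLike.norm_ofReal, abs_of_nonneg (by linarith : 0 ≤ 1 - r⁻¹), max_eq_left hf]
    have e2 : r⁻¹ * ‖f‖ = 1 - r⁻¹ * (τ / 2) := by
      have : r⁻¹ * r = 1 := inv_mul_cancel₀ hr0.ne'
      rw [hr] at this ⊢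
      linarith
    nlinarith

/-- Main theorem -/
theorem main (h : WMP 𝕜 E (lp (fun _ : ℕ => 𝕜) ∞)) : FiniteDimensional 𝕜 E := by
  classical
  by_contra hE
  obtain ⟨g, hg1, hg⟩ := exists_null hE
  have hgn : Tendsto (fun n => ‖g n‖) atTop (𝓝 1) := by
    simp_rw [hg1]
    exact tendsto_const_nhds
  obtain ⟨x, hx1, hx2⟩ := exists_norming g (fun n => by rw [hg1]; norm_num) hgn
  have hxnull : WeaklyNull 𝕜 x := norming_null h g 0 (by simpa using hg) hgn (by simp) x hx1 hx2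
  -- choice of the next index
  have hnext : ∀ l : List ℕ, ∃ n : ℕ, l.length ≤ n ∧
      ‖(l.map g).sum + g n‖ ≤ max ‖(l.map g).sum‖ 1 + (1 / 2) ^ (l.length + 1) ∧
      (∀ j ∈ l, ‖g n (x j)‖ ≤ (1 / 2) ^ l.length) ∧
      (∀ j ∈ l, ‖g j (x n)‖ ≤ (1 / 2) ^ l.length / (l.length + 1)) := by
    intro l
    have a1 := eventually_ge_atTop l.length
    have a2 := add_small' h g hg1 hg (l.map g).sum ((1 / 2) ^ (l.length + 1)) (by positivity)
    have a3 : ∀ᶠ n in atTop, ∀ j ∈ l, ‖g n (x j)‖ ≤ (1 / 2) ^ l.length := by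
      have : ∀ j ∈ l.toFinset, ∀ᶠ n in atTop, ‖g n (x j)‖ ≤ (1 / 2) ^ l.length := by
        intro j _
        have h1 := (hg (x j)).norm
        rw [norm_zero] at h1
        exact h1.eventually (ge_mem_nhds (by positivity))
      have := (Finset.eventually_all l.toFinset).mpr this
      filter_upwards [this] with n hn j hj
      exact hn j (List.mem_toFinset.mpr hj)
    have a4 : ∀ᶠ n in atTop, ∀ j ∈ l, ‖g j (x n)‖ ≤ (1 / 2) ^ l.length / (l.length + 1) := by
      have : ∀ j ∈ l.toFinset, ∀ᶠ n in atTop,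
          ‖g j (x n)‖ ≤ (1 / 2) ^ l.length / (l.length + 1) := by
        intro j _
        have h1 := (hxnull (g j)).norm
        rw [norm_zero] at h1
        exact h1.eventually (ge_mem_nhds (by positivity))
      have := (Finset.eventually_all l.toFinset).mpr this
      filter_upwards [this] with n hn j hj
      exact hn j (List.mem_toFinset.mpr hj)
    obtain ⟨n, hn⟩ := (a1.and (a2.and (a3.and a4))).exists
    exact ⟨n, hn.1, hn.2.1, hn.2.2.1, hn.2.2.2⟩
  choose nx hx_len hx_sum hx_c1 hx_c2 using hnext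
  let L : ℕ → List ℕ := fun k => Nat.rec [] (fun _ l => nx l :: l) k
  have hL0 : L 0 = [] := rfl
  have hLs : ∀ k, L (k + 1) = nx (L k) :: L k := fun k => rfl
  have hLlen : ∀ k, (L k).length = k := by
    intro k
    induction k with
    | zero => rfl
    | succ k ih => rw [hLs, List.length_cons, ih]
  set ν : ℕ → ℕ := fun k => nx (L k) with hν
  have hLmem : ∀ k j, j < k → ν j ∈ L k := by
    intro k
    induction k with
    | zero => intro j hj; omega
    | succ k ih =>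
      intro j hj
      rw [hLs, List.mem_cons]
      rcases Nat.lt_succ_iff_lt_or_eq.mp hj with h1 | h1
      · exact Or.inr (ih j h1)
      · subst h1
        exact Or.inl rfl
  have hsum : ∀ k, ((L k).map g).sum = ∑ j ∈ Finset.range k, g (ν j) := by
    intro k
    induction k with
    | zero => simp [hL0]
    | succ k ih =>
      rw [hLs, List.map_cons, List.sum_cons, ih, Finset.sum_range_succ, add_comm]
  set S : ℕ → (E →L[𝕜] 𝕜) := fun k => ∑ j ∈ Finset.range k, g (ν j) with hS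
  have hSb' : ∀ k, ‖S k‖ ≤ 2 - (1 / 2) ^ k := by
    intro k
    induction k with
    | zero => simp [hS]
    | succ k ih =>
      have h1 := hx_sum (L k)
      rw [hLlen, hsum] at h1
      have e1 : S (k + 1) = S k + g (ν k) := by
        simp only [hS]
        rw [Finset.sum_range_succ]
      rw [e1]
      refine h1.trans ?_
      have h2 : max ‖S k‖ 1 ≤ 2 - (1 / 2) ^ k := by
        apply max_le ih
        have : (1 / 2 : ℝ) ^ k ≤ 1 := pow_le_one₀ (by norm_num) (by norm_num)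
        linarith
      have h3 : (1 / 2 : ℝ) ^ (k + 1) = (1 / 2) ^ k / 2 := by rw [pow_succ]; ring
      change max ‖S k‖ 1 + (1 / 2) ^ (k + 1) ≤ _
      rw [h3]
      linarith
  have hSb : ∀ k, ‖S k‖ ≤ 2 := by
    intro k
    have := hSb' k
    have h2 : (0 : ℝ) < (1 / 2) ^ k := by positivity
    linarith
  obtain ⟨H, _, hH⟩ := wlim S 2 hSb
  have hνge : ∀ k, k ≤ ν k := by
    intro k
    have := hx_len (L k)
    rwa [hLlen] at this
  have hνt : Tendsto ν atTop atTop := tendsto_atTop_mono hνge tendsto_id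
  -- cross terms
  have hcross : ∀ k K, k < K → ‖S K (x (ν k)) - g (ν k) (x (ν k))‖ ≤ 2 * (1 / 2) ^ k := by
    intro k K hkK
    have e1 : ∀ K, k < K → ‖S K (x (ν k)) - g (ν k) (x (ν k))‖ ≤
        2 * (1 / 2) ^ k - (1 / 2) ^ (K - 1) := by
      intro K hK
      induction K, hK using Nat.le_induction with
      | base =>
        have e2 : S (k + 1) (x (ν k)) - g (ν k) (x (ν k)) =
            ∑ j ∈ Finset.range k, g (ν j) (x (ν k)) := by
          simp only [hS]
          rw [Finset.sum_range_succ]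
          simp
        rw [e2]
        refine (norm_sum_le _ _).trans ?_
        have e3 : ∀ j ∈ Finset.range k, ‖g (ν j) (x (ν k))‖ ≤ (1 / 2) ^ k / (k + 1) := by
          intro j hj
          have := hx_c2 (L k) (ν j) (hLmem k j (Finset.mem_range.mp hj))
          rwa [hLlen] at this
        refine (Finset.sum_le_sum e3).trans ?_
        rw [Finset.sum_const, Finset.card_range, nsmul_eq_mul]
        have e4 : (k : ℝ) * ((1 / 2) ^ k / (k + 1)) ≤ (1 / 2) ^ k := by
          rw [mul_div_assoc', div_le_iff₀ (by positivity)]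
          have : (0 : ℝ) < (1 / 2) ^ k := by positivity
          nlinarith
        have e5 : k + 1 - 1 = k := by omega
        rw [e5]
        linarith
      | succ K hK ih =>
        have hK' : k < K := hK
        have e2 : S (K + 1) (x (ν k)) - g (ν k) (x (ν k)) =
            (S K (x (ν k)) - g (ν k) (x (ν k))) + g (ν K) (x (ν k)) := by
          simp only [hS]
          rw [Finset.sum_range_succ]
          simp
          ring
        rw [e2]
        refine (norm_add_le _ _).trans ?_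
        have e3 : ‖g (ν K) (x (ν k))‖ ≤ (1 / 2) ^ K := by
          have := hx_c1 (L K) (ν k) (hLmem K k hK')
          rwa [hLlen] at this
        have e4 : (1 / 2 : ℝ) ^ (K - 1) = 2 * (1 / 2) ^ K := by
          obtain ⟨m, rfl⟩ : ∃ m, K = m + 1 := ⟨K - 1, by omega⟩
          rw [Nat.add_sub_cancel, pow_succ]
          ring
        have e5 : K + 1 - 1 = K := by omega
        rw [e5]
        rw [e4] at ih
        linarith
    have := e1 K hkK
    have h2 : (0 : ℝ) < (1 / 2) ^ (K - 1) := by positivity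
    linarith
  have hHk : ∀ k, ‖H (x (ν k)) - g (ν k) (x (ν k))‖ ≤ 2 * (1 / 2) ^ k := by
    intro k
    have h1 : Tendsto (fun K => ‖S K (x (ν k)) - g (ν k) (x (ν k))‖)
        (hyperfilter ℕ : Filter ℕ) (𝓝 ‖H (x (ν k)) - g (ν k) (x (ν k))‖) :=
      ((hH (x (ν k))).sub_const _).norm
    apply le_of_tendsto h1
    filter_upwards [Nat.hyperfilter_le_atTop (eventually_gt_atTop k)] with K hK
    exact hcross k K hK
  have hlow : ∀ k, ‖g (ν k) (x (ν k))‖ - 2 * (1 / 2) ^ k ≤ ‖H (x (ν k))‖ := by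
    intro k
    have h1 := hHk k
    have h2 := norm_sub_norm_le (g (ν k) (x (ν k))) (H (x (ν k)))
    rw [norm_sub_rev] at h2
    linarith
  have hl1 : Tendsto (fun k => ‖g (ν k) (x (ν k))‖ - 2 * (1 / 2 : ℝ) ^ k) atTop
      (𝓝 (1 - 2 * 0)) := by
    apply (hx2.comp hνt).sub
    exact (tendsto_pow_atTop_nhds_zero_of_lt_one (by norm_num) (by norm_num)).const_mul 2
  have hl2 : Tendsto (fun k => ‖H (x (ν k))‖) atTop (𝓝 0) := by
    have := ((hxnull H).comp hνt).norm
    rw [norm_zero] at this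
    exact this
  have := le_of_tendsto_of_tendsto' hl1 hl2 hlow
  norm_num at this

end Pool.Agent.Wmp
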